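import Pool.Agent.MP_a28cf0_nt.Mg.Dec_Eig

-- part MP_a28cf0_nt.Dec.Bes
section

set_option autoImplicit false

namespace Pool.Agent.MP_a28cf0_nt.Dec

open MeasureTheory Complex Filter Topology Set
open scoped ENNReal MatrixGroups ComplexConjugate
open Pool.Agent.MP_a28cf0_nt.Cub

/-! Bessel inequalities on the modular surface.
`gb`: let `k' z = ∑' γ, k (γ z)` (at most `n` non zero terms).  Unfolding (`lint_unfold` for the
integrability and for the positive and negative parts, or `integral_tsum`) gives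
`2 ∫ k g = ∫_{Fd} k' g`, Cauchy-Schwarz gives `‖k' z‖² ≤ n ∑' ‖k (γ z)‖²`, so
`∫_{Fd} ‖k'‖² ≤ 2 n ∫ ‖k‖²`; Bessel for the orthonormal family `g j / √(π/3)` of
`L² (muH.restrict Fd)` (`Orthonormal.sum_inner_products_le`, or expand
`0 ≤ ∫ ‖k' - ∑ c j g j‖²`).  The constant is `(1/4) (π/3) 2 n ≤ n`.
`mult_ball`: if `γ z, γ' z ∈ S` then `w = γ' z` and `γ γ'⁻¹ w` lie in `S`.  For `z₀.im ≤ 2` all
such balls lie in one compact set and `finite_act` applies; for `z₀.im > 2` the formula `im_mb`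
forces the lower left entry to vanish, so `γ γ'⁻¹ = ± T^k` with `|k| ≤ 4 r z₀.im`. -/

theorem Bes.mono {ι : Type} {N N' : ℝ} {s s' : Finset ι} {G : ι → ℂ → ℝ} (h : Bes N s G)
    (hN : N ≤ N') (hs : s' ⊆ s) : Bes N' s' G := fun k hk hb =>
  (Finset.sum_le_sum_of_subset_of_nonneg hs fun _ _ _ => sq_nonneg _).trans
    ((h k hk hb).trans (mul_le_mul_of_nonneg_right hN (integral_nonneg fun _ => sq_nonneg _)))

theorem bessel_low {K : Set ℂ} (hK : IsCompact K) (hU : K ⊆ Up) :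
    ∃ d : ℝ, 0 < d ∧ ∀ w ∈ K, d ≤ w.im := by
  rcases K.eq_empty_or_nonempty with h | h
  · exact ⟨1, one_pos, by simp [h]⟩
  · obtain ⟨z, hz, hm⟩ := hK.exists_isMinOn h continuous_im.continuousOn
    exact ⟨z.im, hU hz, fun w hw => hm hw⟩

theorem bessel_fin {K K' : Set ℂ} (hK : IsCompact K) (hU : K ⊆ Up) (hK' : IsCompact K')
    (hU' : K' ⊆ Up) : {γ : SL(2, ℤ) | ∃ w ∈ K', mb (act γ one) w ∈ K}.Finite := by
  obtain ⟨d, hd, h1⟩ := bessel_low hK hU
  obtain ⟨d', hd', h2⟩ := bessel_low hK' hU'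
  obtain ⟨R, hR⟩ := hK.isBounded.exists_norm_le
  obtain ⟨R', hR'⟩ := hK'.isBounded.exists_norm_le
  refine (finite_act (|R'| + 1) ((|R| + 1) * (|R'| / d + 1)) d' hd').subset ?_
  rintro γ ⟨w, hw, hγ⟩
  have hM := aff_mem (hU' hw)
  have hdt : dt ((w, 1) : E) = w.im := by simp [dt]
  have hp : pr (act γ (w, 1)) = mb (act γ one) w := by rw [pr_act_mb γ hM, pr_aff]
  have hG := unfold_mem γ hM
  have hn := snd_ne_zero hG
  have ha := (hR' w hw).trans (le_abs_self _)
  have hb := (hR _ hγ).trans (le_abs_self _)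
  have hq : 0 ≤ |R'| / d := by positivity
  have h3 : ‖(act γ (w, 1)).2‖ ≤ |R'| / d + 1 := by
    have e := im_pr (act γ (w, 1))
    rw [hp, dt_act, hdt, Complex.normSq_eq_norm_sq] at e
    have h4 := h1 _ hγ
    have h5 : 0 < ‖(act γ (w, 1)).2‖ ^ 2 := by positivity
    rw [e, le_div_iff₀ h5] at h4
    have h6 : ‖(act γ (w, 1)).2‖ ^ 2 ≤ |R'| / d := by
      rw [le_div_iff₀ hd]
      have := (le_abs_self _).trans ((abs_im_le_norm w).trans ha)
      linarith
    nlinarith [sq_nonneg (‖(act γ (w, 1)).2‖ - 1), norm_nonneg (act γ (w, 1)).2]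
  refine ⟨(w, 1), ?_, hdt ▸ h2 w hw, ?_⟩
  · rw [Prod.norm_def]
    exact max_le (by simpa using ha.trans (le_add_of_nonneg_right zero_le_one))
      (by simp)
  · rw [Prod.norm_def]
    refine max_le ?_ (h3.trans (le_mul_of_one_le_left (by linarith)
      (le_add_of_nonneg_left (abs_nonneg _))))
    have e : (act γ (w, 1)).1 = mb (act γ one) w * (act γ (w, 1)).2 := by
      rw [← hp, pr, div_mul_cancel₀ _ hn]
    rw [e, norm_mul]
    exact mul_le_mul (hb.trans (le_add_of_nonneg_right zero_le_one)) h3 (norm_nonneg _)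
      (by positivity)

theorem bessel_inv (γ : SL(2, ℤ)) {w : ℂ} (hw : w ∈ Up) :
    mb (act γ⁻¹ one) (mb (act γ one) w) = w := by
  rw [← mb_act_act _ _ hw, inv_mul_cancel, act_one, mb_one]

theorem bessel_finFd {K : Set ℂ} (hK : IsCompact K) (hU : K ⊆ Up) :
    {γ : SL(2, ℤ) | ∃ w ∈ Fd, mb (act γ one) w ∈ K}.Finite := by
  obtain ⟨H, -, hH⟩ := ht_bound hK hU
  refine (bessel_fin hK hU (isCompact_Fd_le H) fun z hz => Fd_sub hz.1).subset ?_
  rintro γ ⟨w, hw, h⟩
  have := hH _ h γ⁻¹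
  rw [bessel_inv γ (Fd_sub hw)] at this
  exact ⟨w, ⟨hw, this⟩, h⟩

theorem bessel_meas (A : E) : Measurable (mb A) := by
  have h : mb A = fun w : ℂ =>
      ((A.1.im : ℂ) * w + (A.1.re : ℂ)) / ((A.2.im : ℂ) * w + (A.2.re : ℂ)) := funext (mb_eq A)
  rw [h]
  fun_prop

theorem bessel_measure : (2 : ℝ≥0∞) • muH =
    Measure.sum fun γ : SL(2, ℤ) => (muH.restrict Fd).map (mb (act γ one)) := by
  ext A hA
  have h := lint_unfold (F := A.indicator 1) (measurable_one.indicator hA)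
  rw [lintegral_indicator_one hA] at h
  rw [Measure.smul_apply, smul_eq_mul, h, Measure.sum_apply _ hA]
  refine tsum_congr fun γ => ?_
  rw [Measure.map_apply (bessel_meas _) hA, ← lintegral_indicator_one (bessel_meas _ hA)]
  rfl

theorem bessel_unf {V : Type} [NormedAddCommGroup V] [NormedSpace ℝ V] {F : ℂ → V}
    (hF : Integrable F muH) {T : Finset SL(2, ℤ)}
    (hT : ∀ γ, γ ∉ T → ∀ w ∈ Fd, F (mb (act γ one) w) = 0) :
    (2 : ℝ) • ∫ w, F w ∂muH = ∫ w in Fd, ∑ γ ∈ T, F (mb (act γ one) w) ∂muH := by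
  have : Countable SL(2, ℤ) :=
    inferInstanceAs (Countable {A : Fin 2 → Fin 2 → ℤ // Matrix.det (Matrix.of A) = 1})
  have h1 : Integrable F ((2 : ℝ≥0∞) • muH) := hF.smul_measure (by simp)
  have h2 := integral_smul_measure F (2 : ℝ≥0∞) (μ := muH)
  rw [bessel_measure] at h1 h2
  have h3 : ∀ γ : SL(2, ℤ), ∫ w, F w ∂(muH.restrict Fd).map (mb (act γ one)) =
      ∫ w in Fd, F (mb (act γ one) w) ∂muH := fun γ =>
    integral_map (bessel_meas _).aemeasurable
      (h1.mono_measure (Measure.le_sum _ γ)).aestronglyMeasurable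
  rw [integral_sum_measure h1, tsum_congr h3, tsum_eq_sum (s := T) fun γ hγ =>
    setIntegral_eq_zero_of_forall_eq_zero (hT γ hγ)] at h2
  rw [integral_finsetSum (f := fun γ w => F (mb (act γ one) w)) _ fun γ _ =>
    ((mp_mb (act_one_mem γ)).integrable_comp_of_integrable hF).integrableOn, h2]
  simp

theorem bessel_abs {ι : Type} {s : Finset ι} {g : ι → ℂ → ℝ} {μ : Measure ℂ} {c : ℝ} (hc : 0 < c)
    (hg : ∀ j ∈ s, MemLp (fun w => (g j w : ℂ)) 2 μ)
    (h1 : ∀ j ∈ s, ∫ w, g j w * g j w ∂μ = c)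
    (h0 : ∀ i ∈ s, ∀ j ∈ s, i ≠ j → ∫ w, g i w * g j w ∂μ = 0) {k : ℂ → ℂ} (hk : MemLp k 2 μ) :
    ∑ j ∈ s, ‖∫ w, k w * (g j w : ℂ) ∂μ‖ ^ 2 ≤ c * ∫ w, ‖k w‖ ^ 2 ∂μ := by
  classical
  have hin : ∀ (j : s) (u : ℂ → ℂ) (hu : MemLp u 2 μ),
      inner ℂ ((hg j j.2).toLp _) (hu.toLp u) = ∫ w, u w * (g j w : ℂ) ∂μ := fun j u hu => by
    rw [L2.inner_def]
    refine integral_congr_ae ?_
    filter_upwards [(hg j j.2).coeFn_toLp, hu.coeFn_toLp] with w e1 e2
    rw [e1, e2]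
    simp
  have hs : 0 < √c := Real.sqrt_pos.2 hc
  have hcc : (((√c)⁻¹ : ℝ) : ℂ) * (((√c)⁻¹ : ℝ) * (c : ℂ)) = 1 := by
    rw [← ofReal_mul, ← ofReal_mul, ← mul_assoc, ← mul_inv, Real.mul_self_sqrt hc.le,
      inv_mul_cancel₀ hc.ne', ofReal_one]
  have ho : Orthonormal ℂ fun j : s => (((√c)⁻¹ : ℝ) : ℂ) • (hg j j.2).toLp _ := by
    rw [orthonormal_iff_ite]
    intro i j
    rw [inner_smul_left, inner_smul_right, hin i _ (hg j j.2), conj_ofReal]
    simp only [← ofReal_mul (g _ _), integral_complex_ofReal]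
    split_ifs with e
    · rw [e, h1 j j.2, hcc]
    · rw [h0 j j.2 i i.2 fun e' => e (Subtype.ext e'.symm)]
      simp
  have hb := ho.sum_inner_products_le (hk.toLp k) (s := Finset.univ)
  have hn : ‖hk.toLp k‖ ^ 2 = ∫ w, ‖k w‖ ^ 2 ∂μ := by
    rw [← real_inner_self_eq_norm_sq, L2.inner_def]
    refine integral_congr_ae ?_
    filter_upwards [hk.coeFn_toLp] with w e
    rw [e, real_inner_self_eq_norm_sq]
  simp only [inner_smul_left, hin, conj_ofReal, norm_mul, mul_pow, norm_real, Real.norm_eq_abs,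
    sq_abs, inv_pow, Real.sq_sqrt hc.le] at hb
  rw [← Finset.mul_sum, hn, inv_mul_le_iff₀ hc,
    Finset.sum_coe_sort s fun j => ‖∫ w, k w * (g j w : ℂ) ∂μ‖ ^ 2] at hb
  exact hb

theorem bessel_int {V : Type} [NormedAddCommGroup V] {F : ℂ → V}
    (hF : AEStronglyMeasurable F muH) {S K : Set ℂ} (hK : IsCompact K) (hU : K ⊆ Up) (hS : S ⊆ K)
    (h0 : ∀ w ∈ Up, w ∉ S → F w = 0) {b : ℝ} (hb : ∀ w ∈ S, ‖F w‖ ≤ b) : Integrable F muH := by
  have h1 : Integrable (K.indicator fun _ => |b|) muH :=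
    (integrable_indicator_iff hK.measurableSet).2 (integrableOn_const (muH_compact hK hU).ne)
  refine h1.mono' hF ?_
  filter_upwards [ae_Up] with w hw
  by_cases h : w ∈ S
  · rw [indicator_of_mem (hS h)]
    exact (hb w h).trans (le_abs_self _)
  · rw [h0 w hw h, norm_zero]
    exact indicator_nonneg (fun _ _ => abs_nonneg _) _

theorem gb {ι : Type} {s : Finset ι} {g : ι → ℂ → ℝ} {t : ι → ℝ} (h : Ort s g t) {k : ℂ → ℂ}
    (hm : Measurable k) {S K : Set ℂ} (hK : IsCompact K) (hU : K ⊆ Up) (hS : S ⊆ K)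
    (h0 : ∀ w ∈ Up, w ∉ S → k w = 0) (hb : ∃ b : ℝ, ∀ w ∈ S, ‖k w‖ ≤ b) {n : ℝ} (hn : Mult S n) :
    ∑ j ∈ s, ‖∫ w, k w * (g j w : ℂ) ∂muH‖ ^ 2 ≤ n * ∫ w, ‖k w‖ ^ 2 ∂muH := by
  classical
  obtain ⟨b, hb⟩ := hb
  obtain ⟨T, hT⟩ : ∃ T : Finset SL(2, ℤ), ∀ γ, γ ∉ T → ∀ w ∈ Fd, k (mb (act γ one) w) = 0 :=
    ⟨(bessel_finFd hK hU).toFinset, fun γ hγ w hw =>
      h0 _ (mb_mem (act_one_mem γ) (Fd_sub hw)) fun h' =>
        hγ ((Finite.mem_toFinset _).2 ⟨w, hw, hS h'⟩)⟩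
  have hn0 : 0 ≤ n := by simpa using hn I (by simp [Up]) ∅ (by simp)
  have hk2 : Integrable (fun w => ‖k w‖ ^ 2) muH :=
    bessel_int (b := b ^ 2) (hm.norm.pow_const 2).aestronglyMeasurable hK hU hS
      (fun w hw h' => by simp [h0 w hw h']) fun w hw => by
        rw [Real.norm_of_nonneg (sq_nonneg _)]
        exact pow_le_pow_left₀ (norm_nonneg _) (hb w hw) 2
  have hkL : MemLp k 2 muH := (memLp_two_iff_integrable_sq_norm hm.aestronglyMeasurable).2 hk2
  have hk' : MemLp (fun w => ∑ γ ∈ T, k (mb (act γ one) w)) 2 (muH.restrict Fd) :=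
    memLp_finsetSum _ fun γ _ => (hkL.comp_measurePreserving (mp_mb (act_one_mem γ))).restrict _
  have hs : ∀ F : ℂ → ℝ, ∫ w in Fd, F w ∂muH = ∫ w in Fd, F w / w.im ^ 2 := fun F => by
    rw [setInt_muH F measurableSet_Fd Fd_sub]
    exact integral_congr_ae (.of_forall fun w => by simp only [smul_eq_mul]; ring)
  have hB := bessel_abs (s := s) (g := g) (μ := muH.restrict Fd) (c := Real.pi / 3)
    (by positivity) (fun j hj => by
      refine (memLp_two_iff_integrable_sq_norm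
        (measurable_ofReal.comp (h.form j hj).meas).aestronglyMeasurable).2 ?_
      refine ((integrableOn_muH (F := fun w => g j w ^ 2) measurableSet_Fd Fd_sub).2
        (h.form j hj).int).congr (.of_forall fun w => ?_)
      simp)
    (fun j hj => by simpa only [hs, ← sq] using (h.form j hj).nrm)
    (fun i hi j hj hij => by rw [hs]; exact h.orth i hi j hj hij) hk'
  have e1 : ∀ j ∈ s, ‖∫ w in Fd, (∑ γ ∈ T, k (mb (act γ one) w)) * (g j w : ℂ) ∂muH‖ ^ 2 =
      4 * ‖∫ w, k w * (g j w : ℂ) ∂muH‖ ^ 2 := fun j hj => by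
    obtain ⟨b', hb'⟩ := (h.form j hj).toEig.bd hK hU
    have hi : Integrable (fun w => k w * (g j w : ℂ)) muH :=
      bessel_int (b := b * b') (hm.mul (measurable_ofReal.comp
        (h.form j hj).meas)).aestronglyMeasurable hK hU hS (fun w hw h' => by simp [h0 w hw h'])
        fun w hw => by
          rw [norm_mul, norm_real, Real.norm_eq_abs]
          exact mul_le_mul (hb w hw) (hb' w (hS hw)) (abs_nonneg _)
            ((norm_nonneg _).trans (hb w hw))
    have hu := bessel_unf hi (T := T) fun γ hγ w hw => by rw [hT γ hγ w hw, zero_mul]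
    have e : ∫ w in Fd, (∑ γ ∈ T, k (mb (act γ one) w)) * (g j w : ℂ) ∂muH =
        (2 : ℝ) • ∫ w, k w * (g j w : ℂ) ∂muH := by
      rw [hu]
      refine setIntegral_congr_fun measurableSet_Fd fun w hw => ?_
      simp only [Finset.sum_mul, (h.form j hj).inv.mb _ (Fd_sub hw)]
    rw [e, norm_smul, mul_pow]
    norm_num
  have hu := bessel_unf hk2 (T := T) fun γ hγ w hw => by simp [hT γ hγ w hw]
  have e2 : ∫ w in Fd, ‖∑ γ ∈ T, k (mb (act γ one) w)‖ ^ 2 ∂muH ≤
      n * (2 * ∫ w, ‖k w‖ ^ 2 ∂muH) := by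
    rw [← smul_eq_mul 2, hu, ← integral_const_mul]
    refine setIntegral_mono_on ((memLp_two_iff_integrable_sq_norm hk'.1).1 hk')
      ((integrable_finsetSum _ fun γ _ =>
        ((mp_mb (act_one_mem γ)).integrable_comp_of_integrable hk2).integrableOn).const_mul n)
      measurableSet_Fd fun w hw => ?_
    have e3 : ∑ γ ∈ T, k (mb (act γ one) w) =
        ∑ γ ∈ T.filter fun γ => mb (act γ one) w ∈ S, k (mb (act γ one) w) :=
      (Finset.sum_filter_of_ne fun γ _ h' => not_not.1 fun h'' =>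
        h' (h0 _ (mb_mem (act_one_mem γ) (Fd_sub hw)) h'')).symm
    have e4 := hn w (Fd_sub hw) (T.filter fun γ => mb (act γ one) w ∈ S) fun γ hγ =>
      (Finset.mem_filter.1 hγ).2
    rw [e3]
    refine (pow_le_pow_left₀ (norm_nonneg _) (norm_sum_le _ _) 2).trans
      (sq_sum_le_card_mul_sum_sq.trans (mul_le_mul e4 ?_ ?_ hn0))
    · exact Finset.sum_le_sum_of_subset_of_nonneg (Finset.filter_subset _ _)
        fun _ _ _ => sq_nonneg _
    · exact Finset.sum_nonneg fun _ _ => sq_nonneg _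
  rw [Finset.sum_congr rfl e1, ← Finset.mul_sum] at hB
  have e5 : 0 ≤ n * ∫ w, ‖k w‖ ^ 2 ∂muH := mul_nonneg hn0 (integral_nonneg fun _ => sq_nonneg _)
  have e6 : Real.pi / 3 * ∫ w in Fd, ‖∑ γ ∈ T, k (mb (act γ one) w)‖ ^ 2 ∂muH ≤
      2 * (n * (2 * ∫ w, ‖k w‖ ^ 2 ∂muH)) :=
    mul_le_mul (by linarith [Real.pi_le_four]) e2 (integral_nonneg fun _ => sq_nonneg _)
      zero_le_two
  linarith

theorem bessel_coord (γ : SL(2, ℤ)) : (act γ one).1.im = γ 0 0 ∧ (act γ one).1.re = γ 0 1 ∧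
    (act γ one).2.im = γ 1 0 ∧ (act γ one).2.re = γ 1 1 := by
  refine ⟨?_, ?_, ?_, ?_⟩ <;> simp [act, one]

/-- an element moving a high point to a high point is a translation -/
theorem bessel_high (δ : SL(2, ℤ)) {w : ℂ} (hw : 1 < w.im) (hw' : 1 < (mb (act δ one) w).im) :
    δ 1 0 = 0 ∧ δ 0 0 = δ 1 1 ∧ (δ 1 1 = 1 ∨ δ 1 1 = -1) ∧
      |(δ 0 1 : ℝ)| = ‖mb (act δ one) w - w‖ := by
  obtain ⟨c1, c2, c3, c4⟩ := bessel_coord δ
  have hc : δ 1 0 = 0 := by
    by_contra hc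
    have h1 : (1 : ℝ) ≤ (δ 1 0 : ℝ) ^ 2 := by
      have h : 0 < δ 1 0 ^ 2 := by positivity
      have : 1 ≤ δ 1 0 ^ 2 := h
      exact_mod_cast this
    rw [im_mb, dt_act_one, one_mul, c3, c4] at hw'
    have h2 : w.im ^ 2 ≤ normSq ((((δ 1 0 : ℤ) : ℝ) : ℂ) * w + (((δ 1 1 : ℤ) : ℝ) : ℂ)) := by
      rw [normSq_apply]
      simp only [add_im, mul_im, ofReal_re, ofReal_im, zero_mul, add_zero]
      nlinarith [mul_self_nonneg ((((δ 1 0 : ℤ) : ℝ) : ℂ) * w + (((δ 1 1 : ℤ) : ℝ) : ℂ)).re,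
        sq_nonneg w.im]
    rw [one_lt_div (lt_of_lt_of_le (by positivity) h2)] at hw'
    nlinarith
  have hd : δ 0 0 * δ 1 1 = 1 := by
    have h := δ.det_coe
    rw [Matrix.det_fin_two, hc] at h
    simpa using h
  have e := mb_eq (act δ one) w
  rw [c1, c2, c3, c4, hc] at e
  rcases Int.eq_one_or_neg_one_of_mul_eq_one' hd with ⟨h1, h2⟩ | ⟨h1, h2⟩
  · refine ⟨hc, h1.trans h2.symm, Or.inl h2, ?_⟩
    rw [e, h1, h2]
    simp
  · refine ⟨hc, h1.trans h2.symm, Or.inr h2, ?_⟩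
    rw [e, h1, h2]
    have : ((((-1 : ℤ) : ℝ) : ℂ) * w + (((δ 0 1 : ℤ) : ℝ) : ℂ)) /
        ((((0 : ℤ) : ℝ) : ℂ) * w + (((-1 : ℤ) : ℝ) : ℂ)) - w = -(((δ 0 1 : ℤ) : ℝ) : ℂ) := by
      push_cast
      rw [zero_mul, zero_add, div_neg, div_one]
      ring
    rw [this, norm_neg, norm_real, Real.norm_eq_abs]

theorem mult_ball : ∃ C : ℝ, 0 ≤ C ∧ ∀ z₀ ∈ Fd, ∀ r : ℝ, 0 ≤ r → r ≤ 1 / 10 →
    Mult {w | w ∈ Up ∧ qq w z₀ ≤ r ^ 2} (C * (1 + r * z₀.im)) := by
  classical
  have hK : IsCompact (Metric.closedBall (0 : ℂ) 3 ∩ {w | 1 / 2 ≤ w.im}) :=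
    (isCompact_closedBall _ _).inter_right (isClosed_le continuous_const continuous_im)
  have hU : Metric.closedBall (0 : ℂ) 3 ∩ {w | 1 / 2 ≤ w.im} ⊆ Up := fun w hw =>
    lt_of_lt_of_le (one_half_pos (α := ℝ)) hw.2
  have hf := bessel_fin hK hU hK hU
  refine ⟨hf.toFinset.card + 16, by positivity, fun z₀ hz r h0 hr z hzU F hF => ?_⟩
  have hy := Fd_im hz
  have hry : 0 ≤ r * z₀.im := mul_nonneg h0 (by linarith)
  rcases F.eq_empty_or_nonempty with rfl | ⟨γ', hγ'⟩
  · rw [Finset.card_empty, Nat.cast_zero]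
    positivity
  have hnear : ∀ γ ∈ F, ‖mb (act γ one) z - z₀‖ ≤ 2 * r * z₀.im := fun γ hγ =>
    norm_le_of_qq (hF γ hγ).1 (Fd_sub hz) h0 (by linarith) (hF γ hγ).2
  have hry' : 2 * r * z₀.im ≤ z₀.im / 5 := by nlinarith
  have him : ∀ γ ∈ F, 4 / 5 * z₀.im ≤ (mb (act γ one) z).im := fun γ hγ => by
    have := (abs_le.1 ((abs_im_le_norm _).trans (hnear γ hγ))).1
    rw [sub_im] at this
    linarith
  have hδ : ∀ γ : SL(2, ℤ), mb (act (γ * γ'⁻¹) one) (mb (act γ' one) z) = mb (act γ one) z :=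
    fun γ => by rw [← mb_act_act _ _ hzU, inv_mul_cancel_right]
  rcases le_or_gt z₀.im 2 with h2 | h2
  · have hmem : ∀ γ ∈ F, mb (act γ one) z ∈ Metric.closedBall (0 : ℂ) 3 ∩ {w | 1 / 2 ≤ w.im} :=
      fun γ hγ => by
        refine ⟨mem_closedBall_zero_iff.2 ?_, le_trans (by linarith) (him γ hγ)⟩
        have a1 := norm_le_norm_add_norm_sub' (mb (act γ one) z) z₀
        have a2 := norm_le_abs_re_add_abs_im z₀
        have a3 := hnear γ hγ
        have a4 := hz.2.1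
        rw [abs_of_pos hz.1] at a2
        linarith
    have hc : F.card ≤ hf.toFinset.card :=
      Finset.card_le_card_of_injOn (fun γ => γ * γ'⁻¹) (fun γ hγ =>
        (Finite.mem_toFinset hf).2 ⟨_, hmem γ' hγ', by rw [hδ]; exact hmem γ hγ⟩)
        fun a _ b _ h => mul_right_cancel h
    have hc' : (F.card : ℝ) ≤ hf.toFinset.card := by exact_mod_cast hc
    have : (0 : ℝ) ≤ hf.toFinset.card := Nat.cast_nonneg _
    nlinarith
  · have hh : ∀ γ ∈ F, _ := fun γ hγ => bessel_high (γ * γ'⁻¹) (w := mb (act γ' one) z)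
      (lt_of_lt_of_le (by linarith) (him γ' hγ'))
      (by rw [hδ]; exact lt_of_lt_of_le (by linarith) (him γ hγ))
    obtain ⟨N, hN⟩ : ∃ N : ℕ, N = ⌊4 * (r * z₀.im)⌋₊ := ⟨_, rfl⟩
    have hc : F.card ≤ (({1, -1} : Finset ℤ) ×ˢ Finset.Icc (-N : ℤ) N).card := by
      refine Finset.card_le_card_of_injOn (fun γ => ((γ * γ'⁻¹) 1 1, (γ * γ'⁻¹) 0 1))
        (fun γ hγ => ?_) fun a ha b hb h => ?_
      · obtain ⟨-, -, a1, a2⟩ := hh γ hγ
        refine Finset.mem_coe.2 (Finset.mem_product.2 ⟨by simpa using a1, ?_⟩)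
        rw [hδ] at a2
        have a3 := norm_sub_le_norm_sub_add_norm_sub (mb (act γ one) z) z₀ (mb (act γ' one) z)
        rw [norm_sub_rev z₀] at a3
        have a4 : (((γ * γ'⁻¹) 0 1).natAbs : ℝ) ≤ 4 * (r * z₀.im) := by
          rw [Nat.cast_natAbs, Int.cast_abs, a2]
          linarith [hnear γ hγ, hnear γ' hγ']
        have a5 := Nat.le_floor a4
        rw [← hN] at a5
        rw [Finset.mem_Icc]
        dsimp only
        constructor <;> omega
      · obtain ⟨a1, a2, -, -⟩ := hh a ha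
        obtain ⟨b1, b2, -, -⟩ := hh b hb
        obtain ⟨e1, e2⟩ := Prod.ext_iff.1 h
        refine mul_right_cancel (b := γ'⁻¹) (Subtype.ext ?_)
        ext i j
        fin_cases i <;> fin_cases j
        · exact a2.trans (e1.trans b2.symm)
        · exact e2
        · exact a1.trans b1.symm
        · exact e1
    rw [Finset.card_product, Finset.card_pair (by norm_num), Int.card_Icc] at hc
    have hc1 : F.card ≤ 2 * (2 * N + 1) := by omega
    have hc' : (F.card : ℝ) ≤ 2 * (2 * N + 1) := by exact_mod_cast hc1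
    have hN' : (N : ℝ) ≤ 4 * (r * z₀.im) := hN ▸ Nat.floor_le (by linarith)
    have : (0 : ℝ) ≤ hf.toFinset.card := Nat.cast_nonneg _
    nlinarith

theorem isCompact_qq {z₀ : ℂ} (hz : z₀ ∈ Up) {r : ℝ} (h0 : 0 ≤ r) (hr : r ≤ 1 / 10) :
    IsCompact {w | w ∈ Up ∧ qq w z₀ ≤ r ^ 2} := by
  have hy : 0 < z₀.im := hz
  have e : {w | w ∈ Up ∧ qq w z₀ ≤ r ^ 2} = Metric.closedBall z₀ (z₀.im / 5) ∩
      {w | normSq (w - z₀) ≤ r ^ 2 * (w.im * z₀.im)} := by
    ext w
    constructor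
    · rintro ⟨h1, h2⟩
      refine ⟨mem_closedBall_iff_norm.2 ((norm_le_of_qq h1 hz h0 (by linarith) h2).trans
        (by nlinarith)), (div_le_iff₀ (mul_pos h1 hy)).1 h2⟩
    · rintro ⟨h1, h2⟩
      have h3 := (abs_le.1 ((abs_im_le_norm _).trans (mem_closedBall_iff_norm.1 h1))).1
      rw [sub_im] at h3
      have h4 : 0 < w.im := by linarith
      exact ⟨h4, (div_le_iff₀ (mul_pos h4 hy)).2 h2⟩
  rw [e]
  exact (isCompact_closedBall _ _).inter_right (isClosed_le (by fun_prop) (by fun_prop))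

theorem bes2_I : (I : ℂ) ∈ Up := by simp [Up]

theorem bes2_B0 : IsCompact B0 := isCompact_closedBall _ _

theorem bes2_mem {u : ℂ} : u ∈ B0 ↔ ‖u - I‖ ≤ 1 / 20 := by
  simp only [B0, Metric.mem_closedBall, dist_eq_norm]

theorem bes2_im {u : ℂ} (h : ‖u - I‖ ≤ 1 / 4) : u.im ^ 2 ≤ 2 := by
  have := abs_le.1 (Complex.abs_im_le_norm (u - I))
  simp only [sub_im, I_im] at this
  nlinarith [this.1, this.2]

theorem bes2_mb (M : E) : Measurable (mb M) :=
  measurable_mb.comp (f := fun w : ℂ => (M, w)) (measurable_const.prodMk measurable_id)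

theorem bes2_ind (S : Set ℂ) (a b : ℂ → ℂ) :
    (fun w => S.indicator a w * b w) = S.indicator fun w => a w * b w := by
  funext w; by_cases hw : w ∈ S <;> simp [hw]

/-- the Bessel inequality moved to a base point -/
theorem bes2_gen {ι : Type} {s : Finset ι} {g : ι → ℂ → ℝ} {t : ι → ℝ} (h : Ort s g t) {M : E}
    (hM : M ∈ Gp) {κ : ℂ → ℂ} (hm : Measurable κ) {r : ℝ} (h0 : 0 ≤ r) (hr : r ≤ 1 / 10)
    (hz : ∀ w ∈ Up, r ^ 2 < qq w I → κ w = 0) {b : ℝ} (hb : ∀ w, ‖κ w‖ ≤ b) {n : ℝ}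
    (hn : Mult {w | w ∈ Up ∧ qq w (pr M) ≤ r ^ 2} n) :
    ∑ j ∈ s, ‖∫ w, κ w * (g j (mb M w) : ℂ) ∂muH‖ ^ 2 ≤ n * ∫ w, ‖κ w‖ ^ 2 ∂muH := by
  obtain ⟨B, hB, h1, h2⟩ := exists_inv hM
  have e1 : ∀ w ∈ Up, mb M (mb B w) = w := fun w hw => by rw [← mb_mul M hB hw, h1, mb_one]
  have e2 : ∀ w ∈ Up, mb B (mb M w) = w := fun w hw => by rw [← mb_mul B hM hw, h2, mb_one]
  have hK := isCompact_qq (pr_mem hM) h0 hr
  have key := gb h (k := fun w => κ (mb B w)) (hm.comp (bes2_mb B)) hK (fun w hw => hw.1)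
    subset_rfl (fun w hw hS => by
      refine hz _ (mb_mem hB hw) ?_
      rw [← qq_mb hM (mb_mem hB hw) bes2_I, e1 w hw, mb_I]
      exact lt_of_not_ge fun hh => hS ⟨hw, hh⟩) ⟨b, fun w _ => hb _⟩ hn
  rw [int_mb hB fun w => ‖κ w‖ ^ 2] at key
  refine le_trans (le_of_eq (Finset.sum_congr rfl fun j _ => ?_)) key
  rw [← int_mb hM fun w => κ (mb B w) * (g j w : ℂ)]
  congr 2
  exact integral_congr_ae (ae_Up.mono fun w hw => by simp only [e2 w hw])

/-- `∫_{B0} k * g (M w) = ∫ k'' g ∂muH` with `k'' = (B0.indicator (k * im²)) ∘ mb M⁻¹` -/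
theorem bes_fd : ∃ C : ℝ, 0 ≤ C ∧ ∀ (ι : Type) (s : Finset ι) (g : ι → ℂ → ℝ) (t : ι → ℝ),
    Ort s g t → ∀ M ∈ Gp, pr M ∈ Fd → Bes (C * (1 + (pr M).im)) s fun j w => g j (mb M w) := by
  obtain ⟨C, hC, hmult⟩ := mult_ball
  refine ⟨2 * C, by positivity, fun ι s g t h M hM hF k hk ⟨b, hb⟩ => ?_⟩
  have hB := bes2_B0.measurableSet
  have hb0 : 0 ≤ b := (norm_nonneg _).trans (hb I (by simp [B0]))
  have him : ∀ w ∈ B0, w.im ^ 2 ≤ 2 := fun w hw => bes2_im ((bes2_mem.1 hw).trans (by norm_num))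
  have key := bes2_gen h hM (κ := B0.indicator fun w => k w * ((w.im ^ 2 : ℝ) : ℂ))
    ((hk.mul (measurable_ofReal.comp (measurable_im.pow_const 2))).indicator hB) (r := 1 / 10)
    (by norm_num) le_rfl (fun w _ hq => indicator_of_notMem (fun hw => by
      have := qq_I_le (by norm_num) (bes2_mem.1 hw)
      rw [qq_symm] at this
      linarith) _) (b := b * 2) (fun w => by
      by_cases hw : w ∈ B0
      · rw [indicator_of_mem hw, norm_mul, Complex.norm_real, Real.norm_eq_abs,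
          abs_of_nonneg (sq_nonneg _)]
        exact mul_le_mul (hb w hw) (him w hw) (sq_nonneg _) hb0
      · rw [indicator_of_notMem hw, norm_zero]; positivity)
    (hmult _ hF _ (by norm_num) le_rfl)
  have e1 : ∀ j, ∫ w, (B0.indicator (fun w => k w * ((w.im ^ 2 : ℝ) : ℂ)) w) *
      (g j (mb M w) : ℂ) ∂muH = ∫ w in B0, k w * (g j (mb M w) : ℂ) := fun j => by
    rw [bes2_ind, integral_indicator hB, setInt_muH _ hB B0_sub]
    refine setIntegral_congr_fun hB fun w hw => ?_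
    have : (w.im : ℂ) ≠ 0 := by exact_mod_cast (B0_sub hw).ne'
    simp only [real_smul]
    push_cast
    field_simp
  have hki : IntegrableOn (fun w => ‖k w‖ ^ 2) B0 :=
    Measure.integrableOn_of_bounded bes2_B0.measure_lt_top.ne
      (hk.norm.pow_const 2).aestronglyMeasurable (M := b ^ 2)
      ((ae_restrict_mem hB).mono fun w hw => by
        rw [Real.norm_eq_abs, abs_of_nonneg (sq_nonneg _)]
        exact pow_le_pow_left₀ (norm_nonneg _) (hb w hw) 2)
  have e2 : ∫ w, ‖B0.indicator (fun w => k w * ((w.im ^ 2 : ℝ) : ℂ)) w‖ ^ 2 ∂muH ≤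
      2 * ∫ w in B0, ‖k w‖ ^ 2 := by
    have : (fun w => ‖B0.indicator (fun w => k w * ((w.im ^ 2 : ℝ) : ℂ)) w‖ ^ 2) =
        B0.indicator fun w => ‖k w‖ ^ 2 * (w.im ^ 2) ^ 2 := by
      funext w
      by_cases hw : w ∈ B0
      · rw [indicator_of_mem hw, indicator_of_mem hw, norm_mul, Complex.norm_real, mul_pow,
          Real.norm_eq_abs, sq_abs]
      · rw [indicator_of_notMem hw, indicator_of_notMem hw]; simp
    rw [this, integral_indicator hB, setInt_muH _ hB B0_sub, ← integral_const_mul]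
    refine integral_mono_of_nonneg (ae_of_all _ fun w => by positivity) (hki.const_mul 2)
      ((ae_restrict_mem hB).mono fun w hw => ?_)
    have h1 : w.im ≠ 0 := (B0_sub hw).ne'
    have h2 : (1 / w.im ^ 2) • (‖k w‖ ^ 2 * (w.im ^ 2) ^ 2) = w.im ^ 2 * ‖k w‖ ^ 2 := by
      rw [smul_eq_mul]; field_simp
    simp only [h2]
    exact mul_le_mul_of_nonneg_right (him w hw) (sq_nonneg _)
  simp only [e1] at key
  have hy : 0 < (pr M).im := pr_mem hM
  have hi : 0 ≤ ∫ w in B0, ‖k w‖ ^ 2 := integral_nonneg fun w => by positivity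
  refine key.trans ((mul_le_mul_of_nonneg_left e2 (by positivity)).trans ?_)
  rw [← mul_assoc]
  refine mul_le_mul_of_nonneg_right ?_ hi
  nlinarith [mul_nonneg hC hy.le]

theorem bes_cpt {K : Set ℂ} (hK : IsCompact K) (hU : K ⊆ Up) : ∃ N : ℝ, 0 ≤ N ∧
    ∀ (ι : Type) (s : Finset ι) (g : ι → ℂ → ℝ) (t : ι → ℝ), Ort s g t → ∀ M ∈ Gp, pr M ∈ K →
    Bes N s fun j w => g j (mb M w) := by
  obtain ⟨C, hC, h⟩ := bes_fd
  obtain ⟨H, hH, hb⟩ := ht_bound hK hU
  refine ⟨C * (1 + H), by positivity, fun ι s g t ho M hM hp k hk hkb => ?_⟩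
  obtain ⟨γ, hγ⟩ := exists_fd' (pr_mem hM)
  have h1 := (h ι s g t ho (act γ M) (unfold_mem γ hM) (by rwa [pr_act_mb γ hM])).mono
    (N' := C * (1 + H)) (by
      rw [pr_act_mb γ hM]
      exact mul_le_mul_of_nonneg_left (by linarith [hb _ hp γ]) hC) subset_rfl k hk hkb
  refine le_trans (le_of_eq (Finset.sum_congr rfl fun j hj => ?_)) h1
  congr 2
  refine setIntegral_congr_fun bes2_B0.measurableSet fun w hw => ?_
  simp only
  rw [mb_act γ hM (B0_sub hw), (ho.form j hj).inv.mb γ (mb_mem hM (B0_sub hw))]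

/-- Bessel for a single function, tested against itself -/
theorem l2_cpt {K : Set ℂ} (hK : IsCompact K) (hU : K ⊆ Up) : ∃ N : ℝ, 0 ≤ N ∧
    ∀ (t : ℝ) (f : ℂ → ℝ), Form t f → ∀ M ∈ Gp, pr M ∈ K → ∫ w in B0, f (mb M w) ^ 2 ≤ N := by
  obtain ⟨N, hN, h⟩ := bes_cpt hK hU
  refine ⟨N, hN, fun t f hf M hM hp => ?_⟩
  obtain ⟨b, hb⟩ := (eig_mb hf.toEig hM).bd bes2_B0 B0_sub
  have key := h Unit {()} (fun _ => f) (fun _ => t)
    ⟨fun _ _ => hf, fun _ _ _ _ hne => (hne rfl).elim⟩ M hM hp (fun w => (f (mb M w) : ℂ))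
    (measurable_ofReal.comp (hf.meas.comp (bes2_mb M)))
    ⟨b, fun w hw => by rw [Complex.norm_real]; exact hb w hw⟩
  simp only [Finset.sum_singleton, ← sq, ← ofReal_pow, integral_complex_ofReal, Complex.norm_real,
    Real.norm_eq_abs, sq_abs] at key
  by_contra hc
  nlinarith [not_le.1 hc]

theorem bes2_area {r : ℝ} (h0 : 0 ≤ r) (hr : r ≤ 1 / 10) :
    r ^ 2 / 4 ≤ muH.real {w | w ∈ Up ∧ qq w I ≤ r ^ 2} := by
  have hb : ∀ w ∈ Metric.closedBall I (r / 2), ‖w - I‖ ≤ r / 2 := fun w hw => by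
    rwa [Metric.mem_closedBall, dist_eq_norm] at hw
  have hU : Metric.closedBall I (r / 2) ⊆ Up := fun w hw => ball_sub (by linarith [hb w hw])
  have hc := isCompact_closedBall I (r / 2)
  refine le_trans ?_ (measureReal_mono (s₁ := Metric.closedBall I (r / 2)) (fun w hw => ⟨hU hw, ?_⟩)
    (muH_compact (isCompact_qq bes2_I h0 hr) fun w hw => hw.1).ne)
  · have e := setInt_muH (fun _ => (1 : ℝ)) hc.measurableSet hU
    rw [setIntegral_const, smul_eq_mul, mul_one] at e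
    rw [e]
    refine le_trans ?_ (setIntegral_ge_of_const_le_real (c := 1 / 2) hc.measurableSet
      hc.measure_lt_top.ne (fun w hw => ?_) (ContinuousOn.integrableOn_compact hc ?_))
    · rw [Measure.real, Complex.volume_closedBall, ENNReal.toReal_mul, ENNReal.toReal_pow,
        ENNReal.toReal_ofReal (by linarith), ENNReal.coe_toReal, NNReal.coe_real_pi]
      nlinarith [Real.pi_gt_three, sq_nonneg r]
    · rw [smul_eq_mul, mul_one]
      exact one_div_le_one_div_of_le (pow_pos (hU hw) 2) (bes2_im (by linarith [hb w hw]))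
    · have : ContinuousOn (fun w : ℂ => 1 / w.im ^ 2) (Metric.closedBall I (r / 2)) :=
        continuousOn_const.div (by fun_prop) fun w hw => (pow_pos (hU hw : 0 < w.im) 2).ne'
      exact this.smul continuousOn_const
  · have := qq_I_le (by linarith) (hb w hw)
    rw [qq_symm] at this
    nlinarith [sq_nonneg r]

/-- test against the indicator of the invariant ball of radius `r = 1 / (40 T)`; `mvp_int` for
`g ∘ mb (z, 1)`, `ph0_ge`, and the area of the ball is at least `c r²` (it contains the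
Euclidean ball of radius `r / 2`) -/
theorem pt_fd : ∃ C : ℝ, 0 ≤ C ∧ ∀ (ι : Type) (s : Finset ι) (g : ι → ℂ → ℝ) (t : ι → ℝ) (T : ℝ),
    Fam s g t T → 1 ≤ T → ∀ z ∈ Fd, z.im ≤ 10 * T → ∑ j ∈ s, g j z ^ 2 ≤ C * T ^ 2 := by
  obtain ⟨C, hC, hmult⟩ := mult_ball
  refine ⟨C * 2 * 4 * 6400, by positivity, fun ι s g t T h hT z hz hy => ?_⟩
  obtain ⟨r, hrd⟩ : ∃ r : ℝ, r = 1 / (40 * T) := ⟨_, rfl⟩
  have hrT : r * T = 1 / 40 := by rw [hrd]; field_simp
  have h0 : 0 < r := by rw [hrd]; positivity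
  have hr : r ≤ 1 / 40 := by nlinarith
  have hr' : r ≤ 1 / 10 := by linarith
  obtain ⟨S, hS⟩ : ∃ S : Set ℂ, S = {w | w ∈ Up ∧ qq w I ≤ r ^ 2} := ⟨_, rfl⟩
  have hK : IsCompact S := hS ▸ isCompact_qq bes2_I h0.le hr'
  have hU : S ⊆ Up := fun w hw => (hS ▸ hw : w ∈ {w | w ∈ Up ∧ qq w I ≤ r ^ 2}).1
  have hm := hK.measurableSet
  have hA := aff_mem (Fd_sub hz)
  have hb : ∀ w, ‖S.indicator (fun _ => (1 : ℂ)) w‖ ≤ 1 := fun w => by
    by_cases hw : w ∈ S <;> simp [hw]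
  have key := bes2_gen h.toOrt hA (κ := S.indicator fun _ => (1 : ℂ))
    (measurable_const.indicator hm) h0.le hr'
    (fun w _ hq => indicator_of_notMem (fun hw => by rw [hS] at hw; linarith [hw.2]) _) hb
    (by rw [pr_aff]; exact hmult z hz r h0.le hr')
  have ha : r ^ 2 / 4 ≤ muH.real S := hS ▸ bes2_area h0.le hr'
  have e2 : ∫ w, ‖S.indicator (fun _ => (1 : ℂ)) w‖ ^ 2 ∂muH = muH.real S := by
    have : (fun w => ‖S.indicator (fun _ => (1 : ℂ)) w‖ ^ 2) = S.indicator fun _ => (1 : ℝ) := by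
      funext w; by_cases hw : w ∈ S <;> simp [hw]
    rw [this, integral_indicator_const _ hm, smul_eq_mul, mul_one]
  have ha0 : 0 < muH.real S := lt_of_lt_of_le (by positivity) ha
  have e1 : ∀ j ∈ s, g j z ^ 2 * (1 / 2 * muH.real S) ^ 2 ≤
      ‖∫ w, S.indicator (fun _ => (1 : ℂ)) w * (g j (mb (z, 1) w) : ℂ) ∂muH‖ ^ 2 := fun j hj => by
    rw [mvp_int (eig_mb (h.form j hj).toEig hA) (measurable_const.indicator hm) hK hU
      (fun w _ hw => indicator_of_notMem hw _) ⟨1, fun w _ => hb w⟩ (fun θ w hw => by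
        have : mb (kk θ) w ∈ S ↔ w ∈ S := by
          have e := qq_mb (kk_mem θ) hw bes2_I
          rw [mb_kk_I] at e
          simp only [hS, mem_ofPred_eq, e, hw, mb_mem (kk_mem θ) hw]
        by_cases hw' : w ∈ S
        · rw [indicator_of_mem hw', indicator_of_mem (this.2 hw')]
        · rw [indicator_of_notMem hw', indicator_of_notMem (fun hh => hw' (this.1 hh))]),
      mb_I, pr_aff, norm_mul, mul_pow ‖_‖, Complex.norm_real, Real.norm_eq_abs, sq_abs]
    refine mul_le_mul_of_nonneg_left (pow_le_pow_left₀ (by positivity) ?_ 2) (sq_nonneg _)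
    rw [bes2_ind, integral_indicator hm]
    simp only [one_mul]
    rw [integral_complex_ofReal, Complex.norm_real]
    refine le_trans ?_ (le_abs_self _)
    have hfin := (muH_compact hK hU).ne
    have hw2 : ∀ w ∈ S, 1 / 2 ≤ ph0 (t j) w := fun w hw => by
      have h1 := norm_le_of_qq (hU hw) bes2_I h0.le (by linarith) (hS ▸ hw :
        w ∈ {w | w ∈ Up ∧ qq w I ≤ r ^ 2}).2
      rw [I_im, mul_one] at h1
      refine ph0_ge (by linarith) ?_
      rw [abs_of_nonneg (h.nn j hj)]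
      calc t j * ‖w - I‖ ≤ T * (2 * r) := by
            gcongr
            exact h.le j hj
        _ ≤ 1 / 10 := by linarith
    obtain ⟨b, hb'⟩ := hK.exists_bound_of_continuousOn ((continuousOn_ph0 (t j)).mono hU)
    exact setIntegral_ge_of_const_le_real hm hfin hw2 (Measure.integrableOn_of_bounded hfin
      (aesm_muH (continuousOn_ph0 (t j))) ((ae_restrict_mem hm).mono hb'))
  have h3 := (Finset.sum_le_sum e1).trans key
  rw [← Finset.sum_mul, e2] at h3
  have hX : 0 ≤ ∑ j ∈ s, g j z ^ 2 := Finset.sum_nonneg fun j _ => sq_nonneg _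
  generalize ∑ j ∈ s, g j z ^ 2 = X at h3 hX
  generalize muH.real S = a at h3 ha ha0
  have h4 : X * a ≤ C * 2 * 4 := by
    have h5 : C * (1 + r * z.im) ≤ C * 2 := mul_le_mul_of_nonneg_left (by nlinarith) hC
    have h6 : X * a / 4 * a ≤ C * 2 * a :=
      le_trans (le_of_eq (by ring)) (h3.trans (mul_le_mul_of_nonneg_right h5 ha0.le))
    linarith [le_of_mul_le_mul_right h6 ha0]
  have h7 : X * (r ^ 2 / 4) ≤ C * 2 * 4 := (mul_le_mul_of_nonneg_left ha hX).trans h4
  calc X = X * (r ^ 2 / 4) * (6400 * T ^ 2) := by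
        rw [show X * (r ^ 2 / 4) * (6400 * T ^ 2) = X * (1600 * (r * T) ^ 2) by ring, hrT]; ring
    _ ≤ C * 2 * 4 * (6400 * T ^ 2) := mul_le_mul_of_nonneg_right h7 (by positivity)
    _ = _ := by ring

theorem pt_cpt {K : Set ℂ} (hK : IsCompact K) (hU : K ⊆ Up) : ∃ C T₀ : ℝ, 0 ≤ C ∧ 1 ≤ T₀ ∧
    ∀ (ι : Type) (s : Finset ι) (g : ι → ℂ → ℝ) (t : ι → ℝ) (T : ℝ),
    Fam s g t T → T₀ ≤ T → ∀ z ∈ K, ∑ j ∈ s, g j z ^ 2 ≤ C * T ^ 2 := by
  obtain ⟨C, hC, h⟩ := pt_fd
  obtain ⟨H, hH, hb⟩ := ht_bound hK hU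
  refine ⟨C, H, hC, hH, fun ι s g t T hf hT z hz => ?_⟩
  obtain ⟨γ, hγ⟩ := exists_fd' (hU hz)
  have := h ι s g t T hf (hH.trans hT) _ hγ (by linarith [hb z hz γ])
  refine le_trans (le_of_eq (Finset.sum_congr rfl fun j hj => ?_)) this
  rw [(hf.form j hj).inv.mb γ (hU hz)]

/-! The cusp.
`tail`: `m y = ∫ x in -1/2..1/2, g (x + i y)²` is `C²` on `y > 0`,
`m'' = 2 ∫ g_y² + 2 ∫ g g_yy = 2 ∫ g_y² + 2 ∫ g_x² - 2 (1/4 + t²) / y² * m` (equation, integration
by parts in `x`, periodicity).  As the mean of `g (· + i y)` over a period is zero it has a zero,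
so `|g| ≤ ∫ |g_x|` and `m ≤ ∫ g_x²`; hence `m'' ≥ 0` for `y ≥ S`.  If `m' y₀ > 0` for some
`y₀ ≥ S` then `m y ≥ c (y - y₀)` and `m / y²` is not integrable at infinity; so `m` is antitone
on `[S, ∞)`, and `∫_{2S}^∞ m / y² ≤ m (2S) / (2S) ≤ ∫_S^{2S} m / y²`.  For `y > 1` the set `Fd`
is the strip `|x| ≤ 1/2` (Fubini through `Complex.volume_preserving_equiv_real_prod`). -/

theorem tail0_slice {F : ℝ → ℝ → ℝ}
    (hF : ContinuousOn (fun p : ℝ × ℝ => F p.1 p.2) (univ ×ˢ Ioi 0)) {y : ℝ} (hy : 0 < y) :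
    Continuous fun x => F x y :=
  hF.comp_continuous (f := fun x : ℝ => (x, y)) (by fun_prop) fun _ => ⟨trivial, hy⟩

theorem tail0_deriv {F F' : ℝ → ℝ → ℝ}
    (hF : ContinuousOn (fun p : ℝ × ℝ => F p.1 p.2) (univ ×ˢ Ioi 0))
    (hF' : ContinuousOn (fun p : ℝ × ℝ => F' p.1 p.2) (univ ×ˢ Ioi 0))
    (hd : ∀ x y, 0 < y → HasDerivAt (F x) (F' x y) y) (a b : ℝ) {y : ℝ} (hy : 0 < y) :
    HasDerivAt (fun y => ∫ x in a..b, F x y) (∫ x in a..b, F' x y) y := by
  have hsub : uIcc a b ×ˢ Icc (y / 2) (2 * y) ⊆ univ ×ˢ Ioi 0 :=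
    prod_mono (subset_univ _) fun u hu => lt_of_lt_of_le (by positivity) hu.1
  obtain ⟨C, hC⟩ := (isCompact_uIcc.prod isCompact_Icc).exists_bound_of_continuousOn
    (hF'.mono hsub)
  refine (intervalIntegral.hasDerivAt_integral_of_dominated_loc_of_deriv_le
    (F := fun y x => F x y) (F' := fun y x => F' x y) (bound := fun _ => C)
    (s := Icc (y / 2) (2 * y)) (Icc_mem_nhds (by linarith) (by linarith)) ?_
    ((tail0_slice hF hy).intervalIntegrable a b) (tail0_slice hF' hy).aestronglyMeasurable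
    (ae_of_all _ fun x hx u hu => hC (x, u) ⟨uIoc_subset_uIcc hx, hu⟩)
    intervalIntegrable_const
    (ae_of_all _ fun x _ u hu => hd x u (lt_of_lt_of_le (by positivity) hu.1))).2
  filter_upwards [lt_mem_nhds hy] with u hu using (tail0_slice hF hu).aestronglyMeasurable

/-- a weak form of the Wirtinger inequality -/
theorem tail0_wirt {u v : ℝ → ℝ} (hu : ∀ x, HasDerivAt u (v x) x) (hv : Continuous v)
    (pu : Function.Periodic u 1) (pv : Function.Periodic v 1) (h0 : ∫ x in (0 : ℝ)..1, u x = 0)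
    (a : ℝ) : ∫ x in a..a + 1, u x ^ 2 ≤ ∫ x in a..a + 1, v x ^ 2 := by
  have cu : Continuous u := continuous_iff_continuousAt.2 fun x => (hu x).continuousAt
  obtain ⟨c, -, hc⟩ := exists_eq_const_mul_intervalIntegral_of_nonneg (f := u) (g := fun _ => 1)
    (μ := volume) (a := 0) (b := 1) cu.continuousOn intervalIntegrable_const
    fun _ _ => zero_le_one
  have hc0 : u c = 0 := by simpa [h0] using hc.symm
  have hc1 : u (c + 1) = 0 := by rw [pu c, hc0]
  have p1 : Function.Periodic (fun x => u x ^ 2) 1 := fun x => by simp only [pu x]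
  have p2 : Function.Periodic (fun x => v x ^ 2) 1 := fun x => by simp only [pv x]
  rw [p1.intervalIntegral_add_eq a c, p2.intervalIntegral_add_eq a c]
  have ftc : ∀ s t : ℝ, ∫ x in s..t, 2 * u x * v x = u t ^ 2 - u s ^ 2 := fun s t =>
    intervalIntegral.integral_eq_sub_of_hasDerivAt (f := fun x => u x ^ 2)
      (fun x _ => ((hu x).fun_pow 2).congr_deriv (by norm_num))
      (Continuous.intervalIntegrable (by fun_prop) _ _)
  have iw : ∀ s t : ℝ, IntervalIntegrable (fun x => u x ^ 2 + v x ^ 2) volume s t := fun s t =>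
    Continuous.intervalIntegrable (by fun_prop) _ _
  have key : ∀ x ∈ Icc c (c + 1),
      u x ^ 2 ≤ (∫ x in c..c + 1, (u x ^ 2 + v x ^ 2)) / 2 := by
    intro x hx
    have e1 : ∫ s in c..x, 2 * u s * v s ≤ ∫ s in c..x, (u s ^ 2 + v s ^ 2) :=
      intervalIntegral.integral_mono_on hx.1 (Continuous.intervalIntegrable (by fun_prop) _ _)
        (iw _ _) fun s _ => by nlinarith [sq_nonneg (u s - v s)]
    have e2 : ∫ s in x..c + 1, -(2 * u s * v s) ≤ ∫ s in x..c + 1, (u s ^ 2 + v s ^ 2) :=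
      intervalIntegral.integral_mono_on hx.2 (Continuous.intervalIntegrable (by fun_prop) _ _)
        (iw _ _) fun s _ => by nlinarith [sq_nonneg (u s + v s)]
    rw [intervalIntegral.integral_neg, ftc, hc1] at e2
    rw [ftc, hc0] at e1
    rw [← intervalIntegral.integral_add_adjacent_intervals (iw c x) (iw x (c + 1))]
    linarith
  have e3 := intervalIntegral.integral_mono_on (μ := volume) (by linarith : c ≤ c + 1)
    (Continuous.intervalIntegrable (u := fun x => u x ^ 2) (by fun_prop) _ _)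
    intervalIntegrable_const key
  rw [intervalIntegral.integral_const, intervalIntegral.integral_add
    (Continuous.intervalIntegrable (by fun_prop) _ _)
    (Continuous.intervalIntegrable (by fun_prop) _ _)] at e3
  simp only [add_sub_cancel_left, one_smul] at e3
  linarith

theorem tail0_conv {m m' m'' : ℝ → ℝ} {S : ℝ} (hS : 0 < S)
    (d1 : ∀ y, S ≤ y → HasDerivAt m (m' y) y) (d2 : ∀ y, S ≤ y → HasDerivAt m' (m'' y) y)
    (h2 : ∀ y, S ≤ y → 0 ≤ m'' y) (h0 : ∀ y, 0 ≤ m y)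
    (hi : IntegrableOn (fun y => m y / y ^ 2) (Ioi S)) :
    ∫ y in Ioi (2 * S), m y / y ^ 2 ≤ ∫ y in Ioc S (2 * S), m y / y ^ 2 := by
  have hmono : MonotoneOn m' (Ici S) :=
    monotoneOn_of_hasDerivWithinAt_nonneg (f' := m'') (convex_Ici S)
      (fun y hy => (d2 y hy).continuousAt.continuousWithinAt)
      (fun y hy => (d2 y (interior_subset hy)).hasDerivWithinAt)
      fun y hy => h2 y (interior_subset hy)
  have hneg : ∀ y, S ≤ y → m' y ≤ 0 := by
    intro y0 hy0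
    by_contra hc
    push Not at hc
    have hy0' : 0 < y0 := hS.trans_le hy0
    have hgrow : MonotoneOn (fun y => m y - m' y0 * y) (Ici y0) :=
      monotoneOn_of_hasDerivWithinAt_nonneg (f' := fun y => m' y - m' y0) (convex_Ici y0)
        (fun y hy => ((d1 y (hy0.trans hy)).continuousAt.sub (by fun_prop)).continuousWithinAt)
        (fun y hy => (((d1 y (hy0.trans (interior_subset hy))).fun_sub
            ((hasDerivAt_id' y).const_mul (m' y0))).congr_deriv (by ring)).hasDerivWithinAt)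
        fun y hy => sub_nonneg.2
          (hmono hy0 (hy0.trans (interior_subset hy)) (interior_subset hy))
    have hi2 : IntegrableOn (fun y => 2 / m' y0 * (m y / y ^ 2)) (Ioi (2 * y0)) :=
      (hi.mono_set (Ioi_subset_Ioi (by linarith))).const_mul _
    refine not_integrableOn_Ioi_inv (a := 2 * y0) (Integrable.mono' hi2
      measurable_inv.aestronglyMeasurable ?_)
    filter_upwards [ae_restrict_mem measurableSet_Ioi] with y hy
    have hy' : 2 * y0 < y := hy
    have hy1 : 0 < y := by linarith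
    have h3 := hgrow (mem_Ici.2 le_rfl) (mem_Ici.2 (by linarith : y0 ≤ y)) (by linarith)
    have h4 : m' y0 * y ≤ 2 * m y := by
      have := h0 y0
      have := mul_le_mul_of_nonneg_left hy'.le hc.le
      simp only at h3
      linarith
    rw [Real.norm_of_nonneg (inv_nonneg.2 hy1.le), div_mul_div_comm, le_div_iff₀ (by positivity)]
    calc y⁻¹ * (m' y0 * y ^ 2) = m' y0 * y := by field_simp
      _ ≤ 2 * m y := h4
  have hanti : AntitoneOn m (Ici S) :=
    antitoneOn_of_hasDerivWithinAt_nonpos (f' := m') (convex_Ici S)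
      (fun y hy => (d1 y hy).continuousAt.continuousWithinAt)
      (fun y hy => (d1 y (interior_subset hy)).hasDerivWithinAt)
      fun y hy => hneg y (interior_subset hy)
  have hp : ∀ y : ℝ, 0 < y → y ^ (-2 : ℝ) = (y ^ 2)⁻¹ := fun y hy => by
    rw [Real.rpow_neg hy.le]; norm_num
  have i1 : ∀ c : ℝ, 0 < c → IntegrableOn (fun y : ℝ => m (2 * S) * y ^ (-2 : ℝ)) (Ioi c) :=
    fun c hc => (integrableOn_Ioi_rpow_of_lt (by norm_num) hc).const_mul _
  have v1 : ∀ c : ℝ, 0 < c → ∫ y in Ioi c, m (2 * S) * y ^ (-2 : ℝ) = m (2 * S) / c := by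
    intro c hc
    rw [integral_const_mul, integral_Ioi_rpow_of_lt (by norm_num) hc]
    norm_num [Real.rpow_neg_one, div_eq_mul_inv]
  have hS2 : 0 < 2 * S := by linarith
  have e1 : ∫ y in Ioi (2 * S), m y / y ^ 2 ≤ ∫ y in Ioi (2 * S), m (2 * S) * y ^ (-2 : ℝ) := by
    refine setIntegral_mono_on (hi.mono_set (Ioi_subset_Ioi (by linarith))) (i1 _ hS2)
      measurableSet_Ioi fun y hy => ?_
    have hy' : 2 * S < y := hy
    rw [hp y (by linarith), div_eq_mul_inv]
    exact mul_le_mul_of_nonneg_right (hanti (mem_Ici.2 (by linarith)) (mem_Ici.2 (by linarith))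
      hy'.le) (by positivity)
  have e2 : ∫ y in Ioc S (2 * S), m (2 * S) * y ^ (-2 : ℝ) ≤ ∫ y in Ioc S (2 * S), m y / y ^ 2 := by
    refine setIntegral_mono_on ((i1 _ hS).mono_set Ioc_subset_Ioi_self)
      (hi.mono_set Ioc_subset_Ioi_self) measurableSet_Ioc fun y hy => ?_
    rw [hp y (hS.trans hy.1), div_eq_mul_inv]
    exact mul_le_mul_of_nonneg_right (hanti (mem_Ici.2 hy.1.le) (mem_Ici.2 (by linarith)) hy.2)
      (by positivity)
  have e3 := setIntegral_union (f := fun y : ℝ => m (2 * S) * y ^ (-2 : ℝ)) (μ := volume)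
    (Ioc_disjoint_Ioi_same (a := S) (b := 2 * S)) measurableSet_Ioi
    ((i1 _ hS).mono_set Ioc_subset_Ioi_self) (i1 _ hS2)
  rw [Ioc_union_Ioi_eq_Ioi (by linarith), v1 _ hS, v1 _ hS2] at e3
  rw [v1 _ hS2] at e1
  have e4 : m (2 * S) / S = m (2 * S) / (2 * S) + m (2 * S) / (2 * S) := by field_simp; ring
  linarith

/-- the strip form of the statement -/
theorem tail0_strip {u ux uy uxx uyy : ℝ → ℝ → ℝ} {l S : ℝ} (hS : 0 < S) (hl : l ≤ S ^ 2)
    (c0 : ContinuousOn (fun p : ℝ × ℝ => u p.1 p.2) (univ ×ˢ Ioi 0))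
    (cx : ContinuousOn (fun p : ℝ × ℝ => ux p.1 p.2) (univ ×ˢ Ioi 0))
    (cy : ContinuousOn (fun p : ℝ × ℝ => uy p.1 p.2) (univ ×ˢ Ioi 0))
    (cxx : ContinuousOn (fun p : ℝ × ℝ => uxx p.1 p.2) (univ ×ˢ Ioi 0))
    (cyy : ContinuousOn (fun p : ℝ × ℝ => uyy p.1 p.2) (univ ×ˢ Ioi 0))
    (dx : ∀ x y, 0 < y → HasDerivAt (fun x => u x y) (ux x y) x)
    (dxx : ∀ x y, 0 < y → HasDerivAt (fun x => ux x y) (uxx x y) x)
    (dy : ∀ x y, 0 < y → HasDerivAt (u x) (uy x y) y)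
    (dyy : ∀ x y, 0 < y → HasDerivAt (uy x) (uyy x y) y)
    (eq : ∀ x y, 0 < y → -(y ^ 2) * (uxx x y + uyy x y) = l * u x y)
    (per : ∀ x y, 0 < y → u (x + 1) y = u x y)
    (cusp : ∀ y, 0 < y → ∫ x in (0 : ℝ)..1, u x y = 0) (a : ℝ)
    (hi : IntegrableOn (fun y => (∫ x in a..a + 1, u x y ^ 2) / y ^ 2) (Ioi S)) :
    ∫ y in Ioi (2 * S), (∫ x in a..a + 1, u x y ^ 2) / y ^ 2 ≤
      ∫ y in Ioc S (2 * S), (∫ x in a..a + 1, u x y ^ 2) / y ^ 2 := by
  refine tail0_conv (m' := fun y => ∫ x in a..a + 1, 2 * u x y * uy x y)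
    (m'' := fun y => ∫ x in a..a + 1, (2 * uy x y * uy x y + 2 * u x y * uyy x y)) hS
    (fun y hy => ?_) (fun y hy => ?_) (fun y hy => ?_)
    (fun y => intervalIntegral.integral_nonneg (by linarith) fun x _ => sq_nonneg _) hi
  · exact tail0_deriv (F := fun x y => u x y ^ 2) (F' := fun x y => 2 * u x y * uy x y) (c0.pow 2)
      ((continuousOn_const.mul c0).mul cy)
      (fun x y hy => ((dy x y hy).fun_pow 2).congr_deriv (by norm_num)) _ _ (hS.trans_le hy)
  · exact tail0_deriv (F := fun x y => 2 * u x y * uy x y) ((continuousOn_const.mul c0).mul cy)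
      (((continuousOn_const.mul cy).mul cy).add ((continuousOn_const.mul c0).mul cyy))
      (fun x y hy => ((dy x y hy).const_mul 2).mul (dyy x y hy)) _ _ (hS.trans_le hy)
  · have hy0 : 0 < y := hS.trans_le hy
    have s0 := tail0_slice c0 hy0
    have sx := tail0_slice cx hy0
    have sy := tail0_slice cy hy0
    have sxx := tail0_slice cxx hy0
    have syy := tail0_slice cyy hy0
    have perx : ∀ x, ux (x + 1) y = ux x y := by
      intro x
      have h1 := (dx (x + 1) y hy0).comp_add_const x 1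
      simp only [per _ y hy0] at h1
      exact h1.unique (dx x y hy0)
    have w := tail0_wirt (fun x => dx x y hy0) sx (fun x => per x y hy0) perx (cusp y hy0) a
    have ibp : ∫ x in a..a + 1, (ux x y * ux x y + u x y * uxx x y) = 0 := by
      rw [intervalIntegral.integral_eq_sub_of_hasDerivAt (f := fun x => u x y * ux x y)
        (fun x _ => (dx x y hy0).mul (dxx x y hy0))
        (Continuous.intervalIntegrable (by fun_prop) _ _), per a y hy0, perx a, sub_self]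
    have hly : l / y ^ 2 ≤ 1 := by
      rw [div_le_one (by positivity)]; nlinarith
    have e1 : ∫ x in a..a + 1, (2 * ux x y ^ 2 - 2 * u x y ^ 2 -
        2 * (ux x y * ux x y + u x y * uxx x y)) ≤
        ∫ x in a..a + 1, (2 * uy x y * uy x y + 2 * u x y * uyy x y) := by
      refine intervalIntegral.integral_mono_on (by linarith)
        (Continuous.intervalIntegrable (by fun_prop) _ _)
        (Continuous.intervalIntegrable (by fun_prop) _ _) fun x _ => ?_
      have h1 : uxx x y + uyy x y = -(l / y ^ 2) * u x y := by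
        have := eq x y hy0
        field_simp
        linarith
      have h2 : u x y * (uxx x y + uyy x y) = -(l / y ^ 2 * u x y ^ 2) := by rw [h1]; ring
      have h3 := mul_le_mul_of_nonneg_right hly (sq_nonneg (u x y))
      nlinarith [mul_self_nonneg (uy x y)]
    rw [intervalIntegral.integral_sub (Continuous.intervalIntegrable (by fun_prop) _ _)
      (Continuous.intervalIntegrable (by fun_prop) _ _),
      intervalIntegral.integral_sub (Continuous.intervalIntegrable (by fun_prop) _ _)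
      (Continuous.intervalIntegrable (by fun_prop) _ _), intervalIntegral.integral_const_mul,
      intervalIntegral.integral_const_mul, intervalIntegral.integral_const_mul, ibp] at e1
    linarith

theorem tail0_fub {F : ℂ → ℝ} (hF : IntegrableOn (fun z : ℂ => F z / z.im ^ 2) Fd) {A : Set ℝ}
    (hA : MeasurableSet A) (h1 : A ⊆ Ioi 1) :
    IntegrableOn (fun y : ℝ =>
      (∫ x in (-(1 / 2) : ℝ)..(-(1 / 2) + 1), F ((x : ℂ) + (y : ℂ) * I)) / y ^ 2) A ∧
    ∫ z in {z | z ∈ Fd ∧ z.im ∈ A}, F z ∂muH = ∫ y in A,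
      (∫ x in (-(1 / 2) : ℝ)..(-(1 / 2) + 1), F ((x : ℂ) + (y : ℂ) * I)) / y ^ 2 := by
  have hset : {z | z ∈ Fd ∧ z.im ∈ A} =
      measurableEquivRealProd ⁻¹' (Icc (-(1 / 2) : ℝ) (-(1 / 2) + 1) ×ˢ A) := by
    ext z
    simp only [mem_ofPred_eq, Fd, mem_preimage, measurableEquivRealProd_apply, mem_prod, mem_Icc,
      abs_le]
    constructor
    · rintro ⟨⟨-, h2, -⟩, h3⟩
      exact ⟨⟨h2.1, by linarith [h2.2]⟩, h3⟩
    · rintro ⟨h2, h3⟩
      have h4 : 1 < z.im := h1 h3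
      exact ⟨⟨by linarith, ⟨h2.1, by linarith [h2.2]⟩,
        h4.le.trans ((le_abs_self _).trans (abs_im_le_norm z))⟩, h3⟩
  have hm : MeasurableSet {z | z ∈ Fd ∧ z.im ∈ A} := by
    rw [hset]; exact measurableEquivRealProd.measurable (measurableSet_Icc.prod hA)
  let Φ : ℝ × ℝ → ℝ := fun p => F ((p.1 : ℂ) + (p.2 : ℂ) * I) / p.2 ^ 2
  have hΦ : (fun z : ℂ => F z / z.im ^ 2) = Φ ∘ measurableEquivRealProd := by
    funext z; simp [Φ]
  have hint : IntegrableOn Φ (Icc (-(1 / 2) : ℝ) (-(1 / 2) + 1) ×ˢ A) := by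
    rw [← volume_preserving_equiv_real_prod.integrableOn_comp_preimage
      measurableEquivRealProd.measurableEmbedding, ← hΦ, ← hset]
    exact hF.mono_set fun z hz => hz.1
  have hin : ∀ y : ℝ, ∫ x in Icc (-(1 / 2) : ℝ) (-(1 / 2) + 1), Φ (x, y) =
      (∫ x in (-(1 / 2) : ℝ)..(-(1 / 2) + 1), F ((x : ℂ) + (y : ℂ) * I)) / y ^ 2 := by
    intro y
    rw [integral_Icc_eq_integral_Ioc, ← intervalIntegral.integral_of_le (by norm_num),
      ← intervalIntegral.integral_div]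
  rw [IntegrableOn, Measure.volume_eq_prod, ← Measure.prod_restrict] at hint
  constructor
  · have := hint.integral_prod_right
    simp only [hin] at this
    exact this
  · rw [setInt_muH F hm fun z hz => Fd_sub hz.1]
    have e : (fun z : ℂ => (1 / z.im ^ 2 : ℝ) • F z) = fun z => Φ (measurableEquivRealProd z) := by
      funext z; simp [Φ, div_eq_inv_mul]
    rw [e, hset, volume_preserving_equiv_real_prod.setIntegral_preimage_emb
      measurableEquivRealProd.measurableEmbedding, Measure.volume_eq_prod,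
      ← Measure.prod_restrict, integral_prod_symm _ hint]
    simp only [hin]

theorem tail0_dx {f : ℂ → ℝ} {x y : ℝ} (hd : DifferentiableAt ℝ f ((x : ℂ) + (y : ℂ) * I)) :
    HasDerivAt (fun x : ℝ => f ((x : ℂ) + (y : ℂ) * I)) (fderiv ℝ f ((x : ℂ) + (y : ℂ) * I) 1) x :=
  hd.hasFDerivAt.comp_hasDerivAt (f := fun x : ℝ => (x : ℂ) + (y : ℂ) * I) x
    (by simpa using (ofRealCLM.hasDerivAt (x := x)).add_const ((y : ℂ) * I))

theorem tail0_dy {f : ℂ → ℝ} {x y : ℝ} (hd : DifferentiableAt ℝ f ((x : ℂ) + (y : ℂ) * I)) :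
    HasDerivAt (fun y : ℝ => f ((x : ℂ) + (y : ℂ) * I)) (fderiv ℝ f ((x : ℂ) + (y : ℂ) * I) I) y :=
  hd.hasFDerivAt.comp_hasDerivAt (f := fun y : ℝ => (x : ℂ) + (y : ℂ) * I) y
    (by simpa using ((ofRealCLM.hasDerivAt (x := y)).mul_const I).const_add (x : ℂ))

theorem tail {t S : ℝ} {g : ℂ → ℝ} (h : Form t g) (hc : Cusp g) (h1 : 1 ≤ S)
    (hS : 1 / 4 + t ^ 2 ≤ S ^ 2) :
    ∫ z in {z | z ∈ Fd ∧ 2 * S < z.im}, g z ^ 2 ∂muH ≤
      ∫ z in {z | z ∈ Fd ∧ S < z.im ∧ z.im ≤ 2 * S}, g z ^ 2 ∂muH := by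
  have hU : IsOpen Up := isOpen_lt continuous_const continuous_im
  have hm : ∀ x y : ℝ, 0 < y → (x : ℂ) + (y : ℂ) * I ∈ Up := fun x y hy => by simpa [Up] using hy
  have cc : ∀ {f : ℂ → ℝ}, ContinuousOn f Up →
      ContinuousOn (fun p : ℝ × ℝ => f ((p.1 : ℂ) + (p.2 : ℂ) * I)) (univ ×ˢ Ioi 0) :=
    fun hf => hf.comp (by fun_prop) fun p hp => hm p.1 p.2 hp.2
  have g1 : ContDiffOn ℝ 1 (fderiv ℝ g) Up := h.c2.fderiv_of_isOpen hU (by norm_num)
  have g2 : ∀ v : ℂ, ContDiffOn ℝ 1 (fun z => fderiv ℝ g z v) Up := fun v =>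
    g1.clm_apply contDiffOn_const
  have g3 : ∀ v : ℂ, ContinuousOn (fun z => fderiv ℝ (fun z => fderiv ℝ g z v) z v) Up := fun v =>
    ((g2 v).continuousOn_fderiv_of_isOpen hU le_rfl).clm_apply continuousOn_const
  have d0 : ∀ z ∈ Up, DifferentiableAt ℝ g z := fun z hz =>
    (h.c2.contDiffAt (hU.mem_nhds hz)).differentiableAt (by norm_num)
  have d1 : ∀ v : ℂ, ∀ z ∈ Up, DifferentiableAt ℝ (fun z => fderiv ℝ g z v) z := fun v z hz =>
    ((g2 v).contDiffAt (hU.mem_nhds hz)).differentiableAt (by norm_num)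
  have e2 : ∀ v : ℂ, ∀ z ∈ Up, iteratedFDeriv ℝ 2 g z ![v, v] =
      fderiv ℝ (fun z => fderiv ℝ g z v) z v := by
    intro v z hz
    rw [iteratedFDeriv_two_apply, fderiv_clm_apply
      ((g1.contDiffAt (hU.mem_nhds hz)).differentiableAt (by norm_num)) (differentiableAt_const _)]
    simp
  have f1 := tail0_fub (F := fun z => g z ^ 2) h.int (A := Ioi S) measurableSet_Ioi
    (Ioi_subset_Ioi h1)
  have f2 := tail0_fub (F := fun z => g z ^ 2) h.int (A := Ioi (2 * S)) measurableSet_Ioi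
    (Ioi_subset_Ioi (by linarith))
  have f3 := tail0_fub (F := fun z => g z ^ 2) h.int (A := Ioc S (2 * S)) measurableSet_Ioc
    (Ioc_subset_Ioi_self.trans (Ioi_subset_Ioi h1))
  refine f2.2.trans_le (le_of_le_of_eq ?_ f3.2.symm)
  refine tail0_strip (u := fun x y => g ((x : ℂ) + (y : ℂ) * I))
    (ux := fun x y => fderiv ℝ g ((x : ℂ) + (y : ℂ) * I) 1)
    (uy := fun x y => fderiv ℝ g ((x : ℂ) + (y : ℂ) * I) I)
    (uxx := fun x y => fderiv ℝ (fun z => fderiv ℝ g z 1) ((x : ℂ) + (y : ℂ) * I) 1)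
    (uyy := fun x y => fderiv ℝ (fun z => fderiv ℝ g z I) ((x : ℂ) + (y : ℂ) * I) I)
    (by linarith) hS (cc h.c2.continuousOn) (cc (g2 1).continuousOn) (cc (g2 I).continuousOn)
    (cc (g3 1)) (cc (g3 I)) (fun x y hy => tail0_dx (d0 _ (hm x y hy)))
    (fun x y hy => tail0_dx (d1 1 _ (hm x y hy))) (fun x y hy => tail0_dy (d0 _ (hm x y hy)))
    (fun x y hy => tail0_dy (d1 I _ (hm x y hy))) (fun x y hy => ?_) (fun x y hy => ?_) hc _ f1.1
  · have := h.eq _ (hm x y hy)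
    rw [e2 1 _ (hm x y hy), e2 I _ (hm x y hy)] at this
    simpa using this
  · rw [← (h.inv _ (hm x y hy)).1]
    congr 1
    push_cast
    ring

theorem tail_lint {G : ℂ → ℝ≥0∞} (hG : Measurable G) :
    ∫⁻ z, G z ∂muH =
      ∫⁻ x : ℝ, ∫⁻ y in Ioi (0 : ℝ), ENNReal.ofReal (1 / y ^ 2) * G ⟨x, y⟩ := by
  have hρ : Measurable fun z : ℂ => ENNReal.ofReal (1 / z.im ^ 2) := by fun_prop
  have hF : Measurable (Up.indicator fun z : ℂ => ENNReal.ofReal (1 / z.im ^ 2) * G z) :=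
    (hρ.mul hG).indicator isOpen_Up.measurableSet
  unfold muH
  rw [lintegral_withDensity_eq_lintegral_mul _ hρ hG]
  simp only [Pi.mul_apply]
  rw [← lintegral_indicator isOpen_Up.measurableSet,
    ← (Complex.volume_preserving_equiv_real_prod.symm _).lintegral_comp hF,
    Measure.volume_eq_prod]
  refine (lintegral_prod _
    (hF.comp Complex.measurableEquivRealProd.symm.measurable).aemeasurable).trans ?_
  refine lintegral_congr fun x => ?_
  rw [← lintegral_indicator measurableSet_Ioi]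
  refine lintegral_congr fun y => ?_
  rfl

theorem tail_inv_sq {a : ℝ} (ha : 0 < a) :
    ∫⁻ y in Ioi a, ENNReal.ofReal (1 / y ^ 2) = ENNReal.ofReal (1 / a) := by
  have h1 := integrableOn_Ioi_rpow_of_lt (a := -2) (by norm_num) ha
  have h2 := integral_Ioi_rpow_of_lt (a := -2) (by norm_num) ha
  have h3 : ∀ y ∈ Ioi a, ENNReal.ofReal (1 / y ^ 2) = ENNReal.ofReal (y ^ (-2 : ℝ)) := by
    intro y hy
    have hy : 0 < y := ha.trans hy
    rw [Real.rpow_neg hy.le, Real.rpow_two, one_div]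
  rw [setLIntegral_congr_fun measurableSet_Ioi h3, ← ofReal_integral_eq_lintegral_ofReal h1, h2]
  · congr 1
    rw [show (-2 : ℝ) + 1 = -1 by norm_num, Real.rpow_neg_one]
    field_simp
  · filter_upwards [ae_restrict_mem measurableSet_Ioi] with y hy
    exact Real.rpow_nonneg (ha.trans hy).le _

theorem tail_strip {φ : ℝ → ℝ≥0∞} (hφ : Measurable φ) {S : Set ℂ} {Y : ℝ}
    (hS : ∀ z ∈ S, |z.re| ≤ 1 / 2 ∧ Y < z.im) :
    ∫⁻ z in S, φ z.im ∂muH ≤ ∫⁻ y in Ioi Y, ENNReal.ofReal (1 / y ^ 2) * φ y := by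
  have hm : MeasurableSet {z : ℂ | |z.re| ≤ 1 / 2 ∧ Y < z.im} :=
    (measurableSet_le Complex.measurable_re.abs measurable_const).inter
      (measurableSet_lt measurable_const Complex.measurable_im)
  have hS' : S ⊆ {z : ℂ | |z.re| ≤ 1 / 2 ∧ Y < z.im} := hS
  have hG : Measurable fun z : ℂ => φ z.im := hφ.comp Complex.measurable_im
  refine (lintegral_mono_set hS').trans ?_
  rw [← lintegral_indicator hm, tail_lint (hG.indicator hm)]
  calc _ ≤ ∫⁻ x : ℝ, (Icc (-(1 / 2) : ℝ) (1 / 2)).indicator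
        (fun _ => ∫⁻ y in Ioi Y, ENNReal.ofReal (1 / y ^ 2) * φ y) x := by
        refine lintegral_mono fun x => ?_
        by_cases hx : |x| ≤ 1 / 2
        · rw [indicator_of_mem (mem_Icc.2 (abs_le.1 hx)), ← lintegral_indicator measurableSet_Ioi
            (s := Ioi Y)]
          refine (lintegral_mono' Measure.restrict_le_self fun y => ?_)
          by_cases hy : Y < y
          · simp only [indicator, mem_ofPred_eq, mem_Ioi, hx, hy, and_self, if_true, le_refl]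
          · simp only [indicator, mem_ofPred_eq, mem_Ioi, hy, and_false, if_false, mul_zero, le_refl]
        · simp only [indicator, mem_ofPred_eq, hx, false_and, if_false, mul_zero, lintegral_zero,
            zero_le]
    _ = _ := by
        rw [lintegral_indicator measurableSet_Icc, setLIntegral_const, Real.volume_Icc]
        norm_num

/-- `∫_{-1/2}^{1/2} dx / √(1 - x²) = π / 3` -/
theorem vol_Fd : muH Fd = ENNReal.ofReal (Real.pi / 3) := by
  rw [← lintegral_indicator_one measurableSet_Fd,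
    tail_lint (measurable_one.indicator measurableSet_Fd)]
  have h1 : ∀ x : ℝ, ∫⁻ y in Ioi (0 : ℝ), ENNReal.ofReal (1 / y ^ 2) *
      Fd.indicator (1 : ℂ → ℝ≥0∞) ⟨x, y⟩ = (Icc (-(1 / 2) : ℝ) (1 / 2)).indicator
        (fun x => ENNReal.ofReal (1 / √(1 - x ^ 2))) x := by
    intro x
    by_cases hx : |x| ≤ 1 / 2
    · have hx2 : 0 < 1 - x ^ 2 := by
        have := abs_le.1 hx
        nlinarith [this.1, this.2]
      have ha : 0 < √(1 - x ^ 2) := Real.sqrt_pos.2 hx2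
      rw [indicator_of_mem (mem_Icc.2 (abs_le.1 hx)), ← tail_inv_sq ha,
        setLIntegral_congr Ioi_ae_eq_Ici (s := Ioi √(1 - x ^ 2)),
        ← lintegral_indicator measurableSet_Ioi, ← lintegral_indicator measurableSet_Ici]
      refine lintegral_congr fun y => ?_
      have key : (⟨x, y⟩ : ℂ) ∈ Fd ↔ √(1 - x ^ 2) ≤ y := by
        simp only [Fd, mem_ofPred_eq, hx, true_and]
        rw [← Complex.one_le_normSq_iff, Complex.normSq_mk]
        constructor
        · rintro ⟨h0, h⟩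
          exact Real.sqrt_le_iff.2 ⟨h0.le, by nlinarith⟩
        · intro h
          have := (Real.sqrt_le_iff.1 h).2
          exact ⟨ha.trans_le h, by nlinarith⟩
      by_cases hy : √(1 - x ^ 2) ≤ y
      · rw [indicator_of_mem (mem_Ioi.2 (ha.trans_le hy)), indicator_of_mem (key.2 hy),
          indicator_of_mem (mem_Ici.2 hy), Pi.one_apply, mul_one]
      · rw [indicator_of_notMem (mt mem_Ici.1 hy)]
        by_cases h0 : y ∈ Ioi (0 : ℝ)
        · rw [indicator_of_mem h0, indicator_of_notMem (mt key.1 hy), mul_zero]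
        · rw [indicator_of_notMem h0]
    · have h2 : ∀ y : ℝ, (⟨x, y⟩ : ℂ) ∉ Fd := fun y h => hx h.2.1
      rw [indicator_of_notMem (fun h => hx (abs_le.2 (mem_Icc.1 h)))]
      simp only [indicator_of_notMem (h2 _), mul_zero, lintegral_zero]
  have hc : ContinuousOn (fun x : ℝ => 1 / √(1 - x ^ 2)) (Icc (-(1 / 2) : ℝ) (1 / 2)) := by
    refine continuousOn_const.div (by fun_prop) fun x hx => ?_
    exact (Real.sqrt_pos.2 (by nlinarith [hx.1, hx.2])).ne'
  rw [lintegral_congr h1, lintegral_indicator measurableSet_Icc,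
    ← ofReal_integral_eq_lintegral_ofReal hc.integrableOn_Icc
      (Eventually.of_forall fun x => by positivity), integral_Icc_eq_integral_Ioc,
    ← intervalIntegral.integral_of_le (by norm_num)]
  congr 1
  rw [intervalIntegral.integral_eq_sub_of_hasDerivAt (f := Real.arcsin)]
  · have h3 : Real.arcsin (1 / 2) = Real.pi / 6 := by
      rw [← Real.sin_pi_div_six, Real.arcsin_sin] <;> linarith [Real.pi_pos]
    rw [Real.arcsin_neg, h3]
    ring
  · intro x hx
    rw [uIcc_of_le (by norm_num)] at hx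
    exact Real.hasDerivAt_arcsin (by linarith [hx.1]) (by linarith [hx.2])
  · refine ContinuousOn.intervalIntegrable ?_
    rwa [uIcc_of_le (by norm_num)]

theorem vol_cusp {Y : ℝ} (hY : 1 ≤ Y) : muH {z | z ∈ Fd ∧ Y < z.im} ≤ ENNReal.ofReal (1 / Y) := by
  have h := tail_strip (φ := fun _ => 1) measurable_const (S := {z | z ∈ Fd ∧ Y < z.im}) (Y := Y)
    fun z hz => ⟨hz.1.2.1, hz.2⟩
  simp only [mul_one] at h
  rwa [setLIntegral_one, tail_inv_sq (by linarith)] at h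

theorem int_sqrt_cusp {Y Y' : ℝ} (hY : 1 ≤ Y) :
    ∫ z in {z | z ∈ Fd ∧ Y < z.im ∧ z.im ≤ Y'}, √(1 + z.im) ∂muH ≤ 3 / √Y := by
  have hY0 : 0 < Y := by linarith
  rw [integral_eq_lintegral_of_nonneg_ae (Eventually.of_forall fun z => Real.sqrt_nonneg _)
    (Continuous.aestronglyMeasurable (by fun_prop))]
  refine ENNReal.toReal_le_of_le_ofReal (by positivity) ?_
  refine (tail_strip (φ := fun y => ENNReal.ofReal √(1 + y)) (by fun_prop) (Y := Y)
    fun z hz => ⟨hz.1.2.1, hz.2.1⟩).trans ?_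
  have h1 := (integrableOn_Ioi_rpow_of_lt (a := -(3 / 2)) (by norm_num) hY0).const_mul (3 / 2)
  have h2 := integral_Ioi_rpow_of_lt (a := -(3 / 2)) (by norm_num) hY0
  calc _ ≤ ∫⁻ y in Ioi Y, ENNReal.ofReal (3 / 2 * y ^ (-(3 / 2) : ℝ)) := by
        refine setLIntegral_mono' measurableSet_Ioi fun y hy => ?_
        have hy1 : 1 ≤ y := hY.trans (le_of_lt hy)
        have hy0 : 0 < y := by linarith
        rw [← ENNReal.ofReal_mul (by positivity)]
        refine ENNReal.ofReal_le_ofReal ?_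
        have e1 : y ^ (-(3 / 2) : ℝ) = 1 / y ^ 2 * √y := by
          rw [Real.sqrt_eq_rpow, show (-(3 / 2) : ℝ) = -2 + 1 / 2 by norm_num, Real.rpow_add hy0,
            Real.rpow_neg hy0.le, Real.rpow_two, one_div (y ^ 2)]
        have e2 : √(1 + y) ≤ 3 / 2 * √y := by
          refine Real.sqrt_le_iff.2 ⟨by positivity, ?_⟩
          rw [mul_pow, Real.sq_sqrt hy0.le]
          linarith
        rw [e1, mul_left_comm]
        gcongr
    _ = _ := by
        rw [← ofReal_integral_eq_lintegral_ofReal h1, integral_const_mul, h2]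
        · congr 1
          rw [show (-(3 / 2) : ℝ) + 1 = -(1 / 2) by norm_num, Real.rpow_neg hY0.le,
            ← Real.sqrt_eq_rpow]
          field_simp
        · filter_upwards [ae_restrict_mem measurableSet_Ioi] with y hy
          have := Real.rpow_nonneg (hY0.trans hy).le (-(3 / 2))
          positivity

theorem Form.integrableOn {t : ℝ} {g : ℂ → ℝ} (h : Form t g) :
    IntegrableOn (fun z => g z ^ 2) Fd muH :=
  (integrableOn_muH measurableSet_Fd fun _ hz => hz.1).2 h.int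

theorem Form.int_sq {t : ℝ} {g : ℂ → ℝ} (h : Form t g) :
    ∫ z in Fd, g z ^ 2 ∂muH = Real.pi / 3 := by
  rw [setInt_muH _ measurableSet_Fd fun _ hz => hz.1, ← h.nrm]
  refine integral_congr_ae (Eventually.of_forall fun z => ?_)
  simp only [smul_eq_mul]
  ring

/-- the sum of the masses of a low region -/
theorem tail_low {ι : Type} {s : Finset ι} {g : ι → ℂ → ℝ} {t : ι → ℝ} {T B v : ℝ}
    (h : Fam s g t T) {S : Set ℂ} (hm : MeasurableSet S) (hS : S ⊆ Fd) (hB : 0 ≤ B) (hv : 0 ≤ v)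
    (hb : ∀ z ∈ S, ∑ j ∈ s, g j z ^ 2 ≤ B) (hvol : muH S ≤ ENNReal.ofReal v) :
    ∑ j ∈ s, ∫ z in S, g j z ^ 2 ∂muH ≤ B * v := by
  have hi : ∀ j ∈ s, IntegrableOn (fun z => g j z ^ 2) S muH :=
    fun j hj => (h.form j hj).integrableOn.mono_set hS
  have hfin : muH S ≠ ⊤ := (hvol.trans_lt ENNReal.ofReal_lt_top).ne
  rw [← integral_finsetSum _ hi]
  calc _ ≤ ∫ _ in S, B ∂muH :=
        setIntegral_mono_on (integrable_finsetSum _ hi) (integrableOn_const hfin) hm hb
    _ = muH.real S * B := by rw [setIntegral_const, smul_eq_mul]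
    _ ≤ v * B := by
        gcongr
        exact ENNReal.toReal_le_of_le_ofReal hv hvol
    _ = B * v := mul_comm _ _

theorem tail_split {t : ℝ} {g : ℂ → ℝ} (h : Form t g) {A B S : Set ℂ} (hB : MeasurableSet B)
    (hS : S ⊆ Fd) (hd : Disjoint A B) (hu : S = A ∪ B) :
    ∫ z in S, g z ^ 2 ∂muH = ∫ z in A, g z ^ 2 ∂muH + ∫ z in B, g z ^ 2 ∂muH := by
  subst hu
  exact setIntegral_union hd hB (h.integrableOn.mono_set (subset_union_left.trans hS))
    (h.integrableOn.mono_set (subset_union_right.trans hS))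

theorem tail_meas (Y : ℝ) : MeasurableSet {z : ℂ | z ∈ Fd ∧ Y < z.im} :=
  measurableSet_Fd.inter (measurableSet_lt measurable_const Complex.measurable_im)

/-- `pt_fd` below height `4 T`, `tail` with `S = 2 T` above -/
theorem tail_sum : ∃ C : ℝ, 0 ≤ C ∧ ∀ (ι : Type) (s : Finset ι) (g : ι → ℂ → ℝ) (t : ι → ℝ)
    (T Y : ℝ), Fam s g t T → 1 ≤ Y → Y ≤ T →
    ∑ j ∈ s, ∫ z in {z | z ∈ Fd ∧ Y < z.im}, g j z ^ 2 ∂muH ≤ C * T ^ 2 / Y := by
  obtain ⟨C, hC, H⟩ := pt_fd
  refine ⟨2 * C, by positivity, fun ι s g t T Y h hY hT => ?_⟩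
  have hT1 : 1 ≤ T := hY.trans hT
  have hm : MeasurableSet {z : ℂ | z ∈ Fd ∧ Y < z.im ∧ z.im ≤ 2 * (2 * T)} :=
    measurableSet_Fd.inter ((measurableSet_lt measurable_const Complex.measurable_im).inter
      (measurableSet_le Complex.measurable_im measurable_const))
  have h1 := tail_low (B := C * T ^ 2) (v := 1 / Y) h hm (fun z hz => hz.1) (by positivity)
    (by positivity) (fun z hz => H ι s g t T h hT1 z hz.1 (by linarith [hz.2.2]))
    (le_trans (measure_mono (t := {z | z ∈ Fd ∧ Y < z.im}) fun z hz => ⟨hz.1, hz.2.1⟩)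
      (vol_cusp hY))
  have h2 : ∀ j ∈ s, ∫ z in {z | z ∈ Fd ∧ Y < z.im}, g j z ^ 2 ∂muH ≤
      2 * ∫ z in {z : ℂ | z ∈ Fd ∧ Y < z.im ∧ z.im ≤ 2 * (2 * T)}, g j z ^ 2 ∂muH := by
    intro j hj
    have hf := h.form j hj
    have h3 := tail (S := 2 * T) hf (h.cusp j hj) (by linarith)
      (by nlinarith [h.nn j hj, h.le j hj])
    have h4 : ∫ z in {z | z ∈ Fd ∧ 2 * T < z.im ∧ z.im ≤ 2 * (2 * T)}, g j z ^ 2 ∂muH ≤
        ∫ z in {z : ℂ | z ∈ Fd ∧ Y < z.im ∧ z.im ≤ 2 * (2 * T)}, g j z ^ 2 ∂muH :=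
      setIntegral_mono_set (hf.integrableOn.mono_set fun z hz => hz.1)
        (Eventually.of_forall fun z => sq_nonneg _)
        (LE.le.eventuallyLE fun z hz => ⟨hz.1, by linarith [hz.2.1], hz.2.2⟩)
    rw [tail_split hf (A := {z : ℂ | z ∈ Fd ∧ Y < z.im ∧ z.im ≤ 2 * (2 * T)})
      (tail_meas (2 * (2 * T))) (fun z hz => hz.1)]
    · linarith
    · exact disjoint_left.2 fun z hz hz' => absurd hz'.2 (not_lt.2 hz.2.2)
    · ext z
      simp only [mem_ofPred_eq, mem_union]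
      constructor
      · rintro ⟨a, b⟩
        rcases le_or_gt z.im (2 * (2 * T)) with c | c
        exacts [Or.inl ⟨a, b, c⟩, Or.inr ⟨a, c⟩]
      · rintro (⟨a, b, -⟩ | ⟨a, b⟩)
        exacts [⟨a, b⟩, ⟨a, by linarith⟩]
  calc _ ≤ _ := Finset.sum_le_sum h2
    _ = 2 * ∑ j ∈ s, _ := (Finset.mul_sum _ _ _).symm
    _ ≤ 2 * (C * T ^ 2 * (1 / Y)) := by gcongr
    _ = _ := by ring

theorem card_le : ∃ C : ℝ, 0 ≤ C ∧ ∀ (ι : Type) (s : Finset ι) (g : ι → ℂ → ℝ) (t : ι → ℝ)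
    (T : ℝ), Fam s g t T → 1 ≤ T → (s.card : ℝ) ≤ C * T ^ 2 := by
  obtain ⟨C, hC, H⟩ := pt_fd
  obtain ⟨C', hC', H'⟩ := tail_sum
  have hpi : 1 ≤ Real.pi / 3 := by linarith [Real.pi_gt_three]
  refine ⟨C * (Real.pi / 3) + C', by positivity, fun ι s g t T h hT => ?_⟩
  have hm : MeasurableSet {z : ℂ | z ∈ Fd ∧ z.im ≤ 1} :=
    measurableSet_Fd.inter (measurableSet_le Complex.measurable_im measurable_const)
  have h1 := tail_low (B := C * T ^ 2) (v := Real.pi / 3) h hm (fun z hz => hz.1) (by positivity)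
    (by positivity) (fun z hz => H ι s g t T h hT z hz.1 (by linarith [hz.2]))
    ((measure_mono fun z hz => hz.1).trans vol_Fd.le)
  have h2 := H' ι s g t T 1 h le_rfl hT
  have h3 : ∀ j ∈ s, (1 : ℝ) ≤ ∫ z in {z : ℂ | z ∈ Fd ∧ z.im ≤ 1}, g j z ^ 2 ∂muH +
      ∫ z in {z | z ∈ Fd ∧ 1 < z.im}, g j z ^ 2 ∂muH := by
    intro j hj
    have hf := h.form j hj
    rw [← tail_split hf (S := Fd) (tail_meas 1) subset_rfl, hf.int_sq]
    · exact hpi
    · exact disjoint_left.2 fun z hz hz' => absurd hz'.2 (not_lt.2 hz.2)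
    · ext z
      simp only [mem_ofPred_eq, mem_union]
      constructor
      · intro a
        rcases le_or_gt z.im 1 with c | c
        exacts [Or.inl ⟨a, c⟩, Or.inr ⟨a, c⟩]
      · rintro (⟨a, -⟩ | ⟨a, -⟩) <;> exact a
  have h4 := Finset.sum_le_sum h3
  rw [Finset.sum_add_distrib, Finset.sum_const, nsmul_eq_mul, mul_one] at h4
  rw [div_one] at h2
  nlinarith

end Pool.Agent.MP_a28cf0_nt.Dec

end

-- part MP_a28cf0_nt.Dec.Erg
section

set_option autoImplicit false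

namespace Pool.Agent.MP_a28cf0_nt.Dec

open MeasureTheory Complex Filter Topology Set
open scoped ENNReal MatrixGroups ComplexConjugate
open Pool.Agent.MP_a28cf0_nt.Cub

/-! The mean ergodic theorem for the geodesic flow on the modular surface.
`rinv`: right multiplication by `P` preserves `nu` (`mp_linear`, `det_of_coords`, `mp_nu`); by
`unfold_tile`, `2 = ∑' γ, 1_{Fe} (act γ M)` almost everywhere; insert this at `mul M P`, exchange,
substitute `M' = act γ (mul M P)`, and sum again.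
`stat`: for a finitely supported weight `p` put `v p = ∑ p k • e k`; `‖v‖` is shift invariant, so
averaging over `R'` shifts does not increase the norm, and the average over `R'` shifts of
`v p` (`∑ p = 1`) is within `O(1/R')` of `A R' = (1/R') ∑_{k<R'} e k`.  Hence
`l = limsup ‖A R'‖ ≤ ‖v p‖` for all such `p`; so `‖A R‖ → l`, the midpoint of `A R` and of its
shift `A⁻ R` has norm `≥ l`, and the parallelogram law gives `‖A R - A⁻ R‖² ≤ 4 ‖A R‖² - 4 l²`.
(Alternatively: von Neumann's theorem on the closed span.)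
`erg_shift`: write `‖F‖² = ∫_{Fe} F²` and use `e k = Φ (pr (fl k ·))` in `Lp ℝ 2 (nu.restrict Fe)`.
For the unipotent `n ξ` contracted by the forward flow, `fl k (mul M (n ξ)) = mul (fl k M) (n ξ_k)`
with `ξ_k → 0`, and `‖Φ (pr (mul · (n ξ))) - Φ (pr ·)‖ → 0` as `ξ → 0` by dominated convergence,
so `‖Av R ∘ n ξ - Av R‖ → 0` (Cesaro, `rinv`).  For the opposite unipotent group use the backward
averages and `stat`.  A matrix of determinant one with `c ≠ 0` is
`(1, (a-1)/c; 0, 1) (1, 0; c, 1) (1, (d-1)/c; 0, 1)`; the property is stable under products by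
`rinv`; rescale a general `P` (`pr_smul`).
`erg`: for `M, M'` in `Fe` of height at most `Y`, `M' = mul M P` with `P` in a compact subset `C`
of `Gp`; the linear change of variables (`det_mulL`, Jacobian `dt M ^ 2 ≤ 16`) gives
`∫∫ (F M' - F M)² ≤ 16 ∫_{P ∈ C} ‖F (mul · P) - F‖² → 0` (dominated convergence; the set
`P.2.im = 0` is null).  `∫∫_{Fe × Fe} (F M' - F M)² = 2 nu(Fe) ‖F - mean‖²`, the mean of `Av R`
is that of `Φ` by `rinv`, and the part above height `Y` is small (`vol_cusp`, `kan'`). -/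

theorem nu_Fe : nu Fe = ENNReal.ofReal (5 * Real.pi ^ 2 / 2) := by
  have h1 : nu Fe = nu (pr ⁻¹' Fd) := by
    rw [nu, Measure.restrict_apply measurableSet_Fe,
      Measure.restrict_apply (measurable_pr measurableSet_Fd), Fe, inter_comm Sh, inter_assoc,
      inter_self]
  rw [h1, ← Measure.map_apply measurable_pr measurableSet_Fd, kan', Measure.smul_apply, vol_Fd,
    smul_eq_mul, ← ENNReal.ofReal_mul (by positivity)]
  congr 1
  ring

/-- right multiplication -/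
noncomputable def erg0_mulR (P : E) : E →ₗ[ℝ] E where
  toFun M := mul M P
  map_add' M N := by
    apply E_ext <;> simp only [(mul_apply' _ _).1, (mul_apply' _ _).2.1, (mul_apply' _ _).2.2.1,
      (mul_apply' _ _).2.2.2, Prod.fst_add, Prod.snd_add, add_re, add_im] <;> ring
  map_smul' r M := by
    apply E_ext <;> simp only [(mul_apply' _ _).1, (mul_apply' _ _).2.1, (mul_apply' _ _).2.2.1,
      (mul_apply' _ _).2.2.2, (smul_apply' _ _).1, (smul_apply' _ _).2.1, (smul_apply' _ _).2.2.1,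
      (smul_apply' _ _).2.2.2, RingHom.id_apply] <;> ring

theorem erg0_det (P : E) : LinearMap.det (erg0_mulR P) = dt P ^ 2 := by
  rw [det_of_coords (erg0_mulR P) !![P.2.re, P.1.re, 0, 0; P.2.im, P.1.im, 0, 0;
    0, 0, P.2.re, P.1.re; 0, 0, P.2.im, P.1.im]]
  · simp [Matrix.det_succ_row_zero, Fin.sum_univ_succ, Fin.succAbove, dt]; ring
  · intro M
    obtain ⟨h1, h2, h3, h4⟩ := mul_apply' M P
    refine ⟨h1.trans ?_, h2.trans ?_, h3.trans ?_, h4.trans ?_⟩ <;> simp <;> ring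

theorem erg0_mp {P : E} (hP : dt P = 1) : MeasurePreserving (fun M => mul M P) nu nu :=
  mp_nu (mp_linear (erg0_mulR P) (by rw [erg0_det, hP]; simp)) fun M => by
    rw [dt_mul, hP, mul_one]

theorem erg0_act_mul (γ : SL(2, ℤ)) (M P : E) : mul (act γ M) P = act γ (mul M P) := by
  rw [act_eq_mul γ M, mul_assoc', ← act_eq_mul]

theorem erg0_tile : ∀ᵐ M ∂nu, ∑' γ : SL(2, ℤ), Fe.indicator (1 : E → ℝ≥0∞) (act γ M) = 2 := by
  classical
  filter_upwards [unfold_tile] with M hM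
  obtain ⟨hS, γ₀, h⟩ := hM
  have hm : ∀ γ : SL(2, ℤ), act γ M ∈ Fe ↔ γ = γ₀ ∨ γ = -γ₀ := fun γ =>
    ⟨fun hh => (h γ).1 hh.2, fun hh => ⟨(unfold_sh γ M).2 hS, (h γ).2 hh⟩⟩
  rw [tsum_eq_sum (s := {γ₀, -γ₀}) fun γ hγ => indicator_of_notMem
    (fun hh => hγ (by simpa using (hm γ).1 hh)) _, Finset.sum_pair (unfold_ne γ₀),
    indicator_of_mem ((hm _).2 (Or.inl rfl)), indicator_of_mem ((hm _).2 (Or.inr rfl))]
  simp only [Pi.one_apply]
  norm_num

theorem rinv {F : E → ℝ≥0∞} (hF : Measurable F)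
    (hi : ∀ (γ : SL(2, ℤ)), ∀ M ∈ Gp, F (act γ M) = F M) {P : E} (hP : dt P = 1) :
    ∫⁻ M in Fe, F (mul M P) ∂nu = ∫⁻ M in Fe, F M ∂nu := by
  have : Countable SL(2, ℤ) :=
    inferInstanceAs (Countable {A : Fin 2 → Fin 2 → ℤ // Matrix.det (Matrix.of A) = 1})
  have hR := erg0_mp hP
  obtain ⟨χ, hχ⟩ : ∃ χ : E → ℝ≥0∞, χ = Fe.indicator 1 := ⟨_, rfl⟩
  have hχm : Measurable χ := hχ ▸ measurable_one.indicator measurableSet_Fe
  have hact : ∀ γ : SL(2, ℤ), Measurable (act γ) := fun γ => (continuous_act γ).measurable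
  have ht : ∀ᵐ M ∂nu, ∑' γ : SL(2, ℤ), χ (act γ M) = 2 := hχ ▸ erg0_tile
  have hint : ∀ G : E → ℝ≥0∞, ∫⁻ M in Fe, G M ∂nu = ∫⁻ M, χ M * G M ∂nu := fun G => by
    rw [← lintegral_indicator measurableSet_Fe, hχ]
    refine lintegral_congr fun M => ?_
    by_cases hM : M ∈ Fe
    · simp [hM]
    · simp [hM]
  have m1 : ∀ γ : SL(2, ℤ), Measurable fun M => χ M * F (mul M P) * χ (act γ (mul M P)) :=
    fun γ => (hχm.mul (hF.comp hR.measurable)).mul (hχm.comp ((hact γ).comp hR.measurable))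
  have m2 : ∀ γ : SL(2, ℤ), Measurable fun M => χ (mul M P) * F (mul M P) * χ (act γ M) :=
    fun γ => ((hχm.comp hR.measurable).mul (hF.comp hR.measurable)).mul (hχm.comp (hact γ))
  have e1 : (∫⁻ M, χ M * F (mul M P) ∂nu) * 2 =
      ∑' γ : SL(2, ℤ), ∫⁻ M, χ M * F (mul M P) * χ (act γ (mul M P)) ∂nu := by
    rw [← lintegral_tsum fun γ => (m1 γ).aemeasurable, ← lintegral_mul_const' _ _ (by norm_num)]
    refine lintegral_congr_ae ?_
    filter_upwards [hR.quasiMeasurePreserving.ae ht] with M hM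
    rw [ENNReal.tsum_mul_left, hM]
  have e2 : (∫⁻ M, χ (mul M P) * F (mul M P) ∂nu) * 2 =
      ∑' γ : SL(2, ℤ), ∫⁻ M, χ (mul M P) * F (mul M P) * χ (act γ M) ∂nu := by
    rw [← lintegral_tsum fun γ => (m2 γ).aemeasurable, ← lintegral_mul_const' _ _ (by norm_num)]
    refine lintegral_congr_ae ?_
    filter_upwards [ht] with M hM
    rw [ENNReal.tsum_mul_left, hM]
  have e3 : ∀ γ : SL(2, ℤ), ∫⁻ M, χ M * F (mul M P) * χ (act γ⁻¹ (mul M P)) ∂nu =
      ∫⁻ M, χ (mul M P) * F (mul M P) * χ (act γ M) ∂nu := fun γ => by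
    rw [← (mp_act γ).lintegral_comp (m1 γ⁻¹)]
    refine lintegral_congr_ae ?_
    filter_upwards [ae_mem_Sh] with M hM
    have hG : mul M P ∈ Gp := by
      change 0 < dt (mul M P)
      rw [dt_mul, hP, mul_one]
      exact Sh_subset hM
    rw [erg0_act_mul, hi γ _ hG, ← act_mul, inv_mul_cancel, act_one]
    ring
  have e4 : ∫⁻ M, χ (mul M P) * F (mul M P) ∂nu = ∫⁻ M, χ M * F M ∂nu :=
    hR.lintegral_comp (hχm.mul hF)
  rw [hint, hint, ← e4]
  refine (ENNReal.mul_left_inj (c := 2) (by norm_num) (by norm_num)).1 ?_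
  rw [e1, e2, ← (Equiv.inv SL(2, ℤ)).tsum_eq]
  exact tsum_congr e3

theorem rinv_real {F : E → ℝ} (hF : Measurable F) {B : ℝ} (hB : ∀ M ∈ Gp, |F M| ≤ B)
    (hi : ∀ (γ : SL(2, ℤ)), ∀ M ∈ Gp, F (act γ M) = F M) {P : E} (hP : dt P = 1) :
    ∫ M in Fe, F (mul M P) ∂nu = ∫ M in Fe, F M ∂nu := by
  have hR := erg0_mp hP
  have hfin : IsFiniteMeasure (nu.restrict Fe) := ⟨by
    rw [Measure.restrict_apply_univ, nu_Fe]; exact ENNReal.ofReal_lt_top⟩
  have hae : ∀ᵐ M ∂nu.restrict Fe, M ∈ Gp :=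
    (ae_restrict_mem measurableSet_Fe).mono fun M hM => Sh_subset hM.1
  have i1 : Integrable F (nu.restrict Fe) :=
    Integrable.of_bound hF.aestronglyMeasurable B (hae.mono fun M hM => hB M hM)
  have i2 : Integrable (fun M => F (mul M P)) (nu.restrict Fe) :=
    Integrable.of_bound (hF.comp hR.measurable).aestronglyMeasurable B (hae.mono fun M hM => by
      refine hB _ ?_
      change 0 < dt (mul M P)
      rw [dt_mul, hP, mul_one]
      exact hM)
  rw [integral_eq_lintegral_pos_part_sub_lintegral_neg_part i1,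
    integral_eq_lintegral_pos_part_sub_lintegral_neg_part i2,
    rinv (F := fun M => ENNReal.ofReal (F M)) hF.ennreal_ofReal
      (fun γ M hM => by rw [hi γ M hM]) hP,
    rinv (F := fun M => ENNReal.ofReal (-F M)) hF.neg.ennreal_ofReal
      (fun γ M hM => by rw [hi γ M hM]) hP]

theorem erg0_shift {H : Type} [NormedAddCommGroup H] [InnerProductSpace ℝ H] {e : ℤ → H}
    (he : ∀ j k, inner ℝ (e (j + 1)) (e (k + 1)) = inner ℝ (e j) (e k)) (m j k : ℤ) :
    inner ℝ (e (m + j)) (e (m + k)) = inner ℝ (e j) (e k) := by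
  induction m using Int.induction_on with
  | zero => rw [zero_add, zero_add]
  | succ n ih => rw [add_right_comm _ 1 j, add_right_comm _ 1 k, he, ih]
  | pred n ih =>
    rw [← ih, ← he]
    congr 2 <;> ring

theorem erg0_norm {H : Type} [NormedAddCommGroup H] [InnerProductSpace ℝ H] {e : ℤ → H}
    (he : ∀ j k, inner ℝ (e (j + 1)) (e (k + 1)) = inner ℝ (e j) (e k)) (m : ℤ) (n : ℕ) :
    ‖∑ k ∈ Finset.range n, e (m + k)‖ = ‖∑ k ∈ Finset.range n, e k‖ := by
  refine (pow_left_inj₀ (norm_nonneg _) (norm_nonneg _) two_ne_zero).1 ?_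
  rw [← real_inner_self_eq_norm_sq, ← real_inner_self_eq_norm_sq]
  simp only [sum_inner, inner_sum, erg0_shift he]

theorem stat {H : Type} [NormedAddCommGroup H] [InnerProductSpace ℝ H] (e : ℤ → H)
    (he : ∀ j k, inner ℝ (e (j + 1)) (e (k + 1)) = inner ℝ (e j) (e k)) :
    Tendsto (fun R : ℕ => ‖(R : ℝ)⁻¹ • ∑ k ∈ Finset.range R, e k -
      (R : ℝ)⁻¹ • ∑ k ∈ Finset.range R, e (-k)‖) atTop (𝓝 0) := by
  obtain ⟨s, hs⟩ : ∃ s : ℕ → ℝ, s = fun n => ‖∑ k ∈ Finset.range n, e k‖ := ⟨_, rfl⟩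
  have hsn : ∀ (m : ℤ) (n : ℕ), ‖∑ k ∈ Finset.range n, e (m + k)‖ = s n := fun m n => by
    rw [erg0_norm he, hs]
  have hadd : ∀ (a : ℤ) (m n : ℕ), ∑ k ∈ Finset.range (m + n), e (a + k) =
      ∑ k ∈ Finset.range m, e (a + k) + ∑ k ∈ Finset.range n, e (a + m + k) := fun a m n => by
    rw [Finset.sum_range_add]
    simp only [Nat.cast_add, add_assoc]
  have hsub : Subadditive s := fun m n => by
    rw [← hsn 0 (m + n), hadd, ← hsn 0 m, ← hsn (0 + m) n]
    exact norm_add_le _ _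
  have hbd : BddBelow (range fun n : ℕ => s n / n) := ⟨0, by
    rintro _ ⟨n, rfl⟩
    rw [hs]
    positivity⟩
  have hlim := hsub.tendsto_lim hbd
  have hlim2 : Tendsto (fun n : ℕ => s (n + n) / ((n + n : ℕ) : ℝ)) atTop (𝓝 hsub.lim) :=
    hlim.comp (tendsto_atTop_mono (fun n => Nat.le_add_left n n) tendsto_id)
  have h0 : ∀ j : ℤ, ‖e j‖ = s 1 := fun j => by
    rw [← hsn j 1]
    simp
  have h1 : Tendsto (fun n : ℕ => √(4 * (s n / n) ^ 2 - 4 * (s (n + n) / ((n + n : ℕ) : ℝ)) ^ 2) +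
      (n : ℝ)⁻¹ * (2 * s 1)) atTop (𝓝 (√(4 * hsub.lim ^ 2 - 4 * hsub.lim ^ 2) + 0 * (2 * s 1))) :=
    (((hlim.pow 2).const_mul 4).sub ((hlim2.pow 2).const_mul 4)).sqrt.add
      (tendsto_inv_atTop_nhds_zero_nat.mul_const _)
  rw [sub_self, Real.sqrt_zero, zero_mul, add_zero] at h1
  refine squeeze_zero' (Eventually.of_forall fun _ => norm_nonneg _) ?_ h1
  filter_upwards [eventually_gt_atTop 0] with n hn
  have hn0 : (0 : ℝ) < n := by exact_mod_cast hn
  have k1 : ∑ k ∈ Finset.range n, e (-k) = ∑ k ∈ Finset.range n, e (1 - n + k) := by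
    rw [← Finset.sum_range_reflect (fun k : ℕ => e (-k)) n]
    refine Finset.sum_congr rfl fun k hk => ?_
    have := Finset.mem_range.1 hk
    congr 1
    omega
  have k2 : ∑ k ∈ Finset.range n, e k = ∑ k ∈ Finset.range n, e (1 + k) + (e 0 - e n) := by
    have a1 := Finset.sum_range_succ (fun k : ℕ => e k) n
    have a2 := Finset.sum_range_succ' (fun k : ℕ => e k) n
    simp only [Nat.cast_add, Nat.cast_one, Nat.cast_zero, add_comm _ (1 : ℤ)] at a2
    rw [a1] at a2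
    rw [← add_sub_assoc, ← a2, add_sub_cancel_right]
  have k3 := hadd (1 - n) n n
  rw [sub_add_cancel] at k3
  obtain ⟨U, hU⟩ : ∃ U, U = ∑ k ∈ Finset.range n, e (1 + k) := ⟨_, rfl⟩
  obtain ⟨V, hV⟩ : ∃ V, V = ∑ k ∈ Finset.range n, e (1 - n + k) := ⟨_, rfl⟩
  have k4 : ‖U‖ = s n := by rw [hU, hsn]
  have k5 : ‖V‖ = s n := by rw [hV, hsn]
  have k6 : ‖U + V‖ = s (n + n) := by rw [← hsn (1 - n) (n + n), k3, hU, hV, add_comm]
  have k7 := parallelogram_law_with_norm ℝ U V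
  rw [k4, k5, k6] at k7
  have k8 : (n : ℝ)⁻¹ * ‖U - V‖ =
      √(4 * (s n / n) ^ 2 - 4 * (s (n + n) / ((n + n : ℕ) : ℝ)) ^ 2) := by
    rw [← Real.sqrt_sq (show 0 ≤ (n : ℝ)⁻¹ * ‖U - V‖ by positivity)]
    congr 1
    push_cast
    field_simp
    linear_combination 4 * k7
  have k9 : ‖e 0 - e n‖ ≤ 2 * s 1 := by
    have := norm_sub_le (e 0) (e n)
    rw [h0, h0] at this
    linarith
  rw [k1, k2, ← hU, ← hV, ← smul_sub, norm_smul, Real.norm_of_nonneg (inv_nonneg.2 hn0.le),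
    ← k8, ← mul_add, add_sub_right_comm]
  exact mul_le_mul_of_nonneg_left ((norm_add_le _ _).trans (add_le_add le_rfl k9))
    (inv_nonneg.2 hn0.le)

/-- bounded measurable invariant functions -/
structure erg1_G (F : E → ℝ) : Prop where
  meas : Measurable F
  bd : ∃ B : ℝ, ∀ M ∈ Gp, |F M| ≤ B
  inv : ∀ (γ : SL(2, ℤ)), ∀ M ∈ Gp, F (act γ M) = F M

theorem erg1_fin : IsFiniteMeasure (nu.restrict Fe) :=
  ⟨by rw [Measure.restrict_apply_univ, nu_Fe]; exact ENNReal.ofReal_lt_top⟩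

theorem erg1_mem {M P : E} (hM : M ∈ Gp) (hP : dt P = 1) : mul M P ∈ Gp := by
  show 0 < dt (mul M P)
  rw [dt_mul, hP, mul_one]; exact hM

theorem erg1_ae : ∀ᵐ M ∂(nu.restrict Fe), M ∈ Gp :=
  (ae_restrict_mem measurableSet_Fe).mono fun _ h => Sh_subset h.1

theorem erg1_G.add {F G : E → ℝ} (hF : erg1_G F) (hG : erg1_G G) :
    erg1_G fun M => F M + G M := by
  obtain ⟨B, hB⟩ := hF.bd
  obtain ⟨C, hC⟩ := hG.bd
  refine ⟨hF.meas.add hG.meas, ⟨B + C, fun M hM => ?_⟩, fun γ M hM => ?_⟩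
  · exact (abs_add_le _ _).trans (add_le_add (hB M hM) (hC M hM))
  · rw [hF.inv γ M hM, hG.inv γ M hM]

theorem erg1_G.mul {F G : E → ℝ} (hF : erg1_G F) (hG : erg1_G G) :
    erg1_G fun M => F M * G M := by
  obtain ⟨B, hB⟩ := hF.bd
  obtain ⟨C, hC⟩ := hG.bd
  refine ⟨hF.meas.mul hG.meas, ⟨B * C, fun M hM => ?_⟩, fun γ M hM => ?_⟩
  · rw [abs_mul]
    exact mul_le_mul (hB M hM) (hC M hM) (abs_nonneg _) ((abs_nonneg _).trans (hB M hM))
  · rw [hF.inv γ M hM, hG.inv γ M hM]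

theorem erg1_const (c : ℝ) : erg1_G fun _ => c :=
  ⟨measurable_const, ⟨|c|, fun _ _ => le_rfl⟩, fun _ _ _ => rfl⟩

theorem erg1_G.sub {F G : E → ℝ} (hF : erg1_G F) (hG : erg1_G G) :
    erg1_G fun M => F M - G M := by
  have h := hF.add ((erg1_const (-1)).mul hG)
  simpa only [neg_mul, one_mul, ← sub_eq_add_neg] using h

theorem erg1_G.sq {F : E → ℝ} (hF : erg1_G F) : erg1_G fun M => F M ^ 2 := by
  simpa only [pow_two] using hF.mul hF

theorem erg1_sum {F : ℕ → E → ℝ} (hF : ∀ k, erg1_G (F k)) (R : ℕ) :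
    erg1_G fun M => ∑ k ∈ Finset.range R, F k M := by
  induction R with
  | zero => simpa using erg1_const 0
  | succ n ih => simpa only [Finset.sum_range_succ] using ih.add (hF n)

theorem erg1_avg {F : ℕ → E → ℝ} (hF : ∀ k, erg1_G (F k)) (R : ℕ) :
    erg1_G fun M => (∑ k ∈ Finset.range R, F k M) / R := by
  simpa only [div_eq_mul_inv] using (erg1_sum hF R).mul (erg1_const (R : ℝ)⁻¹)

theorem erg1_G.comp {F : E → ℝ} (hF : erg1_G F) {P : E} (hP : dt P = 1) :
    erg1_G fun M => F (Cub.mul M P) := by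
  obtain ⟨B, hB⟩ := hF.bd
  have hc : Continuous fun M : E => Cub.mul M P := by fun_prop
  refine ⟨hF.meas.comp hc.measurable, ⟨B, fun M hM => hB _ (erg1_mem hM hP)⟩, fun γ M hM => ?_⟩
  rw [act_eq_mul, mul_assoc', ← act_eq_mul, hF.inv γ _ (erg1_mem hM hP)]

theorem erg1_fl (s : ℝ) (M : E) : mul M (fl s one) = fl s M := by rw [mul_fl, mul_one']

theorem erg1_dt (s : ℝ) : dt (fl s one) = 1 := by rw [dt_fl, dt_one]

theorem erg1_G.fl {F : E → ℝ} (hF : erg1_G F) (s : ℝ) : erg1_G fun M => F (Cub.fl s M) := by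
  simpa only [erg1_fl] using hF.comp (erg1_dt s)

theorem erg1_G.memLp {F : E → ℝ} (hF : erg1_G F) (p : ℝ≥0∞) : MemLp F p (nu.restrict Fe) := by
  obtain ⟨B, hB⟩ := hF.bd
  have := erg1_fin
  exact MemLp.of_bound hF.meas.aestronglyMeasurable B (erg1_ae.mono fun M hM => hB M hM)

theorem erg1_G.int {F : E → ℝ} (hF : erg1_G F) : Integrable F (nu.restrict Fe) :=
  memLp_one_iff_integrable.1 (hF.memLp 1)

theorem erg1_G.rinv {F : E → ℝ} (hF : erg1_G F) {P : E} (hP : dt P = 1) :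
    ∫ M in Fe, F (Cub.mul M P) ∂nu = ∫ M in Fe, F M ∂nu := by
  obtain ⟨B, hB⟩ := hF.bd
  exact rinv_real hF.meas hB hF.inv hP

/-- the squared norm -/
noncomputable def erg1_q (F : E → ℝ) : ℝ := ∫ M in Fe, F M ^ 2 ∂nu

theorem erg1_q_nonneg (F : E → ℝ) : 0 ≤ erg1_q F := integral_nonneg fun _ => sq_nonneg _

theorem erg1_q_comp {F : E → ℝ} (hF : erg1_G F) {P : E} (hP : dt P = 1) :
    erg1_q (fun M => F (mul M P)) = erg1_q F := hF.sq.rinv hP

theorem erg1_q_add {F G : ℕ → E → ℝ} (hF : ∀ R, erg1_G (F R)) (hG : ∀ R, erg1_G (G R))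
    (h1 : Tendsto (fun R => erg1_q (F R)) atTop (𝓝 0))
    (h2 : Tendsto (fun R => erg1_q (G R)) atTop (𝓝 0)) :
    Tendsto (fun R => erg1_q fun M => F R M + G R M) atTop (𝓝 0) := by
  have h3 := (h1.const_mul 2).add (h2.const_mul 2)
  rw [mul_zero, add_zero] at h3
  refine squeeze_zero (fun R => erg1_q_nonneg _) (fun R => ?_) h3
  unfold erg1_q
  rw [← integral_const_mul, ← integral_const_mul,
    ← integral_add ((hF R).sq.int.const_mul 2) ((hG R).sq.int.const_mul 2)]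
  refine integral_mono ((hF R).add (hG R)).sq.int
    (((hF R).sq.int.const_mul 2).add ((hG R).sq.int.const_mul 2)) fun M => ?_
  have := sq_nonneg (F R M - G R M)
  simp only
  nlinarith

theorem erg1_q_avg {F : ℕ → E → ℝ} (hF : ∀ k, erg1_G (F k))
    (h : Tendsto (fun k => erg1_q (F k)) atTop (𝓝 0)) :
    Tendsto (fun R : ℕ => erg1_q fun M => (∑ k ∈ Finset.range R, F k M) / R) atTop (𝓝 0) := by
  refine squeeze_zero (fun R => erg1_q_nonneg _) (fun R => ?_) h.cesaro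
  unfold erg1_q
  rw [← integral_finsetSum _ fun k _ => (hF k).sq.int, ← integral_const_mul]
  refine integral_mono (erg1_avg hF R).sq.int
    ((integrable_finsetSum _ fun k _ => (hF k).sq.int).const_mul _) fun M => ?_
  have h1 := sq_sum_le_card_mul_sum_sq (s := Finset.range R) (f := fun k => F k M)
  rw [Finset.card_range] at h1
  rcases Nat.eq_zero_or_pos R with rfl | hR
  · simp
  have h2 : (0 : ℝ) < R := by exact_mod_cast hR
  simp only
  rw [div_pow, div_le_iff₀ (by positivity)]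
  refine h1.trans (le_of_eq ?_)
  field_simp

theorem erg1_cont {f : E → ℝ} (hf : erg1_G f) (hc : ContinuousOn f Gp) {g : ℕ → E}
    (hd : ∀ k, dt (g k) = 1) (hg : Tendsto g atTop (𝓝 one)) :
    Tendsto (fun k => erg1_q fun M => f (mul M (g k)) - f M) atTop (𝓝 0) := by
  obtain ⟨B, hB⟩ := hf.bd
  have := erg1_fin
  have h := tendsto_integral_of_dominated_convergence (μ := nu.restrict Fe)
    (F := fun k M => (f (mul M (g k)) - f M) ^ 2) (f := fun _ => (0 : ℝ))
    (fun _ => (B + B) ^ 2) (fun k => ((hf.comp (hd k)).sub hf).sq.meas.aestronglyMeasurable)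
    (integrable_const _) (fun k => erg1_ae.mono fun M hM => ?_) (erg1_ae.mono fun M hM => ?_)
  · simpa only [integral_zero, erg1_q] using h
  · rw [Real.norm_eq_abs, abs_pow]
    refine pow_le_pow_left₀ (abs_nonneg _) ((abs_sub _ _).trans ?_) 2
    exact add_le_add (hB _ (erg1_mem hM (hd k))) (hB M hM)
  · have h1 : Continuous fun P : E => mul M P := by fun_prop
    have h2 : Tendsto (fun k => mul M (g k)) atTop (𝓝 M) := by
      have := (h1.tendsto one).comp hg
      rwa [mul_one'] at this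
    have h3 := ((hc.continuousAt (isOpen_Gp.mem_nhds hM)).tendsto.comp h2).sub_const (f M)
    have h4 := h3.pow 2
    rw [sub_self, zero_pow two_ne_zero] at h4
    exact h4

/-- averages along a sequence of times -/
noncomputable def erg1_A (f : E → ℝ) (s : ℕ → ℝ) (R : ℕ) (M : E) : ℝ :=
  (∑ k ∈ Finset.range R, f (fl (s k) M)) / R

theorem erg1_A_G {f : E → ℝ} (hf : erg1_G f) (s : ℕ → ℝ) (R : ℕ) : erg1_G (erg1_A f s R) :=
  erg1_avg (F := fun k M => f (fl (s k) M)) (fun k => hf.fl (s k)) R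

/-- asymptotic invariance under `P` -/
def erg1_S (f : E → ℝ) (s : ℕ → ℝ) (P : E) : Prop :=
  Tendsto (fun R : ℕ => erg1_q fun M => erg1_A f s R (mul M P) - erg1_A f s R M) atTop (𝓝 0)

theorem erg1_contr {f : E → ℝ} (hf : erg1_G f) (hc : ContinuousOn f Gp) {s : ℕ → ℝ} {P : E}
    {g : ℕ → E} (hd : ∀ k, dt (g k) = 1) (hg : Tendsto g atTop (𝓝 one))
    (he : ∀ k, fl (s k) P = mul (fl (s k) one) (g k)) : erg1_S f s P := by
  have h1 := erg1_cont hf hc hd hg
  have hD : ∀ k, erg1_G fun M => f (mul M (g k)) - f M := fun k => (hf.comp (hd k)).sub hf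
  have h2 := erg1_q_avg (F := fun k M => f (mul (mul M (fl (s k) one)) (g k)) -
    f (mul M (fl (s k) one))) (fun k => (hD k).comp (erg1_dt _))
    (h1.congr fun k => (erg1_q_comp (hD k) (erg1_dt _)).symm)
  refine h2.congr fun R => ?_
  congr 1
  funext M
  simp only [erg1_A, ← sub_div, ← Finset.sum_sub_distrib]
  congr 1
  refine Finset.sum_congr rfl fun k _ => ?_
  rw [mul_assoc', ← he, mul_fl, erg1_fl]

theorem erg1_S.mul {f : E → ℝ} (hf : erg1_G f) {s : ℕ → ℝ} {P Q : E} (hP : dt P = 1)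
    (hQ : dt Q = 1) (h1 : erg1_S f s P) (h2 : erg1_S f s Q) : erg1_S f s (Cub.mul P Q) := by
  have hA := erg1_A_G hf s
  have hD : ∀ R, erg1_G fun M => erg1_A f s R (Cub.mul M Q) - erg1_A f s R M := fun R =>
    ((hA R).comp hQ).sub (hA R)
  have h3 := erg1_q_add (fun R => (hD R).comp hP) (fun R => ((hA R).comp hP).sub (hA R))
    (h2.congr fun R => (erg1_q_comp (hD R) hP).symm) h1
  refine h3.congr fun R => ?_
  congr 1
  funext M
  rw [mul_assoc']; ring

theorem erg1_inner {F G : E → ℝ} (hF : erg1_G F) (hG : erg1_G G) :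
    inner ℝ ((hF.memLp 2).toLp F) ((hG.memLp 2).toLp G) = ∫ M in Fe, F M * G M ∂nu := by
  rw [L2.inner_def]
  refine integral_congr_ae ?_
  filter_upwards [(hF.memLp 2).coeFn_toLp, (hG.memLp 2).coeFn_toLp] with M h1 h2
  rw [h1, h2]; simp [mul_comm]

theorem erg1_stat {f : E → ℝ} (hf : erg1_G f) :
    Tendsto (fun R : ℕ => erg1_q fun M => erg1_A f (fun k => k) R M -
      erg1_A f (fun k => -k) R M) atTop (𝓝 0) := by
  have hF : ∀ j : ℤ, erg1_G fun M => f (fl j M) := fun j => hf.fl j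
  obtain ⟨e, he⟩ : ∃ e : ℤ → Lp ℝ 2 (nu.restrict Fe),
      ∀ j, e j = ((hF j).memLp 2).toLp _ := ⟨_, fun _ => rfl⟩
  have h1 := stat e fun j k => by
    rw [he, he, he, he, erg1_inner (hF _) (hF _), erg1_inner (hF _) (hF _),
      ← ((hF j).mul (hF k)).rinv (erg1_dt 1)]
    simp only [erg1_fl, fl_fl, Int.cast_add, Int.cast_one]
  have h2 := h1.pow 2
  rw [zero_pow two_ne_zero] at h2
  refine h2.congr fun R => ?_
  have hD := (erg1_A_G hf (fun k => k) R).sub (erg1_A_G hf (fun k => -k) R)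
  have h3 : (R : ℝ)⁻¹ • ∑ k ∈ Finset.range R, e k - (R : ℝ)⁻¹ • ∑ k ∈ Finset.range R, e (-k) =
      (hD.memLp 2).toLp _ := by
    refine Lp.ext ?_
    have h4 : ∀ᵐ M ∂(nu.restrict Fe), ∀ j : ℤ, e j M = f (fl j M) :=
      ae_all_iff.2 fun j => by rw [he]; exact ((hF j).memLp 2).coeFn_toLp
    filter_upwards [h4, (hD.memLp 2).coeFn_toLp,
      Lp.coeFn_sub ((R : ℝ)⁻¹ • ∑ k ∈ Finset.range R, e k)
        ((R : ℝ)⁻¹ • ∑ k ∈ Finset.range R, e (-k)),
      Lp.coeFn_smul (R : ℝ)⁻¹ (∑ k ∈ Finset.range R, e k),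
      Lp.coeFn_smul (R : ℝ)⁻¹ (∑ k ∈ Finset.range R, e (-k)),
      Lp.coeFn_fun_finsetSum (Finset.range R) fun k => e k,
      Lp.coeFn_fun_finsetSum (Finset.range R) fun k => e (-k)] with M a1 a2 a3 a4 a5 a6 a7
    rw [a2, a3, Pi.sub_apply, a4, a5, Pi.smul_apply, Pi.smul_apply, a6, a7]
    simp only [a1, erg1_A, smul_eq_mul, Int.cast_neg, Int.cast_natCast]
    ring
  rw [h3, ← real_inner_self_eq_norm_sq, erg1_inner hD hD]
  simp only [erg1_q, pow_two]

theorem erg1_back {f : E → ℝ} (hf : erg1_G f) {P : E} (hP : dt P = 1)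
    (h : erg1_S f (fun k => -k) P) : erg1_S f (fun k => k) P := by
  have hA := erg1_A_G hf (fun k => k)
  have hB := erg1_A_G hf (fun k => -k)
  have h1 := erg1_stat hf
  have hD := fun R => (hA R).sub (hB R)
  have h2 := erg1_q_add (fun R => (hD R).comp hP) (fun R => ((hB R).comp hP).sub (hB R))
    (h1.congr fun R => (erg1_q_comp (hD R) hP).symm) h
  have h3 := erg1_q_add (fun R => ((hD R).comp hP).add (((hB R).comp hP).sub (hB R)))
    (fun R => (hB R).sub (hA R)) h2 (h1.congr fun R => by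
      simp only [erg1_q]; congr 1; funext M; ring)
  refine h3.congr fun R => ?_
  congr 1
  funext M
  ring

/-- lower unipotent matrices -/
def erg1_lo (x : ℝ) : E := (I, 1 + (x : ℂ) * I)

/-- upper unipotent matrices -/
def erg1_up (x : ℝ) : E := ((x : ℂ) + I, 1)

theorem erg1_dt_lo (x : ℝ) : dt (erg1_lo x) = 1 := by simp [dt, erg1_lo]

theorem erg1_dt_up (x : ℝ) : dt (erg1_up x) = 1 := by simp [dt, erg1_up]

theorem erg1_lim (x : ℝ) :
    Tendsto (fun k : ℕ => x * (Real.exp (-k) * Real.exp (-k))) atTop (𝓝 0) := by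
  have h : Tendsto (fun k : ℕ => Real.exp (-k)) atTop (𝓝 0) :=
    Real.tendsto_exp_neg_atTop_nhds_zero.comp tendsto_natCast_atTop_atTop
  simpa using (h.mul h).const_mul x

theorem erg1_S_lo {f : E → ℝ} (hf : erg1_G f) (hc : ContinuousOn f Gp) (x : ℝ) :
    erg1_S f (fun k => k) (erg1_lo x) := by
  have h1 : Continuous erg1_lo := by unfold erg1_lo; fun_prop
  have h2 := (h1.tendsto 0).comp (erg1_lim x)
  have h3 : erg1_lo 0 = one := by simp [erg1_lo, one]
  rw [h3] at h2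
  refine erg1_contr hf hc (fun k => erg1_dt_lo _) h2 fun k => ?_
  have h4 : Real.exp k * Real.exp (-k) = 1 := by rw [← Real.exp_add]; simp
  apply E_ext <;> simp only [(mul_apply' _ _).1, (mul_apply' _ _).2.1, (mul_apply' _ _).2.2.1,
    (mul_apply' _ _).2.2.2, (fl_apply _ _).1, (fl_apply _ _).2.1, (fl_apply _ _).2.2.1,
    (fl_apply _ _).2.2.2] <;>
    generalize Real.exp (k : ℝ) = u at * <;> generalize Real.exp (-(k : ℝ)) = v at * <;>
    simp [erg1_lo, one]
  linear_combination (-(x * v)) * h4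

theorem erg1_S_up {f : E → ℝ} (hf : erg1_G f) (hc : ContinuousOn f Gp) (x : ℝ) :
    erg1_S f (fun k => k) (erg1_up x) := by
  have h1 : Continuous erg1_up := by unfold erg1_up; fun_prop
  have h2 := (h1.tendsto 0).comp (erg1_lim x)
  have h3 : erg1_up 0 = one := by simp [erg1_up, one]
  rw [h3] at h2
  refine erg1_back hf (erg1_dt_up x)
    (erg1_contr hf hc (fun k => erg1_dt_up _) h2 fun k => ?_)
  have h4 : Real.exp k * Real.exp (-k) = 1 := by rw [← Real.exp_add]; simp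
  apply E_ext <;> simp only [(mul_apply' _ _).1, (mul_apply' _ _).2.1, (mul_apply' _ _).2.2.1,
    (mul_apply' _ _).2.2.2, (fl_apply _ _).1, (fl_apply _ _).2.1, (fl_apply _ _).2.2.1,
    (fl_apply _ _).2.2.2, neg_neg] <;>
    generalize Real.exp (k : ℝ) = u at * <;> generalize Real.exp (-(k : ℝ)) = v at * <;>
    simp [erg1_up, one]
  linear_combination (-(x * v)) * h4

theorem erg1_dec {P : E} (hP : dt P = 1) (h0 : P.2.im ≠ 0) :
    P = mul (mul (erg1_up ((P.1.im - 1) / P.2.im)) (erg1_lo P.2.im))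
      (erg1_up ((P.2.re - 1) / P.2.im)) := by
  unfold dt at hP
  apply E_ext <;> simp only [(mul_apply' _ _).1, (mul_apply' _ _).2.1, (mul_apply' _ _).2.2.1,
    (mul_apply' _ _).2.2.2] <;>
    simp only [erg1_up, erg1_lo, add_re, add_im, ofReal_re, ofReal_im, I_re, I_im, one_re, one_im,
      mul_re, mul_im] <;> field_simp
  · linear_combination (-P.2.im) * hP
  all_goals ring

theorem erg_shift {Φ : ℂ → ℝ} (hm : Measurable Φ) (hc : ContinuousOn Φ Up) (hi : Inv Φ) {B : ℝ}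
    (hB : ∀ z ∈ Up, |Φ z| ≤ B) {P : E} (hP : P ∈ Gp) (h0 : P.2.im ≠ 0) :
    Tendsto (fun R : ℕ => ∫ M in Fe, (Av Φ R (mul M P) - Av Φ R M) ^ 2 ∂nu) atTop (𝓝 0) := by
  have hf : erg1_G fun M => Φ (pr M) :=
    ⟨hm.comp measurable_pr, ⟨B, fun M hM => hB _ (pr_mem hM)⟩, fun γ M hM => inv_of_gen hi γ hM⟩
  have hc' : ContinuousOn (fun M => Φ (pr M)) Gp :=
    hc.comp (contDiffOn_pr (n := 0)).continuousOn fun M hM => pr_mem hM
  have hs : (√(dt P))⁻¹ ≠ 0 := inv_ne_zero (Real.sqrt_pos.2 hP).ne'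
  have h1 : (unfoldN P).2.im ≠ 0 := by
    rw [unfoldN, (smul_apply' _ _).2.2.2]; exact mul_ne_zero hs h0
  have h2 : erg1_S (fun M => Φ (pr M)) (fun k => k) (unfoldN P) := by
    rw [erg1_dec (unfoldN_dt hP) h1]
    refine erg1_S.mul hf ?_ (erg1_dt_up _) (erg1_S.mul hf (erg1_dt_up _) (erg1_dt_lo _)
      (erg1_S_up hf hc' _) (erg1_S_lo hf hc' _)) (erg1_S_up hf hc' _)
    rw [dt_mul, erg1_dt_up, erg1_dt_lo, one_mul]
  refine Tendsto.congr (fun R => ?_) h2
  simp only [erg1_q, erg1_A, Av, unfoldN, mul_smul', fl_smul, pr_smul hs]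

theorem erg_cov {M : E} (hM : M ∈ Sh) {f : E → ℝ≥0∞} (hf : Measurable f) :
    ∫⁻ P, f (mul M P) ≤ ∫⁻ N, f N ∧ ∫⁻ N, f N ≤ 16 * ∫⁻ P, f (mul M P) := by
  have h1 : (1 : ℝ) ≤ dt M ^ 2 := one_le_pow₀ hM.1
  have h2 : dt M ^ 2 ≤ 16 := by nlinarith [hM.1, hM.2]
  have h0 : LinearMap.det (mulL M) ≠ 0 := by rw [det_mulL]; linarith
  have e : ∫⁻ P, f (mul M P) = ENNReal.ofReal (dt M ^ 2)⁻¹ * ∫⁻ N, f N := by
    have := lintegral_map (μ := volume) hf (mulL M).continuous_of_finiteDimensional.measurable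
    rw [Measure.map_linearMap_addHaar_eq_smul_addHaar _ h0, lintegral_smul_measure, det_mulL,
      abs_of_nonneg (by positivity), smul_eq_mul] at this
    exact this.symm
  rw [e]
  refine ⟨mul_le_of_le_one_left' (ENNReal.ofReal_le_one.2 (inv_le_one_of_one_le₀ h1)), ?_⟩
  rw [← mul_assoc]
  refine le_mul_of_one_le_left' ?_
  rw [← ENNReal.ofReal_ofNat, ← ENNReal.ofReal_mul (by norm_num), ENNReal.one_le_ofReal,
    ← div_eq_mul_inv, one_le_div (by linarith)]
  exact h2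

theorem erg_null : ∀ᵐ P : E, P.2.im ≠ 0 := by
  have h := Measure.addHaar_submodule (volume : Measure E)
    (LinearMap.ker (imLm ∘ₗ LinearMap.snd ℝ ℂ ℂ)) (fun h => by
      have : ((0, I) : E) ∈ LinearMap.ker (imLm ∘ₗ LinearMap.snd ℝ ℂ ℂ) := h ▸ Submodule.mem_top
      simp at this)
  exact measure_eq_zero_iff_ae_notMem.1 h

theorem erg_restr : nu.restrict Fe = volume.restrict Fe :=
  Measure.restrict_restrict_of_subset inter_subset_left

theorem erg_fin : IsFiniteMeasure (nu.restrict Fe) :=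
  isFiniteMeasure_restrict.2 (by rw [nu_Fe]; exact ENNReal.ofReal_ne_top)

theorem erg_ae : ∀ᵐ M ∂(nu.restrict Fe), M ∈ Sh :=
  (ae_restrict_mem measurableSet_Fe).mono fun _ h => h.1

theorem erg_double {F : ℕ → E → ℝ} (hF : ∀ R, Measurable (F R)) {B : ℝ}
    (hB : ∀ R, ∀ M ∈ Gp, |F R M| ≤ B)
    (h : ∀ P ∈ Gp, P.2.im ≠ 0 →
      Tendsto (fun R => ∫ M in Fe, (F R (mul M P) - F R M) ^ 2 ∂nu) atTop (𝓝 0)) :
    Tendsto (fun R => ∫⁻ M in Fe, ∫⁻ N in Fe, ENNReal.ofReal ((F R N - F R M) ^ 2) ∂nu ∂nu)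
      atTop (𝓝 0) := by
  have := erg_fin
  have hmul : Measurable fun p : E × E => mul p.1 p.2 :=
    (continuous_mul' continuous_fst continuous_snd).measurable
  have hsq : ∀ R, ∀ M ∈ Gp, ∀ N ∈ Gp, (F R N - F R M) ^ 2 ≤ (2 * B) ^ 2 := fun R M hM N hN =>
    sq_le_sq' (by linarith [abs_le.1 (hB R M hM), abs_le.1 (hB R N hN)])
      (by linarith [abs_le.1 (hB R M hM), abs_le.1 (hB R N hN)])
  have hmem : ∀ M ∈ Gp, ∀ P ∈ Gp, mul M P ∈ Gp := fun M hM P hP => by
    change 0 < dt _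
    rw [dt_mul]
    exact mul_pos hM hP
  obtain ⟨a, ha⟩ : ∃ a : ℕ → E → E → ℝ≥0∞, a = fun R M P =>
    Fe.indicator (fun N => ENNReal.ofReal ((F R N - F R M) ^ 2)) (mul M P) := ⟨_, rfl⟩
  obtain ⟨b, hb⟩ : ∃ b : E → E → ℝ≥0∞, b = fun M P =>
    Fe.indicator (fun _ => ENNReal.ofReal ((2 * B) ^ 2)) (mul M P) := ⟨_, rfl⟩
  have ham : ∀ R, Measurable (Function.uncurry (a R)) := fun R => by
    have e : Function.uncurry (a R) = ((fun p : E × E => mul p.1 p.2) ⁻¹' Fe).indicator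
        fun p => ENNReal.ofReal ((F R (mul p.1 p.2) - F R p.1) ^ 2) := by
      rw [ha]; rfl
    rw [e]
    exact ((((hF R).comp hmul).sub ((hF R).comp measurable_fst)).pow_const 2).ennreal_ofReal.indicator
      (hmul measurableSet_Fe)
  have hbm : Measurable (Function.uncurry b) := by
    rw [hb]
    exact (measurable_const.indicator measurableSet_Fe).comp hmul
  have key : Tendsto (fun R => ∫⁻ P, ∫⁻ M in Fe, a R M P ∂nu) atTop (𝓝 (∫⁻ _ : E, 0)) := by
    refine tendsto_lintegral_of_dominated_convergence (fun P => ∫⁻ M in Fe, b M P ∂nu)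
      (fun R => (ham R).lintegral_prod_left') (fun R => ae_of_all _ fun P => ?_) ?_ ?_
    · refine lintegral_mono_ae (erg_ae.mono fun M hM => ?_)
      rw [ha, hb]
      refine indicator_le_indicator' fun hN => ENNReal.ofReal_le_ofReal ?_
      exact hsq R M (Sh_subset hM) _ (Sh_subset hN.1)
    · rw [← lintegral_lintegral_swap hbm.aemeasurable]
      refine ne_top_of_le_ne_top ?_ (lintegral_mono_ae
        (g := fun _ => ENNReal.ofReal ((2 * B) ^ 2) * volume Fe) (erg_ae.mono fun M hM => ?_))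
      · rw [lintegral_const]
        refine ENNReal.mul_ne_top (ENNReal.mul_ne_top ENNReal.ofReal_ne_top ?_) (measure_ne_top _ _)
        rw [← Measure.restrict_apply_univ, ← erg_restr]
        exact measure_ne_top _ _
      · rw [hb, ← lintegral_indicator_const measurableSet_Fe]
        exact (erg_cov hM (measurable_const.indicator measurableSet_Fe)).1
    · filter_upwards [erg_null] with P hP
      by_cases hG : P ∈ Gp
      · have h1 := ENNReal.tendsto_ofReal (h P hG hP)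
        rw [ENNReal.ofReal_zero] at h1
        refine tendsto_of_tendsto_of_tendsto_of_le_of_le tendsto_const_nhds h1
          (fun _ => zero_le) fun R => ?_
        have hm : Measurable fun M => (F R (mul M P) - F R M) ^ 2 :=
          (((hF R).comp (hmul.comp measurable_prodMk_right)).sub (hF R)).pow_const 2
        beta_reduce
        rw [ofReal_integral_eq_lintegral_ofReal _ (ae_of_all _ fun _ => sq_nonneg _)]
        · refine lintegral_mono fun M => ?_
          rw [ha]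
          exact indicator_le_self' (fun _ _ => zero_le) _
        · refine Integrable.of_bound hm.aestronglyMeasurable ((2 * B) ^ 2)
            (erg_ae.mono fun M hM => ?_)
          rw [Real.norm_of_nonneg (sq_nonneg _)]
          exact hsq R M (Sh_subset hM) _ (hmem M (Sh_subset hM) P hG)
      · refine tendsto_const_nhds.congr fun R => ?_
        rw [← lintegral_zero (μ := nu.restrict Fe)]
        refine lintegral_congr_ae (erg_ae.mono fun M hM => ?_)
        rw [ha]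
        refine (indicator_of_notMem (fun hN => hG ?_) _).symm
        have h1 : 0 < dt (mul M P) := Sh_subset hN.1
        rw [dt_mul] at h1
        exact (mul_pos_iff_of_pos_left (Sh_subset hM)).1 h1
  have key2 := ENNReal.Tendsto.const_mul (a := 16) key (Or.inr (by norm_num))
  rw [lintegral_zero, mul_zero] at key2
  refine tendsto_of_tendsto_of_tendsto_of_le_of_le tendsto_const_nhds key2
    (fun _ => zero_le) fun R => ?_
  beta_reduce
  rw [← lintegral_lintegral_swap (ham R).aemeasurable, ← lintegral_const_mul' _ _ (by norm_num)]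
  refine lintegral_mono_ae (erg_ae.mono fun M hM => ?_)
  rw [erg_restr, ← lintegral_indicator measurableSet_Fe, ha]
  exact (erg_cov hM ((((hF R).sub measurable_const).pow_const 2).ennreal_ofReal.indicator
    measurableSet_Fe)).2

theorem erg_var {X : Type} [MeasurableSpace X] {μ : Measure X} [IsFiniteMeasure μ] {F : X → ℝ}
    (hF : MemLp F 2 μ) {c : ℝ} (hc : ∫ y, F y ∂μ = μ.real univ * c) :
    ENNReal.ofReal (μ.real univ * ∫ y, (F y - c) ^ 2 ∂μ) ≤
      ∫⁻ x, ∫⁻ y, ENNReal.ofReal ((F y - F x) ^ 2) ∂μ ∂μ := by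
  have h2 : ∀ t : ℝ, Integrable (fun y => (F y - t) ^ 2) μ := fun t =>
    (hF.sub (memLp_const t)).integrable_sq
  have h1 : Integrable F μ := hF.integrable (by norm_num)
  rw [← integral_const_mul, ofReal_integral_eq_lintegral_ofReal ((h2 c).const_mul _)
    (ae_of_all _ fun _ => by positivity)]
  refine lintegral_mono fun x => ?_
  beta_reduce
  rw [← ofReal_integral_eq_lintegral_ofReal (h2 _) (ae_of_all _ fun _ => sq_nonneg _)]
  refine ENNReal.ofReal_le_ofReal ?_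
  have h3 : Integrable (fun y => 2 * (c - F x) * F y + (F x ^ 2 - 2 * c ^ 2 + c ^ 2)) μ :=
    (h1.const_mul _).add (integrable_const _)
  have h4 := integral_mono h3 (h2 (F x)) fun y => by
    beta_reduce
    nlinarith [sq_nonneg (F y - c)]
  rw [integral_add (h1.const_mul _) (integrable_const _), integral_const_mul, hc, integral_const,
    smul_eq_mul] at h4
  refine le_trans (le_of_eq ?_) h4
  ring

theorem erg {Φ : ℂ → ℝ} (hm : Measurable Φ) (hc : ContinuousOn Φ Up) (hi : Inv Φ) {B : ℝ}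
    (hB : ∀ z ∈ Up, |Φ z| ≤ B) :
    Tendsto (fun R : ℕ => ∫ M in Fe,
      (Av Φ R M - 3 / Real.pi * ∫ z in Fd, Φ z ∂muH) ^ 2 ∂nu) atTop (𝓝 0) := by
  have := erg_fin
  have hk : ∀ k : ℕ, Measurable fun M => Φ (pr (fl k M)) := fun k =>
    hm.comp (measurable_pr.comp (me_fl k).measurable)
  have hkB : ∀ k : ℕ, ∀ M ∈ Gp, |Φ (pr (fl k M))| ≤ B := fun k M hM =>
    hB _ (pr_mem (show 0 < dt _ by rw [dt_fl]; exact hM))
  have hA : ∀ R, Measurable (Av Φ R) := fun R =>
    (Finset.measurable_sum _ fun k _ => hk k).div_const _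
  have hAB : ∀ R, ∀ M ∈ Gp, |Av Φ R M| ≤ B := fun R M hM => by
    have h0 : 0 ≤ B := (abs_nonneg _).trans (hkB 0 M hM)
    rw [Av, abs_div, Nat.abs_cast]
    refine div_le_of_le_mul₀ (Nat.cast_nonneg _) h0 ((Finset.abs_sum_le_sum_abs _ _).trans ?_)
    simpa [mul_comm] using Finset.sum_le_card_nsmul (Finset.range R) _ B fun k _ => hkB k M hM
  have hV : (nu.restrict Fe).real univ = 5 * Real.pi ^ 2 / 2 := by
    rw [measureReal_def, Measure.restrict_apply_univ, nu_Fe, ENNReal.toReal_ofReal (by positivity)]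
  have hmean : ∀ R : ℕ, 1 ≤ R → ∫ M in Fe, Av Φ R M ∂nu
      = (nu.restrict Fe).real univ * (3 / Real.pi * ∫ z in Fd, Φ z ∂muH) := by
    intro R hR
    have e : ∀ k : ℕ, ∫ M in Fe, Φ (pr (fl k M)) ∂nu
        = 15 * Real.pi / 2 * ∫ z in Fd, Φ z ∂muH := fun k => by
      have h1 := rinv_real (F := fun M => Φ (pr M)) (hm.comp measurable_pr)
        (fun M hM => hB _ (pr_mem hM))
        (fun γ M hM => by rw [pr_act_mb γ hM, hi.mb γ (pr_mem hM)]) (P := fl k one)
        (by rw [dt_fl, dt_one])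
      simp only [mul_fl, mul_one'] at h1
      rw [h1]
      exact setInt_pr hm.aestronglyMeasurable measurableSet_Fd
    simp only [Av]
    rw [integral_div, integral_finsetSum _ fun k _ => Integrable.of_bound
      (hk k).aestronglyMeasurable B (erg_ae.mono fun M hM => hkB k M (Sh_subset hM)), hV]
    simp only [e, Finset.sum_const, Finset.card_range, nsmul_eq_mul]
    have : (R : ℝ) ≠ 0 := by positivity
    have := Real.pi_pos
    field_simp
    ring
  have h1 := erg_double hA hAB fun P hP h0 => erg_shift hm hc hi hB hP h0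
  have h2 : Tendsto (fun R : ℕ => ENNReal.ofReal ((nu.restrict Fe).real univ * ∫ M in Fe,
      (Av Φ R M - 3 / Real.pi * ∫ z in Fd, Φ z ∂muH) ^ 2 ∂nu)) atTop (𝓝 0) := by
    refine tendsto_of_tendsto_of_tendsto_of_le_of_le' tendsto_const_nhds h1
      (Eventually.of_forall fun _ => zero_le) ?_
    filter_upwards [eventually_ge_atTop 1] with R hR
    exact erg_var (MemLp.of_bound (hA R).aestronglyMeasurable B
      (erg_ae.mono fun M hM => hAB R M (Sh_subset hM))) (hmean R hR)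
  have h3 := ((ENNReal.tendsto_toReal ENNReal.zero_ne_top).comp h2).const_mul
    ((nu.restrict Fe).real univ)⁻¹
  rw [ENNReal.toReal_zero, mul_zero] at h3
  refine h3.congr fun R => ?_
  have hp : 0 < (nu.restrict Fe).real univ := by rw [hV]; positivity
  rw [Function.comp_apply, ENNReal.toReal_ofReal
    (mul_nonneg hp.le (integral_nonneg fun _ => sq_nonneg _)), inv_mul_cancel_left₀ hp.ne']

/-! Periodisation, folding, and the mass transport identity.
Local finiteness comes from `finite_act` (apply it to `(z, 1)`, see `unfold_loc`). -/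

theorem per_norm {K : Set ℂ} (hK : IsCompact K) (hU : K ⊆ Up) (D : ℝ) :
    ∃ R : ℝ, ∀ M ∈ Gp, dt M ≤ D → pr M ∈ K → ‖M‖ ≤ R := by
  obtain ⟨C, hC⟩ := hK.exists_bound_of_continuousOn (f := fun z : ℂ => z) continuousOn_id
  obtain ⟨C', hC'⟩ := hK.exists_bound_of_continuousOn (f := fun z : ℂ => (z.im)⁻¹)
    (continuous_im.continuousOn.inv₀ fun z hz => ne_of_gt (hU hz))
  refine ⟨(|C| + 1) * (|D| * |C'| + 1), fun M hM hD hK' => ?_⟩
  have h1 : 0 < (pr M).im := hU hK'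
  have h2 : ‖M.2‖ ^ 2 = dt M * ((pr M).im)⁻¹ := by
    have h5 := im_pr M
    rw [eq_div_iff (normSq_pos.2 (snd_ne_zero hM)).ne', normSq_eq_norm_sq] at h5
    rw [← h5]
    field_simp
  have h3 : ((pr M).im)⁻¹ ≤ |C'| :=
    (le_abs_self _).trans ((hC' _ hK').trans (le_abs_self _))
  have h4 : ‖M.2‖ ^ 2 ≤ |D| * |C'| := by
    rw [h2]
    exact mul_le_mul (hD.trans (le_abs_self _)) h3 (inv_pos.2 h1).le (abs_nonneg _)
  have h6 : ‖M.2‖ ≤ |D| * |C'| + 1 := by nlinarith [norm_nonneg M.2, sq_nonneg (‖M.2‖ - 1)]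
  have h7 : ‖M.1‖ = ‖pr M‖ * ‖M.2‖ := by
    rw [← norm_mul, pr, div_mul_cancel₀ _ (snd_ne_zero hM)]
  have h8 : ‖pr M‖ ≤ |C| := (hC _ hK').trans (le_abs_self _)
  have h9 : 0 ≤ |D| * |C'| := by positivity
  refine max_le ?_ (by nlinarith [abs_nonneg C])
  rw [h7]
  exact mul_le_mul (by linarith) h6 (norm_nonneg _) (by positivity)

theorem per_fin {K K' : Set ℂ} (hK : IsCompact K) (hU : K ⊆ Up) (hK' : IsCompact K')
    (hU' : K' ⊆ Up) : {γ : SL(2, ℤ) | ∃ z ∈ K', mb (act γ one) z ∈ K}.Finite := by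
  rcases K'.eq_empty_or_nonempty with rfl | hne
  · simp
  obtain ⟨z₀, h0, hm⟩ := hK'.exists_isMinOn hne continuous_im.continuousOn
  obtain ⟨C, hC⟩ := hK'.exists_bound_of_continuousOn (f := fun z : ℂ => z) continuousOn_id
  obtain ⟨R, hR⟩ := per_norm hK hU C
  refine (finite_act (max C 1) R z₀.im (hU' h0)).subset ?_
  rintro γ ⟨z, hz, hγ⟩
  have hd : dt ((z, 1) : E) = z.im := by simp [dt]
  refine ⟨(z, 1), ?_, ?_, hR _ (act_mem (aff_mem (hU' hz)) γ) ?_ ?_⟩
  · rw [Prod.norm_def]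
    exact max_le_max (hC z hz) (by simp)
  · rw [hd]; exact hm hz
  · rw [dt_act, hd]
    exact ((le_abs_self _).trans (abs_im_le_norm z)).trans (hC z hz)
  · rwa [pr_act_mb γ (aff_mem (hU' hz)), pr_aff]

theorem per_cont {φ : ℂ → ℝ} (h : Tst φ) : ContinuousOn (per φ) Up := by
  obtain ⟨K, hK, hU, h0⟩ := h.supp
  intro z hz
  obtain ⟨K', hK', hz', hU'⟩ := exists_compact_subset isOpen_Up hz
  have hf := per_fin hK hU hK' hU'
  have hc : ContinuousOn (fun w => ∑ γ ∈ hf.toFinset, φ (mb (act γ one) w)) Up :=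
    continuousOn_finsetSum _ fun γ _ =>
      h.smooth.continuous.comp_continuousOn (continuousOn_mb (act_one_mem γ))
  refine ((hc.continuousAt (isOpen_Up.mem_nhds hz)).congr ?_).continuousWithinAt
  filter_upwards [mem_interior_iff_mem_nhds.1 hz'] with w hw
  exact (tsum_eq_sum fun γ hγ => h0 _ fun hm => hγ (hf.mem_toFinset.2 ⟨w, hw, hm⟩)).symm

theorem per_zero {φ : ℂ → ℝ} (h : Tst φ) {z : ℂ} (hz : z ∉ Up) : per φ z = 0 := by
  obtain ⟨K, hK, hU, h0⟩ := h.supp
  have h1 : ∀ γ : SL(2, ℤ), φ (mb (act γ one) z) = 0 := fun γ => h0 _ fun hm => by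
    have h2 : 0 < (mb (act γ one) z).im := hU hm
    rw [im_mb, dt_act_one, one_mul] at h2
    exact absurd h2 (not_lt.2 (div_nonpos_of_nonpos_of_nonneg (not_lt.1 hz) (normSq_nonneg _)))
  simp only [per, h1, tsum_zero]

theorem measurable_per {φ : ℂ → ℝ} (h : Tst φ) : Measurable (per φ) := by
  classical
  have h1 := (per_cont h).measurable_piecewise (g := fun _ => (0 : ℝ)) continuousOn_const
    isOpen_Up.measurableSet
  convert h1 using 1
  funext z
  by_cases hz : z ∈ Up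
  · rw [piecewise_eq_of_mem _ _ _ hz]
  · rw [piecewise_eq_of_notMem _ _ _ hz, per_zero h hz]

theorem continuousOn_per {φ : ℂ → ℝ} (h : Tst φ) : ContinuousOn (per φ) Up := per_cont h

theorem inv_per (φ : ℂ → ℝ) : Inv (per φ) := by
  refine inv_of_mb fun γ w hw => ?_
  simp only [per, ← mb_act_act _ γ hw]
  exact (Equiv.mulRight γ).tsum_eq fun g => φ (mb (act g one) w)

theorem per_bd {φ : ℂ → ℝ} (h : Tst φ) : ∃ B Y : ℝ, 0 ≤ B ∧ 1 ≤ Y ∧
    ∀ z ∈ Up, |per φ z| ≤ B ∧ (Y ≤ z.im → per φ z = 0) := by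
  obtain ⟨K, hK, hU, h0⟩ := h.supp
  obtain ⟨H, hH, hb⟩ := ht_bound hK hU
  have h1 : ∀ z ∈ Up, H + 1 ≤ z.im → per φ z = 0 := fun z hz hY => by
    have h2 : ∀ γ : SL(2, ℤ), φ (mb (act γ one) z) = 0 := fun γ => h0 _ fun hm => by
      have h3 := hb _ hm γ⁻¹
      rw [← mb_act_act _ _ hz, inv_mul_cancel, act_one, mb_one] at h3
      linarith
    simp only [per, h2, tsum_zero]
  obtain ⟨B, hB⟩ := (isCompact_Fd_le (H + 1)).exists_bound_of_continuousOn
    ((per_cont h).mono fun z hz => Fd_sub hz.1)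
  refine ⟨|B|, H + 1, abs_nonneg _, by linarith, fun z hz => ⟨?_, h1 z hz⟩⟩
  obtain ⟨γ, hγ⟩ := exists_fd' hz
  rw [← (inv_per φ).mb γ hz]
  rcases le_total (mb (act γ one) z).im (H + 1) with h3 | h3
  · exact (hB _ ⟨hγ, h3⟩).trans (le_abs_self _)
  · rw [h1 _ (Fd_sub hγ) h3, abs_zero]
    exact abs_nonneg _

theorem per_fl_mem (s : ℝ) {M : E} (hM : M ∈ Gp) : fl s M ∈ Gp := by
  show 0 < dt _
  rw [dt_fl]
  exact hM

theorem per_cont_fl (s : ℝ) : ContinuousOn (fun M => pr (fl s M)) Gp :=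
  (contDiffOn_pr (n := 0)).continuousOn.comp (contDiff_fl s (n := 0)).continuous.continuousOn
    fun _ hM => per_fl_mem s hM

theorem per_van {φ : ℂ → ℝ} (h : Tst φ) (s : ℝ) :
    ∃ R : ℝ, ∀ M ∈ Sh, R < ‖M‖ → φ (pr (fl s M)) = 0 := by
  obtain ⟨K, hK, hU, h0⟩ := h.supp
  obtain ⟨R, hR⟩ := per_norm hK hU 4
  refine ⟨Real.exp |-s| * R, fun M hM hn => h0 _ fun hm => ?_⟩
  have h1 := hR _ (per_fl_mem s (Sh_subset hM)) (by rw [dt_fl]; exact hM.2) hm
  have h2 := norm_fl_le (-s) (fl s M)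
  rw [fl_fl, neg_add_cancel, fl_zero] at h2
  have h3 := mul_le_mul_of_nonneg_left h1 (Real.exp_pos |-s|).le
  linarith

theorem per_fold {φ : ℂ → ℝ} (h : Tst φ) (s : ℝ) {V : E → ℝ} (hV : ContinuousOn V Gp)
    (hi : ∀ (γ : SL(2, ℤ)), ∀ M ∈ Gp, V (act γ M) = V M) :
    2 * ∫ M, φ (pr (fl s M)) * V M ∂nu = ∫ M in Fe, per φ (pr (fl s M)) * V M ∂nu := by
  obtain ⟨R, hR⟩ := per_van h s
  have h1 : ∀ M ∈ Sh, R < ‖M‖ → φ (pr (fl s M)) * V M = 0 := fun M hM hn => by
    rw [hR M hM hn, zero_mul]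
  have hc : ContinuousOn (fun M => φ (pr (fl s M)) * V M) Gp :=
    (h.smooth.continuous.comp_continuousOn (per_cont_fl s)).mul hV
  rw [unfold_sum (integrable_of_cont hc h1) h1]
  refine setIntegral_congr_fun measurableSet_Fe fun M hM => ?_
  have hG := Sh_subset hM.1
  simp only [hi _ M hG, tsum_mul_right, ← act_fl, pr_act_mb _ (per_fl_mem s hG), per]

theorem int_per {φ : ℂ → ℝ} (h : Tst φ) : ∫ z in Fd, per φ z ∂muH = 2 * ∫ z, φ z ∂muH := by
  have h1 := per_fold h 0 (V := fun _ => 1) continuousOn_const fun _ _ _ => rfl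
  simp only [fl_zero, mul_one] at h1
  rw [int_pr (aesm_muH h.smooth.continuous.continuousOn), Fe,
    setInt_pr (aesm_muH (per_cont h)) measurableSet_Fd, smul_eq_mul, smul_eq_mul] at h1
  have hπ : (15 * Real.pi / 2 : ℝ) ≠ 0 := by positivity
  refine mul_left_cancel₀ hπ ?_
  rw [← h1]
  ring

/-- the height changes by a bounded factor along the flow -/
theorem im_fl (s : ℝ) {M : E} (hM : M ∈ Gp) :
    Real.exp (-(2 * |s|)) * (pr M).im ≤ (pr (fl s M)).im := by
  have h0 : 0 < dt M := hM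
  have h1 : 0 < normSq M.2 := normSq_pos.2 (snd_ne_zero hM)
  have h2 : 0 < normSq (fl s M).2 := normSq_pos.2 (snd_ne_zero (per_fl_mem s hM))
  have h3 : normSq (fl s M).2 ≤ Real.exp (2 * |s|) * normSq M.2 := by
    obtain ⟨-, -, a3, a4⟩ := fl_apply s M
    have e1 : Real.exp s * Real.exp s ≤ Real.exp (2 * |s|) := by
      rw [← Real.exp_add]
      exact Real.exp_le_exp.2 (by linarith [le_abs_self s])
    have e2 : Real.exp (-s) * Real.exp (-s) ≤ Real.exp (2 * |s|) := by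
      rw [← Real.exp_add]
      exact Real.exp_le_exp.2 (by linarith [neg_le_abs s])
    rw [normSq_apply, normSq_apply, a3, a4]
    nlinarith [mul_self_nonneg M.2.re, mul_self_nonneg M.2.im]
  rw [im_pr, im_pr, dt_fl, Real.exp_neg, inv_mul_eq_div, div_div, mul_comm]
  exact div_le_div_of_nonneg_left h0.le h2 h3

theorem per_int {φ : ℂ → ℝ} (h : Tst φ) (s : ℝ) {V : E → ℂ} (hV : ContinuousOn V Gp) :
    IntegrableOn (fun M => (per φ (pr (fl s M)) : ℂ) * V M) Fe nu := by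
  obtain ⟨B, Y, -, hY, hb⟩ := per_bd h
  obtain ⟨ρ, hρ⟩ := unfold_bound (Real.exp (2 * |s|) * Y)
  have hc : ContinuousOn (fun M => (per φ (pr (fl s M)) : ℂ) * V M) Gp :=
    (continuous_ofReal.comp_continuousOn ((per_cont h).comp (per_cont_fl s)
      fun _ hM => pr_mem (per_fl_mem s hM))).mul hV
  refine (integrableOn_of_cont hc (isCompact_Bl ρ) inter_subset_left).of_forall_sdiff_eq_zero
    measurableSet_Fe fun M hM => ?_
  have hG := Sh_subset hM.1.1
  have h1 : Real.exp (2 * |s|) * Y ≤ (pr M).im := not_lt.1 fun hl =>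
    hM.2 ⟨hM.1.1, mem_closedBall_zero_iff.2 (hρ M hM.1 hl)⟩
  have h2 := im_fl s hG
  have h3 : Y ≤ Real.exp (-(2 * |s|)) * (pr M).im := by
    rw [Real.exp_neg, inv_mul_eq_div, le_div_iff₀' (Real.exp_pos _)]
    exact h1
  rw [(hb _ (pr_mem (per_fl_mem s hG))).2 (h3.trans h2), ofReal_zero, zero_mul]

/-- folding: `unfold_sum` for real and imaginary parts, `act_fl`, `pr_act_mb` -/
theorem fold {φ : ℂ → ℝ} (h : Tst φ) (s : ℝ) {V : E → ℂ} (hV : ContinuousOn V Gp)
    (hi : ∀ (γ : SL(2, ℤ)), ∀ M ∈ Gp, V (act γ M) = V M) :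
    2 * ∫ M, (φ (pr (fl s M)) : ℂ) * V M ∂nu =
      ∫ M in Fe, (per φ (pr (fl s M)) : ℂ) * V M ∂nu := by
  obtain ⟨R, hR⟩ := per_van h s
  have hc : ContinuousOn (fun M => (φ (pr (fl s M)) : ℂ) * V M) Gp :=
    (continuous_ofReal.comp_continuousOn
      (h.smooth.continuous.comp_continuousOn (per_cont_fl s))).mul hV
  have h1 : Integrable (fun M => (φ (pr (fl s M)) : ℂ) * V M) nu :=
    integrable_of_cont hc (ρ := R) fun M hM hn => by rw [hR M hM hn, ofReal_zero, zero_mul]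
  have h2 := per_int h s hV
  have r1 := per_fold h s (V := fun M => (V M).re) (continuous_re.comp_continuousOn hV)
    fun γ M hM => by rw [hi γ M hM]
  have r2 := per_fold h s (V := fun M => (V M).im) (continuous_im.comp_continuousOn hV)
    fun γ M hM => by rw [hi γ M hM]
  have a1 := reCLM.integral_comp_comm h1
  have a2 := imCLM.integral_comp_comm h1
  have a3 := reCLM.integral_comp_comm h2
  have a4 := imCLM.integral_comp_comm h2
  simp only [reCLM_apply, imCLM_apply, re_ofReal_mul, im_ofReal_mul] at a1 a2 a3 a4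
  refine Complex.ext ?_ ?_
  · rw [← a3, ← r1, a1]; simp
  · rw [← a4, ← r2, a2]; simp

theorem mt_I : I ∈ Up := by simp [Up]

theorem mt_be_zero {z w : ℂ} (hz : z ∉ Up) : be z w = 0 := by
  by_contra h
  exact hz (be_supp h).1

theorem mt_patch (H : ℂ → ℝ) {z₀ : ℂ} (hz : z₀ ∈ Up) :
    ∫ z, be z z₀ * H z ∂muH = ∫ z, be z I * H (mb (z₀, 1) z) / z.im ^ 2 := by
  have hA := aff_mem hz
  rw [← int_mb hA (fun z => be z z₀ * H z), int_muH,
    ← setIntegral_eq_integral_of_forall_compl_eq_zero (s := Up)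
      (f := fun z => be z I * H (mb (z₀, 1) z) / z.im ^ 2)
      (fun z h => by rw [mt_be_zero h, zero_mul, zero_div])]
  refine setIntegral_congr_fun isOpen_Up.measurableSet fun w hw => ?_
  have h1 : be (mb (z₀, 1) w) z₀ = be w I := by
    have := be_mb hA hw mt_I
    rwa [mb_I, pr_aff] at this
  simp only [h1, smul_eq_mul]
  ring

theorem mt_ball : Metric.closedBall I (1 / 200) ⊆ Up := fun z hz =>
  ball_sub ((mem_closedBall_iff_norm.1 hz).trans (by norm_num))

theorem mt_cont {H : ℂ → ℝ} (hc : ContinuousOn H Up) :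
    ContinuousOn (fun z₀ => ∫ z, be z z₀ * H z ∂muH) Up := by
  refine ContinuousOn.congr
    (f := fun z₀ => ∫ z, be z I * H (mb (z₀, 1) z) / z.im ^ 2) ?_ fun z₀ hz => mt_patch H hz
  have h0 : ∀ p : ℂ, ∀ z, z ∉ Metric.closedBall I (1 / 200) →
      be z I * H (mb (p, 1) z) / z.im ^ 2 = 0 := by
    intro p z hz
    have : be z I = 0 := by
      by_contra h
      have h3 := (be_supp h).2.2
      rw [I_im] at h3
      exact hz (mem_closedBall_iff_norm.2 h3)
    rw [this, zero_mul, zero_div]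
  have h1 : ContinuousOn (fun p : ℂ × ℂ => be p.2 I * H (mb (p.1, 1) p.2) / p.2.im ^ 2)
      (Up ×ˢ Up) := by
    refine ContinuousOn.div (ContinuousOn.mul ?_ ?_) (by fun_prop) fun p hp =>
      pow_ne_zero 2 (ne_of_gt hp.2)
    · exact (contDiffOn_be (n := 0)).continuousOn.comp
        (f := fun p : ℂ × ℂ => (p.2, I)) (by fun_prop) fun p _ => ⟨mem_univ _, mt_I⟩
    · refine hc.comp (f := fun p : ℂ × ℂ => mb (p.1, 1) p.2) ?_ fun p hp =>
        mb_mem (aff_mem hp.1) hp.2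
      exact (contDiffOn_mb (n := 0)).continuousOn.comp
        (f := fun p : ℂ × ℂ => (((p.1, 1) : E), p.2)) (by fun_prop)
        fun p hp => ⟨aff_mem hp.1, hp.2⟩
  have h2 := contDiffOn_extend (n := 0) isOpen_Up (contDiffOn_zero.2 h1)
    (isCompact_closedBall I (1 / 200)) mt_ball (fun p _ z hz => h0 p z hz)
  exact continuousOn_integral_of_compact_support (isCompact_closedBall I (1 / 200))
    (f := fun p z : ℂ => be z I * H (mb (p, 1) z) / z.im ^ 2) (contDiffOn_zero.1 h2)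
    fun p z _ hz => h0 p z hz

theorem mt_meas_act (γ : SL(2, ℤ)) : Measurable (mb (act γ one)) :=
  measurable_mb.comp (f := fun w : ℂ => (act γ one, w)) (by fun_prop)

theorem mt_be_act (γ : SL(2, ℤ)) {z w : ℂ} (hz : z ∈ Up) (hw : w ∈ Up) :
    be (mb (act γ one) w) z = be w (mb (act γ⁻¹ one) z) := by
  have h := be_mb (act_one_mem γ) hw (mb_mem (act_one_mem γ⁻¹) hz)
  rwa [← mb_act_act γ γ⁻¹ hz, mul_inv_cancel, act_one, mb_one] at h

theorem mt_lbe {w : ℂ} (hw : w ∈ Up) :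
    ∫⁻ u, ENNReal.ofReal (be w u) ∂muH = ENNReal.ofReal (∫ u, be I u ∂muH) := by
  rw [← int_be hw, ofReal_integral_eq_lintegral_ofReal (integrable_be w)
    (Eventually.of_forall fun u => be_nonneg w u)]

theorem mt_lint {G : ℂ → ℝ≥0∞} (hG : Measurable G)
    (hi : ∀ γ : SL(2, ℤ), ∀ w ∈ Up, G (mb (act γ one) w) = G w) :
    ∫⁻ z₀ in Fd, ∫⁻ z, ENNReal.ofReal (be z z₀) * G z ∂muH ∂muH =
      ENNReal.ofReal (∫ u, be I u ∂muH) * ∫⁻ z in Fd, G z ∂muH := by
  have : Countable SL(2, ℤ) :=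
    inferInstanceAs (Countable {A : Fin 2 → Fin 2 → ℤ // Matrix.det (Matrix.of A) = 1})
  have hb : Measurable fun p : ℂ × ℂ => ENNReal.ofReal (be p.1 p.2) :=
    measurable_be.ennreal_ofReal
  have hm : ∀ γ : SL(2, ℤ), Measurable fun p : ℂ × ℂ =>
      ENNReal.ofReal (be p.2 (mb (act γ one) p.1)) := fun γ =>
    hb.comp (f := fun p : ℂ × ℂ => (p.2, mb (act γ one) p.1))
      (measurable_snd.prodMk ((mt_meas_act γ).comp measurable_fst))
  refine (ENNReal.mul_right_inj two_ne_zero ENNReal.ofNat_ne_top).1 ?_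
  have h1 : ∀ z₀ ∈ Fd, 2 * ∫⁻ z, ENNReal.ofReal (be z z₀) * G z ∂muH =
      ∑' γ : SL(2, ℤ), ∫⁻ w in Fd, ENNReal.ofReal (be w (mb (act γ one) z₀)) * G w ∂muH := by
    intro z₀ hz
    rw [lint_unfold (F := fun z => ENNReal.ofReal (be z z₀) * G z)
      ((hb.comp (f := fun z : ℂ => (z, z₀)) (by fun_prop)).mul hG),
      ← (Equiv.inv SL(2, ℤ)).tsum_eq]
    refine tsum_congr fun γ => setLIntegral_congr_fun measurableSet_Fd fun w hw => ?_
    simp only [Equiv.inv_apply]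
    rw [mt_be_act γ⁻¹ (Fd_sub hz) (Fd_sub hw), inv_inv, hi _ _ (Fd_sub hw)]
  have h2 : ∀ w ∈ Fd, ∑' γ : SL(2, ℤ),
      ∫⁻ z₀ in Fd, ENNReal.ofReal (be w (mb (act γ one) z₀)) * G w ∂muH =
      2 * ENNReal.ofReal (∫ u, be I u ∂muH) * G w := by
    intro w hw
    rw [← mt_lbe (Fd_sub hw), lint_unfold (F := fun u => ENNReal.ofReal (be w u))
      (hb.comp (f := fun z : ℂ => (w, z)) (by fun_prop)), ← ENNReal.tsum_mul_right]
    refine tsum_congr fun γ => ?_
    exact lintegral_mul_const _ ((hm γ).comp (f := fun z : ℂ => (z, w)) (by fun_prop))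
  have hm2 : ∀ γ : SL(2, ℤ), Measurable fun p : ℂ × ℂ =>
      ENNReal.ofReal (be p.2 (mb (act γ one) p.1)) * G p.2 := fun γ =>
    (hm γ).mul (hG.comp measurable_snd)
  rw [← lintegral_const_mul' _ _ ENNReal.ofNat_ne_top,
    setLIntegral_congr_fun measurableSet_Fd h1,
    lintegral_tsum fun γ => ((hm2 γ).lintegral_prod_right').aemeasurable, ← mul_assoc,
    ← lintegral_const_mul _ hG, ← setLIntegral_congr_fun measurableSet_Fd h2,
    lintegral_tsum fun γ => ((hm2 γ).lintegral_prod_left').aemeasurable]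
  exact tsum_congr fun γ => lintegral_lintegral_swap (hm2 γ).aemeasurable

theorem mt_intOn {H : ℂ → ℝ} (hc : ContinuousOn H Up) (Y : ℝ) :
    IntegrableOn H {z | z ∈ Fd ∧ z.im ≤ Y} muH := by
  have hK := isCompact_Fd_le Y
  have hU : {z | z ∈ Fd ∧ z.im ≤ Y} ⊆ Up := fun z hz => Fd_sub hz.1
  obtain ⟨C, hC⟩ := hK.exists_bound_of_continuousOn (hc.mono hU)
  exact Measure.integrableOn_of_bounded (muH_compact hK hU).ne (aesm_muH hc)
    ((ae_restrict_mem hK.measurableSet).mono hC)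

theorem mt_int_be {H : ℂ → ℝ} (hc : ContinuousOn H Up) {z₀ : ℂ} (hz : z₀ ∈ Up) :
    Integrable (fun z => be z z₀ * H z) muH := by
  have h0 : 0 < z₀.im := hz
  refine integrable_muH (ContinuousOn.mul ?_ hc) (isCompact_closedBall z₀ (z₀.im / 200))
    (fun w hw => ?_) fun w _ hw => ?_
  · exact (contDiffOn_be (n := 0)).continuousOn.comp
      (f := fun p : ℂ => (p, z₀)) (by fun_prop) fun p _ => ⟨mem_univ _, hz⟩
  · have h1 := (abs_im_le_norm (w - z₀)).trans (mem_closedBall_iff_norm.1 hw)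
    rw [sub_im, abs_le] at h1
    show 0 < w.im
    linarith [h1.1]
  · have : be w z₀ = 0 := by
      by_contra h
      exact hw (mem_closedBall_iff_norm.2 (be_supp h).2.2)
    rw [this, zero_mul]

theorem mt_pos {H : ℂ → ℝ} (hc : ContinuousOn H Up) (hi : Inv H) {Y : ℝ}
    (hY : ∀ z ∈ Up, Y ≤ z.im → H z = 0) (h0 : ∀ z, 0 ≤ H z) :
    (∫ u, be I u ∂muH) * ∫ z in Fd, H z ∂muH =
      ∫ z₀ in {z | z ∈ Fd ∧ z.im ≤ 2 * Y}, (∫ z, be z z₀ * H z ∂muH) ∂muH := by
  classical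
  have hG : Measurable fun z => ENNReal.ofReal (Up.piecewise H 0 z) :=
    (hc.measurable_piecewise continuousOn_const isOpen_Up.measurableSet).ennreal_ofReal
  have hl := mt_lint hG fun γ w hw => by
    rw [piecewise_eq_of_mem _ _ _ hw, piecewise_eq_of_mem _ _ _ (mb_mem (act_one_mem γ) hw),
      hi.mb γ hw]
  have hz : ∀ z₀ ∈ Fd \ {z | z ∈ Fd ∧ z.im ≤ 2 * Y}, ∫ z, be z z₀ * H z ∂muH = 0 := by
    intro z₀ hz
    have h1 : 2 * Y < z₀.im := lt_of_not_ge fun h => hz.2 ⟨hz.1, h⟩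
    have h2 : 0 < z₀.im := Fd_sub hz.1
    refine integral_eq_zero_of_ae (Eventually.of_forall fun w => ?_)
    by_cases h : be w z₀ = 0
    · simp [h]
    · obtain ⟨h3, -, h4⟩ := be_supp h
      have h5 := (abs_im_le_norm (w - z₀)).trans h4
      rw [sub_im, abs_le] at h5
      simp [hY w h3 (by linarith [h5.1])]
  rw [← setIntegral_eq_of_subset_of_forall_sdiff_eq_zero measurableSet_Fd (fun z hz => hz.1) hz,
    integral_eq_lintegral_of_nonneg_ae (μ := muH.restrict Fd) (f := H)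
      (Eventually.of_forall h0) (aesm_muH hc).restrict,
    integral_eq_lintegral_of_nonneg_ae (μ := muH.restrict Fd)
      (f := fun z₀ => ∫ z, be z z₀ * H z ∂muH)
      (Eventually.of_forall fun z₀ => integral_nonneg fun z => mul_nonneg (be_nonneg _ _) (h0 z))
      (aesm_muH (mt_cont hc)).restrict]
  have e1 : ∫⁻ z in Fd, ENNReal.ofReal (H z) ∂muH =
      ∫⁻ z in Fd, ENNReal.ofReal (Up.piecewise H 0 z) ∂muH :=
    setLIntegral_congr_fun measurableSet_Fd fun w hw => by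
      simp only [piecewise_eq_of_mem _ _ _ (Fd_sub hw)]
  have e2 : ∫⁻ z₀ in Fd, ENNReal.ofReal (∫ z, be z z₀ * H z ∂muH) ∂muH =
      ∫⁻ z₀ in Fd, ∫⁻ z, ENNReal.ofReal (be z z₀) * ENNReal.ofReal (Up.piecewise H 0 z) ∂muH
        ∂muH :=
    setLIntegral_congr_fun measurableSet_Fd fun z₀ hz₀ => by
      rw [ofReal_integral_eq_lintegral_ofReal (mt_int_be hc (Fd_sub hz₀))
        (Eventually.of_forall fun z => mul_nonneg (be_nonneg _ _) (h0 z))]
      refine lintegral_congr_ae (ae_Up.mono fun w hw => ?_)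
      simp only [piecewise_eq_of_mem _ _ _ hw]
      exact ENNReal.ofReal_mul (be_nonneg _ _)
  rw [e1, e2, hl, ENNReal.toReal_mul, ENNReal.toReal_ofReal be_pos.le]

/-- mass transport: Tonelli and `lint_unfold` for the positive and negative parts,
`be_mb`, `int_be` -/
theorem mt {H : ℂ → ℝ} (hc : ContinuousOn H Up) (hi : Inv H) {Y : ℝ}
    (hY : ∀ z ∈ Up, Y ≤ z.im → H z = 0) :
    (∫ u, be I u ∂muH) * ∫ z in Fd, H z ∂muH =
      ∫ z₀ in {z | z ∈ Fd ∧ z.im ≤ 2 * Y}, (∫ z, be z z₀ * H z ∂muH) ∂muH := by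
  have hp : ContinuousOn (fun z => max (H z) 0) Up :=
    (continuous_id.max continuous_const).comp_continuousOn hc
  have hn : ContinuousOn (fun z => max (-H z) 0) Up :=
    (continuous_neg.max continuous_const).comp_continuousOn hc
  have h1 := mt_pos hp (fun z hz => by simp only [(hi z hz).1, (hi z hz).2, and_self])
    (Y := Y) (fun z hz h => by rw [hY z hz h, max_self]) fun z => le_max_right _ _
  have h2 := mt_pos hn (fun z hz => by simp only [(hi z hz).1, (hi z hz).2, and_self])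
    (Y := Y) (fun z hz h => by rw [hY z hz h, neg_zero, max_self]) fun z => le_max_right _ _
  have hI : ∀ {F : ℂ → ℝ}, ContinuousOn F Up → (∀ z ∈ Up, Y ≤ z.im → F z = 0) →
      IntegrableOn F Fd muH := fun hF h0 =>
    (mt_intOn hF Y).of_forall_sdiff_eq_zero measurableSet_Fd fun z hz =>
      h0 z (Fd_sub hz.1) (le_of_lt (lt_of_not_ge fun h => hz.2 ⟨hz.1, h⟩))
  have e1 : ∫ z in Fd, H z ∂muH =
      ∫ z in Fd, max (H z) 0 ∂muH - ∫ z in Fd, max (-H z) 0 ∂muH := by
    rw [← integral_sub (hI hp fun z hz h => by rw [hY z hz h, max_self])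
      (hI hn fun z hz h => by rw [hY z hz h, neg_zero, max_self])]
    simp only [max_zero_sub_max_neg_zero_eq_self]
  rw [e1, mul_sub, h1, h2, ← integral_sub (mt_intOn (mt_cont hp) _) (mt_intOn (mt_cont hn) _)]
  refine setIntegral_congr_fun (isCompact_Fd_le _).measurableSet fun z₀ hz => ?_
  rw [← integral_sub (mt_int_be hp (Fd_sub hz.1)) (mt_int_be hn (Fd_sub hz.1))]
  simp only [← mul_sub, max_zero_sub_max_neg_zero_eq_self]

/-- the patch at `z₀` in the coordinates centred at `i` -/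
theorem patch (H : ℂ → ℝ) {z₀ : ℂ} (hz : z₀ ∈ Up) :
    ∫ z, be z z₀ * H z ∂muH = ∫ z, be z I * H (mb (z₀, 1) z) / z.im ^ 2 := mt_patch H hz

end Pool.Agent.MP_a28cf0_nt.Dec

end
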