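import Pool.Agent.MP_a28cf0_nt.Cub.Basic

-- part MP_a28cf0_nt.Cub.L2
section

set_option autoImplicit false

namespace Pool.Agent.MP_a28cf0_nt.Cub

open MeasureTheory Complex Filter Topology Set
open scoped ENNReal MatrixGroups

theorem l2_pre {t : ℝ} {Φ : ℤ → E → ℂ} (h : Sys t Φ) (γ : SL(2, ℤ)) :
    ∫⁻ M in act γ ⁻¹' Fe, ‖Φ 0 M‖ₑ ^ 2 ∂nu ≤ 100 := by
  have h1 := (mp_act γ).setLIntegral_comp_preimage_emb (me_act γ) (fun M => ‖Φ 0 M‖ₑ ^ 2) Fe
  simp only [h.inv] at h1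
  rw [h1]
  exact h.mass

theorem l2_cover {t : ℝ} {Φ : ℤ → E → ℂ} (h : Sys t Φ) (S : Finset SL(2, ℤ)) {Q : Set E}
    (hQ : ∀ M ∈ Q, M ∈ Sh → ∃ γ ∈ S, pr (act γ M) ∈ Fd) :
    ∫⁻ M in Q, ‖Φ 0 M‖ₑ ^ 2 ∂nu ≤ S.card * 100 := by
  have h1 : Q ≤ᵐ[nu] (⋃ γ : S, act γ ⁻¹' Fe : Set E) := by
    filter_upwards [ae_mem_Sh] with M hM hMQ
    obtain ⟨γ, hγ, h2⟩ := hQ M hMQ hM
    refine mem_iUnion.2 ⟨⟨γ, hγ⟩, ?_, h2⟩
    simpa only [Sh, mem_ofPred_eq, dt_act] using hM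
  calc ∫⁻ M in Q, ‖Φ 0 M‖ₑ ^ 2 ∂nu ≤ ∫⁻ M in (⋃ γ : S, act γ ⁻¹' Fe : Set E), ‖Φ 0 M‖ₑ ^ 2 ∂nu :=
        lintegral_mono_set' h1
    _ ≤ ∑' γ : S, ∫⁻ M in act γ ⁻¹' Fe, ‖Φ 0 M‖ₑ ^ 2 ∂nu := lintegral_iUnion_le _ _
    _ ≤ ∑' _ : S, (100 : ℝ≥0∞) := ENNReal.tsum_le_tsum fun γ => l2_pre h γ
    _ = S.card * 100 := by simp

theorem l2_cont {t : ℝ} {Φ : ℤ → E → ℂ} (h : Sys t Φ) (m : ℤ) :
    ContinuousOn (fun M => ‖Φ m M‖ ^ 2) Gp := (h.cont m).norm.pow 2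

theorem l2_intOn {t : ℝ} {Φ : ℤ → E → ℂ} (h : Sys t Φ) (m : ℤ) (ρ : ℝ) :
    IntegrableOn (fun M => ‖Φ m M‖ ^ 2) (Bl ρ) nu :=
  integrableOn_of_cont (l2_cont h m) (isCompact_Bl ρ) inter_subset_left

theorem l2_zero (ρ : ℝ) : ∃ C : ℝ, 0 ≤ C ∧ ∀ (t : ℝ) (Φ : ℤ → E → ℂ), Sys t Φ →
    ∫ M in Bl ρ, ‖Φ 0 M‖ ^ 2 ∂nu ≤ C := by
  obtain ⟨ρ', hρ'⟩ := bound_fd ρ
  have hf := finite_act ρ ρ' 1 one_pos
  refine ⟨hf.toFinset.card * 100, by positivity, fun t Φ h => ?_⟩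
  have h1 : ∫⁻ M in Bl ρ, ‖Φ 0 M‖ₑ ^ 2 ∂nu ≤ hf.toFinset.card * 100 := by
    refine l2_cover h _ fun M hM hS => ?_
    obtain ⟨γ, hγ⟩ := exists_fd (Sh_subset hS)
    refine ⟨γ, hf.mem_toFinset.2 ⟨M, ?_, hS.1, hρ' M hM γ hγ⟩, hγ⟩
    simpa using hM.2
  rw [integral_eq_lintegral_of_nonneg_ae (Eventually.of_forall fun M => by positivity)
    (l2_intOn h 0 ρ).1]
  refine ENNReal.toReal_le_of_le_ofReal (by positivity) ?_
  have h2 : ∀ M, ENNReal.ofReal (‖Φ 0 M‖ ^ 2) = ‖Φ 0 M‖ₑ ^ 2 := fun M => by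
    rw [ENNReal.ofReal_pow (norm_nonneg _), ofReal_norm]
  simp only [h2]
  refine h1.trans (le_of_eq ?_)
  rw [ENNReal.ofReal_mul (by positivity)]
  simp

theorem l2_sq (z : ℂ) : z * (starRingEnd ℂ) z = ((‖z‖ ^ 2 : ℝ) : ℂ) := by
  rw [Complex.mul_conj, Complex.normSq_eq_norm_sq]

/-- one step of the recursion -/
theorem l2_step {φ : E → ℂ} (hφ : Test φ) {t : ℝ} {Φ : ℤ → E → ℂ} (h : Sys t Φ) (m : ℤ) :
    lam t m * ‖∫ M, φ M * ((‖Φ (m + 1) M‖ ^ 2 : ℝ) : ℂ) ∂nu -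
      ∫ M, φ M * ((‖Φ m M‖ ^ 2 : ℝ) : ℂ) ∂nu‖ ≤
      ∫ M, ‖Ra φ M‖ * (‖Φ m M‖ * ‖Φ (m + 1) M‖) ∂nu := by
  have hc : ContDiffOn ℝ 1 (fun M => (starRingEnd ℂ) (Φ (m + 1) M)) Gp :=
    Complex.conjCLE.contDiff.comp_contDiffOn (h.smooth (m + 1))
  have hp : ContDiffOn ℝ 1 (fun M => Φ m M * (starRingEnd ℂ) (Φ (m + 1) M)) Gp :=
    (h.smooth m).mul hc
  have hd : ∀ {g : E → ℂ}, ContDiffOn ℝ 1 g Gp → ∀ M ∈ Gp, DifferentiableAt ℝ g M :=
    fun hg M hM => (hg.contDiffAt (isOpen_Gp.mem_nhds hM)).differentiableAt one_ne_zero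
  have h0 := ibp_Ra ((hφ.smooth.of_le (by exact_mod_cast le_top)).mul hp) (hφ.van.mul _)
  have hI : ∀ j : ℤ, Integrable (fun M => φ M * ((‖Φ j M‖ ^ 2 : ℝ) : ℂ)) nu := fun j =>
    (hφ.van.mul _).integrable (hφ.cont.mul (continuous_ofReal.comp_continuousOn (l2_cont h j)))
  have hJ : Integrable (fun M => Ra φ M * (Φ m M * (starRingEnd ℂ) (Φ (m + 1) M))) nu :=
    (hφ.ra.van.mul _).integrable (hφ.ra.cont.mul hp.continuousOn)
  have h1 : ∀ᵐ M ∂nu, Ra (fun M => φ M * (Φ m M * (starRingEnd ℂ) (Φ (m + 1) M))) M =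
      Ra φ M * (Φ m M * (starRingEnd ℂ) (Φ (m + 1) M)) + I * lam t m *
        (φ M * ((‖Φ (m + 1) M‖ ^ 2 : ℝ) : ℂ) - φ M * ((‖Φ m M‖ ^ 2 : ℝ) : ℂ)) := by
    filter_upwards [ae_mem_Sh] with M hS
    have hM := Sh_subset hS
    rw [Ra_mul (hφ.diffAt hM) (hd hp M hM), Ra_mul (h.diffAt m hM) (hd hc M hM), Ra_conj,
      h.ra m M hM, h.lo (m + 1) M hM, add_sub_cancel_right, ← l2_sq, ← l2_sq]
    simp only [map_mul, conj_I, conj_ofReal]
    ring
  have hK : Integrable (fun M => I * lam t m *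
      (φ M * ((‖Φ (m + 1) M‖ ^ 2 : ℝ) : ℂ) - φ M * ((‖Φ m M‖ ^ 2 : ℝ) : ℂ))) nu :=
    ((hI _).sub (hI _)).const_mul _
  rw [integral_congr_ae h1, integral_add hJ hK, integral_const_mul,
    integral_sub (hI _) (hI _)] at h0
  have h2 := congrArg norm (eq_neg_of_add_eq_zero_right h0)
  rw [norm_mul, norm_mul, norm_I, one_mul, norm_real, Real.norm_of_nonneg (lam_pos t m).le,
    norm_neg] at h2
  rw [h2]
  refine (norm_integral_le_integral_norm _).trans (le_of_eq ?_)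
  simp only [norm_mul, RCLike.norm_conj]

theorem l2_test_pow {φ : E → ℂ} (hφ : Test φ) (k : ℕ) : Test fun M => φ M ^ (k + 1) := by
  refine ⟨hφ.smooth.pow _, ?_⟩
  simp only [pow_succ']
  exact hφ.van.mul _

theorem l2_Ra_pow {φ : E → ℂ} {M : E} (hφ : DifferentiableAt ℝ φ M) (k : ℕ) :
    Ra (fun N => φ N ^ (k + 1)) M = (k + 1) * φ M ^ k * Ra φ M := by
  induction k with
  | zero => simp
  | succ k ih =>
    have h1 : (fun N => φ N ^ (k + 1 + 1)) = fun N => φ N ^ (k + 1) * φ N := by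
      funext N
      rw [pow_succ]
    rw [h1, Ra_mul (g := fun N => φ N ^ (k + 1)) (hφ.pow _) hφ, ih]
    push_cast
    ring

theorem l2_nat (ρ : ℝ) : ∃ A C : ℝ, 0 ≤ A ∧ 0 ≤ C ∧ ∀ (t : ℝ) (Φ : ℤ → E → ℂ), 0 < t → Sys t Φ →
    ∀ n : ℕ, ∫ M in Bl ρ, ‖Φ n M‖ ^ 2 ∂nu ≤ Real.exp (A * ((n ^ 2 + 3 * n) / t)) * C := by
  obtain ⟨χ, -, -, h01, h1, -, hχ⟩ := exists_cutoff ρ
  obtain ⟨A, -, hA0, hA, -⟩ := hχ.ra.bound
  obtain ⟨-, ρ₁, -, -, hρ₁⟩ := hχ.bound
  obtain ⟨C, hC0, hC⟩ := l2_zero ρ₁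
  refine ⟨3 * A, C, by positivity, hC0, fun t Φ ht h => ?_⟩
  have hI : ∀ (k : ℕ) (j : ℤ), Integrable (fun M => χ M ^ (k + 1) * ‖Φ j M‖ ^ 2) nu := by
    intro k j
    have h2 := (((l2_test_pow hχ k).van.mul _).integrable ((l2_test_pow hχ k).cont.mul
      (continuous_ofReal.comp_continuousOn (l2_cont h j)))).re
    refine h2.congr (Eventually.of_forall fun M => ?_)
    simp only [Function.comp_apply, ← ofReal_pow, ← ofReal_mul, RCLike.re_to_complex, ofReal_re]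
  have hp : ∀ (k : ℕ) (M : E), 0 ≤ χ M ^ k := fun k M => pow_nonneg (h01 M).1 k
  have key : ∀ n : ℕ, ∫ M, χ M ^ (2 * n + 1 + 1) * ‖Φ n M‖ ^ 2 ∂nu ≤
      Real.exp (3 * A * ((n ^ 2 + 3 * n) / t)) * C := by
    intro n
    induction n with
    | zero =>
      simp only [Nat.cast_zero, ne_eq, OfNat.ofNat_ne_zero, not_false_eq_true, zero_pow, mul_zero,
        add_zero, zero_div, Real.exp_zero, one_mul]
      refine le_trans ?_ (hC t Φ h)
      rw [← integral_indicator (measurableSet_Bl ρ₁)]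
      refine integral_mono_ae (hI _ _)
        ((integrable_indicator_iff (measurableSet_Bl ρ₁)).2 (l2_intOn h 0 ρ₁)) ?_
      filter_upwards [ae_mem_Sh] with M hS
      by_cases hM : M ∈ Bl ρ₁
      · rw [indicator_of_mem hM]
        exact mul_le_of_le_one_left (by positivity) (pow_le_one₀ (h01 M).1 (h01 M).2)
      · have h2 : χ M = 0 := by exact_mod_cast hρ₁ M hS hM
        simp [indicator_of_notMem hM, h2]
    | succ n ih =>
      have h2 := l2_step (l2_test_pow hχ (2 * n + 3)) h n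
      simp only [← ofReal_pow, ← ofReal_mul, integral_complex_ofReal, ← ofReal_sub, norm_real,
        Real.norm_eq_abs] at h2
      set x := ∫ M, χ M ^ (2 * n + 3 + 1) * ‖Φ (n + 1) M‖ ^ 2 ∂nu with hx
      set y := ∫ M, χ M ^ (2 * n + 1 + 1) * ‖Φ n M‖ ^ 2 ∂nu with hy
      have hy0 : 0 ≤ y := integral_nonneg fun M => mul_nonneg (hp _ M) (sq_nonneg _)
      have hy' : ∫ M, χ M ^ (2 * n + 3 + 1) * ‖Φ n M‖ ^ 2 ∂nu ≤ y :=
        integral_mono (hI _ _) (hI _ _) fun M => mul_le_mul_of_nonneg_right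
          (pow_le_pow_of_le_one (h01 M).1 (h01 M).2 (by omega)) (sq_nonneg _)
      set e : ℝ := (2 * n + 4) * A / t with he
      have he0 : 0 ≤ e := by positivity
      have h3 : ∫ M, ‖Ra (fun M => ((χ M ^ (2 * n + 3 + 1) : ℝ) : ℂ)) M‖ *
          (‖Φ n M‖ * ‖Φ (n + 1) M‖) ∂nu ≤ t * e / (1 + e) * x + t * e * (1 + e) / 4 * y := by
        rw [hx, hy, ← integral_const_mul, ← integral_const_mul,
          ← integral_add ((hI _ _).const_mul _) ((hI _ _).const_mul _)]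
        refine integral_mono_of_nonneg (Eventually.of_forall fun M => by positivity)
          (((hI _ _).const_mul _).add ((hI _ _).const_mul _)) ?_
        filter_upwards [ae_mem_Sh] with M hS
        simp only [ofReal_pow]
        rw [l2_Ra_pow (hχ.diffAt (Sh_subset hS)), norm_mul, norm_mul, norm_pow, norm_real,
          Real.norm_of_nonneg (h01 M).1]
        have h4 : ‖((2 * n + 3 : ℕ) : ℂ) + 1‖ = 2 * n + 4 := by
          rw [← Nat.cast_succ, Complex.norm_natCast]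
          push_cast
          ring
        have h5 : t * e = (2 * n + 4) * A := by rw [he]; field_simp
        rw [h4]
        set a := χ M ^ (n + 2) * ‖Φ (n + 1) M‖ with ha
        set b := χ M ^ (n + 1) * ‖Φ n M‖ with hb
        have ha0 : 0 ≤ a := mul_nonneg (hp _ M) (norm_nonneg _)
        have hb0 : 0 ≤ b := mul_nonneg (hp _ M) (norm_nonneg _)
        have h6 : a * b ≤ 1 / (1 + e) * a ^ 2 + (1 + e) / 4 * b ^ 2 := by
          have h7 : 1 / (1 + e) * a ^ 2 + (1 + e) / 4 * b ^ 2 - a * b =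
              (a - (1 + e) / 2 * b) ^ 2 / (1 + e) := by
            field_simp
            ring
          have h8 : 0 ≤ (a - (1 + e) / 2 * b) ^ 2 / (1 + e) := by positivity
          linarith
        calc (2 * n + 4) * χ M ^ (2 * n + 3) * ‖Ra (fun M => (χ M : ℂ)) M‖ *
              (‖Φ n M‖ * ‖Φ (n + 1) M‖) = (2 * n + 4) * ‖Ra (fun M => (χ M : ℂ)) M‖ * (a * b) := by
              rw [ha, hb]; ring
          _ ≤ (2 * n + 4) * A * (a * b) := by gcongr; exact hA M hS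
          _ ≤ t * e * (1 / (1 + e) * a ^ 2 + (1 + e) / 4 * b ^ 2) := by
              rw [← h5]; gcongr
          _ = _ := by rw [ha, hb]; ring
      have h4 : t * (x - y) ≤ t * (e / (1 + e) * x + e * (1 + e) / 4 * y) := by
        refine le_trans ?_ ((h2.trans h3).trans (le_of_eq (by ring)))
        refine (mul_le_mul_of_nonneg_left ((sub_le_sub_left hy' x).trans (le_abs_self _))
          ht.le).trans ?_
        exact mul_le_mul_of_nonneg_right (le_lam t n) (abs_nonneg _)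
      have h5 := le_of_mul_le_mul_left h4 ht
      have h6 : x ≤ (1 + e) ^ 3 * y := by
        have h7 : x = (1 + e) * (x - e / (1 + e) * x) := by field_simp; ring
        have h8 : x ≤ (1 + e) * ((1 + e * (1 + e) / 4) * y) := by
          refine h7.le.trans (mul_le_mul_of_nonneg_left ?_ (by positivity))
          linarith
        refine h8.trans ?_
        rw [pow_succ', mul_assoc]
        gcongr
        nlinarith
      have h7 : (1 + e) ^ 3 ≤ Real.exp (3 * e) := by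
        have h8 : Real.exp (3 * e) = Real.exp e ^ 3 := by
          rw [← Real.exp_nat_mul]; norm_num
        rw [h8]
        gcongr
        linarith [Real.add_one_le_exp e]
      have h8 : 2 * (n + 1) + 1 + 1 = 2 * n + 3 + 1 := by ring
      rw [h8]
      push_cast
      calc x ≤ Real.exp (3 * e) * (Real.exp (3 * A * ((n ^ 2 + 3 * n) / t)) * C) :=
            h6.trans (mul_le_mul h7 ih hy0 (Real.exp_pos _).le)
        _ = _ := by
            rw [← mul_assoc, ← Real.exp_add, he]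
            congr 2
            field_simp
            ring
  intro n
  refine le_trans ?_ (key n)
  rw [← integral_indicator (measurableSet_Bl ρ)]
  refine integral_mono ((integrable_indicator_iff (measurableSet_Bl ρ)).2 (l2_intOn h n ρ))
    (hI _ _) fun M => ?_
  by_cases hM : M ∈ Bl ρ
  · have h2 : χ M = 1 := h1 M (by simpa using hM.2)
    simp [indicator_of_mem hM, h2]
  · simp only [indicator_of_notMem hM]
    exact mul_nonneg (hp _ M) (sq_nonneg _)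

/-- local `L²` bounds, uniform for `|m| ≤ K √t` -/
theorem l2_bound (ρ K : ℝ) : ∃ C : ℝ, ∀ (t : ℝ) (Φ : ℤ → E → ℂ), 1 ≤ t → Sys t Φ →
    ∀ m : ℤ, |(m : ℝ)| ≤ K * √t → ∫ M in Bl ρ, ‖Φ m M‖ ^ 2 ∂nu ≤ C := by
  obtain ⟨A, C, hA, hC, H⟩ := l2_nat ρ
  refine ⟨Real.exp (A * (K ^ 2 + 3 * |K|)) * C, fun t Φ ht h => ?_⟩
  have ht0 : 0 < t := by linarith
  have key : ∀ n : ℕ, (n : ℝ) ≤ K * √t → Real.exp (A * ((n ^ 2 + 3 * n) / t)) * C ≤
      Real.exp (A * (K ^ 2 + 3 * |K|)) * C := by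
    intro n hn
    gcongr
    rw [div_le_iff₀ ht0]
    have h1 : (n : ℝ) ^ 2 ≤ K ^ 2 * t := by
      have h2 := pow_le_pow_left₀ (Nat.cast_nonneg n) hn 2
      rwa [mul_pow, Real.sq_sqrt ht0.le] at h2
    have h2 : √t ≤ t := by
      rw [Real.sqrt_le_left ht0.le]
      nlinarith
    have h3 : (n : ℝ) ≤ |K| * t :=
      hn.trans (mul_le_mul (le_abs_self K) h2 (Real.sqrt_nonneg t) (abs_nonneg K))
    nlinarith
  intro m hm
  obtain ⟨n, rfl | rfl⟩ := m.eq_nat_or_neg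
  · exact (H t Φ ht0 h n).trans (key n (by simpa using hm))
  · have h1 := H t _ ht0 h.conj n
    simp only [norm_mul, norm_zpow, norm_neg, norm_one, one_zpow, one_mul, RCLike.norm_conj] at h1
    exact h1.trans (key n (by simpa using hm))

/-- the local mass of `Φ m` is that of `Φ 0` up to `O(1/√t)` -/
theorem l2_drift {φ : E → ℂ} (hφ : Test φ) (K : ℝ) : ∃ C : ℝ, ∀ (t : ℝ) (Φ : ℤ → E → ℂ),
    1 ≤ t → Sys t Φ → ∀ m : ℤ, |(m : ℝ)| ≤ K * √t →
    ‖∫ M, φ M * ((‖Φ m M‖ ^ 2 : ℝ) : ℂ) ∂nu - ∫ M, φ M * ((‖Φ 0 M‖ ^ 2 : ℝ) : ℂ) ∂nu‖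
      ≤ C / √t := by
  obtain ⟨A, ρ, hA0, hA, hρ⟩ := hφ.ra.bound
  obtain ⟨C, hC⟩ := l2_bound ρ K
  refine ⟨K * (A * C), fun t Φ ht h => ?_⟩
  have ht0 : 0 < t := by linarith
  set F : ℤ → ℂ := fun m => ∫ M, φ M * ((‖Φ m M‖ ^ 2 : ℝ) : ℂ) ∂nu with hF
  have step : ∀ j : ℤ, |(j : ℝ)| ≤ K * √t → |((j + 1 : ℤ) : ℝ)| ≤ K * √t →
      ‖F (j + 1) - F j‖ ≤ A * C / t := by
    intro j h1 h2
    rw [le_div_iff₀' ht0]
    refine ((mul_le_mul_of_nonneg_right (le_lam t j) (norm_nonneg _)).trans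
      (l2_step hφ h j)).trans ?_
    have hI := ((l2_intOn h j ρ).add (l2_intOn h (j + 1) ρ)).const_mul (A / 2)
    have h3 : ∫ M in Bl ρ, A / 2 * (‖Φ j M‖ ^ 2 + ‖Φ (j + 1) M‖ ^ 2) ∂nu ≤ A * C := by
      rw [integral_const_mul, integral_add (l2_intOn h j ρ) (l2_intOn h (j + 1) ρ)]
      have h4 := mul_le_mul_of_nonneg_left (add_le_add (hC t Φ ht h j h1) (hC t Φ ht h _ h2)) hA0
      linarith
    refine le_trans ?_ h3
    rw [← integral_indicator (measurableSet_Bl ρ)]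
    refine integral_mono_of_nonneg (Eventually.of_forall fun M => by positivity)
      ((integrable_indicator_iff (measurableSet_Bl ρ)).2 hI) ?_
    filter_upwards [ae_mem_Sh] with M hS
    by_cases hM : M ∈ Bl ρ
    · rw [indicator_of_mem hM]
      calc ‖Ra φ M‖ * (‖Φ j M‖ * ‖Φ (j + 1) M‖) ≤ A * (‖Φ j M‖ * ‖Φ (j + 1) M‖) := by
            gcongr; exact hA M hS
        _ ≤ A * ((‖Φ j M‖ ^ 2 + ‖Φ (j + 1) M‖ ^ 2) / 2) := by
            gcongr; nlinarith [sq_nonneg (‖Φ j M‖ - ‖Φ (j + 1) M‖)]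
        _ = _ := by ring
    · simp [indicator_of_notMem hM, hρ M hS hM]
  have key : ∀ n : ℕ, (n : ℝ) ≤ K * √t →
      ‖F n - F 0‖ ≤ n * (A * C / t) ∧ ‖F (-n) - F 0‖ ≤ n * (A * C / t) := by
    intro n
    induction n with
    | zero => simp
    | succ n ih =>
      intro hn
      push_cast at hn ⊢
      have hn' : (n : ℝ) ≤ K * √t := by linarith
      have hn0 : (0 : ℝ) ≤ n := Nat.cast_nonneg n
      obtain ⟨i1, i2⟩ := ih hn'
      have s1 := step n (by simpa using hn') (by push_cast; rwa [abs_of_nonneg (by linarith)])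
      have s2 := step (-(n + 1)) (by push_cast; rwa [abs_neg, abs_of_nonneg (by linarith)])
        (by simpa using hn')
      have e1 : -((n : ℤ) + 1) + 1 = -n := by ring
      rw [e1, norm_sub_rev] at s2
      constructor
      · linarith [norm_sub_le_norm_sub_add_norm_sub (F (n + 1)) (F n) (F 0)]
      · linarith [norm_sub_le_norm_sub_add_norm_sub (F (-(n + 1))) (F (-n)) (F 0)]
  have fin : ∀ n : ℕ, (n : ℝ) ≤ K * √t → n * (A * C / t) ≤ K * (A * C) / √t := by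
    intro n hn
    have hC0 : 0 ≤ C := (integral_nonneg fun M => by positivity).trans
      (hC t Φ ht h n (by simpa using hn))
    have hs : 0 < √t := Real.sqrt_pos.2 ht0
    calc n * (A * C / t) ≤ K * √t * (A * C / t) := by gcongr
      _ = K * √t * (A * C / (√t * √t)) := by rw [Real.mul_self_sqrt ht0.le]
      _ = _ := by field_simp
  intro m hm
  obtain ⟨n, rfl | rfl⟩ := m.eq_nat_or_neg
  · have hn : (n : ℝ) ≤ K * √t := by simpa using hm
    exact (key n hn).1.trans (fin n hn)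
  · have hn : (n : ℝ) ≤ K * √t := by simpa using hm
    exact (key n hn).2.trans (fin n hn)

theorem l2_pr_T (n : ℤ) {M : E} (hM : M ∈ Gp) : pr (act (ModularGroup.T ^ n) M) = pr M + n := by
  rw [pr_act _ hM]
  have h := ModularGroup.coe_T_zpow n
  have h00 : (ModularGroup.T ^ n) 0 0 = 1 := by rw [h]; rfl
  have h01 : (ModularGroup.T ^ n) 0 1 = n := by rw [h]; rfl
  have h10 : (ModularGroup.T ^ n) 1 0 = 0 := by rw [h]; rfl
  have h11 : (ModularGroup.T ^ n) 1 1 = 1 := by rw [h]; rfl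
  rw [h00, h01, h10, h11]
  simp

/-- the mass in the cusp -/
theorem mass_strip {t : ℝ} {Φ : ℤ → E → ℂ} (h : Sys t Φ) :
    ∫⁻ M in {M : E | |(pr M).re| < 1 ∧ 1 < (pr M).im}, ‖Φ 0 M‖ₑ ^ 2 ∂nu ≤ 300 := by
  classical
  have h1 := l2_cover h (({-1, 0, 1} : Finset ℤ).image fun n => ModularGroup.T ^ n)
    (Q := {M : E | |(pr M).re| < 1 ∧ 1 < (pr M).im}) fun M hM hS => by
      obtain ⟨h1, h2⟩ := hM
      have h3 : ∃ n ∈ ({-1, 0, 1} : Finset ℤ), |(pr M).re + n| ≤ 1 / 2 := by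
        rw [abs_lt] at h1
        by_cases h4 : (pr M).re < -1 / 2
        · exact ⟨1, by simp, abs_le.2 ⟨by push_cast; linarith, by push_cast; linarith⟩⟩
        by_cases h5 : 1 / 2 < (pr M).re
        · exact ⟨-1, by simp, abs_le.2 ⟨by push_cast; linarith, by push_cast; linarith⟩⟩
        · exact ⟨0, by simp, abs_le.2 ⟨by push_cast; linarith, by push_cast; linarith⟩⟩
      obtain ⟨n, hn, h3⟩ := h3
      refine ⟨_, Finset.mem_image_of_mem _ hn, ?_⟩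
      rw [l2_pr_T n (Sh_subset hS)]
      have h4 : (pr M + n).im = (pr M).im := by simp
      refine ⟨by linarith, by simpa using h3, ?_⟩
      linarith [im_le_norm (pr M + n)]
  refine h1.trans ?_
  have h2 : (({-1, 0, 1} : Finset ℤ).image fun n => ModularGroup.T ^ n).card ≤ 3 :=
    Finset.card_image_le.trans (by decide)
  calc _ ≤ ((3 : ℕ) : ℝ≥0∞) * 100 := by gcongr
    _ = 300 := by norm_num

end Pool.Agent.MP_a28cf0_nt.Cub

end

-- part MP_a28cf0_nt.Cub.Coef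
section

set_option autoImplicit false

namespace Pool.Agent.MP_a28cf0_nt.Cub

open MeasureTheory Complex Filter Topology Set
open scoped ENNReal MatrixGroups

theorem coef_lam_diff {t : ℝ} (ht : 0 < t) (m : ℤ) :
    |lam t m - lam t (m - 1)| ≤ |(m : ℝ)| / t := by
  have h1 := lam_sq t m
  have h2 := lam_sq t (m - 1)
  have h3 := le_lam t m
  have h4 := le_lam t (m - 1)
  push_cast at h2
  have h5 : (lam t m - lam t (m - 1)) * (lam t m + lam t (m - 1)) = 2 * m := by nlinarith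
  have h6 := congrArg abs h5
  rw [abs_mul, abs_mul, abs_of_pos (show 0 < lam t m + lam t (m - 1) by linarith),
    abs_two] at h6
  rw [le_div_iff₀ ht]
  nlinarith [abs_nonneg (lam t m - lam t (m - 1))]

theorem ctil_coef (K : ℝ) : ∃ K' : ℝ, ∀ (t : ℝ) (c : ℤ → ℝ), 1 ≤ t → Coef3 K (√t) c →
    Coef K' (√t) (ctil t c) := by
  refine ⟨K + 1 + 2 * ((K + 4) ^ 2 * K) + 2 * ((K + 4) * K), fun t c ht hc => ?_⟩
  have ht0 : 0 < t := by linarith
  have hK : 0 ≤ K := (abs_nonneg _).trans (hc.bd 0)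
  have hN : 1 ≤ √t := Real.one_le_sqrt.2 ht
  have hN0 : 0 < √t := by linarith
  have hNN : √t ^ 2 = t := Real.sq_sqrt ht0.le
  have p1 : 0 ≤ (K + 4) ^ 2 * K := by positivity
  have p2 : 0 ≤ (K + 4) * K := by positivity
  have near : ∀ m j : ℤ, |m - j| ≤ 3 → c j ≠ 0 → |(m : ℝ)| ≤ K * √t + 3 := by
    intro m j hmj hj
    have h1 : |(j : ℝ)| < K * √t := lt_of_not_ge fun h => hj (hc.supp j h)
    have h2 : |(m : ℝ) - j| ≤ 3 := by exact_mod_cast hmj
    have := abs_sub_abs_le_abs_sub (m : ℝ) j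
    linarith
  have hδ : ∀ m j : ℤ, |m - j| ≤ 3 → c j ≠ 0 → |lam t m - t| ≤ (K + 4) ^ 2 := by
    intro m j hmj hj
    have h1 := near m j hmj hj
    have h2 : |(m : ℝ) + 1 / 2| ≤ (K + 4) * √t := by
      have := abs_add_le (m : ℝ) (1 / 2)
      rw [abs_of_pos (show (0 : ℝ) < 1 / 2 by norm_num)] at this
      nlinarith
    have h3 : ((m : ℝ) + 1 / 2) ^ 2 ≤ (K + 4) ^ 2 * t := by
      rw [← sq_abs, ← hNN, ← mul_pow]
      exact pow_le_pow_left₀ (abs_nonneg _) (by simpa only [hNN] using h2) 2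
    rw [abs_of_nonneg (sub_nonneg.2 (le_lam t m))]
    refine (lam_sub_le ht0 m).trans ?_
    rw [div_le_iff₀ (by positivity)]
    nlinarith [sq_nonneg (K + 4)]
  have e1 : ∀ m j : ℤ, |m - j| ≤ 3 → |(lam t m - t) * c j| ≤ (K + 4) ^ 2 * K := by
    intro m j hmj
    by_cases hj : c j = 0
    · simpa [hj] using p1
    · rw [abs_mul]
      exact mul_le_mul (hδ m j hmj hj) (hc.bd j) (abs_nonneg _) (by positivity)
  have e2 : ∀ m j : ℤ, |m - j| ≤ 2 →
      |(lam t m - t) * (c (j + 1) - c j)| ≤ (K + 4) ^ 2 * K / √t := by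
    intro m j hmj
    have hmj' := abs_le.1 hmj
    have key : |lam t m - t| ≤ (K + 4) ^ 2 →
        |(lam t m - t) * (c (j + 1) - c j)| ≤ (K + 4) ^ 2 * K / √t := fun h => by
      rw [abs_mul, mul_div_assoc]
      exact mul_le_mul h (hc.d1 j) (abs_nonneg _) (by positivity)
    by_cases hj : c j = 0
    · by_cases hj' : c (j + 1) = 0
      · rw [hj, hj', sub_zero, mul_zero, abs_zero]
        positivity
      · exact key (hδ m (j + 1) (abs_le.2 ⟨by omega, by omega⟩) hj')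
    · exact key (hδ m j (abs_le.2 ⟨by omega, by omega⟩) hj)
  have e3 : ∀ m j : ℤ, |m - j| ≤ 3 →
      |(lam t m - lam t (m - 1)) * c j| ≤ (K + 4) * K / √t := by
    intro m j hmj
    by_cases hj : c j = 0
    · rw [hj, mul_zero, abs_zero]
      positivity
    · have h1 := near m j hmj hj
      have h2 : |lam t m - lam t (m - 1)| ≤ (K + 4) / √t := by
        refine (coef_lam_diff ht0 m).trans ?_
        rw [div_le_div_iff₀ ht0 hN0]
        nlinarith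
      rw [abs_mul, mul_div_right_comm]
      exact mul_le_mul h2 (hc.bd j) (abs_nonneg _) (by positivity)
  refine ⟨fun m hm => ?_, fun m => ?_, fun m => ?_⟩
  · have h0 : K * √t + 1 ≤ |(m : ℝ)| := by nlinarith
    have h1 : K * √t ≤ |((m - 1 : ℤ) : ℝ)| := by
      have := abs_sub_abs_le_abs_sub (m : ℝ) 1
      rw [abs_one] at this
      push_cast
      linarith
    have h2 : K * √t ≤ |((m + 1 : ℤ) : ℝ)| := by
      have := abs_sub_abs_le_abs_sub (m : ℝ) (-1)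
      rw [abs_neg, abs_one, sub_neg_eq_add] at this
      push_cast
      linarith
    rw [ctil, hc.supp _ h1, hc.supp _ h2, hc.supp m (by linarith)]
    ring
  · have a1 := abs_le.1 (e1 (m - 1) (m - 1) (by simp))
    have a2 := abs_le.1 (e1 m (m + 1) (by simp))
    have a3 : |t * (c (m + 1) + c (m - 1) - 2 * c m)| ≤ K := by
      have := hc.d2 m
      rw [hNN, le_div_iff₀ ht0] at this
      rw [abs_mul, abs_of_pos ht0]
      linarith
    have a4 := abs_le.1 a3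
    rw [ctil, abs_le]
    constructor <;> nlinarith
  · have a1 := abs_le.1 (e2 m (m - 1) (by simp))
    have a2 := abs_le.1 (e3 m (m - 1) (by simp))
    have a3 := abs_le.1 (e2 (m + 1) (m + 1) (by simp))
    have a4 := abs_le.1 (e3 (m + 1) (m + 1) (by simp))
    have a5 : |t * (c (m + 2) - 3 * c (m + 1) + 3 * c m - c (m - 1))| ≤ K / √t := by
      have := mul_le_mul_of_nonneg_left (hc.d3 m) ht0.le
      rw [abs_mul, abs_of_pos ht0]
      refine this.trans (le_of_eq ?_)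
      rw [pow_succ, hNN]
      field_simp
    have a6 := abs_le.1 a5
    have a7 : 0 ≤ 1 / √t := by positivity
    rw [sub_add_cancel] at a1
    rw [add_sub_cancel_right] at a4
    rw [show m + 1 + 1 = m + 2 by ring] at a3
    have e : (K + 1 + 2 * ((K + 4) ^ 2 * K) + 2 * ((K + 4) * K)) / √t =
        K / √t + 1 / √t + 2 * ((K + 4) ^ 2 * K / √t) + 2 * ((K + 4) * K / √t) := by ring
    rw [ctil, ctil, add_sub_cancel_right, show m + 1 + 1 = m + 2 by ring, e, abs_le]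
    constructor <;> nlinarith

theorem coef_deriv_fwd (h : ℝ) (k : ℕ) : ∀ f : ℝ → ℝ, ContDiff ℝ (⊤ : ℕ∞) f →
    deriv^[k] (fwdDiff h f) = fwdDiff h (deriv^[k] f) := by
  induction k with
  | zero => intro f _; rfl
  | succ k ih =>
    intro f hf
    have hd : Differentiable ℝ f := hf.differentiable (by simp)
    have e : deriv (fwdDiff h f) = fwdDiff h (deriv f) := by
      funext x
      have h1 : HasDerivAt (fun y => f (y + h)) (deriv f (x + h)) x :=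
        (hd (x + h)).hasDerivAt.comp_add_const x h
      exact (h1.sub (hd x).hasDerivAt).deriv
    rw [Function.iterate_succ_apply, Function.iterate_succ_apply, e,
      ih _ (contDiff_infty_iff_deriv.1 hf).2]

theorem coef_fwd_le {h : ℝ} (hh : 0 ≤ h) (k : ℕ) : ∀ (f : ℝ → ℝ) (C : ℝ),
    ContDiff ℝ (⊤ : ℕ∞) f → (∀ x, |deriv^[k] f x| ≤ C) → ∀ x, |(fwdDiff h)^[k] f x| ≤ C * h ^ k := by
  induction k with
  | zero => intro f C _ hC x; simpa using hC x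
  | succ k ih =>
    intro f C hf hC x
    have hf' : ContDiff ℝ (⊤ : ℕ∞) (fwdDiff h f) :=
      (hf.comp (contDiff_id.add contDiff_const)).sub hf
    rw [Function.iterate_succ_apply, pow_succ', ← mul_assoc]
    refine ih _ _ hf' (fun y => ?_) x
    rw [coef_deriv_fwd h k f hf]
    have hd : Differentiable ℝ (deriv^[k] f) := (hf.iterate_deriv k).differentiable (by simp)
    have := Convex.norm_image_sub_le_of_norm_deriv_le (f := deriv^[k] f) (s := univ) (C := C)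
      (fun z _ => hd z) (fun z _ => by
        have := hC z
        rwa [Function.iterate_succ_apply'] at this) convex_univ (mem_univ y) (mem_univ (y + h))
    simpa [fwdDiff, abs_of_nonneg hh] using this

theorem coef_deriv_bd {g : ℝ → ℝ} (hg : ContDiff ℝ (⊤ : ℕ∞) g) (hs : HasCompactSupport g) (k : ℕ) :
    ∃ C, 0 ≤ C ∧ ∀ x, |deriv^[k] g x| ≤ C := by
  have h1 : HasCompactSupport (deriv^[k] g) := by
    induction k with
    | zero => exact hs
    | succ k ih => rw [Function.iterate_succ_apply']; exact ih.deriv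
  obtain ⟨C, hC⟩ := (hg.iterate_deriv k).continuous.bounded_above_of_compact_support h1
  exact ⟨C, (norm_nonneg _).trans (hC 0), hC⟩

theorem exists_coef (K L : ℝ) (hL : 1 ≤ L) : ∃ K' : ℝ, ∀ (N : ℝ) (m₀ : ℤ), 1 ≤ N →
    |(m₀ : ℝ)| ≤ K * N → ∃ c : ℤ → ℝ, Coef3 K' N c ∧ (∀ m, 0 ≤ c m ∧ c m ≤ 1) ∧
      (∀ m : ℤ, |(m : ℝ) - m₀| ≤ L * N → c m = 1) ∧
      (∀ m : ℤ, 2 * L * N ≤ |(m : ℝ) - m₀| → c m = 0) := by
  let g : ContDiffBump (0 : ℝ) := ⟨1, 2, one_pos, one_lt_two⟩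
  obtain ⟨C1, p1, h1⟩ := coef_deriv_bd g.contDiff g.hasCompactSupport 1
  obtain ⟨C2, p2, h2⟩ := coef_deriv_bd g.contDiff g.hasCompactSupport 2
  obtain ⟨C3, p3, h3⟩ := coef_deriv_bd g.contDiff g.hasCompactSupport 3
  refine ⟨|K| + 2 * L + C1 + C2 + C3, fun N m₀ hN hm₀ => ?_⟩
  have hN0 : 0 < N := by linarith
  have hLN : 0 < L * N := by positivity
  have hK := abs_nonneg K
  have hh : 0 ≤ (L * N)⁻¹ := by positivity
  have hh' : (L * N)⁻¹ ≤ N⁻¹ := inv_anti₀ hN0 (by nlinarith)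
  have bound : ∀ (k : ℕ) (C : ℝ), 0 ≤ C → C ≤ |K| + 2 * L + C1 + C2 + C3 →
      C * (L * N)⁻¹ ^ k ≤ (|K| + 2 * L + C1 + C2 + C3) / N ^ k := fun k C hC hC' => by
    rw [div_eq_mul_inv, ← inv_pow]
    exact mul_le_mul hC' (pow_le_pow_left₀ hh hh' k) (by positivity) (by linarith)
  have zero : ∀ m : ℤ, 2 * L * N ≤ |(m : ℝ) - m₀| → g (((m : ℝ) - m₀) * (L * N)⁻¹) = 0 := by
    intro m hm
    refine g.zero_of_le_dist ?_
    rw [Real.dist_eq, sub_zero, abs_mul, abs_of_nonneg hh, ← div_eq_mul_inv, le_div_iff₀ hLN]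
    change 2 * (L * N) ≤ _
    linarith
  refine ⟨fun m => g (((m : ℝ) - m₀) * (L * N)⁻¹), ⟨⟨fun m hm => zero m ?_, fun m => ?_,
    fun m => ?_⟩, fun m => ?_, fun m => ?_⟩, fun m => ⟨g.nonneg, g.le_one⟩, fun m hm => ?_, zero⟩
  · have := abs_sub_abs_le_abs_sub (m : ℝ) m₀
    have h4 : K * N ≤ |K| * N := mul_le_mul_of_nonneg_right (le_abs_self K) hN0.le
    nlinarith
  · rw [abs_of_nonneg g.nonneg]
    linarith [g.le_one (x := ((m : ℝ) - m₀) * (L * N)⁻¹)]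
  · have := (coef_fwd_le hh 1 g C1 g.contDiff h1 (((m : ℝ) - m₀) * (L * N)⁻¹)).trans
      (bound 1 C1 p1 (by linarith))
    rw [pow_one] at this
    refine le_of_eq_of_le (congrArg abs ?_) this
    simp only [Function.iterate_one, fwdDiff]
    push_cast
    ring_nf
  · have := (coef_fwd_le hh 2 g C2 g.contDiff h2 (((m : ℝ) - 1 - m₀) * (L * N)⁻¹)).trans
      (bound 2 C2 p2 (by linarith))
    refine le_of_eq_of_le (congrArg abs ?_) this
    simp only [Function.iterate_succ_apply, Function.iterate_zero_apply, fwdDiff]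
    push_cast
    ring_nf
  · have := (coef_fwd_le hh 3 g C3 g.contDiff h3 (((m : ℝ) - 1 - m₀) * (L * N)⁻¹)).trans
      (bound 3 C3 p3 (by linarith))
    refine le_of_eq_of_le (congrArg abs ?_) this
    simp only [Function.iterate_succ_apply, Function.iterate_zero_apply, fwdDiff]
    push_cast
    ring_nf
  · refine g.one_of_mem_closedBall ?_
    rw [Metric.mem_closedBall, Real.dist_eq, sub_zero, abs_mul, abs_of_nonneg hh, ← div_eq_mul_inv,
      div_le_iff₀ hLN]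
    change _ ≤ 1 * (L * N)
    linarith

/-- one dimensional Sobolev inequality -/
theorem lemma1D {g g' : ℝ → ℝ} (hd : ∀ s, HasDerivAt g (g' s) s) (hc : Continuous g') :
    g 0 ≤ ∫ s in Icc (0 : ℝ) 1, (g s + |g' s|) := by
  have hg : Continuous g := continuous_iff_continuousAt.2 fun s => (hd s).continuousAt
  have h1 : ∀ s ∈ Icc (0 : ℝ) 1, g 0 - ∫ r in (0 : ℝ)..1, |g' r| ≤ g s := by
    intro s hs
    have e := intervalIntegral.integral_eq_sub_of_hasDerivAt (a := 0) (b := s)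
      (fun r _ => hd r) (hc.intervalIntegrable 0 s)
    have e2 := intervalIntegral.abs_integral_le_integral_abs (f := g') (μ := volume) hs.1
    have e3 : ∫ r in (0 : ℝ)..s, |g' r| ≤ ∫ r in (0 : ℝ)..1, |g' r| :=
      intervalIntegral.integral_mono_interval le_rfl hs.1 hs.2
        (Eventually.of_forall fun r => abs_nonneg _) (hc.abs.intervalIntegrable 0 1)
    have := (abs_le.1 e2).1
    linarith
  have h2 := intervalIntegral.integral_mono_on zero_le_one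
    (continuous_const.intervalIntegrable 0 1) (hg.intervalIntegrable (μ := volume) 0 1) h1
  rw [integral_Icc_eq_integral_Ioc, ← intervalIntegral.integral_of_le zero_le_one,
    intervalIntegral.integral_add (hg.intervalIntegrable 0 1) (hc.abs.intervalIntegrable 0 1)]
  simp only [intervalIntegral.integral_const, sub_zero, smul_eq_mul, one_mul] at h2
  linarith

/-- orthogonality of different weights -/
theorem orth (S : Finset ℤ) (Y : ℤ → E → ℂ)
    (hY : ∀ n ∈ S, ∀ (θ : ℝ) (M : E), Y n (rot θ M) = Complex.exp (2 * n * θ * I) * Y n M)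
    (w : E → ℝ) (hw : ∀ θ M, w (rot θ M) = w M)
    (hi : ∀ n ∈ S, ∀ k ∈ S,
      Integrable (fun M => (w M : ℂ) * (Y n M * (starRingEnd ℂ) (Y k M))) nu) :
    ∫ M, w M * ‖∑ n ∈ S, Y n M‖ ^ 2 ∂nu = ∑ n ∈ S, ∫ M, w M * ‖Y n M‖ ^ 2 ∂nu := by
  have off : ∀ n ∈ S, ∀ k ∈ S, k ≠ n →
      ∫ M, (w M : ℂ) * (Y n M * (starRingEnd ℂ) (Y k M)) ∂nu = 0 := by
    intro n hn k hk hkn
    have hnk : ((n : ℝ) - k) ≠ 0 := sub_ne_zero.2 (by exact_mod_cast hkn.symm)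
    have hnk' : ((n : ℂ) - k) ≠ 0 := by exact_mod_cast hnk
    set θ : ℝ := Real.pi / (2 * ((n : ℝ) - k)) with hθ
    have e := (mp_rot θ).integral_comp (me_rot θ)
      fun M => (w M : ℂ) * (Y n M * (starRingEnd ℂ) (Y k M))
    have e1 : Complex.exp (2 * n * θ * I) * (starRingEnd ℂ) (Complex.exp (2 * k * θ * I)) = -1 := by
      rw [← Complex.exp_conj, ← Complex.exp_add, ← Complex.exp_pi_mul_I]
      congr 1
      simp only [map_mul, Complex.conj_ofReal, Complex.conj_I, map_intCast, map_ofNat]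
      rw [hθ]
      push_cast
      field_simp
      ring
    have e2 : ∀ M, (w (rot θ M) : ℂ) * (Y n (rot θ M) * (starRingEnd ℂ) (Y k (rot θ M))) =
        -((w M : ℂ) * (Y n M * (starRingEnd ℂ) (Y k M))) := by
      intro M
      rw [hw, hY n hn, hY k hk, map_mul]
      linear_combination (w M : ℂ) * (Y n M * (starRingEnd ℂ) (Y k M)) * e1
    simp only [e2, integral_neg] at e
    linear_combination (-1 / 2 : ℂ) * e
  have cast : ∀ F : E → ℂ, ((∫ M, w M * ‖F M‖ ^ 2 ∂nu : ℝ) : ℂ) =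
      ∫ M, (w M : ℂ) * (F M * (starRingEnd ℂ) (F M)) ∂nu := by
    intro F
    rw [← integral_complex_ofReal]
    refine integral_congr_ae (Eventually.of_forall fun M => ?_)
    simp only [Complex.mul_conj']
    push_cast
    rfl
  apply Complex.ofReal_injective
  rw [cast, Complex.ofReal_sum]
  simp only [cast, map_sum, Finset.sum_mul_sum]
  simp only [Finset.mul_sum]
  rw [integral_finsetSum _ fun n hn => integrable_finsetSum _ fun k hk => hi n hn k hk]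
  refine Finset.sum_congr rfl fun n hn => ?_
  rw [integral_finsetSum _ fun k hk => hi n hn k hk]
  exact Finset.sum_eq_single_of_mem n hn fun k hk hkn => off n hn k hk hkn

theorem orth_set (S : Finset ℤ) (Y : ℤ → E → ℂ) (hc : ∀ n ∈ S, ContinuousOn (Y n) Gp)
    (hY : ∀ n ∈ S, ∀ (θ : ℝ) (M : E), Y n (rot θ M) = Complex.exp (2 * n * θ * I) * Y n M)
    {Q : Set E} (hQ : IsCompact Q) (hs : Q ⊆ Sh) (hr : ∀ θ M, rot θ M ∈ Q ↔ M ∈ Q) :
    ∫ M in Q, ‖∑ n ∈ S, Y n M‖ ^ 2 ∂nu = ∑ n ∈ S, ∫ M in Q, ‖Y n M‖ ^ 2 ∂nu := by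
  classical
  have hm := hQ.measurableSet
  have e : ∀ F : E → ℝ, ∫ M in Q, F M ∂nu = ∫ M, Q.indicator (fun _ => (1 : ℝ)) M * F M ∂nu := by
    intro F
    rw [← integral_indicator hm]
    refine integral_congr_ae (Eventually.of_forall fun M => ?_)
    by_cases h : M ∈ Q <;> simp [h]
  simp only [e]
  refine orth S Y hY _ (fun θ M => by simp only [indicator_apply, hr]) fun n hn k hk => ?_
  have h1 : IntegrableOn (fun M => Y n M * (starRingEnd ℂ) (Y k M)) Q nu :=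
    integrableOn_of_cont ((hc n hn).mul (Complex.continuous_conj.comp_continuousOn (hc k hk))) hQ hs
  refine (h1.integrable_indicator hm).congr (Eventually.of_forall fun M => ?_)
  by_cases h : M ∈ Q <;> simp [h]

end Pool.Agent.MP_a28cf0_nt.Cub

end

-- part MP_a28cf0_nt.Cub.Packet
section

set_option autoImplicit false

namespace Pool.Agent.MP_a28cf0_nt.Cub

open MeasureTheory Complex Filter Topology Set
open scoped ENNReal MatrixGroups

theorem packet_zero {K N : ℝ} {c : ℤ → ℝ} (hc : Coef K N c) {L : ℕ} (hL : K * N ≤ L)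
    {m : ℤ} (hm : m ∉ Finset.Icc (-(L : ℤ)) L) : c m = 0 := by
  apply hc.supp
  refine hL.trans ?_
  rw [Finset.mem_Icc, ← abs_le, not_le] at hm
  have : ((L : ℤ) : ℝ) ≤ ((|m| : ℤ) : ℝ) := by exact_mod_cast hm.le
  simpa using this

theorem pk_eq_sum {K N : ℝ} {c : ℤ → ℝ} (hc : Coef K N c) {L : ℕ} (hL : K * N ≤ L)
    (Φ : ℤ → E → ℂ) (M : E) :
    pk c Φ M = ∑ m ∈ Finset.Icc (-(L : ℤ)) L, (c m : ℂ) * Φ m M := by
  unfold pk
  refine tsum_eq_sum fun m hm => ?_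
  rw [packet_zero hc hL hm]
  simp

theorem packet_fun {K N : ℝ} {c : ℤ → ℝ} (hc : Coef K N c) (Φ : ℤ → E → ℂ) :
    pk c Φ = fun M => ∑ m ∈ Finset.Icc (-(⌈K * N⌉₊ : ℤ)) ⌈K * N⌉₊, (c m : ℂ) * Φ m M :=
  funext fun M => pk_eq_sum hc (Nat.le_ceil _) Φ M

theorem pk_meas {t K N : ℝ} {c : ℤ → ℝ} {Φ : ℤ → E → ℂ} (h : Sys t Φ) (hc : Coef K N c) :
    Measurable (pk c Φ) := by
  rw [packet_fun hc]
  exact Finset.measurable_sum _ fun m _ => (h.meas m).const_mul _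

theorem pk_smooth {t K N : ℝ} {c : ℤ → ℝ} {Φ : ℤ → E → ℂ} (h : Sys t Φ) (hc : Coef K N c) :
    ContDiffOn ℝ 1 (pk c Φ) Gp := by
  rw [packet_fun hc]
  exact ContDiffOn.sum fun m _ => contDiffOn_const.mul (h.smooth m)

theorem pk_hom {t : ℝ} (c : ℤ → ℝ) {Φ : ℤ → E → ℂ} (h : Sys t Φ) {s : ℝ} (hs : 0 < s) (M : E) :
    pk c Φ (s • M) = pk c Φ M := by
  unfold pk
  exact tsum_congr fun m => by rw [h.hom m s M hs]

theorem pk_inv {t : ℝ} (c : ℤ → ℝ) {Φ : ℤ → E → ℂ} (h : Sys t Φ) (γ : SL(2, ℤ)) (M : E) :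
    pk c Φ (act γ M) = pk c Φ M := by
  unfold pk
  exact tsum_congr fun m => by rw [h.inv m γ M]

theorem X1_pk {t K N : ℝ} {c : ℤ → ℝ} {Φ : ℤ → E → ℂ} (h : Sys t Φ) (hc : Coef K N c)
    {M : E} (hM : M ∈ Gp) :
    X1 (pk c Φ) M = 2 * t * I * pk c Φ M + I * pk (ctil t c) Φ M := by
  set S := Finset.Icc (-(⌈K * N⌉₊ : ℤ)) ⌈K * N⌉₊ with hS
  have hz : ∀ m ∉ S, c m = 0 := fun m hm => packet_zero hc (Nat.le_ceil _) hm
  have hA : HasSum (fun m : ℤ => (c m : ℂ) * (lam t m * Φ (m + 1) M))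
      (∑ m ∈ S, (c m : ℂ) * (lam t m * Φ (m + 1) M)) :=
    hasSum_sum_of_ne_finset_zero fun m hm => by rw [hz m hm]; simp
  have hB : HasSum (fun m : ℤ => (c m : ℂ) * (lam t (m - 1) * Φ (m - 1) M))
      (∑ m ∈ S, (c m : ℂ) * (lam t (m - 1) * Φ (m - 1) M)) :=
    hasSum_sum_of_ne_finset_zero fun m hm => by rw [hz m hm]; simp
  have hC : HasSum (fun m : ℤ => (c m : ℂ) * Φ m M) (∑ m ∈ S, (c m : ℂ) * Φ m M) :=
    hasSum_sum_of_ne_finset_zero fun m hm => by rw [hz m hm]; simp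
  have hA' := (Equiv.subRight (1 : ℤ)).hasSum_iff.2 hA
  have hB' := (Equiv.addRight (1 : ℤ)).hasSum_iff.2 hB
  have hT := (hA'.add hB').sub (hC.mul_left (2 * (t : ℂ)))
  have hE : pk (ctil t c) Φ M = ∑ m ∈ S, (c m : ℂ) * (lam t m * Φ (m + 1) M) +
      ∑ m ∈ S, (c m : ℂ) * (lam t (m - 1) * Φ (m - 1) M) -
      2 * (t : ℂ) * ∑ m ∈ S, (c m : ℂ) * Φ m M := by
    rw [← hT.tsum_eq]
    unfold pk
    refine tsum_congr fun m => ?_
    simp only [ctil, Function.comp, Equiv.subRight_apply, Equiv.coe_addRight, sub_add_cancel,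
      add_sub_cancel_right]
    push_cast
    ring
  have hd : ∀ m ∈ S, DifferentiableAt ℝ (Φ m) M := fun m _ => h.diffAt m hM
  rw [hE, pk_eq_sum hc (Nat.le_ceil _) Φ M, X1_eq, packet_fun hc, Ra_sum S _ hd, Lo_sum S _ hd]
  have e1 : ∑ m ∈ S, (c m : ℂ) * Ra (Φ m) M =
      I * ∑ m ∈ S, (c m : ℂ) * (lam t m * Φ (m + 1) M) := by
    rw [Finset.mul_sum]
    exact Finset.sum_congr rfl fun m _ => by rw [h.ra m M hM]; ring
  have e2 : ∑ m ∈ S, (c m : ℂ) * Lo (Φ m) M =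
      I * ∑ m ∈ S, (c m : ℂ) * (lam t (m - 1) * Φ (m - 1) M) := by
    rw [Finset.mul_sum]
    exact Finset.sum_congr rfl fun m _ => by rw [h.lo m M hM]; ring
  rw [e1, e2]
  ring

/-- `L²` bound for sums with complex coefficients -/
theorem sum_l2 (ρ K : ℝ) : ∃ C : ℝ, 0 ≤ C ∧ ∀ (t : ℝ) (Φ : ℤ → E → ℂ), 1 ≤ t → Sys t Φ →
    ∀ (S : Finset ℤ) (z : ℤ → ℂ), (∀ m ∈ S, |(m : ℝ)| ≤ K * √t) →
    ∫ M in Bl ρ, ‖∑ m ∈ S, z m * Φ m M‖ ^ 2 ∂nu ≤ C * ∑ m ∈ S, ‖z m‖ ^ 2 := by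
  obtain ⟨C, hC⟩ := l2_bound ρ K
  refine ⟨max C 0, le_max_right _ _, fun t Φ ht h S z hS => ?_⟩
  have := orth_set S (fun m M => z m * Φ m M)
    (fun m _ => continuousOn_const.mul (h.cont m))
    (fun m _ θ M => by simp only [h.wt m θ M]; ring)
    (isCompact_Bl ρ) inter_subset_left (fun θ M => rot_mem_Bl θ ρ M)
  rw [this, Finset.mul_sum]
  refine Finset.sum_le_sum fun m hm => ?_
  simp only [norm_mul, mul_pow]
  rw [integral_const_mul, mul_comm]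
  exact mul_le_mul_of_nonneg_right ((hC t Φ ht h m (hS m hm)).trans (le_max_left _ _))
    (by positivity)

theorem pk_l2 (ρ K : ℝ) : ∃ C : ℝ, ∀ (t : ℝ) (c : ℤ → ℝ) (Φ : ℤ → E → ℂ), 1 ≤ t → Sys t Φ →
    Coef K (√t) c → ∫ M in Bl ρ, ‖pk c Φ M‖ ^ 2 ∂nu ≤ C * √t := by
  obtain ⟨C, hC0, hC⟩ := sum_l2 ρ (K + 1)
  refine ⟨C * ((2 * K + 3) * K ^ 2), fun t c Φ ht h hc => ?_⟩
  have hK : 0 ≤ K := (abs_nonneg _).trans (hc.bd 0)
  have h1 : 1 ≤ √t := Real.one_le_sqrt.2 ht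
  set L := ⌈K * √t⌉₊ with hL
  have hL1 : (L : ℝ) ≤ (K + 1) * √t := by
    have := (Nat.ceil_lt_add_one (show 0 ≤ K * √t by positivity)).le
    rw [← hL] at this
    nlinarith
  rw [packet_fun hc]
  refine (hC t Φ ht h _ (fun m => (c m : ℂ)) fun m hm => ?_).trans ?_
  · rw [Finset.mem_Icc, ← abs_le] at hm
    have : ((|m| : ℤ) : ℝ) ≤ ((L : ℤ) : ℝ) := by exact_mod_cast hm
    refine le_trans ?_ hL1
    simpa using this
  · rw [mul_assoc]
    refine mul_le_mul_of_nonneg_left ?_ hC0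
    have hb : ∀ m ∈ Finset.Icc (-(L : ℤ)) L, ‖(c m : ℂ)‖ ^ 2 ≤ K ^ 2 := fun m _ => by
      rw [Complex.norm_real, Real.norm_eq_abs]
      exact pow_le_pow_left₀ (abs_nonneg _) (hc.bd m) 2
    refine (Finset.sum_le_card_nsmul _ _ _ hb).trans ?_
    have hcard : (Finset.Icc (-(L : ℤ)) L).card = 2 * L + 1 := by
      rw [Int.card_Icc]; omega
    rw [hcard, nsmul_eq_mul]
    push_cast
    have : (2 * (L : ℝ) + 1) ≤ (2 * K + 3) * √t := by nlinarith
    nlinarith [sq_nonneg K]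

theorem Gd_meas {t K : ℝ} {c : ℤ → ℝ} {Φ : ℤ → E → ℂ} (ht : 1 ≤ t) (h : Sys t Φ)
    (hc : Coef3 K (√t) c) : Measurable (Gd t c Φ) := by
  obtain ⟨K', hK'⟩ := ctil_coef K
  have h1 := pk_meas h hc.toCoef
  have h2 := pk_meas h (hK' t c ht hc)
  unfold Gd
  exact (((h1.norm.pow_const 2).add (h2.norm.pow_const 2)).div_const _).ennreal_ofReal

theorem Gd_hom {t : ℝ} (c : ℤ → ℝ) {Φ : ℤ → E → ℂ} (h : Sys t Φ) {s : ℝ} (hs : 0 < s) (M : E) :
    Gd t c Φ (s • M) = Gd t c Φ M := by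
  unfold Gd
  rw [pk_hom c h hs, pk_hom _ h hs]

theorem Gd_inv {t : ℝ} (c : ℤ → ℝ) {Φ : ℤ → E → ℂ} (h : Sys t Φ) (γ : SL(2, ℤ)) (M : E) :
    Gd t c Φ (act γ M) = Gd t c Φ M := by
  unfold Gd
  rw [pk_inv c h, pk_inv _ h]

/-- Sobolev inequality along the flow -/
theorem pk_sobolev {t K : ℝ} {c : ℤ → ℝ} {Φ : ℤ → E → ℂ} (ht : 1 ≤ t) (h : Sys t Φ)
    (hc : Coef3 K (√t) c) {M : E} (hM : M ∈ Gp) :
    ENNReal.ofReal (‖pk c Φ M‖ ^ 2 / √t) ≤ 2 * ∫⁻ s in Icc (0 : ℝ) 1, Gd t c Φ (fl s M) := by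
  obtain ⟨K', hK'⟩ := ctil_coef K
  have hs1 := pk_smooth h hc.toCoef
  have hs2 := pk_smooth h (hK' t c ht hc)
  have hmem : ∀ s, fl s M ∈ Gp := fun s => by
    show 0 < dt (fl s M)
    rw [dt_fl]; exact hM
  have hfl : Continuous fun s : ℝ => fl s M := continuous_fl continuous_id continuous_const
  have c1 : Continuous fun s : ℝ => pk c Φ (fl s M) :=
    hs1.continuousOn.comp_continuous hfl hmem
  have c2 : Continuous fun s : ℝ => pk (ctil t c) Φ (fl s M) :=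
    hs2.continuousOn.comp_continuous hfl hmem
  set F : ℝ → ℂ := fun s => pk c Φ (fl s M) with hF
  set G : ℝ → ℂ := fun s => pk (ctil t c) Φ (fl s M) with hG
  have hd : ∀ s, HasDerivAt (fun r => ‖F r‖ ^ 2) (2 * inner ℝ (F s) (I * G s)) s := fun s => by
    have hdiff : DifferentiableAt ℝ (pk c Φ) (fl s M) :=
      (hs1.contDiffAt (isOpen_Gp.mem_nhds (hmem s))).differentiableAt one_ne_zero
    have := (hasDerivAt_fl hdiff).norm_sq
    rw [X1_pk h hc.toCoef (hmem s), inner_add_right] at this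
    have e : inner ℝ (pk c Φ (fl s M)) (2 * t * I * pk c Φ (fl s M)) = 0 := by
      rw [Complex.inner]
      simp
      ring
    rw [e, zero_add] at this
    exact this
  have hc' : Continuous fun s => 2 * inner ℝ (F s) (I * G s) :=
    continuous_const.mul (c1.inner (continuous_const.mul c2))
  have hl := lemma1D hd hc'
  have ht0 : 0 < √t := Real.sqrt_pos.2 (by linarith)
  have cH : Continuous fun s => (‖F s‖ ^ 2 + ‖G s‖ ^ 2) / √t :=
    ((c1.norm.pow 2).add (c2.norm.pow 2)).div_const _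
  have iH : IntegrableOn (fun s => (‖F s‖ ^ 2 + ‖G s‖ ^ 2) / √t) (Icc (0 : ℝ) 1) :=
    cH.integrableOn_Icc
  have hI : ∫⁻ s in Icc (0 : ℝ) 1, Gd t c Φ (fl s M) =
      ENNReal.ofReal (∫ s in Icc (0 : ℝ) 1, (‖F s‖ ^ 2 + ‖G s‖ ^ 2) / √t) := by
    rw [ofReal_integral_eq_lintegral_ofReal iH (Eventually.of_forall fun s => by positivity)]
    rfl
  have hle : ∫ s in Icc (0 : ℝ) 1, (‖F s‖ ^ 2 + |2 * inner ℝ (F s) (I * G s)|) ≤
      ∫ s in Icc (0 : ℝ) 1, (2 * √t) * ((‖F s‖ ^ 2 + ‖G s‖ ^ 2) / √t) := by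
    refine integral_mono ((c1.norm.pow 2).add hc'.abs).integrableOn_Icc (iH.const_mul _)
      fun s => ?_
    have h1 : |inner ℝ (F s) (I * G s)| ≤ ‖F s‖ * ‖G s‖ := by
      have := abs_real_inner_le_norm (F s) (I * G s)
      rwa [norm_mul, Complex.norm_I, one_mul] at this
    have h2 : (2 * √t) * ((‖F s‖ ^ 2 + ‖G s‖ ^ 2) / √t) = 2 * (‖F s‖ ^ 2 + ‖G s‖ ^ 2) := by
      field_simp
    simp only [h2, abs_mul, abs_two]
    nlinarith [sq_nonneg (‖F s‖ - ‖G s‖), sq_nonneg ‖G s‖]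
  rw [integral_const_mul] at hle
  have h0 : F 0 = pk c Φ M := by simp only [hF, fl_zero]
  rw [h0] at hl
  rw [hI, ← ENNReal.ofReal_ofNat 2, ← ENNReal.ofReal_mul (by norm_num)]
  refine ENNReal.ofReal_le_ofReal ?_
  rw [div_le_iff₀ ht0]
  have := hl.trans hle
  linarith

theorem packet_int {t K : ℝ} {c : ℤ → ℝ} {Φ : ℤ → E → ℂ} (h : Sys t Φ)
    (hc : Coef K (√t) c) {Q : Set E} (hQ : IsCompact Q) (hs : Q ⊆ Sh) :
    IntegrableOn (fun M => ‖pk c Φ M‖ ^ 2) Q nu :=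
  integrableOn_of_cont ((pk_smooth h hc).continuousOn.norm.pow 2) hQ hs

theorem packet_lift {t K : ℝ} {c : ℤ → ℝ} {Φ : ℤ → E → ℂ} (ht : 1 ≤ t) (h : Sys t Φ)
    (hc : Coef3 K (√t) c) {Q : Set E} (hQ : IsCompact Q) (hs : Q ⊆ Sh) :
    lift t c Φ Q = ENNReal.ofReal (((∫ M in Q, ‖pk c Φ M‖ ^ 2 ∂nu) +
      ∫ M in Q, ‖pk (ctil t c) Φ M‖ ^ 2 ∂nu) / √t) := by
  obtain ⟨K', hK'⟩ := ctil_coef K
  have i1 := packet_int h hc.toCoef hQ hs
  have i2 := packet_int h (hK' t c ht hc) hQ hs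
  have i3 : IntegrableOn (fun M => (‖pk c Φ M‖ ^ 2 + ‖pk (ctil t c) Φ M‖ ^ 2) / √t) Q nu :=
    (i1.add i2).div_const _
  rw [← integral_add i1 i2, ← integral_div,
    ofReal_integral_eq_lintegral_ofReal i3 (Eventually.of_forall fun s => by positivity)]
  unfold lift
  rw [withDensity_apply _ hQ.isClosed.measurableSet]
  rfl

theorem lift_bound (ρ K : ℝ) : ∃ C : ℝ, ∀ (t : ℝ) (c : ℤ → ℝ) (Φ : ℤ → E → ℂ), 1 ≤ t →
    Sys t Φ → Coef3 K (√t) c → lift t c Φ (Metric.closedBall 0 ρ) ≤ ENNReal.ofReal C := by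
  obtain ⟨K', hK'⟩ := ctil_coef K
  obtain ⟨C₁, h₁⟩ := pk_l2 ρ K
  obtain ⟨C₂, h₂⟩ := pk_l2 ρ K'
  refine ⟨C₁ + C₂, fun t c Φ ht h hc => ?_⟩
  have ht0 : 0 < √t := Real.sqrt_pos.2 (by linarith)
  have hae : (Metric.closedBall (0 : E) ρ : Set E) =ᵐ[lift t c Φ] Bl ρ := by
    refine (withDensity_absolutelyContinuous nu _).ae_eq ?_
    filter_upwards [ae_mem_Sh] with M hM
    exact propext ⟨fun h' => ⟨hM, h'⟩, fun h' => h'.2⟩
  rw [measure_congr hae, packet_lift ht h hc (isCompact_Bl ρ) inter_subset_left]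
  refine ENNReal.ofReal_le_ofReal ?_
  rw [div_le_iff₀ ht0]
  have a1 := h₁ t c Φ ht h hc.toCoef
  have a2 := h₂ t _ Φ ht h (hK' t c ht hc)
  linarith

theorem lift_fin {t K : ℝ} {c : ℤ → ℝ} {Φ : ℤ → E → ℂ} (ht : 1 ≤ t) (h : Sys t Φ)
    (hc : Coef3 K (√t) c) : IsFiniteMeasureOnCompacts (lift t c Φ) := by
  refine ⟨fun Q hQ => ?_⟩
  obtain ⟨ρ, hρ⟩ := hQ.isBounded.subset_closedBall (0 : E)
  obtain ⟨C, hC⟩ := lift_bound ρ K
  exact ((measure_mono hρ).trans (hC t c Φ ht h hc)).trans_lt ENNReal.ofReal_lt_top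

/-- integrals against the lift -/
theorem integral_lift {t K : ℝ} {c : ℤ → ℝ} {Φ : ℤ → E → ℂ} (ht : 1 ≤ t) (h : Sys t Φ)
    (hc : Coef3 K (√t) c) (φ : E → ℝ) :
    ∫ M, φ M ∂(lift t c Φ) =
      ∫ M, φ M * ((‖pk c Φ M‖ ^ 2 + ‖pk (ctil t c) Φ M‖ ^ 2) / √t) ∂nu := by
  unfold lift
  rw [integral_withDensity_eq_integral_toReal_smul (Gd_meas ht h hc)
    (Eventually.of_forall fun M => ENNReal.ofReal_lt_top)]
  refine integral_congr_ae (Eventually.of_forall fun M => ?_)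
  simp only [Gd, smul_eq_mul]
  rw [ENNReal.toReal_ofReal (by positivity), mul_comm]

theorem pk_le_lift {t K : ℝ} {c : ℤ → ℝ} {Φ : ℤ → E → ℂ} (ht : 1 ≤ t) (h : Sys t Φ)
    (hc : Coef3 K (√t) c) {Q : Set E} (hQ : IsCompact Q) (hs : Q ⊆ Sh) :
    ENNReal.ofReal ((∫ M in Q, ‖pk c Φ M‖ ^ 2 ∂nu) / √t) ≤ lift t c Φ Q := by
  rw [packet_lift ht h hc hQ hs]
  refine ENNReal.ofReal_le_ofReal (div_le_div_of_nonneg_right ?_ (Real.sqrt_nonneg _))
  have : 0 ≤ ∫ M in Q, ‖pk (ctil t c) Φ M‖ ^ 2 ∂nu := integral_nonneg fun M => by positivity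
  linarith

end Pool.Agent.MP_a28cf0_nt.Cub

end

-- part MP_a28cf0_nt.Cub.Chart
section

set_option autoImplicit false

namespace Pool.Agent.MP_a28cf0_nt.Cub

open MeasureTheory Complex Filter Topology Set
open scoped ENNReal MatrixGroups

/-- the chart in coordinates `(θ, a, b, s)` -/
noncomputable def chartF (v : Fin 4 → ℝ) : Fin 4 → ℝ :=
  ![-(v 3 * Real.exp (v 1 + v 2) * Real.sin (v 0)), v 3 * Real.exp (v 1 - v 2) * Real.cos (v 0),
    v 3 * Real.exp (v 2 - v 1) * Real.cos (v 0), v 3 * Real.exp (-v 1 - v 2) * Real.sin (v 0)]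

/-- its Jacobian matrix -/
noncomputable def chartA (v : Fin 4 → ℝ) : Matrix (Fin 4) (Fin 4) ℝ :=
  !![-(v 3 * Real.exp (v 1 + v 2) * Real.cos (v 0)), -(v 3 * Real.exp (v 1 + v 2) * Real.sin (v 0)),
      -(v 3 * Real.exp (v 1 + v 2) * Real.sin (v 0)), -(Real.exp (v 1 + v 2) * Real.sin (v 0));
    -(v 3 * Real.exp (v 1 - v 2) * Real.sin (v 0)), v 3 * Real.exp (v 1 - v 2) * Real.cos (v 0),
      -(v 3 * Real.exp (v 1 - v 2) * Real.cos (v 0)), Real.exp (v 1 - v 2) * Real.cos (v 0);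
    -(v 3 * Real.exp (v 2 - v 1) * Real.sin (v 0)), -(v 3 * Real.exp (v 2 - v 1) * Real.cos (v 0)),
      v 3 * Real.exp (v 2 - v 1) * Real.cos (v 0), Real.exp (v 2 - v 1) * Real.cos (v 0);
    v 3 * Real.exp (-v 1 - v 2) * Real.cos (v 0), -(v 3 * Real.exp (-v 1 - v 2) * Real.sin (v 0)),
      -(v 3 * Real.exp (-v 1 - v 2) * Real.sin (v 0)), Real.exp (-v 1 - v 2) * Real.sin (v 0)]

noncomputable def chartD (v : Fin 4 → ℝ) : (Fin 4 → ℝ) →L[ℝ] (Fin 4 → ℝ) :=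
  LinearMap.toContinuousLinearMap (Matrix.toLin' (chartA v))

theorem chart_hasFDerivAt (v : Fin 4 → ℝ) : HasFDerivAt chartF (chartD v) v := by
  have p : ∀ i : Fin 4, HasFDerivAt (fun w : Fin 4 → ℝ => w i)
      (ContinuousLinearMap.proj (R := ℝ) (φ := fun _ : Fin 4 => ℝ) i) v :=
    fun i => hasFDerivAt_apply i v
  rw [hasFDerivAt_pi']
  intro i
  fin_cases i
  · have h := (((p 3).mul ((p 1).add (p 2)).exp).mul (p 0).sin).neg
    refine HasFDerivAt.congr_fderiv (h.congr_of_eventuallyEq (Eventually.of_forall fun w => ?_)) ?_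
    · simp [chartF]
    · ext w
      simp [chartD, chartA, Matrix.toLin'_apply, dotProduct, Fin.sum_univ_four]
      ring
  · have h := (((p 3).mul ((p 1).sub (p 2)).exp).mul (p 0).cos)
    refine HasFDerivAt.congr_fderiv (h.congr_of_eventuallyEq (Eventually.of_forall fun w => ?_)) ?_
    · simp [chartF]
    · ext w
      simp [chartD, chartA, Matrix.toLin'_apply, dotProduct, Fin.sum_univ_four]
      ring
  · have h := (((p 3).mul ((p 2).sub (p 1)).exp).mul (p 0).cos)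
    refine HasFDerivAt.congr_fderiv (h.congr_of_eventuallyEq (Eventually.of_forall fun w => ?_)) ?_
    · simp [chartF]
    · ext w
      simp [chartD, chartA, Matrix.toLin'_apply, dotProduct, Fin.sum_univ_four]
      ring
  · have h := (((p 3).mul ((p 1).neg.sub (p 2)).exp).mul (p 0).sin)
    refine HasFDerivAt.congr_fderiv (h.congr_of_eventuallyEq (Eventually.of_forall fun w => ?_)) ?_
    · simp [chartF]
    · ext w
      simp [chartD, chartA, Matrix.toLin'_apply, dotProduct, Fin.sum_univ_four]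
      ring

theorem chart_det_aux (s c n e₁ e₂ e₃ e₄ : ℝ) :
    Matrix.det !![-(s * e₁ * c), -(s * e₁ * n), -(s * e₁ * n), -(e₁ * n);
      -(s * e₂ * n), s * e₂ * c, -(s * e₂ * c), e₂ * c;
      -(s * e₃ * n), -(s * e₃ * c), s * e₃ * c, e₃ * c;
      s * e₄ * c, -(s * e₄ * n), -(s * e₄ * n), e₄ * n] =
      -(8 * s ^ 3 * (n * c) * (n ^ 2 + c ^ 2) * (e₁ * e₄) * (e₂ * e₃)) := by
  simp [Matrix.det_succ_row_zero, Fin.sum_univ_succ, Fin.succAbove]
  ring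

theorem chart_det (v : Fin 4 → ℝ) :
    (chartD v).det = -(8 * v 3 ^ 3 * (Real.sin (v 0) * Real.cos (v 0))) := by
  unfold chartD
  rw [LinearMap.det_toContinuousLinearMap, LinearMap.det_toLin', chartA, chart_det_aux,
    Real.sin_sq_add_cos_sq, ← Real.exp_add, ← Real.exp_add]
  simp

/-- the box of parameters -/
def chartS (θ₁ θ₂ : ℝ) : Set (Fin 4 → ℝ) :=
  {v | v 0 ∈ Icc θ₁ θ₂ ∧ v 1 ∈ Icc (0 : ℝ) 1 ∧ v 2 ∈ Icc (0 : ℝ) 1 ∧ v 3 ∈ Icc (1 : ℝ) 2}

theorem chart_measurableSet (θ₁ θ₂ : ℝ) : MeasurableSet (chartS θ₁ θ₂) :=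
  (measurable_pi_apply 0 measurableSet_Icc).inter ((measurable_pi_apply 1 measurableSet_Icc).inter
    ((measurable_pi_apply 2 measurableSet_Icc).inter (measurable_pi_apply 3 measurableSet_Icc)))

theorem chart_inj_aux {s t c c' n n' e₁ e₂ e₃ e₄ f₁ f₂ f₃ f₄ : ℝ} (hs : 0 < s) (ht : 0 < t)
    (hc : 0 < c) (hc' : 0 < c') (hn : n ≠ 0) (h1 : n ^ 2 + c ^ 2 = 1) (h1' : n' ^ 2 + c' ^ 2 = 1)
    (he : e₁ * e₄ = 1) (he' : e₂ * e₃ = 1) (hf : f₁ * f₄ = 1) (hf' : f₂ * f₃ = 1)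
    (p₁ : 0 < e₁) (q₁ : 0 < f₁)
    (a₁ : s * e₁ * n = t * f₁ * n') (a₂ : s * e₂ * c = t * f₂ * c') (a₃ : s * e₃ * c = t * f₃ * c')
    (a₄ : s * e₄ * n = t * f₄ * n') : s = t ∧ n = n' ∧ e₁ = f₁ ∧ e₂ = f₂ := by
  have b₁ : s ^ 2 * n ^ 2 = t ^ 2 * n' ^ 2 := by
    calc s ^ 2 * n ^ 2 = (s * e₁ * n) * (s * e₄ * n) := by linear_combination (-(s ^ 2 * n ^ 2)) * he
      _ = (t * f₁ * n') * (t * f₄ * n') := by rw [a₁, a₄]
      _ = t ^ 2 * n' ^ 2 := by linear_combination (t ^ 2 * n' ^ 2) * hf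
  have b₂ : s ^ 2 * c ^ 2 = t ^ 2 * c' ^ 2 := by
    calc s ^ 2 * c ^ 2 = (s * e₂ * c) * (s * e₃ * c) := by linear_combination (-(s ^ 2 * c ^ 2)) * he'
      _ = (t * f₂ * c') * (t * f₃ * c') := by rw [a₂, a₃]
      _ = t ^ 2 * c' ^ 2 := by linear_combination (t ^ 2 * c' ^ 2) * hf'
  have hst : s = t := by
    have : s ^ 2 = t ^ 2 := by linear_combination b₁ + b₂ - s ^ 2 * h1 + t ^ 2 * h1'
    exact (pow_left_inj₀ hs.le ht.le two_ne_zero).1 this
  subst hst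
  have hs2 : s ^ 2 ≠ 0 := by positivity
  have hcc : c = c' := (pow_left_inj₀ hc.le hc'.le two_ne_zero).1 (mul_left_cancel₀ hs2 b₂)
  subst hcc
  have hn2 : n ^ 2 = n' ^ 2 := mul_left_cancel₀ hs2 b₁
  have a₁' : e₁ * n = f₁ * n' := mul_left_cancel₀ hs.ne' (by linear_combination a₁)
  have hnn : n = n' := by
    rcases sq_eq_sq_iff_eq_or_eq_neg.1 hn2 with h | h
    · exact h
    · exfalso
      have h' : n' = -n := by linarith
      rw [h'] at a₁'
      have : (e₁ + f₁) * n = 0 := by linear_combination a₁'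
      rcases mul_eq_zero.1 this with h0 | h0
      · linarith
      · exact hn h0
  subst hnn
  exact ⟨rfl, rfl, mul_right_cancel₀ hn a₁',
    mul_left_cancel₀ hs.ne' (mul_right_cancel₀ hc.ne' a₂)⟩

theorem chart_injOn {θ₁ θ₂ : ℝ} (h₁ : -(Real.pi / 2) < θ₁) (h₂ : θ₂ < Real.pi / 2)
    (hJ : ∀ θ ∈ Icc θ₁ θ₂, Real.sin θ ≠ 0) : InjOn chartF (chartS θ₁ θ₂) := by
  intro v hv w hw h
  have a₁ := congrFun h 0
  have a₂ := congrFun h 1
  have a₃ := congrFun h 2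
  have a₄ := congrFun h 3
  simp only [chartF, Matrix.cons_val_zero, Matrix.cons_val_one, Matrix.cons_val, neg_inj]
    at a₁ a₂ a₃ a₄
  have hv0 : v 0 ∈ Ioo (-(Real.pi / 2)) (Real.pi / 2) :=
    ⟨h₁.trans_le hv.1.1, hv.1.2.trans_lt h₂⟩
  have hw0 : w 0 ∈ Ioo (-(Real.pi / 2)) (Real.pi / 2) :=
    ⟨h₁.trans_le hw.1.1, hw.1.2.trans_lt h₂⟩
  obtain ⟨b₃, b₀, b₁, b₂⟩ := chart_inj_aux (one_pos.trans_le hv.2.2.2.1)
    (one_pos.trans_le hw.2.2.2.1) (Real.cos_pos_of_mem_Ioo hv0) (Real.cos_pos_of_mem_Ioo hw0)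
    (hJ _ hv.1) (Real.sin_sq_add_cos_sq _) (Real.sin_sq_add_cos_sq _)
    (by rw [← Real.exp_add]; simp) (by rw [← Real.exp_add]; simp) (by rw [← Real.exp_add]; simp)
    (by rw [← Real.exp_add]; simp) (Real.exp_pos _) (Real.exp_pos _) a₁ a₂ a₃ a₄
  have c₀ : v 0 = w 0 := Real.injOn_sin (Ioo_subset_Icc_self hv0) (Ioo_subset_Icc_self hw0) b₀
  have c₁ := Real.exp_injective b₁
  have c₂ := Real.exp_injective b₂
  funext i
  fin_cases i
  · exact c₀
  · show v 1 = w 1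
    linarith
  · show v 2 = w 2
    linarith
  · exact b₃

theorem chart_le {s₀ θ₁ θ₂ : ℝ} (hs₀ : 0 < s₀) (h₁ : -(Real.pi / 2) < θ₁) (h₂ : θ₂ < Real.pi / 2)
    (hJ : ∀ θ ∈ Icc θ₁ θ₂, s₀ ≤ |Real.sin θ * Real.cos θ|) (g : (Fin 4 → ℝ) → ℝ≥0∞) :
    ∫⁻ v in chartS θ₁ θ₂, g (chartF v) ≤ ENNReal.ofReal (1 / s₀) * ∫⁻ w, g w := by
  have hinj : InjOn chartF (chartS θ₁ θ₂) := chart_injOn h₁ h₂ fun θ hθ h0 => by
    have := hJ θ hθ
    rw [h0, zero_mul, abs_zero] at this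
    linarith
  have key := lintegral_image_eq_lintegral_abs_det_fderiv_mul volume (chart_measurableSet θ₁ θ₂)
    (fun v _ => (chart_hasFDerivAt v).hasFDerivWithinAt) hinj g
  calc ∫⁻ v in chartS θ₁ θ₂, g (chartF v)
      ≤ ∫⁻ v in chartS θ₁ θ₂, ENNReal.ofReal (1 / s₀) *
          (ENNReal.ofReal |(chartD v).det| * g (chartF v)) := by
        refine lintegral_mono_ae ?_
        filter_upwards [ae_restrict_mem (chart_measurableSet θ₁ θ₂)] with v hv
        rw [← mul_assoc, ← ENNReal.ofReal_mul (by positivity)]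
        refine le_mul_of_one_le_left (zero_le) ?_
        rw [ENNReal.one_le_ofReal, chart_det, abs_neg, abs_mul, one_div_mul_eq_div,
          one_le_div hs₀]
        have h3 : (1 : ℝ) ≤ v 3 ^ 3 := one_le_pow₀ hv.2.2.2.1
        have h8 : (1 : ℝ) ≤ |8 * v 3 ^ 3| := by
          rw [abs_of_nonneg (by linarith)]
          linarith
        exact (hJ _ hv.1).trans (le_mul_of_one_le_left (abs_nonneg _) h8)
    _ = ENNReal.ofReal (1 / s₀) * ∫⁻ w in chartF '' chartS θ₁ θ₂, g w := by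
        rw [lintegral_const_mul' _ _ ENNReal.ofReal_ne_top, key]
    _ ≤ ENNReal.ofReal (1 / s₀) * ∫⁻ w, g w := by
        gcongr
        exact Measure.restrict_le_self

/-- four real coordinates -/
def chartE (y : (ℝ × ℝ) × (ℝ × ℝ)) : Fin 4 → ℝ := ![y.1.1, y.1.2, y.2.1, y.2.2]

theorem chart_measurable_E : Measurable chartE := by
  refine measurable_pi_iff.2 fun i => ?_
  fin_cases i <;> simp [chartE] <;> fun_prop

theorem chart_mp_E : MeasurePreserving chartE volume volume := by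
  refine ⟨chart_measurable_E, ?_⟩
  symm
  refine Measure.pi_eq fun s hs => ?_
  rw [Measure.map_apply chart_measurable_E (MeasurableSet.univ_pi hs)]
  have : chartE ⁻¹' Set.pi univ s = (s 0 ×ˢ s 1) ×ˢ (s 2 ×ˢ s 3) := by
    ext y
    simp [chartE, Fin.forall_fin_succ, and_assoc]
  rw [this, Measure.volume_eq_prod, Measure.prod_prod, Measure.volume_eq_prod, Measure.prod_prod,
    Measure.prod_prod, Fin.prod_univ_four, mul_assoc, mul_assoc, mul_assoc]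

/-- from coordinates to matrices -/
def chartP (w : Fin 4 → ℝ) : E := (⟨w 0, w 1⟩, ⟨w 2, w 3⟩)

theorem chart_measurable_P : Measurable chartP := by
  have h : ∀ i j : Fin 4, Measurable fun w : Fin 4 → ℝ => (⟨w i, w j⟩ : ℂ) := fun i j =>
    Complex.measurableEquivRealProd.symm.measurable.comp
      (f := fun w : Fin 4 → ℝ => (w i, w j))
      ((measurable_pi_apply i).prodMk (measurable_pi_apply j))
  exact (h 0 1).prodMk (h 2 3)

theorem chart_lintegral_P {G : E → ℝ≥0∞} (hG : Measurable G) :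
    ∫⁻ w, G (chartP w) = ∫⁻ M, G M := by
  rw [← chart_mp_E.lintegral_comp (f := fun w => G (chartP w)) (hG.comp chart_measurable_P)]
  have hq := Complex.volume_preserving_equiv_real_prod.symm
  exact (hq.prod hq).lintegral_comp hG

theorem chart_eq (θ a b s : ℝ) :
    chartP (chartF (chartE ((θ, a), (b, s)))) = s • fl b (rot θ (fl (-a) one)) := by
  obtain ⟨p₁, p₂, p₃, p₄⟩ := fl_apply (-a) one
  obtain ⟨q₁, q₂, q₃, q₄⟩ := rot_apply θ (fl (-a) one)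
  obtain ⟨r₁, r₂, r₃, r₄⟩ := fl_apply b (rot θ (fl (-a) one))
  rw [p₁, p₂] at q₁ q₂
  rw [p₃, p₄] at q₃ q₄
  rw [q₁] at r₁
  rw [q₂] at r₂
  rw [q₃] at r₃
  rw [q₄] at r₄
  refine Prod.ext (Complex.ext ?_ ?_) (Complex.ext ?_ ?_)
  · rw [Prod.smul_fst, Complex.smul_re, r₁]
    simp [chartP, chartF, chartE, one, Real.exp_add]
    ring
  · rw [Prod.smul_fst, Complex.smul_im, r₂]
    simp [chartP, chartF, chartE, one, sub_eq_add_neg, Real.exp_add]
    ring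
  · rw [Prod.smul_snd, Complex.smul_re, r₃]
    simp [chartP, chartF, chartE, one, sub_eq_add_neg, Real.exp_add]
    ring
  · rw [Prod.smul_snd, Complex.smul_im, r₄]
    simp [chartP, chartF, chartE, one, sub_eq_add_neg, Real.exp_add]
    ring

/-- the chart `s · a(-a) k(θ) a(b)` has Jacobian `8 s³ |sin θ cos θ|` -/
theorem chart {s₀ θ₁ θ₂ : ℝ} (hs₀ : 0 < s₀) (h₁ : -(Real.pi / 2) < θ₁) (h₂ : θ₂ < Real.pi / 2)
    (hJ : ∀ θ ∈ Icc θ₁ θ₂, s₀ ≤ |Real.sin θ * Real.cos θ|) {G : E → ℝ≥0∞} (hG : Measurable G) :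
    ∫⁻ θ in Icc θ₁ θ₂, ∫⁻ a in Icc (0 : ℝ) 1, ∫⁻ b in Icc (0 : ℝ) 1, ∫⁻ s in Icc (1 : ℝ) 2,
      G (s • fl b (rot θ (fl (-a) one))) ≤ ENNReal.ofReal (1 / s₀) * ∫⁻ M, G M := by
  have hF : Measurable chartF :=
    (continuous_iff_continuousAt.2 fun v => (chart_hasFDerivAt v).continuousAt).measurable
  have hg : Measurable fun v => G (chartP (chartF v)) := hG.comp (chart_measurable_P.comp hF)
  have hy : Measurable fun y => G (chartP (chartF (chartE y))) := hg.comp chart_measurable_E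
  have key := chart_le hs₀ h₁ h₂ hJ fun w => G (chartP w)
  rw [chart_lintegral_P hG, ← chart_mp_E.setLIntegral_comp_preimage (chart_measurableSet θ₁ θ₂) hg]
    at key
  have hS : chartE ⁻¹' chartS θ₁ θ₂ =
      (Icc θ₁ θ₂ ×ˢ Icc (0 : ℝ) 1) ×ˢ (Icc (0 : ℝ) 1 ×ˢ Icc (1 : ℝ) 2) := by
    ext y
    simp only [chartE, chartS, mem_preimage, mem_ofPred_eq, mem_prod, Matrix.cons_val_zero,
      Matrix.cons_val_one, Matrix.cons_val, and_assoc]
  rw [hS, Measure.volume_eq_prod, ← Measure.prod_restrict, lintegral_prod _ hy.aemeasurable,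
    Measure.volume_eq_prod, ← Measure.prod_restrict, ← Measure.prod_restrict,
    lintegral_prod _ hy.lintegral_prod_right'.aemeasurable] at key
  refine le_of_eq_of_le ?_ key
  refine lintegral_congr fun θ => lintegral_congr fun a => ?_
  rw [lintegral_prod (fun y => G (chartP (chartF (chartE ((θ, a), y)))))
    (hy.comp measurable_prodMk_left).aemeasurable]
  simp only [chart_eq]

end Pool.Agent.MP_a28cf0_nt.Cub

end

-- part MP_a28cf0_nt.Cub.Bil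
section

set_option autoImplicit false

namespace Pool.Agent.MP_a28cf0_nt.Cub

open MeasureTheory Complex Filter Topology Set
open scoped ENNReal MatrixGroups

/-- the inner integrand after the substitution -/
noncomputable def bilF (Q : Set E) (G₁ : E → ℝ≥0∞) (θ a : ℝ) (M : E) : ℝ≥0∞ :=
  Q.indicator (fun N => ∫⁻ b in Icc (0 : ℝ) 1, G₁ (fl b (rot θ N))) (fl (-a) M)

theorem bil_meas_inner {G₁ : E → ℝ≥0∞} (mG₁ : Measurable G₁) :
    Measurable fun p : ℝ × E => ∫⁻ b in Icc (0 : ℝ) 1, G₁ (fl b (rot p.1 p.2)) := by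
  have h : Measurable fun q : (ℝ × E) × ℝ => G₁ (fl q.2 (rot q.1.1 q.1.2)) :=
    mG₁.comp (Continuous.measurable (by fun_prop))
  exact h.lintegral_prod_right'

theorem bil_meas {X : Type} [MeasurableSpace X] {Q : Set E} (hQ : MeasurableSet Q)
    {G₁ : E → ℝ≥0∞} (mG₁ : Measurable G₁) {u v : X → ℝ} {w : X → E} (hu : Measurable u)
    (hv : Measurable v) (hw : Measurable w) :
    Measurable fun p : X => bilF Q G₁ (u p) (v p) (w p) := by
  have h0 : Measurable fun q : ℝ × E => fl (-q.1) q.2 := Continuous.measurable (by fun_prop)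
  have h1 := h0.comp (hv.prodMk hw)
  have h2 := (bil_meas_inner mG₁).comp (hu.prodMk h1)
  have h3 := h2.indicator (h1 hQ)
  have e : (fun p : X => bilF Q G₁ (u p) (v p) (w p)) =
      (((fun q : ℝ × E => fl (-q.1) q.2) ∘ fun a => (v a, w a)) ⁻¹' Q).indicator
        ((fun p : ℝ × E => ∫⁻ b in Icc (0 : ℝ) 1, G₁ (fl b (rot p.1 p.2))) ∘ fun a =>
          (u a, ((fun q : ℝ × E => fl (-q.1) q.2) ∘ fun a => (v a, w a)) a)) := by
    funext p
    by_cases h : fl (-v p) (w p) ∈ Q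
    · rw [bilF, Set.indicator_of_mem h, Set.indicator_of_mem (by exact h)]
      rfl
    · rw [bilF, Set.indicator_of_notMem h, Set.indicator_of_notMem (by exact h)]
  rw [e]
  exact h3

/-- the chart applied at a point of the shell -/
theorem bil_key {s₀ θ₁ θ₂ : ℝ} (hs₀ : 0 < s₀) (h₁ : -(Real.pi / 2) < θ₁) (h₂ : θ₂ < Real.pi / 2)
    (hJ : ∀ θ ∈ Icc θ₁ θ₂, s₀ ≤ |Real.sin θ * Real.cos θ|) {Q : Set E} (hQ : IsCompact Q)
    {G₁ : E → ℝ≥0∞} (mG₁ : Measurable G₁)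
    (hom : ∀ (s : ℝ) (M : E), 0 < s → G₁ (s • M) = G₁ M) {M : E} (hM : M ∈ Sh) :
    ∫⁻ θ in Icc θ₁ θ₂, ∫⁻ a in Icc (0 : ℝ) 1, bilF Q G₁ θ a M ≤
      ENNReal.ofReal (1 / s₀) * (nu.withDensity G₁) (Prod.mk M ⁻¹' Zs Q (Icc θ₁ θ₂)) := by
  have hZ : MeasurableSet (Zs Q (Icc θ₁ θ₂)) := (isCompact_Zs hQ isCompact_Icc).measurableSet
  have hZM : MeasurableSet (Prod.mk M ⁻¹' Zs Q (Icc θ₁ θ₂)) := measurable_prodMk_left hZ
  obtain ⟨hM1, hM4⟩ := hM
  set r := √(dt M) with hr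
  have hr2 : r ^ 2 = dt M := Real.sq_sqrt (by linarith)
  have hr1 : 1 ≤ r := Real.one_le_sqrt.mpr hM1
  have hr4 : r ≤ 2 := by
    rw [hr, Real.sqrt_le_left (by norm_num)]; linarith
  have hr0 : 0 < r := by linarith
  set g : E := r⁻¹ • M with hg
  have hdg : dt g = 1 := by
    rw [hg, dt_smul, ← hr2]; field_simp
  set Gz : E → ℝ≥0∞ := ((Prod.mk M ⁻¹' Zs Q (Icc θ₁ θ₂)) ∩ Sh).indicator G₁ with hGz
  have mGz : Measurable Gz := mG₁.indicator (hZM.inter measurableSet_Sh)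
  have hc := chart hs₀ h₁ h₂ hJ (G := fun N => Gz (mul g N)) (mGz.comp (mp_mul hdg).measurable)
  rw [(mp_mul hdg).lintegral_comp mGz, hGz, lintegral_indicator (hZM.inter measurableSet_Sh)] at hc
  rw [withDensity_apply _ hZM, nu, Measure.restrict_restrict hZM]
  refine le_trans ?_ hc
  refine setLIntegral_mono' measurableSet_Icc fun θ hθ => ?_
  refine setLIntegral_mono' measurableSet_Icc fun a ha => ?_
  unfold bilF
  by_cases hq : fl (-a) M ∈ Q
  · rw [Set.indicator_of_mem hq]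
    refine setLIntegral_mono' measurableSet_Icc fun b hb => ?_
    have e1 : G₁ (fl b (rot θ (fl (-a) M))) =
        ∫⁻ _ in Icc (1 : ℝ) 2, G₁ (fl b (rot θ (fl (-a) M))) := by
      rw [setLIntegral_const, Real.volume_Icc]
      norm_num
    rw [e1]
    refine setLIntegral_mono' measurableSet_Icc fun s hs => ?_
    have e2 : mul g (s • fl b (rot θ (fl (-a) one))) =
        (s * r⁻¹) • fl b (rot θ (fl (-a) M)) := by
      rw [mul_smul', mul_fl, mul_rot, mul_fl, mul_one', hg, fl_smul, rot_smul, fl_smul, smul_smul]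
    have hsr : 0 < s * r⁻¹ := mul_pos (by linarith [hs.1]) (inv_pos.mpr hr0)
    have hmem : (s * r⁻¹) • fl b (rot θ (fl (-a) M)) ∈
        (Prod.mk M ⁻¹' Zs Q (Icc θ₁ θ₂)) ∩ Sh := by
      refine ⟨⟨fl (-a) M, hq, a, ha, b, hb, θ, hθ, s * r⁻¹, ⟨?_, ?_⟩, ?_, rfl⟩, ?_⟩
      · rw [← div_eq_mul_inv, le_div_iff₀ hr0]; linarith [hs.1]
      · rw [← div_eq_mul_inv, div_le_iff₀ hr0]; linarith [hs.2]
      · simp only [fl_fl, add_neg_cancel, fl_zero]
      · have e3 : dt ((s * r⁻¹) • fl b (rot θ (fl (-a) M))) = s ^ 2 := by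
          rw [dt_smul, dt_fl, dt_rot, dt_fl, ← hr2]; field_simp
        constructor
        · rw [e3]; nlinarith [hs.1]
        · rw [e3]; nlinarith [hs.1, hs.2]
    rw [e2, Set.indicator_of_mem hmem, hom _ _ hsr]
  · rw [Set.indicator_of_notMem hq]
    exact zero_le

/-- the estimate at a fixed angle -/
theorem bil_angle {Q : Set E} (hQ : IsCompact Q)
    (hs : Q ⊆ Sh) {G₁ G₃ H₁ H₃ : E → ℝ≥0∞} (mG₁ : Measurable G₁) (mG₃ : Measurable G₃)
    (b₁ : ∀ M ∈ Gp, H₁ M ≤ 2 * ∫⁻ b in Icc (0 : ℝ) 1, G₁ (fl b M))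
    (b₃ : ∀ M ∈ Gp, H₃ M ≤ 2 * ∫⁻ a in Icc (0 : ℝ) 1, G₃ (fl a M)) (θ : ℝ) :
    ∫⁻ M in Q, H₁ (rot θ M) * H₃ M ∂nu ≤
      4 * ∫⁻ M, G₃ M * ∫⁻ a in Icc (0 : ℝ) 1, bilF Q G₁ θ a M ∂volume ∂nu := by
  have hQm : MeasurableSet Q := hQ.measurableSet
  have mfl : Measurable fun p : ℝ × E => fl p.1 p.2 := Continuous.measurable (by fun_prop)
  have mK : Measurable fun p : ℝ × E => G₃ p.2 * bilF Q G₁ θ p.1 p.2 :=
    (mG₃.comp measurable_snd).mul (bil_meas hQm mG₁ measurable_const measurable_fst measurable_snd)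
  have mL : Measurable fun p : ℝ × E => G₃ (fl p.1 p.2) * bilF Q G₁ θ p.1 (fl p.1 p.2) :=
    (mG₃.comp mfl).mul (bil_meas hQm mG₁ measurable_const measurable_fst mfl)
  have e1 : ∫⁻ M, G₃ M * ∫⁻ a in Icc (0 : ℝ) 1, bilF Q G₁ θ a M ∂volume ∂nu =
      ∫⁻ M, ∫⁻ a in Icc (0 : ℝ) 1, G₃ (fl a M) * bilF Q G₁ θ a (fl a M) ∂volume ∂nu := by
    have a1 : ∀ M, G₃ M * ∫⁻ a in Icc (0 : ℝ) 1, bilF Q G₁ θ a M =
        ∫⁻ a in Icc (0 : ℝ) 1, G₃ M * bilF Q G₁ θ a M := fun M =>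
      (lintegral_const_mul _ (bil_meas hQm mG₁ measurable_const measurable_id' measurable_const)).symm
    simp only [a1]
    rw [← lintegral_lintegral_swap (f := fun a M => G₃ M * bilF Q G₁ θ a M) mK.aemeasurable,
      ← lintegral_lintegral_swap (f := fun a M => G₃ (fl a M) * bilF Q G₁ θ a (fl a M))
        mL.aemeasurable]
    refine lintegral_congr fun a => ?_
    exact ((mp_fl a).lintegral_comp (f := fun M => G₃ M * bilF Q G₁ θ a M)
      (mG₃.mul (bil_meas hQm mG₁ measurable_const measurable_const measurable_id'))).symm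
  rw [e1, ← lintegral_const_mul' _ _ (by norm_num), ← lintegral_indicator hQm]
  refine lintegral_mono fun M => ?_
  by_cases hq : M ∈ Q
  · rw [Set.indicator_of_mem hq]
    have hG : M ∈ Gp := Sh_subset (hs hq)
    have hG' : rot θ M ∈ Gp := by
      show 0 < dt (rot θ M)
      rw [dt_rot]; exact hG
    have e2 : ∀ a, bilF Q G₁ θ a (fl a M) = ∫⁻ b in Icc (0 : ℝ) 1, G₁ (fl b (rot θ M)) := by
      intro a
      unfold bilF
      rw [fl_fl, neg_add_cancel, fl_zero, Set.indicator_of_mem hq]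
    simp only [e2]
    rw [lintegral_mul_const _ (f := fun a => G₃ (fl a M))
      (mG₃.comp (Continuous.measurable (by fun_prop)))]
    calc H₁ (rot θ M) * H₃ M ≤ (2 * ∫⁻ b in Icc (0 : ℝ) 1, G₁ (fl b (rot θ M))) *
          (2 * ∫⁻ a in Icc (0 : ℝ) 1, G₃ (fl a M)) := mul_le_mul' (b₁ _ hG') (b₃ _ hG)
      _ = _ := by ring
  · rw [Set.indicator_of_notMem hq]
    exact zero_le

/-- the bilinear estimate -/
theorem bil {s₀ θ₁ θ₂ : ℝ} (hs₀ : 0 < s₀) (h₁ : -(Real.pi / 2) < θ₁) (h₂ : θ₂ < Real.pi / 2)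
    (hJ : ∀ θ ∈ Icc θ₁ θ₂, s₀ ≤ |Real.sin θ * Real.cos θ|) {Q : Set E} (hQ : IsCompact Q)
    (hs : Q ⊆ Sh) {G₁ G₃ H₁ H₃ : E → ℝ≥0∞} (mG₁ : Measurable G₁) (mG₃ : Measurable G₃)
    (mH₁ : Measurable H₁) (mH₃ : Measurable H₃)
    (hom : ∀ (s : ℝ) (M : E), 0 < s → G₁ (s • M) = G₁ M)
    (b₁ : ∀ M ∈ Gp, H₁ M ≤ 2 * ∫⁻ b in Icc (0 : ℝ) 1, G₁ (fl b M))
    (b₃ : ∀ M ∈ Gp, H₃ M ≤ 2 * ∫⁻ a in Icc (0 : ℝ) 1, G₃ (fl a M)) :
    ∫⁻ θ in Icc θ₁ θ₂, ∫⁻ M in Q, H₁ (rot θ M) * H₃ M ∂nu ≤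
      ENNReal.ofReal (4 / s₀) *
        ((nu.withDensity G₃).prod (nu.withDensity G₁)) (Zs Q (Icc θ₁ θ₂)) := by
  have hQm : MeasurableSet Q := hQ.measurableSet
  have hZ : MeasurableSet (Zs Q (Icc θ₁ θ₂)) := (isCompact_Zs hQ isCompact_Icc).measurableSet
  have mA : Measurable fun p : ℝ × E => ∫⁻ a in Icc (0 : ℝ) 1, bilF Q G₁ p.1 a p.2 := by
    have h : Measurable fun q : (ℝ × E) × ℝ => bilF Q G₁ q.1.1 q.2 q.1.2 :=
      bil_meas hQm mG₁ measurable_fst.fst measurable_snd measurable_fst.snd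
    exact h.lintegral_prod_right'
  have mA' : ∀ M : E, Measurable fun θ : ℝ => ∫⁻ a in Icc (0 : ℝ) 1, bilF Q G₁ θ a M := by
    intro M
    have h : Measurable fun q : ℝ × ℝ => bilF Q G₁ q.1 q.2 M :=
      bil_meas hQm mG₁ measurable_fst measurable_snd measurable_const
    exact h.lintegral_prod_right'
  have mB : Measurable fun p : ℝ × E =>
      G₃ p.2 * ∫⁻ a in Icc (0 : ℝ) 1, bilF Q G₁ p.1 a p.2 := (mG₃.comp measurable_snd).mul mA
  have mC : Measurable fun M : E => (nu.withDensity G₁) (Prod.mk M ⁻¹' Zs Q (Icc θ₁ θ₂)) :=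
    measurable_measure_prodMk_left hZ
  have e4 : ENNReal.ofReal (4 / s₀) = 4 * ENNReal.ofReal (1 / s₀) := by
    rw [show 4 / s₀ = 4 * (1 / s₀) by ring, ENNReal.ofReal_mul (by norm_num)]
    norm_num
  rw [Measure.prod_apply hZ, lintegral_withDensity_eq_lintegral_mul _ mG₃ mC, e4, mul_assoc]
  calc ∫⁻ θ in Icc θ₁ θ₂, ∫⁻ M in Q, H₁ (rot θ M) * H₃ M ∂nu
      ≤ ∫⁻ θ in Icc θ₁ θ₂,
          4 * ∫⁻ M, G₃ M * ∫⁻ a in Icc (0 : ℝ) 1, bilF Q G₁ θ a M ∂volume ∂nu :=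
        lintegral_mono fun θ => bil_angle hQ hs mG₁ mG₃ b₁ b₃ θ
    _ = 4 * ∫⁻ M, ∫⁻ θ in Icc θ₁ θ₂,
          G₃ M * ∫⁻ a in Icc (0 : ℝ) 1, bilF Q G₁ θ a M ∂volume ∂volume ∂nu := by
        rw [lintegral_const_mul' _ _ (by norm_num), lintegral_lintegral_swap
          (f := fun θ M => G₃ M * ∫⁻ a in Icc (0 : ℝ) 1, bilF Q G₁ θ a M) mB.aemeasurable]
    _ ≤ _ := by
        gcongr
        rw [← lintegral_const_mul' _ _ ENNReal.ofReal_ne_top]
        refine lintegral_mono_ae (ae_mem_Sh.mono fun M hM => ?_)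
        rw [lintegral_const_mul _ (f := fun θ => ∫⁻ a in Icc (0 : ℝ) 1, bilF Q G₁ θ a M)
          (mA' M), Pi.mul_apply, mul_left_comm]
        gcongr
        exact bil_key hs₀ h₁ h₂ hJ hQ mG₁ hom hM

end Pool.Agent.MP_a28cf0_nt.Cub

end

-- part MP_a28cf0_nt.Cub.Crude
section

set_option autoImplicit false

namespace Pool.Agent.MP_a28cf0_nt.Cub

open MeasureTheory Complex Filter Topology Set
open scoped ENNReal MatrixGroups

/-- the squared modulus of a member of the system -/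
noncomputable def crudeU (Φ : ℤ → E → ℂ) (m : ℤ) (M : E) : ℝ≥0∞ := ENNReal.ofReal (‖Φ m M‖ ^ 2)

/-- sum over three neighbouring indices -/
noncomputable def crudeT (V : ℤ → E → ℝ≥0∞) (m : ℤ) (M : E) : ℝ≥0∞ :=
  V (m - 1) M + V m M + V (m + 1) M

lemma crude_measU {t : ℝ} {Φ : ℤ → E → ℂ} (h : Sys t Φ) (m : ℤ) : Measurable (crudeU Φ m) :=
  ((h.meas m).norm.pow_const 2).ennreal_ofReal

lemma crude_measT {V : ℤ → E → ℝ≥0∞} (h : ∀ m, Measurable (V m)) (m : ℤ) :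
    Measurable (crudeT V m) :=
  ((h _).add (h _)).add (h _)

lemma crude_fl_mem {M : E} (hM : M ∈ Gp) (s : ℝ) : fl s M ∈ Gp := by
  show 0 < dt _
  rw [dt_fl]; exact hM

lemma crude_rot_mem {M : E} (hM : M ∈ Gp) (s : ℝ) : rot s M ∈ Gp := by
  show 0 < dt _
  rw [dt_rot]; exact hM

lemma crude_rotU {t : ℝ} {Φ : ℤ → E → ℂ} (h : Sys t Φ) (m : ℤ) (θ : ℝ) (M : E) :
    crudeU Φ m (rot θ M) = crudeU Φ m M := by
  have : (2 * m * θ * I : ℂ) = ((2 * m * θ : ℝ) : ℂ) * I := by push_cast; ring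
  simp only [crudeU, h.wt, norm_mul, this, Complex.norm_exp_ofReal_mul_I, one_mul]

lemma crude_step {t L σ : ℝ} {Φ : ℤ → E → ℂ} (h : Sys t Φ) (hσ : |σ| = 1) (hL : 1 ≤ L) {m : ℤ}
    (h1 : lam t m ≤ L) (h2 : lam t (m - 1) ≤ L) {M : E} (hM : M ∈ Gp) :
    crudeU Φ m M ≤ ENNReal.ofReal (2 * L ^ 2) *
      ∫⁻ s in Icc (0 : ℝ) 1, crudeT (crudeU Φ) m (fl (σ * s) M) := by
  have hc : ∀ j, Continuous fun s : ℝ => Φ j (fl (σ * s) M) := fun j =>
    (h.cont j).comp_continuous (by fun_prop) fun s => crude_fl_mem hM _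
  set D : ℝ → ℂ := fun s => σ • (I * lam t m * Φ (m + 1) (fl (σ * s) M) +
    I * lam t (m - 1) * Φ (m - 1) (fl (σ * s) M)) with hD
  have cD : Continuous D :=
    ((continuous_const.mul (hc _)).add (continuous_const.mul (hc _))).const_smul σ
  have hd : ∀ s, HasDerivAt (fun s : ℝ => Φ m (fl (σ * s) M)) (D s) s := fun s => by
    have hm := crude_fl_mem hM (σ * s)
    have h3 := hasDerivAt_fl (h.diffAt m hm)
    rw [X1_eq, h.ra m _ hm, h.lo m _ hm] at h3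
    have h4 : HasDerivAt (fun s : ℝ => σ * s) σ s := by simpa using (hasDerivAt_id s).const_mul σ
    exact h3.scomp s h4
  have key := lemma1D (fun s => (hd s).norm_sq)
    (continuous_const.mul ((hc m).inner cD))
  simp only [mul_zero, fl_zero] at key
  set W : ℝ → ℝ := fun s => ‖Φ (m - 1) (fl (σ * s) M)‖ ^ 2 + ‖Φ m (fl (σ * s) M)‖ ^ 2 +
    ‖Φ (m + 1) (fl (σ * s) M)‖ ^ 2 with hW
  have cW : Continuous W :=
    (((hc _).norm.pow 2).add ((hc _).norm.pow 2)).add ((hc _).norm.pow 2)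
  have W0 : ∀ s, 0 ≤ W s := fun s => by positivity
  have hb : ∀ s, ‖Φ m (fl (σ * s) M)‖ ^ 2 + |2 * inner ℝ (Φ m (fl (σ * s) M)) (D s)| ≤
      2 * L ^ 2 * W s := fun s => by
    have e1 := abs_real_inner_le_norm (Φ m (fl (σ * s) M)) (D s)
    have e2 : ‖D s‖ ≤ L * (‖Φ (m + 1) (fl (σ * s) M)‖ + ‖Φ (m - 1) (fl (σ * s) M)‖) := by
      simp only [hD, norm_smul, Real.norm_eq_abs, hσ, one_mul]
      refine (norm_add_le _ _).trans ?_
      simp only [norm_mul, Complex.norm_I, one_mul, Complex.norm_real, Real.norm_eq_abs,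
        abs_of_pos (lam_pos _ _), mul_add]
      gcongr
    rw [abs_mul, abs_two]
    simp only [hW]
    generalize ‖Φ m (fl (σ * s) M)‖ = x at *
    have y0 := norm_nonneg (Φ (m + 1) (fl (σ * s) M))
    have z0 := norm_nonneg (Φ (m - 1) (fl (σ * s) M))
    generalize ‖Φ (m + 1) (fl (σ * s) M)‖ = y at *
    generalize ‖Φ (m - 1) (fl (σ * s) M)‖ = z at *
    have d0 := norm_nonneg (D s)
    generalize ‖D s‖ = d at *
    have e3 : d ^ 2 ≤ (L * (y + z)) ^ 2 := by gcongr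
    have e4 : (L * (y + z)) ^ 2 ≤ 2 * L ^ 2 * (y ^ 2 + z ^ 2) := by
      nlinarith [mul_nonneg (sq_nonneg L) (sq_nonneg (y - z))]
    have e5 : x ^ 2 ≤ L ^ 2 * x ^ 2 := le_mul_of_one_le_left (sq_nonneg x) (one_le_pow₀ hL)
    nlinarith [sq_nonneg (x - d)]
  have i1 : IntegrableOn (fun s => 2 * L ^ 2 * W s) (Icc (0 : ℝ) 1) :=
    (continuous_const.mul cW).integrableOn_Icc
  have k2 := key.trans (integral_mono ((((hc m).norm.pow 2).add
    (continuous_const.mul ((hc m).inner cD)).abs).integrableOn_Icc) i1 hb)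
  refine (ENNReal.ofReal_le_ofReal k2).trans (le_of_eq ?_)
  rw [ofReal_integral_eq_lintegral_ofReal i1 (.of_forall fun s => by positivity),
    ← lintegral_const_mul' _ _ ENNReal.ofReal_ne_top]
  refine lintegral_congr fun s => ?_
  rw [ENNReal.ofReal_mul (by positivity), hW]
  simp only [crudeT, crudeU]
  rw [ENNReal.ofReal_add (by positivity) (by positivity),
    ENNReal.ofReal_add (by positivity) (by positivity)]

lemma crude_step2 {t L : ℝ} {Φ : ℤ → E → ℂ} (h : Sys t Φ) (hL : 1 ≤ L) {m : ℤ}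
    (h1 : ∀ j : ℤ, m - 2 ≤ j → j ≤ m + 2 → lam t j ≤ L) {M : E} (hM : M ∈ Gp) :
    crudeT (crudeU Φ) m M ≤ ENNReal.ofReal (2 * L ^ 2) *
      ∫⁻ s in Icc (0 : ℝ) 1, crudeT (crudeT (crudeU Φ)) m (fl s M) := by
  have hm : ∀ j, Measurable fun s : ℝ => crudeT (crudeU Φ) j (fl s M) := fun j =>
    (crude_measT (crude_measU h) j).comp (by fun_prop : Continuous fun s : ℝ => fl s M).measurable
  have hs : ∀ j : ℤ, m - 1 ≤ j → j ≤ m + 1 → crudeU Φ j M ≤ ENNReal.ofReal (2 * L ^ 2) *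
      ∫⁻ s in Icc (0 : ℝ) 1, crudeT (crudeU Φ) j (fl s M) := fun j a b => by
    simpa using crude_step h (σ := 1) (by simp) hL (h1 j (by omega) (by omega))
      (h1 (j - 1) (by omega) (by omega)) hM
  rw [show (fun s : ℝ => crudeT (crudeT (crudeU Φ)) m (fl s M)) = fun s =>
    crudeT (crudeU Φ) (m - 1) (fl s M) + crudeT (crudeU Φ) m (fl s M) +
      crudeT (crudeU Φ) (m + 1) (fl s M) from rfl,
    lintegral_add_right _ (hm _), lintegral_add_right _ (hm _), mul_add, mul_add]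
  exact add_le_add (add_le_add (hs _ (by omega) (by omega)) (hs _ (by omega) (by omega)))
    (hs _ (by omega) (by omega))

lemma crude_angle : ∀ θ ∈ Icc (1 / 2 : ℝ) 1, (1 / 8 : ℝ) ≤ |Real.sin θ * Real.cos θ| := by
  rintro θ ⟨h1, h2⟩
  have e1 := Real.sin_gt_sub_cube (by linarith : 0 < θ)
  have e2 := Real.one_sub_sq_div_two_le_cos (x := θ)
  have e3 : θ ^ 2 ≤ 1 := by nlinarith
  have e4 : (1 / 4 : ℝ) ≤ Real.sin θ := by nlinarith
  have e5 : (1 / 2 : ℝ) ≤ Real.cos θ := by linarith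
  exact le_trans (by nlinarith) (le_abs_self _)

/-- the averaging over the chart -/
lemma crude_chart {ρ : ℝ} {H : E → ℝ≥0∞} (mH : Measurable H)
    (hom : ∀ (s : ℝ) (M : E), 0 < s → H (s • M) = H M) {M : E} (hM : M ∈ Bl ρ) :
    ∫⁻ θ in Icc (1 / 2 : ℝ) 1, ∫⁻ a in Icc (0 : ℝ) 1, ∫⁻ b in Icc (0 : ℝ) 1,
      H (fl b (rot θ (fl (-a) M))) ≤ 8 * ∫⁻ N in Bl (2 * (3 * (3 * ρ))), H N ∂nu := by
  obtain ⟨⟨d1, -⟩, hρ⟩ := hM
  rw [mem_closedBall_zero_iff] at hρ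
  have r1 : 1 ≤ √(dt M) := Real.one_le_sqrt.2 d1
  have r0 : 0 < √(dt M) := by linarith
  set g : E := (√(dt M))⁻¹ • M with hg
  have dg : dt g = 1 := by
    rw [hg, dt_smul, inv_pow, Real.sq_sqrt (by linarith), inv_mul_cancel₀ (by linarith)]
  have ng : ‖g‖ ≤ ρ := by
    rw [hg, norm_smul, Real.norm_eq_abs, abs_of_pos (inv_pos.2 r0)]
    exact (mul_le_of_le_one_left (norm_nonneg _) (inv_le_one_of_one_le₀ r1)).trans hρ
  have mI := mH.indicator (measurableSet_Bl (2 * (3 * (3 * ρ))))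
  have pi1 : (1 : ℝ) < Real.pi / 2 := by linarith [Real.pi_gt_three]
  have key := chart (s₀ := 1 / 8) (θ₁ := 1 / 2) (θ₂ := 1) (by norm_num) (by linarith) pi1
    crude_angle (mI.comp (mp_mul dg).measurable)
  have e1 : ∫⁻ N, ((Bl (2 * (3 * (3 * ρ)))).indicator H ∘ mul g) N =
      ∫⁻ N in Bl (2 * (3 * (3 * ρ))), H N ∂nu := by
    have := (mp_mul dg).lintegral_comp mI
    simp only [Function.comp_def]
    rw [this, lintegral_indicator (measurableSet_Bl _), nu,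
      Measure.restrict_restrict (measurableSet_Bl _),
      inter_eq_left.2 (show Bl _ ⊆ Sh from inter_subset_left)]
  rw [e1, show ENNReal.ofReal (1 / (1 / 8)) = 8 by norm_num] at key
  refine le_trans (le_of_eq ?_) key
  refine lintegral_congr fun θ => setLIntegral_congr_fun measurableSet_Icc fun a ha =>
    setLIntegral_congr_fun measurableSet_Icc fun b hb => ?_
  have e3 : ∀ x ∈ Icc (0 : ℝ) 1, Real.exp x ≤ 3 := fun x hx =>
    (Real.exp_le_exp.2 hx.2).trans (Real.exp_one_lt_d9.le.trans (by norm_num))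
  have nP : ‖fl b (rot θ (fl (-a) g))‖ ≤ 3 * (3 * ρ) := by
    refine (norm_fl_le _ _).trans ?_
    rw [norm_rot, abs_of_nonneg hb.1]
    refine mul_le_mul (e3 b hb) ((norm_fl_le _ _).trans ?_) (norm_nonneg _) (by norm_num)
    rw [abs_neg, abs_of_nonneg ha.1]
    exact mul_le_mul (e3 a ha) ng (norm_nonneg _) (by norm_num)
  have e2 : ∀ s ∈ Icc (1 : ℝ) 2, ((Bl (2 * (3 * (3 * ρ)))).indicator H ∘ mul g)
      (s • fl b (rot θ (fl (-a) one))) = H (fl b (rot θ (fl (-a) M))) := fun s hs => by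
    have s0 : 0 < s := by linarith [hs.1]
    have hP : s • fl b (rot θ (fl (-a) g)) ∈ Bl (2 * (3 * (3 * ρ))) := by
      refine ⟨?_, ?_⟩
      · show 1 ≤ dt _ ∧ dt _ ≤ 4
        rw [dt_smul, dt_fl, dt_rot, dt_fl, dg]
        constructor <;> nlinarith [hs.1, hs.2]
      · rw [mem_closedBall_zero_iff, norm_smul, Real.norm_eq_abs, abs_of_pos s0]
        exact mul_le_mul hs.2 nP (norm_nonneg _) (by norm_num)
    simp only [Function.comp_apply, mul_smul', mul_fl, mul_rot, mul_one']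
    rw [indicator_of_mem hP, hom _ _ s0, hg, fl_smul, rot_smul, fl_smul, hom _ _ (inv_pos.2 r0)]
  show _ = ∫⁻ s in Icc (1 : ℝ) 2, _
  rw [setLIntegral_congr_fun measurableSet_Icc e2]
  norm_num

lemma crude_lam {t K : ℝ} (ht : 1 ≤ t) {m j : ℤ} (hm : |(m : ℝ)| ≤ K * √t) (h1 : m - 2 ≤ j)
    (h2 : j ≤ m + 2) : lam t j ≤ (|K| + 4) * t ∧ |(j : ℝ)| ≤ (|K| + 2) * √t := by
  have r1 : 1 ≤ √t := Real.one_le_sqrt.2 ht
  have r2 : √t ≤ t := Real.sqrt_le_self_iff.2 (Or.inr ht)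
  have a1 : ((m : ℝ) - 2) ≤ j := by exact_mod_cast h1
  have a2 : (j : ℝ) ≤ m + 2 := by exact_mod_cast h2
  have a3 : K * √t ≤ |K| * √t := by gcongr; exact le_abs_self K
  have a4 : |K| * √t ≤ |K| * t := by gcongr
  obtain ⟨b1, b2⟩ := abs_le.1 hm
  refine ⟨?_, abs_le.2 ⟨by nlinarith, by nlinarith⟩⟩
  have a5 : |(j : ℝ) + 1 / 2| ≤ (|K| + 3) * t := abs_le.2 ⟨by nlinarith, by nlinarith⟩
  have a6 : lam t j ≤ t + |(j : ℝ) + 1 / 2| := by
    refine abs_le_of_sq_le_sq' ?_ (by positivity) |>.2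
    rw [lam_sq, add_sq t, sq_abs]
    nlinarith [abs_nonneg ((j : ℝ) + 1 / 2)]
  linarith

theorem sup_bound (ρ K : ℝ) : ∃ C : ℝ, ∀ (t : ℝ) (Φ : ℤ → E → ℂ), 1 ≤ t → Sys t Φ →
    ∀ m : ℤ, |(m : ℝ)| ≤ K * √t → ∀ M ∈ Bl ρ, ‖Φ m M‖ ≤ C * t ^ 2 := by
  obtain ⟨C, hC⟩ := l2_bound (2 * (3 * (3 * ρ))) (|K| + 2)
  refine ⟨24 * √C * (|K| + 4) ^ 2, fun t Φ ht h m hm M hM => ?_⟩
  set L := (|K| + 4) * t with hLd
  have hL : 1 ≤ L := by nlinarith [abs_nonneg K]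
  have hl : ∀ j : ℤ, m - 2 ≤ j → j ≤ m + 2 → lam t j ≤ L := fun j a b => (crude_lam ht hm a b).1
  have hG : M ∈ Gp := Sh_subset hM.1
  have mU := crude_measU h
  have mT := crude_measT mU
  have mTT := crude_measT mT
  set c := ENNReal.ofReal (2 * L ^ 2) with hc
  have s1 : ∀ θ : ℝ, crudeU Φ m M ≤ c * (c * ∫⁻ a in Icc (0 : ℝ) 1, ∫⁻ b in Icc (0 : ℝ) 1,
      crudeT (crudeT (crudeU Φ)) m (fl b (rot θ (fl (-a) M)))) := fun θ => by
    refine (crude_step h (σ := -1) (by simp) hL (hl _ (by omega) (by omega))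
      (hl _ (by omega) (by omega)) hG).trans (mul_le_mul_right ?_ _)
    rw [← lintegral_const_mul' _ _ ENNReal.ofReal_ne_top]
    refine lintegral_mono fun a => ?_
    have := crude_step2 h hL hl (crude_rot_mem (crude_fl_mem hG (-a)) θ)
    simpa only [crudeT, crude_rotU h, neg_mul, one_mul] using this
  have s2 := crude_chart (ρ := ρ) (mTT m) (fun s N hs => by
    simp only [crudeT, crudeU, h.hom _ _ _ hs]) hM
  have s3 : ∀ j : ℤ, m - 2 ≤ j → j ≤ m + 2 →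
      ∫⁻ N in Bl (2 * (3 * (3 * ρ))), crudeU Φ j N ∂nu ≤ ENNReal.ofReal C := fun j a b => by
    have i1 : IntegrableOn (fun N => ‖Φ j N‖ ^ 2) (Bl (2 * (3 * (3 * ρ)))) nu :=
      integrableOn_of_cont ((h.cont j).norm.pow 2) (isCompact_Bl _) inter_subset_left
    simp only [crudeU]
    rw [← ofReal_integral_eq_lintegral_ofReal i1 (.of_forall fun s => by positivity)]
    exact ENNReal.ofReal_le_ofReal (hC t Φ ht h j (crude_lam ht hm a b).2)
  have s4 : ∀ j : ℤ, m - 1 ≤ j → j ≤ m + 1 →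
      ∫⁻ N in Bl (2 * (3 * (3 * ρ))), crudeT (crudeU Φ) j N ∂nu ≤ 3 * ENNReal.ofReal C :=
    fun j a b => by
      simp only [crudeT]
      rw [lintegral_add_right _ (mU _), lintegral_add_right _ (mU _)]
      refine (add_le_add (add_le_add (s3 _ (by omega) (by omega)) (s3 _ (by omega) (by omega)))
        (s3 _ (by omega) (by omega))).trans (le_of_eq (by ring))
  have s5 : ∫⁻ N in Bl (2 * (3 * (3 * ρ))), crudeT (crudeT (crudeU Φ)) m N ∂nu ≤
      9 * ENNReal.ofReal C := by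
    rw [show crudeT (crudeT (crudeU Φ)) m = fun N => crudeT (crudeU Φ) (m - 1) N +
      crudeT (crudeU Φ) m N + crudeT (crudeU Φ) (m + 1) N from rfl,
      lintegral_add_right _ (mT _), lintegral_add_right _ (mT _)]
    refine (add_le_add (add_le_add (s4 _ (by omega) (by omega)) (s4 _ (by omega) (by omega)))
      (s4 _ (by omega) (by omega))).trans (le_of_eq (by ring))
  have s6 : ∫⁻ _ in Icc (1 / 2 : ℝ) 1, crudeU Φ m M ≤ c * (c * (8 * (9 * ENNReal.ofReal C))) := by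
    refine (lintegral_mono s1).trans ?_
    rw [lintegral_const_mul' _ _ ENNReal.ofReal_ne_top,
      lintegral_const_mul' _ _ ENNReal.ofReal_ne_top]
    exact mul_le_mul_right (mul_le_mul_right (s2.trans (mul_le_mul_right s5 _)) _) _
  rw [setLIntegral_const, Real.volume_Icc, crudeU, ← ENNReal.ofReal_mul (by positivity)] at s6
  have s7 := ENNReal.toReal_mono (by finiteness) s6
  simp only [ENNReal.toReal_mul, hc, ENNReal.toReal_ofReal', ENNReal.toReal_ofNat] at s7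
  rw [max_eq_left (by positivity), max_eq_left (by positivity), ← Real.sq_sqrt'] at s7
  refine (abs_le_of_sq_le_sq' ?_ (by positivity)).2
  have : (24 * √C * (|K| + 4) ^ 2 * t ^ 2) ^ 2 = 576 * (√C) ^ 2 * L ^ 4 := by rw [hLd]; ring
  rw [this]
  nlinarith

theorem crude {Ψ : E → ℂ} (hΨ : Test Ψ) (K : ℝ) : ∃ C : ℝ, ∀ (t₁ t₂ t₃ : ℝ)
    (Φ₁ Φ₂ Φ₃ : ℤ → E → ℂ), 1 ≤ t₁ → 1 ≤ t₂ → 1 ≤ t₃ → Sys t₁ Φ₁ → Sys t₂ Φ₂ → Sys t₃ Φ₃ →
    ∀ a b c : ℤ, Adm K t₁ t₂ t₃ a b c → ‖tau Ψ Φ₁ Φ₂ Φ₃ a b c‖ ≤ C * t₁ ^ 2 := by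
  obtain ⟨A, ρ, hA, h1, h2⟩ := hΨ.bound
  obtain ⟨C₁, hC₁⟩ := sup_bound ρ K
  obtain ⟨C₂, hC₂⟩ := l2_bound ρ K
  refine ⟨A * |C₁| * (C₂ + C₂), fun t₁ t₂ t₃ Φ₁ Φ₂ Φ₃ ht₁ ht₂ ht₃ s₁ s₂ s₃ a b c ⟨ha, hb, hc⟩ => ?_⟩
  have i2 : IntegrableOn (fun N => ‖Φ₂ b N‖ ^ 2) (Bl ρ) nu :=
    integrableOn_of_cont ((s₂.cont b).norm.pow 2) (isCompact_Bl _) inter_subset_left
  have i3 : IntegrableOn (fun N => ‖Φ₃ c N‖ ^ 2) (Bl ρ) nu :=
    integrableOn_of_cont ((s₃.cont c).norm.pow 2) (isCompact_Bl _) inter_subset_left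
  have i4 : IntegrableOn (fun N => A * (|C₁| * t₁ ^ 2) * (‖Φ₂ b N‖ ^ 2 + ‖Φ₃ c N‖ ^ 2))
      (Bl ρ) nu := (i2.add i3).const_mul _
  refine (norm_integral_le_of_norm_le ((integrable_indicator_iff (measurableSet_Bl ρ)).2 i4)
    ?_).trans ?_
  · filter_upwards [ae_mem_Sh] with M hM
    by_cases hB : M ∈ Bl ρ
    · rw [indicator_of_mem hB, norm_mul, norm_mul, norm_mul, mul_assoc ‖Φ₁ a M‖, ← mul_assoc]
      have e1 : ‖Φ₁ a M‖ ≤ |C₁| * t₁ ^ 2 :=
        (hC₁ t₁ Φ₁ ht₁ s₁ a ha M hB).trans (by gcongr; exact le_abs_self _)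
      refine mul_le_mul (mul_le_mul (h1 M hM) e1 (norm_nonneg _) hA) ?_ (by positivity)
        (by positivity)
      nlinarith [sq_nonneg (‖Φ₂ b M‖ - ‖Φ₃ c M‖), sq_nonneg ‖Φ₂ b M‖, sq_nonneg ‖Φ₃ c M‖]
    · rw [indicator_of_notMem hB, h2 M hM hB, zero_mul, norm_zero]
  · rw [integral_indicator (measurableSet_Bl ρ), integral_const_mul, integral_add i2 i3]
    refine le_trans (mul_le_mul_of_nonneg_left (add_le_add (hC₂ t₂ Φ₂ ht₂ s₂ b hb)
      (hC₂ t₃ Φ₃ ht₃ s₃ c hc)) (by positivity)) (le_of_eq (by ring))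

end Pool.Agent.MP_a28cf0_nt.Cub

end

-- part MP_a28cf0_nt.Cub.Inv
section

set_option autoImplicit false

namespace Pool.Agent.MP_a28cf0_nt.Cub

open MeasureTheory Complex Filter Topology Set
open scoped ENNReal MatrixGroups

theorem inv_diffAt {g : E → ℂ} (hg : ContDiffOn ℝ 1 g Gp) {M : E} (hM : M ∈ Gp) :
    DifferentiableAt ℝ g M :=
  (hg.contDiffAt (isOpen_Gp.mem_nhds hM)).differentiableAt one_ne_zero

theorem inv_conj {g : E → ℂ} (hg : ContDiffOn ℝ 1 g Gp) :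
    ContDiffOn ℝ 1 (fun M => (starRingEnd ℂ) (g M)) Gp :=
  (Complex.conjCLE.contDiff (n := 1)).comp_contDiffOn hg

theorem inv_conj0 {g : E → ℂ} (hg : ContinuousOn g Gp) :
    ContinuousOn (fun M => (starRingEnd ℂ) (g M)) Gp :=
  Complex.continuous_conj.comp_continuousOn hg

theorem inv_int {ψ g : E → ℂ} (hψ : Test ψ) (hg : ContinuousOn g Gp) :
    Integrable (fun M => ψ M * g M) nu :=
  (hψ.van.mul g).integrable (hψ.cont.mul hg)

theorem inv_test1 {ψ : E → ℂ} (hψ : Test ψ) : ContDiffOn ℝ 1 ψ Gp :=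
  hψ.smooth.of_le (by exact_mod_cast le_top)

theorem inv_ibp_Lo {φ g A : E → ℂ} (hφ : Test φ) (hg : ContDiffOn ℝ 1 g Gp)
    (hA : ∀ M ∈ Gp, Lo g M = A M) : ∫ M, (Lo φ M * g M + φ M * A M) ∂nu = 0 := by
  rw [← ibp_Lo ((inv_test1 hφ).mul hg) (hφ.van.mul g)]
  refine integral_congr_ae ?_
  filter_upwards [ae_mem_Sh] with M hM
  have hM' := Sh_subset hM
  rw [Lo_mul (hφ.diffAt hM') (inv_diffAt hg hM'), hA M hM']

theorem inv_ibp_Ra {φ g A : E → ℂ} (hφ : Test φ) (hg : ContDiffOn ℝ 1 g Gp)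
    (hA : ∀ M ∈ Gp, Ra g M = A M) : ∫ M, (Ra φ M * g M + φ M * A M) ∂nu = 0 := by
  rw [← ibp_Ra ((inv_test1 hφ).mul hg) (hφ.van.mul g)]
  refine integral_congr_ae ?_
  filter_upwards [ae_mem_Sh] with M hM
  have hM' := Sh_subset hM
  rw [Ra_mul (hφ.diffAt hM') (inv_diffAt hg hM'), hA M hM']

theorem inv_ibp_X3 {φ g A : E → ℂ} (hφ : Test φ) (hg : ContDiffOn ℝ 1 g Gp)
    (hA : ∀ M ∈ Gp, X3 g M = A M) : ∫ M, (X3 φ M * g M + φ M * A M) ∂nu = 0 := by
  rw [← ibp_X3 ((inv_test1 hφ).mul hg) (hφ.van.mul g)]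
  refine integral_congr_ae ?_
  filter_upwards [ae_mem_Sh] with M hM
  have hM' := Sh_subset hM
  rw [X3_mul (hφ.diffAt hM') (inv_diffAt hg hM'), hA M hM']

/-- the remainder term -/
noncomputable def inv_R (φ F G W : E → ℂ) (M : E) : ℂ :=
  Lo φ M * (G M * (starRingEnd ℂ) (F M)) - Ra φ M * (F M * (starRingEnd ℂ) (G M)) -
    φ M * (W M * (starRingEnd ℂ) (F M) - F M * (starRingEnd ℂ) (W M)) -
    X3 φ M * (I / 2 * (W M * (starRingEnd ℂ) (F M)) + I / 2 * (F M * (starRingEnd ℂ) (W M)))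

theorem inv_comb {f1 f2 f3 f4 R : E → ℂ} (j1 : Integrable f1 nu) (j2 : Integrable f2 nu)
    (j3 : Integrable f3 nu) (j4 : Integrable f4 nu) (jR : Integrable R nu)
    (i1 : ∫ M, f1 M ∂nu = 0) (i2 : ∫ M, f2 M ∂nu = 0) (i3 : ∫ M, f3 M ∂nu = 0)
    (i4 : ∫ M, f4 M ∂nu = 0) (a : ℂ) :
    ∫ M, (f1 M - f2 M - (a * f3 M + a * f4 M) - R M) ∂nu = -∫ M, R M ∂nu := by
  have k1 : Integrable (fun M => f1 M - f2 M) nu := j1.sub j2
  have k3 : Integrable (fun M => a * f3 M) nu := j3.const_mul a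
  have k4 : Integrable (fun M => a * f4 M) nu := j4.const_mul a
  have k2 : Integrable (fun M => a * f3 M + a * f4 M) nu := k3.add k4
  have k5 : Integrable (fun M => f1 M - f2 M - (a * f3 M + a * f4 M)) nu := k1.sub k2
  rw [integral_sub k5 jR, integral_sub k1 k2, integral_sub j1 j2, integral_add k3 k4,
    integral_const_mul, integral_const_mul, i1, i2, i3, i4]
  ring

theorem inv_identity {φ F F1 G W W2 : E → ℂ} (hφ : Test φ) {t c : ℝ}
    (hF : ContDiffOn ℝ 1 F Gp) (hF1 : ContDiffOn ℝ 1 F1 Gp) (hW : ContDiffOn ℝ 1 W Gp)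
    (hW2 : ContinuousOn W2 Gp) (hG : ContinuousOn G Gp)
    (hRa : ∀ M ∈ Gp, Ra F M = F1 M) (hLo : ∀ M ∈ Gp, Lo F1 M = -(c * F M + W2 M + W M))
    (hX : ∀ M ∈ Gp, X3 F M = 2 * I * W M) (hX2 : ∀ M ∈ Gp, X3 W M = 2 * I * W2 M)
    (hFG : ∀ M, F1 M = I * t * F M + G M) :
    I * t * ∫ M, X1 φ M * ((‖F M‖ ^ 2 : ℝ) : ℂ) ∂nu = -∫ M, inv_R φ F G W M ∂nu := by
  have cF := hF.continuousOn
  have cF1 := hF1.continuousOn
  have cW := hW.continuousOn
  have dF := inv_conj0 cF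
  have dF1 := inv_conj0 cF1
  have dW := inv_conj0 cW
  have dW2 := inv_conj0 hW2
  have dG := inv_conj0 hG
  have cV : ContinuousOn (fun M => -(c * F M + W2 M + W M)) Gp :=
    (((continuousOn_const.mul cF).add hW2).add cW).neg
  have dV := inv_conj0 cV
  have I1 := inv_ibp_Lo hφ (hF1.mul (inv_conj hF))
    (A := fun M => -(c * F M + W2 M + W M) * (starRingEnd ℂ) (F M) +
      F1 M * (starRingEnd ℂ) (F1 M)) fun M hM => by
      rw [Lo_mul (inv_diffAt hF1 hM) (inv_diffAt (inv_conj hF) hM), Lo_conj, hLo M hM, hRa M hM]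
  have I2 := inv_ibp_Ra hφ (hF.mul (inv_conj hF1))
    (A := fun M => F1 M * (starRingEnd ℂ) (F1 M) +
      F M * (starRingEnd ℂ) (-(c * F M + W2 M + W M))) fun M hM => by
      rw [Ra_mul (inv_diffAt hF hM) (inv_diffAt (inv_conj hF1) hM), Ra_conj, hLo M hM, hRa M hM]
  have I3 := inv_ibp_X3 hφ (hW.mul (inv_conj hF))
    (A := fun M => 2 * I * W2 M * (starRingEnd ℂ) (F M) +
      W M * (starRingEnd ℂ) (2 * I * W M)) fun M hM => by
      rw [X3_mul (inv_diffAt hW hM) (inv_diffAt (inv_conj hF) hM), X3_conj, hX M hM, hX2 M hM]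
  have I4 := inv_ibp_X3 hφ (hF.mul (inv_conj hW))
    (A := fun M => 2 * I * W M * (starRingEnd ℂ) (W M) +
      F M * (starRingEnd ℂ) (2 * I * W2 M)) fun M hM => by
      rw [X3_mul (inv_diffAt hF hM) (inv_diffAt (inv_conj hW) hM), X3_conj, hX M hM, hX2 M hM]
  have J1 : Integrable (fun M => Lo φ M * (F1 M * (starRingEnd ℂ) (F M)) +
      φ M * (-(c * F M + W2 M + W M) * (starRingEnd ℂ) (F M) +
        F1 M * (starRingEnd ℂ) (F1 M))) nu :=
    (inv_int hφ.lo (cF1.mul dF)).add (inv_int hφ ((cV.mul dF).add (cF1.mul dF1)))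
  have J2 : Integrable (fun M => Ra φ M * (F M * (starRingEnd ℂ) (F1 M)) +
      φ M * (F1 M * (starRingEnd ℂ) (F1 M) +
        F M * (starRingEnd ℂ) (-(c * F M + W2 M + W M)))) nu :=
    (inv_int hφ.ra (cF.mul dF1)).add (inv_int hφ ((cF1.mul dF1).add (cF.mul dV)))
  have J3 : Integrable (fun M => X3 φ M * (W M * (starRingEnd ℂ) (F M)) +
      φ M * (2 * I * W2 M * (starRingEnd ℂ) (F M) +
        W M * (starRingEnd ℂ) (2 * I * W M))) nu :=
    (inv_int hφ.x3 (cW.mul dF)).add (inv_int hφ (((continuousOn_const.mul hW2).mul dF).add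
      (cW.mul (inv_conj0 (continuousOn_const.mul cW)))))
  have J4 : Integrable (fun M => X3 φ M * (F M * (starRingEnd ℂ) (W M)) +
      φ M * (2 * I * W M * (starRingEnd ℂ) (W M) +
        F M * (starRingEnd ℂ) (2 * I * W2 M))) nu :=
    (inv_int hφ.x3 (cF.mul dW)).add (inv_int hφ (((continuousOn_const.mul cW).mul dW).add
      (cF.mul (inv_conj0 (continuousOn_const.mul hW2)))))
  have JR : Integrable (inv_R φ F G W) nu :=
    (((inv_int hφ.lo (hG.mul dF)).sub (inv_int hφ.ra (cF.mul dG))).sub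
      (inv_int hφ ((cW.mul dF).sub (cF.mul dW)))).sub
      (inv_int hφ.x3 ((continuousOn_const.mul (cW.mul dF)).add
        (continuousOn_const.mul (cF.mul dW))))
  have key : ∀ M, I * t * (X1 φ M * ((‖F M‖ ^ 2 : ℝ) : ℂ)) =
      (((Lo φ M * (F1 M * (starRingEnd ℂ) (F M)) +
        φ M * (-(c * F M + W2 M + W M) * (starRingEnd ℂ) (F M) +
          F1 M * (starRingEnd ℂ) (F1 M))) -
      (Ra φ M * (F M * (starRingEnd ℂ) (F1 M)) +
        φ M * (F1 M * (starRingEnd ℂ) (F1 M) +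
          F M * (starRingEnd ℂ) (-(c * F M + W2 M + W M))))) -
      (I / 2 * (X3 φ M * (W M * (starRingEnd ℂ) (F M)) +
        φ M * (2 * I * W2 M * (starRingEnd ℂ) (F M) +
          W M * (starRingEnd ℂ) (2 * I * W M))) +
      I / 2 * (X3 φ M * (F M * (starRingEnd ℂ) (W M)) +
        φ M * (2 * I * W M * (starRingEnd ℂ) (W M) +
          F M * (starRingEnd ℂ) (2 * I * W2 M))))) - inv_R φ F G W M := by
    intro M
    have hn : ((‖F M‖ ^ 2 : ℝ) : ℂ) = F M * (starRingEnd ℂ) (F M) := by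
      rw [Complex.mul_conj, Complex.normSq_eq_norm_sq]
    rw [hn, X1_eq, inv_R, hFG M]
    simp only [map_add, map_mul, map_neg, Complex.conj_I, Complex.conj_ofReal, map_ofNat]
    have hI : I * I = -1 := Complex.I_mul_I
    linear_combination (φ M * (W2 M * (starRingEnd ℂ) (F M) - F M * (starRingEnd ℂ) (W2 M))) * hI
  rw [← integral_const_mul]
  simp only [key]
  exact inv_comb J1 J2 J3 J4 JR I1 I2 I3 I4 _

theorem inv_bound {φ F G W : E → ℂ} {A ρ s : ℝ} (hs : 0 < s) (hA : 0 ≤ A)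
    (hF : ContinuousOn F Gp) (hG : ContinuousOn G Gp) (hW : ContinuousOn W Gp)
    (h1 : ∀ M ∈ Sh, ‖φ M‖ ≤ A ∧ ‖Ra φ M‖ ≤ A ∧ ‖Lo φ M‖ ≤ A ∧ ‖X3 φ M‖ ≤ A)
    (h2 : ∀ M ∈ Sh, M ∉ Bl ρ → φ M = 0 ∧ Ra φ M = 0 ∧ Lo φ M = 0 ∧ X3 φ M = 0) :
    ‖∫ M, inv_R φ F G W M ∂nu‖ ≤ 3 * A * ((∫ M in Bl ρ, ‖G M‖ ^ 2 ∂nu) / s +
      (∫ M in Bl ρ, ‖W M‖ ^ 2 ∂nu) / s + s * ∫ M in Bl ρ, ‖F M‖ ^ 2 ∂nu) := by
  have hB : Bl ρ ⊆ Sh := inter_subset_left
  have iF : IntegrableOn (fun M => ‖F M‖ ^ 2) (Bl ρ) nu :=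
    integrableOn_of_cont (hF.norm.pow 2) (isCompact_Bl ρ) hB
  have iG : IntegrableOn (fun M => ‖G M‖ ^ 2) (Bl ρ) nu :=
    integrableOn_of_cont (hG.norm.pow 2) (isCompact_Bl ρ) hB
  have iW : IntegrableOn (fun M => ‖W M‖ ^ 2) (Bl ρ) nu :=
    integrableOn_of_cont (hW.norm.pow 2) (isCompact_Bl ρ) hB
  have i1 : IntegrableOn (fun M => ‖G M‖ ^ 2 / s + ‖W M‖ ^ 2 / s) (Bl ρ) nu :=
    (iG.div_const s).add (iW.div_const s)
  have i2 : IntegrableOn (fun M => s * ‖F M‖ ^ 2) (Bl ρ) nu := iF.const_mul s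
  have i3 : IntegrableOn (fun M => 3 * A * (‖G M‖ ^ 2 / s + ‖W M‖ ^ 2 / s + s * ‖F M‖ ^ 2))
      (Bl ρ) nu := (i1.add i2).const_mul (3 * A)
  have hle := norm_integral_le_of_norm_le (f := inv_R φ F G W)
    (i3.integrable_indicator (measurableSet_Bl ρ)) ?_
  · rw [integral_indicator (measurableSet_Bl ρ), integral_const_mul, integral_add i1 i2,
      integral_add (iG.div_const s) (iW.div_const s), integral_div, integral_div,
      integral_const_mul] at hle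
    exact hle
  filter_upwards [ae_mem_Sh] with M hM
  by_cases hb : M ∈ Bl ρ
  · rw [indicator_of_mem hb]
    obtain ⟨a1, a2, a3, a4⟩ := h1 M hM
    set f := ‖F M‖ with hf
    set g := ‖G M‖ with hg
    set w := ‖W M‖ with hw
    have hf0 : 0 ≤ f := norm_nonneg _
    have hg0 : 0 ≤ g := norm_nonneg _
    have hw0 : 0 ≤ w := norm_nonneg _
    have n1 : ‖G M * (starRingEnd ℂ) (F M)‖ = g * f := by rw [norm_mul, Complex.norm_conj]
    have n2 : ‖F M * (starRingEnd ℂ) (G M)‖ = g * f := by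
      rw [norm_mul, Complex.norm_conj, mul_comm]
    have n3 : ‖W M * (starRingEnd ℂ) (F M)‖ = w * f := by rw [norm_mul, Complex.norm_conj]
    have n4 : ‖F M * (starRingEnd ℂ) (W M)‖ = w * f := by
      rw [norm_mul, Complex.norm_conj, mul_comm]
    have nI : ‖I / 2‖ = 1 / 2 := by simp
    have b1 : ‖Lo φ M * (G M * (starRingEnd ℂ) (F M))‖ ≤ A * (g * f) := by
      rw [norm_mul, n1]
      exact mul_le_mul_of_nonneg_right a3 (by positivity)
    have b2 : ‖Ra φ M * (F M * (starRingEnd ℂ) (G M))‖ ≤ A * (g * f) := by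
      rw [norm_mul, n2]
      exact mul_le_mul_of_nonneg_right a2 (by positivity)
    have b3 : ‖φ M * (W M * (starRingEnd ℂ) (F M) - F M * (starRingEnd ℂ) (W M))‖ ≤
        A * (w * f + w * f) := by
      rw [norm_mul]
      refine mul_le_mul a1 ((norm_sub_le _ _).trans ?_) (norm_nonneg _) hA
      rw [n3, n4]
    have b4 : ‖X3 φ M * (I / 2 * (W M * (starRingEnd ℂ) (F M)) +
        I / 2 * (F M * (starRingEnd ℂ) (W M)))‖ ≤ A * (w * f) := by
      rw [norm_mul]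
      refine mul_le_mul a4 ((norm_add_le _ _).trans ?_) (norm_nonneg _) hA
      rw [norm_mul (I / 2), norm_mul (I / 2), n3, n4, nI]
      linarith
    have e1 : ∀ x : ℝ, 2 * (x * f) ≤ x ^ 2 / s + s * f ^ 2 := by
      intro x
      have : x ^ 2 / s + s * f ^ 2 - 2 * (x * f) = (x - s * f) ^ 2 / s := by
        field_simp
        ring
      have h0 : 0 ≤ (x - s * f) ^ 2 / s := by positivity
      linarith
    have p1 : 0 ≤ g ^ 2 / s := by positivity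
    have p2 : 0 ≤ w ^ 2 / s := by positivity
    have p3 : 0 ≤ s * f ^ 2 := by positivity
    have e2 : 2 * (g * f) + 3 * (w * f) ≤ 3 * (g ^ 2 / s + w ^ 2 / s + s * f ^ 2) := by
      linarith [e1 g, e1 w]
    have e3 := mul_le_mul_of_nonneg_left e2 hA
    unfold inv_R
    refine (norm_sub_le _ _).trans ?_
    have c1 := norm_sub_le (Lo φ M * (G M * (starRingEnd ℂ) (F M)) -
      Ra φ M * (F M * (starRingEnd ℂ) (G M)))
      (φ M * (W M * (starRingEnd ℂ) (F M) - F M * (starRingEnd ℂ) (W M)))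
    have c2 := norm_sub_le (Lo φ M * (G M * (starRingEnd ℂ) (F M)))
      (Ra φ M * (F M * (starRingEnd ℂ) (G M)))
    linarith
  · obtain ⟨a1, a2, a3, a4⟩ := h2 M hM hb
    rw [indicator_of_notMem hb, inv_R, a1, a2, a3, a4]
    simp

theorem inv_shift (f : ℤ → ℂ) (L : ℕ) (hf : ∀ m : ℤ, (L : ℤ) ≤ |m| → f m = 0) :
    ∑ m ∈ Finset.Icc (-((L + 1 : ℕ) : ℤ)) ((L + 1 : ℕ) : ℤ), f (m - 1) =
      ∑ m ∈ Finset.Icc (-((L + 1 : ℕ) : ℤ)) ((L + 1 : ℕ) : ℤ), f m := by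
  rw [← tsum_eq_sum (L := SummationFilter.unconditional ℤ),
    ← tsum_eq_sum (L := SummationFilter.unconditional ℤ)]
  · exact (Equiv.subRight (1 : ℤ)).tsum_eq f
  · intro m hm
    refine hf m ?_
    rw [Finset.mem_Icc] at hm
    push_cast at hm
    rw [le_abs]
    omega
  · intro m hm
    refine hf _ ?_
    rw [Finset.mem_Icc] at hm
    push_cast at hm
    rw [le_abs]
    omega

theorem inv_sum_smooth {t : ℝ} {Φ : ℤ → E → ℂ} (h : Sys t Φ) (S : Finset ℤ) (z : ℤ → ℂ) :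
    ContDiffOn ℝ 1 (fun M => ∑ m ∈ S, z m * Φ m M) Gp :=
  ContDiffOn.sum fun m _ => contDiffOn_const.mul (h.smooth m)

theorem inv_sum_sq {S : Finset ℤ} {z : ℤ → ℂ} {B n : ℝ} (hz : ∀ m ∈ S, ‖z m‖ ≤ B)
    (hn : (S.card : ℝ) ≤ n) : ∑ m ∈ S, ‖z m‖ ^ 2 ≤ n * B ^ 2 := by
  have h1 : ∑ m ∈ S, ‖z m‖ ^ 2 ≤ S.card • B ^ 2 :=
    Finset.sum_le_card_nsmul _ _ _ fun m hm => pow_le_pow_left₀ (norm_nonneg _) (hz m hm) 2
  rw [nsmul_eq_mul] at h1
  exact h1.trans (mul_le_mul_of_nonneg_right hn (sq_nonneg B))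

theorem inv_tests {φ : E → ℂ} (hφ : Test φ) : ∃ A ρ : ℝ, 0 ≤ A ∧
    (∀ M ∈ Sh, ‖φ M‖ ≤ A ∧ ‖Ra φ M‖ ≤ A ∧ ‖Lo φ M‖ ≤ A ∧ ‖X3 φ M‖ ≤ A) ∧
    ∀ M ∈ Sh, M ∉ Bl ρ → φ M = 0 ∧ Ra φ M = 0 ∧ Lo φ M = 0 ∧ X3 φ M = 0 := by
  obtain ⟨A1, r1, p1, a1, z1⟩ := hφ.bound
  obtain ⟨A2, r2, p2, a2, z2⟩ := hφ.ra.bound
  obtain ⟨A3, r3, p3, a3, z3⟩ := hφ.lo.bound
  obtain ⟨A4, r4, p4, a4, z4⟩ := hφ.x3.bound
  have mono : ∀ {a b : ℝ}, a ≤ b → ∀ M : E, M ∉ Bl b → M ∉ Bl a := fun hab M hM h =>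
    hM ⟨h.1, Metric.closedBall_subset_closedBall hab h.2⟩
  refine ⟨A1 + A2 + A3 + A4, max (max r1 r2) (max r3 r4), by positivity, fun M hM => ?_,
    fun M hM hb => ?_⟩
  · have := a1 M hM
    have := a2 M hM
    have := a3 M hM
    have := a4 M hM
    refine ⟨?_, ?_, ?_, ?_⟩ <;> linarith
  · exact ⟨z1 M hM (mono ((le_max_left _ _).trans (le_max_left _ _)) M hb),
      z2 M hM (mono ((le_max_right _ _).trans (le_max_left _ _)) M hb),
      z3 M hM (mono ((le_max_left _ _).trans (le_max_right _ _)) M hb),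
      z4 M hM (mono ((le_max_right _ _).trans (le_max_right _ _)) M hb)⟩

theorem inv_gcoef {K t : ℝ} {d : ℤ → ℝ} (ht : 1 ≤ t) (hc : Coef K (√t) d) {m : ℤ}
    (hm : |(m : ℝ)| ≤ (K + 2) * √t) :
    |d (m - 1) * lam t (m - 1) - t * d m| ≤ (K * (K + 3) ^ 2 + K) * √t := by
  have hK : 0 ≤ K := (abs_nonneg _).trans (hc.bd 0)
  have hs1 : 1 ≤ √t := Real.one_le_sqrt.2 ht
  have hss : √t * √t = t := Real.mul_self_sqrt (by linarith)
  have h1 := lam_sub_le (t := t) (by linarith) (m - 1)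
  have h2 := le_lam t (m - 1)
  have h3 : |((m - 1 : ℤ) : ℝ) + 1 / 2| ≤ (K + 3) * √t := by
    have : ((m - 1 : ℤ) : ℝ) + 1 / 2 = m - 1 / 2 := by
      push_cast
      ring
    rw [this]
    refine (abs_sub _ _).trans ?_
    rw [abs_of_pos (by norm_num : (0 : ℝ) < 1 / 2)]
    linarith
  have h4 : (((m - 1 : ℤ) : ℝ) + 1 / 2) ^ 2 ≤ (K + 3) ^ 2 * t := by
    rw [← sq_abs]
    refine (pow_le_pow_left₀ (abs_nonneg _) h3 2).trans (le_of_eq ?_)
    rw [mul_pow, Real.sq_sqrt (by linarith)]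
  have h5 : lam t (m - 1) - t ≤ (K + 3) ^ 2 := by
    refine h1.trans ?_
    rw [div_le_iff₀ (by linarith)]
    have : 0 ≤ (K + 3) ^ 2 * t := by positivity
    linarith
  have h6 := hc.d1 (m - 1)
  rw [sub_add_cancel] at h6
  have h7 : t * |d m - d (m - 1)| ≤ K * √t := by
    refine (mul_le_mul_of_nonneg_left h6 (by linarith)).trans (le_of_eq ?_)
    have : √t ≠ 0 := by positivity
    field_simp
    rw [sq, hss, mul_comm]
  have h8 : d (m - 1) * lam t (m - 1) - t * d m =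
      d (m - 1) * (lam t (m - 1) - t) - t * (d m - d (m - 1)) := by ring
  rw [h8]
  refine (abs_sub _ _).trans ?_
  rw [abs_mul, abs_mul, abs_of_nonneg (by linarith : 0 ≤ lam t (m - 1) - t),
    abs_of_nonneg (by linarith : 0 ≤ t)]
  have h9 : |d (m - 1)| * (lam t (m - 1) - t) ≤ K * (K + 3) ^ 2 :=
    mul_le_mul (hc.bd _) h5 (by linarith) hK
  have h10 : K * (K + 3) ^ 2 * 1 ≤ K * (K + 3) ^ 2 * √t :=
    mul_le_mul_of_nonneg_left hs1 (by positivity)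
  linarith

/-- asymptotic invariance of the lifts under the flow -/
theorem X1_small {φ : E → ℂ} (hφ : Test φ) (K : ℝ) : ∃ C : ℝ, ∀ (t : ℝ) (d : ℤ → ℝ)
    (Φ : ℤ → E → ℂ), 1 ≤ t → Sys t Φ → Coef K (√t) d →
    ‖∫ M, X1 φ M * ((‖pk d Φ M‖ ^ 2 : ℝ) : ℂ) ∂nu‖ ≤ C := by
  obtain ⟨A, ρ, hA, h1, h2⟩ := inv_tests hφ
  obtain ⟨C0, hC0, hl2⟩ := sum_l2 ρ (K + 2)
  refine ⟨3 * A * (C0 * (2 * K + 5) * ((K * (K + 3) ^ 2 + K) ^ 2 + ((K + 2) * K) ^ 2 + K ^ 2)),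
    fun t d Φ ht h hc => ?_⟩
  have hK : 0 ≤ K := (abs_nonneg _).trans (hc.bd 0)
  have hs1 : 1 ≤ √t := Real.one_le_sqrt.2 ht
  have hs0 : 0 < √t := by linarith
  have hss : √t * √t = t := Real.mul_self_sqrt (by linarith)
  set L : ℕ := ⌈K * √t⌉₊ with hL
  have hL1 : K * √t ≤ L := Nat.le_ceil _
  have hL2 : (L : ℝ) ≤ K * √t + 1 := (Nat.ceil_lt_add_one (by positivity)).le
  have hd0 : ∀ m : ℤ, (L : ℤ) ≤ |m| → d m = 0 := by
    intro m hm
    refine hc.supp m (hL1.trans ?_)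
    exact_mod_cast hm
  set S : Finset ℤ := Finset.Icc (-((L + 1 : ℕ) : ℤ)) ((L + 1 : ℕ) : ℤ) with hS
  have hSm : ∀ m ∈ S, |(m : ℝ)| ≤ (K + 2) * √t := by
    intro m hm
    have h3 : |m| ≤ ((L + 1 : ℕ) : ℤ) := abs_le.2 (Finset.mem_Icc.1 hm)
    have h4 : |(m : ℝ)| ≤ (L : ℝ) + 1 := by exact_mod_cast h3
    linarith
  have hcard : (S.card : ℝ) ≤ (2 * K + 5) * √t := by
    have h3 : S.card = 2 * L + 3 := by
      rw [hS, Int.card_Icc]
      omega
    rw [h3]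
    push_cast
    linarith
  have hpk : pk d Φ = fun M => ∑ m ∈ S, (d m : ℂ) * Φ m M :=
    funext fun M => pk_eq_sum hc (L := L + 1) (by push_cast; linarith) Φ M
  rw [hpk]
  have hid := inv_identity hφ (t := t) (c := t ^ 2 + 1 / 4)
    (F := fun M => ∑ m ∈ S, (d m : ℂ) * Φ m M)
    (F1 := fun M => ∑ m ∈ S, (I * (d (m - 1) * lam t (m - 1))) * Φ m M)
    (G := fun M => ∑ m ∈ S, (I * ((d (m - 1) * lam t (m - 1) - t * d m : ℝ) : ℂ)) * Φ m M)
    (W := fun M => ∑ m ∈ S, ((m * d m : ℝ) : ℂ) * Φ m M)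
    (W2 := fun M => ∑ m ∈ S, ((m ^ 2 * d m : ℝ) : ℂ) * Φ m M)
    (inv_sum_smooth h S _) (inv_sum_smooth h S _) (inv_sum_smooth h S _)
    (inv_sum_smooth h S _).continuousOn (inv_sum_smooth h S _).continuousOn ?_ ?_ ?_ ?_ ?_
  rotate_left
  · intro M hM
    rw [Ra_sum S _ fun m _ => h.diffAt m hM,
      ← inv_shift (fun m => (d m : ℂ) * Ra (Φ m) M) L fun m hm => by simp [hd0 m hm]]
    refine Finset.sum_congr rfl fun m _ => ?_
    rw [h.ra _ M hM, sub_add_cancel]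
    ring
  · intro M hM
    rw [Lo_sum S _ fun m _ => h.diffAt m hM]
    have h3 := inv_shift (fun m => -((d m : ℂ) * ((lam t m ^ 2 : ℝ) : ℂ) * Φ m M)) L
      fun m hm => by simp [hd0 m hm]
    rw [Finset.mul_sum, ← Finset.sum_add_distrib, ← Finset.sum_add_distrib,
      ← Finset.sum_neg_distrib]
    refine Eq.trans (Finset.sum_congr rfl fun m _ => ?_)
      (h3.trans (Finset.sum_congr rfl fun m _ => ?_))
    · rw [h.lo _ M hM]
      push_cast
      linear_combination ((d (m - 1) : ℂ) * (lam t (m - 1) : ℂ) ^ 2 * Φ (m - 1) M) *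
        Complex.I_mul_I
    · rw [lam_sq]
      push_cast
      ring
  · intro M hM
    rw [X3_sum S _ fun m _ => h.diffAt m hM, Finset.mul_sum]
    refine Finset.sum_congr rfl fun m _ => ?_
    rw [h.x3 _ hM]
    push_cast
    ring
  · intro M hM
    rw [X3_sum S _ fun m _ => h.diffAt m hM, Finset.mul_sum]
    refine Finset.sum_congr rfl fun m _ => ?_
    rw [h.x3 _ hM]
    push_cast
    ring
  · intro M
    rw [Finset.mul_sum, ← Finset.sum_add_distrib]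
    refine Finset.sum_congr rfl fun m _ => ?_
    push_cast
    ring
  have hb := inv_bound (φ := φ) (ρ := ρ) hs0 hA
    (F := fun M => ∑ m ∈ S, (d m : ℂ) * Φ m M)
    (G := fun M => ∑ m ∈ S, (I * ((d (m - 1) * lam t (m - 1) - t * d m : ℝ) : ℂ)) * Φ m M)
    (W := fun M => ∑ m ∈ S, ((m * d m : ℝ) : ℂ) * Φ m M)
    (inv_sum_smooth h S _).continuousOn (inv_sum_smooth h S _).continuousOn
    (inv_sum_smooth h S _).continuousOn h1 h2
  have bF := (hl2 t Φ ht h S (fun m => (d m : ℂ)) hSm).trans (mul_le_mul_of_nonneg_left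
    (inv_sum_sq (B := K) (fun m _ => by
      rw [Complex.norm_real, Real.norm_eq_abs]
      exact hc.bd m) hcard) hC0)
  have bG := (hl2 t Φ ht h S
    (fun m => I * ((d (m - 1) * lam t (m - 1) - t * d m : ℝ) : ℂ)) hSm).trans
    (mul_le_mul_of_nonneg_left (inv_sum_sq (B := (K * (K + 3) ^ 2 + K) * √t) (fun m hm => by
      rw [norm_mul, Complex.norm_I, one_mul, Complex.norm_real, Real.norm_eq_abs]
      exact inv_gcoef ht hc (hSm m hm)) hcard) hC0)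
  have bW := (hl2 t Φ ht h S (fun m => ((m * d m : ℝ) : ℂ)) hSm).trans
    (mul_le_mul_of_nonneg_left (inv_sum_sq (B := (K + 2) * √t * K) (fun m hm => by
      rw [Complex.norm_real, Real.norm_eq_abs, abs_mul]
      exact mul_le_mul (hSm m hm) (hc.bd m) (abs_nonneg _) (by positivity)) hcard) hC0)
  have hn := congrArg norm hid
  rw [norm_neg, norm_mul, norm_mul, Complex.norm_I, one_mul, Complex.norm_real,
    Real.norm_of_nonneg (by linarith)] at hn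
  rw [← hn] at hb
  have cG := div_le_div_of_nonneg_right bG hs0.le
  have cW := div_le_div_of_nonneg_right bW hs0.le
  have cF := mul_le_mul_of_nonneg_left bF hs0.le
  have hfin := hb.trans (mul_le_mul_of_nonneg_left (add_le_add (add_le_add cG cW) cF)
    (by positivity))
  refine le_of_mul_le_mul_left (hfin.trans (le_of_eq ?_)) (by linarith : 0 < t)
  have hne : √t ≠ 0 := hs0.ne'
  generalize √t = s at hss hne
  subst hss
  field_simp

end Pool.Agent.MP_a28cf0_nt.Cub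

end
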