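import Pool.Agent.MP_a28cf0_nt.Cub.Basic
import Pool.Agent.MP_a28cf0_nt.Mg.Cub_Inv
import Pool.Agent.MP_a28cf0_nt.Cub.Kan

-- part MP_a28cf0_nt.Cub.Vague
section

set_option autoImplicit false

namespace Pool.Agent.MP_a28cf0_nt.Cub

open MeasureTheory Complex Filter Topology Set
open scoped ENNReal MatrixGroups CompactlySupported Manifold

section general

variable {X : Type} [MetricSpace X] [ProperSpace X] [MeasurableSpace X] [BorelSpace X]

theorem vague_regular (μ : Measure X) (h : IsFiniteMeasureOnCompacts μ) : μ.Regular :=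
  inferInstance

omit [ProperSpace X] in
theorem vague_le_int {μ : Measure X} (hμ : IsFiniteMeasureOnCompacts μ) {K : Set X}
    (hK : IsCompact K) {φ : X → ℝ} (hc : Continuous φ) (hs : HasCompactSupport φ)
    (h1 : EqOn φ 1 K) (h0 : ∀ x, φ x ∈ Icc (0 : ℝ) 1) : μ.real K ≤ ∫ x, φ x ∂μ := by
  rw [← integral_indicator_one hK.measurableSet]
  refine integral_mono ?_ (hc.integrable_of_hasCompactSupport hs) fun x => ?_
  · exact (continuousOn_const.integrableOn_compact hK).integrable_indicator hK.measurableSet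
  · by_cases hx : x ∈ K
    · simp [hx, h1 hx]
    · simp [hx, (h0 x).1]

omit [ProperSpace X] in
theorem vague_int_le {μ : Measure X} (hμ : IsFiniteMeasureOnCompacts μ) {V : Set X}
    (hV : MeasurableSet V) (hf : μ V ≠ ⊤) {φ : X → ℝ} (hc : Continuous φ)
    (hs : HasCompactSupport φ) (h1 : EqOn φ 0 Vᶜ) (h0 : ∀ x, φ x ∈ Icc (0 : ℝ) 1) :
    ∫ x, φ x ∂μ ≤ μ.real V := by
  rw [← integral_indicator_one hV]
  refine integral_mono (hc.integrable_of_hasCompactSupport hs) ?_ fun x => ?_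
  · exact IntegrableOn.integrable_indicator (integrableOn_const hf) hV
  · by_cases hx : x ∈ V
    · simp [hx, (h0 x).2]
    · simp [hx, h1 hx]

theorem vague_gen {l : Filter ℕ} {ν : ℕ → Measure X} {μ : Measure X}
    (hf : ∀ j, IsFiniteMeasureOnCompacts (ν j)) (hμ : IsFiniteMeasureOnCompacts μ)
    (h : ∀ φ : X → ℝ, Continuous φ → HasCompactSupport φ →
      Tendsto (fun j => ∫ M, φ M ∂(ν j)) l (𝓝 (∫ M, φ M ∂μ)))
    {Q : Set X} (hQ : IsCompact Q) {ε : ℝ≥0∞} (hε : ε ≠ 0) :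
    ∀ᶠ j in l, ν j Q ≤ μ Q + ε := by
  have := vague_regular μ hμ
  rcases eq_or_ne ε ⊤ with rfl | hT
  · exact Eventually.of_forall fun j => by simp
  have he : 0 < ε.toReal := ENNReal.toReal_pos hε hT
  have hQf : μ Q ≠ ⊤ := hQ.measure_lt_top.ne
  obtain ⟨V, hQV, hV, hlt⟩ := Q.exists_isOpen_lt_add hQf hε
  have hVf : μ V ≠ ⊤ := hlt.ne_top
  obtain ⟨φ, h1, h0, hs, hI⟩ := exists_continuous_one_zero_of_isCompact hQ hV.isClosed_compl
    (disjoint_compl_right_iff_subset.mpr hQV)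
  have hlt' : ∫ x, φ x ∂μ < (μ Q + ε).toReal :=
    (vague_int_le hμ hV.measurableSet hVf φ.continuous hs h0 hI).trans_lt
      ((ENNReal.toReal_lt_toReal hVf (by finiteness)).mpr hlt)
  filter_upwards [(h φ φ.continuous hs).eventually (gt_mem_nhds hlt')] with j hj
  have := hf j
  have h2 := (vague_le_int (hf j) hQ φ.continuous hs h1 hI).trans hj.le
  exact (ENNReal.toReal_le_toReal hQ.measure_lt_top.ne (by finiteness)).mp h2

omit [ProperSpace X] [BorelSpace X] in
/-- a function that vanishes off `K` and is bounded by `c` has integral at most `c μ(K)` -/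
theorem vague_abs_le {μ : Measure X} (hμ : IsFiniteMeasureOnCompacts μ) {K : Set X}
    (hK : IsCompact K) {φ : X → ℝ} {c : ℝ} (h0 : ∀ x ∉ K, φ x = 0) (hb : ∀ x ∈ K, |φ x| ≤ c) :
    |∫ x, φ x ∂μ| ≤ c * μ.real K := by
  rw [← setIntegral_eq_integral_of_forall_compl_eq_zero h0]
  exact norm_setIntegral_le_of_norm_le_const (f := φ) hK.measure_lt_top hb

end general

theorem exists_vague (𝒰 : Ultrafilter ℕ) (ν : ℕ → Measure E)
    (hf : ∀ j, IsFiniteMeasureOnCompacts (ν j))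
    (hb : ∀ ρ : ℝ, ∃ C : ℝ, ∀ j, ν j (Metric.closedBall 0 ρ) ≤ ENNReal.ofReal C) :
    ∃ μ : Measure E, IsFiniteMeasureOnCompacts μ ∧ Vague 𝒰 ν μ := by
  have key : ∀ φ : C_c(E, ℝ), ∃ a : ℝ, Tendsto (fun j => ∫ M, φ M ∂(ν j)) 𝒰 (𝓝 a) := by
    intro φ
    obtain ⟨ρ, hρ⟩ := φ.hasCompactSupport.isCompact.isBounded.subset_closedBall (0 : E)
    obtain ⟨C, hC⟩ := hb ρ
    obtain ⟨c, hc⟩ := φ.continuous.bounded_above_of_compact_support φ.hasCompactSupport
    have hc0 : 0 ≤ c := (norm_nonneg _).trans (hc 0)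
    have hmem : ∀ j, (∫ M, φ M ∂(ν j)) ∈ Icc (-(c * max C 0)) (c * max C 0) := by
      intro j
      have h1 := vague_abs_le (hf j) (isCompact_closedBall (0 : E) ρ) (φ := φ) (c := c)
        (fun x hx => image_eq_zero_of_notMem_tsupport fun h => hx (hρ h)) fun x _ => hc x
      have h2 : (ν j).real (Metric.closedBall 0 ρ) ≤ max C 0 := by
        have := ENNReal.toReal_mono ENNReal.ofReal_ne_top (hC j)
        rwa [ENNReal.toReal_ofReal'] at this
      exact abs_le.mp (h1.trans (mul_le_mul_of_nonneg_left h2 hc0))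
    obtain ⟨a, -, ha⟩ := isCompact_Icc.ultrafilter_le_nhds
      (𝒰.map fun j => ∫ M, φ M ∂(ν j))
      (le_principal_iff.mpr (mem_map.mpr (Eventually.of_forall hmem)))
    exact ⟨a, ha⟩
  choose L hL using key
  have hint : ∀ (φ : C_c(E, ℝ)) j, Integrable φ (ν j) := fun φ j =>
    have := hf j
    φ.continuous.integrable_of_hasCompactSupport φ.hasCompactSupport
  let Λ₀ : C_c(E, ℝ) →ₗ[ℝ] ℝ :=
    { toFun := L
      map_add' := fun φ ψ => by
        refine tendsto_nhds_unique (hL (φ + ψ)) (((hL φ).add (hL ψ)).congr fun j => ?_)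
        rw [← integral_add (hint φ j) (hint ψ j)]
        rfl
      map_smul' := fun c φ => by
        refine tendsto_nhds_unique (hL (c • φ)) (((hL φ).const_smul c).congr fun j => ?_)
        rw [← integral_smul]
        rfl }
  let Λ : C_c(E, ℝ) →ₚ[ℝ] ℝ := PositiveLinearMap.mk₀ Λ₀ fun φ hφ =>
    ge_of_tendsto' (hL φ) fun j => integral_nonneg fun x => hφ x
  refine ⟨RealRMK.rieszMeasure Λ, inferInstance, fun φ hc hs => ?_⟩
  have := RealRMK.integral_rieszMeasure Λ ⟨⟨φ, hc⟩, hs⟩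
  have h2 := hL ⟨⟨φ, hc⟩, hs⟩
  change Tendsto (fun j => ∫ M, φ M ∂(ν j)) 𝒰 (𝓝 (Λ ⟨⟨φ, hc⟩, hs⟩)) at h2
  rw [← this] at h2
  exact h2

theorem vague_compact {l : Filter ℕ} {ν : ℕ → Measure E} {μ : Measure E}
    (hf : ∀ j, IsFiniteMeasureOnCompacts (ν j)) (hμ : IsFiniteMeasureOnCompacts μ)
    (h : Vague l ν μ) {Q : Set E} (hQ : IsCompact Q) {ε : ℝ≥0∞} (hε : ε ≠ 0) :
    ∀ᶠ j in l, ν j Q ≤ μ Q + ε := vague_gen hf hμ h hQ hε

theorem vague_real {l : Filter ℕ} {ν : ℕ → Measure E} {μ : Measure E}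
    (hf : ∀ j, IsFiniteMeasureOnCompacts (ν j)) (hμ : IsFiniteMeasureOnCompacts μ)
    (h : Vague l ν μ) {Q : Set E} (hQ : IsCompact Q) :
    ∀ᶠ j in l, (ν j).real Q ≤ μ.real Q + 1 := by
  filter_upwards [vague_compact hf hμ h hQ one_ne_zero] with j hj
  have hQf : μ Q ≠ ⊤ := hQ.measure_lt_top.ne
  have := ENNReal.toReal_mono (by finiteness) hj
  rwa [ENNReal.toReal_add hQf ENNReal.one_ne_top, ENNReal.toReal_one] at this

/-- vague convergence of products -/
theorem vague_tensor {l : Filter ℕ} {ν ν' : ℕ → Measure E} {μ μ' : Measure E}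
    (hf : ∀ j, IsFiniteMeasureOnCompacts (ν j)) (hf' : ∀ j, IsFiniteMeasureOnCompacts (ν' j))
    (hμ : IsFiniteMeasureOnCompacts μ) (hμ' : IsFiniteMeasureOnCompacts μ')
    (h : Vague l ν μ) (h' : Vague l ν' μ') (κ : E × E → ℝ) (hc : Continuous κ)
    (hs : HasCompactSupport κ) :
    Tendsto (fun j => ∫ P, κ P ∂((ν j).prod (ν' j))) l (𝓝 (∫ P, κ P ∂(μ.prod μ'))) := by
  set K₁ : Set E := Prod.fst '' tsupport κ with hK₁
  set K₂ : Set E := Prod.snd '' tsupport κ with hK₂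
  have c₁ : IsCompact K₁ := hs.isCompact.image continuous_fst
  have c₂ : IsCompact K₂ := hs.isCompact.image continuous_snd
  have z₁ : ∀ x ∉ K₁, ∀ y, κ (x, y) = 0 := fun x hx y =>
    image_eq_zero_of_notMem_tsupport fun hm => hx ⟨_, hm, rfl⟩
  have z₂ : ∀ x, ∀ y ∉ K₂, κ (x, y) = 0 := fun x y hy =>
    image_eq_zero_of_notMem_tsupport fun hm => hy ⟨_, hm, rfl⟩
  have sc : ∀ x, Continuous fun y => κ (x, y) := fun x => by fun_prop
  have ss : ∀ x, HasCompactSupport fun y => κ (x, y) := fun x => HasCompactSupport.intro c₂ (z₂ x)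
  -- the integrals in the second variable
  have pc : ∀ m : Measure E, IsFiniteMeasureOnCompacts m →
      Continuous fun x => ∫ y, κ (x, y) ∂m := by
    intro m hm
    have := continuous_parametric_integral_of_continuous (μ := m)
      (f := fun x y => κ (x, y)) hc c₂
    refine this.congr fun x => ?_
    exact setIntegral_eq_integral_of_forall_compl_eq_zero (z₂ x)
  have pz : ∀ m : Measure E, ∀ x ∉ K₁, ∫ y, κ (x, y) ∂m = 0 := fun m x hx => by
    simp [z₁ x hx]
  have fub : ∀ m m' : Measure E, IsFiniteMeasureOnCompacts m → IsFiniteMeasureOnCompacts m' →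
      ∫ P, κ P ∂(m.prod m') = ∫ x, ∫ y, κ (x, y) ∂m' ∂m := fun m m' hm hm' =>
    integral_prod κ (hc.integrable_of_hasCompactSupport hs)
  have uc : UniformContinuous κ := hs.uniformContinuous_of_continuous hc
  -- equicontinuity
  have eqc : ∀ η : ℝ, 0 < η → ∃ δ : ℝ, 0 < δ ∧ ∀ m : Measure E, IsFiniteMeasureOnCompacts m →
      ∀ x x', dist x x' < δ →
        |∫ y, κ (x, y) ∂m - ∫ y, κ (x', y) ∂m| ≤ η * m.real K₂ := by
    intro η hη
    obtain ⟨δ, hδ, hd⟩ := Metric.uniformContinuous_iff.mp uc η hη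
    refine ⟨δ, hδ, fun m hm x x' hx => ?_⟩
    rw [← integral_sub ((sc x).integrable_of_hasCompactSupport (ss x))
      ((sc x').integrable_of_hasCompactSupport (ss x'))]
    refine vague_abs_le hm c₂ (fun y hy => by simp [z₂ _ y hy]) fun y _ => ?_
    have := hd (a := (x, y)) (b := (x', y)) (by simpa [Prod.dist_eq, hδ] using hx)
    exact this.le
  -- uniform convergence
  have unif : ∀ η : ℝ, 0 < η → ∀ᶠ j in l, ∀ x ∈ K₁,
      |∫ y, κ (x, y) ∂(ν' j) - ∫ y, κ (x, y) ∂μ'| ≤ η := by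
    intro η hη
    set C : ℝ := μ'.real K₂ + 1 with hC
    have hC0 : 0 < C := by positivity
    obtain ⟨δ, hδ, hd⟩ := eqc (η / (3 * C)) (by positivity)
    refine c₁.induction_on (p := fun s => ∀ᶠ j in l, ∀ x ∈ s,
      |∫ y, κ (x, y) ∂(ν' j) - ∫ y, κ (x, y) ∂μ'| ≤ η) (by simp)
      (fun s t hst ht => ht.mono fun j hj x hx => hj x (hst hx))
      (fun s t hs' ht => (hs'.and ht).mono fun j hj x hx => hx.elim (hj.1 x) (hj.2 x))
      fun x₀ _ => ⟨Metric.ball x₀ δ, mem_nhdsWithin_of_mem_nhds (Metric.ball_mem_nhds _ hδ), ?_⟩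
    have t0 := Metric.tendsto_nhds.mp (h' _ (sc x₀) (ss x₀)) (η / 3) (by positivity)
    filter_upwards [t0, vague_real hf' hμ' h' c₂] with j hj hj2 x hx
    have a1 := hd (ν' j) (hf' j) x x₀ hx
    have a2 := hd μ' hμ' x x₀ hx
    have e : η / (3 * C) * C = η / 3 := by field_simp
    have hp : 0 ≤ η / (3 * C) := by positivity
    have a3 : η / (3 * C) * (ν' j).real K₂ ≤ η / 3 :=
      e ▸ mul_le_mul_of_nonneg_left hj2 hp
    have a4 : η / (3 * C) * μ'.real K₂ ≤ η / 3 :=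
      e ▸ mul_le_mul_of_nonneg_left (by linarith) hp
    rw [Real.dist_eq] at hj
    have b1 := abs_le.mp (a1.trans a3)
    have b2 := abs_le.mp (a2.trans a4)
    have b3 := abs_lt.mp hj
    exact abs_le.mpr ⟨by linarith, by linarith⟩
  rw [fub μ μ' hμ hμ']
  have hmain := h _ (pc μ' hμ') (HasCompactSupport.intro c₁ (pz μ'))
  have hdiff : Tendsto (fun j => ∫ x, ∫ y, κ (x, y) ∂(ν' j) ∂(ν j) -
      ∫ x, ∫ y, κ (x, y) ∂μ' ∂(ν j)) l (𝓝 0) := by
    refine Metric.tendsto_nhds.mpr fun η hη => ?_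
    set C : ℝ := μ.real K₁ + 1 with hC
    have hC0 : 0 < C := by positivity
    filter_upwards [unif (η / (2 * C)) (by positivity), vague_real hf hμ h c₁] with j hj hj2
    have := hf j
    rw [Real.dist_eq, sub_zero, ← integral_sub
      ((pc _ (hf' j)).integrable_of_hasCompactSupport (HasCompactSupport.intro c₁ (pz _)))
      ((pc _ hμ').integrable_of_hasCompactSupport (HasCompactSupport.intro c₁ (pz _)))]
    refine (vague_abs_le (hf j) c₁ (fun x hx => by simp [pz _ x hx]) hj).trans_lt ?_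
    have e : η / (2 * C) * C = η / 2 := by field_simp
    have hp : 0 ≤ η / (2 * C) := by positivity
    have := mul_le_mul_of_nonneg_left hj2 hp
    linarith
  have := hdiff.add hmain
  rw [zero_add] at this
  refine this.congr fun j => ?_
  rw [fub _ _ (hf j) (hf' j)]
  ring

theorem vague_prod {l : Filter ℕ} {ν ν' : ℕ → Measure E} {μ μ' : Measure E}
    (hf : ∀ j, IsFiniteMeasureOnCompacts (ν j)) (hf' : ∀ j, IsFiniteMeasureOnCompacts (ν' j))
    (hμ : IsFiniteMeasureOnCompacts μ) (hμ' : IsFiniteMeasureOnCompacts μ')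
    (h : Vague l ν μ) (h' : Vague l ν' μ') {Z : Set (E × E)} (hZ : IsCompact Z)
    {ε : ℝ≥0∞} (hε : ε ≠ 0) :
    ∀ᶠ j in l, ((ν j).prod (ν' j)) Z ≤ (μ.prod μ') Z + ε :=
  vague_gen (ν := fun j => (ν j).prod (ν' j))
    (fun j => by have := hf j; have := hf' j; infer_instance) inferInstance
    (vague_tensor hf hf' hμ hμ' h h') hZ hε

theorem vague_null {l : Filter ℕ} [l.NeBot] {ν : ℕ → Measure E} {μ : Measure E}
    (hμ : IsFiniteMeasureOnCompacts μ) (h : Vague l ν μ) {S : Set E} (hS : IsClosed S)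
    (h0 : ∀ j, ν j Sᶜ = 0) : μ Sᶜ = 0 := by
  have := vague_regular μ hμ
  rw [hS.isOpen_compl.measure_eq_iSup_isCompact]
  simp only [ENNReal.iSup_eq_zero]
  intro K hKS hK
  obtain ⟨φ, h1, hz, hs, hI⟩ := exists_continuous_one_zero_of_isCompact hK hS
    (subset_compl_iff_disjoint_right.mp hKS)
  have e : ∀ j, ∫ M, φ M ∂(ν j) = 0 := fun j => by
    refine integral_eq_zero_of_ae ?_
    have : ∀ᵐ M ∂(ν j), M ∈ S := h0 j
    exact this.mono fun M hM => hz hM
  have t := h φ φ.continuous hs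
  simp only [e] at t
  have e2 : ∫ M, φ M ∂μ = 0 := tendsto_nhds_unique t tendsto_const_nhds
  have := vague_le_int hμ hK φ.continuous hs h1 hI
  rw [e2] at this
  have h3 : μ.real K = 0 := le_antisymm this measureReal_nonneg
  exact (measureReal_eq_zero_iff hK.measure_lt_top.ne).mp h3

theorem vague_smooth_le {μ μ' : Measure E} (hμ : IsFiniteMeasureOnCompacts μ)
    (hμ' : IsFiniteMeasureOnCompacts μ')
    (h : ∀ φ : E → ℝ, ContDiff ℝ (⊤ : ℕ∞) φ → HasCompactSupport φ →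
      ∫ M, φ M ∂μ = ∫ M, φ M ∂μ') {U : Set E} (hU : IsOpen U) : μ U ≤ μ' U := by
  have := vague_regular μ hμ
  rw [hU.measure_eq_iSup_isCompact]
  refine iSup_le fun K => iSup_le fun hKU => iSup_le fun hK => ?_
  obtain ⟨L, hL, hKL, hLU⟩ := exists_compact_between hK hU hKU
  obtain ⟨f, f0, f1, fI⟩ := exists_contMDiffMap_zero_one_of_isClosed (n := ⊤) 𝓘(ℝ, E)
    (isOpen_interior (s := L)).isClosed_compl hK.isClosed
    (disjoint_compl_left_iff_subset.mpr hKL)
  have fd : ContDiff ℝ (⊤ : ℕ∞) f := f.contMDiff.contDiff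
  have fz : EqOn f 0 Lᶜ := fun x hx => f0 fun hi => hx (interior_subset hi)
  have fs : HasCompactSupport f := HasCompactSupport.intro hL fun x hx => fz hx
  have a1 := vague_le_int hμ hK fd.continuous fs f1 fI
  have a2 := vague_int_le hμ' hL.measurableSet hL.measure_lt_top.ne fd.continuous fs fz fI
  rw [h f fd fs] at a1
  exact ((ENNReal.toReal_le_toReal hK.measure_lt_top.ne hL.measure_lt_top.ne).mp
    (a1.trans a2)).trans (measure_mono hLU)

theorem ext_smooth {μ μ' : Measure E} (hμ : IsFiniteMeasureOnCompacts μ)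
    (hμ' : IsFiniteMeasureOnCompacts μ')
    (h : ∀ φ : E → ℝ, ContDiff ℝ (⊤ : ℕ∞) φ → HasCompactSupport φ →
      ∫ M, φ M ∂μ = ∫ M, φ M ∂μ') : μ = μ' := by
  have := vague_regular μ hμ
  have := vague_regular μ' hμ'
  exact Measure.OuterRegular.ext_isOpen fun U hU => le_antisymm (vague_smooth_le hμ hμ' h hU)
    (vague_smooth_le hμ' hμ (fun φ a b => (h φ a b).symm) hU)

theorem vague_map_fin {μ : Measure E} (hμ : IsFiniteMeasureOnCompacts μ) {f g : E → E}
    (hf : Continuous f) (hg : Continuous g) (h : ∀ M, g (f M) = M) :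
    IsFiniteMeasureOnCompacts (μ.map f) := by
  refine ⟨fun K hK => ?_⟩
  rw [Measure.map_apply hf.measurable hK.measurableSet]
  refine (measure_mono (t := g '' K) fun M hM => ⟨f M, hM, h M⟩).trans_lt ?_
  exact (hK.image hg).measure_lt_top

theorem act_inv_of {μ : Measure E} (hμ : IsFiniteMeasureOnCompacts μ) (γ : SL(2, ℤ))
    (h : ∀ φ : E → ℝ, Continuous φ → HasCompactSupport φ →
      ∫ M, φ (act γ M) ∂μ = ∫ M, φ M ∂μ) : μ.map (act γ) = μ := by
  refine ext_smooth (vague_map_fin hμ (continuous_act γ) (continuous_act γ⁻¹) fun M => ?_) hμ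
    fun φ hc hs => ?_
  · rw [← act_mul, inv_mul_cancel, act_one]
  · rw [(me_act γ).integral_map, h φ hc.continuous hs]

theorem vague_hasDerivAt_fl (r : ℝ) (M : E) :
    HasDerivAt (fun s => fl s M) (star (fl r M)) r := by
  have := ((Real.hasDerivAt_cosh r).smul_const M).add
    ((Real.hasDerivAt_sinh r).smul_const (star M))
  have e : star (fl r M) = Real.sinh r • M + Real.cosh r • star M := by
    simp [fl, add_comm]
  rw [e]
  exact this

theorem vague_fderiv_fl (r : ℝ) (M : E) : fderiv ℝ (fl r) M (star M) = star (fl r M) := by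
  have h0 : HasFDerivAt (fl r) (fderiv ℝ (fl r) (fl 0 M)) (fl 0 M) :=
    (((contDiff_fl r (n := 1)).differentiable one_ne_zero) (fl 0 M)).hasFDerivAt
  have h1 : HasDerivAt (fun s => fl r (fl s M)) (fderiv ℝ (fl r) (fl 0 M) (star (fl 0 M))) 0 :=
    HasFDerivAt.comp_hasDerivAt (f := fun s => fl s M) 0 h0 (vague_hasDerivAt_fl 0 M)
  rw [fl_zero] at h1
  have h2 : HasDerivAt (fun s => fl (r + s) M) (star (fl r M)) 0 := by
    have := vague_hasDerivAt_fl (r + 0) M
    have h3 := HasDerivAt.comp_const_add r 0 this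
    rwa [add_zero] at h3
  simp only [fl_fl] at h1
  exact h1.unique h2

theorem flow_inv_of {μ : Measure E} (hμ : IsFiniteMeasureOnCompacts μ)
    (h : ∀ φ : E → ℝ, ContDiff ℝ (⊤ : ℕ∞) φ → HasCompactSupport φ →
      ∫ M, fderiv ℝ φ M (star M) ∂μ = 0) (s : ℝ) : μ.map (fl s) = μ := by
  have cf : ∀ r : ℝ, Continuous (fl r) := fun r => (contDiff_fl r (n := 0)).continuous
  have inv : ∀ (r : ℝ) (M : E), fl (-r) (fl r M) = M := fun r M => by
    rw [fl_fl, neg_add_cancel, fl_zero]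
  refine ext_smooth (vague_map_fin hμ (cf s) (cf (-s)) (inv s)) hμ fun φ hc hs => ?_
  rw [(me_fl s).integral_map]
  have hd : Differentiable ℝ φ := hc.differentiable (by simp)
  obtain ⟨ρ, hρ⟩ := hs.isCompact.isBounded.subset_closedBall (0 : E)
  have out : ∀ (R r : ℝ) (M : E), |r| ≤ R → M ∉ Metric.closedBall (0 : E) (Real.exp R * |ρ|) →
      fl r M ∉ tsupport φ := by
    intro R r M hr hM hm
    apply hM
    have h1 := mem_closedBall_zero_iff.mp (hρ hm)
    have h2 := norm_fl_le (-r) (fl r M)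
    rw [inv, abs_neg] at h2
    refine mem_closedBall_zero_iff.mpr (h2.trans ?_)
    exact mul_le_mul (Real.exp_le_exp.mpr hr) (h1.trans (le_abs_self _)) (norm_nonneg _)
      (Real.exp_pos _).le
  have cs : ∀ r : ℝ, HasCompactSupport fun M => φ (fl r M) := fun r =>
    HasCompactSupport.intro (isCompact_closedBall (0 : E) (Real.exp |r| * |ρ|)) fun M hM =>
      image_eq_zero_of_notMem_tsupport (out _ r M le_rfl hM)
  set g : E → ℝ := fun N => fderiv ℝ φ N (star N) with hg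
  have gc : Continuous g := (hc.continuous_fderiv (by simp)).clm_apply continuous_star
  have gz : ∀ N ∉ tsupport φ, g N = 0 := fun N hN => by
    simp [hg, fderiv_of_notMem_tsupport ℝ hN]
  obtain ⟨c, hcb⟩ := gc.bounded_above_of_compact_support (HasCompactSupport.intro hs.isCompact gz)
  have der : ∀ r : ℝ, HasDerivAt (fun r => ∫ M, φ (fl r M) ∂μ) 0 r := by
    intro r
    have cc : ∀ r : ℝ, Continuous fun M => φ (fl r M) := fun r => hc.continuous.comp (cf r)
    have key := hasDerivAt_integral_of_dominated_loc_of_deriv_le (μ := μ)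
      (F := fun r M => φ (fl r M)) (F' := fun r M => g (fl r M)) (x₀ := r)
      (bound := (Metric.closedBall (0 : E) (Real.exp (|r| + 1) * |ρ|)).indicator fun _ => c)
      (Metric.ball_mem_nhds r one_pos)
      (Eventually.of_forall fun r => (cc r).aestronglyMeasurable)
      ((cc r).integrable_of_hasCompactSupport (cs r))
      (gc.comp (cf r)).aestronglyMeasurable
      (Eventually.of_forall fun M x hx => ?_)
      (IntegrableOn.integrable_indicator
        (integrableOn_const (isCompact_closedBall _ _).measure_lt_top.ne)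
        Metric.isClosed_closedBall.measurableSet)
      (Eventually.of_forall fun M x _ =>
        (hd (fl x M)).hasFDerivAt.comp_hasDerivAt x (vague_hasDerivAt_fl x M))
    · have e : ∫ M, g (fl r M) ∂μ = 0 := by
        rw [← h (fun M => φ (fl r M)) (hc.comp (contDiff_fl r)) (cs r)]
        refine integral_congr_ae (Eventually.of_forall fun M => ?_)
        have := fderiv_comp (𝕜 := ℝ) M (hd (fl r M))
          (((contDiff_fl r (n := 1)).differentiable one_ne_zero) M)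
        change g (fl r M) = fderiv ℝ (φ ∘ fl r) M (star M)
        rw [this, ContinuousLinearMap.comp_apply, vague_fderiv_fl]
      have := key.2
      rwa [e] at this
    · by_cases hM : M ∈ Metric.closedBall (0 : E) (Real.exp (|r| + 1) * |ρ|)
      · rw [indicator_of_mem hM]
        exact hcb _
      · rw [indicator_of_notMem hM]
        have hx' : |x| ≤ |r| + 1 := by
          have h1 : |x - r| < 1 := by simpa [Real.dist_eq] using hx
          have h2 := abs_sub_abs_le_abs_sub x r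
          linarith
        simp [gz _ (out _ x M hx' hM)]
  have := is_const_of_deriv_eq_zero (fun r => (der r).differentiableAt) (fun r => (der r).deriv) s 0
  simpa only [fl_zero] using this

end Pool.Agent.MP_a28cf0_nt.Cub

end

-- part MP_a28cf0_nt.Cub.Lim
section

set_option autoImplicit false

namespace Pool.Agent.MP_a28cf0_nt.Cub

open MeasureTheory Complex Filter Topology Set
open scoped ENNReal MatrixGroups

theorem lim_ball {φ : E → ℝ} (h : HasCompactSupport φ) : ∃ ρ : ℝ, ∀ M : E, ρ < ‖M‖ → φ M = 0 := by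
  obtain ⟨ρ, hρ⟩ := h.isCompact.isBounded.subset_closedBall (0 : E)
  refine ⟨ρ, fun M hM => ?_⟩
  by_contra hne
  have := hρ (subset_tsupport φ hne)
  rw [mem_closedBall_zero_iff] at this
  linarith

theorem lim_test {φ : E → ℝ} (hs : ContDiffOn ℝ (⊤ : ℕ∞) φ Gp) (h : HasCompactSupport φ) :
    Test fun M => (φ M : ℂ) := by
  obtain ⟨ρ, hρ⟩ := lim_ball h
  refine ⟨Complex.ofRealCLM.contDiff.comp_contDiffOn hs, ρ, fun M _ _ hM => ?_⟩
  simp [hρ M hM]

theorem lim_int {φ : E → ℝ} (hc : ContinuousOn φ Gp) (h : HasCompactSupport φ) {g : E → ℂ}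
    (hg : ContinuousOn g Gp) : Integrable (fun M => φ M * ‖g M‖ ^ 2) nu := by
  obtain ⟨ρ, hρ⟩ := lim_ball h
  exact integrable_of_cont (ρ := ρ) (hc.mul (hg.norm.pow 2)) fun M _ hM => by simp [hρ M hM]

theorem lim_split {t K K' : ℝ} {c : ℤ → ℝ} {Φ : ℤ → E → ℂ} (ht : 1 ≤ t) (h : Sys t Φ)
    (hc : Coef3 K (√t) c) (hc' : Coef K' (√t) (ctil t c)) {φ : E → ℝ} (hφ : ContinuousOn φ Gp)
    (hs : HasCompactSupport φ) :
    ∫ M, φ M ∂(lift t c Φ) = (∫ M, φ M * ‖pk c Φ M‖ ^ 2 ∂nu) / √t +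
      (∫ M, φ M * ‖pk (ctil t c) Φ M‖ ^ 2 ∂nu) / √t := by
  rw [integral_lift ht h hc, ← add_div, ← integral_add
    (lim_int hφ hs (pk_smooth h hc.toCoef).continuousOn)
    (lim_int hφ hs (pk_smooth h hc').continuousOn), ← integral_div]
  refine integral_congr_ae (Eventually.of_forall fun M => ?_)
  ring

theorem lim_cast (φ : E → ℝ) (g : E → ℂ) :
    ∫ M, (φ M : ℂ) * ((‖g M‖ ^ 2 : ℝ) : ℂ) ∂nu = ((∫ M, φ M * ‖g M‖ ^ 2 ∂nu : ℝ) : ℂ) := by
  rw [← integral_complex_ofReal]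
  refine integral_congr_ae (Eventually.of_forall fun M => ?_)
  push_cast
  ring

theorem lim_X1 {φ : E → ℝ} (hs : ContDiff ℝ (⊤ : ℕ∞) φ) (M : E) :
    X1 (fun M => (φ M : ℂ)) M = ((fderiv ℝ φ M (star M) : ℝ) : ℂ) := by
  have h1 : HasFDerivAt φ (fderiv ℝ φ M) M := (hs.differentiable (by simp) M).hasFDerivAt
  have h2 := Complex.ofRealCLM.hasFDerivAt.comp M h1
  have h3 : fderiv ℝ (fun M => (φ M : ℂ)) M = _ := h2.fderiv
  unfold X1
  rw [h3]
  simp

theorem lim_div {𝒰 : Ultrafilter ℕ} {t : ℕ → ℝ} (ht : Tendsto t 𝒰 atTop) (C : ℝ) :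
    Tendsto (fun j => C / √(t j)) 𝒰 (𝓝 0) :=
  (Real.tendsto_sqrt_atTop.comp ht).const_div_atTop C

theorem lim_flow {𝒰 : Ultrafilter ℕ} {K : ℝ} {t : ℕ → ℝ} {c : ℕ → ℤ → ℝ}
    {Φ : ℕ → ℤ → E → ℂ} (h1 : ∀ j, 1 ≤ t j) (ht : Tendsto t 𝒰 atTop)
    (hS : ∀ j, Sys (t j) (Φ j)) (hc : ∀ j, Coef3 K (√(t j)) (c j)) {μ : Measure E}
    (hv : Vague 𝒰 (fun j => lift (t j) (c j) (Φ j)) μ) {φ : E → ℝ}
    (hs : ContDiff ℝ (⊤ : ℕ∞) φ) (hk : HasCompactSupport φ) :
    ∫ M, fderiv ℝ φ M (star M) ∂μ = 0 := by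
  obtain ⟨K', hK'⟩ := ctil_coef K
  have hT := lim_test hs.contDiffOn hk
  obtain ⟨C₁, hC₁⟩ := X1_small hT K
  obtain ⟨C₂, hC₂⟩ := X1_small hT K'
  have hψc : Continuous fun M : E => fderiv ℝ φ M (star M) :=
    (hs.continuous_fderiv (by simp)).clm_apply continuous_star
  have hψk : HasCompactSupport fun M : E => fderiv ℝ φ M (star M) := by
    refine (hk.fderiv (𝕜 := ℝ)).mono fun M hM => ?_
    intro h0
    apply hM
    simp only [h0, zero_apply]
  refine tendsto_nhds_unique (hv _ hψc hψk) ?_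
  refine squeeze_zero_norm (a := fun j => C₁ / √(t j) + C₂ / √(t j)) (fun j => ?_) ?_
  · rw [lim_split (h1 j) (hS j) (hc j) (hK' _ _ (h1 j) (hc j)) hψc.continuousOn hψk]
    have a₁ := hC₁ _ _ _ (h1 j) (hS j) (hc j).toCoef
    have a₂ := hC₂ _ _ _ (h1 j) (hS j) (hK' _ _ (h1 j) (hc j))
    simp only [lim_X1 hs, lim_cast, Complex.norm_real] at a₁ a₂
    refine (norm_add_le _ _).trans (add_le_add ?_ ?_)
    · rw [norm_div, Real.norm_of_nonneg (Real.sqrt_nonneg _)]
      gcongr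
    · rw [norm_div, Real.norm_of_nonneg (Real.sqrt_nonneg _)]
      gcongr
  · simpa using (lim_div ht C₁).add (lim_div ht C₂)

theorem lim_inv {𝒰 : Ultrafilter ℕ} {K : ℝ} {t : ℕ → ℝ} {c : ℕ → ℤ → ℝ}
    {Φ : ℕ → ℤ → E → ℂ} (h1 : ∀ j, 1 ≤ t j)
    (hS : ∀ j, Sys (t j) (Φ j)) (hc : ∀ j, Coef3 K (√(t j)) (c j)) {μ : Measure E}
    (hv : Vague 𝒰 (fun j => lift (t j) (c j) (Φ j)) μ) (γ : SL(2, ℤ)) {φ : E → ℝ}
    (hs : Continuous φ) (hk : HasCompactSupport φ) :
    ∫ M, φ (act γ M) ∂μ = ∫ M, φ M ∂μ := by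
  let e : E ≃ₜ E :=
    { toFun := act γ
      invFun := act γ⁻¹
      left_inv := fun M => by rw [← act_mul, inv_mul_cancel, act_one]
      right_inv := fun M => by rw [← act_mul, mul_inv_cancel, act_one]
      continuous_toFun := continuous_act γ
      continuous_invFun := continuous_act γ⁻¹ }
  have hk' : HasCompactSupport fun M => φ (act γ M) := hk.comp_homeomorph e
  have a₁ := hv _ (hs.comp (continuous_act γ)) hk'
  have a₂ := hv _ hs hk
  refine tendsto_nhds_unique a₁ (a₂.congr fun j => ?_)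
  rw [integral_lift (h1 j) (hS j) (hc j), integral_lift (h1 j) (hS j) (hc j),
    ← (mp_act γ).integral_comp (me_act γ)]
  simp only [pk_inv _ (hS j), Function.comp]

/-- the cutoff in the cusp -/
theorem lim_cut (ρ : ℝ) : ∃ φ : E → ℝ, Continuous φ ∧ ContDiffOn ℝ (⊤ : ℕ∞) φ Gp ∧
    HasCompactSupport φ ∧ (∀ M, 0 ≤ φ M ∧ φ M ≤ 1) ∧ (∀ θ M, φ (rot θ M) = φ M) ∧
    (∀ M, M ∈ Fe → 2 ≤ (pr M).im → ‖M‖ ≤ ρ → φ M = 1) ∧
    ∀ M, φ M ≠ 0 → |(pr M).re| < 1 ∧ 1 < (pr M).im := by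
  obtain ⟨χ, hs, hk, h01, h1, hr, -⟩ := exists_cutoff ρ
  set S := Real.smoothTransition with hS
  let φ : E → ℝ := fun M => χ M * (S (2 * dt M - 1) *
    (S (2 - 2 * (pr M).re) * S (2 + 2 * (pr M).re) * S ((pr M).im - 1)))
  have hSd : ContDiff ℝ (⊤ : ℕ∞) S := Real.smoothTransition.contDiff
  have hre : ContDiffOn ℝ (⊤ : ℕ∞) (fun M => (pr M).re) Gp :=
    Complex.reCLM.contDiff.comp_contDiffOn contDiffOn_pr
  have him : ContDiffOn ℝ (⊤ : ℕ∞) (fun M => (pr M).im) Gp :=
    Complex.imCLM.contDiff.comp_contDiffOn contDiffOn_pr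
  have hd : ContDiffOn ℝ (⊤ : ℕ∞) φ Gp := by
    refine hs.contDiffOn.mul (ContDiffOn.mul ?_ (ContDiffOn.mul (ContDiffOn.mul ?_ ?_) ?_))
    · exact (hSd.comp ((contDiff_const.mul contDiff_dt).sub contDiff_const)).contDiffOn
    · exact hSd.comp_contDiffOn (contDiffOn_const.sub (contDiffOn_const.mul hre))
    · exact hSd.comp_contDiffOn (contDiffOn_const.add (contDiffOn_const.mul hre))
    · exact hSd.comp_contDiffOn (him.sub contDiffOn_const)
  have n0 : ∀ x, 0 ≤ S x := Real.smoothTransition.nonneg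
  have n1 : ∀ x, S x ≤ 1 := Real.smoothTransition.le_one
  refine ⟨φ, ?_, hd, hk.mul_right, fun M => ⟨?_, ?_⟩, fun θ M => ?_, fun M hM h2 hρ => ?_,
    fun M hM => ?_⟩
  · rw [continuous_iff_continuousAt]
    intro M
    by_cases hM : M ∈ Gp
    · exact hd.continuousOn.continuousAt (isOpen_Gp.mem_nhds hM)
    · have hM' : dt M < 1 / 2 := by
        have : ¬ 0 < dt M := hM
        linarith [not_lt.1 this]
      have : φ =ᶠ[𝓝 M] fun _ => 0 := by
        filter_upwards [(isOpen_lt continuous_dt continuous_const).mem_nhds hM'] with N hN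
        have hN' : dt N < 1 / 2 := hN
        have : S (2 * dt N - 1) = 0 := Real.smoothTransition.zero_of_nonpos (by linarith)
        simp [φ, this]
      exact continuousAt_const.congr this.symm
  · exact mul_nonneg (h01 M).1 (mul_nonneg (n0 _) (mul_nonneg (mul_nonneg (n0 _) (n0 _)) (n0 _)))
  · exact mul_le_one₀ (h01 M).2
      (mul_nonneg (n0 _) (mul_nonneg (mul_nonneg (n0 _) (n0 _)) (n0 _)))
      (mul_le_one₀ (n1 _) (mul_nonneg (mul_nonneg (n0 _) (n0 _)) (n0 _))
        (mul_le_one₀ (mul_le_one₀ (n1 _) (n0 _) (n1 _)) (n0 _) (n1 _)))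
  · simp only [φ, hr, dt_rot, pr_rot]
  · obtain ⟨⟨a₁, -⟩, -, a₂, -⟩ := hM
    obtain ⟨a₃, a₄⟩ := abs_le.1 a₂
    have e₁ : S (2 * dt M - 1) = 1 := Real.smoothTransition.one_of_one_le (by linarith)
    have e₂ : S (2 - 2 * (pr M).re) = 1 := Real.smoothTransition.one_of_one_le (by linarith)
    have e₃ : S (2 + 2 * (pr M).re) = 1 := Real.smoothTransition.one_of_one_le (by linarith)
    have e₄ : S ((pr M).im - 1) = 1 := Real.smoothTransition.one_of_one_le (by linarith)
    simp [φ, e₁, e₂, e₃, e₄, h1 M hρ]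
  · have key : ∀ x, S x ≠ 0 → 0 < x := fun x hx => by
      by_contra h
      exact hx (Real.smoothTransition.zero_of_nonpos (not_lt.1 h))
    simp only [φ, ne_eq, mul_eq_zero, not_or] at hM
    obtain ⟨-, -, ⟨b₁, b₂⟩, b₃⟩ := hM
    have c₁ := key _ b₁
    have c₂ := key _ b₂
    have c₃ := key _ b₃
    exact ⟨abs_lt.2 ⟨by linarith, by linarith⟩, by linarith⟩

theorem lim_strip {t : ℝ} {Φ : ℤ → E → ℂ} (h : Sys t Φ) {φ : E → ℝ} (hc : ContinuousOn φ Gp)
    (hk : HasCompactSupport φ) (h01 : ∀ M, 0 ≤ φ M ∧ φ M ≤ 1)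
    (hs : ∀ M, φ M ≠ 0 → |(pr M).re| < 1 ∧ 1 < (pr M).im) :
    ∫ M, φ M * ‖Φ 0 M‖ ^ 2 ∂nu ≤ 300 := by
  rw [integral_eq_lintegral_of_nonneg_ae
    (Eventually.of_forall fun M => mul_nonneg (h01 M).1 (sq_nonneg _))
    (lim_int hc hk (h.cont 0)).aestronglyMeasurable]
  refine ENNReal.toReal_le_of_le_ofReal (by norm_num) ?_
  refine le_trans ?_ ((mass_strip h).trans (by norm_num))
  refine le_trans (lintegral_mono fun M => ?_) (lintegral_indicator_le _ _)
  by_cases hM : φ M = 0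
  · simp [hM]
  · rw [indicator_of_mem (show M ∈ {M : E | |(pr M).re| < 1 ∧ 1 < (pr M).im} from hs M hM),
      ← ofReal_norm, ← ENNReal.ofReal_pow (norm_nonneg _)]
    exact ENNReal.ofReal_le_ofReal (mul_le_of_le_one_left (sq_nonneg _) (h01 M).2)

theorem lim_mass {φ : E → ℝ} (hd : ContDiffOn ℝ (⊤ : ℕ∞) φ Gp)
    (hk : HasCompactSupport φ) (h01 : ∀ M, 0 ≤ φ M ∧ φ M ≤ 1) (hr : ∀ θ M, φ (rot θ M) = φ M)
    (hs : ∀ M, φ M ≠ 0 → |(pr M).re| < 1 ∧ 1 < (pr M).im) (K : ℝ) :
    ∃ C : ℝ, ∀ (t : ℝ) (d : ℤ → ℝ) (Φ : ℤ → E → ℂ), 1 ≤ t → Sys t Φ → Coef K (√t) d →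
      (∫ M, φ M * ‖pk d Φ M‖ ^ 2 ∂nu) / √t ≤ (2 * |K| + 3) * K ^ 2 * (300 + C / √t) := by
  obtain ⟨C, hC⟩ := l2_drift (lim_test hd hk) K
  obtain ⟨ρ, hρ⟩ := lim_ball hk
  refine ⟨|C|, fun t d Φ ht h hc => ?_⟩
  have hc0 := hd.continuousOn
  have hst : 1 ≤ √t := Real.one_le_sqrt.2 ht
  set L : ℕ := ⌈K * √t⌉₊ with hL
  have hL1 : K * √t ≤ L := Nat.le_ceil _
  have hL2 : (L : ℝ) ≤ |K| * √t + 1 := by
    rcases le_total 0 (K * √t) with h0 | h0
    · have := Nat.ceil_lt_add_one h0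
      have h2 : K * √t ≤ |K| * √t := by gcongr; exact le_abs_self K
      linarith
    · rw [hL, Nat.ceil_eq_zero.2 h0]
      simp only [Nat.cast_zero]
      positivity
  have e₁ : ∫ M, φ M * ‖pk d Φ M‖ ^ 2 ∂nu =
      ∑ n ∈ Finset.Icc (-(L : ℤ)) L, ∫ M, φ M * ‖(d n : ℂ) * Φ n M‖ ^ 2 ∂nu := by
    simp only [pk_eq_sum hc hL1]
    refine orth _ (fun n M => (d n : ℂ) * Φ n M) (fun n _ θ M => ?_) φ hr fun n _ k _ => ?_
    · rw [h.wt]
      ring
    · refine integrable_of_cont (ρ := ρ) ?_ fun M _ hM => by simp [hρ M hM]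
      refine (Complex.continuous_ofReal.comp_continuousOn hc0).mul
        ((continuousOn_const.mul (h.cont n)).mul ?_)
      exact Complex.continuous_conj.comp_continuousOn (continuousOn_const.mul (h.cont k))
  have hB : 0 ≤ 300 + |C| / √t := by positivity
  have e₂ : ∀ n ∈ Finset.Icc (-(L : ℤ)) L, ∫ M, φ M * ‖(d n : ℂ) * Φ n M‖ ^ 2 ∂nu ≤
      K ^ 2 * (300 + |C| / √t) := by
    intro n _
    have a₁ : ∫ M, φ M * ‖(d n : ℂ) * Φ n M‖ ^ 2 ∂nu =
        d n ^ 2 * ∫ M, φ M * ‖Φ n M‖ ^ 2 ∂nu := by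
      rw [← integral_const_mul]
      refine integral_congr_ae (Eventually.of_forall fun M => ?_)
      simp only [norm_mul, Complex.norm_real, Real.norm_eq_abs, mul_pow, sq_abs]
      ring
    rw [a₁]
    rcases le_total (K * √t) |(n : ℝ)| with hn | hn
    · rw [hc.supp n hn]
      simp only [ne_eq, OfNat.ofNat_ne_zero, not_false_eq_true, zero_pow, zero_mul]
      positivity
    · have a₂ := hC t Φ ht h n hn
      rw [lim_cast, lim_cast, ← Complex.ofReal_sub, Complex.norm_real, Real.norm_eq_abs] at a₂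
      have a₃ := lim_strip h hc0 hk h01 hs
      have a₄ : C / √t ≤ |C| / √t := by gcongr; exact le_abs_self C
      have a₅ : ∫ M, φ M * ‖Φ n M‖ ^ 2 ∂nu ≤ 300 + |C| / √t := by
        linarith [(abs_le.1 a₂).2]
      have a₆ : d n ^ 2 ≤ K ^ 2 := by
        rw [← sq_abs (d n)]
        exact pow_le_pow_left₀ (abs_nonneg _) (hc.bd n) 2
      calc d n ^ 2 * ∫ M, φ M * ‖Φ n M‖ ^ 2 ∂nu ≤ d n ^ 2 * (300 + |C| / √t) :=
            mul_le_mul_of_nonneg_left a₅ (sq_nonneg _)
        _ ≤ _ := mul_le_mul_of_nonneg_right a₆ hB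
  have e₃ := Finset.sum_le_card_nsmul _ _ _ e₂
  have e₄ : ((Finset.Icc (-(L : ℤ)) L).card : ℝ) = 2 * L + 1 := by
    have : (Finset.Icc (-(L : ℤ)) L).card = 2 * L + 1 := by
      rw [Int.card_Icc]
      omega
    rw [this]
    push_cast
    ring
  rw [nsmul_eq_mul, e₄, ← e₁] at e₃
  rw [div_le_iff₀ (by positivity)]
  refine e₃.trans ?_
  have e₅ : 2 * (L : ℝ) + 1 ≤ (2 * |K| + 3) * √t := by nlinarith [abs_nonneg K]
  calc (2 * (L : ℝ) + 1) * (K ^ 2 * (300 + |C| / √t))
      ≤ ((2 * |K| + 3) * √t) * (K ^ 2 * (300 + |C| / √t)) :=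
        mul_le_mul_of_nonneg_right e₅ (by positivity)
    _ = _ := by ring

theorem lim_low {M : E} (hM : M ∈ Fe) (h2 : (pr M).im ≤ 2) : ‖M‖ ≤ 8 := by
  obtain ⟨hS, a₀, a₁, a₂⟩ := hM
  have hG := Sh_subset hS
  have hne := snd_ne_zero hG
  have b₁ : 1 ≤ (pr M).re ^ 2 + (pr M).im ^ 2 := by
    have := Complex.sq_norm (pr M)
    rw [Complex.normSq_apply] at this
    nlinarith
  obtain ⟨a₃, a₄⟩ := abs_le.1 a₁
  have b₂ : 4 / 5 ≤ (pr M).im := by
    by_contra h
    have := not_le.1 h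
    nlinarith
  have b₃ : 0 < normSq M.2 := Complex.normSq_pos.2 hne
  have b₄ : (pr M).im * normSq M.2 = dt M := by
    rw [im_pr]
    field_simp
  have b₅ : ‖M.2‖ ≤ 3 := by
    have := Complex.sq_norm M.2
    have h4 := hS.2
    by_contra h
    have := not_le.1 h
    nlinarith
  have b₆ : ‖pr M‖ ≤ 5 / 2 := by
    refine (Complex.norm_le_abs_re_add_abs_im _).trans ?_
    rw [abs_of_pos a₀]
    linarith
  have b₇ : ‖M.1‖ = ‖pr M‖ * ‖M.2‖ := by
    rw [← norm_mul, pr, div_mul_cancel₀ _ hne]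
  rw [Prod.norm_def]
  refine max_le ?_ (by linarith)
  rw [b₇]
  nlinarith [norm_nonneg (pr M), norm_nonneg M.2]

theorem lim_fd {𝒰 : Ultrafilter ℕ} {K : ℝ} {t : ℕ → ℝ} {c : ℕ → ℤ → ℝ}
    {Φ : ℕ → ℤ → E → ℂ} (h1 : ∀ j, 1 ≤ t j) (ht : Tendsto t 𝒰 atTop)
    (hS : ∀ j, Sys (t j) (Φ j)) (hc : ∀ j, Coef3 K (√(t j)) (c j)) {μ : Measure E}
    (hμ : IsFiniteMeasureOnCompacts μ)
    (hv : Vague 𝒰 (fun j => lift (t j) (c j) (Φ j)) μ) : μ Fe < ⊤ := by
  obtain ⟨K', hK'⟩ := ctil_coef K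
  set B : ℝ := (2 * |K| + 3) * K ^ 2 * (300 + 0) + (2 * |K'| + 3) * K' ^ 2 * (300 + 0) with hB
  let P : ℕ → Set E := fun n => {M | M ∈ Fe ∧ 2 ≤ (pr M).im ∧ ‖M‖ ≤ n}
  have hP : ∀ n, μ (P n) ≤ ENNReal.ofReal B := by
    intro n
    obtain ⟨φ, hc0, hd, hk, h01, hr, hone, hs⟩ := lim_cut n
    obtain ⟨C₁, hC₁⟩ := lim_mass hd hk h01 hr hs K
    obtain ⟨C₂, hC₂⟩ := lim_mass hd hk h01 hr hs K'
    have a₁ : ∫ M, φ M ∂μ ≤ B := by
      refine le_of_tendsto_of_tendsto' (hv φ hc0 hk)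
        ((((lim_div ht C₁).const_add 300).const_mul ((2 * |K| + 3) * K ^ 2)).add
          (((lim_div ht C₂).const_add 300).const_mul ((2 * |K'| + 3) * K' ^ 2))) fun j => ?_
      rw [lim_split (h1 j) (hS j) (hc j) (hK' _ _ (h1 j) (hc j)) hc0.continuousOn hk]
      exact add_le_add (hC₁ _ _ _ (h1 j) (hS j) (hc j).toCoef)
        (hC₂ _ _ _ (h1 j) (hS j) (hK' _ _ (h1 j) (hc j)))
    have a₂ : Integrable φ μ := hc0.integrable_of_hasCompactSupport hk
    have a₃ := mul_meas_ge_le_lintegral₀ (μ := μ) (f := fun M => ENNReal.ofReal (φ M))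
      hc0.measurable.ennreal_ofReal.aemeasurable 1
    rw [one_mul, ← ofReal_integral_eq_lintegral_ofReal a₂
      (Eventually.of_forall fun M => (h01 M).1)] at a₃
    refine le_trans (measure_mono fun M hM => ?_) (a₃.trans (ENNReal.ofReal_le_ofReal a₁))
    simp [hone M hM.1 hM.2.1 hM.2.2]
  have hmono : Monotone P := fun a b hab M hM =>
    ⟨hM.1, hM.2.1, hM.2.2.trans (Nat.cast_le.2 hab)⟩
  have hU : μ (⋃ n, P n) ≤ ENNReal.ofReal B := by
    rw [hmono.measure_iUnion]
    exact iSup_le hP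
  have hsub : Fe ⊆ Metric.closedBall 0 8 ∪ ⋃ n, P n := by
    intro M hM
    rcases le_total (pr M).im 2 with h | h
    · exact Or.inl (mem_closedBall_zero_iff.2 (lim_low hM h))
    · exact Or.inr (mem_iUnion.2 ⟨⌈‖M‖⌉₊, hM, h, Nat.le_ceil _⟩)
  refine (measure_mono hsub).trans_lt ((measure_union_le _ _).trans_lt ?_)
  exact ENNReal.add_lt_top.2 ⟨(isCompact_closedBall _ _).measure_lt_top,
    hU.trans_lt ENNReal.ofReal_lt_top⟩

theorem exists_limit (𝒰 : Ultrafilter ℕ) (K : ℝ) (t : ℕ → ℝ) (c : ℕ → ℤ → ℝ)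
    (Φ : ℕ → ℤ → E → ℂ) (h1 : ∀ j, 1 ≤ t j) (ht : Tendsto t 𝒰 atTop)
    (hS : ∀ j, Sys (t j) (Φ j)) (hc : ∀ j, Coef3 K (√(t j)) (c j)) :
    ∃ μ : Measure E, Good μ ∧ Vague 𝒰 (fun j => lift (t j) (c j) (Φ j)) μ := by
  obtain ⟨μ, hμ, hv⟩ := exists_vague 𝒰 (fun j => lift (t j) (c j) (Φ j))
    (fun j => lift_fin (h1 j) (hS j) (hc j)) fun ρ => by
      obtain ⟨C, hC⟩ := lift_bound ρ K
      exact ⟨C, fun j => hC _ _ _ (h1 j) (hS j) (hc j)⟩
  refine ⟨μ, ⟨hμ, ?_, fun γ => ?_, fun s => ?_, lim_fd h1 ht hS hc hμ hv⟩, hv⟩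
  · refine vague_null hμ hv isClosed_Sh fun j => ?_
    exact withDensity_absolutelyContinuous nu _ (mem_ae_iff.1 ae_mem_Sh)
  · exact act_inv_of hμ γ fun φ hs hk => lim_inv h1 hS hc hv γ hs hk
  · exact flow_inv_of hμ (fun φ hs hk => lim_flow h1 ht hS hc hv hs hk) s

end Pool.Agent.MP_a28cf0_nt.Cub

end

-- part MP_a28cf0_nt.Cub.Surf
section

set_option autoImplicit false

namespace Pool.Agent.MP_a28cf0_nt.Cub

open MeasureTheory Complex Filter Topology Set
open scoped ENNReal MatrixGroups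

theorem surf_meas_of_sigma {S : Set E} (h : IsSigmaCompact S) : MeasurableSet S := by
  obtain ⟨K, hK, rfl⟩ := h
  exact MeasurableSet.iUnion fun n => (hK n).isClosed.measurableSet

theorem surf_meas_image {X : Type} [TopologicalSpace X] [SigmaCompactSpace X] {T : Set X}
    (hT : IsClosed T) {φ : X → E} (hφ : Continuous φ) : MeasurableSet (φ '' T) :=
  surf_meas_of_sigma ((isSigmaCompact_univ.of_isClosed_subset hT (subset_univ _)).image hφ)

theorem measurableSet_Orb (N : E) : MeasurableSet (Orb N) := by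
  have h : Orb N = (fun p : ℝ × ℝ => Real.exp p.1 • fl p.2 N) '' univ := by
    ext P
    constructor
    · rintro ⟨s, hs, b, rfl⟩
      exact ⟨(Real.log s, b), mem_univ _, by simp only [Real.exp_log hs]⟩
    · rintro ⟨p, -, rfl⟩
      exact ⟨_, Real.exp_pos _, _, rfl⟩
  rw [h]
  exact surf_meas_image isClosed_univ (by fun_prop)

theorem surf_mem_Orb (N : E) : N ∈ Orb N := ⟨1, one_pos, 0, by rw [fl_zero, one_smul]⟩

theorem surf_Orb_sub {N P : E} (h : P ∈ Orb N) : Orb P ⊆ Orb N := by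
  obtain ⟨s, hs, b, rfl⟩ := h
  rintro Q ⟨s', hs', b', rfl⟩
  exact ⟨s' * s, mul_pos hs' hs, b' + b, by rw [fl_smul, fl_fl, smul_smul]⟩

theorem surf_Orb_symm {N P : E} (h : P ∈ Orb N) : N ∈ Orb P := by
  obtain ⟨s, hs, b, rfl⟩ := h
  refine ⟨s⁻¹, inv_pos.2 hs, -b, ?_⟩
  rw [fl_smul, fl_fl, smul_smul, neg_add_cancel, fl_zero, inv_mul_cancel₀ hs.ne', one_smul]

theorem surf_Orb_eq {N P : E} (h : P ∈ Orb N) : Orb P = Orb N :=
  (surf_Orb_sub h).antisymm (surf_Orb_sub (surf_Orb_symm h))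

theorem surf_Orb_Gp {N P : E} (hN : N ∈ Gp) (h : P ∈ Orb N) : P ∈ Gp := by
  obtain ⟨s, hs, b, rfl⟩ := h
  change 0 < dt _
  rw [dt_smul, dt_fl]
  exact mul_pos (pow_pos hs 2) hN

theorem surf_sfinite {μ : Measure E} (h : Good μ) : SFinite μ := by
  have := h.fin
  infer_instance

/-- the union of the orbits of positive mass is a countable union of orbits -/
theorem At_eq {μ : Measure E} (h : Good μ) :
    ∃ S : Set E, S.Countable ∧ S ⊆ Gp ∧ At μ = ⋃ g ∈ S, Orb g := by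
  have := surf_sfinite h
  let ι := {O : Set E // ∃ N ∈ Gp, O = Orb N}
  have hc : Set.Countable {i : ι | 0 < μ (i : Set E)} := by
    refine Measure.countable_meas_pos_of_disjoint_iUnion (As := fun i : ι => (i : Set E)) ?_ ?_
    · rintro ⟨O, N, -, rfl⟩
      exact measurableSet_Orb N
    · rintro ⟨O, N, hN, rfl⟩ ⟨O', N', hN', rfl⟩ hne
      refine Set.disjoint_left.2 fun P hP hP' => hne ?_
      exact Subtype.ext ((surf_Orb_eq hP).symm.trans (surf_Orb_eq hP'))
  choose rep hrep using fun i : ι => i.2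
  refine ⟨rep '' {i : ι | 0 < μ (i : Set E)}, hc.image _, ?_, ?_⟩
  · rintro _ ⟨i, -, rfl⟩
    exact (hrep i).1
  · ext N
    simp only [mem_iUnion, exists_prop]
    constructor
    · rintro ⟨hN, h0⟩
      let i : ι := ⟨Orb N, N, hN, rfl⟩
      refine ⟨rep i, ⟨i, pos_iff_ne_zero.2 h0, rfl⟩, ?_⟩
      rw [← (hrep i).2]
      exact surf_mem_Orb N
    · rintro ⟨_, ⟨i, hi, rfl⟩, hN⟩
      refine ⟨surf_Orb_Gp (hrep i).1 hN, ?_⟩
      rw [surf_Orb_eq hN, ← (hrep i).2]
      exact (pos_iff_ne_zero.1 hi)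

theorem surf_meas_At {μ : Measure E} (h : Good μ) : MeasurableSet (At μ) := by
  obtain ⟨S, hS, -, hA⟩ := At_eq h
  rw [hA]
  exact MeasurableSet.biUnion hS fun g _ => measurableSet_Orb g

theorem surf_At_fl (μ : Measure E) (b : ℝ) (N : E) : fl b N ∈ At μ ↔ N ∈ At μ := by
  have h1 : fl b N ∈ Orb N := ⟨1, one_pos, b, by rw [one_smul]⟩
  simp only [At, mem_ofPred_eq, surf_Orb_eq h1, Gp, dt_fl]

theorem surf_Orb_null {μ : Measure E} {N : E} (hN : N ∈ Gp) : μ (Orb N \ At μ) = 0 := by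
  by_cases h0 : μ (Orb N) = 0
  · exact measure_mono_null sdiff_subset h0
  · have : Orb N \ At μ = ∅ := by
      refine eq_empty_of_forall_notMem fun P hP => hP.2 ⟨surf_Orb_Gp hN hP.1, ?_⟩
      rw [surf_Orb_eq hP.1]
      exact h0
    rw [this, measure_empty]

theorem surf_pre_act {μ : Measure E} (h : Good μ) (γ : SL(2, ℤ)) (A : Set E) :
    μ (act γ ⁻¹' A) = μ A := by
  rw [← (me_act γ).map_apply, h.inv γ]

theorem surf_pre_fl {μ : Measure E} (h : Good μ) (s : ℝ) (A : Set E) :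
    μ (fl s ⁻¹' A) = μ A := by
  rw [← (me_fl s).map_apply, h.flow s]

theorem surf_countable : Countable SL(2, ℤ) := by
  have : Countable (Matrix (Fin 2) (Fin 2) ℤ) := inferInstanceAs (Countable (Fin 2 → Fin 2 → ℤ))
  exact Subtype.countable

/-- a set whose translates are almost disjoint, up to finitely many, has finite mass -/
theorem surf_mult_bound {μ : Measure E} (h : Good μ) {A : Set E} (hA : MeasurableSet A)
    (F : Finset SL(2, ℤ)) (hF : ∀ γ ∉ F, μ (A ∩ act γ ⁻¹' A) = 0) :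
    μ A ≤ F.card * μ Fe := by
  classical
  have := surf_countable
  have hm : ∀ γ : SL(2, ℤ), MeasurableSet (act γ ⁻¹' A) := fun γ => (me_act γ).measurable hA
  have h1 : μ A ≤ ∑' γ : SL(2, ℤ), μ (act γ ⁻¹' A ∩ Fe) := by
    have hcov : A ⊆ Shᶜ ∪ ⋃ γ : SL(2, ℤ), act γ⁻¹ ⁻¹' (act γ ⁻¹' A ∩ Fe) := by
      intro M hM
      by_cases hs : M ∈ Sh
      · obtain ⟨γ, hγ⟩ := exists_fd (Sh_subset hs)
        refine Or.inr (mem_iUnion.2 ⟨γ⁻¹, ?_, ?_, ?_⟩)
        · change act γ⁻¹ (act γ⁻¹⁻¹ M) ∈ A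
          rw [← act_mul, mul_inv_cancel, act_one]
          exact hM
        · change 1 ≤ dt _ ∧ dt _ ≤ 4
          rw [dt_act]
          exact hs
        · rw [inv_inv]
          exact hγ
      · exact Or.inl hs
    calc μ A ≤ μ Shᶜ + μ (⋃ γ : SL(2, ℤ), act γ⁻¹ ⁻¹' (act γ ⁻¹' A ∩ Fe)) :=
          (measure_mono hcov).trans (measure_union_le _ _)
      _ ≤ ∑' γ : SL(2, ℤ), μ (act γ⁻¹ ⁻¹' (act γ ⁻¹' A ∩ Fe)) := by
          rw [h.sh, zero_add]
          exact measure_iUnion_le _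
      _ = _ := by simp only [surf_pre_act h]
  have h2 : ∑' γ : SL(2, ℤ), μ (act γ ⁻¹' A ∩ Fe) =
      ∫⁻ M in Fe, ∑' γ : SL(2, ℤ), (act γ ⁻¹' A).indicator (fun _ => (1 : ℝ≥0∞)) M ∂μ := by
    rw [lintegral_tsum fun γ => (measurable_const.indicator (hm γ)).aemeasurable]
    refine tsum_congr fun γ => ?_
    rw [lintegral_indicator (hm γ), setLIntegral_const, one_mul, Measure.restrict_apply (hm γ)]
  have h3 : ∀ᵐ M ∂μ, ∀ γ γ' : SL(2, ℤ), γ' * γ⁻¹ ∉ F → act γ M ∈ A → act γ' M ∉ A := by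
    rw [ae_all_iff]
    intro γ
    rw [ae_all_iff]
    intro γ'
    by_cases hg : γ' * γ⁻¹ ∈ F
    · exact Eventually.of_forall fun M h' => absurd hg h'
    · have h0 : μ (act γ ⁻¹' (A ∩ act (γ' * γ⁻¹) ⁻¹' A)) = 0 := by
        rw [surf_pre_act h, hF _ hg]
      refine (measure_eq_zero_iff_ae_notMem.1 h0).mono fun M hM _ h1 h2 => hM ⟨h1, ?_⟩
      change act (γ' * γ⁻¹) (act γ M) ∈ A
      rw [← act_mul, inv_mul_cancel_right]
      exact h2
  have h4 : ∀ᵐ M ∂μ, ∑' γ : SL(2, ℤ), (act γ ⁻¹' A).indicator (fun _ => (1 : ℝ≥0∞)) M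
      ≤ (F.card : ℝ≥0∞) := by
    refine h3.mono fun M hM => ?_
    by_cases hex : ∃ γ₀ : SL(2, ℤ), act γ₀ M ∈ A
    · obtain ⟨γ₀, h₀⟩ := hex
      rw [tsum_eq_sum (s := F.image fun γ => γ * γ₀)]
      · calc ∑ γ ∈ F.image fun γ => γ * γ₀, (act γ ⁻¹' A).indicator (fun _ => (1 : ℝ≥0∞)) M
            ≤ ∑ γ ∈ F.image fun γ => γ * γ₀, (1 : ℝ≥0∞) :=
              Finset.sum_le_sum fun γ _ => indicator_le_self' (fun _ _ => zero_le_one) M
          _ ≤ F.card := by
              rw [Finset.sum_const, nsmul_eq_mul, mul_one]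
              exact_mod_cast Finset.card_image_le
      · intro γ hγ
        refine indicator_of_notMem (fun hmem => hγ ?_) _
        by_contra hn
        refine hM γ₀ γ (fun hF' => hn ?_) h₀ hmem
        exact Finset.mem_image.2 ⟨_, hF', by rw [inv_mul_cancel_right]⟩
    · have : ∀ γ : SL(2, ℤ), (act γ ⁻¹' A).indicator (fun _ => (1 : ℝ≥0∞)) M = 0 :=
        fun γ => indicator_of_notMem (s := act γ ⁻¹' A) (fun hmem => hex ⟨γ, hmem⟩) _
      simp only [this, tsum_zero, zero_le]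
  calc μ A ≤ _ := h1
    _ = _ := h2
    _ ≤ ∫⁻ _M in Fe, (F.card : ℝ≥0∞) ∂μ := lintegral_mono_ae (ae_restrict_of_ae h4)
    _ = F.card * μ Fe := by rw [setLIntegral_const]

/-- the point of the chart -/
noncomputable def surfPt (θ s a b : ℝ) : E := s • fl b (rot θ (fl (-a) one))

theorem surfPt_coord (θ s a b : ℝ) :
    (surfPt θ s a b).1.re = -(s * Real.exp a * Real.exp b * Real.sin θ) ∧
    (surfPt θ s a b).1.im = s * Real.exp a * Real.exp (-b) * Real.cos θ ∧
    (surfPt θ s a b).2.re = s * Real.exp (-a) * Real.exp b * Real.cos θ ∧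
    (surfPt θ s a b).2.im = s * Real.exp (-a) * Real.exp (-b) * Real.sin θ := by
  obtain ⟨a1, a2, a3, a4⟩ := fl_apply (-a) one
  obtain ⟨b1, b2, b3, b4⟩ := rot_apply θ (fl (-a) one)
  obtain ⟨c1, c2, c3, c4⟩ := fl_apply b (rot θ (fl (-a) one))
  have o1 : one.1.re = 0 := by simp [one]
  have o2 : one.1.im = 1 := by simp [one]
  have o3 : one.2.re = 1 := by simp [one]
  have o4 : one.2.im = 0 := by simp [one]
  rw [neg_neg] at a2 a4
  simp only [surfPt, Prod.smul_fst, Prod.smul_snd, Complex.smul_re, Complex.smul_im, smul_eq_mul]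
  rw [c1, c2, c3, c4, b1, b2, b3, b4, a1, a2, a3, a4, o1, o2, o3, o4]
  refine ⟨by ring, by ring, by ring, by ring⟩

theorem surf_mul_pt (g : E) (θ s a b : ℝ) :
    mul g (surfPt θ s a b) = s • fl b (rot θ (fl (-a) g)) := by
  rw [surfPt, mul_smul', mul_fl, mul_rot, mul_fl, mul_one']

theorem surf_mul_coord (A M : E) :
    (mul A M).1.re = A.1.im * M.1.re + A.1.re * M.2.re ∧
    (mul A M).1.im = A.1.im * M.1.im + A.1.re * M.2.im ∧
    (mul A M).2.re = A.2.im * M.1.re + A.2.re * M.2.re ∧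
    (mul A M).2.im = A.2.im * M.1.im + A.2.re * M.2.im := by
  simp [mul]

theorem surf_mul_cancel {g M N : E} (hg : g ∈ Gp) (h : mul g M = mul g N) : M = N := by
  obtain ⟨B, -, -, hB⟩ := exists_inv hg
  rw [← one_mul' M, ← one_mul' N, ← hB, mul_assoc', mul_assoc', h]

theorem surf_b_unique {θ s a b s' a' b' : ℝ} (hθ : Real.sin θ * Real.cos θ ≠ 0) (hs : 0 < s)
    (hs' : 0 < s') (h : surfPt θ s a b = surfPt θ s' a' b') : b = b' := by
  obtain ⟨a1, a2, a3, a4⟩ := surfPt_coord θ s a b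
  obtain ⟨b1, b2, b3, b4⟩ := surfPt_coord θ s' a' b'
  rw [h] at a1 a2 a3 a4
  have hsin : Real.sin θ ≠ 0 := left_ne_zero_of_mul hθ
  have hcos : Real.cos θ ≠ 0 := right_ne_zero_of_mul hθ
  have e1 : s * Real.exp a * Real.exp b = s' * Real.exp a' * Real.exp b' :=
    mul_right_cancel₀ hsin (by linarith)
  have e2 : s * Real.exp a * Real.exp (-b) = s' * Real.exp a' * Real.exp (-b') :=
    mul_right_cancel₀ hcos (by linarith)
  have hp : 0 < s * Real.exp a := mul_pos hs (Real.exp_pos _)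
  have hp' : 0 < s' * Real.exp a' := mul_pos hs' (Real.exp_pos _)
  have e3 : Real.exp b * Real.exp (-b') = Real.exp b' * Real.exp (-b) := by
    have h1 : (s * Real.exp a) * (s' * Real.exp a') * (Real.exp b * Real.exp (-b')) =
        (s * Real.exp a) * (s' * Real.exp a') * (Real.exp b' * Real.exp (-b)) := by
      calc (s * Real.exp a) * (s' * Real.exp a') * (Real.exp b * Real.exp (-b'))
          = (s * Real.exp a * Real.exp b) * (s' * Real.exp a' * Real.exp (-b')) := by ring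
        _ = (s' * Real.exp a' * Real.exp b') * (s * Real.exp a * Real.exp (-b)) := by
            rw [e1, e2]
        _ = _ := by ring
    exact mul_left_cancel₀ (mul_pos hp hp').ne' h1
  rw [← Real.exp_add, ← Real.exp_add, Real.exp_eq_exp] at e3
  linarith

theorem surf_quad_finite {p q r : ℝ} (h : p ≠ 0 ∨ r ≠ 0) :
    {a : ℝ | p * Real.exp (2 * a) ^ 2 + q * Real.exp (2 * a) + r = 0}.Finite := by
  classical
  let P : Polynomial ℝ := Polynomial.C p * Polynomial.X ^ 2 + Polynomial.C q * Polynomial.X +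
    Polynomial.C r
  have hP : P ≠ 0 := by
    intro h0
    have h2 := congrArg (fun Q : Polynomial ℝ => Q.coeff 2) h0
    have h1 := congrArg (fun Q : Polynomial ℝ => Q.coeff 0) h0
    simp [P, Polynomial.coeff_X, Polynomial.coeff_C] at h1 h2
    rcases h with h | h
    · exact h h2
    · exact h h1
  have hfin : {w : ℝ | P.IsRoot w}.Finite := Polynomial.finite_setOfPred_isRoot hP
  have hinj : Function.Injective fun a : ℝ => Real.exp (2 * a) := by
    intro a b hab
    have := Real.exp_eq_exp.1 hab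
    linarith
  refine (hfin.preimage hinj.injOn).subset fun a ha => ?_
  simp only [mem_preimage, mem_ofPred_eq, Polynomial.IsRoot, P, Polynomial.eval_add,
    Polynomial.eval_mul, Polynomial.eval_C, Polynomial.eval_pow, Polynomial.eval_X]
  exact ha

theorem surf_norm_mul (A M : E) : ‖mul A M‖ ≤ 2 * ‖A‖ * ‖M‖ := by
  have h1 : ‖M.1‖ ≤ ‖M‖ := norm_fst_le M
  have h2 : ‖M.2‖ ≤ ‖M‖ := norm_snd_le M
  have h3 : ‖A.1‖ ≤ ‖A‖ := norm_fst_le A
  have h4 : ‖A.2‖ ≤ ‖A‖ := norm_snd_le A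
  have key : ∀ z : ℂ, ‖z‖ ≤ ‖A‖ → ‖z.im • M.1 + z.re • M.2‖ ≤ 2 * ‖A‖ * ‖M‖ := by
    intro z hz
    have a1 : |z.im| ≤ ‖A‖ := (Complex.abs_im_le_norm z).trans hz
    have a2 : |z.re| ≤ ‖A‖ := (Complex.abs_re_le_norm z).trans hz
    calc ‖z.im • M.1 + z.re • M.2‖ ≤ ‖z.im • M.1‖ + ‖z.re • M.2‖ := norm_add_le _ _
      _ = |z.im| * ‖M.1‖ + |z.re| * ‖M.2‖ := by
          rw [norm_smul, norm_smul, Real.norm_eq_abs, Real.norm_eq_abs]
      _ ≤ ‖A‖ * ‖M‖ + ‖A‖ * ‖M‖ := by gcongr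
      _ = _ := by ring
  exact norm_prod_le_iff.2 ⟨key _ h3, key _ h4⟩

/-- the algebraic core: two points of the surface related by a matrix of determinant one -/
theorem surf_core {θ : ℝ} (hθ : Real.sin θ * Real.cos θ ≠ 0) {D : E} (hD : dt D = 1) :
    ‖D‖ ≤ 3 ∨ {a : ℝ | a ∈ Icc (0 : ℝ) 1 ∧ ∃ s : ℝ, 0 < s ∧ ∃ b s' : ℝ, 0 < s' ∧ ∃ b' : ℝ,
      ∃ a' ∈ Icc (0 : ℝ) 1, mul D (surfPt θ s a b) = surfPt θ s' a' b'}.Finite := by
  have hsin : Real.sin θ ≠ 0 := left_ne_zero_of_mul hθ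
  have hcos : Real.cos θ ≠ 0 := right_ne_zero_of_mul hθ
  have hsc := Real.sin_sq_add_cos_sq θ
  unfold dt at hD
  by_cases hz : D.1.im * D.2.im ≠ 0 ∨ D.1.re * D.2.re ≠ 0
  · right
    have hf := surf_quad_finite (p := -(D.1.im * D.2.im * (Real.sin θ * Real.cos θ)))
      (q := D.1.re * D.2.im * (Real.cos θ ^ 2 - Real.sin θ ^ 2))
      (r := D.1.re * D.2.re * (Real.sin θ * Real.cos θ))
      (hz.imp (fun h => neg_ne_zero.2 (mul_ne_zero h hθ)) fun h => mul_ne_zero h hθ)
    refine hf.subset ?_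
    rintro a ⟨-, s, hs, b, s', hs', b', a', -, heq⟩
    obtain ⟨a1, a2, a3, a4⟩ := surfPt_coord θ s a b
    obtain ⟨b1, b2, b3, b4⟩ := surfPt_coord θ s' a' b'
    obtain ⟨c1, c2, c3, c4⟩ := surf_mul_coord D (surfPt θ s a b)
    rw [heq, a1, a3, b1] at c1
    rw [heq, a2, a4, b2] at c2
    rw [heq, a1, a3, b3] at c3
    rw [heq, a2, a4, b4] at c4
    have hq : Real.cos θ ^ 2 * ((-(s' * Real.exp a' * Real.exp b' * Real.sin θ)) *
        (s' * Real.exp (-a') * Real.exp (-b') * Real.sin θ)) + Real.sin θ ^ 2 *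
        ((s' * Real.exp (-a') * Real.exp b' * Real.cos θ) *
          (s' * Real.exp a' * Real.exp (-b') * Real.cos θ)) = 0 := by ring
    rw [c1, c2, c3, c4] at hq
    have ea : Real.exp a * Real.exp (-a) = 1 := by rw [← Real.exp_add]; simp
    have eb : Real.exp b * Real.exp (-b) = 1 := by rw [← Real.exp_add]; simp
    have e2 : Real.exp (2 * a) = Real.exp a ^ 2 := by rw [← Real.exp_nat_mul]; norm_num
    simp only [mem_ofPred_eq, e2]
    generalize Real.exp a = u at *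
    generalize Real.exp (-a) = u' at *
    generalize Real.exp b = v at *
    generalize Real.exp (-b) = v' at *
    generalize Real.sin θ = S at *
    generalize Real.cos θ = C at *
    have hs2 : s ^ 2 ≠ 0 := pow_ne_zero 2 hs.ne'
    refine mul_left_cancel₀ hs2 ?_
    have k : s ^ 2 * (v * v') * (-(D.1.im * D.2.im * (S * C)) * (S ^ 2 + C ^ 2) * (u ^ 2) ^ 2 +
        D.1.re * D.2.im * (C ^ 2 - S ^ 2) * (S ^ 2 + C ^ 2) * (u * u') * u ^ 2 +
        D.1.re * D.2.re * (S * C) * (S ^ 2 + C ^ 2) * (u * u') ^ 2) = 0 := by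
      linear_combination u ^ 2 * hq
    rw [ea, eb, hsc] at k
    linear_combination k
  · push Not at hz
    obtain ⟨hz1, hz2⟩ := hz
    by_cases hA : D.1.im = 0
    · right
      refine Set.Finite.subset Set.finite_empty ?_
      rintro a ⟨-, s, hs, b, s', hs', b', a', -, heq⟩
      exfalso
      have hBC : D.1.re * D.2.im = -1 := by rw [hA] at hD; linarith
      have hB : D.1.re ≠ 0 := fun h0 => by rw [h0] at hBC; norm_num at hBC
      have hD0 : D.2.re = 0 := (mul_eq_zero.1 hz2).resolve_left hB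
      obtain ⟨a1, a2, a3, a4⟩ := surfPt_coord θ s a b
      obtain ⟨b1, b2, b3, b4⟩ := surfPt_coord θ s' a' b'
      obtain ⟨c1, c2, c3, c4⟩ := surf_mul_coord D (surfPt θ s a b)
      rw [heq, a2, a4, b2, hA] at c2
      rw [heq, a2, a4, b4, hD0] at c4
      have p1 : 0 < s * Real.exp a * Real.exp (-b) * (s * Real.exp (-a) * Real.exp (-b)) := by
        positivity
      have p2 : 0 < s' * Real.exp a' * Real.exp (-b') * (s' * Real.exp (-a') * Real.exp (-b')) := by
        positivity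
      have k : (s' * Real.exp a' * Real.exp (-b') * (s' * Real.exp (-a') * Real.exp (-b')) +
          s * Real.exp a * Real.exp (-b) * (s * Real.exp (-a) * Real.exp (-b))) *
          (Real.sin θ * Real.cos θ) = 0 := by
        have k1 : (s' * Real.exp a' * Real.exp (-b') * Real.cos θ) *
            (s' * Real.exp (-a') * Real.exp (-b') * Real.sin θ) =
            (D.1.re * D.2.im) * ((s * Real.exp (-a) * Real.exp (-b) * Real.sin θ) *
              (s * Real.exp a * Real.exp (-b) * Real.cos θ)) := by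
          rw [c2, c4]; ring
        rw [hBC] at k1
        linear_combination k1
      rcases mul_eq_zero.1 k with h0 | h0
      · linarith
      · exact hθ h0
    · have hC : D.2.im = 0 := (mul_eq_zero.1 hz1).resolve_left hA
      have hAD : D.1.im * D.2.re = 1 := by rw [hC] at hD; linarith
      have hD' : D.2.re ≠ 0 := fun h0 => by rw [h0] at hAD; norm_num at hAD
      have hB : D.1.re = 0 := (mul_eq_zero.1 hz2).resolve_right hD'
      by_cases hne : {a : ℝ | a ∈ Icc (0 : ℝ) 1 ∧ ∃ s : ℝ, 0 < s ∧ ∃ b s' : ℝ, 0 < s' ∧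
          ∃ b' : ℝ, ∃ a' ∈ Icc (0 : ℝ) 1, mul D (surfPt θ s a b) = surfPt θ s' a' b'}.Nonempty
      · left
        obtain ⟨a, ha, s, hs, b, s', hs', b', a', ha', heq⟩ := hne
        obtain ⟨a1, a2, a3, a4⟩ := surfPt_coord θ s a b
        obtain ⟨b1, b2, b3, b4⟩ := surfPt_coord θ s' a' b'
        obtain ⟨c1, c2, c3, c4⟩ := surf_mul_coord D (surfPt θ s a b)
        rw [heq, a2, a4, b2, hB] at c2
        rw [heq, a2, a4, b4, hC] at c4
        have d2 : s' * Real.exp a' * Real.exp (-b') =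
            D.1.im * (s * Real.exp a * Real.exp (-b)) :=
          mul_right_cancel₀ hcos (by linear_combination c2)
        have d4 : s' * Real.exp (-a') * Real.exp (-b') =
            D.2.re * (s * Real.exp (-a) * Real.exp (-b)) :=
          mul_right_cancel₀ hsin (by linear_combination c4)
        have q1 : 0 < s * Real.exp (-b) := by positivity
        have q2 : 0 < s' * Real.exp (-b') := by positivity
        have k : D.1.im * Real.exp a * Real.exp (-a') = D.2.re * Real.exp (-a) * Real.exp a' := by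
          refine mul_left_cancel₀ q1.ne' ?_
          linear_combination Real.exp a' * d4 - Real.exp (-a') * d2
        have ea : Real.exp a * Real.exp (-a) = 1 := by rw [← Real.exp_add]; simp
        have ea' : Real.exp a' * Real.exp (-a') = 1 := by rw [← Real.exp_add]; simp
        have k1 : D.1.im ^ 2 = (Real.exp (-a) * Real.exp a') ^ 2 := by
          linear_combination (D.1.im * Real.exp (-a) * Real.exp a') * k +
            (Real.exp (-a) * Real.exp a') ^ 2 * hAD -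
            D.1.im ^ 2 * (Real.exp a' * Real.exp (-a')) * ea - D.1.im ^ 2 * ea'
        have k2 : D.2.re ^ 2 = (Real.exp a * Real.exp (-a')) ^ 2 := by
          linear_combination (-(D.2.re * Real.exp a * Real.exp (-a'))) * k +
            (Real.exp a * Real.exp (-a')) ^ 2 * hAD -
            D.2.re ^ 2 * (Real.exp a' * Real.exp (-a')) * ea - D.2.re ^ 2 * ea'
        have he : Real.exp 1 ≤ 3 := (Real.exp_one_lt_d9.trans (by norm_num)).le
        have l1 : Real.exp (-a) * Real.exp a' ≤ 3 := by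
          rw [← Real.exp_add]
          exact (Real.exp_le_exp.2 (by linarith [ha.1, ha'.2])).trans he
        have l2 : Real.exp a * Real.exp (-a') ≤ 3 := by
          rw [← Real.exp_add]
          exact (Real.exp_le_exp.2 (by linarith [ha.2, ha'.1])).trans he
        have n1 : ‖D.1‖ ≤ 3 := by
          rw [Complex.norm_eq_sqrt_sq_add_sq, hB, k1, Real.sqrt_le_left (by norm_num)]
          have : 0 < Real.exp (-a) * Real.exp a' := by positivity
          nlinarith
        have n2 : ‖D.2‖ ≤ 3 := by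
          rw [Complex.norm_eq_sqrt_sq_add_sq, hC, k2, Real.sqrt_le_left (by norm_num)]
          have : 0 < Real.exp a * Real.exp (-a') := by positivity
          nlinarith
        exact norm_prod_le_iff.2 ⟨n1, n2⟩
      · right
        rw [not_nonempty_iff_eq_empty.1 hne]
        exact Set.finite_empty

/-- the part of the surface with flow time in `T` -/
def surfPart (θ : ℝ) (g : E) (T : Set ℝ) : Set E :=
  {P | ∃ s : ℝ, 0 < s ∧ ∃ b ∈ T, ∃ a ∈ Icc (0 : ℝ) 1, P = s • fl b (rot θ (fl (-a) g))}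

theorem surf_meas_part (θ : ℝ) (g : E) {T : Set ℝ} (hT : IsClosed T) :
    MeasurableSet (surfPart θ g T) := by
  have h : surfPart θ g T = (fun p : ℝ × ℝ × ℝ => Real.exp p.1 • fl p.2.1 (rot θ (fl (-p.2.2) g))) ''
      (univ ×ˢ T ×ˢ Icc (0 : ℝ) 1) := by
    ext P
    constructor
    · rintro ⟨s, hs, b, hb, a, ha, rfl⟩
      exact ⟨(Real.log s, b, a), ⟨mem_univ _, hb, ha⟩, by simp only [Real.exp_log hs]⟩
    · rintro ⟨p, ⟨-, hb, ha⟩, rfl⟩
      exact ⟨_, Real.exp_pos _, _, hb, _, ha, rfl⟩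
  rw [h]
  exact surf_meas_image (isClosed_univ.prod (hT.prod isClosed_Icc)) (by fun_prop)

theorem surf_part_univ (θ : ℝ) (g : E) : surfPart θ g univ = Surf θ g := by
  ext P
  simp only [surfPart, Surf, mem_ofPred_eq, mem_univ, true_and]

theorem surf_part_fl (θ : ℝ) (g : E) (r : ℝ) :
    fl (-r) ⁻¹' surfPart θ g (Icc 0 1) = surfPart θ g (Icc r (r + 1)) := by
  ext P
  constructor
  · rintro ⟨s, hs, b, hb, a, ha, h⟩
    refine ⟨s, hs, r + b, ⟨by linarith [hb.1], by linarith [hb.2]⟩, a, ha, ?_⟩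
    rw [← fl_fl, ← fl_smul, ← h, fl_fl, add_neg_cancel, fl_zero]
  · rintro ⟨s, hs, b, hb, a, ha, rfl⟩
    refine ⟨s, hs, -r + b, ⟨by linarith [hb.1], by linarith [hb.2]⟩, a, ha, ?_⟩
    rw [fl_smul, fl_fl]

theorem surf_finite {μ : Measure E} (h : Good μ) {θ : ℝ} (hθ : Real.sin θ * Real.cos θ ≠ 0)
    {g : E} (hg : g ∈ Gp) : μ (Surf θ g \ At μ) ≠ ⊤ := by
  have hm : MeasurableSet (Surf θ g \ At μ) := by
    rw [← surf_part_univ]
    exact (surf_meas_part θ g isClosed_univ).diff (surf_meas_At h)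
  have hfin := finite_act ‖g‖ (2 * ‖g‖ * 3) (dt g) hg
  have hb := surf_mult_bound h hm hfin.toFinset ?_
  · exact ne_top_of_le_ne_top (ENNReal.mul_ne_top (ENNReal.natCast_ne_top _) h.fd.ne) hb
  intro γ hγ
  obtain ⟨B, hB, hB1, hB2⟩ := exists_inv hg
  have hgD : mul g (mul B (act γ g)) = act γ g := by rw [← mul_assoc', hB1, one_mul']
  have hD : dt (mul B (act γ g)) = 1 := by
    rw [dt_mul, dt_act, ← dt_mul, hB2, dt_one]
  rcases surf_core hθ hD with hn | hf
  · exfalso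
    refine hγ (hfin.mem_toFinset.2 ⟨g, le_rfl, le_rfl, ?_⟩)
    rw [← hgD]
    exact (surf_norm_mul _ _).trans (by gcongr)
  · refine measure_mono_null (t := ⋃ a ∈ {a : ℝ | a ∈ Icc (0 : ℝ) 1 ∧ ∃ s : ℝ, 0 < s ∧
        ∃ b s' : ℝ, 0 < s' ∧ ∃ b' : ℝ, ∃ a' ∈ Icc (0 : ℝ) 1,
          mul (mul B (act γ g)) (surfPt θ s a b) = surfPt θ s' a' b'},
        Orb (rot θ (fl (-a) g)) \ At μ) ?_ ?_
    · rintro P ⟨⟨⟨s, hs, b, a, ha, rfl⟩, hP⟩, ⟨s', hs', b', a', ha', heq⟩, -⟩
      refine mem_biUnion (x := a) ⟨ha, s, hs, b, s', hs', b', a', ha', ?_⟩ ⟨⟨s, hs, b, rfl⟩, hP⟩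
      refine surf_mul_cancel hg ?_
      rw [← mul_assoc', hgD, surf_mul_pt, surf_mul_pt, ← heq, act_smul, act_fl, act_rot, act_fl]
    · refine (measure_biUnion_null_iff hf.countable).2 fun a _ => surf_Orb_null ?_
      change 0 < dt _
      rw [dt_rot, dt_fl]
      exact hg

/-- a crossing surface carries no mass outside the orbits of positive mass -/
theorem surf_null {μ : Measure E} (h : Good μ) {θ : ℝ} (hθ : Real.sin θ * Real.cos θ ≠ 0)
    {g : E} (hg : g ∈ Gp) : μ (Surf θ g \ At μ) = 0 := by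
  have hAt := surf_meas_At h
  have hpre : ∀ r : ℝ, surfPart θ g (Icc r (r + 1)) \ At μ =
      fl (-r) ⁻¹' (surfPart θ g (Icc 0 1) \ At μ) := by
    intro r
    rw [preimage_sdiff, surf_part_fl]
    ext P
    simp only [Set.mem_sdiff, mem_preimage, surf_At_fl]
  have heq : ∀ r : ℝ, μ (surfPart θ g (Icc r (r + 1)) \ At μ) =
      μ (surfPart θ g (Icc 0 1) \ At μ) := fun r => by rw [hpre, surf_pre_fl h]
  have h0 : μ (surfPart θ g (Icc 0 1) \ At μ) = 0 := by
    by_contra hne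
    have hdis : Pairwise (Function.onFun Disjoint fun n : ℕ =>
        surfPart θ g (Icc (2 * (n : ℝ)) (2 * (n : ℝ) + 1)) \ At μ) := by
      intro n m hnm
      refine Set.disjoint_left.2 ?_
      rintro P ⟨⟨s, hs, b, hb, a, -, rfl⟩, -⟩ ⟨⟨s', hs', b', hb', a', -, he⟩, -⟩
      rw [← surf_mul_pt, ← surf_mul_pt] at he
      have hbb := surf_b_unique hθ hs hs' (surf_mul_cancel hg he)
      rw [← hbb] at hb'
      have l1 : (2 * n : ℝ) < 2 * m + 2 := by linarith [hb.1, hb'.2]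
      have l2 : (2 * m : ℝ) < 2 * n + 2 := by linarith [hb.2, hb'.1]
      have l3 : 2 * n < 2 * m + 2 := by exact_mod_cast l1
      have l4 : 2 * m < 2 * n + 2 := by exact_mod_cast l2
      omega
    have hU := measure_iUnion (μ := μ) hdis fun n =>
      (surf_meas_part θ g isClosed_Icc).diff hAt
    simp only [heq] at hU
    rw [ENNReal.tsum_const_eq_top_of_ne_zero hne] at hU
    refine surf_finite h hθ hg (top_unique ?_)
    rw [← hU]
    refine measure_mono (iUnion_subset fun n => sdiff_subset_sdiff_left ?_)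
    rintro P ⟨s, hs, b, -, a, ha, rfl⟩
    exact ⟨s, hs, b, a, ha, rfl⟩
  refine measure_mono_null (t := ⋃ n : ℤ, surfPart θ g (Icc (n : ℝ) (n + 1)) \ At μ) ?_ ?_
  · rintro P ⟨⟨s, hs, b, a, ha, rfl⟩, hP⟩
    exact mem_iUnion.2 ⟨⌊b⌋, ⟨s, hs, b, ⟨Int.floor_le b, (Int.lt_floor_add_one b).le⟩, a, ha, rfl⟩, hP⟩
  · exact measure_iUnion_null fun n => (heq n).trans h0

end Pool.Agent.MP_a28cf0_nt.Cub

end

-- part MP_a28cf0_nt.Cub.Construct
section

set_option autoImplicit false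

namespace Pool.Agent.MP_a28cf0_nt.Cub

open MeasureTheory Complex Filter Topology Set
open scoped ENNReal MatrixGroups

/-! ### Generalities on the two operators -/

theorem construct_aux {V : Type} [NormedAddCommGroup V] [NormedSpace ℂ V] (D : V →L[ℝ] ℂ) (c : ℂ)
    (z : V) : D (c • z) = c.re * D z + c.im * D (I • z) ∧
      D (I • c • z) = c.re * D (I • z) - c.im * D z := by
  have e1 : c • z = c.re • z + c.im • (I • z) := by
    rw [← Complex.coe_smul, ← Complex.coe_smul, smul_smul, ← add_smul, Complex.re_add_im]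
  have e2 : I • c • z = c.re • (I • z) - c.im • z := by
    rw [← Complex.coe_smul, ← Complex.coe_smul, smul_smul, smul_smul, ← sub_smul]
    congr 1
    apply Complex.ext <;> simp
  constructor
  · rw [e1, D.map_add, D.map_smul, D.map_smul, Complex.real_smul, Complex.real_smul]
  · rw [e2, D.map_sub, D.map_smul, D.map_smul, Complex.real_smul, Complex.real_smul]

theorem construct_anti {V : Type} [NormedAddCommGroup V] [NormedSpace ℂ V] (D : V →L[ℝ] ℂ) (c : ℂ)
    (z : V) : D (c • z) + I * D (I • c • z) = (starRingEnd ℂ) c * (D z + I * D (I • z)) := by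
  have e3 : (starRingEnd ℂ) c = c.re - c.im * I := by apply Complex.ext <;> simp
  rw [(construct_aux D c z).1, (construct_aux D c z).2, e3]
  linear_combination (c.im * D (I • z)) * I_mul_I

theorem construct_lin {V : Type} [NormedAddCommGroup V] [NormedSpace ℂ V] (D : V →L[ℝ] ℂ) (c : ℂ)
    (z : V) : D (c • z) - I * D (I • c • z) = c * (D z - I * D (I • z)) := by
  have e3 : c = c.re + c.im * I := (Complex.re_add_im c).symm
  rw [(construct_aux D c z).1, (construct_aux D c z).2]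
  linear_combination (c.im * D (I • z)) * I_mul_I - (D z - I * D (I • z)) * e3

theorem construct_Ra_congr {g h : E → ℂ} {M : E} (e : g =ᶠ[𝓝 M] h) : Ra g M = Ra h M := by
  simp only [Ra, X1, X2, e.fderiv_eq]

theorem construct_Lo_congr {g h : E → ℂ} {M : E} (e : g =ᶠ[𝓝 M] h) : Lo g M = Lo h M := by
  simp only [Lo, X1, X2, e.fderiv_eq]

theorem construct_ev {g h : E → ℂ} {M : E} (hM : M ∈ Gp) (e : ∀ N ∈ Gp, g N = h N) :
    g =ᶠ[𝓝 M] h := Filter.eventually_of_mem (isOpen_Gp.mem_nhds hM) e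

theorem construct_Ra_cmul (c : ℂ) {h : E → ℂ} {M : E} (hd : DifferentiableAt ℝ h M) :
    Ra (fun N => c * h N) M = c * Ra h M := by
  simp only [Ra, X1, X2, fderiv_const_mul hd, smul_apply, smul_eq_mul]
  ring

theorem construct_Lo_cmul (c : ℂ) {h : E → ℂ} {M : E} (hd : DifferentiableAt ℝ h M) :
    Lo (fun N => c * h N) M = c * Lo h M := by
  simp only [Lo, X1, X2, fderiv_const_mul hd, smul_apply, smul_eq_mul]
  ring

theorem construct_Ra_hol {h : E → ℂ} {M : E} (hd : DifferentiableAt ℂ h M) : Ra h M = 0 := by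
  simp only [Ra, X1, X2, hd.fderiv_restrictScalars ℝ, ContinuousLinearMap.coe_restrictScalars',
    map_smul, smul_eq_mul]
  linear_combination (fderiv ℂ h M (star M) / 2) * I_mul_I

theorem construct_diffAt {h : E → ℂ} (hh : ContDiffOn ℝ (⊤ : ℕ∞) h Gp) {M : E} (hM : M ∈ Gp) :
    DifferentiableAt ℝ h M :=
  (hh.contDiffAt (isOpen_Gp.mem_nhds hM)).differentiableAt (by simp)

/-- transport of the derivative along a linear symmetry -/
theorem construct_fderiv {h : E → ℂ} (hh : ContDiffOn ℝ (⊤ : ℕ∞) h Gp) (L : E →L[ℝ] E)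
    (hL : ∀ N ∈ Gp, L N ∈ Gp) (c : ℂ) (e : ∀ N ∈ Gp, h (L N) = c * h N) {M : E} (hM : M ∈ Gp)
    (z : E) : fderiv ℝ h (L M) (L z) = c * fderiv ℝ h M z := by
  have h1 : HasFDerivAt (fun N => h (L N)) ((fderiv ℝ h (L M)).comp L) M :=
    (construct_diffAt hh (hL M hM)).hasFDerivAt.comp M L.hasFDerivAt
  have h2 : HasFDerivAt (fun N => c * h N) (c • fderiv ℝ h M) M :=
    (construct_diffAt hh hM).hasFDerivAt.const_mul c
  have h3 := (h1.congr_of_eventuallyEq (construct_ev hM e).symm).unique h2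
  have := congrArg (fun T : E →L[ℝ] ℂ => T z) h3
  simpa using this

noncomputable def construct_S : E →L[ℝ] E :=
  (Complex.conjCLE : ℂ →L[ℝ] ℂ).prodMap (Complex.conjCLE : ℂ →L[ℝ] ℂ)

theorem construct_S_apply (M : E) : construct_S M = star M := rfl

noncomputable def construct_mulL (c : ℂ) : E →L[ℝ] E := c • ContinuousLinearMap.id ℝ E

theorem construct_mulL_apply (c : ℂ) (M : E) : construct_mulL c M = c • M := rfl

/-- the commutator of the lowering and the raising operator -/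
theorem construct_comm {h : E → ℂ} (hh : ContDiffOn ℝ (⊤ : ℕ∞) h Gp) {M : E} (hM : M ∈ Gp) :
    Lo (Ra h) M = Ra (Lo h) M + I * X3 h M := by
  have h2 : ContDiffAt ℝ 2 h M := (hh.contDiffAt (isOpen_Gp.mem_nhds hM)).of_le
    (WithTop.coe_le_coe.mpr (le_top : (2 : ℕ∞) ≤ ⊤))
  have hsym := h2.isSymmSndFDerivAt (by simp)
  have hd : HasFDerivAt (fderiv ℝ h) (fderiv ℝ (fderiv ℝ h) M) M :=
    ((h2.fderiv_right (m := 1) (by norm_num)).differentiableAt (by simp)).hasFDerivAt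
  have a1 : HasFDerivAt (X1 h) _ M := hd.clm_apply construct_S.hasFDerivAt
  have a2 : HasFDerivAt (X2 h) _ M :=
    hd.clm_apply ((construct_mulL I).comp construct_S).hasFDerivAt
  have r1 : Ra h = fun N => (1 / 2 : ℂ) * (X1 h N + I * X2 h N) := by
    funext N; simp only [Ra]; ring
  have r2 : Lo h = fun N => (1 / 2 : ℂ) * (X1 h N - I * X2 h N) := by
    funext N; simp only [Lo]; ring
  have b1 := ((a1.add (a2.const_mul I)).const_mul (1 / 2 : ℂ)).fderiv
  have b2 := ((a1.sub (a2.const_mul I)).const_mul (1 / 2 : ℂ)).fderiv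
  simp only [Pi.add_apply, Pi.sub_apply] at b1 b2
  rw [← r1] at b1
  rw [← r2] at b2
  have e1 : star (I • star M) = -(I • M) := by
    rw [star_smul, star_star]; simp
  have e2 := hsym.eq (star M) (I • star M)
  have e3 : I • I • M = -M := by rw [smul_smul, I_mul_I]; simp
  have l1 : Lo (Ra h) M = (fderiv ℝ (Ra h) M (star M) - I * fderiv ℝ (Ra h) M (I • star M)) / 2 := rfl
  have l2 : Ra (Lo h) M = (fderiv ℝ (Lo h) M (star M) + I * fderiv ℝ (Lo h) M (I • star M)) / 2 := rfl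
  rw [l1, l2, b1, b2, X3]
  simp only [smul_apply, add_apply, sub_apply, ContinuousLinearMap.comp_apply,
    ContinuousLinearMap.flip_apply, construct_S_apply, construct_mulL_apply, star_star, e1, e3,
    map_neg, smul_eq_mul, neg_neg, e2]
  ring

/-! ### The base case -/

/-- derivative of the projection along the first field -/
noncomputable def construct_w (M : E) : ℂ := -2 * I * (dt M : ℂ) * (M.2 ^ 2)⁻¹

theorem construct_pr_deriv {M : E} (hM : M ∈ Gp) :
    ∃ L : E →L[ℝ] ℂ, HasFDerivAt pr L M ∧ L (star M) = construct_w M ∧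
      L (I • star M) = I * construct_w M := by
  have hv := snd_ne_zero hM
  have h1 : HasFDerivAt (fun N : E => N.1 * (N.2)⁻¹) _ M :=
    (hasFDerivAt_fst (𝕜 := ℂ)).mul ((hasFDerivAt_inv hv).comp M (hasFDerivAt_snd (𝕜 := ℂ)))
  have h2 : pr = fun N : E => N.1 * (N.2)⁻¹ := by funext N; simp [pr, div_eq_mul_inv]
  rw [← h2] at h1
  have h3 : (-2 * I * (dt M : ℂ)) = (starRingEnd ℂ) M.1 * M.2 - M.1 * (starRingEnd ℂ) M.2 := by
    apply Complex.ext <;> simp [dt] <;> ring
  refine ⟨_, h1.restrictScalars ℝ, ?_, ?_⟩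
  · simp [construct_w]
    field_simp
    linear_combination -h3
  · rw [ContinuousLinearMap.coe_restrictScalars', map_smul, smul_eq_mul]
    congr 1
    simp [construct_w]
    field_simp
    linear_combination -h3

theorem construct_comp {G : ℂ → ℂ} {G' : ℂ →L[ℝ] ℂ} {M : E} (hM : M ∈ Gp)
    (hG : HasFDerivAt G G' (pr M)) :
    Ra (fun N => G (pr N)) M = (starRingEnd ℂ) (construct_w M) * ((G' 1 + I * G' I) / 2) ∧
    Lo (fun N => G (pr N)) M = construct_w M * ((G' 1 - I * G' I) / 2) := by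
  obtain ⟨L, hL, e1, e2⟩ := construct_pr_deriv hM
  have h1 : fderiv ℝ (fun N => G (pr N)) M = G'.comp L := (hG.comp M hL).fderiv
  have a1 := construct_anti G' (construct_w M) 1
  have a2 := construct_lin G' (construct_w M) 1
  simp only [smul_eq_mul, mul_one] at a1 a2
  simp only [Ra, Lo, X1, X2, h1, ContinuousLinearMap.comp_apply, e1, e2, a1, a2]
  constructor <;> ring

theorem construct_Ra_dt (M : E) : Ra (fun N => (dt N : ℂ)) M = 0 := by
  have h1 : HasFDerivAt dt _ M :=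
    (((imCLM.comp (ContinuousLinearMap.fst ℝ ℂ ℂ)).hasFDerivAt (x := M)).mul
      ((reCLM.comp (ContinuousLinearMap.snd ℝ ℂ ℂ)).hasFDerivAt (x := M))).sub
    (((reCLM.comp (ContinuousLinearMap.fst ℝ ℂ ℂ)).hasFDerivAt (x := M)).mul
      ((imCLM.comp (ContinuousLinearMap.snd ℝ ℂ ℂ)).hasFDerivAt (x := M)))
  have h2 : fderiv ℝ (fun N => (dt N : ℂ)) M = _ := (ofRealCLM.hasFDerivAt.comp M h1).fderiv
  simp only [Ra, X1, X2, h2]
  simp
  ring

theorem construct_w_diff {M : E} (hM : M ∈ Gp) :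
    DifferentiableAt ℝ construct_w M ∧ Ra construct_w M = 0 := by
  have hv := snd_ne_zero hM
  have d1 : DifferentiableAt ℝ (fun N : E => (dt N : ℂ)) M :=
    ofRealCLM.differentiableAt.comp M ((contDiff_dt (n := 1)).differentiable (by simp) M)
  have d2 : DifferentiableAt ℂ (fun N : E => (N.2 ^ 2)⁻¹) M :=
    (differentiableAt_snd.pow 2).inv (pow_ne_zero 2 hv)
  refine ⟨(d1.const_mul _).mul (d2.restrictScalars ℝ), ?_⟩
  have := Ra_mul (d1.const_mul (-2 * I)) (d2.restrictScalars ℝ)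
  rw [construct_Ra_hol d2, construct_Ra_cmul _ d1, construct_Ra_dt, mul_zero, zero_mul, mul_zero,
    add_zero] at this
  exact this

theorem construct_w_sq {M : E} (hM : M ∈ Gp) :
    (starRingEnd ℂ) (construct_w M) * construct_w M = 4 * ((pr M).im : ℂ) ^ 2 := by
  have hv := snd_ne_zero hM
  have hv' : (starRingEnd ℂ) M.2 ≠ 0 := by simpa using hv
  rw [im_pr, ofReal_div, Complex.normSq_eq_conj_mul_self]
  simp only [construct_w, map_mul, map_neg, map_ofNat, conj_I, conj_ofReal, map_inv₀, map_pow]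
  field_simp
  linear_combination (-(4 : ℂ)) * (dt M : ℂ) ^ 2 * I_mul_I

theorem construct_base {f : ℂ → ℝ} (hs : ∀ n : ℕ, ContDiffOn ℝ n f Up) {M : E} (hM : M ∈ Gp) :
    Lo (Ra fun N => (f (pr N) : ℂ)) M = (((pr M).im ^ 2 *
      (iteratedFDeriv ℝ 2 f (pr M) ![(1 : ℂ), 1] + iteratedFDeriv ℝ 2 f (pr M) ![I, I]) : ℝ) : ℂ) := by
  let Λ : (ℂ →L[ℝ] ℝ) →L[ℝ] ℂ := (1 / 2 : ℂ) •
    (ofRealCLM.comp (ContinuousLinearMap.apply ℝ ℝ (1 : ℂ)) +
      I • ofRealCLM.comp (ContinuousLinearMap.apply ℝ ℝ I))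
  have hΛ : ∀ φ : ℂ →L[ℝ] ℝ, Λ φ = ((φ 1 : ℂ) + I * (φ I : ℂ)) / 2 := by
    intro φ; simp [Λ]; ring
  have h2 : ∀ N ∈ Gp, ContDiffAt ℝ 2 f (pr N) := fun N hN =>
    (hs 2).contDiffAt (isOpen_Up.mem_nhds (pr_mem hN))
  have e1 : ∀ N ∈ Gp, Ra (fun N => (f (pr N) : ℂ)) N =
      (starRingEnd ℂ) (construct_w N) * Λ (fderiv ℝ f (pr N)) := by
    intro N hN
    have := (construct_comp hN (ofRealCLM.hasFDerivAt.comp (pr N)
      ((h2 N hN).differentiableAt (by simp)).hasFDerivAt)).1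
    rw [hΛ]
    exact this
  have hsym := (h2 M hM).isSymmSndFDerivAt (by simp)
  have hd : HasFDerivAt (fderiv ℝ f) (fderiv ℝ (fderiv ℝ f) (pr M)) (pr M) :=
    (((h2 M hM).fderiv_right (m := 1) (by norm_num)).differentiableAt (by simp)).hasFDerivAt
  have hG : HasFDerivAt (fun z => Λ (fderiv ℝ f z)) _ (pr M) := Λ.hasFDerivAt.comp (pr M) hd
  obtain ⟨L, hL, -, -⟩ := construct_pr_deriv hM
  have d1 : DifferentiableAt ℝ (fun N => (starRingEnd ℂ) (construct_w N)) M :=
    Complex.conjCLE.differentiableAt.comp M (construct_w_diff hM).1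
  have d2 : DifferentiableAt ℝ (fun N => Λ (fderiv ℝ f (pr N))) M := (hG.comp M hL).differentiableAt
  rw [construct_Lo_congr (construct_ev hM e1), Lo_mul d1 d2, Lo_conj, (construct_w_diff hM).2,
    (construct_comp hM hG).2, map_zero, zero_mul, zero_add, ← mul_assoc, construct_w_sq hM,
    iteratedFDeriv_two_apply, iteratedFDeriv_two_apply]
  simp only [ContinuousLinearMap.comp_apply, hΛ, hsym.eq I 1, Matrix.cons_val_zero,
    Matrix.cons_val_one]
  push_cast
  linear_combination (-((pr M).im : ℂ) ^ 2 * (fderiv ℝ (fderiv ℝ f) (pr M) I I : ℂ)) * I_mul_I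

/-! ### The tower of raised functions -/

noncomputable def construct_P (f : ℂ → ℝ) (t : ℝ) : ℕ → E → ℂ
  | 0 => fun M => (f (pr M) : ℂ)
  | n + 1 => fun M => (I * lam t n)⁻¹ * Ra (construct_P f t n) M

theorem construct_lam_ne (t : ℝ) (m : ℤ) : I * (lam t m : ℂ) ≠ 0 :=
  mul_ne_zero I_ne_zero (ofReal_ne_zero.mpr (lam_pos t m).ne')

theorem construct_P_smooth {f : ℂ → ℝ} (t : ℝ) (hs : ∀ n : ℕ, ContDiffOn ℝ n f Up) (n : ℕ) :
    ContDiffOn ℝ (⊤ : ℕ∞) (construct_P f t n) Gp := by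
  induction n with
  | zero =>
    exact ofRealCLM.contDiff.comp_contDiffOn
      ((contDiffOn_infty.mpr hs).comp contDiffOn_pr fun _ h => pr_mem h)
  | succ n ih => exact contDiffOn_const.mul (contDiffOn_Ra ih (by simp))

theorem construct_P_ra (f : ℂ → ℝ) (t : ℝ) (n : ℕ) (M : E) :
    Ra (construct_P f t n) M = I * lam t n * construct_P f t (n + 1) M := by
  simp only [construct_P]
  rw [mul_inv_cancel_left₀ (construct_lam_ne t n)]

theorem construct_P_inv {f : ℂ → ℝ} (t : ℝ) (hs : ∀ n : ℕ, ContDiffOn ℝ n f Up) (L : E →L[ℝ] E)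
    (hL : ∀ N ∈ Gp, L N ∈ Gp) (h1 : ∀ N, L (star N) = star (L N))
    (h2 : ∀ N, L (I • N) = I • L N) (h0 : ∀ N ∈ Gp, f (pr (L N)) = f (pr N)) (n : ℕ) :
    ∀ M ∈ Gp, construct_P f t n (L M) = construct_P f t n M := by
  induction n with
  | zero => intro M hM; simp only [construct_P, h0 M hM]
  | succ n ih =>
    intro M hM
    have key := construct_fderiv (construct_P_smooth t hs n) L hL 1
      (fun N hN => by rw [one_mul, ih N hN]) hM
    simp only [construct_P, Ra, X1, X2, ← h1, ← h2, key, one_mul]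

theorem construct_P_wt {f : ℂ → ℝ} (t : ℝ) (hs : ∀ n : ℕ, ContDiffOn ℝ n f Up) (θ : ℝ) (n : ℕ) :
    ∀ M ∈ Gp, construct_P f t n (rot θ M) =
      Complex.exp (2 * n * θ * I) * construct_P f t n M := by
  induction n with
  | zero => intro M _; simp [construct_P, pr_rot]
  | succ n ih =>
    intro M hM
    have key := construct_fderiv (construct_P_smooth t hs n) (construct_mulL (Complex.exp (θ * I)))
      (fun N hN => show 0 < dt (rot θ N) by rw [dt_rot]; exact hN) _ ih hM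
    simp only [construct_mulL_apply] at key
    have e1 : star (rot θ M) = Complex.exp (-(2 * θ * I)) • Complex.exp (θ * I) • star M := by
      rw [rot, star_smul, smul_smul, ← Complex.exp_add, RCLike.star_def, ← Complex.exp_conj]
      congr 2
      simp only [map_mul, conj_ofReal, conj_I]
      ring
    have e2 := construct_anti (fderiv ℝ (construct_P f t n) (rot θ M)) (Complex.exp (-(2 * θ * I)))
      (Complex.exp (θ * I) • star M)
    have e3 : (starRingEnd ℂ) (Complex.exp (-(2 * θ * I))) = Complex.exp (2 * θ * I) := by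
      rw [← Complex.exp_conj]
      congr 1
      simp only [map_neg, map_mul, conj_ofReal, conj_I, map_ofNat]
      ring
    have e4 : Complex.exp (2 * ((n + 1 : ℕ) : ℂ) * θ * I) =
        Complex.exp (2 * θ * I) * Complex.exp (2 * n * θ * I) := by
      rw [← Complex.exp_add]; congr 1; push_cast; ring
    rw [smul_comm I (Complex.exp (θ * I)), e3] at e2
    simp only [construct_P, Ra, X1, X2, e1, e2, e4]
    rw [rot, key, key]
    ring

theorem construct_P_x3 {f : ℂ → ℝ} (t : ℝ) (hs : ∀ n : ℕ, ContDiffOn ℝ n f Up) (n : ℕ) {M : E}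
    (hM : M ∈ Gp) : X3 (construct_P f t n) M = 2 * n * I * construct_P f t n M := by
  have h1 := hasDerivAt_rot (h := construct_P f t n) (M := M) (θ := 0)
    (by rw [rot_zero]; exact construct_diffAt (construct_P_smooth t hs n) hM)
  rw [rot_zero] at h1
  have h2 : HasDerivAt (fun r : ℝ => Complex.exp (2 * n * r * I) * construct_P f t n M) _ 0 :=
    ((((hasDerivAt_id (0 : ℝ)).ofReal_comp.const_mul (2 * n : ℂ)).mul_const I).cexp).mul_const _
  have h3 : (fun r : ℝ => construct_P f t n (rot r M)) =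
      fun r : ℝ => Complex.exp (2 * n * r * I) * construct_P f t n M :=
    funext fun r => construct_P_wt t hs r n M hM
  rw [h3] at h1
  rw [h1.unique h2]
  simp

theorem construct_P_lo {f : ℂ → ℝ} (t : ℝ) (hs : ∀ n : ℕ, ContDiffOn ℝ n f Up)
    (he : ∀ z : ℂ, 0 < z.im →
      -(z.im ^ 2) * (iteratedFDeriv ℝ 2 f z ![(1 : ℂ), 1] + iteratedFDeriv ℝ 2 f z ![I, I])
        = (1 / 4 + t ^ 2) * f z) (n : ℕ) :
    ∀ M ∈ Gp, Lo (construct_P f t (n + 1)) M = I * lam t n * construct_P f t n M := by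
  have dR : ∀ n, ∀ M ∈ Gp, DifferentiableAt ℝ (Ra (construct_P f t n)) M := fun n M hM =>
    construct_diffAt (contDiffOn_Ra (construct_P_smooth t hs n) (by simp)) hM
  have st : ∀ n : ℕ, ∀ M ∈ Gp, Lo (Ra (construct_P f t n)) M =
      -(lam t n : ℂ) ^ 2 * construct_P f t n M →
      Lo (construct_P f t (n + 1)) M = I * lam t n * construct_P f t n M := by
    intro n M hM h
    have := construct_Lo_cmul (I * lam t n)⁻¹ (dR n M hM)
    rw [h] at this
    refine this.trans ?_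
    rw [inv_mul_eq_iff_eq_mul₀ (construct_lam_ne t n)]
    linear_combination (-(lam t n : ℂ) ^ 2 * construct_P f t n M) * I_mul_I
  induction n with
  | zero =>
    intro M hM
    refine st 0 M hM ?_
    have h1 := he (pr M) (pr_mem hM)
    have h2 := lam_sq t ((0 : ℕ) : ℤ)
    refine (construct_base hs hM).trans ?_
    simp only [construct_P]
    rw [← ofReal_pow, ← ofReal_neg, ← ofReal_mul, h2]
    congr 1
    push_cast
    linear_combination -h1
  | succ n ih =>
    intro M hM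
    refine st (n + 1) M hM ?_
    rw [construct_comm (construct_P_smooth t hs _) hM, construct_Ra_congr (construct_ev hM ih),
      construct_Ra_cmul _ (construct_diffAt (construct_P_smooth t hs n) hM), construct_P_ra,
      construct_P_x3 t hs _ hM]
    have h1 : (lam t ((n + 1 : ℕ) : ℤ) : ℂ) ^ 2 = (lam t n : ℂ) ^ 2 + 2 * ((n + 1 : ℕ) : ℂ) := by
      rw [← ofReal_pow, ← ofReal_pow, lam_sq, lam_sq]
      push_cast
      ring
    rw [h1]
    linear_combination (((lam t n : ℂ) ^ 2 + 2 * ((n + 1 : ℕ) : ℂ)) * construct_P f t (n + 1) M) *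
      I_mul_I

/-! ### All weights -/

noncomputable def construct_Q (f : ℂ → ℝ) (t : ℝ) (m : ℤ) : E → ℂ :=
  if 0 ≤ m then construct_P f t m.toNat
  else fun M => (-1) ^ (-m).toNat * (starRingEnd ℂ) (construct_P f t (-m).toNat M)

theorem construct_Q_pos (f : ℂ → ℝ) (t : ℝ) (n : ℕ) : construct_Q f t n = construct_P f t n := by
  simp [construct_Q]

theorem construct_Q_neg (f : ℂ → ℝ) (t : ℝ) (n : ℕ) :
    construct_Q f t (-n) = fun M => (-1) ^ n * (starRingEnd ℂ) (construct_P f t n M) := by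
  cases n with
  | zero => funext M; simp [construct_Q, construct_P]
  | succ n =>
    rw [construct_Q, if_neg (by omega), neg_neg, Int.toNat_natCast]

theorem construct_conj_diff {h : E → ℂ} {M : E} (hd : DifferentiableAt ℝ h M) :
    DifferentiableAt ℝ (fun N => (starRingEnd ℂ) (h N)) M :=
  Complex.conjCLE.differentiableAt.comp M hd

theorem construct_mass {f : ℂ → ℝ} (hc : ContinuousOn f Up)
    (hint : IntegrableOn (fun z : ℂ => f z ^ 2 / z.im ^ 2) Fd)
    (hn : ∫ z in Fd, f z ^ 2 / z.im ^ 2 = Real.pi / 3) {h : E → ℂ}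
    (hh : ∀ M ∈ Gp, h M = (f (pr M) : ℂ)) : ∫⁻ M in Fe, ‖h M‖ₑ ^ 2 ∂nu ≤ 100 := by
  classical
  have hU : MeasurableSet Up := isOpen_Up.measurableSet
  have hm : Measurable (Up.piecewise f fun _ => 0) :=
    hc.measurable_piecewise continuousOn_const hU
  set g : ℂ → ℝ≥0∞ := fun z => ENNReal.ofReal ((Up.piecewise f (fun _ => 0) z) ^ 2) with hg
  have hgm : Measurable g := (hm.pow_const 2).ennreal_ofReal
  have hρ : Measurable fun z : ℂ => ENNReal.ofReal (15 * Real.pi / 2 / z.im ^ 2) :=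
    (measurable_const.div (Complex.measurable_im.pow_const 2)).ennreal_ofReal
  have hFU : Fd ⊆ Up := fun z hz => hz.1
  calc ∫⁻ M in Fe, ‖h M‖ₑ ^ 2 ∂nu = ∫⁻ M in Fe, g (pr M) ∂nu := by
        refine setLIntegral_congr_fun measurableSet_Fe fun M hM => ?_
        have hM' := Sh_subset hM.1
        simp only [hg]
        rw [hh M hM', Set.piecewise_eq_of_mem _ _ _ (pr_mem hM'), ← ofReal_norm,
          ← ENNReal.ofReal_pow (norm_nonneg _), Complex.norm_real, Real.norm_eq_abs, sq_abs]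
    _ ≤ ∫⁻ M in pr ⁻¹' Fd, g (pr M) ∂nu := lintegral_mono_set inter_subset_right
    _ = ∫⁻ z in Fd, g z ∂(nu.map pr) :=
        (setLIntegral_map measurableSet_Fd hgm measurable_pr).symm
    _ = ∫⁻ z in Fd, ENNReal.ofReal (15 * Real.pi / 2 * (f z ^ 2 / z.im ^ 2)) := by
        rw [kan, setLIntegral_withDensity_eq_setLIntegral_mul _ hρ hgm measurableSet_Fd,
          Measure.restrict_restrict measurableSet_Fd, inter_eq_left.mpr hFU]
        refine setLIntegral_congr_fun measurableSet_Fd fun z hz => ?_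
        simp only [hg, Pi.mul_apply]
        rw [Set.piecewise_eq_of_mem _ _ _ (hFU hz), ← ENNReal.ofReal_mul (by positivity)]
        congr 1
        ring
    _ = ENNReal.ofReal (15 * Real.pi / 2 * (Real.pi / 3)) := by
        rw [← ofReal_integral_eq_lintegral_ofReal (hint.const_mul _)
          (Filter.Eventually.of_forall fun z => by positivity), integral_const_mul, hn]
    _ ≤ 100 := by
        rw [← ENNReal.ofReal_ofNat]
        apply ENNReal.ofReal_le_ofReal
        nlinarith [Real.pi_pos, Real.pi_le_four]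

noncomputable def construct_act (γ : SL(2, ℤ)) : E →L[ℝ] E :=
  ((γ 0 0 : ℂ) • ContinuousLinearMap.fst ℝ ℂ ℂ + (γ 0 1 : ℂ) • ContinuousLinearMap.snd ℝ ℂ ℂ).prod
    ((γ 1 0 : ℂ) • ContinuousLinearMap.fst ℝ ℂ ℂ + (γ 1 1 : ℂ) • ContinuousLinearMap.snd ℝ ℂ ℂ)

theorem construct_act_apply (γ : SL(2, ℤ)) (M : E) : construct_act γ M = act γ M := rfl

/-- the system attached to a normalised eigenfunction -/
theorem exists_sys (f : ℂ → ℝ) (t : ℝ) (hs : ∀ n : ℕ, ContDiffOn ℝ n f Up)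
    (he : ∀ z : ℂ, 0 < z.im →
      -(z.im ^ 2) * (iteratedFDeriv ℝ 2 f z ![(1 : ℂ), 1] + iteratedFDeriv ℝ 2 f z ![I, I])
        = (1 / 4 + t ^ 2) * f z)
    (hi : ∀ z : ℂ, 0 < z.im → f (z + 1) = f z ∧ f (-z⁻¹) = f z)
    (hint : IntegrableOn (fun z : ℂ => f z ^ 2 / z.im ^ 2) Fd)
    (hn : ∫ z in Fd, f z ^ 2 / z.im ^ 2 = Real.pi / 3) :
    ∃ Φ : ℤ → E → ℂ, Sys t Φ ∧ ∀ M ∈ Gp, Φ 0 M = (f (pr M) : ℂ) := by
  classical
  have hP := construct_P_smooth t hs
  have hQ : ∀ m, ContDiffOn ℝ (⊤ : ℕ∞) (construct_Q f t m) Gp := by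
    intro m
    obtain ⟨n, rfl | rfl⟩ := Int.eq_nat_or_neg m
    · rw [construct_Q_pos]; exact hP n
    · rw [construct_Q_neg]
      exact contDiffOn_const.mul (Complex.conjCLE.contDiff.comp_contDiffOn (hP n))
  have hev : ∀ m, ∀ M ∈ Gp, Gp.indicator (construct_Q f t m) =ᶠ[𝓝 M] construct_Q f t m :=
    fun m M hM => construct_ev hM fun N hN => Set.indicator_of_mem hN _
  have hinv : ∀ L : E →L[ℝ] E, (∀ N, L N ∈ Gp ↔ N ∈ Gp) → (∀ N, L (star N) = star (L N)) →
      (∀ N, L (I • N) = I • L N) → (∀ N ∈ Gp, f (pr (L N)) = f (pr N)) → ∀ m M,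
      Gp.indicator (construct_Q f t m) (L M) = Gp.indicator (construct_Q f t m) M := by
    intro L h0 h1 h2 h3 m M
    by_cases hM : M ∈ Gp
    · have := fun n => construct_P_inv t hs L (fun N => (h0 N).mpr) h1 h2 h3 n M hM
      rw [Set.indicator_of_mem hM, Set.indicator_of_mem ((h0 M).mpr hM)]
      obtain ⟨n, rfl | rfl⟩ := Int.eq_nat_or_neg m
      · rw [construct_Q_pos, this]
      · simp only [construct_Q_neg, this]
    · rw [Set.indicator_of_notMem hM, Set.indicator_of_notMem (fun h => hM ((h0 M).mp h))]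
  have h0 : ∀ M ∈ Gp, Gp.indicator (construct_Q f t 0) M = (f (pr M) : ℂ) := by
    intro M hM
    rw [Set.indicator_of_mem hM]
    exact congrFun (construct_Q_pos f t 0) M
  refine ⟨fun m => Gp.indicator (construct_Q f t m), ⟨?_, ?_, ?_, ?_, ?_, ?_, ?_, ?_⟩, h0⟩
  · intro m
    rw [← Set.piecewise_eq_indicator]
    exact (hQ m).continuousOn.measurable_piecewise continuousOn_const isOpen_Gp.measurableSet
  · intro m
    exact ((hQ m).of_le (by simp)).congr fun N hN => Set.indicator_of_mem hN _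
  · intro m M hM
    rw [construct_Ra_congr (hev m M hM), Set.indicator_of_mem hM]
    rcases le_or_gt 0 m with h | h
    · obtain ⟨n, rfl⟩ := Int.eq_ofNat_of_zero_le h
      rw [show (n : ℤ) + 1 = ((n + 1 : ℕ) : ℤ) by push_cast; ring, construct_Q_pos, construct_Q_pos,
        construct_P_ra]
    · obtain ⟨n, rfl⟩ : ∃ n : ℕ, m = -((n + 1 : ℕ) : ℤ) := ⟨(-m - 1).toNat, by omega⟩
      rw [show -((n + 1 : ℕ) : ℤ) + 1 = -(n : ℤ) by push_cast; ring, construct_Q_neg,
        construct_Q_neg, construct_Ra_cmul _ (construct_conj_diff (construct_diffAt (hP _) hM)),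
        Ra_conj, construct_P_lo t hs he n M hM,
        show -((n + 1 : ℕ) : ℤ) = -(n : ℤ) - 1 by push_cast; ring, lam_neg]
      simp only [map_mul, conj_I, conj_ofReal]
      ring
  · intro m M hM
    rw [construct_Lo_congr (hev m M hM), Set.indicator_of_mem hM]
    rcases le_or_gt m 0 with h | h
    · obtain ⟨n, rfl⟩ : ∃ n : ℕ, m = -(n : ℤ) := ⟨(-m).toNat, by omega⟩
      rw [lam_neg, show -(n : ℤ) - 1 = -((n + 1 : ℕ) : ℤ) by push_cast; ring, construct_Q_neg,
        construct_Q_neg, construct_Lo_cmul _ (construct_conj_diff (construct_diffAt (hP _) hM)),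
        Lo_conj, construct_P_ra]
      simp only [map_mul, conj_I, conj_ofReal]
      ring
    · obtain ⟨n, rfl⟩ : ∃ n : ℕ, m = ((n + 1 : ℕ) : ℤ) := ⟨(m - 1).toNat, by omega⟩
      rw [show ((n + 1 : ℕ) : ℤ) - 1 = (n : ℤ) by push_cast; ring, construct_Q_pos, construct_Q_pos,
        construct_P_lo t hs he n M hM]
  · intro m θ M
    have hr : rot θ M ∈ Gp ↔ M ∈ Gp := by simp only [Gp, Set.mem_ofPred_eq, dt_rot]
    by_cases hM : M ∈ Gp
    · have := fun n => construct_P_wt t hs θ n M hM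
      rw [Set.indicator_of_mem hM, Set.indicator_of_mem (hr.mpr hM)]
      obtain ⟨n, rfl | rfl⟩ := Int.eq_nat_or_neg m
      · rw [construct_Q_pos, this]; simp
      · simp only [construct_Q_neg, this, map_mul, ← Complex.exp_conj, conj_I, conj_ofReal,
          map_ofNat, map_natCast]
        push_cast
        ring_nf
    · rw [Set.indicator_of_notMem hM, Set.indicator_of_notMem (fun h => hM (hr.mp h)), mul_zero]
  · intro m s M hs0
    refine hinv (s • ContinuousLinearMap.id ℝ E) (fun N => ?_) (fun N => ?_) (fun N => ?_)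
      (fun N _ => ?_) m M
    · show 0 < dt (s • N) ↔ 0 < dt N
      rw [dt_smul]
      exact mul_pos_iff_of_pos_left (by positivity)
    · show s • star N = star (s • N)
      rw [star_smul, star_trivial s]
    · show s • I • N = I • s • N
      exact smul_comm _ _ _
    · show f (pr (s • N)) = f (pr N)
      rw [pr_smul hs0.ne']
  · intro m γ M
    refine hinv (construct_act γ) (fun N => ?_) (fun N => ?_) (fun N => ?_) (fun N hN => ?_) m M
    · show 0 < dt (act γ N) ↔ 0 < dt N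
      rw [dt_act]
    · simp only [construct_act_apply, act]
      ext <;> simp
    · simp only [construct_act_apply, act]
      ext <;> simp <;> ring
    · exact inv_of_gen hi γ hN
  · exact construct_mass (hs 0).continuousOn hint hn h0

end Pool.Agent.MP_a28cf0_nt.Cub

end
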