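import Pool.Agent.MP_a28cf0_nt.Mg.Four_Rec

set_option autoImplicit false

namespace Pool.Agent.MP_a28cf0_nt.Four

open MeasureTheory Complex Filter Topology Set Pool.Agent.MP_a28cf0_nt.Cub
open scoped ENNReal MatrixGroups

/-- the support of the profile -/
noncomputable def pkform_S (N : ℝ) : Finset ℤ := Finset.Icc (-(⌈2 * N⌉₊ : ℤ)) ⌈2 * N⌉₊

/-- shifted wave packets -/
noncomputable def pkform_F (N : ℝ) (Φ : ℤ → E → ℂ) (a : ℤ) : E → ℂ :=
  pk (fun m => cf N (m - a)) Φ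

/-- products of two packets -/
noncomputable def pkform_G (N : ℝ) (Φ : ℤ → E → ℂ) (a c : ℤ) (M : E) : ℂ :=
  pkform_F N Φ a M * (starRingEnd ℂ) (pkform_F N Φ c M)

/-- the components of fixed weight of the products -/
noncomputable def pkform_A (N : ℝ) (Φ : ℤ → E → ℂ) (a c k : ℤ) (M : E) : ℂ :=
  ∑ x ∈ pkform_S N, ((cf N x * cf N (x - k) : ℝ) : ℂ) *
    (Φ (a + x - k) M * (starRingEnd ℂ) (Φ (c + x) M))

noncomputable def pkform_I (p : LP) (N : ℝ) (Φ : ℤ → E → ℂ) (a b c d : ℤ) (M : E) : ℂ :=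
  ap p fun k => pkform_G N Φ a c M * pkform_A N Φ b d k M

noncomputable def pkform_J (p : LP) (N : ℝ) (Φ : ℤ → E → ℂ) (a b c d : ℤ) (M : E) : ℂ :=
  ap p fun k => pkform_A N Φ a c (-k) M * pkform_A N Φ b d k M

theorem pkform_cf {N : ℝ} (hN : 0 < N) {x : ℤ} (hx : x ∉ pkform_S N) : cf N x = 0 := by
  apply cf_zero hN
  refine (Nat.le_ceil _).trans ?_
  rw [pkform_S, Finset.mem_Icc, ← abs_le, not_le] at hx
  have : ((⌈2 * N⌉₊ : ℤ) : ℝ) ≤ ((|x| : ℤ) : ℝ) := by exact_mod_cast hx.le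
  simpa using this

theorem pkform_F_eq {N : ℝ} (hN : 0 < N) (Φ : ℤ → E → ℂ) (a : ℤ) (M : E) :
    pkform_F N Φ a M = ∑ x ∈ pkform_S N, (cf N x : ℂ) * Φ (a + x) M := by
  unfold pkform_F pk
  rw [← (Equiv.addLeft a).tsum_eq]
  simp only [Equiv.coe_addLeft, add_sub_cancel_left]
  refine tsum_eq_sum fun m hm => ?_
  rw [pkform_cf hN hm]
  simp

theorem pkform_exp (n : ℤ) :
    ∫ θ in Ioo (-(Real.pi / 2)) (Real.pi / 2), cexp (2 * n * θ * I) =
      if n = 0 then (Real.pi : ℂ) else 0 := by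
  have hp := Real.pi_pos
  rw [← integral_Ioc_eq_integral_Ioo, ← intervalIntegral.integral_of_le (by linarith)]
  split_ifs with hn
  · simp [hn]
  · have hc : (2 * n * I : ℂ) ≠ 0 := by simp [hn]
    have e : ∀ θ : ℝ, cexp (2 * n * θ * I) = cexp (2 * n * I * θ) := fun θ => by
      congr 1; ring
    simp only [e]
    rw [integral_exp_mul_complex hc, div_eq_zero_iff, sub_eq_zero]
    left
    rw [Complex.exp_eq_exp_iff_exists_int]
    exact ⟨n, by push_cast; ring⟩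

theorem pkform_intI (n : ℤ) (z : ℂ) :
    IntegrableOn (fun θ : ℝ => z * cexp (2 * n * θ * I)) (Ioo (-(Real.pi / 2)) (Real.pi / 2)) :=
  (Continuous.integrableOn_Icc (by fun_prop)).mono_set Ioo_subset_Icc_self

theorem pkform_conj_exp (n : ℤ) (θ : ℝ) :
    (starRingEnd ℂ) (cexp (2 * n * θ * I)) = cexp (-(2 * n * θ * I)) := by
  rw [← Complex.exp_conj]
  simp [map_ofNat]

theorem pkform_G_rot {t N : ℝ} {Φ : ℤ → E → ℂ} (hN : 0 < N) (h : Sys t Φ) (a c k : ℤ) (θ : ℝ)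
    (M : E) : cexp (2 * (k - (a - c) : ℤ) * θ * I) * pkform_G N Φ a c (rot θ M) =
      ∑ x ∈ pkform_S N, ∑ y ∈ pkform_S N, ((cf N x * cf N y : ℝ) : ℂ) *
        (Φ (a + y) M * (starRingEnd ℂ) (Φ (c + x) M)) * cexp (2 * (k + y - x : ℤ) * θ * I) := by
  rw [pkform_G, pkform_F_eq hN, pkform_F_eq hN, map_sum, Finset.sum_mul_sum, Finset.sum_comm,
    Finset.mul_sum]
  refine Finset.sum_congr rfl fun x _ => ?_
  rw [Finset.mul_sum]
  refine Finset.sum_congr rfl fun y _ => ?_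
  have e : cexp (2 * (k + y - x : ℤ) * θ * I) = cexp (2 * (k - (a - c) : ℤ) * θ * I) *
      cexp (2 * (a + y : ℤ) * θ * I) * cexp (-(2 * (c + x : ℤ) * θ * I)) := by
    rw [← Complex.exp_add, ← Complex.exp_add]
    congr 1
    push_cast
    ring
  rw [h.wt, h.wt, map_mul, map_mul, pkform_conj_exp, e, Complex.conj_ofReal]
  push_cast
  ring

theorem pkform_A_eq {t N : ℝ} {Φ : ℤ → E → ℂ} (hN : 0 < N) (h : Sys t Φ) (a c k : ℤ) (M : E) :
    ∫ θ in Ioo (-(Real.pi / 2)) (Real.pi / 2),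
      cexp (2 * (k - (a - c) : ℤ) * θ * I) * pkform_G N Φ a c (rot θ M) =
      Real.pi * pkform_A N Φ a c k M := by
  simp only [pkform_G_rot hN h]
  rw [integral_finsetSum _ fun x _ => integrable_finsetSum _ fun y _ => pkform_intI _ _,
    pkform_A, Finset.mul_sum]
  refine Finset.sum_congr rfl fun x _ => ?_
  rw [integral_finsetSum _ fun y _ => pkform_intI _ _]
  simp only [integral_const_mul, pkform_exp]
  rw [Finset.sum_eq_single (x - k)]
  · rw [if_pos (by ring), add_sub_assoc, mul_comm]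
  · intro y _ hy
    rw [if_neg (fun h0 => hy (by linarith)), mul_zero]
  · intro hx
    rw [pkform_cf hN hx]
    simp

theorem pkform_A_rot {t N : ℝ} {Φ : ℤ → E → ℂ} (h : Sys t Φ) (a c k : ℤ) (θ : ℝ) (M : E) :
    pkform_A N Φ a c k (rot θ M) = cexp (2 * (a - c - k : ℤ) * θ * I) * pkform_A N Φ a c k M := by
  rw [pkform_A, pkform_A, Finset.mul_sum]
  refine Finset.sum_congr rfl fun x _ => ?_
  have e : cexp (2 * (a - c - k : ℤ) * θ * I) =
      cexp (2 * (a + x - k : ℤ) * θ * I) * cexp (-(2 * (c + x : ℤ) * θ * I)) := by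
    rw [← Complex.exp_add]
    congr 1
    push_cast
    ring
  rw [h.wt, h.wt, map_mul, pkform_conj_exp, e]
  ring

theorem pkform_G_int {t N : ℝ} {Φ : ℤ → E → ℂ} (hN : 0 < N) (h : Sys t Φ) (a c k : ℤ) (M : E) :
    IntegrableOn (fun θ : ℝ => cexp (2 * (k - (a - c) : ℤ) * θ * I) * pkform_G N Φ a c (rot θ M))
      (Ioo (-(Real.pi / 2)) (Real.pi / 2)) := by
  simp only [pkform_G_rot hN h]
  exact integrable_finsetSum _ fun x _ => integrable_finsetSum _ fun y _ => pkform_intI _ _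

theorem pkform_I_eq {t N : ℝ} {Φ : ℤ → E → ℂ} (hN : 0 < N) (h : Sys t Φ) (p : LP) (a b c d : ℤ)
    (M : E) : Real.pi * pkform_I p N Φ a b c d M =
      ∫ θ in Ioo (-(Real.pi / 2)) (Real.pi / 2), ev p θ * cexp (-(2 * (b - d : ℤ) * θ * I)) *
        (pkform_G N Φ a c M * pkform_G N Φ b d (rot θ M)) := by
  have e : ∀ θ : ℝ, ev p θ * cexp (-(2 * (b - d : ℤ) * θ * I)) *
      (pkform_G N Φ a c M * pkform_G N Φ b d (rot θ M)) = ∑ k ∈ p.coeff.support,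
        (p.coeff k : ℂ) * pkform_G N Φ a c M *
          (cexp (2 * (k - (b - d) : ℤ) * θ * I) * pkform_G N Φ b d (rot θ M)) := by
    intro θ
    rw [ev, ap_eq_sum, Finset.sum_mul, Finset.sum_mul]
    refine Finset.sum_congr rfl fun k _ => ?_
    have e : cexp (2 * (k - (b - d) : ℤ) * θ * I) =
        cexp (2 * k * θ * I) * cexp (-(2 * (b - d : ℤ) * θ * I)) := by
      rw [← Complex.exp_add]
      congr 1
      push_cast
      ring
    rw [e]
    ring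
  simp only [e]
  rw [integral_finsetSum _ fun k _ => (pkform_G_int hN h b d k M).const_mul _, pkform_I,
    ap_eq_sum, Finset.mul_sum]
  refine Finset.sum_congr rfl fun k _ => ?_
  rw [integral_const_mul, pkform_A_eq hN h]
  ring

theorem pkform_J_eq {t N : ℝ} {Φ : ℤ → E → ℂ} (hN : 0 < N) (h : Sys t Φ) (p : LP) (a b c d : ℤ)
    (M : E) : Real.pi * pkform_J p N Φ a b c d M =
      ∫ θ in Ioo (-(Real.pi / 2)) (Real.pi / 2), cexp (-(2 * (a - c + (b - d) : ℤ) * θ * I)) *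
        pkform_I p N Φ a b c d (rot θ M) := by
  have e : ∀ θ : ℝ, cexp (-(2 * (a - c + (b - d) : ℤ) * θ * I)) *
      pkform_I p N Φ a b c d (rot θ M) = ∑ k ∈ p.coeff.support,
        (p.coeff k : ℂ) * pkform_A N Φ b d k M *
          (cexp (2 * (-k - (a - c) : ℤ) * θ * I) * pkform_G N Φ a c (rot θ M)) := by
    intro θ
    rw [pkform_I, ap_eq_sum, Finset.mul_sum]
    refine Finset.sum_congr rfl fun k _ => ?_
    have e : cexp (2 * (-k - (a - c) : ℤ) * θ * I) =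
        cexp (-(2 * (a - c + (b - d) : ℤ) * θ * I)) * cexp (2 * (b - d - k : ℤ) * θ * I) := by
      rw [← Complex.exp_add]
      congr 1
      push_cast
      ring
    rw [e, pkform_A_rot h]
    ring
  simp only [e]
  rw [integral_finsetSum _ fun k _ => (pkform_G_int hN h a c (-k) M).const_mul _, pkform_J,
    ap_eq_sum, Finset.mul_sum]
  refine Finset.sum_congr rfl fun k _ => ?_
  rw [integral_const_mul, pkform_A_eq hN h]
  ring

theorem pkform_F_cont {t N : ℝ} {Φ : ℤ → E → ℂ} (hN : 0 < N) (h : Sys t Φ) (a : ℤ) :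
    ContinuousOn (pkform_F N Φ a) Gp ∧ Measurable (pkform_F N Φ a) := by
  rw [show pkform_F N Φ a = _ from funext (pkform_F_eq hN Φ a)]
  exact ⟨continuousOn_finsetSum _ fun x _ => continuousOn_const.mul (h.cont _),
    Finset.measurable_sum _ fun x _ => (h.meas _).const_mul _⟩

theorem pkform_G_cont {t N : ℝ} {Φ : ℤ → E → ℂ} (hN : 0 < N) (h : Sys t Φ) (a c : ℤ) :
    ContinuousOn (pkform_G N Φ a c) Gp ∧ Measurable (pkform_G N Φ a c) :=
  ⟨(pkform_F_cont hN h a).1.mul (continuous_conj.comp_continuousOn (pkform_F_cont hN h c).1),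
    (pkform_F_cont hN h a).2.mul (continuous_conj.measurable.comp (pkform_F_cont hN h c).2)⟩

theorem pkform_A_cont {t : ℝ} (N : ℝ) {Φ : ℤ → E → ℂ} (h : Sys t Φ) (a c k : ℤ) :
    ContinuousOn (pkform_A N Φ a c k) Gp ∧ Measurable (pkform_A N Φ a c k) :=
  ⟨continuousOn_finsetSum _ fun _ _ => continuousOn_const.mul
      ((h.cont _).mul (continuous_conj.comp_continuousOn (h.cont _))),
    Finset.measurable_sum _ fun _ _ =>
      ((h.meas _).mul (continuous_conj.measurable.comp (h.meas _))).const_mul _⟩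

theorem pkform_I_cont {t N : ℝ} {Φ : ℤ → E → ℂ} (hN : 0 < N) (h : Sys t Φ) (p : LP)
    (a b c d : ℤ) :
    ContinuousOn (pkform_I p N Φ a b c d) Gp ∧ Measurable (pkform_I p N Φ a b c d) :=
  ⟨continuousOn_finsetSum _ fun k _ => continuousOn_const.mul
      ((pkform_G_cont hN h a c).1.mul (pkform_A_cont N h b d k).1),
    Finset.measurable_sum _ fun k _ =>
      ((pkform_G_cont hN h a c).2.mul (pkform_A_cont N h b d k).2).const_mul _⟩

theorem pkform_Pq {Ψ : E → ℂ} (hΨ : Test Ψ) {t N : ℝ} {Φ : ℤ → E → ℂ} (hN : 0 < N) (h : Sys t Φ)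
    (p : LP) (a b c d : ℤ) : Pq p N (tau4 Ψ Φ) a b c d =
      (∫ M, Ψ M * pkform_J p N Φ a b c d M ∂nu) / (cs N : ℂ) ^ 2 := by
  have hi : ∀ (z : ℂ) (a b c d : ℤ), Integrable (fun M => z * (Ψ M * (Φ a M * Φ b M *
      (starRingEnd ℂ) (Φ c M) * (starRingEnd ℂ) (Φ d M)))) nu := fun z a b c d =>
    ((hΨ.van.mul _).integrable (hΨ.cont.mul ((((h.cont a).mul (h.cont b)).mul
      (continuous_conj.comp_continuousOn (h.cont c))).mul
        (continuous_conj.comp_continuousOn (h.cont d))))).const_mul z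
  have e : ∀ M, Ψ M * pkform_J p N Φ a b c d M = ∑ x ∈ pkform_S N, ∑ y ∈ pkform_S N,
      ∑ k ∈ p.coeff.support, ((cf N x * cf N y : ℝ) : ℂ) * ((p.coeff k : ℂ) *
        ((cf N (x + k) * cf N (y - k) : ℝ) : ℂ)) * (Ψ M * (Φ (a + x + k) M * Φ (b + y - k) M *
          (starRingEnd ℂ) (Φ (c + x) M) * (starRingEnd ℂ) (Φ (d + y) M))) := by
    intro M
    simp only [pkform_J, ap_eq_sum, pkform_A, Finset.sum_mul_sum, sub_neg_eq_add]
    simp only [Finset.mul_sum]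
    rw [Finset.sum_comm]
    refine Finset.sum_congr rfl fun x _ => ?_
    rw [Finset.sum_comm]
    refine Finset.sum_congr rfl fun y _ => Finset.sum_congr rfl fun k _ => ?_
    push_cast
    ring
  simp only [e]
  rw [integral_finsetSum _ fun x _ => integrable_finsetSum _ fun y _ =>
    integrable_finsetSum _ fun k _ => hi _ _ _ _ _, Pq]
  congr 1
  rw [tsum_eq_sum (s := pkform_S N) fun x hx => by simp [pkform_cf hN hx]]
  refine Finset.sum_congr rfl fun x _ => ?_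
  rw [integral_finsetSum _ fun y _ => integrable_finsetSum _ fun k _ => hi _ _ _ _ _,
    tsum_eq_sum (s := pkform_S N) fun y hy => by simp [pkform_cf hN hy]]
  refine Finset.sum_congr rfl fun y _ => ?_
  rw [integral_finsetSum _ fun k _ => hi _ _ _ _ _, ap_eq_sum, Finset.mul_sum]
  refine Finset.sum_congr rfl fun k _ => ?_
  rw [integral_const_mul, tau4]
  ring

theorem pkform_prod {Ψ : E → ℂ} (hΨ : Test Ψ) {f : ℝ × E → ℂ} (hf : ContinuousOn f (univ ×ˢ Gp)) :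
    Integrable (fun q : ℝ × E => Ψ q.2 * f q)
      ((volume.restrict (Ioo (-(Real.pi / 2)) (Real.pi / 2))).prod nu) := by
  obtain ⟨A, ρ, -, -, h0⟩ := hΨ.bound
  have hc : ContinuousOn (fun q : ℝ × E => Ψ q.2 * f q) (univ ×ˢ Gp) :=
    (hΨ.cont.comp continuous_snd.continuousOn fun q hq => hq.2).mul hf
  have h1 : IntegrableOn (fun q : ℝ × E => Ψ q.2 * f q)
      (Icc (-(Real.pi / 2)) (Real.pi / 2) ×ˢ Bl ρ) (volume.prod volume) :=
    (hc.mono (prod_mono (subset_univ _) (inter_subset_left.trans Sh_subset))).integrableOn_compact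
      (isCompact_Icc.prod (isCompact_Bl ρ))
  rw [nu, Measure.prod_restrict]
  refine h1.of_forall_sdiff_eq_zero (measurableSet_Ioo.prod measurableSet_Sh) fun q hq => ?_
  rw [h0 q.2 hq.1.2 fun hb => hq.2 ⟨Ioo_subset_Icc_self hq.1.1, hb⟩, zero_mul]

theorem pkform_rotc {g : E → ℂ} (hg : ContinuousOn g Gp) :
    ContinuousOn (fun q : ℝ × E => g (rot q.1 q.2)) (univ ×ˢ Gp) :=
  hg.comp (Continuous.continuousOn (by fun_prop)) fun q hq => (rot_mem_Gp _ _).2 hq.2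

theorem pkform_JI {t N : ℝ} {Φ : ℤ → E → ℂ} (hN : 0 < N) (h : Sys t Φ) (p : LP) (a b c d : ℤ)
    (ρ : ℝ) : ∫⁻ M in Bl ρ, ‖pkform_J p N Φ a b c d M‖ₑ ∂nu ≤
      ∫⁻ M in Bl ρ, ‖pkform_I p N Φ a b c d M‖ₑ ∂nu := by
  have hp := Real.pi_pos
  have mI := (pkform_I_cont hN h p a b c d).2
  have e1 : ∀ M, ENNReal.ofReal Real.pi * ‖pkform_J p N Φ a b c d M‖ₑ ≤
      ∫⁻ θ in Ioo (-(Real.pi / 2)) (Real.pi / 2), ‖pkform_I p N Φ a b c d (rot θ M)‖ₑ := by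
    intro M
    rw [show ENNReal.ofReal Real.pi = ‖(Real.pi : ℂ)‖ₑ by
      rw [← ofReal_norm, Complex.norm_real, Real.norm_of_nonneg hp.le], ← enorm_mul,
      pkform_J_eq hN h]
    refine (enorm_integral_le_lintegral_enorm _).trans (le_of_eq (lintegral_congr fun θ => ?_))
    rw [enorm_mul, ← pkform_conj_exp, ← ofReal_norm, Complex.norm_conj,
      show (2 * ((a - c + (b - d) : ℤ) : ℂ) * θ * I) = ((2 * (a - c + (b - d) : ℤ) * θ : ℝ) : ℂ) * I
        by push_cast; ring, Complex.norm_exp_ofReal_mul_I]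
    simp
  have e2 : ∀ θ : ℝ, ∫⁻ M in Bl ρ, ‖pkform_I p N Φ a b c d (rot θ M)‖ₑ ∂nu =
      ∫⁻ M in Bl ρ, ‖pkform_I p N Φ a b c d M‖ₑ ∂nu := by
    intro θ
    have := (mp_rot θ).restrict_preimage (measurableSet_Bl ρ)
    rw [show rot θ ⁻¹' Bl ρ = Bl ρ from Set.ext fun M => rot_mem_Bl θ ρ M] at this
    exact this.lintegral_comp mI.enorm
  refine (ENNReal.mul_le_mul_iff_right (a := ENNReal.ofReal Real.pi) (by simpa using hp)
    ENNReal.ofReal_ne_top).1 ?_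
  rw [← lintegral_const_mul' _ _ ENNReal.ofReal_ne_top]
  refine (lintegral_mono e1).trans ?_
  rw [lintegral_lintegral_swap
    ((mI.comp (measurable_rot' measurable_snd measurable_fst)).enorm.aemeasurable)]
  simp only [e2]
  rw [setLIntegral_const, Real.volume_Ioo, mul_comm,
    show Real.pi / 2 - -(Real.pi / 2) = Real.pi by ring]

/-- the majorants -/
noncomputable def pkform_H (N : ℝ) (Φ : ℤ → E → ℂ) (a c : ℤ) (M : E) : ℝ≥0∞ :=
  ENNReal.ofReal (‖pkform_F N Φ a M‖ ^ 2 / N) + ENNReal.ofReal (‖pkform_F N Φ c M‖ ^ 2 / N)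

theorem pkform_GH {N : ℝ} (hN : 0 < N) (Φ : ℤ → E → ℂ) (a c : ℤ) (M : E) :
    ‖pkform_G N Φ a c M‖ₑ ≤ ENNReal.ofReal N * pkform_H N Φ a c M := by
  rw [pkform_H, ← ENNReal.ofReal_add (by positivity) (by positivity), ← ENNReal.ofReal_mul hN.le,
    ← ofReal_norm, pkform_G, norm_mul, Complex.norm_conj, ← add_div,
    mul_div_cancel₀ _ hN.ne']
  refine ENNReal.ofReal_le_ofReal ?_
  nlinarith [sq_nonneg (‖pkform_F N Φ a M‖ - ‖pkform_F N Φ c M‖), norm_nonneg (pkform_F N Φ a M),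
    norm_nonneg (pkform_F N Φ c M)]

theorem pkform_H_meas {t N : ℝ} {Φ : ℤ → E → ℂ} (hN : 0 < N) (h : Sys t Φ) (a c : ℤ) :
    Measurable (pkform_H N Φ a c) :=
  (((pkform_F_cont hN h a).2.norm.pow_const 2).div_const N).ennreal_ofReal.add
    (((pkform_F_cont hN h c).2.norm.pow_const 2).div_const N).ennreal_ofReal

theorem pkform_I_le {t N A : ℝ} {Φ : ℤ → E → ℂ} (hN : 0 < N) (h : Sys t Φ) {p : LP} (hA : 0 ≤ A)
    (hp : ∀ θ, ‖ev p θ‖ ≤ A * |Real.sin θ * Real.cos θ|) (a b c d : ℤ) (ρ : ℝ) :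
    ∫⁻ M in Bl ρ, ‖pkform_I p N Φ a b c d M‖ₑ ∂nu ≤ ENNReal.ofReal (A * N * N) *
      ∫⁻ θ in Ioo (-(Real.pi / 2)) (Real.pi / 2), ENNReal.ofReal |Real.sin θ * Real.cos θ| *
        ∫⁻ M in Bl ρ, pkform_H N Φ b d (rot θ M) * pkform_H N Φ a c M ∂nu := by
  have e1 : ∀ M, ‖pkform_I p N Φ a b c d M‖ₑ ≤
      ∫⁻ θ in Ioo (-(Real.pi / 2)) (Real.pi / 2), ENNReal.ofReal (A * N * N) *
        (ENNReal.ofReal |Real.sin θ * Real.cos θ| *
          (pkform_H N Φ b d (rot θ M) * pkform_H N Φ a c M)) := by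
    intro M
    have e0 : ‖pkform_I p N Φ a b c d M‖ₑ ≤ ‖Real.pi * pkform_I p N Φ a b c d M‖ₑ := by
      rw [enorm_le_iff_norm_le, norm_mul, Complex.norm_real, Real.norm_of_nonneg Real.pi_pos.le]
      exact le_mul_of_one_le_left (norm_nonneg _) (by linarith [Real.pi_gt_three])
    rw [pkform_I_eq hN h] at e0
    refine e0.trans ((enorm_integral_le_lintegral_enorm _).trans (lintegral_mono fun θ => ?_))
    have e2 : ‖ev p θ * cexp (-(2 * (b - d : ℤ) * θ * I))‖ₑ ≤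
        ENNReal.ofReal A * ENNReal.ofReal |Real.sin θ * Real.cos θ| := by
      rw [← ofReal_norm, norm_mul, ← pkform_conj_exp, Complex.norm_conj,
        show (2 * ((b - d : ℤ) : ℂ) * θ * I) = ((2 * (b - d : ℤ) * θ : ℝ) : ℂ) * I
          by push_cast; ring, Complex.norm_exp_ofReal_mul_I, mul_one, ← ENNReal.ofReal_mul hA]
      exact ENNReal.ofReal_le_ofReal (hp θ)
    rw [enorm_mul, enorm_mul _ (pkform_G N Φ b d _), ENNReal.ofReal_mul (by positivity),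
      ENNReal.ofReal_mul hA]
    refine (mul_le_mul' e2 (mul_le_mul' (pkform_GH hN Φ a c M) (pkform_GH hN Φ b d _))).trans
      (le_of_eq ?_)
    ring
  refine (lintegral_mono e1).trans (le_of_eq ?_)
  have m : Measurable fun q : E × ℝ => ENNReal.ofReal (A * N * N) *
      (ENNReal.ofReal |Real.sin q.2 * Real.cos q.2| *
        (pkform_H N Φ b d (rot q.2 q.1) * pkform_H N Φ a c q.1)) :=
    ((Continuous.measurable (by fun_prop)).ennreal_ofReal.mul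
      (((pkform_H_meas hN h b d).comp (measurable_rot' measurable_snd measurable_fst)).mul
        ((pkform_H_meas hN h a c).comp measurable_fst))).const_mul _
  rw [lintegral_lintegral_swap m.aemeasurable, ← lintegral_const_mul' _ _ ENNReal.ofReal_ne_top]
  refine lintegral_congr fun θ => ?_
  rw [lintegral_const_mul' _ _ ENNReal.ofReal_ne_top, lintegral_const_mul' _ _ ENNReal.ofReal_ne_top]

theorem pkform_data (K ρ : ℝ) : ∃ C : ℝ, 0 ≤ C ∧ ∀ (t : ℝ) (Φ : ℤ → E → ℂ), 1 ≤ t → Sys t Φ →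
    ∀ a c : ℤ, |(a : ℝ)| ≤ K * √t → |(c : ℝ)| ≤ K * √t → ∃ G : E → ℝ≥0∞, Hom G ∧
      (∀ M ∈ Gp, pkform_H (√t) Φ a c M ≤ 2 * ∫⁻ s in Icc (0 : ℝ) 1, G (fl s M)) ∧
      nu.withDensity G (Metric.closedBall 0 ρ) ≤ ENNReal.ofReal C := by
  obtain ⟨K', hK'⟩ := cf_coef K
  obtain ⟨C, hC⟩ := lift_bound ρ K'
  refine ⟨max C 0 + max C 0, by positivity, fun t Φ ht h a c ha hc => ?_⟩
  have h1 : 1 ≤ √t := Real.one_le_sqrt.2 ht
  have ka := hK' _ h1 a ha
  have kc := hK' _ h1 c hc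
  have ma := Gd_meas ht h ka
  have mc := Gd_meas ht h kc
  refine ⟨Gd t (fun m => cf (√t) (m - a)) Φ + Gd t (fun m => cf (√t) (m - c)) Φ,
    ⟨ma.add mc, fun s M hs => ?_⟩, fun M hM => ?_, ?_⟩
  · simp only [Pi.add_apply, Gd_hom _ h hs]
  · simp only [Pi.add_apply]
    rw [lintegral_add_left (f := fun s => Gd t (fun m => cf (√t) (m - a)) Φ (fl s M))
      (ma.comp (measurable_fl' measurable_id measurable_const)), mul_add]
    exact add_le_add (pk_sobolev ht h ka hM) (pk_sobolev ht h kc hM)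
  · rw [withDensity_add_left ma, Measure.add_apply,
      ENNReal.ofReal_add (le_max_right _ _) (le_max_right _ _)]
    exact add_le_add ((hC t _ Φ ht h ka).trans (ENNReal.ofReal_le_ofReal (le_max_left _ _)))
      ((hC t _ Φ ht h kc).trans (ENNReal.ofReal_le_ofReal (le_max_left _ _)))

/-- the averaged sums are bounded as soon as the symbol vanishes at the collinear angles -/
theorem pq_O1 {Ψ : E → ℂ} (hΨ : Test Ψ) (K : ℝ) (p : LP)
    (hp : ∃ A : ℝ, ∀ θ, ‖ev p θ‖ ≤ A * |Real.sin θ * Real.cos θ|) :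
    ∃ C : ℝ, 0 ≤ C ∧ ∀ (t : ℝ) (Φ : ℤ → E → ℂ), 1 ≤ t → Sys t Φ →
      Bd (K * √t) C (Pq p (√t) (tau4 Ψ Φ)) := by
  obtain ⟨A₀, hA₀⟩ := hp
  obtain ⟨A, hA, hp⟩ : ∃ A : ℝ, 0 ≤ A ∧ ∀ θ, ‖ev p θ‖ ≤ A * |Real.sin θ * Real.cos θ| :=
    ⟨max A₀ 0, le_max_right _ _, fun θ =>
      (hA₀ θ).trans (mul_le_mul_of_nonneg_right (le_max_left _ _) (abs_nonneg _))⟩
  obtain ⟨B, ρ, hB0, hB, h0⟩ := hΨ.bound
  obtain ⟨C, hC0, hC⟩ := pkform_data K (6 * ρ)
  refine ⟨B * (A * (4 * (C * C))), by positivity, fun t Φ ht h a b c d hb => ?_⟩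
  have h1 : 1 ≤ √t := Real.one_le_sqrt.2 ht
  have hN : 0 < √t := by linarith
  obtain ⟨G₃, g1, g2, g3⟩ := hC t Φ ht h a c hb.1 hb.2.2.1
  obtain ⟨G₁, f1, f2, f3⟩ := hC t Φ ht h b d hb.2.1 hb.2.2.2
  have e1 : ‖∫ M, Ψ M * pkform_J p (√t) Φ a b c d M ∂nu‖ₑ ≤
      ENNReal.ofReal B * ∫⁻ M in Bl ρ, ‖pkform_J p (√t) Φ a b c d M‖ₑ ∂nu := by
    refine (enorm_integral_le_lintegral_enorm _).trans ?_
    rw [← lintegral_const_mul' _ _ ENNReal.ofReal_ne_top,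
      ← lintegral_indicator (measurableSet_Bl ρ)]
    refine lintegral_mono_ae (ae_mem_Sh.mono fun M hM => ?_)
    by_cases hm : M ∈ Bl ρ
    · rw [indicator_of_mem hm, enorm_mul]
      refine mul_le_mul_left ?_ _
      rw [← ofReal_norm]
      exact ENNReal.ofReal_le_ofReal (hB M hM)
    · simp [h0 M hM hm]
  have e2 := e1.trans (mul_le_mul_right ((pkform_JI hN h p a b c d ρ).trans
    ((pkform_I_le hN h hA hp a b c d ρ).trans (mul_le_mul_right ((bilw f1 g1.1 f2 g2).trans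
      (mul_le_mul_right (mul_le_mul' g3 f3) _)) _))) _)
  rw [← ENNReal.ofReal_mul hC0, ← ENNReal.ofReal_ofNat, ← ENNReal.ofReal_mul (by positivity),
    ← ENNReal.ofReal_mul (by positivity), ← ENNReal.ofReal_mul hB0, ← ofReal_norm,
    ENNReal.ofReal_le_ofReal_iff (by positivity)] at e2
  have hc := (cs_bounds h1).1
  rw [pkform_Pq hΨ hN h, norm_div, norm_pow, Complex.norm_real,
    Real.norm_of_nonneg (by linarith), div_le_iff₀ (pow_pos (by linarith) 2)]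
  refine e2.trans ?_
  calc _ = B * (A * (4 * (C * C))) * √t ^ 2 := by ring
    _ ≤ _ := by gcongr

theorem pq_eq {Ψ : E → ℝ} (hΨ : Wt Ψ) (p : LP) {t : ℝ} {Φ : ℤ → E → ℂ} (ht : 1 ≤ t)
    (h : Sys t Φ) :
    Pq p (√t) (tau4 (fun M => (Ψ M : ℂ)) Φ) 0 0 0 0 =
      (1 / Real.pi : ℂ) * ∫ θ in Ioo (-(Real.pi / 2)) (Real.pi / 2),
        ev p θ * ((∫ M, Ψ M * (rho t Φ M * rho t Φ (rot θ M)) ∂nu : ℝ) : ℂ) := by
  have hN : 0 < √t := Real.sqrt_pos.2 (by linarith)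
  have hp : (Real.pi : ℂ) ≠ 0 := by simp
  have h1 : Real.pi * ∫ M, (Ψ M : ℂ) * pkform_J p (√t) Φ 0 0 0 0 M ∂nu =
      Real.pi * ∫ M, (Ψ M : ℂ) * pkform_I p (√t) Φ 0 0 0 0 M ∂nu := by
    have e : ∀ M, Real.pi * ((Ψ M : ℂ) * pkform_J p (√t) Φ 0 0 0 0 M) =
        ∫ θ in Ioo (-(Real.pi / 2)) (Real.pi / 2), Ψ M * pkform_I p (√t) Φ 0 0 0 0 (rot θ M) := by
      intro M
      rw [mul_left_comm, pkform_J_eq hN h, ← integral_const_mul]
      simp
    have e2 : ∀ θ : ℝ, ∫ M, (Ψ M : ℂ) * pkform_I p (√t) Φ 0 0 0 0 (rot θ M) ∂nu =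
        ∫ M, (Ψ M : ℂ) * pkform_I p (√t) Φ 0 0 0 0 M ∂nu := by
      intro θ
      rw [← (mp_rot θ).integral_comp (me_rot θ) fun M => (Ψ M : ℂ) * pkform_I p (√t) Φ 0 0 0 0 M]
      simp only [hΨ.rotinv]
    rw [← integral_const_mul]
    simp only [e]
    rw [← integral_integral_swap (pkform_prod hΨ.test
      (pkform_rotc (pkform_I_cont hN h p 0 0 0 0).1))]
    simp only [e2]
    have := Real.pi_pos
    rw [setIntegral_const, Real.volume_real_Ioo_of_le (by linarith), Complex.real_smul]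
    congr 1
    push_cast
    ring
  have h2 : Real.pi * ∫ M, (Ψ M : ℂ) * pkform_I p (√t) Φ 0 0 0 0 M ∂nu =
      ∫ θ in Ioo (-(Real.pi / 2)) (Real.pi / 2), ∫ M, (Ψ M : ℂ) * (ev p θ *
        (pkform_G (√t) Φ 0 0 M * pkform_G (√t) Φ 0 0 (rot θ M))) ∂nu := by
    have e : ∀ M, Real.pi * ((Ψ M : ℂ) * pkform_I p (√t) Φ 0 0 0 0 M) =
        ∫ θ in Ioo (-(Real.pi / 2)) (Real.pi / 2), Ψ M * (ev p θ *
          (pkform_G (√t) Φ 0 0 M * pkform_G (√t) Φ 0 0 (rot θ M))) := by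
      intro M
      rw [mul_left_comm, pkform_I_eq hN h, ← integral_const_mul]
      simp
    have hG := (pkform_G_cont hN h 0 0).1
    rw [← integral_const_mul]
    simp only [e]
    rw [← integral_integral_swap (pkform_prod hΨ.test
      (((continuous_ev p).comp continuous_fst).continuousOn.mul
        ((hG.comp continuous_snd.continuousOn fun q hq => hq.2).mul (pkform_rotc hG))))]
  have hG : ∀ M, pkform_G (√t) Φ 0 0 M = ((‖pk (cf (√t)) Φ M‖ ^ 2 : ℝ) : ℂ) := by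
    intro M
    simp only [pkform_G, pkform_F, sub_zero, Complex.mul_conj, Complex.normSq_eq_norm_sq]
  rw [pkform_Pq hΨ.test hN h, mul_left_cancel₀ hp h1, (eq_div_iff hp).2 ((mul_comm _ _).trans h2),
    div_div, mul_comm (Real.pi : ℂ), ← div_div, ← integral_div, div_eq_inv_mul _ (Real.pi : ℂ),
    one_div]
  congr 2
  funext θ
  rw [← integral_complex_ofReal, ← integral_const_mul, ← integral_div]
  congr 1
  funext M
  simp only [hG, rho]
  push_cast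
  ring

end Pool.Agent.MP_a28cf0_nt.Four

namespace Pool.Agent.MP_a28cf0_nt.Four

open MeasureTheory Complex Filter Topology Set Pool.Agent.MP_a28cf0_nt.Cub
open scoped ENNReal MatrixGroups

theorem boot_pow {N : ℝ} (hN : 1 ≤ N) {a b i : ℕ} (hi : 1 ≤ i) (h : a ≤ b + (i - 1)) :
    N ^ a / N ^ i ≤ N ^ b / N := by
  obtain ⟨m, rfl⟩ : ∃ m, i = m + 1 := ⟨i - 1, by omega⟩
  have h0 : 0 < N := by linarith
  rw [div_le_div_iff₀ (by positivity) h0, ← pow_succ, ← pow_add]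
  exact pow_le_pow_right₀ hN (by omega)

/-- a common constant for the test function and its two derivatives -/
theorem boot_three {j : ℕ}
    (ih : ∀ {Ψ : E → ℂ}, Test Ψ → ∀ K : ℝ, ∃ C : ℝ, 0 ≤ C ∧
      ∀ (t : ℝ) (Φ : ℤ → E → ℂ), 1 ≤ t → Sys t Φ → ∀ i ≤ j,
        Bd (K * √t) (C * (√t) ^ (8 - i)) (Dop^[i] (tau4 Ψ Φ)))
    {Ψ : E → ℂ} (hΨ : Test Ψ) (K : ℝ) : ∃ C : ℝ, 0 ≤ C ∧
      ∀ (t : ℝ) (Φ : ℤ → E → ℂ), 1 ≤ t → Sys t Φ → ∀ i ≤ j,
        Bd (K * √t) (C * (√t) ^ (8 - i)) (Dop^[i] (tau4 Ψ Φ)) ∧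
        Bd (K * √t) (C * (√t) ^ (8 - i)) (Dop^[i] (tau4 (Ra Ψ) Φ)) ∧
        Bd (K * √t) (C * (√t) ^ (8 - i)) (Dop^[i] (tau4 (Lo Ψ) Φ)) := by
  obtain ⟨B1, p1, h1⟩ := ih hΨ K
  obtain ⟨B2, p2, h2⟩ := ih hΨ.ra K
  obtain ⟨B3, p3, h3⟩ := ih hΨ.lo K
  refine ⟨B1 + B2 + B3, by linarith, fun t Φ ht hS i hi => ?_⟩
  have hp : 0 ≤ (√t) ^ (8 - i) := by positivity
  exact ⟨(h1 t Φ ht hS i hi).mono le_rfl (by nlinarith),
    (h2 t Φ ht hS i hi).mono le_rfl (by nlinarith),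
    (h3 t Φ ht hS i hi).mono le_rfl (by nlinarith)⟩

theorem boot_step {j : ℕ}
    (ih : ∀ {Ψ : E → ℂ}, Test Ψ → ∀ K : ℝ, ∃ C : ℝ, 0 ≤ C ∧
      ∀ (t : ℝ) (Φ : ℤ → E → ℂ), 1 ≤ t → Sys t Φ → ∀ i ≤ j,
        Bd (K * √t) (C * (√t) ^ (8 - i)) (Dop^[i] (tau4 Ψ Φ)))
    {Ψ : E → ℂ} (hΨ : Test Ψ) (K : ℝ) : ∃ C : ℝ, 0 ≤ C ∧
      ∀ (t : ℝ) (Φ : ℤ → E → ℂ), 1 ≤ t → Sys t Φ →
        Bd (K * √t) (C * (√t) ^ (8 - (j + 1))) (Dop^[j + 1] (tau4 Ψ Φ)) := by
  obtain ⟨C1, c1, hsplit⟩ := split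
  obtain ⟨C2, c2, hrel⟩ := relbd j (K + 10)
  obtain ⟨C3, L, c3, hL, hcmp⟩ := cmp (j + 1) 1
  obtain ⟨C4, c4, hpq⟩ := pq_O1 hΨ K (DL ^ (j + 1) * 1) (ev_DL_le j 1)
  obtain ⟨B, hB, hb⟩ := boot_three ih hΨ (K + 10 + j + 2 + L + 1)
  refine ⟨C1 * (C2 * B + B) + 4 * (C3 * B) + 2 * C4, by positivity, fun t Φ ht hS => ?_⟩
  have hN : 1 ≤ √t := Real.one_le_sqrt.mpr ht
  have hN2 : √t * √t = t := Real.mul_self_sqrt (by linarith)
  have hb := hb t Φ ht hS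
  have hpq := hpq t Φ ht hS
  have hrel := hrel Ψ t B Φ hΨ ht hS hB
  generalize √t = N at *
  have hN0 : 0 < N := by linarith
  have hj : (0 : ℝ) ≤ j := Nat.cast_nonneg j
  have hLN : 0 ≤ L * N := by positivity
  have hjN : 0 ≤ j * N := by positivity
  obtain ⟨hu, hd⟩ := hrel (fun i hi => (hb i hi).1.mono (by nlinarith) le_rfl)
    ((hb j le_rfl).2.1.mono (by nlinarith) le_rfl) ((hb j le_rfl).2.2.mono (by nlinarith) le_rfl)
  have hav : ∀ a b c d : ℤ, Box (K * N) a b c d →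
      ‖AvB N (Dop^[j + 1] (tau4 Ψ Φ)) a b c d‖ ≤ C3 * (2 * B * (N ^ (8 - j) / N)) + C4 := by
    intro a b c d hbox
    have h1 := hcmp N (K * N) (2 * B * (N ^ (8 - j) / N))
      (fun i => if i ≤ j then B * N ^ (8 - i) else 2 * (B * N ^ (8 - j))) (tau4 Ψ Φ) hN
      (by
        intro i hi
        by_cases h : i ≤ j
        · simp only [if_pos h]
          exact (hb i h).1.mono (by nlinarith) le_rfl
        · have e : i = j + 1 := by omega
          simp only [if_neg h]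
          rw [e, Function.iterate_succ_apply']
          exact Bd.dop ((hb j le_rfl).1.mono (by nlinarith) le_rfl))
      (by intro i _; split_ifs <;> positivity)
      (by
        simp only [if_neg (show ¬ (j + 1 ≤ j) by omega)]
        exact le_of_eq (by ring))
      (by
        intro i h1 h2
        simp only [if_pos (show j + 1 - i ≤ j by omega)]
        have h3 := boot_pow hN (a := 8 - (j + 1 - i)) (b := 8 - j) h1 (by omega)
        have h4 : 0 ≤ N ^ (8 - j) / N := by positivity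
        rw [mul_div_assoc]
        nlinarith)
      a b c d hbox
    have h2 := hpq a b c d hbox
    rw [mul_one] at h1 h2
    rw [Sp_DL_pow] at h1
    calc _ ≤ ‖AvB N (Dop^[j + 1] (tau4 Ψ Φ)) a b c d - Pq (DL ^ (j + 1)) N (tau4 Ψ Φ) a b c d‖ +
          ‖Pq (DL ^ (j + 1)) N (tau4 Ψ Φ) a b c d‖ := norm_le_norm_sub_add _ _
      _ ≤ _ := add_le_add h1 h2
  intro a b c d hbox
  have h1 := hsplit N (K * N) (B * N ^ (8 - j)) (C2 * B * N ^ (8 - j) / t) (Dop^[j] (tau4 Ψ Φ)) hN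
    ((hb j le_rfl).1.mono (by nlinarith) le_rfl) (hu.mono (by nlinarith) le_rfl)
    (hd.mono (by nlinarith) le_rfl) a b c d hbox
  rw [← Function.iterate_succ_apply' Dop j] at h1
  have e : Sw (Dop^[j + 1] (tau4 Ψ Φ)) =
      fun a b c d => (-1) ^ (j + 1) * Dop^[j + 1] (tau4 Ψ Φ) a b c d := by
    funext a b c d
    exact Sw_dop_iter (j + 1) (tau4_sw Ψ Φ) a b c d
  simp only [Nat.succ_eq_add_one] at h1
  rw [e, AvB_const_mul] at h1
  have h2 := hav a b c d hbox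
  have h3 := hav b a c d ⟨hbox.2.1, hbox.1, hbox.2.2⟩
  have h4 : ‖(-1 : ℂ) ^ (j + 1) * AvB N (Dop^[j + 1] (tau4 Ψ Φ)) b a c d‖ =
      ‖AvB N (Dop^[j + 1] (tau4 Ψ Φ)) b a c d‖ := by simp
  have h5 : N * (C2 * B * N ^ (8 - j) / t) + B * N ^ (8 - j) / N =
      (C2 * B + B) * (N ^ (8 - j) / N) := by
    rw [← hN2]; field_simp
  rw [h5] at h1
  have h6 : N ^ (8 - j) / N ≤ N ^ (8 - (j + 1)) := by
    rw [div_le_iff₀ hN0, ← pow_succ]
    exact pow_le_pow_right₀ hN (by omega)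
  have h7 : 1 ≤ N ^ (8 - (j + 1)) := one_le_pow₀ hN
  generalize Dop^[j + 1] (tau4 Ψ Φ) a b c d = x at *
  generalize (-1 : ℂ) ^ (j + 1) * AvB N (Dop^[j + 1] (tau4 Ψ Φ)) b a c d = z at *
  generalize AvB N (Dop^[j + 1] (tau4 Ψ Φ)) a b c d = y at *
  have h8 : ‖x‖ ≤ ‖x - y - z‖ + ‖y‖ + ‖z‖ := by
    calc ‖x‖ = ‖(x - y - z) + y + z‖ := by congr 1; ring
      _ ≤ _ := norm_add₃_le
  generalize N ^ (8 - j) / N = Q at *
  generalize N ^ (8 - (j + 1)) = P at *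
  have q1 : C1 * ((C2 * B + B) * Q) ≤ C1 * ((C2 * B + B) * P) := by gcongr
  have q2 : C3 * B * Q ≤ C3 * B * P := by gcongr
  have q3 : C4 ≤ C4 * P := le_mul_of_one_le_right c4 h7
  nlinarith

theorem boot_all (j : ℕ) : ∀ {Ψ : E → ℂ}, Test Ψ → ∀ K : ℝ, ∃ C : ℝ, 0 ≤ C ∧
    ∀ (t : ℝ) (Φ : ℤ → E → ℂ), 1 ≤ t → Sys t Φ → ∀ i ≤ j,
      Bd (K * √t) (C * (√t) ^ (8 - i)) (Dop^[i] (tau4 Ψ Φ)) := by
  induction j with
  | zero =>
    intro Ψ hΨ K
    obtain ⟨C, hC, h⟩ := crude4 hΨ K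
    refine ⟨C, hC, fun t Φ ht hS i hi => ?_⟩
    have : i = 0 := by omega
    subst this
    exact h t Φ ht hS
  | succ j ih =>
    intro Ψ hΨ K
    obtain ⟨C, hC, h⟩ := ih hΨ K
    obtain ⟨C', hC', h'⟩ := boot_step ih hΨ K
    refine ⟨C + C', by linarith, fun t Φ ht hS i hi => ?_⟩
    have hp : 0 ≤ (√t) ^ (8 - i) := by positivity
    by_cases hij : i ≤ j
    · exact (h t Φ ht hS i hij).mono le_rfl (by nlinarith)
    · have e : i = j + 1 := by omega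
      subst e
      exact (h' t Φ ht hS).mono le_rfl (by nlinarith)

theorem boot (j : ℕ) : ∀ {Ψ : E → ℂ}, Test Ψ → ∀ K : ℝ, ∃ C : ℝ, 0 ≤ C ∧
    ∀ (t : ℝ) (Φ : ℤ → E → ℂ), 1 ≤ t → Sys t Φ →
      Bd (K * √t) (C * (√t) ^ (8 - j)) (Dop^[j] (tau4 Ψ Φ)) := by
  intro Ψ hΨ K
  obtain ⟨C, hC, h⟩ := boot_all j hΨ K
  exact ⟨C, hC, fun t Φ ht hS => h t Φ ht hS j le_rfl⟩

theorem asym {Ψ : E → ℂ} (hΨ : Test Ψ) (r : LP)
    (hr : LaurentPolynomial.invert (DL ^ 10 * r) = DL ^ 10 * r) (l : ℤ) :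
    ∃ C : ℝ, ∀ (t : ℝ) (Φ : ℤ → E → ℂ), 1 ≤ t → Sys t Φ →
      ‖Sp (DL ^ 10 * r) (tau4 Ψ Φ) 0 0 l (-l) -
        2 * Pq (DL ^ 10 * (r * LaurentPolynomial.T (-l))) (√t) (tau4 Ψ Φ) 0 0 0 0‖ ≤ C / √t := by
  obtain ⟨C1, c1, hsplit⟩ := split
  obtain ⟨L1, A1, hL1, hA1, hSp⟩ := Bd_Sp r
  obtain ⟨C2, c2, hrel⟩ := relbd 9 (|(l : ℝ)| + 10 + L1)
  obtain ⟨C3, L3, c3, hL3, hcmp⟩ := cmp 10 (r * LaurentPolynomial.T (-l))
  obtain ⟨V, hV, hshift⟩ := AvB_shift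
  obtain ⟨B, hB, hb⟩ := boot_three (boot_all 10) hΨ (|(l : ℝ)| + 10 + L1 + 11 + L3)
  refine ⟨C1 * (A1 * (C2 * B) + A1 * B) + 2 * (V * |(l : ℝ)| * (2 * (A1 * B))) + 2 * (C3 * B),
    fun t Φ ht hS => ?_⟩
  have hN : 1 ≤ √t := Real.one_le_sqrt.mpr ht
  have hN2 : √t * √t = t := Real.mul_self_sqrt (by linarith)
  have hb := hb t Φ ht hS
  have hrel := hrel Ψ t B Φ hΨ ht hS hB
  generalize √t = N at *
  have hN0 : 0 < N := by linarith
  have hl : 0 ≤ |(l : ℝ)| := abs_nonneg _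
  have p1 : 0 ≤ L3 * N := by positivity
  have p2 : L1 ≤ L1 * N := le_mul_of_one_le_right hL1 hN
  have p3 : |(l : ℝ)| ≤ |(l : ℝ)| * N := le_mul_of_one_le_right hl hN
  obtain ⟨hu, hd⟩ := hrel
    (fun i hi => (hb i (by omega)).1.mono (by push_cast; nlinarith) le_rfl)
    ((hb 9 (by omega)).2.1.mono (by nlinarith) le_rfl)
    ((hb 9 (by omega)).2.2.mono (by nlinarith) le_rfl)
  have h9 := (hb 9 (by omega)).1
  simp only [show 8 - 9 = 0 from rfl, pow_zero, mul_one] at hu hd h9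
  have hs : Bd (|(l : ℝ)| + 10 * N) (A1 * B) (Sp r (Dop^[9] (tau4 Ψ Φ))) :=
    hSp _ _ _ (h9.mono (by nlinarith) le_rfl)
  have hsu : Bd (|(l : ℝ)| + 10 * N) (A1 * (C2 * B / t)) (Up4 (Sp r (Dop^[9] (tau4 Ψ Φ)))) := by
    rw [Up4_Sp]; exact hSp _ _ _ (hu.mono (by nlinarith) le_rfl)
  have hsd : Bd (|(l : ℝ)| + 10 * N) (A1 * (C2 * B / t)) (Dn4 (Sp r (Dop^[9] (tau4 Ψ Φ)))) := by
    rw [Dn4_Sp]; exact hSp _ _ _ (hd.mono (by nlinarith) le_rfl)
  have e1 : Dop (Sp r (Dop^[9] (tau4 Ψ Φ))) = Sp (DL ^ 10 * r) (tau4 Ψ Φ) := by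
    have : Dop (Sp r (Dop^[9] (tau4 Ψ Φ))) = Dop^[1] (Sp r (Dop^[9] (tau4 Ψ Φ))) := rfl
    rw [this, ← Sp_DL_pow, ← Sp_DL_pow, ← Sp_mul, ← Sp_mul]
    congr 1; ring
  have e2 : Sw (Sp (DL ^ 10 * r) (tau4 Ψ Φ)) = Sp (DL ^ 10 * r) (tau4 Ψ Φ) := by
    rw [Sw_Sp, hr, tau4_sw]
  have h1 := hsplit N |(l : ℝ)| _ _ _ hN hs hsu hsd 0 0 l (-l)
    ⟨by simp, by simp, le_rfl, by simp⟩
  rw [e1, e2] at h1
  have hP : Bd (|(l : ℝ)| + 3 * N) (2 * (A1 * B)) (Sp (DL ^ 10 * r) (tau4 Ψ Φ)) := by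
    rw [← e1]; exact Bd.dop (hs.mono (by linarith) le_rfl)
  have h2 := hshift N _ _ l hN hP
  have e3 : AvB N (Sp (DL ^ 10 * r) (tau4 Ψ Φ)) (-l) l 0 0 =
      AvB N (Sp (DL ^ 10 * (r * LaurentPolynomial.T (-l))) (tau4 Ψ Φ)) 0 0 0 0 := by
    rw [show DL ^ 10 * (r * LaurentPolynomial.T (-l)) = LaurentPolynomial.T (-l) * (DL ^ 10 * r) by
      ring, Sp_mul (LaurentPolynomial.T (-l))]
    unfold AvB
    congr 1; funext x; congr 1; funext y
    rw [Sp_T]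
    congr 1 <;> ring
  rw [e3] at h2
  have h3 := hcmp N 0 (B / N) (fun i => B * N ^ (8 - i)) (tau4 Ψ Φ) hN
    (fun i hi => (hb i hi).1.mono (by nlinarith) le_rfl) (fun i _ => by positivity)
    (by simp)
    (by
      intro i h1 h2
      have h3 := boot_pow hN (a := 8 - (10 - i)) (b := 0) h1 (by omega)
      rw [pow_zero] at h3
      rw [mul_div_assoc, div_eq_mul_one_div B N]
      exact mul_le_mul_of_nonneg_left h3 hB)
    0 0 0 0 ⟨by simp, by simp, by simp, by simp⟩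
  have h5 : C1 * (N * (A1 * (C2 * B / t)) + A1 * B / N) = C1 * (A1 * (C2 * B) + A1 * B) / N := by
    rw [← hN2]; field_simp
  rw [h5] at h1
  generalize Sp (DL ^ 10 * r) (tau4 Ψ Φ) 0 0 l (-l) = x at *
  generalize AvB N (Sp (DL ^ 10 * r) (tau4 Ψ Φ)) 0 0 l (-l) = y at *
  generalize AvB N (Sp (DL ^ 10 * (r * LaurentPolynomial.T (-l))) (tau4 Ψ Φ)) 0 0 0 0 = z at *
  generalize Pq (DL ^ 10 * (r * LaurentPolynomial.T (-l))) N (tau4 Ψ Φ) 0 0 0 0 = w at *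
  have h8 : ‖x - 2 * w‖ ≤ ‖x - y - y‖ + 2 * ‖y - z‖ + 2 * ‖z - w‖ := by
    calc ‖x - 2 * w‖ = ‖(x - y - y) + 2 * (y - z) + 2 * (z - w)‖ := by congr 1; ring
      _ ≤ ‖x - y - y‖ + ‖2 * (y - z)‖ + ‖2 * (z - w)‖ := norm_add₃_le
      _ = _ := by simp
  rw [add_div, add_div, mul_div_assoc 2, mul_div_assoc 2, mul_div_assoc C3]
  linarith

end Pool.Agent.MP_a28cf0_nt.Four

namespace Pool.Agent.MP_a28cf0_nt.Four

open MeasureTheory Complex Filter Topology Set Pool.Agent.MP_a28cf0_nt.Cub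
open scoped ENNReal MatrixGroups

theorem bessel_ap_int {α : Type} [MeasurableSpace α] (μ : Measure α) (p : LP) (g : ℤ → α → ℂ)
    (hg : ∀ k, Integrable (g k) μ) :
    ∫ x, ap p (fun k => g k x) ∂μ = ap p fun k => ∫ x, g k x ∂μ := by
  simp only [ap_eq_sum]
  rw [integral_finsetSum _ fun k _ => (hg k).const_mul _]
  simp only [integral_const_mul]

theorem bessel_ap_cont (p : LP) (g : ℤ → E → ℂ) (hg : ∀ k, ContinuousOn (g k) Gp) :
    ContinuousOn (fun M => ap p fun k => g k M) Gp := by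
  simp only [ap_eq_sum]
  exact continuousOn_finsetSum _ fun k _ => continuousOn_const.mul (hg k)

/-- the quadratic expression that is subtracted -/
noncomputable def besselH (p : LP) (Φ : ℤ → E → ℂ) (M : E) : ℂ :=
  ap p fun k => Φ k M * Φ (-k) M

theorem bessel_cont (p : LP) {t : ℝ} {Φ : ℤ → E → ℂ} (h : Sys t Φ) :
    ContinuousOn (besselH p Φ) Gp :=
  bessel_ap_cont p _ fun k => (h.cont k).mul (h.cont (-k))

theorem bessel_A1 {ψ : E → ℂ} (hψ : Test ψ) (p : LP) {t : ℝ} {Φ : ℤ → E → ℂ} (h : Sys t Φ)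
    (c d : ℤ) :
    ∫ M, ψ M * (besselH p Φ M * (starRingEnd ℂ) (Φ c M) * (starRingEnd ℂ) (Φ d M)) ∂nu =
      Sp p (tau4 ψ Φ) 0 0 c d := by
  unfold Sp tau4
  refine Eq.trans ?_ (bessel_ap_int nu p _ fun k => inv_int hψ
    ((((h.cont (0 + k)).mul (h.cont (0 - k))).mul (inv_conj0 (h.cont c))).mul
      (inv_conj0 (h.cont d))))
  congr 1
  funext M
  simp only [besselH, ap_eq_sum, Finset.mul_sum, Finset.sum_mul, zero_add, zero_sub]
  exact Finset.sum_congr rfl fun k _ => by ring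

theorem bessel_A2 {ψ : E → ℂ} (hψ : Test ψ) (p : LP) {t : ℝ} {Φ : ℤ → E → ℂ} (h : Sys t Φ) :
    ∫ M, ψ M * (besselH p Φ M * (starRingEnd ℂ) (besselH p Φ M)) ∂nu =
      ap p fun l => Sp p (tau4 ψ Φ) 0 0 l (-l) := by
  simp only [← bessel_A1 hψ p h]
  refine Eq.trans ?_ (bessel_ap_int nu p _ fun l => inv_int hψ
    (((bessel_cont p h).mul (inv_conj0 (h.cont l))).mul (inv_conj0 (h.cont (-l)))))
  congr 1
  funext M
  have e : (starRingEnd ℂ) (besselH p Φ M) =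
      ap p fun l => (starRingEnd ℂ) (Φ l M) * (starRingEnd ℂ) (Φ (-l) M) := by
    rw [besselH, ap_conj]; simp only [map_mul]
  rw [e]
  generalize besselH p Φ M = z
  simp only [ap_eq_sum, Finset.mul_sum]
  exact Finset.sum_congr rfl fun k _ => by ring

theorem bessel_sign (k : ℤ) : Complex.exp (2 * k * ((Real.pi / 2 : ℝ) : ℂ) * I) = (-1) ^ k := by
  rw [← Complex.exp_pi_mul_I, ← Complex.exp_int_mul]
  congr 1
  push_cast
  ring

theorem bessel_A0 {ψ : E → ℂ} (hψ : Test ψ) (p : LP) (hp : ev p (Real.pi / 2) = 0) :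
    ∃ C : ℝ, ∀ (t : ℝ) (Φ : ℤ → E → ℂ), 1 ≤ t → Sys t Φ → Re0 Φ →
      ‖∫ M, ψ M * besselH p Φ M ∂nu‖ ≤ C / √t := by
  obtain ⟨L, A, hL, hA, hap⟩ := ap_norm_le p
  obtain ⟨C, hC⟩ := l2_drift hψ L
  refine ⟨A * C, fun t Φ ht h h0 => ?_⟩
  set F : ℤ → ℂ := fun m => ∫ M, ψ M * ((‖Φ m M‖ ^ 2 : ℝ) : ℂ) ∂nu with hF
  have e1 : ∫ M, ψ M * besselH p Φ M ∂nu = ap p fun k => (-1) ^ k * F k := by
    have e2 : ∀ k : ℤ, (-1) ^ k * F k = ∫ M, ψ M * (Φ k M * Φ (-k) M) ∂nu := by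
      intro k
      rw [hF, ← integral_const_mul]
      refine integral_congr_ae (ae_mem_Sh.mono fun M hM => ?_)
      have h1 := conj_eq h h0 k (Sh_subset hM)
      have h2 : ((-1 : ℂ) ^ k) * (-1) ^ k = 1 := by
        rw [← mul_zpow]; simp
      beta_reduce
      rw [← l2_sq, h1]
      linear_combination (ψ M * Φ k M * Φ (-k) M) * h2
    simp only [e2]
    refine Eq.trans ?_ (bessel_ap_int nu p _ fun k => inv_int hψ ((h.cont k).mul (h.cont (-k))))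
    congr 1
    funext M
    rw [besselH, ← ap_const_mul]
  have e3 : (ap p fun k => (-1) ^ k * F k) = ap p fun k => (-1) ^ k * (F k - F 0) := by
    have e4 : (ap p fun k => F 0 * (-1) ^ k) = 0 := by
      have e5 : (ap p fun k => Complex.exp (2 * k * ((Real.pi / 2 : ℝ) : ℂ) * I)) = 0 := hp
      simp only [bessel_sign] at e5
      rw [ap_const_mul, e5, mul_zero]
    rw [← sub_zero (ap p fun k => (-1) ^ k * F k), ← e4, ← ap_sub]
    congr 1
    funext k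
    ring
  rw [e1, e3, mul_div_assoc]
  refine hap _ _ fun k hk => ?_
  have hs : 1 ≤ √t := Real.one_le_sqrt.2 ht
  rw [norm_mul, norm_zpow, norm_neg, norm_one, one_zpow, one_mul]
  exact hC t Φ ht h k (hk.trans (le_mul_of_one_le_right hL hs))

theorem bessel_J {Ψ : E → ℝ} (hΨ : Wt Ψ) {t : ℝ} {Φ : ℤ → E → ℂ} (ht : 1 ≤ t) (h : Sys t Φ) :
    Continuous fun θ : ℝ => ∫ M, Ψ M * (rho t Φ M * rho t Φ (rot θ M)) ∂nu := by
  obtain ⟨A, ρ, -, -, hρ⟩ := hΨ.bound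
  have hc := rho_cont ht h
  obtain ⟨B, hB⟩ := (isCompact_Bl ρ).exists_bound_of_continuousOn
    (hc.mono (inter_subset_left.trans Sh_subset))
  refine continuous_of_dominated (bound := fun M => Ψ M * (B * B)) (fun θ => ?_) (fun θ => ?_)
    (hΨ.integrable continuousOn_const) ?_
  · refine (hΨ.integrable (hc.mul (hc.comp ?_ fun M hM => ?_))).aestronglyMeasurable
    · exact (continuous_rot continuous_const continuous_id).continuousOn
    · exact (rot_mem_Gp θ M).2 hM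
  · refine ae_mem_Sh.mono fun M hM => ?_
    by_cases hb : M ∈ Bl ρ
    · rw [norm_mul, norm_mul, Real.norm_of_nonneg (hΨ.nn M)]
      exact mul_le_mul_of_nonneg_left (mul_le_mul (hB M hb) (hB _ ((rot_mem_Bl θ ρ M).2 hb))
        (norm_nonneg _) ((norm_nonneg _).trans (hB M hb))) (hΨ.nn M)
    · simp [hρ M hM hb]
  · refine ae_mem_Sh.mono fun M hM => continuous_const.mul (continuous_const.mul ?_)
    exact hc.comp_continuous (continuous_rot continuous_id continuous_const)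
      fun θ => (rot_mem_Gp θ M).2 (Sh_subset hM)

theorem bessel_pos {Ψ : E → ℝ} (hΨ : Wt Ψ) (κ : ℝ) (p : LP) {t : ℝ} {Φ : ℤ → E → ℂ}
    (h : Sys t Φ) (h0 : Re0 Φ) :
    0 ≤ (∫ M, Ψ M * ‖Φ 0 M‖ ^ 4 ∂nu) + κ ^ 2 * (∫ M, Ψ M ∂nu) +
      (∫ M, (Ψ M : ℂ) * (besselH p Φ M * (starRingEnd ℂ) (besselH p Φ M)) ∂nu).re -
      2 * κ * (∫ M, Ψ M * ‖Φ 0 M‖ ^ 2 ∂nu) -
      2 * (∫ M, (Ψ M : ℂ) * (besselH p Φ M * (starRingEnd ℂ) (Φ 0 M) *
        (starRingEnd ℂ) (Φ 0 M)) ∂nu).re +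
      2 * κ * (∫ M, (Ψ M : ℂ) * besselH p Φ M ∂nu).re := by
  have hc := bessel_cont p h
  have c0 := h.cont 0
  have i1 : Integrable (fun M => Ψ M * ‖Φ 0 M‖ ^ 4) nu := hΨ.integrable (c0.norm.pow 4)
  have i2 : Integrable (fun M => Ψ M) nu := by
    simpa using hΨ.integrable (g := fun _ => 1) continuousOn_const
  have i3 : Integrable
      (fun M => (Ψ M : ℂ) * (besselH p Φ M * (starRingEnd ℂ) (besselH p Φ M))) nu :=
    inv_int hΨ.test (hc.mul (inv_conj0 hc))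
  have i4 : Integrable (fun M => Ψ M * ‖Φ 0 M‖ ^ 2) nu := hΨ.integrable (c0.norm.pow 2)
  have i5 : Integrable (fun M => (Ψ M : ℂ) * (besselH p Φ M * (starRingEnd ℂ) (Φ 0 M) *
      (starRingEnd ℂ) (Φ 0 M))) nu :=
    inv_int hΨ.test ((hc.mul (inv_conj0 c0)).mul (inv_conj0 c0))
  have i6 : Integrable (fun M => (Ψ M : ℂ) * besselH p Φ M) nu := inv_int hΨ.test hc
  have r : ∀ {f : E → ℂ}, Integrable f nu → (∫ M, f M ∂nu).re = ∫ M, (f M).re ∂nu :=
    fun hf => (integral_re hf).symm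
  have j3 : Integrable
      (fun M => ((Ψ M : ℂ) * (besselH p Φ M * (starRingEnd ℂ) (besselH p Φ M))).re) nu := i3.re
  have j5 : Integrable (fun M => ((Ψ M : ℂ) * (besselH p Φ M * (starRingEnd ℂ) (Φ 0 M) *
      (starRingEnd ℂ) (Φ 0 M))).re) nu := i5.re
  have j6 : Integrable (fun M => ((Ψ M : ℂ) * besselH p Φ M).re) nu := i6.re
  have k1 := i1.fun_add (i2.const_mul (κ ^ 2))
  have k2 := k1.fun_add j3
  have k3 := k2.sub' (i4.const_mul (2 * κ))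
  have k4 := k3.sub' (j5.const_mul 2)
  rw [r i3, r i5, r i6, ← integral_const_mul, ← integral_const_mul, ← integral_const_mul,
    ← integral_const_mul, ← integral_add i1 (i2.const_mul _), ← integral_add k1 j3,
    ← integral_sub k2 (i4.const_mul _), ← integral_sub k3 (j5.const_mul _),
    ← integral_add k4 (j6.const_mul _)]
  refine integral_nonneg_of_ae (ae_mem_Sh.mono fun M hM => ?_)
  obtain ⟨x, hx⟩ : ∃ x : ℝ, Φ 0 M = x :=
    ⟨(Φ 0 M).re, (Complex.conj_eq_iff_re.1 (h0 M (Sh_subset hM))).symm⟩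
  have hn := hΨ.nn M
  simp only [Pi.zero_apply, hx]
  generalize besselH p Φ M = z
  generalize Ψ M = w at hn
  have e4 : ‖(x : ℂ)‖ ^ 4 = x ^ 4 := by
    rw [Complex.norm_real, Real.norm_eq_abs]; exact Even.pow_abs (by decide) x
  have e2 : ‖(x : ℂ)‖ ^ 2 = x ^ 2 := by rw [Complex.norm_real, Real.norm_eq_abs, sq_abs]
  rw [e4, e2]
  simp only [mul_re, mul_im, ofReal_re, ofReal_im, conj_re, conj_im, conj_ofReal]
  have := mul_nonneg hn (add_nonneg (sq_nonneg (x ^ 2 - κ - z.re)) (sq_nonneg z.im))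
  nlinarith [this]

theorem bessel {Ψ : E → ℝ} (hΨ : Wt Ψ) (n : ℕ) (κ : ℝ) : ∃ C : ℝ, ∀ (t : ℝ) (Φ : ℤ → E → ℂ),
    1 ≤ t → Sys t Φ → Re0 Φ →
    2 * κ * (∫ M, Ψ M * ‖Φ 0 M‖ ^ 2 ∂nu) - κ ^ 2 * (∫ M, Ψ M ∂nu) +
      2 * (1 / Real.pi * ∫ θ in Ioo (-(Real.pi / 2)) (Real.pi / 2),
        Wn n θ * ∫ M, Ψ M * (rho t Φ M * rho t Φ (rot θ M)) ∂nu) - C / √t ≤
      ∫ M, Ψ M * ‖Φ 0 M‖ ^ 4 ∂nu := by
  obtain ⟨r, hr, hev⟩ := exists_chi n
  choose Cl hCl using asym hΨ.test r hr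
  set p : LP := DL ^ 10 * r with hp
  obtain ⟨C0, hC0⟩ := bessel_A0 hΨ.test p (by rw [hev]; simp [chi, mul_div_cancel₀])
  refine ⟨2 * Cl 0 + (∑ l ∈ p.coeff.support, ‖(p.coeff l : ℂ)‖ * Cl l) + 2 * |κ| * C0,
    fun t Φ ht h h0 => ?_⟩
  have pos := bessel_pos hΨ κ p h h0
  rw [bessel_A1 hΨ.test p h, bessel_A2 hΨ.test p h] at pos
  have hJ := bessel_J hΨ ht h
  set J : ℝ → ℝ := fun θ => ∫ M, Ψ M * (rho t Φ M * rho t Φ (rot θ M)) ∂nu with hJd
  have hchi := continuous_chi n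
  have hint : ∀ {f : ℝ → ℂ}, Continuous f →
      Integrable f (volume.restrict (Ioo (-(Real.pi / 2)) (Real.pi / 2))) := fun hf =>
    (hf.continuousOn.integrableOn_compact isCompact_Icc).mono_set Ioo_subset_Icc_self
  have hintR : ∀ {f : ℝ → ℝ}, Continuous f →
      Integrable f (volume.restrict (Ioo (-(Real.pi / 2)) (Real.pi / 2))) := fun hf =>
    (hf.continuousOn.integrableOn_compact isCompact_Icc).mono_set Ioo_subset_Icc_self
  set Q : ℤ → ℂ := fun l => ∫ θ in Ioo (-(Real.pi / 2)) (Real.pi / 2),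
    ((chi n θ * J θ : ℝ) : ℂ) * Complex.exp (2 * l * ((-θ : ℝ) : ℂ) * I) with hQ
  have e1 : ∀ l : ℤ, Pq (DL ^ 10 * (r * LaurentPolynomial.T (-l))) (√t)
      (tau4 (fun M => (Ψ M : ℂ)) Φ) 0 0 0 0 = (1 / Real.pi : ℂ) * Q l := by
    intro l
    rw [pq_eq hΨ _ ht h, hQ]
    congr 2
    funext θ
    rw [← mul_assoc, ev_mul, ev_T, hev]
    change _ * ((J θ : ℝ) : ℂ) = _
    generalize J θ = y
    push_cast
    ring_nf
  have e2 : Q 0 = ((∫ θ in Ioo (-(Real.pi / 2)) (Real.pi / 2), chi n θ * J θ : ℝ) : ℂ) := by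
    rw [hQ, ← integral_complex_ofReal]
    simp
  have e3 : ap p Q =
      ((∫ θ in Ioo (-(Real.pi / 2)) (Real.pi / 2), chi n θ ^ 2 * J θ : ℝ) : ℂ) := by
    rw [hQ, ← bessel_ap_int _ p _ fun l => hint (by fun_prop), ← integral_complex_ofReal]
    congr 1
    funext θ
    rw [ap_const_mul, show (ap p fun l => Complex.exp (2 * l * ((-θ : ℝ) : ℂ) * I)) =
      ev p (-θ) from rfl, hev, chi_neg]
    push_cast
    ring
  have e4 : ∫ θ in Ioo (-(Real.pi / 2)) (Real.pi / 2), Wn n θ * J θ =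
      2 * (∫ θ in Ioo (-(Real.pi / 2)) (Real.pi / 2), chi n θ * J θ) -
        ∫ θ in Ioo (-(Real.pi / 2)) (Real.pi / 2), chi n θ ^ 2 * J θ := by
    rw [← integral_const_mul, ← integral_sub (hintR (by fun_prop)) (hintR (by fun_prop))]
    congr 1
    funext θ
    rw [Wn]
    ring
  have b1 := hCl 0 t Φ ht h
  rw [e1, e2, neg_zero] at b1
  have b2 : ‖(ap p fun l => Sp p (tau4 (fun M => (Ψ M : ℂ)) Φ) 0 0 l (-l)) -
      2 * ((1 / Real.pi : ℂ) * ap p Q)‖ ≤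
      (∑ l ∈ p.coeff.support, ‖(p.coeff l : ℂ)‖ * Cl l) / √t := by
    rw [← ap_const_mul, ← ap_const_mul, ← ap_sub, ap_eq_sum, Finset.sum_div]
    refine (norm_sum_le _ _).trans (Finset.sum_le_sum fun l _ => ?_)
    rw [norm_mul, mul_div_assoc, ← e1]
    exact mul_le_mul_of_nonneg_left (hCl l t Φ ht h) (norm_nonneg _)
  rw [e3] at b2
  have b0 := hC0 t Φ ht h h0
  have r1 := (abs_le.1 ((Complex.abs_re_le_norm _).trans b1)).1
  have r2 := (abs_le.1 ((Complex.abs_re_le_norm _).trans b2)).2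
  have r0 : κ * (∫ M, (Ψ M : ℂ) * besselH p Φ M ∂nu).re ≤ |κ| * (C0 / √t) := by
    refine (le_abs_self _).trans ?_
    rw [abs_mul]
    exact mul_le_mul_of_nonneg_left ((Complex.abs_re_le_norm _).trans b0) (abs_nonneg _)
  have cst : ∀ x : ℝ, (2 * ((1 / Real.pi : ℂ) * (x : ℂ))).re = 2 * (1 / Real.pi * x) := by
    intro x
    rw [show (2 * ((1 / Real.pi : ℂ) * (x : ℂ))) = ((2 * (1 / Real.pi * x) : ℝ) : ℂ) by
      push_cast; ring, ofReal_re]
  rw [Complex.sub_re, cst] at r1 r2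
  rw [e4, add_div, add_div, mul_div_assoc, mul_div_assoc]
  linarith

end Pool.Agent.MP_a28cf0_nt.Four

namespace Pool.Agent.MP_a28cf0_nt.Four

open MeasureTheory Complex Filter Topology Set Pool.Agent.MP_a28cf0_nt.Cub
open scoped ENNReal MatrixGroups

theorem finlow_rot_cont {t : ℝ} {Φ : ℤ → E → ℂ} (ht : 1 ≤ t) (h : Sys t Φ) (θ : ℝ) :
    ContinuousOn (fun M => rho t Φ M * rho t Φ (rot θ M)) Gp :=
  (rho_cont ht h).mul ((rho_cont ht h).comp (contDiff_rot θ (n := 0)).continuous.continuousOn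
    fun M hM => (rot_mem_Gp θ M).2 hM)

theorem finlow_Cr {Ψ : E → ℝ} (hΨ : Wt Ψ) {t : ℝ} {Φ : ℤ → E → ℂ} (ht : 1 ≤ t) (h : Sys t Φ)
    (θ : ℝ) : Cr Ψ (rhoE t Φ) θ =
      ENNReal.ofReal (∫ M, Ψ M * (rho t Φ M * rho t Φ (rot θ M)) ∂nu) := by
  rw [ofReal_integral_eq_lintegral_ofReal (hΨ.integrable (finlow_rot_cont ht h θ))
    (Eventually.of_forall fun M => mul_nonneg (hΨ.nn M)
      (mul_nonneg (rho_nonneg _ _ _) (rho_nonneg _ _ _)))]
  refine lintegral_congr fun M => ?_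
  rw [ENNReal.ofReal_mul (hΨ.nn M), ENNReal.ofReal_mul (rho_nonneg _ _ _)]
  rfl

theorem finlow_int {Ψ : E → ℝ} (hΨ : Wt Ψ) {t : ℝ} {Φ : ℤ → E → ℂ} (ht : 1 ≤ t) (h : Sys t Φ)
    (n : ℕ) (a b : ℝ) : IntervalIntegrable
      (fun θ => Wn n θ * ∫ M, Ψ M * (rho t Φ M * rho t Φ (rot θ M)) ∂nu) volume a b := by
  obtain ⟨A, ρ, -, -, hz⟩ := hΨ.bound
  obtain ⟨R, hR⟩ := (isCompact_Bl ρ).exists_bound_of_continuousOn
    ((rho_cont ht h).mono fun M hM => Sh_subset hM.1)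
  have hm : Measurable fun θ => ∫ M, Ψ M * (rho t Φ M * rho t Φ (rot θ M)) ∂nu := by
    have h1 : Measurable fun q : ℝ × E => Ψ q.2 * (rho t Φ q.2 * rho t Φ (rot q.1 q.2)) :=
      (hΨ.meas.comp measurable_snd).mul (((rho_meas ht h).comp measurable_snd).mul
        ((rho_meas ht h).comp (measurable_rot' measurable_fst measurable_snd)))
    exact h1.stronglyMeasurable.integral_prod_right'.measurable
  have hb : ∀ θ, ‖Wn n θ * ∫ M, Ψ M * (rho t Φ M * rho t Φ (rot θ M)) ∂nu‖ ≤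
      ∫ M, Ψ M * (R * R) ∂nu := by
    intro θ
    have h0 : 0 ≤ ∫ M, Ψ M * (rho t Φ M * rho t Φ (rot θ M)) ∂nu :=
      integral_nonneg fun M => mul_nonneg (hΨ.nn M)
        (mul_nonneg (rho_nonneg _ _ _) (rho_nonneg _ _ _))
    rw [Real.norm_of_nonneg (mul_nonneg (Wn_mem n θ).1 h0)]
    refine (mul_le_of_le_one_left h0 (Wn_mem n θ).2).trans (integral_mono_ae
      (hΨ.integrable (finlow_rot_cont ht h θ)) (hΨ.integrable continuousOn_const) ?_)
    filter_upwards [ae_mem_Sh] with M hM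
    by_cases hB : M ∈ Bl ρ
    · have h1 := (le_abs_self _).trans (hR M hB)
      have h2 := (le_abs_self _).trans (hR _ ((rot_mem_Bl θ ρ M).2 hB))
      exact mul_le_mul_of_nonneg_left (mul_le_mul h1 h2 (rho_nonneg _ _ _)
        ((rho_nonneg _ _ _).trans h1)) (hΨ.nn M)
    · rw [hz M hM hB, zero_mul, zero_mul]
  refine (intervalIntegrable_const (c := ∫ M, Ψ M * (R * R) ∂nu)).mono_fun'
    ((continuous_Wn n).measurable.mul hm).aestronglyMeasurable (Eventually.of_forall hb)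

theorem finlow_per {p W A : ℝ → ℝ} (hp : Ang p) (hW : ∀ θ, 0 ≤ W θ) (hA : ∀ θ, 0 ≤ A θ)
    (hle : ∀ θ ∈ Ioo 0 (Real.pi / 2), p θ ≤ 2 / Real.pi * W θ)
    (hi : ∀ a b, IntervalIntegrable (fun θ => W θ * A θ) volume a b)
    (hper : ∀ θ, W (θ + Real.pi / 2) * A (θ + Real.pi / 2) = W θ * A θ) :
    ∫⁻ θ, ENNReal.ofReal (p θ) * ENNReal.ofReal (A θ) ≤
      ENNReal.ofReal (1 / Real.pi * ∫ θ in Ioo (-(Real.pi / 2)) (Real.pi / 2), W θ * A θ) := by
  have hπ := Real.pi_pos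
  have h1 : ∫ θ in Ioo (-(Real.pi / 2)) (Real.pi / 2), W θ * A θ =
      2 * ∫ θ in Ioo 0 (Real.pi / 2), W θ * A θ := by
    rw [← integral_Ioc_eq_integral_Ioo, ← integral_Ioc_eq_integral_Ioo,
      ← intervalIntegral.integral_of_le (by linarith),
      ← intervalIntegral.integral_of_le (by linarith),
      ← intervalIntegral.integral_add_adjacent_intervals (hi _ 0) (hi 0 _)]
    have h2 := intervalIntegral.integral_comp_add_right (a := -(Real.pi / 2)) (b := 0)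
      (fun θ => W θ * A θ) (Real.pi / 2)
    simp only [hper, neg_add_cancel, zero_add] at h2
    rw [h2, two_mul]
  have h3 : IntegrableOn (fun θ => 2 / Real.pi * (W θ * A θ)) (Ioo 0 (Real.pi / 2)) :=
    ((intervalIntegrable_iff_integrableOn_Ioo_of_le (by linarith)).1 (hi 0 _)).const_mul _
  have h4 : 1 / Real.pi * (2 * ∫ θ in Ioo 0 (Real.pi / 2), W θ * A θ) =
      ∫ θ in Ioo 0 (Real.pi / 2), 2 / Real.pi * (W θ * A θ) := by
    rw [integral_const_mul]; ring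
  rw [h1, h4, ofReal_integral_eq_lintegral_ofReal h3 (Eventually.of_forall fun θ =>
    mul_nonneg (by positivity) (mul_nonneg (hW θ) (hA θ))), ← lintegral_indicator measurableSet_Ioo]
  refine lintegral_mono fun θ => ?_
  obtain ⟨θ₁, θ₂, a1, a2, a3⟩ := hp.supp
  by_cases h0 : p θ = 0
  · simp [h0]
  have hm : θ ∈ Ioo 0 (Real.pi / 2) := ⟨a1.trans_le (a3 θ h0).1, (a3 θ h0).2.trans_lt a2⟩
  rw [indicator_of_mem hm, ← ENNReal.ofReal_mul (hp.nn θ), ← mul_assoc]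
  exact ENNReal.ofReal_le_ofReal (mul_le_mul_of_nonneg_right (hle θ hm) (hA θ))

theorem jconv {Ψ : E → ℝ} (hΨ : Wt Ψ) {p : ℝ → ℝ} (hp : Ang p) (n : ℕ)
    (hle : ∀ θ ∈ Ioo 0 (Real.pi / 2), p θ ≤ 2 / Real.pi * Wn n θ) {t : ℝ} {Φ : ℤ → E → ℂ}
    (ht : 1 ≤ t) (h : Sys t Φ) (h0 : Re0 Φ) :
    ∫⁻ θ, ENNReal.ofReal (p θ) * Cr Ψ (rhoE t Φ) θ ≤
      ENNReal.ofReal (1 / Real.pi * ∫ θ in Ioo (-(Real.pi / 2)) (Real.pi / 2),
        Wn n θ * ∫ M, Ψ M * (rho t Φ M * rho t Φ (rot θ M)) ∂nu) := by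
  simp only [finlow_Cr hΨ ht h]
  refine finlow_per hp (fun θ => (Wn_mem n θ).1) (fun θ => integral_nonneg fun M =>
    mul_nonneg (hΨ.nn M) (mul_nonneg (rho_nonneg _ _ _) (rho_nonneg _ _ _))) hle
    (finlow_int hΨ ht h n) fun θ => ?_
  rw [Wn_period]
  congr 1
  refine integral_congr_ae ?_
  filter_upwards [ae_mem_Sh] with M hM
  rw [add_comm, ← rot_rot, rho_rot h h0 ((rot_mem_Gp θ M).2 (Sh_subset hM))]

theorem finlow_1d {u u' g : ℝ → ℝ} (hd : ∀ s, HasDerivAt u (u' s) s) (cu' : Continuous u')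
    (cg : Continuous g) (hu : ∀ s, 0 ≤ u s) (hg : ∀ s, 0 ≤ g s)
    (hb : ∀ s δ, 0 < δ → |u' s| ≤ u s / δ + δ * g s) :
    u 0 ≤ 2 * (∫ s in Icc (0 : ℝ) 1, (u s + g s)) ∧ ∀ δ, 0 < δ → δ ≤ 1 → ∀ a ∈ Icc 0 (δ ^ 2),
      u a ≤ u 0 + 4 * δ * ∫ s in Icc (0 : ℝ) 1, (u s + g s) := by
  have cu : Continuous u := continuous_iff_continuousAt.2 fun s => (hd s).continuousAt
  have h0 : u 0 ≤ 2 * ∫ s in Icc (0 : ℝ) 1, (u s + g s) := by
    rw [← integral_const_mul]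
    refine (lemma1D hd cu').trans (integral_mono (cu.add cu'.abs).integrableOn_Icc
      (continuous_const.mul (cu.add cg)).integrableOn_Icc fun s => ?_)
    have := hb s 1 one_pos
    have := hg s
    simp only [div_one, one_mul] at *
    linarith
  have ftc : ∀ a, u a - u 0 = ∫ s in (0 : ℝ)..a, u' s := fun a =>
    (intervalIntegral.integral_eq_sub_of_hasDerivAt (fun s _ => hd s)
      (cu'.intervalIntegrable _ _)).symm
  have hT : ∀ {f : ℝ → ℝ}, Continuous f → (∀ s, f s ≤ u s + g s) → ∀ a ∈ Icc (0 : ℝ) 1,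
      ∫ s in (0 : ℝ)..a, f s ≤ ∫ s in Icc (0 : ℝ) 1, (u s + g s) := by
    intro f hf hle a ha
    refine (intervalIntegral.integral_mono_on ha.1 (hf.intervalIntegrable _ _)
      ((cu.add cg).intervalIntegrable _ _) fun s _ => hle s).trans ?_
    rw [intervalIntegral.integral_of_le ha.1]
    exact setIntegral_mono_set (cu.add cg).integrableOn_Icc
      (Eventually.of_forall fun s => add_nonneg (hu s) (hg s))
      (Eventually.of_forall fun s hs => ⟨hs.1.le, hs.2.trans ha.2⟩)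
  refine ⟨h0, fun δ hδ hδ1 a ha => ?_⟩
  have ha1 : a ≤ 1 := ha.2.trans (by nlinarith)
  have hs : ∀ s ∈ Icc (0 : ℝ) 1, u s ≤ 3 * ∫ s in Icc (0 : ℝ) 1, (u s + g s) := by
    intro s hs
    have h1 := hT cu' (fun r => by
      have := hb r 1 one_pos
      rw [div_one, one_mul] at this
      exact (le_abs_self _).trans this) s hs
    linarith [ftc s]
  have h2 := hT cg (fun r => le_add_of_nonneg_left (hu r)) a ⟨ha.1, ha1⟩
  have hT0 : 0 ≤ ∫ s in Icc (0 : ℝ) 1, (u s + g s) :=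
    integral_nonneg fun s => add_nonneg (hu s) (hg s)
  generalize ∫ s in Icc (0 : ℝ) 1, (u s + g s) = T at *
  have h3 : ∫ s in (0 : ℝ)..a, u' s ≤ ∫ s in (0 : ℝ)..a, (3 * T / δ + δ * g s) := by
    refine intervalIntegral.integral_mono_on ha.1 (cu'.intervalIntegrable _ _)
      ((continuous_const.add (continuous_const.mul cg)).intervalIntegrable _ _) fun s hs' => ?_
    refine (le_abs_self _).trans ((hb s δ hδ).trans ?_)
    have := hs s ⟨hs'.1, hs'.2.trans ha1⟩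
    gcongr
  have ig : IntervalIntegrable (fun s => δ * g s) volume 0 a :=
    (continuous_const.mul cg).intervalIntegrable _ _
  have ic : IntervalIntegrable (fun _ : ℝ => 3 * T / δ) volume 0 a := intervalIntegrable_const
  rw [intervalIntegral.integral_add ic ig, intervalIntegral.integral_const,
    intervalIntegral.integral_const_mul, sub_zero, smul_eq_mul] at h3
  have h4 : a * (3 * T / δ) ≤ 3 * δ * T := by
    calc a * (3 * T / δ) ≤ δ ^ 2 * (3 * T / δ) := by gcongr; exact ha.2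
      _ = 3 * δ * T := by field_simp
  have h5 := mul_le_mul_of_nonneg_left h2 hδ.le
  linarith [ftc a]

/-- the average of the density of the lift along a unit segment -/
noncomputable def finlowJ (t : ℝ) (Φ : ℤ → E → ℂ) (M : E) : ℝ≥0∞ :=
  ∫⁻ s in Icc (0 : ℝ) 1, Gd t (cf (√t)) Φ (fl s M)

theorem finlow_flow {t K : ℝ} {Φ : ℤ → E → ℂ} (ht : 1 ≤ t) (h : Sys t Φ)
    (hc : Coef3 K (√t) (cf (√t))) {M : E} (hM : M ∈ Gp) :
    ∃ T : ℝ, 0 ≤ T ∧ finlowJ t Φ M = ENNReal.ofReal T ∧ rho t Φ M ≤ 2 * T ∧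
      ∀ δ, 0 < δ → δ ≤ 1 → ∀ a ∈ Icc 0 (δ ^ 2), rho t Φ (fl a M) ≤ rho t Φ M + 4 * δ * T := by
  obtain ⟨K', hK'⟩ := ctil_coef K
  have hs1 := pk_smooth h hc.toCoef
  have hs2 := pk_smooth h (hK' t _ ht hc)
  have hmem : ∀ s, fl s M ∈ Gp := fun s => (fl_mem_Gp s M).2 hM
  have hfl : Continuous fun s : ℝ => fl s M := continuous_fl continuous_id continuous_const
  have c1 : Continuous fun s : ℝ => pk (cf (√t)) Φ (fl s M) :=
    hs1.continuousOn.comp_continuous hfl hmem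
  have c2 : Continuous fun s : ℝ => pk (ctil t (cf (√t))) Φ (fl s M) :=
    hs2.continuousOn.comp_continuous hfl hmem
  set F : ℝ → ℂ := fun s => pk (cf (√t)) Φ (fl s M) with hF
  set G : ℝ → ℂ := fun s => pk (ctil t (cf (√t))) Φ (fl s M) with hG
  have hd : ∀ s, HasDerivAt (fun r => ‖F r‖ ^ 2) (2 * inner ℝ (F s) (I * G s)) s := fun s => by
    have hdiff : DifferentiableAt ℝ (pk (cf (√t)) Φ) (fl s M) :=
      (hs1.contDiffAt (isOpen_Gp.mem_nhds (hmem s))).differentiableAt one_ne_zero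
    have := (hasDerivAt_fl hdiff).norm_sq
    rw [X1_pk h hc.toCoef (hmem s), inner_add_right] at this
    have e : inner ℝ (pk (cf (√t)) Φ (fl s M)) (2 * t * I * pk (cf (√t)) Φ (fl s M)) = 0 := by
      rw [Complex.inner]
      simp
      ring
    rw [e, zero_add] at this
    exact this
  have hc' : Continuous fun s => 2 * inner ℝ (F s) (I * G s) :=
    continuous_const.mul (c1.inner (continuous_const.mul c2))
  obtain ⟨b1, b2⟩ := finlow_1d (g := fun s => ‖G s‖ ^ 2) hd hc' (c2.norm.pow 2)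
    (fun s => sq_nonneg _) (fun s => sq_nonneg _) fun s δ hδ => by
      have h1 : |inner ℝ (F s) (I * G s)| ≤ ‖F s‖ * ‖G s‖ := by
        have := abs_real_inner_le_norm (F s) (I * G s)
        rwa [norm_mul, Complex.norm_I, one_mul] at this
      have h2 : ‖F s‖ ^ 2 / δ + δ * ‖G s‖ ^ 2 - 2 * (‖F s‖ * ‖G s‖) =
          (‖F s‖ - δ * ‖G s‖) ^ 2 / δ := by field_simp; ring
      have h3 : 0 ≤ (‖F s‖ - δ * ‖G s‖) ^ 2 / δ := by positivity
      rw [abs_mul, abs_two]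
      linarith
  have ht0 : 1 ≤ √t := Real.one_le_sqrt.2 ht
  have hcs := (cs_bounds ht0).1
  have iH : IntegrableOn (fun s => (‖F s‖ ^ 2 + ‖G s‖ ^ 2) / √t) (Icc (0 : ℝ) 1) :=
    (((c1.norm.pow 2).add (c2.norm.pow 2)).div_const _).integrableOn_Icc
  have hT0 : 0 ≤ ∫ s in Icc (0 : ℝ) 1, (‖F s‖ ^ 2 + ‖G s‖ ^ 2) :=
    integral_nonneg fun s => by positivity
  have hF0 : F 0 = pk (cf (√t)) Φ M := by rw [hF]; simp only [fl_zero]
  refine ⟨(∫ s in Icc (0 : ℝ) 1, (‖F s‖ ^ 2 + ‖G s‖ ^ 2)) / √t, by positivity, ?_, ?_,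
    fun δ hδ hδ1 a ha => ?_⟩
  · rw [← integral_div,
      ofReal_integral_eq_lintegral_ofReal iH (Eventually.of_forall fun s => by positivity)]
    rfl
  · refine (rho_le ht Φ M).trans ?_
    rw [← mul_div_assoc, ← hF0]
    exact div_le_div_of_nonneg_right b1 (by linarith)
  · have h1 := b2 δ hδ hδ1 a ha
    change ‖F a‖ ^ 2 / cs (√t) ≤ ‖pk (cf (√t)) Φ M‖ ^ 2 / cs (√t) + _
    rw [← hF0, ← mul_div_assoc]
    refine (div_le_div_of_nonneg_right h1 (by linarith)).trans ?_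
    rw [add_div]
    have hp : 0 < √t := lt_of_lt_of_le one_pos ht0
    exact add_le_add le_rfl (div_le_div_of_nonneg_left
      (mul_nonneg (mul_nonneg zero_le_four hδ.le) hT0) hp hcs)

theorem finlow_real {ψ ψ' A ω κ r r' s s' T T' : ℝ} (h1 : ψ ≤ A) (h2 : ψ' ≤ ψ + ω) (h3 : 0 ≤ ψ)
    (hω : 0 ≤ ω) (hκ : 0 ≤ κ) (hκ1 : κ ≤ 1) (hr : 0 ≤ r) (hr' : 0 ≤ r') (hs : 0 ≤ s)
    (hs' : 0 ≤ s') (hT : 0 ≤ T) (hT' : 0 ≤ T') (a1 : r ≤ 2 * T) (a2 : r' ≤ 2 * T')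
    (b1 : s ≤ r + κ * T) (b2 : s' ≤ r' + κ * T') :
    ψ' * (s * s') ≤ ψ * (r * r') + (5 * A * κ + 9 * ω) * (T' * T) := by
  have e1 : s * s' ≤ (r + κ * T) * (r' + κ * T') := mul_le_mul b1 b2 hs' (by positivity)
  have e2 : r * T' ≤ 2 * T * T' := mul_le_mul_of_nonneg_right a1 hT'
  have e3 : T * r' ≤ T * (2 * T') := mul_le_mul_of_nonneg_left a2 hT
  have e4 : κ * (T * T') ≤ T * T' := mul_le_of_le_one_left (by positivity) hκ1
  have e5 : s * s' ≤ r * r' + κ * (5 * (T * T')) := by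
    have : κ * (r * T' + T * r' + κ * (T * T')) ≤ κ * (5 * (T * T')) :=
      mul_le_mul_of_nonneg_left (by linarith) hκ
    linarith
  have e6 : r * r' ≤ 2 * T * (2 * T') := mul_le_mul a1 a2 hr' (by positivity)
  have e7 : s * s' ≤ 9 * (T * T') := by linarith
  have e8 : ψ' * (s * s') ≤ (ψ + ω) * (s * s') := mul_le_mul_of_nonneg_right h2 (by positivity)
  have e9 : ψ * (s * s') ≤ ψ * (r * r' + κ * (5 * (T * T'))) := mul_le_mul_of_nonneg_left e5 h3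
  have e10 : ω * (s * s') ≤ ω * (9 * (T * T')) := mul_le_mul_of_nonneg_left e7 hω
  have e11 : ψ * (κ * (5 * (T * T'))) ≤ A * (κ * (5 * (T * T'))) :=
    mul_le_mul_of_nonneg_right h1 (by positivity)
  linarith

theorem finlow_ang {p : ℝ → ℝ} (hp : Ang p) : ∃ P : ℝ, 0 ≤ P ∧ ∀ θ, p θ ≠ 0 →
    θ ∈ Ioo (-(Real.pi / 2)) (Real.pi / 2) ∧ p θ ≤ P * |Real.sin θ * Real.cos θ| := by
  obtain ⟨θ₁, θ₂, a1, a2, a3⟩ := hp.supp
  have hπ := Real.pi_pos
  have hpos : ∀ θ ∈ Icc θ₁ θ₂, 0 < |Real.sin θ * Real.cos θ| := fun θ hθ =>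
    abs_pos.2 (mul_pos (Real.sin_pos_of_pos_of_lt_pi (by linarith [hθ.1]) (by linarith [hθ.2]))
      (Real.cos_pos_of_mem_Ioo ⟨by linarith [hθ.1], by linarith [hθ.2]⟩)).ne'
  obtain ⟨P, hP⟩ := (isCompact_Icc (a := θ₁) (b := θ₂)).exists_bound_of_continuousOn
    (f := fun θ => p θ / |Real.sin θ * Real.cos θ|) (hp.cont.continuousOn.div
      (Real.continuous_sin.mul Real.continuous_cos).abs.continuousOn fun θ hθ => (hpos θ hθ).ne')
  refine ⟨|P|, abs_nonneg P, fun θ h => ⟨⟨by linarith [(a3 θ h).1], by linarith [(a3 θ h).2]⟩, ?_⟩⟩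
  rw [← div_le_iff₀ (hpos θ (a3 θ h))]
  exact (le_abs_self _).trans ((hP θ (a3 θ h)).trans (le_abs_self _))

theorem finlow_avg {η : ℝ} {w : ℝ → ℝ} (hw : Tim η w) {c : ℝ} (hc : 0 ≤ c) {X : ℝ → ℝ → ℝ≥0∞}
    {Y : ℝ≥0∞} (h : ∀ a ∈ Icc 0 η, ∀ b ∈ Icc 0 η, X a b ≤ Y) :
    ∫⁻ a, ∫⁻ b, ENNReal.ofReal (c * w a * w b) * X a b ≤ ENNReal.ofReal c * Y := by
  have hm : Measurable fun a => ENNReal.ofReal (w a) := hw.cont.measurable.ennreal_ofReal
  have h1 : ∀ a, ∫⁻ b, ENNReal.ofReal (c * w a * w b) * X a b ≤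
      ENNReal.ofReal (w a) * (ENNReal.ofReal c * Y) := by
    intro a
    have h2 := lintegral_mul_const (μ := volume) (ENNReal.ofReal (w a) * (ENNReal.ofReal c * Y)) hm
    rw [hw.int1, one_mul] at h2
    rw [← h2]
    refine lintegral_mono fun b => ?_
    by_cases ha : w a = 0
    · simp [ha]
    by_cases hb : w b = 0
    · simp [hb]
    rw [ENNReal.ofReal_mul (mul_nonneg hc (hw.nn a)), ENNReal.ofReal_mul hc]
    refine (mul_le_mul_right (h a (hw.supp a ha) b (hw.supp b hb)) _).trans (le_of_eq ?_)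
    ring
  refine (lintegral_mono h1).trans ?_
  rw [lintegral_mul_const _ hm, hw.int1, one_mul]

/-- averaging along the geodesics for a short time costs little -/
theorem fin_lower {Ψ : E → ℝ} (hΨ : Wt Ψ) {p : ℝ → ℝ} (hp : Ang p) {ε : ℝ≥0∞} (hε : ε ≠ 0) :
    ∃ η : ℝ, 0 < η ∧ ∀ w : ℝ → ℝ, Tim η w → ∀ (t : ℝ) (Φ : ℤ → E → ℂ), 1 ≤ t → Sys t Φ →
      Tw Ψ p w (rhoE t Φ) ≤ (∫⁻ θ, ENNReal.ofReal (p θ) * Cr Ψ (rhoE t Φ) θ) + ε := by
  obtain ⟨A, ρ, hA, hb, hz⟩ := hΨ.bound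
  obtain ⟨P, hP, hpP⟩ := finlow_ang hp
  obtain ⟨K, hK⟩ := cf_coef0
  obtain ⟨C, hC⟩ := lift_bound (6 * (3 * |ρ|)) K
  have hfin : ENNReal.ofReal P * (4 * (ENNReal.ofReal C * ENNReal.ofReal C)) ≠ ⊤ := by finiteness
  obtain ⟨σ, hσ, hσε⟩ := ENNReal.exists_nnreal_pos_mul_lt hfin hε
  have hσ' : (0 : ℝ) < σ := hσ
  obtain ⟨η₀, hη₀, hfl⟩ := hΨ.flow (ε := σ / 18) (by positivity)
  obtain ⟨δ, hδ, hδ1, hδ2⟩ : ∃ δ : ℝ, 0 < δ ∧ 4 * δ ≤ 1 ∧ 5 * A * (4 * δ) ≤ σ / 2 := by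
    refine ⟨min (1 / 4) (σ / (40 * (A + 1))), by positivity,
      by linarith [min_le_left (1 / 4 : ℝ) (σ / (40 * (A + 1)))], ?_⟩
    have h1 := min_le_right (1 / 4 : ℝ) (σ / (40 * (A + 1)))
    have h2 : 0 < min (1 / 4 : ℝ) (σ / (40 * (A + 1))) := by positivity
    rw [le_div_iff₀ (by positivity)] at h1
    nlinarith
  refine ⟨min η₀ (δ ^ 2), by positivity, fun w hw t Φ ht h => ?_⟩
  have hc := hK _ (Real.one_le_sqrt.2 ht)
  have hmR : Measurable (rhoE t Φ) := (rhoE_hom ht h).1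
  have key : ∀ θ, ∀ a ∈ Icc 0 (min η₀ (δ ^ 2)), ∀ b ∈ Icc 0 (min η₀ (δ ^ 2)),
      ∫⁻ M, ENNReal.ofReal (Ψ (fl a M)) * (rhoE t Φ (fl a M) * rhoE t Φ (fl b (rot θ M))) ∂nu ≤
        Cr Ψ (rhoE t Φ) θ +
          σ * ∫⁻ M in Bl (3 * |ρ|), finlowJ t Φ (rot θ M) * finlowJ t Φ M ∂nu := by
    intro θ a ha b hb'
    have hm1 : Measurable fun M => ENNReal.ofReal (Ψ M) * (rhoE t Φ M * rhoE t Φ (rot θ M)) :=
      hΨ.meas.ennreal_ofReal.mul (hmR.mul (hmR.comp (me_rot θ).measurable))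
    rw [Cr, ← lintegral_const_mul' _ _ ENNReal.coe_ne_top,
      ← lintegral_indicator (measurableSet_Bl _), ← lintegral_add_left hm1]
    refine lintegral_mono_ae ?_
    filter_upwards [ae_mem_Sh] with M hM
    have ha1 : a ≤ δ ^ 2 := ha.2.trans (min_le_right _ _)
    by_cases hB : M ∈ Bl (3 * |ρ|)
    · obtain ⟨T, hT, e1, e2, e3⟩ := finlow_flow ht h hc (Sh_subset hM)
      obtain ⟨T', hT', e1', e2', e3'⟩ := finlow_flow ht h hc ((rot_mem_Gp θ M).2 (Sh_subset hM))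
      have f1 := hfl a (by rw [abs_of_nonneg ha.1]; exact ha.2.trans (min_le_left _ _)) M hM
      have f2 := finlow_real (ψ' := Ψ (fl a M)) (ω := σ / 18) (hb M hM)
        (by linarith [le_abs_self (Ψ (fl a M) - Ψ M)]) (hΨ.nn M) (by positivity)
        (by positivity) hδ1 (rho_nonneg _ _ _) (rho_nonneg _ _ _) (rho_nonneg _ _ _)
        (rho_nonneg _ _ _) hT hT' e2 e2' (e3 δ hδ (by linarith) a ⟨ha.1, ha1⟩)
        (e3' δ hδ (by linarith) b ⟨hb'.1, hb'.2.trans (min_le_right _ _)⟩)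
      have f3 : (5 * A * (4 * δ) + 9 * (σ / 18)) * (T' * T) ≤ σ * (T' * T) :=
        mul_le_mul_of_nonneg_right (by linarith) (by positivity)
      rw [indicator_of_mem hB, e1, e1', rhoE, rhoE, rhoE, rhoE, ← ENNReal.ofReal_coe_nnreal,
        ← ENNReal.ofReal_mul (rho_nonneg _ _ _), ← ENNReal.ofReal_mul (rho_nonneg _ _ _),
        ← ENNReal.ofReal_mul (hΨ.nn _), ← ENNReal.ofReal_mul (hΨ.nn _), ← ENNReal.ofReal_mul hT',
        ← ENNReal.ofReal_mul hσ'.le, ← ENNReal.ofReal_add (mul_nonneg (hΨ.nn M)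
          (mul_nonneg (rho_nonneg _ _ _) (rho_nonneg _ _ _))) (by positivity)]
      exact ENNReal.ofReal_le_ofReal (by linarith)
    · have h0 : Ψ (fl a M) = 0 := by
        refine hz _ ((fl_mem_Sh a M).2 hM) fun h1 => hB ⟨hM, ?_⟩
        have h2 := norm_fl_le (-a) (fl a M)
        rw [fl_fl, neg_add_cancel, fl_zero, abs_neg, abs_of_nonneg ha.1] at h2
        have h3 : Real.exp a ≤ 3 :=
          (Real.exp_le_exp.2 (by nlinarith : a ≤ 1)).trans Real.exp_one_lt_three.le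
        have h4 : ‖fl a M‖ ≤ |ρ| := (mem_closedBall_zero_iff.1 h1.2).trans (le_abs_self ρ)
        exact mem_closedBall_zero_iff.2 (h2.trans (mul_le_mul h3 h4 (norm_nonneg _) (by norm_num)))
      simp [h0]
  have hJ : ∀ M ∈ Gp, finlowJ t Φ M ≤ 2 * ∫⁻ s in Icc (0 : ℝ) 1, Gd t (cf (√t)) Φ (fl s M) :=
    fun M _ => by rw [two_mul]; exact le_self_add
  have hbil := bilw (ρ := 3 * |ρ|) ⟨Gd_meas ht h hc, fun s M hs => Gd_hom _ h hs M⟩
    (Gd_meas ht h hc) hJ hJ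
  have hl := hC t _ Φ ht h hc
  have hmC : Measurable fun θ => ENNReal.ofReal (p θ) * Cr Ψ (rhoE t Φ) θ := by
    have h1 : Measurable fun q : ℝ × E =>
        ENNReal.ofReal (Ψ q.2) * (rhoE t Φ q.2 * rhoE t Φ (rot q.1 q.2)) :=
      (hΨ.meas.comp measurable_snd).ennreal_ofReal.mul ((hmR.comp measurable_snd).mul
        (hmR.comp (measurable_rot' measurable_fst measurable_snd)))
    exact hp.cont.measurable.ennreal_ofReal.mul h1.lintegral_prod_right'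
  refine (lintegral_mono fun θ => finlow_avg hw (hp.nn θ) (key θ)).trans ?_
  simp only [mul_add]
  rw [lintegral_add_left hmC]
  refine add_le_add le_rfl (le_trans ?_ hσε.le)
  refine le_trans ?_ (mul_le_mul_right (mul_le_mul_right (hbil.trans (mul_le_mul_right
    (mul_le_mul' hl hl) 4)) (ENNReal.ofReal P)) σ)
  rw [← lintegral_const_mul' _ _ ENNReal.ofReal_ne_top,
    ← lintegral_const_mul' _ _ ENNReal.coe_ne_top, ← lintegral_indicator measurableSet_Ioo]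
  refine lintegral_mono fun θ => ?_
  by_cases h0 : p θ = 0
  · simp [h0]
  rw [indicator_of_mem (hpP θ h0).1, mul_left_comm, ← mul_assoc (ENNReal.ofReal P),
    ← ENNReal.ofReal_mul hP]
  exact mul_le_mul_right (mul_le_mul_left (ENNReal.ofReal_le_ofReal (hpP θ h0).2) _) _

end Pool.Agent.MP_a28cf0_nt.Four
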