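import Pool.Agent.MP_a28cf0_nt.Mg.Four_Alg

set_option autoImplicit false

namespace Pool.Agent.MP_a28cf0_nt.Four

open MeasureTheory Complex Filter Topology Set Pool.Agent.MP_a28cf0_nt.Cub
open scoped ENNReal MatrixGroups

theorem split_abs {R S T : ℝ} {a x z : ℤ} (ha : |(a : ℝ)| ≤ R) (hx : |(x : ℝ)| ≤ S)
    (hz : |z - a - x| ≤ 8) (hT : R + S + 8 ≤ T) : |(z : ℝ)| ≤ T := by
  have h : |((z - a - x : ℤ) : ℝ)| ≤ 8 := by exact_mod_cast hz
  push_cast at h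
  rw [abs_le] at *
  constructor <;> linarith [ha.1, ha.2, hx.1, hx.2, h.1, h.2]

/-- a box lemma: all indices within `8` of the averaged point -/
theorem split_box {R N : ℝ} {a b c d x y a' b' c' d' : ℤ} (hN : 1 ≤ N) (h : Box R a b c d)
    (hx : |(x : ℝ)| ≤ 2 * N) (hy : |(y : ℝ)| ≤ 2 * N) (h1 : |a' - a - x| ≤ 8)
    (h2 : |b' - b - y| ≤ 8) (h3 : |c' - c - x| ≤ 8) (h4 : |d' - d - y| ≤ 8) :
    Box (R + 10 * N) a' b' c' d' :=
  ⟨split_abs h.1 hx h1 (by linarith), split_abs h.2.1 hy h2 (by linarith),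
    split_abs h.2.2.1 hx h3 (by linarith), split_abs h.2.2.2 hy h4 (by linarith)⟩

theorem split_add {R S : ℝ} {a x : ℤ} (ha : |(a : ℝ)| ≤ R) (hx : |(x : ℝ)| ≤ S) :
    |((a + x : ℤ) : ℝ)| ≤ R + S := by
  push_cast
  exact (abs_add_le _ _).trans (add_le_add ha hx)

theorem AvB_le {N R B : ℝ} {σ : S4} (hN : 1 ≤ N) (h : Bd (R + 2 * N) B σ) : Bd R B (AvB N σ) := by
  intro a b c d hb
  refine av_le hN fun x hx => av_le hN fun y hy => h _ _ _ _ ?_
  exact ⟨split_add hb.1 hx, split_add hb.2.1 hy, split_add hb.2.2.1 hx, split_add hb.2.2.2 hy⟩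

theorem AvB_const_mul (N : ℝ) (z : ℂ) (σ : S4) (a b c d : ℤ) :
    AvB N (fun a b c d => z * σ a b c d) a b c d = z * AvB N σ a b c d := by
  simp only [AvB, av_const_mul]

theorem split_shift_nat {V : ℝ}
    (hV : ∀ (N B : ℝ) (u : ℤ → ℂ), 1 ≤ N → (∀ x : ℤ, |(x : ℝ)| ≤ 2 * N + 1 → ‖u x‖ ≤ B) →
      ‖av N (fun x => u (x + 1)) - av N u‖ ≤ V * B / N)
    {N B : ℝ} (hN : 1 ≤ N) (n : ℕ) (u : ℤ → ℂ)
    (hu : ∀ z : ℤ, -(2 * N + 1) ≤ (z : ℝ) → (z : ℝ) ≤ 2 * N + 1 + n → ‖u z‖ ≤ B) :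
    ‖av N (fun x => u (x + n)) - av N u‖ ≤ V * n * B / N := by
  induction n with
  | zero => simp
  | succ n ih =>
    have h1 := ih fun z h1 h2 => hu z h1 (by push_cast; linarith)
    have h2 := hV N B (fun x => u (x + n)) hN fun x hx => by
      rw [abs_le] at hx
      have : (0 : ℝ) ≤ n := Nat.cast_nonneg n
      exact hu _ (by push_cast; linarith [hx.1]) (by push_cast; linarith [hx.2])
    have e : (fun x : ℤ => u (x + ((n + 1 : ℕ) : ℤ))) = fun x => u (x + 1 + n) := by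
      funext x; congr 1; push_cast; ring
    rw [e]
    have e2 : V * ((n + 1 : ℕ) : ℝ) * B / N = V * B / N + V * n * B / N := by push_cast; ring
    rw [e2]
    exact (norm_sub_le_norm_sub_add_norm_sub _ _ _).trans (add_le_add h2 h1)

theorem split_shift_int {V : ℝ}
    (hV : ∀ (N B : ℝ) (u : ℤ → ℂ), 1 ≤ N → (∀ x : ℤ, |(x : ℝ)| ≤ 2 * N + 1 → ‖u x‖ ≤ B) →
      ‖av N (fun x => u (x + 1)) - av N u‖ ≤ V * B / N)
    {N B : ℝ} (hN : 1 ≤ N) (l : ℤ) (u : ℤ → ℂ)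
    (hu : ∀ z : ℤ, |(z : ℝ)| ≤ |(l : ℝ)| + 3 * N → |(z : ℝ) - l| ≤ |(l : ℝ)| + 3 * N → ‖u z‖ ≤ B) :
    ‖av N (fun x => u (x + l)) - av N u‖ ≤ V * |(l : ℝ)| * B / N := by
  obtain ⟨n, rfl | rfl⟩ := Int.eq_nat_or_neg l
  · have hn : (0 : ℝ) ≤ n := Nat.cast_nonneg n
    have e : |((n : ℤ) : ℝ)| = n := by push_cast; exact abs_of_nonneg hn
    rw [e] at hu ⊢
    refine split_shift_nat hV hN n u fun z h1 h2 => hu z ?_ ?_
    · rw [abs_le]; constructor <;> linarith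
    · push_cast; rw [abs_le]; constructor <;> linarith
  · have hn : (0 : ℝ) ≤ n := Nat.cast_nonneg n
    have e : |((-(n : ℤ) : ℤ) : ℝ)| = n := by push_cast; rw [abs_neg]; exact abs_of_nonneg hn
    rw [e] at hu ⊢
    have h := split_shift_nat hV hN n (fun x => u (x + -(n : ℤ))) (B := B) fun z h1 h2 =>
      hu _ (by push_cast; rw [abs_le]; constructor <;> linarith)
        (by push_cast; rw [abs_le]; constructor <;> linarith)
    simp only [add_neg_cancel_right] at h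
    rw [norm_sub_rev]
    exact h

theorem AvB_shift : ∃ V : ℝ, 0 ≤ V ∧ ∀ (N B : ℝ) (σ : S4) (l : ℤ), 1 ≤ N →
    Bd (|(l : ℝ)| + 3 * N) B σ →
    ‖AvB N σ 0 0 l (-l) - AvB N σ (-l) l 0 0‖ ≤ V * |(l : ℝ)| * B / N := by
  obtain ⟨V, hV0, hV⟩ := av_shift
  refine ⟨2 * V, by positivity, fun N B σ l hN hσ => ?_⟩
  have hl : 0 ≤ |(l : ℝ)| := abs_nonneg _
  have hl1 := le_abs_self (l : ℝ)
  have hl2 := neg_abs_le (l : ℝ)
  -- shift in the first variable
  have h1 := split_shift_int hV hN l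
    (fun x => av N fun y => σ (x - l) y x (y - l)) (B := B) fun z hz hz' =>
      av_le hN fun y hy => hσ _ _ _ _ ⟨by push_cast; exact hz', by linarith, hz, by
        push_cast; rw [abs_le] at hy ⊢; constructor <;> linarith [hy.1, hy.2]⟩
  -- shift in the second variable
  have h2 : ‖av N (fun x => (av N fun y => σ (x - l) (y + l) x (y + l - l)) -
      av N fun y => σ (x - l) y x (y - l))‖ ≤ V * |(l : ℝ)| * B / N :=
    av_le hN fun x hx => split_shift_int hV hN l (fun y => σ (x - l) y x (y - l)) fun z hz hz' =>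
      hσ _ _ _ _ ⟨by push_cast; rw [abs_le] at hx ⊢; constructor <;> linarith [hx.1, hx.2], hz,
        by linarith, by push_cast; exact hz'⟩
  rw [av_sub hN] at h2
  have e1 : AvB N σ 0 0 l (-l) = av N fun x => av N fun y => σ (x + l - l) y (x + l) (y - l) := by
    simp only [AvB]
    congr 1; funext x; congr 1; funext y; congr 1 <;> ring
  have e2 : AvB N σ (-l) l 0 0 = av N fun x => av N fun y => σ (x - l) (y + l) x (y + l - l) := by
    simp only [AvB]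
    congr 1; funext x; congr 1; funext y; congr 1 <;> ring
  rw [e1, e2]
  rw [norm_sub_rev] at h2
  have e3 : 2 * V * |(l : ℝ)| * B / N = V * |(l : ℝ)| * B / N + V * |(l : ℝ)| * B / N := by ring
  rw [e3]
  exact (norm_sub_le_norm_sub_add_norm_sub _ _ _).trans (add_le_add h1 h2)

/-- the cross term -/
def splitX (s : S4) : S4 := fun a b c d =>
  s (a - 1) (b + 1) c d - s (a - 1) b (c - 1) d + s a b c d - s a (b - 1) (c - 1) d

def splitEta (s : S4) : S4 := fun a b c d => s (a - 1) b (c - 1) d + s a (b - 1) (c - 1) d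

theorem split_id1 (s : S4) (a b c d : ℤ) :
    splitX s (a + 1) b (c + 1) d - splitX s a b c d =
      -Up4 s (a - 1) b c d - Up4 s a (b - 1) c d + Up4 s a b (c + 1) d - Dn4 s a b c (d - 1) := by
  simp only [splitX, Up4, Dn4, add_sub_cancel_right, sub_add_cancel]; ring

theorem split_id2 (s : S4) (a b c d : ℤ) :
    splitX s a (b + 1) c (d + 1) - splitX s a b c d =
      splitX (Up4 s) a b c (d + 1) -
        (splitX s (a + 1) b (c - 1 + 1) (d + 1) - splitX s a b (c - 1) (d + 1)) := by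
  simp only [splitX, Up4, add_sub_cancel_right, sub_add_cancel]; ring

theorem split_id3 (s : S4) (a b c d : ℤ) :
    splitX s a b c d + Dop s a b c d = splitEta s (a + 1) b (c + 1) d - splitEta s a b c d := by
  simp only [splitX, splitEta, Dop, add_sub_cancel_right]; ring

theorem split_id4 (s : S4) (a b c d : ℤ) :
    Dop s a b c d = splitX (Sw s) b a c d - splitX s a b c d := by
  simp only [splitX, Dop, Sw]; ring

theorem split_norm4 {p q r s : ℂ} {δ : ℝ} (h1 : ‖p‖ ≤ δ) (h2 : ‖q‖ ≤ δ) (h3 : ‖r‖ ≤ δ)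
    (h4 : ‖s‖ ≤ δ) : ‖p - q + r - s‖ ≤ 4 * δ := by
  have := norm_sub_le (p - q + r) s
  have := norm_add_le (p - q) r
  have := norm_sub_le p q
  linarith

theorem split_near {N R δ : ℝ} {σ : S4} (hN : 1 ≤ N) (hU : Bd (R + 10 * N) δ (Up4 σ))
    (hD : Bd (R + 10 * N) δ (Dn4 σ)) {a b c d : ℤ} (hb : Box R a b c d) :
    ‖AvB N (splitX σ) a b c d - splitX σ a b c d‖ ≤ 24 * (N * δ) := by
  have k1 : ∀ x y a' b' c' d' : ℤ, |(x : ℝ)| ≤ 2 * N → |(y : ℝ)| ≤ 2 * N → |a' - a - x| ≤ 4 →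
      |b' - b - y| ≤ 4 → |c' - c - x| ≤ 4 → |d' - d - y| ≤ 4 →
      ‖splitX σ (a' + 1) b' (c' + 1) d' - splitX σ a' b' c' d'‖ ≤ 4 * δ := by
    intro x y a' b' c' d' hx hy h1 h2 h3 h4
    rw [split_id1]
    rw [abs_le] at h1 h2 h3 h4
    refine split_norm4 ?_ ?_ ?_ ?_
    · rw [norm_neg]
      exact hU _ _ _ _ (split_box hN hb hx hy (by rw [abs_le]; omega) (by rw [abs_le]; omega)
        (by rw [abs_le]; omega) (by rw [abs_le]; omega))
    · exact hU _ _ _ _ (split_box hN hb hx hy (by rw [abs_le]; omega) (by rw [abs_le]; omega)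
        (by rw [abs_le]; omega) (by rw [abs_le]; omega))
    · exact hU _ _ _ _ (split_box hN hb hx hy (by rw [abs_le]; omega) (by rw [abs_le]; omega)
        (by rw [abs_le]; omega) (by rw [abs_le]; omega))
    · exact hD _ _ _ _ (split_box hN hb hx hy (by rw [abs_le]; omega) (by rw [abs_le]; omega)
        (by rw [abs_le]; omega) (by rw [abs_le]; omega))
  have h0 : |((0 : ℤ) : ℝ)| ≤ 2 * N := by simp; linarith
  have h1 := av_near (δ := 4 * δ) hN
    (u := fun x => av N fun y => splitX σ (a + x) (b + y) (c + x) (d + y)) fun x hx => by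
      rw [← av_sub hN]
      refine av_le hN fun y hy => ?_
      have := k1 x y (a + x) (b + y) (c + x) (d + y) hx hy (by simp) (by simp) (by simp) (by simp)
      simpa only [add_assoc] using this
  have h2 := av_near (δ := 8 * δ) hN (u := fun y => splitX σ a (b + y) c (d + y)) fun y hy => by
    have e := split_id2 σ a (b + y) c (d + y)
    simp only [← add_assoc]
    rw [e]
    have k2 := k1 0 y a (b + y) (c - 1) (d + y + 1) h0 hy (by simp) (by simp)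
      (by rw [abs_le]; omega) (by rw [abs_le]; omega)
    have k3 : ‖splitX (Up4 σ) a (b + y) c (d + y + 1)‖ ≤ 4 * δ := by
      refine split_norm4 ?_ ?_ ?_ ?_ <;>
      exact hU _ _ _ _ (split_box hN hb h0 hy (by rw [abs_le]; omega) (by rw [abs_le]; omega)
        (by rw [abs_le]; omega) (by rw [abs_le]; omega))
    exact (norm_sub_le _ _).trans (by linarith)
  simp only [add_zero] at h1 h2
  refine (norm_sub_le_norm_sub_add_norm_sub _ _ _).trans ((add_le_add h1 h2).trans (le_of_eq ?_))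
  ring

theorem split_tele {V : ℝ}
    (hV : ∀ (N B : ℝ) (u : ℤ → ℂ), 1 ≤ N → (∀ x : ℤ, |(x : ℝ)| ≤ 2 * N + 1 → ‖u x‖ ≤ B) →
      ‖av N (fun x => u (x + 1)) - av N u‖ ≤ V * B / N)
    {N R B : ℝ} {σ : S4} (hN : 1 ≤ N) (hσ : Bd (R + 10 * N) B σ) {a b c d : ℤ}
    (hb : Box R a b c d) :
    ‖AvB N (splitX σ) a b c d + AvB N (Dop σ) a b c d‖ ≤ 2 * V * (B / N) := by
  have h := hV N (2 * B) (fun x => av N fun y => splitEta σ (a + x) (b + y) (c + x) (d + y)) hN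
    fun x hx => av_le hN fun y hy => by
      have hb' : ∀ a' b' c' d' : ℤ, |a' - a - x| ≤ 1 → |b' - b - y| ≤ 1 → |c' - c - x| ≤ 1 →
          |d' - d - y| ≤ 1 → ‖σ a' b' c' d'‖ ≤ B := by
        intro a' b' c' d' h1 h2 h3 h4
        have t : ∀ z w v : ℤ, |(w : ℝ)| ≤ R → |(v : ℝ)| ≤ 2 * N + 1 → |z - w - v| ≤ 1 →
            |(z : ℝ)| ≤ R + 10 * N := by
          intro z w v hw hv hz
          have h : |((z - w - v : ℤ) : ℝ)| ≤ 1 := by exact_mod_cast hz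
          push_cast at h
          rw [abs_le] at *
          constructor <;> linarith [hw.1, hw.2, hv.1, hv.2, h.1, h.2]
        exact hσ _ _ _ _ ⟨t _ _ _ hb.1 hx h1, t _ _ _ hb.2.1 (by linarith) h2,
          t _ _ _ hb.2.2.1 hx h3, t _ _ _ hb.2.2.2 (by linarith) h4⟩
      refine (norm_add_le _ _).trans ?_
      have k1 := hb' (a + x - 1) (b + y) (c + x - 1) (d + y) (by rw [abs_le]; omega)
        (by rw [abs_le]; omega) (by rw [abs_le]; omega) (by rw [abs_le]; omega)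
      have k2 := hb' (a + x) (b + y - 1) (c + x - 1) (d + y) (by rw [abs_le]; omega)
        (by rw [abs_le]; omega) (by rw [abs_le]; omega) (by rw [abs_le]; omega)
      linarith
  have e : AvB N (splitX σ) a b c d + AvB N (Dop σ) a b c d =
      av N (fun x => av N fun y => splitEta σ (a + (x + 1)) (b + y) (c + (x + 1)) (d + y)) -
        av N (fun x => av N fun y => splitEta σ (a + x) (b + y) (c + x) (d + y)) := by
    simp only [AvB]
    rw [← av_add hN, ← av_sub hN]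
    congr 1; funext x
    rw [← av_add hN, ← av_sub hN]
    congr 1; funext y
    rw [split_id3, add_assoc, add_assoc]
  rw [e]
  exact h.trans (le_of_eq (by ring))

/-- the two pairings -/
theorem split : ∃ C : ℝ, 0 ≤ C ∧ ∀ (N R B δ : ℝ) (σ : S4), 1 ≤ N → Bd (R + 10 * N) B σ →
    Bd (R + 10 * N) δ (Up4 σ) → Bd (R + 10 * N) δ (Dn4 σ) → ∀ a b c d : ℤ, Box R a b c d →
    ‖Dop σ a b c d - AvB N (Dop σ) a b c d - AvB N (Sw (Dop σ)) b a c d‖ ≤
      C * (N * δ + B / N) := by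
  obtain ⟨V, hV0, hV⟩ := av_shift
  refine ⟨48 + 4 * V, by positivity, fun N R B δ σ hN hσ hU hD a b c d hb => ?_⟩
  have hb' : Box R b a c d := ⟨hb.2.1, hb.1, hb.2.2.1, hb.2.2.2⟩
  have eU : Up4 (Sw σ) = Sw (Up4 σ) := by
    funext a b c d; simp only [Up4, Sw]; ring
  have eD : Dn4 (Sw σ) = Sw (Dn4 σ) := by
    funext a b c d; simp only [Dn4, Sw]; ring
  have eS : Sw (Dop σ) = fun a b c d => (-1 : ℂ) * Dop (Sw σ) a b c d := by
    funext a b c d; simp only [Dop, Sw]; ring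
  have p1 := split_near hN hU hD hb
  have p2 := split_near (σ := Sw σ) hN (eU ▸ hU.sw) (eD ▸ hD.sw) hb'
  have q1 := split_tele hV hN hσ hb
  have q2 := split_tele hV hN hσ.sw hb'
  have hR : Box (R + 10 * N) a b c d := hb.mono (by linarith)
  have hB : 0 ≤ B / N := div_nonneg ((norm_nonneg _).trans (hσ _ _ _ _ hR)) (by linarith)
  have hδ : 0 ≤ N * δ := mul_nonneg (by linarith) ((norm_nonneg _).trans (hU _ _ _ _ hR))
  rw [eS, AvB_const_mul, split_id4 σ a b c d]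
  have e : splitX (Sw σ) b a c d - splitX σ a b c d - AvB N (Dop σ) a b c d -
      -1 * AvB N (Dop (Sw σ)) b a c d =
      (AvB N (splitX (Sw σ)) b a c d + AvB N (Dop (Sw σ)) b a c d) -
      (AvB N (splitX (Sw σ)) b a c d - splitX (Sw σ) b a c d) +
      (AvB N (splitX σ) a b c d - splitX σ a b c d) -
      (AvB N (splitX σ) a b c d + AvB N (Dop σ) a b c d) := by ring
  rw [e]
  refine (norm_sub_le _ _).trans ((add_le_add ((norm_add_le _ _).trans
    (add_le_add ((norm_sub_le _ _).trans (add_le_add q2 p2)) p1)) q1).trans ?_)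
  nlinarith [mul_nonneg hV0 hδ]

theorem split_tsum_le {N K : ℝ} (hN : 1 ≤ N) (hK : 0 ≤ K) {u : ℤ → ℂ}
    (hu : ∀ x : ℤ, |(x : ℝ)| ≤ 2 * N → ‖u x‖ ≤ K) :
    ‖∑' x : ℤ, (cf N x : ℂ) * u x‖ ≤ 5 * N * K := by
  obtain ⟨hs, hle⟩ := cf_sum hN
  refine (tsum_of_norm_bounded (g := fun x => cf N x * K) (hs.hasSum.mul_right K) fun x => ?_).trans
    (mul_le_mul_of_nonneg_right hle hK)
  rw [norm_mul, Complex.norm_real, Real.norm_of_nonneg (cf_nonneg N x)]
  rcases le_total |(x : ℝ)| (2 * N) with h | h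
  · exact mul_le_mul_of_nonneg_left (hu x h) (cf_nonneg N x)
  · rw [cf_zero (by linarith) h]; simp

/-- differences of the weight -/
theorem split_weight (j : ℕ) (L : ℝ) (hL : 0 ≤ L) : ∃ C : ℝ, 0 ≤ C ∧ ∀ N : ℝ, 1 ≤ N →
    ∀ x y : ℤ, ∀ i ≤ j, ∀ k : ℤ, |(k : ℝ)| ≤ L →
      ‖dl^[i] (fun k => ((cf N (x + k) * cf N (y - k) : ℝ) : ℂ) - ((cf N x * cf N y : ℝ) : ℂ)) k‖ ≤
        C / N ^ max i 1 := by
  obtain ⟨C₀, hC₀, hlip⟩ := cf_lip
  choose Cd hCd0 hCd using cf_dl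
  set S : ℝ := ∑ i ∈ Finset.range (j + 1), Cd i with hS
  have hS0 : 0 ≤ S := Finset.sum_nonneg fun i _ => hCd0 i
  have hSi : ∀ i ≤ j, Cd i ≤ S := fun i hi =>
    Finset.single_le_sum (f := Cd) (fun i _ => hCd0 i) (Finset.mem_range.2 (by omega))
  refine ⟨2 * C₀ * L + 2 ^ j * (S * S), by positivity, fun N hN x y i hi k hk => ?_⟩
  have hN0 : 0 < N := by linarith
  rcases i with _ | i
  · simp only [Function.iterate_zero, id_eq, zero_le, max_eq_right, pow_one]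
    rw [← Complex.ofReal_sub, Complex.norm_real, Real.norm_eq_abs]
    have h1 := hlip N hN (x + k) x
    have h2 := hlip N hN (y - k) y
    have e1 : |((x + k : ℤ) : ℝ) - x| = |(k : ℝ)| := by push_cast; congr 1; ring
    have e2 : |((y - k : ℤ) : ℝ) - y| = |(k : ℝ)| := by
      push_cast; rw [← abs_neg]; congr 1; ring
    rw [e1] at h1; rw [e2] at h2
    have h3 : C₀ * |(k : ℝ)| / N ≤ C₀ * L / N := by gcongr
    have e : cf N (x + k) * cf N (y - k) - cf N x * cf N y =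
        (cf N (x + k) - cf N x) * cf N (y - k) + cf N x * (cf N (y - k) - cf N y) := by ring
    rw [e]
    refine (abs_add_le _ _).trans ?_
    rw [abs_mul, abs_mul, abs_of_nonneg (cf_nonneg N _), abs_of_nonneg (cf_nonneg N x)]
    have h4 := mul_le_of_le_one_right (abs_nonneg (cf N (x + k) - cf N x)) (cf_le_one N (y - k))
    have h5 := mul_le_of_le_one_left (abs_nonneg (cf N (y - k) - cf N y)) (cf_le_one N x)
    have h6 : 0 ≤ 2 ^ j * (S * S) / N := by positivity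
    have e3 : (2 * C₀ * L + 2 ^ j * (S * S)) / N = C₀ * L / N + C₀ * L / N + 2 ^ j * (S * S) / N := by
      ring
    rw [e3]
    linarith
  · rw [dl_iter_sub, dl_iter_const, sub_zero, max_eq_left (by omega)]
    have h := leib (i + 1) (fun k => (cf N (x + k) : ℂ)) (fun k => (cf N (y - k) : ℂ))
      (fun m => S / N ^ m) (fun m => S / N ^ m) (S * S / N ^ (i + 1)) k
      (fun m hm k' _ => by
        have e : (fun k => (cf N (x + k) : ℂ)) = fun k => (fun k => (cf N k : ℂ)) (k + x) := by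
          funext k; rw [add_comm]
        rw [e, dl_iter_shift m (fun k => (cf N k : ℂ)) x k']
        exact (hCd m N hN _).trans (by have := hSi m (by omega); gcongr))
      (fun m hm k' _ => by
        have e : (fun k => (cf N (y - k) : ℂ)) = fun k => (fun k => (cf N k : ℂ)) (k + -y) := by
          funext k
          rw [← cf_neg]; congr 2; ring
        rw [e, dl_iter_shift m (fun k => (cf N k : ℂ)) (-y) k']
        exact (hCd m N hN _).trans (by have := hSi m (by omega); gcongr))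
      (fun m hm => by
        rw [div_mul_div_comm, ← pow_add, Nat.add_sub_cancel' hm])
    simp only [Complex.ofReal_mul]
    refine h.trans ?_
    rw [← mul_div_assoc]
    have h2 : (2 : ℝ) ^ (i + 1) ≤ 2 ^ j := pow_le_pow_right₀ one_le_two hi
    have h3 : 0 ≤ 2 * C₀ * L := by positivity
    have h4 : (2 : ℝ) ^ (i + 1) * (S * S) ≤ 2 ^ j * (S * S) := by gcongr
    gcongr
    linarith

/-- change of weights -/
theorem cmp (j : ℕ) (r : LP) : ∃ C L : ℝ, 0 ≤ C ∧ 0 ≤ L ∧ ∀ (N R M : ℝ) (B : ℕ → ℝ) (σ : S4),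
    1 ≤ N → (∀ i ≤ j, Bd (R + L * N) (B i) (Dop^[i] σ)) → (∀ i ≤ j, 0 ≤ B i) → B j / N ≤ M →
    (∀ i, 1 ≤ i → i ≤ j → B (j - i) / N ^ i ≤ M) → ∀ a b c d : ℤ, Box R a b c d →
    ‖AvB N (Sp (DL ^ j * r) σ) a b c d - Pq (DL ^ j * r) N σ a b c d‖ ≤ C * M := by
  obtain ⟨L₀, A, hL₀, hA, hap⟩ := ap_norm_le r
  obtain ⟨C, hC, hw⟩ := split_weight j (L₀ + j) (by positivity)
  refine ⟨25 * (A * (2 ^ j * C)), 2 + L₀ + j, by positivity, by positivity,
    fun N R M B σ hN hσ hB h0 hi a b c d hb => ?_⟩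
  have hN0 : 0 < N := by linarith
  have hM : 0 ≤ M := (div_nonneg (hB j le_rfl) hN0.le).trans h0
  have hj : (0 : ℝ) ≤ j := Nat.cast_nonneg j
  obtain ⟨hc1, -⟩ := cs_bounds hN
  set T : ℤ → ℤ → ℂ := fun x y => ap (DL ^ j * r) fun k =>
    (((cf N (x + k) * cf N (y - k) : ℝ) : ℂ) - ((cf N x * cf N y : ℝ) : ℂ)) *
      σ (a + x + k) (b + y - k) (c + x) (d + y) with hT
  have hTb : ∀ x y : ℤ, |(x : ℝ)| ≤ 2 * N → |(y : ℝ)| ≤ 2 * N →
      ‖T x y‖ ≤ A * (2 ^ j * (C * M)) := by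
    intro x y hx hy
    simp only [hT]
    rw [ap_DL_pow]
    refine hap _ _ fun l hl => ?_
    have hk : ∀ k : ℤ, |k - l| ≤ j → |(k : ℝ)| ≤ L₀ + j := fun k hk => by
      have h : |((k - l : ℤ) : ℝ)| ≤ (j : ℝ) := by exact_mod_cast hk
      push_cast at h
      rw [abs_le] at *
      constructor <;> linarith [h.1, h.2, hl.1, hl.2]
    refine leib j _ _ (fun i => C / N ^ max i 1) B (C * M) l
      (fun i hi k hk' => hw N hN x y i hi k (hk k hk')) (fun i hi' k hk' => ?_) (fun i hi' => ?_)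
    · rw [← dop_iter]
      have h1 := hk k hk'
      have h2 : L₀ + j ≤ (L₀ + j) * N := le_mul_of_one_le_right (by positivity) hN
      have h3 := hb.1
      have h4 := hb.2.1
      have h5 := hb.2.2.1
      have h6 := hb.2.2.2
      refine hσ i hi' _ _ _ _ ⟨?_, ?_, ?_, ?_⟩ <;>
      · push_cast
        rw [abs_le] at *
        constructor <;>
          nlinarith [h1.1, h1.2, h3.1, h3.2, h4.1, h4.2, h5.1, h5.2, h6.1, h6.2, hx.1, hx.2,
            hy.1, hy.2]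
    · rw [div_mul_eq_mul_div, mul_div_assoc]
      refine mul_le_mul_of_nonneg_left ?_ hC
      rcases i with _ | i
      · simpa using h0
      · rw [max_eq_left (by omega)]
        exact hi (i + 1) (by omega) hi'
  have hcs : (cs N : ℂ) ≠ 0 := by exact_mod_cast (by linarith : cs N ≠ 0)
  have e1 : AvB N (Sp (DL ^ j * r) σ) a b c d =
      (∑' x : ℤ, (cf N x : ℂ) * ∑' y : ℤ, (cf N y : ℂ) * (((cf N x * cf N y : ℝ) : ℂ) *
        ap (DL ^ j * r) fun k => σ (a + x + k) (b + y - k) (c + x) (d + y))) / (cs N : ℂ) ^ 2 := by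
    simp only [AvB, av, Sp]
    rw [pow_two (cs N : ℂ), ← div_div, ← tsum_div_const (a := (cs N : ℂ))
      (f := fun x => (cf N x : ℂ) * _)]
    congr 2; funext x
    rw [← mul_div_assoc, ← tsum_mul_left, ← tsum_mul_left]
    congr 2; funext y
    push_cast; ring
  have e2 : Pq (DL ^ j * r) N σ a b c d =
      (∑' x : ℤ, (cf N x : ℂ) * ∑' y : ℤ, (cf N y : ℂ) *
        ap (DL ^ j * r) fun k => ((cf N (x + k) * cf N (y - k) : ℝ) : ℂ) *
          σ (a + x + k) (b + y - k) (c + x) (d + y)) / (cs N : ℂ) ^ 2 := by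
    simp only [Pq]
    congr 2; funext x
    rw [← tsum_mul_left]
    congr 1; funext y
    push_cast; ring
  have e3 : Pq (DL ^ j * r) N σ a b c d - AvB N (Sp (DL ^ j * r) σ) a b c d =
      (∑' x : ℤ, (cf N x : ℂ) * ∑' y : ℤ, (cf N y : ℂ) * T x y) / (cs N : ℂ) ^ 2 := by
    rw [e1, e2, ← sub_div, ← (summable_cf hN0 _).tsum_sub (summable_cf hN0 _)]
    congr 2; funext x
    rw [← mul_sub, ← (summable_cf hN0 _).tsum_sub (summable_cf hN0 _)]
    congr 2; funext y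
    rw [← mul_sub, ← ap_const_mul, ← ap_sub]
    simp only [hT, sub_mul]
  rw [norm_sub_rev, e3, norm_div, norm_pow, Complex.norm_real, Real.norm_of_nonneg (by linarith)]
  have hK : 0 ≤ A * (2 ^ j * (C * M)) := by positivity
  have h := split_tsum_le hN (K := 5 * N * (A * (2 ^ j * (C * M)))) (by positivity)
    (u := fun x => ∑' y : ℤ, (cf N y : ℂ) * T x y) fun x hx =>
      split_tsum_le hN hK fun y hy => hTb x y hx hy
  have hc0 : 0 < cs N := by linarith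
  rw [div_le_iff₀ (by positivity)]
  refine h.trans ?_
  have h2 : N ^ 2 ≤ cs N ^ 2 := by gcongr
  nlinarith [mul_le_mul_of_nonneg_left h2 hK]

end Pool.Agent.MP_a28cf0_nt.Four

namespace Pool.Agent.MP_a28cf0_nt.Four

open MeasureTheory Complex Filter Topology Set Pool.Agent.MP_a28cf0_nt.Cub
open scoped ENNReal MatrixGroups

theorem rel4_ibp (D : (E → ℂ) → E → ℂ)
    (hmul : ∀ (g h : E → ℂ) (M : E), DifferentiableAt ℝ g M → DifferentiableAt ℝ h M →
      D (fun N => g N * h N) M = D g M * h M + g M * D h M)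
    (hibp : ∀ h : E → ℂ, ContDiffOn ℝ 1 h Gp → Van h → ∫ M, D h M ∂nu = 0)
    {Ψ : E → ℂ} (hΨ : Test Ψ) (hD : Test (D Ψ)) {f₁ f₂ f₃ f₄ g₁ g₂ g₃ g₄ : E → ℂ}
    (s₁ : ContDiffOn ℝ 1 f₁ Gp) (s₂ : ContDiffOn ℝ 1 f₂ Gp) (s₃ : ContDiffOn ℝ 1 f₃ Gp)
    (s₄ : ContDiffOn ℝ 1 f₄ Gp) (c₁ : ContinuousOn g₁ Gp) (c₂ : ContinuousOn g₂ Gp)
    (c₃ : ContinuousOn g₃ Gp) (c₄ : ContinuousOn g₄ Gp) {l₁ l₂ l₃ l₄ : ℂ}
    (d₁ : ∀ M ∈ Gp, D f₁ M = I * l₁ * g₁ M) (d₂ : ∀ M ∈ Gp, D f₂ M = I * l₂ * g₂ M)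
    (d₃ : ∀ M ∈ Gp, D f₃ M = -(I * l₃) * g₃ M) (d₄ : ∀ M ∈ Gp, D f₄ M = -(I * l₄) * g₄ M) :
    l₁ * ∫ M, Ψ M * (g₁ M * f₂ M * f₃ M * f₄ M) ∂nu +
      l₂ * ∫ M, Ψ M * (f₁ M * g₂ M * f₃ M * f₄ M) ∂nu -
      l₃ * ∫ M, Ψ M * (f₁ M * f₂ M * g₃ M * f₄ M) ∂nu -
      l₄ * ∫ M, Ψ M * (f₁ M * f₂ M * f₃ M * g₄ M) ∂nu =
      I * ∫ M, D Ψ M * (f₁ M * f₂ M * f₃ M * f₄ M) ∂nu := by
  have k₁ := s₁.continuousOn
  have k₂ := s₂.continuousOn
  have k₃ := s₃.continuousOn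
  have k₄ := s₄.continuousOn
  have hs : ContDiffOn ℝ 1 (fun M => Ψ M * (f₁ M * f₂ M * f₃ M * f₄ M)) Gp :=
    (hΨ.smooth.of_le (by exact_mod_cast le_top)).mul (((s₁.mul s₂).mul s₃).mul s₄)
  have h0 := hibp _ hs (hΨ.van.mul _)
  have i0 : Integrable (fun M => D Ψ M * (f₁ M * f₂ M * f₃ M * f₄ M)) nu :=
    (hD.van.mul _).integrable (hD.cont.mul (((k₁.mul k₂).mul k₃).mul k₄))
  have i1 : Integrable (fun M => I * l₁ * (Ψ M * (g₁ M * f₂ M * f₃ M * f₄ M))) nu :=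
    ((hΨ.van.mul _).integrable (hΨ.cont.mul (((c₁.mul k₂).mul k₃).mul k₄))).const_mul _
  have i2 : Integrable (fun M => I * l₂ * (Ψ M * (f₁ M * g₂ M * f₃ M * f₄ M))) nu :=
    ((hΨ.van.mul _).integrable (hΨ.cont.mul (((k₁.mul c₂).mul k₃).mul k₄))).const_mul _
  have i3 : Integrable (fun M => -(I * l₃) * (Ψ M * (f₁ M * f₂ M * g₃ M * f₄ M))) nu :=
    ((hΨ.van.mul _).integrable (hΨ.cont.mul (((k₁.mul k₂).mul c₃).mul k₄))).const_mul _
  have i4 : Integrable (fun M => -(I * l₄) * (Ψ M * (f₁ M * f₂ M * f₃ M * g₄ M))) nu :=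
    ((hΨ.van.mul _).integrable (hΨ.cont.mul (((k₁.mul k₂).mul k₃).mul c₄))).const_mul _
  have hae : (fun M => D (fun M => Ψ M * (f₁ M * f₂ M * f₃ M * f₄ M)) M) =ᵐ[nu] fun M =>
      D Ψ M * (f₁ M * f₂ M * f₃ M * f₄ M) + (I * l₁ * (Ψ M * (g₁ M * f₂ M * f₃ M * f₄ M)) +
        I * l₂ * (Ψ M * (f₁ M * g₂ M * f₃ M * f₄ M)) +
        (-(I * l₃) * (Ψ M * (f₁ M * f₂ M * g₃ M * f₄ M)) +
        -(I * l₄) * (Ψ M * (f₁ M * f₂ M * f₃ M * g₄ M)))) := by
    filter_upwards [ae_mem_Sh] with M hM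
    have hG := Sh_subset hM
    have n := isOpen_Gp.mem_nhds hG
    have e₁ : DifferentiableAt ℝ f₁ M := (s₁.contDiffAt n).differentiableAt (by simp)
    have e₂ : DifferentiableAt ℝ f₂ M := (s₂.contDiffAt n).differentiableAt (by simp)
    have e₃ : DifferentiableAt ℝ f₃ M := (s₃.contDiffAt n).differentiableAt (by simp)
    have e₄ : DifferentiableAt ℝ f₄ M := (s₄.contDiffAt n).differentiableAt (by simp)
    rw [hmul Ψ (fun M => f₁ M * f₂ M * f₃ M * f₄ M) M (hΨ.diffAt hG)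
        (((e₁.mul e₂).mul e₃).mul e₄),
      hmul (fun M => f₁ M * f₂ M * f₃ M) f₄ M ((e₁.mul e₂).mul e₃) e₄,
      hmul (fun M => f₁ M * f₂ M) f₃ M (e₁.mul e₂) e₃, hmul f₁ f₂ M e₁ e₂,
      d₁ M hG, d₂ M hG, d₃ M hG, d₄ M hG]
    ring
  have j1 : Integrable (fun M => I * l₁ * (Ψ M * (g₁ M * f₂ M * f₃ M * f₄ M)) +
    I * l₂ * (Ψ M * (f₁ M * g₂ M * f₃ M * f₄ M))) nu := i1.add i2
  have j2 : Integrable (fun M => -(I * l₃) * (Ψ M * (f₁ M * f₂ M * g₃ M * f₄ M)) +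
    -(I * l₄) * (Ψ M * (f₁ M * f₂ M * f₃ M * g₄ M))) nu := i3.add i4
  have j3 : Integrable (fun M => I * l₁ * (Ψ M * (g₁ M * f₂ M * f₃ M * f₄ M)) +
    I * l₂ * (Ψ M * (f₁ M * g₂ M * f₃ M * f₄ M)) +
    (-(I * l₃) * (Ψ M * (f₁ M * f₂ M * g₃ M * f₄ M)) +
    -(I * l₄) * (Ψ M * (f₁ M * f₂ M * f₃ M * g₄ M)))) nu := j1.add j2
  rw [integral_congr_ae hae, integral_add i0 j3, integral_add j1 j2, integral_add i1 i2,
    integral_add i3 i4, integral_const_mul, integral_const_mul, integral_const_mul,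
    integral_const_mul] at h0
  linear_combination (-I) * h0 +
    (l₁ * ∫ M, Ψ M * (g₁ M * f₂ M * f₃ M * f₄ M) ∂nu +
      l₂ * ∫ M, Ψ M * (f₁ M * g₂ M * f₃ M * f₄ M) ∂nu -
      l₃ * ∫ M, Ψ M * (f₁ M * f₂ M * g₃ M * f₄ M) ∂nu -
      l₄ * ∫ M, Ψ M * (f₁ M * f₂ M * f₃ M * g₄ M) ∂nu) * I_mul_I

theorem rel4_conj_smooth {t : ℝ} {Φ : ℤ → E → ℂ} (h : Sys t Φ) (m : ℤ) :
    ContDiffOn ℝ 1 (fun M => (starRingEnd ℂ) (Φ m M)) Gp :=
  conjCLE.contDiff.comp_contDiffOn (h.smooth m)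

theorem rel4_conj_ra {t : ℝ} {Φ : ℤ → E → ℂ} (h : Sys t Φ) (m : ℤ) (M : E) (hM : M ∈ Gp) :
    Ra (fun M => (starRingEnd ℂ) (Φ m M)) M =
      -(I * (lam t (m - 1) : ℂ)) * (starRingEnd ℂ) (Φ (m - 1) M) := by
  rw [Ra_conj, h.lo m M hM]
  simp only [map_mul, conj_I, conj_ofReal]
  ring

theorem rel4_conj_lo {t : ℝ} {Φ : ℤ → E → ℂ} (h : Sys t Φ) (m : ℤ) (M : E) (hM : M ∈ Gp) :
    Lo (fun M => (starRingEnd ℂ) (Φ m M)) M =
      -(I * (lam t m : ℂ)) * (starRingEnd ℂ) (Φ (m + 1) M) := by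
  rw [Lo_conj, h.ra m M hM]
  simp only [map_mul, conj_I, conj_ofReal]
  ring

theorem rel_up {Ψ : E → ℂ} (hΨ : Test Ψ) {t : ℝ} {Φ : ℤ → E → ℂ} (h : Sys t Φ) (a b c d : ℤ) :
    (t : ℂ) * Up4 (tau4 Ψ Φ) a b c d = I * tau4 (Ra Ψ) Φ a b c d -
      (((lam t a - t : ℝ) : ℂ) * tau4 Ψ Φ (a + 1) b c d +
        ((lam t b - t : ℝ) : ℂ) * tau4 Ψ Φ a (b + 1) c d -
        ((lam t (c - 1) - t : ℝ) : ℂ) * tau4 Ψ Φ a b (c - 1) d -
        ((lam t (d - 1) - t : ℝ) : ℂ) * tau4 Ψ Φ a b c (d - 1)) := by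
  have := rel4_ibp Ra (fun g h M hg hh => Ra_mul hg hh) (fun h hc hv => ibp_Ra hc hv) hΨ hΨ.ra
    (h.smooth a) (h.smooth b) (rel4_conj_smooth h c) (rel4_conj_smooth h d) (h.cont (a + 1))
    (h.cont (b + 1)) (rel4_conj_smooth h (c - 1)).continuousOn
    (rel4_conj_smooth h (d - 1)).continuousOn (h.ra a) (h.ra b) (rel4_conj_ra h c)
    (rel4_conj_ra h d)
  simp only [Up4, tau4]
  push_cast
  linear_combination this

theorem rel_dn {Ψ : E → ℂ} (hΨ : Test Ψ) {t : ℝ} {Φ : ℤ → E → ℂ} (h : Sys t Φ) (a b c d : ℤ) :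
    (t : ℂ) * Dn4 (tau4 Ψ Φ) a b c d = I * tau4 (Lo Ψ) Φ a b c d -
      (((lam t (a - 1) - t : ℝ) : ℂ) * tau4 Ψ Φ (a - 1) b c d +
        ((lam t (b - 1) - t : ℝ) : ℂ) * tau4 Ψ Φ a (b - 1) c d -
        ((lam t c - t : ℝ) : ℂ) * tau4 Ψ Φ a b (c + 1) d -
        ((lam t d - t : ℝ) : ℂ) * tau4 Ψ Φ a b c (d + 1)) := by
  have := rel4_ibp Lo (fun g h M hg hh => Lo_mul hg hh) (fun h hc hv => ibp_Lo hc hv) hΨ hΨ.lo
    (h.smooth a) (h.smooth b) (rel4_conj_smooth h c) (rel4_conj_smooth h d) (h.cont (a - 1))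
    (h.cont (b - 1)) (rel4_conj_smooth h (c + 1)).continuousOn
    (rel4_conj_smooth h (d + 1)).continuousOn (h.lo a) (h.lo b) (rel4_conj_lo h c)
    (rel4_conj_lo h d)
  simp only [Dn4, tau4]
  push_cast
  linear_combination this

theorem tau4_sw (Ψ : E → ℂ) (Φ : ℤ → E → ℂ) : Sw (tau4 Ψ Φ) = tau4 Ψ Φ := by
  funext a b c d
  simp only [Sw, tau4, mul_comm (Φ b _) (Φ a _)]

theorem crude4 {Ψ : E → ℂ} (hΨ : Test Ψ) (K : ℝ) : ∃ C : ℝ, 0 ≤ C ∧ ∀ (t : ℝ) (Φ : ℤ → E → ℂ),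
    1 ≤ t → Sys t Φ → Bd (K * √t) (C * (√t) ^ 8) (tau4 Ψ Φ) := by
  obtain ⟨A, ρ, hA, h1, h2⟩ := hΨ.bound
  obtain ⟨C₁, hC₁⟩ := sup_bound ρ K
  obtain ⟨C₂, hC₂⟩ := l2_bound ρ K
  refine ⟨A * |C₁| ^ 2 * (|C₂| + |C₂|), by positivity,
    fun t Φ ht s a b c d ⟨ha, hb, hc, hd⟩ => ?_⟩
  have i2 : IntegrableOn (fun N => ‖Φ c N‖ ^ 2) (Bl ρ) nu := l2_intOn s c ρ
  have i3 : IntegrableOn (fun N => ‖Φ d N‖ ^ 2) (Bl ρ) nu := l2_intOn s d ρ
  have i4 : IntegrableOn (fun N => A * (|C₁| * t ^ 2 * (|C₁| * t ^ 2)) *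
      (‖Φ c N‖ ^ 2 + ‖Φ d N‖ ^ 2)) (Bl ρ) nu := (i2.add i3).const_mul _
  refine (norm_integral_le_of_norm_le ((integrable_indicator_iff (measurableSet_Bl ρ)).2 i4)
    ?_).trans ?_
  · filter_upwards [ae_mem_Sh] with M hM
    by_cases hB : M ∈ Bl ρ
    · rw [indicator_of_mem hB]
      simp only [norm_mul, Complex.norm_conj]
      rw [mul_assoc (‖Φ a M‖ * ‖Φ b M‖), ← mul_assoc]
      have e1 : ∀ m : ℤ, |(m : ℝ)| ≤ K * √t → ‖Φ m M‖ ≤ |C₁| * t ^ 2 := fun m hm =>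
        (hC₁ t Φ ht s m hm M hB).trans (by gcongr; exact le_abs_self _)
      refine mul_le_mul (mul_le_mul (h1 M hM) (mul_le_mul (e1 a ha) (e1 b hb) (norm_nonneg _)
        (by positivity)) (by positivity) hA) ?_ (by positivity) (by positivity)
      nlinarith [sq_nonneg (‖Φ c M‖ - ‖Φ d M‖), sq_nonneg ‖Φ c M‖, sq_nonneg ‖Φ d M‖]
    · rw [indicator_of_notMem hB, h2 M hM hB, zero_mul, norm_zero]
  · rw [integral_indicator (measurableSet_Bl ρ), integral_const_mul, integral_add i2 i3]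
    refine le_trans (mul_le_mul_of_nonneg_left (add_le_add
      ((hC₂ t Φ ht s c hc).trans (le_abs_self _)) ((hC₂ t Φ ht s d hd).trans (le_abs_self _)))
      (by positivity)) (le_of_eq ?_)
    rw [show (√t) ^ 8 = ((√t) ^ 2) ^ 4 by ring, Real.sq_sqrt (by linarith)]
    ring

theorem rel4_add {K s x y L : ℝ} (hs : 1 ≤ s) (hx : |x| ≤ K * s) (hy : |y| ≤ L) :
    |x + y| ≤ (K + L) * s := by
  have h1 := abs_add_le x y
  have h2 : 0 ≤ L := (abs_nonneg _).trans hy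
  nlinarith

/-- the Leibniz bound for one term of the recurrence -/
theorem rel4_term {j : ℕ} {K s B C : ℝ} {σ : S4} {w : ℤ → ℂ} (hs : 1 ≤ s) (hB : 0 ≤ B)
    (hC : 0 ≤ C) (hσ : ∀ i ≤ j, Bd ((K + j + 2) * s) (B * s ^ (8 - i)) (Dop^[i] σ))
    (hw : ∀ i ≤ j, ∀ k : ℤ, |(k : ℝ)| ≤ j → ‖dl^[i] w k‖ ≤ C / s ^ i)
    {a b c d : ℤ} (hb : Box ((K + 1) * s) a b c d) :
    ‖dl^[j] (fun k => w k * σ (a + k) (b - k) c d) 0‖ ≤ 2 ^ j * (C * B * s ^ (8 - j)) := by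
  have hk : ∀ k : ℤ, |k - 0| ≤ j → |(k : ℝ)| ≤ j := fun k h => by
    rw [sub_zero] at h
    exact_mod_cast h
  have s0 : 0 < s := by linarith
  obtain ⟨ha, hb, hc, hd⟩ := hb
  have j0 : (0 : ℝ) ≤ j := Nat.cast_nonneg j
  refine leib j w (fun k => σ (a + k) (b - k) c d) (fun i => C / s ^ i)
    (fun i => B * s ^ (8 - i)) _ 0 (fun i hi k h => hw i hi k (hk k h)) (fun i hi k h => ?_)
    fun i _ => ?_
  · rw [← dop_iter]
    have h1 := rel4_add hs ha (hk k h)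
    have h2 := rel4_add (y := -(k : ℝ)) (L := j) hs hb (by rw [abs_neg]; exact hk k h)
    refine hσ i hi _ _ _ _ ⟨?_, ?_, ?_, ?_⟩
    · push_cast
      nlinarith
    · push_cast
      rw [sub_eq_add_neg]
      nlinarith
    · nlinarith
    · nlinarith
  · have h1 : s ^ (8 - (j - i)) ≤ s ^ (8 - j) * s ^ i := by
      rw [← pow_add]
      exact pow_le_pow_right₀ hs (by omega)
    rw [div_mul_eq_mul_div, div_le_iff₀ (by positivity)]
    calc C * (B * s ^ (8 - (j - i))) ≤ C * (B * (s ^ (8 - j) * s ^ i)) := by gcongr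
      _ = _ := by ring

/-- the common form of the two recurrences -/
theorem rel4_core {j : ℕ} {K s t B C : ℝ} {σ ρ X : S4} {u : ℤ → ℂ} {ε e e' : ℤ} (hs : 1 ≤ s)
    (ht : 0 < t) (hB : 0 ≤ B) (hC : 0 ≤ C) (hε : |(ε : ℝ)| ≤ 1) (he : |(e : ℝ)| ≤ 1)
    (he' : |(e' : ℝ)| ≤ 1)
    (hσ : ∀ i ≤ j, Bd ((K + j + 2) * s) (B * s ^ (8 - i)) (Dop^[i] σ))
    (hρ : Bd (K * s) (B * s ^ (8 - j)) (Dop^[j] ρ))
    (hu : ∀ i ≤ j, ∀ k : ℤ, |(k : ℝ)| ≤ (K + 1 + j) * s → ‖dl^[i] u k‖ ≤ C / s ^ i)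
    (hX : ∀ a b c d, (t : ℂ) * X a b c d = I * ρ a b c d -
      (u (a + e) * σ (a + ε) b c d + u (b + e) * σ a (b + ε) c d -
        u (c + e') * σ a b (c - ε) d - u (d + e') * σ a b c (d - ε))) :
    Bd (K * s) ((1 + 4 * 2 ^ j * C) * B * s ^ (8 - j) / t) (Dop^[j] X) := by
  rintro a b c d ⟨ha, hb, hc, hd⟩
  have j0 : (0 : ℝ) ≤ j := Nat.cast_nonneg j
  have p : ∀ {m n : ℤ}, |(m : ℝ)| ≤ K * s → |(n : ℝ)| ≤ 1 → |((m + n : ℤ) : ℝ)| ≤ (K + 1) * s := by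
    intro m n h1 h2
    push_cast
    exact rel4_add hs h1 h2
  have q : ∀ {m : ℤ}, |(m : ℝ)| ≤ K * s → |((m - ε : ℤ) : ℝ)| ≤ (K + 1) * s := by
    intro m h1
    rw [sub_eq_add_neg]
    exact p h1 (by push_cast; rwa [abs_neg])
  have z : ∀ {m : ℤ}, |(m : ℝ)| ≤ K * s → |(m : ℝ)| ≤ (K + 1) * s := by
    intro m h1
    nlinarith
  have wp : ∀ n : ℤ, |(n : ℝ)| ≤ (K + 1) * s → ∀ i ≤ j, ∀ k : ℤ, |(k : ℝ)| ≤ j →
      ‖dl^[i] (fun k => u (k + n)) k‖ ≤ C / s ^ i := by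
    intro n hn i hi k hk
    rw [dl_iter_shift]
    refine hu i hi _ ?_
    push_cast
    rw [add_comm]
    exact rel4_add hs hn hk
  have wm : ∀ n : ℤ, |(n : ℝ)| ≤ (K + 1) * s → ∀ i ≤ j, ∀ k : ℤ, |(k : ℝ)| ≤ j →
      ‖dl^[i] (fun k => u (-k + n)) k‖ ≤ C / s ^ i := by
    intro n hn i hi k hk
    rw [dl_iter_neg i (fun k => u (k + n)) k, norm_mul, norm_pow, norm_neg, norm_one, one_pow,
      one_mul]
    exact wp n hn i hi _ (by push_cast; rwa [abs_neg])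
  have wc : ∀ n : ℤ, |(n : ℝ)| ≤ (K + 1) * s → ∀ i ≤ j, ∀ k : ℤ, |(k : ℝ)| ≤ j →
      ‖dl^[i] (fun _ => u n) k‖ ≤ C / s ^ i := by
    intro n hn i hi k _
    rcases i with _ | i
    · exact hu 0 hi n (by nlinarith)
    · rw [dl_iter_const, norm_zero]
      positivity
  have t1 := rel4_term hs hB hC hσ (wp _ (p ha he)) (a := a + ε) (b := b) (c := c) (d := d)
    ⟨p ha hε, z hb, z hc, z hd⟩
  have t2 := rel4_term hs hB hC hσ (wm _ (p hb he)) (a := a) (b := b + ε) (c := c) (d := d)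
    ⟨z ha, p hb hε, z hc, z hd⟩
  have t3 := rel4_term hs hB hC hσ (wc _ (p hc he')) (a := a) (b := b) (c := c - ε) (d := d)
    ⟨z ha, z hb, q hc, z hd⟩
  have t4 := rel4_term hs hB hC hσ (wc _ (p hd he')) (a := a) (b := b) (c := c) (d := d - ε)
    ⟨z ha, z hb, z hc, q hd⟩
  have t0 := hρ a b c d ⟨ha, hb, hc, hd⟩
  have d0 : ∀ Y : S4, Dop^[j] Y a b c d = dl^[j] (fun k => Y (a + k) (b - k) c d) 0 := by
    intro Y
    simpa using dop_iter j Y a b c d 0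
  have e1 : (fun k => (t : ℂ) * X (a + k) (b - k) c d) = fun k => I * ρ (a + k) (b - k) c d -
      (u (k + (a + e)) * σ (a + ε + k) (b - k) c d +
        u (-k + (b + e)) * σ (a + k) (b + ε - k) c d -
        u (c + e') * σ (a + k) (b - k) (c - ε) d - u (d + e') * σ (a + k) (b - k) c (d - ε)) := by
    funext k
    rw [hX, show a + k + e = k + (a + e) by ring, show a + k + ε = a + ε + k by ring,
      show b - k + e = -k + (b + e) by ring, show b - k + ε = b + ε - k by ring]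
  have e2 := dl_iter_const_mul j t (fun k => X (a + k) (b - k) c d) 0
  rw [e1, dl_iter_sub, dl_iter_sub, dl_iter_sub, dl_iter_add, dl_iter_const_mul, ← d0,
    ← d0] at e2
  rw [le_div_iff₀ ht]
  have e3 : ‖Dop^[j] X a b c d‖ * t = ‖(t : ℂ) * Dop^[j] X a b c d‖ := by
    rw [norm_mul, Complex.norm_real, Real.norm_eq_abs, abs_of_pos ht, mul_comm]
  rw [e3, ← e2]
  refine (norm_sub_le _ _).trans ?_
  rw [norm_mul, Complex.norm_I, one_mul]
  refine (add_le_add t0 ((norm_sub_le _ _).trans (add_le_add ((norm_sub_le _ _).trans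
    (add_le_add ((norm_add_le _ _).trans (add_le_add t1 t2)) t3)) t4))).trans (le_of_eq ?_)
  ring

/-- the approximate recurrences for the differences -/
theorem relbd (j : ℕ) (K : ℝ) : ∃ C : ℝ, 0 ≤ C ∧ ∀ (Ψ : E → ℂ) (t B : ℝ) (Φ : ℤ → E → ℂ),
    Test Ψ → 1 ≤ t → Sys t Φ → 0 ≤ B →
    (∀ i ≤ j, Bd ((K + j + 2) * √t) (B * (√t) ^ (8 - i)) (Dop^[i] (tau4 Ψ Φ))) →
    Bd (K * √t) (B * (√t) ^ (8 - j)) (Dop^[j] (tau4 (Ra Ψ) Φ)) →
    Bd (K * √t) (B * (√t) ^ (8 - j)) (Dop^[j] (tau4 (Lo Ψ) Φ)) →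
    Bd (K * √t) (C * B * (√t) ^ (8 - j) / t) (Up4 (Dop^[j] (tau4 Ψ Φ))) ∧
      Bd (K * √t) (C * B * (√t) ^ (8 - j) / t) (Dn4 (Dop^[j] (tau4 Ψ Φ))) := by
  choose C hC0 hC using fun i => lam_dl i (K + 1 + j)
  have hs : 0 ≤ ∑ i ∈ Finset.range (j + 1), C i := Finset.sum_nonneg fun i _ => hC0 i
  refine ⟨1 + 4 * 2 ^ j * ∑ i ∈ Finset.range (j + 1), C i, by positivity, ?_⟩
  intro Ψ t B Φ hΨ ht h hB hσ hR hL
  have s1 : 1 ≤ √t := Real.one_le_sqrt.2 ht
  have hu : ∀ i ≤ j, ∀ k : ℤ, |(k : ℝ)| ≤ (K + 1 + j) * √t →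
      ‖dl^[i] (fun k => ((lam t k - t : ℝ) : ℂ)) k‖ ≤
        (∑ i ∈ Finset.range (j + 1), C i) / (√t) ^ i := by
    intro i hi k hk
    refine (hC i t ht k hk).trans ?_
    gcongr
    exact Finset.single_le_sum (fun i _ => hC0 i) (Finset.mem_range.2 (by omega))
  constructor
  · rw [← Sp_DL_pow, Up4_Sp, Sp_DL_pow]
    refine rel4_core (ε := 1) (e := 0) (e' := -1) s1 (by linarith) hB hs (by simp) (by simp)
      (by simp) hσ hR hu fun a b c d => ?_
    simpa only [add_zero, ← sub_eq_add_neg] using rel_up hΨ h a b c d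
  · rw [← Sp_DL_pow, Dn4_Sp, Sp_DL_pow]
    refine rel4_core (ε := -1) (e := -1) (e' := 0) s1 (by linarith) hB hs (by simp) (by simp)
      (by simp) hσ hL hu fun a b c d => ?_
    simpa only [add_zero, ← sub_eq_add_neg, sub_neg_eq_add] using rel_dn hΨ h a b c d

/-- a system is determined by its member of weight zero -/
theorem rel4_unique {t : ℝ} {Φ Φ' : ℤ → E → ℂ} (h : Sys t Φ) (h' : Sys t Φ')
    (h0 : ∀ M ∈ Gp, Φ 0 M = Φ' 0 M) (m : ℤ) : ∀ M ∈ Gp, Φ m M = Φ' m M := by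
  have hl : ∀ n : ℤ, I * (lam t n : ℂ) ≠ 0 := fun n =>
    mul_ne_zero I_ne_zero (ofReal_ne_zero.2 (lam_pos t n).ne')
  induction m using Int.induction_on with
  | zero => exact h0
  | succ n ih =>
    intro M hM
    have e : Φ n =ᶠ[𝓝 M] Φ' n := Filter.eventually_of_mem (isOpen_Gp.mem_nhds hM) ih
    have e2 : Ra (Φ n) M = Ra (Φ' n) M := by simp only [Ra, X1, X2, e.fderiv_eq]
    rw [h.ra _ M hM, h'.ra _ M hM] at e2
    exact mul_left_cancel₀ (hl _) e2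
  | pred n ih =>
    intro M hM
    have e : Φ (-n) =ᶠ[𝓝 M] Φ' (-n) := Filter.eventually_of_mem (isOpen_Gp.mem_nhds hM) ih
    have e2 : Lo (Φ (-n)) M = Lo (Φ' (-n)) M := by simp only [Lo, X1, X2, e.fderiv_eq]
    rw [h.lo _ M hM, h'.lo _ M hM] at e2
    exact mul_left_cancel₀ (hl _) e2

theorem conj_eq {t : ℝ} {Φ : ℤ → E → ℂ} (h : Sys t Φ) (h0 : Re0 Φ) (m : ℤ) {M : E} (hM : M ∈ Gp) :
    (starRingEnd ℂ) (Φ m M) = (-1) ^ m * Φ (-m) M := by
  have e := rel4_unique h h.conj (fun M hM => by simpa using (h0 M hM).symm) (-m) M hM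
  simp only [neg_neg] at e
  rw [e, ← mul_assoc, ← zpow_add₀ (by norm_num)]
  simp

theorem rho_nonneg (t : ℝ) (Φ : ℤ → E → ℂ) (M : E) : 0 ≤ rho t Φ M :=
  div_nonneg (sq_nonneg _) (tsum_nonneg fun _ => sq_nonneg _)

theorem rho_le {t : ℝ} (ht : 1 ≤ t) (Φ : ℤ → E → ℂ) (M : E) :
    rho t Φ M ≤ ‖pk (cf (√t)) Φ M‖ ^ 2 / √t := by
  have s1 : 1 ≤ √t := Real.one_le_sqrt.2 ht
  exact div_le_div_of_nonneg_left (sq_nonneg _) (by linarith) (cs_bounds s1).1

theorem rho_cont {t : ℝ} {Φ : ℤ → E → ℂ} (ht : 1 ≤ t) (h : Sys t Φ) :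
    ContinuousOn (rho t Φ) Gp := by
  obtain ⟨K, hK⟩ := cf_coef0
  exact ((pk_smooth h (hK _ (Real.one_le_sqrt.2 ht)).toCoef).continuousOn.norm.pow 2).div_const _

theorem rho_meas {t : ℝ} {Φ : ℤ → E → ℂ} (ht : 1 ≤ t) (h : Sys t Φ) : Measurable (rho t Φ) := by
  obtain ⟨K, hK⟩ := cf_coef0
  exact ((pk_meas h (hK _ (Real.one_le_sqrt.2 ht)).toCoef).norm.pow_const 2).div_const _

theorem rhoE_hom {t : ℝ} {Φ : ℤ → E → ℂ} (ht : 1 ≤ t) (h : Sys t Φ) : Hom (rhoE t Φ) :=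
  ⟨(rho_meas ht h).ennreal_ofReal, fun s M hs => by simp only [rhoE, rho, pk_hom _ h hs]⟩

theorem rho_act {t : ℝ} {Φ : ℤ → E → ℂ} (h : Sys t Φ) (γ : SL(2, ℤ)) (M : E) :
    rho t Φ (act γ M) = rho t Φ M := by
  simp only [rho, pk_inv _ h]

theorem rho_rot {t : ℝ} {Φ : ℤ → E → ℂ} (h : Sys t Φ) (h0 : Re0 Φ) {M : E} (hM : M ∈ Gp) :
    rho t Φ (rot (Real.pi / 2) M) = rho t Φ M := by
  have e : pk (cf (√t)) Φ (rot (Real.pi / 2) M) = (starRingEnd ℂ) (pk (cf (√t)) Φ M) := by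
    unfold pk
    rw [Complex.conj_tsum, ← (Equiv.neg ℤ).tsum_eq]
    refine tsum_congr fun m => ?_
    have e1 : Complex.exp (2 * ((-m : ℤ) : ℂ) * ((Real.pi / 2 : ℝ) : ℂ) * I) = (-1) ^ m := by
      rw [show (2 * ((-m : ℤ) : ℂ) * ((Real.pi / 2 : ℝ) : ℂ) * I) =
        (m : ℂ) * (-(Real.pi * I)) by push_cast; ring, Complex.exp_int_mul, Complex.exp_neg,
        Complex.exp_pi_mul_I]
      norm_num
    rw [Equiv.neg_apply, h.wt, e1, cf_neg, map_mul, conj_ofReal, conj_eq h h0 m hM]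
  simp only [rho, e, Complex.norm_conj]

end Pool.Agent.MP_a28cf0_nt.Four

namespace Pool.Agent.MP_a28cf0_nt.Four

open MeasureTheory Complex Filter Topology Set Pool.Agent.MP_a28cf0_nt.Cub
open scoped ENNReal MatrixGroups

/-- the parameter box with the degenerate angle removed -/
def chartwS : Set (Fin 4 → ℝ) :=
  {v | v 0 ∈ Ioo (-(Real.pi / 2)) (Real.pi / 2) \ {0} ∧ v 1 ∈ Icc (0 : ℝ) 1 ∧
    v 2 ∈ Icc (0 : ℝ) 1 ∧ v 3 ∈ Icc (1 : ℝ) 2}

theorem chartw_meas : MeasurableSet chartwS :=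
  (measurable_pi_apply 0 (measurableSet_Ioo.diff (measurableSet_singleton 0))).inter
    ((measurable_pi_apply 1 measurableSet_Icc).inter
      ((measurable_pi_apply 2 measurableSet_Icc).inter (measurable_pi_apply 3 measurableSet_Icc)))

theorem chartw_injOn : InjOn chartF chartwS := by
  intro v hv w hw h
  have a₁ := congrFun h 0
  have a₂ := congrFun h 1
  have a₃ := congrFun h 2
  have a₄ := congrFun h 3
  simp only [chartF, Matrix.cons_val_zero, Matrix.cons_val_one, Matrix.cons_val, neg_inj]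
    at a₁ a₂ a₃ a₄
  have hv0 : v 0 ∈ Ioo (-(Real.pi / 2)) (Real.pi / 2) := hv.1.1
  have hw0 : w 0 ∈ Ioo (-(Real.pi / 2)) (Real.pi / 2) := hw.1.1
  have hp := Real.pi_pos
  have hs : Real.sin (v 0) ≠ 0 := fun h0 =>
    hv.1.2 ((Real.sin_eq_zero_iff_of_lt_of_lt (by linarith [hv0.1]) (by linarith [hv0.2])).1 h0)
  obtain ⟨b₃, b₀, b₁, b₂⟩ := chart_inj_aux (one_pos.trans_le hv.2.2.2.1)
    (one_pos.trans_le hw.2.2.2.1) (Real.cos_pos_of_mem_Ioo hv0) (Real.cos_pos_of_mem_Ioo hw0)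
    hs (Real.sin_sq_add_cos_sq _) (Real.sin_sq_add_cos_sq _)
    (by rw [← Real.exp_add]; simp) (by rw [← Real.exp_add]; simp) (by rw [← Real.exp_add]; simp)
    (by rw [← Real.exp_add]; simp) (Real.exp_pos _) (Real.exp_pos _) a₁ a₂ a₃ a₄
  have c₀ : v 0 = w 0 := Real.injOn_sin (Ioo_subset_Icc_self hv0) (Ioo_subset_Icc_self hw0) b₀
  have c₁ := Real.exp_injective b₁
  have c₂ := Real.exp_injective b₂
  funext i
  fin_cases i
  · exact c₀
  · show v 1 = w 1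
    linarith
  · show v 2 = w 2
    linarith
  · exact b₃

theorem chartw_le (g : (Fin 4 → ℝ) → ℝ≥0∞) :
    ∫⁻ v in chartwS, ENNReal.ofReal |Real.sin (v 0) * Real.cos (v 0)| * g (chartF v) ≤
      ∫⁻ w, g w := by
  have key := lintegral_image_eq_lintegral_abs_det_fderiv_mul volume chartw_meas
    (fun v _ => (chart_hasFDerivAt v).hasFDerivWithinAt) chartw_injOn g
  calc ∫⁻ v in chartwS, ENNReal.ofReal |Real.sin (v 0) * Real.cos (v 0)| * g (chartF v)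
      ≤ ∫⁻ v in chartwS, ENNReal.ofReal |(chartD v).det| * g (chartF v) := by
        refine setLIntegral_mono' chartw_meas fun v hv => ?_
        refine mul_le_mul_left (ENNReal.ofReal_le_ofReal ?_) _
        rw [chart_det, abs_neg, abs_mul (8 * v 3 ^ 3)]
        have h3 : (1 : ℝ) ≤ v 3 ^ 3 := one_le_pow₀ hv.2.2.2.1
        have h8 : (1 : ℝ) ≤ |8 * v 3 ^ 3| := by
          rw [abs_of_nonneg (by linarith)]
          linarith
        exact le_mul_of_one_le_left (abs_nonneg _) h8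
    _ = ∫⁻ w in chartF '' chartwS, g w := key.symm
    _ ≤ ∫⁻ w, g w := setLIntegral_le_lintegral _ _

/-- the chart with the weight of its Jacobian -/
theorem chart_w {G : E → ℝ≥0∞} (hG : Measurable G) :
    ∫⁻ θ in Ioo (-(Real.pi / 2)) (Real.pi / 2), ∫⁻ a in Icc (0 : ℝ) 1, ∫⁻ b in Icc (0 : ℝ) 1,
      ∫⁻ s in Icc (1 : ℝ) 2, ENNReal.ofReal |Real.sin θ * Real.cos θ| *
        G (s • fl b (rot θ (fl (-a) one))) ≤ ∫⁻ M, G M := by
  have hF : Measurable chartF :=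
    (continuous_iff_continuousAt.2 fun v => (chart_hasFDerivAt v).continuousAt).measurable
  have hg : Measurable fun v : Fin 4 → ℝ =>
      ENNReal.ofReal |Real.sin (v 0) * Real.cos (v 0)| * G (chartP (chartF v)) :=
    Measurable.mul (by fun_prop) (hG.comp (chart_measurable_P.comp hF))
  have hy : Measurable fun y => ENNReal.ofReal |Real.sin (chartE y 0) * Real.cos (chartE y 0)| *
      G (chartP (chartF (chartE y))) := hg.comp chart_measurable_E
  have key := chartw_le fun w => G (chartP w)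
  rw [chart_lintegral_P hG, ← chart_mp_E.setLIntegral_comp_preimage chartw_meas hg] at key
  refine le_of_eq_of_le ?_ key
  have hS : chartE ⁻¹' chartwS =
      ((Ioo (-(Real.pi / 2)) (Real.pi / 2) \ {0}) ×ˢ Icc (0 : ℝ) 1) ×ˢ
        (Icc (0 : ℝ) 1 ×ˢ Icc (1 : ℝ) 2) := by
    ext y
    simp only [chartE, chartwS, mem_preimage, mem_ofPred_eq, mem_prod, Matrix.cons_val_zero,
      Matrix.cons_val_one, Matrix.cons_val, and_assoc]
  rw [hS, Measure.volume_eq_prod, ← Measure.prod_restrict, lintegral_prod _ hy.aemeasurable,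
    Measure.volume_eq_prod, ← Measure.prod_restrict, ← Measure.prod_restrict,
    lintegral_prod _ hy.lintegral_prod_right'.aemeasurable,
    Measure.restrict_congr_set (sdiff_null_ae_eq_self (measure_singleton (0 : ℝ)))]
  refine lintegral_congr fun θ => lintegral_congr fun a => ?_
  rw [lintegral_prod (fun y => ENNReal.ofReal
      |Real.sin (chartE ((θ, a), y) 0) * Real.cos (chartE ((θ, a), y) 0)| *
      G (chartP (chartF (chartE ((θ, a), y)))))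
    (hy.comp measurable_prodMk_left).aemeasurable]
  simp only [chart_eq]
  rfl

theorem chartw_fl {a ρ : ℝ} (ha : a ∈ Icc (0 : ℝ) 1) {M : E} (hM : ‖M‖ ≤ ρ) :
    ‖fl a M‖ ≤ 3 * ρ := by
  have h1 : Real.exp |a| ≤ 3 := by
    rw [abs_of_nonneg ha.1]
    exact (Real.exp_le_exp.2 ha.2).trans (Real.exp_one_lt_d9.le.trans (by norm_num))
  exact (norm_fl_le a M).trans (mul_le_mul h1 hM (norm_nonneg _) (by norm_num))

/-- the chart applied at a point of the shell -/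
theorem chartw_key {ρ : ℝ} {G₁ : E → ℝ≥0∞} (mG₁ : Hom G₁) {M : E} (hM : M ∈ Sh) :
    ∫⁻ θ in Ioo (-(Real.pi / 2)) (Real.pi / 2), ENNReal.ofReal |Real.sin θ * Real.cos θ| *
      ∫⁻ a in Icc (0 : ℝ) 1, bilF (Bl ρ) G₁ θ a M ≤
      (Metric.closedBall (0 : E) (6 * ρ)).indicator
        (fun _ => (nu.withDensity G₁) (Metric.closedBall 0 (6 * ρ))) M := by
  have hZ : MeasurableSet (Metric.closedBall (0 : E) (6 * ρ)) := measurableSet_closedBall
  by_cases hMB : M ∈ Metric.closedBall (0 : E) (6 * ρ)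
  swap
  · have h0 : ∀ θ, ∫⁻ a in Icc (0 : ℝ) 1, bilF (Bl ρ) G₁ θ a M = 0 := by
      intro θ
      rw [setLIntegral_congr_fun measurableSet_Icc (g := fun _ => 0), lintegral_zero]
      intro a ha
      refine Set.indicator_of_notMem (fun hq => hMB ?_) _
      have h1 : ‖fl (-a) M‖ ≤ ρ := mem_closedBall_zero_iff.1 hq.2
      have h2 := chartw_fl ha h1
      rw [fl_fl, add_neg_cancel, fl_zero] at h2
      rw [mem_closedBall_zero_iff]
      linarith [norm_nonneg (fl (-a) M)]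
    simp only [h0, mul_zero, lintegral_zero]
    exact zero_le
  rw [Set.indicator_of_mem hMB]
  obtain ⟨hM1, hM4⟩ := hM
  set r := √(dt M) with hr
  have hr2 : r ^ 2 = dt M := Real.sq_sqrt (by linarith)
  have hr1 : 1 ≤ r := Real.one_le_sqrt.mpr hM1
  have hr0 : 0 < r := by linarith
  set g : E := r⁻¹ • M with hg
  have hdg : dt g = 1 := by
    rw [hg, dt_smul, ← hr2]; field_simp
  set Gz : E → ℝ≥0∞ := (Metric.closedBall (0 : E) (6 * ρ) ∩ Sh).indicator G₁ with hGz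
  have mGz : Measurable Gz := mG₁.1.indicator (hZ.inter measurableSet_Sh)
  have hc := chart_w (G := fun N => Gz (mul g N)) (mGz.comp (mp_mul hdg).measurable)
  rw [(mp_mul hdg).lintegral_comp mGz, hGz, lintegral_indicator (hZ.inter measurableSet_Sh)] at hc
  rw [withDensity_apply _ hZ, nu, Measure.restrict_restrict hZ]
  refine le_trans ?_ hc
  refine setLIntegral_mono' measurableSet_Ioo fun θ _ => ?_
  rw [← lintegral_const_mul' _ _ ENNReal.ofReal_ne_top]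
  refine setLIntegral_mono' measurableSet_Icc fun a _ => ?_
  unfold bilF
  by_cases hq : fl (-a) M ∈ Bl ρ
  · rw [Set.indicator_of_mem hq, ← lintegral_const_mul' _ _ ENNReal.ofReal_ne_top]
    refine setLIntegral_mono' measurableSet_Icc fun b hb => ?_
    have e1 : ∀ x : ℝ≥0∞, x = ∫⁻ _ in Icc (1 : ℝ) 2, x := by
      intro x
      rw [setLIntegral_const, Real.volume_Icc]
      norm_num
    refine (e1 _).le.trans ?_
    refine setLIntegral_mono' measurableSet_Icc fun s hs => ?_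
    have e2 : mul g (s • fl b (rot θ (fl (-a) one))) =
        (s * r⁻¹) • fl b (rot θ (fl (-a) M)) := by
      rw [mul_smul', mul_fl, mul_rot, mul_fl, mul_one', hg, fl_smul, rot_smul, fl_smul, smul_smul]
    have hsr : 0 < s * r⁻¹ := mul_pos (by linarith [hs.1]) (inv_pos.mpr hr0)
    have hsr2 : s * r⁻¹ ≤ 2 := by
      rw [← div_eq_mul_inv, div_le_iff₀ hr0]; linarith [hs.2]
    have hmem : (s * r⁻¹) • fl b (rot θ (fl (-a) M)) ∈
        Metric.closedBall (0 : E) (6 * ρ) ∩ Sh := by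
      refine ⟨?_, ?_⟩
      · have h1 : ‖rot θ (fl (-a) M)‖ ≤ ρ := by
          rw [norm_rot]; exact mem_closedBall_zero_iff.1 hq.2
        have h2 := chartw_fl hb h1
        rw [mem_closedBall_zero_iff, norm_smul, Real.norm_eq_abs, abs_of_pos hsr]
        calc _ ≤ 2 * (3 * ρ) := mul_le_mul hsr2 h2 (norm_nonneg _) (by norm_num)
          _ = 6 * ρ := by ring
      · have e3 : dt ((s * r⁻¹) • fl b (rot θ (fl (-a) M))) = s ^ 2 := by
          rw [dt_smul, dt_fl, dt_rot, dt_fl, ← hr2]; field_simp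
        constructor
        · rw [e3]; nlinarith [hs.1]
        · rw [e3]; nlinarith [hs.1, hs.2]
    rw [e2, Set.indicator_of_mem hmem, mG₁.2 _ _ hsr]
  · rw [Set.indicator_of_notMem hq, mul_zero]
    exact zero_le

/-- the weighted bilinear estimate -/
theorem bilw {ρ : ℝ} {G₁ G₃ H₁ H₃ : E → ℝ≥0∞} (mG₁ : Hom G₁) (mG₃ : Measurable G₃)
    (b₁ : ∀ M ∈ Gp, H₁ M ≤ 2 * ∫⁻ b in Icc (0 : ℝ) 1, G₁ (fl b M))
    (b₃ : ∀ M ∈ Gp, H₃ M ≤ 2 * ∫⁻ a in Icc (0 : ℝ) 1, G₃ (fl a M)) :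
    ∫⁻ θ in Ioo (-(Real.pi / 2)) (Real.pi / 2), ENNReal.ofReal |Real.sin θ * Real.cos θ| *
      ∫⁻ M in Bl ρ, H₁ (rot θ M) * H₃ M ∂nu ≤
      4 * ((nu.withDensity G₃) (Metric.closedBall 0 (6 * ρ)) *
        (nu.withDensity G₁) (Metric.closedBall 0 (6 * ρ))) := by
  have hQm : MeasurableSet (Bl ρ) := measurableSet_Bl ρ
  have hZ : MeasurableSet (Metric.closedBall (0 : E) (6 * ρ)) := measurableSet_closedBall
  have mW : Measurable fun θ : ℝ => ENNReal.ofReal |Real.sin θ * Real.cos θ| := by fun_prop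
  have mA : Measurable fun p : ℝ × E => ∫⁻ a in Icc (0 : ℝ) 1, bilF (Bl ρ) G₁ p.1 a p.2 := by
    have h : Measurable fun q : (ℝ × E) × ℝ => bilF (Bl ρ) G₁ q.1.1 q.2 q.1.2 :=
      bil_meas hQm mG₁.1 measurable_fst.fst measurable_snd measurable_fst.snd
    exact h.lintegral_prod_right'
  have mA' : ∀ M : E, Measurable fun θ : ℝ => ENNReal.ofReal |Real.sin θ * Real.cos θ| *
      ∫⁻ a in Icc (0 : ℝ) 1, bilF (Bl ρ) G₁ θ a M := by
    intro M
    have h : Measurable fun q : ℝ × ℝ => bilF (Bl ρ) G₁ q.1 q.2 M :=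
      bil_meas hQm mG₁.1 measurable_fst measurable_snd measurable_const
    exact mW.mul h.lintegral_prod_right'
  have mW' : Measurable fun p : ℝ × E => ENNReal.ofReal |Real.sin p.1 * Real.cos p.1| := by
    fun_prop
  have mB : Measurable fun p : ℝ × E => G₃ p.2 * (ENNReal.ofReal |Real.sin p.1 * Real.cos p.1| *
      ∫⁻ a in Icc (0 : ℝ) 1, bilF (Bl ρ) G₁ p.1 a p.2) :=
    (mG₃.comp measurable_snd).mul (mW'.mul mA)
  calc ∫⁻ θ in Ioo (-(Real.pi / 2)) (Real.pi / 2), ENNReal.ofReal |Real.sin θ * Real.cos θ| *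
        ∫⁻ M in Bl ρ, H₁ (rot θ M) * H₃ M ∂nu
      ≤ ∫⁻ θ in Ioo (-(Real.pi / 2)) (Real.pi / 2), 4 * ∫⁻ M, G₃ M *
          (ENNReal.ofReal |Real.sin θ * Real.cos θ| *
            ∫⁻ a in Icc (0 : ℝ) 1, bilF (Bl ρ) G₁ θ a M) ∂nu := by
        refine lintegral_mono fun θ => ?_
        refine (mul_le_mul_right
          (bil_angle (isCompact_Bl ρ) inter_subset_left mG₁.1 mG₃ b₁ b₃ θ) _).trans (le_of_eq ?_)
        rw [mul_left_comm, ← lintegral_const_mul' _ _ ENNReal.ofReal_ne_top]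
        refine congrArg _ (lintegral_congr fun M => mul_left_comm _ _ _)
    _ = 4 * ∫⁻ M, ∫⁻ θ in Ioo (-(Real.pi / 2)) (Real.pi / 2), G₃ M *
          (ENNReal.ofReal |Real.sin θ * Real.cos θ| *
            ∫⁻ a in Icc (0 : ℝ) 1, bilF (Bl ρ) G₁ θ a M) ∂volume ∂nu := by
        rw [lintegral_const_mul' _ _ (by norm_num), lintegral_lintegral_swap
          (f := fun θ M => G₃ M * (ENNReal.ofReal |Real.sin θ * Real.cos θ| *
            ∫⁻ a in Icc (0 : ℝ) 1, bilF (Bl ρ) G₁ θ a M)) mB.aemeasurable]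
    _ ≤ _ := by
        refine mul_le_mul_right ?_ _
        rw [withDensity_apply G₃ hZ, ← lintegral_mul_const _ mG₃, ← lintegral_indicator hZ]
        refine lintegral_mono_ae (ae_mem_Sh.mono fun M hM => ?_)
        rw [lintegral_const_mul _ (mA' M)]
        refine (mul_le_mul_right (chartw_key mG₁ hM) _).trans (le_of_eq ?_)
        by_cases hB : M ∈ Metric.closedBall (0 : E) (6 * ρ)
        · rw [Set.indicator_of_mem hB, Set.indicator_of_mem hB]
        · rw [Set.indicator_of_notMem hB, Set.indicator_of_notMem hB, mul_zero]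

end Pool.Agent.MP_a28cf0_nt.Four

namespace Pool.Agent.MP_a28cf0_nt.Four

open MeasureTheory Complex Filter Topology Set Pool.Agent.MP_a28cf0_nt.Cub
open scoped ENNReal MatrixGroups

theorem lim4_le {t : ℝ} (ht : 1 ≤ t) (Φ : ℤ → E → ℂ) :
    nu.withDensity (rhoE t Φ) ≤ lift t (cf (√t)) Φ := by
  refine withDensity_mono (Eventually.of_forall fun M => ?_)
  refine ENNReal.ofReal_le_ofReal ((rho_le ht Φ M).trans ?_)
  gcongr
  exact le_add_of_nonneg_right (sq_nonneg _)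

theorem rho_fin {t : ℝ} {Φ : ℤ → E → ℂ} (ht : 1 ≤ t) (h : Sys t Φ) :
    IsFiniteMeasureOnCompacts (nu.withDensity (rhoE t Φ)) := by
  obtain ⟨K, hK⟩ := cf_coef0
  have hf := lift_fin ht h (hK _ (Real.one_le_sqrt.2 ht))
  exact ⟨fun Q hQ => (lim4_le ht Φ Q).trans_lt hQ.measure_lt_top⟩

theorem integral_rho {t : ℝ} {Φ : ℤ → E → ℂ} (ht : 1 ≤ t) (h : Sys t Φ) (φ : E → ℝ) :
    ∫ M, φ M ∂(nu.withDensity (rhoE t Φ)) = ∫ M, φ M * rho t Φ M ∂nu := by
  rw [integral_withDensity_eq_integral_toReal_smul (rhoE_hom ht h).1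
    (Eventually.of_forall fun M => ENNReal.ofReal_lt_top)]
  refine integral_congr_ae (Eventually.of_forall fun M => ?_)
  simp only [rhoE, smul_eq_mul]
  rw [ENNReal.toReal_ofReal (rho_nonneg t Φ M), mul_comm]

theorem lim4_div (t : ℝ) (Φ : ℤ → E → ℂ) (φ : E → ℝ) :
    ∫ M, φ M * rho t Φ M ∂nu = (∫ M, φ M * ‖pk (cf (√t)) Φ M‖ ^ 2 ∂nu) / cs (√t) := by
  rw [← integral_div]
  refine integral_congr_ae (Eventually.of_forall fun M => ?_)
  simp only [rho]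
  ring

theorem lim4_orth {φ : E → ℝ} (hφ : Test fun M => (φ M : ℂ))
    (hr : ∀ θ : ℝ, ∀ M ∈ Gp, φ (rot θ M) = φ M) {t : ℝ} {Φ : ℤ → E → ℂ} (h : Sys t Φ)
    (S : Finset ℤ) (d : ℤ → ℝ) :
    ∫ M, φ M * ‖∑ n ∈ S, (d n : ℂ) * Φ n M‖ ^ 2 ∂nu =
      ∑ n ∈ S, d n ^ 2 * ∫ M, φ M * ‖Φ n M‖ ^ 2 ∂nu := by
  classical
  have hw : ∀ᵐ M ∂nu, Gp.indicator φ M = φ M := by
    filter_upwards [ae_mem_Sh] with M hM
    exact indicator_of_mem (Sh_subset hM) φ
  have e : ∀ F : E → ℝ, ∫ M, φ M * F M ∂nu = ∫ M, Gp.indicator φ M * F M ∂nu := fun F => by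
    refine integral_congr_ae ?_
    filter_upwards [hw] with M hM
    rw [hM]
  rw [e, orth S (fun n M => (d n : ℂ) * Φ n M) (fun n _ θ M => ?_) (Gp.indicator φ)
    (fun θ M => ?_) fun n _ k _ => ?_]
  · refine Finset.sum_congr rfl fun n _ => ?_
    rw [← e, ← integral_const_mul]
    refine integral_congr_ae (Eventually.of_forall fun M => ?_)
    simp only [norm_mul, Complex.norm_real, Real.norm_eq_abs, mul_pow, sq_abs]
    ring
  · rw [h.wt]
    ring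
  · by_cases hM : M ∈ Gp
    · rw [indicator_of_mem hM, indicator_of_mem ((rot_mem_Gp θ M).2 hM), hr θ M hM]
    · rw [indicator_of_notMem hM, indicator_of_notMem fun h' => hM ((rot_mem_Gp θ M).1 h')]
  · have hi := inv_int hφ (g := fun M => (d n : ℂ) * Φ n M * (starRingEnd ℂ) ((d k : ℂ) * Φ k M))
      ((continuousOn_const.mul (h.cont n)).mul (inv_conj0 (continuousOn_const.mul (h.cont k))))
    refine hi.congr ?_
    filter_upwards [hw] with M hM
    rw [hM]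

/-- the lift has the same projection as the eigenfunction -/
theorem rho_mass {φ : E → ℝ} (hφ : Test fun M => (φ M : ℂ))
    (hr : ∀ θ : ℝ, ∀ M ∈ Gp, φ (rot θ M) = φ M) : ∃ C : ℝ, ∀ (t : ℝ) (Φ : ℤ → E → ℂ),
    1 ≤ t → Sys t Φ →
    |(∫ M, φ M * rho t Φ M ∂nu) - ∫ M, φ M * ‖Φ 0 M‖ ^ 2 ∂nu| ≤ C / √t := by
  obtain ⟨K, hK⟩ := cf_coef0
  obtain ⟨C, hC⟩ := l2_drift hφ K
  refine ⟨|C|, fun t Φ ht h => ?_⟩
  have hst : 1 ≤ √t := Real.one_le_sqrt.2 ht
  have hc := (hK _ hst).toCoef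
  set L : ℕ := ⌈K * √t⌉₊ with hL
  have hL1 : K * √t ≤ L := Nat.le_ceil _
  set S := Finset.Icc (-(L : ℤ)) L with hS
  set J : ℤ → ℝ := fun n => ∫ M, φ M * ‖Φ n M‖ ^ 2 ∂nu with hJ
  have hcs : cs (√t) = ∑ n ∈ S, cf (√t) n ^ 2 := by
    unfold cs
    refine tsum_eq_sum fun n hn => ?_
    rw [packet_zero hc hL1 hn]
    simp
  have hpos : 0 < cs (√t) := lt_of_lt_of_le (by linarith) (cs_bounds hst).1
  have e₁ : ∫ M, φ M * rho t Φ M ∂nu = (∑ n ∈ S, cf (√t) n ^ 2 * J n) / cs (√t) := by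
    rw [lim4_div]
    simp only [pk_eq_sum hc hL1]
    rw [lim4_orth hφ hr h]
  have e₂ : (∑ n ∈ S, cf (√t) n ^ 2 * J n) / cs (√t) - J 0 =
      (∑ n ∈ S, cf (√t) n ^ 2 * (J n - J 0)) / cs (√t) := by
    simp only [mul_sub, Finset.sum_sub_distrib, ← Finset.sum_mul, ← hcs]
    field_simp
  have e₃ : ∀ n ∈ S, |cf (√t) n ^ 2 * (J n - J 0)| ≤ cf (√t) n ^ 2 * (|C| / √t) := by
    intro n _
    rcases le_total (K * √t) |(n : ℝ)| with hn | hn
    · rw [hc.supp n hn]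
      simp
    · have a₂ := hC t Φ ht h n hn
      rw [lim_cast, lim_cast, ← Complex.ofReal_sub, Complex.norm_real, Real.norm_eq_abs] at a₂
      have a₄ : C / √t ≤ |C| / √t := by gcongr; exact le_abs_self C
      rw [abs_mul, abs_of_nonneg (sq_nonneg _)]
      exact mul_le_mul_of_nonneg_left (a₂.trans a₄) (sq_nonneg _)
  rw [e₁]
  change |_ - J 0| ≤ _
  rw [e₂, abs_div, abs_of_pos hpos, div_le_iff₀ hpos]
  refine (Finset.abs_sum_le_sum_abs _ _).trans ((Finset.sum_le_sum e₃).trans ?_)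
  rw [← Finset.sum_mul, ← hcs, mul_comm]

theorem lim4_flow {𝒰 : Ultrafilter ℕ} {t : ℕ → ℝ} {Φ : ℕ → ℤ → E → ℂ} (h1 : ∀ j, 1 ≤ t j)
    (ht : Tendsto t 𝒰 atTop) (hS : ∀ j, Sys (t j) (Φ j)) {μ : Measure E}
    (hv : Vague 𝒰 (fun j => nu.withDensity (rhoE (t j) (Φ j))) μ) {φ : E → ℝ}
    (hs : ContDiff ℝ (⊤ : ℕ∞) φ) (hk : HasCompactSupport φ) :
    ∫ M, fderiv ℝ φ M (star M) ∂μ = 0 := by
  obtain ⟨K, hK⟩ := cf_coef0
  obtain ⟨C, hC⟩ := X1_small (lim_test hs.contDiffOn hk) K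
  have hψc : Continuous fun M : E => fderiv ℝ φ M (star M) :=
    (hs.continuous_fderiv (by simp)).clm_apply continuous_star
  have hψk : HasCompactSupport fun M : E => fderiv ℝ φ M (star M) := by
    refine (hk.fderiv (𝕜 := ℝ)).mono fun M hM => ?_
    intro h0
    apply hM
    simp only [h0, zero_apply]
  refine tendsto_nhds_unique (hv _ hψc hψk) ?_
  refine squeeze_zero_norm (a := fun j => C / √(t j)) (fun j => ?_) (lim_div ht C)
  have hst : 1 ≤ √(t j) := Real.one_le_sqrt.2 (h1 j)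
  have a₁ := hC _ _ _ (h1 j) (hS j) (hK _ hst).toCoef
  simp only [lim_X1 hs, lim_cast, Complex.norm_real] at a₁
  have hcs := (cs_bounds hst).1
  rw [integral_rho (h1 j) (hS j), lim4_div, norm_div,
    Real.norm_of_nonneg (show 0 ≤ cs (√(t j)) by linarith)]
  exact div_le_div₀ ((norm_nonneg _).trans a₁) a₁ (by linarith) hcs

theorem lim4_inv {𝒰 : Ultrafilter ℕ} {t : ℕ → ℝ} {Φ : ℕ → ℤ → E → ℂ} (h1 : ∀ j, 1 ≤ t j)
    (hS : ∀ j, Sys (t j) (Φ j)) {μ : Measure E}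
    (hv : Vague 𝒰 (fun j => nu.withDensity (rhoE (t j) (Φ j))) μ) {T T' : E → E}
    (hT : Continuous T) (hT' : Continuous T') (a₁ : ∀ M, T' (T M) = M) (a₂ : ∀ M, T (T' M) = M)
    (hm : MeasurePreserving T nu nu)
    (hi : ∀ j, ∀ M ∈ Gp, rho (t j) (Φ j) (T M) = rho (t j) (Φ j) M) {φ : E → ℝ}
    (hs : Continuous φ) (hk : HasCompactSupport φ) :
    ∫ M, φ (T M) ∂μ = ∫ M, φ M ∂μ := by
  let e : E ≃ₜ E :=
    { toFun := T
      invFun := T'
      left_inv := a₁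
      right_inv := a₂
      continuous_toFun := hT
      continuous_invFun := hT' }
  have hk' : HasCompactSupport fun M => φ (T M) := hk.comp_homeomorph e
  have b₁ := hv _ (hs.comp hT) hk'
  have b₂ := hv _ hs hk
  refine tendsto_nhds_unique b₁ (b₂.congr fun j => ?_)
  rw [integral_rho (h1 j) (hS j), integral_rho (h1 j) (hS j),
    ← hm.integral_comp (me_of_inv hT hT' a₁ a₂)]
  refine integral_congr_ae ?_
  filter_upwards [ae_mem_Sh] with M hM
  simp only [hi j M (Sh_subset hM), Function.comp]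

theorem lim4_fd {𝒰 : Ultrafilter ℕ} {t : ℕ → ℝ} {Φ : ℕ → ℤ → E → ℂ} (h1 : ∀ j, 1 ≤ t j)
    (ht : Tendsto t 𝒰 atTop) (hS : ∀ j, Sys (t j) (Φ j)) {μ : Measure E}
    (hμ : IsFiniteMeasureOnCompacts μ)
    (hv : Vague 𝒰 (fun j => nu.withDensity (rhoE (t j) (Φ j))) μ) : μ Fe < ⊤ := by
  let P : ℕ → Set E := fun n => {M | M ∈ Fe ∧ 2 ≤ (pr M).im ∧ ‖M‖ ≤ n}
  have hP : ∀ n, μ (P n) ≤ ENNReal.ofReal (300 + 0) := by
    intro n
    obtain ⟨φ, hc0, hd, hk, h01, hr, hone, hs⟩ := lim_cut n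
    obtain ⟨C, hC⟩ := rho_mass (lim_test hd hk) fun θ M _ => hr θ M
    have a₁ : ∫ M, φ M ∂μ ≤ 300 + 0 := by
      refine le_of_tendsto_of_tendsto' (hv φ hc0 hk) ((lim_div ht C).const_add 300) fun j => ?_
      rw [integral_rho (h1 j) (hS j)]
      have b₁ := (abs_le.1 (hC _ _ (h1 j) (hS j))).2
      have b₂ := lim_strip (hS j) hc0.continuousOn hk h01 hs
      linarith
    have a₂ : Integrable φ μ := hc0.integrable_of_hasCompactSupport hk
    have a₃ := mul_meas_ge_le_lintegral₀ (μ := μ) (f := fun M => ENNReal.ofReal (φ M))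
      hc0.measurable.ennreal_ofReal.aemeasurable 1
    rw [one_mul, ← ofReal_integral_eq_lintegral_ofReal a₂
      (Eventually.of_forall fun M => (h01 M).1)] at a₃
    refine le_trans (measure_mono fun M hM => ?_) (a₃.trans (ENNReal.ofReal_le_ofReal a₁))
    simp [hone M hM.1 hM.2.1 hM.2.2]
  have hmono : Monotone P := fun a b hab M hM =>
    ⟨hM.1, hM.2.1, hM.2.2.trans (Nat.cast_le.2 hab)⟩
  have hU : μ (⋃ n, P n) ≤ ENNReal.ofReal (300 + 0) := by
    rw [hmono.measure_iUnion]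
    exact iSup_le hP
  have hsub : Fe ⊆ Metric.closedBall 0 8 ∪ ⋃ n, P n := by
    intro M hM
    rcases le_total (pr M).im 2 with h | h
    · exact Or.inl (mem_closedBall_zero_iff.2 (lim_low hM h))
    · exact Or.inr (mem_iUnion.2 ⟨⌈‖M‖⌉₊, hM, h, Nat.le_ceil _⟩)
  refine (measure_mono hsub).trans_lt ((measure_union_le _ _).trans_lt ?_)
  exact ENNReal.add_lt_top.2 ⟨(isCompact_closedBall _ _).measure_lt_top,
    hU.trans_lt ENNReal.ofReal_lt_top⟩

theorem exists_limit4 (𝒰 : Ultrafilter ℕ) (t : ℕ → ℝ) (Φ : ℕ → ℤ → E → ℂ) (h1 : ∀ j, 1 ≤ t j)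
    (ht : Tendsto t 𝒰 atTop) (hS : ∀ j, Sys (t j) (Φ j)) (h0 : ∀ j, Re0 (Φ j)) :
    ∃ μ : Measure E, Good μ ∧ μ.map (rot (Real.pi / 2)) = μ ∧
      Vague 𝒰 (fun j => nu.withDensity (rhoE (t j) (Φ j))) μ := by
  obtain ⟨K, hK⟩ := cf_coef0
  obtain ⟨μ, hμ, hv⟩ := exists_vague 𝒰 (fun j => nu.withDensity (rhoE (t j) (Φ j)))
    (fun j => rho_fin (h1 j) (hS j)) fun ρ => by
      obtain ⟨C, hC⟩ := lift_bound ρ K
      exact ⟨C, fun j => (lim4_le (h1 j) (Φ j) _).trans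
        (hC _ _ _ (h1 j) (hS j) (hK _ (Real.one_le_sqrt.2 (h1 j))))⟩
  have hc : ∀ θ, Continuous (rot θ) := fun θ => (contDiff_rot θ (n := 0)).continuous
  have r₁ : ∀ M, rot (-(Real.pi / 2)) (rot (Real.pi / 2) M) = M := fun M => by
    rw [rot_rot, neg_add_cancel, rot_zero]
  have r₂ : ∀ M, rot (Real.pi / 2) (rot (-(Real.pi / 2)) M) = M := fun M => by
    rw [rot_rot, add_neg_cancel, rot_zero]
  refine ⟨μ, ⟨hμ, vague_null hμ hv isClosed_Sh fun j => dens_conc _, fun γ => ?_, fun s => ?_,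
    lim4_fd h1 ht hS hμ hv⟩, ?_, hv⟩
  · refine act_inv_of hμ γ fun φ hs hk => ?_
    refine lim4_inv h1 hS hv (continuous_act γ) (continuous_act γ⁻¹) (fun M => ?_) (fun M => ?_)
      (mp_act γ) (fun j M _ => rho_act (hS j) γ M) hs hk
    · rw [← act_mul, inv_mul_cancel, act_one]
    · rw [← act_mul, mul_inv_cancel, act_one]
  · exact flow_inv_of hμ (fun φ hs hk => lim4_flow h1 ht hS hv hs hk) s
  · refine ext_smooth (vague_map_fin hμ (hc _) (hc _) r₁) hμ fun φ hs hk => ?_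
    rw [(me_rot _).integral_map]
    exact lim4_inv h1 hS hv (hc _) (hc _) r₁ r₂ (mp_rot _)
      (fun j M hM => rho_rot (hS j) (h0 j) hM) hs.continuous hk

theorem lim4_cut {φ : E → ℝ} (hc : ContinuousOn φ Gp) (hv : Van fun M => (φ M : ℂ)) :
    ∃ ψ : E → ℝ, Continuous ψ ∧ HasCompactSupport ψ ∧ ∀ M ∈ Sh, ψ M = φ M := by
  obtain ⟨ρ, hρ⟩ := hv
  let η : ℝ → ℝ := fun x => max 0 (min 1 (min (4 * x - 3) (9 - 2 * x)))
  have hη : Continuous η := by fun_prop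
  have z₁ : ∀ x, x ≤ 3 / 4 → η x = 0 := fun x hx =>
    max_eq_left ((min_le_right _ _).trans ((min_le_left _ _).trans (by linarith)))
  have z₂ : ∀ x, 9 / 2 ≤ x → η x = 0 := fun x hx =>
    max_eq_left ((min_le_right _ _).trans ((min_le_right _ _).trans (by linarith)))
  refine ⟨fun M => η (dt M) * φ M, ?_, ?_, fun M hM => ?_⟩
  · rw [continuous_iff_continuousAt]
    intro M
    by_cases hM : M ∈ Gp
    · exact ((hη.comp continuous_dt).continuousOn.mul hc).continuousAt (isOpen_Gp.mem_nhds hM)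
    · have hM' : dt M < 3 / 4 := by
        have : ¬ 0 < dt M := hM
        linarith [not_lt.1 this]
      have : (fun M => η (dt M) * φ M) =ᶠ[𝓝 M] fun _ => 0 := by
        filter_upwards [(isOpen_lt continuous_dt continuous_const).mem_nhds hM'] with N hN
        have hN' : dt N < 3 / 4 := hN
        rw [z₁ _ hN'.le, zero_mul]
      exact continuousAt_const.congr this.symm
  · refine HasCompactSupport.intro (isCompact_closedBall (0 : E) ρ) fun M hM => ?_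
    rw [mem_closedBall_zero_iff, not_le] at hM
    rcases le_or_gt (dt M) (3 / 4) with a₁ | a₁
    · rw [z₁ _ a₁, zero_mul]
    rcases le_or_gt (9 / 2) (dt M) with a₂ | a₂
    · rw [z₂ _ a₂, zero_mul]
    have := hρ M (by linarith) (by linarith) hM
    rw [Complex.ofReal_eq_zero.1 this, mul_zero]
  · have : η (dt M) = 1 := by
      have a₁ := hM.1
      have a₂ := hM.2
      have a₃ : min 1 (min (4 * dt M - 3) (9 - 2 * dt M)) = 1 :=
        min_eq_left (le_min (by linarith) (by linarith))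
      simp only [η, a₃]
      exact max_eq_right zero_le_one
    simp only [this, one_mul]

theorem lim4_congr {μ : Measure E} (hμ : μ Shᶜ = 0) {φ ψ : E → ℝ} (h : ∀ M ∈ Sh, ψ M = φ M) :
    ∫ M, ψ M ∂μ = ∫ M, φ M ∂μ := by
  refine integral_congr_ae ?_
  filter_upwards [mem_ae_iff.2 hμ] with M hM
  exact h M hM

theorem vague_van {l : Filter ℕ} {ν : ℕ → Measure E} {μ : Measure E} (hν : ∀ j, ν j Shᶜ = 0)
    (hμ : μ Shᶜ = 0) (h : Vague l ν μ) {φ : E → ℝ} (hc : ContinuousOn φ Gp)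
    (hv : Van fun M => (φ M : ℂ)) :
    Tendsto (fun j => ∫ M, φ M ∂(ν j)) l (𝓝 (∫ M, φ M ∂μ)) := by
  obtain ⟨ψ, h1, h2, h3⟩ := lim4_cut hc hv
  rw [← lim4_congr hμ h3]
  exact (h ψ h1 h2).congr fun j => lim4_congr (hν j) h3

theorem vagueH_of {l : Filter ℕ} {ν : ℕ → Measure E} {μ : Measure E} (hν : ∀ j, ν j Shᶜ = 0)
    (hμ : μ Shᶜ = 0) (h : Vague l ν μ) : VagueH l ν μ := by
  intro φ hc hk
  obtain ⟨ρ, hρ⟩ := lim_ball hk
  refine vague_van hν hμ h (hc.comp_continuousOn continuousOn_nrm) ⟨3 * |ρ|, fun M a₁ a₂ a₃ => ?_⟩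
  have hM : M ∈ Gp := show 0 < dt M by linarith
  have b₁ : ‖M‖ = √(dt M) * ‖nrm M‖ := by
    conv_lhs => rw [← smul_nrm hM]
    rw [norm_smul, Real.norm_of_nonneg (Real.sqrt_nonneg _)]
  have b₂ : √(dt M) ≤ 3 := Real.sqrt_le_iff.2 ⟨by norm_num, by linarith⟩
  have b₃ : ρ < ‖nrm M‖ := by
    have := le_abs_self ρ
    nlinarith [norm_nonneg (nrm M)]
  simp only [hρ _ b₃, Complex.ofReal_zero]

theorem lim4_map_fin {μ : Measure E} (hf : IsFiniteMeasureOnCompacts μ) (hμ : μ Shᶜ = 0) :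
    IsFiniteMeasureOnCompacts (μ.map nrm) := by
  refine ⟨fun Q hQ => ?_⟩
  obtain ⟨ρ, hρ⟩ := hQ.isBounded.subset_closedBall (0 : E)
  rw [Measure.map_apply measurable_nrm hQ.measurableSet]
  have hsub : nrm ⁻¹' Q ⊆ Metric.closedBall 0 (2 * ρ) ∪ Shᶜ := by
    intro M hM
    by_cases hS : M ∈ Sh
    · have := mem_closedBall_zero_iff.1 (hρ hM)
      exact Or.inl (mem_closedBall_zero_iff.2 (by linarith [(norm_nrm_le hS).2]))
    · exact Or.inr hS
  refine (measure_mono hsub).trans_lt ((measure_union_le _ _).trans_lt ?_)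
  rw [hμ, add_zero]
  exact (isCompact_closedBall _ _).measure_lt_top

theorem lim4_prod {μ : Measure E} (hf : IsFiniteMeasureOnCompacts μ) :
    (μ.map nrm).prod (μ.map nrm) = (μ.prod μ).map (Prod.map nrm nrm) :=
  Measure.map_prod_map μ μ measurable_nrm measurable_nrm

theorem lim4_prod_int {μ : Measure E} (hf : IsFiniteMeasureOnCompacts μ) {κ : E × E → ℝ}
    (hc : Continuous κ) :
    ∫ P, κ P ∂((μ.map nrm).prod (μ.map nrm)) = ∫ P, κ (nrm P.1, nrm P.2) ∂(μ.prod μ) := by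
  rw [lim4_prod hf, integral_map (measurable_nrm.prodMap measurable_nrm).aemeasurable
    hc.aestronglyMeasurable]
  rfl

theorem vagueH_tensor {l : Filter ℕ} {ν : ℕ → Measure E} {μ : Measure E}
    (hf : ∀ j, IsFiniteMeasureOnCompacts (ν j)) (hfμ : IsFiniteMeasureOnCompacts μ)
    (hν : ∀ j, ν j Shᶜ = 0) (hμ : μ Shᶜ = 0) (h : VagueH l ν μ) {κ : E × E → ℝ}
    (hc : Continuous κ) (hs : HasCompactSupport κ) :
    Tendsto (fun j => ∫ P, κ (nrm P.1, nrm P.2) ∂((ν j).prod (ν j))) l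
      (𝓝 (∫ P, κ (nrm P.1, nrm P.2) ∂(μ.prod μ))) := by
  have hv : Vague l (fun j => (ν j).map nrm) (μ.map nrm) := fun φ h1 h2 => by
    simp only [integral_map measurable_nrm.aemeasurable h1.aestronglyMeasurable]
    exact h φ h1 h2
  have a₁ := fun j => lim4_map_fin (hf j) (hν j)
  have a₂ := lim4_map_fin hfμ hμ
  have := vague_tensor a₁ a₁ a₂ a₂ hv hv κ hc hs
  rw [lim4_prod_int hfμ hc] at this
  exact this.congr fun j => lim4_prod_int (hf j) hc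

theorem integral_kernel {μ : Measure E} (hf : IsFiniteMeasureOnCompacts μ) (hμ : μ Shᶜ = 0)
    {κ : E × E → ℝ} (hc : Continuous κ) (hs : HasCompactSupport κ) (h0 : ∀ P, 0 ≤ κ P) :
    ENNReal.ofReal (∫ P, κ (nrm P.1, nrm P.2) ∂(μ.prod μ)) =
      ∫⁻ P, ENNReal.ofReal (κ (nrm P.1, nrm P.2)) ∂(μ.prod μ) := by
  refine ofReal_integral_eq_lintegral_ofReal ?_ (Eventually.of_forall fun P => h0 _)
  have a₂ := lim4_map_fin hf hμ
  have a₃ : Integrable κ ((μ.map nrm).prod (μ.map nrm)) := hc.integrable_of_hasCompactSupport hs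
  rw [lim4_prod hf] at a₃
  exact a₃.comp_measurable (measurable_nrm.prodMap measurable_nrm)

theorem vagueH_wt {l : Filter ℕ} {ν : ℕ → Measure E} {μ : Measure E} (hν : ∀ j, ν j Shᶜ = 0)
    (hμ : μ Shᶜ = 0) (h : VagueH l ν μ) {φ : E → ℝ} (hc : ContinuousOn φ Gp)
    (hv : Van fun M => (φ M : ℂ)) (hh : ∀ (s : ℝ) (M : E), 0 < s → φ (s • M) = φ M) :
    Tendsto (fun j => ∫ M, φ M ∂(ν j)) l (𝓝 (∫ M, φ M ∂μ)) := by
  obtain ⟨ψ, h1, h2, h3⟩ := lim4_cut hc hv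
  have h4 : ∀ M ∈ Sh, ψ (nrm M) = φ M := fun M hM => by
    have hG := Sh_subset hM
    rw [h3 _ (nrm_mem_Sh hG)]
    exact hh _ M (inv_pos.2 (Real.sqrt_pos.2 hG))
  rw [← lim4_congr hμ h4]
  exact (h ψ h1 h2).congr fun j => lim4_congr (hν j) h4

end Pool.Agent.MP_a28cf0_nt.Four
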