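import Pool.Agent.MP_a28cf0_nt.Mg.Cub_Construct
import Pool.Agent.MP_a28cf0_nt.Mg.Cub_Inv
import Pool.Agent.MP_a28cf0_nt.Cub.Kan

set_option autoImplicit false

/-!
Definitions for the sharp lower bound of the smooth fourth moment.  The model is the one of
`Pool.Agent.MP_a28cf0_nt.Cub`: the matrix with rows `(a, b)`, `(c, d)` is `(b + a i, d + c i)`.
-/


namespace Pool.Agent.MP_a28cf0_nt.Four

open MeasureTheory Complex Filter Topology Set Pool.Agent.MP_a28cf0_nt.Cub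
open scoped ENNReal MatrixGroups

/-! ### Sequences -/

abbrev S4 : Type := ℤ → ℤ → ℤ → ℤ → ℂ

abbrev LP : Type := LaurentPolynomial ℝ

/-- symmetric difference -/
def dl (u : ℤ → ℂ) (k : ℤ) : ℂ := u (k + 1) - u (k - 1)

/-- symmetric difference in the direction `(1, -1, 0, 0)` -/
def Dop (σ : S4) : S4 := fun a b c d => σ (a + 1) (b - 1) c d - σ (a - 1) (b + 1) c d

def Box (R : ℝ) (a b c d : ℤ) : Prop :=
  |(a : ℝ)| ≤ R ∧ |(b : ℝ)| ≤ R ∧ |(c : ℝ)| ≤ R ∧ |(d : ℝ)| ≤ R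

def Bd (R B : ℝ) (σ : S4) : Prop := ∀ a b c d : ℤ, Box R a b c d → ‖σ a b c d‖ ≤ B

def Up4 (σ : S4) : S4 := fun a b c d =>
  σ (a + 1) b c d + σ a (b + 1) c d - σ a b (c - 1) d - σ a b c (d - 1)

def Dn4 (σ : S4) : S4 := fun a b c d =>
  σ (a - 1) b c d + σ a (b - 1) c d - σ a b (c + 1) d - σ a b c (d + 1)

def Sw (σ : S4) : S4 := fun a b c d => σ b a c d

/-- pairing of a Laurent polynomial with a sequence -/
noncomputable def ap (p : LP) (u : ℤ → ℂ) : ℂ := p.coeff.sum fun k r => (r : ℂ) * u k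

/-- the symbol of a Laurent polynomial -/
noncomputable def ev (p : LP) (θ : ℝ) : ℂ := ap p fun k => Complex.exp (2 * k * θ * I)

/-- the Laurent polynomial of the symmetric difference -/
noncomputable def DL : LP := LaurentPolynomial.T 1 - LaurentPolynomial.T (-1)

/-- action of a Laurent polynomial in the direction `(1, -1, 0, 0)` -/
noncomputable def Sp (p : LP) (σ : S4) : S4 := fun a b c d => ap p fun k => σ (a + k) (b - k) c d

/-- a fixed even bump, `1` on `[-1, 1]`, supported in `(-2, 2)` -/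
noncomputable def bump : ContDiffBump (0 : ℝ) := ⟨1, 2, one_pos, one_lt_two⟩

noncomputable def cf (N : ℝ) (x : ℤ) : ℝ := bump ((x : ℝ) / N)

noncomputable def cs (N : ℝ) : ℝ := ∑' x : ℤ, cf N x ^ 2

/-- weighted average -/
noncomputable def av (N : ℝ) (u : ℤ → ℂ) : ℂ :=
  (∑' x : ℤ, ((cf N x ^ 2 : ℝ) : ℂ) * u x) / (cs N : ℂ)

/-- average over the shifts `(1, 0, 1, 0)` and `(0, 1, 0, 1)` -/
noncomputable def AvB (N : ℝ) (σ : S4) : S4 := fun a b c d =>
  av N fun x => av N fun y => σ (a + x) (b + y) (c + x) (d + y)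

/-- the same average with the weights of products of wave packets -/
noncomputable def Pq (p : LP) (N : ℝ) (σ : S4) : S4 := fun a b c d =>
  (∑' x : ℤ, ∑' y : ℤ, ((cf N x * cf N y : ℝ) : ℂ) *
    ap p fun k => ((cf N (x + k) * cf N (y - k) : ℝ) : ℂ) * σ (a + x + k) (b + y - k) (c + x) (d + y)) /
      (cs N : ℂ) ^ 2

noncomputable def chi (n : ℕ) (θ : ℝ) : ℝ := (1 - Real.cos (2 * θ) ^ (2 * n)) ^ 5

noncomputable def Wn (n : ℕ) (θ : ℝ) : ℝ := 2 * chi n θ - chi n θ ^ 2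

/-! ### Eigenfunctions -/

noncomputable def tau4 (Ψ : E → ℂ) (Φ : ℤ → E → ℂ) : S4 := fun a b c d =>
  ∫ M, Ψ M * (Φ a M * Φ b M * (starRingEnd ℂ) (Φ c M) * (starRingEnd ℂ) (Φ d M)) ∂nu

/-- the system comes from a real function -/
def Re0 (Φ : ℤ → E → ℂ) : Prop := ∀ M ∈ Gp, (starRingEnd ℂ) (Φ 0 M) = Φ 0 M

/-- normalised density of the centred wave packet -/
noncomputable def rho (t : ℝ) (Φ : ℤ → E → ℂ) (M : E) : ℝ := ‖pk (cf (√t)) Φ M‖ ^ 2 / cs (√t)

noncomputable def rhoE (t : ℝ) (Φ : ℤ → E → ℂ) (M : E) : ℝ≥0∞ := ENNReal.ofReal (rho t Φ M)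

/-- unfolded weights -/
structure Wt (Ψ : E → ℝ) : Prop where
  test : Test fun M => (Ψ M : ℂ)
  meas : Measurable Ψ
  nn : ∀ M, 0 ≤ Ψ M
  rotinv : ∀ θ M, Ψ (rot θ M) = Ψ M
  homog : ∀ (s : ℝ) (M : E), 0 < s → Ψ (s • M) = Ψ M

/-! ### Measures -/

/-- normalisation of the determinant -/
noncomputable def nrm (M : E) : E := (√(dt M))⁻¹ • M

/-- inverse of the normalised matrix -/
noncomputable def ninv (M : E) : E :=
  (√(dt M))⁻¹ • ((⟨-M.1.re, M.2.re⟩ : ℂ), (⟨M.1.im, -M.2.im⟩ : ℂ))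

def Hom (G : E → ℝ≥0∞) : Prop := Measurable G ∧ ∀ (s : ℝ) (M : E), 0 < s → G (s • M) = G M

/-- functions of the base point -/
def Base (F : E → ℝ≥0∞) : Prop := Hom F ∧ ∀ θ M, F (rot θ M) = F M

/-- the projection of `μ` to the upper half plane has density at most `ρ` -/
def Dens (μ : Measure E) (ρ : E → ℝ≥0∞) : Prop :=
  Base ρ ∧ ∀ F : E → ℝ≥0∞, Base F → ∫⁻ M, F M ∂μ ≤ ∫⁻ M, F M * ρ M ∂nu

/-- the correlation at the angle `θ` -/
noncomputable def Cr (Ψ : E → ℝ) (G : E → ℝ≥0∞) (θ : ℝ) : ℝ≥0∞ :=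
  ∫⁻ M, ENNReal.ofReal (Ψ M) * (G M * G (rot θ M)) ∂nu

/-- the correlation averaged along both geodesics -/
noncomputable def Tw (Ψ : E → ℝ) (p w : ℝ → ℝ) (G : E → ℝ≥0∞) : ℝ≥0∞ :=
  ∫⁻ θ, ∫⁻ a, ∫⁻ b, ENNReal.ofReal (p θ * w a * w b) *
    ∫⁻ M, ENNReal.ofReal (Ψ (fl a M)) * (G (fl a M) * G (fl b (rot θ M))) ∂nu

/-- angular weights -/
structure Ang (p : ℝ → ℝ) : Prop where
  cont : Continuous p
  nn : ∀ θ, 0 ≤ p θ
  supp : ∃ θ₁ θ₂ : ℝ, 0 < θ₁ ∧ θ₂ < Real.pi / 2 ∧ ∀ θ, p θ ≠ 0 → θ ∈ Icc θ₁ θ₂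

/-- time weights -/
structure Tim (η : ℝ) (w : ℝ → ℝ) : Prop where
  cont : Continuous w
  nn : ∀ a, 0 ≤ w a
  supp : ∀ a, w a ≠ 0 → a ∈ Icc 0 η
  int1 : ∫⁻ a, ENNReal.ofReal (w a) = 1

/-- vague convergence after normalisation of the determinant -/
def VagueH (l : Filter ℕ) (ν : ℕ → Measure E) (μ : Measure E) : Prop :=
  ∀ φ : E → ℝ, Continuous φ → HasCompactSupport φ →
    Tendsto (fun j => ∫ M, φ (nrm M) ∂(ν j)) l (𝓝 (∫ M, φ (nrm M) ∂μ))

/-- mollifiers -/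
structure Mol (e : ℝ) (B : E → ℝ≥0∞) : Prop where
  hom : Hom B
  int1 : ∫⁻ h, B h ∂nu = 1
  supp : ∀ h, B h ≠ 0 → h ∈ Gp ∧ ‖nrm h - one‖ < e

/-- density of the measure mollified on the left -/
noncomputable def mo (B : E → ℝ≥0∞) (μ : Measure E) (g : E) : ℝ≥0∞ :=
  ∫⁻ g', B (mul (nrm g) (ninv g')) ∂μ

/-- small masses near the diagonal -/
def Thin (μ : Measure E) (g₀ : E) : Prop :=
  ∃ r : ℝ, 0 < r ∧ ∀ ε : ℝ≥0∞, ε ≠ 0 → ∃ δ : ℝ, 0 < δ ∧ ∃ (A : ℤ → Set E) (ρ : ℤ → E → ℝ≥0∞),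
    (∀ i, MeasurableSet (A i)) ∧ {g | g ∈ Sh ∧ ‖nrm g - nrm g₀‖ < r} ⊆ ⋃ i, A i ∧
    (∀ i, Dens (μ.restrict (A i)) (ρ i)) ∧ ∑' i, ∫⁻ M, ρ i M ^ 2 ∂nu ≤ ε ∧
    ∀ i j, ∀ g ∈ A i, ∀ g' ∈ A j, ‖nrm g - nrm g'‖ < δ → |i - j| ≤ 1

/-! ### The space of geodesics -/

/-- matrices whose geodesic has two finite end points -/
def U0 : Set E := {g | g ∈ Gp ∧ g.2.re ≠ 0 ∧ g.2.im ≠ 0}

/-- the end points `(b / d, a / c)` -/
noncomputable def ell (g : E) : ℝ × ℝ := (g.1.re / g.2.re, g.1.im / g.2.im)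

/-- the time along the geodesic -/
noncomputable def tc (g : E) : ℝ := Real.log |g.2.re / g.2.im| / 2

/-- the transverse measure -/
noncomputable def nuT (μ : Measure E) : Measure (ℝ × ℝ) :=
  (μ.restrict {g | g ∈ U0 ∧ tc g ∈ Ico (0 : ℝ) 1}).map ell

def rect (l : ℝ × ℝ) (α β : ℝ) : Set (ℝ × ℝ) := Metric.closedBall l.1 α ×ˢ Metric.closedBall l.2 β

/-- upper density along rectangles -/
noncomputable def Dd (ν : Measure (ℝ × ℝ)) (l : ℝ × ℝ) (α β : ℝ) : ℝ≥0∞ :=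
  limsup (fun j : ℕ => 2 ^ j * ν (rect l (α / 2 ^ j) (β / 2 ^ j))) atTop

/-- existence of a tangent, in the form that is used -/
def Tan (ν : Measure (ℝ × ℝ)) (l : ℝ × ℝ) : Prop :=
  0 < Dd ν l 1 1 ∧ Dd ν l 1 1 < ⊤ ∧
    ((∃ L : ℝ, ∀ α β : ℝ, 0 < α → 0 < β → Dd ν l α β ≤ ENNReal.ofReal (L * α)) ∨
      ∃ c : ℝ, 0 < c ∧ ∀ α β : ℝ, 0 < α → 0 < β → ENNReal.ofReal (c * β) ≤ Dd ν l α β)

/-- the point with real part `x` of the geodesic with end points `l` -/
noncomputable def Pt (P : (ℝ × ℝ) × ℝ) : ℂ := ⟨P.2, √((P.2 - P.1.1) * (P.1.2 - P.2))⟩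

/-- the square of the modulus of that point -/
def piX (x : ℝ) (l : ℝ × ℝ) : ℝ := x * (l.1 + l.2) - l.1 * l.2

/-- crossing energy kernel: the two geodesics cross over `[a, b]` -/
noncomputable def cr (a b : ℝ) (l l' : ℝ × ℝ) : ℝ≥0∞ :=
  if (piX a l' - piX a l) * (piX b l' - piX b l) ≤ 0 then
    ENNReal.ofReal (1 / |l'.1 + l'.2 - (l.1 + l.2)|) else 0

def UpD (ν : Measure (ℝ × ℝ)) (l : ℝ × ℝ) : Prop :=
  ∃ L : ℝ, ∀ᶠ r in 𝓝[>] (0 : ℝ), ν (Metric.closedBall l r) ≤ ENNReal.ofReal (L * r)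

def LoD (ν : Measure (ℝ × ℝ)) (l : ℝ × ℝ) : Prop :=
  ∃ c : ℝ, 0 < c ∧ ∀ᶠ r in 𝓝[>] (0 : ℝ), ENNReal.ofReal (c * r) ≤ ν (Metric.closedBall l r)

/-- a finite measure on a small box of geodesics that all pass over the interval `(x₀, x₁)` -/
structure Geo (ν : Measure (ℝ × ℝ)) (R : Set (ℝ × ℝ)) (κ Λ x₀ x₁ : ℝ) : Prop where
  fin : IsFiniteMeasure ν
  meas : MeasurableSet R
  conc : ν Rᶜ = 0
  pos : 0 < κ
  lt : x₀ < x₁
  bd : ∀ l ∈ R, |l.1| ≤ Λ ∧ |l.2| ≤ Λ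
  sep : ∀ l ∈ R, ∀ l' ∈ R, κ ≤ |l.2 - l'.1|
  above : ∀ l ∈ R, ∀ x ∈ Ioo x₀ x₁, κ ≤ (x - l.1) * (l.2 - x)

/-- the projection to the plane of a measure on geodesics -/
noncomputable def prj (ν : Measure (ℝ × ℝ)) (x₀ x₁ : ℝ) : Measure ℂ :=
  (ν.prod (volume.restrict (Ioo x₀ x₁))).map Pt

/-- dyadic slope classes -/
def slope (n : ℕ) (i : ℤ) : Set (ℝ × ℝ) := {l | ⌊2 ^ n * (l.1 + l.2)⌋ = i}

end Pool.Agent.MP_a28cf0_nt.Four

namespace Pool.Agent.MP_a28cf0_nt.Four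

open MeasureTheory Complex Filter Topology Set Pool.Agent.MP_a28cf0_nt.Cub
open scoped ENNReal MatrixGroups

theorem norm_sqrt_pos {M : E} (hM : M ∈ Gp) : 0 < √(dt M) := Real.sqrt_pos.2 hM

theorem norm_sq_inv {M : E} (hM : M ∈ Gp) : (√(dt M))⁻¹ ^ 2 * dt M = 1 := by
  have h : 0 < dt M := hM
  rw [inv_pow, Real.sq_sqrt h.le, inv_mul_cancel₀ h.ne']

theorem dt_nrm {M : E} (hM : M ∈ Gp) : dt (nrm M) = 1 := by
  rw [nrm, dt_smul, norm_sq_inv hM]

theorem nrm_mem_Sh {M : E} (hM : M ∈ Gp) : nrm M ∈ Sh :=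
  ⟨(dt_nrm hM).ge, by rw [dt_nrm hM]; norm_num⟩

theorem nrm_mem_Gp {M : E} (hM : M ∈ Gp) : nrm M ∈ Gp := Sh_subset (nrm_mem_Sh hM)

theorem norm_sqrt_smul {s : ℝ} (hs : 0 < s) (M : E) :
    (√(dt (s • M)))⁻¹ * s = (√(dt M))⁻¹ := by
  rw [dt_smul, Real.sqrt_mul (sq_nonneg s), Real.sqrt_sq hs.le, mul_inv, mul_right_comm,
    inv_mul_cancel₀ hs.ne', one_mul]

theorem nrm_smul {s : ℝ} (hs : 0 < s) (M : E) : nrm (s • M) = nrm M := by
  rw [nrm, smul_smul, norm_sqrt_smul hs, nrm]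

theorem nrm_rot (θ : ℝ) (M : E) : nrm (rot θ M) = rot θ (nrm M) := by
  rw [nrm, nrm, dt_rot, rot_smul]

theorem nrm_fl (s : ℝ) (M : E) : nrm (fl s M) = fl s (nrm M) := by
  rw [nrm, nrm, dt_fl, fl_smul]

theorem nrm_act (γ : SL(2, ℤ)) (M : E) : nrm (act γ M) = act γ (nrm M) := by
  rw [nrm, nrm, dt_act, act_smul]

theorem smul_mul' (s : ℝ) (A M : E) : mul (s • A) M = s • mul A M := by
  apply E_ext <;> simp only [(mul_apply' _ _).1, (mul_apply' _ _).2.1, (mul_apply' _ _).2.2.1,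
    (mul_apply' _ _).2.2.2, (smul_apply' _ _).1, (smul_apply' _ _).2.1, (smul_apply' _ _).2.2.1,
    (smul_apply' _ _).2.2.2] <;> ring

theorem nrm_mul {A M : E} (hA : A ∈ Gp) : nrm (mul A M) = mul (nrm A) (nrm M) := by
  have h : 0 < dt A := hA
  rw [nrm, nrm, nrm, dt_mul, Real.sqrt_mul h.le, smul_mul', mul_smul', smul_smul, mul_inv]

theorem nrm_of_dt {M : E} (hM : dt M = 1) : nrm M = M := by
  rw [nrm, hM, Real.sqrt_one, inv_one, one_smul]

theorem nrm_nrm {M : E} (hM : M ∈ Gp) : nrm (nrm M) = nrm M := nrm_of_dt (dt_nrm hM)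

theorem pr_nrm {M : E} (hM : M ∈ Gp) : pr (nrm M) = pr M :=
  pr_smul (inv_ne_zero (norm_sqrt_pos hM).ne') M

theorem smul_nrm {M : E} (hM : M ∈ Gp) : √(dt M) • nrm M = M := by
  rw [nrm, smul_smul, mul_inv_cancel₀ (norm_sqrt_pos hM).ne', one_smul]

theorem norm_nrm_le {M : E} (hM : M ∈ Sh) : ‖nrm M‖ ≤ ‖M‖ ∧ ‖M‖ ≤ 2 * ‖nrm M‖ := by
  have h1 : 1 ≤ √(dt M) := Real.one_le_sqrt.2 hM.1
  have h2 : √(dt M) ≤ 2 := Real.sqrt_le_iff.2 ⟨by norm_num, by linarith [hM.2]⟩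
  have h3 : ‖M‖ = √(dt M) * ‖nrm M‖ := by
    conv_lhs => rw [← smul_nrm (Sh_subset hM)]
    rw [norm_smul, Real.norm_eq_abs, abs_of_nonneg (Real.sqrt_nonneg _)]
  have h4 := norm_nonneg (nrm M)
  constructor <;> nlinarith

theorem norm_contDiffOn_sc : ContDiffOn ℝ (⊤ : ℕ∞) (fun M : E => (√(dt M))⁻¹) Gp :=
  (contDiff_dt.contDiffOn.sqrt fun _ hM => ne_of_gt hM).inv fun _ hM => (norm_sqrt_pos hM).ne'

theorem contDiffOn_nrm : ContDiffOn ℝ (⊤ : ℕ∞) nrm Gp :=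
  norm_contDiffOn_sc.smul contDiffOn_id

theorem continuousOn_nrm : ContinuousOn nrm Gp := contDiffOn_nrm.continuousOn

theorem norm_measurable_sc : Measurable fun M : E => (√(dt M))⁻¹ :=
  (Real.continuous_sqrt.comp continuous_dt).measurable.inv

theorem measurable_nrm : Measurable nrm := norm_measurable_sc.smul measurable_id

/-- the adjugate matrix -/
def normAdj (M : E) : E := ((⟨-M.1.re, M.2.re⟩ : ℂ), (⟨M.1.im, -M.2.im⟩ : ℂ))

theorem norm_ninv_eq (M : E) : ninv M = (√(dt M))⁻¹ • normAdj M := rfl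

theorem norm_continuous_adj : Continuous normAdj := by
  have h : ∀ f g : E → ℝ, Continuous f → Continuous g →
      Continuous fun M => (⟨f M, g M⟩ : ℂ) := fun f g hf hg =>
    Complex.equivRealProdCLM.symm.continuous.comp (hf.prodMk hg)
  unfold normAdj
  exact (h _ _ (by fun_prop) (by fun_prop)).prodMk (h _ _ (by fun_prop) (by fun_prop))

theorem continuousOn_ninv : ContinuousOn ninv Gp :=
  norm_contDiffOn_sc.continuousOn.smul norm_continuous_adj.continuousOn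

theorem measurable_ninv : Measurable ninv :=
  norm_measurable_sc.smul norm_continuous_adj.measurable

theorem norm_dt_adj (M : E) : dt (normAdj M) = dt M := by
  simp only [dt, normAdj]; ring

theorem dt_ninv {M : E} (hM : M ∈ Gp) : dt (ninv M) = 1 := by
  rw [norm_ninv_eq, dt_smul, norm_dt_adj, norm_sq_inv hM]

theorem norm_mul_adj (M : E) : mul M (normAdj M) = dt M • one ∧ mul (normAdj M) M = dt M • one := by
  constructor <;> apply E_ext <;>
    simp only [(mul_apply' _ _).1, (mul_apply' _ _).2.1, (mul_apply' _ _).2.2.1,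
      (mul_apply' _ _).2.2.2, (smul_apply' _ _).1, (smul_apply' _ _).2.1, (smul_apply' _ _).2.2.1,
      (smul_apply' _ _).2.2.2, normAdj, one, dt, I_re, I_im, one_re, one_im] <;> ring

theorem mul_nrm_ninv {M : E} (hM : M ∈ Gp) : mul (nrm M) (ninv M) = one := by
  rw [nrm, norm_ninv_eq, smul_mul', mul_smul', (norm_mul_adj M).1, smul_smul, smul_smul, ← sq,
    norm_sq_inv hM, one_smul]

theorem mul_ninv_nrm {M : E} (hM : M ∈ Gp) : mul (ninv M) (nrm M) = one := by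
  rw [nrm, norm_ninv_eq, smul_mul', mul_smul', (norm_mul_adj M).2, smul_smul, smul_smul, ← sq,
    norm_sq_inv hM, one_smul]

theorem norm_adj_smul (s : ℝ) (M : E) : normAdj (s • M) = s • normAdj M := by
  apply E_ext <;> simp only [(smul_apply' _ _).1, (smul_apply' _ _).2.1, (smul_apply' _ _).2.2.1,
    (smul_apply' _ _).2.2.2, normAdj] <;> ring

theorem ninv_smul {s : ℝ} (hs : 0 < s) (M : E) : ninv (s • M) = ninv M := by
  rw [norm_ninv_eq, norm_adj_smul, smul_smul, norm_sqrt_smul hs, norm_ninv_eq]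

theorem ninv_nrm {M : E} (hM : M ∈ Gp) : ninv (nrm M) = ninv M :=
  ninv_smul (inv_pos.2 (norm_sqrt_pos hM)) M

theorem norm_ninv_le (M : E) : ‖ninv M‖ ≤ 2 * ‖nrm M‖ := by
  obtain ⟨h1, h2, h3, h4⟩ := abs_coord_le M
  have h : ‖normAdj M‖ ≤ 2 * ‖M‖ := by
    rw [Prod.norm_def]
    refine max_le ((Complex.norm_le_abs_re_add_abs_im _).trans ?_)
      ((Complex.norm_le_abs_re_add_abs_im _).trans ?_) <;> simp only [normAdj, abs_neg] <;> linarith
  rw [norm_ninv_eq, nrm, norm_smul, norm_smul, mul_left_comm]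
  exact mul_le_mul_of_nonneg_left h (norm_nonneg _)

theorem mul_fl_ninv (s : ℝ) (A M : E) : mul (fl s A) (ninv (fl s M)) = mul A (ninv M) := by
  rw [norm_ninv_eq, norm_ninv_eq, dt_fl, mul_smul', mul_smul']
  congr 1
  have h : Real.exp s * Real.exp (-s) = 1 := by rw [← Real.exp_add]; simp
  apply E_ext <;> simp only [(mul_apply' _ _).1, (mul_apply' _ _).2.1, (mul_apply' _ _).2.2.1,
    (mul_apply' _ _).2.2.2, (fl_apply _ _).1, (fl_apply _ _).2.1, (fl_apply _ _).2.2.1,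
    (fl_apply _ _).2.2.2, normAdj]
  · linear_combination (A.1.re * M.1.im - A.1.im * M.1.re) * h
  · linear_combination (A.1.im * M.2.re - A.1.re * M.2.im) * h
  · linear_combination (A.2.re * M.1.im - A.2.im * M.1.re) * h
  · linear_combination (A.2.im * M.2.re - A.2.re * M.2.im) * h

theorem mul_rot_ninv (θ : ℝ) (A M : E) : mul (rot θ A) (ninv (rot θ M)) = mul A (ninv M) := by
  rw [norm_ninv_eq, norm_ninv_eq, dt_rot, mul_smul', mul_smul']
  congr 1
  have h := Real.sin_sq_add_cos_sq θ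
  apply E_ext <;> simp only [(mul_apply' _ _).1, (mul_apply' _ _).2.1, (mul_apply' _ _).2.2.1,
    (mul_apply' _ _).2.2.2, (rot_apply _ _).1, (rot_apply _ _).2.1, (rot_apply _ _).2.2.1,
    (rot_apply _ _).2.2.2, normAdj]
  · linear_combination (A.1.re * M.1.im - A.1.im * M.1.re) * h
  · linear_combination (A.1.im * M.2.re - A.1.re * M.2.im) * h
  · linear_combination (A.2.re * M.1.im - A.2.im * M.1.re) * h
  · linear_combination (A.2.im * M.2.re - A.2.re * M.2.im) * h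

theorem sub_mul' (A B M : E) : mul (A - B) M = mul A M - mul B M := by
  apply E_ext <;> simp only [(mul_apply' _ _).1, (mul_apply' _ _).2.1, (mul_apply' _ _).2.2.1,
    (mul_apply' _ _).2.2.2, Prod.fst_sub, Prod.snd_sub, sub_re, sub_im] <;> ring

theorem mul_sub' (A M N : E) : mul A (M - N) = mul A M - mul A N := by
  apply E_ext <;> simp only [(mul_apply' _ _).1, (mul_apply' _ _).2.1, (mul_apply' _ _).2.2.1,
    (mul_apply' _ _).2.2.2, Prod.fst_sub, Prod.snd_sub, sub_re, sub_im] <;> ring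

theorem mul_mem_Gp {A M : E} (hA : A ∈ Gp) (hM : M ∈ Gp) : mul A M ∈ Gp := by
  show 0 < dt _
  rw [dt_mul]
  exact mul_pos hA hM

theorem rot_mem_Gp (θ : ℝ) (M : E) : rot θ M ∈ Gp ↔ M ∈ Gp := by
  simp only [Gp, mem_ofPred_eq, dt_rot]

theorem fl_mem_Gp (s : ℝ) (M : E) : fl s M ∈ Gp ↔ M ∈ Gp := by
  simp only [Gp, mem_ofPred_eq, dt_fl]

theorem act_mem_Gp (γ : SL(2, ℤ)) (M : E) : act γ M ∈ Gp ↔ M ∈ Gp := by
  simp only [Gp, mem_ofPred_eq, dt_act]

theorem rot_mem_Sh (θ : ℝ) (M : E) : rot θ M ∈ Sh ↔ M ∈ Sh := by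
  simp only [Sh, mem_ofPred_eq, dt_rot]

theorem fl_mem_Sh (s : ℝ) (M : E) : fl s M ∈ Sh ↔ M ∈ Sh := by
  simp only [Sh, mem_ofPred_eq, dt_fl]

theorem act_mem_Sh (γ : SL(2, ℤ)) (M : E) : act γ M ∈ Sh ↔ M ∈ Sh := by
  simp only [Sh, mem_ofPred_eq, dt_act]

theorem smul_mem_Gp {s : ℝ} (hs : 0 < s) (M : E) : s • M ∈ Gp ↔ M ∈ Gp := by
  simp only [Gp, mem_ofPred_eq, dt_smul]
  exact mul_pos_iff_of_pos_left (pow_pos hs 2)

theorem rot_two_pi (θ : ℝ) (M : E) : rot (θ + 2 * Real.pi) M = rot θ M := by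
  apply E_ext <;> simp only [(rot_apply _ _).1, (rot_apply _ _).2.1, (rot_apply _ _).2.2.1,
    (rot_apply _ _).2.2.2, Real.cos_add_two_pi, Real.sin_add_two_pi]

theorem norm_rot_sub (θ : ℝ) (M : E) : ‖rot θ M - M‖ ≤ |θ| * ‖M‖ := by
  have h : rot θ M - M = (Complex.exp (I * θ) - 1) • M := by
    rw [rot, sub_smul, one_smul, mul_comm]
  rw [h, norm_smul]
  exact mul_le_mul_of_nonneg_right Real.norm_exp_I_mul_ofReal_sub_one_le (norm_nonneg _)

theorem norm_one' : ‖(one : E)‖ = 1 := by simp [one, Prod.norm_def]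

@[fun_prop] theorem measurable_rot' {X : Type} [MeasurableSpace X] {f : X → ℝ} {g : X → E}
    (hf : Measurable f) (hg : Measurable g) : Measurable fun x => rot (f x) (g x) := by
  have h : Measurable fun p : ℝ × E => rot p.1 p.2 :=
    (continuous_rot continuous_fst continuous_snd).measurable
  exact h.comp (f := fun x => (f x, g x)) (hf.prodMk hg)

@[fun_prop] theorem measurable_fl' {X : Type} [MeasurableSpace X] {f : X → ℝ} {g : X → E}
    (hf : Measurable f) (hg : Measurable g) : Measurable fun x => fl (f x) (g x) := by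
  have h : Measurable fun p : ℝ × E => fl p.1 p.2 :=
    (continuous_fl continuous_fst continuous_snd).measurable
  exact h.comp (f := fun x => (f x, g x)) (hf.prodMk hg)

@[fun_prop] theorem measurable_mul' {X : Type} [MeasurableSpace X] {f g : X → E}
    (hf : Measurable f) (hg : Measurable g) : Measurable fun x => mul (f x) (g x) := by
  have h : Measurable fun p : E × E => mul p.1 p.2 :=
    (continuous_mul' continuous_fst continuous_snd).measurable
  exact h.comp (f := fun x => (f x, g x)) (hf.prodMk hg)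

/-- right multiplication as a linear map -/
noncomputable def normMulR (A : E) : E →ₗ[ℝ] E where
  toFun h := mul h A
  map_add' M N := by
    apply E_ext <;> simp only [(mul_apply' _ _).1, (mul_apply' _ _).2.1, (mul_apply' _ _).2.2.1,
      (mul_apply' _ _).2.2.2, Prod.fst_add, Prod.snd_add, add_re, add_im] <;> ring
  map_smul' s M := smul_mul' s M A

/-- right multiplication by a matrix of determinant one preserves the measure -/
theorem mp_mulR_nu {A : E} (hA : dt A = 1) : MeasurePreserving (fun h => mul h A) nu nu := by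
  refine mp_nu (mp_linear (normMulR A) ?_) fun M => by rw [dt_mul, hA, mul_one]
  rw [det_of_coords (normMulR A) !![A.2.re, A.1.re, 0, 0; A.2.im, A.1.im, 0, 0;
    0, 0, A.2.re, A.1.re; 0, 0, A.2.im, A.1.im]]
  · have : Matrix.det !![A.2.re, A.1.re, 0, 0; A.2.im, A.1.im, 0, 0;
      0, 0, A.2.re, A.1.re; 0, 0, A.2.im, A.1.im] = dt A ^ 2 := by
      simp [Matrix.det_succ_row_zero, Fin.sum_univ_succ, Fin.succAbove, dt]
      ring
    rw [this, hA]; simp
  · intro M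
    obtain ⟨h1, h2, h3, h4⟩ := mul_apply' M A
    refine ⟨?_, ?_, ?_, ?_⟩ <;> simp [normMulR, h1, h2, h3, h4] <;> ring

theorem nu_conc : nu Shᶜ = 0 := ae_mem_Sh

theorem dens_conc (G : E → ℝ≥0∞) : nu.withDensity G Shᶜ = 0 :=
  withDensity_absolutelyContinuous nu G nu_conc

theorem good_ae {μ : Measure E} (h : Good μ) : ∀ᵐ M ∂μ, M ∈ Sh := h.sh

theorem good_Gp {μ : Measure E} (h : Good μ) : μ Gpᶜ = 0 :=
  measure_mono_null (compl_subset_compl.2 Sh_subset) h.sh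

theorem good_mp_fl {μ : Measure E} (h : Good μ) (s : ℝ) : MeasurePreserving (fl s) μ μ :=
  ⟨(me_fl s).measurable, h.flow s⟩

theorem good_mp_act {μ : Measure E} (h : Good μ) (γ : SL(2, ℤ)) :
    MeasurePreserving (act γ) μ μ :=
  ⟨(me_act γ).measurable, h.inv γ⟩

theorem dt_sec (z : ℂ) : dt ((z, 1) : E) = z.im := by simp [dt]

theorem pr_sec (z : ℂ) : pr ((z, 1) : E) = z := by simp [pr]

theorem eq_sec {α : Type} {F : E → α} (h1 : ∀ (s : ℝ) (M : E), 0 < s → F (s • M) = F M)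
    (h2 : ∀ θ M, F (rot θ M) = F M) {M : E} (hM : M ∈ Gp) : F M = F (pr M, 1) := by
  have h0 := snd_ne_zero hM
  have h3 : (‖M.2‖ : ℂ) * Complex.exp (M.2.arg * I) = M.2 := Complex.norm_mul_exp_arg_mul_I _
  have h4 : M = ‖M.2‖ • rot M.2.arg (pr M, 1) := by
    refine Prod.ext ?_ ?_
    · simp only [rot, Prod.smul_fst, smul_eq_mul, real_smul, pr]
      rw [← mul_assoc, h3, mul_div_cancel₀ _ h0]
    · simp only [rot, Prod.smul_snd, smul_eq_mul, real_smul, mul_one]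
      exact h3.symm
  calc F M = F (‖M.2‖ • rot M.2.arg (pr M, 1)) := congrArg F h4
    _ = F (pr M, 1) := by rw [h1 _ _ (norm_pos_iff.2 h0), h2]

theorem Base.eq_sec {F : E → ℝ≥0∞} (h : Base F) {M : E} (hM : M ∈ Gp) : F M = F (pr M, 1) :=
  Four.eq_sec h.1.2 h.2 hM

theorem base_pr {f : ℂ → ℝ≥0∞} (hf : Measurable f) : Base fun M => f (pr M) :=
  ⟨⟨hf.comp measurable_pr, fun s M hs => by simp only [pr_smul hs.ne']⟩,
    fun θ M => by simp only [pr_rot]⟩

theorem Base.mulL {F : E → ℝ≥0∞} (h : Base F) (A : E) : Base fun M => F (mul A M) :=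
  ⟨⟨h.1.1.comp (measurable_mul' measurable_const measurable_id),
    fun s M hs => by simp only [mul_smul', h.1.2 s _ hs]⟩,
    fun θ M => by simp only [mul_rot, h.2]⟩

theorem Base.act {F : E → ℝ≥0∞} (h : Base F) (γ : SL(2, ℤ)) : Base fun M => F (act γ M) :=
  ⟨⟨h.1.1.comp (continuous_act γ).measurable,
    fun s M hs => by simp only [act_smul, h.1.2 s _ hs]⟩,
    fun θ M => by simp only [act_rot, h.2]⟩

theorem Base.mul {F G : E → ℝ≥0∞} (h : Base F) (h' : Base G) : Base fun M => F M * G M :=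
  ⟨⟨h.1.1.mul h'.1.1, fun s M hs => by simp only [h.1.2 s _ hs, h'.1.2 s _ hs]⟩,
    fun θ M => by simp only [h.2, h'.2]⟩

theorem Hom.nrm {G : E → ℝ≥0∞} (h : Hom G) {M : E} (hM : M ∈ Gp) : G (nrm M) = G M :=
  h.2 _ M (inv_pos.2 (norm_sqrt_pos hM))

theorem lintegral_pr {f : ℂ → ℝ≥0∞} (hf : Measurable f) :
    ∫⁻ M, f (pr M) ∂nu = ∫⁻ z in Up, f z * ENNReal.ofReal (15 * Real.pi / 2 / z.im ^ 2) := by
  have hm : Measurable fun z : ℂ => ENNReal.ofReal (15 * Real.pi / 2 / z.im ^ 2) :=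
    (measurable_const.div (measurable_im.pow_const 2)).ennreal_ofReal
  rw [← lintegral_map hf measurable_pr, kan, lintegral_withDensity_eq_lintegral_mul _ hm hf]
  simp only [Pi.mul_apply, mul_comm]

theorem Wt.smooth {Ψ : E → ℝ} (h : Wt Ψ) : ContDiffOn ℝ (⊤ : ℕ∞) Ψ Gp :=
  (reCLM.contDiff.comp_contDiffOn h.test.smooth).congr fun M _ => by simp

theorem Wt.cont {Ψ : E → ℝ} (h : Wt Ψ) : ContinuousOn Ψ Gp := h.smooth.continuousOn

theorem Wt.bound {Ψ : E → ℝ} (h : Wt Ψ) :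
    ∃ A ρ : ℝ, 0 ≤ A ∧ (∀ M ∈ Sh, Ψ M ≤ A) ∧ ∀ M ∈ Sh, M ∉ Bl ρ → Ψ M = 0 := by
  obtain ⟨A, ρ, h1, h2, h3⟩ := h.test.bound
  refine ⟨A, ρ, h1, fun M hM => ?_, fun M hM hn => by exact_mod_cast h3 M hM hn⟩
  have := h2 M hM
  rw [Complex.norm_real, Real.norm_eq_abs] at this
  exact (le_abs_self _).trans this

theorem Wt.nrm {Ψ : E → ℝ} (h : Wt Ψ) {M : E} (hM : M ∈ Gp) : Ψ (nrm M) = Ψ M :=
  h.homog _ M (inv_pos.2 (norm_sqrt_pos hM))

theorem Wt.eq_sec {Ψ : E → ℝ} (h : Wt Ψ) {M : E} (hM : M ∈ Gp) : Ψ M = Ψ (pr M, 1) :=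
  Four.eq_sec h.homog h.rotinv hM

theorem Wt.base {Ψ : E → ℝ} (h : Wt Ψ) : Base fun M => ENNReal.ofReal (Ψ M) :=
  ⟨⟨h.meas.ennreal_ofReal, fun s M hs => by simp only [h.homog s M hs]⟩,
    fun θ M => by simp only [h.rotinv]⟩

theorem Wt.act {Ψ : E → ℝ} (h : Wt Ψ) (γ : SL(2, ℤ)) : Wt fun M => Ψ (act γ M) := by
  refine ⟨⟨h.test.smooth.comp (contDiff_act γ).contDiffOn fun M hM => act_mem hM γ, ?_⟩,
    h.meas.comp (continuous_act γ).measurable, fun M => h.nn _,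
    fun θ M => by simp only [act_rot, h.rotinv],
    fun s M hs => by simp only [act_smul, h.homog s _ hs]⟩
  obtain ⟨ρ, hρ⟩ := h.test.van
  refine ⟨2 * ‖Cub.act γ⁻¹ one‖ * ρ, fun M h1 h2 h3 => hρ (Cub.act γ M) (by rwa [dt_act])
    (by rwa [dt_act]) ?_⟩
  have h4 : ‖M‖ ≤ 2 * ‖Cub.act γ⁻¹ one‖ * ‖Cub.act γ M‖ := by
    have h5 := surf_norm_mul (Cub.act γ⁻¹ one) (Cub.act γ M)
    rwa [← act_eq_mul, ← act_mul, inv_mul_cancel, act_one] at h5
  exact lt_of_mul_lt_mul_left (h3.trans_le h4) (by positivity)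

theorem Wt.integrable {Ψ : E → ℝ} (h : Wt Ψ) {g : E → ℝ} (hg : ContinuousOn g Gp) :
    Integrable (fun M => Ψ M * g M) nu := by
  obtain ⟨A, ρ, -, -, h3⟩ := h.bound
  refine integrable_of_cont (h.cont.mul hg) (ρ := ρ) fun M hM hn => ?_
  rw [h3 M hM fun hb => absurd (mem_closedBall_zero_iff.1 hb.2) (not_le.2 hn), zero_mul]

/-- uniform continuity along the flow -/
theorem Wt.flow {Ψ : E → ℝ} (h : Wt Ψ) {ε : ℝ} (hε : 0 < ε) :
    ∃ η : ℝ, 0 < η ∧ ∀ a : ℝ, |a| ≤ η → ∀ M ∈ Sh, |Ψ (fl a M) - Ψ M| ≤ ε := by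
  obtain ⟨A, ρ, -, -, h3⟩ := h.bound
  have hK : IsCompact (Icc (-1 : ℝ) 1 ×ˢ Bl (3 * |ρ|)) := isCompact_Icc.prod (isCompact_Bl _)
  have hc : ContinuousOn (fun p : ℝ × E => Ψ (fl p.1 p.2)) (Icc (-1 : ℝ) 1 ×ˢ Bl (3 * |ρ|)) :=
    h.cont.comp (continuous_fl continuous_fst continuous_snd).continuousOn fun p hp =>
      (fl_mem_Gp _ _).2 (Sh_subset hp.2.1)
  obtain ⟨δ, hδ, hu⟩ := Metric.uniformContinuousOn_iff.1
    (hK.uniformContinuousOn_of_continuous hc) ε hε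
  refine ⟨min 1 (δ / 2), lt_min one_pos (half_pos hδ), fun a ha M hM => ?_⟩
  have ha1 : |a| ≤ 1 := ha.trans (min_le_left _ _)
  have ha2 : |a| < δ := (ha.trans (min_le_right _ _)).trans_lt (half_lt_self hδ)
  by_cases hb : M ∈ Bl (3 * |ρ|)
  · have h4 := hu (a, M) ⟨abs_le.1 ha1, hb⟩ (0, M) ⟨by norm_num, hb⟩ (by
      rw [Prod.dist_eq, dist_self, Real.dist_eq, sub_zero]
      exact max_lt ha2 hδ)
    rw [Real.dist_eq, fl_zero] at h4
    exact h4.le
  · have h4 : 3 * |ρ| < ‖M‖ := by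
      by_contra hn
      exact hb ⟨hM, mem_closedBall_zero_iff.2 (not_lt.1 hn)⟩
    have h5 : ‖M‖ ≤ 3 * ‖fl a M‖ := by
      have h6 := norm_fl_le (-a) (fl a M)
      rw [fl_fl, neg_add_cancel, fl_zero, abs_neg] at h6
      have h7 : Real.exp |a| ≤ 3 :=
        (Real.exp_le_exp.2 ha1).trans (Real.exp_one_lt_d9.le.trans (by norm_num))
      exact h6.trans (mul_le_mul_of_nonneg_right h7 (norm_nonneg _))
    have h8 := le_abs_self ρ
    have h9 := abs_nonneg ρ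
    rw [h3 M hM fun hb' => by linarith [mem_closedBall_zero_iff.1 hb'.2],
      h3 (fl a M) ((fl_mem_Sh a M).2 hM) fun hb' => by linarith [mem_closedBall_zero_iff.1 hb'.2]]
    simpa using hε.le

theorem Tim.mono {η η' : ℝ} {w : ℝ → ℝ} (h : Tim η w) (hη : η ≤ η') : Tim η' w :=
  ⟨h.cont, h.nn, fun a ha => ⟨(h.supp a ha).1, (h.supp a ha).2.trans hη⟩, h.int1⟩

end Pool.Agent.MP_a28cf0_nt.Four

namespace Pool.Agent.MP_a28cf0_nt.Four

open MeasureTheory Complex Filter Topology Set Pool.Agent.MP_a28cf0_nt.Cub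
open scoped ENNReal MatrixGroups

/-! ### The pairing -/

theorem ap_eq_sum (p : LP) (u : ℤ → ℂ) :
    ap p u = ∑ k ∈ p.coeff.support, (p.coeff k : ℂ) * u k := rfl
theorem ap_add_left (p q : LP) (u : ℤ → ℂ) : ap (p + q) u = ap p u + ap q u := by
  unfold ap
  rw [AddMonoidAlgebra.coeff_add]
  exact Finsupp.sum_add_index' (fun _ => by simp) (fun _ _ _ => by push_cast; ring)
theorem seq4_ap_zero (u : ℤ → ℂ) : ap 0 u = 0 := by simp [ap]
theorem ap_sub_left (p q : LP) (u : ℤ → ℂ) : ap (p - q) u = ap p u - ap q u := by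
  rw [eq_sub_iff_add_eq, ← ap_add_left, sub_add_cancel]
theorem seq4_ap_CT (r : ℝ) (n : ℤ) (u : ℤ → ℂ) :
    ap (LaurentPolynomial.C r * LaurentPolynomial.T n) u = r * u n := by
  rw [← LaurentPolynomial.single_eq_C_mul_T]
  unfold ap
  rw [AddMonoidAlgebra.coeff_single]
  exact Finsupp.sum_single_index (by simp)
theorem ap_T (n : ℤ) (u : ℤ → ℂ) : ap (LaurentPolynomial.T n) u = u n := by
  simpa using seq4_ap_CT 1 n u
theorem ap_one (u : ℤ → ℂ) : ap 1 u = u 0 := by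
  rw [← LaurentPolynomial.T_zero, ap_T]
theorem ap_C_mul (r : ℝ) (p : LP) (u : ℤ → ℂ) :
    ap (LaurentPolynomial.C r * p) u = r * ap p u := by
  induction p using LaurentPolynomial.induction_on' with
  | add p q hp hq => rw [mul_add, ap_add_left, ap_add_left, hp, hq, mul_add]
  | C_mul_T n a => rw [← mul_assoc, ← map_mul, seq4_ap_CT, seq4_ap_CT]; push_cast; ring
theorem ap_add (p : LP) (u v : ℤ → ℂ) : ap p (fun k => u k + v k) = ap p u + ap p v := by
  simp only [ap_eq_sum, mul_add, Finset.sum_add_distrib]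
theorem ap_mul (p q : LP) (u : ℤ → ℂ) :
    ap (p * q) u = ap p fun k => ap q fun l => u (k + l) := by
  induction p using LaurentPolynomial.induction_on' with
  | add p p' hp hp' => rw [add_mul, ap_add_left, ap_add_left, hp, hp']
  | C_mul_T n a =>
    rw [mul_assoc, ap_C_mul, seq4_ap_CT]
    congr 1
    induction q using LaurentPolynomial.induction_on' with
    | add q q' hq hq' => rw [mul_add, ap_add_left, ap_add_left, hq, hq']
    | C_mul_T m b =>
      rw [mul_left_comm, ← LaurentPolynomial.T_add, seq4_ap_CT, seq4_ap_CT]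
theorem ap_sub (p : LP) (u v : ℤ → ℂ) : ap p (fun k => u k - v k) = ap p u - ap p v := by
  simp only [ap_eq_sum, mul_sub, Finset.sum_sub_distrib]
theorem ap_const_mul (p : LP) (z : ℂ) (u : ℤ → ℂ) : ap p (fun k => z * u k) = z * ap p u := by
  simp only [ap_eq_sum, Finset.mul_sum, mul_left_comm]
theorem ap_invert (p : LP) (u : ℤ → ℂ) :
    ap (LaurentPolynomial.invert p) u = ap p fun k => u (-k) := by
  induction p using LaurentPolynomial.induction_on' with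
  | add p q hp hq => rw [map_add, ap_add_left, ap_add_left, hp, hq]
  | C_mul_T n a =>
    rw [map_mul, LaurentPolynomial.invert_C, LaurentPolynomial.invert_T, seq4_ap_CT, seq4_ap_CT]
theorem ap_conj (p : LP) (u : ℤ → ℂ) :
    (starRingEnd ℂ) (ap p u) = ap p fun k => (starRingEnd ℂ) (u k) := by
  simp only [ap_eq_sum, map_sum, map_mul, Complex.conj_ofReal]
theorem ap_norm_le (p : LP) : ∃ L A : ℝ, 0 ≤ L ∧ 0 ≤ A ∧ ∀ (u : ℤ → ℂ) (B : ℝ),
    (∀ k : ℤ, |(k : ℝ)| ≤ L → ‖u k‖ ≤ B) → ‖ap p u‖ ≤ A * B := by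
  refine ⟨∑ k ∈ p.coeff.support, |(k : ℝ)|, ∑ k ∈ p.coeff.support, |p.coeff k|,
    Finset.sum_nonneg fun _ _ => abs_nonneg _, Finset.sum_nonneg fun _ _ => abs_nonneg _,
    fun u B h => ?_⟩
  rw [ap_eq_sum, Finset.sum_mul]
  refine norm_sum_le_of_le _ fun k hk => ?_
  rw [norm_mul, Complex.norm_real, Real.norm_eq_abs]
  exact mul_le_mul_of_nonneg_left (h k (Finset.single_le_sum (f := fun k : ℤ => |(k : ℝ)|)
    (fun _ _ => abs_nonneg _) hk)) (abs_nonneg _)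
theorem seq4_ap_DL (u : ℤ → ℂ) : ap DL u = u 1 - u (-1) := by
  rw [DL, ap_sub_left, ap_T, ap_T]
theorem ap_DL_pow (j : ℕ) (r : LP) (u : ℤ → ℂ) : ap (DL ^ j * r) u = ap r (dl^[j] u) := by
  induction j generalizing u with
  | zero => simp
  | succ j ih =>
    rw [Function.iterate_succ_apply, ← ih, pow_succ, mul_right_comm, ap_mul]
    congr 1
    funext k
    rw [seq4_ap_DL]
    rfl
theorem ev_mul (p q : LP) (θ : ℝ) : ev (p * q) θ = ev p θ * ev q θ := by
  unfold ev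
  rw [ap_mul, mul_comm, ← ap_const_mul]
  congr 1
  funext k
  rw [mul_comm, ← ap_const_mul]
  congr 1
  funext l
  rw [← Complex.exp_add]
  congr 1
  push_cast
  ring
theorem ev_T (n : ℤ) (θ : ℝ) : ev (LaurentPolynomial.T n) θ = Complex.exp (2 * n * θ * I) :=
  ap_T _ _
theorem ev_DL (θ : ℝ) : ev DL θ = 2 * I * Real.sin (2 * θ) := by
  rw [ev, seq4_ap_DL, Complex.ofReal_sin, Complex.sin]
  push_cast
  rw [show 2 * (1 : ℂ) * θ * I = 2 * θ * I by ring, show 2 * (-1 : ℂ) * θ * I = -(2 * θ) * I by ring]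
  linear_combination (cexp (2 * θ * I) - cexp (-(2 * θ) * I)) * Complex.I_mul_I
theorem continuous_ev (p : LP) : Continuous (ev p) := by
  have : ev p = fun θ : ℝ => ∑ k ∈ p.coeff.support, (p.coeff k : ℂ) * cexp (2 * k * θ * I) := rfl
  rw [this]
  fun_prop

/-- the symbol as a ring homomorphism -/
noncomputable def seq4_evH (θ : ℝ) : LP →+* ℂ where
  toFun p := ev p θ
  map_one' := by simp [ev, ap_one]
  map_mul' p q := ev_mul p q θ
  map_zero' := seq4_ap_zero _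
  map_add' p q := ap_add_left p q _

theorem seq4_evH_apply (θ : ℝ) (p : LP) : seq4_evH θ p = ev p θ := rfl

theorem ev_DL_le (j : ℕ) (r : LP) :
    ∃ A : ℝ, ∀ θ, ‖ev (DL ^ (j + 1) * r) θ‖ ≤ A * |Real.sin θ * Real.cos θ| := by
  obtain ⟨L, A, -, -, h⟩ := ap_norm_le (DL ^ j * r)
  refine ⟨4 * A, fun θ => ?_⟩
  have h1 : ‖ev (DL ^ j * r) θ‖ ≤ A * 1 := h _ _ fun k _ => by
    rw [show 2 * (k : ℂ) * θ * I = ((2 * k * θ : ℝ) : ℂ) * I by push_cast; ring,
      Complex.norm_exp_ofReal_mul_I]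
  rw [pow_succ', mul_assoc, ev_mul, norm_mul, ev_DL, norm_mul, norm_mul, Complex.norm_I,
    Complex.norm_real, Real.norm_eq_abs, Complex.norm_ofNat, Real.sin_two_mul,
    mul_assoc 2 (Real.sin θ), abs_mul 2, abs_two]
  nlinarith [mul_le_mul_of_nonneg_left h1 (abs_nonneg (Real.sin θ * Real.cos θ))]

/-! ### Differences -/

theorem dl_iter_shift (j : ℕ) (u : ℤ → ℂ) (n k : ℤ) :
    dl^[j] (fun k => u (k + n)) k = dl^[j] u (k + n) := by
  induction j generalizing k with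
  | zero => rfl
  | succ j ih =>
    simp only [Function.iterate_succ_apply', dl, ih]
    rw [add_right_comm, sub_add_eq_add_sub]
theorem dl_iter_neg (j : ℕ) (u : ℤ → ℂ) (k : ℤ) :
    dl^[j] (fun k => u (-k)) k = (-1) ^ j * dl^[j] u (-k) := by
  induction j generalizing k with
  | zero => simp
  | succ j ih =>
    simp only [Function.iterate_succ_apply', dl, ih]
    rw [show -(k + 1) = -k - 1 by ring, show -(k - 1) = -k + 1 by ring]
    ring
theorem dl_iter_add (j : ℕ) (u v : ℤ → ℂ) (k : ℤ) :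
    dl^[j] (fun k => u k + v k) k = dl^[j] u k + dl^[j] v k := by
  induction j generalizing k with
  | zero => rfl
  | succ j ih => simp only [Function.iterate_succ_apply', dl, ih]; ring
theorem dl_iter_sub (j : ℕ) (u v : ℤ → ℂ) (k : ℤ) :
    dl^[j] (fun k => u k - v k) k = dl^[j] u k - dl^[j] v k := by
  induction j generalizing k with
  | zero => rfl
  | succ j ih => simp only [Function.iterate_succ_apply', dl, ih]; ring
theorem dl_iter_const_mul (j : ℕ) (z : ℂ) (u : ℤ → ℂ) (k : ℤ) :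
    dl^[j] (fun k => z * u k) k = z * dl^[j] u k := by
  induction j generalizing k with
  | zero => rfl
  | succ j ih => simp only [Function.iterate_succ_apply', dl, ih]; ring
theorem dl_iter_const (j : ℕ) (z : ℂ) (k : ℤ) : dl^[j + 1] (fun _ => z) k = 0 := by
  induction j generalizing k with
  | zero => simp [dl]
  | succ j ih => rw [Function.iterate_succ_apply', dl, ih, ih, sub_zero]

/-- Leibniz bound at the base point `l` -/
theorem leib (j : ℕ) (w u : ℤ → ℂ) (ω B : ℕ → ℝ) (M : ℝ) (l : ℤ)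
    (hw : ∀ i ≤ j, ∀ k : ℤ, |k - l| ≤ j → ‖dl^[i] w k‖ ≤ ω i)
    (hu : ∀ i ≤ j, ∀ k : ℤ, |k - l| ≤ j → ‖dl^[i] u k‖ ≤ B i)
    (hM : ∀ i ≤ j, ω i * B (j - i) ≤ M) :
    ‖dl^[j] (fun k => w k * u k) l‖ ≤ 2 ^ j * M := by
  induction j generalizing w u ω B with
  | zero =>
    have h1 := hw 0 le_rfl l (by simp)
    have h2 := hu 0 le_rfl l (by simp)
    have h3 := hM 0 le_rfl
    simp only [Function.iterate_zero, id_eq, pow_zero, one_mul, norm_mul] at *
    exact (mul_le_mul h1 h2 (norm_nonneg _) ((norm_nonneg _).trans h1)).trans h3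
  | succ j ih =>
    have e : dl (fun k => w k * u k) = fun k => w (k + 1) * dl u k + dl w k * u (k + -1) := by
      funext k
      simp only [dl, ← sub_eq_add_neg]
      ring
    have h1 := ih (fun k => w (k + 1)) (dl u) ω (fun i => B (i + 1))
      (fun i hi k hk => by
        rw [dl_iter_shift]
        refine hw i (by omega) _ ?_
        rw [abs_le] at hk ⊢
        push_cast
        omega)
      (fun i hi k hk => by
        rw [← Function.iterate_succ_apply]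
        refine hu (i + 1) (by omega) _ (hk.trans ?_)
        push_cast
        omega)
      (fun i hi => by
        have := hM i (by omega)
        rwa [show j + 1 - i = j - i + 1 by omega] at this)
    have h2 := ih (dl w) (fun k => u (k + -1)) (fun i => ω (i + 1)) B
      (fun i hi k hk => by
        rw [← Function.iterate_succ_apply]
        refine hw (i + 1) (by omega) _ (hk.trans ?_)
        push_cast
        omega)
      (fun i hi k hk => by
        rw [dl_iter_shift]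
        refine hu i (by omega) _ ?_
        rw [abs_le] at hk ⊢
        push_cast
        omega)
      (fun i hi => by
        have := hM (i + 1) (by omega)
        rwa [show j + 1 - (i + 1) = j - i by omega] at this)
    rw [Function.iterate_succ_apply, e, dl_iter_add, pow_succ]
    linarith [norm_add_le (dl^[j] (fun k => w (k + 1) * dl u k) l)
      (dl^[j] (fun k => dl w k * u (k + -1)) l)]

theorem dop_iter (j : ℕ) (σ : S4) (a b c d k : ℤ) :
    Dop^[j] σ (a + k) (b - k) c d = dl^[j] (fun k => σ (a + k) (b - k) c d) k := by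
  induction j generalizing σ with
  | zero => rfl
  | succ j ih =>
    have : (fun k => Dop σ (a + k) (b - k) c d) = dl fun k => σ (a + k) (b - k) c d := by
      funext k
      simp only [Dop, dl]
      congr 2 <;> ring
    rw [Function.iterate_succ_apply, Function.iterate_succ_apply, ih, this]

/-! ### Four indices -/

theorem Box.mono {R R' : ℝ} {a b c d : ℤ} (h : Box R a b c d) (hR : R ≤ R') : Box R' a b c d :=
  ⟨h.1.trans hR, h.2.1.trans hR, h.2.2.1.trans hR, h.2.2.2.trans hR⟩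
theorem Bd.mono {R R' B B' : ℝ} {σ : S4} (h : Bd R B σ) (hR : R' ≤ R) (hB : B ≤ B') :
    Bd R' B' σ := fun a b c d hb => (h a b c d (hb.mono hR)).trans hB
theorem seq4_box {R L : ℝ} {a b c d k : ℤ} (h : Box R a b c d) (hk : |(k : ℝ)| ≤ L) :
    Box (R + L) (a + k) (b - k) c d := by
  have h0 : 0 ≤ L := (abs_nonneg _).trans hk
  refine ⟨?_, ?_, h.2.2.1.trans (by linarith), h.2.2.2.trans (by linarith)⟩
  · push_cast
    linarith [abs_add_le (a : ℝ) k, h.1]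
  · push_cast
    linarith [abs_sub (b : ℝ) k, h.2.1]
theorem Bd.dop {R B : ℝ} {σ : S4} (h : Bd (R + 1) B σ) : Bd R (2 * B) (Dop σ) := by
  intro a b c d hb
  have h1 := h _ _ _ _ (seq4_box (k := 1) hb (by simp))
  have h2 := h _ _ _ _ (seq4_box (k := -1) hb (by simp))
  rw [← sub_eq_add_neg, sub_neg_eq_add] at h2
  exact (norm_sub_le _ _).trans (by linarith)
theorem Bd.sw {R B : ℝ} {σ : S4} (h : Bd R B σ) : Bd R B (Sw σ) :=
  fun a b c d hb => h b a c d ⟨hb.2.1, hb.1, hb.2.2⟩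
theorem Sp_mul (p q : LP) (σ : S4) : Sp (p * q) σ = Sp p (Sp q σ) := by
  funext a b c d
  simp only [Sp, ap_mul, add_assoc, sub_sub]
theorem Sp_one (σ : S4) : Sp 1 σ = σ := by
  funext a b c d
  simp [Sp, ap_one]
theorem Sp_DL_pow (j : ℕ) (σ : S4) : Sp (DL ^ j) σ = Dop^[j] σ := by
  funext a b c d
  rw [Sp, ← mul_one (DL ^ j), ap_DL_pow, ap_one, ← dop_iter, add_zero, sub_zero]
theorem Sp_T (n : ℤ) (σ : S4) (a b c d : ℤ) :
    Sp (LaurentPolynomial.T n) σ a b c d = σ (a + n) (b - n) c d := ap_T _ _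
theorem Up4_Sp (p : LP) (σ : S4) : Up4 (Sp p σ) = Sp p (Up4 σ) := by
  funext a b c d
  simp only [Up4, Sp, ap_sub, ap_add, add_right_comm, sub_add_eq_add_sub]
theorem Dn4_Sp (p : LP) (σ : S4) : Dn4 (Sp p σ) = Sp p (Dn4 σ) := by
  funext a b c d
  simp only [Dn4, Sp, ap_sub, ap_add, sub_right_comm, sub_add_eq_add_sub]
theorem Sw_Sp (p : LP) (σ : S4) : Sw (Sp p σ) = Sp (LaurentPolynomial.invert p) (Sw σ) := by
  funext a b c d
  simp only [Sw, Sp, ap_invert, sub_neg_eq_add, ← sub_eq_add_neg]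
theorem invert_DL_pow (j : ℕ) :
    LaurentPolynomial.invert (DL ^ j) = LaurentPolynomial.C ((-1) ^ j) * DL ^ j := by
  have : LaurentPolynomial.invert DL = -DL := by simp [DL]
  rw [map_pow, this, map_pow, map_neg, map_one, ← mul_pow, neg_one_mul]
theorem Sw_dop_iter (j : ℕ) {σ : S4} (h : Sw σ = σ) (a b c d : ℤ) :
    Sw (Dop^[j] σ) a b c d = (-1) ^ j * Dop^[j] σ a b c d := by
  rw [← Sp_DL_pow, Sw_Sp, h, invert_DL_pow, Sp, ap_C_mul]
  push_cast
  rfl
theorem Bd_Sp (p : LP) : ∃ L A : ℝ, 0 ≤ L ∧ 0 ≤ A ∧ ∀ (R B : ℝ) (σ : S4),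
    Bd (R + L) B σ → Bd R (A * B) (Sp p σ) := by
  obtain ⟨L, A, hL, hA, h⟩ := ap_norm_le p
  exact ⟨L, A, hL, hA, fun R B σ hσ a b c d hb => h _ _ fun k hk => hσ _ _ _ _ (seq4_box hb hk)⟩

/-! ### The angular cutoffs -/

theorem exists_chi (n : ℕ) : ∃ r : LP, LaurentPolynomial.invert (DL ^ 10 * r) = DL ^ 10 * r ∧
    ∀ θ, ev (DL ^ 10 * r) θ = (chi n θ : ℂ) := by
  let c : LP := LaurentPolynomial.C (1 / 2) * (LaurentPolynomial.T 1 + LaurentPolynomial.T (-1))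
  have h0 : (LaurentPolynomial.T 1 * LaurentPolynomial.T (-1) : LP) = 1 := by
    rw [← LaurentPolynomial.T_add]; simp
  have h1 : (LaurentPolynomial.C (1 / 2) : LP) * 2 = 1 := by
    rw [show (2 : LP) = LaurentPolynomial.C 2 from (map_ofNat _ 2).symm, ← map_mul]; simp
  have h2 : 1 - c ^ 2 = DL ^ 2 * (-LaurentPolynomial.C (1 / 2) ^ 2) := by
    simp only [c, DL]
    generalize (LaurentPolynomial.C (1 / 2) : LP) = x at h1
    linear_combination (-4 * x ^ 2) * h0 - (2 * x + 1) * h1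
  have h3 : DL ^ 10 * ((-LaurentPolynomial.C (1 / 2) ^ 2) * ∑ i ∈ Finset.range n, (c ^ 2) ^ i) ^ 5
      = (1 - c ^ (2 * n)) ^ 5 := by
    rw [pow_mul c, ← mul_neg_geom_sum, h2]
    ring
  generalize ((-LaurentPolynomial.C (1 / 2) ^ 2) * ∑ i ∈ Finset.range n, (c ^ 2) ^ i) ^ 5 = r at h3
  refine ⟨r, ?_, fun θ => ?_⟩
  swap
  · rw [h3, ← seq4_evH_apply, map_pow, map_sub, map_one, map_pow, seq4_evH_apply]
    have : ev c θ = Real.cos (2 * θ) := by
      simp only [c, ev]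
      rw [ap_C_mul, ap_add_left, ap_T, ap_T, Complex.ofReal_cos, Complex.cos]
      push_cast
      rw [show 2 * (1 : ℂ) * θ * I = 2 * θ * I by ring,
        show 2 * (-1 : ℂ) * θ * I = -(2 * θ) * I by ring]
      ring
    rw [this, chi]
    push_cast
    rfl
  · have : LaurentPolynomial.invert c = c := by simp [c, add_comm]
    rw [h3, map_pow, map_sub, map_one, map_pow, this]
theorem chi_neg (n : ℕ) (θ : ℝ) : chi n (-θ) = chi n θ := by simp [chi]
theorem continuous_chi (n : ℕ) : Continuous (chi n) := by unfold chi; fun_prop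
theorem continuous_Wn (n : ℕ) : Continuous (Wn n) :=
  (continuous_const.mul (continuous_chi n)).sub ((continuous_chi n).pow 2)
theorem seq4_cos_mem (n : ℕ) (θ : ℝ) :
    0 ≤ Real.cos (2 * θ) ^ (2 * n) ∧ Real.cos (2 * θ) ^ (2 * n) ≤ 1 := by
  rw [pow_mul]
  exact ⟨by positivity, pow_le_one₀ (sq_nonneg _) (Real.cos_sq_le_one _)⟩
theorem seq4_chi_mem (n : ℕ) (θ : ℝ) : 0 ≤ chi n θ ∧ chi n θ ≤ 1 := by
  obtain ⟨h1, h2⟩ := seq4_cos_mem n θ
  exact ⟨pow_nonneg (by linarith) _, pow_le_one₀ (by linarith) (by linarith)⟩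
theorem Wn_mem (n : ℕ) (θ : ℝ) : 0 ≤ Wn n θ ∧ Wn n θ ≤ 1 := by
  obtain ⟨h1, h2⟩ := seq4_chi_mem n θ
  unfold Wn
  constructor <;> nlinarith
theorem Wn_period (n : ℕ) (θ : ℝ) : Wn n (θ + Real.pi / 2) = Wn n θ := by
  have : chi n (θ + Real.pi / 2) = chi n θ := by
    unfold chi
    rw [show 2 * (θ + Real.pi / 2) = 2 * θ + Real.pi by ring, Real.cos_add_pi, pow_mul, pow_mul,
      neg_sq]
  rw [Wn, this, Wn]
theorem Wn_large {δ θ₀ : ℝ} (hδ : 0 < δ) (h₀ : 0 < θ₀) :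
    ∃ n : ℕ, ∀ θ ∈ Icc θ₀ (Real.pi / 2 - θ₀), 1 - δ ≤ Wn n θ := by
  by_cases h : θ₀ ≤ Real.pi / 2 - θ₀
  swap
  · exact ⟨0, fun θ hθ => absurd (hθ.1.trans hθ.2) h⟩
  have hpi := Real.pi_pos
  have h1 : Real.cos (2 * θ₀) < 1 := by
    rw [← Real.cos_zero]
    exact Real.cos_lt_cos_of_nonneg_of_le_pi le_rfl (by linarith) (by linarith)
  have h2 : 0 ≤ Real.cos (2 * θ₀) :=
    Real.cos_nonneg_of_neg_pi_div_two_le_of_le (by linarith) (by linarith)
  obtain ⟨n, hn⟩ := exists_pow_lt_of_lt_one (by positivity : 0 < δ / 5)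
    (by nlinarith : Real.cos (2 * θ₀) ^ 2 < 1)
  refine ⟨n, fun θ hθ => ?_⟩
  have h3 : Real.cos (2 * θ) ≤ Real.cos (2 * θ₀) :=
    Real.cos_le_cos_of_nonneg_of_le_pi (by linarith) (by linarith [hθ.2]) (by linarith [hθ.1])
  have h4 : -Real.cos (2 * θ₀) ≤ Real.cos (2 * θ) := by
    rw [← Real.cos_pi_sub]
    exact Real.cos_le_cos_of_nonneg_of_le_pi (by linarith [hθ.1]) (by linarith)
      (by linarith [hθ.2])
  have h5 : Real.cos (2 * θ) ^ (2 * n) ≤ (Real.cos (2 * θ₀) ^ 2) ^ n := by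
    rw [pow_mul]
    exact pow_le_pow_left₀ (sq_nonneg _) (sq_le_sq' h4 h3) n
  obtain ⟨h6, h7⟩ := seq4_chi_mem n θ
  have h8 := one_add_mul_le_pow (a := -Real.cos (2 * θ) ^ (2 * n))
    (by linarith [(seq4_cos_mem n θ).2]) 5
  rw [← sub_eq_add_neg] at h8
  have h9 : 1 - δ ≤ chi n θ := by
    unfold chi
    push_cast at h8
    linarith
  unfold Wn
  nlinarith

end Pool.Agent.MP_a28cf0_nt.Four

namespace Pool.Agent.MP_a28cf0_nt.Four

open MeasureTheory Complex Filter Topology Set Pool.Agent.MP_a28cf0_nt.Cub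
open scoped ENNReal MatrixGroups

theorem cf_nonneg (N : ℝ) (x : ℤ) : 0 ≤ cf N x := bump.nonneg

theorem cf_le_one (N : ℝ) (x : ℤ) : cf N x ≤ 1 := bump.le_one

theorem cf_neg (N : ℝ) (x : ℤ) : cf N (-x) = cf N x := by
  rw [cf, cf, Int.cast_neg, neg_div]
  exact bump.neg _

theorem cf_zero {N : ℝ} (hN : 0 < N) {x : ℤ} (hx : 2 * N ≤ |(x : ℝ)|) : cf N x = 0 := by
  refine bump.zero_of_le_dist ?_
  rw [Real.dist_eq, sub_zero, abs_div, abs_of_pos hN, le_div_iff₀ hN]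
  exact hx

theorem cf_one {N : ℝ} (hN : 0 < N) {x : ℤ} (hx : |(x : ℝ)| ≤ N) : cf N x = 1 := by
  refine bump.one_of_mem_closedBall ?_
  rw [Metric.mem_closedBall, Real.dist_eq, sub_zero, abs_div, abs_of_pos hN, div_le_iff₀ hN]
  change _ ≤ 1 * N
  linarith

theorem cf_coef (K : ℝ) : ∃ K' : ℝ, ∀ N : ℝ, 1 ≤ N → ∀ m₀ : ℤ, |(m₀ : ℝ)| ≤ K * N →
    Coef3 K' N fun m => cf N (m - m₀) := by
  obtain ⟨C1, p1, h1⟩ := coef_deriv_bd bump.contDiff bump.hasCompactSupport 1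
  obtain ⟨C2, p2, h2⟩ := coef_deriv_bd bump.contDiff bump.hasCompactSupport 2
  obtain ⟨C3, p3, h3⟩ := coef_deriv_bd bump.contDiff bump.hasCompactSupport 3
  refine ⟨|K| + 2 + C1 + C2 + C3, fun N hN m₀ hm₀ => ?_⟩
  have hN0 : 0 < N := by linarith
  have hK := abs_nonneg K
  have hh : 0 ≤ N⁻¹ := by positivity
  have bound : ∀ (k : ℕ) (C : ℝ), C ≤ |K| + 2 + C1 + C2 + C3 →
      C * N⁻¹ ^ k ≤ (|K| + 2 + C1 + C2 + C3) / N ^ k := fun k C hC' => by
    rw [div_eq_mul_inv, ← inv_pow]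
    exact mul_le_mul_of_nonneg_right hC' (by positivity)
  refine ⟨⟨fun m hm => cf_zero hN0 ?_, fun m => ?_, fun m => ?_⟩, fun m => ?_, fun m => ?_⟩
  · have := abs_sub_abs_le_abs_sub (m : ℝ) m₀
    have h4 : K * N ≤ |K| * N := mul_le_mul_of_nonneg_right (le_abs_self K) hN0.le
    push_cast
    nlinarith
  · rw [abs_of_nonneg (cf_nonneg _ _)]
    linarith [cf_le_one N (m - m₀)]
  · have := (coef_fwd_le hh 1 bump C1 bump.contDiff h1 (((m : ℝ) - m₀) * N⁻¹)).trans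
      (bound 1 C1 (by linarith))
    rw [pow_one] at this
    refine le_of_eq_of_le (congrArg abs ?_) this
    simp only [Function.iterate_one, fwdDiff, cf]
    push_cast
    ring_nf
  · have := (coef_fwd_le hh 2 bump C2 bump.contDiff h2 (((m : ℝ) - 1 - m₀) * N⁻¹)).trans
      (bound 2 C2 (by linarith))
    refine le_of_eq_of_le (congrArg abs ?_) this
    simp only [Function.iterate_succ_apply, Function.iterate_zero_apply, fwdDiff, cf]
    push_cast
    ring_nf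
  · have := (coef_fwd_le hh 3 bump C3 bump.contDiff h3 (((m : ℝ) - 1 - m₀) * N⁻¹)).trans
      (bound 3 C3 (by linarith))
    refine le_of_eq_of_le (congrArg abs ?_) this
    simp only [Function.iterate_succ_apply, Function.iterate_zero_apply, fwdDiff, cf]
    push_cast
    ring_nf

theorem cf_coef0 : ∃ K' : ℝ, ∀ N : ℝ, 1 ≤ N → Coef3 K' N (cf N) := by
  obtain ⟨K', h⟩ := cf_coef 0
  refine ⟨K', fun N hN => ?_⟩
  simpa using h N hN 0 (by simp)

/-- a finite window of integers -/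
noncomputable def profS (R : ℝ) : Finset ℤ := Finset.Icc (-⌊R⌋) ⌊R⌋

theorem prof_mem {R : ℝ} {x : ℤ} : x ∈ profS R ↔ |(x : ℝ)| ≤ R := by
  rw [profS, Finset.mem_Icc, ← abs_le, Int.le_floor, Int.cast_abs]

theorem prof_card {R : ℝ} (hR : 0 ≤ R) : ((profS R).card : ℝ) = 2 * (⌊R⌋ : ℝ) + 1 := by
  have h0 : 0 ≤ ⌊R⌋ := Int.floor_nonneg.2 hR
  have h1 : (((profS R).card : ℕ) : ℤ) = 2 * ⌊R⌋ + 1 := by
    rw [profS, Int.card_Icc, Int.toNat_of_nonneg (by omega)]
    ring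
  exact_mod_cast h1

theorem prof_card_le {R : ℝ} (hR : 0 ≤ R) : ((profS R).card : ℝ) ≤ 2 * R + 1 := by
  rw [prof_card hR]
  linarith [Int.floor_le R]

theorem prof_zero {N R : ℝ} (hN : 0 < N) (hR : 2 * N ≤ R) {x : ℤ} (hx : x ∉ profS R) :
    cf N x = 0 :=
  cf_zero hN (hR.trans (le_of_lt (lt_of_not_ge fun h => hx (prof_mem.2 h))))

theorem summable_cf {N : ℝ} (hN : 0 < N) (u : ℤ → ℂ) : Summable fun x => (cf N x : ℂ) * u x :=
  summable_of_ne_finset_zero (s := profS (2 * N)) fun x hx => by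
    rw [prof_zero hN le_rfl hx]
    simp

theorem prof_cs {N R : ℝ} (hN : 0 < N) (hR : 2 * N ≤ R) : cs N = ∑ x ∈ profS R, cf N x ^ 2 :=
  tsum_eq_sum fun x hx => by
    rw [prof_zero hN hR hx]
    simp

theorem prof_sum_le {N : ℝ} (hN : 1 ≤ N) {f : ℤ → ℝ} (hf : ∀ x, f x ≤ 1) :
    ∑ x ∈ profS (2 * N), f x ≤ 5 * N := by
  have h1 := Finset.sum_le_card_nsmul (profS (2 * N)) f 1 fun x _ => hf x
  have h2 := prof_card_le (R := 2 * N) (by linarith)
  rw [nsmul_eq_mul, mul_one] at h1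
  linarith

theorem cs_bounds {N : ℝ} (hN : 1 ≤ N) : N ≤ cs N ∧ cs N ≤ 5 * N := by
  have hN0 : 0 < N := by linarith
  rw [prof_cs hN0 le_rfl]
  refine ⟨?_, prof_sum_le hN fun x => pow_le_one₀ (cf_nonneg _ _) (cf_le_one _ _)⟩
  have h1 : profS N ⊆ profS (2 * N) := fun x hx => prof_mem.2 ((prof_mem.1 hx).trans (by linarith))
  have h2 : ∑ x ∈ profS N, cf N x ^ 2 ≤ ∑ x ∈ profS (2 * N), cf N x ^ 2 :=
    Finset.sum_le_sum_of_subset_of_nonneg h1 fun x _ _ => sq_nonneg _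
  have h3 : ∑ x ∈ profS N, cf N x ^ 2 = ∑ x ∈ profS N, (1 : ℝ) :=
    Finset.sum_congr rfl fun x hx => by rw [cf_one hN0 (prof_mem.1 hx), one_pow]
  rw [h3, Finset.sum_const, nsmul_eq_mul, mul_one, prof_card hN0.le] at h2
  linarith [Int.sub_one_lt_floor N]

theorem cf_sum {N : ℝ} (hN : 1 ≤ N) : Summable (cf N) ∧ ∑' x, cf N x ≤ 5 * N := by
  have hN0 : 0 < N := by linarith
  refine ⟨summable_of_ne_finset_zero (s := profS (2 * N)) fun x hx => prof_zero hN0 le_rfl hx, ?_⟩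
  rw [tsum_eq_sum (s := profS (2 * N)) fun x hx => prof_zero hN0 le_rfl hx]
  exact prof_sum_le hN fun x => cf_le_one _ _

theorem cf_lip : ∃ C : ℝ, 0 ≤ C ∧ ∀ N : ℝ, 1 ≤ N → ∀ x y : ℤ,
    |cf N x - cf N y| ≤ C * |(x : ℝ) - y| / N := by
  obtain ⟨C, p, h⟩ := coef_deriv_bd bump.contDiff bump.hasCompactSupport 1
  refine ⟨C, p, fun N hN x y => ?_⟩
  have hN0 : 0 < N := by linarith
  have hd : Differentiable ℝ bump :=
    (bump.contDiff (n := (⊤ : ℕ∞))).differentiable (by simp)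
  have := Convex.norm_image_sub_le_of_norm_deriv_le (f := bump) (s := univ) (C := C)
    (fun z _ => hd z) (fun z _ => h z) convex_univ (mem_univ ((y : ℝ) / N))
    (mem_univ ((x : ℝ) / N))
  rw [Real.norm_eq_abs, Real.norm_eq_abs, ← sub_div, abs_div, abs_of_pos hN0,
    ← mul_div_assoc] at this
  exact this

theorem prof_dl_fwd (h : ℝ) (i : ℕ) : ∀ (f : ℝ → ℝ) (a : ℝ) (k : ℤ),
    dl^[i] (fun k : ℤ => ((f (a + h * k) : ℝ) : ℂ)) k =
      (((fwdDiff (2 * h))^[i] f (a + h * (k - i)) : ℝ) : ℂ) := by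
  induction i with
  | zero => intro f a k; simp
  | succ i ih =>
    intro f a k
    have e : dl (fun k : ℤ => ((f (a + h * k) : ℝ) : ℂ)) =
        fun k : ℤ => ((fwdDiff (2 * h) f (a - h + h * k) : ℝ) : ℂ) := by
      funext k
      simp only [dl, fwdDiff]
      push_cast
      ring_nf
    rw [Function.iterate_succ_apply, Function.iterate_succ_apply, e, ih]
    push_cast
    ring_nf

theorem prof_dl_le {h : ℝ} (hh : 0 ≤ h) (i : ℕ) {f : ℝ → ℝ} {C : ℝ}
    (hf : ContDiff ℝ (⊤ : ℕ∞) f) (hC : ∀ x, |deriv^[i] f x| ≤ C) (a : ℝ) (k : ℤ) :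
    ‖dl^[i] (fun k : ℤ => ((f (a + h * k) : ℝ) : ℂ)) k‖ ≤ C * (2 * h) ^ i := by
  rw [prof_dl_fwd, Complex.norm_real, Real.norm_eq_abs]
  exact coef_fwd_le (by positivity) i f C hf hC _

theorem prof_dl_congr (i : ℕ) {u v : ℤ → ℂ} : ∀ k : ℤ, (∀ j : ℤ, |j - k| ≤ i → u j = v j) →
    dl^[i] u k = dl^[i] v k := by
  induction i with
  | zero => intro k h; exact h k (by simp)
  | succ i ih =>
    intro k h
    rw [Function.iterate_succ_apply', Function.iterate_succ_apply', dl, dl,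
      ih (k + 1) fun j hj => h j ?_, ih (k - 1) fun j hj => h j ?_]
    · have := abs_le.1 hj
      push_cast
      exact abs_le.2 ⟨by omega, by omega⟩
    · have := abs_le.1 hj
      push_cast
      exact abs_le.2 ⟨by omega, by omega⟩

theorem cf_dl (i : ℕ) : ∃ C : ℝ, 0 ≤ C ∧ ∀ N : ℝ, 1 ≤ N → ∀ k : ℤ,
    ‖dl^[i] (fun k => (cf N k : ℂ)) k‖ ≤ C / N ^ i := by
  obtain ⟨C, p, h⟩ := coef_deriv_bd bump.contDiff bump.hasCompactSupport i
  refine ⟨C * 2 ^ i, by positivity, fun N hN k => ?_⟩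
  have hN0 : 0 < N := by linarith
  have e : (fun k : ℤ => (cf N k : ℂ)) = fun k : ℤ => ((bump (0 + N⁻¹ * k) : ℝ) : ℂ) := by
    funext k
    rw [cf, zero_add, div_eq_inv_mul]
  rw [e]
  refine (prof_dl_le (by positivity) i bump.contDiff h 0 k).trans (le_of_eq ?_)
  rw [mul_pow, inv_pow]
  ring

theorem prof_lam_two (i : ℕ) (K : ℝ) : ∃ C : ℝ, 0 ≤ C ∧ ∀ t : ℝ, 1 ≤ t → ∀ k : ℤ,
    |(k : ℝ)| ≤ K * √t → ‖dl^[i] (fun k => ((lam t k - t : ℝ) : ℂ)) k‖ ≤ C * t / t ^ i := by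
  have hR : 0 < |K| + i + 1 := by positivity
  let b : ContDiffBump (0 : ℝ) := ⟨|K| + i + 1, |K| + i + 2, hR, by linarith⟩
  have hg : ContDiff ℝ (⊤ : ℕ∞) fun y : ℝ => (√(1 + y ^ 2) - 1) * b y :=
    (((contDiff_const.add (contDiff_id.pow 2)).sqrt fun y => by positivity).sub
      contDiff_const).mul b.contDiff
  obtain ⟨C, p, h⟩ := coef_deriv_bd hg b.hasCompactSupport.mul_left i
  refine ⟨C * 2 ^ i, by positivity, fun t ht k hk => ?_⟩
  have ht0 : 0 < t := by linarith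
  have hs : √t ≤ t := by
    rw [Real.sqrt_le_left ht0.le]
    nlinarith
  have hk' : |(k : ℝ)| ≤ |K| * t :=
    hk.trans (mul_le_mul (le_abs_self K) hs (Real.sqrt_nonneg t) (abs_nonneg K))
  rw [prof_dl_congr i (v := fun j : ℤ => (t : ℂ) *
    (((√(1 + (1 / 2 * t⁻¹ + t⁻¹ * j) ^ 2) - 1) * b (1 / 2 * t⁻¹ + t⁻¹ * j) : ℝ) : ℂ)) k
      fun j hj => ?_, dl_iter_const_mul, norm_mul, Complex.norm_real, Real.norm_eq_abs,
      abs_of_pos ht0]
  · have := prof_dl_le (h := t⁻¹) (by positivity) i hg h (1 / 2 * t⁻¹) k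
    refine (mul_le_mul_of_nonneg_left this ht0.le).trans (le_of_eq ?_)
    rw [mul_pow, inv_pow]
    ring
  · have hj' : |(j : ℝ) - k| ≤ i := by exact_mod_cast hj
    have h1 := abs_sub_abs_le_abs_sub (j : ℝ) k
    have h2 := abs_add_le (j : ℝ) (1 / 2)
    rw [abs_of_pos (show (0 : ℝ) < 1 / 2 by norm_num)] at h2
    have e : 1 / 2 * t⁻¹ + t⁻¹ * j = ((j : ℝ) + 1 / 2) / t := by ring
    have hb : b (((j : ℝ) + 1 / 2) / t) = 1 := by
      refine b.one_of_mem_closedBall ?_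
      rw [Metric.mem_closedBall, Real.dist_eq, sub_zero, abs_div, abs_of_pos ht0, div_le_iff₀ ht0]
      change _ ≤ (|K| + i + 1) * t
      have : (0 : ℝ) ≤ i := Nat.cast_nonneg i
      nlinarith
    have e2 : lam t j = t * √(1 + (((j : ℝ) + 1 / 2) / t) ^ 2) := by
      rw [lam, ← Real.sqrt_sq ht0.le, ← Real.sqrt_mul (sq_nonneg t), Real.sqrt_sq ht0.le]
      congr 1
      field_simp
    rw [e, hb, e2]
    push_cast
    ring

theorem lam_dl (i : ℕ) (K : ℝ) : ∃ C : ℝ, 0 ≤ C ∧ ∀ t : ℝ, 1 ≤ t → ∀ k : ℤ, |(k : ℝ)| ≤ K * √t →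
    ‖dl^[i] (fun k => ((lam t k - t : ℝ) : ℂ)) k‖ ≤ C / (√t) ^ i := by
  have hK := abs_nonneg K
  match i with
  | 0 =>
    refine ⟨(|K| + 1) ^ 2, by positivity, fun t ht k hk => ?_⟩
    have ht0 : 0 < t := by linarith
    have hN : 1 ≤ √t := Real.one_le_sqrt.2 ht
    have hNN : √t ^ 2 = t := Real.sq_sqrt ht0.le
    have h1 : K * √t ≤ |K| * √t := mul_le_mul_of_nonneg_right (le_abs_self K) (by linarith)
    have h2 : |(k : ℝ) + 1 / 2| ≤ (|K| + 1) * √t := by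
      have := abs_add_le (k : ℝ) (1 / 2)
      rw [abs_of_pos (show (0 : ℝ) < 1 / 2 by norm_num)] at this
      nlinarith
    have h3 : ((k : ℝ) + 1 / 2) ^ 2 ≤ (|K| + 1) ^ 2 * t := by
      have := pow_le_pow_left₀ (abs_nonneg _) h2 2
      rwa [sq_abs, mul_pow, hNN] at this
    rw [Function.iterate_zero_apply, Complex.norm_real, Real.norm_eq_abs,
      abs_of_nonneg (sub_nonneg.2 (le_lam t k)), pow_zero, div_one]
    refine (lam_sub_le ht0 k).trans ?_
    rw [div_le_iff₀ (by positivity)]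
    nlinarith [sq_nonneg (|K| + 1)]
  | 1 =>
    refine ⟨2 * |K| + 1, by positivity, fun t ht k hk => ?_⟩
    have ht0 : 0 < t := by linarith
    have hN : 1 ≤ √t := Real.one_le_sqrt.2 ht
    have hNN : √t * √t = t := Real.mul_self_sqrt ht0.le
    have h1 : K * √t ≤ |K| * √t := mul_le_mul_of_nonneg_right (le_abs_self K) (by linarith)
    have h2 := coef_lam_diff ht0 (k + 1)
    have h3 := coef_lam_diff ht0 k
    rw [add_sub_cancel_right] at h2
    have h4 := abs_add_le (k : ℝ) 1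
    rw [abs_one] at h4
    push_cast at h2
    have h5 := abs_sub_le (lam t (k + 1)) (lam t k) (lam t (k - 1))
    have h6 : |(k : ℝ) + 1| / t + |(k : ℝ)| / t ≤ (2 * |K| + 1) / √t := by
      rw [← add_div, div_le_div_iff₀ ht0 (by linarith)]
      nlinarith
    rw [Function.iterate_one, dl, ← Complex.ofReal_sub, Complex.norm_real, Real.norm_eq_abs,
      pow_one, sub_sub_sub_cancel_right]
    linarith
  | i + 2 =>
    obtain ⟨C, p, h⟩ := prof_lam_two (i + 2) K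
    refine ⟨C, p, fun t ht k hk => (h t ht k hk).trans ?_⟩
    have ht0 : 0 < t := by linarith
    have hN : 1 ≤ √t := Real.one_le_sqrt.2 ht
    have hNN : √t ^ 2 = t := Real.sq_sqrt ht0.le
    have hs : √t ≤ t := by nlinarith
    have h1 : √t ^ i ≤ t ^ i := pow_le_pow_left₀ (by linarith) hs i
    rw [div_le_div_iff₀ (by positivity) (by positivity), pow_add, pow_add, hNN, mul_assoc]
    refine mul_le_mul_of_nonneg_left ?_ p
    nlinarith [mul_pos ht0 ht0]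

theorem prof_av {N R : ℝ} (hN : 0 < N) (hR : 2 * N ≤ R) (u : ℤ → ℂ) :
    av N u = (∑ x ∈ profS R, ((cf N x ^ 2 : ℝ) : ℂ) * u x) / (cs N : ℂ) := by
  rw [av, tsum_eq_sum (s := profS R) fun x hx => ?_]
  rw [prof_zero hN hR hx]
  simp

theorem av_le {N B : ℝ} {u : ℤ → ℂ} (hN : 1 ≤ N) (h : ∀ x : ℤ, |(x : ℝ)| ≤ 2 * N → ‖u x‖ ≤ B) :
    ‖av N u‖ ≤ B := by
  have hN0 : 0 < N := by linarith
  have hc : 0 < cs N := hN0.trans_le (cs_bounds hN).1
  rw [prof_av hN0 le_rfl, norm_div, Complex.norm_real, Real.norm_eq_abs, abs_of_pos hc,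
    div_le_iff₀ hc, prof_cs hN0 le_rfl, Finset.mul_sum]
  refine (norm_sum_le _ _).trans (Finset.sum_le_sum fun x hx => ?_)
  rw [norm_mul, Complex.norm_real, Real.norm_eq_abs, abs_of_nonneg (sq_nonneg _), mul_comm]
  exact mul_le_mul_of_nonneg_right (h x (prof_mem.1 hx)) (sq_nonneg _)

theorem av_const {N : ℝ} (hN : 1 ≤ N) (z : ℂ) : av N (fun _ => z) = z := by
  have hN0 : 0 < N := by linarith
  have hc : 0 < cs N := hN0.trans_le (cs_bounds hN).1
  have hc' : (cs N : ℂ) ≠ 0 := by exact_mod_cast hc.ne'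
  rw [prof_av hN0 le_rfl, ← Finset.sum_mul, ← Complex.ofReal_sum, ← prof_cs hN0 le_rfl]
  field_simp

theorem av_add {N : ℝ} (hN : 1 ≤ N) (u v : ℤ → ℂ) :
    av N (fun x => u x + v x) = av N u + av N v := by
  have hN0 : 0 < N := by linarith
  simp only [prof_av hN0 le_rfl, mul_add, Finset.sum_add_distrib, add_div]

theorem av_sub {N : ℝ} (hN : 1 ≤ N) (u v : ℤ → ℂ) :
    av N (fun x => u x - v x) = av N u - av N v := by
  have hN0 : 0 < N := by linarith
  simp only [prof_av hN0 le_rfl, mul_sub, Finset.sum_sub_distrib, sub_div]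

theorem av_const_mul (N : ℝ) (z : ℂ) (u : ℤ → ℂ) : av N (fun x => z * u x) = z * av N u := by
  rw [av, av, ← mul_div_assoc, ← tsum_mul_left]
  congr 1
  exact tsum_congr fun x => by ring

theorem av_shift : ∃ V : ℝ, 0 ≤ V ∧ ∀ (N B : ℝ) (u : ℤ → ℂ), 1 ≤ N →
    (∀ x : ℤ, |(x : ℝ)| ≤ 2 * N + 1 → ‖u x‖ ≤ B) →
    ‖av N (fun x => u (x + 1)) - av N u‖ ≤ V * B / N := by
  obtain ⟨C, p, hC⟩ := cf_lip
  refine ⟨14 * C, by positivity, fun N B u hN h => ?_⟩
  have hN0 : 0 < N := by linarith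
  have hc1 := (cs_bounds hN).1
  have hc : 0 < cs N := hN0.trans_le hc1
  have hB : 0 ≤ B := (norm_nonneg _).trans (h 0 (by simp; positivity))
  have e1 : av N (fun x => u (x + 1)) =
      (∑ x ∈ profS (2 * N + 1), ((cf N (x - 1) ^ 2 : ℝ) : ℂ) * u x) / (cs N : ℂ) := by
    rw [av, ← (Equiv.subRight (1 : ℤ)).tsum_eq, tsum_eq_sum (s := profS (2 * N + 1)) fun x hx => ?_]
    · simp only [Equiv.subRight_apply, sub_add_cancel]
    · have h1 : 2 * N + 1 < |(x : ℝ)| := lt_of_not_ge fun h => hx (prof_mem.2 h)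
      have h2 := abs_sub_abs_le_abs_sub (x : ℝ) 1
      rw [abs_one] at h2
      rw [Equiv.subRight_apply, cf_zero hN0 (by push_cast; linarith)]
      simp
  have e2 : ∀ x ∈ profS (2 * N + 1), ‖((cf N (x - 1) ^ 2 : ℝ) : ℂ) * u x -
      ((cf N x ^ 2 : ℝ) : ℂ) * u x‖ ≤ 2 * C / N * B := by
    intro x hx
    have h1 := hC N hN (x - 1) x
    have h2 : |((x - 1 : ℤ) : ℝ) - x| = 1 := by
      push_cast
      rw [sub_sub_cancel_left, abs_neg, abs_one]
    rw [h2, mul_one] at h1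
    have h3 : |cf N (x - 1) + cf N x| ≤ 2 := by
      rw [abs_of_nonneg (add_nonneg (cf_nonneg _ _) (cf_nonneg _ _))]
      linarith [cf_le_one N (x - 1), cf_le_one N x]
    rw [← sub_mul, norm_mul, ← Complex.ofReal_sub, Complex.norm_real, Real.norm_eq_abs,
      sq_sub_sq, abs_mul, mul_div_assoc]
    exact mul_le_mul (mul_le_mul h3 h1 (abs_nonneg _) (by norm_num)) (h x (prof_mem.1 hx))
      (norm_nonneg _) (by positivity)
  have e3 := Finset.sum_le_card_nsmul _ _ _ e2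
  have e4 := prof_card_le (R := 2 * N + 1) (by linarith)
  rw [nsmul_eq_mul] at e3
  rw [e1, prof_av hN0 (R := 2 * N + 1) (by linarith), ← sub_div, ← Finset.sum_sub_distrib,
    norm_div, Complex.norm_real, Real.norm_eq_abs, abs_of_pos hc]
  refine div_le_div₀ (by positivity) (((norm_sum_le _ _).trans e3).trans ?_) hN0 hc1
  have e5 : ((profS (2 * N + 1)).card : ℝ) ≤ 7 * N := by linarith
  refine (mul_le_mul_of_nonneg_right e5 (by positivity)).trans (le_of_eq ?_)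
  field_simp
  ring

theorem av_near {N δ : ℝ} {u : ℤ → ℂ} (hN : 1 ≤ N)
    (h : ∀ x : ℤ, |(x : ℝ)| ≤ 2 * N → ‖u (x + 1) - u x‖ ≤ δ) : ‖av N u - u 0‖ ≤ 2 * N * δ := by
  have hδ : 0 ≤ δ := (norm_nonneg _).trans (h 0 (by simp; positivity))
  have key : ∀ x : ℤ, |(x : ℝ)| ≤ 2 * N → ‖u x - u 0‖ ≤ |(x : ℝ)| * δ := by
    intro x
    induction x using Int.induction_on with
    | zero => intro _; simp
    | succ n ih =>
      intro hx
      have hn : (0 : ℝ) ≤ n := Nat.cast_nonneg n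
      push_cast at hx ih ⊢
      rw [abs_of_nonneg (by positivity)] at hx ⊢
      rw [abs_of_nonneg hn] at ih
      have h1 := h n (by push_cast; rw [abs_of_nonneg hn]; linarith)
      have h2 := norm_sub_le_norm_sub_add_norm_sub (u (n + 1)) (u n) (u 0)
      have h3 := ih (by linarith)
      linarith
    | pred n ih =>
      intro hx
      have hn : (0 : ℝ) ≤ n := Nat.cast_nonneg n
      have h1 := h (-n - 1) hx
      rw [sub_add_cancel, norm_sub_rev] at h1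
      push_cast at hx ih ⊢
      rw [abs_of_nonpos (by linarith)] at hx ⊢
      rw [abs_neg, abs_of_nonneg hn] at ih
      have h2 := norm_sub_le_norm_sub_add_norm_sub (u (-n - 1)) (u (-n)) (u 0)
      have h3 := ih (by linarith)
      linarith
  rw [← av_const hN (u 0), ← av_sub hN]
  exact av_le hN fun x hx => (key x hx).trans (mul_le_mul_of_nonneg_right hx hδ)

end Pool.Agent.MP_a28cf0_nt.Four
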