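import Pool.Agent.MP_a28cf0_nt.Mg.Four_Geo
import Pool.Agent.MP_a28cf0_nt.Mg.Four_Alg

set_option autoImplicit false

namespace Pool.Agent.MP_a28cf0_nt.Four

open MeasureTheory Complex Filter Topology Set Pool.Agent.MP_a28cf0_nt.Cub
open scoped ENNReal MatrixGroups

theorem dyn_rect_mono (l : ℝ × ℝ) {α β α' β' : ℝ} (h₁ : α ≤ α') (h₂ : β ≤ β') :
    rect l α β ⊆ rect l α' β' :=
  Set.prod_mono (Metric.closedBall_subset_closedBall h₁) (Metric.closedBall_subset_closedBall h₂)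

theorem dyn_mem_rect {l l' : ℝ × ℝ} {α β : ℝ} :
    l' ∈ rect l α β ↔ |l'.1 - l.1| ≤ α ∧ |l'.2 - l.2| ≤ β := by
  simp only [rect, mem_prod, Metric.mem_closedBall, Real.dist_eq]

theorem dyn_meas_rect (l : ℝ × ℝ) (α β : ℝ) : MeasurableSet (rect l α β) :=
  Metric.isClosed_closedBall.measurableSet.prod Metric.isClosed_closedBall.measurableSet

theorem Dd_mono (ν : Measure (ℝ × ℝ)) (l : ℝ × ℝ) {α β α' β' : ℝ} (h₁ : α ≤ α') (h₂ : β ≤ β') :
    Dd ν l α β ≤ Dd ν l α' β' := by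
  refine limsup_le_limsup (Eventually.of_forall fun j => ?_)
  refine mul_le_mul_right (measure_mono (dyn_rect_mono l ?_ ?_)) _
  · exact div_le_div_of_nonneg_right h₁ (by positivity)
  · exact div_le_div_of_nonneg_right h₂ (by positivity)

theorem Dd_two (ν : Measure (ℝ × ℝ)) (l : ℝ × ℝ) (α β : ℝ) :
    Dd ν l (2 * α) (2 * β) = 2 * Dd ν l α β := by
  unfold Dd
  rw [← limsup_nat_add _ 1, ← ENNReal.limsup_const_mul_of_ne_top (by norm_num)]
  refine limsup_congr (Eventually.of_forall fun j => ?_)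
  have e : ∀ x : ℝ, 2 * x / 2 ^ (j + 1) = x / 2 ^ j := fun x => by
    rw [pow_succ]; field_simp
  rw [e, e, pow_succ, mul_comm ((2 : ℝ≥0∞) ^ j) 2, mul_assoc]

theorem dyn_small (x : ℝ) {r : ℝ} (hr : 0 < r) : ∀ᶠ j : ℕ in atTop, x / 2 ^ j < r := by
  have h : Tendsto (fun j : ℕ => x / 2 ^ j) atTop (𝓝 0) :=
    tendsto_const_nhds.div_atTop (tendsto_pow_atTop_atTop_of_one_lt one_lt_two)
  exact h.eventually (gt_mem_nhds hr)

theorem Dd_restrict (ν : Measure (ℝ × ℝ)) {R : Set (ℝ × ℝ)} (hR : IsOpen R) {l : ℝ × ℝ}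
    (hl : l ∈ R) (α β : ℝ) : Dd (ν.restrict R) l α β = Dd ν l α β := by
  obtain ⟨r, hr, hsub⟩ := Metric.isOpen_iff.1 hR l hl
  refine limsup_congr ?_
  filter_upwards [dyn_small α hr, dyn_small β hr] with j h1 h2
  rw [Measure.restrict_eq_self]
  refine fun l' hl' => hsub ?_
  obtain ⟨a, b⟩ := dyn_mem_rect.1 hl'
  rw [Metric.mem_ball, Prod.dist_eq, Real.dist_eq, Real.dist_eq]
  exact max_lt (a.trans_lt h1) (b.trans_lt h2)

theorem Tan_restrict (ν : Measure (ℝ × ℝ)) {R : Set (ℝ × ℝ)} (hR : IsOpen R) {l : ℝ × ℝ}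
    (hl : l ∈ R) : Tan (ν.restrict R) l ↔ Tan ν l := by
  simp only [Tan, Dd_restrict ν hR hl]

theorem dyn_pow (ν : Measure (ℝ × ℝ)) (l : ℝ × ℝ) (α β : ℝ) (N : ℕ) :
    Dd ν l (2 ^ N * α) (2 ^ N * β) = 2 ^ N * Dd ν l α β := by
  induction N with
  | zero => simp
  | succ N ih =>
    have e : ∀ x : ℝ, 2 ^ (N + 1) * x = 2 * (2 ^ N * x) := fun x => by ring
    rw [e, e, Dd_two, ih, pow_succ, mul_comm ((2 : ℝ≥0∞) ^ N) 2, mul_assoc]

theorem dyn_meas_Dd (ν : Measure (ℝ × ℝ)) [SFinite ν] {X : Type} [MeasurableSpace X]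
    {l : X → ℝ × ℝ} {a b : X → ℝ} (hl : Measurable l) (ha : Measurable a) (hb : Measurable b) :
    Measurable fun x => Dd ν (l x) (a x) (b x) := by
  refine Measurable.limsup fun j => Measurable.const_mul ?_ _
  have hs : MeasurableSet {p : X × (ℝ × ℝ) | |p.2.1 - (l p.1).1| ≤ a p.1 / 2 ^ j ∧
      |p.2.2 - (l p.1).2| ≤ b p.1 / 2 ^ j} := by
    have m1 : MeasurableSet {p : X × (ℝ × ℝ) | |p.2.1 - (l p.1).1| ≤ a p.1 / 2 ^ j} :=
      measurableSet_le (by fun_prop) (by fun_prop)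
    have m2 : MeasurableSet {p : X × (ℝ × ℝ) | |p.2.2 - (l p.1).2| ≤ b p.1 / 2 ^ j} :=
      measurableSet_le (by fun_prop) (by fun_prop)
    exact m1.inter m2
  have := measurable_measure_prodMk_left (ν := ν) hs
  convert this using 3 with x
  ext l'
  simp only [dyn_mem_rect, mem_preimage, mem_ofPred_eq]

/-- the density read at the scale of the time `τ` -/
noncomputable def dynTh (μ : Measure E) (P : (ℝ × ℝ) × ℝ) : ℝ≥0∞ :=
  Dd (nuT μ) P.1 (|P.1.2 - P.1.1| * Real.exp (-(2 * P.2))) (|P.1.2 - P.1.1| * Real.exp (2 * P.2))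

theorem dyn_meas_Th {μ : Measure E} (hμ : Good μ) : Measurable (dynTh μ) := by
  have := nuT_sfinite hμ
  exact dyn_meas_Dd (nuT μ) measurable_fst (by fun_prop) (by fun_prop)

theorem dyn_meas_slab {φ : ℝ × ℝ → ℝ} (hφ : Measurable φ) {Y : Set (ℝ × ℝ)} (hY : MeasurableSet Y) :
    MeasurableSet {P : (ℝ × ℝ) × ℝ | P.1 ∈ Y ∧ P.2 + φ P.1 ∈ Ico (0 : ℝ) 1} :=
  (measurable_fst hY).inter ((measurable_snd.add (hφ.comp measurable_fst)) measurableSet_Ico)

/-- the mass of a set of the form `{(ell g, tc g) ∈ W}` -/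
theorem dyn_mass {μ : Measure E} (hμ : Good μ) {W : Set ((ℝ × ℝ) × ℝ)} (hW : MeasurableSet W) :
    μ {g | g ∈ U0 ∧ (ell g, tc g) ∈ W} = ∫⁻ l, volume (Prod.mk l ⁻¹' W) ∂(nuT μ) := by
  have h := prod_formula hμ (F := W.indicator 1) (measurable_one.indicator hW)
  have hm : MeasurableSet ((fun g => (ell g, tc g)) ⁻¹' W) :=
    (measurable_ell.prodMk measurable_tc) hW
  have e1 : ∫⁻ g in U0, W.indicator 1 (ell g, tc g) ∂μ = μ {g | g ∈ U0 ∧ (ell g, tc g) ∈ W} := by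
    have : (fun g => W.indicator (1 : (ℝ × ℝ) × ℝ → ℝ≥0∞) (ell g, tc g)) =
        ((fun g => (ell g, tc g)) ⁻¹' W).indicator 1 := by
      funext g
      by_cases hg : (ell g, tc g) ∈ W
      · rw [indicator_of_mem hg,
          indicator_of_mem (show g ∈ (fun g => (ell g, tc g)) ⁻¹' W from hg)]; rfl
      · rw [indicator_of_notMem hg,
          indicator_of_notMem (show g ∉ (fun g => (ell g, tc g)) ⁻¹' W from hg)]
    rw [this, lintegral_indicator_one hm, Measure.restrict_apply hm]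
    congr 1
    ext g
    simp only [mem_inter_iff, mem_preimage, mem_ofPred_eq, and_comm]
  rw [← e1, h]
  refine lintegral_congr fun l => ?_
  have : (fun τ => W.indicator (1 : (ℝ × ℝ) × ℝ → ℝ≥0∞) (l, τ)) = (Prod.mk l ⁻¹' W).indicator 1 := by
    funext τ
    by_cases hg : (l, τ) ∈ W
    · rw [indicator_of_mem hg, indicator_of_mem (show τ ∈ _ ⁻¹' W from hg)]; rfl
    · rw [indicator_of_notMem hg, indicator_of_notMem (show τ ∉ _ ⁻¹' W from hg)]
  rw [this, lintegral_indicator_one (measurable_prodMk_left hW)]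

theorem dyn_slab {μ : Measure E} (hμ : Good μ) {φ : ℝ × ℝ → ℝ} (hφ : Measurable φ)
    {Y : Set (ℝ × ℝ)} (hY : MeasurableSet Y) :
    μ {g | g ∈ U0 ∧ ell g ∈ Y ∧ tc g + φ (ell g) ∈ Ico (0 : ℝ) 1} = nuT μ Y := by
  have h := dyn_mass hμ (dyn_meas_slab hφ hY)
  simp only [mem_ofPred_eq] at h
  rw [h, ← lintegral_indicator_one hY]
  refine lintegral_congr fun l => ?_
  by_cases hl : l ∈ Y
  · have : Prod.mk l ⁻¹' {P : (ℝ × ℝ) × ℝ | P.1 ∈ Y ∧ P.2 + φ P.1 ∈ Ico (0 : ℝ) 1} =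
        Ico (-φ l) (1 - φ l) := by
      ext τ
      simp only [mem_preimage, mem_ofPred_eq, hl, true_and, mem_Ico]
      constructor <;> rintro ⟨a, b⟩ <;> constructor <;> linarith
    rw [this, Real.volume_Ico, indicator_of_mem hl]
    simp
  · have : Prod.mk l ⁻¹' {P : (ℝ × ℝ) × ℝ | P.1 ∈ Y ∧ P.2 + φ P.1 ∈ Ico (0 : ℝ) 1} = ∅ := by
      ext τ
      simp only [mem_preimage, mem_ofPred_eq, hl, false_and, mem_empty_iff_false]
    rw [this, measure_empty, indicator_of_notMem hl]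

/-- denominator of the Moebius map -/
def dynDen (γ : SL(2, ℤ)) (x : ℝ) : ℝ := (γ 1 0 : ℝ) * x + (γ 1 1 : ℝ)

noncomputable def dynMo (γ : SL(2, ℤ)) (x : ℝ) : ℝ :=
  ((γ 0 0 : ℝ) * x + (γ 0 1 : ℝ)) / dynDen γ x

theorem dyn_act_coord (γ : SL(2, ℤ)) {g : E} (hg : g ∈ U0) :
    (act γ g).2.re = g.2.re * dynDen γ (ell g).1 ∧ (act γ g).2.im = g.2.im * dynDen γ (ell g).2 ∧
      ell (act γ g) = (dynMo γ (ell g).1, dynMo γ (ell g).2) := by
  obtain ⟨-, hd, hc⟩ := hg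
  obtain ⟨h1, h2, h3, h4⟩ := act_apply γ g
  have e1 : (act γ g).2.re = g.2.re * dynDen γ (ell g).1 := by
    rw [h3]; simp only [dynDen, ell]; field_simp
  have e2 : (act γ g).2.im = g.2.im * dynDen γ (ell g).2 := by
    rw [h4]; simp only [dynDen, ell]; field_simp
  refine ⟨e1, e2, ?_⟩
  have f1 : (act γ g).1.re = g.2.re * ((γ 0 0 : ℝ) * (ell g).1 + (γ 0 1 : ℝ)) := by
    rw [h1]; simp only [ell]; field_simp
  have f2 : (act γ g).1.im = g.2.im * ((γ 0 0 : ℝ) * (ell g).2 + (γ 0 1 : ℝ)) := by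
    rw [h2]; simp only [ell]; field_simp
  refine Prod.ext ?_ ?_
  · change (act γ g).1.re / (act γ g).2.re = dynMo γ (ell g).1
    rw [e1, f1, dynMo, mul_div_mul_left _ _ hd]
  · change (act γ g).1.im / (act γ g).2.im = dynMo γ (ell g).2
    rw [e2, f2, dynMo, mul_div_mul_left _ _ hc]

theorem dyn_tc_act (γ : SL(2, ℤ)) {g : E} (hg : g ∈ U0) (h1 : dynDen γ (ell g).1 ≠ 0)
    (h2 : dynDen γ (ell g).2 ≠ 0) :
    act γ g ∈ U0 ∧
      tc (act γ g) = tc g + Real.log |dynDen γ (ell g).1 / dynDen γ (ell g).2| / 2 := by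
  obtain ⟨e1, e2, -⟩ := dyn_act_coord γ hg
  obtain ⟨hG, hd, hc⟩ := hg
  refine ⟨⟨act_mem hG γ, by rw [e1]; exact mul_ne_zero hd h1, by rw [e2]; exact mul_ne_zero hc h2⟩,
    ?_⟩
  unfold tc
  rw [e1, e2, mul_div_mul_comm, abs_mul, Real.log_mul (abs_ne_zero.2 (div_ne_zero hd hc))
    (abs_ne_zero.2 (div_ne_zero h1 h2))]
  ring

theorem dyn_nu_le {μ : Measure E} (hμ : Good μ) (γ : SL(2, ℤ)) {Y Y' : Set (ℝ × ℝ)}
    (hY : MeasurableSet Y) (hY' : MeasurableSet Y')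
    (h : ∀ l ∈ Y, dynDen γ l.1 ≠ 0 ∧ dynDen γ l.2 ≠ 0 ∧ (dynMo γ l.1, dynMo γ l.2) ∈ Y') :
    nuT μ Y ≤ nuT μ Y' := by
  have hφ : Measurable fun l : ℝ × ℝ => Real.log |dynDen γ l.1 / dynDen γ l.2| / 2 := by
    unfold dynDen; fun_prop
  rw [← dyn_slab hμ hφ hY, ← dyn_slab hμ (φ := fun _ => 0) measurable_const hY',
    ← surf_pre_act hμ γ {g | g ∈ U0 ∧ ell g ∈ Y' ∧ tc g + 0 ∈ Ico (0 : ℝ) 1}]
  refine measure_mono ?_
  rintro g ⟨hg, hl, ht⟩
  obtain ⟨h1, h2, h3⟩ := h _ hl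
  obtain ⟨k1, k2⟩ := dyn_tc_act γ hg h1 h2
  refine ⟨k1, ?_, ?_⟩
  · rw [(dyn_act_coord γ hg).2.2]; exact h3
  · rw [add_zero, k2]; exact ht

theorem dyn_mo_near (γ : SL(2, ℤ)) {u : ℝ} (hu : dynDen γ u ≠ 0) :
    ∃ r : ℝ, 0 < r ∧ ∀ x : ℝ, |x - u| < r → dynDen γ x ≠ 0 ∧
      |dynMo γ x - dynMo γ u| ≤ 2 * |x - u| / dynDen γ u ^ 2 := by
  have hc : Continuous (dynDen γ) := by unfold dynDen; fun_prop
  have hpos : 0 < |dynDen γ u| / 2 := half_pos (abs_pos.2 hu)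
  obtain ⟨r, hr, h⟩ := Metric.continuous_iff.1 hc u _ hpos
  refine ⟨r, hr, fun x hx => ?_⟩
  have h1 := h x (by rwa [Real.dist_eq])
  rw [Real.dist_eq] at h1
  have h2 : |dynDen γ u| / 2 ≤ |dynDen γ x| := by
    have := abs_sub_abs_le_abs_sub (dynDen γ u) (dynDen γ x)
    rw [abs_sub_comm] at this
    linarith
  have hx0 : dynDen γ x ≠ 0 := abs_pos.1 (hpos.trans_le h2)
  refine ⟨hx0, ?_⟩
  have e : dynMo γ x - dynMo γ u = (x - u) / (dynDen γ x * dynDen γ u) := by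
    unfold dynMo
    rw [div_sub_div _ _ hx0 hu]
    congr 1
    unfold dynDen
    linear_combination (x - u) * det_gamma γ
  have hu' : 0 < |dynDen γ u| := abs_pos.2 hu
  rw [e, abs_div, abs_mul, ← sq_abs (dynDen γ u),
    div_le_div_iff₀ (mul_pos (abs_pos.2 hx0) hu') (pow_pos hu' 2)]
  have := mul_le_mul_of_nonneg_left h2 (mul_nonneg (abs_nonneg (x - u)) hu'.le)
  nlinarith

theorem dyn_Dd_le {μ : Measure E} (hμ : Good μ) (γ : SL(2, ℤ)) {l : ℝ × ℝ}
    (h1 : dynDen γ l.1 ≠ 0) (h2 : dynDen γ l.2 ≠ 0) (α β : ℝ) :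
    Dd (nuT μ) l α β ≤ 2 * Dd (nuT μ) (dynMo γ l.1, dynMo γ l.2)
      (α / dynDen γ l.1 ^ 2) (β / dynDen γ l.2 ^ 2) := by
  rw [← Dd_two]
  obtain ⟨r, hr, k⟩ := dyn_mo_near γ h1
  obtain ⟨r', hr', k'⟩ := dyn_mo_near γ h2
  refine limsup_le_limsup ?_
  filter_upwards [dyn_small α hr, dyn_small β hr'] with j a b
  refine mul_le_mul_right (dyn_nu_le hμ γ (dyn_meas_rect _ _ _) (dyn_meas_rect _ _ _) ?_) _
  intro l' hl'
  obtain ⟨c, d⟩ := dyn_mem_rect.1 hl'
  obtain ⟨p1, p2⟩ := k _ (c.trans_lt a)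
  obtain ⟨q1, q2⟩ := k' _ (d.trans_lt b)
  refine ⟨p1, q1, dyn_mem_rect.2 ⟨p2.trans ?_, q2.trans ?_⟩⟩
  · have : 2 * (α / dynDen γ l.1 ^ 2) / 2 ^ j = 2 * (α / 2 ^ j) / dynDen γ l.1 ^ 2 := by ring
    rw [this]; gcongr
  · have : 2 * (β / dynDen γ l.2 ^ 2) / 2 ^ j = 2 * (β / 2 ^ j) / dynDen γ l.2 ^ 2 := by ring
    rw [this]; gcongr

theorem dyn_Th_eq (μ : Measure E) {g : E} (hg : g ∈ U0) :
    dynTh μ (ell g, tc g) = Dd (nuT μ) (ell g) (dt g / g.2.re ^ 2) (dt g / g.2.im ^ 2) := by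
  rw [dt_div_re hg, dt_div_im hg]; rfl

theorem dyn_Th_act {μ : Measure E} (hμ : Good μ) (γ : SL(2, ℤ)) {g : E} (hg : g ∈ U0)
    (hg' : act γ g ∈ U0) :
    dynTh μ (ell g, tc g) ≤ 2 * dynTh μ (ell (act γ g), tc (act γ g)) := by
  obtain ⟨e1, e2, e3⟩ := dyn_act_coord γ hg
  have h1 : dynDen γ (ell g).1 ≠ 0 := right_ne_zero_of_mul (e1 ▸ hg'.2.1)
  have h2 : dynDen γ (ell g).2 ≠ 0 := right_ne_zero_of_mul (e2 ▸ hg'.2.2)
  rw [dyn_Th_eq μ hg, dyn_Th_eq μ hg', e1, e2, e3, dt_act, mul_pow, mul_pow, ← div_div, ← div_div]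
  exact dyn_Dd_le hμ γ h1 h2 _ _

/-- the value lies in `[1 / L, L]` -/
def dynIn (L : ℕ) (x : ℝ≥0∞) : Prop := 1 ≤ (L : ℝ≥0∞) * x ∧ x ≤ L

theorem dyn_in_two {L : ℕ} {x y : ℝ≥0∞} (h : dynIn L x) (h1 : x ≤ 2 * y) (h2 : y ≤ 2 * x) :
    dynIn (2 * L) y := by
  constructor
  · calc 1 ≤ (L : ℝ≥0∞) * x := h.1
      _ ≤ L * (2 * y) := by gcongr
      _ = ((2 * L : ℕ) : ℝ≥0∞) * y := by push_cast; ring
  · calc y ≤ 2 * x := h2
      _ ≤ 2 * L := by gcongr; exact h.2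
      _ = ((2 * L : ℕ) : ℝ≥0∞) := by push_cast; ring

def dynW (μ : Measure E) (L j : ℕ) : Set ((ℝ × ℝ) × ℝ) :=
  {P | dynIn L (dynTh μ P) ∧ ∀ n : ℕ, j + 1 ≤ n → ¬ dynIn (2 * L) (dynTh μ (P.1, P.2 + n))}

theorem dyn_meas_in {X : Type} [MeasurableSpace X] {f : X → ℝ≥0∞} (hf : Measurable f) (L : ℕ) :
    MeasurableSet {x | dynIn L (f x)} :=
  (measurableSet_le measurable_const (hf.const_mul _)).inter (measurableSet_le hf measurable_const)

theorem dyn_meas_W {μ : Measure E} (hμ : Good μ) (L j : ℕ) : MeasurableSet (dynW μ L j) := by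
  have h1 := dyn_meas_in (dyn_meas_Th hμ) L
  have h2 : ∀ n : ℕ, MeasurableSet {P : (ℝ × ℝ) × ℝ | j + 1 ≤ n →
      ¬ dynIn (2 * L) (dynTh μ (P.1, P.2 + n))} := by
    intro n
    by_cases hn : j + 1 ≤ n
    · simp only [hn, true_imp_iff]
      exact (dyn_meas_in ((dyn_meas_Th hμ).comp (f := fun P : (ℝ × ℝ) × ℝ => (P.1, P.2 + n))
        (by fun_prop)) (2 * L)).compl
    · simp only [hn, false_imp_iff, Set.ofPred_true, MeasurableSet.univ]
  have e : dynW μ L j = {P | dynIn L (dynTh μ P)} ∩ ⋂ n : ℕ, {P : (ℝ × ℝ) × ℝ | j + 1 ≤ n →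
      ¬ dynIn (2 * L) (dynTh μ (P.1, P.2 + n))} := by
    ext P
    simp only [dynW, mem_ofPred_eq, mem_inter_iff, mem_iInter]
  rw [e]
  exact h1.inter (MeasurableSet.iInter h2)

/-- no return after a long time -/
theorem dyn_no_return {μ : Measure E} (hμ : Good μ) {L j : ℕ} (γ : SL(2, ℤ)) {w w' : E}
    (hw : w ∈ U0) (hw' : w' ∈ U0) (h : (ell w, tc w) ∈ dynW μ L j)
    (h' : (ell w', tc w') ∈ dynW μ L j) {n : ℕ} (hn : j + 1 ≤ n) :
    act γ w ≠ fl n w' := by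
  intro he
  have h0 : fl n w' ∈ U0 := (fl_mem_U0 _ _).2 hw'
  have h1 := dyn_Th_act hμ γ hw (he ▸ h0)
  have hb : act γ⁻¹ (fl n w') = w := by rw [← he, ← act_mul, inv_mul_cancel, act_one]
  have h2 := dyn_Th_act hμ γ⁻¹ h0 (hb.symm ▸ hw)
  rw [hb] at h2
  rw [he] at h1
  refine h'.2 n hn ?_
  have := dyn_in_two h.1 h1 h2
  rwa [ell_fl, tc_fl _ hw'] at this

theorem dyn_null_piece {μ : Measure E} (hμ : Good μ) (L j : ℕ) (ρ : ℝ) :
    μ ({g | g ∈ U0 ∧ (ell g, tc g) ∈ dynW μ L j} ∩ Bl ρ) = 0 := by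
  set W' : Set E := {g | g ∈ U0 ∧ (ell g, tc g) ∈ dynW μ L j} ∩ Bl ρ with hW'
  have hm : MeasurableSet W' :=
    (isOpen_U0.measurableSet.inter
      ((measurable_ell.prodMk measurable_tc) (dyn_meas_W hμ L j))).inter (measurableSet_Bl ρ)
  let S : ℕ → Set E := fun k => fl (-(((j + 1) * k : ℕ) : ℝ)) ⁻¹' W'
  have hS : ∀ k, MeasurableSet (S k) := fun k => (me_fl _).measurable hm
  have key : ∀ (γ : SL(2, ℤ)) (g : E) (k m : ℕ), g ∈ S k → act γ g ∈ S m → k = m := by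
    intro γ g k m hk hm'
    have step : ∀ (γ : SL(2, ℤ)) (g : E) (k m : ℕ), g ∈ S k → act γ g ∈ S m → ¬ k < m := by
      intro γ g k m hk hm' hlt
      obtain ⟨d, rfl⟩ := Nat.exists_eq_add_of_lt hlt
      refine dyn_no_return hμ γ hk.1.1 hm'.1.1 hk.1.2 hm'.1.2 (n := (j + 1) * (d + 1))
        (Nat.le_mul_of_pos_right _ (Nat.succ_pos d)) ?_
      rw [act_fl, fl_fl]
      congr 1
      push_cast; ring
    have a := step γ g k m hk hm'
    have b := step γ⁻¹ (act γ g) m k hm' (by rwa [← act_mul, inv_mul_cancel, act_one])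
    omega
  have hdis : Pairwise (Function.onFun Disjoint S) := by
    intro k m hkm
    refine Set.disjoint_left.2 fun g hk hm' => hkm (key 1 g k m hk ?_)
    rwa [act_one]
  have hfin := finite_act ρ ρ 1 one_pos
  have hb := surf_mult_bound hμ (MeasurableSet.iUnion hS) hfin.toFinset (by
    intro γ hγ
    have : (⋃ k, S k) ∩ act γ ⁻¹' (⋃ k, S k) = ∅ := by
      refine eq_empty_of_forall_notMem ?_
      rintro g ⟨hg, hg'⟩
      obtain ⟨k, hk⟩ := mem_iUnion.1 hg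
      obtain ⟨m, hm'⟩ := mem_iUnion.1 hg'
      obtain rfl := key γ g k m hk hm'
      refine hγ (hfin.mem_toFinset.2 ⟨_, mem_closedBall_zero_iff.1 hk.2.2, hk.2.1.1, ?_⟩)
      rw [act_fl]
      exact mem_closedBall_zero_iff.1 hm'.2.2
    rw [this, measure_empty])
  by_contra hne
  rw [measure_iUnion hdis hS] at hb
  have : ∀ k, μ (S k) = μ W' := fun k => surf_pre_fl hμ _ _
  simp only [this] at hb
  rw [ENNReal.tsum_const_eq_top_of_ne_zero hne] at hb
  exact ENNReal.mul_ne_top (ENNReal.natCast_ne_top _) hμ.fd.ne (top_unique hb)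

theorem dyn_null {μ : Measure E} (hμ : Good μ) :
    μ {g | g ∈ U0 ∧ (ell g, tc g) ∈ ⋃ p : ℕ × ℕ, dynW μ p.1 p.2} = 0 := by
  refine measure_mono_null (t := Shᶜ ∪ ⋃ p : ℕ × ℕ, ⋃ ρ : ℕ,
    {g | g ∈ U0 ∧ (ell g, tc g) ∈ dynW μ p.1 p.2} ∩ Bl ρ) ?_ ?_
  · rintro g ⟨hg, hW⟩
    by_cases hs : g ∈ Sh
    · obtain ⟨p, hp⟩ := mem_iUnion.1 hW
      obtain ⟨ρ, hρ⟩ := exists_nat_ge ‖g‖
      exact Or.inr (mem_iUnion.2 ⟨p, mem_iUnion.2 ⟨ρ, ⟨hg, hp⟩, hs, mem_closedBall_zero_iff.2 hρ⟩⟩)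
    · exact Or.inl hs
  · exact measure_union_null hμ.sh
      (measure_iUnion_null fun p => measure_iUnion_null fun ρ => dyn_null_piece hμ _ _ _)

theorem dyn_pos_fin {ν : Measure (ℝ × ℝ)} {l : ℝ × ℝ} (h0 : 0 < Dd ν l 1 1) (h1 : Dd ν l 1 1 < ⊤)
    {α β : ℝ} (hα : 0 < α) (hβ : 0 < β) : ∃ L : ℕ, 0 < L ∧ dynIn L (Dd ν l α β) := by
  have ev : ∀ x : ℝ, ∀ᶠ N : ℕ in atTop, x ≤ 2 ^ N := fun x =>
    (tendsto_pow_atTop_atTop_of_one_lt one_lt_two).eventually_ge_atTop x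
  obtain ⟨N, a1, a2, a3, a4⟩ := ((ev α).and ((ev β).and ((ev α⁻¹).and (ev β⁻¹)))).exists
  have hfin : Dd ν l α β ≠ ⊤ := by
    have := Dd_mono ν l (α := α) (β := β) (α' := 2 ^ N * 1) (β' := 2 ^ N * 1)
      (by rwa [mul_one]) (by rwa [mul_one])
    rw [dyn_pow] at this
    exact ne_top_of_le_ne_top (ENNReal.mul_ne_top (by simp) h1.ne) this
  have hpos : Dd ν l α β ≠ 0 := by
    intro hz
    have := Dd_mono ν l (α := 1) (β := 1) (α' := 2 ^ N * α) (β' := 2 ^ N * β)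
      (by rwa [inv_le_iff_one_le_mul₀ hα] at a3) (by rwa [inv_le_iff_one_le_mul₀ hβ] at a4)
    rw [dyn_pow, hz, mul_zero] at this
    exact absurd this (not_le.2 h0)
  obtain ⟨L1, hL1⟩ := ENNReal.exists_nat_gt hfin
  obtain ⟨L2, hL2⟩ := ENNReal.exists_nat_gt (ENNReal.inv_ne_top.2 hpos)
  refine ⟨L1 + L2 + 1, Nat.succ_pos _, ?_, ?_⟩
  · calc 1 = (Dd ν l α β)⁻¹ * Dd ν l α β := (ENNReal.inv_mul_cancel hpos hfin).symm
      _ ≤ (L2 : ℝ≥0∞) * Dd ν l α β := by gcongr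
      _ ≤ _ := by gcongr; omega
  · exact hL1.le.trans (by exact_mod_cast by omega)

theorem dyn_cover {μ : Measure E} {l : ℝ × ℝ} (hl : l.1 ≠ l.2) (hT : Tan (nuT μ) l) (τ : ℝ) :
    (l, τ) ∈ ⋃ p : ℕ × ℕ, dynW μ p.1 p.2 := by
  obtain ⟨h0, h1, h2⟩ := hT
  have hd : 0 < |l.2 - l.1| := abs_pos.2 (sub_ne_zero.2 hl.symm)
  obtain ⟨L, hL, hin⟩ := dyn_pos_fin h0 h1 (mul_pos hd (Real.exp_pos (-(2 * τ))))
    (mul_pos hd (Real.exp_pos (2 * τ)))
  have hexp : Tendsto (fun n : ℕ => 2 * (τ + n)) atTop atTop :=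
    (tendsto_atTop_add_const_left _ τ tendsto_natCast_atTop_atTop).const_mul_atTop two_pos
  have main : ∀ᶠ n : ℕ in atTop, ¬ dynIn (2 * L) (dynTh μ (l, τ + n)) := by
    rcases h2 with ⟨C, hC⟩ | ⟨c, hc, hC⟩
    · have t1 : Tendsto (fun n : ℕ => (2 * L : ℝ) * (C * (|l.2 - l.1| *
          Real.exp (-(2 * (τ + n)))))) atTop (𝓝 ((2 * L : ℝ) * (C * (|l.2 - l.1| * 0)))) :=
        (((Real.tendsto_exp_neg_atTop_nhds_zero.comp hexp).const_mul _).const_mul _).const_mul _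
      simp only [mul_zero] at t1
      filter_upwards [t1.eventually (gt_mem_nhds one_pos)] with n hn hin'
      have h3 := hC _ _ (mul_pos hd (Real.exp_pos (-(2 * (τ + n)))))
        (mul_pos hd (Real.exp_pos (2 * (τ + n))))
      have h4 : ((2 * L : ℕ) : ℝ≥0∞) * dynTh μ (l, τ + n) ≤
          ENNReal.ofReal ((2 * L : ℝ) * (C * (|l.2 - l.1| * Real.exp (-(2 * (τ + n)))))) := by
        rw [ENNReal.ofReal_mul (by positivity)]
        refine mul_le_mul' (le_of_eq ?_) h3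
        rw [← ENNReal.ofReal_natCast]; push_cast; rfl
      exact absurd (hin'.1.trans h4) (not_le.2 (ENNReal.ofReal_lt_one.2 hn))
    · have t1 : Tendsto (fun n : ℕ => c * (|l.2 - l.1| * Real.exp (2 * (τ + n)))) atTop atTop :=
        ((Real.tendsto_exp_atTop.comp hexp).const_mul_atTop hd).const_mul_atTop hc
      filter_upwards [t1.eventually_gt_atTop ((2 * L : ℕ) : ℝ)] with n hn hin'
      have h3 := hC _ _ (mul_pos hd (Real.exp_pos (-(2 * (τ + n)))))
        (mul_pos hd (Real.exp_pos (2 * (τ + n))))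
      have h4 := h3.trans hin'.2
      rw [← ENNReal.ofReal_natCast, ENNReal.ofReal_le_ofReal_iff (Nat.cast_nonneg _)] at h4
      exact absurd h4 (not_le.2 hn)
  obtain ⟨j, hj⟩ := eventually_atTop.1 main
  exact mem_iUnion.2 ⟨(L, j), hin, fun n hn => hj n (by omega)⟩

/-- recurrence excludes tangents -/
theorem no_tan {μ : Measure E} (hμ : Good μ) : ∀ᵐ l ∂(nuT μ), ¬ Tan (nuT μ) l := by
  have hW : MeasurableSet (⋃ p : ℕ × ℕ, dynW μ p.1 p.2) :=
    MeasurableSet.iUnion fun p => dyn_meas_W hμ _ _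
  have h := dyn_null hμ
  rw [dyn_mass hμ hW, lintegral_eq_zero_iff (measurable_measure_prodMk_left hW)] at h
  filter_upwards [h, nuT_diag μ] with l hl hd hT
  have : Prod.mk l ⁻¹' (⋃ p : ℕ × ℕ, dynW μ p.1 p.2) = univ :=
    eq_univ_of_forall fun τ => dyn_cover hd hT τ
  rw [this] at hl
  simp at hl

end Pool.Agent.MP_a28cf0_nt.Four

namespace Pool.Agent.MP_a28cf0_nt.Four

open MeasureTheory Complex Filter Topology Set Pool.Agent.MP_a28cf0_nt.Cub
open scoped ENNReal MatrixGroups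

theorem thinof_act_inv (γ : SL(2, ℤ)) (M : E) : act γ⁻¹ (act γ M) = M := by
  rw [← act_mul]; simp [act_one]

theorem thinof_dens {m m' : Measure E} {γ : SL(2, ℤ)} (hm : MeasurePreserving (act γ) m' m)
    {ρ : E → ℝ≥0∞} (h : Dens m ρ) : Dens m' fun M => ρ (act γ M) := by
  refine ⟨h.1.act γ, fun F hF => ?_⟩
  have h1 := h.2 _ (hF.act γ⁻¹)
  rw [← hm.lintegral_comp_emb (me_act γ), ← (mp_act γ).lintegral_comp_emb (me_act γ)] at h1
  simpa only [thinof_act_inv] using h1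

theorem thinof_lip (γ : SL(2, ℤ)) : ∃ K : ℝ, 0 < K ∧ ∀ M N : E,
    ‖nrm (act γ M) - nrm (act γ N)‖ ≤ K * ‖nrm M - nrm N‖ := by
  refine ⟨2 * ‖act γ one‖ + 1, by positivity, fun M N => ?_⟩
  rw [nrm_act, nrm_act, act_eq_mul γ (nrm M), act_eq_mul γ (nrm N), ← mul_sub']
  have := surf_norm_mul (act γ one) (nrm M - nrm N)
  nlinarith [norm_nonneg (nrm M - nrm N)]

theorem Thin.of_act {μ : Measure E} (hμ : Good μ) {g : E} (γ : SL(2, ℤ))
    (h : Thin μ (act γ g)) : Thin μ g := by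
  obtain ⟨K, hK, hL⟩ := thinof_lip γ
  obtain ⟨r, hr, h⟩ := h
  have key : ∀ (M N : E) (s : ℝ), ‖nrm M - nrm N‖ < s / K →
      ‖nrm (act γ M) - nrm (act γ N)‖ < s := fun M N s hs =>
    (hL M N).trans_lt (by rwa [lt_div_iff₀' hK] at hs)
  refine ⟨r / K, by positivity, fun ε hε => ?_⟩
  obtain ⟨δ, hδ, A, ρ, hA, hc, hd, hs, hsep⟩ := h ε hε
  refine ⟨δ / K, by positivity, fun i => act γ ⁻¹' A i, fun i M => ρ i (act γ M),
    fun i => (continuous_act γ).measurable (hA i), fun M hM => ?_, fun i => ?_, ?_,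
    fun i j M hM N hN hMN => hsep i j _ hM _ hN (key M N δ hMN)⟩
  · obtain ⟨i, hi⟩ := mem_iUnion.1 (hc ⟨(act_mem_Sh γ M).2 hM.1, key M g r hM.2⟩)
    exact mem_iUnion.2 ⟨i, hi⟩
  · exact thinof_dens ((good_mp_act hμ γ).restrict_preimage (hA i)) (hd i)
  · refine le_of_eq_of_le (tsum_congr fun i => ?_) hs
    exact (mp_act γ).lintegral_comp_emb (me_act γ) fun M => ρ i M ^ 2

theorem dens_act {μ : Measure E} (hμ : Good μ) {Ψ : E → ℝ} (hΨ : Wt Ψ) {ρ : E → ℝ≥0∞}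
    (h : Dens (μ.withDensity fun M => ENNReal.ofReal (Ψ M)) ρ) (γ : SL(2, ℤ)) :
    Dens (μ.withDensity fun M => ENNReal.ofReal (Ψ (act γ M))) fun M => ρ (act γ M) := by
  refine thinof_dens ⟨(continuous_act γ).measurable, ?_⟩ h
  ext s hs
  rw [Measure.map_apply (continuous_act γ).measurable hs,
    withDensity_apply _ ((continuous_act γ).measurable hs), withDensity_apply _ hs]
  exact (good_mp_act hμ γ).setLIntegral_comp_preimage hs hΨ.meas.ennreal_ofReal

/-- a horizontal strip -/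
def thinofSt (κ b : ℝ) : Set ℂ := {z | 0 < z.im ∧ κ ≤ z.im ^ 2 ∧ z.im ^ 2 ≤ b}

theorem thinof_mSt (κ b : ℝ) : MeasurableSet (thinofSt κ b) :=
  (measurableSet_lt measurable_const measurable_im).inter
    ((measurableSet_le measurable_const (measurable_im.pow_const 2)).inter
      (measurableSet_le (measurable_im.pow_const 2) measurable_const))

theorem thinof_up {κ b : ℝ} (hκ : 0 < κ) {f : ℂ → ℝ≥0∞} (hf : Measurable f) :
    ∫⁻ M, (thinofSt κ b).indicator f (pr M) ∂nu ≤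
      ENNReal.ofReal (15 * Real.pi / 2 / κ) * ∫⁻ z, (thinofSt κ b).indicator f z := by
  rw [lintegral_pr (hf.indicator (thinof_mSt κ b)), ← lintegral_const_mul' _ _ ENNReal.ofReal_ne_top]
  refine (setLIntegral_le_lintegral _ _).trans (lintegral_mono fun z => ?_)
  by_cases hz : z ∈ thinofSt κ b
  · rw [mul_comm]
    refine mul_le_mul_left (ENNReal.ofReal_le_ofReal ?_) _
    exact div_le_div_of_nonneg_left (by positivity) hκ hz.2.1
  · simp [indicator_of_notMem hz]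

theorem thinof_lo {κ b : ℝ} {f : ℂ → ℝ≥0∞} (hf : Measurable f) :
    ∫⁻ z, (thinofSt κ b).indicator f z ≤
      ENNReal.ofReal (b / (15 * Real.pi / 2)) * ∫⁻ M, (thinofSt κ b).indicator f (pr M) ∂nu := by
  rw [lintegral_pr (hf.indicator (thinof_mSt κ b)), ← lintegral_const_mul' _ _ ENNReal.ofReal_ne_top,
    ← lintegral_indicator isOpen_Up.measurableSet]
  refine lintegral_mono fun z => ?_
  by_cases hz : z ∈ thinofSt κ b
  · have hu : z ∈ Up := hz.1
    have h0 : 0 < z.im ^ 2 := pow_pos hz.1 2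
    have hb : 0 < b := h0.trans_le hz.2.2
    have hpi := Real.pi_pos
    rw [indicator_of_mem hu, mul_left_comm, ← ENNReal.ofReal_mul (by positivity)]
    refine le_mul_of_one_le_right' (ENNReal.one_le_ofReal.2 ?_)
    have e : b / (15 * Real.pi / 2) * (15 * Real.pi / 2 / z.im ^ 2) = b / z.im ^ 2 := by
      field_simp
    rw [e, one_le_div h0]
    exact hz.2.2
  · simp [indicator_of_notMem hz]

theorem thinof_mPt {κ b : ℝ} (hκ : 0 < κ) {P : (ℝ × ℝ) × ℝ}
    (h1 : κ ≤ (P.2 - P.1.1) * (P.1.2 - P.2)) (h2 : (P.2 - P.1.1) * (P.1.2 - P.2) ≤ b) :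
    Pt P ∈ thinofSt κ b := by
  have e : (Pt P).im ^ 2 = (P.2 - P.1.1) * (P.1.2 - P.2) := Real.sq_sqrt (by linarith)
  exact ⟨Real.sqrt_pos.2 (by linarith), e ▸ h1, e ▸ h2⟩

theorem thinof_msec {F : E → ℝ≥0∞} (hF : Base F) : Measurable fun z : ℂ => F (z, 1) :=
  hF.1.1.comp (measurable_id.prodMk measurable_const)

/-- the small box around a geodesic -/
theorem thinof_box {μ : Measure E} (hμ : Good μ) {Ψ : E → ℝ} (hΨ : Wt Ψ) {g : E} (hg : g ∈ U0)
    (h0 : 0 < Ψ g) : ∃ s κ Λ b : ℝ, 0 < s ∧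
      Geo ((nuT μ).restrict (Metric.ball (ell g) s)) (Metric.ball (ell g) s) κ Λ
        ((pr g).re - s) ((pr g).re + s) ∧
      ∀ l ∈ Metric.ball (ell g) s, ∀ x ∈ Ioo ((pr g).re - s) ((pr g).re + s),
        Pt (l, x) ∈ thinofSt κ b ∧ Ψ g / 2 ≤ Ψ (Pt (l, x), 1) := by
  set l₀ := ell g with hl₀
  set x₀ := (pr g).re with hx₀
  have hβ : 0 < (x₀ - l₀.1) * (l₀.2 - x₀) := between_pos hg
  have hne : 0 < |l₀.2 - l₀.1| := abs_pos.2 (sub_ne_zero.2 (ell_ne hg).symm)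
  set β := (x₀ - l₀.1) * (l₀.2 - x₀) with hβd
  set κ := min |l₀.2 - l₀.1| β / 2 with hκd
  have hm : 0 < min |l₀.2 - l₀.1| β := lt_min hne hβ
  have hκ : 0 < κ := by positivity
  have hκ1 : κ < |l₀.2 - l₀.1| := by have := min_le_left |l₀.2 - l₀.1| β; linarith
  have hκ2 : κ < β := by have := min_le_right |l₀.2 - l₀.1| β; linarith
  have hgG : g ∈ Gp := hg.1
  have hP : Pt (l₀, x₀) = pr g := (pr_eq_Pt hg).symm
  have hsec : ((pr g, 1) : E) ∈ Gp := by
    show 0 < dt (pr g, 1)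
    rw [dt_sec]; exact pr_mem hgG
  have c1 : ContinuousAt (fun Q : (ℝ × ℝ) × (ℝ × ℝ) × ℝ => Ψ (Pt (Q.1, Q.2.2), 1))
      (l₀, l₀, x₀) := by
    have hc : ContinuousAt Ψ (Pt (l₀, x₀), 1) := by
      rw [hP]; exact hΨ.cont.continuousAt (isOpen_Gp.mem_nhds hsec)
    have hc2 : Continuous fun Q : (ℝ × ℝ) × (ℝ × ℝ) × ℝ => ((Pt (Q.1, Q.2.2), 1) : E) :=
      (continuous_Pt.comp (by fun_prop)).prodMk continuous_const
    exact ContinuousAt.comp (f := fun Q : (ℝ × ℝ) × (ℝ × ℝ) × ℝ => ((Pt (Q.1, Q.2.2), 1) : E))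
      hc hc2.continuousAt
  have c2 : Continuous fun Q : (ℝ × ℝ) × (ℝ × ℝ) × ℝ => |Q.1.2 - Q.2.1.1| := by fun_prop
  have c3 : Continuous fun Q : (ℝ × ℝ) × (ℝ × ℝ) × ℝ => (Q.2.2 - Q.1.1) * (Q.1.2 - Q.2.2) := by
    fun_prop
  have e1 : ∀ᶠ Q in 𝓝 ((l₀, l₀, x₀) : (ℝ × ℝ) × (ℝ × ℝ) × ℝ), Ψ g / 2 < Ψ (Pt (Q.1, Q.2.2), 1) :=
    c1.eventually (lt_mem_nhds (by
      show Ψ g / 2 < Ψ (Pt (l₀, x₀), 1)
      rw [hP, ← hΨ.eq_sec hgG]; linarith))
  have e2 : ∀ᶠ Q in 𝓝 ((l₀, l₀, x₀) : (ℝ × ℝ) × (ℝ × ℝ) × ℝ), κ < |Q.1.2 - Q.2.1.1| :=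
    c2.continuousAt.eventually (lt_mem_nhds hκ1)
  have e3 : ∀ᶠ Q in 𝓝 ((l₀, l₀, x₀) : (ℝ × ℝ) × (ℝ × ℝ) × ℝ),
      κ < (Q.2.2 - Q.1.1) * (Q.1.2 - Q.2.2) := c3.continuousAt.eventually (lt_mem_nhds hκ2)
  have e4 : ∀ᶠ Q in 𝓝 ((l₀, l₀, x₀) : (ℝ × ℝ) × (ℝ × ℝ) × ℝ),
      (Q.2.2 - Q.1.1) * (Q.1.2 - Q.2.2) < β + 1 :=
    c3.continuousAt.eventually (gt_mem_nhds (lt_add_one β))
  obtain ⟨s, hs, hall⟩ := Metric.nhds_basis_closedBall.eventually_iff.1 (e1.and (e2.and (e3.and e4)))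
  have hQ : ∀ l ∈ Metric.closedBall l₀ s, ∀ l' ∈ Metric.closedBall l₀ s,
      ∀ x ∈ Ioo (x₀ - s) (x₀ + s), Ψ g / 2 < Ψ (Pt (l, x), 1) ∧ κ < |l.2 - l'.1| ∧
        κ < (x - l.1) * (l.2 - x) ∧ (x - l.1) * (l.2 - x) < β + 1 := by
    intro l hl l' hl' x hx
    refine hall (x := (l, l', x)) ?_
    rw [Metric.mem_closedBall] at hl hl' ⊢
    rw [Prod.dist_eq, Prod.dist_eq]
    refine max_le hl (max_le hl' ?_)
    rw [Real.dist_eq, abs_le]
    constructor <;> linarith [hx.1, hx.2]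
  have hx : x₀ ∈ Ioo (x₀ - s) (x₀ + s) := ⟨by linarith, by linarith⟩
  have hsub := Metric.ball_subset_closedBall (x := l₀) (ε := s)
  refine ⟨s, κ, ‖l₀‖ + s, β + 1, hs, ⟨⟨?_⟩, measurableSet_ball, ?_, hκ, by linarith, ?_,
    fun l hl l' hl' => (hQ l (hsub hl) l' (hsub hl') x₀ hx).2.1.le,
    fun l hl x hx => (hQ l (hsub hl) l (hsub hl) x hx).2.2.1.le⟩, fun l hl x hx => ?_⟩
  · rw [Measure.restrict_apply_univ]
    refine (measure_mono hsub).trans_lt (nuT_fin hμ (isCompact_closedBall _ _) fun l hl h => ?_)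
    have := (hQ l hl l hl x₀ hx).2.1
    rw [h, sub_self, abs_zero] at this
    linarith
  · rw [Measure.restrict_apply measurableSet_ball.compl, compl_inter_self, measure_empty]
  · intro l hl
    have h1 : ‖l‖ ≤ ‖l₀‖ + s := by
      have := norm_le_norm_add_norm_sub' l l₀
      have h2 : ‖l - l₀‖ < s := by rwa [Metric.mem_ball, dist_eq_norm] at hl
      linarith
    exact ⟨(norm_fst_le l).trans h1, (norm_snd_le l).trans h1⟩
  · have := hQ l (hsub hl) l (hsub hl) x hx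
    exact ⟨thinof_mPt hκ this.2.2.1.le this.2.2.2.le, this.1.le⟩

theorem thinof_mX {R : Set (ℝ × ℝ)} (hR : MeasurableSet R) (x₀ x₁ : ℝ) :
    MeasurableSet {g : E | g ∈ U0 ∧ ell g ∈ R ∧ (pr g).re ∈ Ioo x₀ x₁} :=
  isOpen_U0.measurableSet.inter ((measurable_ell hR).inter
    ((measurable_re.comp measurable_pr) measurableSet_Ioo))

/-- a square integrable density for the projection of the transverse measure -/
theorem thinof_prj {μ : Measure E} (hμ : Good μ) {Ψ : E → ℝ} (hΨ : Wt Ψ) {ρ : E → ℝ≥0∞}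
    (h : Dens (μ.withDensity fun M => ENNReal.ofReal (Ψ M)) ρ) (h₂ : ∫⁻ M, ρ M ^ 2 ∂nu < ⊤)
    {R : Set (ℝ × ℝ)} {κ Λ x₀ x₁ b c : ℝ} (hG : Geo ((nuT μ).restrict R) R κ Λ x₀ x₁) (hc : 0 < c)
    (hb : ∀ l ∈ R, ∀ x ∈ Ioo x₀ x₁, Pt (l, x) ∈ thinofSt κ b ∧ c ≤ Ψ (Pt (l, x), 1)) :
    ∃ ρ' : ℂ → ℝ≥0∞, Measurable ρ' ∧
      prj ((nuT μ).restrict R) x₀ x₁ ≤ volume.withDensity ρ' ∧ ∫⁻ z, ρ' z ^ 2 < ⊤ := by
  obtain ⟨C, hC, hcmp⟩ := box_cmp hμ hG
  have mρ := thinof_msec h.1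
  set K : ℝ≥0∞ := C * ENNReal.ofReal c⁻¹ * ENNReal.ofReal (15 * Real.pi / 2 / κ) with hK
  have hKt : K ≠ ⊤ :=
    ENNReal.mul_ne_top (ENNReal.mul_ne_top hC ENNReal.ofReal_ne_top) ENNReal.ofReal_ne_top
  have mI := mρ.indicator (thinof_mSt κ b)
  refine ⟨fun z => K * (thinofSt κ b).indicator (fun z => ρ (z, 1)) z, mI.const_mul K, ?_, ?_⟩
  · refine Measure.le_iff.2 fun S hS => ?_
    have m1 : Measurable (S.indicator (1 : ℂ → ℝ≥0∞)) := measurable_one.indicator hS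
    have m2 := m1.indicator (thinof_mSt κ b)
    have s1 : prj ((nuT μ).restrict R) x₀ x₁ S =
        ∫⁻ P, S.indicator 1 (Pt P) ∂(((nuT μ).restrict R).prod (volume.restrict (Ioo x₀ x₁))) := by
      rw [prj, ← lintegral_map m1 measurable_Pt, lintegral_indicator_one hS]
    have s2 := (hcmp (fun P => S.indicator 1 (Pt P)) (m1.comp measurable_Pt)).2
    have s3 : ∫⁻ g in {g | g ∈ U0 ∧ ell g ∈ R ∧ (pr g).re ∈ Ioo x₀ x₁},
        S.indicator 1 (Pt (ell g, (pr g).re)) ∂μ ≤ ENNReal.ofReal c⁻¹ *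
          ∫⁻ M, (thinofSt κ b).indicator (S.indicator 1) (pr M)
            ∂(μ.withDensity fun M => ENNReal.ofReal (Ψ M)) := by
      rw [lintegral_withDensity_eq_lintegral_mul _ hΨ.meas.ennreal_ofReal
        (g := fun M => (thinofSt κ b).indicator (S.indicator 1) (pr M)) (m2.comp measurable_pr),
        ← lintegral_const_mul' _ _ ENNReal.ofReal_ne_top]
      refine le_trans (setLIntegral_mono' (thinof_mX hG.meas x₀ x₁) fun g hg => ?_)
        (setLIntegral_le_lintegral _ _)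
      obtain ⟨k1, k2⟩ := hb _ hg.2.1 _ hg.2.2
      rw [← pr_eq_Pt hg.1] at k1 k2 ⊢
      rw [← hΨ.eq_sec hg.1.1] at k2
      simp only [Pi.mul_apply, indicator_of_mem k1]
      rw [← mul_assoc, ← ENNReal.ofReal_mul (by positivity)]
      refine le_mul_of_one_le_left' (ENNReal.one_le_ofReal.2 ?_)
      rw [← div_eq_inv_mul, one_le_div hc]
      exact k2
    have s4 := h.2 _ (base_pr m2)
    have s5 : ∫⁻ M, (thinofSt κ b).indicator (S.indicator 1) (pr M) * ρ M ∂nu =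
        ∫⁻ M, (thinofSt κ b).indicator (S.indicator fun z => ρ (z, 1)) (pr M) ∂nu := by
      refine lintegral_congr_ae (ae_mem_Sh.mono fun M hM => ?_)
      simp only
      rw [h.1.eq_sec (Sh_subset hM)]
      by_cases k1 : pr M ∈ thinofSt κ b <;> by_cases k2 : pr M ∈ S <;> simp [k1, k2]
    have s6 := thinof_up (b := b) hG.pos (mρ.indicator hS)
    have s7 : (volume.withDensity fun z => K * (thinofSt κ b).indicator (fun z => ρ (z, 1)) z) S =
        K * ∫⁻ z, (thinofSt κ b).indicator (S.indicator fun z => ρ (z, 1)) z := by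
      rw [withDensity_apply _ hS, lintegral_const_mul' _ _ hKt, ← lintegral_indicator hS]
      congr 1
      refine lintegral_congr fun z => ?_
      by_cases k1 : z ∈ thinofSt κ b <;> by_cases k2 : z ∈ S <;> simp [k1, k2]
    rw [s1, s7, hK, mul_assoc, mul_assoc]
    refine s2.trans (mul_le_mul_right (s3.trans (mul_le_mul_right ?_ _)) _)
    exact s4.trans (s5.trans_le s6)
  · have e : ∀ z, (K * (thinofSt κ b).indicator (fun z => ρ (z, 1)) z) ^ 2 =
        K ^ 2 * (thinofSt κ b).indicator (fun z => ρ (z, 1) ^ 2) z := fun z => by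
      by_cases k1 : z ∈ thinofSt κ b <;> simp [k1, mul_pow]
    simp only [e]
    rw [lintegral_const_mul' _ _ (ENNReal.pow_ne_top hKt)]
    refine ENNReal.mul_lt_top (ENNReal.pow_lt_top hKt.lt_top)
      ((thinof_lo (mρ.pow_const 2)).trans_lt (ENNReal.mul_lt_top ENNReal.ofReal_lt_top ?_))
    refine lt_of_le_of_lt (lintegral_mono_ae (ae_mem_Sh.mono fun M hM => ?_)) h₂
    rw [h.1.eq_sec (Sh_subset hM)]
    exact indicator_le_self' (fun _ _ => zero_le) _

theorem thinof_mslope (n : ℕ) (i : ℤ) : MeasurableSet (slope n i) := by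
  have : Measurable fun l : ℝ × ℝ => ⌊(2 : ℝ) ^ n * (l.1 + l.2)⌋ :=
    Int.measurable_floor.comp (by fun_prop)
  exact this (measurableSet_singleton i)

/-- densities of the slope classes -/
theorem thinof_class {μ : Measure E} (hμ : Good μ) {R : Set (ℝ × ℝ)} {κ Λ x₀ x₁ b : ℝ}
    (hG : Geo ((nuT μ).restrict R) R κ Λ x₀ x₁)
    (hb : ∀ l ∈ R, ∀ x ∈ Ioo x₀ x₁, Pt (l, x) ∈ thinofSt κ b) :
    ∃ K : ℝ≥0∞, K ≠ ⊤ ∧ ∀ (T : Set (ℝ × ℝ)) (σ : ℂ → ℝ≥0∞) (A : Set E), MeasurableSet T →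
      Measurable σ → prj (((nuT μ).restrict R).restrict T) x₀ x₁ ≤ volume.withDensity σ →
      (∀ g ∈ A, (g ∈ U0 ∧ ell g ∈ R ∧ (pr g).re ∈ Ioo x₀ x₁) ∧ ell g ∈ T) → MeasurableSet A →
      ∃ ρ : E → ℝ≥0∞, Dens (μ.restrict A) ρ ∧ ∫⁻ M, ρ M ^ 2 ∂nu ≤ K * ∫⁻ z, σ z ^ 2 := by
  obtain ⟨C, hC, hcmp⟩ := box_cmp hμ hG
  have := hG.fin
  set K : ℝ≥0∞ := C * ENNReal.ofReal (b / (15 * Real.pi / 2)) with hK
  have hKt : K ≠ ⊤ := ENNReal.mul_ne_top hC ENNReal.ofReal_ne_top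
  refine ⟨K ^ 2 * ENNReal.ofReal (15 * Real.pi / 2 / κ),
    ENNReal.mul_ne_top (ENNReal.pow_ne_top hKt) ENNReal.ofReal_ne_top,
    fun T σ A hT mσ hσ hA mA => ?_⟩
  have mI := mσ.indicator (thinof_mSt κ b)
  refine ⟨fun M => K * (thinofSt κ b).indicator σ (pr M), ⟨base_pr (mI.const_mul K),
    fun F hF => ?_⟩, ?_⟩
  · have mf := thinof_msec hF
    have m2 := mf.indicator (thinof_mSt κ b)
    have mT : MeasurableSet (T ×ˢ (univ : Set ℝ)) := hT.prod MeasurableSet.univ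
    have m3 : Measurable ((T ×ˢ (univ : Set ℝ)).indicator
        fun P => (thinofSt κ b).indicator (fun z => F (z, 1)) (Pt P)) :=
      (m2.comp measurable_Pt).indicator mT
    have s1 : ∫⁻ M in A, F M ∂μ ≤
        ∫⁻ g in {g | g ∈ U0 ∧ ell g ∈ R ∧ (pr g).re ∈ Ioo x₀ x₁}, (T ×ˢ (univ : Set ℝ)).indicator
          (fun P => (thinofSt κ b).indicator (fun z => F (z, 1)) (Pt P)) (ell g, (pr g).re) ∂μ := by
      refine le_trans (setLIntegral_mono' mA fun g hg => ?_)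
        (lintegral_mono_set fun g hg => (hA g hg).1)
      obtain ⟨k1, k2⟩ := hA g hg
      rw [indicator_of_mem (show (ell g, (pr g).re) ∈ T ×ˢ (univ : Set ℝ) from ⟨k2, trivial⟩),
        indicator_of_mem (hb _ k1.2.1 _ k1.2.2), ← pr_eq_Pt k1.1, ← hF.eq_sec k1.1.1]
    have s2 := (hcmp _ m3).1
    have s3 : ∫⁻ P, (T ×ˢ (univ : Set ℝ)).indicator
        (fun P => (thinofSt κ b).indicator (fun z => F (z, 1)) (Pt P)) P
          ∂(((nuT μ).restrict R).prod (volume.restrict (Ioo x₀ x₁))) =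
        ∫⁻ z, (thinofSt κ b).indicator (fun z => F (z, 1)) z
          ∂(prj (((nuT μ).restrict R).restrict T) x₀ x₁) := by
      rw [lintegral_indicator mT, prj, lintegral_map m2 measurable_Pt,
        Measure.restrict_prod_eq_prod_univ T]
    have s4 : ∫⁻ z, (thinofSt κ b).indicator (fun z => F (z, 1)) z
        ∂(prj (((nuT μ).restrict R).restrict T) x₀ x₁) ≤
        ∫⁻ z, (thinofSt κ b).indicator (fun z => F (z, 1) * σ z) z := by
      refine (lintegral_mono' hσ le_rfl).trans (le_of_eq ?_)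
      rw [lintegral_withDensity_eq_lintegral_mul _ mσ m2]
      refine lintegral_congr fun z => ?_
      by_cases k1 : z ∈ thinofSt κ b <;> simp [k1, mul_comm]
    have s5 := thinof_lo (κ := κ) (b := b) (mf.mul mσ)
    have s6 : ∫⁻ M, F M * (K * (thinofSt κ b).indicator σ (pr M)) ∂nu =
        K * ∫⁻ M, (thinofSt κ b).indicator (fun z => F (z, 1) * σ z) (pr M) ∂nu := by
      rw [← lintegral_const_mul' _ _ hKt]
      refine lintegral_congr_ae (ae_mem_Sh.mono fun M hM => ?_)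
      simp only
      rw [hF.eq_sec (Sh_subset hM)]
      by_cases k1 : pr M ∈ thinofSt κ b <;> simp [k1, mul_left_comm]
    rw [s6, hK, mul_assoc]
    exact s1.trans (s2.trans (mul_le_mul_right (s3.trans_le (s4.trans s5)) _))
  · have e : ∀ M, (K * (thinofSt κ b).indicator σ (pr M)) ^ 2 =
        K ^ 2 * (thinofSt κ b).indicator (fun z => σ z ^ 2) (pr M) := fun M => by
      by_cases k1 : pr M ∈ thinofSt κ b <;> simp [k1, mul_pow]
    simp only [e]
    rw [lintegral_const_mul' _ _ (ENNReal.pow_ne_top hKt), mul_assoc]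
    refine mul_le_mul_right ((thinof_up hG.pos (mσ.pow_const 2)).trans
      (mul_le_mul_right (lintegral_mono fun z => ?_) _)) _
    exact indicator_le_self' (fun _ _ => zero_le) _

theorem thinof_floor {a b : ℝ} (h : |a - b| < 1) : |⌊a⌋ - ⌊b⌋| ≤ 1 := by
  rw [abs_lt] at h
  have h1 : ⌊a⌋ ≤ ⌊b + 1⌋ := Int.floor_mono (by linarith [h.2])
  have h2 : ⌊b⌋ ≤ ⌊a + 1⌋ := Int.floor_mono (by linarith [h.1])
  rw [Int.floor_add_one] at h1 h2
  rw [abs_le]; omega

theorem thinof_ell_nrm {M : E} (hM : M ∈ Gp) : ell (nrm M) = ell M :=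
  ell_smul (inv_pos.2 (Real.sqrt_pos.2 hM)).ne' M

theorem thin_U0 {μ : Measure E} (hμ : Good μ) {Ψ : E → ℝ} (hΨ : Wt Ψ) {ρ : E → ℝ≥0∞}
    (h : Dens (μ.withDensity fun M => ENNReal.ofReal (Ψ M)) ρ) (h₂ : ∫⁻ M, ρ M ^ 2 ∂nu < ⊤)
    {g : E} (hg : g ∈ U0) (h0 : 0 < Ψ g) : Thin μ g := by
  obtain ⟨s, κ, Λ, b, hs, hG, hb⟩ := thinof_box hμ hΨ hg h0
  set R := Metric.ball (ell g) s with hR
  set x₀ := (pr g).re - s with hx₀
  set x₁ := (pr g).re + s with hx₁
  obtain ⟨ρ', mρ', h₁, h₂'⟩ := thinof_prj hμ hΨ h h₂ hG (half_pos h0) hb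
  obtain ⟨K, hK, hcl⟩ := thinof_class hμ hG fun l hl x hx => (hb l hl x hx).1
  have ha : x₀ < (pr g).re - s / 2 := by linarith
  have hab : (pr g).re - s / 2 < (pr g).re + s / 2 := by linarith
  have hb' : (pr g).re + s / 2 < x₁ := by linarith
  have hT := tan_of_lod hG ha hab hb' (energy_fin hG mρ' h₁ h₂' ha hab hb')
    (upper_dens hG ((Measure.absolutelyContinuous_of_le h₁).trans
      (withDensity_absolutelyContinuous _ _)))
  have hL : ∀ᵐ l ∂((nuT μ).restrict R), ¬ LoD ((nuT μ).restrict R) l := by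
    filter_upwards [hT, ae_restrict_of_ae (no_tan hμ), ae_restrict_mem hG.meas] with l k1 k2 k3 k4
    exact k2 ((Tan_restrict _ Metric.isOpen_ball k3).1 (k1 k4))
  have hgG : g ∈ Gp := hg.1
  have hnU : ∀ M ∈ Gp, (nrm M ∈ U0 ↔ M ∈ U0) := fun M hM =>
    smul_mem_U0 (inv_pos.2 (Real.sqrt_pos.2 hM)) M
  have hU := isOpen_U0.mem_nhds ((hnU g hgG).2 hg)
  have e1 : ∀ᶠ M in 𝓝 (nrm g), ell M ∈ R :=
    (continuousOn_ell.continuousAt hU).eventually (by
      rw [thinof_ell_nrm hgG]; exact Metric.ball_mem_nhds _ hs)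
  have e2 : ∀ᶠ M in 𝓝 (nrm g), (pr M).re ∈ Ioo x₀ x₁ := by
    have c : ContinuousAt (fun M => (pr M).re) (nrm g) :=
      continuous_re.continuousAt.comp (((contDiffOn_pr (n := 0)).continuousOn).continuousAt
        (isOpen_Gp.mem_nhds (nrm_mem_Gp hgG)))
    refine c.eventually (Ioo_mem_nhds ?_ ?_) <;> simp only [pr_nrm hgG] <;> linarith
  obtain ⟨r, hr, hall⟩ := Metric.nhds_basis_closedBall.eventually_iff.1
    ((show ∀ᶠ M in 𝓝 (nrm g), M ∈ U0 from hU).and (e1.and e2))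
  refine ⟨r, hr, fun ε hε => ?_⟩
  obtain ⟨n, σ, mσ, hσ, hsum⟩ := thin_of_no_lod hG mρ' h₁ h₂' hL
    (ε := ε / K) (ENNReal.div_ne_zero.2 ⟨hε, hK⟩)
  have hin : ∀ M : E, ‖nrm M - nrm g‖ < r → nrm M ∈ Metric.closedBall (nrm g) r := fun M hM => by
    rw [Metric.mem_closedBall, dist_eq_norm]; exact hM.le
  have cφ : ContinuousOn (fun M : E => (2 : ℝ) ^ n * ((ell M).1 + (ell M).2))
      (Metric.closedBall (nrm g) r) := by
    have := continuousOn_ell.mono fun M (hM : M ∈ Metric.closedBall (nrm g) r) => (hall hM).1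
    exact continuousOn_const.mul (this.fst.add this.snd)
  obtain ⟨δ, hδ, hu⟩ := Metric.uniformContinuousOn_iff.1
    ((isCompact_closedBall _ _).uniformContinuousOn_of_continuous cφ) 1 one_pos
  have mA : ∀ i, MeasurableSet {M : E | M ∈ Sh ∧ ‖nrm M - nrm g‖ < r ∧ ell M ∈ slope n i} :=
    fun i => measurableSet_Sh.inter ((measurableSet_lt (measurable_nrm.sub_const _).norm
      measurable_const).inter (measurable_ell (thinof_mslope n i)))
  have hex := fun i => hcl (slope n i) (σ i) _ (thinof_mslope n i) (mσ i) (hσ i) (fun M hM => by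
    have hM' := Sh_subset hM.1
    have k := hall (hin M hM.2.1)
    rw [hnU M hM', thinof_ell_nrm hM', pr_nrm hM'] at k
    exact ⟨k, hM.2.2⟩) (mA i)
  choose ρi hd hρi using hex
  refine ⟨δ, hδ, _, ρi, mA, fun M hM => mem_iUnion.2 ⟨_, hM.1, hM.2, rfl⟩, hd, ?_,
    fun i j M hM N hN hMN => ?_⟩
  · refine (ENNReal.tsum_le_tsum hρi).trans ?_
    rw [ENNReal.tsum_mul_left]
    exact (mul_le_mul_right hsum _).trans ENNReal.mul_div_le
  · have k := hu _ (hin M hM.2.1) _ (hin N hN.2.1) (by rwa [dist_eq_norm])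
    rw [Real.dist_eq, thinof_ell_nrm (Sh_subset hM.1), thinof_ell_nrm (Sh_subset hN.1)] at k
    have k2 := thinof_floor k
    have k3 : ⌊(2 : ℝ) ^ n * ((ell M).1 + (ell M).2)⌋ = i := hM.2.2
    have k4 : ⌊(2 : ℝ) ^ n * ((ell N).1 + (ell N).2)⌋ = j := hN.2.2
    rwa [k3, k4] at k2

theorem thin_of {μ : Measure E} (hμ : Good μ) {Ψ : E → ℝ} (hΨ : Wt Ψ) {ρ : E → ℝ≥0∞}
    (h : Dens (μ.withDensity fun M => ENNReal.ofReal (Ψ M)) ρ) (h₂ : ∫⁻ M, ρ M ^ 2 ∂nu < ⊤) :
    ∀ g ∈ Gp, 0 < Ψ g → Thin μ g := by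
  intro g hg h0
  obtain ⟨γ, hγ⟩ := exists_act_U0 hg
  refine Thin.of_act hμ γ (thin_U0 hμ (hΨ.act γ⁻¹) (dens_act hμ hΨ h γ⁻¹) ?_ hγ ?_)
  · rwa [(mp_act γ⁻¹).lintegral_comp_emb (me_act γ⁻¹) fun M => ρ M ^ 2]
  · simpa only [thinof_act_inv] using h0

end Pool.Agent.MP_a28cf0_nt.Four

namespace Pool.Agent.MP_a28cf0_nt.Four

open MeasureTheory Complex Filter Topology Set Pool.Agent.MP_a28cf0_nt.Cub
open scoped ENNReal MatrixGroups

theorem l2d_real {m : Measure ℂ} [IsFiniteMeasure m] {A : ℝ}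
    (h : ∀ φ : ℂ → ℝ, ContDiff ℝ (⊤ : ℕ∞) φ → HasCompactSupport φ →
      ∫ z, φ z ∂m ≤ A * √(∫ z, φ z ^ 2)) {f : ℂ → ℝ} (hf : MemLp f 2 (volume + m)) :
    ∫ z, f z ∂m ≤ |A| * (eLpNorm f 2 volume).toReal := by
  set c : ℝ≥0∞ := m univ ^ (1 / (1 : ℝ≥0∞).toReal - 1 / (2 : ℝ≥0∞).toReal) with hc
  have hc' : c ≠ ⊤ := ENNReal.rpow_ne_top_of_nonneg (by norm_num) (measure_ne_top _ _)
  have hfv : MemLp f 2 volume := hf.mono_measure (Measure.le_add_right le_rfl)
  have hfm : MemLp f 2 m := hf.mono_measure (Measure.le_add_left le_rfl)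
  have hI : IsFiniteMeasureOnCompacts (volume + m) := ⟨fun K hK => by
    rw [Measure.add_apply]
    exact ENNReal.add_lt_top.2 ⟨hK.measure_lt_top, measure_lt_top _ _⟩⟩
  have key : ∀ ε : ℝ, 0 < ε →
      ∫ z, f z ∂m ≤ |A| * (eLpNorm f 2 volume).toReal + ε * (|A| + c.toReal) := by
    intro ε hε
    obtain ⟨g, hg1, hg2, hg3⟩ := hf.exist_eLpNorm_sub_le (by norm_num) (by norm_num) hε
    have hv : eLpNorm (f - g) 2 volume ≤ ENNReal.ofReal ε :=
      (eLpNorm_mono_measure _ (Measure.le_add_right le_rfl)).trans hg3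
    have hm : eLpNorm (f - g) 2 m ≤ ENNReal.ofReal ε :=
      (eLpNorm_mono_measure _ (Measure.le_add_left le_rfl)).trans hg3
    have hgv : MemLp g 2 volume := hg2.continuous.memLp_of_hasCompactSupport hg1
    have hgm : MemLp g 2 m := hg2.continuous.memLp_of_hasCompactSupport hg1
    have h1 : (eLpNorm g 2 volume).toReal = √(∫ z, g z ^ 2) := by
      rw [hgv.eLpNorm_eq_integral_rpow_norm (by norm_num) (by norm_num),
        ENNReal.toReal_ofReal (by positivity), Real.sqrt_eq_rpow]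
      simp
    have h2 : (eLpNorm g 2 volume).toReal ≤ (eLpNorm f 2 volume).toReal + ε := by
      have a1 : eLpNorm g 2 volume ≤ eLpNorm f 2 volume + ENNReal.ofReal ε := by
        have := eLpNorm_sub_le hfv.1 (hfv.sub hgv).1 (p := 2) (by norm_num)
        rw [sub_sub_cancel] at this
        exact this.trans (add_le_add le_rfl hv)
      have := ENNReal.toReal_mono (ENNReal.add_ne_top.2 ⟨hfv.2.ne, ENNReal.ofReal_ne_top⟩) a1
      rwa [ENNReal.toReal_add hfv.2.ne ENNReal.ofReal_ne_top, ENNReal.toReal_ofReal hε.le] at this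
    have h3 : ∫ z, f z ∂m - ∫ z, g z ∂m ≤ ε * c.toReal := by
      rw [← integral_sub (hfm.integrable (by norm_num)) (hgm.integrable (by norm_num))]
      have a1 : ‖∫ z, (f z - g z) ∂m‖ₑ ≤ ENNReal.ofReal ε * c := by
        refine (enorm_integral_le_lintegral_enorm _).trans ?_
        have := eLpNorm_le_eLpNorm_mul_rpow_measure_univ (p := 1) (q := 2) (by norm_num)
          (hfm.sub hgm).1
        rw [eLpNorm_one_eq_lintegral_enorm] at this
        exact this.trans (mul_le_mul_left hm _)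
      have := ENNReal.toReal_mono (ENNReal.mul_ne_top ENNReal.ofReal_ne_top hc') a1
      rw [ENNReal.toReal_mul, ENNReal.toReal_ofReal hε.le, toReal_enorm] at this
      exact (le_abs_self _).trans this
    have h4 := h g hg2 hg1
    have h5 : A * √(∫ z, g z ^ 2) ≤ |A| * ((eLpNorm f 2 volume).toReal + ε) := by
      rw [← h1]
      exact mul_le_mul (le_abs_self _) h2 ENNReal.toReal_nonneg (abs_nonneg _)
    linarith
  refine le_of_forall_pos_le_add fun ε hε => ?_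
  have hp : 0 < |A| + c.toReal + 1 := by positivity
  refine (key (ε / (|A| + c.toReal + 1)) (by positivity)).trans (add_le_add le_rfl ?_)
  rw [div_mul_eq_mul_div, div_le_iff₀ hp]
  nlinarith

theorem l2d_enn {m : Measure ℂ} [IsFiniteMeasure m] {A : ℝ}
    (h : ∀ φ : ℂ → ℝ, ContDiff ℝ (⊤ : ℕ∞) φ → HasCompactSupport φ →
      ∫ z, φ z ∂m ≤ A * √(∫ z, φ z ^ 2)) {F : ℂ → ℝ≥0∞} (hF : Measurable F)
    (hfin : ∀ z, F z ≠ ⊤) (h2 : ∫⁻ z, F z ^ 2 ∂(volume + m) ≠ ⊤) :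
    ∫⁻ z, F z ∂m ≤ ENNReal.ofReal |A| * (∫⁻ z, F z ^ 2) ^ (1 / 2 : ℝ) := by
  have he : ∀ z, ‖(F z).toReal‖ₑ = F z := fun z => by
    rw [Real.enorm_eq_ofReal ENNReal.toReal_nonneg, ENNReal.ofReal_toReal (hfin z)]
  have hn : ∀ ν : Measure ℂ, eLpNorm (fun z => (F z).toReal) 2 ν
      = (∫⁻ z, F z ^ 2 ∂ν) ^ (1 / 2 : ℝ) := fun ν => by
    rw [eLpNorm_eq_lintegral_rpow_enorm_toReal (by norm_num) (by norm_num)]
    simp [he]
  have hf : MemLp (fun z => (F z).toReal) 2 (volume + m) :=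
    ⟨hF.ennreal_toReal.aestronglyMeasurable, by
      rw [hn]; exact ENNReal.rpow_lt_top_of_nonneg (by norm_num) h2⟩
  have h3 := l2d_real h hf
  have hfv : MemLp (fun z => (F z).toReal) 2 volume := hf.mono_measure (Measure.le_add_right le_rfl)
  have hfm : MemLp (fun z => (F z).toReal) 2 m := hf.mono_measure (Measure.le_add_left le_rfl)
  have h4 : ∫⁻ z, F z ∂m ≠ ⊤ := by
    have := (hfm.integrable (by norm_num)).2
    rw [hasFiniteIntegral_iff_enorm] at this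
    simpa only [he] using this.ne
  rw [integral_toReal hF.aemeasurable (ae_of_all _ fun z => (hfin z).lt_top)] at h3
  rw [← ENNReal.ofReal_toReal h4, ← hn, ← ENNReal.ofReal_toReal hfv.2.ne,
    ← ENNReal.ofReal_mul (abs_nonneg _)]
  exact ENNReal.ofReal_le_ofReal h3

theorem l2_gen {m : Measure ℂ} [IsFiniteMeasure m] {A : ℝ}
    (h : ∀ φ : ℂ → ℝ, ContDiff ℝ (⊤ : ℕ∞) φ → HasCompactSupport φ →
      ∫ z, φ z ∂m ≤ A * √(∫ z, φ z ^ 2)) :
    m ≪ volume ∧ ∫⁻ z, m.rnDeriv volume z ^ 2 < ⊤ := by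
  have hac : m ≪ volume := by
    refine Measure.AbsolutelyContinuous.mk fun s hs h0 => ?_
    have e : ∀ z, s.indicator (1 : ℂ → ℝ≥0∞) z ^ 2 = s.indicator 1 z := fun z => by
      by_cases hz : z ∈ s <;> simp [hz]
    have := l2d_enn h (F := s.indicator 1) (measurable_one.indicator hs)
      (fun z => by by_cases hz : z ∈ s <;> simp [hz])
      (by simp only [e, lintegral_indicator_one hs, Measure.add_apply, h0, zero_add]
          exact measure_ne_top _ _)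
    simp only [e, lintegral_indicator_one hs, h0] at this
    rw [ENNReal.zero_rpow_of_pos (by norm_num), mul_zero] at this
    exact le_zero_iff.1 this
  refine ⟨hac, ?_⟩
  set ρ := m.rnDeriv volume with hρ
  have hρm : Measurable ρ := Measure.measurable_rnDeriv _ _
  let F : ℕ → ℂ → ℝ≥0∞ := fun n => (Metric.ball (0 : ℂ) n).indicator fun z => min (ρ z) n
  have hF : ∀ n, Measurable (F n) := fun n =>
    (hρm.min measurable_const).indicator Metric.isOpen_ball.measurableSet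
  have hle : ∀ n z, F n z ≤ ρ z := fun n z =>
    indicator_le' (fun _ _ => min_le_left _ _) (fun _ _ => zero_le) z
  have hsq : ∀ n z, F n z ^ 2 ≤ (Metric.ball (0 : ℂ) n).indicator (fun _ => (n : ℝ≥0∞) ^ 2) z := by
    intro n z
    by_cases hz : z ∈ Metric.ball (0 : ℂ) n
    · simp only [F, indicator_of_mem hz]
      exact pow_le_pow_left' (min_le_right _ _) 2
    · simp [F, indicator_of_notMem hz]
  have hfin : ∀ n z, F n z ≠ ⊤ := fun n z =>
    ne_top_of_le_ne_top (ENNReal.natCast_ne_top n)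
      (indicator_le' (fun _ _ => min_le_right _ _) (fun _ _ => zero_le) z)
  have hI : ∀ n, ∫⁻ z, F n z ^ 2 ∂(volume + m) ≠ ⊤ := fun n => by
    refine ne_top_of_le_ne_top ?_ (lintegral_mono (hsq n))
    rw [lintegral_indicator_const Metric.isOpen_ball.measurableSet, Measure.add_apply]
    exact ENNReal.mul_ne_top (ENNReal.pow_ne_top (ENNReal.natCast_ne_top n))
      (ENNReal.add_ne_top.2 ⟨measure_ball_lt_top.ne, measure_ne_top _ _⟩)
  have hb : ∀ n, ∫⁻ z, F n z ^ 2 ≤ ENNReal.ofReal |A| ^ 2 := by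
    intro n
    have h1 := l2d_enn h (hF n) (hfin n) (hI n)
    have h2 : ∫⁻ z, F n z ^ 2 ≤ ∫⁻ z, F n z ∂m := by
      rw [← lintegral_rnDeriv_mul hac (hF n).aemeasurable]
      refine lintegral_mono fun z => ?_
      beta_reduce
      rw [sq]
      exact mul_le_mul_left (hle n z) _
    have h3 : ∫⁻ z, F n z ^ 2 ≠ ⊤ :=
      ne_top_of_le_ne_top (hI n) (lintegral_mono' (Measure.le_add_right le_rfl) le_rfl)
    set J := (∫⁻ z, F n z ^ 2) ^ (1 / 2 : ℝ) with hJ
    have h4 : ∫⁻ z, F n z ^ 2 = J ^ 2 := by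
      rw [hJ, ← ENNReal.rpow_natCast, ← ENNReal.rpow_mul]
      norm_num
    have h5 : J ≠ ⊤ := ENNReal.rpow_ne_top_of_nonneg (by norm_num) h3
    rw [h4]
    refine pow_le_pow_left' ?_ 2
    rcases eq_or_ne J 0 with h0 | h0
    · rw [h0]; exact zero_le
    · have h6 := h2.trans h1
      rw [h4, sq] at h6
      exact (ENNReal.mul_le_mul_iff_left h0 h5).1 h6
  have hlim : ∀ᵐ z : ℂ, ρ z ^ 2 = liminf (fun n => F n z ^ 2) atTop := by
    filter_upwards [Measure.rnDeriv_lt_top m volume] with z hz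
    refine (Tendsto.liminf_eq ?_).symm
    refine tendsto_const_nhds.congr' ?_
    obtain ⟨N, hN⟩ := ENNReal.exists_nat_gt hz.ne
    obtain ⟨N', hN'⟩ := exists_nat_gt ‖z‖
    filter_upwards [eventually_ge_atTop N, eventually_ge_atTop N'] with n h1 h2
    have a1 : z ∈ Metric.ball (0 : ℂ) n :=
      mem_ball_zero_iff.2 (hN'.trans_le (by exact_mod_cast h2))
    have a2 : ρ z ≤ n := hN.le.trans (by exact_mod_cast h1)
    simp only [F, indicator_of_mem a1, min_eq_left a2]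
  rw [lintegral_congr_ae hlim]
  refine (lintegral_liminf_le fun n => (hF n).pow_const 2).trans_lt ?_
  refine (liminf_le_of_frequently_le' (Frequently.of_forall hb)).trans_lt ?_
  exact ENNReal.pow_lt_top ENNReal.ofReal_lt_top

theorem l2d_bound {K : Set ℂ} (hK : IsCompact K) {f : ℂ → ℝ} (hf : ContinuousOn f K) :
    ∃ B : ℝ, 0 ≤ B ∧ ∀ z ∈ K, ENNReal.ofReal (f z) ≤ ENNReal.ofReal B := by
  obtain ⟨B, hB⟩ := hK.exists_bound_of_continuousOn hf
  exact ⟨|B|, abs_nonneg _, fun z hz => ENNReal.ofReal_le_ofReal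
    ((le_abs_self _).trans ((hB z hz).trans (le_abs_self _)))⟩

theorem l2d_sq {Ψ : E → ℝ} (hΨ : Wt Ψ) {A₀ r B₁ : ℝ} (hA₀ : 0 ≤ A₀) (hb : ∀ M ∈ Sh, Ψ M ≤ A₀)
    (hz : ∀ M ∈ Sh, M ∉ Bl r → Ψ M = 0) {K : Set ℂ} (hK : MeasurableSet K)
    (hKm : ∀ M ∈ Bl r, pr M ∈ K) (hB₁ : 0 ≤ B₁)
    (hw₁ : ∀ z ∈ K, ENNReal.ofReal (15 * Real.pi / 2 / z.im ^ 2) ≤ ENNReal.ofReal B₁)
    {φ : ℂ → ℝ} (hφ : Continuous φ) (hs : HasCompactSupport φ) :
    ∫ M, Ψ M * φ (pr M) ^ 2 ∂nu ≤ A₀ * B₁ * ∫ z, φ z ^ 2 := by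
  have hφm : Measurable φ := hφ.measurable
  have hi : Integrable fun z => φ z ^ 2 :=
    (hφ.memLp_of_hasCompactSupport (p := 2) hs).integrable_sq
  have hφ2 : Measurable fun z => ENNReal.ofReal (φ z ^ 2) := (hφm.pow_const 2).ennreal_ofReal
  obtain ⟨G, hGd⟩ : ∃ G : ℂ → ℝ≥0∞, G = K.indicator fun z =>
    ENNReal.ofReal A₀ * ENNReal.ofReal (φ z ^ 2) := ⟨_, rfl⟩
  have hG : Measurable G := by
    rw [hGd]
    refine Measurable.indicator ?_ hK
    fun_prop
  have e1 : ∫⁻ M, ENNReal.ofReal (Ψ M * φ (pr M) ^ 2) ∂nu ≤ ∫⁻ M, G (pr M) ∂nu := by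
    refine lintegral_mono_ae (ae_mem_Sh.mono fun M hM => ?_)
    by_cases h1 : M ∈ Bl r
    · rw [hGd, indicator_of_mem (hKm M h1), ENNReal.ofReal_mul (hΨ.nn M)]
      exact mul_le_mul_left (ENNReal.ofReal_le_ofReal (hb M hM)) _
    · rw [hz M hM h1]; simp
  have e2 : ∫⁻ M, G (pr M) ∂nu ≤ ∫⁻ z, ENNReal.ofReal (A₀ * B₁) * ENNReal.ofReal (φ z ^ 2) := by
    rw [lintegral_pr hG]
    refine (setLIntegral_le_lintegral _ _).trans (lintegral_mono fun z => ?_)
    beta_reduce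
    by_cases h1 : z ∈ K
    · rw [hGd, indicator_of_mem h1, ENNReal.ofReal_mul hA₀, mul_right_comm]
      exact mul_le_mul_left (mul_le_mul_right (hw₁ z h1) _) _
    · rw [hGd, indicator_of_notMem h1, zero_mul]
      exact zero_le
  rw [lintegral_const_mul _ hφ2, ← ofReal_integral_eq_lintegral_ofReal hi
    (ae_of_all _ fun z => sq_nonneg _), ← ENNReal.ofReal_mul (mul_nonneg hA₀ hB₁)] at e2
  have hmeas : Measurable fun M => Ψ M * φ (pr M) ^ 2 := by
    have a1 := hΨ.meas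
    have a2 := measurable_pr
    fun_prop
  rw [integral_eq_lintegral_of_nonneg_ae
    (ae_of_all _ fun M => mul_nonneg (hΨ.nn M) (sq_nonneg _)) hmeas.aestronglyMeasurable]
  exact ENNReal.toReal_le_of_le_ofReal
    (mul_nonneg (mul_nonneg hA₀ hB₁) (integral_nonneg fun z => sq_nonneg _)) (e1.trans e2)

theorem l2d_ww {z : ℂ} (h0 : z ∈ Up) : ENNReal.ofReal (z.im ^ 2 / (15 * Real.pi / 2)) *
    ENNReal.ofReal (15 * Real.pi / 2 / z.im ^ 2) = 1 := by
  have h1 : 0 < z.im := h0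
  rw [← ENNReal.ofReal_mul (by positivity), ← ENNReal.ofReal_one]
  congr 1
  field_simp

theorem l2d_dens {μ' : Measure E} [IsFiniteMeasure μ'] {K : Set ℂ} (hK : IsCompact K)
    (hKU : K ⊆ Up) (hae : ∀ᵐ M ∂μ', M ∈ Gp ∧ pr M ∈ K) (hac : μ'.map pr ≪ volume)
    (hL2 : ∫⁻ z, (μ'.map pr).rnDeriv volume z ^ 2 < ⊤) :
    ∃ ρ : E → ℝ≥0∞, Dens μ' ρ ∧ ∫⁻ M, ρ M ^ 2 ∂nu < ⊤ := by
  have hUp : MeasurableSet Up := (isOpen_lt continuous_const continuous_im).measurableSet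
  obtain ⟨B₂, -, hw₂⟩ := l2d_bound hK (f := fun z => z.im ^ 2 / (15 * Real.pi / 2)) (by fun_prop)
  obtain ⟨σ, hσ⟩ : ∃ σ : ℂ → ℝ≥0∞, σ = (μ'.map pr).rnDeriv volume := ⟨_, rfl⟩
  rw [← hσ] at hL2
  have hσm : Measurable σ := hσ ▸ Measure.measurable_rnDeriv _ _
  obtain ⟨G, hGd⟩ : ∃ G : ℂ → ℝ≥0∞, G = K.indicator fun z =>
    σ z * ENNReal.ofReal (z.im ^ 2 / (15 * Real.pi / 2)) := ⟨_, rfl⟩
  have hG : Measurable G := by
    rw [hGd]
    refine Measurable.indicator ?_ hK.measurableSet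
    fun_prop
  refine ⟨fun M => G (pr M), ⟨base_pr hG, fun F hF => ?_⟩, ?_⟩
  · obtain ⟨f, hfd⟩ : ∃ f : ℂ → ℝ≥0∞, f = fun z => F (z, 1) := ⟨_, rfl⟩
    have hf : Measurable f := hfd ▸ hF.1.1.comp measurable_prodMk_right
    have hFf : ∀ M ∈ Gp, F M = f (pr M) := fun M hM => by rw [hfd]; exact hF.eq_sec hM
    have hf' : Measurable (K.indicator f) := hf.indicator hK.measurableSet
    have e1 : ∫⁻ M, F M ∂μ' = ∫⁻ z, σ z * K.indicator f z := by
      rw [hσ, lintegral_rnDeriv_mul hac hf'.aemeasurable, lintegral_map hf' measurable_pr]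
      refine lintegral_congr_ae (hae.mono fun M hM => ?_)
      beta_reduce
      rw [indicator_of_mem hM.2, hFf M hM.1]
    have e2 : ∫⁻ M, F M * G (pr M) ∂nu = ∫⁻ M, f (pr M) * G (pr M) ∂nu := by
      refine lintegral_congr_ae (ae_mem_Sh.mono fun M hM => ?_)
      beta_reduce
      rw [hFf M (Sh_subset hM)]
    have e3 := lintegral_pr (f := fun z => f z * G z) (hf.mul hG)
    beta_reduce at e3 ⊢
    rw [e1, e2, e3, ← lintegral_indicator hUp]
    refine lintegral_mono fun z => ?_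
    beta_reduce
    by_cases h1 : z ∈ K
    · rw [indicator_of_mem h1, indicator_of_mem (hKU h1), hGd, indicator_of_mem h1,
        mul_assoc, mul_assoc, l2d_ww (hKU h1), mul_one, mul_comm]
    · rw [indicator_of_notMem h1, mul_zero]
      exact zero_le
  · have e3 := lintegral_pr (f := fun z => G z ^ 2) (hG.pow_const 2)
    beta_reduce at e3 ⊢
    rw [e3]
    refine lt_of_le_of_lt ((setLIntegral_le_lintegral _ _).trans
      (lintegral_mono (g := fun z => ENNReal.ofReal B₂ * σ z ^ 2) fun z => ?_)) ?_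
    · beta_reduce
      by_cases h1 : z ∈ K
      · rw [hGd, indicator_of_mem h1, mul_pow, mul_assoc, sq (ENNReal.ofReal _), mul_assoc,
          l2d_ww (hKU h1), mul_one, mul_comm]
        exact mul_le_mul_left (hw₂ z h1) _
      · rw [hGd, indicator_of_notMem h1, sq, zero_mul, zero_mul]
        exact zero_le
    · rw [lintegral_const_mul _ (hσm.pow_const 2)]
      exact ENNReal.mul_lt_top ENNReal.ofReal_lt_top hL2

theorem exists_dens {μ : Measure E} (hμ : Good μ) {Ψ : E → ℝ} (hΨ : Wt Ψ) {A : ℝ}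
    (h : ∀ φ : ℂ → ℝ, ContDiff ℝ (⊤ : ℕ∞) φ → HasCompactSupport φ →
      ∫ M, Ψ M * φ (pr M) ∂μ ≤ A * √(∫ M, Ψ M * φ (pr M) ^ 2 ∂nu)) :
    ∃ ρ : E → ℝ≥0∞, Dens (μ.withDensity fun M => ENNReal.ofReal (Ψ M)) ρ ∧
      ∫⁻ M, ρ M ^ 2 ∂nu < ⊤ := by
  obtain ⟨A₀, r, hA₀, hb, hz⟩ := hΨ.bound
  have := hμ.fin
  have hΨm : Measurable fun M => ENNReal.ofReal (Ψ M) := hΨ.meas.ennreal_ofReal
  have hBl : Bl r ⊆ Gp := inter_subset_left.trans Sh_subset
  obtain ⟨K, hKdef⟩ : ∃ K : Set ℂ, K = pr '' Bl r := ⟨_, rfl⟩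
  have hKm : ∀ M ∈ Bl r, pr M ∈ K := fun M hM => hKdef ▸ mem_image_of_mem pr hM
  have hK : IsCompact K := hKdef ▸
    (isCompact_Bl r).image_of_continuousOn ((contDiffOn_pr (n := 0)).continuousOn.mono hBl)
  have hKU : K ⊆ Up := by rw [hKdef]; rintro _ ⟨M, hM, rfl⟩; exact pr_mem (hBl hM)
  have hind : ∀ M ∈ Sh, ENNReal.ofReal (Ψ M) ≤
      (Bl r).indicator (fun _ => ENNReal.ofReal A₀) M := by
    intro M hM
    by_cases h1 : M ∈ Bl r
    · rw [indicator_of_mem h1]; exact ENNReal.ofReal_le_ofReal (hb M hM)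
    · rw [hz M hM h1]; simp
  have hfin : IsFiniteMeasure (μ.withDensity fun M => ENNReal.ofReal (Ψ M)) := by
    refine isFiniteMeasure_withDensity (ne_top_of_le_ne_top ?_
      (lintegral_mono_ae ((good_ae hμ).mono hind)))
    rw [lintegral_indicator_const (measurableSet_Bl r)]
    exact ENNReal.mul_ne_top ENNReal.ofReal_ne_top (isCompact_Bl r).measure_lt_top.ne
  have hae : ∀ᵐ M ∂(μ.withDensity fun M => ENNReal.ofReal (Ψ M)), M ∈ Gp ∧ pr M ∈ K := by
    rw [ae_withDensity_iff hΨm]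
    filter_upwards [good_ae hμ] with M hM h0
    refine ⟨Sh_subset hM, hKm M ?_⟩
    by_contra h1
    exact h0 (by rw [hz M hM h1, ENNReal.ofReal_zero])
  obtain ⟨B₁, hB₁, hw₁⟩ := l2d_bound hK (f := fun z => 15 * Real.pi / 2 / z.im ^ 2)
    (continuousOn_const.div (by fun_prop) fun z hz => pow_ne_zero 2 (ne_of_gt (hKU hz)))
  have key : ∀ φ : ℂ → ℝ, ContDiff ℝ (⊤ : ℕ∞) φ → HasCompactSupport φ →
      ∫ z, φ z ∂((μ.withDensity fun M => ENNReal.ofReal (Ψ M)).map pr) ≤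
        |A| * √(A₀ * B₁) * √(∫ z, φ z ^ 2) := by
    intro φ hφ hs
    have hφm : Measurable φ := hφ.continuous.measurable
    have e3 := l2d_sq hΨ hA₀ hb hz hK.measurableSet hKm hB₁ hw₁ hφ.continuous hs
    rw [integral_map measurable_pr.aemeasurable hφm.aestronglyMeasurable,
      integral_withDensity_eq_integral_toReal_smul hΨm
        (ae_of_all _ fun _ => ENNReal.ofReal_lt_top), mul_assoc,
      ← Real.sqrt_mul (mul_nonneg hA₀ hB₁)]
    simp only [ENNReal.toReal_ofReal (hΨ.nn _), smul_eq_mul]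
    exact (h φ hφ hs).trans (mul_le_mul (le_abs_self _) (Real.sqrt_le_sqrt e3)
      (Real.sqrt_nonneg _) (abs_nonneg _))
  obtain ⟨hac, hL2⟩ := l2_gen key
  exact l2d_dens hK hKU hae hac hL2

end Pool.Agent.MP_a28cf0_nt.Four

namespace Pool.Agent.MP_a28cf0_nt.Four

open MeasureTheory Complex Filter Topology Set Pool.Agent.MP_a28cf0_nt.Cub
open scoped ENNReal MatrixGroups

/-- the open quadrant -/
def kernelQ : Set E := {M : E | M.1.re < 0 ∧ 0 < M.1.im ∧ 0 < M.2.re ∧ 0 < M.2.im}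

noncomputable def kernelT (M : E) : ℝ := Real.arctan (√(-M.1.re * M.2.im / (M.2.re * M.1.im)))

noncomputable def kernelA (M : E) : ℝ := Real.log (-M.1.re * M.1.im / (M.2.re * M.2.im)) / 4

noncomputable def kernelB (M : E) : ℝ := Real.log (-M.1.re * M.2.re / (M.1.im * M.2.im)) / 4

theorem kernel_cre1 : Continuous fun M : E => M.1.re := continuous_re.comp continuous_fst
theorem kernel_cim1 : Continuous fun M : E => M.1.im := continuous_im.comp continuous_fst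
theorem kernel_cre2 : Continuous fun M : E => M.2.re := continuous_re.comp continuous_snd
theorem kernel_cim2 : Continuous fun M : E => M.2.im := continuous_im.comp continuous_snd

theorem kernel_isOpen : IsOpen kernelQ :=
  (isOpen_lt kernel_cre1 continuous_const).inter ((isOpen_lt continuous_const kernel_cim1).inter
    ((isOpen_lt continuous_const kernel_cre2).inter (isOpen_lt continuous_const kernel_cim2)))

theorem kernel_sub_Gp {M : E} (hM : M ∈ kernelQ) : M ∈ Gp := by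
  obtain ⟨h1, h2, h3, h4⟩ := hM
  show 0 < M.1.im * M.2.re - M.1.re * M.2.im
  nlinarith [mul_pos h2 h3, mul_pos (neg_pos.2 h1) h4]

theorem kernel_dt (θ s a b : ℝ) : dt (surfPt θ s a b) = s ^ 2 := by
  rw [surfPt, dt_smul, dt_fl, dt_rot, dt_fl, dt_one, mul_one]

theorem kernel_coord {θ s : ℝ} (hθ : θ ∈ Ioo 0 (Real.pi / 2)) (hs : 0 < s) (a b : ℝ) :
    surfPt θ s a b ∈ kernelQ ∧ kernelT (surfPt θ s a b) = θ ∧ kernelA (surfPt θ s a b) = a ∧
      kernelB (surfPt θ s a b) = b := by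
  obtain ⟨h1, h2, h3, h4⟩ := surfPt_coord θ s a b
  have hS : 0 < Real.sin θ := Real.sin_pos_of_pos_of_lt_pi hθ.1 (by linarith [hθ.2, Real.pi_pos])
  have hC : 0 < Real.cos θ := Real.cos_pos_of_mem_Ioo ⟨by linarith [hθ.1, Real.pi_pos], hθ.2⟩
  have ea := Real.exp_pos a
  have eb := Real.exp_pos b
  rw [Real.exp_neg] at h2 h3
  rw [Real.exp_neg, Real.exp_neg] at h4
  refine ⟨⟨?_, ?_, ?_, ?_⟩, ?_, ?_, ?_⟩
  · rw [h1, neg_lt_zero]; positivity
  · rw [h2]; positivity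
  · rw [h3]; positivity
  · rw [h4]; positivity
  · have e : -(surfPt θ s a b).1.re * (surfPt θ s a b).2.im /
        ((surfPt θ s a b).2.re * (surfPt θ s a b).1.im) = Real.tan θ ^ 2 := by
      rw [h1, h2, h3, h4, Real.tan_eq_sin_div_cos]
      field_simp
    rw [kernelT, e, Real.sqrt_sq (by rw [Real.tan_eq_sin_div_cos]; positivity),
      Real.arctan_tan (by linarith [hθ.1, Real.pi_pos]) hθ.2]
  · have e : -(surfPt θ s a b).1.re * (surfPt θ s a b).1.im /
        ((surfPt θ s a b).2.re * (surfPt θ s a b).2.im) = Real.exp a ^ 4 := by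
      rw [h1, h2, h3, h4]
      field_simp
    rw [kernelA, e, Real.log_pow, Real.log_exp]
    push_cast
    ring
  · have e : -(surfPt θ s a b).1.re * (surfPt θ s a b).2.re /
        ((surfPt θ s a b).1.im * (surfPt θ s a b).2.im) = Real.exp b ^ 4 := by
      rw [h1, h2, h3, h4]
      field_simp
    rw [kernelB, e, Real.log_pow, Real.log_exp]
    push_cast
    ring

theorem kernel_exp4 {r : ℝ} (hr : 0 < r) : Real.exp (Real.log r / 4) ^ 4 = r := by
  rw [← Real.exp_nat_mul]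
  have : ((4 : ℕ) : ℝ) * (Real.log r / 4) = Real.log r := by push_cast; ring
  rw [this, Real.exp_log hr]

theorem kernel_aux {x₁ y₁ x₂ y₂ s S C α β : ℝ} (h1 : 0 < x₁) (h2 : 0 < y₁) (h3 : 0 < x₂)
    (h4 : 0 < y₂) (hs : 0 < s) (hS : 0 < S) (hC : 0 < C) (hα : 0 < α) (hβ : 0 < β)
    (e1 : (s * S) ^ 2 = x₁ * y₂) (e2 : (s * C) ^ 2 = x₂ * y₁)
    (e3 : α ^ 4 = x₁ * y₁ / (x₂ * y₂)) (e4 : β ^ 4 = x₁ * x₂ / (y₁ * y₂)) :
    s * α * β * S = x₁ ∧ s * α * β⁻¹ * C = y₁ ∧ s * α⁻¹ * β * C = x₂ ∧ s * α⁻¹ * β⁻¹ * S = y₂ := by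
  have k : ∀ {u v : ℝ}, 0 < u → 0 < v → u ^ 4 = v ^ 4 → u = v := fun hu hv h =>
    (pow_left_inj₀ hu.le hv.le (by norm_num)).1 h
  refine ⟨k (by positivity) h1 ?_, k (by positivity) h2 ?_, k (by positivity) h3 ?_,
    k (by positivity) h4 ?_⟩
  · have : (s * α * β * S) ^ 4 = ((s * S) ^ 2) ^ 2 * α ^ 4 * β ^ 4 := by ring
    rw [this, e1, e3, e4]; field_simp
  · have : (s * α * β⁻¹ * C) ^ 4 = ((s * C) ^ 2) ^ 2 * α ^ 4 * (β ^ 4)⁻¹ := by ring
    rw [this, e2, e3, e4]; field_simp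
  · have : (s * α⁻¹ * β * C) ^ 4 = ((s * C) ^ 2) ^ 2 * (α ^ 4)⁻¹ * β ^ 4 := by ring
    rw [this, e2, e3, e4]; field_simp
  · have : (s * α⁻¹ * β⁻¹ * S) ^ 4 = ((s * S) ^ 2) ^ 2 * (α ^ 4)⁻¹ * (β ^ 4)⁻¹ := by ring
    rw [this, e1, e3, e4]; field_simp

theorem kernel_surj {M : E} (hM : M ∈ kernelQ) : kernelT M ∈ Ioo 0 (Real.pi / 2) ∧
    surfPt (kernelT M) (√(dt M)) (kernelA M) (kernelB M) = M := by
  have hG : 0 < dt M := kernel_sub_Gp hM
  obtain ⟨h1, h2, h3, h4⟩ := hM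
  have h1' : 0 < -M.1.re := neg_pos.2 h1
  have hr : 0 < -M.1.re * M.2.im / (M.2.re * M.1.im) := by positivity
  have hθ : kernelT M ∈ Ioo 0 (Real.pi / 2) :=
    ⟨Real.arctan_pos.2 (Real.sqrt_pos.2 hr), Real.arctan_lt_pi_div_two _⟩
  refine ⟨hθ, ?_⟩
  have hS : 0 < Real.sin (kernelT M) :=
    Real.sin_pos_of_pos_of_lt_pi hθ.1 (by linarith [hθ.2, Real.pi_pos])
  have hC : 0 < Real.cos (kernelT M) :=
    Real.cos_pos_of_mem_Ioo ⟨by linarith [hθ.1, Real.pi_pos], hθ.2⟩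
  have hd : dt M = -M.1.re * M.2.im + M.2.re * M.1.im := by unfold dt; ring
  have hc2 : Real.cos (kernelT M) ^ 2 = M.2.re * M.1.im / dt M := by
    rw [kernelT, Real.cos_sq_arctan, Real.sq_sqrt hr.le, hd]
    have : 0 < -M.1.re * M.2.im + M.2.re * M.1.im := by positivity
    field_simp
    ring
  have e2 : (√(dt M) * Real.cos (kernelT M)) ^ 2 = M.2.re * M.1.im := by
    rw [mul_pow, Real.sq_sqrt hG.le, hc2]; field_simp
  have e1 : (√(dt M) * Real.sin (kernelT M)) ^ 2 = -M.1.re * M.2.im := by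
    rw [mul_pow, Real.sq_sqrt hG.le] at e2 ⊢
    have := Real.sin_sq_add_cos_sq (kernelT M)
    linear_combination hd - e2 + dt M * this
  obtain ⟨k1, k2, k3, k4⟩ := kernel_aux h1' h2 h3 h4 (Real.sqrt_pos.2 hG) hS hC
    (Real.exp_pos (kernelA M)) (Real.exp_pos (kernelB M)) e1 e2
    (kernel_exp4 (by positivity)) (kernel_exp4 (by positivity))
  obtain ⟨c1, c2, c3, c4⟩ := surfPt_coord (kernelT M) (√(dt M)) (kernelA M) (kernelB M)
  rw [Real.exp_neg] at c2 c3
  rw [Real.exp_neg, Real.exp_neg] at c4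
  refine E_ext ?_ ?_ ?_ ?_
  · rw [c1, k1, neg_neg]
  · rw [c2, k2]
  · rw [c3, k3]
  · rw [c4, k4]

theorem kernel_chartP (v : Fin 4 → ℝ) : chartP (chartF v) = surfPt (v 0) (v 3) (v 1) (v 2) := by
  have h : chartE ((v 0, v 1), (v 2, v 3)) = v := by
    funext i; fin_cases i <;> rfl
  rw [surfPt, ← chart_eq, h]

theorem kernel_P_inj : Function.Injective chartP := by
  intro v w h
  have h1 := congrArg (fun M : E => M.1.re) h
  have h2 := congrArg (fun M : E => M.1.im) h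
  have h3 := congrArg (fun M : E => M.2.re) h
  have h4 := congrArg (fun M : E => M.2.im) h
  funext i
  fin_cases i
  · exact h1
  · exact h2
  · exact h3
  · exact h4

/-- exact change of variables on the open quadrant -/
theorem chart_pos {G : E → ℝ≥0∞} (hG : Measurable G) :
    ∫⁻ M in {M : E | M.1.re < 0 ∧ 0 < M.1.im ∧ 0 < M.2.re ∧ 0 < M.2.im}, G M =
      ∫⁻ θ in Ioo 0 (Real.pi / 2), ∫⁻ a, ∫⁻ b, ∫⁻ s in Ioi (0 : ℝ),
        ENNReal.ofReal (8 * s ^ 3 * (Real.sin θ * Real.cos θ)) *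
          G (s • fl b (rot θ (fl (-a) one))) := by
  let S0 : Set (Fin 4 → ℝ) := {v | v 0 ∈ Ioo 0 (Real.pi / 2) ∧ v 3 ∈ Ioi (0 : ℝ)}
  have hS0 : MeasurableSet S0 :=
    (measurable_pi_apply 0 measurableSet_Ioo).inter (measurable_pi_apply 3 measurableSet_Ioi)
  have hinj : InjOn chartF S0 := by
    intro v hv w hw h
    have e : surfPt (v 0) (v 3) (v 1) (v 2) = surfPt (w 0) (w 3) (w 1) (w 2) := by
      rw [← kernel_chartP, ← kernel_chartP, h]
    obtain ⟨-, a1, a2, a3⟩ := kernel_coord hv.1 hv.2 (v 1) (v 2)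
    obtain ⟨-, b1, b2, b3⟩ := kernel_coord hw.1 hw.2 (w 1) (w 2)
    have a4 := kernel_dt (v 0) (v 3) (v 1) (v 2)
    have b4 := kernel_dt (w 0) (w 3) (w 1) (w 2)
    rw [e] at a1 a2 a3 a4
    funext i
    fin_cases i
    · exact a1.symm.trans b1
    · exact a2.symm.trans b2
    · exact a3.symm.trans b3
    · exact (pow_left_inj₀ (le_of_lt hv.2) (le_of_lt hw.2) two_ne_zero).1 (a4.symm.trans b4)
  have him : chartF '' S0 = chartP ⁻¹' kernelQ := by
    ext w
    constructor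
    · rintro ⟨v, hv, rfl⟩
      rw [mem_preimage, kernel_chartP]
      exact (kernel_coord hv.1 hv.2 _ _).1
    · intro hw
      obtain ⟨h1, h2⟩ := kernel_surj hw
      refine ⟨![kernelT (chartP w), kernelA (chartP w), kernelB (chartP w), √(dt (chartP w))],
        ⟨h1, Real.sqrt_pos.2 (kernel_sub_Gp hw)⟩, kernel_P_inj ?_⟩
      rw [kernel_chartP]
      exact h2
  have key := lintegral_image_eq_lintegral_abs_det_fderiv_mul volume hS0
    (fun v _ => (chart_hasFDerivAt v).hasFDerivWithinAt) hinj fun w => G (chartP w)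
  have hQ : MeasurableSet kernelQ := kernel_isOpen.measurableSet
  have hL : ∫⁻ M in kernelQ, G M = ∫⁻ w in chartP ⁻¹' kernelQ, G (chartP w) := by
    rw [← lintegral_indicator hQ, ← chart_lintegral_P (hG.indicator hQ),
      ← lintegral_indicator (chart_measurable_P hQ)]
    rfl
  have hF : Measurable chartF :=
    (continuous_iff_continuousAt.2 fun v => (chart_hasFDerivAt v).continuousAt).measurable
  let g : (Fin 4 → ℝ) → ℝ≥0∞ := fun v =>
    ENNReal.ofReal (8 * v 3 ^ 3 * (Real.sin (v 0) * Real.cos (v 0))) * G (chartP (chartF v))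
  have hg : Measurable g := by
    refine Measurable.mul (Measurable.ennreal_ofReal ?_) (hG.comp (chart_measurable_P.comp hF))
    fun_prop
  have hy : Measurable fun y => g (chartE y) := hg.comp chart_measurable_E
  have hR : ∫⁻ v in S0, ENNReal.ofReal |(chartD v).det| * G (chartP (chartF v)) =
      ∫⁻ v in S0, g v := by
    refine setLIntegral_congr_fun hS0 fun v hv => ?_
    have hS : 0 < Real.sin (v 0) :=
      Real.sin_pos_of_pos_of_lt_pi hv.1.1 (by linarith [hv.1.2, Real.pi_pos])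
    have hC : 0 < Real.cos (v 0) :=
      Real.cos_pos_of_mem_Ioo ⟨by linarith [hv.1.1, Real.pi_pos], hv.1.2⟩
    have h3 : 0 < v 3 := hv.2
    simp only [g]
    rw [chart_det, abs_neg, abs_of_pos (by positivity)]
  change ∫⁻ M in kernelQ, G M = _
  rw [hL, ← him, key, hR, ← chart_mp_E.setLIntegral_comp_preimage hS0 hg]
  have hS : chartE ⁻¹' S0 = (Ioo 0 (Real.pi / 2) ×ˢ univ) ×ˢ (univ ×ˢ Ioi (0 : ℝ)) := by
    ext y
    simp only [chartE, S0, mem_preimage, mem_ofPred_eq, mem_prod, Matrix.cons_val_zero,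
      Matrix.cons_val, mem_univ, and_true, true_and]
  rw [hS, Measure.volume_eq_prod, ← Measure.prod_restrict, lintegral_prod _ hy.aemeasurable,
    Measure.volume_eq_prod, ← Measure.prod_restrict, ← Measure.prod_restrict,
    lintegral_prod _ hy.lintegral_prod_right'.aemeasurable, Measure.restrict_univ]
  refine lintegral_congr fun θ => lintegral_congr fun a => ?_
  rw [lintegral_prod (fun y => g (chartE ((θ, a), y)))
    (hy.comp measurable_prodMk_left).aemeasurable]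
  simp only [g, chart_eq]
  rfl

theorem exists_tim {η : ℝ} (hη : 0 < η) : ∃ w : ℝ → ℝ, Tim η w := by
  let f : ContDiffBump (η / 2) := ⟨η / 4, η / 2, by linarith, by linarith⟩
  refine ⟨f.normed volume, f.continuous_normed, f.nonneg_normed, fun a ha => ?_, ?_⟩
  · have h : a ∈ Function.support (f.normed volume) := ha
    rw [f.support_normed_eq, Metric.mem_ball, Real.dist_eq] at h
    have h' : |a - η / 2| < η / 2 := h
    obtain ⟨h1, h2⟩ := abs_lt.1 h'
    exact ⟨by linarith, by linarith⟩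
  · rw [← ofReal_integral_eq_lintegral_ofReal f.integrable_normed
      (Eventually.of_forall f.nonneg_normed), f.integral_normed, ENNReal.ofReal_one]

theorem kernel_smul_pt (t θ s a b : ℝ) : t • surfPt θ s a b = surfPt θ (t * s) a b := by
  simp only [surfPt, smul_smul]

theorem kernel_smul {s : ℝ} (hs : 0 < s) {h : E} (hh : h ∈ kernelQ) :
    s • h ∈ kernelQ ∧ kernelT (s • h) = kernelT h ∧ kernelA (s • h) = kernelA h ∧
      kernelB (s • h) = kernelB h := by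
  obtain ⟨h1, h2⟩ := kernel_surj hh
  have e : s • h = surfPt (kernelT h) (s * √(dt h)) (kernelA h) (kernelB h) := by
    rw [← kernel_smul_pt, h2]
  rw [e]
  exact kernel_coord h1 (mul_pos hs (Real.sqrt_pos.2 (kernel_sub_Gp hh))) _ _

theorem kernel_nrm {h : E} (hh : h ∈ kernelQ) :
    nrm h = surfPt (kernelT h) 1 (kernelA h) (kernelB h) := by
  obtain ⟨-, h2⟩ := kernel_surj hh
  have hs : 0 < √(dt h) := Real.sqrt_pos.2 (kernel_sub_Gp hh)
  have e : h = √(dt h) • surfPt (kernelT h) 1 (kernelA h) (kernelB h) := by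
    rw [kernel_smul_pt, mul_one, h2]
  calc nrm h = nrm (√(dt h) • surfPt (kernelT h) 1 (kernelA h) (kernelB h)) := by rw [← e]
    _ = _ := by rw [nrm_smul hs, nrm_of_dt (by rw [kernel_dt, one_pow])]

theorem kernel_mT : Measurable kernelT :=
  Real.continuous_arctan.measurable.comp (Real.continuous_sqrt.measurable.comp
    ((kernel_cre1.measurable.neg.mul kernel_cim2.measurable).div
      (kernel_cre2.measurable.mul kernel_cim1.measurable)))

theorem kernel_mA : Measurable kernelA :=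
  (Real.measurable_log.comp ((kernel_cre1.measurable.neg.mul kernel_cim1.measurable).div
    (kernel_cre2.measurable.mul kernel_cim2.measurable))).div_const 4

theorem kernel_mB : Measurable kernelB :=
  (Real.measurable_log.comp ((kernel_cre1.measurable.neg.mul kernel_cre2.measurable).div
    (kernel_cim1.measurable.mul kernel_cim2.measurable))).div_const 4

theorem kernel_cT : ContinuousOn kernelT kernelQ :=
  Real.continuous_arctan.comp_continuousOn (Real.continuous_sqrt.comp_continuousOn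
    ((kernel_cre1.neg.mul kernel_cim2).continuousOn.div
      (kernel_cre2.mul kernel_cim1).continuousOn fun _ hM => (mul_pos hM.2.2.1 hM.2.1).ne'))

theorem kernel_cA : ContinuousOn kernelA kernelQ :=
  (((kernel_cre1.neg.mul kernel_cim1).continuousOn.div
    (kernel_cre2.mul kernel_cim2).continuousOn fun _ hM => (mul_pos hM.2.2.1 hM.2.2.2).ne').log
    fun _ hM => (div_pos (mul_pos (neg_pos.2 hM.1) hM.2.1)
      (mul_pos hM.2.2.1 hM.2.2.2)).ne').div_const 4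

theorem kernel_cB : ContinuousOn kernelB kernelQ :=
  (((kernel_cre1.neg.mul kernel_cre2).continuousOn.div
    (kernel_cim1.mul kernel_cim2).continuousOn fun _ hM => (mul_pos hM.2.1 hM.2.2.2).ne').log
    fun _ hM => (div_pos (mul_pos (neg_pos.2 hM.1) hM.2.2.1)
      (mul_pos hM.2.1 hM.2.2.2)).ne').div_const 4

theorem kernel_thirty : ∫⁻ s in Icc (1 : ℝ) 2, ENNReal.ofReal (8 * s ^ 3) = ENNReal.ofReal 30 := by
  have hc : Continuous fun s : ℝ => 8 * s ^ 3 := by fun_prop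
  rw [← ofReal_integral_eq_lintegral_ofReal hc.integrableOn_Icc
    ((ae_restrict_mem measurableSet_Icc).mono fun s hs => by
      have : 0 ≤ s := by linarith [hs.1]
      show (0 : ℝ) ≤ 8 * s ^ 3
      positivity), integral_Icc_eq_integral_Ioc, ← intervalIntegral.integral_of_le (by norm_num),
    intervalIntegral.integral_const_mul, integral_pow]
  norm_num

/-- a homogeneous continuous density for the averaging along both geodesics -/
theorem exists_Xi {p w : ℝ → ℝ} (hp : Ang p) (hw : Tim 1 w) :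
    ∃ Ξ : E → ℝ, ContinuousOn Ξ Gp ∧ Measurable Ξ ∧ (∀ h, 0 ≤ Ξ h) ∧
      (∀ (s : ℝ) (h : E), 0 < s → Ξ (s • h) = Ξ h) ∧
      (∃ ρ : ℝ, ∀ h ∈ Gp, Ξ h ≠ 0 → ‖nrm h‖ ≤ ρ) ∧
      ∀ G : E → ℝ≥0∞, Hom G → ∫⁻ h, ENNReal.ofReal (Ξ h) * G h ∂nu =
        ∫⁻ θ, ∫⁻ a, ∫⁻ b, ENNReal.ofReal (p θ * w a * w b) * G (fl b (rot θ (fl (-a) one))) := by
  obtain ⟨θ₁, θ₂, h₁, h₂, hsupp⟩ := hp.supp
  let f : E → ℝ := fun M => p (kernelT M) * w (kernelA M) * w (kernelB M) /
    (30 * (Real.sin (kernelT M) * Real.cos (kernelT M)))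
  have hQ : MeasurableSet kernelQ := kernel_isOpen.measurableSet
  have hsc : ∀ θ ∈ Ioo 0 (Real.pi / 2), 0 < Real.sin θ * Real.cos θ := fun θ hθ =>
    mul_pos (Real.sin_pos_of_pos_of_lt_pi hθ.1 (by linarith [hθ.2, Real.pi_pos]))
      (Real.cos_pos_of_mem_Ioo ⟨by linarith [hθ.1, Real.pi_pos], hθ.2⟩)
  have hfm : Measurable f :=
    (((hp.cont.measurable.comp kernel_mT).mul (hw.cont.measurable.comp kernel_mA)).mul
      (hw.cont.measurable.comp kernel_mB)).div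
      (((Real.measurable_sin.comp kernel_mT).mul (Real.measurable_cos.comp kernel_mT)).const_mul 30)
  have hfc : ContinuousOn f kernelQ :=
    (((hp.cont.comp_continuousOn kernel_cT).mul (hw.cont.comp_continuousOn kernel_cA)).mul
      (hw.cont.comp_continuousOn kernel_cB)).div
      (continuousOn_const.mul ((Real.continuous_sin.comp_continuousOn kernel_cT).mul
        (Real.continuous_cos.comp_continuousOn kernel_cT)))
      fun M hM => (mul_pos (by norm_num) (hsc _ (kernel_surj hM).1)).ne'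
  let K0 : Set E := (fun y : ℝ × ℝ × ℝ => surfPt y.1 1 y.2.1 y.2.2) ''
    (Icc θ₁ θ₂ ×ˢ Icc (0 : ℝ) 1 ×ˢ Icc (0 : ℝ) 1)
  have hK0 : IsCompact K0 := by
    refine (isCompact_Icc.prod (isCompact_Icc.prod isCompact_Icc)).image ?_
    unfold surfPt
    fun_prop
  have hKQ : K0 ⊆ kernelQ := by
    rintro _ ⟨y, hy, rfl⟩
    exact (kernel_coord ⟨h₁.trans_le hy.1.1, hy.1.2.trans_lt h₂⟩ one_pos _ _).1
  have hne : ∀ h, kernelQ.indicator f h ≠ 0 → h ∈ kernelQ ∧ nrm h ∈ K0 := by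
    intro h hh
    have hq : h ∈ kernelQ := mem_of_indicator_ne_zero hh
    rw [indicator_of_mem hq] at hh
    have h3 : p (kernelT h) * w (kernelA h) * w (kernelB h) ≠ 0 := (div_ne_zero_iff.1 hh).1
    refine ⟨hq, (kernelT h, kernelA h, kernelB h), ⟨hsupp _ ?_, hw.supp _ ?_, hw.supp _ ?_⟩,
      (kernel_nrm hq).symm⟩
    · exact left_ne_zero_of_mul (left_ne_zero_of_mul h3)
    · exact right_ne_zero_of_mul (left_ne_zero_of_mul h3)
    · exact right_ne_zero_of_mul h3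
  refine ⟨kernelQ.indicator f, fun M hM => ?_, hfm.indicator hQ, fun h => ?_, fun s h hs => ?_,
    ?_, fun G hG => ?_⟩
  · refine ContinuousAt.continuousWithinAt ?_
    by_cases hq : M ∈ kernelQ
    · refine (hfc.continuousAt (kernel_isOpen.mem_nhds hq)).congr ?_
      filter_upwards [kernel_isOpen.mem_nhds hq] with N hN
      rw [indicator_of_mem hN]
    · have h1 : nrm M ∉ K0 := fun h => hq (by
        rw [← smul_nrm hM]
        exact (kernel_smul (Real.sqrt_pos.2 hM) (hKQ h)).1)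
      have h2 := (continuousOn_nrm.continuousAt (isOpen_Gp.mem_nhds hM)).preimage_mem_nhds
        (hK0.isClosed.isOpen_compl.mem_nhds h1)
      refine (continuousAt_const (y := (0 : ℝ))).congr ?_
      filter_upwards [h2] with N hN
      by_contra hc
      exact hN (hne N (Ne.symm hc)).2
  · refine indicator_nonneg (fun M hM => ?_) h
    exact div_nonneg (mul_nonneg (mul_nonneg (hp.nn _) (hw.nn _)) (hw.nn _))
      (mul_pos (by norm_num) (hsc _ (kernel_surj hM).1)).le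
  · by_cases hq : h ∈ kernelQ
    · obtain ⟨a1, a2, a3, a4⟩ := kernel_smul hs hq
      rw [indicator_of_mem hq, indicator_of_mem a1]
      simp only [f, a2, a3, a4]
    · have : s • h ∉ kernelQ := fun h' => hq (by
        have := (kernel_smul (inv_pos.2 hs) h').1
        rwa [smul_smul, inv_mul_cancel₀ hs.ne', one_smul] at this)
      rw [indicator_of_notMem hq, indicator_of_notMem this]
  · obtain ⟨ρ, hρ⟩ := hK0.isBounded.exists_norm_le
    exact ⟨ρ, fun h _ hh => hρ _ (hne h hh).2⟩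
  · let F : E → ℝ≥0∞ := Sh.indicator fun h => ENNReal.ofReal (f h) * G h
    have hF : Measurable F := (hfm.ennreal_ofReal.mul hG.1).indicator measurableSet_Sh
    have e1 : ∫⁻ h, ENNReal.ofReal (kernelQ.indicator f h) * G h ∂nu = ∫⁻ h in kernelQ, F h := by
      rw [nu, ← lintegral_indicator measurableSet_Sh, ← lintegral_indicator hQ]
      refine lintegral_congr fun h => ?_
      by_cases a1 : h ∈ kernelQ <;> by_cases a2 : h ∈ Sh <;> simp [F, a1, a2]
    have e2 := chart_pos hF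
    rw [e1]
    refine e2.trans ?_
    rw [← lintegral_indicator measurableSet_Ioo]
    refine lintegral_congr fun θ => ?_
    by_cases hθ : θ ∈ Ioo 0 (Real.pi / 2)
    · rw [indicator_of_mem hθ]
      refine lintegral_congr fun a => lintegral_congr fun b => ?_
      have hpos := hsc θ hθ
      have hnn : 0 ≤ p θ * w a * w b := mul_nonneg (mul_nonneg (hp.nn _) (hw.nn _)) (hw.nn _)
      have e3 : ∀ s ∈ Ioi (0 : ℝ), ENNReal.ofReal (8 * s ^ 3 * (Real.sin θ * Real.cos θ)) *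
          F (s • fl b (rot θ (fl (-a) one))) = (Icc (1 : ℝ) 2).indicator
            (fun s => ENNReal.ofReal (8 * s ^ 3) * (ENNReal.ofReal (p θ * w a * w b / 30) *
              G (fl b (rot θ (fl (-a) one))))) s := by
        intro s hs
        have hs' : 0 < s := hs
        obtain ⟨-, a2, a3, a4⟩ := kernel_coord hθ hs' a b
        have hd := kernel_dt θ s a b
        have hiff : surfPt θ s a b ∈ Sh ↔ s ∈ Icc (1 : ℝ) 2 := by
          show (1 ≤ dt _ ∧ dt _ ≤ 4) ↔ (1 ≤ s ∧ s ≤ 2)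
          rw [hd]
          constructor
          · rintro ⟨u1, u2⟩
            constructor <;> nlinarith
          · rintro ⟨u1, u2⟩
            constructor <;> nlinarith
        change _ * F (surfPt θ s a b) = _
        by_cases hI : s ∈ Icc (1 : ℝ) 2
        · simp only [F]
          rw [indicator_of_mem hI, indicator_of_mem (hiff.2 hI)]
          simp only [f, a2, a3, a4]
          have k1 : 0 ≤ 8 * s ^ 3 := by positivity
          have k2 : 8 * s ^ 3 * (Real.sin θ * Real.cos θ) *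
              (p θ * w a * w b / (30 * (Real.sin θ * Real.cos θ))) =
              8 * s ^ 3 * (p θ * w a * w b / 30) := by
            have := hpos.ne'
            generalize Real.sin θ * Real.cos θ = u at this ⊢
            field_simp
          rw [surfPt, hG.2 s _ hs', ← mul_assoc (ENNReal.ofReal _), ← mul_assoc (ENNReal.ofReal _),
            ← ENNReal.ofReal_mul (mul_nonneg k1 hpos.le), ← ENNReal.ofReal_mul k1, k2]
        · simp only [F]
          rw [indicator_of_notMem hI, indicator_of_notMem (fun h => hI (hiff.1 h)), mul_zero]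
      have hI : Icc (1 : ℝ) 2 ∩ Ioi 0 = Icc 1 2 :=
        inter_eq_left.2 (show Icc (1 : ℝ) 2 ⊆ Ioi 0 from
          fun s hs => lt_of_lt_of_le one_pos hs.1)
      rw [setLIntegral_congr_fun measurableSet_Ioi e3, lintegral_indicator measurableSet_Icc,
        Measure.restrict_restrict measurableSet_Icc, hI,
        lintegral_mul_const _ (by fun_prop), kernel_thirty, ← mul_assoc,
        ← ENNReal.ofReal_mul (by norm_num)]
      congr 2
      ring
    · have h0 : p θ = 0 := by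
        by_contra hc
        exact hθ ⟨h₁.trans_le (hsupp θ hc).1, (hsupp θ hc).2.trans_lt h₂⟩
      rw [indicator_of_notMem hθ]
      simp [h0]

theorem kernel_tri {f : ℝ × ℝ × ℝ → ℝ≥0∞} (hf : Measurable f) :
    ∫⁻ θ, ∫⁻ a, ∫⁻ b, f (θ, a, b) = ∫⁻ y, f y := by
  rw [Measure.volume_eq_prod, lintegral_prod _ hf.aemeasurable]
  refine lintegral_congr fun θ => ?_
  rw [Measure.volume_eq_prod, lintegral_prod (fun y => f (θ, y))
    (hf.comp measurable_prodMk_left).aemeasurable]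

theorem kernel_mul_cw {X : Type*} [TopologicalSpace X] {f g : X → E} {s : Set X} {x : X}
    (hf : ContinuousWithinAt f s x) (hg : ContinuousWithinAt g s x) :
    ContinuousWithinAt (fun x => mul (f x) (g x)) s x := by
  have a2 : Continuous fun Q : E × E => mul Q.1 Q.2 := by fun_prop
  exact ContinuousAt.comp_continuousWithinAt (g := fun Q : E × E => mul Q.1 Q.2)
    (f := fun x => (f x, g x)) a2.continuousAt (hf.prodMk hg)

theorem exists_kernel {Ψ : E → ℝ} (hΨ : Wt Ψ) {p w : ℝ → ℝ} (hp : Ang p) (hw : Tim 1 w) :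
    ∃ κ : E × E → ℝ, Continuous κ ∧ HasCompactSupport κ ∧ (∀ P, 0 ≤ κ P) ∧
      ∀ G : E → ℝ≥0∞, Hom G →
        ∫⁻ P, ENNReal.ofReal (κ (nrm P.1, nrm P.2)) ∂((nu.withDensity G).prod (nu.withDensity G))
          = Tw Ψ p w G := by
  obtain ⟨Ξ, hc, hm, h0, hh, ⟨ρ₂, hρ₂⟩, hint⟩ := exists_Xi hp hw
  obtain ⟨ρ₁, hρ₁⟩ := hΨ.test.van
  let η : ℝ → ℝ := fun t => max 0 (1 - 2 * |t - 1|)
  have hηc : Continuous η := by fun_prop
  have hη0 : ∀ t, 0 ≤ η t := fun t => le_max_left _ _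
  have hη1 : η 1 = 1 := by simp [η]
  have hηs : ∀ t, η t ≠ 0 → 1 / 2 < t ∧ t < 3 / 2 := by
    intro t ht
    have h1 : 0 < 1 - 2 * |t - 1| := by
      by_contra hn
      exact ht (max_eq_left (not_lt.1 hn))
    have h2 : |t - 1| < 1 / 2 := by linarith
    obtain ⟨a1, a2⟩ := abs_lt.1 h2
    constructor <;> linarith
  have hni : ∀ g ∈ Gp, ninv g ∈ Gp := fun g hg => by
    show 0 < dt (ninv g)
    rw [dt_ninv hg]; exact one_pos
  let κ : E × E → ℝ := fun P => η (dt P.1) * η (dt P.2) * (Ψ P.1 * Ξ (mul (ninv P.1) P.2))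
  have hκc : Continuous κ := by
    rw [continuous_iff_continuousAt]
    intro P
    by_cases hP : P.1 ∈ Gp ∧ P.2 ∈ Gp
    · have a1 : ContinuousAt (fun Q : E × E => ninv Q.1) P :=
        (continuousOn_ninv.continuousAt (isOpen_Gp.mem_nhds hP.1)).comp continuousAt_fst
      have a3 : ContinuousAt (fun Q : E × E => mul (ninv Q.1) Q.2) P :=
        (continuousWithinAt_univ _ _).1
          (kernel_mul_cw a1.continuousWithinAt continuousWithinAt_snd)
      have a4 : ContinuousAt (fun Q : E × E => Ξ (mul (ninv Q.1) Q.2)) P :=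
        ContinuousAt.comp (f := fun Q : E × E => mul (ninv Q.1) Q.2)
          (hc.continuousAt (isOpen_Gp.mem_nhds (mul_mem_Gp (hni _ hP.1) hP.2))) a3
      have a5 : ContinuousAt (fun Q : E × E => Ψ Q.1) P :=
        (hΨ.cont.continuousAt (isOpen_Gp.mem_nhds hP.1)).comp continuousAt_fst
      exact (((hηc.comp (continuous_dt.comp continuous_fst)).mul
        (hηc.comp (continuous_dt.comp continuous_snd))).continuousAt).mul (a5.mul a4)
    · have ho : IsOpen {Q : E × E | dt Q.1 < 1 / 2 ∨ dt Q.2 < 1 / 2} :=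
        (isOpen_lt (continuous_dt.comp continuous_fst) continuous_const).union
          (isOpen_lt (continuous_dt.comp continuous_snd) continuous_const)
      have hP' : P ∈ {Q : E × E | dt Q.1 < 1 / 2 ∨ dt Q.2 < 1 / 2} := by
        rcases not_and_or.1 hP with h | h
        · left
          have : ¬ 0 < dt P.1 := h
          linarith [not_lt.1 this]
        · right
          have : ¬ 0 < dt P.2 := h
          linarith [not_lt.1 this]
      refine (continuousAt_const (y := (0 : ℝ))).congr ?_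
      filter_upwards [ho.mem_nhds hP'] with Q hQ
      rcases hQ with h | h
      · have : η (dt Q.1) = 0 := by
          by_contra hn
          linarith [(hηs _ hn).1]
        simp [κ, this]
      · have : η (dt Q.2) = 0 := by
          by_contra hn
          linarith [(hηs _ hn).1]
        simp [κ, this]
  refine ⟨κ, hκc, ?_, fun P => mul_nonneg (mul_nonneg (hη0 _) (hη0 _))
    (mul_nonneg (hΨ.nn _) (h0 _)), fun G hG => ?_⟩
  · let K1 : Set E := {g | 1 / 2 ≤ dt g} ∩ Metric.closedBall 0 ρ₁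
    have hK1 : IsCompact K1 :=
      (isCompact_closedBall 0 ρ₁).inter_left (isClosed_le continuous_const continuous_dt)
    have hKG : K1 ⊆ Gp := fun g hg => lt_of_lt_of_le (by norm_num) (show 1 / 2 ≤ dt g from hg.1)
    have hK : IsCompact ((fun Q : E × E => (Q.1, mul (nrm Q.1) Q.2)) ''
        (K1 ×ˢ Metric.closedBall 0 (2 * ρ₂))) := by
      refine (hK1.prod (isCompact_closedBall 0 _)).image_of_continuousOn ?_
      have a1 : ContinuousOn (fun Q : E × E => nrm Q.1) (K1 ×ˢ Metric.closedBall 0 (2 * ρ₂)) :=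
        continuousOn_nrm.comp continuousOn_fst fun Q hQ => hKG hQ.1
      have a2 : ContinuousOn (fun Q : E × E => mul (nrm Q.1) Q.2)
          (K1 ×ˢ Metric.closedBall 0 (2 * ρ₂)) :=
        fun Q hQ => kernel_mul_cw (a1 Q hQ) continuousWithinAt_snd
      exact continuousOn_fst.prodMk a2
    refine HasCompactSupport.intro hK fun P hP => ?_
    by_contra hn
    have b1 := hηs _ (left_ne_zero_of_mul (left_ne_zero_of_mul hn))
    have b2 := hηs _ (right_ne_zero_of_mul (left_ne_zero_of_mul hn))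
    have b3 : Ψ P.1 ≠ 0 := left_ne_zero_of_mul (right_ne_zero_of_mul hn)
    have b4 : Ξ (mul (ninv P.1) P.2) ≠ 0 := right_ne_zero_of_mul (right_ne_zero_of_mul hn)
    have g1 : P.1 ∈ Gp := lt_trans (by norm_num) b1.1
    have g2 : P.2 ∈ Gp := lt_trans (by norm_num) b2.1
    have g3 := mul_mem_Gp (hni _ g1) g2
    have c1 : ‖P.1‖ ≤ ρ₁ := by
      by_contra hc'
      exact b3 (Complex.ofReal_eq_zero.1 (hρ₁ P.1 b1.1 (by linarith [b1.2]) (not_le.1 hc')))
    have c2 := hρ₂ _ g3 b4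
    have c3 : √(dt (mul (ninv P.1) P.2)) ≤ 2 := by
      rw [dt_mul, dt_ninv g1, one_mul, Real.sqrt_le_iff]
      exact ⟨by norm_num, by linarith [b2.2]⟩
    refine hP ⟨(P.1, mul (ninv P.1) P.2), ⟨⟨b1.1.le, mem_closedBall_zero_iff.2 c1⟩,
      mem_closedBall_zero_iff.2 ?_⟩, ?_⟩
    · show ‖mul (ninv P.1) P.2‖ ≤ 2 * ρ₂
      rw [← smul_nrm g3, norm_smul, Real.norm_eq_abs, abs_of_nonneg (Real.sqrt_nonneg _)]
      exact mul_le_mul c3 c2 (norm_nonneg _) (by norm_num)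
    · show (P.1, mul (nrm P.1) (mul (ninv P.1) P.2)) = P
      rw [← mul_assoc', mul_nrm_ninv g1, one_mul']
  · have hk : Measurable fun P : E × E => ENNReal.ofReal (κ (nrm P.1, nrm P.2)) :=
      (hκc.measurable.comp ((measurable_nrm.comp measurable_fst).prodMk
        (measurable_nrm.comp measurable_snd))).ennreal_ofReal
    let c : ℝ × ℝ × ℝ → ℝ≥0∞ := fun y => ENNReal.ofReal (p y.1 * w y.2.1 * w y.2.2)
    have hcm : Measurable c := by
      have a1 := hp.cont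
      have a2 := hw.cont
      exact Measurable.ennreal_ofReal (Continuous.measurable (by fun_prop))
    have hT : Continuous fun z : E × (ℝ × ℝ × ℝ) => fl z.2.2.2 (rot z.2.1 (fl (-z.2.2.1) z.1)) := by
      fun_prop
    let H : E × (ℝ × ℝ × ℝ) → ℝ≥0∞ := fun z => ENNReal.ofReal (Ψ z.1) *
      (G z.1 * G (fl z.2.2.2 (rot z.2.1 (fl (-z.2.2.1) z.1))))
    have hH : Measurable H := (hΨ.meas.comp measurable_fst).ennreal_ofReal.mul
      ((hG.1.comp measurable_fst).mul (hG.1.comp hT.measurable))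
    have inner : ∀ g ∈ Gp, G g * ∫⁻ N, ENNReal.ofReal (κ (nrm g, nrm N)) ∂(nu.withDensity G) =
        ∫⁻ y, c y * H (g, y) := by
      intro g hg
      have hs : 0 < (√(dt g))⁻¹ := inv_pos.2 (Real.sqrt_pos.2 hg)
      have m1 : Measurable fun N => ENNReal.ofReal (Ξ (mul (ninv g) N)) * G N :=
        (hm.comp (continuous_mul' continuous_const continuous_id).measurable).ennreal_ofReal.mul
          hG.1
      have m2 : Hom fun h => G (mul (nrm g) h) :=
        ⟨hG.1.comp (continuous_mul' continuous_const continuous_id).measurable,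
          fun s M hs' => by
            show G (mul (nrm g) (s • M)) = G (mul (nrm g) M)
            rw [mul_smul', hG.2 s _ hs']⟩
      have m3' : Continuous fun y : ℝ × ℝ × ℝ => fl y.2.2 (rot y.1 (fl (-y.2.1) g)) := by
        fun_prop
      have m3 : Measurable fun y : ℝ × ℝ × ℝ => G (fl y.2.2 (rot y.1 (fl (-y.2.1) g))) :=
        hG.1.comp m3'.measurable
      have m5 : Measurable fun y : ℝ × ℝ × ℝ => c y * G (fl y.2.2 (rot y.1 (fl (-y.2.1) g))) :=
        hcm.mul m3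
      have m4 : Measurable fun N : E => ENNReal.ofReal (κ (nrm g, nrm N)) :=
        (hκc.measurable.comp (measurable_const.prodMk measurable_nrm)).ennreal_ofReal
      have e1 : ∫⁻ N, ENNReal.ofReal (κ (nrm g, nrm N)) ∂(nu.withDensity G) =
          ENNReal.ofReal (Ψ g) * ∫⁻ N, ENNReal.ofReal (Ξ (mul (ninv g) N)) * G N ∂nu := by
        rw [lintegral_withDensity_eq_lintegral_mul nu hG.1 m4,
          ← lintegral_const_mul _ m1]
        refine lintegral_congr_ae ?_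
        filter_upwards [ae_mem_Sh] with N hN
        have hN' := Sh_subset hN
        have e : Ξ (mul (ninv g) (nrm N)) = Ξ (mul (ninv g) N) := by
          rw [nrm, mul_smul', hh _ _ (inv_pos.2 (Real.sqrt_pos.2 hN'))]
        simp only [Pi.mul_apply, κ, dt_nrm hg, dt_nrm hN', hη1, one_mul,
          hΨ.nrm hg, ninv_nrm hg, e]
        rw [ENNReal.ofReal_mul (hΨ.nn g)]
        ring
      have e2 : ∫⁻ N, ENNReal.ofReal (Ξ (mul (ninv g) N)) * G N ∂nu =
          ∫⁻ y, c y * G (fl y.2.2 (rot y.1 (fl (-y.2.1) g))) := by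
        rw [← (mp_mul_nu (dt_nrm hg)).lintegral_comp m1, ← kernel_tri m5]
        simp only [← mul_assoc', mul_ninv_nrm hg, one_mul']
        rw [hint _ m2]
        refine lintegral_congr fun θ => lintegral_congr fun a => lintegral_congr fun b => ?_
        simp only [c]
        rw [mul_fl, mul_rot, mul_fl, mul_one', nrm, fl_smul, rot_smul, fl_smul, hG.2 _ _ hs]
      rw [e1, e2, ← mul_assoc, ← lintegral_const_mul _ m5]
      refine lintegral_congr fun y => ?_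
      simp only [H]
      ring
    rw [lintegral_prod _ hk.aemeasurable,
      lintegral_withDensity_eq_lintegral_mul nu hG.1 hk.lintegral_prod_right']
    have e3 : ∫⁻ g, (G * fun g => ∫⁻ N, ENNReal.ofReal (κ (nrm g, nrm N)) ∂(nu.withDensity G)) g
        ∂nu = ∫⁻ g, ∫⁻ y, c y * H (g, y) ∂volume ∂nu := by
      refine lintegral_congr_ae ?_
      filter_upwards [ae_mem_Sh] with g hg
      exact inner g (Sh_subset hg)
    have hH' : Measurable fun z : (ℝ × ℝ × ℝ) × E => ENNReal.ofReal (Ψ (fl z.1.2.1 z.2)) *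
        (G (fl z.1.2.1 z.2) * G (fl z.1.2.2 (rot z.1.1 z.2))) := by
      have a1 : Continuous fun z : (ℝ × ℝ × ℝ) × E => fl z.1.2.1 z.2 := by fun_prop
      have a2 : Continuous fun z : (ℝ × ℝ × ℝ) × E => fl z.1.2.2 (rot z.1.1 z.2) := by fun_prop
      exact (hΨ.meas.comp a1.measurable).ennreal_ofReal.mul
        ((hG.1.comp a1.measurable).mul (hG.1.comp a2.measurable))
    refine e3.trans ?_
    rw [lintegral_lintegral_swap ((hcm.comp measurable_snd).mul hH).aemeasurable, Tw]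
    have m6 : Measurable fun y : ℝ × ℝ × ℝ => c y * ∫⁻ g, ENNReal.ofReal (Ψ (fl y.2.1 g)) *
        (G (fl y.2.1 g) * G (fl y.2.2 (rot y.1 g))) ∂nu := hcm.mul hH'.lintegral_prod_right'
    refine Eq.trans ?_ (kernel_tri m6).symm
    refine lintegral_congr fun y => ?_
    have m7 : Continuous fun g : E => fl y.2.2 (rot y.1 (fl (-y.2.1) g)) := by fun_prop
    have m8 : Measurable fun g : E => H (g, y) :=
      hΨ.meas.ennreal_ofReal.mul (hG.1.mul (hG.1.comp m7.measurable))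
    rw [lintegral_const_mul _ m8, ← (mp_fl y.2.1).lintegral_comp m8]
    simp only [H, fl_fl, neg_add_cancel, fl_zero]

end Pool.Agent.MP_a28cf0_nt.Four
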