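import Pool.Agent.MP_a28cf0_nt.Mg.Four_Alg
import Pool.Agent.MP_a28cf0_nt.Mg.Four_Rec
import Pool.Agent.MP_a28cf0_nt.Cub.Unfold
import Pool.Agent.MP_a28cf0_nt.Mg.Four_Bes
import Pool.Agent.MP_a28cf0_nt.Mg.Four_Thin

set_option autoImplicit false

namespace Pool.Agent.MP_a28cf0_nt.Four

open MeasureTheory Complex Filter Topology Set Pool.Agent.MP_a28cf0_nt.Cub
open scoped ENNReal MatrixGroups

theorem moll_norm_lt {e : ℝ} {h : E} (hh : ‖nrm h - one‖ < e) : ‖nrm h‖ ≤ 1 + e := by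
  have := norm_le_norm_add_norm_sub' (nrm h) one
  rw [norm_one'] at this
  linarith

theorem exists_mol {e : ℝ} (he : 0 < e) : ∃ B : E → ℝ≥0∞, Mol e B := by
  set S : Set E := Gp ∩ nrm ⁻¹' Metric.ball one e with hS
  have ho : IsOpen S := continuousOn_nrm.isOpen_inter_preimage isOpen_Gp Metric.isOpen_ball
  have hm : ∀ h, h ∈ S ↔ h ∈ Gp ∧ ‖nrm h - one‖ < e := fun h => by
    simp only [hS, mem_inter_iff, mem_preimage, Metric.mem_ball, dist_eq_norm]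
  have h0 : nu S ≠ 0 := by
    have ho' : IsOpen (S ∩ dt ⁻¹' Ioo 1 4) := ho.inter (isOpen_Ioo.preimage continuous_dt)
    have hd : dt ((3 / 2 : ℝ) • one) = 9 / 4 := by rw [dt_smul, dt_one]; norm_num
    have hp := ho'.measure_pos volume ⟨(3 / 2 : ℝ) • one, (hm _).2 ⟨by
      show 0 < dt _
      rw [hd]; norm_num, by
      rw [nrm_smul (by norm_num), nrm_of_dt dt_one, sub_self, norm_zero]; exact he⟩, by
      rw [mem_preimage, hd]; norm_num⟩
    rw [nu, Measure.restrict_apply ho.measurableSet]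
    refine (hp.trans_le (measure_mono ?_)).ne'
    exact fun M hM => ⟨hM.1, hM.2.1.le, hM.2.2.le⟩
  have h1 : nu S ≠ ⊤ := by
    refine ne_top_of_le_ne_top
      (isCompact_closedBall (0 : E) (2 * (1 + e))).measure_lt_top.ne
      (measure_mono_ae (ae_mem_Sh.mono fun M hM hM' => ?_))
    refine mem_closedBall_zero_iff.2 ((norm_nrm_le hM).2.trans ?_)
    linarith [moll_norm_lt ((hm M).1 hM').2]
  refine ⟨S.indicator fun _ => (nu S)⁻¹, ⟨measurable_const.indicator ho.measurableSet,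
    fun s M hs => ?_⟩, ?_, fun h hh => (hm h).1 (mem_of_indicator_ne_zero hh)⟩
  · have : s • M ∈ S ↔ M ∈ S := by rw [hm, hm, smul_mem_Gp hs, nrm_smul hs]
    by_cases hM : M ∈ S
    · rw [indicator_of_mem hM, indicator_of_mem (this.2 hM)]
    · rw [indicator_of_notMem hM, indicator_of_notMem fun h => hM (this.1 h)]
  · rw [lintegral_indicator_const ho.measurableSet, ENNReal.inv_mul_cancel h0 h1]

theorem moll_meas {e : ℝ} {B : E → ℝ≥0∞} (hB : Mol e B) :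
    Measurable fun p : E × E => B (mul (nrm p.1) (ninv p.2)) :=
  hB.hom.1.comp (measurable_mul' (measurable_nrm.comp measurable_fst)
    (measurable_ninv.comp measurable_snd))

theorem mo_hom {e : ℝ} {B : E → ℝ≥0∞} (hB : Mol e B) (μ : Measure E) [SFinite μ] :
    Hom (mo B μ) :=
  ⟨(moll_meas hB).lintegral_prod_right', fun s M hs => by simp only [mo, nrm_smul hs]⟩

theorem moll_ae_Gp : ∀ᵐ M ∂nu, M ∈ Gp := ae_mem_Sh.mono fun _ h => Sh_subset h

theorem moll_ae {μ : Measure E} (h : μ Gpᶜ = 0) : ∀ᵐ M ∂μ, M ∈ Gp := h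

theorem moll_nrm_mul {h g : E} (hh : h ∈ Gp) (hg : g ∈ Gp) :
    nrm (mul h (nrm g)) = mul (nrm h) (nrm g) := by rw [nrm_mul hh, nrm_nrm hg]

theorem mo_dual {e : ℝ} {B : E → ℝ≥0∞} (hB : Mol e B) {μ : Measure E} [SFinite μ]
    (hμ : μ Gpᶜ = 0) {F : E → ℝ≥0∞} (hF : Measurable F) :
    ∫⁻ g, F g * mo B μ g ∂nu = ∫⁻ g', ∫⁻ h, F (mul h (nrm g')) * B h ∂nu ∂μ := by
  have hm : Measurable fun p : E × E => F p.1 * B (mul (nrm p.1) (ninv p.2)) :=
    (hF.comp measurable_fst).mul (moll_meas hB)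
  have h1 : ∀ g, F g * mo B μ g = ∫⁻ g', F g * B (mul (nrm g) (ninv g')) ∂μ := fun g =>
    (lintegral_const_mul _ ((moll_meas hB).comp measurable_prodMk_left)).symm
  simp only [h1]
  rw [lintegral_lintegral_swap hm.aemeasurable]
  refine lintegral_congr_ae ((moll_ae hμ).mono fun g' hg' => ?_)
  refine ((mp_mulR_nu (dt_nrm hg')).lintegral_comp (hm.comp measurable_prodMk_right)).symm.trans ?_
  refine lintegral_congr_ae (moll_ae_Gp.mono fun h hh => ?_)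
  simp only [Function.comp]
  rw [moll_nrm_mul hh hg', mul_assoc', mul_nrm_ninv hg', mul_one', hB.hom.nrm hh]

theorem mo_fl {e : ℝ} {B : E → ℝ≥0∞} (hB : Mol e B) {μ : Measure E} (hμ : Good μ) (s : ℝ) (g : E) :
    mo B μ (fl s g) = mo B μ g := by
  refine ((good_mp_fl hμ s).lintegral_comp
    ((moll_meas hB).comp (measurable_prodMk_left (x := fl s g)))).symm.trans ?_
  simp only [Function.comp, nrm_fl, mul_fl_ninv, mo]

theorem mo_rot {e : ℝ} {B : E → ℝ≥0∞} (hB : Mol e B) {μ : Measure E} {θ : ℝ}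
    (hμ : μ.map (rot θ) = μ) (g : E) : mo B μ (rot θ g) = mo B μ g := by
  have h : MeasurePreserving (rot θ) μ μ := ⟨(me_rot θ).measurable, hμ⟩
  refine (h.lintegral_comp
    ((moll_meas hB).comp (measurable_prodMk_left (x := rot θ g)))).symm.trans ?_
  simp only [Function.comp, nrm_rot, mul_rot_ninv, mo]

theorem moll_back {e : ℝ} {h : E} (hh : h ∈ Gp) (he : ‖nrm h - one‖ < e) (g : E) :
    ‖g‖ ≤ 4 * (1 + e) * ‖mul (nrm h) g‖ := by
  have h1 : g = mul (ninv h) (mul (nrm h) g) := by rw [← mul_assoc', mul_ninv_nrm hh, one_mul']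
  have h2 := surf_norm_mul (ninv h) (mul (nrm h) g)
  rw [← h1] at h2
  refine h2.trans (mul_le_mul_of_nonneg_right ?_ (norm_nonneg _))
  linarith [norm_ninv_le h, moll_norm_lt he]

theorem mo_fin {e : ℝ} {B : E → ℝ≥0∞} (hB : Mol e B) {μ : Measure E} (hμ : Good μ) :
    IsFiniteMeasureOnCompacts (nu.withDensity (mo B μ)) := by
  have := hμ.fin
  refine ⟨fun K hK => ?_⟩
  obtain ⟨ρ, hρ⟩ := hK.isBounded.subset_closedBall (0 : E)
  have h1 : nu.withDensity (mo B μ) K = ∫⁻ g, K.indicator 1 g * mo B μ g ∂nu := by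
    rw [withDensity_apply _ hK.measurableSet, ← lintegral_indicator hK.measurableSet]
    refine lintegral_congr fun g => ?_
    by_cases hg : g ∈ K <;> simp [hg]
  rw [h1, mo_dual hB (good_Gp hμ) (measurable_one.indicator hK.measurableSet)]
  refine lt_of_le_of_lt ?_
    ((isCompact_closedBall (0 : E) (2 * (4 * (1 + e) * ρ))).measure_lt_top (μ := μ))
  rw [← lintegral_indicator_one measurableSet_closedBall]
  refine lintegral_mono_ae ((good_ae hμ).mono fun g hg => ?_)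
  by_cases hb : g ∈ Metric.closedBall (0 : E) (2 * (4 * (1 + e) * ρ))
  · rw [indicator_of_mem hb, Pi.one_apply, ← hB.int1]
    refine lintegral_mono fun h => mul_le_of_le_one_left' ?_
    exact indicator_apply_le' (fun _ => le_rfl) fun _ => zero_le
  · rw [indicator_of_notMem hb, nonpos_iff_eq_zero]
    refine (lintegral_congr_ae (ae_mem_Sh.mono fun h hh => ?_)).trans lintegral_zero
    by_contra hne
    obtain ⟨a, b⟩ := mul_ne_zero_iff.1 hne
    obtain ⟨c, d⟩ := hB.supp h b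
    have hP : mul h (nrm g) ∈ Sh := by
      simpa only [Sh, mem_ofPred_eq, dt_mul, dt_nrm (Sh_subset hg), mul_one] using hh
    have h2 := moll_back c d (nrm g)
    rw [← moll_nrm_mul c (Sh_subset hg)] at h2
    have h3 := (norm_nrm_le hP).1.trans
      (mem_closedBall_zero_iff.1 (hρ (mem_of_indicator_ne_zero a)))
    have h4 : 0 ≤ 4 * (1 + e) := by linarith [norm_nonneg (nrm h - one)]
    refine hb (mem_closedBall_zero_iff.2 ((norm_nrm_le hg).2.trans ?_))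
    linarith [mul_le_mul_of_nonneg_left h3 h4]

theorem moll_prob {e : ℝ} {B : E → ℝ≥0∞} (hB : Mol e B) :
    IsProbabilityMeasure (nu.withDensity B) :=
  ⟨by rw [withDensity_apply _ MeasurableSet.univ, Measure.restrict_univ, hB.int1]⟩

theorem moll_measT : Measurable fun P : E × E => mul P.2 (nrm P.1) :=
  measurable_mul' measurable_snd (measurable_nrm.comp measurable_fst)

theorem moll_map {e : ℝ} {B : E → ℝ≥0∞} (hB : Mol e B) {μ : Measure E} [SFinite μ]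
    (hμ : μ Gpᶜ = 0) : nu.withDensity (mo B μ) =
      (μ.prod (nu.withDensity B)).map fun P => mul P.2 (nrm P.1) := by
  refine Measure.ext_of_lintegral _ fun F hF => ?_
  rw [lintegral_withDensity_eq_lintegral_mul _ (mo_hom hB μ).1 hF, lintegral_map hF moll_measT,
    lintegral_prod (fun P : E × E => F (mul P.2 (nrm P.1))) (hF.comp moll_measT).aemeasurable]
  simp only [Pi.mul_apply, mul_comm (mo B μ _)]
  rw [mo_dual hB hμ hF]
  refine lintegral_congr fun g => ?_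
  refine Eq.trans ?_ (lintegral_withDensity_eq_lintegral_mul _ hB.hom.1
    ((hF.comp moll_measT).comp measurable_prodMk_left)).symm
  simp only [Pi.mul_apply, mul_comm (B _), Function.comp]

theorem moll_est {e ρ ε δ : ℝ} {B : E → ℝ≥0∞} (hB : Mol e B) {μ : Measure E} (hμ : Good μ)
    {φ : E → ℝ} (hc : Continuous φ) (hs : HasCompactSupport φ) (hρ : 0 ≤ ρ)
    (h0 : ∀ M : E, ρ < ‖M‖ → φ M = 0) (he : e ≤ 1) (hδ : 2 * e * (16 * ρ) < δ)
    (hu : ∀ M N : E, ‖M - N‖ < δ → ‖φ M - φ N‖ ≤ ε) :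
    ‖∫ M, φ (nrm M) ∂(nu.withDensity (mo B μ)) - ∫ M, φ (nrm M) ∂μ‖ ≤
      μ.real (Metric.closedBall 0 (16 * ρ)) * ε := by
  have := hμ.fin
  have := moll_prob hB
  have hK := isCompact_closedBall (0 : E) (16 * ρ)
  have hi : ∀ c : ℝ, Integrable ((Metric.closedBall (0 : E) (16 * ρ)).indicator fun _ => c) μ :=
    fun c => (integrable_indicator_iff hK.measurableSet).2
      (integrableOn_const hK.measure_lt_top.ne)
  have hm : Measurable fun M => φ (nrm M) := hc.measurable.comp measurable_nrm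
  have hfar : ∀ g ∈ Sh, g ∉ Metric.closedBall (0 : E) (16 * ρ) → 8 * ρ < ‖nrm g‖ := by
    intro g hg hb
    rw [mem_closedBall_zero_iff, not_le] at hb
    linarith [(norm_nrm_le hg).2]
  have hG : Integrable (fun M => φ (nrm M)) μ := by
    obtain ⟨C, hC⟩ := hs.exists_bound_of_continuous hc
    refine (hi C).mono' hm.aestronglyMeasurable ((good_ae hμ).mono fun g hg => ?_)
    by_cases hb : g ∈ Metric.closedBall (0 : E) (16 * ρ)
    · rw [indicator_of_mem hb]; exact hC _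
    · rw [indicator_of_notMem hb, h0 _ (by linarith [hfar g hg hb]), norm_zero]
  have hD : ∀ᵐ P ∂(μ.prod (nu.withDensity B)), ‖φ (nrm (mul P.2 (nrm P.1))) - φ (nrm P.1)‖ ≤
      (Metric.closedBall (0 : E) (16 * ρ)).indicator (fun _ => ε) P.1 := by
    filter_upwards [Measure.quasiMeasurePreserving_fst.ae (good_ae hμ),
      Measure.quasiMeasurePreserving_snd.ae ((ae_withDensity_iff (μ := nu) hB.hom.1).2
        (Eventually.of_forall hB.supp))] with P h1 h2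
    rw [moll_nrm_mul h2.1 (Sh_subset h1)]
    by_cases hb : P.1 ∈ Metric.closedBall (0 : E) (16 * ρ)
    · rw [indicator_of_mem hb]
      refine hu _ _ (lt_of_le_of_lt ?_ hδ)
      have h3 := surf_norm_mul (nrm P.2 - one) (nrm P.1)
      rw [sub_mul', one_mul'] at h3
      refine h3.trans (mul_le_mul (by linarith [h2.2]) ((norm_nrm_le h1).1.trans
        (mem_closedBall_zero_iff.1 hb)) (norm_nonneg _) ?_)
      linarith [h2.2, norm_nonneg (nrm P.2 - one)]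
    · have h3 := hfar _ h1 hb
      have h4 := moll_back h2.1 h2.2 (nrm P.1)
      have h5 := mul_le_mul_of_nonneg_right (show 4 * (1 + e) ≤ 8 by linarith)
        (norm_nonneg (mul (nrm P.2) (nrm P.1)))
      rw [indicator_of_notMem hb, h0 _ (by linarith), h0 _ (by linarith), sub_zero, norm_zero]
  have hG' := hG.comp_fst (nu.withDensity B)
  have hDi : Integrable (fun P : E × E => φ (nrm (mul P.2 (nrm P.1))) - φ (nrm P.1))
      (μ.prod (nu.withDensity B)) := ((hi ε).comp_fst _).mono'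
    ((hm.comp moll_measT).sub (hm.comp measurable_fst)).aestronglyMeasurable hD
  have h1 : ∫ M, φ (nrm M) ∂μ = ∫ P : E × E, φ (nrm P.1) ∂(μ.prod (nu.withDensity B)) := by
    rw [integral_fun_fst fun M => φ (nrm M)]; simp
  rw [moll_map hB (good_Gp hμ), integral_map moll_measT.aemeasurable hm.aestronglyMeasurable, h1,
    ← integral_sub ((hDi.add hG').congr (Eventually.of_forall fun _ => sub_add_cancel _ _)) hG']
  refine (norm_integral_le_of_norm_le ((hi ε).comp_fst _) hD).trans_eq ?_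
  rw [integral_fun_fst, integral_indicator_const _ hK.measurableSet]
  simp

theorem mo_vague {e : ℕ → ℝ} {B : ℕ → E → ℝ≥0∞} (hB : ∀ j, Mol (e j) (B j))
    (he : Tendsto e atTop (𝓝 0)) {μ : Measure E} (hμ : Good μ) :
    VagueH atTop (fun j => nu.withDensity (mo (B j) μ)) μ := by
  intro φ hc hs
  obtain ⟨ρ, hρ⟩ := lim_ball hs
  refine Metric.tendsto_nhds.2 fun ε hε => ?_
  set m := μ.real (Metric.closedBall 0 (16 * |ρ|)) with hm
  have hm0 : 0 ≤ m := measureReal_nonneg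
  obtain ⟨δ, hδ, hu⟩ := Metric.uniformContinuous_iff.1 (hs.uniformContinuous_of_continuous hc)
    (ε / (m + 1)) (by positivity)
  have h1 : Tendsto (fun j => 2 * e j * (16 * |ρ|)) atTop (𝓝 0) := by
    simpa using (he.const_mul 2).mul_const (16 * |ρ|)
  filter_upwards [he.eventually (eventually_le_nhds one_pos), h1.eventually (gt_mem_nhds hδ)]
    with j a b
  rw [dist_eq_norm]
  refine (moll_est (ε := ε / (m + 1)) (hB j) hμ hc hs (abs_nonneg ρ)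
    (fun M hM => hρ M ((le_abs_self ρ).trans_lt hM)) a b fun M N h => ?_).trans_lt ?_
  · rw [← dist_eq_norm] at h ⊢
    exact (hu h).le
  · rw [← hm, mul_div_assoc', div_lt_iff₀ (by positivity)]
    nlinarith

theorem moll_amgm (x y : ℝ≥0∞) : 2 * (x * y) ≤ x ^ 2 + y ^ 2 := by
  rcases eq_or_ne x ⊤ with rfl | hx
  · simp
  rcases eq_or_ne y ⊤ with rfl | hy
  · simp
  lift x to NNReal using hx
  lift y to NNReal using hy
  exact_mod_cast (show (2 : ℝ) * (x * y) ≤ x ^ 2 + y ^ 2 by nlinarith [sq_nonneg ((x : ℝ) - y)])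

theorem moll_periodic {f : ℝ → ℝ≥0∞} (hf : Function.Periodic f (2 * Real.pi)) (a : ℝ) :
    ∫⁻ θ in Ioo (-Real.pi) Real.pi, f (θ + a) = ∫⁻ θ in Ioo (-Real.pi) Real.pi, f θ := by
  have hT : 0 < 2 * Real.pi := Real.two_pi_pos
  have : VAddInvariantMeasure (AddSubgroup.zmultiples (2 * Real.pi)) ℝ volume :=
    ⟨fun c s _ => measure_preimage_add _ _ _⟩
  have h1 := (isAddFundamentalDomain_Ioc hT (-Real.pi + a)).setLIntegral_eq
    (isAddFundamentalDomain_Ioc hT (-Real.pi)) f hf.map_vadd_zmultiples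
  have h2 := (measurePreserving_add_right volume a).setLIntegral_comp_preimage_emb
    (measurableEmbedding_addRight a) f (Ioc (-Real.pi + a) (-Real.pi + a + 2 * Real.pi))
  rw [preimage_add_const_Ioc, h1, show -Real.pi + a - a = -Real.pi by ring,
    show -Real.pi + a + 2 * Real.pi - a = Real.pi by ring,
    show -Real.pi + 2 * Real.pi = Real.pi by ring] at h2
  rw [restrict_Ioo_eq_restrict_Ioc, h2]

theorem moll_step {e : ℝ} {B : E → ℝ≥0∞} (hB : Mol e B) {μ : Measure E} [SFinite μ]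
    (c : μ Gpᶜ = 0) {ρ F : E → ℝ≥0∞} (h : Dens μ ρ) (hF : Base F) {C : ℝ≥0∞}
    (hC : ∀ A : E, dt A = 1 → ∫⁻ g, F (mul A g) * ρ g ∂nu ≤ C) :
    ∫⁻ g, F g * mo B μ g ∂nu ≤ C := by
  rw [mo_dual hB c hF.1.1, lintegral_lintegral_swap
    ((hF.1.1.comp moll_measT).mul (hB.hom.1.comp measurable_snd)).aemeasurable]
  calc _ ≤ ∫⁻ h, C * B h ∂nu := by
        refine lintegral_mono_ae (moll_ae_Gp.mono fun A hA => ?_)
        refine (lintegral_mul_const _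
          ((hF.1.1.comp moll_measT).comp measurable_prodMk_right)).trans_le ?_
        refine mul_le_mul_left (le_trans (le_of_eq ?_)
          ((h.2 _ (hF.mulL (nrm A))).trans (hC _ (dt_nrm hA)))) _
        refine lintegral_congr_ae ((moll_ae c).mono fun g hg => ?_)
        simp only [Function.comp]
        rw [← hF.1.nrm (mul_mem_Gp hA (nrm_mem_Gp hg)), moll_nrm_mul hA hg,
          ← hF.1.nrm (mul_mem_Gp (nrm_mem_Gp hA) hg), nrm_mul (nrm_mem_Gp hA), nrm_nrm hA]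
    _ = C := by rw [lintegral_const_mul _ hB.hom.1, hB.int1, mul_one]

/-- mollification does not increase the energy of the projections -/
theorem jensen {e : ℝ} {B : E → ℝ≥0∞} (hB : Mol e B) {μ₁ μ₂ : Measure E} [SFinite μ₁] [SFinite μ₂]
    (c₁ : μ₁ Gpᶜ = 0) (c₂ : μ₂ Gpᶜ = 0) {ρ₁ ρ₂ : E → ℝ≥0∞} (h₁ : Dens μ₁ ρ₁) (h₂ : Dens μ₂ ρ₂) :
    ∫⁻ θ in Ioo (-Real.pi) Real.pi, ∫⁻ g, mo B μ₁ g * mo B μ₂ (rot θ g) ∂nu ≤
      ENNReal.ofReal Real.pi * ((∫⁻ M, ρ₁ M ^ 2 ∂nu) + ∫⁻ M, ρ₂ M ^ 2 ∂nu) := by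
  have m₂ := mo_hom hB μ₂
  have hm : Measurable fun p : E × ℝ => mo B μ₂ (rot p.2 p.1) :=
    m₂.1.comp (measurable_rot' measurable_snd measurable_fst)
  set mb : E → ℝ≥0∞ := fun g => ∫⁻ θ in Ioo (-Real.pi) Real.pi, mo B μ₂ (rot θ g) with hmb
  have hb : Base mb := by
    refine ⟨⟨hm.lintegral_prod_right', fun s M hs => ?_⟩, fun a M => ?_⟩
    · simp only [hmb, rot_smul, m₂.2 s _ hs]
    · simp only [hmb, rot_rot]
      exact moll_periodic (f := fun θ => mo B μ₂ (rot θ M)) (fun θ => by simp only [rot_two_pi]) a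
  have hsw : ∀ {R : E → ℝ≥0∞}, Measurable R → ∫⁻ g, mb g * R g ∂nu =
      ∫⁻ θ in Ioo (-Real.pi) Real.pi, ∫⁻ g, R g * mo B μ₂ (rot θ g) ∂nu := by
    intro R hR
    rw [← lintegral_lintegral_swap ((hR.comp measurable_fst).mul hm).aemeasurable]
    refine lintegral_congr fun g => ?_
    rw [mul_comm]
    exact (lintegral_const_mul _ (hm.comp measurable_prodMk_left)).symm
  rw [← hsw (mo_hom hB μ₁).1]
  refine moll_step hB c₁ h₁ hb fun A hA => ?_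
  have hA' : A ∈ Gp := by
    show 0 < dt A
    rw [hA]; exact one_pos
  have hR := h₁.1.mulL (ninv A)
  have e1 : ∫⁻ g, mb (mul A g) * ρ₁ g ∂nu = ∫⁻ g, mb g * ρ₁ (mul (ninv A) g) ∂nu := by
    refine Eq.trans (lintegral_congr fun g => ?_)
      ((mp_mul_nu hA).lintegral_comp (hb.1.1.fun_mul hR.1.1))
    have := mul_ninv_nrm hA'
    rw [nrm_of_dt hA] at this
    rw [← mul_assoc', this, one_mul']
  have e2 : ∀ θ, ∫⁻ g, ρ₁ (mul (ninv A) g) * mo B μ₂ (rot θ g) ∂nu =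
      ∫⁻ g, ρ₁ (mul (ninv A) g) * mo B μ₂ g ∂nu := fun θ => by
    rw [← (mp_rot θ).lintegral_comp (hR.1.1.fun_mul m₂.1)]
    exact lintegral_congr fun g => congrArg (· * _) (hR.2 θ g).symm
  have e3 : ∫⁻ g, ρ₁ (mul (ninv A) g) * mo B μ₂ g ∂nu ≤
      ((∫⁻ M, ρ₁ M ^ 2 ∂nu) + ∫⁻ M, ρ₂ M ^ 2 ∂nu) / 2 := by
    refine moll_step hB c₂ h₂ hR fun A' hA'' => ?_
    have hR' := hR.mulL A'
    rw [ENNReal.le_div_iff_mul_le (by simp) (by simp), mul_comm,
      ← lintegral_const_mul _ (hR'.1.1.fun_mul h₂.1.1.1),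
      ← ((mp_mul_nu (dt_ninv hA')).comp (mp_mul_nu hA'')).lintegral_comp (h₁.1.1.1.pow_const 2),
      ← lintegral_add_right _ (h₂.1.1.1.pow_const 2)]
    exact lintegral_mono fun g => moll_amgm _ _
  rw [e1, hsw hR.1.1]
  simp only [e2]
  rw [setLIntegral_const, Real.volume_Ioo, show Real.pi - -Real.pi = 2 * Real.pi by ring,
    ENNReal.ofReal_mul zero_le_two, ENNReal.ofReal_ofNat, ← mul_assoc, mul_comm]
  exact mul_le_mul_right ((ENNReal.le_div_iff_mul_le (by simp) (by simp)).1 e3) _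

end Pool.Agent.MP_a28cf0_nt.Four

namespace Pool.Agent.MP_a28cf0_nt.Four

open MeasureTheory Complex Filter Topology Set Pool.Agent.MP_a28cf0_nt.Cub
open scoped ENNReal MatrixGroups

theorem bad_supp {e : ℝ} {B : E → ℝ≥0∞} (hB : Mol e B) (he : e ≤ 1 / 4) {g g' : E} (hg : g ∈ Gp)
    (hg' : g' ∈ Gp) (h : B (mul (nrm g) (ninv g')) ≠ 0) :
    ‖nrm g' - nrm g‖ ≤ 4 * e * ‖nrm g‖ := by
  have hd : dt (mul (nrm g) (ninv g')) = 1 := by rw [dt_mul, dt_nrm hg, dt_ninv hg', one_mul]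
  have h1 := (hB.supp _ h).2
  rw [nrm_of_dt hd] at h1
  have h2 : mul (mul (nrm g) (ninv g') - one) (nrm g') = nrm g - nrm g' := by
    rw [sub_mul', mul_assoc', mul_ninv_nrm hg', mul_one', one_mul']
  have h3 := surf_norm_mul (mul (nrm g) (ninv g') - one) (nrm g')
  rw [h2] at h3
  have h4 : ‖nrm g'‖ ≤ ‖nrm g‖ + ‖nrm g - nrm g'‖ := by
    calc ‖nrm g'‖ = ‖nrm g - (nrm g - nrm g')‖ := by rw [sub_sub_cancel]
      _ ≤ _ := norm_sub_le _ _
  have he0 : 0 ≤ e := (norm_nonneg _).trans h1.le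
  have h5 : ‖nrm g - nrm g'‖ ≤ 2 * e * ‖nrm g'‖ :=
    h3.trans (mul_le_mul_of_nonneg_right (by linarith) (norm_nonneg _))
  have h6 : 2 * e * ‖nrm g'‖ ≤ 2 * e * (‖nrm g‖ + ‖nrm g - nrm g'‖) :=
    mul_le_mul_of_nonneg_left h4 (by linarith)
  have h7 : 2 * e * ‖nrm g - nrm g'‖ ≤ 1 / 2 * ‖nrm g - nrm g'‖ :=
    mul_le_mul_of_nonneg_right (by linarith) (norm_nonneg _)
  rw [norm_sub_rev]
  nlinarith

theorem bad_cover {e : ℝ} {B : E → ℝ≥0∞} (hB : Mol e B) (he : e ≤ 1 / 4) {μ : Measure E}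
    (hμ : Good μ) {A : ℤ → Set E} (hA : ∀ i, MeasurableSet (A i)) {g₀ : E} {r : ℝ}
    (hc : {g | g ∈ Sh ∧ ‖nrm g - nrm g₀‖ < r} ⊆ ⋃ i, A i) {g : E} (hg : g ∈ Gp)
    (hr : ‖nrm g - nrm g₀‖ + 4 * e * ‖nrm g‖ < r) :
    mo B μ g ≤ ∑' i, mo B (μ.restrict (A i)) g := by
  unfold mo
  refine le_trans ?_ (lintegral_iUnion_le A _)
  rw [← lintegral_indicator (MeasurableSet.iUnion hA)]
  refine lintegral_mono_ae ?_
  filter_upwards [good_ae hμ] with g' hg'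
  by_cases h : B (mul (nrm g) (ninv g')) = 0
  · simp [h]
  · have h1 := bad_supp hB he hg (Sh_subset hg') h
    have h2 : g' ∈ ⋃ i, A i := by
      refine hc ⟨hg', ?_⟩
      calc ‖nrm g' - nrm g₀‖ = ‖(nrm g - nrm g₀) + (nrm g' - nrm g)‖ := by congr 1; abel
        _ ≤ ‖nrm g - nrm g₀‖ + ‖nrm g' - nrm g‖ := norm_add_le _ _
        _ < r := by linarith
    rw [indicator_of_mem h2]

theorem bad_point {e : ℝ} {B : E → ℝ≥0∞} (hB : Mol e B) (he : e ≤ 1 / 4) {μ : Measure E}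
    (hμ : Good μ) {A : Set E} (hA : MeasurableSet A) {g : E} (hg : g ∈ Gp)
    (h : mo B (μ.restrict A) g ≠ 0) : ∃ g' ∈ A, ‖nrm g' - nrm g‖ ≤ 4 * e * ‖nrm g‖ := by
  by_contra hn
  apply h
  unfold mo
  refine (lintegral_congr_ae (g := fun _ => 0) ?_).trans lintegral_zero
  filter_upwards [ae_restrict_mem hA, ae_restrict_of_ae (good_ae hμ)] with g' h1 h2
  by_contra h3
  exact hn ⟨g', h1, bad_supp hB he hg (Sh_subset h2) h3⟩

theorem bad_band {a b : ℤ → ℝ≥0∞} (h : ∀ i j, a i ≠ 0 → b j ≠ 0 → |i - j| ≤ 1) :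
    (∑' i, a i) * ∑' j, b j ≤ ∑ d ∈ ({-1, 0, 1} : Finset ℤ), ∑' i, a i * b (i + d) := by
  rw [← ENNReal.tsum_mul_right, ← Summable.tsum_finsetSum (fun _ _ => ENNReal.summable)]
  refine ENNReal.tsum_le_tsum fun i => ?_
  rw [← ENNReal.tsum_mul_left, ← (Equiv.addLeft i).tsum_eq]
  refine (tsum_eq_sum (s := ({-1, 0, 1} : Finset ℤ)) ?_).le
  intro d hd
  by_contra hn
  have h1 := h i (i + d) (left_ne_zero_of_mul hn) (right_ne_zero_of_mul hn)
  simp only [Finset.mem_insert, Finset.mem_singleton, not_or] at hd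
  rw [abs_le] at h1
  omega

theorem bad_meas {F G : E → ℝ≥0∞} (hF : Measurable F) (hG : Measurable G) :
    Measurable fun p : ℝ × E => F p.2 * G (rot p.1 p.2) :=
  (hF.comp measurable_snd).mul (hG.comp (measurable_rot' measurable_fst measurable_snd))

theorem bad_sfin : SFinite nu := by unfold nu; infer_instance

theorem bad_abs {f : ℤ → ℤ → ℝ × E → ℝ≥0∞} (hm : ∀ i j, Measurable (f i j)) {w : ℤ → ℝ≥0∞}
    {ν : Measure E} [SFinite ν] {m : Measure ℝ}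
    (hJ : ∀ i j, ∫⁻ θ, ∫⁻ g, f i j (θ, g) ∂ν ∂m ≤ 4 * (w i + w j)) {ε : ℝ≥0∞}
    (hε : ∑' i, w i ≤ ε) :
    ∫⁻ θ, ∫⁻ g, ∑ d ∈ ({-1, 0, 1} : Finset ℤ), ∑' i, f i (i + d) (θ, g) ∂ν ∂m ≤ 24 * ε := by
  have hm1 : ∀ (i j : ℤ) (θ : ℝ), Measurable fun g : E => f i j (θ, g) := fun i j θ =>
    (hm i j).comp measurable_prodMk_left
  have hm2 : ∀ i j : ℤ, Measurable fun θ : ℝ => ∫⁻ g, f i j (θ, g) ∂ν := fun i j =>
    (hm i j).lintegral_prod_right'
  have h1 : ∀ θ : ℝ, ∫⁻ g, ∑ d ∈ ({-1, 0, 1} : Finset ℤ), ∑' i, f i (i + d) (θ, g) ∂ν =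
      ∑ d ∈ ({-1, 0, 1} : Finset ℤ), ∑' i, ∫⁻ g, f i (i + d) (θ, g) ∂ν := by
    intro θ
    rw [lintegral_finsetSum _ fun d _ => Measurable.tsum fun i => hm1 i (i + d) θ]
    exact Finset.sum_congr rfl fun d _ => lintegral_tsum fun i => (hm1 i (i + d) θ).aemeasurable
  rw [lintegral_congr h1, lintegral_finsetSum _ fun d _ => Measurable.tsum fun i => hm2 i (i + d)]
  have h2 : ∀ d ∈ ({-1, 0, 1} : Finset ℤ),
      ∫⁻ θ, ∑' i, ∫⁻ g, f i (i + d) (θ, g) ∂ν ∂m ≤ 8 * ε := by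
    intro d _
    rw [lintegral_tsum fun i => (hm2 i (i + d)).aemeasurable]
    refine (ENNReal.tsum_le_tsum fun i => hJ i (i + d)).trans ?_
    rw [ENNReal.tsum_mul_left, ENNReal.tsum_add]
    have h3 : ∑' i, w (i + d) ≤ ε := ((Equiv.addRight d).tsum_eq w).le.trans hε
    calc _ ≤ 4 * (ε + ε) := mul_le_mul' le_rfl (add_le_add hε h3)
      _ = 8 * ε := by ring
  refine (Finset.sum_le_sum h2).trans (le_of_eq ?_)
  rw [Finset.sum_const]
  have : ({-1, 0, 1} : Finset ℤ).card = 3 := rfl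
  rw [this, nsmul_eq_mul]
  push_cast
  ring

theorem bad_diag {e : ℝ} {B : E → ℝ≥0∞} (hB : Mol e B) {μ : Measure E} (hμ : Good μ)
    {A : ℤ → Set E} {ρ : ℤ → E → ℝ≥0∞} (hD : ∀ i, Dens (μ.restrict (A i)) (ρ i)) {ε : ℝ≥0∞}
    (hε : ∑' i, ∫⁻ M, ρ i M ^ 2 ∂nu ≤ ε) :
    ∫⁻ θ in Ioo (-Real.pi) Real.pi, ∫⁻ g, ∑ d ∈ ({-1, 0, 1} : Finset ℤ), ∑' i,
      mo B (μ.restrict (A i)) g * mo B (μ.restrict (A (i + d))) (rot θ g) ∂nu ≤ 24 * ε := by
  have := hμ.fin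
  have := bad_sfin
  have hc : ∀ i, (μ.restrict (A i)) Gpᶜ = 0 := fun i =>
    le_antisymm ((Measure.restrict_apply_le _ _).trans (good_Gp hμ).le) bot_le
  have hpi : ENNReal.ofReal Real.pi ≤ 4 := by
    rw [← ENNReal.ofReal_ofNat]
    exact ENNReal.ofReal_le_ofReal Real.pi_le_four
  exact bad_abs (f := fun i j p =>
    mo B (μ.restrict (A i)) p.2 * mo B (μ.restrict (A j)) (rot p.1 p.2))
    (fun i j => bad_meas (mo_hom hB _).1 (mo_hom hB _).1) (w := fun i => ∫⁻ M, ρ i M ^ 2 ∂nu)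
    (fun i j => (jensen hB (hc i) (hc j) (hD i) (hD j)).trans (mul_le_mul' hpi le_rfl)) hε

/-- the property that is proved by compactness -/
def badP (μ : Measure E) (Q : Set E) : Prop :=
  ∀ ε : ℝ≥0∞, ε ≠ 0 → ∃ θ₀ : ℝ, 0 < θ₀ ∧ ∃ e₀ : ℝ, 0 < e₀ ∧ ∀ (e : ℝ) (B : E → ℝ≥0∞), e ≤ e₀ →
    Mol e B → ∫⁻ θ in Ioo (-θ₀) θ₀, ∫⁻ g in Q, mo B μ g * mo B μ (rot θ g) ∂nu ≤ ε

theorem bad_local {μ : Measure E} (hμ : Good μ) {g₀ : E} (hT : Thin μ g₀) :
    ∃ r : ℝ, 0 < r ∧ badP μ {g | g ∈ Gp ∧ ‖nrm g - nrm g₀‖ < r} := by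
  obtain ⟨r, hr, hT⟩ := hT
  refine ⟨r / 2, half_pos hr, fun ε hε => ?_⟩
  have hε' : ε / 24 ≠ 0 := ENNReal.div_ne_zero.2 ⟨hε, by norm_num⟩
  obtain ⟨δ, hδ, A, ρ, hA, hc, hD, hs, hsep⟩ := hT _ hε'
  set R : ℝ := ‖nrm g₀‖ + r with hR
  have hR0 : 0 < R := by positivity
  set η : ℝ := min (min δ r / (10 * R)) (1 / 4) with hη
  have hη0 : 0 < η := lt_min (by positivity) (by norm_num)
  have hη1 : η ≤ 1 / 4 := min_le_right _ _
  have hη2 : η * (10 * R) ≤ min δ r := (le_div_iff₀ (by positivity)).1 (min_le_left _ _)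
  have hη3 : η * (10 * R) ≤ δ := hη2.trans (min_le_left _ _)
  have hη4 : η * (10 * R) ≤ r := hη2.trans (min_le_right _ _)
  refine ⟨η, hη0, η, hη0, fun e B he hB => ?_⟩
  have he4 : e ≤ 1 / 4 := he.trans hη1
  have hfin : 24 * (ε / 24) ≤ ε := ENNReal.mul_div_le
  refine le_trans ?_ ((bad_diag hB hμ hD hs).trans hfin)
  have hsub : Ioo (-η) η ⊆ Ioo (-Real.pi) Real.pi :=
    Ioo_subset_Ioo (by linarith [Real.pi_gt_three]) (by linarith [Real.pi_gt_three])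
  refine le_trans ?_ (lintegral_mono_set hsub)
  refine setLIntegral_mono' measurableSet_Ioo fun θ hθ => ?_
  refine le_trans ?_ (setLIntegral_le_lintegral {g | g ∈ Gp ∧ ‖nrm g - nrm g₀‖ < r / 2} _)
  have hms : MeasurableSet {g | g ∈ Gp ∧ ‖nrm g - nrm g₀‖ < r / 2} :=
    isOpen_Gp.measurableSet.inter
      (measurableSet_lt (measurable_nrm.sub_const _).norm measurable_const)
  refine setLIntegral_mono' hms fun g hg => ?_
  obtain ⟨hg, hg1⟩ := hg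
  have hθ' : |θ| ≤ η := abs_le.2 ⟨hθ.1.le, hθ.2.le⟩
  have hn : ‖nrm g‖ ≤ R := by
    calc ‖nrm g‖ = ‖nrm g₀ + (nrm g - nrm g₀)‖ := by congr 1; abel
      _ ≤ ‖nrm g₀‖ + ‖nrm g - nrm g₀‖ := norm_add_le _ _
      _ ≤ R := by linarith
  have hg' : rot θ g ∈ Gp := (rot_mem_Gp θ g).2 hg
  have hn' : ‖nrm (rot θ g)‖ = ‖nrm g‖ := by rw [nrm_rot, norm_rot]
  have hrot : ‖nrm (rot θ g) - nrm g‖ ≤ η * R := by
    rw [nrm_rot]
    exact (norm_rot_sub θ _).trans (mul_le_mul hθ' hn (norm_nonneg _) hη0.le)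
  have heR : 4 * e * ‖nrm g‖ ≤ 4 * (η * R) := by
    have := mul_le_mul he hn (norm_nonneg _) hη0.le
    linarith
  have hηR : 0 < η * R := mul_pos hη0 hR0
  have c1 := bad_cover hB he4 hμ hA hc hg (by linarith)
  have c2 := bad_cover hB he4 hμ hA hc hg' (by
    have : ‖nrm (rot θ g) - nrm g₀‖ ≤ ‖nrm (rot θ g) - nrm g‖ + ‖nrm g - nrm g₀‖ :=
      norm_sub_le_norm_sub_add_norm_sub _ _ _
    rw [hn']
    linarith)
  refine (mul_le_mul' c1 c2).trans (bad_band fun i j hi hj => ?_)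
  obtain ⟨a, ha, ha'⟩ := bad_point hB he4 hμ (hA i) hg hi
  obtain ⟨b, hb, hb'⟩ := bad_point hB he4 hμ (hA j) hg' hj
  refine hsep i j a ha b hb ?_
  rw [hn'] at hb'
  have t1 : ‖nrm a - nrm b‖ ≤ ‖nrm a - nrm g‖ + ‖nrm g - nrm b‖ :=
    norm_sub_le_norm_sub_add_norm_sub _ _ _
  have t2 : ‖nrm g - nrm b‖ ≤ ‖nrm g - nrm (rot θ g)‖ + ‖nrm (rot θ g) - nrm b‖ :=
    norm_sub_le_norm_sub_add_norm_sub _ _ _
  rw [norm_sub_rev (nrm g) (nrm (rot θ g)), norm_sub_rev (nrm (rot θ g)) (nrm b)] at t2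
  linarith

theorem bad_union {μ : Measure E} (hμ : Good μ) {S T : Set E} (hS : badP μ S) (hT : badP μ T) :
    badP μ (S ∪ T) := by
  intro ε hε
  have hε' : ε / 2 ≠ 0 := ENNReal.div_ne_zero.2 ⟨hε, by norm_num⟩
  obtain ⟨θ₁, h₁, e₁, h₁', H₁⟩ := hS _ hε'
  obtain ⟨θ₂, h₂, e₂, h₂', H₂⟩ := hT _ hε'
  refine ⟨min θ₁ θ₂, lt_min h₁ h₂, min e₁ e₂, lt_min h₁' h₂', fun e B he hB => ?_⟩
  have := hμ.fin
  have := bad_sfin
  have hm : Measurable fun θ : ℝ => ∫⁻ g in S, mo B μ g * mo B μ (rot θ g) ∂nu :=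
    (bad_meas (mo_hom hB μ).1 (mo_hom hB μ).1).lintegral_prod_right'
  refine (lintegral_mono fun θ => lintegral_union_le _ S T).trans ?_
  rw [lintegral_add_left hm, ← ENNReal.add_halves ε]
  refine add_le_add (le_trans (lintegral_mono_set ?_) (H₁ e B (he.trans (min_le_left _ _)) hB))
    (le_trans (lintegral_mono_set ?_) (H₂ e B (he.trans (min_le_right _ _)) hB))
  · exact Ioo_subset_Ioo (neg_le_neg (min_le_left _ _)) (min_le_left _ _)
  · exact Ioo_subset_Ioo (neg_le_neg (min_le_right _ _)) (min_le_right _ _)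

/-- nearly parallel pairs contribute little -/
theorem bad_small {μ : Measure E} (hμ : Good μ) {Q : Set E} (hQ : IsCompact Q) (hs : Q ⊆ Sh)
    (hT : ∀ g ∈ Q, Thin μ g) {ε : ℝ≥0∞} (hε : ε ≠ 0) :
    ∃ θ₀ : ℝ, 0 < θ₀ ∧ ∃ e₀ : ℝ, 0 < e₀ ∧ ∀ (e : ℝ) (B : E → ℝ≥0∞), e ≤ e₀ → Mol e B →
      ∫⁻ θ in Ioo (-θ₀) θ₀, ∫⁻ g in Q, mo B μ g * mo B μ (rot θ g) ∂nu ≤ ε := by
  refine hQ.induction_on (p := badP μ) ?_ ?_ ?_ ?_ ε hε
  · intro ε _
    exact ⟨1, one_pos, 1, one_pos, fun e B _ _ => by simp⟩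
  · intro S T hST hT ε hε
    obtain ⟨θ₀, h₀, e₀, h₀', H⟩ := hT ε hε
    exact ⟨θ₀, h₀, e₀, h₀', fun e B he hB =>
      (lintegral_mono fun θ => lintegral_mono_set hST).trans (H e B he hB)⟩
  · intro S T hS hT
    exact bad_union hμ hS hT
  · intro g₀ hg₀
    obtain ⟨r, hr, H⟩ := bad_local hμ (hT g₀ hg₀)
    refine ⟨_, mem_nhdsWithin_of_mem_nhds ?_, H⟩
    have hG : Gp ∈ 𝓝 g₀ := isOpen_Gp.mem_nhds (Sh_subset (hs hg₀))
    have hc : ContinuousAt (fun g => ‖nrm g - nrm g₀‖) g₀ :=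
      ((continuousOn_nrm.continuousAt hG).sub continuousAt_const).norm
    filter_upwards [hG, hc.eventually_lt continuousAt_const (by simpa using hr)] with g h1 h2
    exact ⟨h1, h2⟩

end Pool.Agent.MP_a28cf0_nt.Four

namespace Pool.Agent.MP_a28cf0_nt.Four

open MeasureTheory Complex Filter Topology Set Pool.Agent.MP_a28cf0_nt.Cub
open scoped ENNReal MatrixGroups

theorem crosslow_amgm (a b : ℝ≥0∞) : 2 * a * b ≤ b ^ 2 + a ^ 2 := by
  by_cases ha : a = ⊤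
  · simp [ha]
  by_cases hb : b = ⊤
  · simp [hb]
  lift a to NNReal using ha
  lift b to NNReal using hb
  have h := two_mul_le_add_sq a b
  rw [add_comm] at h
  exact_mod_cast h

/-- the integral of a periodic function over a period -/
theorem crosslow_per {f : ℝ → ℝ≥0∞} {L : ℝ} (hL : 0 < L) (hf : Function.Periodic f L) (s : ℝ) :
    ∫⁻ x in Ioc s (s + L), f x = ∫⁻ x in Ioo 0 L, f x := by
  have : VAddInvariantMeasure (AddSubgroup.zmultiples L) ℝ volume :=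
    ⟨fun c s _ => measure_preimage_add _ _ _⟩
  have h : ∫⁻ x in Ioc s (s + L), f x = ∫⁻ x in Ioc 0 (0 + L), f x := by
    apply IsAddFundamentalDomain.setLIntegral_eq (G := AddSubgroup.zmultiples L)
    exacts [isAddFundamentalDomain_Ioc hL s, isAddFundamentalDomain_Ioc hL 0,
      hf.map_vadd_zmultiples]
  rw [h, zero_add, restrict_Ioo_eq_restrict_Ioc]

theorem crosslow_shift {f : ℝ → ℝ≥0∞} {L : ℝ} (hL : 0 < L) (hf : Function.Periodic f L) (s : ℝ) :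
    ∫⁻ x in Ioo 0 L, f (x + s) = ∫⁻ x in Ioo 0 L, f x := by
  rw [← crosslow_per hL hf s, ← (measurePreserving_add_right volume s).setLIntegral_comp_preimage_emb
    (measurableEmbedding_addRight s) f (Ioc s (s + L)), preimage_add_const_Ioc, sub_self,
    add_sub_cancel_left, restrict_Ioo_eq_restrict_Ioc]

theorem crosslow_periodic {G : E → ℝ≥0∞} (hG : ∀ M, G (rot (Real.pi / 2) M) = G M) (M : E) :
    Function.Periodic (fun θ => G (rot θ M)) (Real.pi / 2) := fun θ => by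
  simp only
  rw [add_comm, ← rot_rot, hG]

/-- averaging over rotations against an invariant weight -/
theorem crosslow_avg {F G : E → ℝ≥0∞} (mF : Measurable F) (mG : Measurable G)
    (hF : ∀ θ M, F (rot θ M) = F M) (L : ℝ) :
    ∫⁻ M, F M * ∫⁻ θ in Ioo 0 L, G (rot θ M) ∂volume ∂nu =
      ENNReal.ofReal L * ∫⁻ M, F M * G M ∂nu := by
  have h1 : ∀ M, F M * ∫⁻ θ in Ioo 0 L, G (rot θ M) = ∫⁻ θ in Ioo 0 L, F M * G (rot θ M) :=
    fun M => (lintegral_const_mul _ (mG.comp (measurable_rot' measurable_id measurable_const))).symm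
  have h2 : Measurable fun p : E × ℝ => F p.1 * G (rot p.2 p.1) :=
    (mF.comp measurable_fst).mul (mG.comp (measurable_rot' measurable_snd measurable_fst))
  have h3 : ∀ θ, ∫⁻ M, F M * G (rot θ M) ∂nu = ∫⁻ M, F M * G M ∂nu := fun θ => by
    rw [← (mp_rot θ).lintegral_comp (mF.fun_mul mG)]
    simp only [hF]
  simp only [h1]
  rw [lintegral_lintegral_swap h2.aemeasurable]
  simp only [h3]
  rw [setLIntegral_const, Real.volume_Ioo, sub_zero, mul_comm]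

/-- Cauchy-Schwarz over a full period -/
theorem cr_full {Ψ : E → ℝ} (mΨ : Measurable Ψ) (hr : ∀ θ M, Ψ (rot θ M) = Ψ M)
    {G : E → ℝ≥0∞} (mG : Measurable G) (hG : ∀ M, G (rot (Real.pi / 2) M) = G M) (κ : ℝ≥0∞) :
    2 * κ * ∫⁻ M, ENNReal.ofReal (Ψ M) * G M ∂nu ≤
      ENNReal.ofReal (2 / Real.pi) * (∫⁻ θ in Ioo 0 (Real.pi / 2), Cr Ψ G θ) +
        κ ^ 2 * ∫⁻ M, ENNReal.ofReal (Ψ M) ∂nu := by
  have hL : 0 < Real.pi / 2 := by positivity
  obtain ⟨c, hc⟩ : ∃ c, c = ENNReal.ofReal (2 / Real.pi) := ⟨_, rfl⟩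
  have hcL : c * ENNReal.ofReal (Real.pi / 2) = 1 := by
    rw [hc, ← ENNReal.ofReal_mul (by positivity), div_mul_div_cancel₀ Real.pi_ne_zero,
      div_self two_ne_zero, ENNReal.ofReal_one]
  obtain ⟨J, hJ⟩ : ∃ J : E → ℝ≥0∞, J = fun M => ∫⁻ θ in Ioo 0 (Real.pi / 2), G (rot θ M) :=
    ⟨_, rfl⟩
  have mJ : Measurable J := by
    rw [hJ]
    exact Measurable.lintegral_prod_right
      (mG.comp (measurable_rot' measurable_snd measurable_fst))
  have hJr : ∀ θ M, J (rot θ M) = J M := fun θ M => by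
    simp only [hJ, rot_rot]
    exact crosslow_shift hL (crosslow_periodic hG M) θ
  have mP : Measurable fun M => ENNReal.ofReal (Ψ M) := mΨ.ennreal_ofReal
  have h1 : ∫⁻ M, ENNReal.ofReal (Ψ M) * (c * J M) ∂nu =
      ∫⁻ M, ENNReal.ofReal (Ψ M) * G M ∂nu := by
    simp only [mul_left_comm _ c]
    rw [lintegral_const_mul _ (mP.fun_mul mJ)]
    simp only [hJ]
    rw [crosslow_avg mP mG (fun θ M => by rw [hr]), ← mul_assoc, hcL, one_mul]
  have h2 : ∫⁻ M, ENNReal.ofReal (Ψ M) * (c * J M) ^ 2 ∂nu =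
      c * ∫⁻ θ in Ioo 0 (Real.pi / 2), Cr Ψ G θ := by
    have e1 : ∀ M, ENNReal.ofReal (Ψ M) * (c * J M) ^ 2 =
        c * (c * (ENNReal.ofReal (Ψ M) * J M * J M)) := fun M => by ring
    simp only [e1]
    rw [lintegral_const_mul _ (((mP.fun_mul mJ).fun_mul mJ).const_mul c),
      lintegral_const_mul _ ((mP.fun_mul mJ).fun_mul mJ)]
    have e2 := crosslow_avg (mP.fun_mul mJ) mG (fun θ M => by rw [hr, hJr]) (Real.pi / 2)
    have e3 : ∫⁻ M, ENNReal.ofReal (Ψ M) * J M * J M ∂nu =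
        ENNReal.ofReal (Real.pi / 2) * ∫⁻ M, ENNReal.ofReal (Ψ M) * J M * G M ∂nu := by
      rw [← e2]
      simp only [hJ]
    rw [e3, ← mul_assoc c (ENNReal.ofReal _), hcL, one_mul]
    congr 1
    have e4 : ∀ M, ENNReal.ofReal (Ψ M) * J M * G M =
        ∫⁻ θ in Ioo 0 (Real.pi / 2), ENNReal.ofReal (Ψ M) * (G M * G (rot θ M)) := fun M => by
      have mR : Measurable fun θ : ℝ => G (rot θ M) :=
        mG.comp (measurable_rot' measurable_id measurable_const)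
      rw [lintegral_const_mul _ (mR.const_mul _), lintegral_const_mul _ mR, hJ]
      ring
    simp only [e4]
    have e5 : Measurable fun p : E × ℝ => ENNReal.ofReal (Ψ p.1) * (G p.1 * G (rot p.2 p.1)) :=
      (mP.comp measurable_fst).mul ((mG.comp measurable_fst).mul
        (mG.comp (measurable_rot' measurable_snd measurable_fst)))
    rw [lintegral_lintegral_swap e5.aemeasurable]
    rfl
  rw [← hc, ← h1, ← h2, ← lintegral_const_mul _ (mP.fun_mul (mJ.const_mul c)),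
    ← lintegral_const_mul _ mP, ← lintegral_add_right _ (mP.const_mul _)]
  refine lintegral_mono fun M => ?_
  calc 2 * κ * (ENNReal.ofReal (Ψ M) * (c * J M))
      = ENNReal.ofReal (Ψ M) * (2 * κ * (c * J M)) := by ring
    _ ≤ ENNReal.ofReal (Ψ M) * ((c * J M) ^ 2 + κ ^ 2) := by
        gcongr
        exact crosslow_amgm _ _
    _ = _ := by ring

/-- for flow invariant densities the averaged correlation dominates the correlation -/
theorem crosslow_tw {Ψ Ψ' : E → ℝ} {p w : ℝ → ℝ} {η : ℝ} (hp : Ang p) (hw : Tim η w)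
    (hΨ : ∀ a ∈ Icc 0 η, ∀ M ∈ Sh, Ψ' M ≤ Ψ (fl a M)) {G : E → ℝ≥0∞}
    (hG : ∀ s M, G (fl s M) = G M) :
    ∫⁻ θ, ENNReal.ofReal (p θ) * Cr Ψ' G θ ≤ Tw Ψ p w G := by
  have mw : Measurable fun a => ENNReal.ofReal (w a) := hw.cont.measurable.ennreal_ofReal
  have h1 : ∀ C : ℝ≥0∞, ∫⁻ a, ENNReal.ofReal (w a) * C = C := fun C => by
    rw [lintegral_mul_const _ mw, hw.int1, one_mul]
  refine lintegral_mono fun θ => ?_
  rw [← h1 (ENNReal.ofReal (p θ) * Cr Ψ' G θ)]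
  refine lintegral_mono fun a => ?_
  rw [← h1 (ENNReal.ofReal (w a) * (ENNReal.ofReal (p θ) * Cr Ψ' G θ))]
  refine lintegral_mono fun b => ?_
  by_cases ha : w a = 0
  · simp [ha]
  have e : ENNReal.ofReal (w b) * (ENNReal.ofReal (w a) * (ENNReal.ofReal (p θ) * Cr Ψ' G θ)) =
      ENNReal.ofReal (p θ * w a * w b) * Cr Ψ' G θ := by
    rw [ENNReal.ofReal_mul (mul_nonneg (hp.nn θ) (hw.nn a)), ENNReal.ofReal_mul (hp.nn θ)]
    ring
  simp only
  rw [e]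
  gcongr
  refine lintegral_mono_ae ?_
  filter_upwards [ae_mem_Sh] with M hM
  rw [hG, hG]
  gcongr
  exact hΨ a (hw.supp a ha) M hM

theorem crosslow_split {Ψ : E → ℝ} {G : E → ℝ≥0∞} (hG : ∀ M, G (rot (Real.pi / 2) M) = G M)
    (θ₀ : ℝ) :
    ∫⁻ θ in Ioo 0 (Real.pi / 2), Cr Ψ G θ ≤
      (∫⁻ θ in Ioo (-θ₀) θ₀, Cr Ψ G θ) + ∫⁻ θ in Icc θ₀ (Real.pi / 2 - θ₀), Cr Ψ G θ := by
  have hL : 0 < Real.pi / 2 := by positivity
  have hp : Function.Periodic (Cr Ψ G) (Real.pi / 2) := fun θ => by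
    have h : ∀ M, G (rot (θ + Real.pi / 2) M) = G (rot θ M) := fun M => crosslow_periodic hG M θ
    simp only [Cr, h]
  rw [← crosslow_per hL hp (-θ₀), ← restrict_Ioo_eq_restrict_Ioc]
  refine (lintegral_mono_set (t := Ioo (-θ₀) θ₀ ∪ Icc θ₀ (Real.pi / 2 - θ₀)) ?_).trans
    (lintegral_union_le _ _ _)
  intro θ hθ
  rcases lt_or_ge θ θ₀ with h | h
  · exact Or.inl ⟨hθ.1, h⟩
  · exact Or.inr ⟨h, by linarith [hθ.2]⟩

theorem crosslow_bad {Ψ : E → ℝ} {A : ℝ} {Q : Set E} (hQ : MeasurableSet Q)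
    (h1 : ∀ M ∈ Sh, Ψ M ≤ A) (h2 : ∀ M ∈ Sh, M ∉ Q → Ψ M ≤ 0) (G : E → ℝ≥0∞) (θ : ℝ) :
    Cr Ψ G θ ≤ ENNReal.ofReal A * ∫⁻ g in Q, G g * G (rot θ g) ∂nu := by
  rw [← lintegral_const_mul' _ _ ENNReal.ofReal_ne_top, ← lintegral_indicator hQ]
  refine lintegral_mono_ae ?_
  filter_upwards [ae_mem_Sh] with M hM
  by_cases h : M ∈ Q
  · rw [indicator_of_mem h]
    gcongr
    exact h1 M hM
  · rw [ENNReal.ofReal_eq_zero.2 (h2 M hM h), zero_mul]
    exact zero_le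

theorem crosslow_int {ν : Measure E} (hf : IsFiniteMeasureOnCompacts ν) (hν : ν Shᶜ = 0)
    {φ : E → ℝ} (hc : ContinuousOn φ Gp) {ρ : ℝ} (hz : ∀ M ∈ Sh, M ∉ Bl ρ → φ M = 0) :
    Integrable φ ν := by
  have h1 : IntegrableOn φ (Bl ρ) ν :=
    (hc.mono (inter_subset_left.trans Sh_subset)).integrableOn_compact (isCompact_Bl ρ)
  refine h1.integrable_of_ae_notMem_eq_zero ?_
  have h2 : ∀ᵐ M ∂ν, M ∈ Sh := hν
  filter_upwards [h2] with M hM using hz M hM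

/-- the estimate for one mollified density -/
theorem crosslow_one {Ψ Ψ' : E → ℝ} {G : E → ℝ≥0∞} {c κ θ₀ D K N P : ℝ} {p : ℝ → ℝ}
    (mΨ : Measurable Ψ') (hr : ∀ θ M, Ψ' (rot θ M) = Ψ' M) (mG : Measurable G)
    (hG : ∀ M, G (rot (Real.pi / 2) M) = G M) (hc : 0 ≤ c) (hκ : 0 ≤ κ) (hD : 0 ≤ D) (hK : 0 ≤ K)
    (hN : 0 ≤ N) (hle : ∀ M, Ψ' M ≤ Ψ M)
    (hp : ∀ θ ∈ Icc θ₀ (Real.pi / 2 - θ₀), c * (2 / Real.pi) ≤ p θ)
    (e1 : ∫⁻ θ in Ioo (-θ₀) θ₀, Cr Ψ' G θ ≤ ENNReal.ofReal D)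
    (e2 : ∫⁻ θ, ENNReal.ofReal (p θ) * Cr Ψ' G θ ≤ ENNReal.ofReal K)
    (e3 : ∫⁻ M, ENNReal.ofReal (Ψ M) ∂nu = ENNReal.ofReal N)
    (e4 : ∫⁻ M, ENNReal.ofReal (Ψ' M) * G M ∂nu = ENNReal.ofReal P) :
    c * (2 * κ * P) ≤ c * (2 / Real.pi * D) + K + c * (κ ^ 2 * N) := by
  have hπ : 0 ≤ 2 / Real.pi := by positivity
  have h1 := cr_full mΨ hr mG hG (ENNReal.ofReal κ)
  have h2 : ∫⁻ M, ENNReal.ofReal (Ψ' M) ∂nu ≤ ENNReal.ofReal N := by
    rw [← e3]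
    exact lintegral_mono fun M => ENNReal.ofReal_le_ofReal (hle M)
  have h3 : ENNReal.ofReal c * (ENNReal.ofReal (2 / Real.pi) *
      ∫⁻ θ in Icc θ₀ (Real.pi / 2 - θ₀), Cr Ψ' G θ) ≤ ENNReal.ofReal K := by
    rw [← mul_assoc, ← ENNReal.ofReal_mul hc, ← lintegral_const_mul' _ _ ENNReal.ofReal_ne_top]
    refine le_trans ?_ ((setLIntegral_le_lintegral (Icc θ₀ (Real.pi / 2 - θ₀)) _).trans e2)
    refine setLIntegral_mono' measurableSet_Icc fun θ hθ => ?_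
    gcongr
    exact hp θ hθ
  rw [e4] at h1
  have h4 : ENNReal.ofReal c * (2 * ENNReal.ofReal κ * ENNReal.ofReal P) ≤
      ENNReal.ofReal c * (ENNReal.ofReal (2 / Real.pi) * ENNReal.ofReal D) + ENNReal.ofReal K +
        ENNReal.ofReal c * (ENNReal.ofReal κ ^ 2 * ENNReal.ofReal N) := by
    calc _ ≤ ENNReal.ofReal c * (ENNReal.ofReal (2 / Real.pi) *
          (ENNReal.ofReal D + ∫⁻ θ in Icc θ₀ (Real.pi / 2 - θ₀), Cr Ψ' G θ) +
          ENNReal.ofReal κ ^ 2 * ENNReal.ofReal N) := by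
          gcongr
          refine h1.trans ?_
          gcongr
          exact (crosslow_split hG θ₀).trans (by gcongr)
      _ = ENNReal.ofReal c * (ENNReal.ofReal (2 / Real.pi) * ENNReal.ofReal D) +
          ENNReal.ofReal c * (ENNReal.ofReal (2 / Real.pi) *
            ∫⁻ θ in Icc θ₀ (Real.pi / 2 - θ₀), Cr Ψ' G θ) +
          ENNReal.ofReal c * (ENNReal.ofReal κ ^ 2 * ENNReal.ofReal N) := by ring
      _ ≤ _ := by gcongr
  rw [← ENNReal.ofReal_ofNat 2, ← ENNReal.ofReal_mul (by norm_num),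
    ← ENNReal.ofReal_mul (by positivity), ← ENNReal.ofReal_mul hc, ← ENNReal.ofReal_mul hπ,
    ← ENNReal.ofReal_mul hc, ← ENNReal.ofReal_pow hκ, ← ENNReal.ofReal_mul (by positivity),
    ← ENNReal.ofReal_mul hc, ← ENNReal.ofReal_add (by positivity) hK,
    ← ENNReal.ofReal_add (by positivity) (by positivity),
    ENNReal.ofReal_le_ofReal_iff (by positivity)] at h4
  exact h4

/-- lower bound for the mass of transversal pairs -/
theorem cross_lower {μ : Measure E} (hμ : Good μ) (hw : μ.map (rot (Real.pi / 2)) = μ)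
    {Ψ : E → ℝ} (hΨ : Wt Ψ) (hT : ∀ g ∈ Gp, 0 < Ψ g → Thin μ g) {κ ε : ℝ} (hκ : 0 ≤ κ)
    (hε : 0 < ε) :
    ∃ θ₀ : ℝ, 0 < θ₀ ∧ θ₀ < Real.pi / 4 ∧ ∃ η : ℝ, 0 < η ∧ ∀ (c : ℝ) (p w : ℝ → ℝ) (k : E × E → ℝ),
      0 ≤ c → c ≤ 1 → Ang p → (∀ θ ∈ Icc θ₀ (Real.pi / 2 - θ₀), c * (2 / Real.pi) ≤ p θ) →
      Tim η w → Continuous k → HasCompactSupport k → (∀ P, 0 ≤ k P) →
      (∀ G : E → ℝ≥0∞, Hom G →
        ∫⁻ P, ENNReal.ofReal (k (nrm P.1, nrm P.2)) ∂((nu.withDensity G).prod (nu.withDensity G))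
          = Tw Ψ p w G) →
      c * (2 * κ * (∫ M, Ψ M ∂μ) - κ ^ 2 * (∫ M, Ψ M ∂nu) - ε) ≤
        ∫ P, k (nrm P.1, nrm P.2) ∂(μ.prod μ) := by
  obtain ⟨A, ρ, hA, hA1, hA2⟩ := hΨ.bound
  have hfin := hμ.fin
  have hsf := surf_sfinite hμ
  obtain ⟨m, hm⟩ : ∃ m, m = μ.real (Bl ρ) := ⟨_, rfl⟩
  have hm0 : 0 ≤ m := by rw [hm]; exact measureReal_nonneg
  obtain ⟨k₀, hk₀⟩ : ∃ k₀, k₀ = ε / (2 * (2 * κ * m + 1)) := ⟨_, rfl⟩
  have hk0 : 0 < k₀ := by rw [hk₀]; positivity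
  have hk1 : 2 * κ * (k₀ * m) ≤ ε / 2 := by
    have : k₀ * (2 * (2 * κ * m + 1)) = ε := by rw [hk₀]; field_simp
    nlinarith
  obtain ⟨ε₁, hε₁⟩ : ∃ ε₁, ε₁ = ε / (2 * (A + 1)) := ⟨_, rfl⟩
  have he0 : 0 < ε₁ := by rw [hε₁]; positivity
  have he1 : 2 / Real.pi * (A * ε₁) ≤ ε / 2 := by
    have h1 : ε₁ * (2 * (A + 1)) = ε := by rw [hε₁]; field_simp
    have h2 : 2 / Real.pi ≤ 1 := (div_le_one Real.pi_pos).2 Real.two_le_pi
    have h3 : 2 / Real.pi * (A * ε₁) ≤ 1 * (A * ε₁) := by gcongr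
    nlinarith
  obtain ⟨Ψ', hΨ'⟩ : ∃ Ψ' : E → ℝ, Ψ' = fun M => max (Ψ M - k₀) 0 := ⟨_, rfl⟩
  have n' : ∀ M, 0 ≤ Ψ' M := fun M => by rw [hΨ']; exact le_max_right _ _
  have l' : ∀ M, Ψ' M ≤ Ψ M := fun M => by
    rw [hΨ']; exact max_le (by linarith) (hΨ.nn M)
  have g' : ∀ M, Ψ M - k₀ ≤ Ψ' M := fun M => by rw [hΨ']; exact le_max_left _ _
  have z' : ∀ M, Ψ M ≤ k₀ → Ψ' M = 0 := fun M h => by
    rw [hΨ']; exact max_eq_right (by linarith)
  have m' : Measurable Ψ' := by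
    rw [hΨ']; exact (hΨ.meas.sub_const _).max measurable_const
  have c' : ContinuousOn Ψ' Gp := by
    rw [hΨ']
    exact (continuous_id.sub continuous_const |>.max continuous_const).comp_continuousOn hΨ.cont
  have r' : ∀ θ M, Ψ' (rot θ M) = Ψ' M := fun θ M => by simp only [hΨ', hΨ.rotinv]
  have h' : ∀ (s : ℝ) (M : E), 0 < s → Ψ' (s • M) = Ψ' M := fun s M hs => by
    simp only [hΨ', hΨ.homog s M hs]
  have v' : Van fun M => (Ψ' M : ℂ) := by
    obtain ⟨r, hr⟩ := hΨ.test.van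
    refine ⟨r, fun M h1 h2 h3 => ?_⟩
    have h4 : Ψ M = 0 := ofReal_eq_zero.1 (hr M h1 h2 h3)
    simp only
    rw [z' M (by linarith), ofReal_zero]
  have b' : ∀ M ∈ Sh, M ∉ Bl ρ → Ψ' M = 0 := fun M hM hn => z' M (by rw [hA2 M hM hn]; exact hk0.le)
  have hQ : IsCompact (Bl ρ ∩ Ψ ⁻¹' Ici k₀) :=
    (isCompact_Bl ρ).of_isClosed_subset
      ((hΨ.cont.mono (inter_subset_left.trans Sh_subset)).preimage_isClosed_of_isClosed
        (isCompact_Bl ρ).isClosed isClosed_Ici) inter_subset_left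
  obtain ⟨θ₁, hθ₁, e₀, he₀, hbad⟩ := bad_small hμ hQ (fun g hg => hg.1.1)
    (fun g hg => hT g (Sh_subset hg.1.1) (hk0.trans_le hg.2))
    (ε := ENNReal.ofReal ε₁) (ENNReal.ofReal_pos.2 he0).ne'
  obtain ⟨η, hη, hfl⟩ := hΨ.flow hk0
  have hπ := Real.pi_pos
  refine ⟨min θ₁ (Real.pi / 8), lt_min hθ₁ (by positivity),
    (min_le_right _ _).trans_lt (by linarith), η, hη,
    fun c p w k hc _ hp hpc hwt hk hks hkn hker => ?_⟩
  choose B hB using fun j : ℕ => exists_mol (e := 1 / ((j : ℝ) + 1)) Nat.one_div_pos_of_nat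
  have hlim : Tendsto (fun j : ℕ => 1 / ((j : ℝ) + 1)) atTop (𝓝 0) :=
    tendsto_one_div_add_atTop_nhds_zero_nat
  have hV := mo_vague hB hlim hμ
  have hF : ∀ j, IsFiniteMeasureOnCompacts (nu.withDensity (mo (B j) μ)) := fun j =>
    mo_fin (hB j) hμ
  have t1 := vagueH_wt (fun j => dens_conc _) hμ.sh hV c' v' h'
  have t2 := vagueH_tensor hF hfin (fun j => dens_conc _) hμ.sh hV hk hks
  have iN : Integrable Ψ nu := by simpa using hΨ.integrable (g := fun _ => 1) continuousOn_const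
  have hN : 0 ≤ ∫ M, Ψ M ∂nu := integral_nonneg hΨ.nn
  have key : ∀ᶠ j : ℕ in atTop, c * (2 * κ * ∫ M, Ψ' M ∂(nu.withDensity (mo (B j) μ))) ≤
      c * (2 / Real.pi * (A * ε₁)) +
        (∫ P, k (nrm P.1, nrm P.2) ∂((nu.withDensity (mo (B j) μ)).prod
          (nu.withDensity (mo (B j) μ)))) + c * (κ ^ 2 * ∫ M, Ψ M ∂nu) := by
    filter_upwards [hlim.eventually (ge_mem_nhds he₀)] with j hj
    have hH := mo_hom (hB j) μ
    refine crosslow_one (Ψ := Ψ) m' r' hH.1 (mo_rot (hB j) hw) hc hκ (by positivity)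
      (integral_nonneg fun P => hkn _) hN l' hpc ?_ ?_ ?_ ?_
    · calc _ ≤ ∫⁻ θ in Ioo (-θ₁) θ₁, Cr Ψ' (mo (B j) μ) θ :=
            lintegral_mono_set (Ioo_subset_Ioo (neg_le_neg (min_le_left _ _)) (min_le_left _ _))
        _ ≤ ∫⁻ θ in Ioo (-θ₁) θ₁, ENNReal.ofReal A *
            ∫⁻ g in Bl ρ ∩ Ψ ⁻¹' Ici k₀, mo (B j) μ g * mo (B j) μ (rot θ g) ∂nu := by
            refine lintegral_mono fun θ => crosslow_bad hQ.measurableSet
              (fun M hM => (l' M).trans (hA1 M hM)) (fun M hM hn => ?_) _ θ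
            by_cases hb : M ∈ Bl ρ
            · exact (z' M (le_of_not_ge fun h => hn ⟨hb, h⟩)).le
            · exact (b' M hM hb).le
        _ ≤ ENNReal.ofReal (A * ε₁) := by
            rw [lintegral_const_mul' _ _ ENNReal.ofReal_ne_top, ENNReal.ofReal_mul hA]
            gcongr
            exact hbad _ _ hj (hB j)
    · rw [integral_kernel (hF j) (dens_conc _) hk hks hkn, hker _ hH]
      refine crosslow_tw hp hwt (fun a ha M hM => ?_) (mo_fl (hB j) hμ)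
      have h1 := abs_le.1 (hfl a (abs_le.2 ⟨by linarith [ha.1], ha.2⟩) M hM)
      rw [hΨ']
      exact max_le (by linarith [h1.1]) (hΨ.nn _)
    · exact (ofReal_integral_eq_lintegral_ofReal iN (Eventually.of_forall hΨ.nn)).symm
    · rw [ofReal_integral_eq_lintegral_ofReal (crosslow_int (hF j) (dens_conc _) c' b')
        (Eventually.of_forall n'), lintegral_withDensity_eq_lintegral_mul _ hH.1 m'.ennreal_ofReal]
      simp only [Pi.mul_apply, mul_comm]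
  have lim := le_of_tendsto_of_tendsto ((t1.const_mul (2 * κ)).const_mul c)
    ((t2.const_add _).add_const _) key
  have low : (∫ M, Ψ M ∂μ) ≤ (∫ M, Ψ' M ∂μ) + k₀ * m := by
    have i1 := crosslow_int hfin hμ.sh hΨ.cont hA2
    have i2 := crosslow_int hfin hμ.sh c' b'
    have i3 : Integrable ((Bl ρ).indicator fun _ : E => k₀) μ :=
      (integrable_indicator_iff (measurableSet_Bl ρ)).2
        (continuousOn_const.integrableOn_compact (isCompact_Bl ρ))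
    have e : k₀ * m = ∫ M, (Bl ρ).indicator (fun _ : E => k₀) M ∂μ := by
      rw [integral_indicator_const _ (measurableSet_Bl ρ), hm, smul_eq_mul, mul_comm]
    rw [e, ← integral_add i2 i3]
    refine integral_mono_ae i1 (i2.add i3) ?_
    filter_upwards [good_ae hμ] with M hM
    by_cases hb : M ∈ Bl ρ
    · rw [indicator_of_mem hb]
      linarith [g' M]
    · rw [indicator_of_notMem hb, hA2 M hM hb, add_zero]
      exact n' M
  have f1 : 2 * κ * (∫ M, Ψ M ∂μ) ≤ 2 * κ * (∫ M, Ψ' M ∂μ) + ε / 2 := by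
    have : 2 * κ * (∫ M, Ψ M ∂μ) ≤ 2 * κ * ((∫ M, Ψ' M ∂μ) + k₀ * m) := by gcongr
    linarith
  have f2 := mul_le_mul_of_nonneg_left f1 hc
  have f3 := mul_le_mul_of_nonneg_left he1 hc
  linarith

end Pool.Agent.MP_a28cf0_nt.Four

namespace Pool.Agent.MP_a28cf0_nt.Four

open MeasureTheory Complex Filter Topology Set Pool.Agent.MP_a28cf0_nt.Cub
open scoped ENNReal MatrixGroups

/-- unfolding with a nonnegative, rotation invariant and homogeneous weight -/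
theorem unfold_wt (ψ : ℂ → ℝ) (hs : ∀ n : ℕ, ContDiffOn ℝ n ψ Up)
    (hi : ∀ z : ℂ, 0 < z.im → ψ (z + 1) = ψ z ∧ ψ (-z⁻¹) = ψ z)
    (hY : ∃ Y : ℝ, ∀ z : ℂ, Y ≤ z.im → ψ z = 0) (h0 : ∀ z : ℂ, 0 < z.im → 0 ≤ ψ z) :
    ∃ Ψ : E → ℝ, Wt Ψ ∧ ∀ F : ℂ → ℝ, ContinuousOn F Up →
      (∀ z : ℂ, 0 < z.im → F (z + 1) = F z ∧ F (-z⁻¹) = F z) →
      ∫ z in Fd, ψ z * F z / z.im ^ 2 = ∫ M, Ψ M * F (pr M) ∂nu := by
  classical
  obtain ⟨Ψ, h1, h2, h3, h4, h5⟩ := unfold_core ψ hs hi hY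
  have hc : ContinuousOn Ψ Gp := by
    have := Complex.continuous_re.comp_continuousOn h1.cont
    simpa only [Function.comp_def, Complex.ofReal_re] using this
  refine ⟨Gp.indicator Ψ, ⟨⟨h1.smooth.congr fun M hM => by rw [indicator_of_mem hM], ?_⟩, ?_,
    fun M => ?_, fun θ M => ?_, fun s M hs => ?_⟩, fun F hF hFi => ?_⟩
  · obtain ⟨ρ, hρ⟩ := h1.van
    refine ⟨ρ, fun M a1 a2 a3 => ?_⟩
    beta_reduce
    rw [indicator_of_mem (show M ∈ Gp from one_half_pos.trans a1)]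
    exact hρ M a1 a2 a3
  · exact hc.measurable_piecewise continuousOn_const isOpen_Gp.measurableSet
  · exact indicator_nonneg (fun N hN => h2 N (h0 _ (pr_mem hN))) M
  · by_cases hM : M ∈ Gp
    · rw [indicator_of_mem hM, indicator_of_mem ((rot_mem_Gp θ M).2 hM), h3]
    · rw [indicator_of_notMem hM, indicator_of_notMem (fun h => hM ((rot_mem_Gp θ M).1 h))]
  · by_cases hM : M ∈ Gp
    · rw [indicator_of_mem hM, indicator_of_mem ((smul_mem_Gp hs M).2 hM), h4 s hs]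
    · rw [indicator_of_notMem hM, indicator_of_notMem (fun h => hM ((smul_mem_Gp hs M).1 h))]
  · rw [h5 F hF hFi]
    refine integral_congr_ae (ae_mem_Sh.mono fun M hM => ?_)
    simp only [indicator_of_mem (Sh_subset hM)]

end Pool.Agent.MP_a28cf0_nt.Four

namespace Pool.Agent.MP_a28cf0_nt.Four

open MeasureTheory Complex Filter Topology Set Pool.Agent.MP_a28cf0_nt.Cub
open scoped ENNReal MatrixGroups

theorem final_amgm {x a b : ℝ} (ha : 0 ≤ a) (hb : 0 ≤ b)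
    (h : ∀ s : ℝ, 0 < s → 2 * x ≤ s * a + b / s) : x ≤ √b * √a := by
  by_contra hx
  have hx' := not_le.1 hx
  have h0 : 0 ≤ √b * √a := by positivity
  have hxp : 0 < x := h0.trans_lt hx'
  have e1 : √a * √a = a := Real.mul_self_sqrt ha
  have e2 : √b * √b = b := Real.mul_self_sqrt hb
  have hlt : b * a < x ^ 2 := by
    have : (√b * √a) ^ 2 < x ^ 2 := pow_lt_pow_left₀ hx' h0 two_ne_zero
    nlinarith
  rcases ha.eq_or_lt with h1 | h1
  · have h2 := h ((b + 1) / x) (by positivity)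
    rw [← h1, mul_zero, zero_add, div_div_eq_mul_div, le_div_iff₀ (by linarith)] at h2
    nlinarith
  · have h2 := h (x / a) (by positivity)
    rw [div_mul_cancel₀ _ h1.ne', div_div_eq_mul_div] at h2
    have h3 : x ≤ b * a / x := by linarith
    rw [le_div_iff₀ hxp] at h3
    nlinarith

theorem final_ang {θ₀ : ℝ} (h₀ : 0 < θ₀) (n : ℕ) : ∃ p : ℝ → ℝ, Ang p ∧
    (∀ θ, p θ ≤ 2 / Real.pi * Wn n θ) ∧
    ∀ θ ∈ Icc θ₀ (Real.pi / 2 - θ₀), p θ = 2 / Real.pi * Wn n θ := by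
  have hπ := Real.pi_pos
  let β : ℝ → ℝ := fun θ => max 0 (min 1 (min (2 * θ / θ₀ - 1) (2 * (Real.pi / 2 - θ) / θ₀ - 1)))
  have b0 : ∀ θ, 0 ≤ β θ := fun θ => le_max_left _ _
  have b1 : ∀ θ, β θ ≤ 1 := fun θ => max_le zero_le_one (min_le_left _ _)
  have w0 : ∀ θ, 0 ≤ 2 / Real.pi * Wn n θ := fun θ => mul_nonneg (by positivity) (Wn_mem n θ).1
  refine ⟨fun θ => 2 / Real.pi * Wn n θ * β θ, ⟨?_, fun θ => mul_nonneg (w0 θ) (b0 θ),
    θ₀ / 2, Real.pi / 2 - θ₀ / 2, by positivity, by linarith, fun θ hθ => ?_⟩,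
    fun θ => mul_le_of_le_one_right (w0 θ) (b1 θ), fun θ hθ => ?_⟩
  · have := continuous_Wn n
    fun_prop
  · have h1 : β θ ≠ 0 := right_ne_zero_of_mul hθ
    have h2 : 0 < min 1 (min (2 * θ / θ₀ - 1) (2 * (Real.pi / 2 - θ) / θ₀ - 1)) := by
      by_contra h
      exact h1 (max_eq_left (not_lt.1 h))
    have h3 := (lt_min_iff.1 (lt_min_iff.1 h2).2)
    have h4 : 1 < 2 * θ / θ₀ := by linarith [h3.1]
    have h5 : 1 < 2 * (Real.pi / 2 - θ) / θ₀ := by linarith [h3.2]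
    rw [lt_div_iff₀ h₀] at h4 h5
    exact ⟨by linarith, by linarith⟩
  · have h4 : 2 ≤ 2 * θ / θ₀ := by rw [le_div_iff₀ h₀]; linarith [hθ.1]
    have h5 : 2 ≤ 2 * (Real.pi / 2 - θ) / θ₀ := by rw [le_div_iff₀ h₀]; linarith [hθ.2]
    have : β θ = 1 := by
      simp only [β]
      rw [min_eq_left (le_min (by linarith) (by linarith)), max_eq_right zero_le_one]
    simp only [this, mul_one]

theorem final_lim {𝒰 : Ultrafilter ℕ} {t : ℕ → ℝ} {Φ : ℕ → ℤ → E → ℂ} (h1 : ∀ j, 1 ≤ t j)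
    (ht : Tendsto t 𝒰 atTop) (hS : ∀ j, Sys (t j) (Φ j)) {μ : Measure E} (hμ : Good μ)
    (hv : Vague 𝒰 (fun j => nu.withDensity (rhoE (t j) (Φ j))) μ) {φ : E → ℝ}
    (hφ : Test fun M => (φ M : ℂ)) (hr : ∀ θ : ℝ, ∀ M ∈ Gp, φ (rot θ M) = φ M) :
    Tendsto (fun j => ∫ M, φ M * ‖Φ j 0 M‖ ^ 2 ∂nu) 𝒰 (𝓝 (∫ M, φ M ∂μ)) := by
  have hc : ContinuousOn φ Gp := by
    have := Complex.continuous_re.comp_continuousOn hφ.cont
    simpa only [Function.comp_def, Complex.ofReal_re] using this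
  have a1 := vague_van (fun j => dens_conc _) hμ.sh hv hc hφ.van
  obtain ⟨C, hC⟩ := rho_mass hφ hr
  have a2 : Tendsto (fun j => (∫ M, φ M * rho (t j) (Φ j) M ∂nu) -
      ∫ M, φ M * ‖Φ j 0 M‖ ^ 2 ∂nu) 𝒰 (𝓝 0) :=
    squeeze_zero_norm (fun j => hC _ _ (h1 j) (hS j)) (lim_div ht C)
  have a3 := a1.sub a2
  rw [sub_zero] at a3
  refine a3.congr fun j => ?_
  rw [integral_rho (h1 j) (hS j)]
  ring

theorem final_cs {Ψ : E → ℝ} (hΨ : Wt Ψ) {g h : E → ℝ} (hg : ContinuousOn g Gp)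
    (hh : ContinuousOn h Gp) :
    ∫ M, Ψ M * (g M * h M) ∂nu ≤ √(∫ M, Ψ M * h M ^ 2 ∂nu) * √(∫ M, Ψ M * g M ^ 2 ∂nu) := by
  refine final_amgm (integral_nonneg fun M => mul_nonneg (hΨ.nn M) (sq_nonneg _))
    (integral_nonneg fun M => mul_nonneg (hΨ.nn M) (sq_nonneg _)) fun s hs => ?_
  have i1 : Integrable (fun M => Ψ M * (g M * h M)) nu := hΨ.integrable (hg.mul hh)
  have i2 : Integrable (fun M => Ψ M * g M ^ 2) nu := hΨ.integrable (hg.pow 2)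
  have i3 : Integrable (fun M => Ψ M * h M ^ 2) nu := hΨ.integrable (hh.pow 2)
  rw [← integral_const_mul, ← integral_const_mul, ← integral_div,
    ← integral_add (i2.const_mul s) (i3.div_const s)]
  refine integral_mono (i1.const_mul 2) ((i2.const_mul s).add (i3.div_const s)) fun M => ?_
  have e : s * (Ψ M * g M ^ 2) + Ψ M * h M ^ 2 / s - 2 * (Ψ M * (g M * h M)) =
      Ψ M * (s * g M - h M) ^ 2 / s := by
    field_simp
    ring
  have : 0 ≤ Ψ M * (s * g M - h M) ^ 2 / s := div_nonneg (mul_nonneg (hΨ.nn M) (sq_nonneg _)) hs.le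
  simp only
  linarith

theorem main4 {Ψ : E → ℝ} (hΨ : Wt Ψ) {ε : ℝ} (hε : 0 < ε) :
    ∃ T : ℝ, ∀ (t : ℝ) (Φ : ℤ → E → ℂ), T ≤ t → Sys t Φ → Re0 Φ →
      3 * (∫ M, Ψ M * ‖Φ 0 M‖ ^ 2 ∂nu) ^ 2 - ε ≤
        (∫ M, Ψ M ∂nu) * ∫ M, Ψ M * ‖Φ 0 M‖ ^ 4 ∂nu := by
  by_contra hcon
  push Not at hcon
  choose t Φ htj hS hR hlt using fun j : ℕ => hcon ((j : ℝ) + 1)
  have h1 : ∀ j, 1 ≤ t j := fun j => le_trans (by linarith [Nat.cast_nonneg (α := ℝ) j]) (htj j)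
  let 𝒰 : Ultrafilter ℕ := hyperfilter ℕ
  have hU : (𝒰 : Filter ℕ) ≤ atTop := Nat.hyperfilter_le_atTop
  have ht : Tendsto t 𝒰 atTop := by
    refine (tendsto_atTop_mono htj ?_).mono_left hU
    exact tendsto_atTop_add_const_right _ _ tendsto_natCast_atTop_atTop
  obtain ⟨μ, hμ, hw, hv⟩ := exists_limit4 𝒰 t Φ h1 ht hS hR
  set I₀ : ℝ := ∫ M, Ψ M ∂nu with hI₀
  set m : ℝ := ∫ M, Ψ M ∂μ with hm
  have hI2 : Tendsto (fun j => ∫ M, Ψ M * ‖Φ j 0 M‖ ^ 2 ∂nu) 𝒰 (𝓝 m) :=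
    final_lim h1 ht hS hμ hv hΨ.test fun θ M _ => hΨ.rotinv θ M
  have m0 : 0 ≤ m := integral_nonneg hΨ.nn
  have I0 : 0 ≤ I₀ := integral_nonneg hΨ.nn
  have A0 : ∀ j, 0 ≤ ∫ M, Ψ M * ‖Φ j 0 M‖ ^ 4 ∂nu := fun j =>
    integral_nonneg fun M => mul_nonneg (hΨ.nn M) (by positivity)
  have nc : ∀ j, ContinuousOn (fun M => ‖Φ j 0 M‖ ^ 2) Gp := fun j => ((hS j).cont 0).norm.pow 2
  have hI₀pos : 0 < I₀ := by
    refine I0.lt_of_ne fun h0 => ?_
    have a1 := final_cs hΨ (g := fun _ => 1) continuousOn_const (nc 0)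
    simp only [one_mul, one_pow, mul_one] at a1
    rw [← hI₀, ← h0, Real.sqrt_zero, mul_zero] at a1
    have a2 : 0 ≤ ∫ M, Ψ M * ‖Φ 0 0 M‖ ^ 2 ∂nu :=
      integral_nonneg fun M => mul_nonneg (hΨ.nn M) (by positivity)
    have a3 := hlt 0
    rw [← h0, le_antisymm a1 a2] at a3
    linarith
  -- eventually bounded fourth moments
  have hA : ∀ᶠ j in (𝒰 : Filter ℕ), ∫ M, Ψ M * ‖Φ j 0 M‖ ^ 4 ∂nu ≤ 3 * (m + 1) ^ 2 / I₀ := by
    filter_upwards [hI2.eventually (gt_mem_nhds (lt_add_one m))] with j hj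
    have a2 : 0 ≤ ∫ M, Ψ M * ‖Φ j 0 M‖ ^ 2 ∂nu :=
      integral_nonneg fun M => mul_nonneg (hΨ.nn M) (by positivity)
    have a3 := pow_le_pow_left₀ a2 hj.le 2
    rw [le_div_iff₀ hI₀pos]
    nlinarith [hlt j]
  obtain ⟨ρ, hρ, hρ2⟩ := exists_dens hμ hΨ (A := √(3 * (m + 1) ^ 2 / I₀)) fun φ hs _ => by
    have s1 : ContDiffOn ℝ (⊤ : ℕ∞) (fun M => φ (pr M)) Gp := hs.comp_contDiffOn contDiffOn_pr
    have hT : Test fun M => ((Ψ M * φ (pr M) : ℝ) : ℂ) := by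
      refine ⟨Complex.ofRealCLM.contDiff.comp_contDiffOn (hΨ.smooth.mul s1), ?_⟩
      have := hΨ.test.van.mul fun M => ((φ (pr M) : ℝ) : ℂ)
      simpa only [Complex.ofReal_mul] using this
    have a1 := final_lim h1 ht hS hμ hv hT fun θ M _ => by rw [hΨ.rotinv, pr_rot]
    refine le_of_tendsto a1 (hA.mono fun j hj => ?_)
    have a2 := final_cs hΨ s1.continuousOn (nc j)
    simp only [← pow_mul, ← mul_assoc] at a2
    refine a2.trans (mul_le_mul_of_nonneg_right (Real.sqrt_le_sqrt hj) (Real.sqrt_nonneg _))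
  have hT := thin_of hμ hΨ hρ hρ2
  set κ : ℝ := m / I₀ with hκ
  have κ0 : 0 ≤ κ := div_nonneg m0 I0
  have hκI : κ * I₀ = m := div_mul_cancel₀ _ hI₀pos.ne'
  set ε₁ : ℝ := ε / (16 * I₀) with hε₁
  have ε₁0 : 0 < ε₁ := by positivity
  have hε₁I : ε₁ * I₀ = ε / 16 := by rw [hε₁]; field_simp
  set δ : ℝ := min 1 (ε / (8 * (m ^ 2 + 1))) with hδ
  have δ0 : 0 < δ := lt_min one_pos (by positivity)
  have δ1 : δ ≤ 1 := min_le_left _ _
  have δ2 : δ * m ^ 2 ≤ ε / 8 := by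
    have a1 : δ ≤ ε / (8 * (m ^ 2 + 1)) := min_le_right _ _
    rw [le_div_iff₀ (by positivity)] at a1
    nlinarith
  obtain ⟨θ₀, hθ₀, -, η₁, hη₁, hcross⟩ := cross_lower hμ hw hΨ hT κ0 ε₁0
  obtain ⟨n, hn⟩ := Wn_large δ0 hθ₀
  obtain ⟨p, hp, hp1, hp2⟩ := final_ang hθ₀ n
  obtain ⟨η₂, hη₂, hfin⟩ := fin_lower hΨ hp (ε := ENNReal.ofReal ε₁) (by simpa using ε₁0)
  obtain ⟨w, hw'⟩ := exists_tim (η := min 1 (min η₁ η₂)) (lt_min one_pos (lt_min hη₁ hη₂))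
  obtain ⟨k, kc, ks, k0, hk⟩ := exists_kernel hΨ hp (hw'.mono (min_le_left _ _))
  have hπ := Real.pi_pos
  have c1 := hcross (1 - δ) p w k (by linarith) (by linarith) hp
    (fun θ hθ => by
      rw [hp2 θ hθ, mul_comm]
      exact mul_le_mul_of_nonneg_left (hn θ hθ) (by positivity))
    (hw'.mono ((min_le_right _ _).trans (min_le_left _ _))) kc ks k0 hk
  have c2 := vagueH_tensor (fun j => rho_fin (h1 j) (hS j)) hμ.fin (fun j => dens_conc _) hμ.sh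
    (vagueH_of (fun j => dens_conc _) hμ.sh hv) kc ks
  obtain ⟨C, hC⟩ := bessel hΨ n κ
  set Kinf : ℝ := ∫ P, k (nrm P.1, nrm P.2) ∂(μ.prod μ) with hKinf
  have c3 : ∀ j, I₀ * (2 * κ * (∫ M, Ψ M * ‖Φ j 0 M‖ ^ 2 ∂nu) - κ ^ 2 * I₀ +
      2 * ((∫ P, k (nrm P.1, nrm P.2) ∂((nu.withDensity (rhoE (t j) (Φ j))).prod
        (nu.withDensity (rhoE (t j) (Φ j))))) - ε₁) - C / √(t j)) ≤
      3 * (∫ M, Ψ M * ‖Φ j 0 M‖ ^ 2 ∂nu) ^ 2 - ε := by
    intro j
    have a1 := hC (t j) (Φ j) (h1 j) (hS j) (hR j)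
    have a2 := integral_kernel (rho_fin (h1 j) (hS j)) (dens_conc _) kc ks k0
    rw [hk _ (rhoE_hom (h1 j) (hS j))] at a2
    have a3 := hfin w (hw'.mono ((min_le_right _ _).trans (min_le_right _ _))) (t j) (Φ j)
      (h1 j) (hS j)
    have a4 := jconv hΨ hp n (fun θ _ => hp1 θ) (h1 j) (hS j) (hR j)
    have a5 : 0 ≤ 1 / Real.pi * ∫ θ in Ioo (-(Real.pi / 2)) (Real.pi / 2),
        Wn n θ * ∫ M, Ψ M * (rho (t j) (Φ j) M * rho (t j) (Φ j) (rot θ M)) ∂nu :=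
      mul_nonneg (by positivity) (integral_nonneg fun θ => mul_nonneg (Wn_mem n θ).1
        (integral_nonneg fun M => mul_nonneg (hΨ.nn M)
          (mul_nonneg (rho_nonneg _ _ _) (rho_nonneg _ _ _))))
    have a6 := a2.le.trans (a3.trans (add_le_add_left a4 _))
    rw [← ENNReal.ofReal_add a5 ε₁0.le, ENNReal.ofReal_le_ofReal_iff (by positivity)] at a6
    refine le_trans (mul_le_mul_of_nonneg_left ?_ I0) (hlt j).le
    linarith
  have c4 : I₀ * (2 * κ * m - κ ^ 2 * I₀ + 2 * (Kinf - ε₁) - 0) ≤ 3 * m ^ 2 - ε :=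
    le_of_tendsto_of_tendsto'
      (((((hI2.const_mul _).sub_const _).add ((c2.sub_const _).const_mul _)).sub
        (lim_div ht C)).const_mul _)
      (((hI2.pow 2).const_mul _).sub_const _) c3
  have e1 : I₀ * (2 * κ * m - κ ^ 2 * I₀) = m ^ 2 := by rw [← hκI]; ring
  have e2 := mul_le_mul_of_nonneg_left c1 I0
  have e3 : I₀ * ((1 - δ) * (2 * κ * m - κ ^ 2 * I₀ - ε₁)) = (1 - δ) * (m ^ 2 - ε / 16) := by
    rw [← e1, ← hε₁I]; ring
  have e4 : 0 ≤ δ * ε := by positivity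
  nlinarith

end Pool.Agent.MP_a28cf0_nt.Four
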