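import Pool.Agent.MP_a28cf0_nt.Mg.Cub_Inv
import Pool.Agent.MP_a28cf0_nt.Cub.Seq
import Pool.Agent.MP_a28cf0_nt.Mg.Cub_Construct

-- part MP_a28cf0_nt.Cub.Avg
section

set_option autoImplicit false

namespace Pool.Agent.MP_a28cf0_nt.Cub

open MeasureTheory Complex Filter Topology Set
open scoped ENNReal MatrixGroups

theorem avg_lam {K t : ℝ} {m : ℤ} (ht : 1 ≤ t) (h : |(m : ℝ) + 1 / 2| ≤ (K + 1) * √t) :
    ‖((lam t m : ℝ) : ℂ) - t‖ ≤ (K + 1) ^ 2 := by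
  have h0 : 0 < t := by linarith
  have h1 := lam_sub_le h0 m
  have h2 := le_lam t m
  have h3 : ((m : ℝ) + 1 / 2) ^ 2 ≤ (K + 1) ^ 2 * t := by
    have := sq_le_sq' (abs_le.1 h).1 (abs_le.1 h).2
    rwa [mul_pow, Real.sq_sqrt h0.le] at this
  rw [← Complex.ofReal_sub, Complex.norm_real, Real.norm_eq_abs, abs_of_nonneg (by linarith)]
  refine h1.trans ?_
  rw [div_le_iff₀ (by linarith)]
  nlinarith [sq_nonneg (K + 1)]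

theorem avg_ibp (D : (E → ℂ) → E → ℂ)
    (hmul : ∀ (g h : E → ℂ) (M : E), DifferentiableAt ℝ g M → DifferentiableAt ℝ h M →
      D (fun N => g N * h N) M = D g M * h M + g M * D h M)
    (hibp : ∀ h : E → ℂ, ContDiffOn ℝ 1 h Gp → Van h → ∫ M, D h M ∂nu = 0)
    {Ψ : E → ℂ} (hΨ : Test Ψ) (hD : Test (D Ψ)) {f₁ f₂ f₃ g₁ g₂ g₃ : E → ℂ}
    (s₁ : ContDiffOn ℝ 1 f₁ Gp) (s₂ : ContDiffOn ℝ 1 f₂ Gp) (s₃ : ContDiffOn ℝ 1 f₃ Gp)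
    (c₁ : ContinuousOn g₁ Gp) (c₂ : ContinuousOn g₂ Gp) (c₃ : ContinuousOn g₃ Gp)
    {l₁ l₂ l₃ : ℂ} (d₁ : ∀ M ∈ Gp, D f₁ M = I * l₁ * g₁ M)
    (d₂ : ∀ M ∈ Gp, D f₂ M = I * l₂ * g₂ M) (d₃ : ∀ M ∈ Gp, D f₃ M = I * l₃ * g₃ M) :
    ‖l₁ * ∫ M, Ψ M * (g₁ M * f₂ M * f₃ M) ∂nu + l₂ * ∫ M, Ψ M * (f₁ M * g₂ M * f₃ M) ∂nu +
      l₃ * ∫ M, Ψ M * (f₁ M * f₂ M * g₃ M) ∂nu‖ =
      ‖∫ M, D Ψ M * (f₁ M * f₂ M * f₃ M) ∂nu‖ := by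
  have k₁ := s₁.continuousOn
  have k₂ := s₂.continuousOn
  have k₃ := s₃.continuousOn
  have hs : ContDiffOn ℝ 1 (fun M => Ψ M * (f₁ M * f₂ M * f₃ M)) Gp :=
    (hΨ.smooth.of_le (by exact_mod_cast le_top)).mul ((s₁.mul s₂).mul s₃)
  have h0 := hibp _ hs (hΨ.van.mul _)
  have i0 : Integrable (fun M => D Ψ M * (f₁ M * f₂ M * f₃ M)) nu :=
    (hD.van.mul _).integrable (hD.cont.mul ((k₁.mul k₂).mul k₃))
  have i1 : Integrable (fun M => Ψ M * (g₁ M * f₂ M * f₃ M)) nu :=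
    (hΨ.van.mul _).integrable (hΨ.cont.mul ((c₁.mul k₂).mul k₃))
  have i2 : Integrable (fun M => Ψ M * (f₁ M * g₂ M * f₃ M)) nu :=
    (hΨ.van.mul _).integrable (hΨ.cont.mul ((k₁.mul c₂).mul k₃))
  have i3 : Integrable (fun M => Ψ M * (f₁ M * f₂ M * g₃ M)) nu :=
    (hΨ.van.mul _).integrable (hΨ.cont.mul ((k₁.mul k₂).mul c₃))
  have hae : (fun M => D (fun M => Ψ M * (f₁ M * f₂ M * f₃ M)) M) =ᵐ[nu] fun M =>
      D Ψ M * (f₁ M * f₂ M * f₃ M) + (I * l₁ * (Ψ M * (g₁ M * f₂ M * f₃ M)) +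
        I * l₂ * (Ψ M * (f₁ M * g₂ M * f₃ M)) + I * l₃ * (Ψ M * (f₁ M * f₂ M * g₃ M))) := by
    filter_upwards [ae_mem_Sh] with M hM
    have hG := Sh_subset hM
    have n := isOpen_Gp.mem_nhds hG
    have e₁ : DifferentiableAt ℝ f₁ M := (s₁.contDiffAt n).differentiableAt (by simp)
    have e₂ : DifferentiableAt ℝ f₂ M := (s₂.contDiffAt n).differentiableAt (by simp)
    have e₃ : DifferentiableAt ℝ f₃ M := (s₃.contDiffAt n).differentiableAt (by simp)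
    rw [hmul Ψ (fun M => f₁ M * f₂ M * f₃ M) M (hΨ.diffAt hG) ((e₁.mul e₂).mul e₃),
      hmul (fun M => f₁ M * f₂ M) f₃ M (e₁.mul e₂) e₃, hmul f₁ f₂ M e₁ e₂,
      d₁ M hG, d₂ M hG, d₃ M hG]
    ring
  have j1 : Integrable (fun M => I * l₁ * (Ψ M * (g₁ M * f₂ M * f₃ M))) nu := i1.const_mul _
  have j2 : Integrable (fun M => I * l₂ * (Ψ M * (f₁ M * g₂ M * f₃ M))) nu := i2.const_mul _
  have j3 : Integrable (fun M => I * l₃ * (Ψ M * (f₁ M * f₂ M * g₃ M))) nu := i3.const_mul _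
  have j4 : Integrable (fun M => I * l₁ * (Ψ M * (g₁ M * f₂ M * f₃ M)) +
    I * l₂ * (Ψ M * (f₁ M * g₂ M * f₃ M))) nu := j1.add j2
  have j5 : Integrable (fun M => I * l₁ * (Ψ M * (g₁ M * f₂ M * f₃ M)) +
    I * l₂ * (Ψ M * (f₁ M * g₂ M * f₃ M)) + I * l₃ * (Ψ M * (f₁ M * f₂ M * g₃ M))) nu := j4.add j3
  rw [integral_congr_ae hae, integral_add i0 j5, integral_add j4 j3, integral_add j1 j2,
    integral_const_mul, integral_const_mul, integral_const_mul] at h0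
  have : (∫ M, D Ψ M * (f₁ M * f₂ M * f₃ M) ∂nu) = (-I) *
      (l₁ * ∫ M, Ψ M * (g₁ M * f₂ M * f₃ M) ∂nu + l₂ * ∫ M, Ψ M * (f₁ M * g₂ M * f₃ M) ∂nu +
      l₃ * ∫ M, Ψ M * (f₁ M * f₂ M * g₃ M) ∂nu) := by
    linear_combination h0
  rw [this, norm_mul, norm_neg, Complex.norm_I, one_mul]

theorem avg_tri {l₁ l₂ l₃ t₁ t₂ t₃ x₁ x₂ x₃ : ℂ} {A B : ℝ}
    (h : ‖l₁ * x₁ + l₂ * x₂ + l₃ * x₃‖ ≤ A) (h₁ : ‖l₁ - t₁‖ ≤ B) (h₂ : ‖l₂ - t₂‖ ≤ B)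
    (h₃ : ‖l₃ - t₃‖ ≤ B) (y₁ : ‖x₁‖ ≤ A) (y₂ : ‖x₂‖ ≤ A) (y₃ : ‖x₃‖ ≤ A) :
    ‖t₁ * x₁ + t₂ * x₂ + t₃ * x₃‖ ≤ (1 + 3 * B) * A := by
  have hB : 0 ≤ B := (norm_nonneg _).trans h₁
  have e : t₁ * x₁ + t₂ * x₂ + t₃ * x₃ = (l₁ * x₁ + l₂ * x₂ + l₃ * x₃) -
      ((l₁ - t₁) * x₁ + (l₂ - t₂) * x₂ + (l₃ - t₃) * x₃) := by ring
  have p₁ : ‖(l₁ - t₁) * x₁‖ ≤ B * A := by
    rw [norm_mul]; exact mul_le_mul h₁ y₁ (norm_nonneg _) hB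
  have p₂ : ‖(l₂ - t₂) * x₂‖ ≤ B * A := by
    rw [norm_mul]; exact mul_le_mul h₂ y₂ (norm_nonneg _) hB
  have p₃ : ‖(l₃ - t₃) * x₃‖ ≤ B * A := by
    rw [norm_mul]; exact mul_le_mul h₃ y₃ (norm_nonneg _) hB
  rw [e]
  refine (norm_sub_le _ _).trans ?_
  have := norm_add₃_le (a := (l₁ - t₁) * x₁) (b := (l₂ - t₂) * x₂) (c := (l₃ - t₃) * x₃)
  linarith

theorem avg_box {K t x d : ℝ} (ht : 1 ≤ t) (h : |x| ≤ K * √t) (hd : |d| ≤ 1) :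
    |x + d| ≤ (K + 1) * √t := by
  have h1 : 1 ≤ √t := Real.one_le_sqrt.2 ht
  have := abs_add_le x d
  nlinarith

/-- integration by parts gives the approximate recurrences -/
theorem rec_tau (K : ℝ) : ∃ C : ℝ, 0 ≤ C ∧ ∀ (Ψ : E → ℂ) (A t₁ t₂ t₃ : ℝ)
    (Φ₁ Φ₂ Φ₃ : ℤ → E → ℂ), Test Ψ → 1 ≤ t₁ → 1 ≤ t₂ → 1 ≤ t₃ →
    Sys t₁ Φ₁ → Sys t₂ Φ₂ → Sys t₃ Φ₃ →
    (∀ a b c : ℤ, Adm (K + 1) t₁ t₂ t₃ a b c → ‖tau Ψ Φ₁ Φ₂ Φ₃ a b c‖ ≤ A ∧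
      ‖tau (Ra Ψ) Φ₁ Φ₂ Φ₃ a b c‖ ≤ A ∧ ‖tau (Lo Ψ) Φ₁ Φ₂ Φ₃ a b c‖ ≤ A) →
    Rec K (C * A) t₁ t₂ t₃ (tau Ψ Φ₁ Φ₂ Φ₃) := by
  refine ⟨1 + 3 * (K + 1) ^ 2, by positivity, ?_⟩
  intro Ψ A t₁ t₂ t₃ Φ₁ Φ₂ Φ₃ hΨ ht₁ ht₂ ht₃ h₁ h₂ h₃ hA
  have z : ∀ {t : ℝ} {m : ℤ}, 1 ≤ t → |(m : ℝ)| ≤ K * √t → |(m : ℝ)| ≤ (K + 1) * √t := by
    intro t m ht h
    simpa using avg_box (d := 0) ht h (by simp)
  have p : ∀ {t : ℝ} {m : ℤ}, 1 ≤ t → |(m : ℝ)| ≤ K * √t →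
      |((m + 1 : ℤ) : ℝ)| ≤ (K + 1) * √t := by
    intro t m ht h
    simpa using avg_box (d := 1) ht h (by simp)
  have q : ∀ {t : ℝ} {m : ℤ}, 1 ≤ t → |(m : ℝ)| ≤ K * √t →
      |((m - 1 : ℤ) : ℝ)| ≤ (K + 1) * √t := by
    intro t m ht h
    simpa [sub_eq_add_neg] using avg_box (d := -1) ht h (by simp)
  have u : ∀ {t : ℝ} {m : ℤ}, 1 ≤ t → |(m : ℝ)| ≤ K * √t →
      ‖((lam t m : ℝ) : ℂ) - t‖ ≤ (K + 1) ^ 2 := by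
    intro t m ht h
    exact avg_lam ht (avg_box ht h (by rw [abs_of_pos (by norm_num)]; norm_num))
  have v : ∀ {t : ℝ} {m : ℤ}, 1 ≤ t → |(m : ℝ)| ≤ K * √t →
      ‖((lam t (m - 1) : ℝ) : ℂ) - t‖ ≤ (K + 1) ^ 2 := by
    intro t m ht h
    refine avg_lam ht ?_
    have := avg_box (d := -(1 / 2)) ht h (by rw [abs_neg, abs_of_pos (by norm_num)]; norm_num)
    have e : ((m - 1 : ℤ) : ℝ) + 1 / 2 = (m : ℝ) + -(1 / 2) := by push_cast; ring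
    rwa [e]
  refine ⟨?_, ?_, ?_⟩
  · rintro a b c ⟨ha, hb, hc⟩
    have := (hA a b c ⟨z ht₁ ha, z ht₂ hb, z ht₃ hc⟩).1
    have hA0 : 0 ≤ A := (norm_nonneg _).trans this
    nlinarith [sq_nonneg (K + 1)]
  · rintro a b c ⟨ha, hb, hc⟩
    refine avg_tri (l₁ := (lam t₁ a : ℝ)) (l₂ := (lam t₂ b : ℝ)) (l₃ := (lam t₃ c : ℝ)) ?_
      (u ht₁ ha) (u ht₂ hb) (u ht₃ hc) (hA _ _ _ ⟨p ht₁ ha, z ht₂ hb, z ht₃ hc⟩).1
      (hA _ _ _ ⟨z ht₁ ha, p ht₂ hb, z ht₃ hc⟩).1 (hA _ _ _ ⟨z ht₁ ha, z ht₂ hb, p ht₃ hc⟩).1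
    have := avg_ibp Ra (fun g h M hg hh => Ra_mul hg hh) (fun h hc hv => ibp_Ra hc hv) hΨ hΨ.ra
      (h₁.smooth a) (h₂.smooth b) (h₃.smooth c) (h₁.cont (a + 1)) (h₂.cont (b + 1))
      (h₃.cont (c + 1)) (h₁.ra a) (h₂.ra b) (h₃.ra c)
    unfold tau
    rw [this]
    exact (hA a b c ⟨z ht₁ ha, z ht₂ hb, z ht₃ hc⟩).2.1
  · rintro a b c ⟨ha, hb, hc⟩
    refine avg_tri (l₁ := (lam t₁ (a - 1) : ℝ)) (l₂ := (lam t₂ (b - 1) : ℝ))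
      (l₃ := (lam t₃ (c - 1) : ℝ)) ?_
      (v ht₁ ha) (v ht₂ hb) (v ht₃ hc) (hA _ _ _ ⟨q ht₁ ha, z ht₂ hb, z ht₃ hc⟩).1
      (hA _ _ _ ⟨z ht₁ ha, q ht₂ hb, z ht₃ hc⟩).1 (hA _ _ _ ⟨z ht₁ ha, z ht₂ hb, q ht₃ hc⟩).1
    have := avg_ibp Lo (fun g h M hg hh => Lo_mul hg hh) (fun h hc hv => ibp_Lo hc hv) hΨ hΨ.lo
      (h₁.smooth a) (h₂.smooth b) (h₃.smooth c) (h₁.cont (a - 1)) (h₂.cont (b - 1))
      (h₃.cont (c - 1)) (h₁.lo a) (h₂.lo b) (h₃.lo c)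
    unfold tau
    rw [this]
    exact (hA a b c ⟨z ht₁ ha, z ht₂ hb, z ht₃ hc⟩).2.2

theorem avg_bessel (T : Finset ℤ) (Y : ℤ → E → ℂ) (hc : ∀ n, ContinuousOn (Y n) Gp)
    (hY : ∀ (n : ℤ) (θ : ℝ) (M : E), Y n (rot θ M) = Complex.exp (2 * n * θ * I) * Y n M)
    (hz : ∀ k, k ∉ T → ∀ M, Y k M = 0) (j : ℕ → ℤ) (hj : Function.Injective j) (n : ℕ)
    {Q : Set E} (hQ : IsCompact Q) (hs : Q ⊆ Sh) (hr : ∀ θ M, rot θ M ∈ Q ↔ M ∈ Q) :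
    ∑ b ∈ Finset.range n, ∫ M in Q, ‖Y (j b) M‖ ^ 2 ∂nu ≤
      ∫ M in Q, ‖∑ k ∈ T, Y k M‖ ^ 2 ∂nu := by
  classical
  have h1 := orth_set (T ∪ (Finset.range n).image j) Y (fun k _ => hc k) (fun k _ => hY k) hQ hs hr
  have h2 : ∀ M, ∑ k ∈ T ∪ (Finset.range n).image j, Y k M = ∑ k ∈ T, Y k M := fun M =>
    (Finset.sum_subset Finset.subset_union_left fun k _ hk => hz k hk M).symm
  simp only [h2] at h1
  rw [h1, ← Finset.sum_image (f := fun k => ∫ M in Q, ‖Y k M‖ ^ 2 ∂nu) (s := Finset.range n)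
    (g := j) (fun x _ y _ h => hj h)]
  exact Finset.sum_le_sum_of_subset_of_nonneg Finset.subset_union_right
    fun k _ _ => integral_nonneg fun M => by positivity

theorem avg_cs (n : ℕ) (u v : ℕ → E → ℂ) (hu : ∀ b, ContinuousOn (u b) Gp)
    (hv : ∀ b, ContinuousOn (v b) Gp) {Q : Set E} (hQ : IsCompact Q) (hs : Q ⊆ Sh) {P R : ℝ}
    (hP : ∑ b ∈ Finset.range n, ∫ M in Q, ‖u b M‖ ^ 2 ∂nu ≤ P)
    (hR : ∑ b ∈ Finset.range n, ∫ M in Q, ‖v b M‖ ^ 2 ∂nu ≤ R) :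
    ∑ b ∈ Finset.range n, ∫ M in Q, ‖u b M * v b M‖ ∂nu ≤ √P * √R := by
  set s := ∑ b ∈ Finset.range n, ∫ M in Q, ‖u b M * v b M‖ ∂nu with hsd
  have hP0 : 0 ≤ P := le_trans (Finset.sum_nonneg fun b _ =>
    integral_nonneg fun M => by positivity) hP
  have key : ∀ x : ℝ, 0 ≤ P * (x * x) + (-2 * s) * x + R := by
    intro x
    have hb : ∀ b, 2 * x * ∫ M in Q, ‖u b M * v b M‖ ∂nu ≤
        x * x * ∫ M in Q, ‖u b M‖ ^ 2 ∂nu + ∫ M in Q, ‖v b M‖ ^ 2 ∂nu := by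
      intro b
      have i1 : IntegrableOn (fun M => ‖u b M * v b M‖) Q nu :=
        integrableOn_of_cont ((hu b).mul (hv b)).norm hQ hs
      have i2 : IntegrableOn (fun M => ‖u b M‖ ^ 2) Q nu :=
        integrableOn_of_cont ((hu b).norm.pow 2) hQ hs
      have i3 : IntegrableOn (fun M => ‖v b M‖ ^ 2) Q nu :=
        integrableOn_of_cont ((hv b).norm.pow 2) hQ hs
      rw [← integral_const_mul, ← integral_const_mul, ← integral_add (i2.const_mul _) i3]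
      refine integral_mono (i1.const_mul _) ((i2.const_mul _).add i3) fun M => ?_
      simp only [norm_mul]
      nlinarith [sq_nonneg (x * ‖u b M‖ - ‖v b M‖)]
    have h1 := Finset.sum_le_sum fun b (_ : b ∈ Finset.range n) => hb b
    rw [← Finset.mul_sum, Finset.sum_add_distrib, ← Finset.mul_sum, ← hsd] at h1
    have := mul_le_mul_of_nonneg_left hP (mul_self_nonneg x)
    nlinarith
  have hd := discrim_le_zero key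
  rw [discrim] at hd
  rw [← Real.sqrt_mul hP0]
  exact Real.le_sqrt_of_sq_le (by nlinarith)

theorem avg_split {Ψ G : E → ℂ} (hG : ContinuousOn G Gp) {A₀ : ℝ} {Qa Qb : Set E}
    (ca : IsCompact Qa) (cb : IsCompact Qb) (sa : Qa ⊆ Sh) (sb : Qb ⊆ Sh)
    (hA₀ : 0 ≤ A₀) (hA : ∀ M ∈ Sh, ‖Ψ M‖ ≤ A₀) (hz : ∀ M ∈ Sh, M ∉ Qa → M ∉ Qb → Ψ M = 0) :
    ‖∫ M, Ψ M * G M ∂nu‖ ≤ A₀ * (∫ M in Qa, ‖G M‖ ∂nu + ∫ M in Qb, ‖G M‖ ∂nu) := by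
  have ma := ca.isClosed.measurableSet
  have mb := cb.isClosed.measurableSet
  have ia : Integrable (Qa.indicator fun M => ‖G M‖) nu :=
    (integrable_indicator_iff ma).2 (integrableOn_of_cont hG.norm ca sa)
  have ib : Integrable (Qb.indicator fun M => ‖G M‖) nu :=
    (integrable_indicator_iff mb).2 (integrableOn_of_cont hG.norm cb sb)
  rw [← integral_indicator ma, ← integral_indicator mb, ← integral_add ia ib,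
    ← integral_const_mul]
  refine norm_integral_le_of_norm_le ((ia.add ib).const_mul _) ?_
  filter_upwards [ae_mem_Sh] with M hM
  have h1 : 0 ≤ Qa.indicator (fun M => ‖G M‖) M := indicator_nonneg (fun _ _ => norm_nonneg _) M
  have h2 : 0 ≤ Qb.indicator (fun M => ‖G M‖) M := indicator_nonneg (fun _ _ => norm_nonneg _) M
  have h3 : ‖Ψ M * G M‖ ≤ A₀ * ‖G M‖ := by
    rw [norm_mul]; exact mul_le_mul_of_nonneg_right (hA M hM) (norm_nonneg _)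
  by_cases ha : M ∈ Qa
  · rw [indicator_of_mem ha]
    nlinarith
  · by_cases hb : M ∈ Qb
    · rw [indicator_of_mem hb]
      nlinarith
    · rw [hz M hM ha hb, zero_mul, norm_zero]
      positivity

theorem avg_supp {K N : ℝ} {c : ℤ → ℝ} (k : Coef K N c) :
    ∃ S : Finset ℤ, ∀ m, m ∉ S → c m = 0 := by
  refine ⟨Finset.Icc (-⌈K * N⌉) ⌈K * N⌉, fun m hm => k.supp m ?_⟩
  rw [Finset.mem_Icc, ← abs_le, not_le] at hm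
  have h1 : ((⌈K * N⌉ : ℤ) : ℝ) < ((|m| : ℤ) : ℝ) := by exact_mod_cast hm
  rw [Int.cast_abs] at h1
  exact (Int.le_ceil _).trans h1.le

theorem avg_pk {c : ℤ → ℝ} {S : Finset ℤ} (Φ : ℤ → E → ℂ) (a : ℤ)
    (hS : ∀ m, m ∉ S → c (m - a) = 0) (M : E) :
    ∑ m ∈ S, (c (m - a) : ℂ) * Φ (m - a) M = pk c Φ M := by
  unfold pk
  rw [← (Equiv.subRight a).tsum_eq]
  refine (tsum_eq_sum fun m hm => ?_).symm
  simp [hS m hm]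

/-- Cauchy-Schwarz and orthogonality -/
theorem avg_bound {t₁ t₂ t₃ : ℝ} {Φ₁ Φ₂ Φ₃ : ℤ → E → ℂ} (h₁ : Sys t₁ Φ₁) (h₂ : Sys t₂ Φ₂)
    (h₃ : Sys t₃ Φ₃) {Ψ : E → ℂ} (hΨ : Test Ψ) {A₀ : ℝ} {Qa Qb : Set E}
    (ca : IsCompact Qa) (cb : IsCompact Qb) (sa : Qa ⊆ Sh) (sb : Qb ⊆ Sh)
    (ra : ∀ θ M, rot θ M ∈ Qa ↔ M ∈ Qa) (rb : ∀ θ M, rot θ M ∈ Qb ↔ M ∈ Qb)
    (hA₀ : 0 ≤ A₀) (hA : ∀ M ∈ Sh, ‖Ψ M‖ ≤ A₀) (hz : ∀ M ∈ Sh, M ∉ Qa → M ∉ Qb → Ψ M = 0)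
    {K₁ K₂ K₃ N₁ N₂ N₃ : ℝ} {c₁ c₂ c₃ : ℤ → ℝ} (k₁ : Coef K₁ N₁ c₁) (k₂ : Coef K₂ N₂ c₂)
    (k₃ : Coef K₃ N₃ c₃) (β : ℝ) {e : ℂ} (he : ‖e‖ = 1) (n : ℕ) (m₂ σ : ℤ)
    (e₂ : ∀ b : ℕ, b < n → c₂ (m₂ + b) = 1)
    (e₃ : ∀ a : ℤ, c₁ a ≠ 0 → ∀ b : ℕ, b < n → c₃ (σ - a - b) = 1) :
    ‖avg (tau Ψ Φ₁ Φ₂ Φ₃) c₁ β e n m₂ σ‖ ≤ A₀ *
      (√(∫ M in Qa, ‖pk c₂ Φ₂ M‖ ^ 2 ∂nu) *
        √(∫ M in Qa, ‖pk c₁ Φ₁ (rot β M)‖ ^ 2 * ‖pk c₃ Φ₃ M‖ ^ 2 ∂nu) +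
      √(∫ M in Qb, ‖pk c₂ Φ₂ M‖ ^ 2 ∂nu) *
        √(∫ M in Qb, ‖pk c₁ Φ₁ (rot β M)‖ ^ 2 * ‖pk c₃ Φ₃ M‖ ^ 2 ∂nu)) := by
  classical
  obtain ⟨S₁, hS₁⟩ := avg_supp k₁
  obtain ⟨S₂, hS₂⟩ := avg_supp k₂
  obtain ⟨S₃, hS₃⟩ := avg_supp k₃
  set w : ℤ → ℂ := fun a => (c₁ a : ℂ) * Complex.exp (2 * a * β * I) with hw
  set Z : ℤ → E → ℂ := fun m M => (c₂ m : ℂ) * Φ₂ m M with hZ
  set Y : ℤ → E → ℂ := fun k M =>
    ∑ a ∈ S₁, w a * Φ₁ a M * ((c₃ (k - a) : ℂ) * Φ₃ (k - a) M) with hY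
  set T : Finset ℤ := (S₁ ×ˢ S₃).image fun p => p.1 + p.2 with hT
  have hT3 : ∀ a ∈ S₁, ∀ k, k ∉ T → c₃ (k - a) = 0 := by
    intro a ha k hk
    by_contra hne
    have : k - a ∈ S₃ := by
      by_contra h'
      exact hne (hS₃ _ h')
    exact hk (Finset.mem_image.2 ⟨(a, k - a), Finset.mem_product.2 ⟨ha, this⟩, by simp⟩)
  have cZ : ∀ m, ContinuousOn (Z m) Gp := fun m => continuousOn_const.mul (h₂.cont m)
  have cY : ∀ k, ContinuousOn (Y k) Gp := fun k =>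
    continuousOn_finsetSum _ fun a _ =>
      (continuousOn_const.mul (h₁.cont a)).mul (continuousOn_const.mul (h₃.cont _))
  have wZ : ∀ (m : ℤ) (θ : ℝ) (M : E), Z m (rot θ M) = Complex.exp (2 * m * θ * I) * Z m M := by
    intro m θ M
    simp only [hZ, h₂.wt]
    ring
  have wY : ∀ (k : ℤ) (θ : ℝ) (M : E), Y k (rot θ M) = Complex.exp (2 * k * θ * I) * Y k M := by
    intro k θ M
    simp only [hY, h₁.wt, h₃.wt, Finset.mul_sum]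
    refine Finset.sum_congr rfl fun a _ => ?_
    have : Complex.exp (2 * k * θ * I) =
        Complex.exp (2 * a * θ * I) * Complex.exp (2 * ((k - a : ℤ) : ℂ) * θ * I) := by
      rw [← Complex.exp_add]
      congr 1
      push_cast
      ring
    rw [this]
    ring
  have zZ : ∀ m, m ∉ S₂ → ∀ M, Z m M = 0 := by
    intro m hm M
    simp [hZ, hS₂ m hm]
  have zY : ∀ k, k ∉ T → ∀ M, Y k M = 0 := by
    intro k hk M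
    refine Finset.sum_eq_zero fun a ha => ?_
    simp [hT3 a ha k hk]
  have sZ : ∀ M, ∑ m ∈ S₂, Z m M = pk c₂ Φ₂ M := by
    intro M
    have := avg_pk (c := c₂) (S := S₂) Φ₂ 0 (by simpa using hS₂) M
    simpa using this
  have sY : ∀ M, ∑ k ∈ T, Y k M = pk c₁ Φ₁ (rot β M) * pk c₃ Φ₃ M := by
    intro M
    have e1 := avg_pk (c := c₁) (S := S₁) Φ₁ 0 (by simpa using hS₁) (rot β M)
    simp only [sub_zero, h₁.wt] at e1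
    rw [← e1, Finset.sum_mul]
    simp only [hY]
    rw [Finset.sum_comm]
    refine Finset.sum_congr rfl fun a ha => ?_
    rw [← Finset.mul_sum, avg_pk Φ₃ a (hT3 a ha) M, hw]
    ring
  have main : avg (tau Ψ Φ₁ Φ₂ Φ₃) c₁ β e n m₂ σ =
      ∑ b ∈ Finset.range n, e ^ b * ∫ M, Ψ M * (Z (m₂ + b) M * Y (σ - b) M) ∂nu := by
    unfold avg
    rw [tsum_eq_sum (s := S₁) fun a ha => by simp [hS₁ a ha]]
    simp only [Finset.mul_sum]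
    rw [Finset.sum_comm]
    refine Finset.sum_congr rfl fun b hb => ?_
    have hb' := Finset.mem_range.1 hb
    have e1 : ∀ M, Ψ M * (Z (m₂ + b) M * Y (σ - b) M) = ∑ a ∈ S₁,
        w a * (Ψ M * (Φ₁ a M * Φ₂ (m₂ + b) M * Φ₃ (σ - a - b) M)) := by
      intro M
      simp only [hZ, hY, e₂ b hb', Finset.mul_sum]
      refine Finset.sum_congr rfl fun a _ => ?_
      have e2 : σ - b - a = σ - a - b := by ring
      rw [e2]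
      by_cases h0 : c₁ a = 0
      · simp [hw, h0]
      · rw [e₃ a h0 b hb']
        push_cast
        ring
    simp only [e1]
    have i1 : ∀ a ∈ S₁, Integrable (fun M =>
        w a * (Ψ M * (Φ₁ a M * Φ₂ (m₂ + b) M * Φ₃ (σ - a - b) M))) nu := fun a _ =>
      ((hΨ.van.mul _).integrable
        (hΨ.cont.mul (((h₁.cont a).mul (h₂.cont _)).mul (h₃.cont _)))).const_mul _
    rw [integral_finsetSum _ i1, Finset.mul_sum]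
    refine Finset.sum_congr rfl fun a _ => ?_
    rw [integral_const_mul]
    unfold tau
    ring
  have jZ : Function.Injective fun b : ℕ => m₂ + (b : ℤ) := fun x y h => by simpa using h
  have jY : Function.Injective fun b : ℕ => σ - (b : ℤ) := fun x y h => by simpa using h
  have fin : ∀ {Q : Set E}, IsCompact Q → Q ⊆ Sh → (∀ θ M, rot θ M ∈ Q ↔ M ∈ Q) →
      ∑ b ∈ Finset.range n, ∫ M in Q, ‖Z (m₂ + b) M * Y (σ - b) M‖ ∂nu ≤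
        √(∫ M in Q, ‖pk c₂ Φ₂ M‖ ^ 2 ∂nu) *
          √(∫ M in Q, ‖pk c₁ Φ₁ (rot β M)‖ ^ 2 * ‖pk c₃ Φ₃ M‖ ^ 2 ∂nu) := by
    intro Q hQ hs hr
    refine avg_cs n (fun b => Z (m₂ + b)) (fun b => Y (σ - b)) (fun b => cZ _) (fun b => cY _)
      hQ hs ?_ ?_
    · have := avg_bessel S₂ Z cZ wZ zZ _ jZ n hQ hs hr
      simpa only [sZ] using this
    · have := avg_bessel T Y cY wY zY _ jY n hQ hs hr
      simpa only [sY, norm_mul, mul_pow] using this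
  rw [main]
  refine (norm_sum_le _ _).trans ?_
  refine le_trans (Finset.sum_le_sum (g := fun b : ℕ =>
    A₀ * (∫ M in Qa, ‖Z (m₂ + b) M * Y (σ - b) M‖ ∂nu +
      ∫ M in Qb, ‖Z (m₂ + b) M * Y (σ - b) M‖ ∂nu)) fun b _ => ?_) ?_
  · rw [norm_mul, norm_pow, he, one_pow, one_mul]
    exact avg_split ((cZ _).mul (cY _)) ca cb sa sb hA₀ hA hz
  · rw [← Finset.mul_sum, Finset.sum_add_distrib]
    exact mul_le_mul_of_nonneg_left (add_le_add (fin ca sa ra) (fin cb sb rb)) hA₀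

end Pool.Agent.MP_a28cf0_nt.Cub

end

-- part MP_a28cf0_nt.Cub.Key
section

set_option autoImplicit false

namespace Pool.Agent.MP_a28cf0_nt.Cub

open MeasureTheory Complex Filter Topology Set
open scoped ENNReal MatrixGroups

/-- the three packets used in the averaging -/
structure Pks (K K' t₁ t₂ t₃ : ℝ) (m₁ : ℤ) (c₁ c₂ c₃ : ℤ → ℝ) : Prop where
  k₁ : Coef3 K' (√t₁) c₁
  k₂ : Coef3 K' (√t₂) c₂
  k₃ : Coef3 K' (√t₃) c₃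
  nn : ∀ a, 0 ≤ c₁ a
  in₁ : ∀ a : ℤ, |(a : ℝ) - m₁| ≤ √t₁ → c₁ a = 1
  out₁ : ∀ a : ℤ, 2 * √t₁ ≤ |(a : ℝ) - m₁| → c₁ a = 0
  in₂ : ∀ a : ℤ, |(a : ℝ)| ≤ (|K| + 4) * √t₂ → c₂ a = 1
  in₃ : ∀ a : ℤ, |(a : ℝ)| ≤ (|K| + 4) * √t₃ → c₃ a = 1

theorem Coef3.mono {K K' N : ℝ} {c : ℤ → ℝ} (h : Coef3 K N c) (hK : K ≤ K') (hN : 0 < N) :
    Coef3 K' N c :=
  ⟨⟨fun m hm => h.supp m ((mul_le_mul_of_nonneg_right hK hN.le).trans hm),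
    fun m => (h.bd m).trans hK, fun m => (h.d1 m).trans (by gcongr)⟩,
    fun m => (h.d2 m).trans (by gcongr), fun m => (h.d3 m).trans (by gcongr)⟩

theorem exists_pks (K : ℝ) : ∃ K' : ℝ, ∀ (t₁ t₂ t₃ : ℝ) (m₁ : ℤ), 1 ≤ t₁ → 1 ≤ t₂ → 1 ≤ t₃ →
    |(m₁ : ℝ)| ≤ K * √t₁ → ∃ c₁ c₂ c₃, Pks K K' t₁ t₂ t₃ m₁ c₁ c₂ c₃ := by
  obtain ⟨K₁, h₁⟩ := exists_coef K 1 le_rfl
  obtain ⟨K₂, h₂⟩ := exists_coef 0 (|K| + 4) (by linarith [abs_nonneg K])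
  refine ⟨max K₁ K₂, fun t₁ t₂ t₃ m₁ a₁ a₂ a₃ hm => ?_⟩
  have b₁ := Real.one_le_sqrt.2 a₁
  have b₂ := Real.one_le_sqrt.2 a₂
  have b₃ := Real.one_le_sqrt.2 a₃
  obtain ⟨c₁, p₁, p₂, p₃, p₄⟩ := h₁ (√t₁) m₁ b₁ hm
  obtain ⟨c₂, q₁, -, q₃, -⟩ := h₂ (√t₂) 0 b₂ (by simp)
  obtain ⟨c₃, r₁, -, r₃, -⟩ := h₂ (√t₃) 0 b₃ (by simp)
  exact ⟨c₁, c₂, c₃, p₁.mono (le_max_left _ _) (by linarith), q₁.mono (le_max_right _ _) (by linarith),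
    r₁.mono (le_max_right _ _) (by linarith), fun a => (p₂ a).1, fun a ha => p₃ a (by simpa using ha),
    fun a ha => p₄ a (by simpa using ha), fun a ha => q₃ a (by simpa using ha),
    fun a ha => r₃ a (by simpa using ha)⟩

theorem key_angle {s₀ α β N : ℝ} (hα : |α| ≤ Real.pi) (hs : s₀ ≤ |Real.sin α|) (hN : 1 / s₀ ≤ N)
    (hs₀ : 0 < s₀) (hβ : |β + α / 2| ≤ 1 / (4 * N)) :
    |β| < Real.pi / 2 ∧ s₀ / 4 ≤ |Real.sin β * Real.cos β| := by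
  have hN0 : 0 < N := lt_of_lt_of_le (by positivity) hN
  have h1 : 1 / (4 * N) ≤ s₀ / 4 := by
    rw [div_le_iff₀ hs₀] at hN
    rw [div_le_div_iff₀ (by positivity) (by norm_num)]; nlinarith
  constructor
  · have h2 : |Real.sin α| ≤ Real.pi - |α| := by
      rw [Real.abs_sin_eq_sin_abs_of_abs_le_pi hα, ← Real.sin_pi_sub]
      exact Real.sin_le (by linarith)
    have h3 : |β| ≤ |β + α / 2| + |α| / 2 := by
      have := abs_sub (β + α / 2) (α / 2)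
      rwa [add_sub_cancel_right, abs_div α 2, abs_two] at this
    linarith
  · have h2 : Real.sin β * Real.cos β = Real.sin (2 * β) / 2 := by rw [Real.sin_two_mul]; ring
    have h3 : |Real.sin (2 * β) - Real.sin (-α)| ≤ |2 * β - -α| := Real.abs_sin_sub_sin_le _ _
    have h4 : |2 * β - -α| = 2 * |β + α / 2| := by
      rw [show 2 * β - -α = 2 * (β + α / 2) by ring, abs_mul, abs_two]
    have h5 : |Real.sin α| ≤ |Real.sin (2 * β)| + |Real.sin (2 * β) - Real.sin (-α)| := by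
      rw [Real.sin_neg]
      have := abs_sub (Real.sin (2 * β) - -Real.sin α) (Real.sin (2 * β))
      rw [show Real.sin (2 * β) - -Real.sin α - Real.sin (2 * β) = Real.sin α by ring] at this
      linarith
    rw [h2, abs_div, abs_two]
    linarith

theorem key_real {y A₀ pa pb ba bb N₁ N₂ N₃ : ℝ} (hy : 0 ≤ y) (h₁ : 0 < N₁) (h₂ : 0 < N₂)
    (h₃ : 0 < N₃) (h₃₂ : N₃ ≤ 2 * N₂) (hpa : 0 ≤ pa) (hpb : 0 ≤ pb) (hba : 0 ≤ ba) (hbb : 0 ≤ bb)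
    (h : y ≤ 4 * (A₀ * (√pa * √ba + √pb * √bb)) / (N₁ * N₂)) :
    y ^ 2 ≤ 64 * A₀ ^ 2 / N₁ * (pa / N₂ * (ba / (N₁ * N₃)) + pb / N₂ * (bb / (N₁ * N₃))) := by
  have e1 : (√pa * √ba + √pb * √bb) ^ 2 ≤ 2 * (pa * ba + pb * bb) := by
    have f1 : (√pa * √ba) ^ 2 = pa * ba := by rw [mul_pow, Real.sq_sqrt hpa, Real.sq_sqrt hba]
    have f2 : (√pb * √bb) ^ 2 = pb * bb := by rw [mul_pow, Real.sq_sqrt hpb, Real.sq_sqrt hbb]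
    nlinarith [sq_nonneg (√pa * √ba - √pb * √bb)]
  have hS : 0 ≤ pa * ba + pb * bb := by positivity
  calc y ^ 2 ≤ (4 * (A₀ * (√pa * √ba + √pb * √bb)) / (N₁ * N₂)) ^ 2 := by gcongr
    _ = 16 * A₀ ^ 2 * (√pa * √ba + √pb * √bb) ^ 2 / (N₁ * N₂) ^ 2 := by ring
    _ ≤ 16 * A₀ ^ 2 * (2 * (pa * ba + pb * bb)) / (N₁ * N₂) ^ 2 := by gcongr
    _ = 64 * A₀ ^ 2 * (pa * ba + pb * bb) / (N₁ ^ 2 * N₂ * (2 * N₂)) := by field_simp; ring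
    _ ≤ 64 * A₀ ^ 2 * (pa * ba + pb * bb) / (N₁ ^ 2 * N₂ * N₃) := by gcongr
    _ = _ := by field_simp

theorem key_conv {t₁ t₃ K : ℝ} {Φ₁ Φ₃ : ℤ → E → ℂ} {c₁ c₃ : ℤ → ℝ} (a₁ : 1 ≤ t₁) (a₃ : 1 ≤ t₃)
    (h₁ : Sys t₁ Φ₁) (h₃ : Sys t₃ Φ₃) (k₁ : Coef3 K (√t₁) c₁) (k₃ : Coef3 K (√t₃) c₃)
    {Q : Set E} (hQ : IsCompact Q) (hs : Q ⊆ Sh) (β : ℝ) :
    ENNReal.ofReal ((∫ M in Q, ‖pk c₁ Φ₁ (rot β M)‖ ^ 2 * ‖pk c₃ Φ₃ M‖ ^ 2 ∂nu) / (√t₁ * √t₃)) =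
      ∫⁻ M in Q, ENNReal.ofReal (‖pk c₁ Φ₁ (rot β M)‖ ^ 2 / √t₁) *
        ENNReal.ofReal (‖pk c₃ Φ₃ M‖ ^ 2 / √t₃) ∂nu := by
  have hc₁ : ContinuousOn (fun M => pk c₁ Φ₁ (rot β M)) Gp :=
    (pk_smooth h₁ k₁.toCoef).continuousOn.comp (by fun_prop) fun M hM => by
      show 0 < dt _; rw [dt_rot]; exact hM
  have hc₃ := (pk_smooth h₃ k₃.toCoef).continuousOn
  rw [← integral_div, ofReal_integral_eq_lintegral_ofReal]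
  · refine lintegral_congr fun M => ?_
    rw [← ENNReal.ofReal_mul (by positivity)]
    congr 1; ring
  · exact integrableOn_of_cont (((hc₁.norm.pow 2).mul (hc₃.norm.pow 2)).div_const _) hQ hs
  · exact Eventually.of_forall fun M => by positivity

/-- the key inequality in the classically allowed range -/
theorem key {s₀ : ℝ} (hs₀ : 0 < s₀) (K' : ℝ) : ∃ C : ℝ, 0 ≤ C ∧
    ∀ (K A A₀ t₁ t₂ t₃ α : ℝ) (Φ₁ Φ₂ Φ₃ : ℤ → E → ℂ) (Ψ : E → ℂ) (Qa Qb : Set E)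
      (m₁ m₂ m₃ : ℤ) (c₁ c₂ c₃ : ℤ → ℝ), 1 ≤ t₁ → 1 / s₀ ≤ √t₁ → t₁ ≤ t₂ → t₂ ≤ t₃ → t₃ ≤ 2 * t₂ →
      Sys t₁ Φ₁ → Sys t₂ Φ₂ → Sys t₃ Φ₃ → |α| ≤ Real.pi → s₀ ≤ |Real.sin α| →
      Real.cos α = cc t₁ t₂ t₃ → Test Ψ → IsCompact Qa → IsCompact Qb → Qa ⊆ Sh → Qb ⊆ Sh →
      (∀ θ M, rot θ M ∈ Qa ↔ M ∈ Qa) → (∀ θ M, rot θ M ∈ Qb ↔ M ∈ Qb) → 0 ≤ A₀ →
      (∀ M ∈ Sh, ‖Ψ M‖ ≤ A₀) → (∀ M ∈ Sh, M ∉ Qa → M ∉ Qb → Ψ M = 0) →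
      Rec (K + 8) A t₁ t₂ t₃ (tau Ψ Φ₁ Φ₂ Φ₃) → Adm K t₁ t₂ t₃ m₁ m₂ m₃ →
      Pks K K' t₁ t₂ t₃ m₁ c₁ c₂ c₃ →
      ENNReal.ofReal (‖tau Ψ Φ₁ Φ₂ Φ₃ (m₁ + 1) m₂ (m₃ - 1) -
          Complex.exp (-α * I) * tau Ψ Φ₁ Φ₂ Φ₃ m₁ m₂ m₃‖ - C * A / √t₁) ^ 2 ≤
        ENNReal.ofReal (C * A₀ ^ 2) *
          (lift t₂ c₂ Φ₂ Qa * ((lift t₃ c₃ Φ₃).prod (lift t₁ c₁ Φ₁))
              (Zs Qa (Icc (-α / 2 - 1 / (4 * √t₁)) (-α / 2 + 1 / (4 * √t₁)))) +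
            lift t₂ c₂ Φ₂ Qb * ((lift t₃ c₃ Φ₃).prod (lift t₁ c₁ Φ₁))
              (Zs Qb (Icc (-α / 2 - 1 / (4 * √t₁)) (-α / 2 + 1 / (4 * √t₁))))) := by
  obtain ⟨C₁, hC₁, hseq⟩ := seq_allowed K'
  refine ⟨C₁ + 2048 / s₀, by positivity, ?_⟩
  intro K A A₀ t₁ t₂ t₃ α Φ₁ Φ₂ Φ₃ Ψ Qa Qb m₁ m₂ m₃ c₁ c₂ c₃ a₁ hN t12 t23 t32 h₁ h₂ h₃ hα hsin
    hcos hΨ ca cb sa sb ra rb hA₀ hA hz hrec hadm hp
  have a₂ : 1 ≤ t₂ := a₁.trans t12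
  have a₃ : 1 ≤ t₃ := a₂.trans t23
  have b₁ := Real.one_le_sqrt.2 a₁
  have b₂ := Real.one_le_sqrt.2 a₂
  have b₃ := Real.one_le_sqrt.2 a₃
  have s12 : √t₁ ≤ √t₂ := Real.sqrt_le_sqrt t12
  have s23 : √t₂ ≤ √t₃ := Real.sqrt_le_sqrt t23
  have s32 : √t₃ ≤ 2 * √t₂ := by
    rw [show 2 * √t₂ = √(4 * t₂) by
      rw [Real.sqrt_mul (by norm_num), show (4 : ℝ) = 2 ^ 2 by norm_num, Real.sqrt_sq (by norm_num)]]
    exact Real.sqrt_le_sqrt (by linarith)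
  have hK : 0 ≤ K := by
    by_contra hK
    have := hadm.1
    nlinarith [abs_nonneg (m₁ : ℝ), not_le.1 hK]
  have hA0 : 0 ≤ A := by
    refine (norm_nonneg _).trans (hrec.bd m₁ m₂ m₃ ⟨?_, ?_, ?_⟩)
    · nlinarith [hadm.1]
    · nlinarith [hadm.2.1]
    · nlinarith [hadm.2.2]
  obtain ⟨e, he, hb⟩ := hseq K A t₁ t₂ t₃ α _ a₁ t12 t23 hcos hrec m₁ m₂ m₃ hadm c₁ hp.nn hp.in₁
    hp.out₁ hp.k₁.d1
  set y := ‖tau Ψ Φ₁ Φ₂ Φ₃ (m₁ + 1) m₂ (m₃ - 1) -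
    Complex.exp (-α * I) * tau Ψ Φ₁ Φ₂ Φ₃ m₁ m₂ m₃‖ - (C₁ + 2048 / s₀) * A / √t₁ with hy
  rcases le_or_gt y 0 with hy0 | hy0
  · rw [ENNReal.ofReal_eq_zero.2 hy0]; simp
  set δ : ℝ := 1 / (4 * √t₁) with hδ
  have hδ0 : 0 < δ := by positivity
  set J := Icc (-α / 2 - δ) (-α / 2 + δ) with hJ
  have hJβ : ∀ β ∈ J, |β + α / 2| ≤ δ := fun β hβ => abs_le.2 ⟨by linarith [hβ.1], by linarith [hβ.2]⟩
  set H₁ : E → ℝ≥0∞ := fun M => ENNReal.ofReal (‖pk c₁ Φ₁ M‖ ^ 2 / √t₁) with hH₁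
  set H₃ : E → ℝ≥0∞ := fun M => ENNReal.ofReal (‖pk c₃ Φ₃ M‖ ^ 2 / √t₃) with hH₃
  have mH₁ : Measurable H₁ :=
    (((pk_meas h₁ hp.k₁.toCoef).norm.pow_const 2).div_const _).ennreal_ofReal
  have mH₃ : Measurable H₃ :=
    (((pk_meas h₃ hp.k₃.toCoef).norm.pow_const 2).div_const _).ennreal_ofReal
  have hn : ∀ b : ℕ, b < ⌈√t₂⌉₊ → (b : ℝ) ≤ √t₂ := fun b hb => (Nat.lt_ceil.1 hb).le
  -- pointwise inequality
  have hpt : ∀ β ∈ J, ENNReal.ofReal y ^ 2 ≤ ENNReal.ofReal (64 * A₀ ^ 2 / √t₁) *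
      (lift t₂ c₂ Φ₂ Qa * ∫⁻ M in Qa, H₁ (rot β M) * H₃ M ∂nu +
        lift t₂ c₂ Φ₂ Qb * ∫⁻ M in Qb, H₁ (rot β M) * H₃ M ∂nu) := by
    intro β hβ
    have h1 := hb β (hJβ β hβ)
    have h2 := avg_bound h₁ h₂ h₃ hΨ ca cb sa sb ra rb hA₀ hA hz hp.k₁.toCoef hp.k₂.toCoef
      hp.k₃.toCoef β he ⌈√t₂⌉₊ m₂ (m₁ + m₃) (fun b hb => hp.in₂ _ (by
        have := hn b hb
        have h4 := hadm.2.1
        push_cast
        refine (abs_add_le _ _).trans ?_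
        rw [abs_of_nonneg hK, Nat.abs_cast]; nlinarith)) (fun a ha b hb => hp.in₃ _ (by
        have := hn b hb
        have h4 := hadm.2.2
        have h5 : |(a : ℝ) - m₁| < 2 * √t₁ := by
          by_contra h6; exact ha (hp.out₁ a (not_lt.1 h6))
        push_cast
        rw [abs_of_nonneg hK, abs_le]
        have h7 := abs_lt.1 h5
        have h8 := abs_le.1 h4
        have h9 : (0 : ℝ) ≤ b := Nat.cast_nonneg b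
        constructor <;> nlinarith [h7.1, h7.2, h8.1, h8.2]))
    have h3 : y ≤ 4 * (A₀ * (√(∫ M in Qa, ‖pk c₂ Φ₂ M‖ ^ 2 ∂nu) *
        √(∫ M in Qa, ‖pk c₁ Φ₁ (rot β M)‖ ^ 2 * ‖pk c₃ Φ₃ M‖ ^ 2 ∂nu) +
        √(∫ M in Qb, ‖pk c₂ Φ₂ M‖ ^ 2 ∂nu) *
        √(∫ M in Qb, ‖pk c₁ Φ₁ (rot β M)‖ ^ 2 * ‖pk c₃ Φ₃ M‖ ^ 2 ∂nu))) / (√t₁ * √t₂) := by
      have h4 : C₁ * A / √t₁ ≤ (C₁ + 2048 / s₀) * A / √t₁ := by
        gcongr; exact le_add_of_nonneg_right (by positivity)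
      have h5 := div_le_div_of_nonneg_right (mul_le_mul_of_nonneg_left h2 (by norm_num : (0 : ℝ) ≤ 4))
        (by positivity : 0 ≤ √t₁ * √t₂)
      linarith
    have h4 := key_real (N₃ := √t₃) hy0.le (by linarith) (by linarith) (by linarith) s32
      (integral_nonneg fun M => by positivity) (integral_nonneg fun M => by positivity)
      (integral_nonneg fun M => by positivity) (integral_nonneg fun M => by positivity) h3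
    rw [← ENNReal.ofReal_pow hy0.le]
    refine (ENNReal.ofReal_le_ofReal h4).trans ?_
    have i1 : 0 ≤ ∫ M in Qa, ‖pk c₂ Φ₂ M‖ ^ 2 ∂nu := integral_nonneg fun M => by positivity
    have i2 : 0 ≤ ∫ M in Qb, ‖pk c₂ Φ₂ M‖ ^ 2 ∂nu := integral_nonneg fun M => by positivity
    rw [ENNReal.ofReal_mul (by positivity)]
    refine mul_le_mul_right (ENNReal.ofReal_add_le.trans (add_le_add ?_ ?_)) _
    · rw [ENNReal.ofReal_mul (by positivity), key_conv a₁ a₃ h₁ h₃ hp.k₁ hp.k₃ ca sa]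
      exact mul_le_mul_left (pk_le_lift a₂ h₂ hp.k₂ ca sa) _
    · rw [ENNReal.ofReal_mul (by positivity), key_conv a₁ a₃ h₁ h₃ hp.k₁ hp.k₃ cb sb]
      exact mul_le_mul_left (pk_le_lift a₂ h₂ hp.k₂ cb sb) _
  have hang := fun β (hβ : β ∈ J) => key_angle hα hsin hN hs₀ (hJβ β hβ)
  have hl : -α / 2 - δ ∈ J := ⟨le_rfl, by linarith⟩
  have hr : -α / 2 + δ ∈ J := ⟨by linarith, le_rfl⟩
  have hbil : ∀ {Q : Set E}, IsCompact Q → Q ⊆ Sh →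
      ∫⁻ θ in J, ∫⁻ M in Q, H₁ (rot θ M) * H₃ M ∂nu ≤ ENNReal.ofReal (4 / (s₀ / 4)) *
        ((lift t₃ c₃ Φ₃).prod (lift t₁ c₁ Φ₁)) (Zs Q J) := fun hQ hs =>
    bil (by positivity) (abs_lt.1 (hang _ hl).1).1 (abs_lt.1 (hang _ hr).1).2
      (fun θ hθ => (hang θ hθ).2) hQ hs (Gd_meas a₁ h₁ hp.k₁) (Gd_meas a₃ h₃ hp.k₃) mH₁ mH₃
      (fun s M hs => Gd_hom c₁ h₁ hs M) (fun M hM => pk_sobolev a₁ h₁ hp.k₁ hM)
      (fun M hM => pk_sobolev a₃ h₃ hp.k₃ hM)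
  have hmeas : ∀ Q : Set E, Measurable fun θ : ℝ => ∫⁻ M in Q, H₁ (rot θ M) * H₃ M ∂nu := by
    intro Q
    refine Measurable.lintegral_prod_right' (f := fun p : ℝ × E => H₁ (rot p.1 p.2) * H₃ p.2) ?_
    exact (mH₁.comp (Continuous.measurable (by fun_prop))).mul (mH₃.comp measurable_snd)
  have hint := setLIntegral_mono' (μ := volume) measurableSet_Icc hpt
  rw [setLIntegral_const, lintegral_const_mul' _ _ ENNReal.ofReal_ne_top,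
    lintegral_add_left ((hmeas Qa).const_mul _), lintegral_const_mul _ (hmeas Qa),
    lintegral_const_mul _ (hmeas Qb), Real.volume_Icc] at hint
  have hfin := hint.trans (mul_le_mul_right (add_le_add (mul_le_mul_right (hbil ca sa) _)
    (mul_le_mul_right (hbil cb sb) _)) _)
  have hv : ENNReal.ofReal (-α / 2 + δ - (-α / 2 - δ)) * ENNReal.ofReal (2 * √t₁) = 1 := by
    rw [← ENNReal.ofReal_mul (by linarith), hδ, ← ENNReal.ofReal_one]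
    congr 1; field_simp; ring
  calc ENNReal.ofReal y ^ 2
      = ENNReal.ofReal y ^ 2 * ENNReal.ofReal (-α / 2 + δ - (-α / 2 - δ)) *
          ENNReal.ofReal (2 * √t₁) := by rw [mul_assoc, hv, mul_one]
    _ ≤ _ := mul_le_mul_left hfin _
    _ = ENNReal.ofReal (64 * A₀ ^ 2 / √t₁) * ENNReal.ofReal (4 / (s₀ / 4)) *
          ENNReal.ofReal (2 * √t₁) * (lift t₂ c₂ Φ₂ Qa *
            ((lift t₃ c₃ Φ₃).prod (lift t₁ c₁ Φ₁)) (Zs Qa J) + lift t₂ c₂ Φ₂ Qb *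
            ((lift t₃ c₃ Φ₃).prod (lift t₁ c₁ Φ₁)) (Zs Qb J)) := by ring
    _ ≤ _ := by
      refine mul_le_mul_left ?_ _
      rw [← ENNReal.ofReal_mul (by positivity), ← ENNReal.ofReal_mul (by positivity)]
      refine ENNReal.ofReal_le_ofReal ?_
      have : 64 * A₀ ^ 2 / √t₁ * (4 / (s₀ / 4)) * (2 * √t₁) = 2048 / s₀ * A₀ ^ 2 := by
        field_simp; ring
      rw [this]; gcongr; exact le_add_of_nonneg_left hC₁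

end Pool.Agent.MP_a28cf0_nt.Cub

end

-- part MP_a28cf0_nt.Cub.Cross
section

set_option autoImplicit false

namespace Pool.Agent.MP_a28cf0_nt.Cub

open MeasureTheory Complex Filter Topology Set
open scoped ENNReal MatrixGroups

theorem cross_exp {d : ℝ} (h : Real.exp d = Real.exp (-d)) : d = 0 := by
  have := Real.exp_injective h
  linarith

theorem cross_pr_fl {M : E} (hM : M ∈ Gp) {d : ℝ} (h : pr (fl d M) = pr M) : d = 0 := by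
  have h1 : (fl d M).2 ≠ 0 := snd_ne_zero (show 0 < dt (fl d M) by rw [dt_fl]; exact hM)
  have h2 : M.2 ≠ 0 := snd_ne_zero hM
  unfold pr at h
  rw [div_eq_div_iff h1 h2] at h
  have h3 := congrArg Complex.im h
  obtain ⟨e1, e2, e3, e4⟩ := fl_apply d M
  rw [Complex.mul_im, Complex.mul_im, e1, e2, e3, e4] at h3
  have h4 : 0 < M.1.im * M.2.re - M.1.re * M.2.im := hM
  apply cross_exp
  have h5 : (Real.exp d - Real.exp (-d)) * (M.1.im * M.2.re - M.1.re * M.2.im) = 0 := by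
    linarith
  rcases mul_eq_zero.mp h5 with h6 | h6
  · linarith
  · exact absurd h6 h4.ne'

theorem cross_fl_apply {μ : Measure E} (h : Good μ) (s : ℝ) {A : Set E} (hA : MeasurableSet A) :
    μ (fl s ⁻¹' A) = μ A := by
  rw [← Measure.map_apply (me_fl s).measurable hA, h.flow]

theorem null_fibre {μ : Measure E} (h : Good μ) (z : ℂ) : μ (Sh ∩ pr ⁻¹' {z}) = 0 := by
  have := h.fin
  have hA : MeasurableSet (Sh ∩ pr ⁻¹' {z}) :=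
    measurableSet_Sh.inter (measurable_pr (measurableSet_singleton z))
  obtain ⟨ρ, hρ⟩ : ∃ ρ : ℝ, ∀ M ∈ Sh ∩ pr ⁻¹' {z}, ‖M‖ ≤ ρ := by
    refine ⟨max ‖z‖ 1 * (1 + 4 / z.im), ?_⟩
    rintro M ⟨hM, hz⟩
    have hz' : pr M = z := hz
    have hG := Sh_subset hM
    have h2 := snd_ne_zero hG
    have hi : 0 < z.im := hz' ▸ pr_mem hG
    have h3 := im_pr M
    rw [hz', eq_div_iff (Complex.normSq_pos.mpr h2).ne', Complex.normSq_eq_norm_sq] at h3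
    have h4 : ‖M.2‖ ^ 2 ≤ 4 / z.im := by
      rw [le_div_iff₀ hi]; have := hM.2; linarith
    have h5 : ‖M.2‖ ≤ 1 + 4 / z.im := by nlinarith [sq_nonneg (‖M.2‖ - 1), norm_nonneg M.2]
    have h6 : ‖M.1‖ = ‖z‖ * ‖M.2‖ := by
      rw [← hz', pr, norm_div, div_mul_cancel₀ _ (norm_ne_zero_iff.mpr h2)]
    have h7 : 0 ≤ 1 + 4 / z.im := by positivity
    rw [Prod.norm_def]
    apply max_le
    · rw [h6]
      exact mul_le_mul (le_max_left _ _) h5 (norm_nonneg _) (le_trans zero_le_one (le_max_right _ _))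
    · nlinarith [le_max_right ‖z‖ 1]
  by_contra hne
  let B : ℕ → Set E := fun n => fl (1 / ((n : ℝ) + 1)) ⁻¹' (Sh ∩ pr ⁻¹' {z})
  have hBm : ∀ n, MeasurableSet (B n) := fun n => (me_fl _).measurable hA
  have hBd : Pairwise (Function.onFun Disjoint B) := by
    intro m n hmn
    refine Set.disjoint_left.mpr fun M h1 h2 => hmn ?_
    have e : fl (1 / ((n : ℝ) + 1)) M =
        fl (1 / ((n : ℝ) + 1) - 1 / ((m : ℝ) + 1)) (fl (1 / ((m : ℝ) + 1)) M) := by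
      rw [fl_fl, sub_add_cancel]
    have e1 : pr (fl (1 / ((m : ℝ) + 1)) M) = z := h1.2
    have e2 : pr (fl (1 / ((n : ℝ) + 1)) M) = z := h2.2
    rw [e, ← e1] at e2
    have e3 := cross_pr_fl (Sh_subset h1.1) e2
    rw [sub_eq_zero, div_eq_div_iff (by positivity) (by positivity)] at e3
    have : (m : ℝ) = n := by linarith
    exact_mod_cast this
  have hsub : (⋃ n, B n) ⊆ Metric.closedBall 0 (Real.exp 1 * max ρ 0) := by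
    intro M hM
    obtain ⟨n, hn⟩ := mem_iUnion.mp hM
    have e : M = fl (-(1 / ((n : ℝ) + 1))) (fl (1 / ((n : ℝ) + 1)) M) := by
      rw [fl_fl, neg_add_cancel, fl_zero]
    rw [mem_closedBall_zero_iff, e]
    refine (norm_fl_le _ _).trans (mul_le_mul (Real.exp_le_exp.mpr ?_)
      ((hρ _ hn).trans (le_max_left _ _)) (norm_nonneg _) (Real.exp_pos _).le)
    rw [abs_neg, abs_of_pos (by positivity), div_le_one (by positivity)]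
    have : (0 : ℝ) ≤ n := n.cast_nonneg
    linarith
  have h1 : μ (⋃ n, B n) < ⊤ :=
    (measure_mono hsub).trans_lt (isCompact_closedBall _ _).measure_lt_top
  rw [measure_iUnion hBd hBm] at h1
  have h2 : ∀ n, μ (B n) = μ (Sh ∩ pr ⁻¹' {z}) := fun n => cross_fl_apply h _ hA
  simp only [h2] at h1
  exact h1.ne (ENNReal.tsum_const_eq_top_of_ne_zero hne)

theorem cross_anti {m n : ℕ} (h : m ≤ n) : 1 / ((n : ℝ) + 1) ≤ 1 / ((m : ℝ) + 1) :=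
  Nat.one_div_le_one_div h

/-- continuity from above -/
theorem cross_above {α : Type} [MeasurableSpace α] {μ : Measure α} {S : ℕ → Set α}
    (hm : ∀ n, MeasurableSet (S n)) (ha : Antitone S) (hf : μ (S 0) ≠ ⊤) {ε : ℝ≥0∞}
    (h : μ (⋂ n, S n) < ε) : ∃ n, μ (S n) < ε :=
  ((tendsto_measure_iInter_atTop (fun n => (hm n).nullMeasurableSet) ha ⟨0, hf⟩).eventually
    (gt_mem_nhds h)).exists

theorem small_nbhd {μ : Measure E} (h : Good μ) (P : Finset ℂ) (ρ : ℝ) {ε : ℝ≥0∞} (hε : ε ≠ 0) :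
    ∃ r : ℝ, 0 < r ∧ μ {M ∈ Bl ρ | ∃ p ∈ P, dist (pr M) p ≤ r} ≤ ε := by
  have := h.fin
  obtain ⟨n, hn⟩ := cross_above (μ := μ) (ε := ε)
    (S := fun n => {M ∈ Bl ρ | ∃ p ∈ P, dist (pr M) p ≤ 1 / ((n : ℝ) + 1)}) (by
      intro n
      have : {M ∈ Bl ρ | ∃ p ∈ P, dist (pr M) p ≤ 1 / ((n : ℝ) + 1)} =
          Bl ρ ∩ pr ⁻¹' ⋃ p ∈ P, Metric.closedBall p (1 / ((n : ℝ) + 1)) := by
        ext M; simp
      rw [this]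
      exact (measurableSet_Bl ρ).inter (measurable_pr
        (P.measurableSet_biUnion fun p _ => measurableSet_closedBall)))
    (fun m n hmn M ⟨h1, p, hp, h2⟩ => ⟨h1, p, hp, h2.trans (cross_anti hmn)⟩)
    ((measure_mono fun M hM => hM.1).trans_lt (isCompact_Bl ρ).measure_lt_top).ne (by
      refine lt_of_le_of_lt (measure_mono (t := ⋃ p ∈ P, Sh ∩ pr ⁻¹' {p}) ?_) ?_
      · intro M hM
        rw [mem_iInter] at hM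
        have : pr M ∈ closure (P : Set ℂ) := by
          refine Metric.mem_closure_iff.mpr fun δ hδ => ?_
          obtain ⟨n, hn⟩ := exists_nat_one_div_lt hδ
          obtain ⟨-, p, hp, h2⟩ := hM n
          exact ⟨p, hp, h2.trans_lt hn⟩
        rw [P.finite_toSet.isClosed.closure_eq] at this
        exact mem_iUnion₂.mpr ⟨pr M, this, (hM 0).1.1, rfl⟩
      · exact ((measure_biUnion_null_iff P.countable_toSet).mpr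
          fun p _ => null_fibre h p).le.trans_lt (pos_iff_ne_zero.mpr hε))
  exact ⟨_, by positivity, hn.le⟩

theorem cross_orb {g M M' : E} (h : M ∈ Orb g) (h' : M' ∈ Orb g) :
    ∃ r : ℝ, 0 < r ∧ ∃ c : ℝ, M' = r • fl c M := by
  obtain ⟨s, hs, b, rfl⟩ := h
  obtain ⟨s', hs', b', rfl⟩ := h'
  refine ⟨s' / s, by positivity, b' - b, ?_⟩
  rw [fl_smul, fl_fl, smul_smul, sub_add_cancel, div_mul_cancel₀ _ hs.ne']

theorem cross_orb_of {g M : E} {s a : ℝ} (hs : 0 < s) (h : s • fl a M ∈ Orb g) : M ∈ Orb g := by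
  obtain ⟨s', hs', b, e⟩ := h
  refine ⟨s' / s, by positivity, b - a, ?_⟩
  have e1 : M = s⁻¹ • fl (-a) (s • fl a M) := by
    rw [fl_smul, fl_fl, smul_smul, neg_add_cancel, fl_zero, inv_mul_cancel₀ hs.ne', one_smul]
  rw [e1, e, fl_smul, fl_fl, smul_smul, div_eq_inv_mul, neg_add_eq_sub]

/-- two geodesics cross at a given angle over at most one point -/
theorem cross_unique {θ : ℝ} (hθ : Real.sin θ * Real.cos θ ≠ 0) {g g' M M' : E} (hM : M ∈ Gp)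
    (h1 : M ∈ Orb g) (h1' : M' ∈ Orb g) (h2 : rot θ M ∈ Orb g') (h2' : rot θ M' ∈ Orb g') :
    pr M' = pr M := by
  obtain ⟨r, hr, c, rfl⟩ := cross_orb h1 h1'
  obtain ⟨r', -, c', e⟩ := cross_orb h2 h2'
  have hc : c = 0 := by
    rw [rot_smul] at e
    have a1 := congrArg (fun N : E => N.1.re) e
    have a2 := congrArg (fun N : E => N.2.re) e
    simp only [Prod.smul_fst, Prod.smul_snd, Complex.smul_re, smul_eq_mul] at a1 a2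
    obtain ⟨e1, e2, e3, e4⟩ := fl_apply c M
    rw [(rot_apply θ _).1, (fl_apply c' _).1, (rot_apply θ M).1, e1, e2] at a1
    rw [(rot_apply θ _).2.2.1, (fl_apply c' _).2.2.1, (rot_apply θ M).2.2.1, e3, e4] at a2
    have h4 : 0 < M.1.im * M.2.re - M.1.re * M.2.im := hM
    have b1 : Real.cos θ * (r * Real.exp c - r' * Real.exp c') *
        (M.1.im * M.2.re - M.1.re * M.2.im) = 0 := by
      linear_combination M.1.im * a2 - M.2.im * a1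
    have b2 : Real.sin θ * (r * Real.exp (-c) - r' * Real.exp c') *
        (M.1.im * M.2.re - M.1.re * M.2.im) = 0 := by
      linear_combination M.1.re * a2 - M.2.re * a1
    have b3 := (mul_eq_zero.mp ((mul_eq_zero.mp b1).resolve_right h4.ne')).resolve_left
      (right_ne_zero_of_mul hθ)
    have b4 := (mul_eq_zero.mp ((mul_eq_zero.mp b2).resolve_right h4.ne')).resolve_left
      (left_ne_zero_of_mul hθ)
    exact cross_exp (mul_left_cancel₀ hr.ne' (by linarith))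
  rw [hc, fl_zero, pr_smul hr.ne']

theorem cross_measurable_At {μ : Measure E} (h : Good μ) : MeasurableSet (At μ) := by
  obtain ⟨S, hS, -, e⟩ := At_eq h
  rw [e]
  exact MeasurableSet.biUnion hS fun g _ => measurableSet_Orb g

/-- almost every crossing pair consists of two orbits of positive mass -/
theorem cross_null {μ₁ μ₃ : Measure E} (h₁ : Good μ₁) (h₃ : Good μ₃) {θ : ℝ}
    (hθ : Real.sin θ * Real.cos θ ≠ 0) {Q : Set E} (hQ : IsCompact Q) (hs : Q ⊆ Sh) :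
    (μ₃.prod μ₁) (Zs Q {θ} \ At μ₃ ×ˢ At μ₁) = 0 := by
  have := h₁.fin
  have := h₃.fin
  obtain ⟨S, hS, hSG, eS⟩ := At_eq h₁
  have hZ : MeasurableSet (Zs Q {θ}) := (isCompact_Zs hQ isCompact_singleton).measurableSet
  have n1 : (μ₃.prod μ₁) (Zs Q {θ} \ univ ×ˢ At μ₁) = 0 := by
    refine Measure.measure_prod_null_of_ae_null
      (hZ.diff (MeasurableSet.univ.prod (cross_measurable_At h₁))) (ae_of_all _ fun M' => ?_)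
    by_cases hM' : M' ∈ Gp
    · refine measure_mono_null ?_ (surf_null h₁ hθ hM')
      rintro N ⟨⟨M, -, a, ha, b, -, θ', rfl, s, hs', e1, e2⟩, hN⟩
      refine ⟨⟨s, by linarith [hs'.1], b, a, ha, ?_⟩, fun h => hN ⟨trivial, h⟩⟩
      dsimp only at e1 e2
      rw [e2, e1, fl_fl, neg_add_cancel, fl_zero]
    · refine measure_mono_null (t := ∅) ?_ measure_empty
      rintro N ⟨⟨M, hM, a, -, b, -, θ', -, s, -, e1, -⟩, -⟩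
      dsimp only at e1
      exact hM' (show 0 < dt M' by rw [e1, dt_fl]; exact Sh_subset (hs hM))
  have hθ' : Real.sin (-θ) * Real.cos (-θ) ≠ 0 := by
    rw [Real.sin_neg, Real.cos_neg, neg_mul]; exact neg_ne_zero.mpr hθ
  have n2 : μ₃ (⋃ g ∈ S, ⋃ n : ℤ, Surf (-θ) (fl n g) \ At μ₃) = 0 :=
    (measure_biUnion_null_iff hS).mpr fun g hg => measure_iUnion_null fun n =>
      surf_null h₃ hθ' (show 0 < dt (fl n g) by rw [dt_fl]; exact hSG hg)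
  have n3 : (μ₃.prod μ₁) ((⋃ g ∈ S, ⋃ n : ℤ, Surf (-θ) (fl n g) \ At μ₃) ×ˢ univ) = 0 := by
    rw [Measure.prod_prod, n2, zero_mul]
  refine measure_mono_null ?_ (measure_union_null n1 n3)
  rintro ⟨M', N⟩ ⟨hP, hn⟩
  by_cases hN : N ∈ At μ₁
  swap
  · exact Or.inl ⟨hP, fun h => hN h.2⟩
  refine Or.inr ⟨?_, trivial⟩
  have hM' : M' ∉ At μ₃ := fun h => hn ⟨h, hN⟩
  obtain ⟨M, -, a, -, b, -, θ', rfl, s, hs', e1, e2⟩ := hP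
  dsimp only at e1 e2
  rw [eS] at hN
  obtain ⟨g, hg, hN⟩ := mem_iUnion₂.mp hN
  rw [e2] at hN
  obtain ⟨r, hr, c, e3⟩ := cross_orb_of (by linarith [hs'.1]) hN
  refine mem_iUnion₂.mpr ⟨g, hg, mem_iUnion.mpr ⟨⌈c⌉, ⟨r, hr, a, ⌈c⌉ - c,
    ⟨by linarith [Int.le_ceil c], by linarith [Int.ceil_lt_add_one c]⟩, ?_⟩, hM'⟩⟩
  show M' = _
  rw [fl_fl, show -((⌈c⌉ : ℝ) - c) + ⌈c⌉ = c by ring, ← fl_smul, ← rot_smul, ← e3, rot_rot,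
    neg_add_cancel, rot_zero, e1]

theorem cross_inter {Q : Set E} (hQ : IsCompact Q) (θ : ℝ) :
    (⋂ n : ℕ, Zs Q (Icc (θ - 1 / ((n : ℝ) + 1)) (θ + 1 / ((n : ℝ) + 1)))) ⊆ Zs Q {θ} := by
  intro P hP
  rw [mem_iInter] at hP
  let A : Set (E × ℝ × ℝ × ℝ × ℝ) :=
    (Q ×ˢ Icc 0 1 ×ˢ Icc 0 1 ×ˢ Icc (θ - 1) (θ + 1) ×ˢ Icc (1 / 2) 2) ∩
      ({x | P.1 = fl x.2.1 x.1} ∩ {x | P.2 = x.2.2.2.2 • fl x.2.2.1 (rot x.2.2.2.1 x.1)})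
  have hA : IsCompact A :=
    (hQ.prod (isCompact_Icc.prod (isCompact_Icc.prod (isCompact_Icc.prod isCompact_Icc)))).inter_right
      ((isClosed_eq continuous_const (by fun_prop)).inter
        (isClosed_eq continuous_const (by fun_prop)))
  have hB : IsClosed ((fun x : E × ℝ × ℝ × ℝ × ℝ => x.2.2.2.1) '' A) :=
    (hA.image (by fun_prop)).isClosed
  have : θ ∈ closure ((fun x : E × ℝ × ℝ × ℝ × ℝ => x.2.2.2.1) '' A) := by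
    refine Metric.mem_closure_iff.mpr fun δ hδ => ?_
    obtain ⟨n, hn⟩ := exists_nat_one_div_lt hδ
    obtain ⟨M, hM, a, ha, b, hb, θ', hθ', s, hs, e1, e2⟩ := hP n
    have h1 : 1 / ((n : ℝ) + 1) ≤ 1 := by simpa using cross_anti (Nat.zero_le n)
    refine ⟨θ', ⟨(M, a, b, θ', s), ⟨⟨hM, ha, hb, ⟨by linarith [hθ'.1], by linarith [hθ'.2]⟩, hs⟩,
      e1, e2⟩, rfl⟩, ?_⟩
    rw [Real.dist_eq, abs_lt]
    constructor <;> linarith [hθ'.1, hθ'.2]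
  rw [hB.closure_eq] at this
  obtain ⟨⟨M, a, b, θ', s⟩, ⟨⟨hM, ha, hb, -, hs⟩, e1, e2⟩, e⟩ := this
  exact ⟨M, hM, a, ha, b, hb, θ', e, s, hs, e1, e2⟩

theorem null_cross {μ₁ μ₃ : Measure E} (h₁ : Good μ₁) (h₃ : Good μ₃) {θ : ℝ}
    (hθ : Real.sin θ * Real.cos θ ≠ 0) {Q : Set E} (hQ : IsCompact Q) (hs : Q ⊆ Sh)
    {ε : ℝ≥0∞} (hε : ε ≠ 0) :
    ∃ P : Finset ℂ, ∀ Q' : Set E, Q' ⊆ Q → IsCompact Q' → (∀ M ∈ Q', pr M ∉ P) →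
      ∃ η : ℝ, 0 < η ∧ (μ₃.prod μ₁) (Zs Q' (Icc (θ - η) (θ + η))) ≤ ε := by
  classical
  have := h₁.fin
  have := h₃.fin
  obtain ⟨S₁, hS₁, -, e₁⟩ := At_eq h₁
  obtain ⟨S₃, hS₃, -, e₃⟩ := At_eq h₃
  obtain ⟨f, hf⟩ := Set.countable_iff_exists_subset_range.mp (hS₃.prod hS₁)
  have hp : ∀ g : E × E, ∃ p : ℂ, ∀ M ∈ Gp, M ∈ Orb g.1 → rot θ M ∈ Orb g.2 → pr M = p := by
    intro g
    by_cases hg : ∃ M ∈ Gp, M ∈ Orb g.1 ∧ rot θ M ∈ Orb g.2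
    · obtain ⟨M, hM, h1, h2⟩ := hg
      exact ⟨pr M, fun M' _ h1' h2' => cross_unique hθ hM h1 h1' h2 h2'⟩
    · exact ⟨0, fun M hM h1 h2 => absurd ⟨M, hM, h1, h2⟩ hg⟩
  choose p hp using hp
  have hZ := isCompact_Zs hQ (isCompact_singleton (x := θ))
  obtain ⟨n, hn⟩ := cross_above (μ := μ₃.prod μ₁) (ε := ε)
    (S := fun n => Zs Q {θ} \ ⋃ i ∈ Finset.range n, Orb (f i).1 ×ˢ Orb (f i).2)
    (fun n => hZ.measurableSet.diff (Finset.measurableSet_biUnion _ fun i _ =>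
      (measurableSet_Orb _).prod (measurableSet_Orb _)))
    (fun m n hmn => sdiff_subset_sdiff_right
      (biUnion_subset_biUnion_left (Finset.coe_subset.mpr (Finset.range_mono hmn))))
    ((measure_mono sdiff_subset).trans_lt hZ.measure_lt_top).ne (by
      refine lt_of_le_of_lt (measure_mono (t := Zs Q {θ} \ At μ₃ ×ˢ At μ₁) ?_) ?_
      · intro P hP
        rw [mem_iInter] at hP
        refine ⟨(hP 0).1, fun ⟨h3, h1⟩ => ?_⟩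
        rw [e₃] at h3
        rw [e₁] at h1
        obtain ⟨g3, hg3, h3⟩ := mem_iUnion₂.mp h3
        obtain ⟨g1, hg1, h1⟩ := mem_iUnion₂.mp h1
        obtain ⟨i, hi⟩ := hf (show (g3, g1) ∈ S₃ ×ˢ S₁ from ⟨hg3, hg1⟩)
        refine (hP (i + 1)).2 (mem_iUnion₂.mpr ⟨i, Finset.self_mem_range_succ i, ?_⟩)
        rw [hi]
        exact ⟨h3, h1⟩
      · rw [cross_null h₁ h₃ hθ hQ hs]
        exact pos_iff_ne_zero.mpr hε)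
  refine ⟨(Finset.range n).image fun i => p (f i), fun Q' hQ' hc hP => ?_⟩
  obtain ⟨k, hk⟩ := cross_above (μ := μ₃.prod μ₁) (ε := ε)
    (S := fun k => Zs Q' (Icc (θ - 1 / ((k : ℝ) + 1)) (θ + 1 / ((k : ℝ) + 1))))
    (fun k => (isCompact_Zs hc isCompact_Icc).measurableSet)
    (fun k l hkl P ⟨M, hM, a, ha, b, hb, θ', hθ', h⟩ => ⟨M, hM, a, ha, b, hb, θ',
      ⟨by linarith [hθ'.1, cross_anti hkl], by linarith [hθ'.2, cross_anti hkl]⟩, h⟩)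
    (isCompact_Zs hc isCompact_Icc).measure_lt_top.ne (by
      refine lt_of_le_of_lt (measure_mono ((cross_inter hc θ).trans ?_)) hn
      rintro P ⟨M, hM, a, ha, b, hb, θ', rfl, s, hs', e1, e2⟩
      refine ⟨⟨M, hQ' hM, a, ha, b, hb, θ', rfl, s, hs', e1, e2⟩, fun h => hP M hM ?_⟩
      obtain ⟨i, hi, h3, h1⟩ := mem_iUnion₂.mp h
      rw [e1, ← one_smul ℝ (fl a M)] at h3
      rw [e2] at h1
      exact Finset.mem_image.mpr ⟨i, hi, (hp (f i) M (Sh_subset (hs (hQ' hM)))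
        (cross_orb_of one_pos h3) (cross_orb_of (by linarith [hs'.1]) h1)).symm⟩)
  exact ⟨_, by positivity, hk.le⟩

end Pool.Agent.MP_a28cf0_nt.Cub

end

-- part MP_a28cf0_nt.Cub.Final
section

set_option autoImplicit false

namespace Pool.Agent.MP_a28cf0_nt.Cub

open MeasureTheory Complex Filter Topology Set
open scoped ENNReal MatrixGroups

theorem angle_cases {ε₀ t₁ t₂ t₃ : ℝ} (hε : 0 < ε₀) (a₁ : 1 ≤ t₁) (t12 : t₁ ≤ t₂) (t23 : t₂ ≤ t₃)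
    (hw : ε₀ * t₁ ≤ |t₁ + t₂ - t₃|) :
    cc t₁ t₂ t₃ ≤ -1 - ε₀ / 2 ∨ (t₃ ≤ 2 * t₂ ∧ ∃ α : ℝ, |α| ≤ Real.pi ∧
      √(ε₀ / 2) ≤ |Real.sin α| ∧ Real.cos α = cc t₁ t₂ t₃) := by
  have hd : 0 < 2 * t₁ * t₃ := by nlinarith
  have h1 : (1 + cc t₁ t₂ t₃) * (2 * t₁ * t₃) = (t₁ + t₂ - t₃) * (t₂ + t₃ - t₁) := by
    rw [cc, add_mul, div_mul_cancel₀ _ hd.ne']; ring
  rcases le_total (t₁ + t₂) t₃ with h | h
  · left
    rw [abs_of_nonpos (by linarith)] at hw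
    have h2 : (1 + cc t₁ t₂ t₃) * (2 * t₁ * t₃) ≤ (-(ε₀ / 2)) * (2 * t₁ * t₃) := by
      rw [h1]
      have : ε₀ * t₁ * t₃ ≤ (-(t₁ + t₂ - t₃)) * (t₂ + t₃ - t₁) :=
        mul_le_mul hw (by linarith) (by linarith) (by linarith)
      linarith
    have := le_of_mul_le_mul_right h2 hd
    linarith
  · right
    rw [abs_of_nonneg (by linarith)] at hw
    have h2 : (ε₀ / 2) * (2 * t₁ * t₃) ≤ (1 + cc t₁ t₂ t₃) * (2 * t₁ * t₃) := by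
      rw [h1]
      have : ε₀ * t₁ * t₃ ≤ (t₁ + t₂ - t₃) * (t₂ + t₃ - t₁) :=
        mul_le_mul hw (by linarith) (by linarith) (by linarith)
      linarith
    have h3 := le_of_mul_le_mul_right h2 hd
    have h4 : cc t₁ t₂ t₃ ≤ 0 := by
      rw [cc]; exact div_nonpos_of_nonpos_of_nonneg (by nlinarith) hd.le
    refine ⟨by linarith, Real.arccos (cc t₁ t₂ t₃), ?_, ?_, Real.cos_arccos (by linarith) (by linarith)⟩
    · rw [abs_of_nonneg (Real.arccos_nonneg _)]; exact Real.arccos_le_pi _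
    · rw [Real.sin_arccos, abs_of_nonneg (Real.sqrt_nonneg _)]
      exact Real.sqrt_le_sqrt (by nlinarith)

theorem comb {x y : ℂ} {α s₀ B : ℝ} (hs₀ : 0 < s₀) (hs : s₀ ≤ |Real.sin α|)
    (h1 : ‖y - Complex.exp (-α * I) * x‖ ≤ B) (h2 : ‖y - Complex.exp (-(-α : ℝ) * I) * x‖ ≤ B) :
    ‖x‖ ≤ B / s₀ := by
  have h3 : (y - Complex.exp (-α * I) * x) - (y - Complex.exp (-(-α : ℝ) * I) * x)
      = 2 * (Real.sin α : ℂ) * I * x := by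
    rw [ofReal_sin, Complex.two_sin]; push_cast
    simp only [neg_neg]
    linear_combination (-(Complex.exp (-α * I) - Complex.exp (α * I)) * x) * I_mul_I
  have h4 := norm_sub_le (y - Complex.exp (-α * I) * x) (y - Complex.exp (-(-α : ℝ) * I) * x)
  rw [h3, norm_mul, norm_mul, norm_mul, norm_I, norm_real, Real.norm_eq_abs] at h4
  rw [le_div_iff₀ hs₀]
  simp only [norm_ofNat] at h4
  nlinarith [norm_nonneg x]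

theorem Zs_subset (ρ : ℝ) (J : Set ℝ) : Zs (Bl ρ) J ⊆
    Metric.closedBall 0 (6 * |ρ|) ×ˢ Metric.closedBall 0 (6 * |ρ|) := by
  rintro P ⟨M, hM, a, ha, b, hb, θ, -, s, hs, h1, h2⟩
  have hM' : ‖M‖ ≤ |ρ| := (mem_closedBall_zero_iff.1 hM.2).trans (le_abs_self ρ)
  have he : ∀ x ∈ Icc (0 : ℝ) 1, Real.exp |x| ≤ 3 := fun x hx => by
    rw [abs_of_nonneg hx.1]
    exact (Real.exp_le_exp.2 hx.2).trans (Real.exp_one_lt_d9.le.trans (by norm_num))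
  refine ⟨mem_closedBall_zero_iff.2 ?_, mem_closedBall_zero_iff.2 ?_⟩
  · rw [h1]
    refine (norm_fl_le a M).trans ?_
    nlinarith [he a ha, norm_nonneg M, abs_nonneg ρ]
  · rw [h2, norm_smul, Real.norm_eq_abs, abs_of_nonneg (by linarith [hs.1])]
    have := norm_fl_le b (rot θ M)
    rw [norm_rot] at this
    have h3 : ‖fl b (rot θ M)‖ ≤ 3 * |ρ| := this.trans (by nlinarith [he b hb, norm_nonneg M])
    nlinarith [hs.2, norm_nonneg (fl b (rot θ M))]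

theorem le_of_ofReal_sq {y D : ℝ} (hD : 0 ≤ D) (h : ENNReal.ofReal y ^ 2 ≤ ENNReal.ofReal (D ^ 2)) :
    y ≤ D := by
  rcases le_or_gt y 0 with hy | hy
  · linarith
  rw [← ENNReal.ofReal_pow hy.le, ENNReal.ofReal_le_ofReal_iff (by positivity)] at h
  exact (pow_le_pow_iff_left₀ hy.le hD two_ne_zero).1 h

/-- the bounded form of the key inequality -/
theorem key_bdd {s₀ : ℝ} (hs₀ : 0 < s₀) {Ψ : E → ℂ} (hΨ : Test Ψ) (K : ℝ) : ∃ C : ℝ, 0 ≤ C ∧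
    ∀ (A t₁ t₂ t₃ α : ℝ) (Φ₁ Φ₂ Φ₃ : ℤ → E → ℂ) (m₁ m₂ m₃ : ℤ), 1 ≤ t₁ → 1 / s₀ ≤ √t₁ →
      t₁ ≤ t₂ → t₂ ≤ t₃ → t₃ ≤ 2 * t₂ → Sys t₁ Φ₁ → Sys t₂ Φ₂ → Sys t₃ Φ₃ → |α| ≤ Real.pi →
      s₀ ≤ |Real.sin α| → Real.cos α = cc t₁ t₂ t₃ → 0 ≤ A →
      Rec (K + 8) A t₁ t₂ t₃ (tau Ψ Φ₁ Φ₂ Φ₃) → Adm K t₁ t₂ t₃ m₁ m₂ m₃ →
      ‖tau Ψ Φ₁ Φ₂ Φ₃ (m₁ + 1) m₂ (m₃ - 1) -
          Complex.exp (-α * I) * tau Ψ Φ₁ Φ₂ Φ₃ m₁ m₂ m₃‖ ≤ C * A / √t₁ + C := by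
  obtain ⟨K', hK'⟩ := exists_pks K
  obtain ⟨C, hC, hkey⟩ := key hs₀ K'
  obtain ⟨A₀, ρ, hA₀, hA, hz⟩ := hΨ.bound
  obtain ⟨L, hL⟩ := lift_bound (6 * |ρ|) K'
  refine ⟨C + √(C * A₀ ^ 2 * (2 * |L| ^ 3)), by positivity, ?_⟩
  intro A t₁ t₂ t₃ α Φ₁ Φ₂ Φ₃ m₁ m₂ m₃ a₁ hN t12 t23 t32 h₁ h₂ h₃ hα hsin hcos hA0 hrec hadm
  have a₂ : 1 ≤ t₂ := a₁.trans t12
  have a₃ : 1 ≤ t₃ := a₂.trans t23
  obtain ⟨c₁, c₂, c₃, hp⟩ := hK' t₁ t₂ t₃ m₁ a₁ a₂ a₃ hadm.1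
  have h := hkey K A A₀ t₁ t₂ t₃ α Φ₁ Φ₂ Φ₃ Ψ (Bl ρ) (Bl ρ) m₁ m₂ m₃ c₁ c₂ c₃ a₁ hN t12 t23 t32
    h₁ h₂ h₃ hα hsin hcos hΨ (isCompact_Bl ρ) (isCompact_Bl ρ) inter_subset_left inter_subset_left
    (fun θ M => rot_mem_Bl θ ρ M) (fun θ M => rot_mem_Bl θ ρ M) hA₀ hA (fun M hM h _ => hz M hM h)
    hrec hadm hp
  have hL' : ENNReal.ofReal L ≤ ENNReal.ofReal |L| := ENNReal.ofReal_le_ofReal (le_abs_self L)
  have l₁ := (hL t₁ c₁ Φ₁ a₁ h₁ hp.k₁).trans hL'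
  have l₂ := (hL t₂ c₂ Φ₂ a₂ h₂ hp.k₂).trans hL'
  have l₃ := (hL t₃ c₃ Φ₃ a₃ h₃ hp.k₃).trans hL'
  have := lift_fin a₁ h₁ hp.k₁
  have l₂' : lift t₂ c₂ Φ₂ (Bl ρ) ≤ ENNReal.ofReal |L| :=
    (measure_mono (inter_subset_right.trans (Metric.closedBall_subset_closedBall
      (by linarith [le_abs_self ρ, abs_nonneg ρ])))).trans l₂
  have lz : ∀ J, ((lift t₃ c₃ Φ₃).prod (lift t₁ c₁ Φ₁)) (Zs (Bl ρ) J) ≤
      ENNReal.ofReal |L| * ENNReal.ofReal |L| := fun J =>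
    (measure_mono (Zs_subset ρ J)).trans (by rw [Measure.prod_prod]; exact mul_le_mul' l₃ l₁)
  have h2 := h.trans (mul_le_mul_right (add_le_add (mul_le_mul' l₂' (lz _)) (mul_le_mul' l₂' (lz _))) _)
  rw [← ENNReal.ofReal_mul (abs_nonneg L), ← ENNReal.ofReal_mul (abs_nonneg L),
    ← ENNReal.ofReal_add (by positivity) (by positivity), ← ENNReal.ofReal_mul (by positivity),
    show C * A₀ ^ 2 * (|L| * (|L| * |L|) + |L| * (|L| * |L|)) = √(C * A₀ ^ 2 * (2 * |L| ^ 3)) ^ 2 by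
      rw [Real.sq_sqrt (by positivity)]; ring] at h2
  have h3 := le_of_ofReal_sq (Real.sqrt_nonneg _) h2
  have h4 : C * A / √t₁ ≤ (C + √(C * A₀ ^ 2 * (2 * |L| ^ 3))) * A / √t₁ := by
    gcongr; exact le_add_of_nonneg_right (Real.sqrt_nonneg _)
  linarith

/-- polynomial bounds for the triple products -/
def Level (ε₀ : ℝ) (p : ℕ) : Prop :=
  ∀ Ψ : E → ℂ, Test Ψ → ∀ K : ℝ, ∃ C T : ℝ, 0 ≤ C ∧ ∀ (t₁ t₂ t₃ : ℝ) (Φ₁ Φ₂ Φ₃ : ℤ → E → ℂ),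
    T ≤ t₁ → 1 ≤ t₁ → t₁ ≤ t₂ → t₂ ≤ t₃ → ε₀ * t₁ ≤ |t₁ + t₂ - t₃| →
    Sys t₁ Φ₁ → Sys t₂ Φ₂ → Sys t₃ Φ₃ → ∀ a b c : ℤ, Adm K t₁ t₂ t₃ a b c →
    ‖tau Ψ Φ₁ Φ₂ Φ₃ a b c‖ ≤ C * √t₁ ^ p

theorem level_four (ε₀ : ℝ) : Level ε₀ 4 := by
  intro Ψ hΨ K
  obtain ⟨C, hC⟩ := crude hΨ K
  refine ⟨|C|, 1, abs_nonneg C, fun t₁ t₂ t₃ Φ₁ Φ₂ Φ₃ _ a₁ t12 t23 _ h₁ h₂ h₃ a b c hadm => ?_⟩
  refine (hC t₁ t₂ t₃ Φ₁ Φ₂ Φ₃ a₁ (by linarith) (by linarith) h₁ h₂ h₃ a b c hadm).trans ?_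
  rw [show √t₁ ^ 4 = (√t₁ ^ 2) ^ 2 by ring, Real.sq_sqrt (by linarith)]
  gcongr; exact le_abs_self C

theorem level_rec {ε₀ : ℝ} {p : ℕ} (h : Level ε₀ p) {Ψ : E → ℂ} (hΨ : Test Ψ) (K : ℝ) :
    ∃ C T : ℝ, 0 ≤ C ∧ ∀ (t₁ t₂ t₃ : ℝ) (Φ₁ Φ₂ Φ₃ : ℤ → E → ℂ),
    T ≤ t₁ → 1 ≤ t₁ → t₁ ≤ t₂ → t₂ ≤ t₃ → ε₀ * t₁ ≤ |t₁ + t₂ - t₃| →
    Sys t₁ Φ₁ → Sys t₂ Φ₂ → Sys t₃ Φ₃ → Rec K (C * √t₁ ^ p) t₁ t₂ t₃ (tau Ψ Φ₁ Φ₂ Φ₃) := by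
  obtain ⟨C₀, hC₀, hrec⟩ := rec_tau K
  obtain ⟨C₁, T₁, p₁, q₁⟩ := h Ψ hΨ (K + 1)
  obtain ⟨C₂, T₂, p₂, q₂⟩ := h (Ra Ψ) hΨ.ra (K + 1)
  obtain ⟨C₃, T₃, p₃, q₃⟩ := h (Lo Ψ) hΨ.lo (K + 1)
  refine ⟨C₀ * (C₁ + C₂ + C₃), max T₁ (max T₂ T₃), by positivity,
    fun t₁ t₂ t₃ Φ₁ Φ₂ Φ₃ hT a₁ t12 t23 hw h₁ h₂ h₃ => ?_⟩
  rw [mul_assoc]
  simp only [max_le_iff] at hT
  refine hrec Ψ _ t₁ t₂ t₃ Φ₁ Φ₂ Φ₃ hΨ a₁ (by linarith) (by linarith) h₁ h₂ h₃ fun a b c hadm => ?_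
  have hp : 0 ≤ √t₁ ^ p := by positivity
  refine ⟨(q₁ t₁ t₂ t₃ Φ₁ Φ₂ Φ₃ hT.1 a₁ t12 t23 hw h₁ h₂ h₃ a b c hadm).trans ?_,
    (q₂ t₁ t₂ t₃ Φ₁ Φ₂ Φ₃ hT.2.1 a₁ t12 t23 hw h₁ h₂ h₃ a b c hadm).trans ?_,
    (q₃ t₁ t₂ t₃ Φ₁ Φ₂ Φ₃ hT.2.2 a₁ t12 t23 hw h₁ h₂ h₃ a b c hadm).trans ?_⟩ <;>
    exact mul_le_mul_of_nonneg_right (by linarith) hp

theorem level_step {ε₀ : ℝ} (hε : 0 < ε₀) {p : ℕ} (h : Level ε₀ (p + 1)) : Level ε₀ p := by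
  intro Ψ hΨ K
  have hs₀ : 0 < √(ε₀ / 2) := Real.sqrt_pos.2 (by positivity)
  obtain ⟨C₁, T₁, p₁, q₁⟩ := level_rec h hΨ (K + 8)
  obtain ⟨C₂, p₂, q₂⟩ := seq_forbidden (half_pos hε)
  obtain ⟨C₃, p₃, q₃⟩ := key_bdd hs₀ hΨ K
  refine ⟨C₂ * C₁ + (C₃ * C₁ + C₃) / √(ε₀ / 2), max T₁ ((1 / √(ε₀ / 2)) ^ 2), by positivity,
    fun t₁ t₂ t₃ Φ₁ Φ₂ Φ₃ hT a₁ t12 t23 hw h₁ h₂ h₃ a b c hadm => ?_⟩
  simp only [max_le_iff] at hT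
  have hrec := q₁ t₁ t₂ t₃ Φ₁ Φ₂ Φ₃ hT.1 a₁ t12 t23 hw h₁ h₂ h₃
  have b₁ := Real.one_le_sqrt.2 a₁
  have hp : 1 ≤ √t₁ ^ p := one_le_pow₀ b₁
  have hq : ∀ D : ℝ, D * (C₁ * √t₁ ^ (p + 1)) / √t₁ = D * C₁ * √t₁ ^ p := fun D => by
    field_simp; ring
  rcases angle_cases hε a₁ t12 t23 hw with hc | ⟨t32, α, hα, hsin, hcos⟩
  · refine (q₂ K _ t₁ t₂ t₃ _ a₁ t12 t23 hc hrec a b c hadm).trans ?_
    rw [hq]
    exact mul_le_mul_of_nonneg_right (le_add_of_nonneg_right (by positivity)) (by positivity)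
  · have hN : 1 / √(ε₀ / 2) ≤ √t₁ := Real.le_sqrt_of_sq_le hT.2
    have e1 := q₃ _ t₁ t₂ t₃ α Φ₁ Φ₂ Φ₃ a b c a₁ hN t12 t23 t32 h₁ h₂ h₃ hα hsin hcos
      (by positivity) hrec hadm
    have e2 := q₃ _ t₁ t₂ t₃ (-α) Φ₁ Φ₂ Φ₃ a b c a₁ hN t12 t23 t32 h₁ h₂ h₃ (by rwa [abs_neg])
      (by rwa [Real.sin_neg, abs_neg]) (by rwa [Real.cos_neg]) (by positivity) hrec hadm
    refine (comb hs₀ hsin e1 e2).trans ?_
    rw [hq, add_mul, div_mul_eq_mul_div]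
    refine le_add_of_nonneg_of_le (by positivity) (div_le_div_of_nonneg_right ?_ hs₀.le)
    nlinarith

theorem level_zero {ε₀ : ℝ} (hε : 0 < ε₀) : Level ε₀ 0 :=
  level_step hε (level_step hε (level_step hε (level_step hε (level_four ε₀))))

theorem Zs_mono {Q Q' : Set E} {J J' : Set ℝ} (hQ : Q ⊆ Q') (hJ : J ⊆ J') : Zs Q J ⊆ Zs Q' J' := by
  rintro P ⟨M, hM, a, ha, b, hb, θ, hθ, s, hs, h⟩
  exact ⟨M, hQ hM, a, ha, b, hb, θ, hJ hθ, s, hs, h⟩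

theorem tendsto_div_sqrt {l : Filter ℕ} {t : ℕ → ℝ} (ht : Tendsto t l atTop) (D : ℝ) :
    Tendsto (fun j => D / √(t j)) l (𝓝 0) :=
  tendsto_const_nhds.div_atTop (Real.tendsto_sqrt_atTop.comp ht)

/-- the limiting argument for one of the two signs -/
theorem limit_step {s₀ : ℝ} (hs₀ : 0 < s₀) {Ψ : E → ℂ} (hΨ : Test Ψ) (𝒰 : Ultrafilter ℕ) (A : ℝ)
    (t₁ t₂ t₃ α : ℕ → ℝ) (Φ₁ Φ₂ Φ₃ : ℕ → ℤ → E → ℂ) (ht : Tendsto t₁ 𝒰 atTop)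
    (a₁ : ∀ j, 1 ≤ t₁ j) (hN : ∀ j, 1 / s₀ ≤ √(t₁ j)) (t12 : ∀ j, t₁ j ≤ t₂ j)
    (t23 : ∀ j, t₂ j ≤ t₃ j) (t32 : ∀ j, t₃ j ≤ 2 * t₂ j) (h₁ : ∀ j, Sys (t₁ j) (Φ₁ j))
    (h₂ : ∀ j, Sys (t₂ j) (Φ₂ j)) (h₃ : ∀ j, Sys (t₃ j) (Φ₃ j)) (hα : ∀ j, |α j| ≤ Real.pi)
    (hsin : ∀ j, s₀ ≤ |Real.sin (α j)|) (hcos : ∀ j, Real.cos (α j) = cc (t₁ j) (t₂ j) (t₃ j))
    (hrec : ∀ j, Rec (0 + 8) A (t₁ j) (t₂ j) (t₃ j) (tau Ψ (Φ₁ j) (Φ₂ j) (Φ₃ j)))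
    {ε : ℝ} (hε : 0 < ε) :
    ∀ᶠ j in (𝒰 : Filter ℕ), ‖tau Ψ (Φ₁ j) (Φ₂ j) (Φ₃ j) (0 + 1) 0 (0 - 1) -
      Complex.exp (-(α j) * I) * tau Ψ (Φ₁ j) (Φ₂ j) (Φ₃ j) 0 0 0‖ ≤ ε := by
  have a₂ : ∀ j, 1 ≤ t₂ j := fun j => (a₁ j).trans (t12 j)
  have a₃ : ∀ j, 1 ≤ t₃ j := fun j => (a₂ j).trans (t23 j)
  obtain ⟨K', hK'⟩ := exists_pks 0
  obtain ⟨C, hC, hkey⟩ := key hs₀ K'
  obtain ⟨A₀, ρ, hA₀, hA, hz⟩ := hΨ.bound
  choose c₁ c₂ c₃ hp using fun j => hK' (t₁ j) (t₂ j) (t₃ j) 0 (a₁ j) (a₂ j) (a₃ j) (by simp)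
  have ht₂ : Tendsto t₂ 𝒰 atTop := tendsto_atTop_mono t12 ht
  have ht₃ : Tendsto t₃ 𝒰 atTop := tendsto_atTop_mono t23 ht₂
  obtain ⟨μ₁, g₁, v₁⟩ := exists_limit 𝒰 K' t₁ c₁ Φ₁ a₁ ht h₁ fun j => (hp j).k₁
  obtain ⟨μ₂, g₂, v₂⟩ := exists_limit 𝒰 K' t₂ c₂ Φ₂ a₂ ht₂ h₂ fun j => (hp j).k₂
  obtain ⟨μ₃, g₃, v₃⟩ := exists_limit 𝒰 K' t₃ c₃ Φ₃ a₃ ht₃ h₃ fun j => (hp j).k₃
  have f₁ := fun j => lift_fin (a₁ j) (h₁ j) (hp j).k₁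
  have f₂ := fun j => lift_fin (a₂ j) (h₂ j) (hp j).k₂
  have f₃ := fun j => lift_fin (a₃ j) (h₃ j) (hp j).k₃
  obtain ⟨β, -, hβ⟩ := (isCompact_Icc (a := -Real.pi) (b := Real.pi)).ultrafilter_le_nhds
    (𝒰.map α) (by
      rw [Ultrafilter.coe_map, le_principal_iff, mem_map]
      exact univ_mem' fun j => abs_le.1 (hα j))
  have hβ' : Tendsto α 𝒰 (𝓝 β) := hβ
  have hsβ : s₀ ≤ |Real.sin β| :=
    ge_of_tendsto' ((Real.continuous_sin.abs.tendsto β).comp hβ') hsin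
  set θ := -β / 2 with hθ
  have hθ0 : Real.sin θ * Real.cos θ ≠ 0 := by
    have h1 : Real.sin θ * Real.cos θ = -Real.sin β / 2 := by
      rw [← Real.sin_neg, show -β = 2 * θ by rw [hθ]; ring, Real.sin_two_mul]; ring
    rw [h1]
    have : Real.sin β ≠ 0 := abs_pos.1 (hs₀.trans_le hsβ)
    simpa using this
  have := g₁.fin
  have := g₂.fin
  have := g₃.fin
  set Z₁ := (μ₃.prod μ₁) (Zs (Bl ρ) (Icc (θ - 1) (θ + 1))) + 1 with hZ₁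
  set M₂ := μ₂ (Bl ρ) + 1 with hM₂
  have cZ := isCompact_Zs (isCompact_Bl ρ) (isCompact_Icc (a := θ - 1) (b := θ + 1))
  have hZ₁' : Z₁ ≠ ⊤ := ENNReal.add_ne_top.2 ⟨cZ.measure_lt_top.ne, ENNReal.one_ne_top⟩
  have hM₂' : M₂ ≠ ⊤ :=
    ENNReal.add_ne_top.2 ⟨(isCompact_Bl ρ).measure_lt_top.ne, ENNReal.one_ne_top⟩
  obtain ⟨κ, hκ, hκ'⟩ := ENNReal.exists_pos_mul_lt
    (a := ENNReal.ofReal (C * A₀ ^ 2) * (2 * Z₁ + 2 * M₂)) (b := ENNReal.ofReal ((ε / 2) ^ 2))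
    (ENNReal.mul_ne_top ENNReal.ofReal_ne_top (ENNReal.add_ne_top.2
      ⟨ENNReal.mul_ne_top (by simp) hZ₁', ENNReal.mul_ne_top (by simp) hM₂'⟩))
    (by simp only [ne_eq, ENNReal.ofReal_eq_zero, not_le]; positivity)
  obtain ⟨P, hP⟩ := null_cross g₁ g₃ hθ0 (isCompact_Bl ρ) inter_subset_left hκ.ne'
  obtain ⟨r, hr, hr'⟩ := small_nbhd g₂ P ρ hκ.ne'
  set Qa : Set E := {M ∈ Bl ρ | ∃ p ∈ P, dist (pr M) p ≤ r} with hQa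
  set Qb : Set E := {M ∈ Bl ρ | ∀ p ∈ P, r ≤ dist (pr M) p} with hQb
  have hpr : ContinuousOn pr (Bl ρ) :=
    (contDiffOn_pr (n := 0)).continuousOn.mono (inter_subset_left.trans Sh_subset)
  have ca : IsCompact Qa := by
    refine (isCompact_Bl ρ).of_isClosed_subset ?_ (sep_subset _ _)
    have : IsClosed (⋃ p ∈ P, Metric.closedBall p r) :=
      isClosed_biUnion_finset fun p _ => Metric.isClosed_closedBall
    convert hpr.preimage_isClosed_of_isClosed (isCompact_Bl ρ).isClosed this using 1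
    ext M; simp [hQa]
  have cb : IsCompact Qb := by
    refine (isCompact_Bl ρ).of_isClosed_subset ?_ (sep_subset _ _)
    have : IsClosed (⋂ p ∈ P, (Metric.ball p r)ᶜ) :=
      isClosed_biInter fun p _ => Metric.isOpen_ball.isClosed_compl
    convert hpr.preimage_isClosed_of_isClosed (isCompact_Bl ρ).isClosed this using 1
    ext M; simp [hQb]
  obtain ⟨η, hη, hη'⟩ := hP Qb (sep_subset _ _) cb fun M hM hm => by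
    have := hM.2 _ hm
    rw [dist_self] at this; linarith
  have e₁ := vague_compact f₂ g₂.fin v₂ ca hκ.ne'
  have e₂ := vague_compact f₂ g₂.fin v₂ (isCompact_Bl ρ) one_ne_zero
  have e₃ := vague_prod f₃ f₁ g₃.fin g₁.fin v₃ v₁ cZ one_ne_zero
  have e₄ := vague_prod f₃ f₁ g₃.fin g₁.fin v₃ v₁
    (isCompact_Zs cb (isCompact_Icc (a := θ - η) (b := θ + η))) hκ.ne'
  have e₅ : ∀ᶠ j in (𝒰 : Filter ℕ), |α j - β| + (1 / 4) / √(t₁ j) < min η 1 := by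
    have h1 : Tendsto (fun j => |α j - β| + (1 / 4) / √(t₁ j)) 𝒰 (𝓝 (|β - β| + 0)) :=
      ((hβ'.sub_const β).abs).add (tendsto_div_sqrt ht _)
    exact h1.eventually (gt_mem_nhds (by simpa using hη))
  have e₆ : ∀ᶠ j in (𝒰 : Filter ℕ), C * A / √(t₁ j) < ε / 2 :=
    (tendsto_div_sqrt ht _).eventually (gt_mem_nhds (half_pos hε))
  filter_upwards [e₁, e₂, e₃, e₄, e₅, e₆] with j e₁ e₂ e₃ e₄ e₅ e₆
  have h := hkey 0 A A₀ (t₁ j) (t₂ j) (t₃ j) (α j) (Φ₁ j) (Φ₂ j) (Φ₃ j) Ψ Qa Qb 0 0 0 (c₁ j) (c₂ j)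
    (c₃ j) (a₁ j) (hN j) (t12 j) (t23 j) (t32 j) (h₁ j) (h₂ j) (h₃ j) (hα j) (hsin j) (hcos j) hΨ
    ca cb ((sep_subset _ _).trans inter_subset_left) ((sep_subset _ _).trans inter_subset_left)
    (fun θ M => by simp only [hQa, mem_ofPred_eq, rot_mem_Bl, pr_rot])
    (fun θ M => by simp only [hQb, mem_ofPred_eq, rot_mem_Bl, pr_rot]) hA₀ hA
    (fun M hM ha hb => hz M hM fun hB => hb ⟨hB, fun p hp => by
      by_contra hlt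
      exact ha ⟨hB, p, hp, (not_le.1 hlt).le⟩⟩) (hrec j) ⟨by simp, by simp, by simp⟩ (hp j)
  have hJ : ∀ x : ℝ, min η 1 ≤ x →
      Icc (-α j / 2 - 1 / (4 * √(t₁ j))) (-α j / 2 + 1 / (4 * √(t₁ j))) ⊆ Icc (θ - x) (θ + x) := by
    intro x hx
    have h1 : 1 / (4 * √(t₁ j)) = (1 / 4) / √(t₁ j) := by rw [div_div]
    have h2 := le_abs_self (α j - β)
    have h3 := neg_abs_le (α j - β)
    have h4 := abs_nonneg (α j - β)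
    exact Icc_subset_Icc (by rw [h1, hθ]; linarith) (by rw [h1, hθ]; linarith)
  have b₁ : lift (t₂ j) (c₂ j) (Φ₂ j) Qa ≤ κ + κ := e₁.trans (add_le_add_left hr' _)
  have b₂ : lift (t₂ j) (c₂ j) (Φ₂ j) Qb ≤ M₂ := (measure_mono (sep_subset _ _)).trans e₂
  have b₃ := (measure_mono (Zs_mono (Q := Qa) (sep_subset _ _) (hJ 1 (min_le_right _ _)))).trans e₃
  have b₄ := ((measure_mono (Zs_mono (Q := Qb) subset_rfl (hJ η (min_le_left _ _)))).trans e₄).trans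
    (add_le_add_left hη' _)
  have h2 := h.trans (mul_le_mul_right (add_le_add (mul_le_mul' b₁ b₃) (mul_le_mul' b₂ b₄)) _)
  have h3 : ENNReal.ofReal (C * A₀ ^ 2) * ((κ + κ) * Z₁ + M₂ * (κ + κ)) =
      κ * (ENNReal.ofReal (C * A₀ ^ 2) * (2 * Z₁ + 2 * M₂)) := by ring
  have h4 := le_of_ofReal_sq (half_pos hε).le (h2.trans (h3.le.trans hκ'.le))
  exact (sub_le_iff_le_add.1 h4).trans (by linarith)

/-- the triple products tend to zero -/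
theorem main {Ψ : E → ℂ} (hΨ : Test Ψ) {ε₀ ε : ℝ} (hε₀ : 0 < ε₀) (hε : 0 < ε) :
    ∃ T : ℝ, ∀ (t₁ t₂ t₃ : ℝ) (Φ₁ Φ₂ Φ₃ : ℤ → E → ℂ), T ≤ t₁ → t₁ ≤ t₂ → t₂ ≤ t₃ →
      ε₀ * t₁ ≤ |t₁ + t₂ - t₃| → Sys t₁ Φ₁ → Sys t₂ Φ₂ → Sys t₃ Φ₃ →
      ‖tau Ψ Φ₁ Φ₂ Φ₃ 0 0 0‖ < ε := by
  have hs₀ : 0 < √(ε₀ / 2) := Real.sqrt_pos.2 (by positivity)
  obtain ⟨A, T₁, hA, hrec⟩ := level_rec (level_zero hε₀) hΨ (0 + 8)
  simp only [pow_zero, mul_one] at hrec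
  obtain ⟨C₂, p₂, q₂⟩ := seq_forbidden (half_pos hε₀)
  by_contra hcon
  push Not at hcon
  choose t₁ t₂ t₃ Φ₁ Φ₂ Φ₃ hT t12 t23 hw h₁ h₂ h₃ hbig using fun j : ℕ =>
    hcon (max (max (j : ℝ) 1) (max (max T₁ ((1 / √(ε₀ / 2)) ^ 2)) ((C₂ * A / ε + 1) ^ 2)))
  simp only [max_le_iff] at hT
  have a₁ : ∀ j, 1 ≤ t₁ j := fun j => (hT j).1.2
  have hr := fun j => hrec (t₁ j) (t₂ j) (t₃ j) (Φ₁ j) (Φ₂ j) (Φ₃ j) (hT j).2.1.1 (a₁ j) (t12 j)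
    (t23 j) (hw j) (h₁ j) (h₂ j) (h₃ j)
  have hall : ∀ j, t₃ j ≤ 2 * t₂ j ∧ ∃ α : ℝ, |α| ≤ Real.pi ∧
      √(ε₀ / 2) ≤ |Real.sin α| ∧ Real.cos α = cc (t₁ j) (t₂ j) (t₃ j) := fun j => by
    refine (angle_cases hε₀ (a₁ j) (t12 j) (t23 j) (hw j)).resolve_left fun hc => ?_
    have h1 := (hbig j).trans (q₂ 0 A _ _ _ _ (a₁ j) (t12 j) (t23 j) hc (hr j) 0 0 0
      ⟨by simp, by simp, by simp⟩)
    have h2 : C₂ * A / ε + 1 ≤ √(t₁ j) := Real.le_sqrt_of_sq_le (hT j).2.2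
    have h3 : 0 < √(t₁ j) := Real.sqrt_pos.2 (by linarith [a₁ j])
    rw [le_div_iff₀ h3] at h1
    have h4 : ε * (C₂ * A / ε + 1) ≤ ε * √(t₁ j) := mul_le_mul_of_nonneg_left h2 hε.le
    rw [mul_add, mul_div_cancel₀ _ hε.ne'] at h4
    linarith
  choose t32 α hα hsin hcos using hall
  have ht : Tendsto t₁ (hyperfilter ℕ) atTop :=
    (tendsto_atTop_mono (fun j => (hT j).1.1) tendsto_natCast_atTop_atTop).mono_left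
      (Nat.cofinite_eq_atTop ▸ hyperfilter_le_cofinite)
  have hN : ∀ j, 1 / √(ε₀ / 2) ≤ √(t₁ j) := fun j => Real.le_sqrt_of_sq_le (hT j).2.1.2
  have hε' : 0 < ε / 2 * √(ε₀ / 2) := by positivity
  have e1 := limit_step hs₀ hΨ (hyperfilter ℕ) A t₁ t₂ t₃ α Φ₁ Φ₂ Φ₃ ht a₁ hN t12 t23 t32 h₁ h₂ h₃
    hα hsin hcos hr hε'
  have e2 := limit_step hs₀ hΨ (hyperfilter ℕ) A t₁ t₂ t₃ (fun j => -α j) Φ₁ Φ₂ Φ₃ ht a₁ hN t12 t23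
    t32 h₁ h₂ h₃ (fun j => by rw [abs_neg]; exact hα j)
    (fun j => by rw [Real.sin_neg, abs_neg]; exact hsin j)
    (fun j => by rw [Real.cos_neg]; exact hcos j) hr hε'
  obtain ⟨j, e1, e2⟩ := (e1.and e2).exists
  have h1 := comb hs₀ (hsin j) e1 e2
  rw [mul_div_cancel_right₀ _ hs₀.ne'] at h1
  linarith [hbig j]

end Pool.Agent.MP_a28cf0_nt.Cub

end
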