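import Pool.Agent.MP_a28cf0_nt.Mg.Dec_Calc

-- part MP_a28cf0_nt.Dec.Osc
section

set_option autoImplicit false

namespace Pool.Agent.MP_a28cf0_nt.Dec

open MeasureTheory Complex Filter Topology Set
open scoped ENNReal MatrixGroups ComplexConjugate
open Pool.Agent.MP_a28cf0_nt.Cub

/-! Non stationary phase in one variable: three integrations by parts.
One step: if `a l = a r = 0` then `∫ a e^{iφ} = i ∫ (a / p₀)' e^{iφ}` since
`(e^{iφ})' = i p₀ e^{iφ}` (`intervalIntegral.integral_eq_sub_of_hasDerivAt` applied to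
`a / p₀ * e^{iφ}`).  Write `b₀ = (a₀/p₀)' = a₁/p₀ - a₀ p₁/p₀²`, its two derivatives, and so on;
the last function is a sum of the terms `a₃/p₀³, a₂p₁/p₀⁴, a₁p₂/p₀⁴, a₁p₁²/p₀⁵, a₀p₃/p₀⁴,
a₀p₁p₂/p₀⁵, a₀p₁³/p₀⁶` with integer coefficients, each at most `B³ M / μ³`.
It may help to put `u = 1/p₀` with derivatives `u₁ u₂ u₃`, `|u| ≤ 1/μ`, `|u₁| ≤ B/μ`,
`|u₂| ≤ 3B²/μ`, `|u₃| ≤ 13 B³/μ`. -/

theorem osc1_cg {f g : ℝ → ℂ} {a b : ℂ} {x : ℝ} (h : HasDerivAt g b x) (e : f = g) (e' : a = b) :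
    HasDerivAt f a x := by
  rw [e, e']; exact h

theorem osc1_step (a a' u u' : ℝ → ℂ) (φ p : ℝ → ℝ) (l r : ℝ) (hlr : l ≤ r)
    (ha : ∀ x ∈ Icc l r, HasDerivAt a (a' x) x) (hu : ∀ x ∈ Icc l r, HasDerivAt u (u' x) x)
    (hφ : ∀ x ∈ Icc l r, HasDerivAt φ (p x) x) (hpu : ∀ x ∈ Icc l r, u x * (p x : ℂ) = 1)
    (ca : ContinuousOn a' (Icc l r)) (cu : ContinuousOn u' (Icc l r))
    (hl : a l = 0) (hr : a r = 0) :
    ‖∫ x in l..r, a x * Complex.exp ((φ x : ℂ) * I)‖ =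
      ‖∫ x in l..r, (a' x * u x + a x * u' x) * Complex.exp ((φ x : ℂ) * I)‖ := by
  have c0 : ContinuousOn a (Icc l r) := fun x hx => (ha x hx).continuousAt.continuousWithinAt
  have c1 : ContinuousOn u (Icc l r) := fun x hx => (hu x hx).continuousAt.continuousWithinAt
  have c2 : ContinuousOn φ (Icc l r) := fun x hx => (hφ x hx).continuousAt.continuousWithinAt
  have c3 : ContinuousOn (fun x => Complex.exp ((φ x : ℂ) * I)) (Icc l r) :=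
    ((Complex.continuous_ofReal.comp_continuousOn c2).mul continuousOn_const).cexp
  have i1 : IntervalIntegrable (fun x => a x * Complex.exp ((φ x : ℂ) * I)) volume l r :=
    (c0.mul c3).intervalIntegrable_of_Icc hlr
  have i2 : IntervalIntegrable
      (fun x => (a' x * u x + a x * u' x) * Complex.exp ((φ x : ℂ) * I)) volume l r :=
    (((ca.mul c1).add (c0.mul cu)).mul c3).intervalIntegrable_of_Icc hlr
  have key : ∫ x in l..r, ((a' x * u x + a x * u' x) * Complex.exp ((φ x : ℂ) * I)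
      + I * (a x * Complex.exp ((φ x : ℂ) * I))) =
      a r * u r * Complex.exp ((φ r : ℂ) * I) - a l * u l * Complex.exp ((φ l : ℂ) * I) := by
    apply intervalIntegral.integral_eq_sub_of_hasDerivAt
      (f := fun x => a x * u x * Complex.exp ((φ x : ℂ) * I))
    · intro x hx
      rw [uIcc_of_le hlr] at hx
      have h1 := ((ha x hx).mul (hu x hx)).mul
        (((hφ x hx).ofReal_comp.mul_const I).cexp)
      refine osc1_cg h1 rfl ?_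
      have := hpu x hx
      simp only [Pi.mul_apply]
      linear_combination (-(a x * I * Complex.exp ((φ x : ℂ) * I))) * this
    · exact i2.add (i1.const_mul I)
  rw [intervalIntegral.integral_add i2 (i1.const_mul I), intervalIntegral.integral_const_mul,
    hl, hr] at key
  have e : ∫ x in l..r, (a' x * u x + a x * u' x) * Complex.exp ((φ x : ℂ) * I) =
      -(I * ∫ x in l..r, a x * Complex.exp ((φ x : ℂ) * I)) := by
    linear_combination key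
  rw [e, norm_neg, norm_mul, Complex.norm_I, one_mul]

theorem osc1_mul {a b : ℂ} {s t : ℝ} (ha : ‖a‖ ≤ s) (hb : ‖b‖ ≤ t) : ‖a * b‖ ≤ s * t := by
  rw [norm_mul]
  exact mul_le_mul ha hb (norm_nonneg _) ((norm_nonneg _).trans ha)

theorem osc1_add {a b : ℂ} {s t : ℝ} (ha : ‖a‖ ≤ s) (hb : ‖b‖ ≤ t) : ‖a + b‖ ≤ s + t :=
  (norm_add_le _ _).trans (add_le_add ha hb)

theorem osc1_bd (a₀ a₁ a₂ a₃ u q₁ q₂ q₃ : ℂ) (v μ B M : ℝ) (hv : v * μ = 1) (hB : 1 ≤ B)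
    (hu : ‖u‖ ≤ v) (h1 : ‖q₁‖ ≤ B * μ) (h2 : ‖q₂‖ ≤ B * μ) (h3 : ‖q₃‖ ≤ B * μ)
    (m0 : ‖a₀‖ ≤ M) (m1 : ‖a₁‖ ≤ M) (m2 : ‖a₂‖ ≤ M) (m3 : ‖a₃‖ ≤ M)
    (u₁ u₂ u₃ b₀ b₁ b₂ : ℂ) (e1 : u₁ = -(q₁ * u * u))
    (e2 : u₂ = -(q₂ * u * u) + 2 * (q₁ * u) * (q₁ * u) * u)
    (e3 : u₃ = -(q₃ * u * u) + 6 * (q₁ * u) * (q₂ * u) * u
      + -(6 * (q₁ * u) * (q₁ * u) * (q₁ * u) * u))
    (f0 : b₀ = a₁ * u + a₀ * u₁) (f1 : b₁ = a₂ * u + 2 * a₁ * u₁ + a₀ * u₂)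
    (f2 : b₂ = a₃ * u + 3 * a₂ * u₁ + 3 * a₁ * u₂ + a₀ * u₃) :
    ‖(b₂ * u + 2 * b₁ * u₁ + b₀ * u₂) * u + (b₁ * u + b₀ * u₁) * u₁‖ ≤
      52 * B ^ 3 * M * v ^ 3 := by
  have v0 : 0 ≤ v := (norm_nonneg _).trans hu
  have M0 : 0 ≤ M := (norm_nonneg _).trans m0
  have B0 : 0 ≤ B := by linarith
  have hq : ∀ q : ℂ, ‖q‖ ≤ B * μ → ‖q * u‖ ≤ B := fun q h =>
    (osc1_mul h hu).trans (le_of_eq (by linear_combination B * hv))
  have n2 : ‖(2 : ℂ)‖ ≤ 2 := by simp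
  have n3 : ‖(3 : ℂ)‖ ≤ 3 := by simp
  have n6 : ‖(6 : ℂ)‖ ≤ 6 := by simp
  have B2 : B ≤ B ^ 2 := by nlinarith
  have B3 : B ^ 2 ≤ B ^ 3 := by nlinarith
  have k1 : ‖u₁‖ ≤ B * v := by
    rw [e1, norm_neg]; exact osc1_mul (hq _ h1) hu
  have k2 : ‖u₂‖ ≤ 3 * B ^ 2 * v := by
    rw [e2]
    refine (osc1_add (s := B * v) (by rw [norm_neg]; exact osc1_mul (hq _ h2) hu)
      (osc1_mul (osc1_mul (osc1_mul n2 (hq _ h1)) (hq _ h1)) hu)).trans ?_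
    have := mul_le_mul_of_nonneg_right B2 v0
    linarith
  have k3 : ‖u₃‖ ≤ 13 * B ^ 3 * v := by
    rw [e3]
    refine (osc1_add (osc1_add (s := B * v) (by rw [norm_neg]; exact osc1_mul (hq _ h3) hu)
      (osc1_mul (osc1_mul (osc1_mul n6 (hq _ h1)) (hq _ h2)) hu)) (t := 6 * B * B * B * v)
      (by
        rw [norm_neg]
        exact osc1_mul (osc1_mul (osc1_mul (osc1_mul n6 (hq _ h1)) (hq _ h1)) (hq _ h1)) hu)).trans
      ?_
    have := mul_le_mul_of_nonneg_right B2 v0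
    have := mul_le_mul_of_nonneg_right B3 v0
    linarith
  have w0 : 0 ≤ M * v := mul_nonneg M0 v0
  have t1 := mul_le_mul_of_nonneg_right hB w0
  have t2 := mul_le_mul_of_nonneg_right B2 w0
  have t3 := mul_le_mul_of_nonneg_right B3 w0
  have l0 : ‖b₀‖ ≤ 2 * B * (M * v) := by
    rw [f0]
    refine (osc1_add (osc1_mul m1 hu) (osc1_mul m0 k1)).trans ?_
    linarith
  have l1 : ‖b₁‖ ≤ 6 * B ^ 2 * (M * v) := by
    rw [f1]
    refine (osc1_add (osc1_add (osc1_mul m2 hu) (osc1_mul (osc1_mul n2 m1) k1))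
      (osc1_mul m0 k2)).trans ?_
    linarith
  have l2 : ‖b₂‖ ≤ 26 * B ^ 3 * (M * v) := by
    rw [f2]
    refine (osc1_add (osc1_add (osc1_add (osc1_mul m3 hu) (osc1_mul (osc1_mul n3 m2) k1))
      (osc1_mul (osc1_mul n3 m1) k2)) (osc1_mul m0 k3)).trans ?_
    linarith
  refine (osc1_add (osc1_mul (osc1_add (osc1_add (osc1_mul l2 hu) (osc1_mul (osc1_mul n2 l1) k1))
    (osc1_mul l0 k2)) hu) (osc1_mul (osc1_add (osc1_mul l1 hu) (osc1_mul l0 k1)) k1)).trans ?_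
  apply le_of_eq
  ring

theorem osc1 : ∃ C : ℝ, 0 ≤ C ∧ ∀ (a₀ a₁ a₂ a₃ : ℝ → ℂ) (φ p₀ p₁ p₂ p₃ : ℝ → ℝ) (l r μ B M : ℝ),
    l ≤ r → 0 < μ → 1 ≤ B →
    (∀ x ∈ Icc l r, HasDerivAt a₀ (a₁ x) x ∧ HasDerivAt a₁ (a₂ x) x ∧ HasDerivAt a₂ (a₃ x) x ∧
      HasDerivAt φ (p₀ x) x ∧ HasDerivAt p₀ (p₁ x) x ∧ HasDerivAt p₁ (p₂ x) x ∧
      HasDerivAt p₂ (p₃ x) x) →
    ContinuousOn a₃ (Icc l r) → ContinuousOn p₃ (Icc l r) →
    a₀ l = 0 → a₁ l = 0 → a₂ l = 0 → a₀ r = 0 → a₁ r = 0 → a₂ r = 0 →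
    (∀ x ∈ Icc l r, μ ≤ |p₀ x| ∧ |p₁ x| ≤ B * μ ∧ |p₂ x| ≤ B * μ ∧ |p₃ x| ≤ B * μ ∧
      ‖a₀ x‖ ≤ M ∧ ‖a₁ x‖ ≤ M ∧ ‖a₂ x‖ ≤ M ∧ ‖a₃ x‖ ≤ M) →
    ‖∫ x in l..r, a₀ x * Complex.exp ((φ x : ℂ) * I)‖ ≤ C * B ^ 3 * M * (r - l) / μ ^ 3 := by
  refine ⟨52, by norm_num, ?_⟩
  intro a₀ a₁ a₂ a₃ φ p₀ p₁ p₂ p₃ l r μ B M hlr hμ hB hd ca₃ cp₃ l0 l1 l2 r0 r1 r2 hb
  have d0 : ∀ x ∈ Icc l r, HasDerivAt a₀ (a₁ x) x := fun x hx => (hd x hx).1
  have d1 : ∀ x ∈ Icc l r, HasDerivAt a₁ (a₂ x) x := fun x hx => (hd x hx).2.1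
  have d2 : ∀ x ∈ Icc l r, HasDerivAt a₂ (a₃ x) x := fun x hx => (hd x hx).2.2.1
  have dφ : ∀ x ∈ Icc l r, HasDerivAt φ (p₀ x) x := fun x hx => (hd x hx).2.2.2.1
  obtain ⟨q₀, hq₀⟩ : ∃ q : ℝ → ℂ, q = fun x => (p₀ x : ℂ) := ⟨_, rfl⟩
  obtain ⟨q₁, hq₁⟩ : ∃ q : ℝ → ℂ, q = fun x => (p₁ x : ℂ) := ⟨_, rfl⟩
  obtain ⟨q₂, hq₂⟩ : ∃ q : ℝ → ℂ, q = fun x => (p₂ x : ℂ) := ⟨_, rfl⟩
  obtain ⟨q₃, hq₃⟩ : ∃ q : ℝ → ℂ, q = fun x => (p₃ x : ℂ) := ⟨_, rfl⟩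
  have e0 : ∀ x ∈ Icc l r, HasDerivAt q₀ (q₁ x) x := fun x hx => by
    rw [hq₀, hq₁]; exact (hd x hx).2.2.2.2.1.ofReal_comp
  have e1 : ∀ x ∈ Icc l r, HasDerivAt q₁ (q₂ x) x := fun x hx => by
    rw [hq₁, hq₂]; exact (hd x hx).2.2.2.2.2.1.ofReal_comp
  have e2 : ∀ x ∈ Icc l r, HasDerivAt q₂ (q₃ x) x := fun x hx => by
    rw [hq₂, hq₃]; exact (hd x hx).2.2.2.2.2.2.ofReal_comp
  have cq₃ : ContinuousOn q₃ (Icc l r) := by
    rw [hq₃]; exact Complex.continuous_ofReal.comp_continuousOn cp₃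
  have n0 : ∀ x ∈ Icc l r, μ ≤ ‖q₀ x‖ := fun x hx => by
    rw [hq₀]; simpa using (hb x hx).1
  have z0 : ∀ x ∈ Icc l r, q₀ x ≠ 0 := fun x hx h => by
    have := n0 x hx
    rw [h, norm_zero] at this
    linarith
  obtain ⟨u, hu⟩ : ∃ u : ℝ → ℂ, u = fun x => (q₀ x)⁻¹ := ⟨_, rfl⟩
  obtain ⟨u₁, hu₁⟩ : ∃ w : ℝ → ℂ, w = fun x => -(q₁ x * u x * u x) := ⟨_, rfl⟩
  obtain ⟨u₂, hu₂⟩ : ∃ w : ℝ → ℂ, w = fun x =>
    -(q₂ x * u x * u x) + 2 * (q₁ x * u x) * (q₁ x * u x) * u x := ⟨_, rfl⟩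
  obtain ⟨u₃, hu₃⟩ : ∃ w : ℝ → ℂ, w = fun x =>
    -(q₃ x * u x * u x) + 6 * (q₁ x * u x) * (q₂ x * u x) * u x
      + -(6 * (q₁ x * u x) * (q₁ x * u x) * (q₁ x * u x) * u x) := ⟨_, rfl⟩
  have g0 : ∀ x ∈ Icc l r, HasDerivAt u (u₁ x) x := fun x hx => by
    have h := (e0 x hx).inv (z0 x hx)
    refine osc1_cg h (by rw [hu]; rfl) ?_
    have := z0 x hx
    simp only [hu₁, hu]
    field_simp
  have g1 : ∀ x ∈ Icc l r, HasDerivAt u₁ (u₂ x) x := fun x hx => by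
    have h := (((e1 x hx).mul (g0 x hx)).mul (g0 x hx)).neg
    refine osc1_cg h (by rw [hu₁]; rfl) ?_
    simp only [hu₂, hu₁, Pi.mul_apply]; ring
  have g2 : ∀ x ∈ Icc l r, HasDerivAt u₂ (u₃ x) x := fun x hx => by
    have h := (((e2 x hx).mul (g0 x hx)).mul (g0 x hx)).neg.add
      (((((e1 x hx).mul (g0 x hx)).const_mul 2).mul ((e1 x hx).mul (g0 x hx))).mul (g0 x hx))
    refine osc1_cg h (by rw [hu₂]; rfl) ?_
    simp only [hu₃, hu₁, Pi.mul_apply]; ring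
  have cc : ∀ {f f' : ℝ → ℂ}, (∀ x ∈ Icc l r, HasDerivAt f (f' x) x) → ContinuousOn f (Icc l r) :=
    fun h x hx => (h x hx).continuousAt.continuousWithinAt
  have cu := cc g0
  have cq₁ := cc e1
  have cq₂ := cc e2
  have cu₃ : ContinuousOn u₃ (Icc l r) := by
    rw [hu₃]; fun_prop
  have hpu : ∀ x ∈ Icc l r, u x * (p₀ x : ℂ) = 1 := fun x hx => by
    have := z0 x hx
    rw [hu]
    rw [hq₀] at this ⊢
    exact inv_mul_cancel₀ this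
  obtain ⟨b₀, hb₀⟩ : ∃ w : ℝ → ℂ, w = fun x => a₁ x * u x + a₀ x * u₁ x := ⟨_, rfl⟩
  obtain ⟨b₁, hb₁⟩ : ∃ w : ℝ → ℂ, w = fun x =>
    a₂ x * u x + 2 * a₁ x * u₁ x + a₀ x * u₂ x := ⟨_, rfl⟩
  obtain ⟨b₂, hb₂⟩ : ∃ w : ℝ → ℂ, w = fun x =>
    a₃ x * u x + 3 * a₂ x * u₁ x + 3 * a₁ x * u₂ x + a₀ x * u₃ x := ⟨_, rfl⟩
  have f0 : ∀ x ∈ Icc l r, HasDerivAt b₀ (b₁ x) x := fun x hx => by
    have h := ((d1 x hx).mul (g0 x hx)).add ((d0 x hx).mul (g1 x hx))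
    refine osc1_cg h (by rw [hb₀]; rfl) ?_
    simp only [hb₁]; ring
  have f1 : ∀ x ∈ Icc l r, HasDerivAt b₁ (b₂ x) x := fun x hx => by
    have h := (((d2 x hx).mul (g0 x hx)).add (((d1 x hx).const_mul 2).mul (g1 x hx))).add
      ((d0 x hx).mul (g2 x hx))
    refine osc1_cg h (by rw [hb₁]; rfl) ?_
    simp only [hb₂]; ring
  have ca₀ := cc d0
  have ca₁ := cc d1
  have ca₂ := cc d2
  have cu₁ := cc g1
  have cu₂ := cc g2
  have cb₂ : ContinuousOn b₂ (Icc l r) := by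
    rw [hb₂]; fun_prop
  have cb₀ := cc f0
  have cb₁ := cc f1
  obtain ⟨c₀, hc₀⟩ : ∃ w : ℝ → ℂ, w = fun x => b₁ x * u x + b₀ x * u₁ x := ⟨_, rfl⟩
  obtain ⟨c₁, hc₁⟩ : ∃ w : ℝ → ℂ, w = fun x =>
    b₂ x * u x + 2 * b₁ x * u₁ x + b₀ x * u₂ x := ⟨_, rfl⟩
  have k0 : ∀ x ∈ Icc l r, HasDerivAt c₀ (c₁ x) x := fun x hx => by
    have h := ((f1 x hx).mul (g0 x hx)).add ((f0 x hx).mul (g1 x hx))
    refine osc1_cg h (by rw [hc₀]; rfl) ?_
    simp only [hc₁]; ring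
  have cc₁ : ContinuousOn c₁ (Icc l r) := by
    rw [hc₁]; fun_prop
  have s1 := osc1_step a₀ a₁ u u₁ φ p₀ l r hlr d0 g0 dφ hpu ca₁ cu₁ l0 r0
  have s2 := osc1_step b₀ b₁ u u₁ φ p₀ l r hlr f0 g0 dφ hpu cb₁ cu₁
    (by simp [hb₀, l0, l1]) (by simp [hb₀, r0, r1])
  have s3 := osc1_step c₀ c₁ u u₁ φ p₀ l r hlr k0 g0 dφ hpu cc₁ cu₁
    (by simp [hc₀, hb₀, hb₁, l0, l1, l2]) (by simp [hc₀, hb₀, hb₁, r0, r1, r2])
  have s2' : ‖∫ x in l..r, (a₁ x * u x + a₀ x * u₁ x) * Complex.exp ((φ x : ℂ) * I)‖ =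
      ‖∫ x in l..r, c₀ x * Complex.exp ((φ x : ℂ) * I)‖ := by
    rw [hc₀, ← s2, hb₀]
  rw [s1, s2', s3]
  have fin := intervalIntegral.norm_integral_le_of_norm_le_const (a := l) (b := r)
    (C := 52 * B ^ 3 * M * (μ⁻¹) ^ 3)
    (f := fun x => (c₁ x * u x + c₀ x * u₁ x) * Complex.exp ((φ x : ℂ) * I)) (by
      intro x hx
      rw [uIoc_of_le hlr] at hx
      have hx' : x ∈ Icc l r := Ioc_subset_Icc_self hx
      obtain ⟨-, h1, h2, h3, m0, m1, m2, m3⟩ := hb x hx'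
      rw [norm_mul, Complex.norm_exp_ofReal_mul_I, mul_one, hc₀, hc₁]
      refine osc1_bd (a₀ x) (a₁ x) (a₂ x) (a₃ x) (u x) (q₁ x) (q₂ x) (q₃ x) μ⁻¹ μ B M
        (inv_mul_cancel₀ hμ.ne') hB ?_ ?_ ?_ ?_ m0 m1 m2 m3 (u₁ x) (u₂ x) (u₃ x) (b₀ x) (b₁ x)
        (b₂ x) (by rw [hu₁]) (by rw [hu₂]) (by rw [hu₃]) (by rw [hb₀]) (by rw [hb₁]) (by rw [hb₂])
      · rw [hu]
        simp only [norm_inv]
        exact inv_anti₀ hμ (n0 x hx')
      · rw [hq₁]; simpa using h1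
      · rw [hq₂]; simpa using h2
      · rw [hq₃]; simpa using h3)
  refine fin.trans (le_of_eq ?_)
  rw [abs_of_nonneg (sub_nonneg.2 hlr)]
  field_simp

/-! Non stationary phase in the plane.
Change variables `z = z₀ + ω (x + i τ)` (translation and rotation preserve Lebesgue measure;
`Complex.volume_preserving_equiv_real_prod`, Fubini: the integrand is bounded, measurable, and
vanishes off a ball).  For `|τ| > ρ` the inner integral is zero.  For `|τ| ≤ ρ` it is the integral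
over `x ∈ [-3ρ/2, 3ρ/2]`, a segment inside `closedBall z₀ (2ρ)` whose end points are outside the
support.  Apply `osc1` with `a_k x = iteratedDeriv k (fun x => A (z₁ + x ω)) x` (norm at most
`M`, compose with the linear map `x ↦ x ω`), `p_k x = 2 Re (ω^(k+1) Gr^(k) (z₁ + x ω))`, and the
Cauchy estimates for the derivatives of `Gr` at distance `≥ 1/8` from the boundary
(`Complex.norm_deriv_le_of_forall_mem_sphere_norm_le` three times on shrinking balls, or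
`Complex.norm_iteratedDeriv_le_of_forall_mem_sphere_norm_le`). -/

theorem osc2_cd {A : ℂ → ℂ} {M : ℝ} (hA : C3 M A) (z₁ ω : ℂ) :
    ContDiff ℝ 3 fun x : ℝ => A (z₁ + x * ω) := by
  refine hA.c3.comp (contDiff_const.add ?_)
  exact (Complex.ofRealCLM.contDiff).mul contDiff_const

theorem osc2_bd {A : ℂ → ℂ} {M : ℝ} (hA : C3 M A) (z₁ : ℂ) {ω : ℂ} (hω : ‖ω‖ = 1) {k : ℕ}
    (hk : k ≤ 3) (x : ℝ) : ‖iteratedDeriv k (fun x : ℝ => A (z₁ + x * ω)) x‖ ≤ M := by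
  have e : (fun x : ℝ => A (z₁ + x * ω)) =
      (fun w => A (z₁ + w)) ∘ (ContinuousLinearMap.toSpanSingleton ℝ ω) := by
    funext x
    simp
  have hc : ContDiff ℝ 3 fun w => A (z₁ + w) := hA.c3.comp (contDiff_const.add contDiff_id)
  rw [iteratedDeriv_eq_iteratedFDeriv, e,
    ContinuousLinearMap.iteratedFDeriv_comp_right _ hc x (by exact_mod_cast hk),
    ContinuousMultilinearMap.compContinuousLinearMap_apply, iteratedFDeriv_comp_add_left]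
  refine (ContinuousMultilinearMap.le_opNorm _ _).trans ?_
  simpa [hω] using hA.bd k hk _

theorem osc2_zero {A : ℂ → ℂ} {z₀ z₁ ω : ℂ} {ρ : ℝ} (h0 : ∀ z, ρ < ‖z - z₀‖ → A z = 0) {x : ℝ}
    (hx : ρ < ‖z₁ + x * ω - z₀‖) (k : ℕ) :
    iteratedDeriv k (fun x : ℝ => A (z₁ + x * ω)) x = 0 := by
  have hc : Continuous fun x : ℝ => ‖z₁ + x * ω - z₀‖ := by fun_prop
  have h : (fun x : ℝ => A (z₁ + x * ω)) =ᶠ[𝓝 x] fun _ => 0 := by
    filter_upwards [(isOpen_lt continuous_const hc).mem_nhds hx] with y hy using h0 _ hy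
  rw [h.iteratedDeriv_eq, iteratedDeriv_fun_const_zero]

theorem osc2_dp {Gr : ℂ → ℂ} (hG : DifferentiableOn ℂ Gr (Metric.ball I (1 / 4))) (z₁ ω : ℂ)
    (k : ℕ) {x : ℝ} (hx : z₁ + x * ω ∈ Metric.ball I (1 / 4)) :
    HasDerivAt (fun x : ℝ => 2 * (ω ^ (k + 1) * iteratedDeriv k Gr (z₁ + x * ω)).re)
      (2 * (ω ^ (k + 1 + 1) * iteratedDeriv (k + 1) Gr (z₁ + x * ω)).re) x := by
  have h1 : HasDerivAt (iteratedDeriv k Gr) (iteratedDeriv (k + 1) Gr (z₁ + x * ω))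
      (z₁ + x * ω) := by
    rw [iteratedDeriv_succ]
    refine DifferentiableAt.hasDerivAt ?_
    rw [show iteratedDeriv k Gr = deriv^[k] Gr from iteratedDeriv_eq_iterate]
    exact ((hG.analyticOnNhd Metric.isOpen_ball).iterated_deriv k _ hx).differentiableAt
  have h2 : HasDerivAt (fun w : ℂ => z₁ + w * ω) ω (x : ℂ) := by
    simpa using ((hasDerivAt_id (x : ℂ)).mul_const ω).const_add z₁
  have h3 := ((h1.comp (x : ℂ) h2).const_mul (ω ^ (k + 1))).real_of_complex.const_mul 2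
  have e : ω ^ (k + 1) * (iteratedDeriv (k + 1) Gr (z₁ + x * ω) * ω) =
      ω ^ (k + 1 + 1) * iteratedDeriv (k + 1) Gr (z₁ + x * ω) := by ring
  rw [e] at h3
  exact h3

theorem osc2_cauchy {Gr : ℂ → ℂ} (hG : DifferentiableOn ℂ Gr (Metric.ball I (1 / 4))) {K : ℝ}
    (hb : ∀ z ∈ Metric.ball I (1 / 4), ‖Gr z‖ ≤ K) {ω : ℂ} (hω : ‖ω‖ = 1) {k : ℕ} (hk : k ≤ 3)
    {z : ℂ} (hz : ‖z - I‖ ≤ 1 / 8) :
    |2 * (ω ^ (k + 1) * iteratedDeriv k Gr z).re| ≤ 49152 * K := by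
  have hsub : Metric.closedBall z (1 / 16) ⊆ Metric.ball I (1 / 4) := by
    intro w hw
    rw [mem_closedBall_iff_norm] at hw
    rw [mem_ball_iff_norm]
    have := norm_sub_le_norm_sub_add_norm_sub w z I
    linarith
  have hK : 0 ≤ K := (norm_nonneg _).trans (hb I (Metric.mem_ball_self (by norm_num)))
  have hd : DiffContOnCl ℂ Gr (Metric.ball z (1 / 16)) := by
    refine DifferentiableOn.diffContOnCl ?_
    rw [closure_ball z (by norm_num)]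
    exact hG.mono hsub
  have h := Complex.norm_iteratedDeriv_le_of_forall_mem_sphere_norm_le k (by norm_num) hd
    (fun w hw => hb w (hsub (Metric.sphere_subset_closedBall hw)))
  have h2 : |(ω ^ (k + 1) * iteratedDeriv k Gr z).re| ≤ ‖iteratedDeriv k Gr z‖ := by
    refine (Complex.abs_re_le_norm _).trans_eq ?_
    rw [norm_mul, norm_pow, hω, one_pow, one_mul]
  rw [abs_mul, abs_two]
  have h3 : (k.factorial : ℝ) * K / (1 / 16) ^ k ≤ 24576 * K := by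
    interval_cases k <;> norm_num [Nat.factorial] <;> linarith
  linarith

theorem osc2_line : ∃ C : ℝ, 0 ≤ C ∧
    ∀ (A : ℂ → ℂ) (Φ : ℂ → ℝ) (Gr : ℂ → ℂ) (z₀ ω : ℂ) (ρ μ B M : ℝ),
    C3 M A → (∀ z, ρ < ‖z - z₀‖ → A z = 0) → 0 < ρ → ‖z₀ - I‖ + 2 * ρ ≤ 1 / 8 → ‖ω‖ = 1 →
    0 < μ → 1 ≤ B → DifferentiableOn ℂ Gr (Metric.ball I (1 / 4)) →
    (∀ z ∈ Metric.ball I (1 / 4), ‖Gr z‖ ≤ B * μ) →
    (∀ z ∈ Metric.ball I (1 / 4), ∀ v : ℂ,
      HasDerivAt (fun x : ℝ => Φ (z + x * v)) (2 * (v * Gr z).re) 0) →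
    (∀ z, ‖z - z₀‖ ≤ 2 * ρ → μ ≤ |(ω * Gr z).re|) → ∀ τ : ℝ, |τ| ≤ ρ →
    ‖∫ x : ℝ, A (z₀ + τ * I * ω + x * ω) * Complex.exp ((Φ (z₀ + τ * I * ω + x * ω) : ℂ) * I)‖ ≤
      C * B ^ 3 * M / μ ^ 3 := by
  obtain ⟨C, hC, h⟩ := osc1
  refine ⟨C * 49152 ^ 3, by positivity, ?_⟩
  intro A Φ Gr z₀ ω ρ μ B M hA h0 hρ hz₀ hω hμ hB hG hb hΦ hlow τ hτ
  set z₁ : ℂ := z₀ + τ * I * ω with hz₁
  have hM : 0 ≤ M := (norm_nonneg _).trans (hA.bd 0 (by norm_num) 0)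
  have hn : ∀ x : ℝ, ‖z₁ + x * ω - z₀‖ = ‖(x : ℂ) + τ * I‖ := by
    intro x
    have : z₁ + x * ω - z₀ = ((x : ℂ) + τ * I) * ω := by rw [hz₁]; ring
    rw [this, norm_mul, hω, mul_one]
  have hlo : ∀ x : ℝ, |x| ≤ ‖z₁ + x * ω - z₀‖ := by
    intro x
    rw [hn]
    simpa using Complex.abs_re_le_norm ((x : ℂ) + τ * I)
  have hup : ∀ x ∈ Icc (-(3 / 2 * ρ)) (3 / 2 * ρ), ‖z₁ + x * ω - z₀‖ ≤ 2 * ρ := by
    intro x hx
    rw [hn]
    refine abs_le_of_sq_le_sq' ?_ (by positivity) |>.2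
    rw [Complex.sq_norm, Complex.normSq_add_mul_I]
    have h1 := abs_le.1 hτ
    nlinarith [hx.1, hx.2, h1.1, h1.2]
  have hI : ∀ x ∈ Icc (-(3 / 2 * ρ)) (3 / 2 * ρ), ‖z₁ + x * ω - I‖ ≤ 1 / 8 := by
    intro x hx
    have := norm_sub_le_norm_sub_add_norm_sub (z₁ + x * ω) z₀ I
    linarith [hup x hx]
  have hball : ∀ x ∈ Icc (-(3 / 2 * ρ)) (3 / 2 * ρ), z₁ + x * ω ∈ Metric.ball I (1 / 4) := by
    intro x hx
    rw [mem_ball_iff_norm]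
    linarith [hI x hx]
  have hcd := osc2_cd hA z₁ ω
  have hda : ∀ (k : ℕ), k < 3 → ∀ x : ℝ,
      HasDerivAt (iteratedDeriv k fun x : ℝ => A (z₁ + x * ω))
        (iteratedDeriv (k + 1) (fun x : ℝ => A (z₁ + x * ω)) x) x := by
    intro k hk x
    rw [iteratedDeriv_succ]
    exact (hcd.differentiable_iteratedDeriv k (by exact_mod_cast hk) x).hasDerivAt
  have hl : ρ < ‖z₁ + ((-(3 / 2 * ρ) : ℝ) : ℂ) * ω - z₀‖ := by
    refine lt_of_lt_of_le ?_ (hlo _)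
    rw [abs_neg, abs_of_pos (by positivity)]
    linarith
  have hr : ρ < ‖z₁ + ((3 / 2 * ρ : ℝ) : ℂ) * ω - z₀‖ := by
    refine lt_of_lt_of_le ?_ (hlo _)
    rw [abs_of_pos (by positivity)]
    linarith
  have key := h (iteratedDeriv 0 fun x : ℝ => A (z₁ + x * ω))
    (iteratedDeriv 1 fun x : ℝ => A (z₁ + x * ω)) (iteratedDeriv 2 fun x : ℝ => A (z₁ + x * ω))
    (iteratedDeriv 3 fun x : ℝ => A (z₁ + x * ω)) (fun x => Φ (z₁ + x * ω))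
    (fun x : ℝ => 2 * (ω ^ (0 + 1) * iteratedDeriv 0 Gr (z₁ + x * ω)).re)
    (fun x : ℝ => 2 * (ω ^ (1 + 1) * iteratedDeriv 1 Gr (z₁ + x * ω)).re)
    (fun x : ℝ => 2 * (ω ^ (2 + 1) * iteratedDeriv 2 Gr (z₁ + x * ω)).re)
    (fun x : ℝ => 2 * (ω ^ (3 + 1) * iteratedDeriv 3 Gr (z₁ + x * ω)).re)
    (-(3 / 2 * ρ)) (3 / 2 * ρ) μ (49152 * B) M (by linarith) hμ (by linarith)
    (fun x hx => ⟨hda 0 (by norm_num) x, hda 1 (by norm_num) x, hda 2 (by norm_num) x, by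
      have h1 := hΦ _ (hball x hx) ω
      rw [← sub_self x] at h1
      have h2 := h1.comp_sub_const x x
      have e : (fun y : ℝ => Φ (z₁ + x * ω + ((y - x : ℝ) : ℂ) * ω)) =
          fun y : ℝ => Φ (z₁ + y * ω) := by
        funext y
        congr 1
        push_cast
        ring
      rw [e] at h2
      simpa using h2, osc2_dp hG z₁ ω 0 (hball x hx), osc2_dp hG z₁ ω 1 (hball x hx),
      osc2_dp hG z₁ ω 2 (hball x hx)⟩)
    (hcd.continuous_iteratedDeriv 3 le_rfl).continuousOn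
    (fun x hx => (osc2_dp hG z₁ ω 3 (hball x hx)).continuousAt.continuousWithinAt)
    (osc2_zero h0 hl 0) (osc2_zero h0 hl 1) (osc2_zero h0 hl 2)
    (osc2_zero h0 hr 0) (osc2_zero h0 hr 1) (osc2_zero h0 hr 2)
    (fun x hx => ⟨by
      have h1 := hlow _ (hup x hx)
      rw [abs_mul, abs_two, zero_add, pow_one, iteratedDeriv_zero]
      linarith,
      (osc2_cauchy hG hb hω (by norm_num) (hI x hx)).trans_eq (by ring),
      (osc2_cauchy hG hb hω (by norm_num) (hI x hx)).trans_eq (by ring),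
      (osc2_cauchy hG hb hω (by norm_num) (hI x hx)).trans_eq (by ring),
      osc2_bd hA z₁ hω (by norm_num) x, osc2_bd hA z₁ hω (by norm_num) x,
      osc2_bd hA z₁ hω (by norm_num) x, osc2_bd hA z₁ hω (by norm_num) x⟩)
  rw [iteratedDeriv_zero, intervalIntegral.integral_eq_integral_of_support_subset] at key
  · refine key.trans ?_
    refine div_le_div_of_nonneg_right ?_ (by positivity)
    have h1 : 3 / 2 * ρ - -(3 / 2 * ρ) ≤ 1 := by linarith [norm_nonneg (z₀ - I)]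
    calc C * (49152 * B) ^ 3 * M * (3 / 2 * ρ - -(3 / 2 * ρ))
        ≤ C * (49152 * B) ^ 3 * M * 1 := mul_le_mul_of_nonneg_left h1 (by positivity)
      _ = _ := by ring
  · intro x hx
    have h1 : ¬ ρ < ‖z₁ + x * ω - z₀‖ := fun h2 => hx (by simp [h0 _ h2])
    have h2 := abs_le.1 ((hlo x).trans (not_lt.1 h1))
    exact ⟨by linarith [h2.1], by linarith [h2.2]⟩

theorem osc2 : ∃ C : ℝ, 0 ≤ C ∧ ∀ (A : ℂ → ℂ) (Φ : ℂ → ℝ) (Gr : ℂ → ℂ) (z₀ ω : ℂ) (ρ μ B M : ℝ),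
    C3 M A → (∀ z, ρ < ‖z - z₀‖ → A z = 0) → 0 < ρ → ‖z₀ - I‖ + 2 * ρ ≤ 1 / 8 → ‖ω‖ = 1 →
    0 < μ → 1 ≤ B → Measurable Φ → DifferentiableOn ℂ Gr (Metric.ball I (1 / 4)) →
    (∀ z ∈ Metric.ball I (1 / 4), ‖Gr z‖ ≤ B * μ) →
    (∀ z ∈ Metric.ball I (1 / 4), ∀ v : ℂ,
      HasDerivAt (fun x : ℝ => Φ (z + x * v)) (2 * (v * Gr z).re) 0) →
    (∀ z, ‖z - z₀‖ ≤ 2 * ρ → μ ≤ |(ω * Gr z).re|) →
    ‖∫ z, A z * Complex.exp ((Φ z : ℂ) * I)‖ ≤ C * B ^ 3 * M / μ ^ 3 := by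
  obtain ⟨C, hC, h⟩ := osc2_line
  refine ⟨C, hC, ?_⟩
  intro A Φ Gr z₀ ω ρ μ B M hA h0 hρ hz₀ hω hμ hB _ hG hb hΦ hlow
  have hM : 0 ≤ M := (norm_nonneg _).trans (hA.bd 0 (by norm_num) 0)
  have hD : 0 ≤ C * B ^ 3 * M / μ ^ 3 := by positivity
  set F : ℂ → ℂ := fun z => A z * Complex.exp ((Φ z : ℂ) * I) with hF
  have hωs : ω ∈ Submonoid.unitSphere ℂ := by
    simpa [Submonoid.unitSphere] using hω
  have e1 : ∫ z, F z = ∫ p : ℝ × ℝ, F (z₀ + p.2 * I * ω + p.1 * ω) := by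
    rw [← integral_add_left_eq_self F z₀,
      ← (rotation (⟨ω, hωs⟩ : Circle)).measurePreserving.integral_comp
        (rotation (⟨ω, hωs⟩ : Circle)).toHomeomorph.measurableEmbedding,
      ← (Complex.volume_preserving_equiv_real_prod.symm).integral_comp
        Complex.measurableEquivRealProd.symm.measurableEmbedding]
    refine integral_congr_ae (Eventually.of_forall fun p => ?_)
    have e : Complex.measurableEquivRealProd.symm p = (p.1 : ℂ) + p.2 * I := by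
      apply Complex.ext <;> simp
    show F (z₀ + ω * Complex.measurableEquivRealProd.symm p) = _
    rw [e]
    congr 1
    ring
  rw [e1]
  by_cases hi : Integrable (fun p : ℝ × ℝ => F (z₀ + p.2 * I * ω + p.1 * ω))
  swap
  · rw [integral_undef hi, norm_zero]
    exact hD
  rw [Measure.volume_eq_prod] at hi ⊢
  rw [integral_prod_symm _ hi, ← setIntegral_eq_integral_of_forall_compl_eq_zero (s := Icc (-ρ) ρ)]
  · refine (norm_setIntegral_le_of_norm_le_const (C := C * B ^ 3 * M / μ ^ 3)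
      measure_Icc_lt_top fun τ hτ =>
        h A Φ Gr z₀ ω ρ μ B M hA h0 hρ hz₀ hω hμ hB hG hb hΦ hlow τ (abs_le.2 hτ)).trans ?_
    refine mul_le_of_le_one_right hD ?_
    rw [Real.volume_real_Icc]
    exact max_le (by linarith [norm_nonneg (z₀ - I)]) zero_le_one
  · intro τ hτ
    have h1 : ρ < |τ| := not_le.1 fun h2 => hτ (abs_le.1 h2)
    refine integral_eq_zero_of_ae (Eventually.of_forall fun x => ?_)
    have h2 : ρ < ‖z₀ + τ * I * ω + x * ω - z₀‖ := by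
      have : z₀ + τ * I * ω + x * ω - z₀ = ((x : ℂ) + τ * I) * ω := by ring
      rw [this, norm_mul, hω, mul_one]
      refine h1.trans_le ?_
      simpa using Complex.abs_im_le_norm ((x : ℂ) + τ * I)
    simp [hF, h0 _ h2]

/-- the trivial bound -/
theorem osc_triv {A : ℂ → ℂ} {M ρ : ℝ} {z₀ : ℂ} (hA : C3 M A) (hρ : ρ ≤ 1 / 2)
    (h0 : ∀ z, ρ < ‖z - z₀‖ → A z = 0) (Φ : ℂ → ℝ) :
    ‖∫ z, A z * Complex.exp ((Φ z : ℂ) * I)‖ ≤ M := by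
  have hb : ∀ z, ‖A z‖ ≤ M := fun z => by simpa using hA.bd 0 (by norm_num) z
  have hM : 0 ≤ M := (norm_nonneg _).trans (hb 0)
  rw [← setIntegral_eq_integral_of_forall_compl_eq_zero (s := Metric.closedBall z₀ (1 / 2))]
  · refine (norm_setIntegral_le_of_norm_le_const (C := M) measure_closedBall_lt_top
      fun z _ => ?_).trans (mul_le_of_le_one_right hM ?_)
    · rw [norm_mul, Complex.norm_exp_ofReal_mul_I, mul_one]
      exact hb z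
    · rw [Measure.real, Complex.volume_closedBall, ENNReal.toReal_mul, ENNReal.toReal_pow,
        ENNReal.toReal_ofReal (by norm_num), ENNReal.coe_toReal, NNReal.coe_real_pi]
      linarith [Real.pi_le_four]
  · intro z hz
    rw [mem_closedBall_iff_norm, not_le] at hz
    rw [h0 z (hρ.trans_lt hz), zero_mul]

/-! Kernel bounds.  In all cases apply `osc2` with
`Gr z = -(c₁ sin (a₁ - a₂) / (j₁ j₂) (z + s₁) + c₂ sin (a₃ - a₄) / (j₃ j₄) (z + s₂))`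
(`hasDerivAt_bb_sub`; on `ball I (1/4)` shifted by at most `1/100` one has `‖jj‖ ≥ 0.74`, so
`‖Gr‖ ≤ 2 Λ` with `Λ = |c₁| |sin (a₁ - a₂)| + |c₂| |sin (a₃ - a₄)|`), and by `inv_jj_lip`
`‖Gr z - Gr₀‖ ≤ 12 ρ Λ` on `closedBall z₀ (2ρ)`, where `Gr₀` is the value at `z₀` with no shifts.
By `ep_sub_eq`, `c₁ (ε₁ - ε₂) + c₂ (ε₃ - ε₄) = 2 i y₀ Gr₀`.  Combine with `osc_triv` when `Λ ≤ 1`.
* `osc_E`: `z₀ = I`, `ρ = 1/20`, `ω = J₀ = j₁ j₂ (I)` (norm one), `μ = Λ / 2`, `B = 4`.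
* `osc_NR`: `ω = conj Gr₀ / ‖Gr₀‖`, new `μ` is `μ / 4`, new `B` is `8 B`.
* `osc_CR`: with `J = j₁ j₂`, `J' = j₃ j₄` at `z₀`: `ε₁ ε₂ = conj J / J`, so
  `‖ε₁ ε₂ - ε₃ ε₄‖ = 2 |Im (J conj J')| / (‖J‖ ‖J'‖)`.  If the first term of `Λ` is the larger take
  `ω = i J' / ‖J'‖` (kills the second term of `Gr₀`), else `ω = i J / ‖J‖`; `μ = η Λ / 5`,
  `B = 10 / η` (note `η ≤ 2`). -/

/-- the complex gradient of the phase -/
noncomputable def phase_G (c₁ c₂ a₁ a₂ a₃ a₄ : ℝ) (w₁ w₂ : ℂ) : ℂ :=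
  -((c₁ : ℂ) * ((Real.sin (a₁ - a₂) : ℂ) / (jj a₁ w₁ * jj a₂ w₁)) +
    (c₂ : ℂ) * ((Real.sin (a₃ - a₄) : ℂ) / (jj a₃ w₂ * jj a₄ w₂)))

theorem phase_M {M : ℝ} {A : ℂ → ℂ} (hA : C3 M A) : 0 ≤ M :=
  (norm_nonneg _).trans (hA.bd 0 (by norm_num) 0)

theorem phase_shift {z s : ℂ} (hz : z ∈ Metric.ball I (1 / 4)) (hs : ‖s‖ ≤ 1 / 100) :
    ‖z + s - I‖ ≤ 26 / 100 := by
  rw [Metric.mem_ball, dist_eq_norm] at hz
  have h : z + s - I = (z - I) + s := by ring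
  rw [h]
  linarith [norm_add_le (z - I) s]

theorem phase_inv_bd (a b : ℝ) {w : ℂ} (hw : ‖w - I‖ ≤ 26 / 100) :
    ‖(jj a w * jj b w)⁻¹‖ ≤ 2 := by
  have h1 := (norm_jj_bd a w).1
  have h2 := (norm_jj_bd b w).1
  have h3 : 74 / 100 ≤ ‖jj a w‖ := by linarith
  have h4 : 74 / 100 ≤ ‖jj b w‖ := by linarith
  have h5 : (74 / 100 : ℝ) * (74 / 100) ≤ ‖jj a w‖ * ‖jj b w‖ :=
    mul_le_mul h3 h4 (by norm_num) (norm_nonneg _)
  rw [norm_inv, norm_mul]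
  rw [inv_le_comm₀ (by linarith) (by norm_num)]
  linarith

theorem phase_term (c S : ℝ) (u : ℂ) : ‖(c : ℂ) * ((S : ℂ) * u)‖ = |c| * |S| * ‖u‖ := by
  rw [norm_mul, norm_mul, Complex.norm_real, Complex.norm_real, Real.norm_eq_abs,
    Real.norm_eq_abs, mul_assoc]

theorem phase_G_bd (c₁ c₂ a₁ a₂ a₃ a₄ : ℝ) {w₁ w₂ : ℂ} (h₁ : ‖w₁ - I‖ ≤ 26 / 100)
    (h₂ : ‖w₂ - I‖ ≤ 26 / 100) :
    ‖phase_G c₁ c₂ a₁ a₂ a₃ a₄ w₁ w₂‖ ≤
      2 * (|c₁| * |Real.sin (a₁ - a₂)| + |c₂| * |Real.sin (a₃ - a₄)|) := by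
  unfold phase_G
  rw [norm_neg, div_eq_mul_inv, div_eq_mul_inv]
  refine (norm_add_le _ _).trans ?_
  rw [phase_term, phase_term]
  have e1 := mul_le_mul_of_nonneg_left (phase_inv_bd a₁ a₂ h₁)
    (mul_nonneg (abs_nonneg c₁) (abs_nonneg (Real.sin (a₁ - a₂))))
  have e2 := mul_le_mul_of_nonneg_left (phase_inv_bd a₃ a₄ h₂)
    (mul_nonneg (abs_nonneg c₂) (abs_nonneg (Real.sin (a₃ - a₄))))
  linarith

theorem phase_G_lip (c₁ c₂ a₁ a₂ a₃ a₄ d : ℝ) {w₁ w₂ z₀ : ℂ} (h₁ : ‖w₁ - I‖ ≤ 1 / 10)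
    (h₂ : ‖w₂ - I‖ ≤ 1 / 10) (h₀ : ‖z₀ - I‖ ≤ 1 / 10) (d₁ : ‖w₁ - z₀‖ ≤ d) (d₂ : ‖w₂ - z₀‖ ≤ d) :
    ‖phase_G c₁ c₂ a₁ a₂ a₃ a₄ w₁ w₂ - phase_G c₁ c₂ a₁ a₂ a₃ a₄ z₀ z₀‖ ≤
      4 * d * (|c₁| * |Real.sin (a₁ - a₂)| + |c₂| * |Real.sin (a₃ - a₄)|) := by
  have e : phase_G c₁ c₂ a₁ a₂ a₃ a₄ w₁ w₂ - phase_G c₁ c₂ a₁ a₂ a₃ a₄ z₀ z₀ =
      -((c₁ : ℂ) * ((Real.sin (a₁ - a₂) : ℂ) *
          ((jj a₁ w₁ * jj a₂ w₁)⁻¹ - (jj a₁ z₀ * jj a₂ z₀)⁻¹)) +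
        (c₂ : ℂ) * ((Real.sin (a₃ - a₄) : ℂ) *
          ((jj a₃ w₂ * jj a₄ w₂)⁻¹ - (jj a₃ z₀ * jj a₄ z₀)⁻¹))) := by
    unfold phase_G
    simp only [div_eq_mul_inv]
    ring
  rw [e, norm_neg]
  refine (norm_add_le _ _).trans ?_
  rw [phase_term, phase_term]
  have l1 := (inv_jj_lip a₁ a₂ h₁ h₀).trans (mul_le_mul_of_nonneg_left d₁ (by norm_num))
  have l2 := (inv_jj_lip a₃ a₄ h₂ h₀).trans (mul_le_mul_of_nonneg_left d₂ (by norm_num))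
  have e1 := mul_le_mul_of_nonneg_left l1
    (mul_nonneg (abs_nonneg c₁) (abs_nonneg (Real.sin (a₁ - a₂))))
  have e2 := mul_le_mul_of_nonneg_left l2
    (mul_nonneg (abs_nonneg c₂) (abs_nonneg (Real.sin (a₃ - a₄))))
  linarith

theorem phase_jj_diff (a : ℝ) (s : ℂ) : Differentiable ℂ fun z => jj a (z + s) := by
  unfold jj
  fun_prop

theorem phase_meas (c₁ c₂ a₁ a₂ a₃ a₄ : ℝ) (s₁ s₂ : ℂ) :
    Measurable (Ph4 c₁ c₂ a₁ a₂ a₃ a₄ s₁ s₂) := by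
  have h : ∀ (a : ℝ) (s : ℂ), Measurable fun z : ℂ => bb a (z + s) := fun a s =>
    measurable_bb.comp (f := fun z : ℂ => (a, z + s))
      (measurable_const.prodMk (measurable_id.add_const s))
  exact (((h a₁ s₁).sub (h a₂ s₁)).const_mul c₁).add (((h a₃ s₂).sub (h a₄ s₂)).const_mul c₂)

theorem phase_deriv (c₁ c₂ a₁ a₂ a₃ a₄ : ℝ) {s₁ s₂ z : ℂ} (h₁ : z + s₁ ∈ Up) (h₂ : z + s₂ ∈ Up)
    (v : ℂ) :
    HasDerivAt (fun x : ℝ => Ph4 c₁ c₂ a₁ a₂ a₃ a₄ s₁ s₂ (z + x * v))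
      (2 * (v * phase_G c₁ c₂ a₁ a₂ a₃ a₄ (z + s₁) (z + s₂)).re) 0 := by
  have d1 := (hasDerivAt_bb_sub a₁ a₂ h₁ v).const_mul c₁
  have d2 := (hasDerivAt_bb_sub a₃ a₄ h₂ v).const_mul c₂
  have d := d1.add d2
  have e1 : ∀ x : ℝ, z + x * v + s₁ = z + s₁ + x * v := fun x => by ring
  have e2 : ∀ x : ℝ, z + x * v + s₂ = z + s₂ + x * v := fun x => by ring
  have hf : (fun x : ℝ => Ph4 c₁ c₂ a₁ a₂ a₃ a₄ s₁ s₂ (z + x * v)) =
      (fun x : ℝ => c₁ * (bb a₁ (z + s₁ + x * v) - bb a₂ (z + s₁ + x * v))) +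
        fun x : ℝ => c₂ * (bb a₃ (z + s₂ + x * v) - bb a₄ (z + s₂ + x * v)) := by
    funext x
    simp only [Ph4, e1, e2, Pi.add_apply]
  rw [hf]
  refine d.congr_deriv ?_
  unfold phase_G
  generalize (Real.sin (a₁ - a₂) : ℂ) / (jj a₁ (z + s₁) * jj a₂ (z + s₁)) = p
  generalize (Real.sin (a₃ - a₄) : ℂ) / (jj a₃ (z + s₂) * jj a₄ (z + s₂)) = q
  simp only [mul_re, mul_im, neg_re, neg_im, add_re, add_im, ofReal_re, ofReal_im]
  ring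

theorem phase_core : ∃ C : ℝ, 0 ≤ C ∧
    ∀ (A : ℂ → ℂ) (M c₁ c₂ a₁ a₂ a₃ a₄ ρ σ μ B : ℝ) (z₀ s₁ s₂ ω : ℂ),
    C3 M A → (∀ z, ρ < ‖z - z₀‖ → A z = 0) → 0 < ρ → ‖z₀ - I‖ + 2 * ρ + σ ≤ 1 / 10 →
    σ ≤ 1 / 100 → ‖s₁‖ ≤ σ → ‖s₂‖ ≤ σ → ‖ω‖ = 1 → 0 < μ → 1 ≤ B →
    2 * (|c₁| * |Real.sin (a₁ - a₂)| + |c₂| * |Real.sin (a₃ - a₄)|) ≤ B * μ →
    μ + 4 * (2 * ρ + σ) * (|c₁| * |Real.sin (a₁ - a₂)| + |c₂| * |Real.sin (a₃ - a₄)|) ≤
      |(ω * phase_G c₁ c₂ a₁ a₂ a₃ a₄ z₀ z₀).re| →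
    ‖∫ z, A z * Complex.exp ((Ph4 c₁ c₂ a₁ a₂ a₃ a₄ s₁ s₂ z : ℂ) * I)‖ ≤ C * B ^ 3 * M / μ ^ 3 := by
  obtain ⟨C, hC, H⟩ := osc2
  refine ⟨C, hC, ?_⟩
  intro A M c₁ c₂ a₁ a₂ a₃ a₄ ρ σ μ B z₀ s₁ s₂ ω hA h0 hρ hz hσ hs₁ hs₂ hω hμ hB hb hl
  have hσ0 : 0 ≤ σ := (norm_nonneg _).trans hs₁
  have up : ∀ z ∈ Metric.ball I (1 / 4), ∀ s : ℂ, ‖s‖ ≤ σ → z + s ∈ Up := fun z hz s hs =>
    ball_sub ((phase_shift hz (hs.trans hσ)).trans (by norm_num))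
  refine H A _ (fun z => phase_G c₁ c₂ a₁ a₂ a₃ a₄ (z + s₁) (z + s₂)) z₀ ω ρ μ B M hA h0 hρ
    (by linarith) hω hμ hB (phase_meas _ _ _ _ _ _ _ _) ?_ ?_ ?_ ?_
  · intro z hz
    refine DifferentiableAt.differentiableWithinAt ?_
    unfold phase_G
    refine DifferentiableAt.neg (DifferentiableAt.add ?_ ?_)
    · exact ((differentiableAt_const _).div
        ((phase_jj_diff a₁ s₁ z).mul (phase_jj_diff a₂ s₁ z))
        (mul_ne_zero (jj_ne _ (up z hz _ hs₁)) (jj_ne _ (up z hz _ hs₁)))).const_mul _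
    · exact ((differentiableAt_const _).div
        ((phase_jj_diff a₃ s₂ z).mul (phase_jj_diff a₄ s₂ z))
        (mul_ne_zero (jj_ne _ (up z hz _ hs₂)) (jj_ne _ (up z hz _ hs₂)))).const_mul _
  · intro z hz
    exact (phase_G_bd _ _ _ _ _ _ (phase_shift hz (hs₁.trans hσ))
      (phase_shift hz (hs₂.trans hσ))).trans hb
  · intro z hz v
    exact phase_deriv _ _ _ _ _ _ (up z hz _ hs₁) (up z hz _ hs₂) v
  · intro z hzz
    have dd : ∀ s : ℂ, ‖s‖ ≤ σ → ‖z + s - z₀‖ ≤ 2 * ρ + σ := fun s hs => by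
      have h : z + s - z₀ = (z - z₀) + s := by ring
      rw [h]
      linarith [norm_add_le (z - z₀) s]
    have di : ∀ s : ℂ, ‖s‖ ≤ σ → ‖z + s - I‖ ≤ 1 / 10 := fun s hs => by
      have h : z + s - I = (z + s - z₀) + (z₀ - I) := by ring
      rw [h]
      linarith [norm_add_le (z + s - z₀) (z₀ - I), dd s hs]
    have lip := phase_G_lip c₁ c₂ a₁ a₂ a₃ a₄ (2 * ρ + σ) (di _ hs₁) (di _ hs₂)
      (by linarith) (dd _ hs₁) (dd _ hs₂)
    set G₁ := phase_G c₁ c₂ a₁ a₂ a₃ a₄ (z + s₁) (z + s₂)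
    set G₀ := phase_G c₁ c₂ a₁ a₂ a₃ a₄ z₀ z₀
    have h1 : |(ω * (G₁ - G₀)).re| ≤ ‖G₁ - G₀‖ := by
      refine (Complex.abs_re_le_norm _).trans ?_
      rw [norm_mul, hω, one_mul]
    have h2 : (ω * G₀).re = (ω * G₁).re - (ω * (G₁ - G₀)).re := by
      rw [mul_sub, sub_re]
      ring
    have h3 := abs_sub (ω * G₁).re (ω * (G₁ - G₀)).re
    rw [← h2] at h3
    linarith

theorem phase_im {J J' : ℂ} (hJ : J ≠ 0) (hJ' : J' ≠ 0) (u v : ℝ) :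
    |(I * J' / (‖J'‖ : ℂ) * -((u : ℂ) / J + (v : ℂ) / J')).re| =
      |u| * ‖conj J / J - conj J' / J'‖ / (2 * ‖J‖) := by
  have n1 : (0 : ℝ) < ‖J‖ := norm_pos_iff.mpr hJ
  have n2 : (0 : ℝ) < ‖J'‖ := norm_pos_iff.mpr hJ'
  have m1 : ((‖J‖ : ℝ) : ℂ) ≠ 0 := by exact_mod_cast n1.ne'
  have m2 : ((‖J'‖ : ℝ) : ℂ) ≠ 0 := by exact_mod_cast n2.ne'
  have hc : conj J = ((‖J‖ : ℝ) : ℂ) ^ 2 / J := by
    rw [eq_div_iff hJ, Complex.conj_mul']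
  have h1 : I * J' / (‖J'‖ : ℂ) * -((u : ℂ) / J + (v : ℂ) / J') =
      ((-(u / (‖J‖ ^ 2 * ‖J'‖)) : ℝ) : ℂ) * (I * (conj J * J')) +
        ((-(v / ‖J'‖) : ℝ) : ℂ) * I := by
    rw [hc]
    push_cast
    field_simp
    ring
  have h2 : conj J / J - conj J' / J' = ((2 * (conj J * J').im : ℝ) : ℂ) * I / (J * J') := by
    rw [← Complex.sub_conj, map_mul, Complex.conj_conj]
    field_simp
  rw [h1, h2]
  generalize conj J * J' = w
  have h3 : (((-(u / (‖J‖ ^ 2 * ‖J'‖)) : ℝ) : ℂ) * (I * w) + ((-(v / ‖J'‖) : ℝ) : ℂ) * I).re =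
      u * w.im / (‖J‖ ^ 2 * ‖J'‖) := by
    simp only [add_re, mul_re, mul_im, ofReal_re, ofReal_im, I_re, I_im]
    ring
  rw [h3, norm_div, norm_mul, norm_mul, Complex.norm_I, Complex.norm_real, Real.norm_eq_abs,
    abs_div, abs_of_pos (by positivity : (0 : ℝ) < ‖J‖ ^ 2 * ‖J'‖), abs_mul, abs_mul,
    abs_of_pos (by norm_num : (0 : ℝ) < 2)]
  field_simp

theorem phase_unit {J : ℂ} (hJ : J ≠ 0) : ‖I * J / (‖J‖ : ℂ)‖ = 1 := by
  rw [norm_div, norm_mul, Complex.norm_I, one_mul, Complex.norm_real, norm_norm,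
    div_self (norm_ne_zero_iff.mpr hJ)]

theorem phase_jj_up (a b : ℝ) {z : ℂ} (hz : ‖z - I‖ ≤ 1 / 100) :
    ‖jj a z * jj b z‖ ≤ 11 / 10 := by
  have h1 := (norm_jj_bd a z).2
  have h2 := (norm_jj_bd b z).2
  have h5 : ‖jj a z‖ * ‖jj b z‖ ≤ (101 / 100 : ℝ) * (101 / 100) :=
    mul_le_mul (by linarith) (by linarith) (norm_nonneg _) (by norm_num)
  rw [norm_mul]
  linarith

theorem phase_low {Λ L η e n : ℝ} (hΛ : 0 ≤ Λ) (hL : Λ ≤ 2 * L) (hη : 0 < η) (he : η ≤ e)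
    (hn : 0 < n) (hn' : n ≤ 11 / 10) : η * Λ * (22 / 100) ≤ L * e / (2 * n) := by
  rw [le_div_iff₀ (by positivity)]
  have h0 : 0 ≤ η * Λ := by positivity
  have h1 : η * Λ * (22 / 100) * (2 * n) ≤ η * Λ * (22 / 100) * (2 * (11 / 10)) :=
    mul_le_mul_of_nonneg_left (by linarith) (by positivity)
  have h2 : (Λ / 2) * η ≤ L * e := mul_le_mul (by linarith) he hη.le (by linarith)
  linarith

theorem osc_E : ∃ C : ℝ, 0 ≤ C ∧ ∀ (A : ℂ → ℂ) (M c a₁ a₂ : ℝ), C3 M A →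
    (∀ z, z ∉ B0 → A z = 0) →
    ‖∫ z, A z * Complex.exp (((c * (bb a₁ z - bb a₂ z) : ℝ) : ℂ) * I)‖ ≤
      C * M / (1 + |c| * |Real.sin (a₁ - a₂)|) ^ 3 := by
  obtain ⟨C, hC, H⟩ := phase_core
  refine ⟨4096 * C + 8, by positivity, ?_⟩
  intro A M c a₁ a₂ hA h0
  have hM := phase_M hA
  have h0' : ∀ z, 1 / 20 < ‖z - I‖ → A z = 0 := fun z hz => h0 z fun h => by
    rw [B0, Metric.mem_closedBall, dist_eq_norm] at h
    linarith
  set Λ := |c| * |Real.sin (a₁ - a₂)| with hΛ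
  have hΛ0 : 0 ≤ Λ := by positivity
  rw [le_div_iff₀ (by positivity)]
  rcases le_total Λ 1 with h1 | h1
  · have t := osc_triv hA (by norm_num) h0' fun z => c * (bb a₁ z - bb a₂ z)
    have p : (1 + Λ) ^ 3 ≤ 2 ^ 3 := pow_le_pow_left₀ (by positivity) (by linarith) 3
    have q := mul_le_mul t p (by positivity) hM
    have r : 0 ≤ C * M := by positivity
    linarith
  · have hI : (I : ℂ) ∈ Up := ball_sub (by simp)
    have hJ : jj a₁ I * jj a₂ I ≠ 0 := mul_ne_zero (jj_ne _ hI) (jj_ne _ hI)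
    have e0 : |(0 : ℝ)| * |Real.sin (0 - 0)| = 0 := by simp
    have t := H A M c 0 a₁ a₂ 0 0 (1 / 20) 0 (Λ / 2) 4 I 0 0 (jj a₁ I * jj a₂ I) hA h0'
      (by norm_num) (by norm_num) (by norm_num) (by simp) (by simp)
      (by rw [norm_mul, norm_jj_I, norm_jj_I, mul_one]) (by linarith) (by norm_num)
      (by rw [e0]; linarith) (by
        have e : jj a₁ I * jj a₂ I * phase_G c 0 a₁ a₂ 0 0 I I =
            ((-(c * Real.sin (a₁ - a₂)) : ℝ) : ℂ) := by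
          unfold phase_G
          generalize jj a₁ I * jj a₂ I = J at hJ
          push_cast
          field_simp
          ring
        rw [e, e0, ofReal_re, abs_neg, abs_mul]
        linarith)
    have e : ∀ z, Ph4 c 0 a₁ a₂ 0 0 0 0 z = c * (bb a₁ z - bb a₂ z) := fun z => by
      simp [Ph4]
    simp only [e] at t
    rw [le_div_iff₀ (by positivity)] at t
    have p : (1 + Λ) ^ 3 ≤ (4 * (Λ / 2)) ^ 3 := pow_le_pow_left₀ (by positivity) (by linarith) 3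
    have q := mul_le_mul_of_nonneg_left p (norm_nonneg
      (∫ z, A z * Complex.exp (((c * (bb a₁ z - bb a₂ z) : ℝ) : ℂ) * I)))
    rw [mul_pow] at q
    linarith

theorem osc_NR : ∃ C : ℝ, 0 ≤ C ∧ ∀ (A : ℂ → ℂ) (M c₁ c₂ a₁ a₂ a₃ a₄ ρ μ B : ℝ) (z₀ s₁ s₂ : ℂ),
    C3 M A → (∀ z, ρ < ‖z - z₀‖ → A z = 0) → ‖z₀ - I‖ ≤ 1 / 100 → 0 < ρ → ‖s₁‖ ≤ ρ → ‖s₂‖ ≤ ρ →
    0 < μ → 1 ≤ B → ρ * B ≤ 1 / 1000 →
    |c₁| * |Real.sin (a₁ - a₂)| + |c₂| * |Real.sin (a₃ - a₄)| ≤ B * μ →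
    μ ≤ ‖(c₁ : ℂ) * (ep z₀ a₁ - ep z₀ a₂) + (c₂ : ℂ) * (ep z₀ a₃ - ep z₀ a₄)‖ →
    ‖∫ z, A z * Complex.exp ((Ph4 c₁ c₂ a₁ a₂ a₃ a₄ s₁ s₂ z : ℂ) * I)‖ ≤ C * B ^ 3 * M / μ ^ 3 := by
  obtain ⟨C, hC, H⟩ := phase_core
  refine ⟨32768 * C, by positivity, ?_⟩
  intro A M c₁ c₂ a₁ a₂ a₃ a₄ ρ μ B z₀ s₁ s₂ hA h0 hz hρ hs₁ hs₂ hμ hB hρB hb hl
  have hu : z₀ ∈ Up := ball_sub (by linarith)
  have hρ1 : ρ ≤ 1 / 1000 := by nlinarith
  set G := phase_G c₁ c₂ a₁ a₂ a₃ a₄ z₀ z₀ with hG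
  have e : (c₁ : ℂ) * (ep z₀ a₁ - ep z₀ a₂) + (c₂ : ℂ) * (ep z₀ a₃ - ep z₀ a₄) =
      2 * I * (z₀.im : ℂ) * G := by
    rw [ep_sub_eq a₁ a₂ hu, ep_sub_eq a₃ a₄ hu, hG, phase_G]
    ring
  have hy : |z₀.im| ≤ 101 / 100 := by
    have h1 := Complex.abs_im_le_norm (z₀ - I)
    rw [sub_im, I_im] at h1
    have h2 := abs_le.mp (h1.trans hz)
    rw [abs_le]
    constructor <;> linarith [h2.1, h2.2]
  rw [e, norm_mul, norm_mul, norm_mul, Complex.norm_I, Complex.norm_real, Real.norm_eq_abs,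
    Complex.norm_two] at hl
  have hl' : μ ≤ 202 / 100 * ‖G‖ := by
    have := mul_le_mul_of_nonneg_right hy (norm_nonneg G)
    linarith
  have hG0 : 0 < ‖G‖ := by linarith
  have m : ((‖G‖ : ℝ) : ℂ) ≠ 0 := by exact_mod_cast hG0.ne'
  have t := H A M c₁ c₂ a₁ a₂ a₃ a₄ ρ ρ (μ / 4) (8 * B) z₀ s₁ s₂ (conj G / (‖G‖ : ℂ)) hA h0 hρ
    (by linarith) (by linarith) hs₁ hs₂
    (by rw [norm_div, Complex.norm_conj, Complex.norm_real, norm_norm, div_self hG0.ne'])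
    (by linarith) (by linarith) (by linarith) (by
      have e2 : conj G / (‖G‖ : ℂ) * G = ((‖G‖ : ℝ) : ℂ) := by
        rw [div_mul_eq_mul_div, Complex.conj_mul']
        field_simp
      rw [← hG, e2, ofReal_re, abs_of_pos hG0]
      have p := mul_le_mul_of_nonneg_left hb (by linarith : 0 ≤ 4 * (2 * ρ + ρ))
      have q := mul_le_mul_of_nonneg_right hρB hμ.le
      linarith)
  refine t.trans (le_of_eq ?_)
  field_simp
  ring

theorem osc_CR : ∃ C : ℝ, 0 ≤ C ∧ ∀ (A : ℂ → ℂ) (M c₁ c₂ a₁ a₂ a₃ a₄ ρ η : ℝ) (z₀ s₁ s₂ : ℂ),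
    C3 M A → (∀ z, ρ < ‖z - z₀‖ → A z = 0) → ‖z₀ - I‖ ≤ 1 / 100 → 0 < ρ → ‖s₁‖ ≤ ρ → ‖s₂‖ ≤ ρ →
    ρ ≤ η / 1000 → η ≤ ‖ep z₀ a₁ * ep z₀ a₂ - ep z₀ a₃ * ep z₀ a₄‖ →
    ‖∫ z, A z * Complex.exp ((Ph4 c₁ c₂ a₁ a₂ a₃ a₄ s₁ s₂ z : ℂ) * I)‖ ≤
      C * M / (η ^ 6 * (1 + |c₁| * |Real.sin (a₁ - a₂)| + |c₂| * |Real.sin (a₃ - a₄)|) ^ 3) := by
  obtain ⟨C, hC, H⟩ := phase_core
  refine ⟨1000000 * C + 512, by positivity, ?_⟩
  intro A M c₁ c₂ a₁ a₂ a₃ a₄ ρ η z₀ s₁ s₂ hA h0 hz hρ hs₁ hs₂ hρη hl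
  have hM := phase_M hA
  have hu : z₀ ∈ Up := ball_sub (by linarith)
  have hη : 0 < η := by linarith
  have hη2 : η ≤ 2 := by
    refine hl.trans ((norm_sub_le _ _).trans ?_)
    rw [norm_mul, norm_mul, norm_ep _ hu, norm_ep _ hu, norm_ep _ hu, norm_ep _ hu]
    norm_num
  rw [add_assoc]
  set Λ := |c₁| * |Real.sin (a₁ - a₂)| + |c₂| * |Real.sin (a₃ - a₄)| with hΛ
  have hΛ0 : 0 ≤ Λ := by positivity
  rw [le_div_iff₀ (by positivity)]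
  rcases le_total Λ 1 with h1 | h1
  · have t := osc_triv hA (by linarith) h0 (Ph4 c₁ c₂ a₁ a₂ a₃ a₄ s₁ s₂)
    have p : (1 + Λ) ^ 3 ≤ 2 ^ 3 := pow_le_pow_left₀ (by positivity) (by linarith) 3
    have p' : η ^ 6 ≤ 2 ^ 6 := pow_le_pow_left₀ hη.le hη2 6
    have p'' := mul_le_mul p' p (by positivity) (by positivity)
    have q := mul_le_mul t p'' (by positivity) hM
    have r : 0 ≤ C * M := by positivity
    linarith
  · have hJ : jj a₁ z₀ * jj a₂ z₀ ≠ 0 := mul_ne_zero (jj_ne _ hu) (jj_ne _ hu)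
    have hJ' : jj a₃ z₀ * jj a₄ z₀ ≠ 0 := mul_ne_zero (jj_ne _ hu) (jj_ne _ hu)
    have ee : ∀ a b : ℝ, ep z₀ a * ep z₀ b = conj (jj a z₀ * jj b z₀) / (jj a z₀ * jj b z₀) :=
      fun a b => by rw [ep, ep, map_mul, div_mul_div_comm]
    rw [ee, ee] at hl
    have key : ∃ ω : ℂ, ‖ω‖ = 1 ∧
        η * Λ * (22 / 100) ≤ |(ω * phase_G c₁ c₂ a₁ a₂ a₃ a₄ z₀ z₀).re| := by
      rcases le_total (|c₂| * |Real.sin (a₃ - a₄)|) (|c₁| * |Real.sin (a₁ - a₂)|) with h | h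
      · refine ⟨_, phase_unit hJ', ?_⟩
        have e : phase_G c₁ c₂ a₁ a₂ a₃ a₄ z₀ z₀ =
            -(((c₁ * Real.sin (a₁ - a₂) : ℝ) : ℂ) / (jj a₁ z₀ * jj a₂ z₀) +
              ((c₂ * Real.sin (a₃ - a₄) : ℝ) : ℂ) / (jj a₃ z₀ * jj a₄ z₀)) := by
          rw [phase_G, ofReal_mul, ofReal_mul]
          ring
        rw [e, phase_im hJ hJ', abs_mul]
        exact phase_low hΛ0 (by linarith) hη hl (norm_pos_iff.mpr hJ) (phase_jj_up _ _ hz)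
      · refine ⟨_, phase_unit hJ, ?_⟩
        have e : phase_G c₁ c₂ a₁ a₂ a₃ a₄ z₀ z₀ =
            -(((c₂ * Real.sin (a₃ - a₄) : ℝ) : ℂ) / (jj a₃ z₀ * jj a₄ z₀) +
              ((c₁ * Real.sin (a₁ - a₂) : ℝ) : ℂ) / (jj a₁ z₀ * jj a₂ z₀)) := by
          rw [phase_G, ofReal_mul, ofReal_mul]
          ring
        rw [e, phase_im hJ' hJ, abs_mul]
        rw [norm_sub_rev] at hl
        exact phase_low hΛ0 (by linarith) hη hl (norm_pos_iff.mpr hJ') (phase_jj_up _ _ hz)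
    obtain ⟨ω, hω, hk⟩ := key
    have t := H A M c₁ c₂ a₁ a₂ a₃ a₄ ρ ρ (η * Λ / 5) (10 / η) z₀ s₁ s₂ ω hA h0 hρ
      (by linarith) (by linarith) hs₁ hs₂ hω (by positivity)
      (by rw [le_div_iff₀ hη]; linarith) (by rw [← hΛ]; apply le_of_eq; field_simp; norm_num) (by
        rw [← hΛ]
        have q := mul_le_mul_of_nonneg_right hρη hΛ0
        have q' : 0 ≤ η * Λ := by positivity
        linarith)
    have e : C * (10 / η) ^ 3 * M / (η * Λ / 5) ^ 3 = 125000 * C * M / (η ^ 6 * Λ ^ 3) := by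
      field_simp
      ring
    rw [e, le_div_iff₀ (by positivity)] at t
    have p : (1 + Λ) ^ 3 ≤ (2 * Λ) ^ 3 := pow_le_pow_left₀ (by positivity) (by linarith) 3
    have q := mul_le_mul_of_nonneg_left (mul_le_mul_of_nonneg_left p (by positivity : 0 ≤ η ^ 6))
      (norm_nonneg (∫ z, A z * Complex.exp ((Ph4 c₁ c₂ a₁ a₂ a₃ a₄ s₁ s₂ z : ℂ) * I)))
    rw [mul_pow] at q
    linarith

end Pool.Agent.MP_a28cf0_nt.Dec

end

-- part MP_a28cf0_nt.Dec.Ext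
section

set_option autoImplicit false

namespace Pool.Agent.MP_a28cf0_nt.Dec

open MeasureTheory Complex Filter Topology Set
open scoped ENNReal MatrixGroups ComplexConjugate
open Pool.Agent.MP_a28cf0_nt.Cub

/-! `L²` bounds for the extension and restriction operators, Fubini for the four linear form,
Lipschitz bounds. -/

theorem ext_fin : IsFiniteMeasure ((volume : Measure ℂ).restrict B0) :=
  isFiniteMeasure_restrict.2 (isCompact_closedBall I (1 / 20)).measure_lt_top.ne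

theorem ext_meas : MeasurableSet B0 := Metric.isClosed_closedBall.measurableSet

theorem ext_sq (a : ℂ) : ((‖a‖ ^ 2 : ℝ) : ℂ) = a * conj a := by
  rw [Complex.mul_conj, Complex.normSq_eq_norm_sq]

theorem ext_real {X : Type} [MeasurableSpace X] (μ : Measure X) (u : X → ℂ) :
    ∫ x, ‖u x‖ ^ 2 ∂μ = ‖∫ x, u x * conj (u x) ∂μ‖ := by
  have e : ∫ x, u x * conj (u x) ∂μ = ((∫ x, ‖u x‖ ^ 2 ∂μ : ℝ) : ℂ) := by
    rw [← integral_complex_ofReal]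
    simp only [ext_sq]
  rw [e, Complex.norm_real, Real.norm_of_nonneg (integral_nonneg fun x => by positivity)]

theorem ext_mul_conj {m : Measure ℂ} [IsFiniteMeasure m] (A : Y → ℂ → ℂ) (T : ℝ) (w : Y → ℂ)
    (z : ℂ) : ext m A T w z * conj (ext m A T w z) = ∫ p, tens w w p * E2 A T p z ∂nYY m := by
  unfold ext nYY
  rw [← integral_conj, ← integral_prod_mul]
  congr 1
  funext p
  simp only [E2, tens, map_mul]
  ring

theorem ext_kernel {C : ℝ} (hC : ∀ (A : ℂ → ℂ) (M c a₁ a₂ : ℝ), C3 M A →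
    (∀ z, z ∉ B0 → A z = 0) →
    ‖∫ z, A z * Complex.exp (((c * (bb a₁ z - bb a₂ z) : ℝ) : ℂ) * I)‖ ≤
      C * M / (1 + |c| * |Real.sin (a₁ - a₂)|) ^ 3) (h0 : 0 ≤ C) {A : Y → ℂ → ℂ} {M T : ℝ}
    (hA : Amp M A) (hT : 0 < T) (p : Y × Y) :
    ‖∫ z in B0, E2 A T p z‖ ≤ 8 * C * M ^ 2 * Jk T (p.1.2 - p.2.2) := by
  have e1 : ∫ z in B0, E2 A T p z = ∫ z, E2 A T p z :=
    setIntegral_eq_integral_of_forall_compl_eq_zero fun z hz => by
      simp [E2, EE, hA.supp _ _ hz]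
  have e2 : ∀ z, E2 A T p z = (A p.1 z * conj (A p.2 z)) *
      Complex.exp (((T * (bb p.1.2 z - bb p.2.2 z) : ℝ) : ℂ) * I) := by
    intro z
    have e : ((T * (bb p.1.2 z - bb p.2.2 z) : ℝ) : ℂ) * I
        = ((T * bb p.1.2 z : ℝ) : ℂ) * I + conj (((T * bb p.2.2 z : ℝ) : ℂ) * I) := by
      rw [map_mul, conj_ofReal, conj_I]
      push_cast
      ring
    rw [e, Complex.exp_add, Complex.exp_conj]
    simp only [E2, EE, ph, map_mul]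
    ring
  have h := hC (fun z => A p.1 z * conj (A p.2 z)) (8 * M * M) T p.1.2 p.2.2
    ((hA.c3 p.1).mul (hA.c3 p.2).conj) (fun z hz => by simp [hA.supp _ _ hz])
  rw [e1]
  simp only [e2]
  refine h.trans ?_
  rw [abs_of_pos hT]
  have h3 := inv_cube_le hT.le (p.1.2 - p.2.2)
  calc C * (8 * M * M) / (1 + T * |Real.sin (p.1.2 - p.2.2)|) ^ 3
      = 8 * C * M ^ 2 * (1 / (1 + T * |Real.sin (p.1.2 - p.2.2)|) ^ 3) := by ring
    _ ≤ _ := mul_le_mul_of_nonneg_left h3 (by positivity)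

theorem ext_restrict {m : Measure ℂ} {A : Y → ℂ → ℂ} {M : ℝ} (hA : Amp M A) (T : ℝ)
    (w : Y → ℂ) : ∫ z in B0, ‖ext m A T w z‖ ^ 2 = ∫ z, ‖ext m A T w z‖ ^ 2 :=
  setIntegral_eq_integral_of_forall_compl_eq_zero fun z hz => by
    simp [hA.ext_zero m T w hz]

/-- `∫ ‖ext w‖² = ∫∫ w y conj (w y') ∫ EE y z conj (EE y' z)`, `osc_E`, `jk_bil` -/
theorem ext_l2 : ∃ C : ℝ, 0 ≤ C ∧ ∀ (m : Measure ℂ) [IsFiniteMeasure m] (A : Y → ℂ → ℂ)
    (M T : ℝ) (w : Y → ℂ), m univ ≤ 1 → Amp M A → 0 < T → Bd w →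
    ∫ z, ‖ext m A T w z‖ ^ 2 ≤ C * M ^ 2 / T * n2 (nY m) w := by
  obtain ⟨C, h0, hC⟩ := osc_E
  obtain ⟨C', h0', hC'⟩ := jk_bil
  refine ⟨8 * C * C', by positivity, ?_⟩
  intro m _ A M T w hm hA hT hw
  have := ext_fin
  have hb : Bd fun q : ℂ × (Y × Y) => tens w w q.2 * E2 A T q.2 q.1 :=
    ((hw.tens hw).comp measurable_snd).mul ((hA.bd_E2 T).comp measurable_swap)
  have e1 : ∫ z in B0, ext m A T w z * conj (ext m A T w z)
      = ∫ p, tens w w p * (∫ z in B0, E2 A T p z) ∂nYY m := by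
    simp only [ext_mul_conj]
    rw [integral_integral_swap (hb.integrable _)]
    simp only [integral_const_mul]
  have hJ : Measurable fun p : Y × Y => Jk T (p.1.2 - p.2.2) :=
    (measurable_Jk T).comp (by fun_prop)
  obtain ⟨b, hb'⟩ := (hw.tens hw).bd
  have i1 : Integrable (fun p : Y × Y => Jk T (p.1.2 - p.2.2) * ‖tens w w p‖) (nYY m) := by
    refine Integrable.of_bound (hJ.mul (hw.tens hw).meas.norm).aestronglyMeasurable b
      (Eventually.of_forall fun p => ?_)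
    rw [Real.norm_of_nonneg (mul_nonneg (Jk_nonneg hT.le _) (norm_nonneg _))]
    exact (mul_le_of_le_one_left (norm_nonneg _) (Jk_le_one hT.le _)).trans (hb' p)
  have h2 := hC' m hm T w w hT hw hw
  rw [Real.mul_self_sqrt (n2_nonneg _ _)] at h2
  rw [← ext_restrict hA, ext_real, e1]
  calc ‖∫ p, tens w w p * (∫ z in B0, E2 A T p z) ∂nYY m‖
      ≤ ∫ p, 8 * C * M ^ 2 * (Jk T (p.1.2 - p.2.2) * ‖tens w w p‖) ∂nYY m := by
        refine norm_integral_le_of_norm_le (i1.const_mul _) (Eventually.of_forall fun p => ?_)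
        rw [norm_mul]
        calc ‖tens w w p‖ * ‖∫ z in B0, E2 A T p z‖
            ≤ ‖tens w w p‖ * (8 * C * M ^ 2 * Jk T (p.1.2 - p.2.2)) :=
              mul_le_mul_of_nonneg_left (ext_kernel hC h0 hA hT p) (norm_nonneg _)
          _ = _ := by ring
    _ ≤ 8 * C * M ^ 2 * (C' / T * n2 (nY m) w) := by
        rw [integral_const_mul]
        exact mul_le_mul_of_nonneg_left h2 (by positivity)
    _ = _ := by ring

theorem ext_absorb {n a K : ℝ} (hn : 0 ≤ n) (ha : 0 ≤ a) (hK : 0 ≤ K)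
    (h : n ≤ √a * √(K * n)) : n ≤ K * a := by
  rcases hn.eq_or_lt with rfl | hn'
  · positivity
  have h2 : n ^ 2 ≤ (√a * √(K * n)) ^ 2 := pow_le_pow_left₀ hn h 2
  rw [mul_pow, Real.sq_sqrt ha, Real.sq_sqrt (by positivity)] at h2
  have h3 : n * n ≤ K * a * n := by nlinarith
  exact le_of_mul_le_mul_right h3 hn'

/-- duality: `n2 (res F) = ∫_{B0} F conj (ext (res F))` -/
theorem res_l2 : ∃ C : ℝ, 0 ≤ C ∧ ∀ (m : Measure ℂ) [IsFiniteMeasure m] (A : Y → ℂ → ℂ)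
    (M T : ℝ) (F : ℂ → ℂ), m univ ≤ 1 → Amp M A → 0 < T → Measurable F →
    (∃ b : ℝ, ∀ z ∈ B0, ‖F z‖ ≤ b) →
    n2 (nY m) (res A T F) ≤ C * M ^ 2 / T * ∫ z in B0, ‖F z‖ ^ 2 := by
  obtain ⟨C, h0, hC⟩ := ext_l2
  refine ⟨C, h0, ?_⟩
  intro m _ A M T F hm hA hT hF hb
  have := ext_fin
  have hG : Bd (res A T F) := hA.bd_res T hF hb
  obtain ⟨b, hb⟩ := hb
  have hF' : Bd (B0.indicator F) := by
    refine ⟨hF.indicator ext_meas, max b 0, fun z => ?_⟩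
    by_cases hz : z ∈ B0
    · rw [indicator_of_mem hz]
      exact (hb z hz).trans (le_max_left _ _)
    · rw [indicator_of_notMem hz, norm_zero]
      exact le_max_right _ _
  have e0 : ∀ y, res A T F y = ∫ z in B0, conj (EE A T y z) * B0.indicator F z := fun y =>
    setIntegral_congr_fun ext_meas fun z hz => by simp only [indicator_of_mem hz]
  have e0' : n2 (volume.restrict B0) (B0.indicator F) = ∫ z in B0, ‖F z‖ ^ 2 :=
    setIntegral_congr_fun ext_meas fun z hz => by simp only [indicator_of_mem hz]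
  have hb2 : Bd fun q : Y × ℂ =>
      conj (EE A T q.1 q.2) * B0.indicator F q.2 * conj (res A T F q.1) :=
    ((hA.bd_EE T).conj.mul (hF'.comp measurable_snd)).mul (hG.comp measurable_fst).conj
  have e1 : ∫ y, res A T F y * conj (res A T F y) ∂nY m
      = ∫ z in B0, B0.indicator F z * conj (ext m A T (res A T F) z) := by
    have e2 : ∀ y, res A T F y * conj (res A T F y)
        = ∫ z in B0, conj (EE A T y z) * B0.indicator F z * conj (res A T F y) := by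
      intro y
      rw [integral_mul_const, ← e0]
    simp only [e2]
    rw [integral_integral_swap (hb2.integrable _)]
    congr 1
    funext z
    unfold ext
    rw [← integral_conj, ← integral_const_mul]
    congr 1
    funext y
    rw [map_mul]
    ring
  have h1 : n2 (nY m) (res A T F) ≤ √(n2 (volume.restrict B0) (B0.indicator F)) *
      √(n2 (volume.restrict B0) (ext m A T (res A T F))) := by
    rw [n2, ext_real, e1]
    refine (norm_integral_le_integral_norm _).trans ?_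
    simp only [norm_mul, Complex.norm_conj]
    exact cs _ hF' (hA.bd_ext m T hG)
  have h2 : n2 (volume.restrict B0) (ext m A T (res A T F))
      ≤ C * M ^ 2 / T * n2 (nY m) (res A T F) := by
    rw [n2, ext_restrict hA]
    exact hC m A M T _ hm hA hT hG
  rw [← e0']
  refine ext_absorb (n2_nonneg _ _) (n2_nonneg _ _) (by positivity) (h1.trans ?_)
  exact mul_le_mul_of_nonneg_left (Real.sqrt_le_sqrt h2) (Real.sqrt_nonneg _)

theorem integrable_ext_sq {m : Measure ℂ} [IsFiniteMeasure m] {A : Y → ℂ → ℂ} {M : ℝ}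
    (hA : Amp M A) (T : ℝ) {w : Y → ℂ} (hw : Bd w) :
    Integrable fun z => ‖ext m A T w z‖ ^ 2 := by
  have := ext_fin
  have h : IntegrableOn (fun z => ‖ext m A T w z‖ ^ 2) B0 := (hA.bd_ext m T hw).integrable_sq _
  refine h.integrable_of_forall_notMem_eq_zero fun z hz => ?_
  simp [hA.ext_zero m T w hz]

theorem ext_l1 {m : Measure ℂ} [IsFiniteMeasure m] (hm : m univ ≤ 1) {w : Y → ℂ} (hw : Bd w)
    {u : Y → ℂ} {L : ℝ} (hL : 0 ≤ L) (hu : ∀ y, ‖u y‖ ≤ L) :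
    ‖∫ y, u y * w y ∂nY m‖ ≤ 3 * L * √(n2 (nY m) w) := by
  calc ‖∫ y, u y * w y ∂nY m‖ ≤ ∫ y, L * ‖w y‖ ∂nY m := by
        refine norm_integral_le_of_norm_le ((hw.integrable _).norm.const_mul L)
          (Eventually.of_forall fun y => ?_)
        rw [norm_mul]
        exact mul_le_mul_of_nonneg_right (hu y) (norm_nonneg _)
    _ ≤ L * (3 * √(n2 (nY m) w)) := by
        rw [integral_const_mul]
        exact mul_le_mul_of_nonneg_left (l1_le hm hw) hL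
    _ = _ := by ring

theorem ext_sup {m : Measure ℂ} [IsFiniteMeasure m] {A : Y → ℂ → ℂ} {M : ℝ} (hm : m univ ≤ 1)
    (hA : Amp M A) (T : ℝ) {w : Y → ℂ} (hw : Bd w) (z : ℂ) :
    ‖ext m A T w z‖ ≤ 3 * M * √(n2 (nY m) w) :=
  ext_l1 hm hw hA.nonneg fun y => hA.norm_EE T y z

theorem ext_exp (x y : ℝ) :
    ‖Complex.exp ((x : ℂ) * I) - Complex.exp ((y : ℂ) * I)‖ ≤ |x - y| := by
  have e : Complex.exp ((x : ℂ) * I) - Complex.exp ((y : ℂ) * I)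
      = Complex.exp ((y : ℂ) * I) * (Complex.exp (I * ((x - y : ℝ) : ℂ)) - 1) := by
    rw [mul_sub, mul_one, ← Complex.exp_add]
    congr 2
    push_cast
    ring
  rw [e, norm_mul, Complex.norm_exp_ofReal_mul_I, one_mul]
  exact Real.norm_exp_I_mul_ofReal_sub_one_le

theorem ext_EE_lip {A : Y → ℂ → ℂ} {M : ℝ} (hA : Amp M A) {T : ℝ} (hT : 0 ≤ T) (y : Y)
    {z z' : ℂ} (hz : ‖z - I‖ ≤ 1 / 10) (hz' : ‖z' - I‖ ≤ 1 / 10) :
    ‖EE A T y z - EE A T y z'‖ ≤ M * (1 + 4 * T) * ‖z - z'‖ := by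
  have e : EE A T y z - EE A T y z'
      = (A y z - A y z') * ph T y.2 z + A y z' * (ph T y.2 z - ph T y.2 z') := by
    unfold EE
    ring
  have h1 : ‖(A y z - A y z') * ph T y.2 z‖ ≤ M * ‖z - z'‖ := by
    rw [norm_mul, norm_ph, mul_one]
    exact (hA.c3 y).lip z z'
  have h2 : ‖ph T y.2 z - ph T y.2 z'‖ ≤ T * (4 * ‖z - z'‖) := by
    refine (ext_exp _ _).trans ?_
    rw [← mul_sub, abs_mul, abs_of_nonneg hT]
    exact mul_le_mul_of_nonneg_left (bb_lip y.2 hz hz') hT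
  have h3 : ‖A y z' * (ph T y.2 z - ph T y.2 z')‖ ≤ M * (T * (4 * ‖z - z'‖)) := by
    rw [norm_mul]
    exact mul_le_mul ((hA.c3 y).norm_le z') h2 (norm_nonneg _) hA.nonneg
  rw [e]
  refine (norm_add_le _ _).trans ?_
  calc _ ≤ M * ‖z - z'‖ + M * (T * (4 * ‖z - z'‖)) := add_le_add h1 h3
    _ = _ := by ring

/-- `C3.lip`, `bb_lip`, `‖e^{ix} - e^{iy}‖ ≤ |x - y|` -/
theorem ext_lip {m : Measure ℂ} [IsFiniteMeasure m] {A : Y → ℂ → ℂ} {M : ℝ} (hm : m univ ≤ 1)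
    (hA : Amp M A) {T : ℝ} (hT : 0 ≤ T) {w : Y → ℂ} (hw : Bd w) {z z' : ℂ}
    (hz : ‖z - I‖ ≤ 1 / 10) (hz' : ‖z' - I‖ ≤ 1 / 10) :
    ‖ext m A T w z - ext m A T w z'‖ ≤ 3 * M * (1 + 4 * T) * √(n2 (nY m) w) * ‖z - z'‖ := by
  have hi : ∀ z : ℂ, Integrable (fun y => EE A T y z * w y) (nY m) := fun z =>
    ((((hA.bd_EE T).comp (f := fun y : Y => (y, z)) (by fun_prop)).mul hw).integrable _)
  have e : ext m A T w z - ext m A T w z' = ∫ y, (EE A T y z - EE A T y z') * w y ∂nY m := by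
    unfold ext
    rw [← integral_sub (hi z) (hi z')]
    simp only [sub_mul]
  have hM := hA.nonneg
  rw [e]
  refine (ext_l1 hm hw (by positivity) fun y => ext_EE_lip hA hT y hz hz').trans_eq ?_
  ring

theorem fub_int_mul {X : Type} [MeasurableSpace X] {μ : Measure X} {χ u : X → ℂ}
    (hi : Integrable χ μ) (hu : Bd u) : Integrable (fun z => χ z * u z) μ := by
  obtain ⟨C, hC⟩ := hu.bd
  exact hi.mul_bdd (c := C) hu.meas.aestronglyMeasurable (Eventually.of_forall hC)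

theorem fub_bd_E2 {A : Y → ℂ → ℂ} {M : ℝ} (hA : Amp M A) (T : ℝ) {X : Type} [MeasurableSpace X]
    {f : X → Y × Y} {g : X → ℂ} (hf : Measurable f) (hg : Measurable g) :
    Bd fun x => E2 A T (f x) (g x) :=
  (hA.bd_E2 T).comp (hf.prodMk hg)

theorem fub_norm_E2 {A : Y → ℂ → ℂ} {M : ℝ} (hA : Amp M A) (T : ℝ) (p : Y × Y) (z : ℂ) :
    ‖E2 A T p z‖ ≤ M ^ 2 := by
  unfold E2
  rw [norm_mul, Complex.norm_conj, sq]
  exact mul_le_mul (hA.norm_EE T _ _) (hA.norm_EE T _ _) (norm_nonneg _) hA.nonneg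

theorem fub_E2_eq (A : Y → ℂ → ℂ) (T : ℝ) (p : Y × Y) (z : ℂ) :
    E2 A T p z = A p.1 z * conj (A p.2 z) *
      Complex.exp (((T * (bb p.1.2 z - bb p.2.2 z) : ℝ) : ℂ) * I) := by
  unfold E2 EE ph
  rw [map_mul, ← Complex.exp_conj, map_mul, Complex.conj_ofReal, Complex.conj_I]
  have : Complex.exp (((T * (bb p.1.2 z - bb p.2.2 z) : ℝ) : ℂ) * I) =
      Complex.exp (((T * bb p.1.2 z : ℝ) : ℂ) * I) *
        Complex.exp (((T * bb p.2.2 z : ℝ) : ℂ) * -I) := by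
    rw [← Complex.exp_add]; congr 1; push_cast; ring
  rw [this]; ring

theorem fub_exp_lip (x y : ℝ) :
    ‖Complex.exp ((x : ℂ) * I) - Complex.exp ((y : ℂ) * I)‖ ≤ |x - y| := by
  have : Complex.exp ((x : ℂ) * I) - Complex.exp ((y : ℂ) * I) =
      Complex.exp ((y : ℂ) * I) * (Complex.exp (I * ((x - y : ℝ) : ℂ)) - 1) := by
    rw [mul_sub, mul_one, ← Complex.exp_add]; congr 2; push_cast; ring
  rw [this, norm_mul, Complex.norm_exp_ofReal_mul_I, one_mul]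
  exact Real.norm_exp_I_mul_ofReal_sub_one_le

theorem fub_E2_lip {A : Y → ℂ → ℂ} {M : ℝ} (hA : Amp M A) {T : ℝ} (hT : 0 ≤ T) (p : Y × Y)
    {z z' : ℂ} (hz : ‖z - I‖ ≤ 1 / 10) (hz' : ‖z' - I‖ ≤ 1 / 10) :
    ‖E2 A T p z - E2 A T p z'‖ ≤
      3 * M ^ 2 * ‖z - z'‖ * (1 + T * |Real.sin (p.1.2 - p.2.2)|) := by
  rw [fub_E2_eq, fub_E2_eq]
  have hM := hA.nonneg
  have h1 := (hA.c3 p.1).lip z z'
  have h2 := (hA.c3 p.2).conj.lip z z'
  have h3 := (hA.c3 p.1).norm_le z'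
  have h4 := (hA.c3 p.2).conj.norm_le z
  have h5 := (hA.c3 p.2).conj.norm_le z'
  have h6 := fub_exp_lip (T * (bb p.1.2 z - bb p.2.2 z)) (T * (bb p.1.2 z' - bb p.2.2 z'))
  rw [← mul_sub, abs_mul, abs_of_nonneg hT] at h6
  have h7 := h6.trans (mul_le_mul_of_nonneg_left (bb_sub_lip p.1.2 p.2.2 hz hz') hT)
  have h8 := Complex.norm_exp_ofReal_mul_I (T * (bb p.1.2 z - bb p.2.2 z))
  generalize Complex.exp (((T * (bb p.1.2 z - bb p.2.2 z) : ℝ) : ℂ) * I) = e at h7 h8 ⊢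
  generalize Complex.exp (((T * (bb p.1.2 z' - bb p.2.2 z') : ℝ) : ℂ) * I) = e' at h7 ⊢
  generalize A p.1 z = a at h1 ⊢
  generalize A p.1 z' = a' at h1 h3 ⊢
  generalize conj (A p.2 z) = b at h2 h4 ⊢
  generalize conj (A p.2 z') = b' at h2 h5 ⊢
  have hd : 0 ≤ ‖z - z'‖ := norm_nonneg _
  generalize ‖z - z'‖ = d at h1 h2 h7 hd ⊢
  have hS : 0 ≤ |Real.sin (p.1.2 - p.2.2)| := abs_nonneg _
  generalize |Real.sin (p.1.2 - p.2.2)| = S at h7 hS ⊢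
  have e0 : a * b * e - a' * b' * e' =
      (a - a') * b * e + a' * (b - b') * e + a' * b' * (e - e') := by ring
  have e1 : ‖(a - a') * b * e‖ ≤ M * d * M := by
    rw [norm_mul, norm_mul, h8, mul_one]
    exact mul_le_mul h1 h4 (norm_nonneg _) (by positivity)
  have e2 : ‖a' * (b - b') * e‖ ≤ M * (M * d) := by
    rw [norm_mul, norm_mul, h8, mul_one]
    exact mul_le_mul h3 h2 (norm_nonneg _) hM
  have e3 : ‖a' * b' * (e - e')‖ ≤ M * M * (T * (3 * S * d)) := by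
    rw [norm_mul, norm_mul]
    exact mul_le_mul (mul_le_mul h3 h5 (norm_nonneg _) hM) h7 (norm_nonneg _) (by positivity)
  rw [e0]
  have e4 := norm_add₃_le (a := (a - a') * b * e) (b := a' * (b - b') * e)
    (c := a' * b' * (e - e'))
  have e5 : 0 ≤ M ^ 2 * d := by positivity
  nlinarith

theorem fub_aux {m : Measure ℂ} [IsFiniteMeasure m] {A : Y → ℂ → ℂ} {M : ℝ} (hA : Amp M A)
    {a : ℂ → ℂ} (hi : Integrable a) (T : ℝ) (s : ℂ) {k : Y × Y → ℂ} (hk : Bd k) :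
    ∫ z, a z * ext2 m A T k (z + s) = ∫ p, k p * (∫ z, a z * E2 A T p (z + s)) ∂nYY m := by
  have hb : Bd fun q : ℂ × (Y × Y) => E2 A T q.2 (q.1 + s) * k q.2 :=
    (fub_bd_E2 hA T measurable_snd (measurable_fst.add_const s)).mul (hk.comp measurable_snd)
  have hI : Integrable (Function.uncurry fun (z : ℂ) (p : Y × Y) =>
      a z * (E2 A T p (z + s) * k p)) (volume.prod (nYY m)) :=
    fub_int_mul (hi.comp_fst (nYY m)) hb
  calc ∫ z, a z * ext2 m A T k (z + s)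
      = ∫ z, ∫ p, a z * (E2 A T p (z + s) * k p) ∂nYY m := by
        simp only [ext2, integral_const_mul]
    _ = ∫ p, (∫ z, a z * (E2 A T p (z + s) * k p)) ∂nYY m := integral_integral_swap hI
    _ = _ := by
        refine integral_congr_ae (Eventually.of_forall fun p => ?_)
        simp only []
        rw [← integral_const_mul]
        refine integral_congr_ae (Eventually.of_forall fun z => ?_)
        simp only []
        ring

theorem ext2_tens {m : Measure ℂ} [IsFiniteMeasure m] (A : Y → ℂ → ℂ) (T : ℝ) (w w' : Y → ℂ)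
    (z : ℂ) : ext2 m A T (tens w w') z = ext m A T w z * conj (ext m A T w' z) := by
  unfold ext2 ext nYY
  rw [← integral_conj, ← integral_prod_mul]
  refine integral_congr_ae (Eventually.of_forall fun p => ?_)
  simp only [E2, tens, map_mul]
  ring

theorem conj_ext2 {m : Measure ℂ} [IsFiniteMeasure m] (A : Y → ℂ → ℂ) (T : ℝ) (k : Y × Y → ℂ)
    (z : ℂ) : conj (ext2 m A T k z) = ext2 m A T (fun p => conj (k p.swap)) z := by
  unfold ext2 nYY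
  rw [← integral_conj, ← integral_prod_swap]
  refine integral_congr_ae (Eventually.of_forall fun p => ?_)
  simp only [E2, map_mul, Prod.fst_swap, Prod.snd_swap, Complex.conj_conj]
  ring

theorem ext2_add {m : Measure ℂ} [IsFiniteMeasure m] {A : Y → ℂ → ℂ} {M : ℝ} (hA : Amp M A)
    (T : ℝ) {k k' : Y × Y → ℂ} (hk : Bd k) (hk' : Bd k') (z : ℂ) :
    ext2 m A T (fun p => k p + k' p) z = ext2 m A T k z + ext2 m A T k' z := by
  have hb : Bd fun p : Y × Y => E2 A T p z := fub_bd_E2 hA T measurable_id measurable_const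
  unfold ext2
  rw [← integral_add ((hb.mul hk).integrable _) ((hb.mul hk').integrable _)]
  simp only [mul_add]

theorem bd_NN {A : Y → ℂ → ℂ} {M : ℝ} (hA : Amp M A) {χ : ℂ → ℂ} (hχ : Measurable χ)
    (hi : Integrable χ) (t T : ℝ) (s₁ s₂ : ℂ) :
    Bd fun q : (Y × Y) × (Y × Y) => NN A χ t T s₁ s₂ q.1 q.2 := by
  constructor
  · have h1 : Bd fun x : ((Y × Y) × (Y × Y)) × ℂ => E2 A t x.1.1 (x.2 + s₁) :=
      fub_bd_E2 hA t measurable_fst.fst (measurable_snd.add_const s₁)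
    have h2 : Bd fun x : ((Y × Y) × (Y × Y)) × ℂ => E2 A T x.1.2 (x.2 + s₂) :=
      fub_bd_E2 hA T measurable_fst.snd (measurable_snd.add_const s₂)
    have h3 := ((hχ.comp measurable_snd).mul h1.meas).mul h2.meas
    exact (h3.stronglyMeasurable.integral_prod_right' (ν := volume)).measurable
  · refine ⟨∫ z, ‖χ z‖ * M ^ 2 * M ^ 2, fun q => ?_⟩
    refine norm_integral_le_of_norm_le ((hi.norm.mul_const _).mul_const _)
      (Eventually.of_forall fun z => ?_)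
    rw [norm_mul, norm_mul]
    exact mul_le_mul (mul_le_mul_of_nonneg_left (fub_norm_E2 hA _ _ _) (norm_nonneg _))
      (fub_norm_E2 hA _ _ _) (norm_nonneg _) (by positivity)

/-- Fubini -/
theorem fub {m : Measure ℂ} [IsFiniteMeasure m] {A : Y → ℂ → ℂ} {M : ℝ} (hA : Amp M A)
    {χ : ℂ → ℂ} (hχ : Measurable χ) (hi : Integrable χ) (t T : ℝ) (s₁ s₂ : ℂ)
    {k k' : Y × Y → ℂ} (hk : Bd k) (hk' : Bd k') :
    ∫ z, χ z * ext2 m A t k (z + s₁) * ext2 m A T k' (z + s₂) =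
      ∫ p, ∫ p', k p * k' p' * NN A χ t T s₁ s₂ p p' ∂nYY m ∂nYY m := by
  have _ := hχ
  have h1 : Bd fun z => ext2 m A T k' (z + s₂) :=
    (hA.bd_ext2 m T hk').comp (measurable_id.add_const s₂)
  have h2 := fub_aux (m := m) hA (fub_int_mul hi h1) t s₁ hk
  rw [show (fun z => χ z * ext2 m A t k (z + s₁) * ext2 m A T k' (z + s₂)) =
    fun z => χ z * ext2 m A T k' (z + s₂) * ext2 m A t k (z + s₁) from
      funext fun z => by ring, h2]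
  refine integral_congr_ae (Eventually.of_forall fun p => ?_)
  have h3 : Bd fun z => E2 A t p (z + s₁) :=
    fub_bd_E2 hA t measurable_const (measurable_id.add_const s₁)
  have h4 := fub_aux (m := m) hA (fub_int_mul hi h3) T s₂ hk'
  simp only []
  rw [show (fun z => χ z * ext2 m A T k' (z + s₂) * E2 A t p (z + s₁)) =
    fun z => χ z * E2 A t p (z + s₁) * ext2 m A T k' (z + s₂) from
      funext fun z => by ring, h4, ← integral_const_mul]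
  simp only [NN, mul_assoc]

/-- the half way form of Fubini -/
theorem fub_half {m : Measure ℂ} [IsFiniteMeasure m] {A : Y → ℂ → ℂ} {M : ℝ} (hA : Amp M A)
    {a : ℂ → ℂ} (ha : Measurable a) (hi : Integrable a) (T : ℝ) (s : ℂ) {k : Y × Y → ℂ}
    (hk : Bd k) :
    ∫ z, a z * ext2 m A T k (z + s) = ∫ p, k p * (∫ z, a z * E2 A T p (z + s)) ∂nYY m := by
  have _ := ha
  exact fub_aux hA hi T s hk

/-- the kernel is an oscillatory integral with a `C3` amplitude -/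
theorem NN_eq {A : Y → ℂ → ℂ} {M M' : ℝ} (hA : Amp M A) {χ : ℂ → ℂ} (hχ : C3 M' χ) (t T : ℝ)
    (s₁ s₂ : ℂ) (p p' : Y × Y) : ∃ B : ℂ → ℂ, C3 (4096 * M' * M ^ 4) B ∧
    (∀ z, χ z = 0 → B z = 0) ∧ NN A χ t T s₁ s₂ p p' =
      ∫ z, B z * Complex.exp ((Ph4 t T p.1.2 p.2.2 p'.1.2 p'.2.2 s₁ s₂ z : ℂ) * I) := by
  have h := (((hχ.mul ((hA.c3 p.1).shift s₁)).mul ((hA.c3 p.2).shift s₁).conj).mul
    ((hA.c3 p'.1).shift s₂)).mul ((hA.c3 p'.2).shift s₂).conj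
  refine ⟨_, h.mono (le_of_eq (by ring)), fun z hz => by simp only [hz, zero_mul], ?_⟩
  unfold NN
  refine integral_congr_ae (Eventually.of_forall fun z => ?_)
  simp only [fub_E2_eq, Ph4]
  rw [Complex.ofReal_add, add_mul, Complex.exp_add]
  ring

/-- Lipschitz dependence of the kernel on the shift (`C3.lip`, `bb_sub_lip`) -/
theorem NN_lip {A : Y → ℂ → ℂ} {M M' : ℝ} (hA : Amp M A) {χ : ℂ → ℂ} (hχ : C3 M' χ)
    (h0 : ∀ z, 1 / 50 < ‖z - I‖ → χ z = 0) (t : ℝ) {T : ℝ} (hT : 0 ≤ T) {s : ℂ}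
    (hs : ‖s‖ ≤ 1 / 50) (p p' : Y × Y) :
    ‖NN A χ t T 0 0 p p' - NN A χ t T 0 s p p'‖ ≤
      3 * M' * M ^ 4 * ‖s‖ * (1 + T * |Real.sin (p'.1.2 - p'.2.2)|) := by
  have hM := hA.nonneg
  have hM' := hχ.nonneg
  have hU : ∀ z, z ∉ U0 → χ z = 0 := fun z hz =>
    h0 z (by simpa only [U0, Metric.mem_closedBall, dist_eq_norm, not_le] using hz)
  have hi : Integrable χ := hχ.cont.integrable_of_hasCompactSupport
    (HasCompactSupport.intro (isCompact_closedBall I (1 / 50)) hU)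
  have hb : ∀ (t : ℝ) (p : Y × Y) (s : ℂ), Bd fun z => E2 A t p (z + s) := fun t p s =>
    fub_bd_E2 hA t measurable_const (measurable_id.add_const s)
  unfold NN
  rw [← integral_sub (fub_int_mul (fub_int_mul hi (hb t p 0)) (hb T p' 0))
    (fub_int_mul (fub_int_mul hi (hb t p 0)) (hb T p' s)),
    ← setIntegral_eq_integral_of_forall_compl_eq_zero (s := U0)
      (fun z hz => by simp only [hU z hz, zero_mul, sub_self])]
  have hv : (volume.restrict U0).real univ ≤ 1 := by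
    have := mU_univ
    unfold mU at this
    simpa only [Measure.real, ENNReal.toReal_one] using ENNReal.toReal_mono ENNReal.one_ne_top this
  have : IsFiniteMeasure (volume.restrict U0) := inferInstanceAs (IsFiniteMeasure mU)
  refine (norm_integral_le_of_norm_le_const (C := 3 * M' * M ^ 4 * ‖s‖ *
    (1 + T * |Real.sin (p'.1.2 - p'.2.2)|)) ?_).trans
    (mul_le_of_le_one_right (by positivity) hv)
  refine (ae_restrict_iff' (Metric.isClosed_closedBall.measurableSet)).2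
    (Eventually.of_forall fun z hz => ?_)
  have hz1 : ‖z - I‖ ≤ 1 / 50 := by
    simpa only [Metric.mem_closedBall, dist_eq_norm] using hz
  have hz2 : ‖z + s - I‖ ≤ 1 / 10 := by
    rw [show z + s - I = z - I + s by ring]
    linarith [norm_add_le (z - I) s]
  have h1 := fub_E2_lip hA hT p' (z := z + 0) (z' := z + s) (by rw [add_zero]; linarith) hz2
  rw [show z + 0 - (z + s) = -s by ring, norm_neg] at h1
  rw [← mul_sub, norm_mul, norm_mul]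
  refine (mul_le_mul (mul_le_mul (hχ.norm_le z) (fub_norm_E2 hA _ _ _) (norm_nonneg _) hM') h1
    (norm_nonneg _) (by positivity)).trans (le_of_eq (by ring))

/-! Deterministic boxes.  Write `XX` with `fub` (`s₁ = 0`, `χ = χ₁ χ₂` is `C3 (8 M' M')`,
supported in the ball of radius `ρ = α / 2000`), and bound the kernel where the coefficients do
not vanish: there every angle is within `α` of its representative, so by `ep_lip` every unit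
vector moves by at most `3 α`.
* `box_NR`: `NN_eq`, `osc_NR` with `μ = α T (C₀ + 1)`... any `μ = c α T`, `B = 1 / α` works:
  `K α T - 6 α (t + T) ≥ 14 (C₀ + 1) α T`, `Λ ≤ (C₀ + 1) T`; then `l1_le` four times
  (`‖tens‖` integrates to the product).
* `box_CR`: `osc_CR` with `η = α` (the product moves by at most `12 α`), `NN_lip`, `min_le_Jk`,
  then the double integral factors and `jk_bil` twice.
* `box_near`: `osc_NR` with `μ = α t`, `B = 2 / α`: `‖ε₁ - ε₂‖ ≥ K α / 2 - 6 α ≥ 4 α` because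
  `‖p² - p'²‖ ≤ 2 ‖p - p'‖`, and `T ‖ε₃ - ε₄‖ ≤ 3 T |sin| ≤ 3 α t`; then `l1_le` twice and
  `near_bil` with `η = α t / T`.
* `box_Sp`: `ext2_tens`, `|a b c d| ≤ (|a|² + |b|²)/2 * (|c|² + |d|²)/2`, and `Pack.bes` applied to
  `k = S.indicator (EE A T · z)` with `n2 k ≤ M² * 2 α` (`box_meas`). -/

theorem boxa_dbl {X : Type} [MeasurableSpace X] (μ : Measure X) {k k' : X → ℂ} {N : X → X → ℂ}
    {g g' : X → ℝ} {D : ℝ} (hg : Integrable (fun p => g p * ‖k p‖) μ)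
    (hg' : Integrable (fun p => g' p * ‖k' p‖) μ)
    (h : ∀ p p', k p ≠ 0 → k' p' ≠ 0 → ‖N p p'‖ ≤ D * (g p * g' p')) :
    ‖∫ p, ∫ p', k p * k' p' * N p p' ∂μ ∂μ‖ ≤
      D * ((∫ p, g p * ‖k p‖ ∂μ) * ∫ p, g' p * ‖k' p‖ ∂μ) := by
  have h1 : ∀ p, ‖∫ p', k p * k' p' * N p p' ∂μ‖ ≤
      (g p * ‖k p‖) * (D * ∫ p, g' p * ‖k' p‖ ∂μ) := by
    intro p
    have h2 : ‖∫ p', k p * k' p' * N p p' ∂μ‖ ≤
        ∫ p', (g p * ‖k p‖ * D) * (g' p' * ‖k' p'‖) ∂μ := by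
      refine norm_integral_le_of_norm_le (hg'.const_mul _) (Eventually.of_forall fun p' => ?_)
      by_cases hk : k p = 0
      · simp [hk]
      by_cases hk' : k' p' = 0
      · simp [hk']
      rw [norm_mul, norm_mul]
      have h3 := h p p' hk hk'
      calc ‖k p‖ * ‖k' p'‖ * ‖N p p'‖ ≤ ‖k p‖ * ‖k' p'‖ * (D * (g p * g' p')) := by gcongr
        _ = _ := by ring
    rw [integral_const_mul] at h2
    calc _ ≤ _ := h2
      _ = _ := by ring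
  calc _ ≤ ∫ p, (g p * ‖k p‖) * (D * ∫ p, g' p * ‖k' p‖ ∂μ) ∂μ :=
        norm_integral_le_of_norm_le (hg.mul_const _) (Eventually.of_forall h1)
    _ = _ := by rw [integral_mul_const]; ring

theorem boxa_tens_ne {w w' : Y → ℂ} {p : Y × Y} (h : tens w w' p ≠ 0) :
    w p.1 ≠ 0 ∧ w' p.2 ≠ 0 := by
  unfold tens at h
  refine ⟨fun h0 => h (by rw [h0, zero_mul]), fun h0 => h (by rw [h0, map_zero, mul_zero])⟩

theorem boxa_tens_l1 {m : Measure ℂ} [IsFiniteMeasure m] (hm : m univ ≤ 1) {w w' : Y → ℂ}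
    (hw : Bd w) (hw' : Bd w') :
    ∫ p, 1 * ‖tens w w' p‖ ∂nYY m ≤ 9 * (√(n2 (nY m) w) * √(n2 (nY m) w')) := by
  have h1 : ∫ p, 1 * ‖tens w w' p‖ ∂nYY m = (∫ y, ‖w y‖ ∂nY m) * ∫ y, ‖w' y‖ ∂nY m := by
    rw [← integral_prod_mul]
    unfold nYY
    refine integral_congr_ae (Eventually.of_forall fun p => ?_)
    simp [tens]
  rw [h1]
  have h2 := l1_le hm hw
  have h3 := l1_le hm hw'
  have h4 : 0 ≤ ∫ y, ‖w' y‖ ∂nY m := integral_nonneg fun y => norm_nonneg _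
  calc _ ≤ (3 * √(n2 (nY m) w)) * (3 * √(n2 (nY m) w')) :=
        mul_le_mul h2 h3 h4 (by positivity)
    _ = _ := by ring

theorem boxa_supp {M M' α : ℝ} {m : Measure ℂ} {A : Y → ℂ → ℂ} {χ₁ χ₂ : ℂ → ℂ} {z₀ : ℂ}
    (hc : Cell M M' α m A χ₁ χ₂ z₀) (z : ℂ) (hz : α / 2000 < ‖z - z₀‖) : χ₁ z * χ₂ z = 0 := by
  rw [hc.s1 z hz, zero_mul]

theorem boxa_int {M M' α : ℝ} {m : Measure ℂ} {A : Y → ℂ → ℂ} {χ₁ χ₂ : ℂ → ℂ} {z₀ : ℂ}
    (hc : Cell M M' α m A χ₁ χ₂ z₀) : Integrable fun z => χ₁ z * χ₂ z := by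
  refine (hc.c1.mul hc.c2).cont.integrable_of_hasCompactSupport ?_
  refine HasCompactSupport.intro (isCompact_closedBall z₀ (α / 2000)) fun z hz => ?_
  refine boxa_supp hc z ?_
  rw [mem_closedBall_iff_norm] at hz
  exact not_le.mp hz

theorem boxa_XX {M M' α : ℝ} {m : Measure ℂ} [IsFiniteMeasure m] {A : Y → ℂ → ℂ}
    {χ₁ χ₂ : ℂ → ℂ} {z₀ : ℂ} (hc : Cell M M' α m A χ₁ χ₂ z₀) (t T : ℝ) (s : ℂ)
    {k k' : Y × Y → ℂ} (hk : Bd k) (hk' : Bd k') :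
    XX m A (fun z => χ₁ z * χ₂ z) t T s k k' =
      ∫ p, ∫ p', k p * k' p' * NN A (fun z => χ₁ z * χ₂ z) t T 0 s p p' ∂nYY m ∂nYY m := by
  have h := fub (m := m) hc.amp (hc.c1.mul hc.c2).cont.measurable (boxa_int hc) t T 0 s hk hk'
  unfold XX
  simpa only [add_zero] using h

theorem boxa_move {z₀ : ℂ} (hz : ‖z₀ - I‖ ≤ 1 / 100) {a θ α : ℝ} (h : |a - θ| ≤ α) :
    ‖ep z₀ a - ep z₀ θ‖ ≤ 3 * α := by
  have h1 := ep_lip a θ (z := z₀) (hz.trans (by norm_num))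
  linarith

theorem boxa_low {t T α x : ℝ} (ht : 0 ≤ t) (hT : 0 < T) {e₁ e₂ e₃ e₄ f₁ f₂ f₃ f₄ : ℂ}
    (h1 : ‖f₁ - e₁‖ ≤ α) (h2 : ‖f₂ - e₂‖ ≤ α) (h3 : ‖f₃ - e₃‖ ≤ α) (h4 : ‖f₄ - e₄‖ ≤ α)
    (h : x ≤ ‖((t / T : ℝ) : ℂ) * (e₁ - e₂) + (e₃ - e₄)‖) :
    T * x - 2 * α * (t + T) ≤ ‖(t : ℂ) * (f₁ - f₂) + (T : ℂ) * (f₃ - f₄)‖ := by
  have hT' : (T : ℂ) ≠ 0 := by exact_mod_cast hT.ne'
  have e : (T : ℂ) * (((t / T : ℝ) : ℂ) * (e₁ - e₂) + (e₃ - e₄)) =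
      ((t : ℂ) * (f₁ - f₂) + (T : ℂ) * (f₃ - f₄)) -
        ((t : ℂ) * ((f₁ - e₁) - (f₂ - e₂)) + (T : ℂ) * ((f₃ - e₃) - (f₄ - e₄))) := by
    push_cast
    field_simp
    ring
  have n1 : ‖(T : ℂ) * (((t / T : ℝ) : ℂ) * (e₁ - e₂) + (e₃ - e₄))‖ =
      T * ‖((t / T : ℝ) : ℂ) * (e₁ - e₂) + (e₃ - e₄)‖ := by
    rw [norm_mul, Complex.norm_real, Real.norm_of_nonneg hT.le]
  have n2 : ‖(t : ℂ) * ((f₁ - e₁) - (f₂ - e₂))‖ ≤ t * (2 * α) := by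
    rw [norm_mul, Complex.norm_real, Real.norm_of_nonneg ht]
    have := norm_sub_le (f₁ - e₁) (f₂ - e₂)
    exact mul_le_mul_of_nonneg_left (by linarith) ht
  have n3 : ‖(T : ℂ) * ((f₃ - e₃) - (f₄ - e₄))‖ ≤ T * (2 * α) := by
    rw [norm_mul, Complex.norm_real, Real.norm_of_nonneg hT.le]
    have := norm_sub_le (f₃ - e₃) (f₄ - e₄)
    exact mul_le_mul_of_nonneg_left (by linarith) hT.le
  have n4 := norm_add_le ((t : ℂ) * ((f₁ - e₁) - (f₂ - e₂))) ((T : ℂ) * ((f₃ - e₃) - (f₄ - e₄)))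
  have n5 := norm_sub_le ((t : ℂ) * (f₁ - f₂) + (T : ℂ) * (f₃ - f₄))
    ((t : ℂ) * ((f₁ - e₁) - (f₂ - e₂)) + (T : ℂ) * ((f₃ - e₃) - (f₄ - e₄)))
  rw [← e, n1] at n5
  have n6 := mul_le_mul_of_nonneg_left h hT.le
  linarith

theorem boxa_prod {α : ℝ} {e₁ e₂ f₁ f₂ : ℂ} (h1 : ‖f₁ - e₁‖ ≤ α) (h2 : ‖f₂ - e₂‖ ≤ α)
    (n1 : ‖e₁‖ = 1) (n2 : ‖f₂‖ = 1) : ‖f₁ * f₂ - e₁ * e₂‖ ≤ 2 * α := by
  have e : f₁ * f₂ - e₁ * e₂ = (f₁ - e₁) * f₂ + e₁ * (f₂ - e₂) := by ring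
  have h := norm_add_le ((f₁ - e₁) * f₂) (e₁ * (f₂ - e₂))
  rw [norm_mul, norm_mul, n1, n2] at h
  rw [e]
  linarith

theorem boxa_Jint {m : Measure ℂ} [IsFiniteMeasure m] {T : ℝ} (hT : 0 ≤ T) {k : Y × Y → ℂ}
    (hk : Bd k) : Integrable (fun p : Y × Y => Jk T (p.1.2 - p.2.2) * ‖k p‖) (nYY m) := by
  refine Integrable.mono' (hk.integrable (nYY m)).norm ?_ (Eventually.of_forall fun p => ?_)
  · refine Measurable.aestronglyMeasurable ?_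
    exact ((measurable_Jk T).comp (by fun_prop)).mul hk.meas.norm
  · rw [Real.norm_of_nonneg (mul_nonneg (Jk_nonneg hT _) (norm_nonneg _))]
    exact mul_le_of_le_one_left (norm_nonneg _) (Jk_le_one hT _)

theorem boxa_sub {X : Type} [MeasurableSpace X] (μ : Measure X) [IsFiniteMeasure μ]
    {k k' : X → ℂ} {N N' : X → X → ℂ} (hk : Bd k) (hk' : Bd k')
    (hN : Bd fun q : X × X => N q.1 q.2) (hN' : Bd fun q : X × X => N' q.1 q.2) :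
    (∫ p, ∫ p', k p * k' p' * N p p' ∂μ ∂μ) - ∫ p, ∫ p', k p * k' p' * N' p p' ∂μ ∂μ =
      ∫ p, ∫ p', k p * k' p' * (N p p' - N' p p') ∂μ ∂μ := by
  have b0 : Bd fun q : X × X => k q.1 * k' q.2 :=
    (hk.comp measurable_fst).mul (hk'.comp measurable_snd)
  have b1 := b0.mul hN
  have b2 := b0.mul hN'
  rw [← integral_sub ((b1.integral μ).integrable μ) ((b2.integral μ).integrable μ)]
  refine integral_congr_ae (Eventually.of_forall fun p => ?_)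
  have c1 := (b1.comp (f := fun p' : X => (p, p')) (by fun_prop)).integrable μ
  have c2 := (b2.comp (f := fun p' : X => (p, p')) (by fun_prop)).integrable μ
  show (∫ p', k p * k' p' * N p p' ∂μ) - ∫ p', k p * k' p' * N' p p' ∂μ = _
  rw [← integral_sub c1 c2]
  refine integral_congr_ae (Eventually.of_forall fun p' => ?_)
  simp only [mul_sub]

theorem box_NR (M M' α : ℝ) : ∃ C : ℝ, 0 ≤ C ∧ ∀ (m : Measure ℂ) [IsFiniteMeasure m]
    (A : Y → ℂ → ℂ) (χ₁ χ₂ : ℂ → ℂ) (z₀ s : ℂ) (C₀ K t T θ₁ θ₂ θ₃ θ₄ : ℝ) (w₁ w₂ w₃ w₄ : Y → ℂ),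
    Cell M M' α m A χ₁ χ₂ z₀ → ‖s‖ ≤ α / 2000 → 0 ≤ C₀ → 20 * (C₀ + 1) ≤ K → 1 ≤ t → 1 ≤ T →
    t ≤ C₀ * T → Bd w₁ → Bd w₂ → Bd w₃ → Bd w₄ →
    In θ₁ α w₁ → In θ₂ α w₂ → In θ₃ α w₃ → In θ₄ α w₄ →
    K * α ≤ ‖((t / T : ℝ) : ℂ) * (ep z₀ θ₁ - ep z₀ θ₂) + (ep z₀ θ₃ - ep z₀ θ₄)‖ →
    ‖XX m A (fun z => χ₁ z * χ₂ z) t T s (tens w₁ w₂) (tens w₃ w₄)‖ ≤ C / T ^ 3 *
      (√(n2 (nY m) w₁) * √(n2 (nY m) w₂) * (√(n2 (nY m) w₃) * √(n2 (nY m) w₄))) := by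
  obtain ⟨C, hC, hosc⟩ := osc_NR
  refine ⟨81 * |C * (1 / α) ^ 3 * (4096 * (8 * M' * M') * M ^ 4) / α ^ 3|, by positivity, ?_⟩
  intro m _ A χ₁ χ₂ z₀ s C₀ K t T θ₁ θ₂ θ₃ θ₄ w₁ w₂ w₃ w₄ hc hs hC₀ hK ht hT htT b₁ b₂ b₃ b₄
    i₁ i₂ i₃ i₄ hlow
  have hα := hc.pos
  have hα1 := hc.le
  have hT0 : 0 < T := by linarith
  have ht0 : 0 ≤ t := by linarith
  have hM : 0 ≤ 4096 * (8 * M' * M') * M ^ 4 := by
    have := mul_self_nonneg M'
    have h4 : 0 ≤ M ^ 4 := by positivity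
    nlinarith [mul_nonneg this h4]
  set D : ℝ := C * (1 / α) ^ 3 * (4096 * (8 * M' * M') * M ^ 4) / α ^ 3 with hD
  have hD0 : 0 ≤ D := by positivity
  rw [abs_of_nonneg hD0, boxa_XX hc t T s (b₁.tens b₂) (b₃.tens b₄)]
  have key : ∀ p p', tens w₁ w₂ p ≠ 0 → tens w₃ w₄ p' ≠ 0 →
      ‖NN A (fun z => χ₁ z * χ₂ z) t T 0 s p p'‖ ≤ D / T ^ 3 * ((1 : ℝ) * 1) := by
    intro p p' hp hp'
    obtain ⟨B, hB, hB0, hBe⟩ := NN_eq hc.amp (hc.c1.mul hc.c2) t T 0 s p p'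
    have m1 := boxa_move hc.ctr (i₁ _ (boxa_tens_ne hp).1)
    have m2 := boxa_move hc.ctr (i₂ _ (boxa_tens_ne hp).2)
    have m3 := boxa_move hc.ctr (i₃ _ (boxa_tens_ne hp').1)
    have m4 := boxa_move hc.ctr (i₄ _ (boxa_tens_ne hp').2)
    have low := boxa_low ht0 hT0 m1 m2 m3 m4 hlow
    have hμ : 0 < α * T * (C₀ + 1) := by positivity
    have hαT : 0 < α * T := by positivity
    have hsum : t + T ≤ (C₀ + 1) * T := by linarith
    have hl : α * T * (C₀ + 1) ≤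
        ‖(t : ℂ) * (ep z₀ p.1.2 - ep z₀ p.2.2) + (T : ℂ) * (ep z₀ p'.1.2 - ep z₀ p'.2.2)‖ := by
      have a1 : α * T * (20 * (C₀ + 1)) ≤ α * T * K := mul_le_mul_of_nonneg_left hK hαT.le
      have a2 : α * (t + T) ≤ α * ((C₀ + 1) * T) := mul_le_mul_of_nonneg_left hsum hα.le
      linarith
    have hΛ : |t| * |Real.sin (p.1.2 - p.2.2)| + |T| * |Real.sin (p'.1.2 - p'.2.2)| ≤
        1 / α * (α * T * (C₀ + 1)) := by
      have a1 : 1 / α * (α * T * (C₀ + 1)) = (C₀ + 1) * T := by field_simp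
      rw [a1, abs_of_nonneg ht0, abs_of_nonneg hT0.le]
      have a2 := mul_le_of_le_one_right ht0 (Real.abs_sin_le_one (p.1.2 - p.2.2))
      have a3 := mul_le_of_le_one_right hT0.le (Real.abs_sin_le_one (p'.1.2 - p'.2.2))
      linarith
    have hB1 : 1 ≤ 1 / α := by rw [le_div_iff₀ hα]; linarith
    have hρB : α / 2000 * (1 / α) ≤ 1 / 1000 := by
      have a1 : α / 2000 * (1 / α) = 1 / 2000 := by field_simp
      rw [a1]; norm_num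
    have h := hosc B _ t T p.1.2 p.2.2 p'.1.2 p'.2.2 (α / 2000) _ (1 / α) z₀ 0 s hB
      (fun z hz => hB0 z (boxa_supp hc z hz)) hc.ctr (by positivity)
      (by rw [norm_zero]; positivity) hs hμ hB1 hρB hΛ hl
    rw [hBe]
    refine h.trans ?_
    have a1 : D / T ^ 3 * ((1 : ℝ) * 1) =
        C * (1 / α) ^ 3 * (4096 * (8 * M' * M') * M ^ 4) / (α * T) ^ 3 := by
      rw [hD]; field_simp
    rw [a1]
    refine div_le_div_of_nonneg_left (by positivity) (by positivity) ?_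
    refine pow_le_pow_left₀ hαT.le ?_ 3
    exact le_mul_of_one_le_right hαT.le (by linarith)
  have g1 : Integrable (fun p => (1 : ℝ) * ‖tens w₁ w₂ p‖) (nYY m) :=
    ((b₁.tens b₂).integrable (nYY m)).norm.const_mul _
  have g2 : Integrable (fun p => (1 : ℝ) * ‖tens w₃ w₄ p‖) (nYY m) :=
    ((b₃.tens b₄).integrable (nYY m)).norm.const_mul _
  have h := boxa_dbl (nYY m) (g := fun _ => 1) (g' := fun _ => 1) g1 g2 key
  refine h.trans ?_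
  have l1 := boxa_tens_l1 hc.sub b₁ b₂
  have l2 := boxa_tens_l1 hc.sub b₃ b₄
  have l3 : 0 ≤ ∫ p, (1 : ℝ) * ‖tens w₃ w₄ p‖ ∂nYY m := integral_nonneg fun p => by positivity
  have l4 := mul_le_mul l1 l2 l3 (by positivity)
  calc _ ≤ D / T ^ 3 * (9 * (√(n2 (nY m) w₁) * √(n2 (nY m) w₂)) *
        (9 * (√(n2 (nY m) w₃) * √(n2 (nY m) w₄)))) :=
        mul_le_mul_of_nonneg_left l4 (by positivity)
    _ = _ := by ring

theorem box_CR (M M' α : ℝ) : ∃ C : ℝ, 0 ≤ C ∧ ∀ (m : Measure ℂ) [IsFiniteMeasure m]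
    (A : Y → ℂ → ℂ) (χ₁ χ₂ : ℂ → ℂ) (z₀ s : ℂ) (K t T θ₁ θ₂ θ₃ θ₄ : ℝ) (w₁ w₂ w₃ w₄ : Y → ℂ),
    Cell M M' α m A χ₁ χ₂ z₀ → ‖s‖ ≤ α / 2000 → 20 ≤ K → 1 ≤ t → 1 ≤ T →
    Bd w₁ → Bd w₂ → Bd w₃ → Bd w₄ →
    In θ₁ α w₁ → In θ₂ α w₂ → In θ₃ α w₃ → In θ₄ α w₄ →
    K * α ≤ ‖ep z₀ θ₁ * ep z₀ θ₂ - ep z₀ θ₃ * ep z₀ θ₄‖ →
    ‖XX m A (fun z => χ₁ z * χ₂ z) t T 0 (tens w₁ w₂) (tens w₃ w₄) -
      XX m A (fun z => χ₁ z * χ₂ z) t T s (tens w₁ w₂) (tens w₃ w₄)‖ ≤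
      C * ‖s‖ ^ (1 / 8 : ℝ) / (t * T) *
      (√(n2 (nY m) w₁) * √(n2 (nY m) w₂) * (√(n2 (nY m) w₃) * √(n2 (nY m) w₄))) := by
  obtain ⟨C, hC, hosc⟩ := osc_CR
  obtain ⟨Cj, hCj, hj⟩ := jk_bil
  refine ⟨|2 * (C * (4096 * (8 * M' * M') * M ^ 4) / α ^ 6) + 3 * (8 * M' * M') * M ^ 4| *
    (Cj * Cj), by positivity, ?_⟩
  intro m _ A χ₁ χ₂ z₀ s K t T θ₁ θ₂ θ₃ θ₄ w₁ w₂ w₃ w₄ hc hs hK ht hT b₁ b₂ b₃ b₄
    i₁ i₂ i₃ i₄ hlow
  have hα := hc.pos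
  have hα1 := hc.le
  have hT0 : 0 < T := by linarith
  have ht0 : 0 < t := by linarith
  have hM0 : 0 ≤ (8 * M' * M') * M ^ 4 := by
    have := mul_self_nonneg M'
    have h4 : 0 ≤ M ^ 4 := by positivity
    nlinarith [mul_nonneg this h4]
  have hM : 0 ≤ 4096 * (8 * M' * M') * M ^ 4 := by linarith
  have hM3 : 0 ≤ 3 * (8 * M' * M') * M ^ 4 := by linarith
  set D₁ : ℝ := C * (4096 * (8 * M' * M') * M ^ 4) / α ^ 6 with hD₁
  set D₂ : ℝ := 3 * (8 * M' * M') * M ^ 4 with hD₂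
  have hD1 : 0 ≤ D₁ := by positivity
  have hD0 : 0 ≤ 2 * D₁ + D₂ := by positivity
  have hχ := hc.c1.mul hc.c2
  have hz₀ : z₀ ∈ Up := ball_sub (hc.ctr.trans (by norm_num))
  rw [abs_of_nonneg hD0, boxa_XX hc t T s (b₁.tens b₂) (b₃.tens b₄),
    boxa_XX hc t T 0 (b₁.tens b₂) (b₃.tens b₄),
    boxa_sub (nYY m) (b₁.tens b₂) (b₃.tens b₄)
      (bd_NN hc.amp hχ.cont.measurable (boxa_int hc) t T 0 0)
      (bd_NN hc.amp hχ.cont.measurable (boxa_int hc) t T 0 s)]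
  have key : ∀ p p' : Y × Y, tens w₁ w₂ p ≠ 0 → tens w₃ w₄ p' ≠ 0 →
      ‖NN A (fun z => χ₁ z * χ₂ z) t T 0 0 p p' - NN A (fun z => χ₁ z * χ₂ z) t T 0 s p p'‖ ≤
        (2 * D₁ + D₂) * ‖s‖ ^ (1 / 8 : ℝ) *
          (Jk t (p.1.2 - p.2.2) * Jk T (p'.1.2 - p'.2.2)) := by
    intro p p' hp hp'
    have m1 := boxa_move hc.ctr (i₁ _ (boxa_tens_ne hp).1)
    have m2 := boxa_move hc.ctr (i₂ _ (boxa_tens_ne hp).2)
    have m3 := boxa_move hc.ctr (i₃ _ (boxa_tens_ne hp').1)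
    have m4 := boxa_move hc.ctr (i₄ _ (boxa_tens_ne hp').2)
    have q1 := boxa_prod m1 m2 (norm_ep _ hz₀) (norm_ep _ hz₀)
    have q2 := boxa_prod m3 m4 (norm_ep _ hz₀) (norm_ep _ hz₀)
    have hl : α ≤ ‖ep z₀ p.1.2 * ep z₀ p.2.2 - ep z₀ p'.1.2 * ep z₀ p'.2.2‖ := by
      have e : ep z₀ θ₁ * ep z₀ θ₂ - ep z₀ θ₃ * ep z₀ θ₄ =
          (ep z₀ p.1.2 * ep z₀ p.2.2 - ep z₀ p'.1.2 * ep z₀ p'.2.2) -
            ((ep z₀ p.1.2 * ep z₀ p.2.2 - ep z₀ θ₁ * ep z₀ θ₂) -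
              (ep z₀ p'.1.2 * ep z₀ p'.2.2 - ep z₀ θ₃ * ep z₀ θ₄)) := by ring
      have a1 := norm_sub_le (ep z₀ p.1.2 * ep z₀ p.2.2 - ep z₀ p'.1.2 * ep z₀ p'.2.2)
        ((ep z₀ p.1.2 * ep z₀ p.2.2 - ep z₀ θ₁ * ep z₀ θ₂) -
              (ep z₀ p'.1.2 * ep z₀ p'.2.2 - ep z₀ θ₃ * ep z₀ θ₄))
      have a2 := norm_sub_le (ep z₀ p.1.2 * ep z₀ p.2.2 - ep z₀ θ₁ * ep z₀ θ₂)
              (ep z₀ p'.1.2 * ep z₀ p'.2.2 - ep z₀ θ₃ * ep z₀ θ₄)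
      rw [← e] at a1
      have a3 : 20 * α ≤ K * α := mul_le_mul_of_nonneg_right hK hα.le
      linarith
    have x1 : 0 ≤ t * |Real.sin (p.1.2 - p.2.2)| := by positivity
    have x2 : 0 ≤ T * |Real.sin (p'.1.2 - p'.2.2)| := by positivity
    have one : ∀ s' : ℂ, ‖s'‖ ≤ α / 2000 → ‖NN A (fun z => χ₁ z * χ₂ z) t T 0 s' p p'‖ ≤
        D₁ / (1 + t * |Real.sin (p.1.2 - p.2.2)| + T * |Real.sin (p'.1.2 - p'.2.2)|) ^ 3 := by
      intro s' hs'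
      obtain ⟨B, hB, hB0, hBe⟩ := NN_eq hc.amp hχ t T 0 s' p p'
      have h := hosc B _ t T p.1.2 p.2.2 p'.1.2 p'.2.2 (α / 2000) α z₀ 0 s' hB
        (fun z hz => hB0 z (boxa_supp hc z hz)) hc.ctr (by positivity)
        (by rw [norm_zero]; positivity) hs' (by linarith) hl
      rw [abs_of_pos ht0, abs_of_pos hT0, ← div_div] at h
      rw [hBe]
      exact h
    refine min_le_Jk ht0.le hT0.le _ _ hD0 (norm_nonneg _) ?_ ?_
    · have h0 : ∀ z, 1 / 50 < ‖z - I‖ → χ₁ z * χ₂ z = 0 := by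
        intro z hz
        refine boxa_supp hc z ?_
        have a1 := norm_sub_le_norm_sub_add_norm_sub z z₀ I
        have a2 := hc.ctr
        linarith
      have h := NN_lip hc.amp hχ h0 t hT0.le (s := s) (by linarith) p p'
      refine h.trans ?_
      refine mul_le_mul (mul_le_mul_of_nonneg_right (by linarith) (norm_nonneg _)) (by linarith)
        (by positivity) (by positivity)
    · have h1 := one 0 (by rw [norm_zero]; positivity)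
      have h2 := one s hs
      refine (norm_sub_le _ _).trans ((add_le_add h1 h2).trans ?_)
      rw [← add_div]
      exact div_le_div_of_nonneg_right (by linarith) (by positivity)
  have h := boxa_dbl (nYY m) (g := fun p => Jk t (p.1.2 - p.2.2))
    (g' := fun p => Jk T (p.1.2 - p.2.2)) (boxa_Jint ht0.le (b₁.tens b₂))
    (boxa_Jint hT0.le (b₃.tens b₄)) key
  refine h.trans ?_
  have l1 := hj m hc.sub t w₁ w₂ ht0 b₁ b₂
  have l2 := hj m hc.sub T w₃ w₄ hT0 b₃ b₄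
  have l3 : 0 ≤ ∫ p, Jk T (p.1.2 - p.2.2) * ‖tens w₃ w₄ p‖ ∂nYY m :=
    integral_nonneg fun p => mul_nonneg (Jk_nonneg hT0.le _) (norm_nonneg _)
  have l4 := mul_le_mul l1 l2 l3 (by positivity)
  calc _ ≤ (2 * D₁ + D₂) * ‖s‖ ^ (1 / 8 : ℝ) * (Cj / t * (√(n2 (nY m) w₁) * √(n2 (nY m) w₂)) *
        (Cj / T * (√(n2 (nY m) w₃) * √(n2 (nY m) w₄)))) :=
        mul_le_mul_of_nonneg_left l4 (by positivity)
    _ = _ := by ring

theorem boxn_int {M M' α : ℝ} {m : Measure ℂ} {A : Y → ℂ → ℂ} {χ₁ χ₂ : ℂ → ℂ} {z₀ : ℂ}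
    (hc : Cell M M' α m A χ₁ χ₂ z₀) : Integrable fun z => χ₁ z * χ₂ z := by
  refine (hc.c1.mul hc.c2).cont.integrable_of_hasCompactSupport
    (HasCompactSupport.intro (isCompact_closedBall z₀ (α / 2000)) fun z hz => ?_)
  rw [Metric.mem_closedBall, dist_eq_norm, not_le] at hz
  rw [hc.s1 z hz, zero_mul]

theorem boxn_bil {m : Measure ℂ} [IsFiniteMeasure m] {k k' : Y × Y → ℂ} (hk : Bd k) (hk' : Bd k')
    {F : Y × Y → Y × Y → ℂ} {b : ℝ} (h : ∀ p p', k p ≠ 0 → k' p' ≠ 0 → ‖F p p'‖ ≤ b) :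
    ‖∫ p, ∫ p', k p * k' p' * F p p' ∂nYY m ∂nYY m‖ ≤
      b * ((∫ p, ‖k p‖ ∂nYY m) * ∫ p, ‖k' p‖ ∂nYY m) := by
  have i1 := (hk.integrable (nYY m)).norm
  have i2 := (hk'.integrable (nYY m)).norm
  refine (norm_integral_le_of_norm_le (i1.mul_const (b * ∫ p, ‖k' p‖ ∂nYY m))
    (Eventually.of_forall fun p => ?_)).trans_eq (by rw [integral_mul_const]; ring)
  refine (norm_integral_le_of_norm_le (i2.const_mul (‖k p‖ * b))
    (Eventually.of_forall fun p' => ?_)).trans_eq (by rw [integral_const_mul]; ring)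
  by_cases h1 : k p = 0
  · simp [h1]
  by_cases h2 : k' p' = 0
  · simp [h2]
  rw [norm_mul, norm_mul, mul_right_comm]
  exact mul_le_mul_of_nonneg_right (mul_le_mul_of_nonneg_left (h p p' h1 h2) (norm_nonneg _))
    (norm_nonneg _)

theorem box_near (M M' α : ℝ) : ∃ C : ℝ, 0 ≤ C ∧ ∀ (m : Measure ℂ) [IsFiniteMeasure m]
    (A : Y → ℂ → ℂ) (χ₁ χ₂ : ℂ → ℂ) (z₀ s : ℂ) (K t T θ₁ θ₂ : ℝ) (w₁ w₂ w₃ w₄ : Y → ℂ),
    Cell M M' α m A χ₁ χ₂ z₀ → ‖s‖ ≤ α / 2000 → 20 ≤ K → 1 ≤ t → 1 ≤ T →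
    Bd w₁ → Bd w₂ → Bd w₃ → Bd w₄ → In θ₁ α w₁ → In θ₂ α w₂ →
    K * α ≤ ‖ep z₀ θ₁ ^ 2 - ep z₀ θ₂ ^ 2‖ →
    ‖XX m A (fun z => χ₁ z * χ₂ z) t T s (tens w₁ w₂)
      ({p : Y × Y | |Real.sin (p.1.2 - p.2.2)| ≤ α * t / T}.indicator (tens w₃ w₄))‖ ≤
      C / (t ^ 2 * T) *
      (√(n2 (nY m) w₁) * √(n2 (nY m) w₂) * (√(n2 (nY m) w₃) * √(n2 (nY m) w₄))) := by
  obtain ⟨C, hC, H⟩ := osc_NR
  refine ⟨|C * (2 / α) ^ 3 * (4096 * (8 * M' * M') * M ^ 4) / α ^ 3 * (9 * (20 * α))|, abs_nonneg _,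
    fun m _ A χ₁ χ₂ z₀ s K t T θ₁ θ₂ w₁ w₂ w₃ w₄ hc hs hK ht hT b₁ b₂ b₃ b₄ i₁ i₂ hKα => ?_⟩
  have hα := hc.pos
  have hα1 := hc.le
  have hM := hc.amp.nonneg
  have hM' := hc.c1.nonneg
  have t0 : 0 < t := by linarith
  have T0 : 0 < T := by linarith
  have hχ := hc.c1.mul hc.c2
  have hz : ‖z₀ - I‖ ≤ 1 / 50 := hc.ctr.trans (by norm_num)
  have hU : z₀ ∈ Up := ball_sub (hz.trans (by norm_num))
  have mS : MeasurableSet {p : Y × Y | |Real.sin (p.1.2 - p.2.2)| ≤ α * t / T} :=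
    measurableSet_le (by fun_prop) measurable_const
  have hk := b₁.tens b₂
  have hk' := (b₃.tens b₄).indicator mS
  have e := fub (m := m) hc.amp hχ.cont.measurable (boxn_int hc) t T 0 s hk hk'
  simp only [add_zero] at e
  rw [abs_of_nonneg (by positivity)]
  unfold XX
  rw [e]
  refine (boxn_bil hk hk' (b := C * (2 / α) ^ 3 * (4096 * (8 * M' * M') * M ^ 4) / (α * t) ^ 3)
    fun p p' h1 h2 => ?_).trans ?_
  · obtain ⟨B, hB, hB0, eB⟩ := NN_eq hc.amp hχ t T 0 s p p'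
    rw [eB]
    have h3 := mem_of_indicator_ne_zero h2
    rw [mem_ofPred_eq, le_div_iff₀ T0] at h3
    have a1 := i₁ p.1 (left_ne_zero_of_mul h1)
    have a2 := i₂ p.2 (fun h => right_ne_zero_of_mul h1 (by rw [h, map_zero]))
    refine H B _ t T _ _ _ _ (α / 2000) (α * t) (2 / α) z₀ 0 s hB
      (fun z hz => hB0 z (by rw [hc.s1 z hz, zero_mul])) hc.ctr (by positivity)
      (by rw [norm_zero]; positivity) hs (by positivity) (by rw [le_div_iff₀ hα]; linarith)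
      (le_of_eq (by field_simp; norm_num)) ?_ ?_
    · have e1 : 2 / α * (α * t) = 2 * t := by field_simp
      have c1 := mul_le_mul_of_nonneg_left (Real.abs_sin_le_one (p.1.2 - p.2.2)) t0.le
      have c2 := mul_le_mul_of_nonneg_right hα1 t0.le
      rw [e1, abs_of_pos t0, abs_of_pos T0]
      linarith
    · have c1 := ep_lip p.1.2 θ₁ hz
      have c2 := ep_lip p.2.2 θ₂ hz
      have c3 := (ep_sub_bd p'.1.2 p'.2.2 hz).2
      have c4 : ‖ep z₀ θ₁ ^ 2 - ep z₀ θ₂ ^ 2‖ ≤ 2 * ‖ep z₀ θ₁ - ep z₀ θ₂‖ := by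
        rw [sq_sub_sq, norm_mul]
        refine mul_le_mul_of_nonneg_right ((norm_add_le _ _).trans_eq ?_) (norm_nonneg _)
        rw [norm_ep _ hU, norm_ep _ hU]; norm_num
      have c5 : ‖ep z₀ θ₁ - ep z₀ θ₂‖ ≤ ‖ep z₀ p.1.2 - ep z₀ p.2.2‖ + ‖ep z₀ p.2.2 - ep z₀ θ₂‖ +
          ‖ep z₀ p.1.2 - ep z₀ θ₁‖ := by
        refine le_of_eq_of_le (congrArg norm (by ring)) ((norm_sub_le _ _).trans
          (add_le_add (norm_add_le (ep z₀ p.1.2 - ep z₀ p.2.2) (ep z₀ p.2.2 - ep z₀ θ₂)) le_rfl))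
      have c6 := mul_le_mul_of_nonneg_right hK hα.le
      have c7 : 4 * α ≤ ‖ep z₀ p.1.2 - ep z₀ p.2.2‖ := by linarith
      have c8 := norm_sub_le ((t : ℂ) * (ep z₀ p.1.2 - ep z₀ p.2.2) +
        (T : ℂ) * (ep z₀ p'.1.2 - ep z₀ p'.2.2)) ((T : ℂ) * (ep z₀ p'.1.2 - ep z₀ p'.2.2))
      rw [add_sub_cancel_right, norm_mul, norm_mul, Complex.norm_real, Complex.norm_real,
        Real.norm_of_nonneg t0.le, Real.norm_of_nonneg T0.le] at c8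
      have c9 := mul_le_mul_of_nonneg_left c7 t0.le
      have c10 := mul_le_mul_of_nonneg_left c3 T0.le
      linarith
  · have l1 : ∫ p, ‖tens w₁ w₂ p‖ ∂nYY m ≤ 9 * (√(n2 (nY m) w₁) * √(n2 (nY m) w₂)) := by
      simp only [tens, norm_mul, Complex.norm_conj]
      unfold nYY
      rw [integral_prod_mul (fun y => ‖w₁ y‖) (fun y => ‖w₂ y‖)]
      exact (mul_le_mul (l1_le hc.sub b₁) (l1_le hc.sub b₂)
        (integral_nonneg fun _ => norm_nonneg _) (by positivity)).trans_eq (by ring)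
    have l2 := near_bil hc.sub (show 0 ≤ α * t / T by positivity) b₃ b₄
    refine (mul_le_mul_of_nonneg_left (mul_le_mul l1 l2 (integral_nonneg fun _ => norm_nonneg _)
      (by positivity)) (by positivity)).trans_eq ?_
    generalize √(n2 (nY m) w₁) * √(n2 (nY m) w₂) = x
    generalize √(n2 (nY m) w₃) * √(n2 (nY m) w₄) = y
    generalize 4096 * (8 * M' * M') * M ^ 4 = u
    field_simp

theorem cap_sum {m : Measure ℂ} [IsFiniteMeasure m] {A : Y → ℂ → ℂ} {M N T θ α : ℝ}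
    (hm : m univ ≤ 1) (hA : Amp M A) (hN : 0 ≤ N) (hT : 0 ≤ T) (hα : 0 ≤ α) {ι : Type}
    {J : Finset ι} {w : ι → Y → ℂ} (hw : Pack m N T J w) {S : Set Y} (hS : Box θ α S) (z : ℂ) :
    ∑ j ∈ J, ‖ext m A T (S.indicator (w j)) z‖ ^ 2 ≤ 2 * α * N * T * M ^ 2 := by
  have hE : Bd fun y => EE A T y z := (hA.bd_EE T).comp (f := fun y => (y, z)) (by fun_prop)
  have h1 := hw.bes _ (hE.indicator hS.meas)
  have h2 : n2 (nY m) (S.indicator fun y => EE A T y z) ≤ 2 * α * M ^ 2 := by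
    refine le_trans ?_ (mul_le_mul_of_nonneg_right (box_meas hm hα hS) (sq_nonneg M))
    rw [← smul_eq_mul, ← integral_indicator_const _ hS.meas]
    refine integral_mono ((hE.indicator hS.meas).integrable_sq _)
      ((integrable_const _).indicator hS.meas) fun y => ?_
    by_cases hy : y ∈ S
    · simp only [indicator_of_mem hy]
      exact pow_le_pow_left₀ (norm_nonneg _) (hA.norm_EE T y z) 2
    · simp [indicator_of_notMem hy]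
  refine le_trans (le_of_eq ?_) (h1.trans ((mul_le_mul_of_nonneg_left h2 (by positivity)).trans_eq
    (by ring)))
  refine Finset.sum_congr rfl fun j _ => ?_
  unfold ext
  congr 3
  ext y
  by_cases hy : y ∈ S
  · simp only [indicator_of_mem hy, mul_comm]
  · simp [indicator_of_notMem hy]

theorem box_Sp {m : Measure ℂ} [IsFiniteMeasure m] {A : Y → ℂ → ℂ} {M M' N t T θ₃ θ₄ α : ℝ}
    {χ₁ χ₂ : ℂ → ℂ} {z₀ : ℂ} (hc : Cell M M' α m A χ₁ χ₂ z₀) (s : ℂ) (hN : 0 ≤ N) (hT : 0 ≤ T)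
    {w₁ w₂ : Y → ℂ} (h₁ : Bd w₁) (h₂ : Bd w₂) {ι : Type} {J : Finset ι} {w : ι → Y → ℂ}
    (hw : Pack m N T J w) {S₃ S₄ : Set Y} (h₃ : Box θ₃ α S₃) (h₄ : Box θ₄ α S₄) :
    ∑ j ∈ J, ‖XX m A (fun z => χ₁ z * χ₂ z) t T s (tens w₁ w₂)
        (tens (S₃.indicator (w j)) (S₄.indicator (w j)))‖ ≤
      α * N * T * M ^ 2 * ((∫ z, ‖χ₁ z * χ₂ z‖ * ‖ext m A t w₁ z‖ ^ 2) +
        ∫ z, ‖χ₁ z * χ₂ z‖ * ‖ext m A t w₂ z‖ ^ 2) := by
  have iχ := boxn_int hc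
  have mulb : ∀ {u : ℂ → ℂ}, Bd u → Integrable fun z => χ₁ z * χ₂ z * u z := fun hu => by
    obtain ⟨b, hb⟩ := hu.bd
    exact iχ.mul_bdd (c := b) hu.meas.aestronglyMeasurable (Eventually.of_forall hb)
  have e₁ := hc.amp.bd_ext m t h₁
  have e₂ := hc.amp.bd_ext m t h₂
  have sq' : ∀ {u : ℂ → ℂ}, Bd u → Integrable fun z => ‖χ₁ z * χ₂ z‖ * ‖u z‖ ^ 2 := fun hu => by
    simpa only [norm_mul, sq] using (mulb (hu.mul hu)).norm
  have ij : ∀ j ∈ J, Integrable fun z => ‖χ₁ z * χ₂ z * ext2 m A t (tens w₁ w₂) z *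
      ext2 m A T (tens (S₃.indicator (w j)) (S₄.indicator (w j))) (z + s)‖ := fun j hj => by
    have := (mulb ((hc.amp.bd_ext2 m t (h₁.tens h₂)).mul ((hc.amp.bd_ext2 m T
      (((hw.bd j hj).indicator h₃.meas).tens ((hw.bd j hj).indicator h₄.meas))).comp
        (f := fun z => z + s) (by fun_prop)))).norm
    simpa only [mul_assoc] using this
  refine (Finset.sum_le_sum fun j _ => norm_integral_le_integral_norm _).trans ?_
  rw [← integral_finsetSum _ ij, ← integral_add (sq' e₁) (sq' e₂), ← integral_const_mul]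
  refine integral_mono (integrable_finsetSum _ ij) (((sq' e₁).add (sq' e₂)).const_mul _) fun z => ?_
  have c3 := cap_sum hc.sub hc.amp hN hT hc.pos.le hw h₃ (z + s)
  have c4 := cap_sum hc.sub hc.amp hN hT hc.pos.le hw h₄ (z + s)
  have c5 : ∑ j ∈ J, ‖ext m A T (S₃.indicator (w j)) (z + s)‖ * ‖ext m A T (S₄.indicator (w j)) (z + s)‖
      ≤ 2 * α * N * T * M ^ 2 := by
    have c := Finset.sum_le_sum fun j (_ : j ∈ J) => two_mul_le_add_sq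
      ‖ext m A T (S₃.indicator (w j)) (z + s)‖ ‖ext m A T (S₄.indicator (w j)) (z + s)‖
    simp only [mul_assoc] at c
    rw [← Finset.mul_sum, Finset.sum_add_distrib] at c
    linarith
  have c6 := two_mul_le_add_sq ‖ext m A t w₁ z‖ ‖ext m A t w₂ z‖
  have c0 : 0 ≤ α * N * T * M ^ 2 := by have := hc.pos; positivity
  simp only [ext2_tens, norm_mul (χ₁ z * χ₂ z * _), norm_mul (χ₁ z * χ₂ z), norm_mul (ext _ _ _ _ _),
    Complex.norm_conj]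
  rw [← Finset.mul_sum]
  refine (mul_le_mul_of_nonneg_left c5 (by positivity)).trans ?_
  have c7 := mul_le_mul_of_nonneg_left c6 (mul_nonneg c0 (norm_nonneg (χ₁ z * χ₂ z)))
  linarith

end Pool.Agent.MP_a28cf0_nt.Dec

end
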