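import Pool.Agent.MP_a28cf0_nt.Mg.Dec_Rep
import Pool.Agent.MP_a28cf0_nt.Mg.Dec_Erg
import Pool.Agent.MP_a28cf0_nt.Mg.Dec_Ext

-- part MP_a28cf0_nt.Dec.QE
section

set_option autoImplicit false

namespace Pool.Agent.MP_a28cf0_nt.Dec

open MeasureTheory Complex Filter Topology Set
open scoped ENNReal MatrixGroups ComplexConjugate
open Pool.Agent.MP_a28cf0_nt.Cub

/-! Quantum ergodicity for observables on the surface. -/

theorem Fam.mono {ι : Type} {s s' : Finset ι} {g : ι → ℂ → ℝ} {t : ι → ℝ} {T T' : ℝ}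
    (h : Fam s g t T) (hs : s' ⊆ s) (hT : ∀ j ∈ s', t j ≤ T') : Fam s' g t T' :=
  ⟨⟨fun j hj => h.form j (hs hj), fun i hi j hj => h.orth i (hs hi) j (hs hj)⟩,
    fun j hj => h.cusp j (hs hj), fun j hj => h.nn j (hs hj), hT⟩

theorem Fam.eig {ι : Type} {s : Finset ι} {g : ι → ℂ → ℝ} {t : ι → ℝ} {T : ℝ}
    (h : Fam s g t T) : ∀ j ∈ s, Eig (t j) (g j) ∧ 0 ≤ t j ∧ t j ≤ T :=
  fun j hj => ⟨(h.form j hj).toEig, h.nn j hj, h.le j hj⟩

theorem qe_bd_ind {a : E → ℂ} (ha : ContinuousOn a Gp) (ρ : ℝ) : Bd ((Bl ρ).indicator a) := by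
  classical
  have hs : Bl ρ ⊆ Gp := fun M hM => Sh_subset hM.1
  obtain ⟨C, hC⟩ := (isCompact_Bl ρ).exists_bound_of_continuousOn (ha.mono hs)
  refine ⟨?_, max C 0, fun M => ?_⟩
  · have := (ha.mono hs).measurable_piecewise (g := fun _ => (0 : ℂ)) continuousOn_const
      (measurableSet_Bl ρ)
    exact this
  · by_cases hM : M ∈ Bl ρ
    · rw [indicator_of_mem hM]; exact (hC M hM).trans (le_max_left _ _)
    · rw [indicator_of_notMem hM, norm_zero]; exact le_max_right _ _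

theorem qe_pr_cpt (ρ : ℝ) : IsCompact (pr '' Bl ρ) ∧ pr '' Bl ρ ⊆ Up :=
  ⟨(isCompact_Bl ρ).image_of_continuousOn
      ((contDiffOn_pr (n := 0)).continuousOn.mono fun _ hM => Sh_subset hM.1),
    by rintro _ ⟨M, hM, rfl⟩; exact pr_mem (Sh_subset hM.1)⟩

theorem qe_test {a : E → ℂ} (ha : Test a) {m : ℂ → ℂ} (hm : Bump m) : ∃ C T₀ : ℝ, 0 ≤ C ∧
    ∀ (ι : Type) (s : Finset ι) (g : ι → ℂ → ℝ) (t : ι → ℝ) (T : ℝ), Fam s g t T → T₀ ≤ T →
    ∑ j ∈ s, (wn (t j) : ℝ) * ‖∫ M, a M * gt (g j) M * VV m (wn (t j)) (g j) M ∂nu‖ ≤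
      C * T ^ 2 := by
  obtain ⟨C, hC, h2⟩ := q2int hm
  obtain ⟨A, ρ, -, -, hz⟩ := ha.bound
  obtain ⟨hK, hU⟩ := qe_pr_cpt ρ
  obtain ⟨N, hN, hB⟩ := bes_cpt hK hU
  obtain ⟨P, T₀, hP, hT₀, hp⟩ := pt_cpt hK hU
  set D := ∫ M in Bl ρ, √(N * ∫ θ in Ioc (0 : ℝ) (2 * Real.pi),
    ‖(Bl ρ).indicator a (rot θ M)‖ ^ 2) ∂nu with hD
  have hD0 : 0 ≤ D := integral_nonneg fun _ => Real.sqrt_nonneg _
  refine ⟨C * √P * D, T₀, by positivity, fun ι s g t T hF hT => ?_⟩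
  have h3 := h2 ι s g t T ρ P (Bl ρ) (fun _ => N) ((Bl ρ).indicator a) (hT₀.trans hT) hF.eig
    (measurableSet_Bl ρ) subset_rfl (fun θ M => rot_mem_Bl θ ρ M) (qe_bd_ind ha.cont ρ)
    continuousOn_const fun M hM => ⟨hN, hB ι s g t hF.toOrt M (Sh_subset hM.1) ⟨M, hM, rfl⟩,
      hp ι s g t T hF hT _ ⟨M, hM, rfl⟩⟩
  have e : ∀ j, ∫ M, a M * gt (g j) M * VV m (wn (t j)) (g j) M ∂nu =
      ∫ M in Bl ρ, (Bl ρ).indicator a M * gt (g j) M * VV m (wn (t j)) (g j) M ∂nu := fun j => by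
    rw [← setIntegral_eq_integral_of_ae_compl_eq_zero (s := Bl ρ)]
    · exact setIntegral_congr_fun (measurableSet_Bl ρ) fun M hM => by
        simp only [indicator_of_mem hM]
    · filter_upwards [ae_mem_Sh] with M hM h
      rw [hz M hM h, zero_mul, zero_mul]
  simp only [e]
  exact h3.trans_eq (by ring)

theorem q3 {a : E → ℂ} (ha : Test a) : ∃ C T₀ : ℝ, 0 ≤ C ∧ ∀ (ι : Type) (s : Finset ι)
    (g : ι → ℂ → ℝ) (t : ι → ℝ) (T : ℝ), Fam s g t T → T₀ ≤ T →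
    ∑ j ∈ s, (wn (t j) : ℝ) ^ 2 *
      ‖∫ M, X1 a M * gt (g j) M * VV (fun w => (sg w : ℂ)) (wn (t j)) (g j) M ∂nu‖ ≤
      C * T ^ 2 := by
  obtain ⟨k, a', m', h1, h2, h3⟩ := q3id ha bump_sg
  choose C T₀ hC hb using fun l => qe_test (h1 l) (h2 l)
  refine ⟨∑ l, C l, ∑ l, |T₀ l|, Finset.sum_nonneg fun l _ => hC l, fun ι s g t T hF hT => ?_⟩
  have hl : ∀ l, T₀ l ≤ T := fun l => (le_abs_self _).trans
    ((Finset.single_le_sum (f := fun l => |T₀ l|) (fun _ _ => abs_nonneg _)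
      (Finset.mem_univ l)).trans hT)
  calc _ ≤ ∑ j ∈ s, ∑ l, (wn (t j) : ℝ) *
        ‖∫ M, a' l M * gt (g j) M * VV (m' l) (wn (t j)) (g j) M ∂nu‖ := by
        refine Finset.sum_le_sum fun j hj => ?_
        rw [← Finset.mul_sum, sq, mul_assoc]
        refine mul_le_mul_of_nonneg_left ?_ (Nat.cast_nonneg _)
        refine le_trans ?_ (norm_sum_le _ _)
        rw [← h3 _ _ _ (hF.form j hj).toEig, norm_mul]
        refine mul_le_mul_of_nonneg_right ?_ (norm_nonneg _)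
        refine le_trans ?_ (abs_im_le_norm _)
        simp
    _ ≤ _ := by
        rw [Finset.sum_comm, Finset.sum_mul]
        exact Finset.sum_le_sum fun l _ => hb l ι s g t T hF (hl l)

theorem qe_q3 {a : E → ℂ} (ha : Test a) {ε : ℝ} (hε : 0 < ε) : ∃ T₀ : ℝ,
    ∀ (ι : Type) (s : Finset ι) (g : ι → ℂ → ℝ) (t : ι → ℝ) (T : ℝ), Fam s g t T → T₀ ≤ T →
    ∑ j ∈ s, (wn (t j) : ℝ) *
      ‖∫ M, X1 a M * gt (g j) M * VV (fun w => (sg w : ℂ)) (wn (t j)) (g j) M ∂nu‖ ≤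
      ε * T ^ 2 := by
  classical
  obtain ⟨C, T₀, hC, h⟩ := q3 ha
  set L : ℝ := 2 * C / ε + 1 with hL
  have hL1 : 1 ≤ L := by have : 0 ≤ 2 * C / ε := by positivity
                         linarith
  set T₁ : ℝ := max T₀ (L + 1) with hT₁
  refine ⟨max (max T₀ 1) (2 * C * T₁ ^ 2 / ε), fun ι s g t T hF hT => ?_⟩
  have hT0 : T₀ ≤ T := (le_max_left _ _).trans ((le_max_left _ _).trans hT)
  have hT1 : 1 ≤ T := (le_max_right _ _).trans ((le_max_left _ _).trans hT)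
  have hT2 : 2 * C * T₁ ^ 2 / ε ≤ T := (le_max_right _ _).trans hT
  set x : ι → ℝ := fun j =>
    ‖∫ M, X1 a M * gt (g j) M * VV (fun w => (sg w : ℂ)) (wn (t j)) (g j) M ∂nu‖ with hx
  have x0 : ∀ j, 0 ≤ x j := fun j => norm_nonneg _
  have w1 : ∀ j ∈ s, (1 : ℝ) ≤ wn (t j) := fun j hj => by
    exact_mod_cast (wn_bd (hF.nn j hj) (hF.le j hj) hT1).1
  rw [← Finset.sum_filter_add_sum_filter_not s fun j => t j ≤ L + 1]
  have a1 : ∑ j ∈ s.filter fun j => t j ≤ L + 1, (wn (t j) : ℝ) * x j ≤ C * T₁ ^ 2 := by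
    refine le_trans (Finset.sum_le_sum fun j hj => ?_) (h ι _ g t T₁
      (hF.mono (Finset.filter_subset _ _) fun j hj =>
        (Finset.mem_filter.1 hj).2.trans (le_max_right _ _)) (le_max_left _ _))
    have := w1 j (Finset.mem_filter.1 hj).1
    exact mul_le_mul_of_nonneg_right (by nlinarith) (x0 j)
  have a2 : L * ∑ j ∈ s.filter fun j => ¬t j ≤ L + 1, (wn (t j) : ℝ) * x j ≤ C * T ^ 2 := by
    refine le_trans ?_ (h ι _ g t T (hF.mono (Finset.filter_subset (fun j => ¬t j ≤ L + 1) _)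
      fun j hj => hF.le j (Finset.mem_filter.1 hj).1) hT0)
    rw [Finset.mul_sum]
    refine Finset.sum_le_sum fun j hj => ?_
    obtain ⟨hj1, hj2⟩ := Finset.mem_filter.1 hj
    have h1 := (abs_le.1 (wn_bd (hF.nn j hj1) (hF.le j hj1) hT1).2.2).2
    have h2 : L ≤ wn (t j) := by linarith [not_le.1 hj2]
    rw [← mul_assoc, sq]
    exact mul_le_mul_of_nonneg_right (mul_le_mul_of_nonneg_right h2 (Nat.cast_nonneg _)) (x0 j)
  have a3 : C * T₁ ^ 2 ≤ ε / 2 * T ^ 2 := by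
    rw [div_le_iff₀ hε] at hT2
    nlinarith [mul_le_mul_of_nonneg_left hT1 (by positivity : 0 ≤ T * ε)]
  have a4 : C * T ^ 2 ≤ L * (ε / 2 * T ^ 2) := by
    have : L * (ε / 2 * T ^ 2) = C * T ^ 2 + ε / 2 * T ^ 2 := by rw [hL]; field_simp
    rw [this]; have : 0 ≤ ε / 2 * T ^ 2 := by positivity
    linarith
  have a5 := le_of_mul_le_mul_left (a2.trans a4) (by linarith)
  linarith

theorem qe_Bl {K : Set ℂ} (hK : IsCompact K) (hU : K ⊆ Up) :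
    ∃ ρ : ℝ, Sh ∩ pr ⁻¹' K ⊆ Bl ρ := by
  obtain ⟨B₁, h1⟩ := hK.exists_bound_of_continuousOn (f := fun z => z) continuousOn_id
  obtain ⟨B₂, h2⟩ := hK.exists_bound_of_continuousOn (f := fun z : ℂ => (z.im)⁻¹)
    (continuous_im.continuousOn.inv₀ fun z hz => (hU hz).ne')
  refine ⟨(|B₁| + 1) * (1 + 4 * B₂), fun M hM => ⟨hM.1, ?_⟩⟩
  have hG := Sh_subset hM.1
  have h3 := snd_ne_zero hG
  have h4 : 0 < dt M := hG
  have h5 := h2 _ hM.2
  rw [im_pr, inv_div, Real.norm_eq_abs, normSq_eq_norm_sq] at h5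
  have h6 := (le_abs_self _).trans h5
  have hB : 0 ≤ B₂ := (abs_nonneg _).trans h5
  rw [div_le_iff₀ h4] at h6
  have h7 : ‖M.2‖ ≤ 1 + 4 * B₂ := by nlinarith [hM.1.2, sq_nonneg (‖M.2‖ - 1)]
  have h8 : ‖M.1‖ = ‖pr M‖ * ‖M.2‖ := by
    rw [pr, norm_div, div_mul_cancel₀ _ (norm_ne_zero_iff.2 h3)]
  have h9 := (h1 _ hM.2).trans (le_abs_self _)
  rw [mem_closedBall_zero_iff, Prod.norm_def]
  refine max_le ?_ (by nlinarith [abs_nonneg B₁])
  rw [h8]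
  exact mul_le_mul (by linarith) h7 (norm_nonneg _) (by positivity)

theorem qe_meas {S : Set ℂ} (hS : MeasurableSet S) : MeasurableSet (Sh ∩ pr ⁻¹' S) :=
  measurableSet_Sh.inter (measurable_pr hS)

theorem qe_rot (S : Set ℂ) (θ : ℝ) (M : E) : rot θ M ∈ Sh ∩ pr ⁻¹' S ↔ M ∈ Sh ∩ pr ⁻¹' S := by
  simp only [mem_inter_iff, mem_preimage, pr_rot, Sh, mem_ofPred_eq, dt_rot]

theorem qe_int {F : Type} [NormedAddCommGroup F] {h : E → F} (hc : ContinuousOn h Gp)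
    {S K : Set ℂ} (hK : IsCompact K) (hU : K ⊆ Up) (hS : S ⊆ K) :
    IntegrableOn h (Sh ∩ pr ⁻¹' S) nu := by
  obtain ⟨ρ, hρ⟩ := qe_Bl hK hU
  exact (integrableOn_of_cont hc (isCompact_Bl ρ) inter_subset_left).mono_set
    fun M hM => hρ ⟨hM.1, hS hM.2⟩

theorem qe_cont_pr {b : ℂ → ℝ} (hb : ContinuousOn b Up) :
    ContinuousOn (fun M => (b (pr M) : ℂ)) Gp :=
  continuous_ofReal.comp_continuousOn (hb.comp (contDiffOn_pr (n := 0)).continuousOn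
    fun _ hM => pr_mem hM)

theorem qe_mean {S K : Set ℂ} (hS : MeasurableSet S) (hK : IsCompact K) (hU : K ⊆ Up)
    (hSK : S ⊆ K) {b : ℂ → ℝ} (hb : ContinuousOn b Up) {t : ℝ} {g : ℂ → ℝ} (hg : Eig t g)
    (T : ℝ) : (2 * Real.pi : ℂ) * ∫ M in Sh ∩ pr ⁻¹' S,
      (b (pr M) : ℂ) * gt g M * VV (fun w => (sg w : ℂ)) T g M ∂nu =
      hh T t * ((15 * Real.pi / 2 * ∫ z in S, b z * g z ^ 2 ∂muH : ℝ) : ℂ) := by
  obtain ⟨ρ, hρ⟩ := qe_Bl hK hU
  rw [int_rot_avg (qe_meas hS) (ρ := ρ) (fun M hM => hρ ⟨hM.1, hSK hM.2⟩) (qe_rot S)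
    (b := fun M => (b (pr M) : ℂ) * gt g M) ((qe_cont_pr hb).mul (gt_smooth hg).continuousOn)
    (fun θ M => by simp only [gt, pr_rot]) (VV_smooth bump_sg T hg).continuousOn]
  have h1 := setInt_pr (F := fun z => b z * g z ^ 2) (aesm_muH (hb.mul (hg.cont.pow 2))) hS
  rw [smul_eq_mul] at h1
  rw [← h1, ← integral_complex_ofReal, ← integral_const_mul]
  refine setIntegral_congr_fun (qe_meas hS) fun M hM => ?_
  simp only [meanV hg T (Sh_subset hM.1), gt]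
  push_cast
  ring

theorem qe_per {φ : ℂ → ℝ} (h : Tst φ) : ∃ B Y : ℝ, 0 ≤ B ∧ 1 ≤ Y ∧ (∀ z, |per φ z| ≤ B) ∧
    ∀ z ∈ Up, Y ≤ z.im → per φ z = 0 := by
  obtain ⟨B, Y, hB, hY, h1⟩ := per_bd h
  obtain ⟨K, -, hU, h0⟩ := h.supp
  refine ⟨B, Y, hB, hY, fun z => ?_, fun z hz => (h1 z hz).2⟩
  by_cases hz : z ∈ Up
  · exact (h1 z hz).1
  · have : ∀ γ : SL(2, ℤ), φ (mb (act γ one) z) = 0 := fun γ => h0 _ fun hk => by
      have h2 : 0 < (mb (act γ one) z).im := hU hk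
      rw [im_mb, dt_act_one, one_mul] at h2
      exact hz (not_le.1 fun h3 => h2.not_ge (div_nonpos_of_nonpos_of_nonneg h3 (normSq_nonneg _)))
    simp only [per, this, tsum_zero, abs_zero, hB]

theorem qe_cont_fl {b : ℂ → ℝ} (hb : ContinuousOn b Up) (s : ℝ) :
    ContinuousOn (fun M => (b (pr (fl s M)) : ℂ)) Gp :=
  (qe_cont_pr hb).comp (contDiff_fl s (n := 0)).continuous.continuousOn fun M hM => by
    show 0 < dt (fl s M)
    rw [dt_fl]; exact hM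

theorem qe_msFd (Y : ℝ) : MeasurableSet {z : ℂ | z ∈ Fd ∧ z.im ≤ Y} :=
  (isCompact_Fd_le Y).measurableSet

theorem qe_id {φ : ℂ → ℝ} (h : Tst φ) {R : ℕ} (hR : 0 < R) : ∃ (a' : ℕ → E → ℂ) (Y₀ : ℝ),
    (∀ k, Test (a' k)) ∧ ∀ Y T t c : ℝ, ∀ g : ℂ → ℝ, Y₀ ≤ Y → Form t g →
    c = 3 / Real.pi * ∫ z in Fd, per φ z ∂muH →
    hh T t * ((15 * Real.pi * (∫ z, φ z * g z ^ 2 ∂muH - ∫ z, φ z ∂muH) : ℝ) : ℂ) =
      2 * Real.pi * (∫ M in Sh ∩ pr ⁻¹' {z | z ∈ Fd ∧ z.im ≤ Y},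
        ((Av (per φ) R M - c : ℝ) : ℂ) * gt g M * VV (fun w => (sg w : ℂ)) T g M ∂nu) -
      hh T t * ((c * (15 * Real.pi / 2) *
        ∫ z in {z | z ∈ Fd ∧ Y < z.im}, g z ^ 2 ∂muH : ℝ) : ℂ) -
      4 * Real.pi / R * ∑ k ∈ Finset.range R,
        ∫ M, X1 (a' k) M * gt g M * VV (fun w => (sg w : ℂ)) T g M ∂nu := by
  choose a' h1 h2 using fun k : ℕ => antider (test_pr h) (r := k) (Nat.cast_nonneg k)
  obtain ⟨B, Y₁, -, hY₁, -, hz⟩ := qe_per h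
  refine ⟨a', Real.exp (2 * R) * Y₁, h1, fun Y T t c g hY hg hc => ?_⟩
  obtain ⟨K, hK, hU, h0⟩ := h.supp
  have he := hg.toEig
  set V := VV (fun w => (sg w : ℂ)) T g with hV
  set S : Set ℂ := {z | z ∈ Fd ∧ z.im ≤ Y} with hS
  have cW : ContinuousOn (fun M => gt g M * V M) Gp :=
    (gt_smooth he).continuousOn.mul (VV_smooth bump_sg T he).continuousOn
  have cφ : ContinuousOn φ Up := h.smooth.continuous.continuousOn
  have SU : S ⊆ Up := fun z hz => Fd_sub hz.1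
  have E1 := qe_mean hK.measurableSet hK hU subset_rfl cφ he T
  rw [setIntegral_eq_integral_of_ae_compl_eq_zero, setIntegral_eq_integral_of_forall_compl_eq_zero
    (fun z hz => by rw [h0 z hz, zero_mul])] at E1
  swap
  · filter_upwards [ae_mem_Sh] with M hM hn
    rw [h0 _ fun hk => hn ⟨hM, hk⟩, ofReal_zero, zero_mul, zero_mul]
  have E2 : ∀ k ∈ Finset.range R, ∫ M in Sh ∩ pr ⁻¹' S,
      (per φ (pr (fl k M)) : ℂ) * (gt g M * V M) ∂nu =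
      2 * (∫ M, (φ (pr M) : ℂ) * gt g M * V M ∂nu) +
        2 * ∫ M, X1 (a' k) M * gt g M * V M ∂nu := fun k hk => by
    have f1 := fold h k cW fun γ M hM => by
      simp only [hV, VV_act _ _ hg.inv γ hM, gt, inv_of_gen hg.inv γ hM]
    rw [setIntegral_eq_of_subset_of_forall_sdiff_eq_zero measurableSet_Fe
      (s := Sh ∩ pr ⁻¹' S) (fun M hM => ⟨hM.1, hM.2.1⟩)] at f1
    · rw [← f1, ← mul_add, ← integral_add]
      · congr 1
        refine integral_congr_ae ?_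
        filter_upwards [ae_mem_Sh] with M hM
        rw [h2 k M (Sh_subset hM)]
        ring
      · simp only [mul_assoc]
        exact ((test_pr h).van.mul _).integrable ((test_pr h).cont.mul cW)
      · simp only [mul_assoc]
        exact ((Test.x1 (h1 k)).van.mul _).integrable ((Test.x1 (h1 k)).cont.mul cW)
    · intro M hM
      have hG := Sh_subset hM.1.1
      have f2 : Y < (pr M).im := not_le.1 fun hn => hM.2 ⟨hM.1.1, hM.1.2, hn⟩
      have f3 := im_fl k hG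
      have f4 : (k : ℝ) ≤ R := by exact_mod_cast (Finset.mem_range.1 hk).le
      have f5 : Y₁ ≤ Real.exp (-(2 * |(k : ℝ)|)) * (pr M).im := by
        rw [abs_of_nonneg (Nat.cast_nonneg k), Real.exp_neg, ← div_eq_inv_mul,
          le_div_iff₀ (Real.exp_pos _)]
        have := Real.exp_le_exp.2 (by linarith : 2 * (k : ℝ) ≤ 2 * R)
        nlinarith
      rw [hz _ (pr_mem (by show 0 < dt (fl k M); rw [dt_fl]; exact hG)) (f5.trans f3),
        ofReal_zero, zero_mul]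
  have E3 := qe_mean (qe_msFd Y) (isCompact_Fd_le Y) SU subset_rfl
    (b := fun _ => 1) continuousOn_const he T
  have E4 : ∫ z in S, 1 * g z ^ 2 ∂muH =
      Real.pi / 3 - ∫ z in {z | z ∈ Fd ∧ Y < z.im}, g z ^ 2 ∂muH := by
    rw [← hg.int_sq, ← integral_inter_add_sdiff (measurableSet_le measurable_im measurable_const :
      MeasurableSet {z : ℂ | z.im ≤ Y}) hg.integrableOn]
    have e1 : Fd \ {z : ℂ | z.im ≤ Y} = {z | z ∈ Fd ∧ Y < z.im} := by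
      ext z; simp only [Set.mem_sdiff, mem_ofPred_eq, not_le]
    simp only [e1, one_mul, add_sub_cancel_right]
    rfl
  have hR' : (R : ℂ) ≠ 0 := Nat.cast_ne_zero.2 hR.ne'
  have cP := continuousOn_per h
  have E5 : ∫ M in Sh ∩ pr ⁻¹' S, ((Av (per φ) R M - c : ℝ) : ℂ) * gt g M * V M ∂nu =
      (∑ k ∈ Finset.range R, ∫ M in Sh ∩ pr ⁻¹' S,
        (per φ (pr (fl k M)) : ℂ) * (gt g M * V M) ∂nu) / R -
      c * ∫ M in Sh ∩ pr ⁻¹' S, ((1 : ℝ) : ℂ) * gt g M * V M ∂nu := by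
    have i1 : ∀ k ∈ Finset.range R, IntegrableOn
        (fun M => (per φ (pr (fl k M)) : ℂ) * (gt g M * V M)) (Sh ∩ pr ⁻¹' S) nu := fun k _ =>
      qe_int ((qe_cont_fl cP k).mul cW) (isCompact_Fd_le Y) SU subset_rfl
    rw [← integral_finsetSum _ i1, ← integral_div, ← integral_const_mul, ← integral_sub]
    · refine integral_congr_ae (ae_of_all _ fun M => ?_)
      simp only [Av, ← Finset.sum_mul]
      push_cast
      ring
    · exact (integrable_finsetSum _ i1).div_const _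
    · simp only [ofReal_one, one_mul]
      exact (qe_int cW (isCompact_Fd_le Y) SU subset_rfl).const_mul _
  rw [Finset.sum_congr rfl E2, Finset.sum_add_distrib, Finset.sum_const, Finset.card_range,
    nsmul_eq_mul, ← Finset.mul_sum, add_div, mul_div_cancel_left₀ _ hR'] at E5
  rw [int_per h] at hc
  rw [E4, ← hV, ← hS] at E3
  rw [← hV] at E1
  have hπ : (Real.pi : ℂ) ≠ 0 := ofReal_ne_zero.2 Real.pi_ne_zero
  have hc' : (c : ℂ) * Real.pi = 6 * ((∫ z, φ z ∂muH : ℝ) : ℂ) := by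
    rw [hc]; push_cast; field_simp; ring
  push_cast at E1 E3 E5 ⊢
  linear_combination (-2 * Real.pi : ℂ) * E5 - 2 * E1 + c * E3 + (5 * Real.pi / 2 * hh T t) * hc'

theorem qe_fd : ∃ C : ℝ, 0 ≤ C ∧ ∀ (ι : Type) (s : Finset ι) (g : ι → ℂ → ℝ) (t : ι → ℝ)
    (T Y : ℝ) (S : Set ℂ) (a : E → ℂ) (Nf : E → ℝ), Fam s g t T → 1 ≤ T → Y ≤ T →
    MeasurableSet S → S ⊆ {z | z ∈ Fd ∧ z.im ≤ Y} → Bd a → ContinuousOn Nf Gp →
    (∀ M ∈ Sh ∩ pr ⁻¹' S, 1 + (pr M).im ≤ Nf M) →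
    ∑ j ∈ s, (wn (t j) : ℝ) * ‖∫ M in Sh ∩ pr ⁻¹' S,
      a M * gt (g j) M * VV (fun w => (sg w : ℂ)) (wn (t j)) (g j) M ∂nu‖ ≤
      C * T ^ 2 * ∫ M in Sh ∩ pr ⁻¹' S,
        √(Nf M * ∫ θ in Ioc (0 : ℝ) (2 * Real.pi), ‖a (rot θ M)‖ ^ 2) ∂nu := by
  obtain ⟨C, hC, h2⟩ := q2int bump_sg
  obtain ⟨N, hN, hB⟩ := bes_fd
  obtain ⟨P, hP, hp⟩ := pt_fd
  refine ⟨C * √P * √N, by positivity, fun ι s g t T Y S a Nf hF hT hY hS hs ha hc hN' => ?_⟩
  obtain ⟨ρ, hρ⟩ := qe_Bl (isCompact_Fd_le Y) fun z hz => Fd_sub hz.1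
  have h3 := h2 ι s g t T ρ P (Sh ∩ pr ⁻¹' S) (fun M => N * Nf M) a hT hF.eig (qe_meas hS)
    (fun M hM => hρ ⟨hM.1, hs hM.2⟩) (qe_rot S) ha (continuousOn_const.mul hc) fun M hM => by
      have h4 := hs hM.2
      have h5 : 0 < (pr M).im := Fd_sub h4.1
      refine ⟨mul_nonneg hN (by linarith [hN' M hM]),
        (hB ι s g t hF.toOrt M (Sh_subset hM.1) h4.1).mono
          (mul_le_mul_of_nonneg_left (hN' M hM) hN) subset_rfl,
        hp ι s g t T hF hT _ h4.1 (by linarith [h4.2])⟩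
  simp only [mul_assoc N, Real.sqrt_mul hN, integral_const_mul] at h3
  exact h3.trans_eq (by ring)

theorem qe_bd_Av {Φ : ℂ → ℝ} (hm : Measurable Φ) {B : ℝ} (hB : ∀ z, |Φ z| ≤ B) {R : ℕ}
    (hR : 0 < R) (c : ℝ) : Bd (fun M => ((Av Φ R M - c : ℝ) : ℂ)) ∧
      ∀ M, ‖((Av Φ R M - c : ℝ) : ℂ)‖ ≤ B + |c| := by
  have h1 : ∀ M, ‖((Av Φ R M - c : ℝ) : ℂ)‖ ≤ B + |c| := fun M => by
    rw [norm_real, Real.norm_eq_abs]
    refine (abs_sub _ _).trans (add_le_add_left ?_ _)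
    rw [Av, abs_div, Nat.abs_cast, div_le_iff₀ (by exact_mod_cast hR)]
    refine (Finset.abs_sum_le_sum_abs _ _).trans ((Finset.sum_le_sum fun k _ => hB _).trans ?_)
    rw [Finset.sum_const, Finset.card_range, nsmul_eq_mul, mul_comm]
  have h2 : Measurable fun M => ∑ k ∈ Finset.range R, Φ (pr (fl k M)) :=
    Finset.measurable_sum _ fun k _ => hm.comp (measurable_pr.comp
      (contDiff_fl (k : ℝ) (n := 0)).continuous.measurable)
  exact ⟨⟨measurable_ofReal.comp ((h2.div_const _).sub_const c), _, h1⟩, h1⟩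

theorem qe_low {a : E → ℂ} (ha : Bd a) {Y : ℝ} (hY : 0 ≤ Y) :
    ∫ M in Sh ∩ pr ⁻¹' {z | z ∈ Fd ∧ z.im ≤ Y},
      √((1 + Y) * ∫ θ in Ioc (0 : ℝ) (2 * Real.pi), ‖a (rot θ M)‖ ^ 2) ∂nu ≤
      √((1 + Y) * (2 * Real.pi) * nu.real Fe) * √(∫ M in Fe, ‖a M‖ ^ 2 ∂nu) := by
  obtain ⟨ρ, hρ⟩ := qe_Bl (isCompact_Fd_le Y) fun z hz => Fd_sub hz.1
  have hf : nu Fe ≠ ⊤ := by rw [nu_Fe]; exact ENNReal.ofReal_ne_top
  have hs : Sh ∩ pr ⁻¹' {z | z ∈ Fd ∧ z.im ≤ Y} ⊆ Fe := fun M hM => ⟨hM.1, hM.2.1⟩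
  have : IsFiniteMeasure (nu.restrict Fe) := isFiniteMeasure_restrict.2 hf
  refine (fibre_l2 (qe_meas (qe_msFd Y)) hρ (qe_rot _) ha (by linarith)).trans ?_
  refine mul_le_mul (Real.sqrt_le_sqrt ?_) (Real.sqrt_le_sqrt ?_) (Real.sqrt_nonneg _)
    (Real.sqrt_nonneg _)
  · exact mul_le_mul_of_nonneg_left (measureReal_mono hs hf) (by positivity)
  · exact setIntegral_mono_set (ha.integrable_sq _) (ae_of_all _ fun _ => sq_nonneg _)
      hs.eventuallyLE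

theorem qe_cusp {a : E → ℂ} {B : ℝ} (ha : ∀ M, ‖a M‖ ≤ B) {Y Y' : ℝ} (hY : 1 ≤ Y) :
    ∫ M in Sh ∩ pr ⁻¹' {z | z ∈ Fd ∧ Y < z.im ∧ z.im ≤ Y'},
      √((1 + (pr M).im) * ∫ θ in Ioc (0 : ℝ) (2 * Real.pi), ‖a (rot θ M)‖ ^ 2) ∂nu ≤
      √(2 * Real.pi) * B * (15 * Real.pi / 2) * 3 / √Y := by
  have hB : 0 ≤ B := (norm_nonneg _).trans (ha 0)
  have hπ := Real.pi_pos
  have c1 : Continuous fun z : ℂ => √(1 + z.im) := by fun_prop
  have hS : MeasurableSet {z : ℂ | z ∈ Fd ∧ Y < z.im ∧ z.im ≤ Y'} :=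
    measurableSet_Fd.inter ((measurableSet_lt measurable_const measurable_im).inter
      (measurableSet_le measurable_im measurable_const))
  have h1 := setInt_pr (F := fun z => √(1 + z.im)) c1.aestronglyMeasurable hS
  calc _ ≤ ∫ M in Sh ∩ pr ⁻¹' {z | z ∈ Fd ∧ Y < z.im ∧ z.im ≤ Y'},
        √(2 * Real.pi) * B * √(1 + (pr M).im) ∂nu := by
        refine integral_mono_of_nonneg (ae_of_all _ fun _ => Real.sqrt_nonneg _)
          (Integrable.const_mul (qe_int (c1.comp_continuousOn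
            (contDiffOn_pr (n := 0)).continuousOn) (isCompact_Fd_le Y') (fun z hz => Fd_sub hz.1)
            fun z hz => ⟨hz.1, hz.2.2⟩) _) (ae_of_all _ fun M => ?_)
        have h2 : ∫ θ in Ioc (0 : ℝ) (2 * Real.pi), ‖a (rot θ M)‖ ^ 2 ≤ 2 * Real.pi * B ^ 2 := by
          refine (integral_mono_of_nonneg (ae_of_all _ fun _ => sq_nonneg _)
            (integrable_const (B ^ 2)) (ae_of_all _ fun θ =>
              pow_le_pow_left₀ (norm_nonneg _) (ha _) 2)).trans_eq ?_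
          rw [setIntegral_const, Real.volume_real_Ioc_of_le (by positivity), sub_zero, smul_eq_mul]
        have h3 := Real.sqrt_le_sqrt h2
        rw [Real.sqrt_mul (by positivity), Real.sqrt_sq hB] at h3
        beta_reduce
        rw [Real.sqrt_mul' _ (integral_nonneg fun _ => sq_nonneg _), mul_comm]
        exact mul_le_mul_of_nonneg_right h3 (Real.sqrt_nonneg _)
    _ ≤ _ := by
        rw [integral_const_mul, h1, smul_eq_mul, mul_div_assoc _ (3 : ℝ), mul_assoc (_ * B)]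
        exact mul_le_mul_of_nonneg_left (mul_le_mul_of_nonneg_left (int_sqrt_cusp hY)
          (by positivity)) (by positivity)

theorem qe_split {Y Y' : ℝ} (hY : Y ≤ Y') {F : E → ℂ} (hF : ContinuousOn F Gp) :
    ∫ M in Sh ∩ pr ⁻¹' {z | z ∈ Fd ∧ z.im ≤ Y'}, F M ∂nu =
      ∫ M in Sh ∩ pr ⁻¹' {z | z ∈ Fd ∧ z.im ≤ Y}, F M ∂nu +
        ∫ M in Sh ∩ pr ⁻¹' {z | z ∈ Fd ∧ Y < z.im ∧ z.im ≤ Y'}, F M ∂nu := by
  rw [← integral_inter_add_sdiff (measurableSet_le (measurable_im.comp measurable_pr)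
    measurable_const : MeasurableSet {M : E | (pr M).im ≤ Y})
    (qe_int hF (isCompact_Fd_le Y') (fun z hz => Fd_sub hz.1) subset_rfl)]
  congr 3
  · ext M
    exact ⟨fun h => ⟨h.1.1, h.1.2.1, h.2⟩, fun h => ⟨⟨h.1, h.2.1, h.2.2.trans hY⟩, h.2.2⟩⟩
  · ext M
    exact ⟨fun h => ⟨h.1.1, h.1.2.1, not_le.1 h.2, h.1.2.2⟩,
      fun h => ⟨⟨h.1, h.2.1, h.2.2.2⟩, not_le.2 h.2.2.1⟩⟩

theorem qe_big (A : ℝ) {ε : ℝ} (hε : 0 < ε) : ∃ Y : ℝ, 1 ≤ Y ∧ A / √Y ≤ ε := by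
  have h : 0 ≤ |A| / ε := by positivity
  refine ⟨(|A| / ε + 1) ^ 2, by nlinarith, ?_⟩
  rw [Real.sqrt_sq (by positivity), div_le_iff₀ (by positivity), mul_add, mul_div_cancel₀ _ hε.ne']
  linarith [le_abs_self A]

/-- the ergodic term -/
theorem qe_erg {φ : ℂ → ℝ} (h : Tst φ) {ε : ℝ} (hε : 0 < ε) (Y₁ : ℝ) : ∃ R : ℕ, 0 < R ∧
    ∃ Y : ℝ, Y₁ ≤ Y ∧ ∀ (ι : Type) (s : Finset ι) (g : ι → ℂ → ℝ) (t : ι → ℝ) (T Y' : ℝ),
    Fam s g t T → 1 ≤ T → Y ≤ Y' → Y' ≤ T →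
    ∑ j ∈ s, (wn (t j) : ℝ) * ‖∫ M in Sh ∩ pr ⁻¹' {z | z ∈ Fd ∧ z.im ≤ Y'},
      ((Av (per φ) R M - 3 / Real.pi * ∫ z in Fd, per φ z ∂muH : ℝ) : ℂ) * gt (g j) M *
        VV (fun w => (sg w : ℂ)) (wn (t j)) (g j) M ∂nu‖ ≤ ε * T ^ 2 := by
  obtain ⟨C, hC, h1⟩ := qe_fd
  obtain ⟨B, -, hB, -, hb, -⟩ := qe_per h
  set c := 3 / Real.pi * ∫ z in Fd, per φ z ∂muH with hc
  obtain ⟨Y₂, hY₂, h2⟩ := qe_big (C * (√(2 * Real.pi) * (B + |c|) * (15 * Real.pi / 2) * 3))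
    (half_pos hε)
  set Y := max Y₁ Y₂ with hY
  have hY1 : 1 ≤ Y := hY₂.trans (le_max_right _ _)
  set D := C * √((1 + Y) * (2 * Real.pi) * nu.real Fe) with hD
  have h3 := ((erg (measurable_per h) (continuousOn_per h) (inv_per φ)
    fun z _ => hb z).sqrt.const_mul D).eventually
      (gt_mem_nhds (by simpa using half_pos hε : D * √0 < ε / 2))
  obtain ⟨R, hR, hR0⟩ := (h3.and (eventually_gt_atTop 0)).exists
  refine ⟨R, hR0, Y, le_max_left _ _, fun ι s g t T Y' hF hT hY' hT' => ?_⟩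
  obtain ⟨b1, b2⟩ := qe_bd_Av (measurable_per h) hb hR0 c
  have cA : ContinuousOn (fun M => ((Av (per φ) R M - c : ℝ) : ℂ)) Gp := by
    simp only [Av]
    push_cast
    have : ContinuousOn (fun M => ∑ k ∈ Finset.range R, (per φ (pr (fl k M)) : ℂ)) Gp :=
      continuousOn_finsetSum _ fun k _ => qe_cont_fl (continuousOn_per h) (k : ℝ)
    exact (this.div_const _).sub continuousOn_const
  have hπ := Real.pi_pos
  have l1 := h1 ι s g t T Y _ _ (fun _ => 1 + Y) hF hT (hY'.trans hT') (qe_msFd Y) subset_rfl b1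
    continuousOn_const fun M hM => by linarith [hM.2.2]
  have l2 := h1 ι s g t T Y' {z | z ∈ Fd ∧ Y < z.im ∧ z.im ≤ Y'} _ (fun M => 1 + (pr M).im) hF hT
    hT' (measurableSet_Fd.inter ((measurableSet_lt measurable_const measurable_im).inter
      (measurableSet_le measurable_im measurable_const))) (fun z hz => ⟨hz.1, hz.2.2⟩) b1
    (continuousOn_const.add (continuous_im.comp_continuousOn (contDiffOn_pr (n := 0)).continuousOn))
    fun M _ => le_rfl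
  have l3 := mul_le_mul_of_nonneg_left (qe_low b1 (by linarith : 0 ≤ Y))
    (by positivity : 0 ≤ C * T ^ 2)
  have l4 := mul_le_mul_of_nonneg_left (qe_cusp b2 (Y' := Y') hY1) (by positivity : 0 ≤ C * T ^ 2)
  simp only [norm_real, Real.norm_eq_abs, sq_abs] at l1 l2 l3 l4
  have l5 : C * (√(2 * Real.pi) * (B + |c|) * (15 * Real.pi / 2) * 3) / √Y ≤ ε / 2 :=
    le_trans (div_le_div_of_nonneg_left (by positivity) (Real.sqrt_pos.2 (by linarith))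
      (Real.sqrt_le_sqrt (le_max_right _ _))) h2
  have l6 := mul_le_mul_of_nonneg_left l5 (sq_nonneg T)
  have l7 := mul_le_mul_of_nonneg_left hR.le (sq_nonneg T)
  refine le_trans (Finset.sum_le_sum fun j hj => ?_) (le_trans (Finset.sum_add_distrib.trans_le
    (add_le_add (l1.trans l3) (l2.trans l4))) ?_)
  · have he := (hF.form j hj).toEig
    rw [qe_split hY', ← mul_add]
    · exact mul_le_mul_of_nonneg_left (norm_add_le _ _) (Nat.cast_nonneg _)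
    · exact (cA.mul (gt_smooth he).continuousOn).mul (VV_smooth bump_sg _ he).continuousOn
  · rw [hD] at l7
    rw [mul_div_assoc C] at l6
    linarith

theorem qe {φ : ℂ → ℝ} (h : Tst φ) {ε : ℝ} (hε : 0 < ε) : ∃ T₀ : ℝ, ∀ (ι : Type) (s : Finset ι)
    (g : ι → ℂ → ℝ) (t : ι → ℝ) (T : ℝ), Fam s g t T → T₀ ≤ T →
    ∑ j ∈ s, |∫ z, φ z * g j z ^ 2 ∂muH - ∫ z, φ z ∂muH| ≤ ε * T ^ 2 := by
  obtain ⟨c₀, hc₀, hl⟩ := hh_lower
  obtain ⟨C, hC, ht⟩ := tail_sum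
  set c := 3 / Real.pi * ∫ z in Fd, per φ z ∂muH with hc
  obtain ⟨Y₁, hY₁, h1⟩ := qe_big (|c| * C) hε
  obtain ⟨R, hR, Y, hY, h2⟩ := qe_erg h (mul_pos hc₀ hε) Y₁
  obtain ⟨a', Y₀, ha, h3⟩ := qe_id h hR
  choose T₁ h4 using fun k => qe_q3 (ha k) (mul_pos hc₀ hε)
  set Y' := max Y Y₀ with hY'
  refine ⟨max Y' (∑ k ∈ Finset.range R, |T₁ k|), fun ι s g t T hF hT => ?_⟩
  have hT1 : Y' ≤ T := (le_max_left _ _).trans hT
  have hY1 : Y₁ ≤ Y' := hY.trans (le_max_left _ _)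
  have hT2 : 1 ≤ T := hY₁.trans (hY1.trans hT1)
  have hT3 : ∀ k ∈ Finset.range R, T₁ k ≤ T := fun k hk => (le_abs_self _).trans
    ((Finset.single_le_sum (f := fun k => |T₁ k|) (fun _ _ => abs_nonneg _) hk).trans
      ((le_max_right _ _).trans hT))
  have hπ := Real.pi_pos
  have hR' : (0 : ℝ) < R := by exact_mod_cast hR
  have l1 := h2 ι s g t T Y' hF hT2 (le_max_left _ _) hT1
  have l2 := ht ι s g t T Y' hF (hY₁.trans hY1) hT1
  have l3 := Finset.sum_le_sum fun k hk => h4 k ι s g t T hF (hT3 k hk)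
  rw [Finset.sum_comm, Finset.sum_const, Finset.card_range, nsmul_eq_mul] at l3
  have l4 : |c| * (C * T ^ 2 / Y') ≤ ε * T ^ 2 := by
    have e1 : √Y₁ ≤ Y' := (Real.sqrt_le_iff.2 ⟨by linarith, le_self_pow₀ hY₁ two_ne_zero⟩ : √Y₁ ≤ Y₁).trans hY1
    have e2 := (div_le_div_of_nonneg_left (by positivity : 0 ≤ |c| * C)
      (Real.sqrt_pos.2 (by linarith)) e1).trans h1
    calc _ = |c| * C / Y' * T ^ 2 := by ring
      _ ≤ _ := mul_le_mul_of_nonneg_right e2 (sq_nonneg T)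
  have l5 := (mul_le_mul_of_nonneg_left l2 (abs_nonneg c)).trans l4
  have l6 := mul_le_mul_of_nonneg_left l3 (by positivity : 0 ≤ 4 / (R : ℝ))
  rw [← mul_assoc, div_mul_cancel₀ _ hR'.ne'] at l6
  refine le_of_mul_le_mul_left (a := 15 * c₀) (le_trans ?_ (le_trans (add_le_add (add_le_add
    (mul_le_mul_of_nonneg_left l1 (by norm_num : (0 : ℝ) ≤ 2))
    (mul_le_mul_of_nonneg_left l5 (by positivity : 0 ≤ 15 / 2 * c₀))) l6) ?_)) (by positivity)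
  · simp only [Finset.mul_sum]
    rw [← Finset.sum_add_distrib, ← Finset.sum_add_distrib]
    refine Finset.sum_le_sum fun j hj => ?_
    obtain ⟨w1, -, w3⟩ := wn_bd (hF.nn j hj) (hF.le j hj) hT2
    have w2 : (1 : ℝ) ≤ wn (t j) := by exact_mod_cast w1
    have e1 := hl _ _ w2 w3
    rw [div_le_iff₀ (by linarith)] at e1
    have e2 := h3 Y' (wn (t j)) (t j) c (g j) (le_max_right _ _) (hF.form j hj) hc
    have t0 : 0 ≤ ∫ z in {z | z ∈ Fd ∧ Y' < z.im}, g j z ^ 2 ∂muH :=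
      integral_nonneg fun _ => sq_nonneg _
    simp only [← Finset.mul_sum]
    rw [← hc]
    generalize (∫ M in Sh ∩ pr ⁻¹' {z | z ∈ Fd ∧ z.im ≤ Y'}, ((Av (per φ) R M - c : ℝ) : ℂ) *
      gt (g j) M * VV (fun w => (sg w : ℂ)) (wn (t j)) (g j) M ∂nu) = X at e2 ⊢
    generalize (∫ z in {z | z ∈ Fd ∧ Y' < z.im}, g j z ^ 2 ∂muH) = τ at e2 t0 ⊢
    generalize (∫ z, φ z * g j z ^ 2 ∂muH - ∫ z, φ z ∂muH) = d at e2 ⊢
    have e3 := norm_sum_le (Finset.range R) fun k =>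
      ∫ M, X1 (a' k) M * gt (g j) M * VV (fun w => (sg w : ℂ)) (wn (t j)) (g j) M ∂nu
    generalize (∑ k ∈ Finset.range R, ‖∫ M, X1 (a' k) M * gt (g j) M *
      VV (fun w => (sg w : ℂ)) (wn (t j)) (g j) M ∂nu‖) = σ at e3 ⊢
    generalize (∑ k ∈ Finset.range R, ∫ M, X1 (a' k) M * gt (g j) M *
      VV (fun w => (sg w : ℂ)) (wn (t j)) (g j) M ∂nu) = Z at e2 e3
    have hπ' : (Real.pi : ℂ) ≠ 0 := ofReal_ne_zero.2 hπ.ne'
    have e4 : hh (wn (t j)) (t j) * ((15 * d + 15 / 2 * c * τ : ℝ) : ℂ) =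
        2 * X - ((4 / R : ℝ) : ℂ) * Z := by
      refine mul_left_cancel₀ hπ' ?_
      push_cast at e2 ⊢
      linear_combination e2
    have e5 : ‖hh (wn (t j)) (t j)‖ * |15 * d + 15 / 2 * c * τ| ≤ 2 * ‖X‖ + 4 / R * σ := by
      rw [← Real.norm_eq_abs, ← norm_real, ← norm_mul, e4]
      refine (norm_sub_le _ _).trans (add_le_add (by simp) ?_)
      rw [norm_mul, norm_real, Real.norm_of_nonneg (by positivity)]
      exact mul_le_mul_of_nonneg_left e3 (by positivity)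
    have e6 : 15 * |d| ≤ |15 * d + 15 / 2 * c * τ| + 15 / 2 * (|c| * τ) := by
      have := abs_sub (15 * d + 15 / 2 * c * τ) (15 / 2 * c * τ)
      rw [add_sub_cancel_right, abs_mul, abs_mul _ τ, abs_mul _ c, abs_of_nonneg t0,
        abs_of_pos (by norm_num : (0 : ℝ) < 15), abs_of_pos (by norm_num : (0 : ℝ) < 15 / 2)]
        at this
      linarith
    have e7 := mul_le_mul_of_nonneg_right e1 (abs_nonneg (15 * d + 15 / 2 * c * τ))
    have e8 := mul_le_mul_of_nonneg_left e5 (by linarith : (0 : ℝ) ≤ wn (t j))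
    have e9 := mul_le_mul_of_nonneg_left e6 hc₀.le
    linarith
  · have : 0 ≤ c₀ * ε * T ^ 2 := by positivity
    linarith

theorem qe_one {κ : ℂ → ℝ} (hκ : ContDiff ℝ (⊤ : ℕ∞) κ) {r : ℝ}
    (h0 : ∀ z, r < ‖z‖ → κ z = 0) (h1 : ∫ z, κ z = 1) {ζ : ℂ} (hr : r < ζ.im) {ε : ℝ}
    (hε : 0 < ε) : ∃ T₀ : ℝ,
    ∀ (ι : Type) (s : Finset ι) (g : ι → ℂ → ℝ) (t : ι → ℝ) (T : ℝ), Fam s g t T → T₀ ≤ T →
    ∑ j ∈ s, |(∫ z, κ (z - ζ) * g j z ^ 2) - 1| ≤ ε * T ^ 2 := by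
  have hU : Metric.closedBall ζ r ⊆ Up := fun z hz => by
    have h2 := (abs_le.1 ((abs_im_le_norm (z - ζ)).trans (mem_closedBall_iff_norm.1 hz))).1
    rw [sub_im] at h2
    show 0 < z.im
    linarith
  have hz : ∀ z, z ∉ Metric.closedBall ζ r → κ (z - ζ) = 0 := fun z hz =>
    h0 _ (not_le.1 fun h => hz (mem_closedBall_iff_norm.2 h))
  have hT : Tst fun z => κ (z - ζ) * z.im ^ 2 :=
    ⟨(hκ.comp (contDiff_id.sub contDiff_const)).mul (imCLM.contDiff.pow 2), _,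
      isCompact_closedBall ζ r, hU, fun z h => by rw [hz z h, zero_mul]⟩
  obtain ⟨T₀, h⟩ := qe hT hε
  have e : ∀ G : ℂ → ℝ, ∫ z, κ (z - ζ) * z.im ^ 2 * G z ∂muH = ∫ z, κ (z - ζ) * G z := fun G => by
    rw [int_muH, ← setIntegral_eq_integral_of_forall_compl_eq_zero (s := Up)
      (f := fun z => κ (z - ζ) * G z) fun z h => by rw [hz z fun h' => h (hU h'), zero_mul]]
    refine setIntegral_congr_fun isOpen_Up.measurableSet fun z hz => ?_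
    have : z.im ≠ 0 := ne_of_gt hz
    simp only [smul_eq_mul]
    field_simp
  have e1 := e fun _ => 1
  simp only [mul_one, integral_sub_right_eq_self, h1] at e1
  refine ⟨T₀, fun ι s g t T hF hT => ?_⟩
  simpa only [e, e1] using h ι s g t T hF hT

theorem qe_unif {κ : ℂ → ℝ} (hκ : ContDiff ℝ (⊤ : ℕ∞) κ) {r : ℝ}
    (h0 : ∀ z, r < ‖z‖ → κ z = 0) (h1 : ∫ z, κ z = 1) {K : Set ℂ} (hK : IsCompact K)
    (hr : ∀ ζ ∈ K, r < ζ.im) {ε : ℝ} (hε : 0 < ε) : ∃ T₀ : ℝ,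
    ∀ (ι : Type) (s : Finset ι) (g : ι → ℂ → ℝ) (t : ι → ℝ) (T : ℝ), Fam s g t T → T₀ ≤ T →
    ∀ ζ ∈ K, ∑ j ∈ s, |(∫ u, κ u * g j (ζ + u) ^ 2) - 1| ≤ ε * T ^ 2 := by
  set Q := (fun p : ℂ × ℂ => p.1 + p.2) '' (K ×ˢ Metric.closedBall 0 r) with hQ
  have cQ : IsCompact Q := (hK.prod (isCompact_closedBall 0 r)).image (by fun_prop)
  have QU : Q ⊆ Up := by
    rintro _ ⟨p, ⟨h2, h3⟩, rfl⟩
    have h4 := (abs_le.1 ((abs_im_le_norm p.2).trans (mem_closedBall_zero_iff.1 h3))).1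
    show 0 < (p.1 + p.2).im
    rw [add_im]
    linarith [hr _ h2]
  have hz : ∀ ζ ∈ K, ∀ z, z ∉ Q → κ (z - ζ) = 0 := fun ζ hζ z hz => h0 _ (not_le.1 fun h =>
    hz ⟨(ζ, z - ζ), ⟨hζ, mem_closedBall_zero_iff.2 h⟩, add_sub_cancel _ _⟩)
  obtain ⟨P, T₁, hP, -, hp⟩ := pt_cpt cQ QU
  have hv : 0 ≤ volume.real Q := measureReal_nonneg
  set η := ε / 2 / (P * volume.real Q + 1) with hη
  have η0 : 0 < η := by positivity
  have hu : UniformContinuous κ := hκ.continuous.uniformContinuous_of_tendsto_cocompact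
    (HasCompactSupport.intro (isCompact_closedBall 0 r) fun z hz =>
      h0 z (not_le.1 fun h => hz (mem_closedBall_zero_iff.2 h))).is_zero_at_infty
  obtain ⟨d, hd, h2⟩ := Metric.uniformContinuous_iff.1 hu η η0
  obtain ⟨F, hFK, hF, h3⟩ := finite_cover_balls_of_compact hK hd
  choose! T₀ h4 using fun ζ (hζ : ζ ∈ K) => qe_one hκ h0 h1 (hr ζ hζ) (half_pos hε)
  obtain ⟨T₂, h5⟩ := (hF.image T₀).bddAbove
  refine ⟨max T₁ T₂, fun ι s g t T hf hT ζ hζ => ?_⟩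
  obtain ⟨ξ, hξ, h6⟩ := mem_iUnion₂.1 (h3 hζ)
  have h7 := h4 ξ (hFK hξ) ι s g t T hf ((h5 ⟨ξ, hξ, rfl⟩).trans ((le_max_right _ _).trans hT))
  have h8 := hp ι s g t T hf ((le_max_left _ _).trans hT)
  have ig : ∀ j ∈ s, IntegrableOn (fun z => g j z ^ 2) Q := fun j hj =>
    (((hf.form j hj).toEig.cont.mono QU).pow 2).integrableOn_compact cQ
  have ik : ∀ j ∈ s, ∀ x : ℂ, IntegrableOn (fun z => κ (z - x) * g j z ^ 2) Q := fun j hj x =>
    ((hκ.continuous.comp (continuous_id.sub continuous_const)).continuousOn.mul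
      (((hf.form j hj).toEig.cont.mono QU).pow 2)).integrableOn_compact cQ
  have e : ∀ j ∈ s, |(∫ u, κ u * g j (ζ + u) ^ 2) - 1| ≤
      |(∫ z, κ (z - ξ) * g j z ^ 2) - 1| + η * ∫ z in Q, g j z ^ 2 := fun j hj => by
    have e1 : ∫ u, κ u * g j (ζ + u) ^ 2 = ∫ z, κ (z - ζ) * g j z ^ 2 := by
      rw [← integral_sub_right_eq_self _ ζ]
      simp only [add_sub_cancel]
    refine (abs_sub_le _ (∫ z, κ (z - ξ) * g j z ^ 2) _).trans ?_
    have e2 : ∀ x ∈ K, ∫ z, κ (z - x) * g j z ^ 2 = ∫ z in Q, κ (z - x) * g j z ^ 2 :=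
      fun x hx => (setIntegral_eq_integral_of_forall_compl_eq_zero
        fun z h => by rw [hz x hx z h, zero_mul]).symm
    rw [add_comm, e1]
    refine add_le_add_right ?_ _
    rw [e2 ζ hζ, e2 ξ (hFK hξ),
      ← integral_sub (ik j hj ζ) (ik j hj ξ), ← integral_const_mul, ← Real.norm_eq_abs]
    refine norm_integral_le_of_norm_le ((ig j hj).const_mul η) (ae_of_all _ fun z => ?_)
    rw [← sub_mul, norm_mul, Real.norm_of_nonneg (sq_nonneg _), ← dist_eq_norm]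
    refine mul_le_mul_of_nonneg_right (h2 ?_).le (sq_nonneg _)
    rwa [dist_sub_left]
  refine (Finset.sum_le_sum e).trans ?_
  rw [Finset.sum_add_distrib, ← Finset.mul_sum, ← integral_finsetSum _ ig]
  have e2 : ∫ z in Q, ∑ j ∈ s, g j z ^ 2 ≤ volume.real Q * (P * T ^ 2) := by
    rw [← smul_eq_mul, ← setIntegral_const]
    exact setIntegral_mono_on (integrable_finsetSum _ ig)
      (continuousOn_const.integrableOn_compact cQ) cQ.measurableSet h8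
  have e3 : η * (P * volume.real Q + 1) = ε / 2 := div_mul_cancel₀ _ (by positivity)
  have e4 := mul_le_mul_of_nonneg_left e2 η0.le
  have e5 : 0 ≤ η * T ^ 2 := by positivity
  have e6 : η * (volume.real Q * (P * T ^ 2)) + η * T ^ 2 = ε / 2 * T ^ 2 := by rw [← e3]; ring
  linarith

end Pool.Agent.MP_a28cf0_nt.Dec

end

-- part MP_a28cf0_nt.Dec.Box
section

set_option autoImplicit false

namespace Pool.Agent.MP_a28cf0_nt.Dec

open MeasureTheory Complex Filter Topology Set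
open scoped ENNReal MatrixGroups ComplexConjugate
open Pool.Agent.MP_a28cf0_nt.Cub

/-! The refined kernel bound for two nearby pairs of nearly parallel directions.
Put `a = a₃ - b₃`, `b = a₄ - b₄`, `d = sin (a₃ - a₄)`, `d' = sin (b₃ - b₄)`,
`Λ = |a - b| + |d'| |a + b|`.  Apply `osc2` with
`Gr z = -T (d / J - d' / J') (z + s) = -(T / J) (d - d' R)`, `J = j_{a₃} j_{a₄}`,
`J' = j_{b₃} j_{b₄}`, `R = J / J' = (cos a + ζ₃ sin a) (cos b + ζ₄ sin b)`, where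
`ζ₃ = mb (kk b₃) z = jj (b₃ + π/2) z / jj b₃ z` (addition formulas), similarly `ζ₄`.
* `0.99 |a - b| ≤ |d - d'| ≤ |a - b|` (as `|cos (b₃ - b₄)| ≥ 0.999`).
* On `ball I (1/4)` shifted: `‖ζ‖ ≤ 1.75`, `‖R - 1‖ ≤ 2 (|a| + |b|) ≤ 2 (|a + b| + |a - b|)`, so
  `‖Gr‖ ≤ 5 T Λ`.
* At `z = z₀ + s` (distance `≤ 1/50` from `i`): `Im ζ₃ = PP ≥ 0.9`,
  `ζ₃ - ζ₄ = (z² + 1) sin (b₄ - b₃) / J'` has norm `≤ 0.0001`, `|Im (ζ₃ ζ₄)| ≤ 0.2`
  (both `ζ` are within `0.05` of `i`: `ζ - i = (z - i) (cos - i sin) / j`),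
  `Im R = Im ζ₃ sin (a + b) + cos a sin b Im (ζ₄ - ζ₃) + sin a sin b Im (ζ₃ ζ₄)`, hence
  `|Im R| ≥ 0.89 |a + b| - 0.001 (|a + b| + |a - b|)`.  From `‖d - d' R‖ ≥ |d'| |Im R|` and
  `‖d - d' R‖ ≥ |d - d'| - |d'| ‖R - 1‖` (take 3/4 of the first and 1/4 of the second)
  `‖d - d' R‖ ≥ Λ / 8`, so `‖Gr z₀‖ ≥ T Λ / 9`.
* `ω = conj (Gr z₀) / ‖Gr z₀‖`; by the Cauchy estimate `‖Gr'‖ ≤ 5 T Λ / (1/5)` on
  `ball I (1/20)`, so `Gr` moves by at most `50 ρ T Λ ≤ T Λ / 20`; `μ = T Λ / 20`, `B = 100`.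
* If `T Λ ≤ 1` use `osc_triv`.  Finally `Λ ≥ |a - b| + δ |a + b|`. -/

lemma far_sin_lb {x : ℝ} (hx : |x| ≤ 1 / 500) : 99 / 100 * |x| ≤ |Real.sin x| := by
  have key : ∀ y : ℝ, 0 < y → y ≤ 1 / 500 → 99 / 100 * y ≤ Real.sin y := by
    intro y h0 h1
    have h2 := Real.sin_gt_sub_cube h0
    have h3 : y ^ 3 ≤ y * (1 / 500) ^ 2 := by
      rw [show y ^ 3 = y * y ^ 2 by ring]
      exact mul_le_mul_of_nonneg_left (pow_le_pow_left₀ h0.le h1 2) h0.le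
    linarith
  rcases lt_trichotomy x 0 with h | h | h
  · rw [abs_of_neg h] at hx ⊢
    have := key (-x) (by linarith) hx
    rw [Real.sin_neg] at this
    exact this.trans (neg_le_abs _)
  · simp [h]
  · rw [abs_of_pos h] at hx ⊢
    exact (key x h hx).trans (le_abs_self _)

lemma far_cos_ub {x : ℝ} (hx : |x| ≤ 1 / 500) : |1 - Real.cos x| ≤ 1 / 1000 * |x| := by
  have h1 := Real.one_sub_sq_div_two_le_cos (x := x)
  have h2 := Real.cos_le_one x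
  have h3 : x ^ 2 ≤ 1 / 500 * |x| := by
    rw [← sq_abs, sq]
    exact mul_le_mul_of_nonneg_right hx (abs_nonneg _)
  rw [abs_of_nonneg (by linarith)]
  linarith

lemma far_cos_lb {x : ℝ} (hx : |Real.sin x| ≤ 1 / 1000) : 99 / 100 ≤ |Real.cos x| := by
  have h1 := Real.sin_sq_add_cos_sq x
  have h2 : Real.sin x ^ 2 ≤ (1 / 1000) ^ 2 := by
    rw [← sq_abs]
    exact pow_le_pow_left₀ (abs_nonneg _) hx 2
  refine (pow_le_pow_iff_left₀ (by norm_num) (abs_nonneg _) two_ne_zero).mp ?_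
  rw [sq_abs]
  linarith

/-- the lower bound for the leading coefficient -/
lemma far_E {β u v σ : ℝ} (hu : |u| ≤ 1 / 500) (hv : |v| ≤ 1 / 500)
    (hβ : |Real.sin β| ≤ 1 / 1000) :
    |u| + |Real.sin β| * |v| ≤ 21 / 10 *
      ‖((Real.sin (β + u) * Real.cos σ - Real.sin β * Real.cos (σ + v) : ℝ) : ℂ) +
        ((Real.sin (β + u) * Real.sin σ - Real.sin β * Real.sin (σ + v) : ℝ) : ℂ) * I‖ := by
  set d := Real.sin (β + u) with hd
  set d' := Real.sin β with hd'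
  set e := ‖((d * Real.cos σ - d' * Real.cos (σ + v) : ℝ) : ℂ) +
        ((d * Real.sin σ - d' * Real.sin (σ + v) : ℝ) : ℂ) * I‖ with he
  have he0 : 0 ≤ e := norm_nonneg _
  have hsq : e ^ 2 = (d - d' * Real.cos v) ^ 2 + (d' * Real.sin v) ^ 2 := by
    rw [he, Complex.sq_norm, Complex.normSq_add_mul_I, Real.cos_add, Real.sin_add]
    linear_combination ((d - d' * Real.cos v) ^ 2 + (d' * Real.sin v) ^ 2) *
      Real.sin_sq_add_cos_sq σ
  have h1 : |d - d' * Real.cos v| ≤ e :=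
    abs_le_of_sq_le_sq (by rw [hsq]; linarith [sq_nonneg (d' * Real.sin v)]) he0
  have h2 : |d' * Real.sin v| ≤ e :=
    abs_le_of_sq_le_sq (by rw [hsq]; linarith [sq_nonneg (d - d' * Real.cos v)]) he0
  have h3 : 99 / 100 * (|d'| * |v|) ≤ |d' * Real.sin v| := by
    rw [abs_mul]
    have := mul_le_mul_of_nonneg_left (far_sin_lb hv) (abs_nonneg d')
    linarith
  have h4 : Real.cos β * Real.sin u =
      (d - d' * Real.cos v) + d' * (1 - Real.cos u) - d' * (1 - Real.cos v) := by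
    rw [hd, Real.sin_add]
    ring
  have h5 : |Real.cos β * Real.sin u| ≤
      |d - d' * Real.cos v| + |d' * (1 - Real.cos u)| + |d' * (1 - Real.cos v)| := by
    rw [h4]
    exact (abs_sub _ _).trans (add_le_add (abs_add_le _ _) le_rfl)
  have h6 : 99 / 100 * (99 / 100 * |u|) ≤ |Real.cos β * Real.sin u| := by
    rw [abs_mul]
    exact mul_le_mul (far_cos_lb hβ) (far_sin_lb hu) (by positivity) (abs_nonneg _)
  have h7 : |d' * (1 - Real.cos u)| ≤ 1 / 1000 * (1 / 1000 * |u|) := by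
    rw [abs_mul]
    exact mul_le_mul hβ (far_cos_ub hu) (abs_nonneg _) (by norm_num)
  have h8 : |d' * (1 - Real.cos v)| ≤ 1 / 1000 * (|d'| * |v|) := by
    rw [abs_mul]
    have := mul_le_mul_of_nonneg_left (far_cos_ub hv) (abs_nonneg d')
    linarith
  have h9 : 0 ≤ |d'| * |v| := by positivity
  have h10 := abs_nonneg u
  linarith

lemma far_jj (x y : ℝ) (w : ℂ) : jj x w * jj y w =
    (Real.cos (x - y) : ℂ) * ((w ^ 2 + 1) / 2) + (Real.cos (x + y) : ℂ) * ((1 - w ^ 2) / 2) +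
      w * (Real.sin (x + y) : ℂ) := by
  simp only [jj, Real.cos_sub, Real.cos_add, Real.sin_add, Complex.ofReal_add, Complex.ofReal_sub,
    Complex.ofReal_mul]
  ring

/-- the numerator stays close to its value at `i` -/
lemma far_N {S P Q r : ℝ} {w : ℂ} (hS : |S| ≤ 21 / 10 * ‖(P : ℂ) + (Q : ℂ) * I‖)
    (hw : ‖w - I‖ ≤ r) (hr : r ≤ 26 / 100) :
    ‖((w ^ 2 + 1) / 2) * ((S : ℂ) - P) + (w - I) * Q‖ ≤ 46 / 10 * r * ‖(P : ℂ) + (Q : ℂ) * I‖ := by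
  set e := ‖(P : ℂ) + (Q : ℂ) * I‖ with he
  have he0 : 0 ≤ e := norm_nonneg _
  have hr0 : 0 ≤ r := (norm_nonneg _).trans hw
  have hP : |P| ≤ e := by
    have := Complex.abs_re_le_norm ((P : ℂ) + (Q : ℂ) * I)
    simpa using this
  have hQ : |Q| ≤ e := by
    have := Complex.abs_im_le_norm ((P : ℂ) + (Q : ℂ) * I)
    simpa using this
  have e1 : ((w ^ 2 + 1) / 2) * ((S : ℂ) - P) + (w - I) * Q =
      (w - I) * ((((w - I) / 2 + I) * ((S - P : ℝ) : ℂ)) + Q) := by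
    push_cast
    linear_combination (((S : ℂ) - P) / 2) * Complex.I_mul_I
  have h1 : ‖(w - I) / 2 + I‖ ≤ 113 / 100 := by
    refine (norm_add_le _ _).trans ?_
    rw [norm_div, Complex.norm_I, Complex.norm_two]
    linarith
  have h2 : ‖((S - P : ℝ) : ℂ)‖ ≤ 31 / 10 * e := by
    rw [Complex.norm_real, Real.norm_eq_abs]
    have := abs_sub S P
    linarith
  have h3 : ‖(((w - I) / 2 + I) * ((S - P : ℝ) : ℂ)) + Q‖ ≤ 46 / 10 * e := by
    refine (norm_add_le _ _).trans ?_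
    rw [norm_mul, Complex.norm_real Q, Real.norm_eq_abs]
    have := mul_le_mul h1 h2 (norm_nonneg _) (by norm_num)
    linarith
  rw [e1, norm_mul]
  have := mul_le_mul hw h3 (norm_nonneg _) hr0
  linarith

lemma far_inv_I (a b : ℝ) : ‖(jj a I * jj b I)⁻¹‖ = 1 := by
  rw [norm_inv, norm_mul, norm_jj_I, norm_jj_I, mul_one, inv_one]

lemma far_inv_ub (a b : ℝ) {w : ℂ} (hw : ‖w - I‖ ≤ 26 / 100) : ‖(jj a w * jj b w)⁻¹‖ ≤ 2 := by
  have h1 : 74 / 100 ≤ ‖jj a w‖ := by linarith [(norm_jj_bd a w).1]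
  have h2 : 74 / 100 ≤ ‖jj b w‖ := by linarith [(norm_jj_bd b w).1]
  have h3 := mul_le_mul h1 h2 (by norm_num) (norm_nonneg _)
  rw [norm_inv, norm_mul]
  refine inv_le_of_inv_le₀ (by norm_num) ?_
  linarith

/-- a perturbation estimate -/
lemma far_pert {E n x y x₀ y₀ : ℂ} (hx : ‖x₀‖ = 1) (hy : ‖y₀‖ = 1) (hE : E ≠ 0)
    (h1 : ‖x - x₀‖ ≤ 6 / 100) (h2 : ‖y - y₀‖ ≤ 6 / 100) (h3 : ‖n‖ ≤ 7 / 100 * ‖E‖) :
    ‖E‖ / 2 ≤ (conj (E * (x₀ * y₀)) / (‖E‖ : ℂ) * ((E + n) * (x * y))).re := by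
  have he : 0 < ‖E‖ := norm_pos_iff.mpr hE
  have hec : (‖E‖ : ℂ) ≠ 0 := by exact_mod_cast he.ne'
  set ω := conj (E * (x₀ * y₀)) / (‖E‖ : ℂ) with hω
  have hn0 : ‖E * (x₀ * y₀)‖ = ‖E‖ := by rw [norm_mul, norm_mul, hx, hy, mul_one, mul_one]
  have hω1 : ‖ω‖ = 1 := by
    rw [hω, norm_div, Complex.norm_conj, hn0, Complex.norm_real, norm_norm, div_self he.ne']
  have hω2 : ω * (E * (x₀ * y₀)) = (‖E‖ : ℂ) := by
    rw [hω, div_mul_eq_mul_div, Complex.conj_mul', hn0, sq, mul_div_assoc, div_self hec, mul_one]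
  have hy1 : ‖y‖ ≤ 106 / 100 := by
    have := norm_le_insert' y y₀
    linarith
  have h4 : ‖x * y - x₀ * y₀‖ ≤ 13 / 100 := by
    rw [show x * y - x₀ * y₀ = (x - x₀) * y + x₀ * (y - y₀) by ring]
    refine (norm_add_le _ _).trans ?_
    rw [norm_mul, norm_mul, hx]
    have := mul_le_mul h1 hy1 (norm_nonneg _) (by norm_num)
    linarith
  have h5 : ‖x * y‖ ≤ 113 / 100 := by
    have := norm_le_insert' (x * y) (x₀ * y₀)
    rw [norm_mul x₀, hx, hy] at this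
    linarith
  have e1 : ω * ((E + n) * (x * y)) =
      (‖E‖ : ℂ) + ω * (E * (x * y - x₀ * y₀) + n * (x * y)) := by
    rw [← hω2]
    ring
  have h6 : ‖ω * (E * (x * y - x₀ * y₀) + n * (x * y))‖ ≤ ‖E‖ / 2 := by
    rw [norm_mul, hω1, one_mul]
    refine (norm_add_le _ _).trans ?_
    rw [norm_mul, norm_mul n]
    have h7 := mul_le_mul_of_nonneg_left h4 he.le
    have h8 := mul_le_mul h3 h5 (norm_nonneg _) (by positivity)
    linarith
  rw [e1, Complex.add_re, Complex.ofReal_re]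
  have := (abs_le.mp ((Complex.abs_re_le_norm _).trans h6)).1
  linarith

lemma far_meas (c₁ c₂ a₁ a₂ a₃ a₄ : ℝ) (s₁ s₂ : ℂ) :
    Measurable (Ph4 c₁ c₂ a₁ a₂ a₃ a₄ s₁ s₂) := by
  have h : ∀ (a : ℝ) (s : ℂ), Measurable fun z : ℂ => bb a (z + s) := fun a s =>
    measurable_bb.comp (measurable_const.prodMk (measurable_id.add_const s))
  exact (((h a₁ s₁).sub (h a₂ s₁)).const_mul c₁).add (((h a₃ s₂).sub (h a₄ s₂)).const_mul c₂)

theorem osc_far : ∃ C : ℝ, 0 ≤ C ∧ ∀ (A : ℂ → ℂ) (M T a₃ a₄ b₃ b₄ ρ δ : ℝ) (z₀ s : ℂ),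
    C3 M A → (∀ z, ρ < ‖z - z₀‖ → A z = 0) → ‖z₀ - I‖ ≤ 1 / 100 → 0 < ρ → ρ ≤ 1 / 1000 →
    ‖s‖ ≤ ρ → 0 ≤ T → |a₃ - b₃| ≤ 1 / 1000 → |a₄ - b₄| ≤ 1 / 1000 →
    |Real.sin (b₃ - b₄)| ≤ 1 / 1000 → 0 ≤ δ → δ ≤ |Real.sin (b₃ - b₄)| →
    ‖∫ z, A z * Complex.exp ((Ph4 T (-T) a₃ a₄ b₃ b₄ s s z : ℂ) * I)‖ ≤
      C * M / (1 + T * |(a₃ - b₃) - (a₄ - b₄)| + T * δ * |(a₃ - b₃) + (a₄ - b₄)|) ^ 3 := by
  obtain ⟨C, hC, H⟩ := osc2
  refine ⟨64 + C * 24 ^ 3 * 512, by positivity, ?_⟩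
  intro A M T a₃ a₄ b₃ b₄ ρ δ z₀ s hA hsupp hz₀ hρ hρ1 hs hT h3 h4 hβ hδ hδ1
  have hM := hA.nonneg
  set u := (a₃ - b₃) - (a₄ - b₄) with hu
  set v := (a₃ - b₃) + (a₄ - b₄) with hv
  have hu1 : |u| ≤ 1 / 500 := (abs_sub _ _).trans (by linarith)
  have hv1 : |v| ≤ 1 / 500 := (abs_add_le _ _).trans (by linarith)
  have hE := far_E (σ := b₃ + b₄) hu1 hv1 hβ
  rw [show b₃ - b₄ + u = a₃ - a₄ by rw [hu]; ring,
    show b₃ + b₄ + v = a₃ + a₄ by rw [hv]; ring] at hE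
  set d := Real.sin (a₃ - a₄) with hd
  set d' := Real.sin (b₃ - b₄) with hd'
  set P := d * Real.cos (b₃ + b₄) - d' * Real.cos (a₃ + a₄) with hP
  set Q := d * Real.sin (b₃ + b₄) - d' * Real.sin (a₃ + a₄) with hQ
  set E : ℂ := (P : ℂ) + (Q : ℂ) * I with hEdef
  have he0 : 0 ≤ ‖E‖ := norm_nonneg _
  have hdv : 0 ≤ |d'| * |v| := by positivity
  have hS : |Real.sin u| ≤ 21 / 10 * ‖E‖ := by
    have := Real.abs_sin_le_abs (x := u)
    linarith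
  set X := 1 + T * |u| + T * δ * |v| with hX
  have hX1 : 1 ≤ X := by
    have : 0 ≤ T * |u| := by positivity
    have : 0 ≤ T * δ * |v| := by positivity
    linarith
  have hX0 : 0 < X := by linarith
  have hX2 : X ≤ 1 + 21 / 10 * (T * ‖E‖) := by
    have h1 : δ * |v| ≤ |d'| * |v| := mul_le_mul_of_nonneg_right hδ1 (abs_nonneg _)
    have h2 : T * (|u| + δ * |v|) ≤ T * (21 / 10 * ‖E‖) :=
      mul_le_mul_of_nonneg_left (by linarith) hT
    rw [hX]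
    linarith
  have hCM : 0 ≤ C * 24 ^ 3 * 512 * M := by positivity
  rw [le_div_iff₀ (by positivity)]
  by_cases hc : T * ‖E‖ ≤ 1
  · have h1 := osc_triv hA (by linarith) hsupp (Ph4 T (-T) a₃ a₄ b₃ b₄ s s)
    have h2 : X ^ 3 ≤ 4 ^ 3 := pow_le_pow_left₀ hX0.le (by linarith) 3
    have h5 := mul_le_mul h1 h2 (by positivity) hM
    linarith
  push Not at hc
  have hE0 : E ≠ 0 := by
    intro h0
    rw [h0, norm_zero, mul_zero] at hc
    linarith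
  have hup : ∀ z ∈ Metric.ball I (1 / 4), ‖z + s - I‖ ≤ 26 / 100 := by
    intro z hz
    rw [mem_ball_iff_norm] at hz
    rw [add_sub_right_comm]
    refine (norm_add_le _ _).trans ?_
    linarith
  have hG : ∀ w ∈ Up, (T : ℂ) * -((d : ℂ) / (jj a₃ w * jj a₄ w)) +
      ((-T : ℝ) : ℂ) * -((d' : ℂ) / (jj b₃ w * jj b₄ w)) =
      -(T : ℂ) * ((E + (((w ^ 2 + 1) / 2) * ((Real.sin u : ℂ) - P) + (w - I) * Q)) *
        ((jj a₃ w * jj a₄ w)⁻¹ * (jj b₃ w * jj b₄ w)⁻¹)) := by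
    intro w hw
    have n1 : jj a₃ w * jj a₄ w ≠ 0 := mul_ne_zero (jj_ne _ hw) (jj_ne _ hw)
    have n2 : jj b₃ w * jj b₄ w ≠ 0 := mul_ne_zero (jj_ne _ hw) (jj_ne _ hw)
    have hsu : Real.sin u = d * Real.cos (b₃ - b₄) - Real.cos (a₃ - a₄) * d' := by
      rw [show u = (a₃ - a₄) - (b₃ - b₄) by rw [hu]; ring, Real.sin_sub]
    have hN : E + (((w ^ 2 + 1) / 2) * ((Real.sin u : ℂ) - P) + (w - I) * Q) =
        d * (jj b₃ w * jj b₄ w) - d' * (jj a₃ w * jj a₄ w) := by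
      rw [far_jj, far_jj, hEdef, hsu, hP, hQ]
      simp only [Complex.ofReal_sub, Complex.ofReal_mul]
      ring
    rw [hN]
    generalize jj a₃ w * jj a₄ w = J at n1 ⊢
    generalize jj b₃ w * jj b₄ w = J' at n2 ⊢
    rw [Complex.ofReal_neg]
    field_simp
    ring
  have hμ : 0 < T * ‖E‖ / 2 := by linarith
  have key := H A (Ph4 T (-T) a₃ a₄ b₃ b₄ s s)
    (fun z => (T : ℂ) * -((d : ℂ) / (jj a₃ (z + s) * jj a₄ (z + s))) +
      ((-T : ℝ) : ℂ) * -((d' : ℂ) / (jj b₃ (z + s) * jj b₄ (z + s)))) z₀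
    (conj (E * ((jj a₃ I * jj a₄ I)⁻¹ * (jj b₃ I * jj b₄ I)⁻¹)) / (‖E‖ : ℂ)) ρ (T * ‖E‖ / 2) 24 M
    hA hsupp hρ (by linarith) ?_ hμ (by norm_num) (far_meas _ _ _ _ _ _ _ _) ?_ ?_ ?_ ?_
  · have h1 : X ^ 3 ≤ (8 * (T * ‖E‖ / 2)) ^ 3 := pow_le_pow_left₀ hX0.le (by linarith) 3
    have h2 := mul_le_mul key h1 (by positivity) (by positivity)
    have h5 : C * 24 ^ 3 * M / (T * ‖E‖ / 2) ^ 3 * (8 * (T * ‖E‖ / 2)) ^ 3 =
        C * 24 ^ 3 * 512 * M := by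
      generalize T * ‖E‖ / 2 = μ at hμ
      field_simp
      norm_num
    rw [h5] at h2
    linarith
  · rw [norm_div, Complex.norm_conj, norm_mul, norm_mul, far_inv_I, far_inv_I, mul_one, mul_one,
      Complex.norm_real, norm_norm, div_self (norm_ne_zero_iff.mpr hE0)]
  · have hj : ∀ a : ℝ, Differentiable ℂ fun z : ℂ => jj a (z + s) := by
      intro a
      unfold jj
      fun_prop
    have hq : ∀ (a b : ℝ) (c : ℂ), DifferentiableOn ℂ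
        (fun z : ℂ => -(c / (jj a (z + s) * jj b (z + s)))) (Metric.ball I (1 / 4)) := by
      intro a b c
      refine DifferentiableOn.neg ((differentiableOn_const c).div
        ((hj a).mul (hj b)).differentiableOn fun z hz => ?_)
      have hw := ball_sub ((hup z hz).trans (by norm_num))
      exact mul_ne_zero (jj_ne _ hw) (jj_ne _ hw)
    exact ((hq a₃ a₄ d).const_mul _).add ((hq b₃ b₄ d').const_mul _)
  · intro z hz
    have hw := hup z hz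
    rw [hG _ (ball_sub (hw.trans (by norm_num))), norm_mul, norm_mul, norm_mul, norm_neg,
      Complex.norm_real, Real.norm_eq_abs, abs_of_nonneg hT]
    have h1 := far_N hS hw le_rfl
    have h2 : ‖E + ((((z + s) ^ 2 + 1) / 2) * ((Real.sin u : ℂ) - P) + (z + s - I) * Q)‖ ≤
        3 * ‖E‖ := (norm_add_le _ _).trans (by linarith)
    have h5 := mul_le_mul (far_inv_ub a₃ a₄ hw) (far_inv_ub b₃ b₄ hw) (norm_nonneg _) (by norm_num)
    have h6 := mul_le_mul h2 h5 (by positivity) (by positivity)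
    have h7 := mul_le_mul_of_nonneg_left h6 hT
    linarith
  · intro z hz w
    have hw := ball_sub ((hup z hz).trans (by norm_num))
    have h1 := ((hasDerivAt_bb_sub a₃ a₄ hw w).const_mul T).add
      ((hasDerivAt_bb_sub b₃ b₄ hw w).const_mul (-T))
    refine (h1.congr_deriv ?_).congr_of_eventuallyEq (Eventually.of_forall fun x => ?_)
    · rw [mul_add w, Complex.add_re, mul_left_comm w, mul_left_comm w, Complex.re_ofReal_mul,
        Complex.re_ofReal_mul]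
      ring
    · simp only [Ph4, Pi.add_apply, add_right_comm z _ s]
  · intro z hz
    have hw : ‖z + s - I‖ ≤ 13 / 1000 := by
      rw [show z + s - I = (z - z₀) + s + (z₀ - I) by ring]
      refine norm_add₃_le.trans ?_
      linarith
    have hI : ‖I - I‖ ≤ 1 / 10 := by simp
    rw [hG _ (ball_sub (hw.trans (by norm_num))), mul_left_comm, ← Complex.ofReal_neg,
      Complex.re_ofReal_mul, abs_mul, abs_neg, abs_of_nonneg hT, mul_div_assoc]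
    refine mul_le_mul_of_nonneg_left (le_trans ?_ (le_abs_self _)) hT
    refine far_pert (far_inv_I _ _) (far_inv_I _ _) hE0 ?_ ?_ ?_
    · exact (inv_jj_lip _ _ (hw.trans (by norm_num)) hI).trans (by linarith)
    · exact (inv_jj_lip _ _ (hw.trans (by norm_num)) hI).trans (by linarith)
    · exact (far_N hS hw (by norm_num)).trans (by linarith)

/-! Bounds for the two fold extension operator.
`∫ ‖χ ext2 k (z+s)‖² = ∫ (χ conj χ) ext2 k (z+s) ext2 k^* (z+s)` with `k^* p = conj (k p.swap)`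
(`conj_ext2`), then `fub` with `s₁ = s₂ = s`, `NN_eq`, substitute `p' ↦ p'.swap`
(`integral_prod_swap`), and the Schur test on `Y × Y`.  The phase
`Ph4 T T θ₁ θ₂ θ₂' θ₁' s s` equals `Ph4 T T θ₁ θ₁' θ₂' θ₂ s s` (for `ext2_TT`: `osc_CR` with
`η = α`, kernel `Jk T (θ₁ - θ₁') * Jk T (θ₂' - θ₂)`, `inv_cube_le₂`, `jk_int` twice) and equals
`Ph4 T (-T) θ₁ θ₂ θ₁' θ₂' s s` (for `ext2_TP`: `osc_far`, `far_int`; by `ep_sub_bd`, `ep_lip`
`|sin (θ₁' - θ₂')| ≤ (K + 6) α`).  The kernel bounds are only needed where `k p ≠ 0 ≠ k p'`. -/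

/-- bounded functions supported in a ball are integrable -/
theorem boxb_int {u : ℂ → ℂ} (hu : Bd u) {z₀ : ℂ} {ρ : ℝ} (h0 : ∀ z, ρ < ‖z - z₀‖ → u z = 0) :
    Integrable u := by
  have : IsFiniteMeasure (volume.restrict (Metric.closedBall z₀ ρ)) :=
    ⟨by rw [Measure.restrict_apply_univ]; exact measure_closedBall_lt_top⟩
  refine IntegrableOn.integrable_of_forall_notMem_eq_zero (s := Metric.closedBall z₀ ρ)
    (hu.integrable _) fun z hz => h0 z ?_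
  rwa [Metric.mem_closedBall, dist_eq_norm, not_le] at hz

theorem boxb_sq (z : ℂ) : ((‖z‖ ^ 2 : ℝ) : ℂ) = z * conj z := by
  rw [Complex.mul_conj, Complex.normSq_eq_norm_sq]

/-- the Schur test for the two fold extension operator -/
theorem boxb_core {m : Measure ℂ} [IsFiniteMeasure m] {A : Y → ℂ → ℂ} {M M' : ℝ} (hA : Amp M A)
    {χ : ℂ → ℂ} (hχ : C3 M' χ) {z₀ : ℂ} {ρ : ℝ} (h0 : ∀ z, ρ < ‖z - z₀‖ → χ z = 0) (T : ℝ)
    (s : ℂ) {k : Y × Y → ℂ} (hk : Bd k) {κ : Y × Y → Y × Y → ℝ}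
    (hm : Measurable fun q : (Y × Y) × (Y × Y) => κ q.1 q.2) (hκ : ∀ p p', 0 ≤ κ p p') {b : ℝ}
    (hb : ∀ p p', κ p p' ≤ b) {S : ℝ} (h1 : ∀ p, ∫ p', κ p p' ∂nYY m ≤ S)
    (h2 : ∀ p', ∫ p, κ p p' ∂nYY m ≤ S)
    (hker : ∀ p p', k p ≠ 0 → k p' ≠ 0 → ∀ B : ℂ → ℂ, C3 (4096 * (8 * M' * M') * M ^ 4) B →
      (∀ z, ρ < ‖z - z₀‖ → B z = 0) →
      ‖∫ z, B z * Complex.exp ((Ph4 T T p.1.2 p.2.2 p'.2.2 p'.1.2 s s z : ℂ) * I)‖ ≤ κ p p') :
    ∫ z, ‖χ z * ext2 m A T k (z + s)‖ ^ 2 ≤ S * n2 (nYY m) k := by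
  have hχ2 := hχ.mul hχ.conj
  have hb2 : Bd fun z => χ z * conj (χ z) := ⟨hχ2.cont.measurable, _, hχ2.norm_le⟩
  have h02 : ∀ z, ρ < ‖z - z₀‖ → χ z * conj (χ z) = 0 := fun z hz => by rw [h0 z hz, zero_mul]
  have hk' : Bd fun p : Y × Y => conj (k p.swap) := (hk.comp measurable_swap).conj
  have e1 : ((∫ z, ‖χ z * ext2 m A T k (z + s)‖ ^ 2 : ℝ) : ℂ) =
      ∫ p, ∫ p', k p * conj (k p') *
        NN A (fun z => χ z * conj (χ z)) T T s s p p'.swap ∂nYY m ∂nYY m := by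
    rw [← integral_complex_ofReal]
    have e2 := fub (m := m) hA hb2.meas (boxb_int hb2 h02) T T s s hk hk'
    refine Eq.trans (integral_congr_ae (Eventually.of_forall fun z => ?_))
      (e2.trans (integral_congr_ae (Eventually.of_forall fun p => ?_)))
    · change ((‖χ z * ext2 m A T k (z + s)‖ ^ 2 : ℝ) : ℂ) = _
      rw [boxb_sq, map_mul, conj_ext2]
      ring
    · exact (integral_prod_swap (μ := nY m) (ν := nY m) fun p' : Y × Y => k p * conj (k p'.swap) *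
        NN A (fun z => χ z * conj (χ z)) T T s s p p').symm
  obtain ⟨c, hc⟩ := hk.bd
  have hG : Integrable (fun q : (Y × Y) × (Y × Y) => κ q.1 q.2 * (‖k q.1‖ * ‖k q.2‖))
      ((nYY m).prod (nYY m)) := by
    have hme : Measurable fun q : (Y × Y) × (Y × Y) => κ q.1 q.2 * (‖k q.1‖ * ‖k q.2‖) :=
      hm.mul ((hk.meas.comp measurable_fst).norm.mul (hk.meas.comp measurable_snd).norm)
    refine Integrable.of_bound hme.aestronglyMeasurable (b * (c * c))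
      (Eventually.of_forall fun q => ?_)
    have := hκ q.1 q.2
    rw [Real.norm_of_nonneg (by positivity)]
    exact mul_le_mul (hb _ _) (mul_le_mul (hc _) (hc _) (norm_nonneg _)
      ((norm_nonneg _).trans (hc q.1))) (by positivity) (this.trans (hb _ _))
  have e3 := schur (nYY m) (nYY m) hm hκ hb h1 h2 hk hk
  rw [Real.mul_self_sqrt (n2_nonneg _ _)] at e3
  refine le_trans ?_ e3
  refine (le_abs_self _).trans ?_
  rw [← Real.norm_eq_abs, ← Complex.norm_real, e1]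
  refine norm_integral_le_of_norm_le hG.integral_prod_left ?_
  filter_upwards [hG.prod_right_ae] with p hp
  refine norm_integral_le_of_norm_le hp (Eventually.of_forall fun p' => ?_)
  rw [norm_mul, norm_mul, Complex.norm_conj, mul_comm]
  by_cases hp0 : k p = 0
  · simp [hp0]
  by_cases hp0' : k p' = 0
  · simp [hp0']
  refine mul_le_mul_of_nonneg_right ?_ (by positivity)
  obtain ⟨B, hB, hB0, hN⟩ := NN_eq hA hχ2 T T s s p p'.swap
  rw [hN]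
  exact hker p p' hp0 hp0' B hB fun z hz => hB0 z (h02 z hz)

theorem boxb_prod {z₀ : ℂ} (hz : ‖z₀ - I‖ ≤ 1 / 100) {a b θ α : ℝ} (ha : |a - θ| ≤ α)
    (hb : |b - θ| ≤ α) : ‖ep z₀ a * ep z₀ b - ep z₀ θ ^ 2‖ ≤ 6 * α := by
  have hU : z₀ ∈ Up := ball_sub (by linarith)
  have h1 := ep_lip a θ (z := z₀) (by linarith)
  have h2 := ep_lip b θ (z := z₀) (by linarith)
  calc ‖ep z₀ a * ep z₀ b - ep z₀ θ ^ 2‖
      = ‖(ep z₀ a - ep z₀ θ) * ep z₀ b + ep z₀ θ * (ep z₀ b - ep z₀ θ)‖ := by congr 1; ring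
    _ ≤ ‖ep z₀ a - ep z₀ θ‖ + ‖ep z₀ b - ep z₀ θ‖ := by
        refine (norm_add_le _ _).trans ?_
        rw [norm_mul, norm_mul, norm_ep _ hU, norm_ep _ hU, mul_one, one_mul]
    _ ≤ 6 * α := by linarith

theorem ext2_TT (M M' α : ℝ) : ∃ C : ℝ, 0 ≤ C ∧ ∀ (m : Measure ℂ) [IsFiniteMeasure m]
    (A : Y → ℂ → ℂ) (χ : ℂ → ℂ) (z₀ s : ℂ) (K T θ θ' : ℝ) (k : Y × Y → ℂ),
    m univ ≤ 1 → Amp M A → C3 M' χ → 0 < α → (∀ z, α / 2000 < ‖z - z₀‖ → χ z = 0) →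
    ‖z₀ - I‖ ≤ 1 / 100 → ‖s‖ ≤ α / 2000 → 20 ≤ K → 0 < T → Bd k →
    (∀ p, k p ≠ 0 → |p.1.2 - θ| ≤ α ∧ |p.2.2 - θ'| ≤ α) →
    K * α ≤ ‖ep z₀ θ ^ 2 - ep z₀ θ' ^ 2‖ →
    ∫ z, ‖χ z * ext2 m A T k (z + s)‖ ^ 2 ≤ C / T ^ 2 * n2 (nYY m) k := by
  obtain ⟨C₀, hC₀, hosc⟩ := osc_CR
  obtain ⟨C₁, hC₁, hjk⟩ := jk_int
  obtain ⟨c, hc⟩ : ∃ c, c = C₀ * (4096 * (8 * M' * M') * M ^ 4) / α ^ 6 := ⟨_, rfl⟩
  have hc0 : 0 ≤ c := by
    have : 0 ≤ 8 * M' * M' := by nlinarith [mul_self_nonneg M']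
    rw [hc]; positivity
  refine ⟨c * C₁ ^ 2, by positivity,
    fun m _ A χ z₀ s K T θ θ' k hm hA hχ hα h0 hz hs hK hT hk hsupp hsep => ?_⟩
  have hrow : ∀ a b : ℝ, ∫ p : Y × Y, c * (Jk T (p.1.2 - a) * Jk T (p.2.2 - b)) ∂nYY m ≤
      c * C₁ ^ 2 / T ^ 2 := by
    intro a b
    rw [integral_const_mul, nYY, integral_prod_mul (fun y : Y => Jk T (y.2 - a))
      (fun y : Y => Jk T (y.2 - b)), mul_div_assoc, ← div_pow, sq]
    refine mul_le_mul_of_nonneg_left (mul_le_mul (hjk m hm T a hT) (hjk m hm T b hT)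
      (integral_nonneg fun y => Jk_nonneg hT.le _) (by positivity)) hc0
  have hJ : ∀ a b : ℝ, Jk T (a - b) = Jk T (b - a) := fun a b => by rw [← Jk_neg, neg_sub]
  refine boxb_core hA hχ h0 T s hk
    (κ := fun p p' => c * (Jk T (p.1.2 - p'.1.2) * Jk T (p.2.2 - p'.2.2))) ?_ ?_ (b := c) ?_ ?_
    (fun p' => hrow _ _) ?_
  · exact (((measurable_Jk T).comp (by fun_prop)).mul
      ((measurable_Jk T).comp (by fun_prop))).const_mul c
  · exact fun p p' => mul_nonneg hc0 (mul_nonneg (Jk_nonneg hT.le _) (Jk_nonneg hT.le _))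
  · exact fun p p' => mul_le_of_le_one_right hc0
      (mul_le_one₀ (Jk_le_one hT.le _) (Jk_nonneg hT.le _) (Jk_le_one hT.le _))
  · intro p
    simp only [hJ p.1.2, hJ p.2.2]
    exact hrow _ _
  · intro p p' hp hp' B hB hB0
    have e : Ph4 T T p.1.2 p.2.2 p'.2.2 p'.1.2 s s = Ph4 T T p.1.2 p'.1.2 p'.2.2 p.2.2 s s := by
      funext z; simp only [Ph4]; ring
    have h1 := boxb_prod hz (hsupp p hp).1 (hsupp p' hp').1
    have h2 := boxb_prod hz (hsupp p' hp').2 (hsupp p hp).2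
    have h3 : α ≤ ‖ep z₀ p.1.2 * ep z₀ p'.1.2 - ep z₀ p'.2.2 * ep z₀ p.2.2‖ := by
      have h4 := norm_sub_le_norm_sub_add_norm_sub (ep z₀ θ ^ 2) (ep z₀ p.1.2 * ep z₀ p'.1.2)
        (ep z₀ θ' ^ 2)
      have h5 := norm_sub_le_norm_sub_add_norm_sub (ep z₀ p.1.2 * ep z₀ p'.1.2)
        (ep z₀ p'.2.2 * ep z₀ p.2.2) (ep z₀ θ' ^ 2)
      rw [norm_sub_rev (ep z₀ θ ^ 2) (ep z₀ p.1.2 * ep z₀ p'.1.2)] at h4
      nlinarith
    rw [e]
    refine (hosc B _ T T _ _ _ _ (α / 2000) α z₀ s s hB hB0 hz (by positivity) hs hs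
      (by linarith) h3).trans ?_
    rw [abs_of_pos hT, ← div_div, ← hc, div_eq_mul_one_div, hJ p.2.2]
    exact mul_le_mul_of_nonneg_left (inv_cube_le₂ hT.le hT.le _ _) hc0

theorem ext2_TP (M M' : ℝ) : ∃ C : ℝ, 0 ≤ C ∧ ∀ (m : Measure ℂ) [IsFiniteMeasure m]
    (A : Y → ℂ → ℂ) (χ : ℂ → ℂ) (z₀ s : ℂ) (α K T δ θ θ' : ℝ) (k : Y × Y → ℂ),
    m univ ≤ 1 → Amp M A → C3 M' χ → 0 < α → (∀ z, α / 2000 < ‖z - z₀‖ → χ z = 0) →
    ‖z₀ - I‖ ≤ 1 / 100 → ‖s‖ ≤ α / 2000 → 0 ≤ K → (K + 6) * α ≤ 1 / 1000 → 0 < T → 0 < δ → Bd k →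
    (∀ p, k p ≠ 0 → |p.1.2 - θ| ≤ α ∧ |p.2.2 - θ'| ≤ α ∧ δ ≤ |Real.sin (p.1.2 - p.2.2)|) →
    ‖ep z₀ θ - ep z₀ θ'‖ ≤ K * α →
    ∫ z, ‖χ z * ext2 m A T k (z + s)‖ ^ 2 ≤ C / (T ^ 2 * δ) * n2 (nYY m) k := by
  obtain ⟨C₀, hC₀, hosc⟩ := osc_far
  obtain ⟨C₁, hC₁, hfar⟩ := far_int
  obtain ⟨c, hc⟩ : ∃ c, c = C₀ * (4096 * (8 * M' * M') * M ^ 4) := ⟨_, rfl⟩
  have hc0 : 0 ≤ c := by
    have : 0 ≤ 8 * M' * M' := by nlinarith [mul_self_nonneg M']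
    rw [hc]; positivity
  refine ⟨c * C₁, by positivity,
    fun m _ A χ z₀ s α K T δ θ θ' k hm hA hχ hα h0 hz hs hK hKα hT hδ hk hsupp hsep => ?_⟩
  have hα1 : 6 * α ≤ 1 / 1000 := by nlinarith
  have hrow : ∀ a b : ℝ, ∫ p : Y × Y, c * (1 / (1 + T * |(p.1.2 - a) - (p.2.2 - b)| +
      T * δ * |(p.1.2 - a) + (p.2.2 - b)|) ^ 3) ∂nYY m ≤ c * C₁ / (T ^ 2 * δ) := by
    intro a b
    rw [integral_const_mul, mul_div_assoc]
    exact mul_le_mul_of_nonneg_left (hfar m hm T δ a b hT hδ) hc0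
  refine boxb_core hA hχ h0 T s hk
    (κ := fun p p' => c * (1 / (1 + T * |(p.1.2 - p'.1.2) - (p.2.2 - p'.2.2)| +
      T * δ * |(p.1.2 - p'.1.2) + (p.2.2 - p'.2.2)|) ^ 3)) ?_ ?_ (b := c) ?_ ?_
    (fun p' => hrow _ _) ?_
  · fun_prop
  · intro p p'
    positivity
  · intro p p'
    refine mul_le_of_le_one_right hc0 ((div_le_one (by positivity)).2 (one_le_pow₀ ?_))
    have h1 : 0 ≤ T * |(p.1.2 - p'.1.2) - (p.2.2 - p'.2.2)| := by positivity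
    have h2 : 0 ≤ T * δ * |(p.1.2 - p'.1.2) + (p.2.2 - p'.2.2)| := by positivity
    linarith
  · intro p
    have e1 : ∀ p' : Y × Y, |(p.1.2 - p'.1.2) - (p.2.2 - p'.2.2)| =
        |(p'.1.2 - p.1.2) - (p'.2.2 - p.2.2)| := fun p' => by rw [← abs_neg]; congr 1; ring
    have e2 : ∀ p' : Y × Y, |(p.1.2 - p'.1.2) + (p.2.2 - p'.2.2)| =
        |(p'.1.2 - p.1.2) + (p'.2.2 - p.2.2)| := fun p' => by rw [← abs_neg]; congr 1; ring
    simp only [e1, e2]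
    exact hrow _ _
  · intro p p' hp hp' B hB hB0
    have e : Ph4 T T p.1.2 p.2.2 p'.2.2 p'.1.2 s s =
        Ph4 T (-T) p.1.2 p.2.2 p'.1.2 p'.2.2 s s := by
      funext z; simp only [Ph4]; ring
    obtain ⟨a1, a2, -⟩ := hsupp p hp
    obtain ⟨b1, b2, b3⟩ := hsupp p' hp'
    have h1 := abs_sub_le p.1.2 θ p'.1.2
    have h2 := abs_sub_le p.2.2 θ' p'.2.2
    rw [abs_sub_comm θ] at h1
    rw [abs_sub_comm θ'] at h2
    have h3 := (ep_sub_bd p'.1.2 p'.2.2 (z := z₀) (by linarith)).1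
    have h4 := ep_lip p'.1.2 θ (z := z₀) (by linarith)
    have h5 := ep_lip θ' p'.2.2 (z := z₀) (by linarith)
    rw [abs_sub_comm θ'] at h5
    have h6 := norm_sub_le_norm_sub_add_norm_sub (ep z₀ p'.1.2) (ep z₀ θ) (ep z₀ p'.2.2)
    have h7 := norm_sub_le_norm_sub_add_norm_sub (ep z₀ θ) (ep z₀ θ') (ep z₀ p'.2.2)
    have h8 := abs_nonneg (Real.sin (p'.1.2 - p'.2.2))
    rw [e]
    refine (hosc B _ T _ _ _ _ (α / 2000) δ z₀ s hB hB0 hz (by positivity) (by linarith) hs hT.le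
      (by linarith) (by linarith) (by linarith) hδ.le b3).trans ?_
    rw [← hc, div_eq_mul_one_div]

/-- duality: with `D = S.indicator (∫ a χ E2)`, `n2 D = ∫ a χ ext2 (conj D)` by `fub_half` -/
theorem dual {m : Measure ℂ} [IsFiniteMeasure m] {A : Y → ℂ → ℂ} {M : ℝ} (hA : Amp M A)
    {χ a : ℂ → ℂ} (hχ : Bd χ) (ha : Bd a) (hi : Integrable a) (T : ℝ) (s : ℂ) {S : Set (Y × Y)}
    (hS : MeasurableSet S) {κ : ℝ} (hκ : 0 ≤ κ)
    (h : ∀ k : Y × Y → ℂ, Bd k → (∀ p, k p ≠ 0 → p ∈ S) →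
      ∫ z, ‖χ z * ext2 m A T k (z + s)‖ ^ 2 ≤ κ * n2 (nYY m) k) :
    n2 (nYY m) (S.indicator fun p => ∫ z, a z * χ z * E2 A T p (z + s)) ≤ κ * ∫ z, ‖a z‖ ^ 2 := by
  obtain ⟨c, hc⟩ := hχ.bd
  obtain ⟨c', hc'⟩ := (hA.bd_E2 T).bd
  have hai : Integrable fun z => a z * χ z :=
    hi.mul_bdd hχ.meas.aestronglyMeasurable (Eventually.of_forall hc)
  have hg : Bd fun p : Y × Y => ∫ z, a z * χ z * E2 A T p (z + s) := by
    have hm1 : Measurable fun q : (Y × Y) × ℂ => E2 A T q.1 (q.2 + s) :=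
      (hA.bd_E2 T).meas.comp (f := fun q : (Y × Y) × ℂ => (q.1, q.2 + s)) (by fun_prop)
    have hm2 : Measurable fun q : (Y × Y) × ℂ => a q.2 * χ q.2 * E2 A T q.1 (q.2 + s) :=
      ((ha.mul hχ).meas.comp measurable_snd).mul hm1
    refine ⟨hm2.stronglyMeasurable.integral_prod_right'.measurable,
      ∫ z, ‖a z * χ z‖ * c', fun p => norm_integral_le_of_norm_le (hai.norm.mul_const _)
        (Eventually.of_forall fun z => ?_)⟩
    rw [norm_mul]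
    exact mul_le_mul_of_nonneg_left (hc' (p, z + s)) (norm_nonneg _)
  obtain ⟨D, hD⟩ : ∃ D, D = S.indicator fun p => ∫ z, a z * χ z * E2 A T p (z + s) := ⟨_, rfl⟩
  rw [← hD]
  have hDb : Bd D := hD ▸ hg.indicator hS
  have hk := h (fun p => conj (D p)) hDb.conj fun p hp => by
    by_contra hpS
    exact hp (by rw [hD, indicator_of_notMem hpS, map_zero])
  have hn : n2 (nYY m) (fun p => conj (D p)) = n2 (nYY m) D := by simp [n2]
  rw [hn] at hk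
  obtain ⟨F, hF⟩ : ∃ F : ℂ → ℂ, F = fun z => χ z * ext2 m A T (fun p => conj (D p)) (z + s) :=
    ⟨_, rfl⟩
  have hFb : Bd F := hF ▸ hχ.mul ((hA.bd_ext2 m T hDb.conj).comp (by fun_prop))
  have hFi : Integrable F := by
    refine boxb_int hFb (z₀ := I - s) (ρ := 1 / 20) fun z hz => ?_
    have hz' : z + s ∉ B0 := by
      rwa [B0, Metric.mem_closedBall, dist_eq_norm, not_le,
        show z + s - I = z - (I - s) by ring]
    simp [hF, ext2, E2, EE, hA.supp _ _ hz']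
  have hsq : ∀ u : ℂ → ℂ, Bd u → Integrable u → Integrable fun z => ‖u z‖ ^ 2 := by
    intro u hu hui
    obtain ⟨b, hb⟩ := hu.bd
    simp only [sq]
    exact hui.norm.mul_bdd hu.meas.norm.aestronglyMeasurable
      (Eventually.of_forall fun z => by simpa using hb z)
  have e1 : ((n2 (nYY m) D : ℝ) : ℂ) = ∫ z, a z * F z := by
    have e2 := fub_half (m := m) hA (ha.mul hχ).meas hai T s hDb.conj
    rw [n2, ← integral_complex_ofReal]
    refine Eq.trans (integral_congr_ae (Eventually.of_forall fun p => ?_))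
      (e2.symm.trans (integral_congr_ae (Eventually.of_forall fun z => ?_)))
    · change ((‖D p‖ ^ 2 : ℝ) : ℂ) = _
      rw [boxb_sq, mul_comm]
      by_cases hp : p ∈ S
      · rw [hD, indicator_of_mem hp]
      · rw [hD, indicator_of_notMem hp, map_zero, zero_mul, zero_mul]
    · rw [hF]
      exact mul_assoc _ _ _
  have hk' : ∫ z, ‖F z‖ ^ 2 ≤ κ * n2 (nYY m) D := by rw [hF]; exact hk
  have hn0 := n2_nonneg (nYY m) D
  have hI : 0 ≤ ∫ z, ‖a z‖ ^ 2 := integral_nonneg fun z => by positivity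
  have key : ∀ l : ℝ, κ < l → n2 (nYY m) D ≤ l * ∫ z, ‖a z‖ ^ 2 := by
    intro l hl
    have hl0 : 0 < l := hκ.trans_lt hl
    have e3 : n2 (nYY m) D ≤ ∫ z, (l / 2 * ‖a z‖ ^ 2 + 1 / (2 * l) * ‖F z‖ ^ 2) := by
      refine (le_abs_self _).trans ?_
      rw [← Real.norm_eq_abs, ← Complex.norm_real, e1]
      refine norm_integral_le_of_norm_le
        (((hsq a ha hi).const_mul _).add ((hsq F hFb hFi).const_mul _))
        (Eventually.of_forall fun z => ?_)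
      have e4 : l / 2 * ‖a z‖ ^ 2 + 1 / (2 * l) * ‖F z‖ ^ 2 - ‖a z‖ * ‖F z‖ =
          (l * ‖a z‖ - ‖F z‖) ^ 2 / (2 * l) := by
        field_simp
        ring
      have e5 : 0 ≤ (l * ‖a z‖ - ‖F z‖) ^ 2 / (2 * l) := by positivity
      rw [norm_mul]
      linarith
    rw [integral_add ((hsq a ha hi).const_mul _) ((hsq F hFb hFi).const_mul _),
      integral_const_mul, integral_const_mul] at e3
    have e6 : 1 / (2 * l) * ∫ z, ‖F z‖ ^ 2 ≤ n2 (nYY m) D / 2 := by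
      rw [one_div, inv_mul_le_iff₀ (by positivity)]
      nlinarith
    linarith
  refine le_of_forall_pos_le_add fun ε hε => ?_
  refine (key (κ + ε / ((∫ z, ‖a z‖ ^ 2) + 1)) (lt_add_of_pos_right _ (by positivity))).trans ?_
  rw [add_mul, div_mul_eq_mul_div]
  gcongr
  rw [div_le_iff₀ (by positivity)]
  nlinarith

/-- first moment over the family: Cauchy-Schwarz in `(j, y')`, Bessel in `y` -/
theorem var {m : Measure ℂ} [IsFiniteMeasure m] {N T : ℝ} (hN : 0 ≤ N) (hT : 0 ≤ T) {ι : Type}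
    {J : Finset ι} {w : ι → Y → ℂ} (hw : Pack m N T J w) {D : Y × Y → ℂ} (hD : Bd D) :
    ∑ j ∈ J, ‖∫ p, tens (w j) (w j) p * D p ∂nYY m‖ ≤
      √(N * T ^ 2) * √(N * T * n2 (nYY m) D) := by
  have hG : ∀ j ∈ J, Bd fun y' : Y => ∫ y, w j y * D (y, y') ∂nY m := fun j hj =>
    Bd.integral (u := fun q : Y × Y => w j q.2 * D (q.2, q.1))
      (((hw.bd j hj).comp measurable_snd).mul (hD.comp measurable_swap)) _
  have h1 : ∀ j ∈ J, ‖∫ p, tens (w j) (w j) p * D p ∂nYY m‖ ≤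
      √(n2 (nY m) (w j)) * √(n2 (nY m) fun y' : Y => ∫ y, w j y * D (y, y') ∂nY m) := by
    intro j hj
    refine le_trans ?_ (cs (nY m) (hw.bd j hj) (hG j hj))
    rw [nYY, integral_prod_symm _ ((((hw.bd j hj).tens (hw.bd j hj)).mul hD).integrable _)]
    refine (norm_integral_le_integral_norm _).trans (le_of_eq (integral_congr_ae
      (Eventually.of_forall fun y' => ?_)))
    have e : ∀ y, tens (w j) (w j) (y, y') * D (y, y') = conj (w j y') * (w j y * D (y, y')) :=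
      fun y => by simp only [tens]; ring
    simp only [e]
    rw [integral_const_mul, norm_mul, Complex.norm_conj]
  refine (Finset.sum_le_sum h1).trans ((Real.sum_sqrt_mul_sqrt_le J (fun j => n2_nonneg _ _)
    fun j => n2_nonneg _ _).trans ?_)
  refine mul_le_mul (Real.sqrt_le_sqrt hw.mass) (Real.sqrt_le_sqrt ?_) (Real.sqrt_nonneg _)
    (Real.sqrt_nonneg _)
  have hi := hD.integrable_sq ((nY m).prod (nY m))
  simp only [n2]
  rw [← integral_finsetSum _ fun j hj => (hG j hj).integrable_sq _, nYY, integral_prod_symm _ hi,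
    ← integral_const_mul]
  refine integral_mono (integrable_finsetSum _ fun j hj => (hG j hj).integrable_sq _)
    (hi.integral_prod_right.const_mul _) fun y' => ?_
  exact hw.bes (fun y => D (y, y')) (hD.comp (by fun_prop))

/-! Boxes treated by the Bessel inequality.  Put `a = χ₁ * ext2 t (tens w₁ w₂)`, so that
`∫ ‖a‖² ≤ C / t² * n2 w₁ * n2 w₂` (`ext2_TT` with `s = 0`, `n2_tens`).  By `fub_half`,
`XX ... k = ∫ k p * (∫ a χ₂ E2 T p (z + s))`; for `k = S.indicator (tens (w j) (w j))` this is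
`∫ tens (w j) (w j) p * D p` with `D = S.indicator (...)`; apply `var`, `dual`.
`tens (S₃.indicator w) (S₄.indicator w) = (S₃ ×ˢ S₄).indicator (tens w w)`.
For `box_TP` split `k` into the part `|sin| ≤ α t / T` (`box_near`, and
`∑ √(n2 w₃) √(n2 w₄) ≤ ∑ n2 (w j) ≤ N T²`) and the rest (`ext2_TP` with `δ = α t / T`);
`ext2_add`. -/

theorem boxc_bd_chi {M' : ℝ} {χ : ℂ → ℂ} (h : C3 M' χ) : Bd χ :=
  ⟨h.cont.measurable, M', h.norm_le⟩

theorem boxc_int_chi {M' ρ : ℝ} {χ : ℂ → ℂ} {z₀ : ℂ} (h : C3 M' χ)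
    (hs : ∀ z, ρ < ‖z - z₀‖ → χ z = 0) : Integrable χ := by
  refine h.cont.integrable_of_hasCompactSupport
    (HasCompactSupport.intro (isCompact_closedBall z₀ ρ) fun z hz => hs z ?_)
  rwa [Metric.mem_closedBall, dist_eq_norm, not_le] at hz

theorem boxc_int_mul {a u : ℂ → ℂ} (hi : Integrable a) (hu : Bd u) :
    Integrable fun z => a z * u z := by
  obtain ⟨B, hB⟩ := hu.bd
  exact hi.mul_bdd hu.meas.aestronglyMeasurable (ae_of_all _ hB)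

theorem boxc_bd_int {A : Y → ℂ → ℂ} {M : ℝ} (hA : Amp M A) {a : ℂ → ℂ} (ha : Measurable a)
    (hi : Integrable a) (T : ℝ) (s : ℂ) :
    Bd fun p : Y × Y => ∫ z, a z * E2 A T p (z + s) := by
  obtain ⟨hm, B, hB⟩ := hA.bd_E2 T
  have h1 : Measurable fun q : (Y × Y) × ℂ => a q.2 * E2 A T q.1 (q.2 + s) :=
    ((ha.comp measurable_snd).mul
      (hm.comp (measurable_fst.prodMk (measurable_snd.add_const s))) :)
  refine ⟨h1.stronglyMeasurable.integral_prod_right'.measurable, ∫ z, ‖a z‖ * B, fun p => ?_⟩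
  refine norm_integral_le_of_norm_le (hi.norm.mul_const B) (ae_of_all _ fun z => ?_)
  rw [norm_mul]
  exact mul_le_mul_of_nonneg_left (hB (p, z + s)) (norm_nonneg _)

theorem boxc_core {m : Measure ℂ} [IsFiniteMeasure m] {A : Y → ℂ → ℂ} {M : ℝ} (hA : Amp M A)
    {χ a : ℂ → ℂ} (hχ : Bd χ) (ha : Bd a) (hi : Integrable a) {N T : ℝ} (hN : 0 ≤ N) (hT : 0 ≤ T)
    (s : ℂ) {S : Set (Y × Y)} (hS : MeasurableSet S) {κ : ℝ} (hκ : 0 ≤ κ)
    (h : ∀ k : Y × Y → ℂ, Bd k → (∀ p, k p ≠ 0 → p ∈ S) →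
      ∫ z, ‖χ z * ext2 m A T k (z + s)‖ ^ 2 ≤ κ * n2 (nYY m) k)
    {ι : Type} {J : Finset ι} {w : ι → Y → ℂ} (hw : Pack m N T J w) {B : ℝ}
    (hB : ∫ z, ‖a z‖ ^ 2 ≤ B) :
    ∑ j ∈ J, ‖∫ z, a z * χ z * ext2 m A T (S.indicator (tens (w j) (w j))) (z + s)‖ ≤
      √(N * T ^ 2) * √(N * T * (κ * B)) := by
  have hi' : Integrable fun z => a z * χ z := boxc_int_mul hi hχ
  have hm' : Measurable fun z => a z * χ z := ha.meas.mul hχ.meas
  have hD : Bd (S.indicator fun p : Y × Y => ∫ z, a z * χ z * E2 A T p (z + s)) :=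
    (boxc_bd_int hA hm' hi' T s).indicator hS
  have h1 := var hN hT hw hD
  have h2 := dual hA hχ ha hi T s hS hκ h
  refine le_trans (le_of_eq (Finset.sum_congr rfl fun j hj => ?_)) (h1.trans ?_)
  · rw [fub_half hA hm' hi' T s (((hw.bd j hj).tens (hw.bd j hj)).indicator hS)]
    congr 2
    ext p
    by_cases hp : p ∈ S <;> simp [hp]
  · refine mul_le_mul_of_nonneg_left (Real.sqrt_le_sqrt ?_) (Real.sqrt_nonneg _)
    exact mul_le_mul_of_nonneg_left (h2.trans (mul_le_mul_of_nonneg_left hB hκ))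
      (mul_nonneg hN hT)

theorem boxc_tens (S₃ S₄ : Set Y) (w w' : Y → ℂ) :
    tens (S₃.indicator w) (S₄.indicator w') = (S₃ ×ˢ S₄).indicator (tens w w') := by
  ext p
  by_cases h3 : p.1 ∈ S₃ <;> by_cases h4 : p.2 ∈ S₄ <;> simp [tens, h3, h4, Set.indicator]

theorem boxc_in {θ₁ θ₂ α : ℝ} {w₁ w₂ : Y → ℂ} (h₁ : In θ₁ α w₁) (h₂ : In θ₂ α w₂) (p : Y × Y)
    (hp : tens w₁ w₂ p ≠ 0) : |p.1.2 - θ₁| ≤ α ∧ |p.2.2 - θ₂| ≤ α := by
  rw [tens, mul_ne_zero_iff, map_ne_zero] at hp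
  exact ⟨h₁ _ hp.1, h₂ _ hp.2⟩

theorem boxc_XX (m : Measure ℂ) (A : Y → ℂ → ℂ) (χ₁ χ₂ : ℂ → ℂ) (t T : ℝ) (s : ℂ)
    (k k' : Y × Y → ℂ) : XX m A (fun z => χ₁ z * χ₂ z) t T s k k' =
      ∫ z, χ₁ z * ext2 m A t k z * χ₂ z * ext2 m A T k' (z + s) := by
  unfold XX
  congr 1
  ext z
  ring

theorem boxc_sqrt {x y u v c : ℝ} (hx : 0 ≤ x) (hu : 0 ≤ u) (_hv : 0 ≤ v) (hc : 0 ≤ c)
    (h : x * y = c ^ 2 * (u * v)) : √x * √y = c * (√u * √v) := by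
  rw [← Real.sqrt_mul hx, h, Real.sqrt_mul (sq_nonneg c), Real.sqrt_sq hc, Real.sqrt_mul hu]

theorem box_TT (M M' α N : ℝ) : ∃ C : ℝ, 0 ≤ C ∧ ∀ (m : Measure ℂ) [IsFiniteMeasure m]
    (A : Y → ℂ → ℂ) (χ₁ χ₂ : ℂ → ℂ) (z₀ s : ℂ) (K t T θ₁ θ₂ θ₃ θ₄ : ℝ) (w₁ w₂ : Y → ℂ)
    (ι : Type) (J : Finset ι) (w : ι → Y → ℂ) (S₃ S₄ : Set Y),
    Cell M M' α m A χ₁ χ₂ z₀ → ‖s‖ ≤ α / 2000 → 20 ≤ K → 0 ≤ N → 1 ≤ t → 1 ≤ T →
    Bd w₁ → Bd w₂ → In θ₁ α w₁ → In θ₂ α w₂ → Pack m N T J w → Box θ₃ α S₃ → Box θ₄ α S₄ →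
    K * α ≤ ‖ep z₀ θ₁ ^ 2 - ep z₀ θ₂ ^ 2‖ → K * α ≤ ‖ep z₀ θ₃ ^ 2 - ep z₀ θ₄ ^ 2‖ →
    ∑ j ∈ J, ‖XX m A (fun z => χ₁ z * χ₂ z) t T s (tens w₁ w₂)
        (tens (S₃.indicator (w j)) (S₄.indicator (w j)))‖ ≤
      C * √T / t * (√(n2 (nY m) w₁) * √(n2 (nY m) w₂)) := by
  obtain ⟨C, hC, H⟩ := ext2_TT M M' α
  refine ⟨|N| * C, by positivity, ?_⟩
  intro m _ A χ₁ χ₂ z₀ s K t T θ₁ θ₂ θ₃ θ₄ w₁ w₂ ι J w S₃ S₄ hc hs hK hN ht hT b₁ b₂ i₁ i₂ hw
    h₃ h₄ g₁ g₂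
  have ht0 : 0 < t := by linarith
  have hT0 : 0 < T := by linarith
  have hα := hc.pos
  have hB := H m A χ₁ z₀ 0 K t θ₁ θ₂ (tens w₁ w₂) hc.sub hc.amp hc.c1 hα hc.s1 hc.ctr
    (by rw [norm_zero]; positivity) hK ht0 (b₁.tens b₂) (boxc_in i₁ i₂) g₁
  simp only [add_zero] at hB
  rw [n2_tens m b₁ b₂] at hB
  have hb := hc.amp.bd_ext2 m t (b₁.tens b₂)
  have h1 := boxc_core hc.amp (boxc_bd_chi hc.c2) ((boxc_bd_chi hc.c1).mul hb)
    (boxc_int_mul (boxc_int_chi hc.c1 hc.s1) hb) hN hT0.le s (h₃.meas.prod h₄.meas)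
    (κ := C / T ^ 2) (by positivity)
    (fun k hk hp => H m A χ₂ z₀ s K T θ₃ θ₄ k hc.sub hc.amp hc.c2 hα hc.s2 hc.ctr hs hK hT0 hk
      (fun p h => ⟨h₃.near _ (hp p h).1, h₄.near _ (hp p h).2⟩) g₂) hw hB
  simp only [boxc_XX, boxc_tens]
  refine h1.trans (le_of_eq (boxc_sqrt (by positivity) (n2_nonneg _ _) (n2_nonneg _ _)
    (by positivity) ?_))
  rw [abs_of_nonneg hN, div_pow, mul_pow, Real.sq_sqrt hT0.le]
  field_simp

theorem box_TP (M M' α N : ℝ) : ∃ C : ℝ, 0 ≤ C ∧ ∀ (m : Measure ℂ) [IsFiniteMeasure m]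
    (A : Y → ℂ → ℂ) (χ₁ χ₂ : ℂ → ℂ) (z₀ s : ℂ) (K t T θ₁ θ₂ θ₃ θ₄ : ℝ) (w₁ w₂ : Y → ℂ)
    (ι : Type) (J : Finset ι) (w : ι → Y → ℂ) (S₃ S₄ : Set Y),
    Cell M M' α m A χ₁ χ₂ z₀ → ‖s‖ ≤ α / 2000 → 20 ≤ K → (K + 6) * α ≤ 1 / 1000 → 0 ≤ N →
    1 ≤ t → 1 ≤ T →
    Bd w₁ → Bd w₂ → In θ₁ α w₁ → In θ₂ α w₂ → Pack m N T J w → Box θ₃ α S₃ → Box θ₄ α S₄ →
    K * α ≤ ‖ep z₀ θ₁ ^ 2 - ep z₀ θ₂ ^ 2‖ → ‖ep z₀ θ₃ - ep z₀ θ₄‖ ≤ K * α →
    ∑ j ∈ J, ‖XX m A (fun z => χ₁ z * χ₂ z) t T s (tens w₁ w₂)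
        (tens (S₃.indicator (w j)) (S₄.indicator (w j)))‖ ≤
      C * T / (t * √t) * (√(n2 (nY m) w₁) * √(n2 (nY m) w₂)) := by
  obtain ⟨C₁, hC₁, H₁⟩ := ext2_TT M M' α
  obtain ⟨C₂, hC₂, H₂⟩ := box_near M M' α
  obtain ⟨C₃, hC₃, H₃⟩ := ext2_TP M M'
  refine ⟨|N| * C₂ + |N| * √(C₁ * C₃ / α), by positivity, ?_⟩
  intro m _ A χ₁ χ₂ z₀ s K t T θ₁ θ₂ θ₃ θ₄ w₁ w₂ ι J w S₃ S₄ hc hs hK hKα hN ht hT b₁ b₂ i₁ i₂ hw
    h₃ h₄ g₁ g₂
  have ht0 : 0 < t := by linarith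
  have hT0 : 0 < T := by linarith
  have hα := hc.pos
  have hδ : 0 < α * t / T := by positivity
  have hB := H₁ m A χ₁ z₀ 0 K t θ₁ θ₂ (tens w₁ w₂) hc.sub hc.amp hc.c1 hα hc.s1 hc.ctr
    (by rw [norm_zero]; positivity) hK ht0 (b₁.tens b₂) (boxc_in i₁ i₂) g₁
  simp only [add_zero] at hB
  rw [n2_tens m b₁ b₂] at hB
  have hb := hc.amp.bd_ext2 m t (b₁.tens b₂)
  have hia := boxc_int_mul (boxc_int_chi hc.c1 hc.s1) hb
  obtain ⟨P, hP⟩ : ∃ P : Set (Y × Y), P = {p | |Real.sin (p.1.2 - p.2.2)| ≤ α * t / T} := ⟨_, rfl⟩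
  have hPm : MeasurableSet P := by
    rw [hP]
    exact measurableSet_le (by fun_prop) measurable_const
  have hSm : MeasurableSet ((S₃ ×ˢ S₄) ∩ Pᶜ) := (h₃.meas.prod h₄.meas).inter hPm.compl
  have h1 := boxc_core hc.amp (boxc_bd_chi hc.c2) ((boxc_bd_chi hc.c1).mul hb)
    hia hN hT0.le s hSm (κ := C₃ / (T ^ 2 * (α * t / T))) (by positivity)
    (fun k hk hp => H₃ m A χ₂ z₀ s α K T (α * t / T) θ₃ θ₄ k hc.sub hc.amp hc.c2 hα hc.s2 hc.ctr
      hs (by linarith) hKα hT0 hδ hk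
      (fun p h => ⟨h₃.near _ (hp p h).1.1, h₄.near _ (hp p h).1.2, by
        have := (hp p h).2
        rw [hP, mem_compl_iff, mem_ofPred_eq, not_le] at this
        exact this.le⟩) g₂) hw hB
  have hst : 0 < √t := Real.sqrt_pos.2 ht0
  have h2 : √(N * T ^ 2) * √(N * T * (C₃ / (T ^ 2 * (α * t / T)) *
      (C₁ / t ^ 2 * (n2 (nY m) w₁ * n2 (nY m) w₂)))) =
      |N| * √(C₁ * C₃ / α) * T / (t * √t) * (√(n2 (nY m) w₁) * √(n2 (nY m) w₂)) := by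
    refine boxc_sqrt (by positivity) (n2_nonneg _ _) (n2_nonneg _ _) (by positivity) ?_
    rw [abs_of_nonneg hN, div_pow, mul_pow, mul_pow, mul_pow, Real.sq_sqrt ht0.le,
      Real.sq_sqrt (by positivity)]
    generalize n2 (nY m) w₁ * n2 (nY m) w₂ = x
    field_simp
  have hsplit : ∀ j ∈ J, ‖XX m A (fun z => χ₁ z * χ₂ z) t T s (tens w₁ w₂)
      (tens (S₃.indicator (w j)) (S₄.indicator (w j)))‖ ≤
      C₂ / (t ^ 2 * T) * (√(n2 (nY m) w₁) * √(n2 (nY m) w₂)) * n2 (nY m) (w j) +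
      ‖∫ z, χ₁ z * ext2 m A t (tens w₁ w₂) z * χ₂ z *
        ext2 m A T (((S₃ ×ˢ S₄) ∩ Pᶜ).indicator (tens (w j) (w j))) (z + s)‖ := by
    intro j hj
    have bj := hw.bd j hj
    have b₃ := bj.indicator h₃.meas
    have b₄ := bj.indicator h₄.meas
    have k₁ := (b₃.tens b₄).indicator hPm
    have k₂ := (bj.tens bj).indicator hSm
    have hn := H₂ m A χ₁ χ₂ z₀ s K t T θ₁ θ₂ w₁ w₂ _ _ hc hs hK ht hT b₁ b₂ b₃ b₄ i₁ i₂ g₁
    rw [← hP, boxc_XX] at hn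
    have he : tens (S₃.indicator (w j)) (S₄.indicator (w j)) = fun p =>
        P.indicator (tens (S₃.indicator (w j)) (S₄.indicator (w j))) p +
        ((S₃ ×ˢ S₄) ∩ Pᶜ).indicator (tens (w j) (w j)) p := by
      ext p
      rw [boxc_tens]
      by_cases hp : p ∈ P <;> by_cases hq : p ∈ S₃ ×ˢ S₄ <;> simp [hp, hq, Set.indicator]
    have hi2 := boxc_int_mul hia (boxc_bd_chi hc.c2)
    have hsh : Measurable fun z : ℂ => z + s := measurable_add_const s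
    rw [boxc_XX, he]
    simp only [ext2_add hc.amp T k₁ k₂, mul_add]
    rw [integral_add (boxc_int_mul hi2 ((hc.amp.bd_ext2 m T k₁).comp hsh))
      (boxc_int_mul hi2 ((hc.amp.bd_ext2 m T k₂).comp hsh))]
    refine (norm_add_le _ _).trans (add_le_add (hn.trans ?_) le_rfl)
    rw [← mul_assoc]
    refine mul_le_mul_of_nonneg_left ?_ (by positivity)
    refine (mul_le_mul (Real.sqrt_le_sqrt (n2_indicator_le _ bj h₃.meas))
      (Real.sqrt_le_sqrt (n2_indicator_le _ bj h₄.meas)) (Real.sqrt_nonneg _)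
      (Real.sqrt_nonneg _)).trans (le_of_eq (Real.mul_self_sqrt (n2_nonneg _ _)))
  refine (Finset.sum_le_sum hsplit).trans ?_
  rw [Finset.sum_add_distrib, ← Finset.mul_sum, add_mul, add_div, add_mul]
  refine add_le_add ?_ (h1.trans h2.le)
  refine (mul_le_mul_of_nonneg_left hw.mass (by positivity)).trans ?_
  rw [mul_right_comm, abs_of_nonneg hN]
  refine mul_le_mul_of_nonneg_right ?_ (by positivity)
  have h3 : C₂ / (t ^ 2 * T) * (N * T ^ 2) = N * C₂ * T / (t * t) := by field_simp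
  rw [h3]
  refine div_le_div_of_nonneg_left (by positivity) (by positivity)
    (mul_le_mul_of_nonneg_left ?_ ht0.le)
  rw [Real.sqrt_le_left ht0.le, sq]
  exact le_mul_of_one_le_right ht0.le ht

end Pool.Agent.MP_a28cf0_nt.Dec

end
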