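import Pool.Agent.MP_a28cf0_nt.Dec.Defs

-- part MP_a28cf0_nt.Dec.Base
section

set_option autoImplicit false

namespace Pool.Agent.MP_a28cf0_nt.Dec

open MeasureTheory Complex Filter Topology Set
open scoped ENNReal MatrixGroups ComplexConjugate
open Pool.Agent.MP_a28cf0_nt.Cub

/-! Moebius action and hyperbolic area.
Hints: `mul_apply'`, `E_ext`, `pr`, `dt_mul`, `exists_inv`, `kan`, `mp_mul_nu`, `inv_of_gen`,
`act_eq_mul` of the `Cub` library.  For `mp_mb`: rescale `A` to determinant one (`mb_smul`), then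
`nu.map pr` is invariant because `pr (mul A M) = mb A (pr M)` on `Gp` and `mp_mul_nu`. -/

theorem mb_eq (A : E) (w : ℂ) :
    mb A w = ((A.1.im : ℂ) * w + (A.1.re : ℂ)) / ((A.2.im : ℂ) * w + (A.2.re : ℂ)) := by
  simp only [mb, pr, mul, real_smul, mul_one]

theorem den_ne {A : E} (hA : A ∈ Gp) {w : ℂ} (hw : w ∈ Up) :
    (A.2.im : ℂ) * w + (A.2.re : ℂ) ≠ 0 := by
  intro h
  have h1 := congrArg Complex.im h
  have h2 := congrArg Complex.re h
  have hw' : 0 < w.im := hw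
  have hA' : 0 < dt A := hA
  simp only [add_im, mul_im, ofReal_re, ofReal_im, zero_mul, add_zero, zero_im, add_re, mul_re,
    sub_zero, zero_re] at h1 h2
  have h3 : A.2.im = 0 := (mul_eq_zero.1 h1).resolve_right hw'.ne'
  rw [h3, zero_mul, zero_add] at h2
  simp [dt, h2, h3] at hA'

theorem im_mb (A : E) (w : ℂ) :
    (mb A w).im = dt A * w.im / normSq ((A.2.im : ℂ) * w + (A.2.re : ℂ)) := by
  rw [mb_eq, div_im]
  simp only [add_im, mul_im, ofReal_re, ofReal_im, zero_mul, add_zero, add_re, mul_re,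
    sub_zero, dt]
  ring

theorem mb_mem {A : E} (hA : A ∈ Gp) {w : ℂ} (hw : w ∈ Up) : mb A w ∈ Up := by
  show 0 < (mb A w).im
  rw [im_mb]
  exact div_pos (mul_pos hA hw) (normSq_pos.2 (den_ne hA hw))

theorem pr_mul (A : E) {M : E} (hM : M ∈ Gp) : pr (mul A M) = mb A (pr M) := by
  have h := snd_ne_zero hM
  rw [mb_eq]
  simp only [pr, mul, real_smul]
  rw [← mul_div_mul_right ((A.1.im : ℂ) * (M.1 / M.2) + (A.1.re : ℂ)) _ h]
  congr 1 <;> field_simp

theorem mb_mul (A : E) {B : E} (hB : B ∈ Gp) {w : ℂ} (hw : w ∈ Up) :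
    mb (mul A B) w = mb A (mb B w) := by
  have h : mul B (w, 1) ∈ Gp := by
    show 0 < dt _
    rw [dt_mul]
    exact mul_pos hB (by simpa [dt] using (show 0 < w.im from hw))
  rw [mb, mul_assoc', pr_mul A h]; rfl

theorem mb_one (w : ℂ) : mb one w = w := by
  simp [mb_eq, one]

theorem mb_I (M : E) : mb M I = pr M := by
  rw [mb, show ((I, 1) : E) = one from rfl, mul_one']

theorem mb_aff (z w : ℂ) : mb (z, 1) w = (z.im : ℂ) * w + (z.re : ℂ) := by
  simp [mb_eq]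

theorem aff_mem {z : ℂ} (hz : z ∈ Up) : ((z, 1) : E) ∈ Gp := by
  show 0 < dt _
  simpa [dt] using (show 0 < z.im from hz)

theorem pr_aff (z : ℂ) : pr ((z, 1) : E) = z := by
  simp [pr]

theorem mb_smul {s : ℝ} (hs : s ≠ 0) (A : E) (w : ℂ) : mb (s • A) w = mb A w := by
  have h : (s : ℂ) ≠ 0 := by exact_mod_cast hs
  obtain ⟨h1, h2, h3, h4⟩ := smul_apply' s A
  rw [mb_eq, mb_eq, h1, h2, h3, h4, ← mul_div_mul_left ((A.1.im : ℂ) * w + (A.1.re : ℂ)) _ h]
  congr 1 <;> push_cast <;> ring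

theorem mul_mem {A B : E} (hA : A ∈ Gp) (hB : B ∈ Gp) : mul A B ∈ Gp := by
  show 0 < dt _
  rw [dt_mul]; exact mul_pos hA hB

theorem mul_kk (M : E) (θ : ℝ) : mul M (kk θ) = rot θ M := by
  rw [kk, mul_rot, mul_one']

theorem dt_kk (θ : ℝ) : dt (kk θ) = 1 := by
  rw [kk, dt_rot, dt_one]

theorem kk_mem (θ : ℝ) : kk θ ∈ Gp := by
  show 0 < dt _
  rw [dt_kk]; exact one_pos

theorem kk_add (a b : ℝ) : mul (kk a) (kk b) = kk (a + b) := by
  rw [mul_kk, kk, rot_rot, add_comm]; rfl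

theorem kk_zero : kk 0 = one := rot_zero one

theorem hyp_kk (θ : ℝ) : (kk θ).1.re = -Real.sin θ ∧ (kk θ).1.im = Real.cos θ ∧
    (kk θ).2.re = Real.cos θ ∧ (kk θ).2.im = Real.sin θ := by
  obtain ⟨h1, h2, h3, h4⟩ := rot_apply θ one
  rw [kk, h1, h2, h3, h4]
  simp [one]

theorem mb_kk (θ : ℝ) (w : ℂ) :
    mb (kk θ) w = (w * (Real.cos θ : ℂ) - (Real.sin θ : ℂ)) / jj θ w := by
  obtain ⟨h1, h2, h3, h4⟩ := hyp_kk θ
  rw [mb_eq, h1, h2, h3, h4, jj]
  congr 1 <;> push_cast <;> ring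

theorem im_mb_kk (θ : ℝ) (w : ℂ) : (mb (kk θ) w).im = PP θ w := by
  obtain ⟨-, -, h3, h4⟩ := hyp_kk θ
  rw [im_mb, dt_kk, one_mul, h3, h4, PP, jj, mul_comm w]

theorem mb_kk_I (θ : ℝ) : mb (kk θ) I = I := by
  rw [mb_I, kk, pr_rot]; simp [pr, one]

theorem mb_rot {M : E} (θ : ℝ) {w : ℂ} (hw : w ∈ Up) :
    mb (rot θ M) w = mb M (mb (kk θ) w) := by
  rw [← mul_kk, mb_mul M (kk_mem θ) hw]

theorem mb_kk_kk (a b : ℝ) {w : ℂ} (hw : w ∈ Up) :
    mb (kk a) (mb (kk b) w) = mb (kk (a + b)) w := by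
  rw [← mb_mul _ (kk_mem b) hw, kk_add]

theorem PP_mb_kk (a b : ℝ) {w : ℂ} (hw : w ∈ Up) : PP a (mb (kk b) w) = PP (a + b) w := by
  rw [← im_mb_kk, ← im_mb_kk, mb_kk_kk a b hw]

theorem kk_per (θ : ℝ) : kk (θ + 2 * Real.pi) = kk θ := by
  simp only [kk, rot]
  congr 1
  push_cast
  rw [add_mul, Complex.exp_add, Complex.exp_two_pi_mul_I, mul_one]

theorem act_one_mem (γ : SL(2, ℤ)) : act γ one ∈ Gp := act_mem (show 0 < dt one by rw [dt_one]; exact one_pos) γ

theorem dt_act_one (γ : SL(2, ℤ)) : dt (act γ one) = 1 := by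
  rw [dt_act, dt_one]

theorem pr_act_mb (γ : SL(2, ℤ)) {M : E} (hM : M ∈ Gp) :
    pr (act γ M) = mb (act γ one) (pr M) := by
  rw [act_eq_mul, pr_mul _ hM]

theorem mb_act (γ : SL(2, ℤ)) {M : E} (hM : M ∈ Gp) {w : ℂ} (hw : w ∈ Up) :
    mb (act γ M) w = mb (act γ one) (mb M w) := by
  rw [act_eq_mul, mb_mul _ hM hw]

theorem mb_act_act (γ γ' : SL(2, ℤ)) {w : ℂ} (hw : w ∈ Up) :
    mb (act (γ * γ') one) w = mb (act γ one) (mb (act γ' one) w) := by
  rw [act_mul, mb_act γ (act_one_mem γ') hw]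

theorem hyp_act (γ : SL(2, ℤ)) : (act γ one).1.re = (γ 0 1 : ℝ) ∧ (act γ one).1.im = (γ 0 0 : ℝ) ∧
    (act γ one).2.re = (γ 1 1 : ℝ) ∧ (act γ one).2.im = (γ 1 0 : ℝ) := by
  obtain ⟨h1, h2, h3, h4⟩ := act_apply γ one
  rw [h1, h2, h3, h4]
  simp [one]

theorem hyp_mb_act (γ : SL(2, ℤ)) (w : ℂ) :
    mb (act γ one) w = ((γ 0 0 : ℂ) * w + (γ 0 1 : ℂ)) / ((γ 1 0 : ℂ) * w + (γ 1 1 : ℂ)) := by
  obtain ⟨h1, h2, h3, h4⟩ := hyp_act γ
  rw [mb_eq, h1, h2, h3, h4]
  simp only [ofReal_intCast]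

theorem Inv.mb {α : Type} {F : ℂ → α} (h : Inv F) (γ : SL(2, ℤ)) {w : ℂ} (hw : w ∈ Up) :
    F (mb (act γ one) w) = F w := by
  have h1 := inv_of_gen h γ (aff_mem hw)
  rwa [pr_act_mb γ (aff_mem hw), pr_aff] at h1

theorem inv_of_mb {α : Type} {F : ℂ → α}
    (h : ∀ (γ : SL(2, ℤ)), ∀ w ∈ Up, F (mb (act γ one) w) = F w) : Inv F := by
  intro z hz
  constructor
  · rw [← h ModularGroup.T z hz, hyp_mb_act]
    congr 1
    simp [ModularGroup.T]
  · rw [← h ModularGroup.S z hz, hyp_mb_act]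
    congr 1
    simp [ModularGroup.S, div_eq_mul_inv]

theorem exists_fd' {z : ℂ} (hz : z ∈ Up) : ∃ γ : SL(2, ℤ), mb (act γ one) z ∈ Fd := by
  obtain ⟨γ, hγ⟩ := exists_fd (aff_mem hz)
  rw [pr_act_mb γ (aff_mem hz), pr_aff] at hγ
  exact ⟨γ, hγ⟩

theorem Fd_sub : Fd ⊆ Up := fun _ h => h.1

theorem Fd_im {z : ℂ} (hz : z ∈ Fd) : 4 / 5 ≤ z.im := by
  obtain ⟨hy, hx, hn⟩ := hz
  have h1 : 1 ≤ z.re ^ 2 + z.im ^ 2 := by
    have := one_le_pow₀ (n := 2) hn
    rwa [Complex.sq_norm, normSq_apply, ← sq, ← sq] at this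
  have h2 : z.re ^ 2 ≤ 1 / 4 := by
    have := abs_le.1 hx; nlinarith [this.1, this.2]
  nlinarith

/-- the height of an orbit is bounded on compact sets -/
theorem ht_bound {K : Set ℂ} (hK : IsCompact K) (hU : K ⊆ Up) :
    ∃ H : ℝ, 1 ≤ H ∧ ∀ z ∈ K, ∀ γ : SL(2, ℤ), (mb (act γ one) z).im ≤ H := by
  have hc : ContinuousOn (fun z : ℂ => z.im + z.im⁻¹) K :=
    continuous_im.continuousOn.add
      (continuous_im.continuousOn.inv₀ fun z hz => (show 0 < z.im from hU hz).ne')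
  obtain ⟨C, hC⟩ := hK.bddAbove_image hc
  refine ⟨max 1 C, le_max_left _ _, fun z hz γ => le_trans ?_ (le_max_right _ _)⟩
  refine le_trans ?_ (hC (mem_image_of_mem _ hz))
  have hy : 0 < z.im := hU hz
  obtain ⟨-, -, h3, h4⟩ := hyp_act γ
  rw [im_mb, dt_act_one, one_mul, h3, h4]
  have hn : normSq (((γ 1 0 : ℝ) : ℂ) * z + ((γ 1 1 : ℝ) : ℂ)) =
      ((γ 1 0 : ℝ) * z.re + (γ 1 1 : ℝ)) ^ 2 + ((γ 1 0 : ℝ) * z.im) ^ 2 := by
    simp only [normSq_apply, add_im, mul_im, ofReal_re, ofReal_im, zero_mul, add_zero, add_re,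
      mul_re, sub_zero]
    ring
  rw [hn]
  have key : ∀ n : ℤ, n ≠ 0 → (1 : ℝ) ≤ (n : ℝ) ^ 2 := by
    intro n hn
    have h1 : (1 : ℝ) ≤ |(n : ℝ)| := by exact_mod_cast Int.one_le_abs hn
    rw [← sq_abs]; nlinarith
  have hi : 0 < z.im⁻¹ := inv_pos.2 hy
  by_cases hc : γ 1 0 = 0
  · have hd1 : γ 1 1 ≠ 0 := by
      intro h0
      have := det_gamma γ
      rw [hc, h0] at this; simp at this
    have h5 := key _ hd1
    rw [hc]
    simp only [Int.cast_zero, zero_mul, zero_add, ne_eq, OfNat.ofNat_ne_zero, not_false_eq_true,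
      zero_pow, add_zero]
    have : z.im / (γ 1 1 : ℝ) ^ 2 ≤ z.im := div_le_self hy.le h5
    linarith
  · have h5 := key _ hc
    have h6 : z.im ^ 2 ≤ ((γ 1 0 : ℝ) * z.re + (γ 1 1 : ℝ)) ^ 2 + ((γ 1 0 : ℝ) * z.im) ^ 2 := by
      have := mul_le_mul_of_nonneg_right h5 (sq_nonneg z.im)
      nlinarith [sq_nonneg ((γ 1 0 : ℝ) * z.re + (γ 1 1 : ℝ))]
    have h7 := div_le_div_of_nonneg_left hy.le (pow_pos hy 2) h6
    have h8 : z.im / z.im ^ 2 = z.im⁻¹ := by field_simp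
    linarith

theorem isCompact_Fd_le (H : ℝ) : IsCompact {z : ℂ | z ∈ Fd ∧ z.im ≤ H} := by
  have h : {z : ℂ | z ∈ Fd ∧ z.im ≤ H} =
      Metric.closedBall 0 (1 + |H|) ∩
        {z : ℂ | 4 / 5 ≤ z.im ∧ |z.re| ≤ 1 / 2 ∧ 1 ≤ ‖z‖ ∧ z.im ≤ H} := by
    ext z
    constructor
    · rintro ⟨hz, hH⟩
      refine ⟨?_, Fd_im hz, hz.2.1, hz.2.2, hH⟩
      rw [mem_closedBall_zero_iff]
      refine (norm_le_abs_re_add_abs_im z).trans ?_
      rw [abs_of_pos hz.1]
      linarith [hz.2.1, le_abs_self H]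
    · rintro ⟨-, h1, h2, h3, h4⟩
      exact ⟨⟨by linarith, h2, h3⟩, h4⟩
  rw [h]
  refine (isCompact_closedBall _ _).inter_right ?_
  exact (isClosed_le continuous_const continuous_im).inter
    ((isClosed_le continuous_re.abs continuous_const).inter
      ((isClosed_le continuous_const continuous_norm).inter
        (isClosed_le continuous_im continuous_const)))

theorem measurable_mb : Measurable fun p : E × ℂ => mb p.1 p.2 := by
  have h : Continuous fun p : E × ℂ => mul p.1 (p.2, 1) := by fun_prop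
  exact measurable_pr.comp h.measurable

theorem contDiffOn_mb {n : WithTop ℕ∞} :
    ContDiffOn ℝ n (fun p : E × ℂ => mb p.1 p.2) (Gp ×ˢ Up) := by
  have h : ContDiff ℝ n fun p : E × ℂ => mul p.1 (p.2, 1) := by
    have h1 : ContDiff ℝ n fun p : E × ℂ => p.1.1.re :=
      reCLM.contDiff.comp (contDiff_fst.comp contDiff_fst)
    have h2 : ContDiff ℝ n fun p : E × ℂ => p.1.1.im :=
      imCLM.contDiff.comp (contDiff_fst.comp contDiff_fst)
    have h3 : ContDiff ℝ n fun p : E × ℂ => p.1.2.re :=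
      reCLM.contDiff.comp (contDiff_snd.comp contDiff_fst)
    have h4 : ContDiff ℝ n fun p : E × ℂ => p.1.2.im :=
      imCLM.contDiff.comp (contDiff_snd.comp contDiff_fst)
    exact ((h2.smul contDiff_snd).add (h1.smul contDiff_const)).prodMk
      ((h4.smul contDiff_snd).add (h3.smul contDiff_const))
  exact contDiffOn_pr.comp h.contDiffOn fun p hp => mul_mem hp.1 (aff_mem hp.2)

theorem hyp_deriv {A : E} (hA : A ∈ Gp) {w : ℂ} (hw : w ∈ Up) :
    HasDerivAt (mb A) ((dt A : ℂ) / ((A.2.im : ℂ) * w + (A.2.re : ℂ)) ^ 2) w := by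
  have h1 : HasDerivAt (fun w : ℂ => (A.1.im : ℂ) * w + (A.1.re : ℂ)) (A.1.im : ℂ) w := by
    simpa using ((hasDerivAt_id w).const_mul (A.1.im : ℂ)).add_const (A.1.re : ℂ)
  have h2 : HasDerivAt (fun w : ℂ => (A.2.im : ℂ) * w + (A.2.re : ℂ)) (A.2.im : ℂ) w := by
    simpa using ((hasDerivAt_id w).const_mul (A.2.im : ℂ)).add_const (A.2.re : ℂ)
  have h3 := h1.div h2 (den_ne hA hw)
  have h4 : mb A = fun w : ℂ =>
      ((A.1.im : ℂ) * w + (A.1.re : ℂ)) / ((A.2.im : ℂ) * w + (A.2.re : ℂ)) :=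
    funext (mb_eq A)
  rw [h4]
  have h5 : (dt A : ℂ) = (A.1.im : ℂ) * ((A.2.im : ℂ) * w + (A.2.re : ℂ)) -
      ((A.1.im : ℂ) * w + (A.1.re : ℂ)) * (A.2.im : ℂ) := by
    simp only [dt]; push_cast; ring
  rw [h5]
  exact h3

theorem continuousOn_mb {A : E} (hA : A ∈ Gp) : ContinuousOn (mb A) Up := 
  fun _ hw => (hyp_deriv hA hw).continuousAt.continuousWithinAt

theorem hasDerivAt_mb {A : E} (hA : A ∈ Gp) {w : ℂ} (hw : w ∈ Up) :
    HasDerivAt (mb A) ((dt A : ℂ) / ((A.2.im : ℂ) * w + (A.2.re : ℂ)) ^ 2) w := hyp_deriv hA hw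

instance : SFinite muH := by unfold muH; infer_instance

theorem ae_Up : ∀ᵐ w ∂muH, w ∈ Up :=
  (withDensity_absolutelyContinuous _ _).ae_le (ae_restrict_mem isOpen_Up.measurableSet)

theorem kan' : nu.map pr = ENNReal.ofReal (15 * Real.pi / 2) • muH := by
  rw [kan, muH, ← withDensity_smul _ (by fun_prop)]
  congr 1
  funext z
  rw [Pi.smul_apply, smul_eq_mul, ← ENNReal.ofReal_mul (by positivity), mul_one_div]

theorem hypm_c0 : ENNReal.ofReal (15 * Real.pi / 2) ≠ 0 := by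
  rw [ENNReal.ofReal_ne_zero_iff]; positivity

theorem hypm_meas (A : E) : Measurable (mb A) := by
  have : mb A = fun w => ((A.1.im : ℂ) * w + (A.1.re : ℂ)) / ((A.2.im : ℂ) * w + (A.2.re : ℂ)) :=
    funext (mb_eq A)
  rw [this]
  fun_prop

theorem mp_mb {A : E} (hA : A ∈ Gp) : MeasurePreserving (mb A) muH muH := by
  refine ⟨hypm_meas A, ?_⟩
  have hs : (√(dt A))⁻¹ ≠ 0 := inv_ne_zero (Real.sqrt_pos.2 hA).ne'
  have hm := mp_mul_nu (unfoldN_dt hA)
  have h1 : (nu.map pr).map (mb A) = nu.map pr := by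
    rw [Measure.map_map (hypm_meas A) measurable_pr]
    conv_rhs => rw [← hm.map_eq, Measure.map_map measurable_pr hm.measurable]
    refine Measure.map_congr ?_
    filter_upwards [ae_mem_Sh] with M hM
    rw [Function.comp_apply, Function.comp_apply, pr_mul _ (Sh_subset hM), unfoldN, mb_smul hs]
  rw [kan', Measure.map_smul] at h1
  ext s -
  have h2 := congrArg (fun m : Measure ℂ => m s) h1
  simp only [Measure.smul_apply, smul_eq_mul] at h2
  exact (ENNReal.mul_right_inj hypm_c0 ENNReal.ofReal_ne_top).1 h2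

/-- no measurability hypothesis: use the inverse of `A` when `F` is not measurable -/
theorem int_mb {V : Type} [NormedAddCommGroup V] [NormedSpace ℝ V] {A : E} (hA : A ∈ Gp)
    (F : ℂ → V) : ∫ w, F (mb A w) ∂muH = ∫ w, F w ∂muH := by
  by_cases hF : AEStronglyMeasurable F muH
  · rw [← (mp_mb hA).map_eq] at hF
    rw [← integral_map (hypm_meas A).aemeasurable hF, (mp_mb hA).map_eq]
  · obtain ⟨B, hB, h1, -⟩ := exists_inv hA
    rw [integral_non_aestronglyMeasurable hF, integral_non_aestronglyMeasurable]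
    intro h
    refine hF ((h.comp_measurePreserving (mp_mb hB)).congr ?_)
    filter_upwards [ae_Up] with w hw
    rw [Function.comp_apply, ← mb_mul A hB hw, h1, mb_one]

theorem hypm_int {V : Type} [NormedAddCommGroup V] [NormedSpace ℝ V] (F : ℂ → V) (S : Set ℂ) :
    ∫ w, F w ∂((volume.restrict S).withDensity fun z => ENNReal.ofReal (1 / z.im ^ 2)) =
      ∫ w in S, (1 / w.im ^ 2 : ℝ) • F w := by
  refine (integral_withDensity_eq_integral_smul (f := fun z : ℂ => Real.toNNReal (1 / z.im ^ 2))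
    (by fun_prop) F).trans ?_
  congr 1
  funext w
  rw [NNReal.smul_def, Real.coe_toNNReal _ (by positivity)]

theorem hypm_restrict {S : Set ℂ} (hS : MeasurableSet S) (hU : S ⊆ Up) : muH.restrict S =
    (volume.restrict S).withDensity fun z => ENNReal.ofReal (1 / z.im ^ 2) := by
  rw [muH, restrict_withDensity hS, Measure.restrict_restrict hS, inter_eq_left.2 hU]

theorem int_muH {V : Type} [NormedAddCommGroup V] [NormedSpace ℝ V] (F : ℂ → V) :
    ∫ w, F w ∂muH = ∫ w in Up, (1 / w.im ^ 2 : ℝ) • F w :=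
  hypm_int F Up

theorem setInt_muH {V : Type} [NormedAddCommGroup V] [NormedSpace ℝ V] (F : ℂ → V) {S : Set ℂ}
    (hS : MeasurableSet S) (hU : S ⊆ Up) :
    ∫ w in S, F w ∂muH = ∫ w in S, (1 / w.im ^ 2 : ℝ) • F w := by
  rw [hypm_restrict hS hU, hypm_int]

theorem integrableOn_muH {F : ℂ → ℝ} {S : Set ℂ} (hS : MeasurableSet S) (hU : S ⊆ Up) :
    IntegrableOn F S muH ↔ IntegrableOn (fun w => F w / w.im ^ 2) S := by
  rw [IntegrableOn, hypm_restrict hS hU]
  refine (integrable_withDensity_iff_integrable_smul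
    (f := fun z : ℂ => Real.toNNReal (1 / z.im ^ 2)) (by fun_prop)).trans ?_
  refine integrable_congr (Eventually.of_forall fun w => ?_)
  simp only
  rw [NNReal.smul_def, Real.coe_toNNReal _ (by positivity), smul_eq_mul, one_div_mul_eq_div]

theorem muH_compact {K : Set ℂ} (hK : IsCompact K) (hU : K ⊆ Up) : muH K < ⊤ := by
  have h1 : IntegrableOn (fun _ => (1 : ℝ)) K muH := by
    rw [integrableOn_muH hK.measurableSet hU]
    refine ContinuousOn.integrableOn_compact hK ?_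
    exact continuousOn_const.div (by fun_prop) fun z hz => pow_ne_zero _ (ne_of_gt (hU hz))
  simpa using (integrableOn_const_iff (C := (1 : ℝ))).1 h1

theorem aesm_muH {V : Type} [NormedAddCommGroup V] [SecondCountableTopology V] {F : ℂ → V}
    (hF : ContinuousOn F Up) : AEStronglyMeasurable F muH :=
  (hF.aestronglyMeasurable isOpen_Up.measurableSet).mono_ac (withDensity_absolutelyContinuous _ _)

theorem integrable_muH {V : Type} [NormedAddCommGroup V] [SecondCountableTopology V] {F : ℂ → V}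
    (hF : ContinuousOn F Up) {K : Set ℂ} (hK : IsCompact K) (hU : K ⊆ Up)
    (h0 : ∀ w ∈ Up, w ∉ K → F w = 0) : Integrable F muH := by
  obtain ⟨C, hC⟩ := hK.exists_bound_of_continuousOn (hF.mono hU)
  have h1 : IntegrableOn F K muH :=
    Measure.integrableOn_of_bounded (muH_compact hK hU).ne (aesm_muH hF)
      ((ae_restrict_mem hK.measurableSet).mono hC)
  exact h1.integrable_of_ae_notMem_eq_zero (ae_Up.mono h0)

theorem int_pr {V : Type} [NormedAddCommGroup V] [NormedSpace ℝ V] {F : ℂ → V}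
    (hF : AEStronglyMeasurable F muH) :
    ∫ M, F (pr M) ∂nu = (15 * Real.pi / 2 : ℝ) • ∫ w, F w ∂muH := by
  rw [← integral_map measurable_pr.aemeasurable (by rw [kan']; exact hF.smul_measure _), kan',
    integral_smul_measure, ENNReal.toReal_ofReal (by positivity)]

theorem setInt_pr {V : Type} [NormedAddCommGroup V] [NormedSpace ℝ V] {F : ℂ → V}
    (hF : AEStronglyMeasurable F muH) {S : Set ℂ} (hS : MeasurableSet S) :
    ∫ M in Sh ∩ pr ⁻¹' S, F (pr M) ∂nu = (15 * Real.pi / 2 : ℝ) • ∫ w in S, F w ∂muH := by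
  have h1 : nu.restrict (Sh ∩ pr ⁻¹' S) = nu.restrict (pr ⁻¹' S) := by
    refine Measure.restrict_congr_set ?_
    filter_upwards [ae_mem_Sh] with M hM
    exact propext (and_iff_right hM)
  rw [h1, ← setIntegral_map hS (by rw [kan']; exact hF.smul_measure _) measurable_pr.aemeasurable,
    kan', Measure.restrict_smul, integral_smul_measure, ENNReal.toReal_ofReal (by positivity)]

/-- unfolding on the upper half plane (use `unfold_tile` and `kan'`) -/
theorem lint_unfold {F : ℂ → ℝ≥0∞} (hF : Measurable F) :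
    2 * ∫⁻ w, F w ∂muH = ∑' γ : SL(2, ℤ), ∫⁻ w in Fd, F (mb (act γ one) w) ∂muH := by
  classical
  have : Countable SL(2, ℤ) :=
    inferInstanceAs (Countable {A : Fin 2 → Fin 2 → ℤ // Matrix.det (Matrix.of A) = 1})
  let g : SL(2, ℤ) → ℂ → ℝ≥0∞ := fun γ w => Fd.indicator 1 (mb (act γ⁻¹ one) w)
  have hg : ∀ γ, Measurable (g γ) := fun γ =>
    (measurable_one.indicator measurableSet_Fd).comp (hypm_meas _)
  have h2 : ∀ᵐ w ∂muH, ∑' γ, g γ w = 2 := by
    rw [← Measure.ae_ennreal_smul_measure_iff hypm_c0, ← kan', ae_map_iff measurable_pr.aemeasurable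
      (measurableSet_eq_fun (Measurable.tsum hg) measurable_const)]
    filter_upwards [unfold_tile] with M ⟨hM, γ₀, h⟩
    have h3 : ∀ γ, g γ (pr M) = if γ⁻¹ = γ₀ ∨ γ⁻¹ = -γ₀ then 1 else 0 := fun γ => by
      simp only [g, ← pr_act_mb _ (Sh_subset hM), indicator_apply, h, Pi.one_apply]
    simp only [h3]
    refine ((Equiv.inv SL(2, ℤ)).tsum_eq
      fun γ => if γ = γ₀ ∨ γ = -γ₀ then (1 : ℝ≥0∞) else 0).trans ?_
    rw [tsum_eq_sum (s := {γ₀, -γ₀}) fun γ hγ => if_neg (by simpa using hγ),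
      Finset.sum_pair (unfold_ne γ₀), if_pos (Or.inl rfl), if_pos (Or.inr rfl), one_add_one_eq_two]
  have h4 : ∀ γ : SL(2, ℤ), ∫⁻ w in Fd, F (mb (act γ one) w) ∂muH = ∫⁻ w, g γ w * F w ∂muH := by
    intro γ
    rw [← lintegral_indicator measurableSet_Fd,
      ← (mp_mb (act_one_mem γ)).lintegral_comp ((hg γ).fun_mul hF)]
    refine lintegral_congr_ae ?_
    filter_upwards [ae_Up] with w hw
    simp only [g]
    rw [← mb_act_act _ _ hw, inv_mul_cancel, act_one, mb_one]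
    by_cases hw' : w ∈ Fd <;> simp [hw']
  simp only [h4]
  rw [← lintegral_tsum fun γ => ((hg γ).fun_mul hF).aemeasurable, ← lintegral_const_mul _ hF]
  refine lintegral_congr_ae ?_
  filter_upwards [h2] with w hw
  rw [ENNReal.tsum_mul_right, hw]

/-! Elementary facts on `jj`, `PP`, `bb`, `ph`, `ep`, `qq`, `be`. -/

theorem geo_im (z : ℂ) : 1 - ‖z - I‖ ≤ z.im ∧ z.im ≤ 1 + ‖z - I‖ := by
  have h := abs_le.1 (abs_im_le_norm (z - I))
  simp only [sub_im, I_im] at h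
  constructor <;> linarith [h.1, h.2]

theorem geo_up {z : ℂ} (hz : ‖z - I‖ ≤ 1 / 2) : z ∈ Up := by
  show 0 < z.im
  linarith [(geo_im z).1]

theorem geo_log {c x y : ℝ} (hc : 0 < c) (hx : c ≤ x) (hy : c ≤ y) :
    |Real.log x - Real.log y| ≤ |x - y| / c := by
  have key : ∀ u v : ℝ, c ≤ u → c ≤ v → Real.log u - Real.log v ≤ |u - v| / c := by
    intro u v hu hv
    have hu0 : 0 < u := hc.trans_le hu
    have hv0 : 0 < v := hc.trans_le hv
    rw [← Real.log_div hu0.ne' hv0.ne']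
    refine (Real.log_le_sub_one_of_pos (div_pos hu0 hv0)).trans ?_
    have : u / v - 1 = (u - v) / v := by field_simp
    rw [this]
    exact (div_le_div_of_nonneg_right (le_abs_self _) hv0.le).trans
      (div_le_div_of_nonneg_left (abs_nonneg _) hc hv)
  rw [abs_le]
  constructor
  · have := key y x hy hx
    rw [abs_sub_comm] at this
    linarith
  · exact key x y hx hy

theorem geo_jj (θ : ℝ) (z : ℂ) :
    (jj θ z).re = z.re * Real.sin θ + Real.cos θ ∧ (jj θ z).im = z.im * Real.sin θ := by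
  constructor <;> simp only [jj, add_re, add_im, mul_re, mul_im, ofReal_re, ofReal_im] <;> ring

theorem geo_nsq (θ : ℝ) (z : ℂ) :
    normSq (jj θ z) = (z.re * Real.sin θ + Real.cos θ) ^ 2 + (z.im * Real.sin θ) ^ 2 := by
  rw [normSq_apply, (geo_jj θ z).1, (geo_jj θ z).2]; ring

theorem B0_sub : B0 ⊆ Up := fun _ hz =>
  geo_up ((mem_closedBall_iff_norm.1 hz).trans (by norm_num))

theorem U0_sub : U0 ⊆ B0 := Metric.closedBall_subset_closedBall (by norm_num)

theorem ball_sub {z : ℂ} (hz : ‖z - I‖ ≤ 1 / 2) : z ∈ Up := geo_up hz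

theorem jj_ne (θ : ℝ) {z : ℂ} (hz : z ∈ Up) : jj θ z ≠ 0 := by
  intro h
  have hy : 0 < z.im := hz
  have h1 := (geo_jj θ z).1
  have h2 := (geo_jj θ z).2
  rw [h, zero_re] at h1
  rw [h, zero_im] at h2
  have h3 : Real.sin θ = 0 := (mul_eq_zero.1 h2.symm).resolve_left hy.ne'
  rw [h3, mul_zero, zero_add] at h1
  have := Real.sin_sq_add_cos_sq θ
  rw [h3, ← h1] at this
  norm_num at this

theorem norm_jj_I (θ : ℝ) : ‖jj θ I‖ = 1 := by
  rw [Complex.norm_def, geo_nsq]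
  simp

theorem jj_sub (θ : ℝ) (z z' : ℂ) : ‖jj θ z - jj θ z'‖ ≤ ‖z - z'‖ := by
  have : jj θ z - jj θ z' = (z - z') * (Real.sin θ : ℂ) := by simp only [jj]; ring
  rw [this, norm_mul, Complex.norm_real, Real.norm_eq_abs]
  exact mul_le_of_le_one_right (norm_nonneg _) (Real.abs_sin_le_one θ)

theorem norm_jj_bd (θ : ℝ) (z : ℂ) : 1 - ‖z - I‖ ≤ ‖jj θ z‖ ∧ ‖jj θ z‖ ≤ 1 + ‖z - I‖ := by
  have h := (abs_norm_sub_norm_le (jj θ z) (jj θ I)).trans (jj_sub θ z I)
  rw [norm_jj_I] at h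
  have := abs_le.1 h
  constructor <;> linarith [this.1, this.2]

theorem PP_pos (θ : ℝ) {z : ℂ} (hz : z ∈ Up) : 0 < PP θ z := 
  div_pos hz (normSq_pos.2 (jj_ne θ hz))

theorem PP_I (θ : ℝ) : PP θ I = 1 := by
  rw [PP, normSq_eq_norm_sq, norm_jj_I]; simp

theorem PP_zero (w : ℂ) : PP 0 w = w.im := by
  simp [PP, jj]

theorem PP_per (θ : ℝ) (z : ℂ) : PP (θ + 2 * Real.pi) z = PP θ z := by
  simp only [PP, jj, Real.sin_add_two_pi, Real.cos_add_two_pi]

theorem PP_bd (θ : ℝ) {z : ℂ} (hz : ‖z - I‖ ≤ 1 / 10) : 7 / 10 ≤ PP θ z ∧ PP θ z ≤ 14 / 10 := by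
  obtain ⟨h1, h2⟩ := geo_im z
  obtain ⟨h3, h4⟩ := norm_jj_bd θ z
  have h5 : 9 / 10 ≤ ‖jj θ z‖ := by linarith
  have h6 : ‖jj θ z‖ ≤ 11 / 10 := by linarith
  have h7 : 81 / 100 ≤ ‖jj θ z‖ ^ 2 := by nlinarith
  have h8 : ‖jj θ z‖ ^ 2 ≤ 121 / 100 := by nlinarith
  have h9 : 0 < ‖jj θ z‖ ^ 2 := by linarith
  rw [PP, normSq_eq_norm_sq, le_div_iff₀ h9, div_le_iff₀ h9]
  constructor <;> linarith

theorem geo_bb (θ : ℝ) {z : ℂ} (hz : z ∈ Up) :
    bb θ z = Real.log z.im - 2 * Real.log ‖jj θ z‖ := by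
  have hy : 0 < z.im := hz
  rw [bb, PP, Real.log_div hy.ne' (normSq_pos.2 (jj_ne θ hz)).ne', normSq_eq_norm_sq,
    Real.log_pow]
  norm_num

theorem geo_lip (a : ℝ) {z z' : ℂ} (hz : ‖z - I‖ ≤ 1 / 10) (hz' : ‖z' - I‖ ≤ 1 / 10) :
    |bb a z - bb a z'| ≤ 4 * ‖z - z'‖ := by
  rw [geo_bb a (geo_up (hz.trans (by norm_num))), geo_bb a (geo_up (hz'.trans (by norm_num)))]
  have h1 := geo_log (c := 9 / 10) (x := z.im) (y := z'.im) (by norm_num)
    (by linarith [(geo_im z).1]) (by linarith [(geo_im z').1])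
  have h2 := geo_log (c := 9 / 10) (x := ‖jj a z‖) (y := ‖jj a z'‖) (by norm_num)
    (by linarith [(norm_jj_bd a z).1]) (by linarith [(norm_jj_bd a z').1])
  have h3 : |z.im - z'.im| ≤ ‖z - z'‖ := by
    rw [← sub_im]; exact abs_im_le_norm _
  have h4 := (abs_norm_sub_norm_le (jj a z) (jj a z')).trans (jj_sub a z z')
  have h5 := abs_le.1 h1
  have h6 := abs_le.1 h2
  have h7 := norm_nonneg (z - z')
  rw [abs_le]
  constructor <;> linarith [h5.1, h5.2, h6.1, h6.2]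

theorem geo_jj_ang (a b : ℝ) {z : ℂ} (hz : ‖z - I‖ ≤ 1 / 10) :
    ‖jj a z - jj b z‖ ≤ 11 / 10 * |a - b| := by
  have h : jj a z - jj b z =
      (z - I) * ((Real.sin a - Real.sin b : ℝ) : ℂ) + (jj a I - jj b I) := by
    simp only [jj]; push_cast; ring
  have h1 : ‖jj a I - jj b I‖ ≤ |a - b| := by
    rw [← sq_le_sq₀ (norm_nonneg _) (abs_nonneg _), sq_abs, ← normSq_eq_norm_sq, normSq_apply,
      sub_re, sub_im, (geo_jj a I).1, (geo_jj a I).2, (geo_jj b I).1, (geo_jj b I).2]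
    have h2 := Real.one_sub_sq_div_two_le_cos (x := a - b)
    rw [Real.cos_sub] at h2
    simp only [I_re, I_im, zero_mul, zero_add, one_mul]
    nlinarith [Real.sin_sq_add_cos_sq a, Real.sin_sq_add_cos_sq b]
  have h3 : |Real.sin a - Real.sin b| ≤ |a - b| := Real.abs_sin_sub_sin_le a b
  rw [h]
  refine (norm_add_le _ _).trans ?_
  rw [norm_mul, Complex.norm_real, Real.norm_eq_abs]
  have h4 := mul_le_mul hz h3 (abs_nonneg _) (by norm_num)
  linarith

/-- `|log P| ≤ 4 ‖z - i‖` near `i` -/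
theorem abs_bb_le (θ : ℝ) {z : ℂ} (hz : ‖z - I‖ ≤ 1 / 10) : |bb θ z| ≤ 4 * ‖z - I‖ := by
  have h := geo_lip θ hz (z' := I) (by simp)
  have h0 : bb θ I = 0 := by rw [bb, PP_I, Real.log_one]
  rwa [h0, sub_zero] at h

theorem abs_bb_sub (a b : ℝ) {z : ℂ} (hz : ‖z - I‖ ≤ 1 / 10) :
    |bb a z - bb b z| ≤ 3 * |a - b| := by
  have hU := geo_up (hz.trans (by norm_num))
  rw [geo_bb a hU, geo_bb b hU]
  have h2 := geo_log (c := 9 / 10) (x := ‖jj a z‖) (y := ‖jj b z‖) (by norm_num)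
    (by linarith [(norm_jj_bd a z).1]) (by linarith [(norm_jj_bd b z).1])
  have h4 := (abs_norm_sub_norm_le (jj a z) (jj b z)).trans (geo_jj_ang a b hz)
  have h6 := abs_le.1 h2
  have h7 := abs_nonneg (a - b)
  rw [abs_le]
  constructor <;> linarith [h6.1, h6.2]

theorem bb_eq (θ : ℝ) {z : ℂ} (hz : z ∈ Up) :
    bb θ z = Real.log z.im - Real.log (normSq (jj θ z)) := by
  have hy : 0 < z.im := hz
  rw [bb, PP, Real.log_div hy.ne' (normSq_pos.2 (jj_ne θ hz)).ne']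

theorem geo_cd_nsq {n : WithTop ℕ∞} : ContDiff ℝ n fun p : ℝ × ℂ => normSq (jj p.1 p.2) := by
  have h1 : ContDiff ℝ n fun p : ℝ × ℂ => p.2.re := reCLM.contDiff.comp contDiff_snd
  have h2 : ContDiff ℝ n fun p : ℝ × ℂ => p.2.im := imCLM.contDiff.comp contDiff_snd
  have h3 : ContDiff ℝ n fun p : ℝ × ℂ => Real.sin p.1 := Real.contDiff_sin.comp contDiff_fst
  have h4 : ContDiff ℝ n fun p : ℝ × ℂ => Real.cos p.1 := Real.contDiff_cos.comp contDiff_fst
  simp only [geo_nsq]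
  exact (((h1.mul h3).add h4).pow 2).add ((h2.mul h3).pow 2)

theorem measurable_PP : Measurable fun p : ℝ × ℂ => PP p.1 p.2 := 
  (measurable_im.comp measurable_snd).div (geo_cd_nsq (n := 0)).continuous.measurable

theorem measurable_bb : Measurable fun p : ℝ × ℂ => bb p.1 p.2 := 
  Real.measurable_log.comp measurable_PP

theorem measurable_ph (T : ℝ) : Measurable fun p : ℝ × ℂ => ph T p.1 p.2 := 
  Complex.measurable_exp.comp
    ((measurable_ofReal.comp (measurable_bb.const_mul T)).mul_const I)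

theorem contDiffOn_PP {n : WithTop ℕ∞} :
    ContDiffOn ℝ n (fun p : ℝ × ℂ => PP p.1 p.2) (univ ×ˢ Up) := by
  have h2 : ContDiff ℝ n fun p : ℝ × ℂ => p.2.im := imCLM.contDiff.comp contDiff_snd
  exact h2.contDiffOn.div geo_cd_nsq.contDiffOn fun p hp => (normSq_pos.2 (jj_ne p.1 hp.2)).ne'

theorem contDiffOn_bb {n : WithTop ℕ∞} :
    ContDiffOn ℝ n (fun p : ℝ × ℂ => bb p.1 p.2) (univ ×ˢ Up) := 
  contDiffOn_PP.log fun p hp => (PP_pos p.1 hp.2).ne'

theorem contDiffOn_sqrt_PP {n : WithTop ℕ∞} :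
    ContDiffOn ℝ n (fun p : ℝ × ℂ => √(PP p.1 p.2)) (univ ×ˢ Up) := 
  contDiffOn_PP.sqrt fun p hp => (PP_pos p.1 hp.2).ne'

theorem norm_ph (T θ : ℝ) (z : ℂ) : ‖ph T θ z‖ = 1 := 
  Complex.norm_exp_ofReal_mul_I _

theorem geo_conj_exp (x : ℝ) :
    conj (Complex.exp ((x : ℂ) * I)) = Complex.exp (((-x : ℝ) : ℂ) * I) := by
  rw [← Complex.exp_conj, map_mul, conj_ofReal, conj_I]
  congr 1; push_cast; ring

theorem yp_eq (T : ℝ) (w : ℂ) : yp T w = (√(PP 0 w) : ℝ) * conj (ph T 0 w) := by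
  rw [yp, ph, geo_conj_exp, bb, PP_zero]

theorem yp_mb_kk (T θ : ℝ) (w : ℂ) :
    yp T (mb (kk θ) w) = (√(PP θ w) : ℝ) * conj (ph T θ w) := by
  rw [yp, ph, geo_conj_exp, bb, im_mb_kk]

/-- the key identity `q a - q b = sin (a - b) / (j a * j b)` -/
theorem q_sub (a b : ℝ) {z : ℂ} (hz : z ∈ Up) :
    (Real.sin a : ℂ) / jj a z - (Real.sin b : ℂ) / jj b z =
      (Real.sin (a - b) : ℂ) / (jj a z * jj b z) := by
  have ha := jj_ne a hz
  have hb := jj_ne b hz
  rw [div_sub_div _ _ ha hb, Real.sin_sub]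
  congr 1
  simp only [jj, ofReal_sub, ofReal_mul]; ring

theorem geo_ep (a : ℝ) {z : ℂ} (hz : z ∈ Up) :
    ep z a = 1 - 2 * I * (z.im : ℂ) * ((Real.sin a : ℂ) / jj a z) := by
  have ha := jj_ne a hz
  have h : conj (jj a z) = jj a z - 2 * I * (z.im : ℂ) * (Real.sin a : ℂ) := by
    have h1 := Complex.sub_conj (jj a z)
    rw [(geo_jj a z).2] at h1
    simp only [ofReal_mul, ofReal_ofNat] at h1
    linear_combination -h1
  rw [ep, h, sub_div, div_self ha, mul_div_assoc]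

theorem ep_sub_eq (a b : ℝ) {z : ℂ} (hz : z ∈ Up) :
    ep z a - ep z b = -2 * I * (z.im : ℂ) * ((Real.sin (a - b) : ℂ) / (jj a z * jj b z)) := by
  rw [geo_ep a hz, geo_ep b hz, ← q_sub a b hz]; ring

theorem norm_ep (θ : ℝ) {z : ℂ} (hz : z ∈ Up) : ‖ep z θ‖ = 1 := by
  rw [ep, norm_div, RCLike.norm_conj, div_self (norm_ne_zero_iff.2 (jj_ne θ hz))]

theorem ep_sub_bd (a b : ℝ) {z : ℂ} (hz : ‖z - I‖ ≤ 1 / 50) :
    3 / 2 * |Real.sin (a - b)| ≤ ‖ep z a - ep z b‖ ∧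
      ‖ep z a - ep z b‖ ≤ 3 * |Real.sin (a - b)| := by
  have hU := geo_up (hz.trans (by norm_num))
  have hy : 0 < z.im := hU
  obtain ⟨h1, h2⟩ := geo_im z
  obtain ⟨h3, h4⟩ := norm_jj_bd a z
  obtain ⟨h5, h6⟩ := norm_jj_bd b z
  have h7 : 49 / 50 * (49 / 50) ≤ ‖jj a z‖ * ‖jj b z‖ :=
    mul_le_mul (by linarith) (by linarith) (by norm_num) (norm_nonneg _)
  have h8 : ‖jj a z‖ * ‖jj b z‖ ≤ 51 / 50 * (51 / 50) :=
    mul_le_mul (by linarith) (by linarith) (norm_nonneg _) (by norm_num)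
  have h9 : 0 < ‖jj a z‖ * ‖jj b z‖ := by linarith
  have h : ‖ep z a - ep z b‖ = 2 * z.im * |Real.sin (a - b)| / (‖jj a z‖ * ‖jj b z‖) := by
    rw [ep_sub_eq a b hU, norm_mul, norm_mul, norm_mul, norm_div, norm_mul, Complex.norm_real,
      Complex.norm_real, Real.norm_eq_abs, Real.norm_eq_abs, abs_of_pos hy, norm_neg, norm_I,
      Complex.norm_two]
    ring
  have hs := abs_nonneg (Real.sin (a - b))
  rw [h, le_div_iff₀ h9, div_le_iff₀ h9]
  constructor
  · have e1 := mul_le_mul_of_nonneg_left h8 hs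
    have e2 := mul_le_mul_of_nonneg_left (show 49 / 50 ≤ z.im by linarith) hs
    nlinarith
  · have e1 := mul_le_mul_of_nonneg_left h7 hs
    have e2 := mul_le_mul_of_nonneg_left (show z.im ≤ 51 / 50 by linarith) hs
    nlinarith

theorem ep_lip (a b : ℝ) {z : ℂ} (hz : ‖z - I‖ ≤ 1 / 50) : ‖ep z a - ep z b‖ ≤ 3 * |a - b| := 
  (ep_sub_bd a b hz).2.trans (mul_le_mul_of_nonneg_left Real.abs_sin_le_abs (by norm_num))

theorem geo_deriv (a : ℝ) {z : ℂ} (hz : z ∈ Up) (v : ℂ) :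
    HasDerivAt (fun x : ℝ => Real.log (normSq (jj a (z + x * v))))
      (2 * (v * ((Real.sin a : ℂ) / jj a z)).re) 0 := by
  have hn : normSq (jj a z) ≠ 0 := (normSq_pos.2 (jj_ne a hz)).ne'
  have h1 : HasDerivAt (fun x : ℝ => (z.re + x * v.re) * Real.sin a + Real.cos a)
      (v.re * Real.sin a) 0 := by
    simpa using ((((hasDerivAt_id (0 : ℝ)).mul_const v.re).const_add z.re).mul_const
      (Real.sin a)).add_const (Real.cos a)
  have h2 : HasDerivAt (fun x : ℝ => (z.im + x * v.im) * Real.sin a) (v.im * Real.sin a) 0 := by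
    simpa using (((hasDerivAt_id (0 : ℝ)).mul_const v.im).const_add z.im).mul_const (Real.sin a)
  have h3 : (fun x : ℝ => normSq (jj a (z + x * v))) = fun x : ℝ =>
      ((z.re + x * v.re) * Real.sin a + Real.cos a) * ((z.re + x * v.re) * Real.sin a + Real.cos a)
        + (z.im + x * v.im) * Real.sin a * ((z.im + x * v.im) * Real.sin a) := by
    funext x
    rw [geo_nsq]
    simp only [add_re, add_im, mul_re, mul_im, ofReal_re, ofReal_im]
    ring
  have h4 := (h1.fun_mul h1).fun_add (h2.fun_mul h2)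
  rw [← h3] at h4
  have h5 := h4.log (by simpa using jj_ne a hz)
  convert h5 using 1
  simp only [ofReal_zero, zero_mul, add_zero, mul_re, div_re, div_im, ofReal_re, ofReal_im,
    (geo_jj a z).1, (geo_jj a z).2]
  field_simp
  ring

/-- derivative of a difference of Busemann functions along a line -/
theorem hasDerivAt_bb_sub (a b : ℝ) {z : ℂ} (hz : z ∈ Up) (v : ℂ) :
    HasDerivAt (fun x : ℝ => bb a (z + x * v) - bb b (z + x * v))
      (2 * (v * -((Real.sin (a - b) : ℂ) / (jj a z * jj b z))).re) 0 := by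
  have h := (geo_deriv b hz v).fun_sub (geo_deriv a hz v)
  have he : ∀ᶠ x : ℝ in 𝓝 0, z + x * v ∈ Up := by
    have hc : Continuous fun x : ℝ => z + x * v := by fun_prop
    exact hc.continuousAt.eventually_mem (isOpen_Up.mem_nhds (by simpa using hz))
  have h2 : 2 * (v * -((Real.sin (a - b) : ℂ) / (jj a z * jj b z))).re =
      2 * (v * ((Real.sin b : ℂ) / jj b z)).re - 2 * (v * ((Real.sin a : ℂ) / jj a z)).re := by
    rw [← q_sub a b hz, neg_sub, mul_sub v, sub_re]; ring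
  rw [h2]
  refine h.congr_of_eventuallyEq ?_
  filter_upwards [he] with x hx
  rw [bb_eq a hx, bb_eq b hx]; ring

/-- Lipschitz bounds (mean value inequality on the convex ball) -/
theorem bb_sub_lip (a b : ℝ) {z z' : ℂ} (hz : ‖z - I‖ ≤ 1 / 10) (hz' : ‖z' - I‖ ≤ 1 / 10) :
    |(bb a z - bb b z) - (bb a z' - bb b z')| ≤ 3 * |Real.sin (a - b)| * ‖z - z'‖ := by
  have hU := geo_up (hz.trans (by norm_num))
  have hU' := geo_up (hz'.trans (by norm_num))
  have a1 : 9 / 10 ≤ ‖jj a z‖ := by linarith [(norm_jj_bd a z).1]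
  have a2 : 9 / 10 ≤ ‖jj a z'‖ := by linarith [(norm_jj_bd a z').1]
  have b1 : 9 / 10 ≤ ‖jj b z‖ := by linarith [(norm_jj_bd b z).1]
  have b2 : 9 / 10 ≤ ‖jj b z'‖ := by linarith [(norm_jj_bd b z').1]
  have h1 := geo_log (c := 81 / 100) (x := ‖jj b z‖ * ‖jj a z'‖)
    (y := ‖jj a z‖ * ‖jj b z'‖) (by norm_num)
    (le_trans (by norm_num) (mul_le_mul b1 a2 (by norm_num) (norm_nonneg _)))
    (le_trans (by norm_num) (mul_le_mul a1 b2 (by norm_num) (norm_nonneg _)))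
  have h2 : |‖jj b z‖ * ‖jj a z'‖ - ‖jj a z‖ * ‖jj b z'‖| ≤ |Real.sin (a - b)| * ‖z - z'‖ := by
    rw [← norm_mul, ← norm_mul]
    refine (abs_norm_sub_norm_le _ _).trans ?_
    have : jj b z * jj a z' - jj a z * jj b z' = -(Real.sin (a - b) : ℂ) * (z - z') := by
      rw [Real.sin_sub]
      simp only [jj, ofReal_sub, ofReal_mul]; ring
    rw [this, norm_mul, norm_neg, Complex.norm_real, Real.norm_eq_abs]
  rw [Real.log_mul (by linarith) (by linarith), Real.log_mul (by linarith) (by linarith)] at h1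
  rw [geo_bb a hU, geo_bb b hU, geo_bb a hU', geo_bb b hU']
  have h3 := abs_le.1 (h1.trans (div_le_div_of_nonneg_right h2 (by norm_num)))
  have h4 : 0 ≤ |Real.sin (a - b)| * ‖z - z'‖ := by positivity
  rw [abs_le, mul_assoc]
  constructor <;> linarith [h3.1, h3.2]

theorem bb_lip (a : ℝ) {z z' : ℂ} (hz : ‖z - I‖ ≤ 1 / 10) (hz' : ‖z' - I‖ ≤ 1 / 10) :
    |bb a z - bb a z'| ≤ 4 * ‖z - z'‖ := geo_lip a hz hz'

theorem inv_jj_lip (a b : ℝ) {z z' : ℂ} (hz : ‖z - I‖ ≤ 1 / 10) (hz' : ‖z' - I‖ ≤ 1 / 10) :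
    ‖(jj a z * jj b z)⁻¹ - (jj a z' * jj b z')⁻¹‖ ≤ 4 * ‖z - z'‖ := by
  have hU := geo_up (hz.trans (by norm_num))
  have hU' := geo_up (hz'.trans (by norm_num))
  have a1 : 9 / 10 ≤ ‖jj a z‖ := by linarith [(norm_jj_bd a z).1]
  have a2 : 9 / 10 ≤ ‖jj a z'‖ := by linarith [(norm_jj_bd a z').1]
  have b1 : 9 / 10 ≤ ‖jj b z‖ := by linarith [(norm_jj_bd b z).1]
  have b2 : 9 / 10 ≤ ‖jj b z'‖ := by linarith [(norm_jj_bd b z').1]
  have a3 : ‖jj a z‖ ≤ 11 / 10 := by linarith [(norm_jj_bd a z).2]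
  have b3 : ‖jj b z'‖ ≤ 11 / 10 := by linarith [(norm_jj_bd b z').2]
  have h1 : 9 / 10 * (9 / 10) ≤ ‖jj a z‖ * ‖jj b z‖ :=
    mul_le_mul a1 b1 (by norm_num) (norm_nonneg _)
  have h2 : 9 / 10 * (9 / 10) ≤ ‖jj a z'‖ * ‖jj b z'‖ :=
    mul_le_mul a2 b2 (by norm_num) (norm_nonneg _)
  have h3 : 9 / 10 * (9 / 10) * (9 / 10 * (9 / 10)) ≤
      ‖jj a z‖ * ‖jj b z‖ * (‖jj a z'‖ * ‖jj b z'‖) :=
    mul_le_mul h1 h2 (by norm_num) (by positivity)
  have h4 : ‖jj a z' * jj b z' - jj a z * jj b z‖ ≤ 11 / 5 * ‖z - z'‖ := by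
    have : jj a z' * jj b z' - jj a z * jj b z =
        (jj a z' - jj a z) * jj b z' + jj a z * (jj b z' - jj b z) := by ring
    rw [this]
    refine (norm_add_le _ _).trans ?_
    rw [norm_mul, norm_mul]
    have e1 := mul_le_mul (jj_sub a z' z) b3 (norm_nonneg _) (norm_nonneg _)
    have e2 := mul_le_mul a3 (jj_sub b z' z) (norm_nonneg _) (by norm_num)
    rw [norm_sub_rev z' z] at e1 e2
    linarith
  rw [inv_sub_inv (mul_ne_zero (jj_ne a hU) (jj_ne b hU)) (mul_ne_zero (jj_ne a hU') (jj_ne b hU')),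
    norm_div, norm_mul, norm_mul, norm_mul, div_le_iff₀ (by linarith)]
  have e3 := mul_le_mul_of_nonneg_left h3 (norm_nonneg (z - z'))
  have e4 := norm_nonneg (z - z')
  nlinarith

theorem be_I_mem : I ∈ Up := by
  show 0 < I.im
  simp

theorem be_isOpen_Up : IsOpen Up := isOpen_lt continuous_const continuous_im

theorem be_im_sub (z w : ℂ) : |z.im - w.im| ≤ ‖z - w‖ := by
  have h := abs_im_le_norm (z - w)
  rwa [sub_im] at h

theorem qq_symm (z w : ℂ) : qq z w = qq w z := by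
  unfold qq
  rw [← normSq_neg, neg_sub, mul_comm]

theorem be_mb_sub {A : E} (hA : A ∈ Gp) {z w : ℂ} (hz : z ∈ Up) (hw : w ∈ Up) :
    mb A z - mb A w = (dt A : ℂ) * (z - w) /
      (((A.2.im : ℂ) * z + (A.2.re : ℂ)) * ((A.2.im : ℂ) * w + (A.2.re : ℂ))) := by
  rw [mb_eq, mb_eq, div_sub_div _ _ (den_ne hA hz) (den_ne hA hw)]
  congr 1
  unfold dt
  push_cast
  ring

theorem qq_mb {A : E} (hA : A ∈ Gp) {z w : ℂ} (hz : z ∈ Up) (hw : w ∈ Up) :
    qq (mb A z) (mb A w) = qq z w := by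
  have h1 : normSq ((A.2.im : ℂ) * z + (A.2.re : ℂ)) ≠ 0 :=
    fun h => den_ne hA hz (normSq_eq_zero.1 h)
  have h2 : normSq ((A.2.im : ℂ) * w + (A.2.re : ℂ)) ≠ 0 :=
    fun h => den_ne hA hw (normSq_eq_zero.1 h)
  have h3 : dt A ≠ 0 := ne_of_gt hA
  have h4 : z.im ≠ 0 := ne_of_gt hz
  have h5 : w.im ≠ 0 := ne_of_gt hw
  unfold qq
  rw [be_mb_sub hA hz hw, im_mb, im_mb, map_div₀, map_mul, map_mul, normSq_ofReal]
  generalize normSq ((A.2.im : ℂ) * z + (A.2.re : ℂ)) = a at h1 ⊢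
  generalize normSq ((A.2.im : ℂ) * w + (A.2.re : ℂ)) = b at h2 ⊢
  field_simp

theorem be_norm_le {z w : ℂ} (hz : z ∈ Up) (hw : w ∈ Up) {q s : ℝ} (hq : 0 ≤ q) (hs : 0 ≤ s)
    (hqs : q * (1 + s) ≤ s ^ 2) (h : qq z w ≤ q) : ‖z - w‖ ≤ s * w.im := by
  have hz' : 0 < z.im := hz
  have hw' : 0 < w.im := hw
  have h1 : ‖z - w‖ ^ 2 ≤ q * (z.im * w.im) := by
    unfold qq at h
    rw [div_le_iff₀ (mul_pos hz' hw'), normSq_eq_norm_sq] at h
    exact h
  have h2 : z.im ≤ w.im + ‖z - w‖ := by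
    have := (abs_le.1 (be_im_sub z w)).2
    linarith
  have h0 : 0 ≤ ‖z - w‖ := norm_nonneg _
  generalize ‖z - w‖ = d at h0 h1 h2 ⊢
  generalize w.im = y at hw' h1 h2 ⊢
  have h3 : d ^ 2 ≤ q * ((y + d) * y) :=
    h1.trans (mul_le_mul_of_nonneg_left (mul_le_mul_of_nonneg_right h2 hw'.le) hq)
  by_contra hc
  push Not at hc
  have hsy : 0 ≤ s * y := mul_nonneg hs hw'.le
  have hd : 0 < d := lt_of_le_of_lt hsy hc
  have h4 : (1 + s) * d ^ 2 ≤ s ^ 2 * ((y + d) * y) := by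
    have a1 : (1 + s) * d ^ 2 ≤ (1 + s) * (q * ((y + d) * y)) :=
      mul_le_mul_of_nonneg_left h3 (by linarith)
    have a2 : q * (1 + s) * ((y + d) * y) ≤ s ^ 2 * ((y + d) * y) :=
      mul_le_mul_of_nonneg_right hqs (by positivity)
    linarith
  have h5 : s * y * (s * y) < d * d := mul_self_lt_mul_self hsy hc
  have h6 : s * d * (s * y) ≤ s * d * d :=
    mul_le_mul_of_nonneg_left hc.le (mul_nonneg hs hd.le)
  linarith

/-- invariant balls against Euclidean balls -/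
theorem norm_le_of_qq {z w : ℂ} (hz : z ∈ Up) (hw : w ∈ Up) {r : ℝ} (hr : 0 ≤ r) (hr1 : r ≤ 1 / 2)
    (h : qq z w ≤ r ^ 2) : ‖z - w‖ ≤ 2 * r * w.im := by
  refine be_norm_le hz hw (sq_nonneg r) (by linarith) ?_ h
  have : r ^ 2 * (1 + 2 * r) ≤ r ^ 2 * 4 := mul_le_mul_of_nonneg_left (by linarith) (sq_nonneg r)
  linarith

theorem be_qq_I_le {w : ℂ} {r c : ℝ} (hc : 0 < c) (hr1 : r ≤ 1 - c) (h : ‖w - I‖ ≤ r) :
    qq I w ≤ r ^ 2 / c := by
  have h1 : c ≤ w.im := by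
    have := (abs_le.1 (be_im_sub w I)).1
    rw [I_im] at this
    linarith
  unfold qq
  rw [I_im, one_mul, normSq_eq_norm_sq, norm_sub_rev]
  exact div_le_div₀ (sq_nonneg r) (pow_le_pow_left₀ (norm_nonneg _) h 2) hc h1

theorem qq_I_le {w : ℂ} {r : ℝ} (hr1 : r ≤ 1 / 2) (h : ‖w - I‖ ≤ r) : qq I w ≤ 2 * r ^ 2 := by
  have := be_qq_I_le (c := 1 / 2) (by norm_num) (by linarith) h
  linarith

/-- rotations about `i` move the ball of radius `1/50` inside `B0` -/
theorem kk_ball (θ : ℝ) {w : ℂ} (hw : w ∈ Up) (h : ‖mb (kk θ) w - I‖ ≤ 1 / 50) :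
    ‖w - I‖ ≤ 1 / 20 := by
  have h1 := be_qq_I_le (c := 49 / 50) (by norm_num) (by norm_num) h
  have h2 := qq_mb (kk_mem θ) be_I_mem hw
  rw [mb_kk_I] at h2
  have h3 : qq w I ≤ (1 / 40) ^ 2 := by
    rw [qq_symm, ← h2]
    exact h1.trans (by norm_num)
  have h4 := norm_le_of_qq hw be_I_mem (by norm_num) (by norm_num) h3
  rw [I_im] at h4
  linarith

theorem be_symm (z w : ℂ) : be z w = be w z := by
  unfold be
  rw [qq_symm]
  simp only [and_comm]

theorem be_eq {z w : ℂ} (hz : z ∈ Up) (hw : w ∈ Up) :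
    be z w = Real.smoothTransition (2 - 100000 * qq z w) := if_pos ⟨hz, hw⟩

theorem be_mb {A : E} (hA : A ∈ Gp) {z w : ℂ} (hz : z ∈ Up) (hw : w ∈ Up) :
    be (mb A z) (mb A w) = be z w := by
  rw [be_eq hz hw, be_eq (mb_mem hA hz) (mb_mem hA hw), qq_mb hA hz hw]

theorem be_nonneg (z w : ℂ) : 0 ≤ be z w := by
  unfold be
  split_ifs
  · exact Real.smoothTransition.nonneg _
  · exact le_rfl

theorem be_le_one (z w : ℂ) : be z w ≤ 1 := by
  unfold be
  split_ifs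
  · exact Real.smoothTransition.le_one _
  · exact zero_le_one

theorem be_supp {z w : ℂ} (h : be z w ≠ 0) : z ∈ Up ∧ w ∈ Up ∧ ‖z - w‖ ≤ w.im / 200 := by
  have h1 : 0 < z.im ∧ 0 < w.im := by
    by_contra hc
    exact h (if_neg hc)
  have hz : z ∈ Up := h1.1
  have hw : w ∈ Up := h1.2
  refine ⟨hz, hw, ?_⟩
  rw [be_eq hz hw] at h
  have h2 : qq z w ≤ 2 / 100000 := by
    by_contra hc
    push Not at hc
    exact h (Real.smoothTransition.zero_of_nonpos (by linarith))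
  have h3 := be_norm_le (s := 1 / 200) hz hw (by norm_num) (by norm_num) (by norm_num) h2
  linarith

theorem measurable_be : Measurable fun p : ℂ × ℂ => be p.1 p.2 := by
  unfold be
  refine Measurable.ite ?_ ?_ measurable_const
  · exact ((isOpen_lt continuous_const (continuous_im.comp continuous_fst)).inter
      (isOpen_lt continuous_const (continuous_im.comp continuous_snd))).measurableSet
  · refine Real.smoothTransition.continuous.measurable.comp ?_
    refine measurable_const.sub (measurable_const.mul ?_)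
    unfold qq
    exact (continuous_normSq.comp (continuous_fst.sub continuous_snd)).measurable.div
      ((continuous_im.comp continuous_fst).mul (continuous_im.comp continuous_snd)).measurable

theorem be_contDiffAt_qq {n : WithTop ℕ∞} {p : ℂ × ℂ} (h1 : p.1 ∈ Up) (h2 : p.2 ∈ Up) :
    ContDiffAt ℝ n (fun p : ℂ × ℂ => qq p.1 p.2) p := by
  have him : ContDiff ℝ n (fun z : ℂ => z.im) := imCLM.contDiff
  have hre : ContDiff ℝ n (fun z : ℂ => z.re) := reCLM.contDiff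
  have hs : ContDiff ℝ n (fun p : ℂ × ℂ => p.1 - p.2) := contDiff_fst.sub contDiff_snd
  have hN : ContDiff ℝ n (fun p : ℂ × ℂ => normSq (p.1 - p.2)) := by
    simp only [normSq_apply]
    exact ((hre.comp hs).mul (hre.comp hs)).add ((him.comp hs).mul (him.comp hs))
  unfold qq
  exact hN.contDiffAt.div ((him.comp contDiff_fst).mul (him.comp contDiff_snd)).contDiffAt
    (mul_pos (show 0 < p.1.im from h1) (show 0 < p.2.im from h2)).ne'

theorem contDiffOn_be {n : ℕ∞} :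
    ContDiffOn ℝ n (fun p : ℂ × ℂ => be p.1 p.2) (univ ×ˢ Up) := by
  intro p hp
  have h2 : p.2 ∈ Up := hp.2
  refine ContDiffAt.contDiffWithinAt ?_
  by_cases h1 : p.1 ∈ Up
  · have hO : (Up ×ˢ Up : Set (ℂ × ℂ)) ∈ 𝓝 p :=
      (be_isOpen_Up.prod be_isOpen_Up).mem_nhds ⟨h1, h2⟩
    have hc : ContDiffAt ℝ n
        (fun p : ℂ × ℂ => Real.smoothTransition (2 - 100000 * qq p.1 p.2)) p :=
      Real.smoothTransition.contDiff.contDiffAt.comp p
        (contDiffAt_const.sub (contDiffAt_const.mul (be_contDiffAt_qq h1 h2)))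
    refine hc.congr_of_eventuallyEq ?_
    filter_upwards [hO] with x hx
    exact be_eq hx.1 hx.2
  · have hO : {x : ℂ × ℂ | x.1.im < x.2.im / 2} ∈ 𝓝 p := by
      refine (isOpen_lt (continuous_im.comp continuous_fst)
        ((continuous_im.comp continuous_snd).div_const 2)).mem_nhds ?_
      have a1 : ¬ 0 < p.1.im := h1
      have a2 : 0 < p.2.im := h2
      show p.1.im < p.2.im / 2
      linarith [not_lt.1 a1]
    refine (contDiffAt_const (c := (0 : ℝ))).congr_of_eventuallyEq ?_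
    filter_upwards [hO] with x hx
    by_contra hc
    obtain ⟨-, a2, a3⟩ := be_supp hc
    have a4 : 0 < x.2.im := a2
    have a5 := (abs_le.1 (be_im_sub x.1 x.2)).1
    have a6 : x.1.im < x.2.im / 2 := hx
    linarith

theorem be_continuousOn (z : ℂ) : ContinuousOn (be z) Up := by
  have h := (contDiffOn_be (n := 0)).continuousOn
  exact h.comp (f := fun w : ℂ => (z, w)) (continuous_const.prodMk continuous_id).continuousOn
    fun w hw => ⟨mem_univ _, hw⟩

theorem integrable_be (z : ℂ) : Integrable (be z) muH := by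
  by_cases hz : z ∈ Up
  · have hz' : 0 < z.im := hz
    refine integrable_muH (be_continuousOn z) (isCompact_closedBall z (z.im / 200)) ?_ ?_
    · intro w hw
      have a1 : ‖w - z‖ ≤ z.im / 200 := mem_closedBall_iff_norm.1 hw
      have a2 := (abs_le.1 (be_im_sub w z)).1
      show 0 < w.im
      linarith
    · intro w _ hw
      by_contra hc
      rw [be_symm] at hc
      exact hw (mem_closedBall_iff_norm.2 (be_supp hc).2.2)
  · have : be z = fun _ => 0 := by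
      funext w
      by_contra hc
      exact hz (be_supp hc).1
    rw [this]
    exact integrable_zero _ _ _

theorem be_pos : 0 < ∫ u, be I u ∂muH := by
  rw [integral_pos_iff_support_of_nonneg (fun u => be_nonneg I u) (integrable_be I)]
  have hU : Metric.ball I (1 / 1000) ⊆ Up := fun w hw =>
    ball_sub ((mem_ball_iff_norm.1 hw).le.trans (by norm_num))
  have hS : Metric.ball I (1 / 1000) ⊆ Function.support (be I) := by
    intro w hw
    have a1 := qq_I_le (by norm_num) (mem_ball_iff_norm.1 hw).le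
    rw [Function.mem_support, be_eq be_I_mem (hU hw)]
    exact (Real.smoothTransition.pos_of_pos (by linarith)).ne'
  refine lt_of_lt_of_le ?_ (measure_mono hS)
  rw [pos_iff_ne_zero]
  intro h0
  have hm : Measurable fun z : ℂ => ENNReal.ofReal (1 / z.im ^ 2) :=
    (measurable_const.div (continuous_im.measurable.pow_const 2)).ennreal_ofReal
  unfold muH at h0
  rw [withDensity_apply_eq_zero hm] at h0
  have hsub : Metric.ball I (1 / 1000) ⊆
      {x : ℂ | ENNReal.ofReal (1 / x.im ^ 2) ≠ 0} ∩ Metric.ball I (1 / 1000) := by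
    intro w hw
    have a1 : 0 < w.im := hU hw
    exact ⟨(ENNReal.ofReal_pos.2 (by positivity)).ne', hw⟩
  have h1 := measure_mono_null hsub h0
  rw [Measure.restrict_apply Metric.isOpen_ball.measurableSet, inter_eq_left.2 hU] at h1
  exact (Metric.measure_ball_pos volume I (by norm_num)).ne' h1

theorem int_be {z : ℂ} (hz : z ∈ Up) : ∫ u, be z u ∂muH = ∫ u, be I u ∂muH := by
  rw [← int_mb (aff_mem hz) (be z)]
  refine integral_congr_ae ?_
  filter_upwards [ae_Up] with u hu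
  have h := be_mb (aff_mem hz) be_I_mem hu
  rwa [mb_I, pr_aff] at h

end Pool.Agent.MP_a28cf0_nt.Dec

end

-- part MP_a28cf0_nt.Dec.Calc
section

set_option autoImplicit false

namespace Pool.Agent.MP_a28cf0_nt.Dec

open MeasureTheory Complex Filter Topology Set
open scoped ENNReal MatrixGroups ComplexConjugate
open Pool.Agent.MP_a28cf0_nt.Cub

/-! Algebra of `C3`, `Bd`, uniform bounds for smooth families, smoothness of parametric integrals,
and the concrete amplitudes.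
Hints: `norm_iteratedFDeriv_mul_le`, `iteratedFDeriv_comp_add_right`,
`LinearIsometryEquiv.norm_iteratedFDeriv_comp_left` with `conjLIE`,
`ContinuousLinearMap.iteratedFDeriv_comp_right`, `contDiffOn_convolution_right_with_param`. -/

theorem C3.nonneg {M : ℝ} {χ : ℂ → ℂ} (h : C3 M χ) : 0 ≤ M :=
  (norm_nonneg _).trans (h.bd 0 (by norm_num) 0)

theorem C3.norm_le {M : ℝ} {χ : ℂ → ℂ} (h : C3 M χ) (z : ℂ) : ‖χ z‖ ≤ M := by
  have := h.bd 0 (by norm_num) z
  rwa [norm_iteratedFDeriv_zero] at this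

theorem C3.lip {M : ℝ} {χ : ℂ → ℂ} (h : C3 M χ) (z z' : ℂ) : ‖χ z - χ z'‖ ≤ M * ‖z - z'‖ := by
  have hd : Differentiable ℝ χ := h.c3.differentiable (by norm_num)
  refine convex_univ.norm_image_sub_le_of_norm_fderiv_le (𝕜 := ℝ) (fun x _ => hd x)
    (fun x _ => ?_) (mem_univ z') (mem_univ z)
  have := h.bd 1 (by norm_num) x
  rwa [norm_iteratedFDeriv_one] at this

theorem C3.cont {M : ℝ} {χ : ℂ → ℂ} (h : C3 M χ) : Continuous χ := h.c3.continuous

theorem C3.mono {M M' : ℝ} {χ : ℂ → ℂ} (h : C3 M χ) (hM : M ≤ M') : C3 M' χ :=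
  ⟨h.c3, fun k hk z => (h.bd k hk z).trans hM⟩

theorem C3.mul {M M' : ℝ} {χ χ' : ℂ → ℂ} (h : C3 M χ) (h' : C3 M' χ') :
    C3 (8 * M * M') fun z => χ z * χ' z := by
  refine ⟨h.c3.mul h'.c3, fun k hk z => ?_⟩
  have hM := h.nonneg
  have hM' := h'.nonneg
  refine (norm_iteratedFDeriv_mul_le h.c3 h'.c3 z (n := k) (by exact_mod_cast hk)).trans ?_
  have h1 : ∑ i ∈ Finset.range (k + 1), (k.choose i : ℝ) * ‖iteratedFDeriv ℝ i χ z‖ *
      ‖iteratedFDeriv ℝ (k - i) χ' z‖ ≤ ∑ i ∈ Finset.range (k + 1), (k.choose i : ℝ) * (M * M') := by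
    refine Finset.sum_le_sum fun i hi => ?_
    have hi' : i ≤ 3 := (Nat.lt_succ_iff.1 (Finset.mem_range.1 hi)).trans hk
    rw [mul_assoc]
    refine mul_le_mul_of_nonneg_left ?_ (Nat.cast_nonneg _)
    exact mul_le_mul (h.bd i hi' z) (h'.bd (k - i) ((Nat.sub_le _ _).trans hk) z) (norm_nonneg _) hM
  refine h1.trans ?_
  rw [← Finset.sum_mul, ← Nat.cast_sum, Nat.sum_range_choose, mul_assoc]
  refine mul_le_mul_of_nonneg_right ?_ (mul_nonneg hM hM')
  have : 2 ^ k ≤ 2 ^ 3 := Nat.pow_le_pow_right (by norm_num) hk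
  exact_mod_cast this

theorem C3.conj {M : ℝ} {χ : ℂ → ℂ} (h : C3 M χ) : C3 M fun z => conj (χ z) := by
  refine ⟨conjLIE.contDiff.comp h.c3, fun k hk z => ?_⟩
  have := conjLIE.norm_iteratedFDeriv_comp_left χ z k
  exact (le_of_eq this).trans (h.bd k hk z)

theorem C3.shift {M : ℝ} {χ : ℂ → ℂ} (h : C3 M χ) (s : ℂ) : C3 M fun z => χ (z + s) := by
  refine ⟨h.c3.comp (contDiff_id.add contDiff_const), fun k hk z => ?_⟩
  rw [iteratedFDeriv_comp_add_right]
  exact h.bd k hk _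

theorem C3.zero : C3 0 fun _ => 0 := by
  refine ⟨contDiff_const, fun k _ z => ?_⟩
  simp

theorem calc_slice {P : Type} [NormedAddCommGroup P] [NormedSpace ℝ P] {G : P × ℂ → ℂ}
    {W : Set P} (hW : IsOpen W) (hF : ContDiffOn ℝ 3 G (W ×ˢ univ)) {p : P} (hp : p ∈ W)
    {k : ℕ} (hk : k ≤ 3) (z : ℂ) :
    ‖iteratedFDeriv ℝ k (fun w => G (p, w)) z‖ ≤ ‖iteratedFDeriv ℝ k G (p, z)‖ := by
  let s : Set (P × ℂ) := (fun q : P × ℂ => q + (p, 0)) ⁻¹' (W ×ˢ univ)
  have hs : IsOpen s := (hW.prod isOpen_univ).preimage (continuous_id.add continuous_const)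
  let g : ℂ →L[ℝ] P × ℂ := ContinuousLinearMap.inr ℝ P ℂ
  have hg : g ⁻¹' s = univ := by
    ext w
    simp [s, g, hp]
  have hf : ContDiffOn ℝ 3 (fun q : P × ℂ => G (q + (p, 0))) s :=
    hF.comp (contDiff_id.add contDiff_const).contDiffOn fun q hq => hq
  have hx : g z ∈ s := by
    have : z ∈ g ⁻¹' s := by rw [hg]; exact mem_univ z
    exact this
  have h1 := g.iteratedFDerivWithin_comp_right hf hs.uniqueDiffOn
    (by rw [hg]; exact uniqueDiffOn_univ) hx (i := k) (by exact_mod_cast hk)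
  rw [hg, iteratedFDerivWithin_univ, iteratedFDerivWithin_of_isOpen k hs hx,
    iteratedFDeriv_comp_add_right] at h1
  have e1 : ((fun q : P × ℂ => G (q + (p, 0))) ∘ g) = fun w => G (p, w) := by
    funext w
    simp [g]
  have e2 : g z + (p, 0) = (p, z) := by simp [g]
  rw [e1, e2] at h1
  rw [h1]
  refine (ContinuousMultilinearMap.norm_compContinuousLinearMap_le _ _).trans ?_
  refine mul_le_of_le_one_right (norm_nonneg _) ?_
  exact Finset.prod_le_one (fun _ _ => norm_nonneg _)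
    fun _ _ => ContinuousLinearMap.norm_inr_le_one ℝ P ℂ

/-- uniform bounds for a smooth family with supports in a fixed compact set -/
theorem c3_family {P : Type} [NormedAddCommGroup P] [NormedSpace ℝ P] {F : P → ℂ → ℂ}
    {W K : Set P} (hW : IsOpen W) (hK : IsCompact K) (hKW : K ⊆ W)
    (hF : ContDiffOn ℝ 3 (fun p : P × ℂ => F p.1 p.2) (W ×ˢ univ)) {Q : Set ℂ} (hQ : IsCompact Q)
    (h0 : ∀ p ∈ K, ∀ z, z ∉ Q → F p z = 0) : ∃ M : ℝ, ∀ p ∈ K, C3 M (F p) := by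
  have hb : ∀ k : Fin 4, ∃ M : ℝ, ∀ q ∈ K ×ˢ Q,
      ‖iteratedFDeriv ℝ k (fun p : P × ℂ => F p.1 p.2) q‖ ≤ M := by
    intro k
    have hk : (k : ℕ) ≤ 3 := Nat.lt_succ_iff.1 k.2
    have hc : ContinuousOn (iteratedFDeriv ℝ k fun p : P × ℂ => F p.1 p.2) (W ×ˢ univ) :=
      ContinuousOn.continuousOn_iteratedFDeriv hF (hW.prod isOpen_univ) (by exact_mod_cast hk)
    exact (hK.prod hQ).exists_bound_of_continuousOn
      (hc.mono (prod_mono hKW (subset_univ _)))
  choose M hM using hb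
  refine ⟨∑ k, |M k|, fun p hp => ⟨?_, fun k hk z => ?_⟩⟩
  · rw [← contDiffOn_univ]
    exact hF.comp (contDiff_const.prodMk contDiff_id).contDiffOn
      fun z _ => ⟨hKW hp, mem_univ z⟩
  · by_cases hz : z ∈ Q
    · have h1 := calc_slice hW hF (hKW hp) hk z
      have h2 := hM ⟨k, Nat.lt_succ_of_le hk⟩ (p, z) ⟨hp, hz⟩
      refine (h1.trans h2).trans ((le_abs_self _).trans ?_)
      exact Finset.single_le_sum (f := fun k => |M k|) (fun _ _ => abs_nonneg _) (Finset.mem_univ _)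
    · have he : F p =ᶠ[𝓝 z] fun _ => 0 := by
        filter_upwards [hQ.isClosed.isOpen_compl.mem_nhds hz] with w hw using h0 p hp w hw
      rw [(he.iteratedFDeriv ℝ k).eq_of_nhds]
      simp only [iteratedFDeriv_fun_zero, Pi.zero_apply, norm_zero]
      exact Finset.sum_nonneg fun _ _ => abs_nonneg _

/-- a function smooth on `W × Up` and vanishing off a compact subset of `Up` is smooth on
`W × univ` -/
theorem contDiffOn_extend {P V : Type} [NormedAddCommGroup P] [NormedSpace ℝ P]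
    [NormedAddCommGroup V] [NormedSpace ℝ V] {n : WithTop ℕ∞} {F : P × ℂ → V} {W : Set P}
    (hW : IsOpen W) (hF : ContDiffOn ℝ n F (W ×ˢ Up)) {Q : Set ℂ} (hQ : IsCompact Q) (hU : Q ⊆ Up)
    (h0 : ∀ p ∈ W, ∀ z, z ∉ Q → F (p, z) = 0) : ContDiffOn ℝ n F (W ×ˢ univ) := by
  rintro ⟨p, z⟩ ⟨hp, -⟩
  refine ContDiffAt.contDiffWithinAt ?_
  by_cases hz : z ∈ Q
  · exact hF.contDiffAt ((hW.prod isOpen_Up).mem_nhds ⟨hp, hU hz⟩)
  · have he : F =ᶠ[𝓝 (p, z)] fun _ => 0 := by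
      filter_upwards [(hW.prod hQ.isClosed.isOpen_compl).mem_nhds
        (show (p, z) ∈ W ×ˢ Qᶜ from ⟨hp, hz⟩)] with q hq using h0 q.1 hq.1 q.2 hq.2
    exact contDiffAt_const.congr_of_eventuallyEq he

/-- smoothness of parametric integrals against the hyperbolic area -/
theorem contDiffOn_int_muH {P : Type} [NormedAddCommGroup P] [NormedSpace ℝ P] {n : ℕ∞}
    {F : P × ℂ → ℂ} {W : Set P} (hW : IsOpen W) (hF : ContDiffOn ℝ n F (W ×ˢ Up)) {Q : Set ℂ}
    (hQ : IsCompact Q) (hU : Q ⊆ Up) (h0 : ∀ p ∈ W, ∀ z, z ∉ Q → F (p, z) = 0) :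
    ContDiffOn ℝ n (fun p => ∫ w, F (p, w) ∂muH) W := by
  have hE := contDiffOn_extend hW hF hQ hU h0
  have : IsFiniteMeasure (muH.restrict Q) := ⟨by
    rw [Measure.restrict_apply_univ]; exact muH_compact hQ hU⟩
  have hf : LocallyIntegrable (fun _ : ℂ => (1 : ℝ)) (muH.restrict Q) :=
    (integrable_const _).locallyIntegrable
  have hg : ContDiffOn ℝ n (fun q : P × ℂ => F (q.1, -q.2)) (W ×ˢ univ) :=
    hE.comp (contDiff_fst.prodMk contDiff_snd.neg).contDiffOn fun q hq => ⟨hq.1, mem_univ _⟩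
  have h1 := contDiffOn_convolution_right_with_param (𝕜 := ℝ) (μ := muH.restrict Q)
    (ContinuousLinearMap.lsmul ℝ ℝ : ℝ →L[ℝ] ℂ →L[ℝ] ℂ) (g := fun p x => F (p, -x)) hW hQ.neg
    (fun p x hp hx => h0 p hp _ fun h => hx (by simpa using h)) hf hg
  have h2 := h1.comp (contDiff_id.prodMk (contDiff_const (c := (0 : ℂ)))).contDiffOn
    (s := W) fun p hp => ⟨hp, mem_univ _⟩
  refine h2.congr fun p hp => ?_
  simp only [Function.comp, convolution, id, zero_sub, neg_neg, ContinuousLinearMap.lsmul_apply,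
    one_smul]
  exact (setIntegral_eq_integral_of_forall_compl_eq_zero fun w hw => h0 p hp w hw).symm

theorem Bd.mul {X : Type} [MeasurableSpace X] {u v : X → ℂ} (hu : Bd u) (hv : Bd v) :
    Bd fun x => u x * v x := by
  obtain ⟨M, hM⟩ := hu.bd
  obtain ⟨N, hN⟩ := hv.bd
  refine ⟨hu.meas.mul hv.meas, M * N, fun y => ?_⟩
  rw [norm_mul]
  exact mul_le_mul (hM y) (hN y) (norm_nonneg _) ((norm_nonneg _).trans (hM y))

theorem Bd.conj {X : Type} [MeasurableSpace X] {u : X → ℂ} (hu : Bd u) :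
    Bd fun x => conj (u x) := by
  obtain ⟨M, hM⟩ := hu.bd
  exact ⟨continuous_conj.measurable.comp hu.meas, M, fun y => by rw [norm_conj]; exact hM y⟩

theorem Bd.indicator {X : Type} [MeasurableSpace X] {u : X → ℂ} (hu : Bd u) {S : Set X}
    (hS : MeasurableSet S) : Bd (S.indicator u) := by
  obtain ⟨M, hM⟩ := hu.bd
  exact ⟨hu.meas.indicator hS, M, fun y => (norm_indicator_le_norm_self _ _).trans (hM y)⟩

theorem Bd.comp {X X' : Type} [MeasurableSpace X] [MeasurableSpace X'] {u : X → ℂ} (hu : Bd u)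
    {f : X' → X} (hf : Measurable f) : Bd fun x => u (f x) := by
  obtain ⟨M, hM⟩ := hu.bd
  exact ⟨hu.meas.comp hf, M, fun y => hM _⟩

theorem Bd.integrable {X : Type} [MeasurableSpace X] {u : X → ℂ} (hu : Bd u) (μ : Measure X)
    [IsFiniteMeasure μ] : Integrable u μ := by
  obtain ⟨M, hM⟩ := hu.bd
  exact Integrable.of_bound hu.meas.aestronglyMeasurable M (Eventually.of_forall hM)

theorem Bd.integrable_sq {X : Type} [MeasurableSpace X] {u : X → ℂ} (hu : Bd u) (μ : Measure X)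
    [IsFiniteMeasure μ] : Integrable (fun x => ‖u x‖ ^ 2) μ := by
  obtain ⟨M, hM⟩ := hu.bd
  refine Integrable.of_bound (hu.meas.norm.pow_const 2).aestronglyMeasurable (M ^ 2)
    (Eventually.of_forall fun y => ?_)
  rw [norm_pow, norm_norm]
  exact pow_le_pow_left₀ (norm_nonneg _) (hM y) 2

/-- a fibre integral of a bounded function is bounded -/
theorem Bd.integral {X X' : Type} [MeasurableSpace X] [MeasurableSpace X'] {u : X × X' → ℂ}
    (hu : Bd u) (μ : Measure X') [IsFiniteMeasure μ] : Bd fun x => ∫ x', u (x, x') ∂μ := by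
  obtain ⟨M, hM⟩ := hu.bd
  refine ⟨(hu.meas.stronglyMeasurable.integral_prod_right' (ν := μ)).measurable,
    M * μ.real univ, fun y => ?_⟩
  exact norm_integral_le_of_norm_le_const (Eventually.of_forall fun x' => hM _)

theorem Bd.tens {w w' : Y → ℂ} (hw : Bd w) (hw' : Bd w') : Bd (tens w w') :=
  (hw.comp measurable_fst).mul (hw'.comp measurable_snd).conj

theorem n2_nonneg {X : Type} [MeasurableSpace X] (μ : Measure X) (w : X → ℂ) : 0 ≤ n2 μ w :=
  integral_nonneg fun _ => sq_nonneg _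

theorem n2_indicator_le {X : Type} [MeasurableSpace X] (μ : Measure X) [IsFiniteMeasure μ]
    {w : X → ℂ} (hw : Bd w) {S : Set X} (hS : MeasurableSet S) :
    n2 μ (S.indicator w) ≤ n2 μ w :=
  integral_mono ((hw.indicator hS).integrable_sq μ) (hw.integrable_sq μ) fun _ =>
    pow_le_pow_left₀ (norm_nonneg _) (norm_indicator_le_norm_self _ _) 2

theorem n2_tens (m : Measure ℂ) [IsFiniteMeasure m] {w w' : Y → ℂ} (hw : Bd w) (hw' : Bd w') :
    n2 (nYY m) (tens w w') = n2 (nY m) w * n2 (nY m) w' := by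
  unfold n2 nYY tens
  rw [← integral_prod_mul]
  simp only [norm_mul, norm_conj, mul_pow]

/-- Cauchy-Schwarz -/
theorem cs {X : Type} [MeasurableSpace X] (μ : Measure X) [IsFiniteMeasure μ] {u v : X → ℂ}
    (hu : Bd u) (hv : Bd v) : ∫ x, ‖u x‖ * ‖v x‖ ∂μ ≤ √(n2 μ u) * √(n2 μ v) := by
  have hm : ∀ {w : X → ℂ}, Bd w → MemLp w (ENNReal.ofReal 2) μ := fun {w} hw => by
    obtain ⟨M, hM⟩ := hw.bd
    exact MemLp.of_bound hw.meas.aestronglyMeasurable M (Eventually.of_forall hM)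
  have := integral_mul_norm_le_Lp_mul_Lq Real.HolderConjugate.two_two (hm hu) (hm hv)
  simpa only [n2, Real.sqrt_eq_rpow, Real.rpow_two] using this

theorem nY_univ {m : Measure ℂ} [IsFiniteMeasure m] (hm : m univ ≤ 1) :
    (nY m).real univ ≤ 7 := by
  have h1 : m.real univ ≤ 1 := by
    have := ENNReal.toReal_mono ENNReal.one_ne_top hm
    simpa [Measure.real] using this
  have hpi := Real.pi_lt_d2
  have hp := Real.pi_pos
  unfold nY
  rw [← univ_prod_univ, measureReal_prod_prod, measureReal_restrict_apply_univ,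
    Real.volume_real_Ioc_of_le (by linarith)]
  have h0 : 0 ≤ m.real univ := measureReal_nonneg
  nlinarith

theorem l1_le {m : Measure ℂ} [IsFiniteMeasure m] (hm : m univ ≤ 1) {w : Y → ℂ} (hw : Bd w) :
    ∫ y, ‖w y‖ ∂nY m ≤ 3 * √(n2 (nY m) w) := by
  have h1 : Bd (fun _ : Y => (1 : ℂ)) := ⟨measurable_const, 1, fun _ => by simp⟩
  have h2 := cs (nY m) h1 hw
  have h3 : √(n2 (nY m) fun _ : Y => (1 : ℂ)) ≤ 3 := by
    refine Real.sqrt_le_iff.2 ⟨by norm_num, ?_⟩
    have := nY_univ hm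
    simp only [n2, norm_one, one_pow, integral_const, smul_eq_mul, mul_one]
    linarith
  simp only [norm_one, one_mul] at h2
  exact h2.trans (mul_le_mul_of_nonneg_right h3 (Real.sqrt_nonneg _))

section

attribute [local irreducible] mb PP be kk ph

theorem amp_norm_EE {M : ℝ} {A : Y → ℂ → ℂ} (h : Amp M A) (T : ℝ) (y : Y) (z : ℂ) :
    ‖EE A T y z‖ ≤ M := by
  unfold EE
  rw [norm_mul, norm_ph, mul_one]
  exact (h.c3 y).norm_le z

theorem amp_three : (3 : WithTop ℕ∞) ≤ ((⊤ : ℕ∞) : WithTop ℕ∞) :=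
  WithTop.coe_le_coe.2 (le_top (a := (3 : ℕ∞)))

theorem amp_compact_B0 : IsCompact B0 := isCompact_closedBall _ _

theorem amp_mem_B0 {z : ℂ} : z ∈ B0 ↔ ‖z - I‖ ≤ 1 / 20 := mem_closedBall_iff_norm

theorem amp_im_le (z : ℂ) : z.im ≤ 1 + ‖z - I‖ := by
  have h := (le_abs_self _).trans (abs_im_le_norm (z - I))
  simp only [sub_im, I_im] at h
  linarith

theorem amp_be_I {z : ℂ} (h : be z I ≠ 0) : ‖z - I‖ ≤ 1 / 200 := by
  simpa using (be_supp h).2.2

theorem amp_ofReal {P : Type} [NormedAddCommGroup P] [NormedSpace ℝ P] {n : WithTop ℕ∞}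
    {f : P → ℝ} {S : Set P} (h : ContDiffOn ℝ n f S) : ContDiffOn ℝ n (fun p => (f p : ℂ)) S :=
  ofRealCLM.contDiff.comp_contDiffOn h

theorem amp_fam {P : Type} [NormedAddCommGroup P] [NormedSpace ℝ P] {F : P → ℂ → ℂ}
    {W K : Set P} (hW : IsOpen W) (hK : IsCompact K) (hKW : K ⊆ W)
    (hF : ContDiffOn ℝ 3 (fun p : P × ℂ => F p.1 p.2) (W ×ˢ Up))
    (h0 : ∀ p ∈ W, ∀ z, z ∉ B0 → F p z = 0) : ∃ M : ℝ, ∀ p ∈ K, C3 M (F p) :=
  c3_family hW hK hKW (contDiffOn_extend hW hF amp_compact_B0 B0_sub h0) amp_compact_B0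
    fun p hp => h0 p (hKW hp)

theorem amp_red (θ : ℝ) : ∃ θ' ∈ Icc (0 : ℝ) (2 * Real.pi), kk θ = kk θ' ∧ PP θ = PP θ' := by
  have hp : Function.Periodic (fun θ => (kk θ, PP θ)) (2 * Real.pi) := fun θ =>
    Prod.ext (kk_per θ) (funext fun z => PP_per θ z)
  obtain ⟨y, hy, e⟩ := hp.exists_mem_Ico₀ Real.two_pi_pos θ
  exact ⟨y, Ico_subset_Icc_self hy, congrArg Prod.fst e, congrArg Prod.snd e⟩

theorem amp_contDiff_kk {n : WithTop ℕ∞} : ContDiff ℝ n kk := by
  unfold kk rot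
  have h1 : ContDiff ℝ n fun θ : ℝ => (θ : ℂ) * I := ofRealCLM.contDiff.mul contDiff_const
  exact (h1.cexp).smul contDiff_const

theorem amp_im_sq {P : Type} [NormedAddCommGroup P] [NormedSpace ℝ P] {n : WithTop ℕ∞}
    {S : Set (P × ℂ)} : ContDiffOn ℝ n (fun p : P × ℂ => p.2.im ^ 2) S :=
  ((imCLM.contDiff.comp contDiff_snd).pow 2).contDiffOn

theorem Amp.nonneg {M : ℝ} {A : Y → ℂ → ℂ} (h : Amp M A) : 0 ≤ M := (h.c3 (0, 0)).nonneg

theorem Amp.bd_EE {M : ℝ} {A : Y → ℂ → ℂ} (h : Amp M A) (T : ℝ) :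
    Bd fun p : Y × ℂ => EE A T p.1 p.2 :=
  ⟨h.meas.mul ((measurable_ph T).comp (measurable_fst.snd.prodMk measurable_snd)),
    M, fun p => amp_norm_EE h T p.1 p.2⟩

theorem Amp.norm_EE {M : ℝ} {A : Y → ℂ → ℂ} (h : Amp M A) (T : ℝ) (y : Y) (z : ℂ) :
    ‖EE A T y z‖ ≤ M := amp_norm_EE h T y z

theorem Amp.bd_E2 {M : ℝ} {A : Y → ℂ → ℂ} (h : Amp M A) (T : ℝ) :
    Bd fun p : (Y × Y) × ℂ => E2 A T p.1 p.2 :=
  ((h.bd_EE T).comp (measurable_fst.fst.prodMk measurable_snd)).mul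
    ((h.bd_EE T).comp (measurable_fst.snd.prodMk measurable_snd)).conj

theorem Amp.bd_ext {M : ℝ} {A : Y → ℂ → ℂ} (h : Amp M A) (m : Measure ℂ) [IsFiniteMeasure m]
    (T : ℝ) {w : Y → ℂ} (hw : Bd w) : Bd (ext m A T w) :=
  (((h.bd_EE T).comp (measurable_snd.prodMk measurable_fst)).mul
    (hw.comp (measurable_snd (α := ℂ)))).integral (nY m)

theorem Amp.bd_ext2 {M : ℝ} {A : Y → ℂ → ℂ} (h : Amp M A) (m : Measure ℂ) [IsFiniteMeasure m]
    (T : ℝ) {k : Y × Y → ℂ} (hk : Bd k) : Bd (ext2 m A T k) :=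
  (((h.bd_E2 T).comp (measurable_snd.prodMk measurable_fst)).mul
    (hk.comp (measurable_snd (α := ℂ)))).integral (nYY m)

theorem Amp.ext_zero {M : ℝ} {A : Y → ℂ → ℂ} (h : Amp M A) (m : Measure ℂ) (T : ℝ) (w : Y → ℂ)
    {z : ℂ} (hz : z ∉ B0) : ext m A T w z = 0 := by
  simp [ext, EE, h.supp _ z hz]

theorem Amp.bd_res {M : ℝ} {A : Y → ℂ → ℂ} (h : Amp M A) (T : ℝ) {F : ℂ → ℂ} (hF : Measurable F)
    (hb : ∃ C : ℝ, ∀ z ∈ B0, ‖F z‖ ≤ C) : Bd (res A T F) := by
  have hm : MeasurableSet B0 := amp_compact_B0.measurableSet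
  have : IsFiniteMeasure (volume.restrict B0 : Measure ℂ) :=
    isFiniteMeasure_restrict.2 amp_compact_B0.measure_lt_top.ne
  obtain ⟨C, hC⟩ := hb
  have h1 : Bd (B0.indicator F) := by
    refine ⟨hF.indicator hm, max C 0, fun z => ?_⟩
    by_cases hz : z ∈ B0
    · rw [indicator_of_mem hz]; exact (hC z hz).trans (le_max_left _ _)
    · rw [indicator_of_notMem hz, norm_zero]; exact le_max_right _ _
  have h2 := ((h.bd_EE T).conj.mul (h1.comp (measurable_snd (α := Y)))).integral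
    (volume.restrict B0)
  have e : res A T F = fun y => ∫ z in B0, conj (EE A T y z) * B0.indicator F z := by
    funext y
    exact setIntegral_congr_fun hm fun z hz => by simp only [indicator_of_mem hz]
  rw [e]
  exact h2

instance : IsFiniteMeasure mU :=
  isFiniteMeasure_restrict.2 (isCompact_closedBall _ _).measure_lt_top.ne

theorem mU_univ : mU univ ≤ 1 := by
  unfold mU U0
  rw [Measure.restrict_apply_univ, Complex.volume_closedBall]
  have h : ((NNReal.pi : ℝ≥0∞)) = ENNReal.ofReal Real.pi := by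
    rw [← NNReal.coe_real_pi, ENNReal.ofReal_coe_nnreal]
  rw [h, ← ENNReal.ofReal_pow (by norm_num), ← ENNReal.ofReal_mul (by norm_num),
    ENNReal.ofReal_le_one]
  linarith [Real.pi_le_four]

theorem amp_A0 : ∃ M : ℝ, Amp M A0 := by
  have hz : ∀ p : Y, p.1 ∈ Metric.ball I (1 / 40) → ∀ z, z ∉ B0 → be z p.1 = 0 := by
    intro p hp z hz
    by_contra hne
    apply hz
    have h1 := (be_supp hne).2.2
    have h2 := amp_im_le p.1
    have h3 : ‖p.1 - I‖ < 1 / 40 := mem_ball_iff_norm.1 hp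
    have h4 := norm_sub_le_norm_sub_add_norm_sub z p.1 I
    rw [amp_mem_B0]
    linarith
  have hU : U0 ⊆ Metric.ball I (1 / 40) := Metric.closedBall_subset_ball (by norm_num)
  obtain ⟨M, hM⟩ := amp_fam (F := fun (p : Y) z => ((be z p.1 * √(PP p.2 z) : ℝ) : ℂ))
    (W := Metric.ball I (1 / 40) ×ˢ univ) (K := U0 ×ˢ Icc 0 (2 * Real.pi))
    (Metric.isOpen_ball.prod isOpen_univ) ((isCompact_closedBall _ _).prod isCompact_Icc)
    (prod_mono hU (subset_univ _)) (by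
      refine amp_ofReal (ContDiffOn.mul ?_ ?_)
      · simp only [be_symm _ (Prod.fst _ : Y).1]
        exact (contDiffOn_be (n := 3)).comp
          (contDiff_fst.fst.prodMk contDiff_snd).contDiffOn fun p hp => ⟨trivial, hp.2⟩
      · exact contDiffOn_sqrt_PP.comp
          (contDiff_fst.snd.prodMk contDiff_snd).contDiffOn fun p hp => ⟨trivial, hp.2⟩)
    (fun p hp z h => by simp [hz p hp.1 z h])
  refine ⟨max M 0, ?_, fun y => ?_, fun y z h => ?_⟩
  · unfold A0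
    refine Measurable.ite (measurable_fst.fst (isCompact_closedBall _ _).measurableSet) ?_
      measurable_const
    exact measurable_ofReal.comp ((measurable_be.comp (measurable_snd.prodMk
      measurable_fst.fst)).mul (measurable_PP.comp (measurable_fst.snd.prodMk measurable_snd)).sqrt)
  · by_cases hy : y.1 ∈ U0
    · obtain ⟨θ, hθ, -, e⟩ := amp_red y.2
      have h1 := (hM (y.1, θ) ⟨hy, hθ⟩).mono (le_max_left M 0)
      have e' : A0 y = fun z => ((be z y.1 * √(PP θ z) : ℝ) : ℂ) := by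
        funext z; unfold A0; rw [if_pos hy, e]
      rw [e']
      exact h1
    · have e' : A0 y = fun _ => 0 := by
        funext z; unfold A0; rw [if_neg hy]
      rw [e']
      exact C3.zero.mono (le_max_right _ _)
  · unfold A0
    split_ifs with hy
    · simp [hz y (hU hy) z h]
    · rfl

theorem bump_sg : Bump fun w => (sg w : ℂ) := by
  constructor
  · have e : (fun w => (sg w : ℂ)) = fun w => ∫ u, ((be I u * be w u : ℝ) : ℂ) ∂muH := by
      funext w
      exact (integral_complex_ofReal).symm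
    rw [e, ← contDiffOn_univ]
    refine contDiffOn_int_muH (F := fun p : ℂ × ℂ => ((be I p.2 * be p.1 p.2 : ℝ) : ℂ))
      isOpen_univ (amp_ofReal (ContDiffOn.mul ?_ contDiffOn_be)) amp_compact_B0 B0_sub ?_
    · exact contDiffOn_be.comp (contDiff_const.prodMk contDiff_snd).contDiffOn
        fun p hp => ⟨trivial, hp.2⟩
    · intro p _ z hz
      have : be I z = 0 := by
        by_contra hne
        rw [be_symm] at hne
        exact hz (amp_mem_B0.2 ((amp_be_I hne).trans (by norm_num)))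
      simp [this]
  · intro w hw
    have : ∀ u, be I u * be w u = 0 := by
      intro u
      by_contra hne
      have h1 := amp_be_I (be_symm I u ▸ left_ne_zero_of_mul hne)
      have h2 := (be_supp (right_ne_zero_of_mul hne)).2.2
      have h3 := amp_im_le u
      have h4 := norm_sub_le_norm_sub_add_norm_sub w u I
      linarith
    simp [sg, this]

theorem sg_kk (θ : ℝ) {w : ℂ} (hw : w ∈ Up) : sg (mb (kk θ) w) = sg w := by
  unfold sg
  rw [← int_mb (kk_mem θ)]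
  refine integral_congr_ae (ae_Up.mono fun u hu => ?_)
  have hI : I ∈ Up := by simp [Up]
  have h1 := be_mb (kk_mem θ) hI hu
  rw [mb_kk_I] at h1
  simp only [h1, be_mb (kk_mem θ) hw hu]

/-- the amplitude attached to a bump (zero outside the upper half plane) -/
theorem amp_bump {m : ℂ → ℂ} (hm : Bump m) : ∃ (M : ℝ) (A : Y → ℂ → ℂ), Amp M A ∧
    ∀ (y : Y), ∀ w ∈ Up, A y w = conj (m (mb (kk y.2) w)) * ((√(PP y.2 w) / w.im ^ 2 : ℝ) : ℂ) := by
  set F : ℝ → ℂ → ℂ := fun θ => Up.indicator fun w =>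
    conj (m (mb (kk θ) w)) * ((√(PP θ w) / w.im ^ 2 : ℝ) : ℂ) with hF
  have h0 : ∀ θ z, z ∉ B0 → F θ z = 0 := by
    intro θ z hz
    by_cases hu : z ∈ Up
    · have : m (mb (kk θ) z) = 0 := by
        apply hm.supp
        by_contra hc
        exact hz (amp_mem_B0.2 (kk_ball θ hu (not_lt.1 hc)))
      simp [hF, indicator_of_mem hu, this]
    · simp only [hF, indicator_of_notMem hu]
  have hm3 : ContDiff ℝ 3 m := hm.smooth.of_le amp_three
  obtain ⟨M, hM⟩ := amp_fam (F := F) (W := univ) (K := Icc 0 (2 * Real.pi)) isOpen_univ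
    isCompact_Icc (subset_univ _) (by
      refine ContDiffOn.congr (f := fun p : ℝ × ℂ =>
        conj (m (mb (kk p.1) p.2)) * ((√(PP p.1 p.2) / p.2.im ^ 2 : ℝ) : ℂ)) ?_
        fun p hp => by simp only [hF, indicator_of_mem hp.2]
      refine ContDiffOn.mul ?_ (amp_ofReal (contDiffOn_sqrt_PP.div amp_im_sq
        fun p hp => pow_ne_zero 2 (ne_of_gt hp.2)))
      refine conjCLE.contDiff.comp_contDiffOn (hm3.comp_contDiffOn ?_)
      exact contDiffOn_mb.comp ((amp_contDiff_kk.comp contDiff_fst).prodMk contDiff_snd).contDiffOn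
        fun p hp => ⟨kk_mem _, hp.2⟩)
    fun θ _ => h0 θ
  refine ⟨M, fun y => F y.2, ⟨?_, fun y => ?_, fun y => h0 y.2⟩, fun y w hw => ?_⟩
  · have e : (fun p : Y × ℂ => F p.1.2 p.2) = (Prod.snd ⁻¹' Up).indicator fun p : Y × ℂ =>
        conj (m (mb (kk p.1.2) p.2)) * ((√(PP p.1.2 p.2) / p.2.im ^ 2 : ℝ) : ℂ) := by
      funext p
      by_cases hp : p.2 ∈ Up
      · rw [indicator_of_mem (show p ∈ Prod.snd ⁻¹' Up from hp)]
        simp only [hF, indicator_of_mem hp]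
      · rw [indicator_of_notMem (show p ∉ Prod.snd ⁻¹' Up from hp)]
        simp only [hF, indicator_of_notMem hp]
    have hk : Measurable fun p : Y × ℂ => ((kk p.1.2, p.2) : E × ℂ) :=
      ((amp_contDiff_kk (n := 0)).continuous.measurable.comp measurable_fst.snd).prodMk
        measurable_snd
    have h1 : Measurable fun p : Y × ℂ => mb (kk p.1.2) p.2 := by
      simpa only [Function.comp_def] using measurable_mb.comp hk
    have h2 : Measurable fun p : Y × ℂ => conj (m (mb (kk p.1.2) p.2)) :=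
      continuous_conj.measurable.comp (hm3.continuous.measurable.comp h1)
    have h3 : Measurable fun p : Y × ℂ => PP p.1.2 p.2 :=
      Measurable.comp (g := fun q : ℝ × ℂ => PP q.1 q.2) measurable_PP
        (measurable_fst.snd.prodMk measurable_snd)
    have h4 : Measurable fun p : Y × ℂ => ((√(PP p.1.2 p.2) / p.2.im ^ 2 : ℝ) : ℂ) :=
      measurable_ofReal.comp (h3.sqrt.div ((measurable_im.comp measurable_snd).pow_const 2))
    rw [e]
    exact (h2.mul h4).indicator (measurable_snd isOpen_Up.measurableSet)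
  · obtain ⟨θ, hθ, e1, e2⟩ := amp_red y.2
    have e : F y.2 = F θ := by simp only [hF, e1, e2]
    rw [e]
    exact hM θ hθ
  · simp only [hF, indicator_of_mem hw]

/-- uniform bounds for the patches of a smooth function -/
theorem c3_patch {ψ : ℂ → ℝ} (hs : ∀ n : ℕ, ContDiffOn ℝ n ψ Up) {K : Set ℂ} (hK : IsCompact K)
    (hU : K ⊆ Up) : ∃ M : ℝ, ∀ z₀ ∈ K,
      C3 M fun z => ((be z I * ψ (mb (z₀, 1) z) / z.im ^ 2 : ℝ) : ℂ) := by
  refine amp_fam (F := fun z₀ z => ((be z I * ψ (mb (z₀, 1) z) / z.im ^ 2 : ℝ) : ℂ)) isOpen_Up hK hU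
    (amp_ofReal (ContDiffOn.div (ContDiffOn.mul ?_ ?_) amp_im_sq
      fun p hp => pow_ne_zero 2 (ne_of_gt hp.2))) ?_
  · simp only [be_symm _ I]
    exact (contDiffOn_be (n := 3)).comp (contDiff_const.prodMk contDiff_snd).contDiffOn
      fun p hp => ⟨trivial, hp.2⟩
  · refine (hs 3).comp (contDiffOn_mb.comp
      ((contDiff_fst.prodMk contDiff_const).prodMk contDiff_snd).contDiffOn
      fun p hp => ⟨aff_mem hp.1, hp.2⟩) fun p hp => mb_mem (aff_mem hp.1) hp.2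
  · intro p _ z hz
    have : be z I = 0 := by
      by_contra hne
      exact hz (amp_mem_B0.2 ((amp_be_I hne).trans (by norm_num)))
    simp [this]

theorem amp_exists_bump {ρ : ℝ} (hρ : 0 < ρ) : ∃ κ : ℂ → ℝ, ContDiff ℝ (⊤ : ℕ∞) κ ∧
    (∀ z, 0 ≤ κ z) ∧ (∀ z, ρ < ‖z‖ → κ z = 0) ∧ ∫ z, κ z = 1 := by
  let φ : ContDiffBump (0 : ℂ) := ⟨ρ / 2, ρ, by linarith, by linarith⟩
  refine ⟨φ.normed volume, φ.contDiff_normed, φ.nonneg_normed, fun z hz => ?_, φ.integral_normed⟩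
  by_contra hne
  have : z ∈ Function.support (φ.normed volume) := hne
  rw [φ.support_normed_eq, mem_ball_zero_iff] at this
  exact absurd this (not_lt.2 hz.le)

/-- a normalised bump whose square has integral one -/
theorem exists_sq_bump {ρ : ℝ} (hρ : 0 < ρ) : ∃ (M : ℝ) (κ : ℂ → ℝ),
    C3 M (fun z => (κ z : ℂ)) ∧ (∀ z, ρ < ‖z‖ → κ z = 0) ∧ ∫ z, κ z ^ 2 = 1 := by
  obtain ⟨φ, h1, -, h3, h4⟩ := amp_exists_bump hρ
  have hs : ∀ z, z ∉ Metric.closedBall (0 : ℂ) ρ → φ z = 0 := fun z hz =>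
    h3 z (by simpa using hz)
  obtain ⟨x, hx⟩ : ∃ x, φ x ≠ 0 := by
    by_contra hc
    push Not at hc
    simp [hc] at h4
  have hpos : 0 < ∫ z, φ z ^ 2 :=
    Continuous.integral_pos_of_hasCompactSupport_nonneg_nonzero (h1.continuous.pow 2)
      (HasCompactSupport.intro (isCompact_closedBall (0 : ℂ) ρ) fun z hz => by simp [hs z hz])
      (fun z => sq_nonneg _) (x := x) (pow_ne_zero 2 hx)
  set c := ∫ z, φ z ^ 2 with hc
  have h5 : ContDiff ℝ 3 fun z => φ z / √c := (h1.of_le amp_three).div_const _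
  obtain ⟨M, hM⟩ := c3_family (P := ℝ) (F := fun _ z => ((φ z / √c : ℝ) : ℂ)) (K := {0})
    isOpen_univ isCompact_singleton (subset_univ _)
    (amp_ofReal (h5.comp contDiff_snd).contDiffOn) (isCompact_closedBall (0 : ℂ) ρ)
    fun _ _ z hz => by simp [hs z hz]
  refine ⟨M, fun z => φ z / √c, hM 0 rfl, fun z hz => by simp [h3 z hz], ?_⟩
  simp only [div_pow, Real.sq_sqrt hpos.le]
  rw [integral_div, ← hc, div_self hpos.ne']

theorem exists_bump {ρ : ℝ} (hρ : 0 < ρ) : ∃ κ : ℂ → ℝ, ContDiff ℝ (⊤ : ℕ∞) κ ∧ (∀ z, 0 ≤ κ z) ∧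
    (∀ z, ρ < ‖z‖ → κ z = 0) ∧ ∫ z, κ z = 1 := amp_exists_bump hρ

end

/-! Schur test and the integrals of the model kernels. -/

theorem schur_opt {x S A B : ℝ} (hS : 0 ≤ S) (hA : 0 ≤ A) (hB : 0 ≤ B)
    (h : ∀ c : ℝ, 0 < c → x ≤ S * (c * A + B / c) / 2) : x ≤ S * (√A * √B) := by
  have key : ∀ ε : ℝ, 0 < ε → x ≤ S * ((√A + ε) * (√B + ε)) := by
    intro ε hε
    have ha0 := Real.sqrt_nonneg A
    have hb0 := Real.sqrt_nonneg B
    have ha : 0 < √A + ε := by linarith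
    have hb : 0 < √B + ε := by linarith
    have hA' : A ≤ (√A + ε) ^ 2 := by
      have := Real.sq_sqrt hA
      nlinarith
    have hB' : B ≤ (√B + ε) ^ 2 := by
      have := Real.sq_sqrt hB
      nlinarith
    have hc : 0 < (√B + ε) / (√A + ε) := div_pos hb ha
    refine (h _ hc).trans ?_
    have e1 : (√B + ε) / (√A + ε) * A ≤ (√A + ε) * (√B + ε) := by
      calc (√B + ε) / (√A + ε) * A ≤ (√B + ε) / (√A + ε) * (√A + ε) ^ 2 :=
            mul_le_mul_of_nonneg_left hA' hc.le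
        _ = (√A + ε) * (√B + ε) := by field_simp
    have e2 : B / ((√B + ε) / (√A + ε)) ≤ (√A + ε) * (√B + ε) := by
      calc B / ((√B + ε) / (√A + ε)) ≤ (√B + ε) ^ 2 / ((√B + ε) / (√A + ε)) :=
            div_le_div_of_nonneg_right hB' hc.le
        _ = (√A + ε) * (√B + ε) := by field_simp
    have e3 : ((√B + ε) / (√A + ε) * A + B / ((√B + ε) / (√A + ε))) / 2
        ≤ (√A + ε) * (√B + ε) := by linarith
    rw [mul_div_assoc]
    exact mul_le_mul_of_nonneg_left e3 hS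
  have hc : Continuous fun ε : ℝ => S * ((√A + ε) * (√B + ε)) := by fun_prop
  have ht : Tendsto (fun ε : ℝ => S * ((√A + ε) * (√B + ε))) (𝓝[>] 0) (𝓝 (S * (√A * √B))) := by
    have := (hc.tendsto 0).mono_left (nhdsWithin_le_nhds (s := Ioi 0))
    simpa using this
  exact ge_of_tendsto ht (eventually_nhdsWithin_of_forall fun ε hε => key ε hε)

theorem schur_int {Z : Type} [MeasurableSpace Z] (ν : Measure Z) [IsFiniteMeasure ν]
    {F : Z → ℝ} (hF : Measurable F) {M : ℝ} (h0 : ∀ z, 0 ≤ F z) (hM : ∀ z, F z ≤ M) :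
    Integrable F ν :=
  Integrable.of_bound hF.aestronglyMeasurable M
    (Eventually.of_forall fun z => by rw [Real.norm_of_nonneg (h0 z)]; exact hM z)

/-- Schur test: `κ |u| |v| ≤ κ (c |u|² + |v|² / c) / 2`, or Cauchy-Schwarz on the product -/
theorem schur {X X' : Type} [MeasurableSpace X] [MeasurableSpace X'] (μ : Measure X)
    (μ' : Measure X') [IsFiniteMeasure μ] [IsFiniteMeasure μ'] {κ : X → X' → ℝ}
    (hm : Measurable fun p : X × X' => κ p.1 p.2) (h0 : ∀ x x', 0 ≤ κ x x') {b : ℝ}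
    (hb : ∀ x x', κ x x' ≤ b) {S : ℝ} (h1 : ∀ x, ∫ x', κ x x' ∂μ' ≤ S)
    (h2 : ∀ x', ∫ x, κ x x' ∂μ ≤ S) {u : X → ℂ} {v : X' → ℂ} (hu : Bd u) (hv : Bd v) :
    ∫ x, ∫ x', κ x x' * (‖u x‖ * ‖v x'‖) ∂μ' ∂μ ≤ S * (√(n2 μ u) * √(n2 μ' v)) := by
  rcases isEmpty_or_nonempty X with hX | ⟨⟨x₀⟩⟩
  · simp [n2, integral_of_isEmpty]
  have hS : 0 ≤ S := (integral_nonneg fun x' => h0 x₀ x').trans (h1 x₀)
  obtain ⟨Mu, hMu⟩ := hu.bd
  obtain ⟨Mv, hMv⟩ := hv.bd
  have mu := hu.meas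
  have mv := hv.meas
  have hA : 0 ≤ n2 μ u := integral_nonneg fun x => by positivity
  have hB : 0 ≤ n2 μ' v := integral_nonneg fun x => by positivity
  have m1 : Measurable fun p : X × X' => ‖u p.1‖ := (mu.comp measurable_fst).norm
  have m2 : Measurable fun p : X × X' => ‖v p.2‖ := (mv.comp measurable_snd).norm
  have iF : Integrable (fun p : X × X' => κ p.1 p.2 * (‖u p.1‖ * ‖v p.2‖)) (μ.prod μ') :=
    schur_int _ (hm.mul (m1.mul m2)) (M := b * (Mu * Mv))
      (fun p => mul_nonneg (h0 _ _) (by positivity))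
      (fun p => mul_le_mul (hb _ _)
        (mul_le_mul (hMu _) (hMv _) (norm_nonneg _) ((norm_nonneg _).trans (hMu p.1)))
        (by positivity) ((h0 p.1 p.2).trans (hb _ _)))
  have iG : Integrable (fun p : X × X' => ‖u p.1‖ ^ 2 * κ p.1 p.2) (μ.prod μ') :=
    schur_int _ ((m1.pow_const 2).mul hm) (M := Mu ^ 2 * b)
      (fun p => mul_nonneg (by positivity) (h0 _ _))
      (fun p => mul_le_mul (pow_le_pow_left₀ (norm_nonneg _) (hMu _) 2) (hb _ _) (h0 _ _)
        (by positivity))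
  have iH : Integrable (fun p : X × X' => ‖v p.2‖ ^ 2 * κ p.1 p.2) (μ.prod μ') :=
    schur_int _ ((m2.pow_const 2).mul hm) (M := Mv ^ 2 * b)
      (fun p => mul_nonneg (by positivity) (h0 _ _))
      (fun p => mul_le_mul (pow_le_pow_left₀ (norm_nonneg _) (hMv _) 2) (hb _ _) (h0 _ _)
        (by positivity))
  have iu : Integrable (fun x => ‖u x‖ ^ 2) μ :=
    schur_int _ (mu.norm.pow_const 2) (M := Mu ^ 2) (fun x => by positivity)
      (fun x => pow_le_pow_left₀ (norm_nonneg _) (hMu _) 2)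
  have iv : Integrable (fun x => ‖v x‖ ^ 2) μ' :=
    schur_int _ (mv.norm.pow_const 2) (M := Mv ^ 2) (fun x => by positivity)
      (fun x => pow_le_pow_left₀ (norm_nonneg _) (hMv _) 2)
  have eG : ∫ p, ‖u p.1‖ ^ 2 * κ p.1 p.2 ∂μ.prod μ' ≤ S * n2 μ u := by
    rw [integral_prod _ iG, n2, ← integral_const_mul]
    refine integral_mono iG.integral_prod_left (iu.const_mul S) fun x => ?_
    simp only [integral_const_mul]
    rw [mul_comm S]
    exact mul_le_mul_of_nonneg_left (h1 x) (by positivity)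
  have eH : ∫ p, ‖v p.2‖ ^ 2 * κ p.1 p.2 ∂μ.prod μ' ≤ S * n2 μ' v := by
    rw [integral_prod_symm _ iH, n2, ← integral_const_mul]
    refine integral_mono iH.integral_prod_right (iv.const_mul S) fun x => ?_
    simp only [integral_const_mul]
    rw [mul_comm S]
    exact mul_le_mul_of_nonneg_left (h2 x) (by positivity)
  refine schur_opt hS hA hB fun c hc => ?_
  rw [← integral_prod _ iF]
  calc ∫ p, κ p.1 p.2 * (‖u p.1‖ * ‖v p.2‖) ∂μ.prod μ'
      ≤ ∫ p, (c / 2 * (‖u p.1‖ ^ 2 * κ p.1 p.2) + 1 / (2 * c) * (‖v p.2‖ ^ 2 * κ p.1 p.2))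
          ∂μ.prod μ' := by
        refine integral_mono iF ((iG.const_mul _).add (iH.const_mul _)) fun p => ?_
        have hk := h0 p.1 p.2
        have e : c / 2 * (‖u p.1‖ ^ 2 * κ p.1 p.2) + 1 / (2 * c) * (‖v p.2‖ ^ 2 * κ p.1 p.2)
            - κ p.1 p.2 * (‖u p.1‖ * ‖v p.2‖)
            = κ p.1 p.2 * (c * ‖u p.1‖ - ‖v p.2‖) ^ 2 / (2 * c) := by
          field_simp
          ring
        have : 0 ≤ κ p.1 p.2 * (c * ‖u p.1‖ - ‖v p.2‖) ^ 2 / (2 * c) := by positivity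
        simp only
        linarith
    _ = c / 2 * ∫ p, ‖u p.1‖ ^ 2 * κ p.1 p.2 ∂μ.prod μ'
          + 1 / (2 * c) * ∫ p, ‖v p.2‖ ^ 2 * κ p.1 p.2 ∂μ.prod μ' := by
        rw [integral_add (iG.const_mul _) (iH.const_mul _), integral_const_mul, integral_const_mul]
    _ ≤ c / 2 * (S * n2 μ u) + 1 / (2 * c) * (S * n2 μ' v) :=
        add_le_add (mul_le_mul_of_nonneg_left eG (by positivity))
          (mul_le_mul_of_nonneg_left eH (by positivity))
    _ = S * (c * n2 μ u + n2 μ' v / c) / 2 := by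
        field_simp

theorem schur_one_le {T : ℝ} (hT : 0 ≤ T) (a : ℝ) : 1 ≤ 1 + T * |Real.sin a| :=
  le_add_of_nonneg_right (mul_nonneg hT (abs_nonneg _))

theorem Jk_nonneg {T : ℝ} (hT : 0 ≤ T) (a : ℝ) : 0 ≤ Jk T a :=
  Real.rpow_nonneg (zero_le_one.trans (schur_one_le hT a)) _

theorem Jk_le_one {T : ℝ} (hT : 0 ≤ T) (a : ℝ) : Jk T a ≤ 1 :=
  Real.rpow_le_one_of_one_le_of_nonpos (schur_one_le hT a) (by norm_num)

theorem Jk_neg (T a : ℝ) : Jk T (-a) = Jk T a := by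
  simp [Jk]

theorem measurable_Jk (T : ℝ) : Measurable (Jk T) := by
  unfold Jk
  fun_prop

theorem schur_cube {D : ℝ} (hD : 0 < D) : 1 / D ^ 3 = D ^ (-3 : ℝ) := by
  rw [Real.rpow_neg hD.le, one_div]
  norm_num

theorem inv_cube_le {T : ℝ} (hT : 0 ≤ T) (a : ℝ) :
    1 / (1 + T * |Real.sin a|) ^ 3 ≤ Jk T a := by
  have h := schur_one_le hT a
  rw [schur_cube (zero_lt_one.trans_le h)]
  exact Real.rpow_le_rpow_of_exponent_le h (by norm_num)

theorem schur_prod {t T : ℝ} (ht : 0 ≤ t) (hT : 0 ≤ T) (a b : ℝ) :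
    (1 + t * |Real.sin a| + T * |Real.sin b|) ^ (-(5 / 2) : ℝ) ≤ Jk t a * Jk T b := by
  have p1 : 0 ≤ t * |Real.sin a| := mul_nonneg ht (abs_nonneg _)
  have p2 : 0 ≤ T * |Real.sin b| := mul_nonneg hT (abs_nonneg _)
  have hD : 0 < 1 + t * |Real.sin a| + T * |Real.sin b| := by linarith
  have e : (-(5 / 2) : ℝ) = -(5 / 4) + -(5 / 4) := by norm_num
  rw [e, Real.rpow_add hD]
  refine mul_le_mul ?_ ?_ (Real.rpow_nonneg hD.le _) (Jk_nonneg ht a)
  · exact Real.rpow_le_rpow_of_nonpos (by linarith) (by linarith) (by norm_num)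
  · exact Real.rpow_le_rpow_of_nonpos (by linarith) (by linarith) (by norm_num)

theorem inv_cube_le₂ {t T : ℝ} (ht : 0 ≤ t) (hT : 0 ≤ T) (a b : ℝ) :
    1 / (1 + t * |Real.sin a| + T * |Real.sin b|) ^ 3 ≤ Jk t a * Jk T b := by
  have p1 : 0 ≤ t * |Real.sin a| := mul_nonneg ht (abs_nonneg _)
  have p2 : 0 ≤ T * |Real.sin b| := mul_nonneg hT (abs_nonneg _)
  have h : 1 ≤ 1 + t * |Real.sin a| + T * |Real.sin b| := by linarith
  rw [schur_cube (zero_lt_one.trans_le h)]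
  exact (Real.rpow_le_rpow_of_exponent_le h (by norm_num)).trans (schur_prod ht hT a b)

theorem schur_interp {D x C σ : ℝ} (hD : 0 < D) (hC : 0 ≤ C) (hσ : 0 ≤ σ) (h1 : x ≤ C * σ * D)
    (h2 : x ≤ C / D ^ 3) : x ≤ C * σ ^ (1 / 8 : ℝ) * D ^ (-(5 / 2) : ℝ) := by
  rcases le_total σ (D ^ (-4 : ℝ)) with h | h
  · refine h1.trans ?_
    have e1 : σ = σ ^ (1 / 8 : ℝ) * σ ^ (7 / 8 : ℝ) := by
      rw [← Real.rpow_add' hσ (by norm_num)]
      norm_num
    have e2 : σ ^ (7 / 8 : ℝ) ≤ D ^ (-(7 / 2) : ℝ) := by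
      calc σ ^ (7 / 8 : ℝ) ≤ (D ^ (-4 : ℝ)) ^ (7 / 8 : ℝ) :=
            Real.rpow_le_rpow hσ h (by norm_num)
        _ = D ^ (-(7 / 2) : ℝ) := by
            rw [← Real.rpow_mul hD.le]
            norm_num
    have e3 : D ^ (-(5 / 2) : ℝ) = D ^ (-(7 / 2) : ℝ) * D := by
      rw [← Real.rpow_add_one hD.ne']
      norm_num
    have p : 0 ≤ C * σ ^ (1 / 8 : ℝ) := mul_nonneg hC (Real.rpow_nonneg hσ _)
    calc C * σ * D = C * σ ^ (1 / 8 : ℝ) * (σ ^ (7 / 8 : ℝ) * D) := by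
          conv_lhs => rw [e1]
          ring
      _ ≤ C * σ ^ (1 / 8 : ℝ) * (D ^ (-(7 / 2) : ℝ) * D) :=
          mul_le_mul_of_nonneg_left (mul_le_mul_of_nonneg_right e2 hD.le) p
      _ = _ := by rw [e3]
  · refine h2.trans ?_
    have e2 : D ^ (-(1 / 2) : ℝ) ≤ σ ^ (1 / 8 : ℝ) := by
      calc D ^ (-(1 / 2) : ℝ) = (D ^ (-4 : ℝ)) ^ (1 / 8 : ℝ) := by
            rw [← Real.rpow_mul hD.le]
            norm_num
        _ ≤ σ ^ (1 / 8 : ℝ) := Real.rpow_le_rpow (Real.rpow_nonneg hD.le _) h (by norm_num)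
    have e3 : 1 / D ^ 3 = D ^ (-(1 / 2) : ℝ) * D ^ (-(5 / 2) : ℝ) := by
      rw [schur_cube hD, ← Real.rpow_add hD]
      norm_num
    calc C / D ^ 3 = C * (1 / D ^ 3) := by ring
      _ = C * D ^ (-(1 / 2) : ℝ) * D ^ (-(5 / 2) : ℝ) := by rw [e3, mul_assoc]
      _ ≤ _ := mul_le_mul_of_nonneg_right (mul_le_mul_of_nonneg_left e2 hC)
          (Real.rpow_nonneg hD.le _)

/-- interpolation of the two bounds for a difference of kernels -/
theorem min_le_Jk {t T : ℝ} (ht : 0 ≤ t) (hT : 0 ≤ T) (a b : ℝ) {x C σ : ℝ} (hC : 0 ≤ C)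
    (hσ : 0 ≤ σ) (h1 : x ≤ C * σ * (1 + t * |Real.sin a| + T * |Real.sin b|))
    (h2 : x ≤ C / (1 + t * |Real.sin a| + T * |Real.sin b|) ^ 3) :
    x ≤ C * σ ^ (1 / 8 : ℝ) * (Jk t a * Jk T b) := by
  have p1 : 0 ≤ t * |Real.sin a| := mul_nonneg ht (abs_nonneg _)
  have p2 : 0 ≤ T * |Real.sin b| := mul_nonneg hT (abs_nonneg _)
  have hD : 0 < 1 + t * |Real.sin a| + T * |Real.sin b| := by linarith
  exact (schur_interp hD hC hσ h1 h2).trans
    (mul_le_mul_of_nonneg_left (schur_prod ht hT a b) (mul_nonneg hC (Real.rpow_nonneg hσ _)))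

theorem schur_cont {T : ℝ} (hT : 0 ≤ T) : Continuous (Jk T) := by
  unfold Jk
  refine Continuous.rpow_const (by fun_prop) fun a => Or.inl ?_
  exact (zero_lt_one.trans_le (schur_one_le hT a)).ne'

theorem schur_half {T : ℝ} (hT : 0 < T) :
    ∫ a in (-(Real.pi / 2))..(-(Real.pi / 2) + Real.pi), Jk T a
      ≤ Real.pi / (2 * T) * ∫ x : ℝ, (1 + ‖x‖) ^ (-(5 / 4) : ℝ) := by
  have hπ := Real.pi_pos
  have hc : 0 < 2 * T / Real.pi := by positivity
  have i0 : Integrable (fun x : ℝ => (1 + ‖x‖) ^ (-(5 / 4) : ℝ)) :=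
    integrable_one_add_norm (by simp; norm_num)
  have i1 : Integrable (fun x : ℝ => (1 + ‖2 * T / Real.pi * x‖) ^ (-(5 / 4) : ℝ)) :=
    i0.comp_mul_left' hc.ne'
  have e : ∫ x : ℝ, (1 + ‖2 * T / Real.pi * x‖) ^ (-(5 / 4) : ℝ)
      = Real.pi / (2 * T) * ∫ x : ℝ, (1 + ‖x‖) ^ (-(5 / 4) : ℝ) := by
    rw [Measure.integral_comp_mul_left (fun x : ℝ => (1 + ‖x‖) ^ (-(5 / 4) : ℝ)),
      abs_of_pos (inv_pos.2 hc), smul_eq_mul, inv_div]
  rw [← e, intervalIntegral.integral_of_le (by linarith)]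
  calc ∫ a in Ioc (-(Real.pi / 2)) (-(Real.pi / 2) + Real.pi), Jk T a
      ≤ ∫ a in Ioc (-(Real.pi / 2)) (-(Real.pi / 2) + Real.pi),
          (1 + ‖2 * T / Real.pi * a‖) ^ (-(5 / 4) : ℝ) := by
        refine setIntegral_mono_on ((schur_cont hT.le).integrableOn_Icc.mono_set Ioc_subset_Icc_self)
          i1.integrableOn measurableSet_Ioc fun a ha => ?_
        have h1 : |a| ≤ Real.pi / 2 := abs_le.2 ⟨ha.1.le, by linarith [ha.2]⟩
        have h2 := Real.mul_abs_le_abs_sin h1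
        have h3 : ‖2 * T / Real.pi * a‖ ≤ T * |Real.sin a| := by
          rw [Real.norm_eq_abs, abs_mul, abs_of_pos hc]
          calc 2 * T / Real.pi * |a| = T * (2 / Real.pi * |a|) := by ring
            _ ≤ _ := mul_le_mul_of_nonneg_left h2 hT.le
        exact Real.rpow_le_rpow_of_nonpos (by positivity) (by linarith) (by norm_num)
    _ ≤ _ := setIntegral_le_integral i1 (Eventually.of_forall fun x => by positivity)

/-- periodicity, `Real.mul_abs_le_abs_sin` (Jordan) and `∫ (1 + |x|) ^ (-5/4) < ∞` -/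
theorem jk_int : ∃ C : ℝ, 0 ≤ C ∧ ∀ (m : Measure ℂ) [IsFiniteMeasure m], m univ ≤ 1 →
    ∀ T θ : ℝ, 0 < T → ∫ y, Jk T (y.2 - θ) ∂nY m ≤ C / T := by
  have hπ := Real.pi_pos
  have hK : 0 ≤ ∫ x : ℝ, (1 + ‖x‖) ^ (-(5 / 4) : ℝ) := integral_nonneg fun x => by positivity
  refine ⟨Real.pi * ∫ x : ℝ, (1 + ‖x‖) ^ (-(5 / 4) : ℝ), by positivity, ?_⟩
  intro m _ hm T θ hT
  have hper : Function.Periodic (Jk T) Real.pi := fun a => by simp [Jk]
  have hint : ∀ a b : ℝ, IntervalIntegrable (Jk T) volume a b := fun a b =>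
    (schur_cont hT.le).intervalIntegrable a b
  have hm' : m.real univ ≤ 1 := by
    have := ENNReal.toReal_mono ENNReal.one_ne_top hm
    simpa [Measure.real] using this
  have e1 : ∫ a in Ioc (0 : ℝ) (2 * Real.pi), Jk T (a - θ)
      = 2 * ∫ a in (-(Real.pi / 2))..(-(Real.pi / 2) + Real.pi), Jk T a := by
    rw [← intervalIntegral.integral_of_le (by positivity),
      intervalIntegral.integral_comp_sub_right (Jk T) θ,
      ← intervalIntegral.integral_add_adjacent_intervals (hint (0 - θ) (0 - θ + Real.pi))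
        (hint _ _), hper.intervalIntegral_add_eq (0 - θ) (-(Real.pi / 2)),
      show 2 * Real.pi - θ = 0 - θ + Real.pi + Real.pi by ring,
      hper.intervalIntegral_add_eq (0 - θ + Real.pi) (-(Real.pi / 2))]
    ring
  have p : 0 ≤ ∫ a in Ioc (0 : ℝ) (2 * Real.pi), Jk T (a - θ) :=
    integral_nonneg fun a => Jk_nonneg hT.le _
  have e2 := schur_half hT
  unfold nY
  rw [integral_fun_snd (fun a => Jk T (a - θ)), smul_eq_mul]
  calc m.real univ * ∫ a in Ioc (0 : ℝ) (2 * Real.pi), Jk T (a - θ)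
      ≤ 1 * ∫ a in Ioc (0 : ℝ) (2 * Real.pi), Jk T (a - θ) := mul_le_mul_of_nonneg_right hm' p
    _ ≤ 2 * (Real.pi / (2 * T) * ∫ x : ℝ, (1 + ‖x‖) ^ (-(5 / 4) : ℝ)) := by
        rw [one_mul, e1]
        linarith
    _ = _ := by field_simp

theorem schur2_lint {m : Measure ℂ} (hm : m univ ≤ 1) {f : ℝ → ℝ≥0∞} (hf : Measurable f) :
    ∫⁻ y, f y.2 ∂nY m ≤ ∫⁻ a in Ioc (0 : ℝ) (2 * Real.pi), f a := by
  unfold nY
  rw [lintegral_prod (fun y : Y => f y.2) (hf.comp measurable_snd).aemeasurable]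
  simp only [lintegral_const]
  exact mul_le_of_le_one_right' hm

theorem schur2_meas {m : Measure ℂ} (hm : m univ ≤ 1) {S : Set ℝ} (hS : MeasurableSet S) :
    nY m {y | y.2 ∈ S} ≤ volume (S ∩ Ioc (0 : ℝ) (2 * Real.pi)) := by
  have e : {y : Y | y.2 ∈ S} = univ ×ˢ S := by ext y; simp
  unfold nY
  rw [e, Measure.prod_prod, Measure.restrict_apply hS]
  exact mul_le_of_le_one_left' hm

theorem schur2_set (θ η : ℝ) : MeasurableSet {a : ℝ | |Real.sin (a - θ)| ≤ η} :=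
  measurableSet_le (by fun_prop) measurable_const

theorem near_int {m : Measure ℂ} [IsFiniteMeasure m] (hm : m univ ≤ 1) (θ : ℝ) {η : ℝ}
    (hη : 0 ≤ η) : (nY m).real {y | |Real.sin (y.2 - θ)| ≤ η} ≤ 20 * η := by
  refine ENNReal.toReal_le_of_le_ofReal (by positivity) ((schur2_meas hm (schur2_set θ η)).trans ?_)
  have hπ := Real.pi_pos
  set n0 : ℤ := ⌊-θ / Real.pi + 1 / 2⌋ with hn0
  have sub : {a : ℝ | |Real.sin (a - θ)| ≤ η} ∩ Ioc (0 : ℝ) (2 * Real.pi) ⊆
      ⋃ n ∈ Finset.Icc n0 (n0 + 2), Icc (θ + n * Real.pi - 2 * η) (θ + n * Real.pi + 2 * η) := by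
    rintro a ⟨h1, h2, h3⟩
    set n : ℤ := ⌊(a - θ) / Real.pi + 1 / 2⌋ with hn
    have a1 : n0 ≤ n := Int.floor_le_floor (by gcongr; linarith)
    have a2 : n ≤ n0 + 2 := by
      have e : (a - θ) / Real.pi + 1 / 2 ≤ -θ / Real.pi + 1 / 2 + (2 : ℤ) := by
        have : (a - θ) / Real.pi ≤ (-θ + 2 * Real.pi) / Real.pi := by gcongr; linarith
        rw [add_div, mul_div_cancel_right₀ _ hπ.ne'] at this
        push_cast; linarith
      exact (Int.floor_le_floor e).trans_eq (Int.floor_add_intCast _ _)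
    have b1 : (n : ℝ) - 1 / 2 ≤ (a - θ) / Real.pi := by linarith [Int.floor_le ((a - θ) / Real.pi + 1 / 2)]
    have b2 : (a - θ) / Real.pi ≤ n + 1 / 2 := by
      linarith [Int.lt_floor_add_one ((a - θ) / Real.pi + 1 / 2)]
    rw [le_div_iff₀ hπ] at b1
    rw [div_le_iff₀ hπ] at b2
    have b3 := Real.mul_abs_le_abs_sin (x := a - θ - n * Real.pi) (abs_le.mpr ⟨by linarith, by linarith⟩)
    rw [Real.sin_sub_int_mul_pi, abs_mul, abs_zpow, abs_neg, abs_one, one_zpow, one_mul,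
      div_mul_eq_mul_div, div_le_iff₀ hπ] at b3
    have b4 : |Real.sin (a - θ)| * Real.pi ≤ η * 4 :=
      mul_le_mul h1 Real.pi_le_four hπ.le hη
    have b5 := abs_le.mp (show |a - θ - n * Real.pi| ≤ 2 * η by linarith)
    simp only [mem_iUnion]
    exact ⟨n, Finset.mem_Icc.mpr ⟨a1, a2⟩, by linarith [b5.1], by linarith [b5.2]⟩
  refine (measure_mono sub).trans ((measure_biUnion_finset_le _ _).trans ?_)
  have e : ∀ n : ℤ, volume (Icc (θ + n * Real.pi - 2 * η) (θ + n * Real.pi + 2 * η)) =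
      ENNReal.ofReal (4 * η) := fun n => by rw [Real.volume_Icc]; congr 1; ring
  simp only [e, Finset.sum_const, Int.card_Icc, show n0 + 2 + 1 - n0 = 3 by ring]
  rw [← ENNReal.ofReal_nsmul]
  refine ENNReal.ofReal_le_ofReal ?_
  simp only [nsmul_eq_mul, show Int.toNat 3 = 3 from rfl]
  push_cast
  linarith

theorem box_meas {m : Measure ℂ} [IsFiniteMeasure m] (hm : m univ ≤ 1) {θ α : ℝ} {S : Set Y}
    (hα : 0 ≤ α) (hS : Box θ α S) : (nY m).real S ≤ 2 * α := by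
  refine ENNReal.toReal_le_of_le_ofReal (by positivity) ?_
  have sub : S ⊆ {y | y.2 ∈ Icc (θ - α) (θ + α)} := fun y hy => by
    have := abs_le.mp (hS.near y hy)
    exact ⟨by linarith [this.1], by linarith [this.2]⟩
  refine (measure_mono sub).trans ((schur2_meas hm measurableSet_Icc).trans
    ((measure_mono inter_subset_left).trans_eq ?_))
  rw [Real.volume_Icc]; congr 1; ring

theorem schur2_aff {G : ℝ → ℝ≥0∞} (hG : Measurable G) {k : ℝ} (hk : 0 < k) (s : ℝ) :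
    ∫⁻ x, G (k * x + s) = ENNReal.ofReal k⁻¹ * ∫⁻ x, G x := by
  have h1 := lintegral_map (μ := volume) (f := fun x => G (x + s)) (g := fun x : ℝ => k * x)
    (hG.comp (measurable_add_const s)) (measurable_const_mul k)
  rw [← h1, Real.map_volume_mul_left hk.ne', lintegral_smul_measure, lintegral_add_right_eq_self,
    abs_of_pos (inv_pos.mpr hk), smul_eq_mul]

theorem schur2_cube {x y : ℝ} (hx : 0 ≤ x) (hy : 0 ≤ y) :
    1 / (1 + x + y) ^ 3 ≤ (1 + x) ^ (-(3 / 2) : ℝ) * (1 + y) ^ (-(3 / 2) : ℝ) := by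
  rw [← Real.mul_rpow (by linarith) (by linarith)]
  have h1 : (1 + x) * (1 + y) ≤ (1 + x + y) ^ 2 := by
    rw [sq]; exact mul_le_mul (by linarith) (by linarith) (by linarith) (by linarith)
  refine le_of_eq_of_le ?_ (Real.rpow_le_rpow_of_nonpos (by positivity) h1 (by norm_num))
  rw [← Real.rpow_natCast _ 2, ← Real.rpow_mul (by linarith), ← Real.rpow_natCast _ 3, one_div,
    ← Real.rpow_neg (by linarith)]
  norm_num

/-- bound `(1 + x + y)⁻³ ≤ (1 + x)^(-3/2) (1 + y)^(-3/2)`, extend both angular integrals to the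
line, substitute `u = a - b` in the inner integral and swap -/
theorem far_int : ∃ C : ℝ, 0 ≤ C ∧ ∀ (m : Measure ℂ) [IsFiniteMeasure m], m univ ≤ 1 →
    ∀ T δ θ θ' : ℝ, 0 < T → 0 < δ →
    ∫ p, 1 / (1 + T * |(p.1.2 - θ) - (p.2.2 - θ')| + T * δ * |(p.1.2 - θ) + (p.2.2 - θ')|) ^ 3
      ∂nYY m ≤ C / (T ^ 2 * δ) := by
  set G : ℝ → ℝ≥0∞ := fun x => ENNReal.ofReal ((1 + ‖x‖) ^ (-(3 / 2) : ℝ)) with hG
  have mG : Measurable G := by rw [hG]; fun_prop
  have fin : ∫⁻ x, G x ≠ ⊤ :=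
    (finite_integral_one_add_norm (E := ℝ) (μ := volume) (r := 3 / 2) (by simp; norm_num)).ne
  refine ⟨(∫⁻ x, G x).toReal ^ 2, by positivity, fun m _ hm T δ θ θ' hT hδ => ?_⟩
  rw [integral_eq_lintegral_of_nonneg_ae (Eventually.of_forall fun p => by positivity)
    (Measurable.aestronglyMeasurable (by fun_prop))]
  refine ENNReal.toReal_le_of_le_ofReal (by positivity) ?_
  set F : ℝ → ℝ → ℝ≥0∞ := fun a b => G (T * (a - θ - (b - θ'))) * G (T * δ * (a - θ + (b - θ')))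
    with hF
  have mF : Measurable fun p : ℝ × ℝ => F p.1 p.2 := by rw [hF]; fun_prop
  calc _ ≤ ∫⁻ p, F p.1.2 p.2.2 ∂nYY m := by
        refine lintegral_mono fun p => ?_
        simp only [hF, hG]
        rw [← ENNReal.ofReal_mul (by positivity), Real.norm_eq_abs, Real.norm_eq_abs, abs_mul T,
          abs_mul (T * δ), abs_of_pos hT, abs_of_pos (mul_pos hT hδ)]
        exact ENNReal.ofReal_le_ofReal (schur2_cube (by positivity) (by positivity))
    _ = ∫⁻ y, ∫⁻ y', F y.2 y'.2 ∂nY m ∂nY m := by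
        unfold nYY
        exact lintegral_prod _ (Measurable.aemeasurable (by rw [hF]; fun_prop))
    _ ≤ ∫⁻ y, (fun a => ∫⁻ b, F a b) y.2 ∂nY m := by
        refine lintegral_mono fun y => (schur2_lint hm (f := F y.2) (by rw [hF]; fun_prop)).trans ?_
        exact setLIntegral_le_lintegral _ _
    _ ≤ ∫⁻ a, ∫⁻ b, F a b :=
        (schur2_lint hm mF.lintegral_prod_right').trans (setLIntegral_le_lintegral _ _)
    _ = ∫⁻ a, ∫⁻ u, G (-(T * u + -(T * (θ' - θ)))) * G (T * δ * 2 * a + T * δ * (u - θ - θ')) := by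
        refine lintegral_congr fun a => ?_
        rw [← lintegral_add_right_eq_self (fun b => F a b) a]
        refine lintegral_congr fun u => ?_
        simp only [hF]
        congr 2 <;> ring
    _ = ∫⁻ u, ∫⁻ a, G (-(T * u + -(T * (θ' - θ)))) * G (T * δ * 2 * a + T * δ * (u - θ - θ')) :=
        lintegral_lintegral_swap (Measurable.aemeasurable (by fun_prop))
    _ = ∫⁻ u, G (T * u + -(T * (θ' - θ))) * (ENNReal.ofReal (T * δ * 2)⁻¹ * ∫⁻ x, G x) := by
        refine lintegral_congr fun u => ?_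
        rw [lintegral_const_mul _ (by fun_prop), schur2_aff mG (by positivity)]
        simp only [hG, norm_neg]
    _ = ENNReal.ofReal T⁻¹ * (∫⁻ x, G x) * (ENNReal.ofReal (T * δ * 2)⁻¹ * ∫⁻ x, G x) := by
        rw [lintegral_mul_const _ (by fun_prop), schur2_aff mG hT]
    _ ≤ _ := by
        rw [← ENNReal.ofReal_toReal fin, ENNReal.toReal_ofReal ENNReal.toReal_nonneg,
          ← ENNReal.ofReal_mul (by positivity), ← ENNReal.ofReal_mul (by positivity),
          ← ENNReal.ofReal_mul (by positivity)]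
        refine ENNReal.ofReal_le_ofReal ?_
        have e : T⁻¹ * (∫⁻ x, G x).toReal * ((T * δ * 2)⁻¹ * (∫⁻ x, G x).toReal) =
            (∫⁻ x, G x).toReal ^ 2 / (T ^ 2 * δ) / 2 := by field_simp
        rw [e]
        exact half_le_self (by positivity)

theorem schur2_bil {m : Measure ℂ} [IsFiniteMeasure m] {κ : Y → Y → ℝ}
    (hm : Measurable fun p : Y × Y => κ p.1 p.2) (h0 : ∀ x x', 0 ≤ κ x x') (hb : ∀ x x', κ x x' ≤ 1)
    {S : ℝ} (h1 : ∀ x, ∫ x', κ x x' ∂nY m ≤ S) (h2 : ∀ x', ∫ x, κ x x' ∂nY m ≤ S)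
    {w w' : Y → ℂ} (hw : Bd w) (hw' : Bd w') :
    ∫ p, κ p.1 p.2 * ‖tens w w' p‖ ∂nYY m ≤ S * (√(n2 (nY m) w) * √(n2 (nY m) w')) := by
  refine le_of_eq_of_le ?_ (schur (nY m) (nY m) hm h0 hb h1 h2 hw hw')
  have hi : Integrable (fun p : Y × Y => κ p.1 p.2 * ‖tens w w' p‖) (nYY m) :=
    ((hw.tens hw').integrable _).norm.bdd_mul (c := 1) hm.aestronglyMeasurable
      (Eventually.of_forall fun p => by rw [Real.norm_of_nonneg (h0 _ _)]; exact hb _ _)
  unfold nYY at hi ⊢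
  rw [integral_prod _ hi]
  simp only [tens, norm_mul, Complex.norm_conj]

/-- the bilinear form with kernel `Jk` -/
theorem jk_bil : ∃ C : ℝ, 0 ≤ C ∧ ∀ (m : Measure ℂ) [IsFiniteMeasure m], m univ ≤ 1 →
    ∀ (T : ℝ) (w w' : Y → ℂ), 0 < T → Bd w → Bd w' →
    ∫ p, Jk T (p.1.2 - p.2.2) * ‖tens w w' p‖ ∂nYY m ≤
      C / T * (√(n2 (nY m) w) * √(n2 (nY m) w')) := by
  obtain ⟨C, hC, H⟩ := jk_int
  refine ⟨C, hC, fun m _ hm T w w' hT hw hw' => ?_⟩
  refine schur2_bil (κ := fun y y' => Jk T (y.2 - y'.2)) ((measurable_Jk T).comp (by fun_prop))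
    (fun _ _ => Jk_nonneg hT.le _) (fun _ _ => Jk_le_one hT.le _) (fun x => ?_)
    (fun x => H m hm T x.2 hT) hw hw'
  simpa only [← Jk_neg T (x.2 - _), neg_sub] using H m hm T x.2 hT

/-- the bilinear form restricted to nearly parallel directions -/
theorem near_bil {m : Measure ℂ} [IsFiniteMeasure m] (hm : m univ ≤ 1) {η : ℝ} (hη : 0 ≤ η)
    {w w' : Y → ℂ} (hw : Bd w) (hw' : Bd w') :
    ∫ p, ‖{p : Y × Y | |Real.sin (p.1.2 - p.2.2)| ≤ η}.indicator (tens w w') p‖ ∂nYY m ≤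
      20 * η * (√(n2 (nY m) w) * √(n2 (nY m) w')) := by
  have key : ∀ θ, ∫ y, (if |Real.sin (y.2 - θ)| ≤ η then (1 : ℝ) else 0) ∂nY m ≤ 20 * η := by
    intro θ
    refine le_of_eq_of_le ?_ (near_int hm θ hη)
    rw [← integral_indicator_one (measurableSet_le (by fun_prop) measurable_const)]
    rfl
  refine le_of_eq_of_le ?_ (schur2_bil (κ := fun y y' => if |Real.sin (y.2 - y'.2)| ≤ η then 1 else 0)
    (Measurable.ite (measurableSet_le (by fun_prop) measurable_const) measurable_const measurable_const)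
    (fun _ _ => by split_ifs <;> norm_num) (fun _ _ => by split_ifs <;> norm_num) (fun x => ?_)
    (fun x => key x.2) hw hw')
  · congr 1
    ext p
    simp only [indicator, mem_ofPred_eq]
    split_ifs <;> simp
  · refine le_of_eq_of_le ?_ (key x.2)
    congr 1
    ext y
    rw [← neg_sub, Real.sin_neg, abs_neg]

end Pool.Agent.MP_a28cf0_nt.Dec

end
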