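import Pool.Agent.MP_a28cf0_nt.Mg.Dec_Calc

set_option autoImplicit false

namespace Pool.Agent.MP_a28cf0_nt.Dec

open MeasureTheory Complex Filter Topology Set
open scoped ENNReal MatrixGroups ComplexConjugate
open Pool.Agent.MP_a28cf0_nt.Cub

/-! Stability of the class of eigenfunctions.
`eig_mb`: for `φ = mb A` holomorphic on `Up` (`hasDerivAt_mb`) and `f` of class `C²`,
`D²(f ∘ φ)(z)[v, v] = D²f (φ z)[φ' v, φ' v] + Df (φ z)[φ'' v²]`; sum over `v = 1, i`: the first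
order terms cancel, and `B[c, c] + B[i c, i c] = |c|² (B[1,1] + B[i,i])` for every real bilinear
`B` (no symmetry needed); finally `Im (φ z) = |φ' z| Im z` (`im_mb`).  Use
`iteratedFDeriv_two_apply`. -/

theorem Eig.cont {t : ℝ} {f : ℂ → ℝ} (h : Eig t f) : ContinuousOn f Up := h.c2.continuousOn

theorem eigs_diff {f : ℂ → ℝ} {z : ℂ} (h : ContDiffAt ℝ 2 f z) :
    DifferentiableAt ℝ (fderiv ℝ f) z :=
  (h.fderiv_right (m := 1) (by norm_num)).differentiableAt (by norm_num)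

theorem eigs_two {f : ℂ → ℝ} {z : ℂ} (h : ContDiffAt ℝ 2 f z) (v : ℂ) :
    iteratedFDeriv ℝ 2 f z ![v, v] = fderiv ℝ (fun w => fderiv ℝ f w v) z v := by
  rw [iteratedFDeriv_two_apply, fderiv_clm_apply (eigs_diff h) (differentiableAt_const _)]
  simp

theorem eigs_two' {f : ℂ → ℝ} {z : ℂ} (h : ContDiffAt ℝ 2 f z) (v : ℂ) :
    fderiv ℝ (fun w => fderiv ℝ f w v) z v = fderiv ℝ (fderiv ℝ f) z v v := by
  rw [← eigs_two h, iteratedFDeriv_two_apply]
  simp

theorem eigs_at {f : ℂ → ℝ} (h : ContDiffOn ℝ 2 f Up) {z : ℂ} (hz : z ∈ Up) :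
    ContDiffAt ℝ 2 f z := h.contDiffAt (isOpen_Up.mem_nhds hz)

theorem Eig.eq' {t : ℝ} {f : ℂ → ℝ} (h : Eig t f) {z : ℂ} (hz : z ∈ Up) :
    z.im ^ 2 * (fderiv ℝ (fun w => fderiv ℝ f w 1) z 1 + fderiv ℝ (fun w => fderiv ℝ f w I) z I) =
      -(1 / 4 + t ^ 2) * f z := by
  have h1 := h.eq z hz
  rw [eigs_two (eigs_at h.c2 hz), eigs_two (eigs_at h.c2 hz)] at h1
  linear_combination -h1

theorem eig_of_eq {t : ℝ} {f : ℂ → ℝ} (hm : Measurable f) (h2 : ContDiffOn ℝ 2 f Up)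
    (h : ∀ z ∈ Up, z.im ^ 2 * (fderiv ℝ (fun w => fderiv ℝ f w 1) z 1 +
      fderiv ℝ (fun w => fderiv ℝ f w I) z I) = -(1 / 4 + t ^ 2) * f z) : Eig t f := by
  refine ⟨hm, h2, fun z hz => ?_⟩
  rw [eigs_two (eigs_at h2 hz), eigs_two (eigs_at h2 hz)]
  linear_combination -h z hz

theorem eigs_bil (B : ℂ →L[ℝ] ℂ →L[ℝ] ℝ) (c : ℂ) :
    B c c + B (c * I) (c * I) = normSq c * (B 1 1 + B I I) := by
  have h1 : c = c.re • (1 : ℂ) + c.im • I := by
    apply Complex.ext <;> simp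
  have h2 : c * I = (-c.im) • (1 : ℂ) + c.re • I := by
    apply Complex.ext <;> simp
  have key : ∀ a b : ℝ, B (a • (1 : ℂ) + b • I) (a • (1 : ℂ) + b • I) =
      a * a * B 1 1 + a * b * (B 1 I + B I 1) + b * b * B I I := by
    intro a b
    simp only [map_add, map_smul, _root_.add_apply, _root_.smul_apply, smul_eq_mul]
    ring
  have e1 := key c.re c.im
  have e2 := key (-c.im) c.re
  rw [← h1] at e1
  rw [← h2] at e2
  rw [e1, e2, normSq_apply]
  ring

theorem eigs_comp1 {f : ℂ → ℝ} {φ d : ℂ → ℂ} {z d' : ℂ} (hf : ContDiffAt ℝ 2 f (φ z))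
    (hφ : ∀ᶠ w in 𝓝 z, HasDerivAt φ (d w) w) (hd : HasDerivAt d d' z) (v : ℂ) :
    fderiv ℝ (fun w => fderiv ℝ (fun u => f (φ u)) w v) z v =
      fderiv ℝ (fderiv ℝ f) (φ z) (d z * v) (d z * v) + fderiv ℝ f (φ z) (d' * v * v) := by
  have hz : HasDerivAt φ (d z) z := hφ.self_of_nhds
  have hev : ∀ᶠ u in 𝓝 (φ z), DifferentiableAt ℝ f u :=
    (hf.eventually (by simp)).mono fun u hu => hu.differentiableAt (by norm_num)
  have h1 : (fun w => fderiv ℝ (fun u => f (φ u)) w v) =ᶠ[𝓝 z]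
      fun w => fderiv ℝ f (φ w) (d w * v) := by
    filter_upwards [hφ, hz.continuousAt.eventually hev] with w hw hw'
    have h2 := hw'.hasFDerivAt.comp w (hw.hasFDerivAt.restrictScalars ℝ)
    rw [show (fun u => f (φ u)) = f ∘ φ from rfl, h2.fderiv]
    simp [mul_comm]
  rw [h1.fderiv_eq]
  have h3 := (eigs_diff hf).hasFDerivAt.comp z (hz.hasFDerivAt.restrictScalars ℝ)
  have h4 := (hd.mul_const v).hasFDerivAt.restrictScalars ℝ
  have h5 := h3.clm_apply h4
  rw [show (fun w => fderiv ℝ f (φ w) (d w * v)) =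
    fun w => (fderiv ℝ f ∘ φ) w (d w * v) from rfl, h5.fderiv]
  simp [mul_comm, add_comm, mul_left_comm]

theorem eigs_comp {f : ℂ → ℝ} {φ d : ℂ → ℂ} {z d' : ℂ} (hf : ContDiffAt ℝ 2 f (φ z))
    (hφ : ∀ᶠ w in 𝓝 z, HasDerivAt φ (d w) w) (hd : HasDerivAt d d' z) :
    fderiv ℝ (fun w => fderiv ℝ (fun u => f (φ u)) w 1) z 1 +
      fderiv ℝ (fun w => fderiv ℝ (fun u => f (φ u)) w I) z I =
      normSq (d z) * (fderiv ℝ (fun w => fderiv ℝ f w 1) (φ z) 1 +
        fderiv ℝ (fun w => fderiv ℝ f w I) (φ z) I) := by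
  rw [eigs_comp1 hf hφ hd, eigs_comp1 hf hφ hd, eigs_two' hf, eigs_two' hf, ← eigs_bil,
    show d' * I * I = -d' by rw [mul_assoc, I_mul_I]; ring, map_neg]
  simp only [mul_one]
  ring

theorem eigs_c2 {A : E} (hA : A ∈ Gp) : ContDiffOn ℝ 2 (mb A) Up := by
  have h1 : ContDiffOn ℝ 2 (fun w : ℂ => ((A, w) : E × ℂ)) Up :=
    (contDiff_const.prodMk contDiff_id).contDiffOn
  have h2 := (contDiffOn_mb (n := 2)).comp h1 fun w hw => ⟨hA, hw⟩
  exact h2.congr fun w _ => rfl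

theorem eigs_meas (A : E) : Measurable (mb A) := by
  have h1 : Measurable fun w : ℂ => ((A, w) : E × ℂ) := measurable_const.prodMk measurable_id
  have h2 := measurable_mb.comp h1
  exact h2

theorem eig_mb {t : ℝ} {f : ℂ → ℝ} (h : Eig t f) {A : E} (hA : A ∈ Gp) :
    Eig t fun w => f (mb A w) := by
  have hm : Measurable (f ∘ mb A) := h.meas.comp (eigs_meas A)
  have hc : ContDiffOn ℝ 2 (f ∘ mb A) Up := h.c2.comp (eigs_c2 hA) fun w hw => mb_mem hA hw
  refine eig_of_eq hm hc fun z hz => ?_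
  have hne := den_ne hA hz
  have hd : DifferentiableAt ℂ
      (fun w : ℂ => (dt A : ℂ) / ((A.2.im : ℂ) * w + (A.2.re : ℂ)) ^ 2) z :=
    (differentiableAt_const _).div (by fun_prop) (pow_ne_zero _ hne)
  have key := eigs_comp (φ := mb A) (eigs_at h.c2 (mb_mem hA hz))
    (Filter.eventually_of_mem (isOpen_Up.mem_nhds hz) fun w hw => hasDerivAt_mb hA hw)
    hd.hasDerivAt
  rw [key, ← h.eq' (mb_mem hA hz), im_mb, map_div₀, map_pow, normSq_ofReal]
  have := (normSq_pos.2 hne).ne'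
  field_simp

theorem Eig.sub {t : ℝ} {f g : ℂ → ℝ} (hf : Eig t f) (hg : Eig t g) (c : ℝ) :
    Eig t fun z => f z - c * g z := by
  refine ⟨hf.meas.sub (hg.meas.const_mul c), hf.c2.sub (contDiffOn_const.mul hg.c2),
    fun z hz => ?_⟩
  have h1 := eigs_at hf.c2 hz
  have h2 := eigs_at hg.c2 hz
  have h3 : iteratedFDeriv ℝ 2 (fun z => f z - c * g z) z =
      iteratedFDeriv ℝ 2 f z - c • iteratedFDeriv ℝ 2 g z := by
    rw [← iteratedFDeriv_const_smul_apply h2]
    exact iteratedFDeriv_sub_apply h1 (h2.const_smul c)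
  rw [h3]
  simp only [_root_.sub_apply, _root_.smul_apply, smul_eq_mul]
  linear_combination hf.eq z hz - c * hg.eq z hz

theorem eigs_im {t : ℝ} {h h1 h2 : ℝ → ℝ} (hm : Measurable h) (hc : ContDiffOn ℝ 2 h (Ioi 0))
    (d1 : ∀ y, 0 < y → HasDerivAt h (h1 y) y) (d2 : ∀ y, 0 < y → HasDerivAt h1 (h2 y) y)
    (he : ∀ y, 0 < y → y ^ 2 * h2 y = -(1 / 4 + t ^ 2) * h y) : Eig t fun z => h z.im := by
  refine eig_of_eq (hm.comp measurable_im)
    (hc.comp imCLM.contDiff.contDiffOn fun w hw => hw) fun z hz => ?_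
  have key : ∀ v : ℂ, fderiv ℝ (fun w => fderiv ℝ (fun u : ℂ => h u.im) w v) z v =
      h2 z.im * v.im * v.im := by
    intro v
    have e1 : (fun w => fderiv ℝ (fun u : ℂ => h u.im) w v) =ᶠ[𝓝 z] fun w => h1 w.im * v.im := by
      filter_upwards [isOpen_Up.mem_nhds hz] with w hw
      have := (d1 _ hw).comp_hasFDerivAt w imCLM.hasFDerivAt
      rw [show (fun u : ℂ => h u.im) = h ∘ im from rfl, this.fderiv]
      simp
    rw [e1.fderiv_eq]
    have := ((d2 _ hz).mul_const v.im).comp_hasFDerivAt z imCLM.hasFDerivAt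
    rw [show (fun w : ℂ => h1 w.im * v.im) = (fun y => h1 y * v.im) ∘ im from rfl, this.fderiv]
    simp
  rw [key, key, ← he _ hz]
  simp

theorem eigs_trig (t : ℝ) {C S : ℝ → ℝ} (hC : ∀ x, HasDerivAt C (-S x) x)
    (hS : ∀ x, HasDerivAt S (C x) x) (hc : ContDiff ℝ 2 C) :
    Eig t fun z => √z.im * C (t * Real.log z.im) := by
  refine eigs_im (h := fun y => √y * C (t * Real.log y))
    (h1 := fun y => (C (t * Real.log y) / 2 - t * S (t * Real.log y)) / √y)
    (h2 := fun y => -(1 / 4 + t ^ 2) * (√y * C (t * Real.log y)) / y ^ 2)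
    (Real.continuous_sqrt.measurable.mul
      (hc.continuous.measurable.comp (Real.measurable_log.const_mul t)))
    (fun y hy => ?_) (fun y hy => ?_) (fun y hy => ?_) fun y hy => ?_
  · have hy0 : y ≠ 0 := ne_of_gt hy
    exact ((Real.contDiffAt_sqrt hy0).mul (hc.contDiffAt.comp y
      (contDiffAt_const.mul (Real.contDiffAt_log.2 hy0)))).contDiffWithinAt
  · have l := (Real.hasDerivAt_log hy.ne').const_mul t
    have c := (hC _).comp y l
    obtain ⟨s, hs, rfl⟩ : ∃ s : ℝ, 0 < s ∧ y = s ^ 2 :=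
      ⟨√y, Real.sqrt_pos.2 hy, (Real.sq_sqrt hy.le).symm⟩
    refine ((Real.hasDerivAt_sqrt hy.ne').mul c).congr_deriv ?_
    simp only [Function.comp, Real.sqrt_sq hs.le]
    field_simp
    ring
  · have l := (Real.hasDerivAt_log hy.ne').const_mul t
    have c := (hC _).comp y l
    have s' := (hS _).comp y l
    obtain ⟨s, hs, rfl⟩ : ∃ s : ℝ, 0 < s ∧ y = s ^ 2 :=
      ⟨√y, Real.sqrt_pos.2 hy, (Real.sq_sqrt hy.le).symm⟩
    refine (((c.div_const 2).sub (s'.const_mul t)).div (Real.hasDerivAt_sqrt hy.ne')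
      (Real.sqrt_pos.2 hy).ne').congr_deriv ?_
    simp only [Function.comp, Real.sqrt_sq hs.le, Pi.sub_apply]
    field_simp
    ring
  · have := hy.ne'
    field_simp

theorem eig_cos (t : ℝ) : Eig t fun z => √z.im * Real.cos (t * Real.log z.im) := by
  exact eigs_trig t Real.hasDerivAt_cos Real.hasDerivAt_sin Real.contDiff_cos

theorem eig_sin (t : ℝ) : Eig t fun z => √z.im * Real.sin (t * Real.log z.im) := by
  exact eigs_trig t (S := fun x => -Real.cos x) (fun x => by simpa using Real.hasDerivAt_sin x)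
    (fun x => by simpa using (Real.hasDerivAt_cos x).fun_neg) Real.contDiff_sin

theorem Eig.bd {t : ℝ} {f : ℂ → ℝ} (h : Eig t f) {K : Set ℂ} (hK : IsCompact K) (hU : K ⊆ Up) :
    ∃ b : ℝ, ∀ z ∈ K, |f z| ≤ b := by
  exact hK.exists_bound_of_continuousOn (h.cont.mono hU)

/-- a function may be replaced by zero outside the upper half plane -/
theorem eig_indicator {t : ℝ} {f : ℂ → ℝ} (h2 : ContDiffOn ℝ 2 f Up)
    (he : ∀ z : ℂ, 0 < z.im →
      -(z.im ^ 2) * (iteratedFDeriv ℝ 2 f z ![(1 : ℂ), 1] + iteratedFDeriv ℝ 2 f z ![I, I])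
        = (1 / 4 + t ^ 2) * f z) : Eig t (Up.indicator f) := by
  have hU : MeasurableSet Up := isOpen_Up.measurableSet
  refine ⟨?_, h2.congr fun z hz => indicator_of_mem hz f, fun z hz => ?_⟩
  · classical
    have := ContinuousOn.measurable_piecewise (g := fun _ => (0 : ℝ)) h2.continuousOn
      continuousOn_const hU
    rwa [← piecewise_eq_indicator]
  · have h1 : Up.indicator f =ᶠ[𝓝 z] f := by
      filter_upwards [isOpen_Up.mem_nhds hz] with w hw using indicator_of_mem hw f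
    rw [(h1.iteratedFDeriv ℝ 2).eq_of_nhds, h1.eq_of_nhds]
    exact he z hz

/-! The mean value property.
With y = exp τ, J = jj θ (i y), c = 1 / J², Z = mb (kk θ) (i y) one has Z_τ = i y c and
Z_θ = (y² - 1) c.  For G = f Z, H = Df(Z) c:
(1 - y²) G_ττ - (1 + y²) G_τ - y² H_θ = -(1/4 + t²) (1 - y²) G.  Integrating over a period,
v = ∫ G dθ solves (1 - y²) (v_ττ + (1/4 + t²) v) = (1 + y²) v_τ, so v_τ vanishes at 0 and the
energy v_τ² + (1/4 + t²) v² is maximal at τ = 0, where it vanishes. -/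

theorem mvp0_hasDerivAt_int {F F' : ℝ → ℝ → ℝ} (hF : Continuous fun p : ℝ × ℝ => F p.1 p.2)
    (hF' : Continuous fun p : ℝ × ℝ => F' p.1 p.2)
    (hd : ∀ θ τ, HasDerivAt (fun s => F θ s) (F' θ τ) τ) (a b τ : ℝ) :
    HasDerivAt (fun s => ∫ θ in a..b, F θ s) (∫ θ in a..b, F' θ τ) τ := by
  have hK : IsCompact (uIcc a b ×ˢ Metric.closedBall τ 1) :=
    isCompact_uIcc.prod (isCompact_closedBall τ 1)
  obtain ⟨C, hC⟩ := hK.exists_bound_of_continuousOn hF'.continuousOn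
  have c1 : ∀ s, Continuous fun θ => F θ s := fun s =>
    hF.comp (continuous_id.prodMk continuous_const)
  have c2 : ∀ s, Continuous fun θ => F' θ s := fun s =>
    hF'.comp (continuous_id.prodMk continuous_const)
  refine (intervalIntegral.hasDerivAt_integral_of_dominated_loc_of_deriv_le
    (F := fun s θ => F θ s) (F' := fun s θ => F' θ s) (bound := fun _ => C)
    (Metric.ball_mem_nhds τ one_pos) ?_ ?_ ?_ ?_ ?_ ?_).2
  · exact Eventually.of_forall fun s => (c1 s).aestronglyMeasurable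
  · exact (c1 τ).intervalIntegrable _ _
  · exact (c2 τ).aestronglyMeasurable
  · refine Eventually.of_forall fun θ hθ s hs => ?_
    exact hC (θ, s) ⟨uIoc_subset_uIcc hθ, Metric.ball_subset_closedBall hs⟩
  · exact intervalIntegrable_const
  · exact Eventually.of_forall fun θ _ s _ => hd θ s

theorem mvp0_bilin (B : ℂ →L[ℝ] ℂ →L[ℝ] ℝ) (c : ℂ) :
    B c c + B (I * c) (I * c) = normSq c * (B 1 1 + B I I) := by
  have h1 : c = c.re • (1 : ℂ) + c.im • I := by
    apply Complex.ext <;> simp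
  have h2 : I * c = (-c.im) • (1 : ℂ) + c.re • I := by
    apply Complex.ext <;> simp
  rw [h2, normSq_apply]
  conv_lhs => rw [h1]
  simp only [map_add, map_smul, add_apply, smul_apply, smul_eq_mul]
  simp only [add_re, add_im, real_smul, mul_re, mul_im, ofReal_re, ofReal_im, one_re, one_im,
    I_re, I_im]
  ring

noncomputable def mvp0_J (θ τ : ℝ) : ℂ :=
  (Real.exp τ : ℂ) * I * (Real.sin θ : ℂ) + (Real.cos θ : ℂ)

noncomputable def mvp0_N (θ τ : ℝ) : ℂ :=
  (Real.exp τ : ℂ) * I * (Real.cos θ : ℂ) - (Real.sin θ : ℂ)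

noncomputable def mvp0_Z (θ τ : ℝ) : ℂ := mvp0_N θ τ / mvp0_J θ τ

noncomputable def mvp0_c (θ τ : ℝ) : ℂ := 1 / mvp0_J θ τ ^ 2

theorem mvp0_Z_eq (θ τ : ℝ) : mb (kk θ) ((Real.exp τ : ℂ) * I) = mvp0_Z θ τ := by
  rw [mb_kk]; rfl

theorem mvp0_J_ne (θ τ : ℝ) : mvp0_J θ τ ≠ 0 := by
  intro h
  have h1 := congrArg Complex.re h
  have h2 := congrArg Complex.im h
  simp only [mvp0_J, add_re, add_im, mul_re, mul_im, ofReal_re, ofReal_im, I_re, I_im,
    zero_re, zero_im] at h1 h2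
  have h3 : Real.cos θ = 0 := by linarith
  have h4 : Real.exp τ * Real.sin θ = 0 := by linarith
  have h5 : Real.sin θ = 0 := (mul_eq_zero.1 h4).resolve_left (Real.exp_pos τ).ne'
  have := Real.sin_sq_add_cos_sq θ
  rw [h3, h5] at this
  norm_num at this

theorem mvp0_mem (τ : ℝ) : (Real.exp τ : ℂ) * I ∈ Up := by
  show 0 < ((Real.exp τ : ℂ) * I).im
  simp only [mul_im, ofReal_re, ofReal_im, I_re, I_im]
  have := Real.exp_pos τ
  linarith

theorem mvp0_Z_mem (θ τ : ℝ) : mvp0_Z θ τ ∈ Up := by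
  rw [← mvp0_Z_eq]; exact mb_mem (kk_mem θ) (mvp0_mem τ)

theorem mvp0_Z_im (θ τ : ℝ) :
    (mvp0_Z θ τ).im ^ 2 = Real.exp τ ^ 2 * normSq (mvp0_c θ τ) := by
  rw [← mvp0_Z_eq, im_mb_kk]
  have h : jj θ ((Real.exp τ : ℂ) * I) = mvp0_J θ τ := rfl
  rw [PP, h, mvp0_c, map_div₀, map_pow, map_one]
  simp only [mul_im, ofReal_re, ofReal_im, I_re, I_im]
  ring

theorem mvp0_cJ : Continuous fun p : ℝ × ℝ => mvp0_J p.1 p.2 := by
  unfold mvp0_J; fun_prop

theorem mvp0_cN : Continuous fun p : ℝ × ℝ => mvp0_N p.1 p.2 := by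
  unfold mvp0_N; fun_prop

theorem mvp0_cZ : Continuous fun p : ℝ × ℝ => mvp0_Z p.1 p.2 :=
  mvp0_cN.div mvp0_cJ fun p => mvp0_J_ne p.1 p.2

theorem mvp0_cc : Continuous fun p : ℝ × ℝ => mvp0_c p.1 p.2 :=
  continuous_const.div (mvp0_cJ.pow 2) fun p => pow_ne_zero 2 (mvp0_J_ne p.1 p.2)

theorem mvp0_trig (θ : ℝ) : (Real.sin θ : ℂ) ^ 2 + (Real.cos θ : ℂ) ^ 2 = 1 := by
  exact_mod_cast Real.sin_sq_add_cos_sq θ

theorem mvp0_J_t (θ τ : ℝ) :
    HasDerivAt (fun s => mvp0_J θ s) ((Real.exp τ : ℂ) * I * (Real.sin θ : ℂ)) τ :=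
  ((((Real.hasDerivAt_exp τ).ofReal_comp).mul_const I).mul_const _).add_const _

theorem mvp0_N_t (θ τ : ℝ) :
    HasDerivAt (fun s => mvp0_N θ s) ((Real.exp τ : ℂ) * I * (Real.cos θ : ℂ)) τ :=
  ((((Real.hasDerivAt_exp τ).ofReal_comp).mul_const I).mul_const _).sub_const _

theorem mvp0_J_th (θ τ : ℝ) : HasDerivAt (fun s => mvp0_J s τ) (mvp0_N θ τ) θ := by
  have h := (((Real.hasDerivAt_sin θ).ofReal_comp).const_mul ((Real.exp τ : ℂ) * I)).add
    (Real.hasDerivAt_cos θ).ofReal_comp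
  refine h.congr_deriv (Eq.symm ?_)
  simp only [mvp0_N]; push_cast; ring

theorem mvp0_N_th (θ τ : ℝ) : HasDerivAt (fun s => mvp0_N s τ) (-mvp0_J θ τ) θ := by
  have h := (((Real.hasDerivAt_cos θ).ofReal_comp).const_mul ((Real.exp τ : ℂ) * I)).sub
    (Real.hasDerivAt_sin θ).ofReal_comp
  refine h.congr_deriv (Eq.symm ?_)
  simp only [mvp0_J]; push_cast; ring

theorem mvp0_Z_t (θ τ : ℝ) :
    HasDerivAt (fun s => mvp0_Z θ s) (Real.exp τ • (I * mvp0_c θ τ)) τ := by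
  have h := (mvp0_N_t θ τ).div (mvp0_J_t θ τ) (mvp0_J_ne θ τ)
  refine h.congr_deriv (Eq.symm ?_)
  have hJ := mvp0_J_ne θ τ
  rw [real_smul, mvp0_c]
  field_simp
  simp only [mvp0_J, mvp0_N]
  linear_combination (-1 : ℂ) * mvp0_trig θ

theorem mvp0_Z_th (θ τ : ℝ) :
    HasDerivAt (fun s => mvp0_Z s τ) ((Real.exp τ ^ 2 - 1) • mvp0_c θ τ) θ := by
  have h := (mvp0_N_th θ τ).div (mvp0_J_th θ τ) (mvp0_J_ne θ τ)
  refine h.congr_deriv (Eq.symm ?_)
  have hJ := mvp0_J_ne θ τ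
  rw [real_smul, mvp0_c]
  field_simp
  simp only [mvp0_J, mvp0_N]
  push_cast
  have h1 := mvp0_trig θ
  push_cast at h1
  linear_combination (1 - Complex.exp τ ^ 2) * h1 +
    Complex.exp τ ^ 2 * (Complex.sin θ ^ 2 + Complex.cos θ ^ 2) * Complex.I_sq

theorem mvp0_c_t (θ τ : ℝ) : HasDerivAt (fun s => mvp0_c θ s)
    (-2 * ((Real.exp τ : ℂ) * I * (Real.sin θ : ℂ)) / mvp0_J θ τ ^ 3) τ := by
  have hJ := mvp0_J_ne θ τ
  have h := (hasDerivAt_const τ (1 : ℂ)).div ((mvp0_J_t θ τ).pow 2) (pow_ne_zero 2 hJ)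
  refine h.congr_deriv (Eq.symm ?_)
  simp only [Pi.pow_apply]
  field_simp
  push_cast
  ring

theorem mvp0_c_th (θ τ : ℝ) : HasDerivAt (fun s => mvp0_c s τ)
    (-2 * mvp0_N θ τ / mvp0_J θ τ ^ 3) θ := by
  have hJ := mvp0_J_ne θ τ
  have h := (hasDerivAt_const θ (1 : ℂ)).div ((mvp0_J_th θ τ).pow 2) (pow_ne_zero 2 hJ)
  refine h.congr_deriv (Eq.symm ?_)
  simp only [Pi.pow_apply]
  field_simp
  push_cast
  ring

noncomputable def mvp0_G (f : ℂ → ℝ) (θ τ : ℝ) : ℝ := f (mvp0_Z θ τ)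

noncomputable def mvp0_G1 (f : ℂ → ℝ) (θ τ : ℝ) : ℝ :=
  Real.exp τ * fderiv ℝ f (mvp0_Z θ τ) (I * mvp0_c θ τ)

noncomputable def mvp0_G2 (f : ℂ → ℝ) (θ τ : ℝ) : ℝ :=
  mvp0_G1 f θ τ + Real.exp τ * (Real.exp τ *
    fderiv ℝ (fderiv ℝ f) (mvp0_Z θ τ) (I * mvp0_c θ τ) (I * mvp0_c θ τ) +
    fderiv ℝ f (mvp0_Z θ τ)
      (I * (-2 * ((Real.exp τ : ℂ) * I * (Real.sin θ : ℂ)) / mvp0_J θ τ ^ 3)))

noncomputable def mvp0_H (f : ℂ → ℝ) (θ τ : ℝ) : ℝ := fderiv ℝ f (mvp0_Z θ τ) (mvp0_c θ τ)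

noncomputable def mvp0_H1 (f : ℂ → ℝ) (θ τ : ℝ) : ℝ :=
  (Real.exp τ ^ 2 - 1) * fderiv ℝ (fderiv ℝ f) (mvp0_Z θ τ) (mvp0_c θ τ) (mvp0_c θ τ) +
    fderiv ℝ f (mvp0_Z θ τ) (-2 * mvp0_N θ τ / mvp0_J θ τ ^ 3)

theorem mvp0_d1 {f : ℂ → ℝ} (h : ContDiffOn ℝ 2 f Up) {z : ℂ} (hz : z ∈ Up) :
    HasFDerivAt f (fderiv ℝ f z) z :=
  ((h.contDiffAt (isOpen_Up.mem_nhds hz)).differentiableAt (by norm_num)).hasFDerivAt

theorem mvp0_cd1 {f : ℂ → ℝ} (h : ContDiffOn ℝ 2 f Up) : ContDiffOn ℝ 1 (fderiv ℝ f) Up :=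
  h.fderiv_of_isOpen isOpen_Up (by norm_num)

theorem mvp0_d2 {f : ℂ → ℝ} (h : ContDiffOn ℝ 2 f Up) {z : ℂ} (hz : z ∈ Up) :
    HasFDerivAt (fderiv ℝ f) (fderiv ℝ (fderiv ℝ f) z) z :=
  (((mvp0_cd1 h).contDiffAt (isOpen_Up.mem_nhds hz)).differentiableAt (by norm_num)).hasFDerivAt

theorem mvp0_c0 {f : ℂ → ℝ} (h : ContDiffOn ℝ 2 f Up) :
    Continuous fun p : ℝ × ℝ => mvp0_G f p.1 p.2 :=
  h.continuousOn.comp_continuous mvp0_cZ fun p => mvp0_Z_mem p.1 p.2

theorem mvp0_cD1 {f : ℂ → ℝ} (h : ContDiffOn ℝ 2 f Up) :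
    Continuous fun p : ℝ × ℝ => fderiv ℝ f (mvp0_Z p.1 p.2) :=
  (mvp0_cd1 h).continuousOn.comp_continuous mvp0_cZ fun p => mvp0_Z_mem p.1 p.2

theorem mvp0_cD2 {f : ℂ → ℝ} (h : ContDiffOn ℝ 2 f Up) :
    Continuous fun p : ℝ × ℝ => fderiv ℝ (fderiv ℝ f) (mvp0_Z p.1 p.2) :=
  ((mvp0_cd1 h).continuousOn_fderiv_of_isOpen isOpen_Up le_rfl).comp_continuous mvp0_cZ
    fun p => mvp0_Z_mem p.1 p.2

theorem mvp0_c1 {f : ℂ → ℝ} (h : ContDiffOn ℝ 2 f Up) :
    Continuous fun p : ℝ × ℝ => mvp0_G1 f p.1 p.2 :=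
  (Real.continuous_exp.comp continuous_snd).mul
    ((mvp0_cD1 h).clm_apply (continuous_const.mul mvp0_cc))

theorem mvp0_c2 {f : ℂ → ℝ} (h : ContDiffOn ℝ 2 f Up) :
    Continuous fun p : ℝ × ℝ => mvp0_G2 f p.1 p.2 := by
  have he : Continuous fun p : ℝ × ℝ => Real.exp p.2 := Real.continuous_exp.comp continuous_snd
  have hc : Continuous fun p : ℝ × ℝ => I * mvp0_c p.1 p.2 := continuous_const.mul mvp0_cc
  have hn : Continuous fun p : ℝ × ℝ => -2 * ((Real.exp p.2 : ℂ) * I * (Real.sin p.1 : ℂ)) := by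
    fun_prop
  exact (mvp0_c1 h).add (he.mul ((he.mul (((mvp0_cD2 h).clm_apply hc).clm_apply hc)).add
    ((mvp0_cD1 h).clm_apply (continuous_const.mul
      (hn.div (mvp0_cJ.pow 3) fun p => pow_ne_zero 3 (mvp0_J_ne p.1 p.2))))))

theorem mvp0_cH1 {f : ℂ → ℝ} (h : ContDiffOn ℝ 2 f Up) :
    Continuous fun p : ℝ × ℝ => mvp0_H1 f p.1 p.2 := by
  have he : Continuous fun p : ℝ × ℝ => Real.exp p.2 ^ 2 - 1 := by fun_prop
  exact (he.mul (((mvp0_cD2 h).clm_apply mvp0_cc).clm_apply mvp0_cc)).add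
    ((mvp0_cD1 h).clm_apply ((continuous_const.mul mvp0_cN).div (mvp0_cJ.pow 3)
      fun p => pow_ne_zero 3 (mvp0_J_ne p.1 p.2)))

theorem mvp0_G_t {f : ℂ → ℝ} (h : ContDiffOn ℝ 2 f Up) (θ τ : ℝ) :
    HasDerivAt (fun s => mvp0_G f θ s) (mvp0_G1 f θ τ) τ := by
  have h1 := (mvp0_d1 h (mvp0_Z_mem θ τ)).comp_hasDerivAt τ (mvp0_Z_t θ τ)
  refine h1.congr_deriv ?_
  rw [map_smul, smul_eq_mul, mvp0_G1]

theorem mvp0_G1_t {f : ℂ → ℝ} (h : ContDiffOn ℝ 2 f Up) (θ τ : ℝ) :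
    HasDerivAt (fun s => mvp0_G1 f θ s) (mvp0_G2 f θ τ) τ := by
  have h1 := (mvp0_d2 h (mvp0_Z_mem θ τ)).comp_hasDerivAt τ (mvp0_Z_t θ τ)
  have h2 := h1.clm_apply ((mvp0_c_t θ τ).const_mul I)
  have h3 := (Real.hasDerivAt_exp τ).mul h2
  refine h3.congr_deriv ?_
  simp only [map_smul, smul_apply, smul_eq_mul, mvp0_G1, mvp0_G2, Function.comp_apply]

theorem mvp0_H_th {f : ℂ → ℝ} (h : ContDiffOn ℝ 2 f Up) (θ τ : ℝ) :
    HasDerivAt (fun s => mvp0_H f s τ) (mvp0_H1 f θ τ) θ := by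
  have h1 := (mvp0_d2 h (mvp0_Z_mem θ τ)).comp_hasDerivAt θ (mvp0_Z_th θ τ)
  have h2 := h1.clm_apply (mvp0_c_th θ τ)
  refine h2.congr_deriv ?_
  simp only [map_smul, smul_apply, smul_eq_mul, mvp0_H1, Function.comp_apply]

theorem mvp0_first (θ τ : ℝ) :
    (-2 * Real.exp τ ^ 3) • (I * mvp0_c θ τ) + ((1 - Real.exp τ ^ 2) * Real.exp τ) •
      (I * (-2 * ((Real.exp τ : ℂ) * I * (Real.sin θ : ℂ)) / mvp0_J θ τ ^ 3)) +
      (-Real.exp τ ^ 2) • (-2 * mvp0_N θ τ / mvp0_J θ τ ^ 3) = 0 := by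
  have hJ := mvp0_J_ne θ τ
  simp only [real_smul, mvp0_c]
  field_simp
  simp only [mvp0_J, mvp0_N]
  push_cast
  linear_combination (-2 * Complex.exp τ ^ 2 * Complex.sin θ) * Complex.I_sq

theorem mvp0_pde {t : ℝ} {f : ℂ → ℝ} (h : Eig t f) (θ τ : ℝ) :
    (1 - Real.exp τ ^ 2) * (mvp0_G2 f θ τ + (1 / 4 + t ^ 2) * mvp0_G f θ τ) -
      (1 + Real.exp τ ^ 2) * mvp0_G1 f θ τ = Real.exp τ ^ 2 * mvp0_H1 f θ τ := by
  have e1 := h.eq (mvp0_Z θ τ) (mvp0_Z_mem θ τ)
  rw [iteratedFDeriv_two_apply, iteratedFDeriv_two_apply, mvp0_Z_im] at e1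
  simp only [Matrix.cons_val_zero, Matrix.cons_val_one] at e1
  have e2 := mvp0_bilin (fderiv ℝ (fderiv ℝ f) (mvp0_Z θ τ)) (mvp0_c θ τ)
  have e3 := congrArg (fderiv ℝ f (mvp0_Z θ τ)) (mvp0_first θ τ)
  rw [map_add, map_add, map_smul, map_smul, map_smul, map_zero] at e3
  simp only [smul_eq_mul] at e3
  simp only [mvp0_G, mvp0_G1, mvp0_G2, mvp0_H1]
  linear_combination e3 - (1 - Real.exp τ ^ 2) * e1 + (1 - Real.exp τ ^ 2) * Real.exp τ ^ 2 * e2

theorem mvp0_ode {v v1 v2 : ℝ → ℝ} {l : ℝ} (hl : 0 < l) (h1 : ∀ τ, HasDerivAt v (v1 τ) τ)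
    (h2 : ∀ τ, HasDerivAt v1 (v2 τ) τ)
    (he : ∀ τ, (1 - Real.exp τ ^ 2) * (v2 τ + l * v τ) = (1 + Real.exp τ ^ 2) * v1 τ)
    (h0 : v 0 = 0) (τ : ℝ) : v τ = 0 := by
  have h10 : v1 0 = 0 := by
    have := he 0
    rw [Real.exp_zero] at this
    linarith
  have hE : ∀ s, HasDerivAt (fun s => v1 s ^ 2 + l * v s ^ 2) (2 * v1 s * (v2 s + l * v s)) s := by
    intro s
    refine (((h2 s).pow 2).add (((h1 s).pow 2).const_mul l)).congr_deriv ?_
    norm_num
    ring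
  have hc : Continuous fun s => v1 s ^ 2 + l * v s ^ 2 :=
    continuous_iff_continuousAt.2 fun s => (hE s).continuousAt
  have hd : Differentiable ℝ fun s => v1 s ^ 2 + l * v s ^ 2 := fun s => (hE s).differentiableAt
  have key : v1 τ ^ 2 + l * v τ ^ 2 ≤ v1 0 ^ 2 + l * v 0 ^ 2 := by
    rcases le_total 0 τ with hτ | hτ
    · have := antitoneOn_of_deriv_nonpos (convex_Ici (0 : ℝ)) hc.continuousOn
        hd.differentiableOn (by
          intro s hs
          rw [interior_Ici] at hs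
          rw [(hE s).deriv]
          have e1 : 1 < Real.exp s := Real.one_lt_exp_iff.2 hs
          have e2 : 0 < Real.exp s ^ 2 - 1 := by nlinarith
          have e3 : (Real.exp s ^ 2 - 1) * (2 * v1 s * (v2 s + l * v s)) =
              -(2 * (1 + Real.exp s ^ 2) * v1 s ^ 2) := by linear_combination (-2 * v1 s) * he s
          have e4 : 0 ≤ 2 * (1 + Real.exp s ^ 2) * v1 s ^ 2 := by positivity
          by_contra e5
          have := mul_pos e2 (not_le.1 e5)
          linarith)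
      exact this self_mem_Ici hτ hτ
    · have := monotoneOn_of_deriv_nonneg (convex_Iic (0 : ℝ)) hc.continuousOn
        hd.differentiableOn (by
          intro s hs
          rw [interior_Iic] at hs
          rw [(hE s).deriv]
          have e1 : Real.exp s < 1 := Real.exp_lt_one_iff.2 hs
          have e0 := Real.exp_pos s
          have e2 : 0 < 1 - Real.exp s ^ 2 := by nlinarith
          have e3 : (1 - Real.exp s ^ 2) * (2 * v1 s * (v2 s + l * v s)) =
              2 * (1 + Real.exp s ^ 2) * v1 s ^ 2 := by linear_combination (2 * v1 s) * he s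
          have e4 : 0 ≤ 2 * (1 + Real.exp s ^ 2) * v1 s ^ 2 := by positivity
          by_contra e5
          have := mul_pos e2 (neg_pos.2 (not_le.1 e5))
          linarith)
      exact this hτ self_mem_Iic hτ
  rw [h0, h10] at key
  have e1 : l * v τ ^ 2 ≤ 0 := by nlinarith [sq_nonneg (v1 τ)]
  have e2 : v τ ^ 2 ≤ 0 := by
    by_contra e3
    have := mul_pos hl (not_le.1 e3)
    linarith
  exact pow_eq_zero_iff two_ne_zero |>.1 (le_antisymm e2 (sq_nonneg _))

theorem mvp_zero {t : ℝ} {f : ℂ → ℝ} (h : Eig t f) (h0 : f I = 0) (τ : ℝ) :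
    ∫ θ in Ioc (0 : ℝ) (2 * Real.pi), f (mb (kk θ) ((Real.exp τ : ℂ) * I)) = 0 := by
  have hpi : (0 : ℝ) ≤ 2 * Real.pi := by positivity
  rw [← intervalIntegral.integral_of_le hpi]
  simp only [mvp0_Z_eq]
  have hs : ∀ {F : ℝ → ℝ → ℝ}, (Continuous fun p : ℝ × ℝ => F p.1 p.2) → ∀ s,
      IntervalIntegrable (fun θ => F θ s) volume 0 (2 * Real.pi) := fun hF s =>
    (hF.comp (continuous_id.prodMk continuous_const)).intervalIntegrable _ _
  refine mvp0_ode (v := fun s => ∫ θ in (0 : ℝ)..(2 * Real.pi), mvp0_G f θ s)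
    (v1 := fun s => ∫ θ in (0 : ℝ)..(2 * Real.pi), mvp0_G1 f θ s)
    (v2 := fun s => ∫ θ in (0 : ℝ)..(2 * Real.pi), mvp0_G2 f θ s) (l := 1 / 4 + t ^ 2)
    (by positivity) (mvp0_hasDerivAt_int (mvp0_c0 h.c2) (mvp0_c1 h.c2) (mvp0_G_t h.c2) _ _)
    (mvp0_hasDerivAt_int (mvp0_c1 h.c2) (mvp0_c2 h.c2) (mvp0_G1_t h.c2) _ _) ?_ ?_ τ
  · intro s
    have e1 : ∫ θ in (0 : ℝ)..(2 * Real.pi), mvp0_H1 f θ s = 0 := by
      rw [intervalIntegral.integral_eq_sub_of_hasDerivAt (f := fun θ => mvp0_H f θ s)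
        (fun θ _ => mvp0_H_th h.c2 θ s) (hs (mvp0_cH1 h.c2) s)]
      simp only [mvp0_H, mvp0_Z, mvp0_c, mvp0_N, mvp0_J, Real.sin_two_pi, Real.cos_two_pi,
        Real.sin_zero, Real.cos_zero, sub_self]
    have e2 : ∫ θ in (0 : ℝ)..(2 * Real.pi), ((1 - Real.exp s ^ 2) *
        (mvp0_G2 f θ s + (1 / 4 + t ^ 2) * mvp0_G f θ s) - (1 + Real.exp s ^ 2) * mvp0_G1 f θ s) =
        0 := by
      simp only [mvp0_pde h]
      rw [intervalIntegral.integral_const_mul, e1, mul_zero]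
    rw [intervalIntegral.integral_sub
      (((hs (mvp0_c2 h.c2) s).add ((hs (mvp0_c0 h.c2) s).const_mul _)).const_mul _)
      ((hs (mvp0_c1 h.c2) s).const_mul _), intervalIntegral.integral_const_mul,
      intervalIntegral.integral_const_mul, intervalIntegral.integral_add (hs (mvp0_c2 h.c2) s)
      ((hs (mvp0_c0 h.c2) s).const_mul _), intervalIntegral.integral_const_mul] at e2
    exact sub_eq_zero.1 e2
  · have e : ∀ θ, mvp0_G f θ 0 = 0 := by
      intro θ
      rw [mvp0_G, ← mvp0_Z_eq, Real.exp_zero, ofReal_one, one_mul, mb_kk_I, h0]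
    simp only [e, intervalIntegral.integral_zero]

/-! The mean value property.
`mvp_zero`: put `g θ τ = f (mb (kk θ) (i e^τ))`, `v τ = ∫ g θ τ dθ`.  With `f_θ = f ∘ mb (kk θ)`
(an eigenfunction by `eig_mb`), `y = e^τ`, `z = i y`: `g_τ = y ∂_y f_θ`,
`g_ττ = y ∂_y f_θ + y² ∂_y² f_θ`, and differentiating `f (mb (kk (θ + ε)) z) = f_θ (mb (kk ε) z)`
twice in `ε` at `0` (`d/dε mb (kk ε) z = -(1 + (mb (kk ε) z)²)`):
`g_θθ = (1 - y²)² ∂_x² f_θ + 2 y (1 - y²) ∂_y f_θ`.  Hence for `τ ≠ 0`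
`g_ττ + coth τ g_τ + y² / (1 - y²)² g_θθ = -(1/4 + t²) g`; integrate over a period:
`v'' + coth τ v' + (1/4 + t²) v = 0`.  The energy `v'² + (1/4 + t²) v²` has derivative
`-2 coth τ v'² ≤ 0` on `τ > 0`, is continuous at `0` and vanishes there: `v 0 = 0`, and `v` is
even (`mb (kk (π/2)) (i y) = i / y`, shift `θ`), so `v' 0 = 0`.  Differentiation under the
integral: the integrands are continuous on compact sets
(`intervalIntegral.hasDerivAt_integral_of_dominated_loc_of_deriv_le`). -/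

theorem mvp_cont_kk : Continuous kk := by
  unfold kk rot
  fun_prop

theorem mvp_contOn : ContinuousOn (fun p : ℝ × ℂ => mb (kk p.1) p.2) (univ ×ˢ Up) := by
  have h := (contDiffOn_mb (n := 0)).continuousOn
  have h2 : Continuous fun p : ℝ × ℂ => ((kk p.1, p.2) : E × ℂ) :=
    (mvp_cont_kk.comp continuous_fst).prodMk continuous_snd
  have h3 := h.comp (s := univ ×ˢ Up) h2.continuousOn fun p hp => ⟨kk_mem _, hp.2⟩
  simpa only [Function.comp_def] using h3

theorem mvp_cont_mb {w : ℂ} (hw : w ∈ Up) : Continuous fun θ : ℝ => mb (kk θ) w := by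
  have h2 : Continuous fun θ : ℝ => ((θ, w) : ℝ × ℂ) := by fun_prop
  have h3 := mvp_contOn.comp_continuous h2 fun θ => ⟨mem_univ _, hw⟩
  simpa only [Function.comp_def] using h3

theorem mvp_cont_f {f : ℂ → ℝ} (hf : ContinuousOn f Up) {w : ℂ} (hw : w ∈ Up) :
    Continuous fun θ : ℝ => f (mb (kk θ) w) :=
  hf.comp_continuous (mvp_cont_mb hw) fun θ => mb_mem (kk_mem θ) hw

theorem mvp_intOn {V : Type} [NormedAddCommGroup V] {F : ℝ → V} (hF : Continuous F) :
    IntegrableOn F (Ioc (0 : ℝ) (2 * Real.pi)) :=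
  (hF.integrableOn_Icc).mono_set Ioc_subset_Icc_self

theorem mvp_I_mem : I ∈ Up := by
  show 0 < I.im
  simp

/-- polar coordinates about `i`: solve `(|w|² - 1) / 2 * sin 2θ + Re w * cos 2θ = 0` -/
theorem exists_polar {w : ℂ} (hw : w ∈ Up) :
    ∃ θ τ : ℝ, w = mb (kk θ) ((Real.exp τ : ℂ) * I) := by
  have hg : Continuous fun φ : ℝ => (w.re ^ 2 + w.im ^ 2 - 1) * (Real.sin φ * Real.cos φ) +
      w.re * (Real.cos φ ^ 2 - Real.sin φ ^ 2) := by fun_prop
  obtain ⟨φ, hφ⟩ : ∃ φ : ℝ, (w.re ^ 2 + w.im ^ 2 - 1) * (Real.sin φ * Real.cos φ) +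
      w.re * (Real.cos φ ^ 2 - Real.sin φ ^ 2) = 0 := by
    rcases le_total 0 w.re with h | h
    · refine intermediate_value_univ (Real.pi / 2) 0 hg ⟨?_, ?_⟩ <;> simp [h]
    · refine intermediate_value_univ 0 (Real.pi / 2) hg ⟨?_, ?_⟩ <;> simp [h]
  have hz : mb (kk φ) w ∈ Up := mb_mem (kk_mem φ) hw
  have hre : (mb (kk φ) w).re = 0 := by
    rw [mb_kk, div_re, ← add_div, div_eq_zero_iff]
    left
    simp only [jj, sub_re, sub_im, add_re, add_im, mul_re, mul_im, ofReal_re, ofReal_im]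
    linear_combination hφ
  refine ⟨-φ, Real.log (mb (kk φ) w).im, ?_⟩
  have h1 : ((Real.exp (Real.log (mb (kk φ) w).im) : ℝ) : ℂ) * I = mb (kk φ) w := by
    rw [Real.exp_log hz]
    apply Complex.ext <;> simp [hre]
  rw [h1, mb_kk_kk _ _ hw, neg_add_cancel, kk_zero, mb_one]

/-- shift of the variable in an integral over a period -/
theorem int_shift {V : Type} [NormedAddCommGroup V] [NormedSpace ℝ V] {F : ℝ → V}
    (hF : Function.Periodic F (2 * Real.pi)) (a : ℝ) :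
    ∫ θ in Ioc (0 : ℝ) (2 * Real.pi), F (θ + a) = ∫ θ in Ioc (0 : ℝ) (2 * Real.pi), F θ := by
  have h : (0 : ℝ) ≤ 2 * Real.pi := by positivity
  rw [← intervalIntegral.integral_of_le h, ← intervalIntegral.integral_of_le h,
    intervalIntegral.integral_comp_add_right]
  have := hF.intervalIntegral_add_eq a 0
  rw [zero_add] at this
  rw [zero_add, add_comm, this]

theorem int_neg {V : Type} [NormedAddCommGroup V] [NormedSpace ℝ V] {F : ℝ → V}
    (hF : Function.Periodic F (2 * Real.pi)) :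
    ∫ θ in Ioc (0 : ℝ) (2 * Real.pi), F (-θ) = ∫ θ in Ioc (0 : ℝ) (2 * Real.pi), F θ := by
  have h : (0 : ℝ) ≤ 2 * Real.pi := by positivity
  rw [← intervalIntegral.integral_of_le h, ← intervalIntegral.integral_of_le h,
    intervalIntegral.integral_comp_neg]
  have := hF.intervalIntegral_add_eq (-(2 * Real.pi)) 0
  rw [zero_add, neg_add_cancel] at this
  rw [neg_zero, this]

theorem mvp_zero' {t : ℝ} {f : ℂ → ℝ} (h : Eig t f) (h0 : f I = 0) {w : ℂ} (hw : w ∈ Up) :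
    ∫ θ in Ioc (0 : ℝ) (2 * Real.pi), f (mb (kk θ) w) = 0 := by
  obtain ⟨a, τ, rfl⟩ := exists_polar hw
  have hz : (Real.exp τ : ℂ) * I ∈ Up := by
    show 0 < ((Real.exp τ : ℂ) * I).im
    simp only [mul_im, ofReal_re, I_im, mul_one, ofReal_im, I_re, mul_zero, add_zero]
    exact Real.exp_pos τ
  simp only [mb_kk_kk _ _ hz]
  have hp : Function.Periodic (fun θ : ℝ => f (mb (kk θ) ((Real.exp τ : ℂ) * I))) (2 * Real.pi) :=
    fun θ => by simp only [kk_per]
  rw [int_shift hp a]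
  exact mvp_zero h h0 τ

theorem mvp_cos_eq (t θ : ℝ) (w : ℂ) :
    √(mb (kk θ) w).im * Real.cos (t * Real.log (mb (kk θ) w).im) =
      √(PP θ w) * Real.cos (t * bb θ w) := by
  rw [im_mb_kk, bb]

theorem mvp_sin_eq (t θ : ℝ) (w : ℂ) :
    √(mb (kk θ) w).im * Real.sin (t * Real.log (mb (kk θ) w).im) =
      √(PP θ w) * Real.sin (t * bb θ w) := by
  rw [im_mb_kk, bb]

theorem mvp_cont_cos (t : ℝ) {w : ℂ} (hw : w ∈ Up) :
    Continuous fun θ : ℝ => √(PP θ w) * Real.cos (t * bb θ w) := by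
  have := mvp_cont_f (eig_cos t).cont hw
  simpa only [mvp_cos_eq] using this

theorem mvp_cont_sin (t : ℝ) {w : ℂ} (hw : w ∈ Up) :
    Continuous fun θ : ℝ => √(PP θ w) * Real.sin (t * bb θ w) := by
  have := mvp_cont_f (eig_sin t).cont hw
  simpa only [mvp_sin_eq] using this

/-- apply `mvp_zero` to `f - f I * √y cos (t log y)` -/
theorem mvp {t : ℝ} {f : ℂ → ℝ} (h : Eig t f) {w : ℂ} (hw : w ∈ Up) :
    ∫ θ in Ioc (0 : ℝ) (2 * Real.pi), f (mb (kk θ) w) = 2 * Real.pi * (f I * ph0 t w) := by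
  have h1 := mvp_zero' (h.sub (eig_cos t) (f I)) (by simp) hw
  simp only [mvp_cos_eq] at h1
  rw [integral_sub (mvp_intOn (mvp_cont_f h.cont hw))
    ((mvp_intOn (mvp_cont_cos t hw)).const_mul _), integral_const_mul] at h1
  have hp : (2 * Real.pi) ≠ 0 := by positivity
  rw [ph0, sub_eq_zero.1 h1]
  field_simp

theorem ph0_kk (t θ : ℝ) {w : ℂ} (hw : w ∈ Up) : ph0 t (mb (kk θ) w) = ph0 t w := by
  have hp : Function.Periodic (fun a : ℝ => √(PP a w) * Real.cos (t * Real.log (PP a w)))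
      (2 * Real.pi) := fun a => by simp only [PP_per]
  simp only [ph0, bb, PP_mb_kk _ _ hw]
  rw [int_shift hp θ]

theorem continuousOn_ph0 (t : ℝ) : ContinuousOn (ph0 t) Up := by
  have h : (0 : ℝ) ≤ 2 * Real.pi := by positivity
  have h1 : ContinuousOn (fun p : ℝ × ℂ => √(PP p.1 p.2) * Real.cos (t * bb p.1 p.2))
      (univ ×ˢ Up) :=
    (contDiffOn_sqrt_PP (n := 0)).continuousOn.mul (Real.continuous_cos.comp_continuousOn
      (continuousOn_const.mul (contDiffOn_bb (n := 0)).continuousOn))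
  have h2 : Continuous fun p : Up × ℝ => ((p.2, p.1.1) : ℝ × ℂ) := by fun_prop
  have h3 : Continuous (Function.uncurry fun (w : Up) (θ : ℝ) =>
      √(PP θ w.1) * Real.cos (t * bb θ w.1)) :=
    h1.comp_continuous h2 fun p => ⟨mem_univ _, p.1.2⟩
  have h4 := intervalIntegral.continuous_parametric_intervalIntegral_of_continuous'
    (μ := volume) h3 0 (2 * Real.pi)
  rw [continuousOn_iff_continuous_domRestrict]
  simp only [intervalIntegral.integral_of_le h] at h4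
  exact h4.div_const _

/-- the imaginary part vanishes by `mvp` for `eig_sin` -/
theorem Ph_I (t : ℝ) {w : ℂ} (hw : w ∈ Up) : Ph t w I = ((2 * Real.pi * ph0 t w : ℝ) : ℂ) := by
  have h1 := mvp_zero' (eig_sin t) (by simp) hw
  simp only [mvp_sin_eq] at h1
  have h2 : ∀ θ : ℝ, ((√(PP θ w) * √(PP θ I) : ℝ) : ℂ) * ph t θ w * conj (ph t θ I) =
      ((√(PP θ w) * Real.cos (t * bb θ w) : ℝ) : ℂ) +
        ((√(PP θ w) * Real.sin (t * bb θ w) : ℝ) : ℂ) * I := by
    intro θ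
    have e1 : ph t θ I = 1 := by simp [ph, bb, PP_I]
    rw [e1, PP_I, ph, exp_mul_I, ← ofReal_cos, ← ofReal_sin]
    simp only [Real.sqrt_one, mul_one, map_one, ofReal_mul]
    ring
  have hp : (2 * Real.pi) ≠ 0 := by positivity
  have h3 : 2 * Real.pi * ph0 t w =
      ∫ θ in Ioc (0 : ℝ) (2 * Real.pi), √(PP θ w) * Real.cos (t * bb θ w) := by
    rw [ph0]; field_simp
  rw [Ph, h3]
  simp only [h2]
  have c1 : Continuous fun θ : ℝ => ((√(PP θ w) * Real.cos (t * bb θ w) : ℝ) : ℂ) :=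
    continuous_ofReal.comp (mvp_cont_cos t hw)
  have c2 : Continuous fun θ : ℝ => ((√(PP θ w) * Real.sin (t * bb θ w) : ℝ) : ℂ) :=
    continuous_ofReal.comp (mvp_cont_sin t hw)
  rw [integral_add (mvp_intOn c1) ((mvp_intOn c2).mul_const _), integral_mul_const,
    integral_complex_ofReal, integral_complex_ofReal, h1]
  simp

theorem ph0_ge {t : ℝ} {w : ℂ} (h1 : ‖w - I‖ ≤ 1 / 10) (h2 : |t| * ‖w - I‖ ≤ 1 / 10) :
    1 / 2 ≤ ph0 t w := by
  have hw : w ∈ Up := ball_sub (by linarith)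
  have hp : 0 < 2 * Real.pi := by positivity
  have h3 : ∀ θ : ℝ, (1 / 2 : ℝ) ≤ √(PP θ w) * Real.cos (t * bb θ w) := by
    intro θ
    have a1 : (4 / 5 : ℝ) ≤ √(PP θ w) :=
      Real.le_sqrt_of_sq_le (by linarith [(PP_bd θ h1).1])
    have a2 : |t * bb θ w| ≤ 2 / 5 := by
      rw [abs_mul]
      have := mul_le_mul_of_nonneg_left (abs_bb_le θ h1) (abs_nonneg t)
      linarith
    have a3 : (t * bb θ w) ^ 2 ≤ (2 / 5) ^ 2 := by
      rw [← sq_abs]
      exact pow_le_pow_left₀ (abs_nonneg _) a2 2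
    have a4 : (9 / 10 : ℝ) ≤ Real.cos (t * bb θ w) := by
      have := Real.one_sub_sq_div_two_le_cos (x := t * bb θ w)
      linarith
    have := mul_le_mul a1 a4 (by norm_num) (Real.sqrt_nonneg _)
    linarith
  have h4 := setIntegral_mono (s := Ioc (0 : ℝ) (2 * Real.pi)) (μ := volume)
    (mvp_intOn (F := fun _ : ℝ => (1 / 2 : ℝ)) continuous_const) (mvp_intOn (mvp_cont_cos t hw)) h3
  rw [setIntegral_const, Real.volume_real_Ioc_of_le hp.le, smul_eq_mul] at h4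
  rw [ph0, le_div_iff₀ hp]
  linarith

/-- integrated form: rotation invariant kernels with compact support (Fubini, `int_mb`) -/
theorem mvp_int {t : ℝ} {f : ℂ → ℝ} (h : Eig t f) {κ : ℂ → ℂ} (hm : Measurable κ) {K : Set ℂ}
    (hK : IsCompact K) (hU : K ⊆ Up) (h0 : ∀ w ∈ Up, w ∉ K → κ w = 0)
    (hb : ∃ b : ℝ, ∀ w ∈ K, ‖κ w‖ ≤ b) (hr : ∀ θ : ℝ, ∀ w ∈ Up, κ (mb (kk θ) w) = κ w) :
    ∫ w, κ w * (f w : ℂ) ∂muH = (f I : ℂ) * ∫ w, κ w * (ph0 t w : ℂ) ∂muH := by
  obtain ⟨b, hb⟩ := hb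
  have hp : 0 < 2 * Real.pi := by positivity
  have hS : IsCompact ((fun p : ℝ × ℂ => mb (kk p.1) p.2) '' (Icc (0 : ℝ) (2 * Real.pi) ×ˢ K)) :=
    (isCompact_Icc.prod hK).image_of_continuousOn
      (mvp_contOn.mono (prod_mono (subset_univ _) hU))
  obtain ⟨c, hc⟩ := h.bd hS (by
    rintro _ ⟨p, hp, rfl⟩
    exact mb_mem (kk_mem _) (hU hp.2))
  have e1 : ∀ θ : ℝ, ∫ w, κ w * (f (mb (kk θ) w) : ℂ) ∂muH = ∫ w, κ w * (f w : ℂ) ∂muH := by
    intro θ
    rw [← int_mb (kk_mem θ) fun w => κ w * (f w : ℂ)]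
    refine integral_congr_ae (ae_Up.mono fun w hw => ?_)
    simp only [hr θ w hw]
  have m1 : Measurable fun p : ℝ × ℂ => mb (kk p.1) p.2 := by
    have m0 : Measurable fun p : ℝ × ℂ => ((kk p.1, p.2) : E × ℂ) :=
      (mvp_cont_kk.measurable.comp measurable_fst).prodMk measurable_snd
    have := measurable_mb.comp m0
    simpa only [Function.comp_def] using this
  have m2 : Measurable (Function.uncurry fun (θ : ℝ) (w : ℂ) => κ w * (f (mb (kk θ) w) : ℂ)) := by
    have := (hm.comp measurable_snd).mul (measurable_ofReal.comp (h.meas.comp m1))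
    simpa only [Function.comp_def, Function.uncurry_def, Pi.mul_def] using this
  have i1 : Integrable (K.indicator fun _ : ℂ => b * c) muH :=
    (integrableOn_const (muH_compact hK hU).ne).integrable_indicator hK.measurableSet
  have i2 : Integrable (fun p : ℝ × ℂ => (1 : ℝ) * K.indicator (fun _ : ℂ => b * c) p.2)
      ((volume.restrict (Ioc (0 : ℝ) (2 * Real.pi))).prod muH) :=
    Integrable.mul_prod (f := fun _ : ℝ => (1 : ℝ)) (mvp_intOn continuous_const) i1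
  have i3 : Integrable (Function.uncurry fun (θ : ℝ) (w : ℂ) => κ w * (f (mb (kk θ) w) : ℂ))
      ((volume.restrict (Ioc (0 : ℝ) (2 * Real.pi))).prod muH) := by
    refine i2.mono' m2.aestronglyMeasurable ?_
    have a1 : ∀ᵐ p ∂((volume.restrict (Ioc (0 : ℝ) (2 * Real.pi))).prod muH),
        p.1 ∈ Ioc (0 : ℝ) (2 * Real.pi) :=
      Measure.quasiMeasurePreserving_fst.ae (ae_restrict_mem measurableSet_Ioc)
    have a2 : ∀ᵐ p ∂((volume.restrict (Ioc (0 : ℝ) (2 * Real.pi))).prod muH), p.2 ∈ Up :=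
      Measure.quasiMeasurePreserving_snd.ae ae_Up
    filter_upwards [a1, a2] with p hp1 hp2
    show ‖κ p.2 * (f (mb (kk p.1) p.2) : ℂ)‖ ≤ _
    by_cases hk : p.2 ∈ K
    · rw [indicator_of_mem hk, one_mul, norm_mul, norm_real, Real.norm_eq_abs]
      exact mul_le_mul (hb _ hk) (hc _ ⟨p, ⟨Ioc_subset_Icc_self hp1, hk⟩, rfl⟩) (abs_nonneg _)
        ((norm_nonneg _).trans (hb _ hk))
    · rw [indicator_of_notMem hk, h0 _ hp2 hk]
      simp
  have e2 := integral_integral_swap i3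
  simp only [e1] at e2
  rw [setIntegral_const, Real.volume_real_Ioc_of_le hp.le, sub_zero] at e2
  have e3 : ∫ w, ∫ θ in Ioc (0 : ℝ) (2 * Real.pi), κ w * (f (mb (kk θ) w) : ℂ) ∂volume ∂muH =
      ∫ w, ((2 * Real.pi : ℝ) : ℂ) * ((f I : ℂ) * (κ w * (ph0 t w : ℂ))) ∂muH := by
    refine integral_congr_ae (ae_Up.mono fun w hw => ?_)
    simp only
    rw [integral_const_mul, integral_complex_ofReal, mvp h hw]
    push_cast
    ring
  rw [e3, integral_const_mul, integral_const_mul, real_smul] at e2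
  exact mul_left_cancel₀ (ofReal_ne_zero.2 hp.ne') e2

/-! Invariance of the two point spherical function and the lower bound for `hh`.
`homog`: for `H` continuous on `ℂ \ 0` and homogeneous of degree `-2`, and `N` a continuous
positive gauge, polar coordinates (`Complex.integral_comp_polarCoord_symm`) give
`∫_{1 < N v < 2} H = log 2 * ∫ H (e^{iθ}) dθ`.  Use it for `N = ‖·‖` and for `N = ‖L⁻¹ ·‖`, and the
linear change of variables (`Measure.map_linearMap_addHaar_eq_smul_addHaar` or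
`integral_comp_linearMap`-type lemmas).
`Ph_mb`: with `v = cos θ + i sin θ`, `jj θ z = v.im z + v.re`; put
`H v = √(a b) exp (i T (log a - log b))`, `a = Im z / normSq (v.im z + v.re)`, `b` the same for
`w`.  For `A = (a b; c d)` the row vector `(v.im, v.re) A` defines `L`, `det L = dt A`, and
`PP θ (mb A z) = dt A * Im z / normSq ((L v).im z + (L v).re)`.
`hh_lower`: `hh = ∫ u, be I u * ∫ w, be w u * Ph T I w * Ph t w I / 2π`.  The function
`F z u = be z u * ∫ w, be w u * Ph T z w * Ph t w z` is invariant (`be_mb`, `Ph_mb`, `int_mb`), so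
`F I u = F u I` by `exists_swap`; expanding both `Ph` and Fubini,
`hh = (1 / 2π) ∫ θ ∫ θ', ‖∫ z, be z I √(PP θ z) √(PP θ' z) ph T θ z conj (ph t θ' z)‖²`.
For `|θ - θ'| ≤ 1 / (10 T)` the phase is at most `0.3 + 0.02` (`abs_bb_sub`, `abs_bb_le`), so the
real part of the inner integral is at least `(1/2) ∫ be`. -/

/-- the radial weight -/
noncomputable def phi_g (s : ℝ) : ℝ := (Ioo (1 : ℝ) 2).indicator (fun s => s⁻¹) s

theorem phi_g_int : ∫ s in Ioi (0 : ℝ), phi_g s = Real.log 2 := by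
  have h : Ioi (0 : ℝ) ∩ Ioo 1 2 = Ioo 1 2 :=
    inter_eq_right.2 fun x hx => lt_trans zero_lt_one hx.1
  unfold phi_g
  rw [setIntegral_indicator measurableSet_Ioo, h, ← integral_Ioc_eq_integral_Ioo,
    ← intervalIntegral.integral_of_le (by norm_num), integral_inv_of_pos (by norm_num) (by norm_num)]
  norm_num

theorem phi_g_meas : Measurable phi_g := measurable_inv.indicator measurableSet_Ioo

theorem phi_g_bd (s : ℝ) : |phi_g s| ≤ 1 := by
  unfold phi_g
  by_cases h : s ∈ Ioo (1 : ℝ) 2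
  · rw [indicator_of_mem h, abs_of_pos (inv_pos.2 (lt_trans zero_lt_one h.1))]
    exact inv_le_one_of_one_le₀ h.1.le
  · rw [indicator_of_notMem h]; simp

theorem phi_exp_ne (θ : ℝ) : Complex.exp (θ * I) ∈ ({0}ᶜ : Set ℂ) := Complex.exp_ne_zero _

/-- the integral over a shell of a gauge -/
theorem phi_shell {H : ℂ → ℂ} (hc : ContinuousOn H {0}ᶜ)
    (hh : ∀ r : ℝ, 0 < r → ∀ v : ℂ, H (r • v) = ((r ^ 2)⁻¹ : ℝ) • H v) {N : ℂ → ℝ}
    (hN : Continuous N) (h1 : ∀ r : ℝ, 0 < r → ∀ v, N (r • v) = r * N v)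
    (h2 : ∀ v, v ≠ 0 → 0 < N v) :
    ∫ v, (N v * phi_g (N v)) • H v =
      Real.log 2 • ∫ θ in Ioc (0 : ℝ) (2 * Real.pi), H (Complex.exp (θ * I)) := by
  have ce : Continuous fun θ : ℝ => Complex.exp (θ * I) := by fun_prop
  have cH : Continuous fun θ : ℝ => H (Complex.exp (θ * I)) := hc.comp_continuous ce phi_exp_ne
  have cN : Continuous fun θ : ℝ => N (Complex.exp (θ * I)) := hN.comp ce
  have pN : ∀ θ : ℝ, 0 < N (Complex.exp (θ * I)) := fun θ => h2 _ (phi_exp_ne θ)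
  obtain ⟨a, -, ha⟩ := (isCompact_Icc (a := -Real.pi) (b := Real.pi)).exists_isMinOn
    ⟨0, by constructor <;> linarith [Real.pi_pos]⟩ cN.continuousOn
  rw [← Complex.integral_comp_polarCoord_symm]
  have e0 : polarCoord.target = Ioi (0 : ℝ) ×ˢ Ioo (-Real.pi) Real.pi := rfl
  have e2 : ∀ p ∈ Ioi (0 : ℝ) ×ˢ Ioo (-Real.pi) Real.pi,
      p.1 • ((N (Complex.polarCoord.symm p) * phi_g (N (Complex.polarCoord.symm p))) •
        H (Complex.polarCoord.symm p)) =
      phi_g (p.1 * N (Complex.exp (p.2 * I))) •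
        (N (Complex.exp (p.2 * I)) • H (Complex.exp (p.2 * I))) := by
    intro p hp
    have hp1 : 0 < p.1 := hp.1
    have e : Complex.polarCoord.symm p = p.1 • Complex.exp (p.2 * I) := by
      rw [Complex.polarCoord_symm_apply, exp_mul_I, real_smul, ofReal_cos, ofReal_sin]
    rw [e, hh _ hp1, h1 _ hp1, smul_smul, smul_smul, smul_smul]
    congr 1
    field_simp
  rw [e0, setIntegral_congr_fun (measurableSet_Ioi.prod measurableSet_Ioo) e2, Measure.volume_eq_prod,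
    ← Measure.prod_restrict]
  have i1 : Integrable ((Icc (0 : ℝ) (2 / N (Complex.exp (a * I)))).indicator fun _ => (1 : ℝ))
      (volume.restrict (Ioi (0 : ℝ))) :=
    ((integrableOn_const (by simp)).integrable_indicator measurableSet_Icc).restrict
  have c2 : Continuous fun θ : ℝ => N (Complex.exp (θ * I)) • H (Complex.exp (θ * I)) :=
    cN.smul cH
  have i2 : Integrable (fun θ : ℝ => ‖N (Complex.exp (θ * I)) • H (Complex.exp (θ * I))‖)
      (volume.restrict (Ioo (-Real.pi) Real.pi)) :=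
    (c2.norm.integrableOn_Icc).mono_set Ioo_subset_Icc_self
  have m1 : Measurable fun p : ℝ × ℝ => phi_g (p.1 * N (Complex.exp (p.2 * I))) := by
    have := phi_g_meas.comp (measurable_fst.mul (cN.measurable.comp (measurable_snd (α := ℝ))))
    simpa only [Function.comp_def, Pi.mul_def] using this
  have m2 : Measurable fun p : ℝ × ℝ =>
      N (Complex.exp (p.2 * I)) • H (Complex.exp (p.2 * I)) := by
    have := (c2.comp (continuous_snd (X := ℝ))).measurable
    simpa only [Function.comp_def] using this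
  have i3 : Integrable (fun p : ℝ × ℝ => phi_g (p.1 * N (Complex.exp (p.2 * I))) •
      (N (Complex.exp (p.2 * I)) • H (Complex.exp (p.2 * I))))
      ((volume.restrict (Ioi (0 : ℝ))).prod (volume.restrict (Ioo (-Real.pi) Real.pi))) := by
    refine (i1.mul_prod i2).mono' (m1.smul m2).aestronglyMeasurable ?_
    have a1 : ∀ᵐ p ∂((volume.restrict (Ioi (0 : ℝ))).prod
        (volume.restrict (Ioo (-Real.pi) Real.pi))), p.1 ∈ Ioi (0 : ℝ) :=
      Measure.quasiMeasurePreserving_fst.ae (ae_restrict_mem measurableSet_Ioi)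
    have a2 : ∀ᵐ p ∂((volume.restrict (Ioi (0 : ℝ))).prod
        (volume.restrict (Ioo (-Real.pi) Real.pi))), p.2 ∈ Ioo (-Real.pi) Real.pi :=
      Measure.quasiMeasurePreserving_snd.ae (ae_restrict_mem measurableSet_Ioo)
    filter_upwards [a1, a2] with p hp1 hp2
    rw [norm_smul, Real.norm_eq_abs]
    refine mul_le_mul_of_nonneg_right ?_ (norm_nonneg _)
    by_cases hk : p.1 ∈ Icc (0 : ℝ) (2 / N (Complex.exp (a * I)))
    · rw [indicator_of_mem hk]; exact phi_g_bd _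
    · rw [indicator_of_notMem hk, phi_g, indicator_of_notMem, abs_zero]
      intro hx
      refine hk ⟨le_of_lt hp1, ?_⟩
      rw [le_div_iff₀ (pN a)]
      have b1 : N (Complex.exp (a * I)) ≤ N (Complex.exp (p.2 * I)) := ha (Ioo_subset_Icc_self hp2)
      have b2 := mul_le_mul_of_nonneg_left b1 (le_of_lt hp1)
      linarith [hx.2]
  rw [integral_prod_symm _ i3]
  have e3 : ∀ θ : ℝ, ∫ r in Ioi (0 : ℝ), phi_g (r * N (Complex.exp (θ * I))) •
      (N (Complex.exp (θ * I)) • H (Complex.exp (θ * I))) =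
      Real.log 2 • H (Complex.exp (θ * I)) := by
    intro θ
    rw [integral_smul_const, integral_comp_mul_right_Ioi phi_g 0 (pN θ), zero_mul, phi_g_int,
      smul_smul, smul_eq_mul]
    congr 1
    have := (pN θ).ne'
    field_simp
  simp only [e3]
  rw [integral_smul]
  congr 1
  have hp : Function.Periodic (fun θ : ℝ => H (Complex.exp (θ * I))) (2 * Real.pi) := by
    intro θ
    have : Complex.exp (((θ + 2 * Real.pi : ℝ) : ℂ) * I) = Complex.exp (θ * I) := by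
      push_cast
      rw [add_mul, Complex.exp_add, exp_two_pi_mul_I, mul_one]
    simp only [this]
  have := hp.intervalIntegral_add_eq (-Real.pi) 0
  rw [zero_add, intervalIntegral.integral_of_le (by linarith [Real.pi_pos]),
    intervalIntegral.integral_of_le (by linarith [Real.pi_pos]), integral_Ioc_eq_integral_Ioo,
    show -Real.pi + 2 * Real.pi = Real.pi by ring] at this
  exact this

theorem homog {H : ℂ → ℂ} (hc : ContinuousOn H {0}ᶜ)
    (hh : ∀ r : ℝ, 0 < r → ∀ v : ℂ, H (r • v) = ((r ^ 2)⁻¹ : ℝ) • H v) (L : ℂ →ₗ[ℝ] ℂ)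
    (hL : 0 < LinearMap.det L) :
    (LinearMap.det L) • ∫ θ in Ioc (0 : ℝ) (2 * Real.pi), H (L (Complex.exp (θ * I))) =
      ∫ θ in Ioc (0 : ℝ) (2 * Real.pi), H (Complex.exp (θ * I)) := by
  have cL : Continuous L := L.continuous_of_finiteDimensional
  have hinj : Function.Injective L := (L.equivOfDetNeZero hL.ne').injective
  have hne : ∀ v, v ≠ 0 → L v ≠ 0 := fun v hv h => hv (hinj (by rw [h, map_zero]))
  have k1 := phi_shell hc hh (N := fun v => ‖v‖) continuous_norm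
    (fun r hr v => by rw [norm_smul, Real.norm_eq_abs, abs_of_pos hr]) fun v hv => norm_pos_iff.2 hv
  have k2 := phi_shell (H := fun v => H (L v)) (hc.comp cL.continuousOn fun v hv => hne v hv)
    (fun r hr v => by simp only [map_smul, hh r hr]) (N := fun v => ‖L v‖) cL.norm
    (fun r hr v => by rw [map_smul, norm_smul, Real.norm_eq_abs, abs_of_pos hr])
    fun v hv => norm_pos_iff.2 (hne v hv)
  have hemb : MeasurableEmbedding L :=
    (L.equivOfDetNeZero hL.ne').toContinuousLinearEquiv.toHomeomorph.measurableEmbedding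
  have k3 := hemb.integral_map (μ := volume) fun v : ℂ => (‖v‖ * phi_g ‖v‖) • H v
  rw [Measure.map_linearMap_addHaar_eq_smul_addHaar _ hL.ne', integral_smul_measure,
    ENNReal.toReal_ofReal (abs_nonneg _), abs_of_pos (inv_pos.2 hL), k1, k2] at k3
  have hl : Real.log 2 ≠ 0 := (Real.log_pos (by norm_num)).ne'
  rw [smul_comm] at k3
  rw [← smul_right_injective ℂ hl k3, smul_smul, mul_inv_cancel₀ hL.ne', one_smul]

/-- the integrand as a function of the two Poisson kernels -/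
noncomputable def phi_K (T a b : ℝ) : ℂ :=
  ((√a * √b : ℝ) : ℂ) * Complex.exp (((T * Real.log a : ℝ) : ℂ) * I) *
    conj (Complex.exp (((T * Real.log b : ℝ) : ℂ) * I))

theorem phi_K_smul (T : ℝ) {s a b : ℝ} (hs : 0 < s) (ha : 0 < a) (hb : 0 < b) :
    phi_K T (s * a) (s * b) = s • phi_K T a b := by
  have h1 : √(s * a) * √(s * b) = s * (√a * √b) := by
    rw [Real.sqrt_mul hs.le, Real.sqrt_mul hs.le]
    linear_combination (√a * √b) * Real.mul_self_sqrt hs.le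
  have h2 : ∀ c : ℝ, 0 < c → Complex.exp (((T * Real.log (s * c) : ℝ) : ℂ) * I) =
      Complex.exp (((T * Real.log s : ℝ) : ℂ) * I) *
        Complex.exp (((T * Real.log c : ℝ) : ℂ) * I) := by
    intro c hc
    rw [Real.log_mul hs.ne' hc.ne', ← Complex.exp_add]
    congr 1
    push_cast
    ring
  have h3 : Complex.exp (((T * Real.log s : ℝ) : ℂ) * I) *
      conj (Complex.exp (((T * Real.log s : ℝ) : ℂ) * I)) = 1 := by
    rw [mul_conj, normSq_eq_norm_sq, norm_exp_ofReal_mul_I]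
    simp
  rw [phi_K, phi_K, h1, h2 a ha, h2 b hb, map_mul, real_smul, ofReal_mul]
  linear_combination ((s : ℂ) * ((√a * √b : ℝ) : ℂ) *
    Complex.exp (((T * Real.log a : ℝ) : ℂ) * I) *
    conj (Complex.exp (((T * Real.log b : ℝ) : ℂ) * I))) * h3

/-- the Poisson kernel as a function of a vector -/
noncomputable def phi_a (z v : ℂ) : ℝ := z.im / normSq ((v.im : ℂ) * z + (v.re : ℂ))

theorem phi_ne {z v : ℂ} (hz : z ∈ Up) (hv : v ≠ 0) : (v.im : ℂ) * z + (v.re : ℂ) ≠ 0 := by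
  intro h
  have hz0 : 0 < z.im := hz
  have h1 := congrArg Complex.im h
  have h2 := congrArg Complex.re h
  simp only [add_im, mul_im, ofReal_re, ofReal_im, zero_mul, add_zero, zero_im, add_re, mul_re,
    sub_zero, zero_re] at h1 h2
  have h3 : v.im = 0 := (mul_eq_zero.1 h1).resolve_right hz0.ne'
  rw [h3, zero_mul, zero_add] at h2
  exact hv (Complex.ext h2 h3)

theorem phi_a_pos {z v : ℂ} (hz : z ∈ Up) (hv : v ≠ 0) : 0 < phi_a z v :=
  div_pos hz (normSq_pos.2 (phi_ne hz hv))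

theorem phi_a_smul (z v : ℂ) (r : ℝ) : phi_a z (r • v) = (r ^ 2)⁻¹ * phi_a z v := by
  have h : (((r • v).im : ℝ) : ℂ) * z + (((r • v).re : ℝ) : ℂ) =
      (r : ℂ) * ((v.im : ℂ) * z + (v.re : ℂ)) := by
    rw [smul_im, smul_re, smul_eq_mul, smul_eq_mul]
    push_cast
    ring
  rw [phi_a, phi_a, h, map_mul, normSq_ofReal, div_eq_mul_inv, div_eq_mul_inv, mul_inv, sq, mul_inv]
  ring

theorem phi_a_cont {z : ℂ} (hz : z ∈ Up) : ContinuousOn (phi_a z) {0}ᶜ := by
  have h : Continuous fun v : ℂ => normSq ((v.im : ℂ) * z + (v.re : ℂ)) :=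
    continuous_normSq.comp (by fun_prop)
  exact continuousOn_const.div h.continuousOn fun v hv => (normSq_pos.2 (phi_ne hz hv)).ne'

theorem phi_a_exp (z : ℂ) (θ : ℝ) : phi_a z (Complex.exp (θ * I)) = PP θ z := by
  rw [phi_a, exp_ofReal_mul_I_re, exp_ofReal_mul_I_im, PP, jj, mul_comm]

/-- the linear map attached to a matrix -/
noncomputable def phi_L (A : E) : ℂ →ₗ[ℝ] ℂ where
  toFun v := v.im • A.1 + v.re • A.2
  map_add' u v := by simp only [add_im, add_re, add_smul]; abel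
  map_smul' r v := by simp only [smul_im, smul_re, smul_eq_mul, RingHom.id_apply, smul_add, smul_smul]

theorem phi_L_apply (A : E) (v : ℂ) : phi_L A v = v.im • A.1 + v.re • A.2 := rfl

theorem phi_L_det (A : E) : LinearMap.det (phi_L A) = dt A := by
  rw [← LinearMap.det_toMatrix basisOneI, Matrix.det_fin_two]
  simp [LinearMap.toMatrix_apply, phi_L_apply, dt]
  ring

theorem phi_PP_mb {A : E} (hA : A ∈ Gp) {z : ℂ} (hz : z ∈ Up) (θ : ℝ) :
    PP θ (mb A z) = dt A * phi_a z (phi_L A (Complex.exp (θ * I))) := by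
  have hd := den_ne hA hz
  have h1 : jj θ (mb A z) = ((((phi_L A (Complex.exp (θ * I))).im : ℝ) : ℂ) * z +
      (((phi_L A (Complex.exp (θ * I))).re : ℝ) : ℂ)) / ((A.2.im : ℂ) * z + (A.2.re : ℂ)) := by
    rw [jj, mb_eq, phi_L_apply, exp_ofReal_mul_I_re, exp_ofReal_mul_I_im, add_im, add_re, smul_im,
      smul_im, smul_re, smul_re]
    simp only [smul_eq_mul, ofReal_add, ofReal_mul]
    rw [eq_div_iff hd, add_mul, mul_right_comm, div_mul_cancel₀ _ hd]
    ring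
  have h2 : normSq ((A.2.im : ℂ) * z + (A.2.re : ℂ)) ≠ 0 := (normSq_pos.2 hd).ne'
  rw [PP, im_mb, h1, map_div₀, phi_a, div_div_div_cancel_right₀ h2, mul_div_assoc]

theorem Ph_mb (T : ℝ) {A : E} (hA : A ∈ Gp) {z w : ℂ} (hz : z ∈ Up) (hw : w ∈ Up) :
    Ph T (mb A z) (mb A w) = Ph T z w := by
  have hA0 : 0 < dt A := hA
  have hL : 0 < LinearMap.det (phi_L A) := by rw [phi_L_det]; exact hA0
  have hinj : Function.Injective (phi_L A) := ((phi_L A).equivOfDetNeZero hL.ne').injective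
  have hne : ∀ v, v ≠ 0 → phi_L A v ≠ 0 := fun v hv h => hv (hinj (by rw [h, map_zero]))
  have e0 : ∀ z w : ℂ, Ph T z w =
      ∫ θ in Ioc (0 : ℝ) (2 * Real.pi), phi_K T (PP θ z) (PP θ w) := fun z w => rfl
  have c0 : ∀ z ∈ Up, ContinuousOn
      (fun v => Complex.exp (((T * Real.log (phi_a z v) : ℝ) : ℂ) * I)) {0}ᶜ := fun z hz =>
    continuous_exp.comp_continuousOn ((continuous_ofReal.comp_continuousOn (continuousOn_const.mul
      ((phi_a_cont hz).log fun v hv => (phi_a_pos hz hv).ne'))).mul continuousOn_const)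
  have hc : ContinuousOn (fun v => phi_K T (phi_a z v) (phi_a w v)) {0}ᶜ :=
    ((continuous_ofReal.comp_continuousOn ((phi_a_cont hz).sqrt.mul (phi_a_cont hw).sqrt)).mul
      (c0 z hz)).mul (continuous_conj.comp_continuousOn (c0 w hw))
  have k := homog hc (fun r hr v => by
    by_cases hv : v = 0
    · simp [hv, phi_K, phi_a]
    · simp only [phi_a_smul]
      exact phi_K_smul T (by positivity) (phi_a_pos hz hv) (phi_a_pos hw hv)) (phi_L A) hL
  simp only [phi_a_exp] at k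
  rw [e0, e0, ← k, phi_L_det, ← integral_smul]
  refine integral_congr_ae (Eventually.of_forall fun θ => ?_)
  simp only [phi_PP_mb hA hz, phi_PP_mb hA hw]
  exact phi_K_smul T hA0 (phi_a_pos hz (hne _ (phi_exp_ne θ))) (phi_a_pos hw (hne _ (phi_exp_ne θ)))

theorem continuousOn_Ph (T : ℝ) :
    ContinuousOn (fun p : ℂ × ℂ => Ph T p.1 p.2) (Up ×ˢ Up) := by
  have h : (0 : ℝ) ≤ 2 * Real.pi := by positivity
  have h1 := (contDiffOn_sqrt_PP (n := 0)).continuousOn
  have h2 : ContinuousOn (fun p : ℝ × ℂ => ph T p.1 p.2) (univ ×ˢ Up) :=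
    continuous_exp.comp_continuousOn ((continuous_ofReal.comp_continuousOn (continuousOn_const.mul
      (contDiffOn_bb (n := 0)).continuousOn)).mul continuousOn_const)
  have g1 : Continuous fun p : (Up ×ˢ Up : Set (ℂ × ℂ)) × ℝ => ((p.2, p.1.1.1) : ℝ × ℂ) := by
    fun_prop
  have g2 : Continuous fun p : (Up ×ˢ Up : Set (ℂ × ℂ)) × ℝ => ((p.2, p.1.1.2) : ℝ × ℂ) := by
    fun_prop
  have a1 := h1.comp_continuous g1 fun p => ⟨mem_univ _, p.1.2.1⟩
  have a2 := h1.comp_continuous g2 fun p => ⟨mem_univ _, p.1.2.2⟩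
  have a3 := h2.comp_continuous g1 fun p => ⟨mem_univ _, p.1.2.1⟩
  have a4 := h2.comp_continuous g2 fun p => ⟨mem_univ _, p.1.2.2⟩
  have h3 : Continuous (Function.uncurry fun (w : (Up ×ˢ Up : Set (ℂ × ℂ))) (θ : ℝ) =>
      ((√(PP θ w.1.1) * √(PP θ w.1.2) : ℝ) : ℂ) * ph T θ w.1.1 * conj (ph T θ w.1.2)) := by
    have := ((continuous_ofReal.comp (a1.mul a2)).mul a3).mul (continuous_conj.comp a4)
    simpa only [Function.comp_def, Function.uncurry_def, Pi.mul_def] using this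
  have h4 := intervalIntegral.continuous_parametric_intervalIntegral_of_continuous'
    (μ := volume) h3 0 (2 * Real.pi)
  rw [continuousOn_iff_continuous_domRestrict]
  simp only [intervalIntegral.integral_of_le h] at h4
  exact h4

theorem measurable_Ph (T : ℝ) : Measurable fun p : ℂ × ℂ => Ph T p.1 p.2 := by
  have g1 : Measurable fun p : (ℂ × ℂ) × ℝ => ((p.2, p.1.1) : ℝ × ℂ) := by fun_prop
  have g2 : Measurable fun p : (ℂ × ℂ) × ℝ => ((p.2, p.1.2) : ℝ × ℂ) := by fun_prop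
  have a1 := (measurable_PP.comp g1).sqrt
  have a2 := (measurable_PP.comp g2).sqrt
  have a3 := (measurable_ph T).comp g1
  have a4 := (measurable_ph T).comp g2
  have h3 : Measurable fun p : (ℂ × ℂ) × ℝ =>
      ((√(PP p.2 p.1.1) * √(PP p.2 p.1.2) : ℝ) : ℂ) * ph T p.2 p.1.1 * conj (ph T p.2 p.1.2) := by
    have := ((measurable_ofReal.comp (a1.mul a2)).mul a3).mul (continuous_conj.measurable.comp a4)
    simpa only [Function.comp_def, Pi.mul_def] using this
  exact (h3.stronglyMeasurable.integral_prod_right'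
    (ν := volume.restrict (Ioc (0 : ℝ) (2 * Real.pi)))).measurable

/-- for `u = a + b i` take the matrix with rows `(a, -a² - b (1 + b))`, `(1 + b, -a)` -/
theorem exists_swap {u : ℂ} (hu : u ∈ Up) : ∃ A ∈ Gp, mb A I = u ∧ mb A u = I := by
  have hb : 0 < u.im := hu
  have hA : ((⟨-u.re ^ 2 - u.im * (1 + u.im), u.re⟩, ⟨-u.re, 1 + u.im⟩) : E) ∈ Gp := by
    show 0 < dt _
    have : dt ((⟨-u.re ^ 2 - u.im * (1 + u.im), u.re⟩, ⟨-u.re, 1 + u.im⟩) : E) =
        u.im * (u.re ^ 2 + (1 + u.im) ^ 2) := by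
      simp only [dt]; ring
    rw [this]
    positivity
  refine ⟨_, hA, ?_, ?_⟩
  · rw [mb_eq, div_eq_iff (den_ne hA mvp_I_mem)]
    apply Complex.ext <;>
      simp only [add_re, add_im, mul_re, mul_im, ofReal_re, ofReal_im, I_re, I_im] <;> ring
  · rw [mb_eq, div_eq_iff (den_ne hA hu)]
    apply Complex.ext <;>
      simp only [add_re, add_im, mul_re, mul_im, ofReal_re, ofReal_im, I_re, I_im] <;> ring

theorem hh_int {X : Type} [MeasurableSpace X] {μ : Measure X} {f : X → ℂ} (hf : Measurable f)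
    {S : Set X} (hS : MeasurableSet S) (hμ : μ S ≠ ⊤) {M : ℝ} (hb : ∀ x ∈ S, ‖f x‖ ≤ M)
    (h0 : ∀ x, x ∉ S → f x = 0) : Integrable f μ :=
  (Measure.integrableOn_of_bounded hμ hf.aestronglyMeasurable
    ((ae_restrict_mem hS).mono hb)).integrable_of_forall_notMem_eq_zero h0

theorem hh_I : (I : ℂ) ∈ Up := by simp [Up]

theorem hh_supp {u : ℂ} (h : be u I ≠ 0) : ‖u - I‖ ≤ 1 / 200 := by
  simpa using (be_supp h).2.2

theorem hh_B0 : IsCompact B0 := isCompact_closedBall _ _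

theorem hh_mem {u : ℂ} : u ∈ B0 ↔ ‖u - I‖ ≤ 1 / 20 := by
  simp only [B0, Metric.mem_closedBall, dist_eq_norm]

theorem hh_fin : (muH.prod muH) (B0 ×ˢ B0) ≠ ⊤ := by
  rw [Measure.prod_prod]
  exact ENNReal.mul_ne_top (muH_compact hh_B0 B0_sub).ne (muH_compact hh_B0 B0_sub).ne

/-- the angular measure -/
noncomputable def hh_nu : Measure ℝ := volume.restrict (Ioc (0 : ℝ) (2 * Real.pi))

instance : IsFiniteMeasure hh_nu := by unfold hh_nu; infer_instance

/-- the integrand of the inner integral -/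
noncomputable def hh_a (T t : ℝ) (p : ℝ × ℝ) (z : ℂ) : ℂ :=
  ((be z I * (√(PP p.1 z) * √(PP p.2 z)) : ℝ) : ℂ) * (ph T p.1 z * conj (ph t p.2 z))

theorem hh_a_meas (T t : ℝ) : Measurable fun q : (ℝ × ℝ) × ℂ => hh_a T t q.1 q.2 := by
  have h1 : Measurable fun q : (ℝ × ℝ) × ℂ => be q.2 I :=
    measurable_be.comp (measurable_snd.prodMk measurable_const)
  have m1 : Measurable fun q : (ℝ × ℝ) × ℂ => (q.1.1, q.2) :=
    (measurable_fst.comp measurable_fst).prodMk measurable_snd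
  have m2 : Measurable fun q : (ℝ × ℝ) × ℂ => (q.1.2, q.2) :=
    (measurable_snd.comp measurable_fst).prodMk measurable_snd
  have h2 : Measurable fun q : (ℝ × ℝ) × ℂ => PP q.1.1 q.2 := measurable_PP.comp m1
  have h3 : Measurable fun q : (ℝ × ℝ) × ℂ => PP q.1.2 q.2 := measurable_PP.comp m2
  have h4 : Measurable fun q : (ℝ × ℝ) × ℂ => ph T q.1.1 q.2 := ((measurable_ph T).comp m1 :)
  have h5 : Measurable fun q : (ℝ × ℝ) × ℂ => ph t q.1.2 q.2 := ((measurable_ph t).comp m2 :)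
  exact (measurable_ofReal.comp (h1.mul (h2.sqrt.mul h3.sqrt))).mul
    (h4.mul (continuous_conj.measurable.comp h5))

theorem hh_a_zero (T t : ℝ) (p : ℝ × ℝ) {z : ℂ} (hz : z ∉ B0) : hh_a T t p z = 0 := by
  have : be z I = 0 := by
    by_contra h
    exact hz (hh_mem.2 ((hh_supp h).trans (by norm_num)))
  simp [hh_a, this]

theorem hh_sq {z : ℂ} (hz : ‖z - I‖ ≤ 1 / 10) (a b : ℝ) :
    7 / 10 ≤ √(PP a z) * √(PP b z) ∧ √(PP a z) * √(PP b z) ≤ 14 / 10 := by
  obtain ⟨h1, h2⟩ := PP_bd a hz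
  obtain ⟨h3, h4⟩ := PP_bd b hz
  rw [← Real.sqrt_mul (by linarith)]
  constructor
  · apply Real.le_sqrt_of_sq_le; nlinarith
  · apply Real.sqrt_le_iff.2 ⟨by norm_num, by nlinarith⟩

theorem hh_a_bd (T t : ℝ) (p : ℝ × ℝ) (z : ℂ) : ‖hh_a T t p z‖ ≤ 2 := by
  by_cases hz : z ∈ B0
  · have h := hh_sq ((hh_mem.1 hz).trans (by norm_num)) p.1 p.2
    have h1 := be_nonneg z I
    have h2 := be_le_one z I
    rw [hh_a, norm_mul, norm_mul, RCLike.norm_conj, norm_ph, norm_ph, Complex.norm_real,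
      Real.norm_eq_abs, abs_of_nonneg (mul_nonneg h1 (by linarith [h.1]))]
    nlinarith [h.1, h.2]
  · rw [hh_a_zero T t p hz]; simp

theorem hh_a_int (T t : ℝ) (p : ℝ × ℝ) : Integrable (hh_a T t p) muH :=
  hh_int ((hh_a_meas T t).comp ((measurable_const (a := p)).prodMk measurable_id) :) hh_B0.measurableSet
    (muH_compact hh_B0 B0_sub).ne (fun z _ => hh_a_bd T t p z) fun _ hz => hh_a_zero T t p hz

theorem hh_a_re {T t : ℝ} (hT : 1 ≤ T) (ht : |t - T| ≤ 1) {p : ℝ × ℝ}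
    (hp : |p.1 - p.2| ≤ 1 / (10 * T)) (z : ℂ) : be I z / 2 ≤ (hh_a T t p z).re := by
  rw [be_symm]
  by_cases h : be z I = 0
  · simp [hh_a, h]
  have hz := hh_supp h
  have hz' : ‖z - I‖ ≤ 1 / 10 := hz.trans (by norm_num)
  have e : ph T p.1 z * conj (ph t p.2 z) =
      Complex.exp (((T * bb p.1 z - t * bb p.2 z : ℝ) : ℂ) * I) := by
    rw [ph, ph, ← Complex.exp_conj, ← Complex.exp_add]
    congr 1
    simp only [map_mul, conj_ofReal, conj_I]
    push_cast; ring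
  rw [hh_a, e, re_ofReal_mul, exp_ofReal_mul_I_re]
  have b1 : |T * bb p.1 z - t * bb p.2 z| ≤ 1 / 2 := by
    have e1 : T * bb p.1 z - t * bb p.2 z =
        T * (bb p.1 z - bb p.2 z) - (t - T) * bb p.2 z := by ring
    have c1 : |T * (bb p.1 z - bb p.2 z)| ≤ 3 / 10 := by
      rw [abs_mul, abs_of_pos (by linarith)]
      calc T * |bb p.1 z - bb p.2 z| ≤ T * (3 * (1 / (10 * T))) := by
            gcongr
            exact (abs_bb_sub _ _ hz').trans (by gcongr)
        _ = 3 / 10 := by field_simp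
    have c2 : |(t - T) * bb p.2 z| ≤ 1 / 50 := by
      rw [abs_mul]
      calc |t - T| * |bb p.2 z| ≤ 1 * (4 * (1 / 200)) := by
            gcongr
            exact (abs_bb_le _ hz').trans (by gcongr)
        _ = 1 / 50 := by norm_num
    rw [e1]
    exact (abs_sub _ _).trans (by linarith)
  have b2 : 7 / 8 ≤ Real.cos (T * bb p.1 z - t * bb p.2 z) := by
    have := Real.one_sub_sq_div_two_le_cos (x := T * bb p.1 z - t * bb p.2 z)
    have h3 := sq_abs (T * bb p.1 z - t * bb p.2 z)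
    nlinarith [abs_nonneg (T * bb p.1 z - t * bb p.2 z)]
  have b3 := (hh_sq hz' p.1 p.2).1
  have b4 := be_nonneg z I
  calc be z I / 2 ≤ be z I * (7 / 10) * (7 / 8) := by linarith
    _ ≤ _ := by gcongr

/-- the inner integral -/
noncomputable def hh_G (T t : ℝ) (p : ℝ × ℝ) : ℂ := ∫ z, hh_a T t p z ∂muH

theorem hh_G_ge {T t : ℝ} (hT : 1 ≤ T) (ht : |t - T| ≤ 1) {p : ℝ × ℝ}
    (hp : |p.1 - p.2| ≤ 1 / (10 * T)) : (∫ u, be I u ∂muH) / 2 ≤ ‖hh_G T t p‖ := by
  refine le_trans ?_ (Complex.re_le_norm _)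
  rw [hh_G, ← RCLike.re_to_complex, ← integral_re (hh_a_int T t p), ← integral_div]
  exact integral_mono ((integrable_be I).div_const 2) (hh_a_int T t p).re
    fun z => hh_a_re hT ht hp z

theorem hh_expand (T t : ℝ) (u w : ℂ) :
    (be u I : ℂ) * ((be w I : ℂ) * (Ph T u w * Ph t w u)) =
      ∫ p, hh_a T t p u * conj (hh_a T t p w) ∂(hh_nu.prod hh_nu) := by
  rw [Ph, Ph, ← integral_prod_mul, ← integral_const_mul, ← integral_const_mul]
  refine integral_congr_ae (ae_of_all _ fun p => ?_)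
  simp only [hh_a, map_mul, conj_ofReal, Complex.conj_conj]
  push_cast; ring

theorem hh_fub (T t : ℝ) :
    ∫ u, (be u I : ℂ) * ∫ w, (be w I : ℂ) * (Ph T u w * Ph t w u) ∂muH ∂muH =
      ((∫ p, ‖hh_G T t p‖ ^ 2 ∂(hh_nu.prod hh_nu) : ℝ) : ℂ) := by
  have hi : Integrable (fun q : (ℂ × ℂ) × (ℝ × ℝ) =>
      hh_a T t q.2 q.1.1 * conj (hh_a T t q.2 q.1.2)) ((muH.prod muH).prod (hh_nu.prod hh_nu)) := by
    refine hh_int (S := (B0 ×ˢ B0) ×ˢ univ) (M := 2 * 2) ?_
      ((hh_B0.measurableSet.prod hh_B0.measurableSet).prod MeasurableSet.univ) ?_ ?_ ?_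
    · have a1 : Measurable fun q : (ℂ × ℂ) × (ℝ × ℝ) => (q.2, q.1.1) := by fun_prop
      have a2 : Measurable fun q : (ℂ × ℂ) × (ℝ × ℝ) => (q.2, q.1.2) := by fun_prop
      exact (((hh_a_meas T t).comp a1).mul
        (continuous_conj.measurable.comp ((hh_a_meas T t).comp a2)) :)
    · rw [Measure.prod_prod]
      exact ENNReal.mul_ne_top hh_fin (measure_ne_top _ _)
    · intro q _
      rw [norm_mul, RCLike.norm_conj]
      exact mul_le_mul (hh_a_bd _ _ _ _) (hh_a_bd _ _ _ _) (norm_nonneg _) (by norm_num)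
    · intro q hq
      by_cases h1 : q.1.1 ∈ B0
      · have h2 : q.1.2 ∉ B0 := fun h2 => hq ⟨⟨h1, h2⟩, mem_univ _⟩
        rw [hh_a_zero T t _ h2]; simp
      · rw [hh_a_zero T t _ h1]; simp
  calc _ = ∫ u, ∫ w, ∫ p, hh_a T t p u * conj (hh_a T t p w) ∂(hh_nu.prod hh_nu) ∂muH ∂muH := by
        refine integral_congr_ae (ae_of_all _ fun u => ?_)
        simp only
        rw [← integral_const_mul]
        exact integral_congr_ae (ae_of_all _ fun w => hh_expand T t u w)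
    _ = ∫ q : ℂ × ℂ, ∫ p, hh_a T t p q.1 * conj (hh_a T t p q.2) ∂(hh_nu.prod hh_nu)
          ∂(muH.prod muH) := (integral_prod _ hi.integral_prod_left).symm
    _ = ∫ p, ∫ q : ℂ × ℂ, hh_a T t p q.1 * conj (hh_a T t p q.2) ∂(muH.prod muH)
          ∂(hh_nu.prod hh_nu) := integral_integral_swap hi
    _ = ∫ p, ((‖hh_G T t p‖ ^ 2 : ℝ) : ℂ) ∂(hh_nu.prod hh_nu) := by
        refine integral_congr_ae (ae_of_all _ fun p => ?_)
        simp only
        rw [integral_prod_mul (hh_a T t p) fun w => conj (hh_a T t p w), integral_conj,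
          ← hh_G, Complex.mul_conj, Complex.normSq_eq_norm_sq]
    _ = _ := integral_complex_ofReal

theorem hh_swap (T t : ℝ) {u : ℂ} (hu : u ∈ Up) :
    ∫ w, (be w u : ℂ) * (Ph T I w * Ph t w I) ∂muH =
      ∫ w, (be w I : ℂ) * (Ph T u w * Ph t w u) ∂muH := by
  obtain ⟨A, hA, h1, h2⟩ := exists_swap hu
  rw [← int_mb hA fun w => (be w I : ℂ) * (Ph T u w * Ph t w u)]
  refine integral_congr_ae (ae_Up.mono fun w hw => ?_)
  have e1 := be_mb hA hw hu
  have e2 := Ph_mb T hA hh_I hw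
  have e3 := Ph_mb t hA hw hh_I
  rw [h2] at e1
  rw [h1] at e2 e3
  simp only [e1, e2, e3]

theorem hh_eq (T t : ℝ) :
    hh T t * (2 * Real.pi : ℝ) = ((∫ p, ‖hh_G T t p‖ ^ 2 ∂(hh_nu.prod hh_nu) : ℝ) : ℂ) := by
  have c1 : ContinuousOn (fun w : ℂ => Ph T I w) B0 :=
    (continuousOn_Ph T).comp (f := fun w : ℂ => ((I : ℂ), w)) (by fun_prop)
      fun w hw => ⟨hh_I, B0_sub hw⟩
  have c2 : ContinuousOn (fun w : ℂ => Ph t w I) B0 :=
    (continuousOn_Ph t).comp (f := fun w : ℂ => (w, (I : ℂ))) (by fun_prop)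
      fun w hw => ⟨B0_sub hw, hh_I⟩
  have hc : ContinuousOn (fun w => Ph T I w * Ph t w I) B0 := c1.mul c2
  obtain ⟨M, hM⟩ := hh_B0.exists_bound_of_continuousOn hc
  have hi : Integrable (fun q : ℂ × ℂ =>
      (be q.2 I : ℂ) * ((be q.1 q.2 : ℂ) * (Ph T I q.1 * Ph t q.1 I))) (muH.prod muH) := by
    refine hh_int (M := 1 * (1 * M)) ?_ (hh_B0.measurableSet.prod hh_B0.measurableSet) hh_fin ?_ ?_
    · have a1 : Measurable fun q : ℂ × ℂ => (q.2, I) := by fun_prop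
      have a2 : Measurable fun q : ℂ × ℂ => (I, q.1) := by fun_prop
      have a3 : Measurable fun q : ℂ × ℂ => (q.1, I) := by fun_prop
      exact ((measurable_ofReal.comp (measurable_be.comp a1)).mul
        ((measurable_ofReal.comp measurable_be).mul (((measurable_Ph T).comp a2).mul
          ((measurable_Ph t).comp a3))) :)
    · intro q hq
      have b : ∀ z w : ℂ, ‖(be z w : ℂ)‖ ≤ 1 := fun z w => by
        rw [Complex.norm_real, Real.norm_eq_abs, abs_of_nonneg (be_nonneg z w)]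
        exact be_le_one z w
      rw [norm_mul, norm_mul]
      have := hM q.1 hq.1
      gcongr
      · exact b _ _
      · exact b _ _
    · intro q hq
      by_cases h1 : be q.2 I = 0
      · simp [h1]
      by_cases h2 : be q.1 q.2 = 0
      · simp [h2]
      exfalso
      have g1 := hh_supp h1
      have g2 := (be_supp h2).2.2
      have g3 : q.2.im ≤ 2 := by
        have := (abs_le.1 (Complex.abs_im_le_norm (q.2 - I))).2
        simp only [sub_im, I_im] at this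
        linarith
      refine hq ⟨hh_mem.2 ?_, hh_mem.2 (by linarith)⟩
      have := norm_add_le (q.1 - q.2) (q.2 - I)
      rw [sub_add_sub_cancel] at this
      linarith
  rw [← hh_fub]
  calc _ = ∫ w, ∫ u, (be u I : ℂ) * ((be w u : ℂ) * (Ph T I w * Ph t w I)) ∂muH ∂muH := by
        rw [hh, ← integral_mul_const]
        refine integral_congr_ae (ae_Up.mono fun w hw => ?_)
        simp only
        rw [Ph_I t hw, sg, ← integral_complex_ofReal, mul_assoc, mul_assoc, ← integral_mul_const]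
        refine integral_congr_ae (ae_of_all _ fun u => ?_)
        simp only
        rw [be_symm I u]
        push_cast; ring
    _ = ∫ u, ∫ w, (be u I : ℂ) * ((be w u : ℂ) * (Ph T I w * Ph t w I)) ∂muH ∂muH :=
        integral_integral_swap hi
    _ = _ := by
        refine integral_congr_ae (ae_Up.mono fun u hu => ?_)
        simp only
        rw [integral_const_mul, hh_swap T t hu]

theorem hh_strip {δ : ℝ} (h1 : δ ≤ 1) :
    (hh_nu.prod hh_nu) {p | p.1 ∈ Ioc (0 : ℝ) 1 ∧ p.2 ∈ Ioc p.1 (p.1 + δ)} = ENNReal.ofReal δ := by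
  have hπ := Real.pi_gt_three
  have hS : MeasurableSet {p : ℝ × ℝ | p.1 ∈ Ioc (0 : ℝ) 1 ∧ p.2 ∈ Ioc p.1 (p.1 + δ)} :=
    (measurable_fst measurableSet_Ioc).inter ((measurableSet_lt measurable_fst measurable_snd).inter
      (measurableSet_le measurable_snd (measurable_fst.add_const δ)))
  rw [Measure.prod_apply hS]
  have e : ∀ a : ℝ, hh_nu (Prod.mk a ⁻¹'
      {p : ℝ × ℝ | p.1 ∈ Ioc (0 : ℝ) 1 ∧ p.2 ∈ Ioc p.1 (p.1 + δ)}) =
      (Ioc (0 : ℝ) 1).indicator (fun _ => ENNReal.ofReal δ) a := by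
    intro a
    by_cases ha : a ∈ Ioc (0 : ℝ) 1
    · rw [indicator_of_mem ha]
      have : Prod.mk a ⁻¹' {p : ℝ × ℝ | p.1 ∈ Ioc (0 : ℝ) 1 ∧ p.2 ∈ Ioc p.1 (p.1 + δ)} =
          Ioc a (a + δ) := by
        ext b; exact ⟨fun h => h.2, fun h => ⟨ha, h⟩⟩
      rw [this, hh_nu, Measure.restrict_apply measurableSet_Ioc, inter_eq_left.2
        (Ioc_subset_Ioc ha.1.le (by linarith [ha.2])), Real.volume_Ioc]
      congr 1; ring
    · rw [indicator_of_notMem ha]
      have : Prod.mk a ⁻¹' {p : ℝ × ℝ | p.1 ∈ Ioc (0 : ℝ) 1 ∧ p.2 ∈ Ioc p.1 (p.1 + δ)} = ∅ := by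
        ext b; exact ⟨fun h => ha h.1, fun h => h.elim⟩
      rw [this, measure_empty]
  simp only [e]
  rw [lintegral_indicator_const measurableSet_Ioc, hh_nu, Measure.restrict_apply measurableSet_Ioc,
    inter_eq_left.2 (Ioc_subset_Ioc le_rfl (by linarith)), Real.volume_Ioc]
  simp

theorem hh_G_int (T t : ℝ) : Integrable (fun p => ‖hh_G T t p‖ ^ 2) (hh_nu.prod hh_nu) := by
  refine Bd.integrable_sq ⟨?_, (muH B0).toReal * 2, fun p => ?_⟩ _
  · exact ((hh_a_meas T t).stronglyMeasurable.integral_prod_right' (ν := muH)).measurable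
  · rw [hh_G, ← setIntegral_eq_integral_of_forall_compl_eq_zero fun z hz => hh_a_zero T t p hz,
      mul_comm]
    exact norm_setIntegral_le_of_norm_le_const (muH_compact hh_B0 B0_sub)
      fun z _ => hh_a_bd T t p z

theorem hh_lower : ∃ c : ℝ, 0 < c ∧ ∀ T t : ℝ, 1 ≤ T → |t - T| ≤ 1 → c / T ≤ ‖hh T t‖ := by
  have hβ := be_pos
  have hπ := Real.pi_pos
  set β := ∫ u, be I u ∂muH with hβd
  refine ⟨(β / 2) ^ 2 / 10 / (2 * Real.pi), by positivity, fun T t hT ht => ?_⟩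
  have hδ : 1 / (10 * T) ≤ 1 := by rw [div_le_one (by linarith)]; linarith
  have hδ0 : 0 ≤ 1 / (10 * T) := by positivity
  have hS : MeasurableSet
      {p : ℝ × ℝ | p.1 ∈ Ioc (0 : ℝ) 1 ∧ p.2 ∈ Ioc p.1 (p.1 + 1 / (10 * T))} :=
    (measurable_fst measurableSet_Ioc).inter ((measurableSet_lt measurable_fst measurable_snd).inter
      (measurableSet_le measurable_snd (measurable_fst.add_const _)))
  have key : 1 / (10 * T) * (β / 2) ^ 2 ≤ ∫ p, ‖hh_G T t p‖ ^ 2 ∂(hh_nu.prod hh_nu) := by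
    have e := integral_indicator_const (μ := hh_nu.prod hh_nu) ((β / 2) ^ 2) hS
    rw [Measure.real, hh_strip hδ, ENNReal.toReal_ofReal hδ0, smul_eq_mul] at e
    rw [← e]
    refine integral_mono ((integrable_const _).indicator hS) (hh_G_int T t) fun p => ?_
    by_cases hp : p ∈ {p : ℝ × ℝ | p.1 ∈ Ioc (0 : ℝ) 1 ∧ p.2 ∈ Ioc p.1 (p.1 + 1 / (10 * T))}
    · rw [indicator_of_mem hp]
      have h2 := hp.2
      have := hh_G_ge hT ht (p := p) (abs_le.2 ⟨by linarith [h2.2], by linarith [h2.1]⟩)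
      exact pow_le_pow_left₀ (by positivity) this 2
    · rw [indicator_of_notMem hp]; positivity
  have e := congrArg norm (hh_eq T t)
  rw [norm_mul, Complex.norm_real, Complex.norm_real, Real.norm_eq_abs, Real.norm_eq_abs,
    abs_of_pos (by positivity)] at e
  have h3 := key.trans (le_abs_self _)
  rw [← e] at h3
  rw [div_right_comm, div_le_iff₀ (by positivity)]
  refine le_trans (le_of_eq ?_) h3
  field_simp

end Pool.Agent.MP_a28cf0_nt.Dec
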