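import Pool.Agent.MP_a28cf0_nt.Mg.Dec_Box

-- part MP_a28cf0_nt.Dec.Cell
section

set_option autoImplicit false

namespace Pool.Agent.MP_a28cf0_nt.Dec

open MeasureTheory Complex Filter Topology Set
open scoped ENNReal MatrixGroups ComplexConjugate
open Pool.Agent.MP_a28cf0_nt.Cub

/-! Counting the exceptional boxes.
`sp_struct`: from `‖p² - p'²‖ = ‖p - p'‖ ‖p + p'‖ < η` and `‖p - p'‖² + ‖p + p'‖² = 4` one of the
two factors is `< η`.
* `p' ≈ p`: then `q' ≈ q`, `q² ≈ p²`, so `q ≈ p` or `q ≈ -p`: `c = ± 1`, `u = p`, `v = q`.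
* `p' ≈ -p`: `q' ≈ q + 2 lam p`, `p² + q q' ≈ 0`, and
  `p² + q (q + 2 lam p) = p q (2 Re (q conj p) + 2 lam)`: `c = -lam`.
* `q' ≈ -q`: `p' ≈ -q² conj p`, `lam (p - p') + 2 q ≈ 0` forces `lam ≥ 1/2`, and
  `lam (p + q² conj p) + 2 q = q (2 lam Re (q conj p) + 2)`: `c = -1 / lam`.
`card_ball`: if `k₀` is one such index, all others satisfy `|sin ((k - k₀) α)| ≤ 4 η / 3`
(`ep_sub_bd`), and `(k - k₀) α ∈ (-2π, 2π)` is within `π η` of one of five multiples of `π`.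
`card_re`: two unit vectors `e, e'` with real parts of `e conj p`, `e' conj p` within `η` of `c` and
imaginary parts of the same sign satisfy `‖e - e'‖ ≤ 2 η + 2 √η`. -/

theorem count0_one {a b : ℂ} (ha : ‖a‖ = 1) (hb : ‖b‖ = 1) : 1 ≤ ‖a - b‖ ∨ 1 ≤ ‖a + b‖ := by
  by_contra h
  push Not at h
  have h1 : ‖(a - b) + (a + b)‖ ≤ ‖a - b‖ + ‖a + b‖ := norm_add_le _ _
  have h2 : (a - b) + (a + b) = 2 * a := by ring
  rw [h2, norm_mul, ha] at h1
  have h3 : ‖(2 : ℂ)‖ = 2 := by simp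
  rw [h3] at h1
  linarith [h.1, h.2, hb]

theorem count0_sq {a b : ℂ} {r : ℝ} (ha : ‖a‖ = 1) (hb : ‖b‖ = 1) (h : ‖a ^ 2 - b ^ 2‖ ≤ r) :
    ‖a - b‖ ≤ r ∨ ‖a + b‖ ≤ r := by
  have h1 : a ^ 2 - b ^ 2 = (a - b) * (a + b) := by ring
  rw [h1, norm_mul] at h
  rcases count0_one ha hb with h2 | h2
  · right
    exact le_trans (le_mul_of_one_le_left (norm_nonneg _) h2) h
  · left
    exact le_trans (le_mul_of_one_le_right (norm_nonneg _) h2) h

theorem count0_sq' {a b : ℂ} {r : ℝ} (ha : ‖a‖ = 1) (hb : ‖b‖ = 1) (h : ‖a ^ 2 - b ^ 2‖ < r) :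
    ‖a - b‖ < r ∨ ‖a + b‖ < r := by
  rcases count0_sq ha hb (le_refl _) with h2 | h2
  · exact Or.inl (h2.trans_lt h)
  · exact Or.inr (h2.trans_lt h)

theorem count0_mc {p : ℂ} (hp : ‖p‖ = 1) : p * conj p = 1 := by
  rw [Complex.mul_conj, Complex.normSq_eq_norm_sq, hp]; simp

theorem count0_re (p q : ℂ) : (((q * conj p).re : ℝ) : ℂ) * 2 = q * conj p + conj q * p := by
  have h := Complex.add_conj (q * conj p)
  rw [map_mul, Complex.conj_conj] at h
  rw [h]; push_cast; ring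

theorem count0_tri (a b c : ℂ) : ‖a + b + c‖ ≤ ‖a‖ + ‖b‖ + ‖c‖ := norm_add₃_le

theorem sp_swap {η lam : ℝ} {p p' q q' : ℂ} (h : Sp η lam p p' q q') : Sp η lam p' p q' q := by
  obtain ⟨h1, h2, h3⟩ := h
  refine ⟨?_, ?_, ?_⟩
  · have : (lam : ℂ) * (p' - p) + (q' - q) = -((lam : ℂ) * (p - p') + (q - q')) := by ring
    rw [this, norm_neg]; exact h1
  · rw [mul_comm p' p, mul_comm q' q]; exact h2
  · rw [norm_sub_rev, add_comm q' q]; exact h3

theorem sp_struct {η lam C₀ : ℝ} {p p' q q' : ℂ} (hp : ‖p‖ = 1) (hp' : ‖p'‖ = 1) (hq : ‖q‖ = 1)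
    (hq' : ‖q'‖ = 1) (hη : η ≤ 1 / 10) (h0 : 0 ≤ lam) (h1 : lam ≤ C₀) (h : Sp η lam p p' q q') :
    ∃ c ∈ ({1, -1, -lam, -1 / lam} : Set ℝ), ∃ u ∈ ({p, -p, -q ^ 2 * conj p} : Set ℂ),
      ∃ v ∈ ({q, q + 2 * lam * p, -q} : Set ℂ), |(q * conj p).re - c| ≤ 4 * (1 + C₀) * η ∧
        ‖p' - u‖ ≤ 4 * (1 + C₀) * η ∧ ‖q' - v‖ ≤ 4 * (1 + C₀) * η := by
  obtain ⟨a1, a2, a3⟩ := h
  have hη0 : 0 < η := (norm_nonneg _).trans_lt a1
  have hl : ‖(lam : ℂ)‖ = lam := by rw [Complex.norm_real, Real.norm_eq_abs, abs_of_nonneg h0]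
  have hC : lam * η ≤ C₀ * η := mul_le_mul_of_nonneg_right h1 hη0.le
  have hl0 : 0 ≤ lam * η := mul_nonneg h0 hη0.le
  have hB : 4 * (1 + C₀) * η = 4 * η + 4 * (C₀ * η) := by ring
  have hpp := count0_mc hp
  have hqq := count0_mc hq
  have hcp : ‖conj p‖ = 1 := by rw [Complex.norm_conj, hp]
  have hre := count0_re p q
  rw [hB]
  rcases a3 with a3 | a3
  · rcases count0_sq' hp hp' a3 with b | b
    · have e1 : ‖q - q'‖ ≤ η + lam * η := by
        have : q - q' = ((lam : ℂ) * (p - p') + (q - q')) - (lam : ℂ) * (p - p') := by ring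
        rw [this]
        refine (norm_sub_le _ _).trans ?_
        rw [norm_mul (lam : ℂ), hl]
        have := mul_le_mul_of_nonneg_left b.le h0
        linarith
      have hw : ‖q * conj p‖ = 1 := by rw [norm_mul, hq, hcp, one_mul]
      have e2 : ‖(q * conj p) ^ 2 - 1 ^ 2‖ ≤ 3 * η + lam * η := by
        have : (q * conj p) ^ 2 - 1 ^ 2 =
            (-(p * p' - q * q') + q * (q - q') + -(p * (p - p'))) * (conj p * conj p) := by
          linear_combination (p * conj p + 1) * hpp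
        rw [this, norm_mul, norm_mul, hcp, mul_one, mul_one]
        refine (count0_tri _ _ _).trans ?_
        rw [norm_neg, norm_neg, norm_mul q, norm_mul p, hq, hp]
        linarith
      have e3 : ‖p' - p‖ ≤ 4 * η + 4 * (C₀ * η) := by rw [norm_sub_rev]; linarith
      have e4 : ‖q' - q‖ ≤ 4 * η + 4 * (C₀ * η) := by rw [norm_sub_rev]; linarith
      rcases count0_sq hw norm_one e2 with d | d
      · refine ⟨1, by simp, p, by simp, q, by simp, ?_, e3, e4⟩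
        have := Complex.abs_re_le_norm (q * conj p - 1)
        rw [Complex.sub_re, Complex.one_re] at this
        linarith
      · refine ⟨-1, by simp, p, by simp, q, by simp, ?_, e3, e4⟩
        have := Complex.abs_re_le_norm (q * conj p + 1)
        rw [Complex.add_re, Complex.one_re] at this
        rw [sub_neg_eq_add]
        linarith
    · have e1 : ‖q' - (q + 2 * lam * p)‖ ≤ η + lam * η := by
        have : q' - (q + 2 * lam * p) =
            -(((lam : ℂ) * (p - p') + (q - q')) + (lam : ℂ) * (p + p')) := by ring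
        rw [this, norm_neg]
        refine (norm_add_le _ _).trans ?_
        rw [norm_mul (lam : ℂ), hl]
        have := mul_le_mul_of_nonneg_left b.le h0
        linarith
      have e2 : ‖p * q * ((((q * conj p).re + lam : ℝ) : ℂ) * 2)‖ ≤ 3 * η + lam * η := by
        have : p * q * ((((q * conj p).re + lam : ℝ) : ℂ) * 2) =
            -(p * p' - q * q') + p * (p + p') + -(q * (q' - (q + 2 * lam * p))) := by
          push_cast
          linear_combination p * q * hre + q ^ 2 * hpp + p ^ 2 * hqq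
        rw [this]
        refine (count0_tri _ _ _).trans ?_
        rw [norm_neg, norm_neg, norm_mul q, norm_mul p, hq, hp]
        linarith
      rw [norm_mul, norm_mul, norm_mul, hp, hq, Complex.norm_real, Real.norm_eq_abs] at e2
      have h2 : ‖(2 : ℂ)‖ = 2 := by simp
      rw [h2] at e2
      refine ⟨-lam, by simp, -p, by simp, q + 2 * lam * p, by simp, ?_, ?_, ?_⟩
      · rw [sub_neg_eq_add]
        linarith [abs_nonneg ((q * conj p).re + lam)]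
      · rw [sub_neg_eq_add, add_comm p' p]; linarith
      · linarith
  · have e1 : ‖p' - -q ^ 2 * conj p‖ ≤ 2 * η := by
      have : p' - -q ^ 2 * conj p = ((p * p' - q * q') + q * (q + q')) * conj p := by
        linear_combination (-p') * hpp
      rw [this, norm_mul, hcp, mul_one]
      refine (norm_add_le _ _).trans ?_
      rw [norm_mul q, hq]
      linarith
    have e2 : ‖(lam : ℂ) * (p - p') + 2 * q‖ ≤ 2 * η := by
      have : (lam : ℂ) * (p - p') + 2 * q = ((lam : ℂ) * (p - p') + (q - q')) + (q + q') := by ring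
      rw [this]
      refine (norm_add_le _ _).trans ?_
      linarith
    have h2 : ‖(2 : ℂ)‖ = 2 := by simp
    have e3 : 1 / 2 ≤ lam := by
      have t1 : ‖2 * q‖ ≤ ‖(lam : ℂ) * (p - p') + 2 * q‖ + ‖(lam : ℂ) * (p - p')‖ := by
        have : 2 * q = ((lam : ℂ) * (p - p') + 2 * q) - (lam : ℂ) * (p - p') := by ring
        conv_lhs => rw [this]
        exact norm_sub_le _ _
      rw [norm_mul, h2, hq, norm_mul (lam : ℂ), hl] at t1
      have t2 : ‖p - p'‖ ≤ 2 := (norm_sub_le _ _).trans (by rw [hp, hp']; norm_num)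
      have t3 := mul_le_mul_of_nonneg_left t2 h0
      linarith
    have e4 : ‖q * (((lam * (q * conj p).re + 1 : ℝ) : ℂ) * 2)‖ ≤ 2 * η + lam * (2 * η) := by
      have : q * (((lam * (q * conj p).re + 1 : ℝ) : ℂ) * 2) =
          ((lam : ℂ) * (p - p') + 2 * q) + (lam : ℂ) * (p' - -q ^ 2 * conj p) := by
        push_cast
        linear_combination (lam : ℂ) * q * hre + (lam : ℂ) * p * hqq
      rw [this]
      refine (norm_add_le _ _).trans ?_
      rw [norm_mul (lam : ℂ), hl]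
      have := mul_le_mul_of_nonneg_left e1 h0
      linarith
    rw [norm_mul, norm_mul, hq, Complex.norm_real, Real.norm_eq_abs, h2] at e4
    have hl' : 0 < lam := by linarith
    have e5 : |lam * (q * conj p).re + 1| = lam * |(q * conj p).re - -1 / lam| := by
      have : lam * (q * conj p).re + 1 = lam * ((q * conj p).re - -1 / lam) := by
        field_simp; ring
      rw [this, abs_mul, abs_of_pos hl']
    rw [e5] at e4
    refine ⟨-1 / lam, by simp, -q ^ 2 * conj p, by simp, -q, by simp, ?_, ?_, ?_⟩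
    · have t1 := mul_le_mul_of_nonneg_right e3 (abs_nonneg ((q * conj p).re - -1 / lam))
      linarith
    · linarith
    · rw [sub_neg_eq_add, add_comm q' q]; linarith

/-- the five kinds of boxes -/
theorem kinds {η lam : ℝ} {p p' q q' : ℂ} (hq : ‖q‖ = 1) (hq' : ‖q'‖ = 1) :
    η ≤ ‖(lam : ℂ) * (p - p') + (q - q')‖ ∨ η ≤ ‖p * p' - q * q'‖ ∨
    (η ≤ ‖p ^ 2 - p' ^ 2‖ ∧ η ≤ ‖q ^ 2 - q' ^ 2‖) ∨ (η ≤ ‖p ^ 2 - p' ^ 2‖ ∧ ‖q - q'‖ ≤ η) ∨
    Sp η lam p p' q q' := by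
  rcases le_or_gt η ‖(lam : ℂ) * (p - p') + (q - q')‖ with a1 | a1
  · exact Or.inl a1
  rcases le_or_gt η ‖p * p' - q * q'‖ with a2 | a2
  · exact Or.inr (Or.inl a2)
  rcases le_or_gt η ‖p ^ 2 - p' ^ 2‖ with a3 | a3
  · rcases le_or_gt η ‖q ^ 2 - q' ^ 2‖ with a4 | a4
    · exact Or.inr (Or.inr (Or.inl ⟨a3, a4⟩))
    · rcases count0_sq' hq hq' a4 with b | b
      · exact Or.inr (Or.inr (Or.inr (Or.inl ⟨a3, b.le⟩)))
      · exact Or.inr (Or.inr (Or.inr (Or.inr ⟨a1, a2, Or.inr b⟩)))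
  · exact Or.inr (Or.inr (Or.inr (Or.inr ⟨a1, a2, Or.inl a3⟩)))

theorem count_int {n : ℕ} (S : Finset (Fin n)) {c r : ℝ} (hr : 0 ≤ r)
    (h : ∀ k ∈ S, |((k : ℕ) : ℝ) - c| ≤ r) : (S.card : ℝ) ≤ 2 * r + 1 := by
  have h1 : S.card ≤ (Finset.Icc ⌈c - r⌉ ⌊c + r⌋).card := by
    refine Finset.card_le_card_of_injOn (fun k => ((k : ℕ) : ℤ)) ?_ ?_
    · intro k hk
      have := abs_le.1 (h k hk)
      simp only [Finset.coe_Icc, Set.mem_Icc]
      constructor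
      · rw [Int.ceil_le]; push_cast; linarith [this.1]
      · rw [Int.le_floor]; push_cast; linarith [this.2]
    · intro a _ b _ hab
      exact Fin.ext (Int.ofNat_inj.1 hab)
  rw [Int.card_Icc] at h1
  have h2 : ((⌊c + r⌋ + 1 - ⌈c - r⌉).toNat : ℝ) ≤ 2 * r + 1 := by
    rcases le_total 0 (⌊c + r⌋ + 1 - ⌈c - r⌉) with h3 | h3
    · have : ((⌊c + r⌋ + 1 - ⌈c - r⌉).toNat : ℝ) = ((⌊c + r⌋ + 1 - ⌈c - r⌉ : ℤ) : ℝ) := by
        rw [← Int.cast_natCast, Int.toNat_of_nonneg h3]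
      rw [this]; push_cast
      linarith [Int.floor_le (c + r), Int.le_ceil (c - r)]
    · rw [Int.toNat_eq_zero.2 h3]; push_cast; linarith
  exact le_trans (by exact_mod_cast h1) h2

theorem count_sin {x : ℝ} (hx : |x| < 2 * Real.pi) :
    ∃ j ∈ Finset.Icc (-2 : ℤ) 2, 2 / Real.pi * |x - j * Real.pi| ≤ |Real.sin x| := by
  have hπ := Real.pi_pos
  have h1 := abs_sub_round (x / Real.pi)
  have h2 : |x / Real.pi| < 2 := by
    rw [abs_div, abs_of_pos hπ, div_lt_iff₀ hπ]; exact hx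
  have h3 := abs_le.1 h1
  have h4 := abs_lt.1 h2
  refine ⟨round (x / Real.pi), ?_, ?_⟩
  · rw [Finset.mem_Icc]
    constructor
    · have : ((-3 : ℤ) : ℝ) < round (x / Real.pi) := by push_cast; linarith [h3.2, h4.1]
      have := Int.cast_lt.1 this
      omega
    · have : (round (x / Real.pi) : ℝ) < ((3 : ℤ) : ℝ) := by push_cast; linarith [h3.1, h4.2]
      have := Int.cast_lt.1 this
      omega
  · have h5 : |x - round (x / Real.pi) * Real.pi| ≤ Real.pi / 2 := by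
      have : x - round (x / Real.pi) * Real.pi = (x / Real.pi - round (x / Real.pi)) * Real.pi := by
        field_simp
      rw [this, abs_mul, abs_of_pos hπ]
      nlinarith
    have h6 := Real.mul_abs_le_abs_sin h5
    rw [Real.sin_sub_int_mul_pi, abs_mul] at h6
    have h7 : |(-1 : ℝ) ^ round (x / Real.pi)| = 1 := by rw [abs_zpow]; simp
    rw [h7, one_mul] at h6
    exact h6

open Classical in
theorem card_ball {n : ℕ} (hn : 1 ≤ n) {z₀ : ℂ} (hz : ‖z₀ - I‖ ≤ 1 / 100) (w : ℂ) {η : ℝ}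
    (hη : 0 ≤ η) :
    ((Finset.univ.filter fun k : Fin n =>
      ‖ep z₀ ((k : ℕ) * (2 * Real.pi / n)) - w‖ ≤ η).card : ℝ) ≤ 5 * (η * n + 1) := by
  have hπ := Real.pi_pos
  have hn0 : (0 : ℝ) < n := by exact_mod_cast hn
  set S := Finset.univ.filter fun k : Fin n =>
      ‖ep z₀ ((k : ℕ) * (2 * Real.pi / n)) - w‖ ≤ η with hS
  rcases S.eq_empty_or_nonempty with h0 | ⟨k₀, hk₀⟩
  · rw [h0]; simp only [Finset.card_empty, Nat.cast_zero]; positivity
  have hsub : S ⊆ (Finset.Icc (-2 : ℤ) 2).biUnion fun j => Finset.univ.filter fun k : Fin n =>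
      |((k : ℕ) : ℝ) - (((k₀ : ℕ) : ℝ) + j * n / 2)| ≤ η * n / 2 := by
    intro k hk
    have a1 := (Finset.mem_filter.1 hk).2
    have a2 := (Finset.mem_filter.1 hk₀).2
    have a3 := (ep_sub_bd ((k : ℕ) * (2 * Real.pi / n)) ((k₀ : ℕ) * (2 * Real.pi / n))
      (z := z₀) (by linarith)).1
    have a4 : ‖ep z₀ ((k : ℕ) * (2 * Real.pi / n)) - ep z₀ ((k₀ : ℕ) * (2 * Real.pi / n))‖ ≤
        2 * η := by
      have := norm_sub_le_norm_sub_add_norm_sub (ep z₀ ((k : ℕ) * (2 * Real.pi / n))) w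
        (ep z₀ ((k₀ : ℕ) * (2 * Real.pi / n)))
      rw [norm_sub_rev w] at this
      linarith
    have b1 : ((k : ℕ) : ℝ) < n := by exact_mod_cast k.2
    have b2 : ((k₀ : ℕ) : ℝ) < n := by exact_mod_cast k₀.2
    have b3 : (0 : ℝ) ≤ (k : ℕ) := Nat.cast_nonneg _
    have b4 : (0 : ℝ) ≤ (k₀ : ℕ) := Nat.cast_nonneg _
    have hα : 0 < 2 * Real.pi / n := by positivity
    have a5 : |((k : ℕ) : ℝ) * (2 * Real.pi / n) - (k₀ : ℕ) * (2 * Real.pi / n)| <
        2 * Real.pi := by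
      rw [← sub_mul, abs_mul, abs_of_pos hα]
      have t1 : |((k : ℕ) : ℝ) - (k₀ : ℕ)| < n := by rw [abs_lt]; constructor <;> linarith
      calc _ < n * (2 * Real.pi / n) := mul_lt_mul_of_pos_right t1 hα
        _ = _ := by field_simp
    obtain ⟨j, hj, hj2⟩ := count_sin a5
    refine Finset.mem_biUnion.2 ⟨j, hj, Finset.mem_filter.2 ⟨Finset.mem_univ _, ?_⟩⟩
    have t2 : ((k : ℕ) : ℝ) * (2 * Real.pi / n) - (k₀ : ℕ) * (2 * Real.pi / n) - j * Real.pi =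
        (2 * Real.pi / n) * (((k : ℕ) : ℝ) - (((k₀ : ℕ) : ℝ) + j * n / 2)) := by
      field_simp; ring
    rw [t2, abs_mul, abs_of_pos hα, ← mul_assoc] at hj2
    have t3 : 2 / Real.pi * (2 * Real.pi / n) = 4 / n := by field_simp; ring
    rw [t3, div_mul_eq_mul_div, div_le_iff₀ hn0] at hj2
    have t4 : |Real.sin (((k : ℕ) : ℝ) * (2 * Real.pi / n) - (k₀ : ℕ) * (2 * Real.pi / n))| ≤
        2 * η := by linarith
    have t5 := mul_le_mul_of_nonneg_right t4 hn0.le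
    linarith
  have h1 := Finset.card_le_card hsub
  have h2 := h1.trans Finset.card_biUnion_le
  have h3 : (S.card : ℝ) ≤ ∑ j ∈ Finset.Icc (-2 : ℤ) 2, ((Finset.univ.filter fun k : Fin n =>
      |((k : ℕ) : ℝ) - (((k₀ : ℕ) : ℝ) + j * n / 2)| ≤ η * n / 2).card : ℝ) := by
    exact_mod_cast h2
  refine h3.trans ?_
  have h4 : ∀ j ∈ Finset.Icc (-2 : ℤ) 2, ((Finset.univ.filter fun k : Fin n =>
      |((k : ℕ) : ℝ) - (((k₀ : ℕ) : ℝ) + j * n / 2)| ≤ η * n / 2).card : ℝ) ≤ η * n + 1 := by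
    intro j _
    have := count_int (Finset.univ.filter fun k : Fin n =>
      |((k : ℕ) : ℝ) - (((k₀ : ℕ) : ℝ) + j * n / 2)| ≤ η * n / 2)
      (c := ((k₀ : ℕ) : ℝ) + j * n / 2) (r := η * n / 2) (by positivity)
      (fun k hk => (Finset.mem_filter.1 hk).2)
    linarith
  refine (Finset.sum_le_card_nsmul _ _ _ h4).trans ?_
  have h5 : (Finset.Icc (-2 : ℤ) 2).card = 5 := by rfl
  rw [h5, nsmul_eq_mul]; norm_num

theorem count_close {u v : ℂ} {c η : ℝ} (hu : ‖u‖ = 1) (hv : ‖v‖ = 1) (hη : 0 ≤ η)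
    (h1 : |u.re - c| ≤ η) (h2 : |v.re - c| ≤ η) (h3 : 0 ≤ u.im * v.im) :
    ‖u - v‖ ≤ 2 * η + 2 * √η := by
  have a1 : u.re ^ 2 + u.im ^ 2 = 1 := by
    have := Complex.sq_norm u
    rw [hu, Complex.normSq_apply] at this; linarith
  have a2 : v.re ^ 2 + v.im ^ 2 = 1 := by
    have := Complex.sq_norm v
    rw [hv, Complex.normSq_apply] at this; linarith
  have b1 := abs_le.1 h1
  have b2 := abs_le.1 h2
  have c1 : |u.re - v.re| ≤ 2 * η := by rw [abs_le]; constructor <;> linarith [b1.1, b1.2, b2.1, b2.2]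
  have c2 : |u.re + v.re| ≤ 2 := by
    have := Complex.abs_re_le_norm u
    have := Complex.abs_re_le_norm v
    have := abs_add_le u.re v.re
    linarith
  have c3 : |u.im ^ 2 - v.im ^ 2| ≤ 4 * η := by
    have : u.im ^ 2 - v.im ^ 2 = -((u.re - v.re) * (u.re + v.re)) := by linarith
    rw [this, abs_neg, abs_mul]
    calc _ ≤ 2 * η * 2 := mul_le_mul c1 c2 (abs_nonneg _) (by positivity)
      _ = _ := by ring
  have c4 : (u.im - v.im) ^ 2 ≤ 4 * η := by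
    have t1 : |u.im - v.im| ≤ |u.im + v.im| := by
      rw [← sq_le_sq]; nlinarith
    have t2 : u.im ^ 2 - v.im ^ 2 = (u.im - v.im) * (u.im + v.im) := by ring
    rw [t2, abs_mul] at c3
    have t3 := mul_le_mul_of_nonneg_left t1 (abs_nonneg (u.im - v.im))
    rw [← sq_abs]
    nlinarith
  have c5 : |u.im - v.im| ≤ 2 * √η := by
    apply abs_le_of_sq_le_sq' _ (by positivity) |> abs_le.2
    rw [mul_pow, Real.sq_sqrt hη]; linarith
  have := Complex.norm_le_abs_re_add_abs_im (u - v)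
  rw [Complex.sub_re, Complex.sub_im] at this
  linarith

open Classical in
theorem count_half {n : ℕ} (hn : 1 ≤ n) {z₀ : ℂ} (hz : ‖z₀ - I‖ ≤ 1 / 100) {p : ℂ} (hp : ‖p‖ = 1)
    (c : ℝ) {η : ℝ} (hη : 0 ≤ η) (S : Finset (Fin n))
    (h1 : ∀ k ∈ S, |(ep z₀ ((k : ℕ) * (2 * Real.pi / n)) * conj p).re - c| ≤ η)
    (h2 : ∀ k ∈ S, ∀ k' ∈ S, 0 ≤ (ep z₀ ((k : ℕ) * (2 * Real.pi / n)) * conj p).im *
      (ep z₀ ((k' : ℕ) * (2 * Real.pi / n)) * conj p).im) :
    (S.card : ℝ) ≤ 5 * ((2 * η + 2 * √η) * n + 1) := by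
  rcases S.eq_empty_or_nonempty with h0 | ⟨k₀, hk₀⟩
  · rw [h0]; simp only [Finset.card_empty, Nat.cast_zero]; positivity
  have hU : z₀ ∈ Up := ball_sub (by linarith)
  have hcp : ‖conj p‖ = 1 := by rw [Complex.norm_conj, hp]
  refine le_trans ?_ (card_ball hn hz (ep z₀ ((k₀ : ℕ) * (2 * Real.pi / n)))
    (η := 2 * η + 2 * √η) (by positivity))
  refine Nat.cast_le.2 (Finset.card_le_card fun k hk => Finset.mem_filter.2 ⟨Finset.mem_univ _, ?_⟩)
  have := count_close (by rw [norm_mul, norm_ep _ hU, hcp, one_mul])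
    (by rw [norm_mul, norm_ep _ hU, hcp, one_mul]) hη (h1 k hk) (h1 k₀ hk₀) (h2 k hk k₀ hk₀)
  rwa [← sub_mul, norm_mul, hcp, mul_one] at this

open Classical in
theorem card_re {n : ℕ} (hn : 1 ≤ n) {z₀ : ℂ} (hz : ‖z₀ - I‖ ≤ 1 / 100) {p : ℂ} (hp : ‖p‖ = 1)
    (c : ℝ) {η : ℝ} (hη : 0 ≤ η) :
    ((Finset.univ.filter fun k : Fin n =>
      |(ep z₀ ((k : ℕ) * (2 * Real.pi / n)) * conj p).re - c| ≤ η).card : ℝ) ≤
      10 * ((2 * η + 2 * √η) * n + 1) := by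
  set S := Finset.univ.filter fun k : Fin n =>
      |(ep z₀ ((k : ℕ) * (2 * Real.pi / n)) * conj p).re - c| ≤ η with hS
  have h0 := Finset.card_filter_add_card_filter_not (s := S)
    (fun k : Fin n => 0 ≤ (ep z₀ ((k : ℕ) * (2 * Real.pi / n)) * conj p).im)
  have h1 := count_half hn hz hp c hη (S.filter
    (fun k : Fin n => 0 ≤ (ep z₀ ((k : ℕ) * (2 * Real.pi / n)) * conj p).im))
    (fun k hk => (Finset.mem_filter.1 (Finset.mem_filter.1 hk).1).2)
    (fun k hk k' hk' => mul_nonneg (Finset.mem_filter.1 hk).2 (Finset.mem_filter.1 hk').2)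
  have h2 := count_half hn hz hp c hη (S.filter
    (fun k : Fin n => ¬ 0 ≤ (ep z₀ ((k : ℕ) * (2 * Real.pi / n)) * conj p).im))
    (fun k hk => (Finset.mem_filter.1 (Finset.mem_filter.1 hk).1).2)
    (fun k hk k' hk' => mul_nonneg_of_nonpos_of_nonpos (not_le.1 (Finset.mem_filter.1 hk).2).le
      (not_le.1 (Finset.mem_filter.1 hk').2).le)
  rw [← h0]; push_cast; linarith

theorem count_cover {α β : Type} [DecidableEq α] (S : Finset α) (T : Finset β) (F : β → Finset α)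
    {B : ℝ} (h : ∀ a ∈ S, ∃ b ∈ T, a ∈ F b) (hB : ∀ b ∈ T, ((F b).card : ℝ) ≤ B) :
    (S.card : ℝ) ≤ T.card * B := by
  have h1 : S ⊆ T.biUnion F := fun a ha => Finset.mem_biUnion.2 (h a ha)
  have h2 := (Finset.card_le_card h1).trans Finset.card_biUnion_le
  have h3 : (S.card : ℝ) ≤ ∑ b ∈ T, ((F b).card : ℝ) := by exact_mod_cast h2
  refine h3.trans ((Finset.sum_le_card_nsmul _ _ _ hB).trans ?_)
  rw [nsmul_eq_mul]

open Classical in
theorem count_three {n : ℕ} (hn : 1 ≤ n) {z₀ : ℂ} (hz : ‖z₀ - I‖ ≤ 1 / 100) (a b c : ℂ) {η : ℝ}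
    (hη : 0 ≤ η) :
    ((Finset.univ.filter fun k : Fin n => ∃ u ∈ ({a, b, c} : Set ℂ),
      ‖ep z₀ ((k : ℕ) * (2 * Real.pi / n)) - u‖ ≤ η).card : ℝ) ≤ 15 * (η * n + 1) := by
  have h := count_cover (Finset.univ.filter fun k : Fin n => ∃ u ∈ ({a, b, c} : Set ℂ),
      ‖ep z₀ ((k : ℕ) * (2 * Real.pi / n)) - u‖ ≤ η) ({a, b, c} : Finset ℂ)
    (fun u => Finset.univ.filter fun k : Fin n => ‖ep z₀ ((k : ℕ) * (2 * Real.pi / n)) - u‖ ≤ η)
    (B := 5 * (η * n + 1)) (fun k hk => by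
      obtain ⟨u, hu, h⟩ := (Finset.mem_filter.1 hk).2
      exact ⟨u, by simpa using hu, Finset.mem_filter.2 ⟨Finset.mem_univ _, h⟩⟩)
    (fun u _ => card_ball hn hz u hη)
  have h2 : ((({a, b, c} : Finset ℂ).card : ℕ) : ℝ) ≤ 3 := by exact_mod_cast Finset.card_le_three
  have h3 : 0 ≤ 5 * (η * n + 1) := by positivity
  have := mul_le_mul_of_nonneg_right h2 h3
  linarith

open Classical in
theorem count (K C₀ : ℝ) (hK : 0 ≤ K) : ∃ C : ℝ, 0 ≤ C ∧ ∀ (n : ℕ) (z₀ : ℂ) (lam : ℝ), 1 ≤ n →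
    ‖z₀ - I‖ ≤ 1 / 100 → 0 ≤ lam → lam ≤ C₀ → K * (2 * Real.pi / n) ≤ 1 / 10 → ∀ i : Fin n,
    ((Finset.univ.filter fun x : Fin n × Fin n × Fin n =>
      Sp (K * (2 * Real.pi / n)) lam (ep z₀ ((i : ℕ) * (2 * Real.pi / n)))
        (ep z₀ ((x.1 : ℕ) * (2 * Real.pi / n))) (ep z₀ ((x.2.1 : ℕ) * (2 * Real.pi / n)))
        (ep z₀ ((x.2.2 : ℕ) * (2 * Real.pi / n)))).card : ℝ) ≤ C * √n := by
  have hπ := Real.pi_pos
  obtain ⟨b, hb⟩ : ∃ b : ℝ, b = 4 * (1 + |C₀|) * (K * (2 * Real.pi)) := ⟨_, rfl⟩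
  have hb0 : 0 ≤ b := by rw [hb]; positivity
  refine ⟨40 * (2 * b + 2 * √b + 1) * (15 * (b + 1) * (15 * (b + 1))), by positivity, ?_⟩
  intro n z₀ lam hn hz h0 h1 hη i
  have hn0 : (0 : ℝ) < n := by exact_mod_cast hn
  have hn1 : (1 : ℝ) ≤ n := by exact_mod_cast hn
  have hU : z₀ ∈ Up := ball_sub (by linarith)
  obtain ⟨B, hB⟩ : ∃ B : ℝ, B = 4 * (1 + C₀) * (K * (2 * Real.pi / n)) := ⟨_, rfl⟩
  have hBn : B * n = b := by
    rw [hB, hb, abs_of_nonneg (h0.trans h1)]; field_simp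
  have hB0 : 0 ≤ B := by
    have : 0 ≤ C₀ := h0.trans h1
    rw [hB]; positivity
  have hsq : √B * n = √b * √n := by
    rw [← hBn, Real.sqrt_mul hB0, mul_assoc, Real.mul_self_sqrt hn0.le]
  have hs1 : 1 ≤ √(n : ℝ) := Real.one_le_sqrt.2 hn1
  obtain ⟨p, hp⟩ : ∃ p, p = ep z₀ ((i : ℕ) * (2 * Real.pi / n)) := ⟨_, rfl⟩
  have hp1 : ‖p‖ = 1 := by rw [hp]; exact norm_ep _ hU
  rw [← hp]
  have hT : ((Finset.univ.filter fun k : Fin n => ∃ c ∈ ({1, -1, -lam, -1 / lam} : Set ℝ),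
      |(ep z₀ ((k : ℕ) * (2 * Real.pi / n)) * conj p).re - c| ≤ B).card : ℝ) ≤
      40 * (2 * b + 2 * √b + 1) * √n := by
    have h := count_cover (Finset.univ.filter fun k : Fin n =>
        ∃ c ∈ ({1, -1, -lam, -1 / lam} : Set ℝ),
        |(ep z₀ ((k : ℕ) * (2 * Real.pi / n)) * conj p).re - c| ≤ B)
      ({1, -1, -lam, -1 / lam} : Finset ℝ)
      (fun c => Finset.univ.filter fun k : Fin n =>
        |(ep z₀ ((k : ℕ) * (2 * Real.pi / n)) * conj p).re - c| ≤ B)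
      (B := 10 * ((2 * B + 2 * √B) * n + 1)) (fun k hk => by
        obtain ⟨u, hu, h⟩ := (Finset.mem_filter.1 hk).2
        exact ⟨u, by simpa using hu, Finset.mem_filter.2 ⟨Finset.mem_univ _, h⟩⟩)
      (fun c _ => card_re hn hz hp1 c hB0)
    have h2 : ((({1, -1, -lam, -1 / lam} : Finset ℝ).card : ℕ) : ℝ) ≤ 4 := by
      exact_mod_cast Finset.card_le_four
    have h3 : 0 ≤ 10 * ((2 * B + 2 * √B) * n + 1) := by positivity
    have h4 := mul_le_mul_of_nonneg_right h2 h3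
    have h5 : (2 * B + 2 * √B) * n = 2 * b + 2 * (√b * √n) := by rw [← hsq, ← hBn]; ring
    have h6 := mul_le_mul_of_nonneg_left hs1 (show 0 ≤ 2 * b + 1 by positivity)
    rw [h5] at h h4
    linarith
  have h := count_cover (Finset.univ.filter fun x : Fin n × Fin n × Fin n =>
      Sp (K * (2 * Real.pi / n)) lam p
        (ep z₀ ((x.1 : ℕ) * (2 * Real.pi / n))) (ep z₀ ((x.2.1 : ℕ) * (2 * Real.pi / n)))
        (ep z₀ ((x.2.2 : ℕ) * (2 * Real.pi / n))))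
    (Finset.univ.filter fun k : Fin n => ∃ c ∈ ({1, -1, -lam, -1 / lam} : Set ℝ),
      |(ep z₀ ((k : ℕ) * (2 * Real.pi / n)) * conj p).re - c| ≤ B)
    (fun k => (Finset.univ.filter fun k' : Fin n =>
        ∃ u ∈ ({p, -p, -(ep z₀ ((k : ℕ) * (2 * Real.pi / n))) ^ 2 * conj p} : Set ℂ),
        ‖ep z₀ ((k' : ℕ) * (2 * Real.pi / n)) - u‖ ≤ B) ×ˢ ({k} : Finset (Fin n)) ×ˢ
      (Finset.univ.filter fun k' : Fin n =>
        ∃ u ∈ ({ep z₀ ((k : ℕ) * (2 * Real.pi / n)),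
          ep z₀ ((k : ℕ) * (2 * Real.pi / n)) + 2 * lam * p,
          -ep z₀ ((k : ℕ) * (2 * Real.pi / n))} : Set ℂ),
        ‖ep z₀ ((k' : ℕ) * (2 * Real.pi / n)) - u‖ ≤ B))
    (B := 15 * (b + 1) * (15 * (b + 1))) (fun x hx => by
      obtain ⟨c, hc, u, hu, v, hv, e1, e2, e3⟩ := sp_struct hp1 (norm_ep _ hU) (norm_ep _ hU)
        (norm_ep _ hU) hη h0 h1 (Finset.mem_filter.1 hx).2
      rw [← hB] at e1 e2 e3
      refine ⟨x.2.1, Finset.mem_filter.2 ⟨Finset.mem_univ _, c, hc, e1⟩, ?_⟩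
      exact Finset.mem_product.2 ⟨Finset.mem_filter.2 ⟨Finset.mem_univ _, u, hu, e2⟩,
        Finset.mem_product.2 ⟨Finset.mem_singleton_self _,
          Finset.mem_filter.2 ⟨Finset.mem_univ _, v, hv, e3⟩⟩⟩)
    (fun k _ => by
      rw [Finset.card_product, Finset.card_product, Finset.card_singleton, one_mul, Nat.cast_mul,
        ← hBn]
      exact mul_le_mul (count_three hn hz _ _ _ hB0) (count_three hn hz _ _ _ hB0)
        (Nat.cast_nonneg _) (by positivity))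
  refine h.trans ?_
  have := mul_le_mul_of_nonneg_right hT (show 0 ≤ 15 * (b + 1) * (15 * (b + 1)) by positivity)
  linarith

/-! The estimate on one cell.  With `α = 2π / n`, `K = 20 (C₀ + 1)`, decompose
`w = ∑ k, (Ik n k).indicator w` almost everywhere, so `ext w = ∑ k, ext ((Ik n k).indicator w)`
and the integral is the sum over `(i, i', j, j')` of `XX 0 - XX s` (`ext2_tens`).  For each box use
`kinds`; `n2 (indicator w) ≤ n2 w`.  The boxes of the kinds NR, CR, TT, TP contribute at most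
`n⁴ C (...)`; the exceptional ones contribute, by `box_Sp` for `0` and `s`, `count` and `sp_swap`,
at most `2 α N T M² * 2 C √n * ∑ i, ∫ ‖χ₁ χ₂‖ ‖F i‖²`. -/

theorem box_Ik (n : ℕ) (k : Fin n) :
    Box ((k : ℕ) * (2 * Real.pi / n)) (2 * Real.pi / n) (Ik n k) := by
  refine ⟨measurable_snd measurableSet_Ioc, fun y hy => ?_⟩
  obtain ⟨h1, h2⟩ := hy
  rw [abs_le]
  constructor <;> nlinarith

theorem cell_sum {β : Type} [AddCommMonoid β] {n : ℕ} (hn : 1 ≤ n) (g : Y → β) {y : Y}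
    (hy : y.2 ∈ Ioc (0 : ℝ) (2 * Real.pi)) : ∑ k : Fin n, (Ik n k).indicator g y = g y := by
  have hn0 : (0 : ℝ) < n := by exact_mod_cast hn
  have hα : 0 < 2 * Real.pi / n := by positivity
  have hx : 0 < y.2 / (2 * Real.pi / n) := div_pos hy.1 hα
  have hxn : y.2 / (2 * Real.pi / n) ≤ n := by
    rw [div_le_iff₀ hα, mul_div_cancel₀ _ hn0.ne']
    exact hy.2
  have key : ∀ k : Fin n, y ∈ Ik n k ↔ ⌈y.2 / (2 * Real.pi / n)⌉₊ = k + 1 := fun k => by
    rw [Nat.ceil_eq_iff (Nat.succ_ne_zero _), lt_div_iff₀ hα, div_le_iff₀ hα]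
    simp [Ik]
  have h1 : 0 < ⌈y.2 / (2 * Real.pi / n)⌉₊ := Nat.ceil_pos.2 hx
  have h2 : ⌈y.2 / (2 * Real.pi / n)⌉₊ ≤ n := Nat.ceil_le.2 hxn
  rw [Finset.sum_eq_single (⟨⌈y.2 / (2 * Real.pi / n)⌉₊ - 1, by omega⟩ : Fin n)]
  · exact indicator_of_mem ((key _).2 (by simp only; omega)) _
  · intro k _ hk
    refine indicator_of_notMem (fun h => hk (Fin.ext ?_)) _
    have := (key k).1 h
    simp only
    omega
  · simp

theorem cell_ae (m : Measure ℂ) : ∀ᵐ y ∂nY m, y.2 ∈ Ioc (0 : ℝ) (2 * Real.pi) :=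
  Measure.quasiMeasurePreserving_snd.ae (ae_restrict_mem measurableSet_Ioc)

theorem ext_split {m : Measure ℂ} [IsFiniteMeasure m] {A : Y → ℂ → ℂ} {M : ℝ} (hA : Amp M A)
    (T : ℝ) {w : Y → ℂ} (hw : Bd w) {n : ℕ} (hn : 1 ≤ n) (z : ℂ) :
    ext m A T w z = ∑ k : Fin n, ext m A T ((Ik n k).indicator w) z := by
  have hb : Bd fun y => EE A T y z := (hA.bd_EE T).comp (f := fun y => (y, z)) (by fun_prop)
  unfold ext
  rw [← integral_finsetSum _ fun k _ =>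
    (hb.mul (hw.indicator (box_Ik n k).meas)).integrable (nY m)]
  refine integral_congr_ae ((cell_ae m).mono fun y hy => ?_)
  simp only
  rw [← Finset.mul_sum, cell_sum hn w hy]

theorem n2_split {m : Measure ℂ} [IsFiniteMeasure m] {w : Y → ℂ} (hw : Bd w) {n : ℕ}
    (hn : 1 ≤ n) : ∑ k : Fin n, n2 (nY m) ((Ik n k).indicator w) = n2 (nY m) w := by
  unfold n2
  rw [← integral_finsetSum _ fun k _ => (hw.indicator (box_Ik n k).meas).integrable_sq (nY m)]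
  refine integral_congr_ae ((cell_ae m).mono fun y hy => ?_)
  simp only
  rw [← cell_sum hn (fun y => ‖w y‖ ^ 2) hy]
  refine Finset.sum_congr rfl fun k _ => ?_
  by_cases h : y ∈ Ik n k <;> simp [h]

theorem cell_chi {M M' α : ℝ} {m : Measure ℂ} {A : Y → ℂ → ℂ} {χ₁ χ₂ : ℂ → ℂ} {z₀ : ℂ}
    (hc : Cell M M' α m A χ₁ χ₂ z₀) : Integrable fun z => χ₁ z * χ₂ z := by
  refine (hc.c1.cont.mul hc.c2.cont).integrable_of_hasCompactSupport
    (HasCompactSupport.intro (isCompact_closedBall z₀ (α / 2000)) fun z hz => ?_)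
  rw [Metric.mem_closedBall, dist_eq_norm, not_le] at hz
  simp [hc.s1 z hz]

theorem cell_sq {m : Measure ℂ} [IsFiniteMeasure m] {A : Y → ℂ → ℂ} {M : ℝ} (hA : Amp M A)
    (T : ℝ) {w : Y → ℂ} (hw : Bd w) {n : ℕ} (hn : 1 ≤ n) (z : ℂ) :
    ((‖ext m A T w z‖ ^ 2 : ℝ) : ℂ) = ∑ k : Fin n, ∑ k' : Fin n,
      ext2 m A T (tens ((Ik n k).indicator w) ((Ik n k').indicator w)) z := by
  rw [← Complex.normSq_eq_norm_sq, ← Complex.mul_conj, ext_split hA T hw hn, map_sum,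
    Finset.sum_mul_sum]
  simp only [ext2_tens]

theorem cell_int {m : Measure ℂ} [IsFiniteMeasure m] {A : Y → ℂ → ℂ} {M : ℝ} (hA : Amp M A)
    {χ : ℂ → ℂ} (hχ : Integrable χ) (t T : ℝ) (s : ℂ) {k k' : Y × Y → ℂ} (hk : Bd k)
    (hk' : Bd k') : Integrable fun z => χ z * ext2 m A t k z * ext2 m A T k' (z + s) := by
  obtain ⟨h1, b, h2⟩ := hA.bd_ext2 m t hk
  obtain ⟨h3, b', h4⟩ := (hA.bd_ext2 m T hk').comp (f := fun z : ℂ => z + s) (by fun_prop)
  exact (hχ.mul_bdd h1.aestronglyMeasurable (ae_of_all _ h2)).mul_bdd h3.aestronglyMeasurable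
    (ae_of_all _ h4)

theorem cell_split {m : Measure ℂ} [IsFiniteMeasure m] {A : Y → ℂ → ℂ} {M : ℝ} (hA : Amp M A)
    {χ : ℂ → ℂ} (hχ : Integrable χ) (t T : ℝ) (s : ℂ) {f g : Y → ℂ} (hf : Bd f) (hg : Bd g)
    {n : ℕ} (hn : 1 ≤ n) :
    ∫ z, χ z * ((‖ext m A t f z‖ ^ 2 * (‖ext m A T g z‖ ^ 2 - ‖ext m A T g (z + s)‖ ^ 2) : ℝ) : ℂ)
      = ∑ x : Fin n × Fin n × Fin n × Fin n,
        (XX m A χ t T 0 (tens ((Ik n x.1).indicator f) ((Ik n x.2.1).indicator f))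
            (tens ((Ik n x.2.2.1).indicator g) ((Ik n x.2.2.2).indicator g)) -
          XX m A χ t T s (tens ((Ik n x.1).indicator f) ((Ik n x.2.1).indicator f))
            (tens ((Ik n x.2.2.1).indicator g) ((Ik n x.2.2.2).indicator g))) := by
  have hi : ∀ (s : ℂ) (x : Fin n × Fin n × Fin n × Fin n), Integrable fun z => χ z *
      ext2 m A t (tens ((Ik n x.1).indicator f) ((Ik n x.2.1).indicator f)) z *
      ext2 m A T (tens ((Ik n x.2.2.1).indicator g) ((Ik n x.2.2.2).indicator g)) (z + s) :=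
    fun s x => cell_int hA hχ t T s
      ((hf.indicator (box_Ik n _).meas).tens (hf.indicator (box_Ik n _).meas))
      ((hg.indicator (box_Ik n _).meas).tens (hg.indicator (box_Ik n _).meas))
  unfold XX
  rw [← Finset.sum_congr rfl fun x _ => integral_sub (hi 0 x) (hi s x)]
  refine Eq.trans ?_ (integral_finsetSum _ fun x _ => (hi 0 x).sub (hi s x))
  refine integral_congr_ae (ae_of_all _ fun z => ?_)
  simp only [add_zero]
  rw [ofReal_mul, ofReal_sub, cell_sq hA t hf hn, cell_sq hA T hg hn, cell_sq hA T hg hn]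
  simp only [Fintype.sum_prod_type, Finset.sum_sub_distrib, ← Finset.mul_sum, ← Finset.sum_mul]
  ring

theorem cell_sqrt {m : Measure ℂ} [IsFiniteMeasure m] {w : Y → ℂ} (hw : Bd w) {S S' : Set Y}
    (hS : MeasurableSet S) (hS' : MeasurableSet S') :
    √(n2 (nY m) (S.indicator w)) * √(n2 (nY m) (S'.indicator w)) ≤ n2 (nY m) w := by
  rw [← Real.mul_self_sqrt (n2_nonneg (nY m) w)]
  exact mul_le_mul (Real.sqrt_le_sqrt (n2_indicator_le _ hw hS))
    (Real.sqrt_le_sqrt (n2_indicator_le _ hw hS')) (Real.sqrt_nonneg _) (Real.sqrt_nonneg _)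

open Classical in
/-- the estimate for one box -/
theorem cell_box (M M' N C₀ α : ℝ) (hN : 0 ≤ N) (hC : 0 ≤ C₀)
    (hα : (20 * (C₀ + 1) + 6) * α ≤ 1 / 1000) : ∃ C : ℝ, 0 ≤ C ∧
    ∀ (m : Measure ℂ) [IsFiniteMeasure m] (A : Y → ℂ → ℂ) (χ₁ χ₂ : ℂ → ℂ) (z₀ s : ℂ) (t T : ℝ)
      (wf : Y → ℂ) (ι : Type) (J : Finset ι) (w : ι → Y → ℂ) (θ₁ θ₂ θ₃ θ₄ : ℝ)
      (S₁ S₂ S₃ S₄ : Set Y),
    Cell M M' α m A χ₁ χ₂ z₀ → ‖s‖ ≤ α / 2000 → 1 ≤ t → 1 ≤ T →
    t ≤ C₀ * T → Bd wf → n2 (nY m) wf ≤ N * t → Pack m N T J w →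
    Box θ₁ α S₁ → Box θ₂ α S₂ → Box θ₃ α S₃ → Box θ₄ α S₄ →
    ∑ j ∈ J, ‖XX m A (fun z => χ₁ z * χ₂ z) t T 0 (tens (S₁.indicator wf) (S₂.indicator wf))
        (tens (S₃.indicator (w j)) (S₄.indicator (w j))) -
      XX m A (fun z => χ₁ z * χ₂ z) t T s (tens (S₁.indicator wf) (S₂.indicator wf))
        (tens (S₃.indicator (w j)) (S₄.indicator (w j)))‖ ≤
      C * (T * ‖s‖ ^ (1 / 8 : ℝ) + T / √t + √T) +
      if Sp (20 * (C₀ + 1) * α) (t / T) (ep z₀ θ₁) (ep z₀ θ₂) (ep z₀ θ₃) (ep z₀ θ₄) then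
        2 * α * N * T * M ^ 2 * ((∫ z, ‖χ₁ z * χ₂ z‖ * ‖ext m A t (S₁.indicator wf) z‖ ^ 2) +
          ∫ z, ‖χ₁ z * χ₂ z‖ * ‖ext m A t (S₂.indicator wf) z‖ ^ 2) else 0 := by
  obtain ⟨C1, h1, H1⟩ := box_NR M M' α
  obtain ⟨C2, h2, H2⟩ := box_CR M M' α
  obtain ⟨C3, h3, H3⟩ := box_TT M M' α N
  obtain ⟨C4, h4, H4⟩ := box_TP M M' α N
  refine ⟨2 * C1 * N ^ 2 * C₀ + C2 * N ^ 2 + 2 * C3 * N + 2 * C4 * N, by positivity, ?_⟩
  intro m _ A χ₁ χ₂ z₀ s t T wf ι J w θ₁ θ₂ θ₃ θ₄ S₁ S₂ S₃ S₄ hc hs ht hT htT hwf hn2 hP b1 b2 b3 b4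
  have hα0 := hc.pos
  have hT0 : 0 < T := by linarith
  have ht0 : 0 < t := by linarith
  have h00 : ‖(0 : ℂ)‖ ≤ α / 2000 := by rw [norm_zero]; positivity
  have hin : ∀ {θ : ℝ} {S : Set Y} (_ : Box θ α S) (v : Y → ℂ), In θ α (S.indicator v) :=
    fun hS v y hy => hS.near y (mem_of_indicator_ne_zero hy)
  have hz : z₀ ∈ Up := by
    have h5 := (Complex.abs_im_le_norm (z₀ - I)).trans hc.ctr
    rw [sub_im, I_im, abs_le] at h5
    change 0 < z₀.im
    linarith [h5.1]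
  have d1 := hwf.indicator b1.meas
  have d2 := hwf.indicator b2.meas
  have d3 := fun j hj => (hP.bd j hj).indicator b3.meas
  have d4 := fun j hj => (hP.bd j hj).indicator b4.meas
  have ha : √(n2 (nY m) (S₁.indicator wf)) * √(n2 (nY m) (S₂.indicator wf)) ≤ N * t :=
    (cell_sqrt hwf b1.meas b2.meas).trans hn2
  have hb : ∑ j ∈ J, √(n2 (nY m) (S₃.indicator (w j))) * √(n2 (nY m) (S₄.indicator (w j))) ≤
      N * T ^ 2 :=
    (Finset.sum_le_sum fun j hj => cell_sqrt (hP.bd j hj) b3.meas b4.meas).trans hP.mass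
  have hab : ∑ j ∈ J, √(n2 (nY m) (S₁.indicator wf)) * √(n2 (nY m) (S₂.indicator wf)) *
      (√(n2 (nY m) (S₃.indicator (w j))) * √(n2 (nY m) (S₄.indicator (w j)))) ≤
      N * t * (N * T ^ 2) := by
    rw [← Finset.mul_sum]
    exact mul_le_mul ha hb (Finset.sum_nonneg fun j _ => by positivity) (by positivity)
  have hK : (20 : ℝ) ≤ 20 * (C₀ + 1) := by linarith
  have hsT : 1 ≤ √T := Real.one_le_sqrt.2 hT
  have hst : 0 < √t := Real.sqrt_pos.2 ht0
  set e1 := T * ‖s‖ ^ (1 / 8 : ℝ) with he1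
  set e2 := T / √t with he2
  have p1 : 0 ≤ e1 := by positivity
  have p2 : 0 ≤ e2 := by positivity
  have q1 : 0 ≤ 2 * C1 * N ^ 2 * C₀ := by positivity
  have q2 : 0 ≤ C2 * N ^ 2 := by positivity
  have q3 : 0 ≤ 2 * C3 * N := by positivity
  have q4 : 0 ≤ 2 * C4 * N := by positivity
  have fin : ∀ {x c e : ℝ}, x ≤ c * e → 0 ≤ c → 0 ≤ e →
      c ≤ 2 * C1 * N ^ 2 * C₀ + C2 * N ^ 2 + 2 * C3 * N + 2 * C4 * N → e ≤ e1 + e2 + √T →
      x ≤ (2 * C1 * N ^ 2 * C₀ + C2 * N ^ 2 + 2 * C3 * N + 2 * C4 * N) * (e1 + e2 + √T) :=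
    fun hx hc0 he0 hc1 he1 => hx.trans (mul_le_mul hc1 he1 he0 (hc0.trans hc1))
  have two : ∀ {B : ℝ}, (∀ s' : ℂ, ‖s'‖ ≤ α / 2000 → ∑ j ∈ J, ‖XX m A (fun z => χ₁ z * χ₂ z) t T s'
      (tens (S₁.indicator wf) (S₂.indicator wf))
      (tens (S₃.indicator (w j)) (S₄.indicator (w j)))‖ ≤ B) →
      ∑ j ∈ J, ‖XX m A (fun z => χ₁ z * χ₂ z) t T 0 (tens (S₁.indicator wf) (S₂.indicator wf))
        (tens (S₃.indicator (w j)) (S₄.indicator (w j))) -
      XX m A (fun z => χ₁ z * χ₂ z) t T s (tens (S₁.indicator wf) (S₂.indicator wf))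
        (tens (S₃.indicator (w j)) (S₄.indicator (w j)))‖ ≤ 2 * B := fun h => by
    refine (Finset.sum_le_sum fun j _ => norm_sub_le _ _).trans ?_
    rw [Finset.sum_add_distrib, two_mul]
    exact add_le_add (h 0 h00) (h s hs)
  split_ifs with hsp
  · have h5 := two fun s' _ => box_Sp hc s' hN hT0.le d1 d2 hP b3 b4
    have h6 : 0 ≤ (2 * C1 * N ^ 2 * C₀ + C2 * N ^ 2 + 2 * C3 * N + 2 * C4 * N) *
        (e1 + e2 + √T) := by positivity
    linarith
  rw [add_zero]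
  rcases kinds (η := 20 * (C₀ + 1) * α) (lam := t / T) (p := ep z₀ θ₁) (p' := ep z₀ θ₂)
    (norm_ep θ₃ hz) (norm_ep θ₄ hz) with h | h | h | h | h
  · refine fin (c := 2 * C1 * N ^ 2 * C₀) (e := √T) ((two fun s' hs' => ?_).trans
      (le_of_eq (?_ : 2 * (C1 * N ^ 2 * C₀ * √T) = _))) q1 (by positivity) (by linarith)
      (by linarith)
    · refine (Finset.sum_le_sum fun j hj => H1 m A χ₁ χ₂ z₀ s' C₀ _ t T θ₁ θ₂ θ₃ θ₄ _ _ _ _ hc hs'
        hC le_rfl ht hT htT d1 d2 (d3 j hj) (d4 j hj) (hin b1 _) (hin b2 _) (hin b3 _) (hin b4 _)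
        h).trans ?_
      rw [← Finset.mul_sum]
      refine (mul_le_mul_of_nonneg_left hab (by positivity)).trans ?_
      have h5 : C1 / T ^ 3 * (N * t * (N * T ^ 2)) = C1 * N ^ 2 * (t / T) := by field_simp
      have h6 : t / T ≤ C₀ * √T := by
        exact ((div_le_iff₀ hT0).2 htT).trans (le_mul_of_one_le_right hC (Real.one_le_sqrt.2 hT))
      rw [h5, mul_assoc (C1 * N ^ 2)]
      exact mul_le_mul_of_nonneg_left h6 (by positivity)
    · ring
  · refine fin (c := C2 * N ^ 2) (e := e1) ?_ q2 p1 (by linarith) (by linarith)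
    refine (Finset.sum_le_sum fun j hj => H2 m A χ₁ χ₂ z₀ s _ t T θ₁ θ₂ θ₃ θ₄ _ _ _ _ hc hs
      hK ht hT d1 d2 (d3 j hj) (d4 j hj) (hin b1 _) (hin b2 _) (hin b3 _) (hin b4 _) h).trans ?_
    rw [← Finset.mul_sum]
    refine (mul_le_mul_of_nonneg_left hab (by positivity)).trans (le_of_eq ?_)
    rw [he1]
    field_simp
  · refine fin (c := 2 * C3 * N) (e := √T) ((two fun s' hs' => ?_).trans
      (le_of_eq (?_ : 2 * (C3 * N * √T) = _))) q3 (by positivity) (by linarith) (by linarith)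
    · refine (H3 m A χ₁ χ₂ z₀ s' _ t T θ₁ θ₂ θ₃ θ₄ _ _ ι J w S₃ S₄ hc hs' hK hN ht hT d1 d2
        (hin b1 _) (hin b2 _) hP b3 b4 h.1 h.2).trans ?_
      refine (mul_le_mul_of_nonneg_left ha (by positivity)).trans (le_of_eq ?_)
      field_simp
    · ring
  · refine fin (c := 2 * C4 * N) (e := e2) ((two fun s' hs' => ?_).trans
      (le_of_eq (?_ : 2 * (C4 * N * e2) = _))) q4 p2 (by linarith) (by linarith)
    · refine (H4 m A χ₁ χ₂ z₀ s' _ t T θ₁ θ₂ θ₃ θ₄ _ _ ι J w S₃ S₄ hc hs' hK hα hN ht hT d1 d2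
        (hin b1 _) (hin b2 _) hP b3 b4 h.1 h.2).trans ?_
      refine (mul_le_mul_of_nonneg_left ha (by positivity)).trans (le_of_eq ?_)
      rw [he2]
      field_simp
    · ring
  · exact absurd h hsp

open Classical in
theorem cell_count {n : ℕ} (R : Fin n → Fin n → Fin n → Fin n → Prop)
    (hR : ∀ a b c d, R a b c d → R b a d c) {B c : ℝ} (hc : 0 ≤ c) (I : Fin n → ℝ)
    (hI : ∀ i, 0 ≤ I i) (hB : ∀ i, ((Finset.univ.filter fun x : Fin n × Fin n × Fin n =>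
      R i x.1 x.2.1 x.2.2).card : ℝ) ≤ B) :
    ∑ x : Fin n × Fin n × Fin n × Fin n,
      (if R x.1 x.2.1 x.2.2.1 x.2.2.2 then c * (I x.1 + I x.2.1) else 0) ≤
      2 * c * B * ∑ i, I i := by
  have h1 : ∑ x : Fin n × Fin n × Fin n × Fin n,
      (if R x.1 x.2.1 x.2.2.1 x.2.2.2 then c * I x.1 else 0) ≤ c * B * ∑ i, I i := by
    rw [Fintype.sum_prod_type, Finset.mul_sum]
    refine Finset.sum_le_sum fun i _ => ?_
    simp only
    rw [← Finset.sum_filter, Finset.sum_const, nsmul_eq_mul]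
    have := mul_le_mul_of_nonneg_right (hB i) (mul_nonneg hc (hI i))
    linarith
  let e : Fin n × Fin n × Fin n × Fin n ≃ Fin n × Fin n × Fin n × Fin n :=
    ⟨fun x => (x.2.1, x.1, x.2.2.2, x.2.2.1), fun x => (x.2.1, x.1, x.2.2.2, x.2.2.1),
      fun _ => rfl, fun _ => rfl⟩
  have h2 : ∑ x : Fin n × Fin n × Fin n × Fin n,
      (if R x.1 x.2.1 x.2.2.1 x.2.2.2 then c * I x.2.1 else 0) =
      ∑ x : Fin n × Fin n × Fin n × Fin n,
        (if R x.1 x.2.1 x.2.2.1 x.2.2.2 then c * I x.1 else 0) := by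
    refine Fintype.sum_equiv e _ _ fun x => ?_
    exact if_congr ⟨hR _ _ _ _, hR _ _ _ _⟩ rfl rfl
  have h3 : ∀ x : Fin n × Fin n × Fin n × Fin n,
      (if R x.1 x.2.1 x.2.2.1 x.2.2.2 then c * (I x.1 + I x.2.1) else 0) =
      (if R x.1 x.2.1 x.2.2.1 x.2.2.2 then c * I x.1 else 0) +
        if R x.1 x.2.1 x.2.2.1 x.2.2.2 then c * I x.2.1 else 0 := fun x => by
    split_ifs <;> ring
  simp only [h3, Finset.sum_add_distrib, h2]
  linarith

theorem cell (M N C₀ : ℝ) (hN : 0 ≤ N) (hC : 0 ≤ C₀) : ∃ C₁ : ℝ, 0 ≤ C₁ ∧ ∀ n : ℕ, 1 ≤ n →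
    (20 * (C₀ + 1) + 6) * (2 * Real.pi / n) ≤ 1 / 1000 → ∀ M' : ℝ, ∃ C : ℝ, 0 ≤ C ∧
    ∀ (m : Measure ℂ) [IsFiniteMeasure m] (A : Y → ℂ → ℂ) (χ₁ χ₂ : ℂ → ℂ) (z₀ s : ℂ) (t T : ℝ)
      (wf : Y → ℂ) (ι : Type) (J : Finset ι) (w : ι → Y → ℂ),
    Cell M M' (2 * Real.pi / n) m A χ₁ χ₂ z₀ → ‖s‖ ≤ 2 * Real.pi / n / 2000 → 1 ≤ t → 1 ≤ T →
    t ≤ C₀ * T → Bd wf → n2 (nY m) wf ≤ N * t → Pack m N T J w →
    ∑ j ∈ J, ‖∫ z, χ₁ z * χ₂ z * ((‖ext m A t wf z‖ ^ 2 *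
        (‖ext m A T (w j) z‖ ^ 2 - ‖ext m A T (w j) (z + s)‖ ^ 2) : ℝ) : ℂ)‖ ≤
      C₁ * T / √n * (∑ i : Fin n,
        ∫ z, ‖χ₁ z * χ₂ z‖ * ‖ext m A t ((Ik n i).indicator wf) z‖ ^ 2) +
      C * (T * ‖s‖ ^ (1 / 8 : ℝ) + T / √t + √T) := by
  classical
  obtain ⟨B, hB, HB⟩ := count (20 * (C₀ + 1)) C₀ (by positivity)
  refine ⟨8 * Real.pi * N * M ^ 2 * B, by positivity, fun n hn hα M' => ?_⟩
  obtain ⟨C, hC0, HC⟩ := cell_box M M' N C₀ (2 * Real.pi / n) hN hC hα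
  refine ⟨(n : ℝ) ^ 4 * C, by positivity, ?_⟩
  intro m _ A χ₁ χ₂ z₀ s t T wf ι J w hc hs ht hT htT hwf hn2 hP
  have hT0 : 0 < T := by linarith
  have hn0 : (0 : ℝ) < n := by exact_mod_cast hn
  have hα0 := hc.pos
  have h1 := fun j (hj : j ∈ J) => cell_split (m := m) hc.amp (cell_chi hc) t T s hwf (hP.bd j hj) hn
  refine (Finset.sum_le_sum fun j hj => (congrArg norm (h1 j hj)).le.trans
    (norm_sum_le _ _)).trans ?_
  rw [Finset.sum_comm]
  refine (Finset.sum_le_sum fun x _ => HC m A χ₁ χ₂ z₀ s t T wf ι J w _ _ _ _ _ _ _ _ hc hs ht hT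
    htT hwf hn2 hP (box_Ik n x.1) (box_Ik n x.2.1) (box_Ik n x.2.2.1) (box_Ik n x.2.2.2)).trans ?_
  rw [Finset.sum_add_distrib, add_comm]
  refine add_le_add ?_ (le_of_eq ?_)
  · have h2 := cell_count (fun a b c d : Fin n => Sp (20 * (C₀ + 1) * (2 * Real.pi / n)) (t / T)
      (ep z₀ ((a : ℕ) * (2 * Real.pi / n))) (ep z₀ ((b : ℕ) * (2 * Real.pi / n)))
      (ep z₀ ((c : ℕ) * (2 * Real.pi / n))) (ep z₀ ((d : ℕ) * (2 * Real.pi / n))))
      (fun _ _ _ _ h => sp_swap h) (c := 2 * (2 * Real.pi / n) * N * T * M ^ 2) (by positivity)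
      (fun i => ∫ z, ‖χ₁ z * χ₂ z‖ * ‖ext m A t ((Ik n i).indicator wf) z‖ ^ 2)
      (fun i => integral_nonneg fun z => by positivity)
      (HB n z₀ (t / T) hn hc.ctr (by positivity) ((div_le_iff₀ hT0).2 htT) (by nlinarith))
    refine h2.trans (le_of_eq ?_)
    congr 1
    have h3 : √(n : ℝ) * √(n : ℝ) = n := Real.mul_self_sqrt hn0.le
    have h4 : 0 < √(n : ℝ) := Real.sqrt_pos.2 hn0
    field_simp
    rw [sq √(n : ℝ), h3]
    ring
  · rw [Finset.sum_const, nsmul_eq_mul]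
    simp only [Finset.card_univ, Fintype.card_prod, Fintype.card_fin]
    push_cast
    ring

/-! The local quartic estimate.
`small_t`: `H = ψ ‖F‖²` is Lipschitz with constant `C (M, N, t₀)` (`ext_sup`, `ext_lip`,
`C3.lip`; `ψ` vanishes off the ball of radius `1/200`), the integral equals
`∫ (H z - H (z - s)) ‖G z‖²` (`integral_add_right_eq_self`), and
`∑ ∫ ‖G j‖² ≤ C M² / T * N T²` (`ext_l2`, `Pack.mass`).
`quart`: choose `n` (from `C₁` of `cell` and `ext_l2`, `n2_split`), `κ` from `exists_sq_bump` with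
`ρ = 2π / n / 2000`, `χ₁ = κ (· - z₀) ψ`, `χ₂ = κ (· - z₀)`, `ψ z = ∫ z₀, χ₁ z χ₂ z`
(only `z₀ ∈ closedBall I (1/100)` contribute), Fubini, then `t₀`, then `r`, then `T₀`. -/

theorem quart_shift {H : ℂ → ℂ} (hH : Bd H) {g : ℂ → ℝ} (hg : Integrable g) (h0 : ∀ z, 0 ≤ g z)
    (s : ℂ) {L : ℝ} (hL : ∀ z, ‖H z - H (z - s)‖ ≤ L) :
    ‖∫ z, H z * ((g z - g (z + s) : ℝ) : ℂ)‖ ≤ L * ∫ z, g z := by
  obtain ⟨hm, b, hb⟩ := hH
  have hg' : Integrable fun z => (g z : ℂ) := hg.ofReal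
  have i1 : Integrable fun z => H z * (g z : ℂ) :=
    hg'.bdd_mul hm.aestronglyMeasurable (Eventually.of_forall hb)
  have i2 : Integrable fun z => H z * (g (z + s) : ℂ) :=
    (hg'.comp_add_right s).bdd_mul hm.aestronglyMeasurable (Eventually.of_forall hb)
  have i3 : Integrable fun z => H (z - s) * (g z : ℂ) :=
    hg'.bdd_mul (hm.comp (measurable_id.sub_const s)).aestronglyMeasurable
      (Eventually.of_forall fun z => hb _)
  have e1 : ∫ z, H z * (g (z + s) : ℂ) = ∫ z, H (z - s) * (g z : ℂ) := by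
    rw [← integral_add_right_eq_self (fun z => H (z - s) * (g z : ℂ)) s]
    simp only [add_sub_cancel_right]
  have e2 : ∫ z, H z * ((g z - g (z + s) : ℝ) : ℂ) = ∫ z, (H z - H (z - s)) * (g z : ℂ) := by
    simp only [Complex.ofReal_sub, mul_sub, sub_mul]
    rw [integral_sub i1 i2, integral_sub i1 i3, e1]
  rw [e2, ← integral_const_mul]
  refine norm_integral_le_of_norm_le (hg.const_mul L) (Eventually.of_forall fun z => ?_)
  rw [norm_mul, Complex.norm_real, Real.norm_of_nonneg (h0 z)]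
  exact mul_le_mul_of_nonneg_right (hL z) (h0 z)

theorem quart_bd {M : ℝ} {ψ F : ℂ → ℂ} (hψ : C3 M ψ) (hF : Bd F) :
    Bd fun z => ψ z * ((‖F z‖ ^ 2 : ℝ) : ℂ) := by
  have h1 : Bd ψ := ⟨hψ.cont.measurable, M, hψ.norm_le⟩
  have h2 := h1.mul (hF.mul hF.conj)
  simpa only [Complex.mul_conj, Complex.normSq_eq_norm_sq] using h2

theorem quart_lip {a a' u u' : ℂ} {M S L σ : ℝ} (hM : 0 ≤ M) (hσ : 0 ≤ σ)
    (h1 : ‖a - a'‖ ≤ M * σ) (h2 : ‖a'‖ ≤ M) (h3 : ‖u‖ ≤ S) (h4 : ‖u'‖ ≤ S)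
    (h5 : ‖u - u'‖ ≤ S * L * σ) :
    ‖a * ((‖u‖ ^ 2 : ℝ) : ℂ) - a' * ((‖u'‖ ^ 2 : ℝ) : ℂ)‖ ≤ M * S ^ 2 * (1 + 2 * L) * σ := by
  have hS : 0 ≤ S := (norm_nonneg _).trans h3
  have e : a * ((‖u‖ ^ 2 : ℝ) : ℂ) - a' * ((‖u'‖ ^ 2 : ℝ) : ℂ) =
      (a - a') * ((‖u‖ ^ 2 : ℝ) : ℂ) + a' * (((‖u‖ - ‖u'‖) * (‖u‖ + ‖u'‖) : ℝ) : ℂ) := by
    push_cast; ring
  rw [e]
  refine (norm_add_le _ _).trans ?_
  rw [norm_mul, norm_mul, Complex.norm_real, Complex.norm_real, Real.norm_eq_abs,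
    Real.norm_eq_abs, abs_mul, abs_of_nonneg (sq_nonneg _),
    abs_of_nonneg (add_nonneg (norm_nonneg u) (norm_nonneg u'))]
  have k1 : ‖a - a'‖ * ‖u‖ ^ 2 ≤ M * σ * S ^ 2 :=
    mul_le_mul h1 (pow_le_pow_left₀ (norm_nonneg _) h3 2) (sq_nonneg _) (mul_nonneg hM hσ)
  have k2 : |‖u‖ - ‖u'‖| * (‖u‖ + ‖u'‖) ≤ S * L * σ * (S + S) :=
    mul_le_mul ((abs_norm_sub_norm_le _ _).trans h5) (add_le_add h3 h4)
      (add_nonneg (norm_nonneg u) (norm_nonneg u')) ((norm_nonneg _).trans h5)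
  have k3 := mul_le_mul h2 k2 (by positivity) hM
  calc _ ≤ M * σ * S ^ 2 + M * (S * L * σ * (S + S)) := add_le_add k1 k3
    _ = _ := by ring

theorem small_t (M N t₀ : ℝ) : ∃ C : ℝ, 0 ≤ C ∧ ∀ (m : Measure ℂ) [IsFiniteMeasure m]
    (A : Y → ℂ → ℂ) (ψ : ℂ → ℂ) (s : ℂ) (t T : ℝ) (wf : Y → ℂ) (ι : Type) (J : Finset ι)
    (w : ι → Y → ℂ), m univ ≤ 1 → Amp M A → C3 M ψ → (∀ z, 1 / 200 < ‖z - I‖ → ψ z = 0) →
    ‖s‖ ≤ 1 / 200 → 1 ≤ t → t ≤ t₀ → 1 ≤ T → Bd wf → n2 (nY m) wf ≤ N * t → Pack m N T J w →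
    ∑ j ∈ J, ‖∫ z, ψ z * ((‖ext m A t wf z‖ ^ 2 *
        (‖ext m A T (w j) z‖ ^ 2 - ‖ext m A T (w j) (z + s)‖ ^ 2) : ℝ) : ℂ)‖ ≤ C * ‖s‖ * T := by
  obtain ⟨Ce, hCe, he⟩ := ext_l2
  refine ⟨|M * (9 * M ^ 2 * (N * t₀)) * (1 + 2 * (1 + 4 * t₀)) * (Ce * M ^ 2 * N)|,
    abs_nonneg _, ?_⟩
  intro m _ A ψ s t T wf ι J w hm hA hψ h0 hs ht ht0 hT hwf hn hP
  have hM := hA.nonneg
  have hn0 := n2_nonneg (nY m) wf
  have hN : 0 ≤ N := by
    by_contra h
    have := mul_neg_of_neg_of_pos (not_le.1 h) (by linarith : 0 < t)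
    linarith
  have hT0 : 0 < T := by linarith
  set S := 3 * M * √(n2 (nY m) wf) with hSd
  set L := M * (9 * M ^ 2 * (N * t₀)) * (1 + 2 * (1 + 4 * t₀)) with hLd
  have hS2 : S ^ 2 ≤ 9 * M ^ 2 * (N * t₀) := by
    have e : S ^ 2 = 9 * M ^ 2 * n2 (nY m) wf := by
      rw [hSd, mul_pow, mul_pow, Real.sq_sqrt hn0]; ring
    rw [e]
    exact mul_le_mul_of_nonneg_left (hn.trans (mul_le_mul_of_nonneg_left ht0 hN)) (by positivity)
  have hL0 : 0 ≤ L := by
    have : 0 ≤ t₀ := by linarith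
    positivity
  have hlip : ∀ z, ‖ψ z * ((‖ext m A t wf z‖ ^ 2 : ℝ) : ℂ) -
      ψ (z - s) * ((‖ext m A t wf (z - s)‖ ^ 2 : ℝ) : ℂ)‖ ≤ L * ‖s‖ := by
    intro z
    have tri : ‖z - I‖ ≤ ‖z - s - I‖ + ‖s‖ := by
      have : z - I = (z - s - I) + s := by ring
      rw [this]; simpa using norm_add_le (z - s - I) s
    have tri' : ‖z - s - I‖ ≤ ‖z - I‖ + ‖s‖ := by
      have : z - s - I = (z - I) - s := by ring
      rw [this]; exact norm_sub_le _ _
    by_cases hz : 1 / 100 < ‖z - I‖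
    · rw [h0 z (by linarith), h0 (z - s) (by linarith)]
      simp only [zero_mul, sub_self, norm_zero]
      positivity
    · have hz1 : ‖z - I‖ ≤ 1 / 10 := by linarith [not_lt.1 hz]
      have hz2 : ‖z - s - I‖ ≤ 1 / 10 := by linarith [not_lt.1 hz]
      have e : z - (z - s) = s := by ring
      have h1 := hψ.lip z (z - s)
      have h5 := ext_lip hm hA (by linarith : 0 ≤ t) hwf hz1 hz2
      rw [e] at h1 h5
      refine (quart_lip (L := 1 + 4 * t) hM (norm_nonneg s) h1 (hψ.norm_le _)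
        (ext_sup hm hA t hwf z) (ext_sup hm hA t hwf (z - s)) (h5.trans (le_of_eq (by ring)))).trans
        (mul_le_mul_of_nonneg_right ?_ (norm_nonneg _))
      exact mul_le_mul (mul_le_mul_of_nonneg_left hS2 hM) (by linarith) (by linarith)
        (mul_nonneg hM ((sq_nonneg S).trans hS2))
  have hj : ∀ j ∈ J, ‖∫ z, ψ z * ((‖ext m A t wf z‖ ^ 2 *
        (‖ext m A T (w j) z‖ ^ 2 - ‖ext m A T (w j) (z + s)‖ ^ 2) : ℝ) : ℂ)‖ ≤
      L * ‖s‖ * (Ce * M ^ 2 / T) * n2 (nY m) (w j) := by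
    intro j hj
    have h1 := quart_shift (quart_bd hψ (hA.bd_ext m t hwf))
      (integrable_ext_sq (m := m) hA T (hP.bd j hj)) (fun z => sq_nonneg _) s hlip
    have h2 := he m A M T (w j) hm hA hT0 (hP.bd j hj)
    simp only [Complex.ofReal_mul, ← mul_assoc]
    refine h1.trans ?_
    rw [mul_assoc (L * ‖s‖)]
    exact mul_le_mul_of_nonneg_left h2 (by positivity)
  refine (Finset.sum_le_sum hj).trans ?_
  rw [← Finset.mul_sum]
  calc L * ‖s‖ * (Ce * M ^ 2 / T) * ∑ j ∈ J, n2 (nY m) (w j)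
      ≤ L * ‖s‖ * (Ce * M ^ 2 / T) * (N * T ^ 2) :=
        mul_le_mul_of_nonneg_left hP.mass (by positivity)
    _ = L * (Ce * M ^ 2 * N) * ‖s‖ * T := by field_simp
    _ ≤ _ := by
        refine mul_le_mul_of_nonneg_right (mul_le_mul_of_nonneg_right (le_abs_self _)
          (norm_nonneg _)) hT0.le

theorem quart_prod {V : Type} [NormedAddCommGroup V] [NormedSpace ℝ V] {k : ℂ → ℝ}
    (hk : Integrable k) {D : ℂ → V} (hD : Integrable D) :
    Integrable (fun p : ℂ × ℂ => k (p.2 - p.1) • D p.2) (volume.prod volume) := by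
  have h := hD.convolution_integrand (ContinuousLinearMap.lsmul ℝ ℝ).flip hk.comp_neg
    (μ := volume)
  simpa using h

theorem quart_avg {V : Type} [NormedAddCommGroup V] [NormedSpace ℝ V] [CompleteSpace V]
    {k : ℂ → ℝ} (hk : Integrable k) (h1 : ∫ z, k z = 1) {D : ℂ → V} (hD : Integrable D) :
    ∫ z₀, ∫ z, k (z - z₀) • D z = ∫ z, D z := by
  rw [integral_integral_swap (f := fun z₀ z => k (z - z₀) • D z) (quart_prod hk hD)]
  refine integral_congr_ae (Eventually.of_forall fun z => ?_)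
  simp only
  rw [integral_smul_const, integral_sub_left_eq_self k volume z, h1, one_smul]

theorem quart_int {V : Type} [NormedAddCommGroup V] {f : ℂ → V} (hf : AEStronglyMeasurable f)
    {b r : ℝ} {c : ℂ} (hb : ∀ z, ‖f z‖ ≤ b) (h0 : ∀ z, r < ‖z - c‖ → f z = 0) : Integrable f := by
  refine IntegrableOn.integrable_of_forall_notMem_eq_zero (s := Metric.closedBall c r) ?_ ?_
  · exact Measure.integrableOn_of_bounded measure_closedBall_lt_top.ne hf
      (Eventually.of_forall hb)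
  · intro z hz
    exact h0 z (by simpa [dist_eq_norm] using hz)

/-- the averaging over cells -/
theorem quart_cells {ι κ : Type} (J : Finset ι) (K : Finset κ) {k : ℂ → ℝ} (hk : Integrable k)
    (h1 : ∫ z, k z = 1) {D : ι → ℂ → ℂ} (hD : ∀ j ∈ J, Integrable (D j)) {R : κ → ℂ → ℝ}
    (hR : ∀ i ∈ K, Integrable (R i)) {a b : ℝ} {B : Set ℂ} (hB : MeasurableSet B)
    (hf : volume B ≠ ⊤)
    (h : ∀ z₀, ∑ j ∈ J, ‖∫ z, k (z - z₀) • D j z‖ ≤
      a * (∑ i ∈ K, ∫ z, k (z - z₀) • R i z) + B.indicator (fun _ => b) z₀) :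
    ∑ j ∈ J, ‖∫ z, D j z‖ ≤ a * (∑ i ∈ K, ∫ z, R i z) + volume.real B * b := by
  have i1 : ∀ j ∈ J, Integrable fun z₀ => ‖∫ z, k (z - z₀) • D j z‖ := fun j hj =>
    (quart_prod hk (hD j hj)).integral_prod_left.norm
  have i2 : ∀ i ∈ K, Integrable fun z₀ => ∫ z, k (z - z₀) • R i z := fun i hi =>
    (quart_prod hk (hR i hi)).integral_prod_left
  have i3 : Integrable (B.indicator fun _ => b) :=
    (integrable_indicator_iff hB).2 (integrableOn_const hf)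
  have i4 := (integrable_finsetSum K i2).const_mul a
  calc ∑ j ∈ J, ‖∫ z, D j z‖ ≤ ∑ j ∈ J, ∫ z₀, ‖∫ z, k (z - z₀) • D j z‖ := by
        refine Finset.sum_le_sum fun j hj => ?_
        rw [← quart_avg hk h1 (hD j hj)]
        exact norm_integral_le_integral_norm _
    _ = ∫ z₀, ∑ j ∈ J, ‖∫ z, k (z - z₀) • D j z‖ := (integral_finsetSum J i1).symm
    _ ≤ ∫ z₀, (a * (∑ i ∈ K, ∫ z, k (z - z₀) • R i z) + B.indicator (fun _ => b) z₀) :=
        integral_mono (integrable_finsetSum J i1) (i4.add i3) h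
    _ = _ := by
        rw [integral_add i4 i3, integral_const_mul, integral_finsetSum K i2,
          integral_indicator_const _ hB, smul_eq_mul]
        congr 2
        exact Finset.sum_congr rfl fun i hi => quart_avg hk h1 (hR i hi)

theorem quart_big (M N C₀ : ℝ) (hN : 0 ≤ N) (hC : 0 ≤ C₀) : ∃ C₂ : ℝ, 0 ≤ C₂ ∧ ∀ n : ℕ, 1 ≤ n →
    (20 * (C₀ + 1) + 6) * (2 * Real.pi / n) ≤ 1 / 1000 → ∃ C : ℝ, 0 ≤ C ∧
    ∀ (m : Measure ℂ) [IsFiniteMeasure m] (A : Y → ℂ → ℂ) (ψ : ℂ → ℂ) (s : ℂ) (t T : ℝ)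
    (wf : Y → ℂ) (ι : Type) (J : Finset ι) (w : ι → Y → ℂ),
    m univ ≤ 1 → Amp M A → C3 M ψ → (∀ z, 1 / 200 < ‖z - I‖ → ψ z = 0) →
    ‖s‖ ≤ 2 * Real.pi / n / 2000 → 1 ≤ T →
    1 ≤ t → t ≤ C₀ * T → Bd wf → n2 (nY m) wf ≤ N * t → Pack m N T J w →
    ∑ j ∈ J, ‖∫ z, ψ z * ((‖ext m A t wf z‖ ^ 2 *
        (‖ext m A T (w j) z‖ ^ 2 - ‖ext m A T (w j) (z + s)‖ ^ 2) : ℝ) : ℂ)‖ ≤
      C₂ * T / √n + C * (T * ‖s‖ ^ (1 / 8 : ℝ) + T / √t + √T) := by
  obtain ⟨C₁, hC₁, hc⟩ := cell M N C₀ hN hC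
  obtain ⟨Ce, hCe, he⟩ := ext_l2
  refine ⟨C₁ * |M * (Ce * M ^ 2 * N)|, by positivity, fun n hn hs0 => ?_⟩
  have hn0 : (0 : ℝ) < n := by exact_mod_cast hn
  set α := 2 * Real.pi / n with hα
  have hα0 : 0 < α := by positivity
  have hα1 : α ≤ 1 := by nlinarith [mul_nonneg hC hα0.le]
  obtain ⟨Mκ, κ, hκ, hκ0, hκ1⟩ := exists_sq_bump (ρ := α / 2000) (by positivity)
  obtain ⟨C, hC0, hcc⟩ := hc n hn hs0 (max (8 * Mκ * M) Mκ)
  refine ⟨volume.real (Metric.closedBall I (1 / 100)) * C, by positivity, ?_⟩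
  intro m _ A ψ s t T wf ι J w hm hA hψ h0 hs hT ht htT hwf hnf hP
  have hM := hA.nonneg
  have hκc : Continuous κ := by
    have := Complex.continuous_re.comp hκ.cont
    simpa [Function.comp_def] using this
  have hk : Integrable fun z => κ z ^ 2 := by
    refine quart_int (hκc.pow 2).aestronglyMeasurable (b := Mκ ^ 2) (r := α / 2000) (c := 0)
      (fun z => ?_) (fun z hz => ?_)
    · rw [norm_pow]
      exact pow_le_pow_left₀ (norm_nonneg _) (by simpa using hκ.norm_le z) 2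
    · rw [hκ0 z (by simpa using hz)]; simp
  have hF := hA.bd_ext m t hwf
  have hD : ∀ j ∈ J, Integrable fun z => ψ z * ((‖ext m A t wf z‖ ^ 2 *
        (‖ext m A T (w j) z‖ ^ 2 - ‖ext m A T (w j) (z + s)‖ ^ 2) : ℝ) : ℂ) := by
    intro j hj
    have hg := integrable_ext_sq (m := m) hA T (hP.bd j hj)
    obtain ⟨hm', b, hb⟩ := quart_bd hψ hF
    have := (hg.sub (hg.comp_add_right s)).ofReal (𝕜 := ℂ) |>.bdd_mul hm'.aestronglyMeasurable
      (Eventually.of_forall hb)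
    simp only [Complex.ofReal_mul, ← mul_assoc]
    exact this
  have hI : ∀ i : Fin n, Bd ((Ik n i).indicator wf) := fun i => hwf.indicator (box_Ik n i).meas
  have hR : ∀ i ∈ (Finset.univ : Finset (Fin n)), Integrable fun z =>
      ‖ψ z‖ * ‖ext m A t ((Ik n i).indicator wf) z‖ ^ 2 := fun i _ =>
    (integrable_ext_sq (m := m) hA t (hI i)).bdd_mul (c := M) hψ.cont.norm.aestronglyMeasurable
      (Eventually.of_forall fun z => by simpa using hψ.norm_le z)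
  have hT0 : 0 < T := by linarith
  have ht0 : 0 < t := by linarith
  have key := quart_cells J Finset.univ hk hκ1 hD hR (a := C₁ * T / √n)
    (b := C * (T * ‖s‖ ^ (1 / 8 : ℝ) + T / √t + √T)) (B := Metric.closedBall I (1 / 100))
    measurableSet_closedBall measure_closedBall_lt_top.ne ?_
  · refine key.trans (add_le_add ?_ (le_of_eq (by ring)))
    have h1 : ∀ i ∈ (Finset.univ : Finset (Fin n)),
        ∫ z, ‖ψ z‖ * ‖ext m A t ((Ik n i).indicator wf) z‖ ^ 2 ≤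
          M * (Ce * M ^ 2 / t) * n2 (nY m) ((Ik n i).indicator wf) := by
      intro i hi
      have h2 := he m A M t _ hm hA ht0 (hI i)
      rw [mul_assoc]
      refine le_trans ?_ (mul_le_mul_of_nonneg_left h2 hM)
      rw [← integral_const_mul]
      exact integral_mono (hR i hi) ((integrable_ext_sq (m := m) hA t (hI i)).const_mul M)
        fun z => mul_le_mul_of_nonneg_right (hψ.norm_le z) (sq_nonneg _)
    have h3 := Finset.sum_le_sum h1
    rw [← Finset.mul_sum, n2_split hwf hn] at h3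
    have h4 : M * (Ce * M ^ 2 / t) * n2 (nY m) wf ≤ |M * (Ce * M ^ 2 * N)| :=
      calc _ ≤ M * (Ce * M ^ 2 / t) * (N * t) := mul_le_mul_of_nonneg_left hnf (by positivity)
        _ = M * (Ce * M ^ 2 * N) := by field_simp
        _ ≤ _ := le_abs_self _
    calc _ ≤ C₁ * T / √n * |M * (Ce * M ^ 2 * N)| :=
          mul_le_mul_of_nonneg_left (h3.trans h4) (by positivity)
      _ = _ := by ring
  · intro z₀
    have hκs : C3 Mκ fun z => (κ (z - z₀) : ℂ) := by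
      simpa only [sub_eq_add_neg] using hκ.shift (-z₀)
    by_cases hz : z₀ ∈ Metric.closedBall I (1 / 100)
    · have hcell : Cell M (max (8 * Mκ * M) Mκ) α m A (fun z => (κ (z - z₀) : ℂ) * ψ z)
          (fun z => (κ (z - z₀) : ℂ)) z₀ :=
        ⟨hm, hA, hα0, hα1, (hκs.mul hψ).mono (le_max_left _ _), hκs.mono (le_max_right _ _),
          fun z hz => by simp [hκ0 _ hz], fun z hz => by simp [hκ0 _ hz],
          by simpa [dist_eq_norm] using hz⟩
      have := hcc m A _ _ z₀ s t T wf ι J w hcell hs ht hT htT hwf hnf hP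
      rw [indicator_of_mem hz]
      convert this using 6 with j hj z i hi z
      · rw [Complex.real_smul]; push_cast; ring
      · simp only [smul_eq_mul, norm_mul, Complex.norm_real, Real.norm_eq_abs]
        rw [← sq_abs (κ _)]; ring
    · have hz' : 1 / 100 < ‖z₀ - I‖ := by simpa [dist_eq_norm] using hz
      have hv : ∀ z, κ (z - z₀) = 0 ∨ ψ z = 0 := by
        intro z
        by_cases h1 : α / 2000 < ‖z - z₀‖
        · exact Or.inl (hκ0 _ h1)
        · refine Or.inr (h0 z ?_)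
          have : ‖z₀ - I‖ ≤ ‖z - I‖ + ‖z - z₀‖ := by
            have e : z₀ - I = (z - I) - (z - z₀) := by ring
            rw [e]; exact norm_sub_le _ _
          linarith [not_lt.1 h1]
      rw [indicator_of_notMem hz, add_zero]
      refine le_trans (le_of_eq (Finset.sum_eq_zero fun j _ => ?_)) (mul_nonneg (by positivity)
        (Finset.sum_nonneg fun i _ => integral_nonneg fun z => ?_))
      · rw [norm_eq_zero]
        refine integral_eq_zero_of_ae (Eventually.of_forall fun z => ?_)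
        rcases hv z with h | h <;> simp [h]
      · simp only [smul_eq_mul, Pi.zero_apply]
        positivity

theorem quart_div {a ε x : ℝ} (hε : 0 < ε) (hx : (a / ε) ^ 2 + 1 ≤ x) :
    a / √x ≤ ε := by
  have h0 : 0 < x := by nlinarith [sq_nonneg (a / ε)]
  have h1 : a / ε ≤ √x := Real.le_sqrt_of_sq_le (by linarith)
  rw [div_le_iff₀ (Real.sqrt_pos.2 h0)]
  rw [div_le_iff₀ hε] at h1
  linarith

theorem quart (M N C₀ ε : ℝ) (hε : 0 < ε) : ∃ r : ℝ, 0 < r ∧ r ≤ 1 / 200 ∧ ∃ T₀ : ℝ,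
    ∀ (m : Measure ℂ) [IsFiniteMeasure m] (A : Y → ℂ → ℂ) (ψ : ℂ → ℂ) (s : ℂ) (t T : ℝ)
    (wf : Y → ℂ) (ι : Type) (J : Finset ι) (w : ι → Y → ℂ),
    m univ ≤ 1 → Amp M A → C3 M ψ → (∀ z, 1 / 200 < ‖z - I‖ → ψ z = 0) → ‖s‖ ≤ r → T₀ ≤ T →
    1 ≤ t → t ≤ C₀ * T → Bd wf → n2 (nY m) wf ≤ N * t → Pack m N T J w →
    ∑ j ∈ J, ‖∫ z, ψ z * ((‖ext m A t wf z‖ ^ 2 *
        (‖ext m A T (w j) z‖ ^ 2 - ‖ext m A T (w j) (z + s)‖ ^ 2) : ℝ) : ℂ)‖ ≤ ε * T := by
  obtain ⟨C₂, hC₂, hb⟩ := quart_big M |N| |C₀| (abs_nonneg _) (abs_nonneg _)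
  have hε4 : 0 < ε / 4 := by positivity
  obtain ⟨n, hn⟩ := exists_nat_ge (max ((C₂ / (ε / 4)) ^ 2 + 1)
    (1000 * ((20 * (|C₀| + 1) + 6) * (2 * Real.pi))))
  have hn1 := (le_max_left _ _).trans hn
  have hn2 := (le_max_right _ _).trans hn
  have hn3 : (1 : ℝ) ≤ n := by nlinarith [sq_nonneg (C₂ / (ε / 4))]
  have hn0 : (0 : ℝ) < n := by linarith
  obtain ⟨C, hC, hb⟩ := hb n (by exact_mod_cast hn3) (by
    rw [← mul_div_assoc, div_le_iff₀ hn0]; linarith)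
  obtain ⟨C', hC', hsm⟩ := small_t M N ((C / (ε / 4)) ^ 2 + 1)
  refine ⟨min (min (1 / 200) (2 * Real.pi / n / 2000))
    (min (ε / (C' + 1)) ((ε / 4 / (C + 1)) ^ 8)), by positivity,
    (min_le_left _ _).trans (min_le_left _ _), (C / (ε / 4)) ^ 2 + 1, ?_⟩
  intro m _ A ψ s t T wf ι J w hm hA hψ h0 hs hT ht htT hwf hnf hP
  simp only [le_min_iff] at hs
  obtain ⟨⟨s1, s2⟩, s3, s4⟩ := hs
  have hT1 : 1 ≤ T := by linarith [sq_nonneg (C / (ε / 4))]
  have hT0 : 0 < T := by linarith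
  rcases le_total t ((C / (ε / 4)) ^ 2 + 1) with h | h
  · refine (hsm m A ψ s t T wf ι J w hm hA hψ h0 s1 ht h hT1 hwf hnf hP).trans
      (mul_le_mul_of_nonneg_right ?_ hT0.le)
    rw [le_div_iff₀ (by positivity)] at s3
    linarith [norm_nonneg s]
  · have hN : 0 ≤ N := by
      by_contra h
      have := mul_neg_of_neg_of_pos (not_le.1 h) (by linarith : 0 < t)
      linarith [n2_nonneg (nY m) wf]
    have hb' := hb m A ψ s t T wf ι J w hm hA hψ h0 s2 hT1 ht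
      (htT.trans (mul_le_mul_of_nonneg_right (le_abs_self _) hT0.le)) hwf
      (by rwa [abs_of_nonneg hN]) (by rwa [abs_of_nonneg hN])
    refine hb'.trans ?_
    have a1 := quart_div hε4 hn1
    have a2 := quart_div hε4 h
    have a3 := quart_div hε4 hT
    have a4 : C * ‖s‖ ^ (1 / 8 : ℝ) ≤ ε / 4 := by
      have b1 : ‖s‖ ^ (1 / 8 : ℝ) ≤ ε / 4 / (C + 1) := by
        refine (Real.rpow_le_rpow (norm_nonneg _) s4 (by norm_num)).trans (le_of_eq ?_)
        rw [← Real.rpow_natCast, ← Real.rpow_mul (by positivity)]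
        norm_num
      rw [le_div_iff₀ (by positivity)] at b1
      linarith [Real.rpow_nonneg (norm_nonneg s) (1 / 8 : ℝ)]
    have e : C₂ * T / √n + C * (T * ‖s‖ ^ (1 / 8 : ℝ) + T / √t + √T) =
        (C₂ / √n + C * ‖s‖ ^ (1 / 8 : ℝ) + C / √t + C / √T) * T := by
      have b2 : C / √T * T = C * √T := by
        rw [div_mul_eq_mul_div, mul_div_assoc, Real.div_sqrt]
      rw [add_mul, b2]; ring
    rw [e]
    exact mul_le_mul_of_nonneg_right (by linarith) hT0.le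

end Pool.Agent.MP_a28cf0_nt.Dec

end

-- part MP_a28cf0_nt.Dec.Main
section

set_option autoImplicit false

namespace Pool.Agent.MP_a28cf0_nt.Dec

open MeasureTheory Complex Filter Topology Set
open scoped ENNReal MatrixGroups ComplexConjugate
open Pool.Agent.MP_a28cf0_nt.Cub

/-! The local theorem for eigenfunctions: apply `quart` with `m = mU`, `A = A0`, the parameter
`max t 1` for `f` (`|t - max t 1| ≤ 1`), `wf = Wf / hh`, and `rep` at the points `z`, `z + s`. -/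

theorem loc_c3_mono {M M' : ℝ} {χ : ℂ → ℂ} (h : C3 M χ) (hM : M ≤ M') : C3 M' χ :=
  ⟨h.c3, fun k hk z => (h.bd k hk z).trans hM⟩

theorem loc_amp_mono {M M' : ℝ} {A : Y → ℂ → ℂ} (h : Amp M A) (hM : M ≤ M') : Amp M' A :=
  ⟨h.meas, fun y => loc_c3_mono (h.c3 y) hM, h.supp⟩

theorem loc_n2_nonneg {X : Type} [MeasurableSpace X] (μ : Measure X) (w : X → ℂ) : 0 ≤ n2 μ w :=
  integral_nonneg fun _ => sq_nonneg _

theorem loc_pack_mono {m : Measure ℂ} {N N' T : ℝ} {ι : Type} {J : Finset ι} {w : ι → Y → ℂ}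
    (h : Pack m N T J w) (hN : N ≤ N') (hT : 0 ≤ T) : Pack m N' T J w :=
  ⟨h.bd, fun k hk => (h.bes k hk).trans
      (mul_le_mul_of_nonneg_right (mul_le_mul_of_nonneg_right hN hT) (loc_n2_nonneg _ _)),
    h.mass.trans (mul_le_mul_of_nonneg_right hN (sq_nonneg _))⟩

theorem loc_bd_div {X : Type} [MeasurableSpace X] {w : X → ℂ} (h : Bd w) (c : ℂ) :
    Bd fun y => w y / c := by
  obtain ⟨M, hM⟩ := h.bd
  refine ⟨h.meas.div_const c, M / ‖c‖, fun y => ?_⟩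
  rw [norm_div]
  exact div_le_div_of_nonneg_right (hM y) (norm_nonneg _)

theorem loc_n2_div {X : Type} [MeasurableSpace X] (μ : Measure X) (w : X → ℂ) (c : ℂ) :
    n2 μ (fun y => w y / c) = n2 μ w / ‖c‖ ^ 2 := by
  unfold n2
  rw [← integral_div]
  congr 1
  funext y
  rw [norm_div, div_pow]

theorem loc_ext_div (m : Measure ℂ) (A : Y → ℂ → ℂ) (T : ℝ) (w : Y → ℂ) (c z : ℂ) :
    ext m A T (fun y => w y / c) z = ext m A T w z / c := by
  unfold ext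
  rw [← integral_div]
  congr 1
  funext y
  rw [mul_div_assoc]

theorem loc_rep {t T c : ℝ} {F : ℂ → ℝ} (h : Eig t F) (hc : 0 < c) (hT : 1 ≤ T)
    (hl : c / T ≤ ‖hh T t‖) {z : ℂ} (hz : ‖z - I‖ ≤ 1 / 100) :
    ‖ext mU A0 T (fun y => Wf T F y / hh T t) z‖ ^ 2 = F z ^ 2 := by
  have hne : hh T t ≠ 0 := by
    intro h0
    rw [h0, norm_zero] at hl
    have : 0 < c / T := div_pos hc (by linarith)
    linarith
  rw [loc_ext_div, rep h T hz, mul_div_cancel_left₀ _ hne, Complex.norm_real, Real.norm_eq_abs,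
    sq_abs]

theorem loc_num {C N c τ x h n : ℝ} (hC : 0 ≤ C) (hN : 0 ≤ N) (hc : 0 < c) (hτ : 1 ≤ τ)
    (hl : c / τ ≤ h) (hx : x ≤ N) (hn : n ≤ C / τ * x) :
    n / h ^ 2 ≤ C * N / c ^ 2 * τ := by
  have hτ0 : 0 < τ := by linarith
  have h0 : 0 < c / τ := div_pos hc hτ0
  have h1 : n ≤ C / τ * N := hn.trans (mul_le_mul_of_nonneg_left hx (div_nonneg hC hτ0.le))
  have h2 : (c / τ) ^ 2 ≤ h ^ 2 := pow_le_pow_left₀ h0.le hl 2
  calc n / h ^ 2 ≤ (C / τ * N) / h ^ 2 := div_le_div_of_nonneg_right h1 (sq_nonneg _)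
    _ ≤ (C / τ * N) / (c / τ) ^ 2 :=
      div_le_div_of_nonneg_left (mul_nonneg (div_nonneg hC hτ0.le) hN) (pow_pos h0 2) h2
    _ = C * N / c ^ 2 * τ := by field_simp

theorem loc (M N C₀ ε : ℝ) (hN : 0 ≤ N) (hε : 0 < ε) : ∃ r : ℝ, 0 < r ∧ r ≤ 1 / 200 ∧ ∃ T₀ : ℝ,
    ∀ (ψ : ℂ → ℂ) (s : ℂ) (t T : ℝ) (f : ℂ → ℝ) (ι : Type) (J : Finset ι) (G : ι → ℂ → ℝ)
    (tg : ι → ℝ), C3 M ψ → (∀ z, 1 / 200 < ‖z - I‖ → ψ z = 0) → ‖s‖ ≤ r → T₀ ≤ T → 0 ≤ t →
    t ≤ C₀ * T → Eig t f → ∫ z in B0, f z ^ 2 ≤ N →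
    (∀ j ∈ J, Eig (tg j) (G j) ∧ |tg j - T| ≤ 1) → Bes N J G →
    ∑ j ∈ J, ‖∫ z, ψ z * ((f z ^ 2 * (G j z ^ 2 - G j (z + s) ^ 2) : ℝ) : ℂ)‖ ≤ ε * T := by
  obtain ⟨MA, hA⟩ := amp_A0
  obtain ⟨c, hc, hlow⟩ := hh_lower
  obtain ⟨C1, hC1, hW⟩ := n2_Wf
  obtain ⟨C2, hC2, hP⟩ := pack
  obtain ⟨r, hr0, hr1, T₀, hq⟩ :=
    quart (max M MA) (max (C1 * N / c ^ 2) (C2 * N)) (max C₀ 1) ε hε
  refine ⟨r, hr0, hr1, max T₀ 1, ?_⟩
  intro ψ s t T f ι J G tg hψ hs0 hs hT ht0 htT hf hfN hG hB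
  have hT1 : 1 ≤ T := (le_max_right _ _).trans hT
  have hT0 : T₀ ≤ T := (le_max_left _ _).trans hT
  have hτ1 : 1 ≤ max t 1 := le_max_right _ _
  have hτt : |t - max t 1| ≤ 1 := by
    rcases le_total t 1 with h | h
    · rw [max_eq_right h, abs_le]
      constructor <;> linarith
    · rw [max_eq_left h, sub_self, abs_zero]
      exact zero_le_one
  have hτT : max t 1 ≤ max C₀ 1 * T := by
    refine max_le (htT.trans (mul_le_mul_of_nonneg_right (le_max_left _ _) (by linarith))) ?_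
    calc (1 : ℝ) ≤ 1 * T := by linarith
      _ ≤ max C₀ 1 * T := mul_le_mul_of_nonneg_right (le_max_right _ _) (by linarith)
  have hn : n2 (nY mU) (fun y => Wf (max t 1) f y / hh (max t 1) t) ≤
      max (C1 * N / c ^ 2) (C2 * N) * max t 1 := by
    rw [loc_n2_div]
    refine (loc_num hC1 hN hc hτ1 (hlow _ _ hτ1 hτt) hfN (hW t _ f hf (by linarith))).trans ?_
    exact mul_le_mul_of_nonneg_right (le_max_left _ _) (by linarith)
  have key := hq mU A0 ψ s (max t 1) T (fun y => Wf (max t 1) f y / hh (max t 1) t) ι J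
    (fun j y => Wf T (G j) y / hh T (tg j)) mU_univ (loc_amp_mono hA (le_max_right _ _))
    (loc_c3_mono hψ (le_max_left _ _)) hs0 hs hT0 hτ1 hτT (loc_bd_div (bd_Wf hf _) _) hn
    (loc_pack_mono (hP N T ι J G tg hN hT1 hG hB) (le_max_right _ _) (by linarith))
  refine le_of_eq_of_le (Finset.sum_congr rfl fun j hj => ?_) key
  congr 1
  refine integral_congr_ae (Eventually.of_forall fun z => ?_)
  by_cases hz : 1 / 200 < ‖z - I‖
  · simp only [hs0 z hz, zero_mul]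
  · have hz1 : ‖z - I‖ ≤ 1 / 200 := not_lt.mp hz
    have hz2 : ‖z - I‖ ≤ 1 / 100 := by linarith
    have hz3 : ‖z + s - I‖ ≤ 1 / 100 := by
      have e : z + s - I = (z - I) + s := by ring
      rw [e]
      have := norm_add_le (z - I) s
      linarith
    have hj1 := hlow T (tg j) hT1 (hG j hj).2
    simp only [loc_rep hf hc hτ1 (hlow _ _ hτ1 hτt) hz2, loc_rep (hG j hj).1 hc hT1 hj1 hz2,
      loc_rep (hG j hj).1 hc hT1 hj1 hz3]

/-! The decoupling theorem. -/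

/-- the local theorem summed over the spectral windows -/
theorem main_win (M N : ℝ) (hN : 0 ≤ N) {d ε : ℝ} (hd : 0 < d) (hε : 0 < ε) : ∃ r : ℝ, 0 < r ∧
    r ≤ 1 / 200 ∧ ∃ T₀ : ℝ, ∀ (χ : ℂ → ℂ) (u : ℂ) (tf T : ℝ) (f : ℂ → ℝ) (ι : Type) (s : Finset ι)
    (G : ι → ℂ → ℝ) (t : ι → ℝ), C3 M χ → (∀ z, 1 / 200 < ‖z - I‖ → χ z = 0) → ‖u‖ ≤ r →
    T₀ ≤ T → 0 ≤ tf → tf ≤ T → Eig tf f → ∫ z in B0, f z ^ 2 ≤ N →
    (∀ j ∈ s, Eig (t j) (G j) ∧ d * T ≤ t j ∧ t j ≤ T) → Bes N s G →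
    ∑ j ∈ s, ‖∫ z, χ z * ((f z ^ 2 * (G j z ^ 2 - G j (z + u) ^ 2) : ℝ) : ℂ)‖ ≤ ε * T ^ 2 := by
  classical
  obtain ⟨r, hr, hr', T₀, h⟩ := loc M N (2 / d) ε hN hε
  refine ⟨r, hr, hr', max 1 (2 * (|T₀| + 1) / d),
    fun χ u tf T f ι s G t hχ h0 hu hT h1 h2 hf hl hG hB => ?_⟩
  have hT1 : 1 ≤ T := (le_max_left _ _).trans hT
  have hT2 : 2 * (|T₀| + 1) ≤ T * d := (div_le_iff₀ hd).1 ((le_max_right _ _).trans hT)
  have hw : ∀ j ∈ s, 1 ≤ wn (t j) ∧ (wn (t j) : ℝ) ≤ T ∧ |t j - wn (t j)| ≤ 1 := fun j hj =>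
    wn_bd (le_trans (by positivity) (hG j hj).2.1) (hG j hj).2.2 hT1
  rw [← Finset.sum_fiberwise_of_maps_to (t := Finset.Icc 1 ⌊T⌋₊) (g := fun j => wn (t j))
    fun j hj => Finset.mem_Icc.2 ⟨(hw j hj).1, Nat.le_floor (hw j hj).2.1⟩]
  have hfl : (⌊T⌋₊ : ℝ) ≤ T := Nat.floor_le (by linarith)
  calc _ ≤ ∑ n ∈ Finset.Icc 1 ⌊T⌋₊, ε * T := by
        refine Finset.sum_le_sum fun n hn => ?_
        rcases (s.filter fun j => wn (t j) = n).eq_empty_or_nonempty with he | ⟨j, hj⟩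
        · rw [he, Finset.sum_empty]; positivity
        obtain ⟨hj1, hj2⟩ := Finset.mem_filter.1 hj
        have a1 := (abs_le.1 (hw j hj1).2.2).2
        have a2 := (hG j hj1).2.1
        have a3 := (hw j hj1).2.1
        rw [hj2] at a1 a3
        have a4 := abs_nonneg T₀
        refine (h χ u tf n f ι _ G t hχ h0 hu (by linarith [le_abs_self T₀]) h1 ?_ hf hl
          (fun i hi => ⟨(hG i (Finset.mem_filter.1 hi).1).1, ?_⟩)
          (hB.mono le_rfl (Finset.filter_subset _ _))).trans (mul_le_mul_of_nonneg_left a3 hε.le)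
        · rw [div_mul_eq_mul_div, le_div_iff₀ hd]
          nlinarith
        · rw [← (Finset.mem_filter.1 hi).2]
          exact (hw i (Finset.mem_filter.1 hi).1).2.2
    _ ≤ _ := by
        rw [Finset.sum_const, Nat.card_Icc, add_tsub_cancel_right, nsmul_eq_mul]
        nlinarith [mul_le_mul_of_nonneg_left hfl (by positivity : 0 ≤ ε * T)]

/-- splitting `G² - 1` by a mollifier -/
theorem main_split {a G : ℂ → ℝ} (ha : ContinuousOn a Up) (h0 : ∀ z, 1 / 200 < ‖z - I‖ → a z = 0)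
    (hG : ContinuousOn G Up) {κ : ℂ → ℝ} (hκ : Continuous κ) {ρ c : ℝ} (hc : |c| * ρ ≤ 1 / 200)
    (h1 : ∀ z, ρ < ‖z‖ → κ z = 0) (h2 : ∫ z, κ z = 1) :
    IntegrableOn (fun u => κ u * ∫ z, a z * (G z ^ 2 - G (z + c * u) ^ 2))
      (Metric.closedBall 0 ρ) ∧
    IntegrableOn (fun z => a z * ((∫ u, κ u * G (z + c * u) ^ 2) - 1))
      (Metric.closedBall I (1 / 200)) ∧
    ∫ z, a z * (G z ^ 2 - 1) =
      (∫ u in Metric.closedBall 0 ρ, κ u * ∫ z, a z * (G z ^ 2 - G (z + c * u) ^ 2)) +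
      ∫ z in Metric.closedBall I (1 / 200), a z * ((∫ u, κ u * G (z + c * u) ^ 2) - 1) := by
  set B := Metric.closedBall I (1 / 200) with hB
  set D := Metric.closedBall (0 : ℂ) ρ with hD
  have cB : IsCompact B := isCompact_closedBall _ _
  have cD : IsCompact D := isCompact_closedBall _ _
  have BU : B ⊆ Up := fun z hz => ball_sub ((mem_closedBall_iff_norm.1 hz).trans (by norm_num))
  have zB : ∀ z, z ∉ B → a z = 0 := fun z hz =>
    h0 z (not_le.1 fun h => hz (mem_closedBall_iff_norm.2 h))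
  have zD : ∀ z, z ∉ D → κ z = 0 := fun z hz =>
    h1 z (not_le.1 fun h => hz (mem_closedBall_zero_iff.2 h))
  have mU : ∀ p ∈ B ×ˢ D, p.1 + c * p.2 ∈ Up := fun p hp => ball_sub (by
    rw [add_sub_right_comm]
    refine (norm_add_le _ _).trans ?_
    rw [norm_mul, norm_real, Real.norm_eq_abs]
    linarith [mem_closedBall_iff_norm.1 hp.1, mul_le_mul_of_nonneg_left
      (mem_closedBall_zero_iff.1 hp.2) (abs_nonneg c)])
  have c1 : ContinuousOn (fun p : ℂ × ℂ => G (p.1 + c * p.2) ^ 2) (B ×ˢ D) :=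
    (hG.comp (by fun_prop) mU).pow 2
  have c2 : ContinuousOn (fun p : ℂ × ℂ => G p.1 ^ 2) (B ×ˢ D) :=
    (hG.comp continuousOn_fst fun p hp => BU hp.1).pow 2
  have c3 : ContinuousOn (fun p : ℂ × ℂ => a p.1 * κ p.2) (B ×ˢ D) :=
    (ha.comp continuousOn_fst fun p hp => BU hp.1).mul (hκ.comp continuous_snd).continuousOn
  have ip : ∀ {F : ℂ × ℂ → ℝ}, ContinuousOn F (B ×ˢ D) →
      Integrable F ((volume.restrict B).prod (volume.restrict D)) := fun hF => by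
    rw [Measure.prod_restrict]
    exact hF.integrableOn_compact (cB.prod cD)
  have i1 := ip (F := fun p => a p.1 * κ p.2 * (G p.1 ^ 2 - G (p.1 + c * p.2) ^ 2))
    (c3.mul (c2.sub c1))
  have i2 := ip (F := fun p => a p.1 * κ p.2 * G (p.1 + c * p.2) ^ 2) (c3.mul c1)
  have e1 : ∀ u, κ u * ∫ z, a z * (G z ^ 2 - G (z + c * u) ^ 2) =
      ∫ z in B, a z * κ u * (G z ^ 2 - G (z + c * u) ^ 2) := fun u => by
    rw [setIntegral_eq_integral_of_forall_compl_eq_zero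
      (fun z hz => by rw [zB z hz, zero_mul, zero_mul]), ← integral_const_mul]
    exact integral_congr_ae (ae_of_all _ fun z => by ring)
  have e2 : ∀ z, a z * ((∫ u, κ u * G (z + c * u) ^ 2) - 1) =
      (∫ u in D, a z * κ u * G (z + c * u) ^ 2) - a z := fun z => by
    rw [setIntegral_eq_integral_of_forall_compl_eq_zero
      (fun u hu => by rw [zD u hu, mul_zero, zero_mul]), mul_sub, mul_one, ← integral_const_mul]
    simp only [mul_assoc]
  have i3 : IntegrableOn a B := (ha.mono BU).integrableOn_compact cB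
  have h3 : ∫ u in D, κ u = 1 := by rw [setIntegral_eq_integral_of_forall_compl_eq_zero zD, h2]
  simp only [e1, e2]
  refine ⟨i1.integral_prod_right, i2.integral_prod_left.sub i3, ?_⟩
  have k1 : IntegrableOn (fun z => ∫ u in D, a z * κ u * (G z ^ 2 - G (z + c * u) ^ 2)) B :=
    i1.integral_prod_left
  have k2 : IntegrableOn (fun z => (∫ u in D, a z * κ u * G (z + c * u) ^ 2) - a z) B :=
    i2.integral_prod_left.sub i3
  rw [← integral_integral_swap i1, ← integral_add k1 k2, ← setIntegral_eq_integral_of_forall_compl_eq_zero (s := B)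
      (fun z hz => by rw [zB z hz, zero_mul])]
  refine setIntegral_congr_fun cB.measurableSet fun z hz => ?_
  have c4 : ContinuousOn (fun u => G (z + c * u) ^ 2) D :=
    (hG.comp (by fun_prop) fun u hu => mU (z, u) ⟨hz, hu⟩).pow 2
  have j1 : IntegrableOn (fun u => a z * κ u * (G z ^ 2 - G (z + c * u) ^ 2)) D :=
    ((continuousOn_const.mul hκ.continuousOn).mul (continuousOn_const.sub c4)).integrableOn_compact
      cD
  have j2 : IntegrableOn (fun u => a z * κ u * G (z + c * u) ^ 2) D :=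
    ((continuousOn_const.mul hκ.continuousOn).mul c4).integrableOn_compact cD
  rw [← add_sub_assoc, ← integral_add j1 j2]
  have e3 : ∀ u, a z * κ u * (G z ^ 2 - G (z + c * u) ^ 2) + a z * κ u * G (z + c * u) ^ 2 =
      a z * G z ^ 2 * κ u := fun u => by ring
  simp only [e3, integral_const_mul, h3]
  ring

theorem main_le {ι : Type} {s : Finset ι} {μ : Measure ℂ} {F : ι → ℂ → ℝ}
    (hF : ∀ j ∈ s, Integrable (F j) μ) {w : ℂ → ℝ} (hw : Integrable w μ)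
    (h : ∀ᵐ x ∂μ, ∑ j ∈ s, |F j x| ≤ w x) : ∑ j ∈ s, |∫ x, F j x ∂μ| ≤ ∫ x, w x ∂μ := by
  refine (Finset.sum_le_sum fun j _ => abs_integral_le_integral_abs).trans ?_
  rw [← integral_finsetSum _ fun j hj => (hF j hj).abs]
  exact integral_mono_ae (integrable_finsetSum _ fun j hj => (hF j hj).abs) hw h

theorem main_loc {ψ : ℂ → ℝ} (hs : ∀ n : ℕ, ContDiffOn ℝ n ψ Up) {K : Set ℂ} (hK : IsCompact K)
    (hKF : K ⊆ Fd) {d ε : ℝ} (hd : 0 < d) (hε : 0 < ε) :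
    ∃ T₀ : ℝ, ∀ (ι : Type) (s : Finset ι) (g : ι → ℂ → ℝ) (t : ι → ℝ) (T : ℝ) (f : ℂ → ℝ)
    (tf : ℝ), Fam s g t T → T₀ ≤ T → Form tf f → 0 ≤ tf → tf ≤ T → (∀ j ∈ s, d * T ≤ t j) →
    ∀ z₀ ∈ K, ∑ j ∈ s, |∫ z, be z z₀ * (ψ z * f z ^ 2 * (g j z ^ 2 - 1)) ∂muH| ≤ ε * T ^ 2 := by
  have hU : K ⊆ Up := hKF.trans Fd_sub
  obtain ⟨M, hM⟩ := c3_patch hs hK hU
  obtain ⟨N₁, hN₁, hB⟩ := bes_cpt hK hU
  obtain ⟨N₂, hN₂, hL⟩ := l2_cpt hK hU
  obtain ⟨r, hr, hr', T₁, h1⟩ := main_win M (N₁ + N₂) (by linarith) hd (half_pos hε)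
  obtain ⟨κ, k1, k2, k3, k4⟩ := exists_bump (half_pos hr)
  set B := Metric.closedBall I (1 / 200) with hBd
  have cB : IsCompact B := isCompact_closedBall _ _
  have BB : B ⊆ B0 := Metric.closedBall_subset_closedBall (by norm_num)
  obtain ⟨T₂, h2⟩ := qe_unif k1 k3 k4
    (K := (fun p : ℂ × ℂ => (p.1.im : ℂ) * p.2 + (p.1.re : ℂ)) '' (K ×ˢ B))
    ((hK.prod cB).image (by fun_prop)) (by
      rintro _ ⟨p, hp, rfl⟩
      have a1 := Fd_im (hKF hp.1)
      have a2 := (abs_le.1 ((abs_im_le_norm (p.2 - I)).trans (mem_closedBall_iff_norm.1 hp.2))).1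
      simp only [sub_im, I_im, add_im, mul_im, ofReal_re, ofReal_im, zero_mul, add_zero] at a2 ⊢
      nlinarith) (by positivity : 0 < ε / 2 / (|M| * N₂ + 1))
  refine ⟨max T₁ T₂, fun ι s g t T f tf hF hT hf h3 h4 h5 z₀ hz => ?_⟩
  have hA := aff_mem (hU hz)
  have hp : pr ((z₀, 1) : E) ∈ K := by rw [pr_aff]; exact hz
  have y0 := Fd_im (hKF hz)
  set χ : ℂ → ℝ := fun z => be z I * ψ (mb (z₀, 1) z) / z.im ^ 2 with hχ
  have c3 : C3 M fun z => (χ z : ℂ) := hM z₀ hz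
  have cχ : Continuous χ := by
    simpa only [Function.comp_def, ofReal_re] using continuous_re.comp c3.cont
  have zχ : ∀ z, 1 / 200 < ‖z - I‖ → χ z = 0 := fun z h => by
    have : be z I = 0 := by
      by_contra hn
      have := (be_supp hn).2.2
      rw [I_im] at this
      linarith
    simp only [hχ, this, zero_mul, zero_div]
  have eF := eig_mb hf.toEig hA
  have eG := fun j hj => eig_mb (hF.form j hj).toEig hA
  have hc : |(z₀.im)⁻¹| ≤ 2 := by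
    rw [abs_of_pos (by positivity), inv_le_comm₀ (by linarith) (by norm_num)]; linarith
  have sp := fun j hj => main_split (a := fun z => χ z * f (mb (z₀, 1) z) ^ 2)
    (cχ.continuousOn.mul (eF.cont.pow 2)) (fun z h => by rw [zχ z h, zero_mul]) (eG j hj).cont
    k1.continuous (c := (z₀.im)⁻¹) (by nlinarith [abs_nonneg (z₀.im)⁻¹]) k3 k4
  have cD : IsCompact (Metric.closedBall (0 : ℂ) (r / 2)) := isCompact_closedBall _ _
  have t1 := main_le (fun j hj => (sp j hj).1) (w := fun u => κ u * (ε / 2 * T ^ 2))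
    ((k1.continuous.continuousOn.integrableOn_compact cD).mul_const _) (by
      filter_upwards [ae_restrict_mem cD.measurableSet] with u hu
      simp only [abs_mul, abs_of_nonneg (k2 u), ← Finset.mul_sum]
      refine mul_le_mul_of_nonneg_left (le_trans (le_of_eq ?_) (h1 _ (((z₀.im)⁻¹ : ℝ) * u) tf T _ ι
        s _ t c3 (fun z h => by rw [zχ z h, ofReal_zero]) ?_ ((le_max_left _ _).trans hT) h3 h4 eF
        ((hL tf f hf _ hA hp).trans (by linarith))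
        (fun j hj => ⟨eG j hj, h5 j hj, hF.le j hj⟩)
        ((hB ι s g t hF.toOrt _ hA hp).mono (by linarith) subset_rfl))) (k2 u)
      · refine Finset.sum_congr rfl fun j _ => ?_
        simp only [← ofReal_mul, integral_complex_ofReal, norm_real, Real.norm_eq_abs, mul_assoc]
      · rw [norm_mul, norm_real, Real.norm_eq_abs]
        nlinarith [mem_closedBall_zero_iff.1 hu, norm_nonneg u])
  have iF : IntegrableOn (fun z => f (mb (z₀, 1) z) ^ 2) B0 :=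
    ((eF.cont.mono B0_sub).pow 2).integrableOn_compact (isCompact_closedBall _ _)
  have t2 := main_le (fun j hj => (sp j hj).2.1)
    (w := fun z => f (mb (z₀, 1) z) ^ 2 * (|M| * (ε / 2 / (|M| * N₂ + 1) * T ^ 2)))
    ((iF.mono_set BB).mul_const _) (by
      filter_upwards [ae_restrict_mem cB.measurableSet] with z hz'
      have b1 := h2 ι s g t T hF ((le_max_right _ _).trans hT) _ ⟨(z₀, z), ⟨hz, hz'⟩, rfl⟩
      have b2 : ∀ u : ℂ, mb (z₀, 1) (z + ((z₀.im)⁻¹ : ℝ) * u) = z₀.im * z + z₀.re + u := fun u => by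
        have : (z₀.im : ℂ) ≠ 0 := ofReal_ne_zero.2 (by linarith)
        rw [mb_aff]; push_cast; field_simp; ring
      have b3 : |χ z| ≤ |M| := by
        have := c3.norm_le z
        rw [norm_real] at this
        exact this.trans (le_abs_self _)
      simp only [abs_mul, b2, ← Finset.mul_sum, abs_pow, sq_abs]
      rw [mul_comm |χ z|, mul_assoc]
      exact mul_le_mul_of_nonneg_left (mul_le_mul b3 b1 (Finset.sum_nonneg fun _ _ => abs_nonneg _)
        (abs_nonneg _)) (sq_nonneg _))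
  rw [integral_mul_const, setIntegral_eq_integral_of_forall_compl_eq_zero fun u hu =>
    k3 u (not_le.1 fun h => hu (mem_closedBall_zero_iff.2 h)), k4, one_mul] at t1
  rw [integral_mul_const] at t2
  have t3 := mul_le_mul_of_nonneg_right ((setIntegral_mono_set iF (ae_of_all _ fun _ => sq_nonneg _)
    BB.eventuallyLE).trans (hL tf f hf _ hA hp))
    (by positivity : 0 ≤ |M| * (ε / 2 / (|M| * N₂ + 1) * T ^ 2))
  have t4 : N₂ * (|M| * (ε / 2 / (|M| * N₂ + 1) * T ^ 2)) ≤ ε / 2 * T ^ 2 := by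
    have e1 : ε / 2 / (|M| * N₂ + 1) * (|M| * N₂ + 1) = ε / 2 := div_mul_cancel₀ _ (by positivity)
    have e2 : 0 ≤ ε / 2 / (|M| * N₂ + 1) * T ^ 2 := by positivity
    generalize ε / 2 / (|M| * N₂ + 1) = x at e1 e2 ⊢
    rw [← e1]
    linarith
  refine le_trans (Finset.sum_le_sum fun j hj => ?_) (Finset.sum_add_distrib.trans_le
    ((add_le_add t1 (t2.trans (t3.trans t4))).trans_eq (by ring)))
  refine le_trans (le_of_eq ?_) (abs_add_le _ _)
  rw [← (sp j hj).2.2, patch _ (hU hz)]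
  congr 2
  funext z
  simp only [hχ]
  ring

theorem main {ψ : ℂ → ℝ} (hs : ∀ n : ℕ, ContDiffOn ℝ n ψ Up) (hi : Inv ψ)
    (hY : ∃ Y : ℝ, ∀ z : ℂ, Y ≤ z.im → ψ z = 0) {ε δ : ℝ} (hε : 0 < ε) (hδ : 0 < δ) :
    ∃ T₀ : ℝ, ∀ (ι : Type) (s : Finset ι) (g : ι → ℂ → ℝ) (t : ι → ℝ) (T : ℝ) (f : ℂ → ℝ)
    (tf : ℝ), Fam s g t T → T₀ ≤ T → Form tf f → 0 ≤ tf → tf ≤ T →
    ((s.filter fun j => ε ≤ |(∫ z in Fd, ψ z * (f z ^ 2 * g j z ^ 2) / z.im ^ 2) -
      ∫ z in Fd, ψ z * f z ^ 2 / z.im ^ 2|).card : ℝ) ≤ δ * T ^ 2 := by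
  classical
  obtain ⟨Y, hY⟩ := hY
  obtain ⟨C, hC, hc⟩ := card_le
  have cK := isCompact_Fd_le (2 * Y)
  have b0 := be_pos
  set K := {z : ℂ | z ∈ Fd ∧ z.im ≤ 2 * Y} with hK
  have KU : K ⊆ Up := fun z hz => Fd_sub hz.1
  set b := ∫ u, be I u ∂muH with hb
  have m0 : 0 ≤ muH.real K := measureReal_nonneg
  set d := min 1 (δ / 2 / (C + 1)) with hd
  have d0 : 0 < d := lt_min one_pos (by positivity)
  set η := b * ε * (δ / 2) / (muH.real K + 1) with hη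
  have η0 : 0 < η := by positivity
  obtain ⟨T₁, h1⟩ := main_loc hs cK (fun z hz => hz.1) d0 η0
  refine ⟨max T₁ (1 / d), fun ι s g t T f tf hF hT hf h2 h3 => ?_⟩
  have hT1 : 1 ≤ T * d := (div_le_iff₀ d0).1 ((le_max_right _ _).trans hT)
  set D : ι → ℝ := fun j => (∫ z in Fd, ψ z * (f z ^ 2 * g j z ^ 2) / z.im ^ 2) -
    ∫ z in Fd, ψ z * f z ^ 2 / z.im ^ 2 with hD
  set s₁ := s.filter fun j => t j ≤ d * T with hs₁
  set s₂ := s.filter fun j => d * T ≤ t j ∧ ε ≤ |D j| with hs₂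
  have a1 : (s₁.card : ℝ) ≤ δ / 2 * T ^ 2 := by
    refine (hc ι s₁ g t (d * T) (hF.mono (Finset.filter_subset _ _)
      fun j hj => (Finset.mem_filter.1 hj).2) (by linarith)).trans ?_
    have e1 : d * (C + 1) ≤ δ / 2 := (le_div_iff₀ (by positivity)).1 (min_le_right _ _)
    have e2 : d ≤ 1 := min_le_left _ _
    have e3 : C * d ^ 2 ≤ δ / 2 := by nlinarith [mul_nonneg hC d0.le]
    rw [mul_pow, ← mul_assoc]
    exact mul_le_mul_of_nonneg_right e3 (sq_nonneg _)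
  have cψ : ContinuousOn ψ Up := (hs 0).continuousOn
  have F₂ := hF.mono (Finset.filter_subset (fun j => d * T ≤ t j ∧ ε ≤ |D j|) s)
    fun j hj => hF.le j (Finset.mem_filter.1 hj).1
  have cH : ∀ j ∈ s₂, ContinuousOn (fun z => ψ z * f z ^ 2 * (g j z ^ 2 - 1)) Up := fun j hj =>
    (cψ.mul (hf.toEig.cont.pow 2)).mul (((F₂.form j hj).toEig.cont.pow 2).sub continuousOn_const)
  have iF : ∀ G : ℂ → ℝ, ContinuousOn G Up → IntegrableOn (fun z => ψ z * G z / z.im ^ 2) Fd :=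
    fun G hG => by
      refine IntegrableOn.of_forall_sdiff_eq_zero (s := {z | z ∈ Fd ∧ z.im ≤ Y})
        ((((cψ.mul hG).div (continuous_im.pow 2).continuousOn fun z hz =>
          (pow_pos hz 2).ne').mono fun z hz => Fd_sub hz.1).integrableOn_compact
            (isCompact_Fd_le Y)) measurableSet_Fd fun z hz => ?_
      rw [hY z (not_le.1 fun h => hz.2 ⟨hz.1, h⟩).le, zero_mul, zero_div]
  have e4 : ∀ j ∈ s₂, b * D j = ∫ z₀ in K,
      (∫ z, be z z₀ * (ψ z * f z ^ 2 * (g j z ^ 2 - 1)) ∂muH) ∂muH := fun j hj => by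
    have hg := F₂.form j hj
    rw [← mt (cH j hj) (fun z hz => by
      simp only [(hi z hz).1, (hi z hz).2, (hf.inv z hz).1, (hf.inv z hz).2, (hg.inv z hz).1,
        (hg.inv z hz).2, and_self]) fun z _ hz => by rw [hY z hz, zero_mul, zero_mul],
      setInt_muH _ measurableSet_Fd Fd_sub, hD]
    beta_reduce
    rw [← integral_sub (iF (fun z => f z ^ 2 * g j z ^ 2)
      ((hf.toEig.cont.pow 2).mul (hg.toEig.cont.pow 2))) (iF (fun z => f z ^ 2)
        (hf.toEig.cont.pow 2))]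
    congr 2
    funext z
    simp only [smul_eq_mul]
    ring
  have fK : IsFiniteMeasure (muH.restrict K) := isFiniteMeasure_restrict.2 (muH_compact cK KU).ne
  have a2 := main_le (s := s₂) (μ := muH.restrict K)
    (F := fun j z₀ => ∫ z, be z z₀ * (ψ z * f z ^ 2 * (g j z ^ 2 - 1)) ∂muH)
    (fun j hj => by
      obtain ⟨A, hA⟩ := cK.exists_bound_of_continuousOn ((mt_cont (cH j hj)).mono KU)
      exact Integrable.of_bound (aesm_muH (mt_cont (cH j hj))).restrict A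
        ((ae_restrict_mem cK.measurableSet).mono hA))
    (integrable_const (η * T ^ 2)) ((ae_restrict_mem cK.measurableSet).mono fun z₀ hz =>
      h1 ι s₂ g t T f tf F₂ ((le_max_left _ _).trans hT) hf h2 h3
        (fun j hj => (Finset.mem_filter.1 hj).2.1) z₀ hz)
  rw [setIntegral_const, smul_eq_mul] at a2
  have a3 : (s₂.card : ℝ) * (b * ε) ≤ muH.real K * (η * T ^ 2) := by
    refine le_trans ?_ a2
    rw [← nsmul_eq_mul, ← Finset.sum_const]
    refine Finset.sum_le_sum fun j hj => ?_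
    rw [← e4 j hj, abs_mul, abs_of_pos b0]
    exact mul_le_mul_of_nonneg_left (Finset.mem_filter.1 hj).2.2 b0.le
  have a4 : (s₂.card : ℝ) ≤ δ / 2 * T ^ 2 := by
    refine le_of_mul_le_mul_right (a3.trans ?_) (mul_pos b0 hε)
    have e1 : η * (muH.real K + 1) = b * ε * (δ / 2) := div_mul_cancel₀ _ (by positivity)
    have e2 : 0 ≤ η * T ^ 2 := by positivity
    calc _ ≤ η * (muH.real K + 1) * T ^ 2 := by linarith
      _ = _ := by rw [e1]; ring
  have a5 : (s.filter fun j => ε ≤ |D j|) ⊆ s₁ ∪ s₂ := fun j hj => by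
    obtain ⟨h4, h5⟩ := Finset.mem_filter.1 hj
    rcases le_total (t j) (d * T) with h | h
    · exact Finset.mem_union_left _ (Finset.mem_filter.2 ⟨h4, h⟩)
    · exact Finset.mem_union_right _ (Finset.mem_filter.2 ⟨h4, h, h5⟩)
  have a6 : (((s.filter fun j => ε ≤ |D j|).card : ℕ) : ℝ) ≤ s₁.card + s₂.card := by
    exact_mod_cast (Finset.card_le_card a5).trans (Finset.card_union_le _ _)
  linarith

theorem int_ind₂ (H : ℂ → ℝ → ℝ → ℝ) (f g : ℂ → ℝ) :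
    ∫ z in Fd, H z (Up.indicator f z) (Up.indicator g z) = ∫ z in Fd, H z (f z) (g z) :=
  setIntegral_congr_fun measurableSet_Fd fun z hz => by
    simp only [indicator_of_mem (Fd_sub hz)]

theorem form_ind {t : ℝ} {f : ℂ → ℝ} (h2 : ContDiffOn ℝ 2 f Up)
    (he : ∀ z : ℂ, 0 < z.im →
      -(z.im ^ 2) * (iteratedFDeriv ℝ 2 f z ![(1 : ℂ), 1] + iteratedFDeriv ℝ 2 f z ![I, I])
        = (1 / 4 + t ^ 2) * f z) (hi : Inv f)
    (hint : IntegrableOn (fun z : ℂ => f z ^ 2 / z.im ^ 2) Fd)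
    (hn : ∫ z in Fd, f z ^ 2 / z.im ^ 2 = Real.pi / 3) : Form t (Up.indicator f) := by
  refine ⟨eig_indicator h2 he, fun z hz => ?_, hint.congr_fun (fun z hz => by
    simp only [indicator_of_mem (Fd_sub hz)]) measurableSet_Fd,
    (int_ind₂ (fun z a _ => a ^ 2 / z.im ^ 2) f f).trans hn⟩
  have h1 : z + 1 ∈ Up := by show 0 < (z + 1).im; simpa using hz
  have h3 : -z⁻¹ ∈ Up := by
    show 0 < (-z⁻¹).im
    rw [neg_im, inv_im, neg_div, neg_neg]
    exact div_pos hz (normSq_pos.2 fun h => by simp [h] at hz)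
  rw [indicator_of_mem h1, indicator_of_mem h3, indicator_of_mem (show z ∈ Up from hz)]
  exact hi z hz

theorem cusp_ind {f : ℂ → ℝ} (h : Cusp f) : Cusp (Up.indicator f) := fun y hy => by
  refine Eq.trans (intervalIntegral.integral_congr fun x _ => indicator_of_mem (s := Up) ?_ f)
    (h y hy)
  show 0 < ((x : ℂ) + y * I).im
  simpa using hy

end Pool.Agent.MP_a28cf0_nt.Dec

end
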