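import Pool.Agent.MP_a28cf0_nt.Mg.Dec_Eig
import Pool.Agent.MP_a28cf0_nt.Mg.Dec_Ext

-- part MP_a28cf0_nt.Dec.VV
section

set_option autoImplicit false

namespace Pool.Agent.MP_a28cf0_nt.Dec

open MeasureTheory Complex Filter Topology Set
open scoped ENNReal MatrixGroups ComplexConjugate
open Pool.Agent.MP_a28cf0_nt.Cub

/-! Calculus of the lifts `VV`.  Conventions: `fl s M = mul M (fl s one)` and
`mb (fl s one) w = e^{-2s} w`; `rot θ M = mul M (kk θ)`; the horocycle flow is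
`M ↦ mul M (I + ξ, 1) = M + ξ (Im M.1, Im M.2)`, `mb (I + ξ, 1) w = w + ξ`, with velocity
`(I • star M - I • M) / 2`.  For a one parameter family `c s` one has
`VV m T g (mul M (c s)) = ∫ (m yp) (mb (c (-s)) w) g (mb M w)` (`mb_mul`, `int_mb`); differentiate
under the integral at `s = 0` (`hasDerivAt_integral_of_dominated_loc_of_deriv_le`; the supports
stay in a compact set) and compare with the chain rule (`hasDerivAt_fl`, `hasDerivAt_rot`,
uniqueness of derivatives).  On `Up`, `fderiv yp w v = (1/2 - i T) * v.im / w.im * yp w`. -/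

theorem Bump.fd {m : ℂ → ℂ} (h : Bump m) {v : ℂ → ℂ} (hv : ContDiff ℝ (⊤ : ℕ∞) v) :
    Bump fun w => fderiv ℝ m w (v w) := by
  refine ⟨(h.smooth.fderiv_right (m := (⊤ : ℕ∞)) le_rfl).clm_apply hv, fun w hw => ?_⟩
  have ho : IsOpen {u : ℂ | 1 / 50 < ‖u - I‖} :=
    isOpen_lt continuous_const (continuous_id.sub continuous_const).norm
  have e : m =ᶠ[𝓝 w] fun _ => 0 := by
    filter_upwards [ho.mem_nhds hw] with u hu using h.supp u hu
  rw [e.fderiv_eq]
  simp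

theorem Bump.mul {m : ℂ → ℂ} (h : Bump m) {v : ℂ → ℂ} (hv : ContDiff ℝ (⊤ : ℕ∞) v) :
    Bump fun w => v w * m w :=
  ⟨hv.mul h.smooth, fun w hw => by rw [h.supp w hw, mul_zero]⟩

theorem Bump.add {m m' : ℂ → ℂ} (h : Bump m) (h' : Bump m') : Bump fun w => m w + m' w :=
  ⟨h.smooth.add h'.smooth, fun w hw => by rw [h.supp w hw, h'.supp w hw, add_zero]⟩

theorem vvc_cre {P : Type} [NormedAddCommGroup P] [NormedSpace ℝ P] {n : WithTop ℕ∞} {f : P → ℝ}
    {S : Set P} (hf : ContDiffOn ℝ n f S) : ContDiffOn ℝ n (fun u => (f u : ℂ)) S :=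
  ofRealCLM.contDiff.comp_contDiffOn hf

theorem vvc_cyp (T : ℝ) {n : WithTop ℕ∞} : ContDiffOn ℝ n (yp T) Up := by
  have a : ContDiffOn ℝ n (fun w : ℂ => w.im) Up := imCLM.contDiff.contDiffOn
  have b : ContDiffOn ℝ n (fun w : ℂ => √w.im) Up := a.sqrt fun _ hw => ne_of_gt hw
  have c : ContDiffOn ℝ n (fun w : ℂ => -(T * Real.log w.im)) Up :=
    (contDiffOn_const.mul (a.log fun _ hw => ne_of_gt hw)).neg
  exact (vvc_cre b).mul ((vvc_cre c).mul contDiffOn_const).cexp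

theorem vvc_U0 : U0 ⊆ Up := U0_sub.trans B0_sub

theorem vvc_out {m : ℂ → ℂ} (h : Bump m) {w : ℂ} (hw : w ∉ U0) : m w = 0 := by
  refine h.supp w ?_
  rwa [U0, Metric.mem_closedBall, dist_eq_norm, not_le] at hw

theorem vvc_int {m : ℂ → ℂ} (h : Bump m) (T : ℝ) {t : ℝ} {g : ℂ → ℝ} (hg : Eig t g) {M : E}
    (hM : M ∈ Gp) : Integrable (fun w => m w * yp T w * (g (mb M w) : ℂ)) muH := by
  refine integrable_muH ((h.smooth.continuous.continuousOn.mul
    (vvc_cyp T (n := 0)).continuousOn).mul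
    (continuous_ofReal.comp_continuousOn (eig_mb hg hM).cont)) (isCompact_closedBall I (1 / 50))
    vvc_U0 fun w _ hw => ?_
  rw [vvc_out h hw, zero_mul, zero_mul]

theorem VV_add {m m' : ℂ → ℂ} (h : Bump m) (h' : Bump m') (T : ℝ) {t : ℝ} {g : ℂ → ℝ}
    (hg : Eig t g) {M : E} (hM : M ∈ Gp) :
    VV (fun w => m w + m' w) T g M = VV m T g M + VV m' T g M := by
  simp only [VV, add_mul]
  exact integral_add (vvc_int h T hg hM) (vvc_int h' T hg hM)

theorem VV_const_mul (c : ℂ) (m : ℂ → ℂ) (T : ℝ) (g : ℂ → ℝ) (M : E) :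
    VV (fun w => c * m w) T g M = c * VV m T g M := by
  simp only [VV, mul_assoc]
  exact integral_const_mul _ _

theorem VV_smooth {m : ℂ → ℂ} (h : Bump m) (T : ℝ) {t : ℝ} {g : ℂ → ℝ} (hg : Eig t g) :
    ContDiffOn ℝ 2 (VV m T g) Gp := by
  have a : ContDiffOn ℝ 2 (fun p : E × ℂ => m p.2 * yp T p.2 * (g (mb p.1 p.2) : ℂ)) (Gp ×ˢ Up) :=
    (((contDiff_infty.1 h.smooth 2).comp contDiff_snd).contDiffOn.mul
      ((vvc_cyp T).comp contDiffOn_snd fun p hp => hp.2)).mul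
      (vvc_cre (hg.c2.comp contDiffOn_mb fun p hp => mb_mem hp.1 hp.2))
  exact contDiffOn_int_muH (n := 2) isOpen_Gp a (isCompact_closedBall I (1 / 50)) vvc_U0
    fun p _ z hz => by rw [vvc_out h hz, zero_mul, zero_mul]

theorem measurable_VV {m : ℂ → ℂ} (h : Bump m) (T : ℝ) {t : ℝ} {g : ℂ → ℝ} (hg : Eig t g) :
    Measurable (VV m T g) := by
  have y : Measurable (yp T) := by
    unfold yp
    have := Complex.measurable_im
    fun_prop
  have a : Measurable fun p : E × ℂ => m p.2 * yp T p.2 * (g (mb p.1 p.2) : ℂ) :=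
    ((h.smooth.continuous.measurable.comp measurable_snd).mul (y.comp measurable_snd)).mul
      (measurable_ofReal.comp (hg.meas.comp measurable_mb))
  exact (a.stronglyMeasurable.integral_prod_right' (ν := muH)).measurable

theorem VV_act (m : ℂ → ℂ) (T : ℝ) {g : ℂ → ℝ} (hg : Inv g) (γ : SL(2, ℤ)) {M : E}
    (hM : M ∈ Gp) : VV m T g (act γ M) = VV m T g M := by
  refine integral_congr_ae ?_
  filter_upwards [ae_Up] with w hw
  rw [mb_act γ hM hw, hg.mb γ (mb_mem hM hw)]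

theorem hasFDerivAt_yp (T : ℝ) {w : ℂ} (hw : w ∈ Up) : DifferentiableAt ℝ (yp T) w ∧
    ∀ v : ℂ, fderiv ℝ (yp T) w v = (1 / 2 - I * T) * ((v.im / w.im : ℝ) : ℂ) * yp T w := by
  have hy : 0 < w.im := hw
  have a := ((Real.hasDerivAt_sqrt hy.ne').ofReal_comp).mul
    ((((Real.hasDerivAt_log hy.ne').const_mul T).neg.ofReal_comp.mul_const I).cexp)
  have b := a.hasFDerivAt.comp w imCLM.hasFDerivAt
  have c : HasFDerivAt (yp T) _ w := b
  refine ⟨c.differentiableAt, fun v => ?_⟩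
  rw [c.fderiv]
  have s : ((√w.im : ℝ) : ℂ) * ((√w.im : ℝ) : ℂ) = (w.im : ℂ) := by
    rw [← ofReal_mul, Real.mul_self_sqrt hy.le]
  have s0 : ((√w.im : ℝ) : ℂ) ≠ 0 := ofReal_ne_zero.2 (Real.sqrt_pos.2 hy).ne'
  have y0 : (w.im : ℂ) ≠ 0 := ofReal_ne_zero.2 hy.ne'
  simp only [ContinuousLinearMap.comp_apply, imCLM_apply, ContinuousLinearMap.toSpanSingleton_apply,
    real_smul, yp, Pi.neg_apply]
  generalize Complex.exp _ = e
  push_cast
  field_simp
  linear_combination (-(v.im : ℂ) * e) * s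

/-- differentiation under the integral sign -/
theorem vvc_der {F : ℝ × ℂ → ℂ} (hF : ContDiffOn ℝ 1 F (univ ×ˢ Up)) {Q : Set ℂ}
    (hQ : IsCompact Q) (hU : Q ⊆ Up)
    (h0 : ∀ s ∈ Ioo (-1 : ℝ) 1, ∀ z ∈ Up, z ∉ Q → F (s, z) = 0) {D : ℂ → ℂ}
    (hD : ∀ z ∈ Up, HasDerivAt (fun s => F (s, z)) (D z) 0) :
    HasDerivAt (fun s => ∫ w, F (s, w) ∂muH) (∫ w, D w ∂muH) 0 := by
  have ho : IsOpen ((univ : Set ℝ) ×ˢ Up) := isOpen_univ.prod isOpen_Up
  have c1 : ContinuousOn (fun p => fderiv ℝ F p (1, 0)) (univ ×ˢ Up) :=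
    (hF.continuousOn_fderiv_of_isOpen ho le_rfl).clm_apply continuousOn_const
  have d : ∀ s : ℝ, ∀ z ∈ Up, HasDerivAt (fun s => F (s, z)) (fderiv ℝ F (s, z) (1, 0)) s := by
    intro s z hz
    have a : DifferentiableAt ℝ F (s, z) :=
      (hF.contDiffAt (ho.mem_nhds ⟨mem_univ _, hz⟩)).differentiableAt one_ne_zero
    exact a.hasFDerivAt.comp_hasDerivAt s ((hasDerivAt_id s).prodMk (hasDerivAt_const s z))
  have sl : ∀ {G : ℝ × ℂ → ℂ}, ContinuousOn G (univ ×ˢ Up) → ∀ s : ℝ,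
      ContinuousOn (fun z => G (s, z)) Up := fun hG s =>
    hG.comp (Continuous.prodMk_right s).continuousOn fun z hz => ⟨mem_univ _, hz⟩
  obtain ⟨B, hB⟩ := ((isCompact_Icc (a := (-1 : ℝ)) (b := 1)).prod hQ).exists_bound_of_continuousOn
    (c1.mono (prod_mono (subset_univ _) hU))
  have z0 : (0 : ℝ) ∈ Ioo (-1 : ℝ) 1 := ⟨by norm_num, by norm_num⟩
  have k := (hasDerivAt_integral_of_dominated_loc_of_deriv_le (μ := muH)
    (F := fun s w => F (s, w)) (F' := fun s w => fderiv ℝ F (s, w) (1, 0))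
    (bound := Q.indicator fun _ => B) (isOpen_Ioo.mem_nhds z0)
    (Eventually.of_forall fun s => aesm_muH (sl hF.continuousOn s))
    (integrable_muH (sl hF.continuousOn 0) hQ hU (h0 0 z0)) (aesm_muH (sl c1 0)) ?_
    ((integrable_indicator_iff hQ.measurableSet).2 (integrableOn_const (muH_compact hQ hU).ne))
    ?_).2
  · have e : ∫ w, fderiv ℝ F (0, w) (1, 0) ∂muH = ∫ w, D w ∂muH := by
      refine integral_congr_ae ?_
      filter_upwards [ae_Up] with w hw using (d 0 w hw).unique (hD w hw)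
    rwa [e] at k
  · filter_upwards [ae_Up] with w hw s hs
    by_cases hq : w ∈ Q
    · rw [indicator_of_mem hq]
      exact hB (s, w) ⟨Ioo_subset_Icc_self hs, hq⟩
    · have e : (fun s => F (s, w)) =ᶠ[𝓝 s] fun _ => 0 := by
        filter_upwards [isOpen_Ioo.mem_nhds hs] with r hr using h0 r hr w hw hq
      rw [indicator_of_notMem hq,
        (d s w hw).unique ((hasDerivAt_const s (0 : ℂ)).congr_of_eventuallyEq e), norm_zero]
  · filter_upwards [ae_Up] with w hw s _ using d s w hw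

/-- the vector field generated by a matrix -/
noncomputable def vvc_V (A : E) (w : ℂ) : ℂ :=
  (A.1.im : ℂ) * w + (A.1.re : ℂ) - w * ((A.2.im : ℂ) * w + (A.2.re : ℂ))

theorem vvc_mb {c : ℝ → E} {A : E} (hc : HasDerivAt c A 0) (c0 : c 0 = one) (w : ℂ) :
    HasDerivAt (fun s => mb (c s) w) (vvc_V A w) 0 := by
  have a1 : HasDerivAt (fun s => (c s).1) A.1 0 :=
    (ContinuousLinearMap.fst ℝ ℂ ℂ).hasFDerivAt.comp_hasDerivAt 0 hc
  have a2 : HasDerivAt (fun s => (c s).2) A.2 0 :=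
    (ContinuousLinearMap.snd ℝ ℂ ℂ).hasFDerivAt.comp_hasDerivAt 0 hc
  have f : ∀ {u : ℝ → ℂ} {u' : ℂ}, HasDerivAt u u' 0 →
      HasDerivAt (fun s => ((u s).im : ℂ) * w + ((u s).re : ℂ))
        ((u'.im : ℂ) * w + (u'.re : ℂ)) 0 := fun hu =>
    ((imCLM.hasFDerivAt.comp_hasDerivAt 0 hu).ofReal_comp.mul_const w).add
      (reCLM.hasFDerivAt.comp_hasDerivAt 0 hu).ofReal_comp
  have b := (f a1).div (f a2) (by simp [c0, one])
  simp only [mb_eq]
  refine b.congr_deriv ?_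
  simp [c0, one, vvc_V]

theorem vvc_flow {m : ℂ → ℂ} (h : Bump m) (T : ℝ) {t : ℝ} {g : ℂ → ℝ} (hg : Eig t g) {M : E}
    (hM : M ∈ Gp) {c : ℝ → E} {A : E} (hc : ContDiff ℝ 1 c) (hA : HasDerivAt c A 0)
    (c0 : c 0 = one) (cm : ∀ s, c s ∈ Gp) (ci : ∀ s, mul (c s) (c (-s)) = one) :
    fderiv ℝ (VV m T g) M (mul M A) = ∫ w, -(fderiv ℝ m w (vvc_V A w) +
      (1 / 2 - I * T) * (((vvc_V A w).im / w.im : ℝ) : ℂ) * m w) * yp T w *
        (g (mb M w) : ℂ) ∂muH := by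
  have G := eig_mb hg hM
  have inv : ∀ s, ∀ w ∈ Up, mb (c s) (mb (c (-s)) w) = w := fun s w hw => by
    rw [← mb_mul _ (cm _) hw, ci, mb_one]
  have a1 : HasDerivAt (fun s => (c s).1) A.1 0 :=
    (ContinuousLinearMap.fst ℝ ℂ ℂ).hasFDerivAt.comp_hasDerivAt 0 hA
  have a2 : HasDerivAt (fun s => (c s).2) A.2 0 :=
    (ContinuousLinearMap.snd ℝ ℂ ℂ).hasFDerivAt.comp_hasDerivAt 0 hA
  have a3 : HasDerivAt (fun s => mul M (c s)) (mul M A) 0 :=
    ((a1.const_smul M.1.im).add (a2.const_smul M.1.re)).prodMk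
      ((a1.const_smul M.2.im).add (a2.const_smul M.2.re))
  have dV : DifferentiableAt ℝ (VV m T g) (mul M (c 0)) := by
    rw [c0, mul_one']
    exact ((VV_smooth h T hg).contDiffAt (isOpen_Gp.mem_nhds hM)).differentiableAt two_ne_zero
  have l := dV.hasFDerivAt.comp_hasDerivAt 0 a3
  rw [c0, mul_one'] at l
  have b : ContDiffOn ℝ 1 (fun p : ℝ × ℂ => mb (c p.1) p.2) (univ ×ˢ Up) :=
    (contDiffOn_mb.comp (s := univ ×ˢ Up) ((hc.comp contDiff_fst).prodMk contDiff_snd).contDiffOn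
      fun p hp => ⟨cm _, hp.2⟩ :)
  have b' : ContDiffOn ℝ 1 (fun p : ℝ × ℂ => mb (c (-p.1)) p.2) (univ ×ˢ Up) :=
    (contDiffOn_mb.comp (s := univ ×ˢ Up)
      ((hc.comp contDiff_fst.neg).prodMk contDiff_snd).contDiffOn fun p hp => ⟨cm _, hp.2⟩ :)
  have m1 : ContDiff ℝ 1 m := contDiff_infty.1 h.smooth 1
  have hF : ContDiffOn ℝ 1 (fun p : ℝ × ℂ => m (mb (c (-p.1)) p.2) * yp T (mb (c (-p.1)) p.2) *
      (g (mb M p.2) : ℂ)) (univ ×ˢ Up) :=
    ((m1.comp_contDiffOn b').mul ((vvc_cyp T).comp b' fun p hp => mb_mem (cm _) hp.2)).mul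
      (vvc_cre ((G.c2.of_le one_le_two).comp contDiffOn_snd fun p hp => hp.2))
  have hQ : IsCompact ((fun p : ℝ × ℂ => mb (c p.1) p.2) '' (Icc (-1 : ℝ) 1 ×ˢ U0)) :=
    (isCompact_Icc.prod (isCompact_closedBall I (1 / 50))).image_of_continuousOn
      (b.continuousOn.mono (prod_mono (subset_univ _) vvc_U0))
  have k := vvc_der hF hQ (by
      rintro _ ⟨p, hp, rfl⟩
      exact mb_mem (cm _) (vvc_U0 hp.2))
    (fun s hs z hz hq => by
      have : mb (c (-s)) z ∉ U0 := fun hu =>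
        hq ⟨(s, mb (c (-s)) z), ⟨Ioo_subset_Icc_self hs, hu⟩, inv s z hz⟩
      simp only [vvc_out h this, zero_mul])
    (D := fun w => -(fderiv ℝ m w (vvc_V A w) +
      (1 / 2 - I * T) * (((vvc_V A w).im / w.im : ℝ) : ℂ) * m w) * yp T w * (g (mb M w) : ℂ))
    (fun z hz => by
      have e0 : mb (c (-0)) z = z := by rw [neg_zero, c0, mb_one]
      have u : HasDerivAt (fun s : ℝ => mb (c (-s)) z) (-vvc_V A z) 0 := by
        have u0 : HasDerivAt (fun s => mb (c s) z) (vvc_V A z) (-0) := by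
          rw [neg_zero]
          exact vvc_mb hA c0 z
        exact (u0.scomp (0 : ℝ) (hasDerivAt_neg (0 : ℝ))).congr_deriv (by simp)
      have u1 : HasFDerivAt m (fderiv ℝ m z) (mb (c (-0)) z) := by
        rw [e0]
        exact (m1.differentiable one_ne_zero z).hasFDerivAt
      have u2 : HasFDerivAt (yp T) (fderiv ℝ (yp T) z) (mb (c (-0)) z) := by
        rw [e0]
        exact (hasFDerivAt_yp T hz).1.hasFDerivAt
      have u3 := ((u1.comp_hasDerivAt (0 : ℝ) u).mul (u2.comp_hasDerivAt (0 : ℝ) u)).mul_const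
        (g (mb M z) : ℂ)
      refine u3.congr_deriv ?_
      rw [map_neg, map_neg, (hasFDerivAt_yp T hz).2]
      simp only [Function.comp_apply, e0]
      ring)
  refine l.unique (k.congr_of_eventuallyEq (Eventually.of_forall fun s => ?_))
  simp only [Function.comp_apply, VV]
  rw [← int_mb (cm (-s))]
  refine integral_congr_ae ?_
  filter_upwards [ae_Up] with w hw
  rw [mb_mul _ (cm _) (mb_mem (cm _) hw), inv s w hw]

theorem VV_X1 {m : ℂ → ℂ} (h : Bump m) (T : ℝ) {t : ℝ} {g : ℂ → ℝ} (hg : Eig t g) {M : E}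
    (hM : M ∈ Gp) : X1 (VV m T g) M =
      2 * (1 / 2 - I * T) * VV m T g M + 2 * VV (fun w => fderiv ℝ m w w) T g M := by
  have e : star M = mul M (star one) := by
    apply E_ext <;> simp [mul, one]
  have B : Bump fun w => fderiv ℝ m w w := h.fd contDiff_id
  have hd : HasDerivAt (fun s => fl s one) (star one) 0 := by
    have := ((Real.hasDerivAt_cosh 0).smul_const one).add
      ((Real.hasDerivAt_sinh 0).smul_const (star one))
    exact this.congr_deriv (by simp)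
  rw [X1, e, vvc_flow h T hg hM (c := fun s => fl s one)
    ((Real.contDiff_cosh.smul contDiff_const).add (Real.contDiff_sinh.smul contDiff_const)) hd
    (fl_zero _) (fun s => by simp [Gp, dt_fl, dt_one])
    (fun s => by rw [mul_fl, mul_one', fl_fl, neg_add_cancel, fl_zero]),
    ← VV_const_mul, ← VV_const_mul,
    ← VV_add (h.mul contDiff_const) (B.mul contDiff_const) T hg hM, VV]
  refine integral_congr_ae ?_
  filter_upwards [ae_Up] with w hw
  have hy : w.im ≠ 0 := ne_of_gt hw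
  have v : vvc_V (star one) w = (-2 : ℝ) • w := by
    simp [vvc_V, one]
    ring
  have v' : ((-2 : ℝ) • w).im / w.im = -2 := by
    rw [smul_im, smul_eq_mul, mul_div_assoc, div_self hy, mul_one]
  rw [v, v', map_smul, real_smul]
  push_cast
  ring

theorem VV_XN {m : ℂ → ℂ} (h : Bump m) (T : ℝ) {t : ℝ} {g : ℂ → ℝ} (hg : Eig t g) {M : E}
    (hM : M ∈ Gp) : XN (VV m T g) M = -VV (fun w => fderiv ℝ m w 1) T g M := by
  have e : I • star M - I • M = (2 : ℝ) • mul M (1, 0) := by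
    apply E_ext <;> simp [mul] <;> ring
  have hd : HasDerivAt (fun s : ℝ => ((I + s, 1) : E)) (1, 0) 0 :=
    ((hasDerivAt_id (0 : ℝ)).ofReal_comp.const_add I).prodMk (hasDerivAt_const _ _)
  rw [XN, X2, X3, ← map_sub, e, map_smul, vvc_flow h T hg hM (c := fun s : ℝ => ((I + s, 1) : E))
    ((contDiff_const.add ofRealCLM.contDiff).prodMk contDiff_const) hd
    (by simp [one]) (fun s => by simp [Gp, dt])
    (fun s => by apply E_ext <;> simp [mul, one]), VV, ← integral_neg, real_smul]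
  push_cast
  rw [mul_div_cancel_left₀ _ two_ne_zero]
  refine integral_congr_ae (Eventually.of_forall fun w => ?_)
  simp [vvc_V]

theorem VV_X3 {m : ℂ → ℂ} (h : Bump m) (T : ℝ) {t : ℝ} {g : ℂ → ℝ} (hg : Eig t g) {M : E}
    (hM : M ∈ Gp) : X3 (VV m T g) M = VV (fun w => fderiv ℝ m w (1 + w ^ 2)) T g M +
      2 * (1 / 2 - I * T) * VV (fun w => (w.re : ℂ) * m w) T g M := by
  have e : I • M = mul M (I • one) := by
    apply E_ext <;> simp [mul, one]
  have B : Bump fun w => fderiv ℝ m w (1 + w ^ 2) := h.fd (contDiff_const.add (contDiff_id.pow 2))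
  have B' : Bump fun w => (w.re : ℂ) * m w := h.mul (ofRealCLM.contDiff.comp reCLM.contDiff)
  have hd : HasDerivAt kk (I • one) 0 := by
    have := (((Complex.ofRealCLM.hasDerivAt (x := 0)).mul_const I).cexp).smul_const one
    exact this.congr_deriv (by simp)
  have hc : ContDiff ℝ 1 kk := ((ofRealCLM.contDiff.mul contDiff_const).cexp).smul contDiff_const
  rw [X3, e, vvc_flow h T hg hM hc hd kk_zero kk_mem
    (fun s => by rw [kk_add, add_neg_cancel, kk_zero]),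
    ← VV_const_mul, ← VV_add B (B'.mul contDiff_const) T hg hM, VV]
  refine integral_congr_ae ?_
  filter_upwards [ae_Up] with w hw
  have hy : w.im ≠ 0 := ne_of_gt hw
  have v : vvc_V (I • one) w = -(1 + w ^ 2) := by
    simp [vvc_V, one]
    ring
  have v' : (-(1 + w ^ 2)).im / w.im = -2 * w.re := by
    rw [div_eq_iff hy]
    simp [pow_two]
    ring
  rw [v, v', map_neg]
  push_cast
  ring

/-! Green's identity and the Laplace equation on the group.
`green0`: for `v = 1, I` the function `∂_v ψ * G - ψ * ∂_v G`, extended by zero, is `C¹` with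
compact support, so the integral of its `v`-derivative vanishes
(`integral_fderiv_eq_zero`-type lemma: `integral_mul_fderiv_eq_neg_fderiv_mul_of_integrable`, or
`integral_bilinear_hasLineDerivAt_right_eq_neg_left_of_integrable`).
`green`: apply it to `ψ = m * yp T` and `G = g ∘ mb M` (`eig_mb`):
`y² Δ (m yp) = yp ((σ² - σ) m + 2 σ y ∂_y m + y² Δ m)`, `σ = 1/2 - i T`.
`lap_gt`: with `G = g ∘ mb M`, `gt g (fl s M) = G (e^{-2s} i)` and
`gt g (mul M (I + ξ, 1)) = G (i + ξ)`; two derivatives along each flow give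
`X1 gt = -2 G_y`, `X1 X1 gt = 4 (G_yy + G_y)`, `XN XN gt = G_xx` at `i`. -/

theorem green_open : IsOpen Up := isOpen_lt continuous_const continuous_im

theorem green_out {w : ℂ} (hw : w ∉ Up) : 1 / 50 < ‖w - I‖ := by
  by_contra h
  exact hw (ball_sub (by linarith [not_lt.1 h]))

theorem green_ev {F : ℂ → ℂ} (h0 : ∀ w, 1 / 50 < ‖w - I‖ → F w = 0) {w : ℂ}
    (hw : 1 / 50 < ‖w - I‖) : F =ᶠ[𝓝 w] fun _ => 0 := by
  have ho : IsOpen {u : ℂ | 1 / 50 < ‖u - I‖} :=
    isOpen_lt continuous_const (continuous_id.sub continuous_const).norm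
  filter_upwards [ho.mem_nhds hw] with u hu using h0 u hu

theorem green_fd0 {F : ℂ → ℂ} (h0 : ∀ w, 1 / 50 < ‖w - I‖ → F w = 0) (v w : ℂ)
    (hw : 1 / 50 < ‖w - I‖) : fderiv ℝ F w v = 0 := by
  rw [(green_ev h0 hw).fderiv_eq]
  simp

theorem green_ext {n : WithTop ℕ∞} {F : ℂ → ℂ} (hF : ContDiffOn ℝ n F Up)
    (h0 : ∀ w, 1 / 50 < ‖w - I‖ → F w = 0) : ContDiff ℝ n F := by
  rw [contDiff_iff_contDiffAt]
  intro w
  by_cases hw : w ∈ Up
  · exact hF.contDiffAt (green_open.mem_nhds hw)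
  · exact contDiffAt_const.congr_of_eventuallyEq (green_ev h0 (green_out hw))

theorem green_supp {F : ℂ → ℂ} (h0 : ∀ w, 1 / 50 < ‖w - I‖ → F w = 0) : HasCompactSupport F := by
  refine HasCompactSupport.intro (isCompact_closedBall I (1 / 50)) fun w hw => h0 w ?_
  rwa [Metric.mem_closedBall, dist_eq_norm, not_le] at hw

theorem green_cfd {F : ℂ → ℂ} (hF : ContDiff ℝ 1 F) (v : ℂ) :
    Continuous fun w => fderiv ℝ F w v :=
  (hF.continuous_fderiv one_ne_zero).clm_apply continuous_const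

theorem green_ifd {F : ℂ → ℂ} (hF : ContDiff ℝ 1 F) (h0 : ∀ w, 1 / 50 < ‖w - I‖ → F w = 0)
    (v : ℂ) : Integrable fun w => fderiv ℝ F w v :=
  (green_cfd hF v).integrable_of_hasCompactSupport (green_supp (green_fd0 h0 v))

theorem green_int {F : ℂ → ℂ} (hF : ContDiff ℝ 1 F) (h0 : ∀ w, 1 / 50 < ‖w - I‖ → F w = 0)
    (v : ℂ) : ∫ w, fderiv ℝ F w v = 0 := by
  have h := integral_mul_fderiv_eq_neg_fderiv_mul_of_integrable (μ := (volume : Measure ℂ))
    (f := fun _ : ℂ => (1 : ℂ)) (g := F) (v := v) (by simp)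
    (by simpa using green_ifd hF h0 v)
    (by simpa using hF.continuous.integrable_of_hasCompactSupport (green_supp h0))
    (fun _ _ => differentiableAt_const _) (fun x _ => hF.differentiable one_ne_zero x)
  simpa using h

theorem green_mul {f g : ℂ → ℂ} {w : ℂ} (hf : DifferentiableAt ℝ f w)
    (hg : DifferentiableAt ℝ g w) (v : ℂ) :
    fderiv ℝ (fun u => f u * g u) w v = fderiv ℝ f w v * g w + f w * fderiv ℝ g w v := by
  rw [fderiv_fun_mul hf hg]
  simp only [add_apply, smul_apply, smul_eq_mul]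
  ring

theorem green_re {f : ℂ → ℝ} {w : ℂ} (hf : DifferentiableAt ℝ f w) (v : ℂ) :
    fderiv ℝ (fun u => (f u : ℂ)) w v = ((fderiv ℝ f w v : ℝ) : ℂ) := by
  have h := (ofRealCLM.hasFDerivAt.comp w hf.hasFDerivAt).fderiv
  have h' : fderiv ℝ (fun u => (f u : ℂ)) w = ofRealCLM.comp (fderiv ℝ f w) := h
  rw [h']
  rfl

theorem green_cre {n : WithTop ℕ∞} {f : ℂ → ℝ} (hf : ContDiffOn ℝ n f Up) :
    ContDiffOn ℝ n (fun u => (f u : ℂ)) Up :=
  ofRealCLM.contDiff.comp_contDiffOn hf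

theorem green_c1 {V : Type} [NormedAddCommGroup V] [NormedSpace ℝ V] {f : ℂ → V}
    (hf : ContDiffOn ℝ 2 f Up) (v : ℂ) : ContDiffOn ℝ 1 (fun u => fderiv ℝ f u v) Up :=
  (hf.fderiv_of_isOpen green_open (by norm_num)).clm_apply contDiffOn_const

theorem green_da {V : Type} [NormedAddCommGroup V] [NormedSpace ℝ V] {f : ℂ → V}
    (hf : ContDiffOn ℝ 1 f Up) {w : ℂ} (hw : w ∈ Up) : DifferentiableAt ℝ f w :=
  (hf.contDiffAt (green_open.mem_nhds hw)).differentiableAt one_ne_zero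

/-- the Wronskian in the direction `v` -/
theorem green_wr {G : ℂ → ℝ} (hG : ContDiffOn ℝ 2 G Up) {ψ : ℂ → ℂ} (hψ : ContDiff ℝ 2 ψ)
    (h0 : ∀ w, 1 / 50 < ‖w - I‖ → ψ w = 0) (v : ℂ) : ∃ F : ℂ → ℂ, ContDiff ℝ 1 F ∧
      (∀ w, 1 / 50 < ‖w - I‖ → F w = 0) ∧ ∀ w ∈ Up, fderiv ℝ F w v =
        fderiv ℝ (fun u => fderiv ℝ ψ u v) w v * (G w : ℂ) -
          ψ w * ((fderiv ℝ (fun u => fderiv ℝ G u v) w v : ℝ) : ℂ) := by
  have a1 : ContDiffOn ℝ 1 (fun u => fderiv ℝ ψ u v) Up := green_c1 hψ.contDiffOn v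
  have a2 : ContDiffOn ℝ 1 G Up := hG.of_le (by norm_num)
  have a3 : ContDiffOn ℝ 1 ψ Up := hψ.contDiffOn.of_le (by norm_num)
  have a4 : ContDiffOn ℝ 1 (fun u => fderiv ℝ G u v) Up := green_c1 hG v
  have z : ∀ w, 1 / 50 < ‖w - I‖ →
      fderiv ℝ ψ w v * (G w : ℂ) - ψ w * ((fderiv ℝ G w v : ℝ) : ℂ) = 0 := fun w hw => by
    rw [green_fd0 h0 v w hw, h0 w hw]
    ring
  refine ⟨fun u => fderiv ℝ ψ u v * (G u : ℂ) - ψ u * ((fderiv ℝ G u v : ℝ) : ℂ),
    green_ext ((a1.mul (green_cre a2)).sub (a3.mul (green_cre a4))) z, z, fun w hw => ?_⟩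
  rw [fderiv_fun_sub (green_da (a1.mul (green_cre a2)) hw) (green_da (a3.mul (green_cre a4)) hw),
    sub_apply, green_mul (green_da a1 hw) (green_da (green_cre a2) hw),
    green_mul (green_da a3 hw) (green_da (green_cre a4) hw), green_re (green_da a2 hw),
    green_re (green_da a4 hw)]
  ring

theorem green0 {t : ℝ} {G : ℂ → ℝ} (hG : Eig t G) {ψ : ℂ → ℂ} (hψ : ContDiff ℝ 2 ψ)
    (h0 : ∀ w, 1 / 50 < ‖w - I‖ → ψ w = 0) :
    ∫ w, (((w.im ^ 2 : ℝ) : ℂ) * (fderiv ℝ (fun u => fderiv ℝ ψ u 1) w 1 +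
      fderiv ℝ (fun u => fderiv ℝ ψ u I) w I) + ((1 / 4 + t ^ 2 : ℝ) : ℂ) * ψ w) * (G w : ℂ) ∂muH
      = 0 := by
  obtain ⟨F, hF, hF0, hF'⟩ := green_wr hG.c2 hψ h0 1
  obtain ⟨H, hH, hH0, hH'⟩ := green_wr hG.c2 hψ h0 I
  have e : ∫ w in Up, (fderiv ℝ F w 1 + fderiv ℝ H w I) = 0 := by
    rw [setIntegral_eq_integral_of_forall_compl_eq_zero (fun w hw => by
      rw [green_fd0 hF0 1 w (green_out hw), green_fd0 hH0 I w (green_out hw), add_zero]),
      integral_add (green_ifd hF hF0 1) (green_ifd hH hH0 I), green_int hF hF0,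
      green_int hH hH0, add_zero]
  rw [int_muH, ← e]
  refine setIntegral_congr_fun green_open.measurableSet fun w hw => ?_
  have hy : (w.im : ℂ) ≠ 0 := ofReal_ne_zero.2 (ne_of_gt hw)
  have q := congrArg (fun x : ℝ => (x : ℂ)) (hG.eq' hw)
  simp only [hF' w hw, hH' w hw, real_smul]
  push_cast at q ⊢
  field_simp
  linear_combination (4 * ψ w) * q

theorem green_cim {n : WithTop ℕ∞} : ContDiff ℝ n fun w : ℂ => (w.im : ℂ) :=
  ofRealCLM.contDiff.comp imCLM.contDiff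

theorem green_fim (w : ℂ) : fderiv ℝ (fun u : ℂ => (u.im : ℂ)) w I = 1 := by
  have h : fderiv ℝ (fun u : ℂ => (u.im : ℂ)) w = ofRealCLM.comp imCLM :=
    (ofRealCLM.comp imCLM).fderiv
  rw [h]
  simp

theorem green_cinv {n : WithTop ℕ∞} : ContDiffOn ℝ n (fun w : ℂ => (w.im : ℂ)⁻¹) Up :=
  green_cim.contDiffOn.inv fun _ hw => ofReal_ne_zero.2 (ne_of_gt hw)

theorem green_finv {w : ℂ} (hw : w ∈ Up) :
    fderiv ℝ (fun u : ℂ => (u.im : ℂ)⁻¹) w I = -((w.im : ℂ)⁻¹ * (w.im : ℂ)⁻¹) := by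
  have hy : (w.im : ℂ) ≠ 0 := ofReal_ne_zero.2 (ne_of_gt hw)
  have h := green_mul (green_da green_cinv hw) (green_da green_cim.contDiffOn hw) I
  have e : (fun u : ℂ => (u.im : ℂ)⁻¹ * (u.im : ℂ)) =ᶠ[𝓝 w] fun _ => 1 := by
    filter_upwards [green_open.mem_nhds hw] with u hu
    exact inv_mul_cancel₀ (ofReal_ne_zero.2 (ne_of_gt hu))
  rw [e.fderiv_eq, green_fim] at h
  simp only [fderiv_fun_const, Pi.zero_apply, zero_apply] at h
  field_simp at h ⊢
  linear_combination -h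

theorem green_cyp (T : ℝ) : ContDiffOn ℝ 2 (yp T) Up := by
  have a : ContDiffOn ℝ 2 (fun w : ℂ => w.im) Up := imCLM.contDiff.contDiffOn
  have b : ContDiffOn ℝ 2 (fun w : ℂ => √w.im) Up := a.sqrt fun _ hw => ne_of_gt hw
  have c : ContDiffOn ℝ 2 (fun w : ℂ => -(T * Real.log w.im)) Up :=
    (contDiffOn_const.mul (a.log fun _ hw => ne_of_gt hw)).neg
  exact (green_cre b).mul ((green_cre c).mul contDiffOn_const).cexp

theorem green_lap {m : ℂ → ℂ} (hm : ContDiffOn ℝ 2 m Up) (T : ℝ) {w : ℂ} (hw : w ∈ Up) :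
    fderiv ℝ (fun u => fderiv ℝ (fun x => m x * yp T x) u 1) w 1 =
        fderiv ℝ (fun u => fderiv ℝ m u 1) w 1 * yp T w ∧
      fderiv ℝ (fun u => fderiv ℝ (fun x => m x * yp T x) u I) w I =
        (fderiv ℝ (fun u => fderiv ℝ m u I) w I +
          2 * (1 / 2 - I * T) * (w.im : ℂ)⁻¹ * fderiv ℝ m w I +
          ((1 / 2 - I * T) ^ 2 - (1 / 2 - I * T)) * ((w.im : ℂ)⁻¹ * (w.im : ℂ)⁻¹) * m w) *
          yp T w := by
  have m1 : ContDiffOn ℝ 1 m Up := hm.of_le (by norm_num)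
  have dy : ∀ u ∈ Up, DifferentiableAt ℝ (yp T) u := fun u hu => (hasFDerivAt_yp T hu).1
  have y1 : ∀ u ∈ Up, fderiv ℝ (yp T) u 1 = 0 := fun u hu => by
    rw [(hasFDerivAt_yp T hu).2]
    simp
  have yI : ∀ u ∈ Up, fderiv ℝ (yp T) u I = (1 / 2 - I * T) * (u.im : ℂ)⁻¹ * yp T u :=
    fun u hu => by
      rw [(hasFDerivAt_yp T hu).2]
      simp
  have e1 : (fun u => fderiv ℝ (fun x => m x * yp T x) u 1) =ᶠ[𝓝 w]
      fun u => fderiv ℝ m u 1 * yp T u := by
    filter_upwards [green_open.mem_nhds hw] with u hu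
    rw [green_mul (green_da m1 hu) (dy u hu), y1 u hu]
    ring
  have eI : (fun u => fderiv ℝ (fun x => m x * yp T x) u I) =ᶠ[𝓝 w]
      fun u => (fderiv ℝ m u I + (1 / 2 - I * T) * ((u.im : ℂ)⁻¹ * m u)) * yp T u := by
    filter_upwards [green_open.mem_nhds hw] with u hu
    rw [green_mul (green_da m1 hu) (dy u hu), yI u hu]
    ring
  have d1 := green_da (green_cinv.mul m1) hw
  have d2 : DifferentiableAt ℝ (fun u : ℂ => (1 / 2 - I * T) * ((u.im : ℂ)⁻¹ * m u)) w :=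
    d1.const_mul _
  have d3 := green_da (green_c1 hm I) hw
  refine ⟨?_, ?_⟩
  · rw [e1.fderiv_eq, green_mul (green_da (green_c1 hm 1) hw) (dy w hw), y1 w hw]
    ring
  · rw [eI.fderiv_eq, green_mul (d3.fun_add d2) (dy w hw), yI w hw, fderiv_fun_add d3 d2, add_apply,
      green_mul (differentiableAt_const _) d1, green_mul (green_da green_cinv hw) (green_da m1 hw),
      green_finv hw]
    simp only [fderiv_fun_const, Pi.zero_apply, zero_apply]
    ring

theorem green {m : ℂ → ℂ} (h : Bump m) (T : ℝ) {t : ℝ} {g : ℂ → ℝ} (hg : Eig t g) {M : E}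
    (hM : M ∈ Gp) :
    ((t ^ 2 - T ^ 2 : ℝ) : ℂ) * VV m T g M +
      2 * (1 / 2 - I * T) * VV (fun w => (w.im : ℂ) * fderiv ℝ m w I) T g M +
      VV (fun w => ((w.im ^ 2 : ℝ) : ℂ) * (fderiv ℝ (fun u => fderiv ℝ m u 1) w 1 +
        fderiv ℝ (fun u => fderiv ℝ m u I) w I)) T g M = 0 := by
  have m2 : ContDiffOn ℝ 2 m Up := (contDiff_infty.1 h.smooth 2).contDiffOn
  have z : ∀ w, 1 / 50 < ‖w - I‖ → m w * yp T w = 0 := fun w hw => by rw [h.supp w hw, zero_mul]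
  have e := green0 (eig_mb hg hM) (green_ext (m2.mul (green_cyp T)) z) z
  have bI : Bump fun w => fderiv ℝ m w I := h.fd contDiff_const
  have b1 : Bump fun w => fderiv ℝ m w 1 := h.fd contDiff_const
  have B1 : Bump fun w => ((t ^ 2 - T ^ 2 : ℝ) : ℂ) * m w := h.mul contDiff_const
  have B2 : Bump fun w => 2 * (1 / 2 - I * T) * ((w.im : ℂ) * fderiv ℝ m w I) :=
    (bI.mul green_cim).mul contDiff_const
  have c2 : ContDiff ℝ (⊤ : ℕ∞) fun w : ℂ => ((w.im ^ 2 : ℝ) : ℂ) :=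
    ofRealCLM.contDiff.comp (imCLM.contDiff.pow 2)
  have B3 : Bump fun w => ((w.im ^ 2 : ℝ) : ℂ) * (fderiv ℝ (fun u => fderiv ℝ m u 1) w 1 +
      fderiv ℝ (fun u => fderiv ℝ m u I) w I) :=
    ((b1.fd contDiff_const).add (bI.fd contDiff_const)).mul c2
  rw [← VV_const_mul, ← VV_const_mul, ← VV_add B1 B2 T hg hM, ← VV_add (B1.add B2) B3 T hg hM,
    ← e, VV]
  refine integral_congr_ae ?_
  filter_upwards [ae_Up] with w hw
  have hy : (w.im : ℂ) ≠ 0 := ofReal_ne_zero.2 (ne_of_gt hw)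
  rw [(green_lap m2 T hw).1, (green_lap m2 T hw).2]
  push_cast
  field_simp
  linear_combination (-(16 * (T : ℂ) ^ 2 * m w * yp T w * (g (mb M w) : ℂ))) * I_sq

theorem gt_smooth {t : ℝ} {g : ℂ → ℝ} (hg : Eig t g) : ContDiffOn ℝ 2 (gt g) Gp :=
  ofRealCLM.contDiff.comp_contDiffOn (hg.c2.comp contDiffOn_pr fun _ hM => pr_mem hM)

theorem lap_diffAt {h : E → ℂ} (hh : ContDiffOn ℝ 2 h Gp) {M : E} (hM : M ∈ Gp) :
    DifferentiableAt ℝ h M :=
  (hh.contDiffAt (isOpen_Gp.mem_nhds hM)).differentiableAt (by norm_num)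

theorem X3_gt (g : ℂ → ℝ) {t : ℝ} (hg : Eig t g) {M : E} (hM : M ∈ Gp) : X3 (gt g) M = 0 := by
  have h1 := hasDerivAt_rot (h := gt g) (M := M) (θ := 0)
    (by rw [rot_zero]; exact lap_diffAt (gt_smooth hg) hM)
  rw [rot_zero] at h1
  have h2 : (fun r => gt g (rot r M)) = fun _ => gt g M := by
    funext r
    simp only [gt, pr_rot]
  rw [h2] at h1
  exact h1.unique (hasDerivAt_const _ _)

/-- two derivatives along an integral curve of a linear vector field -/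
theorem lap_curve {h : E → ℂ} (hh : ContDiffOn ℝ 2 h Gp) (V : E →L[ℝ] E) {c : ℝ → E}
    (hc : ∀ s, HasDerivAt c (V (c s)) s) (hG : ∀ s, c s ∈ Gp) {u : ℝ → ℂ} {u₂ : ℂ}
    (h1 : ∀ s, HasDerivAt (fun r => h (c r)) (u s) s) (h2 : HasDerivAt u u₂ 0) :
    fderiv ℝ h (c 0) (V (c 0)) = u 0 ∧
      fderiv ℝ (fun N => fderiv ℝ h N (V N)) (c 0) (V (c 0)) = u₂ := by
  have e1 : ∀ s, fderiv ℝ h (c s) (V (c s)) = u s := fun s =>
    ((lap_diffAt hh (hG s)).hasFDerivAt.comp_hasDerivAt s (hc s)).unique (h1 s)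
  refine ⟨e1 0, ?_⟩
  have hd : DifferentiableAt ℝ (fun N => fderiv ℝ h N (V N)) (c 0) := by
    have h3 : ContDiffAt ℝ 1 (fderiv ℝ h) (c 0) :=
      (hh.contDiffAt (isOpen_Gp.mem_nhds (hG 0))).fderiv_right (by norm_num)
    exact (h3.differentiableAt (by norm_num)).clm_apply V.differentiableAt
  have h4 := hd.hasFDerivAt.comp_hasDerivAt 0 (hc 0)
  have e2 : ((fun N => fderiv ℝ h N (V N)) ∘ c) = u := funext e1
  rw [e2] at h4
  exact h4.unique h2

noncomputable def lap_V : E →L[ℝ] E :=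
  (ofRealCLM.comp imCLM).prodMap (ofRealCLM.comp imCLM)

theorem lap_V_apply (M : E) : lap_V M = ((M.1.im : ℂ), (M.2.im : ℂ)) := rfl

theorem lap_XN (h : E → ℂ) (M : E) : XN h M = fderiv ℝ h M (lap_V M) := by
  have e : lap_V M = (1 / 2 : ℝ) • (I • star M - I • M) := by
    rw [lap_V_apply]
    apply E_ext <;> simp <;> ring
  rw [e, map_smul, map_sub]
  simp only [XN, X2, X3, real_smul]
  push_cast
  ring

theorem lap_pr_fl (s : ℝ) : pr (fl s one) = (Real.exp (-2 * s) : ℝ) • I := by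
  have h1 : (fl s one).1 = (Real.exp (-s) : ℝ) • I := by
    rw [← Real.cosh_sub_sinh, sub_smul]
    simp only [fl, one, Prod.fst_add, Prod.smul_fst, Prod.fst_star, star_def, conj_I, smul_neg]
    rw [sub_eq_add_neg]
  have h2 : (fl s one).2 = (Real.exp s : ℝ) := by
    rw [← Real.cosh_add_sinh, ofReal_add]
    simp only [fl, one, Prod.snd_add, Prod.smul_snd, Prod.snd_star, star_one, real_smul, mul_one]
  have h3 : ((Real.exp s : ℝ) : ℂ) ≠ 0 := ofReal_ne_zero.2 (Real.exp_pos s).ne'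
  have h4 : Real.exp (-s) = Real.exp (-2 * s) * Real.exp s := by
    rw [← Real.exp_add]; congr 1; ring
  rw [pr, h1, h2, div_eq_iff h3, h4, real_smul, real_smul]
  push_cast
  ring

theorem lap_gt {t : ℝ} {g : ℂ → ℝ} (hg : Eig t g) {M : E} (hM : M ∈ Gp) :
    X1 (X1 (gt g)) M / 4 + X1 (gt g) M / 2 + XN (XN (gt g)) M +
      ((1 / 4 + t ^ 2 : ℝ) : ℂ) * gt g M = 0 := by
  have hG := eig_mb hg hM
  set G : ℂ → ℝ := fun w => g (mb M w) with hGdef
  have hI : I ∈ Up := by simp [Up]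
  have hd : ∀ z ∈ Up, DifferentiableAt ℝ G z := fun z hz =>
    (hG.c2.contDiffAt (isOpen_Up.mem_nhds hz)).differentiableAt (by norm_num)
  have hd2 : ∀ v : ℂ, DifferentiableAt ℝ (fun w => fderiv ℝ G w v) I := fun v => by
    have h3 : ContDiffAt ℝ 1 (fderiv ℝ G) I :=
      (hG.c2.contDiffAt (isOpen_Up.mem_nhds hI)).fderiv_right (by norm_num)
    exact (h3.differentiableAt (by norm_num)).clm_apply (differentiableAt_const _)
  -- the geodesic flow
  have a1 : ∀ s : ℝ, HasDerivAt (fun r => fl r M) (Cub.starL (fl s M)) s := fun s => by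
    rw [Cub.starL_apply, star_fl]
    exact ((Real.hasDerivAt_cosh s).smul_const M).add ((Real.hasDerivAt_sinh s).smul_const _)
  have a2 : ∀ s : ℝ, fl s M ∈ Gp := fun s => by
    change 0 < dt (fl s M)
    rw [dt_fl]; exact hM
  have a3 : (fun r => gt g (fl r M)) = fun r => (G ((Real.exp (-2 * r) : ℝ) • I) : ℂ) := by
    funext r
    have h1 : fl r one ∈ Gp := by
      change 0 < dt (fl r one)
      rw [dt_fl, dt_one]; exact one_pos
    have h2 : fl r M = mul M (fl r one) := by rw [mul_fl, mul_one']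
    simp only [gt, hGdef]
    rw [h2, pr_mul M h1, lap_pr_fl]
  have a4 : ∀ s : ℝ, HasDerivAt (fun r : ℝ => Real.exp (-2 * r)) (Real.exp (-2 * s) * (-2)) s :=
    fun s => by simpa using ((hasDerivAt_id s).const_mul (-2)).exp
  have a5 : ∀ s : ℝ, ((Real.exp (-2 * s) : ℝ) • I) ∈ Up := fun s => by
    change 0 < ((Real.exp (-2 * s) : ℝ) • I).im
    rw [smul_im, I_im, smul_eq_mul, mul_one]
    exact Real.exp_pos _
  have a6 : ∀ s : ℝ, HasDerivAt (fun r => gt g (fl r M))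
      ((Real.exp (-2 * s) * (-2) * fderiv ℝ G ((Real.exp (-2 * s) : ℝ) • I) I : ℝ) : ℂ) s := by
    intro s
    rw [a3]
    have := (hd _ (a5 s)).hasFDerivAt.comp_hasDerivAt s ((a4 s).smul_const I)
    rw [map_smul, smul_eq_mul] at this
    exact this.ofReal_comp
  have a0 : ((Real.exp (-2 * 0) : ℝ) • I) = I := by simp
  have a7 : HasDerivAt (fun s : ℝ => fderiv ℝ G ((Real.exp (-2 * s) : ℝ) • I) I)
      (-2 * fderiv ℝ (fun w => fderiv ℝ G w I) I I) 0 := by
    have h1 : HasFDerivAt (fun w => fderiv ℝ G w I) (fderiv ℝ (fun w => fderiv ℝ G w I) I)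
        ((Real.exp (-2 * 0) : ℝ) • I) := by
      rw [a0]; exact (hd2 I).hasFDerivAt
    have := h1.comp_hasDerivAt (0 : ℝ) ((a4 0).smul_const I)
    rw [map_smul, smul_eq_mul, mul_zero, Real.exp_zero, one_mul] at this
    exact this
  have a8 := (((a4 0).mul_const (-2)).mul a7).ofReal_comp
  obtain ⟨b1, b2⟩ := lap_curve (gt_smooth hg) Cub.starL a1 a2 a6 a8
  rw [fl_zero, a0] at b1 b2
  -- the horocycle flow
  have c0 : ∀ s : ℝ, lap_V (M + s • lap_V M) = lap_V M := fun s => by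
    simp [lap_V_apply]
  have c1 : ∀ s : ℝ, HasDerivAt (fun r : ℝ => M + r • lap_V M) (lap_V (M + s • lap_V M)) s :=
    fun s => by
      rw [c0]
      simpa using ((hasDerivAt_id s).smul_const (lap_V M)).const_add M
  have c2' : ∀ s : ℝ, M + s • lap_V M = mul M (I + s • 1, 1) := fun s => by
    rw [lap_V_apply]
    apply E_ext <;> simp [mul] <;> ring
  have c5 : ∀ s : ℝ, I + s • (1 : ℂ) ∈ Up := fun s => by simp [Up]
  have c2 : ∀ s : ℝ, M + s • lap_V M ∈ Gp := fun s => by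
    rw [c2']
    exact mul_mem hM (aff_mem (c5 s))
  have c3 : (fun r : ℝ => gt g (M + r • lap_V M)) = fun r => (G (I + r • 1) : ℂ) := by
    funext r
    rw [c2']
    rfl
  have c4 : ∀ s : ℝ, HasDerivAt (fun r : ℝ => I + r • (1 : ℂ)) 1 s := fun s => by
    simpa using ((hasDerivAt_id s).smul_const (1 : ℂ)).const_add I
  have c6 : ∀ s : ℝ, HasDerivAt (fun r : ℝ => gt g (M + r • lap_V M))
      ((fderiv ℝ G (I + s • 1) 1 : ℝ) : ℂ) s := by
    intro s
    rw [c3]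
    exact ((hd _ (c5 s)).hasFDerivAt.comp_hasDerivAt s (c4 s)).ofReal_comp
  have c7 : HasDerivAt (fun s : ℝ => fderiv ℝ G (I + s • 1) 1)
      (fderiv ℝ (fun w => fderiv ℝ G w 1) I 1) 0 := by
    have h1 : HasFDerivAt (fun w => fderiv ℝ G w 1) (fderiv ℝ (fun w => fderiv ℝ G w 1) I)
        (I + (0 : ℝ) • 1) := by
      rw [zero_smul, add_zero]; exact (hd2 1).hasFDerivAt
    exact h1.comp_hasDerivAt (0 : ℝ) (c4 0)
  obtain ⟨-, d2⟩ := lap_curve (gt_smooth hg) lap_V c1 c2 c6 c7.ofReal_comp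
  rw [zero_smul, add_zero] at d2
  have e1 : X1 (gt g) M = _ := b1
  have e2 : X1 (X1 (gt g)) M = _ := b2
  have e3 : XN (XN (gt g)) M = ((fderiv ℝ (fun w => fderiv ℝ G w 1) I 1 : ℝ) : ℂ) := by
    rw [lap_XN, ← d2]
    congr 2
    funext N
    exact lap_XN _ _
  have e4 : gt g M = (G I : ℂ) := by simp only [gt, hGdef, mb_I]
  have e5 := hG.eq' hI
  rw [e1, e2, e3, e4]
  simp only [mul_zero, Real.exp_zero, I_im] at e5 ⊢
  have e6 := congrArg (fun x : ℝ => (x : ℂ)) e5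
  push_cast at e6 ⊢
  linear_combination e6

/-! Approximate invariance under the geodesic flow.
Let `L = X1²/4 + X1/2 + XN² + (1/4 + t²)`, `L gt = 0` (`lap_gt`), and
`L* = X1²/4 - X1/2 + XN² + (1/4 + t²)`.  Integration by parts (`ibp_X1`, `ibp_X2`, `ibp_X3` applied
to products; `Van.mul`) gives `0 = ∫ gt L* (a V)` and
`L* (a V) = a L* V + (X1 a) (X1 V) / 2 + (X1² a / 4 - X1 a / 2 + XN² a) V + 2 (XN a) (XN V)`.
With `σ = 1/2 - i T`, `D m = fderiv m w w`, `n = fderiv m w 1`: `VV_X1`, `VV_XN` twice give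
`L* V_m = (t² - T²) V_m + (2σ - 1) V_{D m} + V_{D D m} + V_{∂_x n}`; subtract `green`, use
`D m = x n + y ∂_y m` and `VV_X3` for `n`: `L* V_m = X3 V_n + V_{m₂}` with `m₂` independent of
`T, t`.  Finally `∫ gt a X3 V_n = -∫ gt (X3 a) V_n` by `X3_gt`, and
`(X1 a) (X1 V_m) / 2 = σ (X1 a) V_m + (X1 a) V_{D m}`. -/

theorem anti_fl_mem (s : ℝ) {M : E} (hM : M ∈ Gp) : fl s M ∈ Gp := by
  show 0 < dt _
  rw [dt_fl]; exact hM

theorem anti_contDiff_fl {n : WithTop ℕ∞} :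
    ContDiff ℝ n fun p : E × ℝ => fl (-p.2) p.1 := by
  unfold fl
  exact ((Real.contDiff_cosh.comp contDiff_snd.neg).smul contDiff_fst).add
    ((Real.contDiff_sinh.comp contDiff_snd.neg).smul (contDiff_star.comp contDiff_fst))

theorem anti_smooth {a : E → ℂ} (ha : ContDiffOn ℝ (⊤ : ℕ∞) a Gp) {r : ℝ} (hr : 0 ≤ r) :
    ContDiffOn ℝ (⊤ : ℕ∞) (fun M => ∫ τ in (0 : ℝ)..r, a (fl τ M)) Gp := by
  let χ : ContDiffBump (0 : ℝ) := ⟨r + 1, r + 2, by linarith, by linarith⟩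
  have hf : LocallyIntegrable ((Ioc (0 : ℝ) r).indicator fun _ => (1 : ℝ)) volume :=
    (locallyIntegrable_const (1 : ℝ)).indicator measurableSet_Ioc
  have hg : ContDiffOn ℝ (⊤ : ℕ∞) (fun p : E × ℝ => (χ p.2) • a (fl (-p.2) p.1)) (Gp ×ˢ univ) :=
    (χ.contDiff.comp contDiff_snd).contDiffOn.smul
      (ha.comp anti_contDiff_fl.contDiffOn fun p hp => anti_fl_mem _ hp.1)
  have h := MeasureTheory.contDiffOn_convolution_right_with_param_comp (𝕜 := ℝ) (n := ⊤)
    (μ := (volume : Measure ℝ)) (ContinuousLinearMap.lsmul ℝ ℝ : ℝ →L[ℝ] ℂ →L[ℝ] ℂ) (s := Gp)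
    (v := fun _ : E => (0 : ℝ)) contDiffOn_const
    (g := fun (M : E) (x : ℝ) => (χ x) • a (fl (-x) M))
    (k := Metric.closedBall (0 : ℝ) (r + 2)) isOpen_Gp (isCompact_closedBall _ _)
    (fun M x _ hx => by
      have : χ x = 0 := χ.zero_of_le_dist (by
        have h1 : r + 2 < dist x 0 := by simpa using hx
        exact h1.le)
      simp [this]) hf hg
  refine h.congr fun M _ => ?_
  rw [intervalIntegral.integral_of_le hr, convolution_def, ← integral_indicator measurableSet_Ioc]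
  refine integral_congr_ae (Eventually.of_forall fun t => ?_)
  by_cases ht : t ∈ Ioc (0 : ℝ) r
  · have h1 : χ (-t) = 1 := χ.one_of_mem_closedBall (by
      rw [mem_closedBall_zero_iff, norm_neg, Real.norm_eq_abs, abs_of_pos ht.1]
      exact ht.2.trans (by show r ≤ r + 1; linarith))
    simp [ht, h1]
  · simp [ht]

/-- `a' M = ∫ τ in 0..r, a (fl τ M)`; smoothness by `contDiffOn_convolution_right_with_param` -/
theorem antider {a : E → ℂ} (ha : Test a) {r : ℝ} (hr : 0 ≤ r) :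
    ∃ a' : E → ℂ, Test a' ∧ ∀ M ∈ Gp, X1 a' M = a (fl r M) - a M := by
  have hs := anti_smooth ha.smooth hr
  refine ⟨fun M => ∫ τ in (0 : ℝ)..r, a (fl τ M), ⟨hs, ?_⟩, fun M hM => ?_⟩
  · obtain ⟨ρ, hρ⟩ := ha.van
    refine ⟨Real.exp r * max ρ 0, fun M h1 h2 h3 => ?_⟩
    have : ∀ τ ∈ uIcc (0 : ℝ) r, a (fl τ M) = (fun _ => (0 : ℂ)) τ := by
      intro τ hτ
      rw [uIcc_of_le hr] at hτ
      refine hρ _ (by rwa [dt_fl]) (by rwa [dt_fl]) ?_
      have h4 := norm_fl_le (-τ) (fl τ M)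
      rw [fl_fl, neg_add_cancel, fl_zero, abs_neg, abs_of_nonneg hτ.1] at h4
      have h5 : Real.exp τ * ‖fl τ M‖ ≤ Real.exp r * ‖fl τ M‖ :=
        mul_le_mul_of_nonneg_right (Real.exp_le_exp.2 hτ.2) (norm_nonneg _)
      have h6 : Real.exp r * max ρ 0 < Real.exp r * ‖fl τ M‖ := by linarith
      exact (le_max_left ρ 0).trans_lt (lt_of_mul_lt_mul_left h6 (Real.exp_pos r).le)
    show ∫ τ in (0 : ℝ)..r, a (fl τ M) = 0
    rw [intervalIntegral.integral_congr this]; simp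
  · have hc : Continuous fun τ : ℝ => a (fl τ M) :=
      ha.cont.comp_continuous (by fun_prop) fun τ => anti_fl_mem τ hM
    have h1 := hasDerivAt_fl (h := fun M => ∫ τ in (0 : ℝ)..r, a (fl τ M)) (M := M) (s := 0)
      (by rw [fl_zero]; exact (hs.contDiffAt (isOpen_Gp.mem_nhds hM)).differentiableAt (by simp))
    rw [fl_zero] at h1
    have hF : ∀ x : ℝ, HasDerivAt (fun u => ∫ τ in (0 : ℝ)..u, a (fl τ M)) (a (fl x M)) x :=
      fun x => (hc.integral_hasStrictDerivAt 0 x).hasDerivAt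
    have h2 : HasDerivAt (fun s : ℝ => (∫ τ in (0 : ℝ)..(r + s), a (fl τ M)) -
        ∫ τ in (0 : ℝ)..s, a (fl τ M)) (a (fl r M) - a M) 0 := by
      have h3 := (hF (r + 0)).comp_const_add r 0
      have h4 := hF 0
      rw [add_zero] at h3
      rw [fl_zero] at h4
      exact h3.sub h4
    refine h1.unique (h2.congr_of_eventuallyEq (Eventually.of_forall fun s => ?_))
    simp only [fl_fl]
    rw [intervalIntegral.integral_comp_add_right (fun τ => a (fl τ M)) s, zero_add,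
      intervalIntegral.integral_interval_sub_left (hc.intervalIntegrable _ _)
        (hc.intervalIntegrable _ _)]

theorem test_pr {φ : ℂ → ℝ} (h : Tst φ) : Test fun M => (φ (pr M) : ℂ) := by
  refine ⟨ofRealCLM.contDiff.comp_contDiffOn (h.smooth.comp_contDiffOn contDiffOn_pr), ?_⟩
  obtain ⟨K, hK, hKU, hz⟩ := h.supp
  obtain ⟨R, hR⟩ := hK.exists_bound_of_continuousOn (f := fun z : ℂ => z) continuousOn_id
  obtain ⟨S, hS⟩ := hK.exists_bound_of_continuousOn (f := fun z : ℂ => (z.im)⁻¹)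
    (continuous_im.continuousOn.inv₀ fun z hz => (hKU hz).ne')
  refine ⟨(|R| + 1) * (5 * |S| + 1), fun M h1 h2 h3 => ?_⟩
  have : pr M ∉ K := by
    intro hk
    have hG : M ∈ Gp := by show 0 < dt M; linarith
    have hv : 0 < ‖M.2‖ := norm_pos_iff.2 (snd_ne_zero hG)
    have hd : 0 < dt M := hG
    have e1 : ((pr M).im)⁻¹ * dt M = ‖M.2‖ ^ 2 := by
      rw [im_pr, normSq_eq_norm_sq]; field_simp
    have e2 : ((pr M).im)⁻¹ ≤ |S| := by
      have := hS _ hk
      rw [Real.norm_eq_abs] at this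
      exact (le_abs_self _).trans (this.trans (le_abs_self _))
    have e3 : ‖M.2‖ ^ 2 ≤ 5 * |S| := by
      rw [← e1]
      nlinarith [abs_nonneg S]
    have e4 : ‖M.2‖ ≤ 5 * |S| + 1 := by nlinarith [sq_nonneg (‖M.2‖ - 1)]
    have e5 : ‖M.1‖ = ‖pr M‖ * ‖M.2‖ := by
      rw [pr, norm_div]; field_simp
    have e6 : ‖pr M‖ ≤ |R| := (hR _ hk).trans (le_abs_self _)
    have e7 : ‖M.1‖ ≤ |R| * (5 * |S| + 1) := by
      rw [e5]; exact mul_le_mul e6 e4 (norm_nonneg _) (abs_nonneg _)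
    have e8 : ‖M‖ ≤ (|R| + 1) * (5 * |S| + 1) := by
      rw [Prod.norm_def]
      refine max_le ?_ ?_
      · nlinarith [abs_nonneg S, abs_nonneg R]
      · nlinarith [abs_nonneg S, abs_nonneg R, mul_nonneg (abs_nonneg S) (abs_nonneg R)]
    linarith
  simp [hz _ this]

theorem Test.sum {ι : Type} (s : Finset ι) {a : ι → E → ℂ} (h : ∀ i ∈ s, Test (a i)) (c : ℂ) :
    Test fun M => c * ∑ i ∈ s, a i M := by
  refine ⟨contDiffOn_const.mul (ContDiffOn.sum fun i hi => (h i hi).smooth), ?_⟩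
  have : ∀ i, ∃ ρ : ℝ, i ∈ s → ∀ M : E, 1 / 2 < dt M → dt M < 5 → ρ < ‖M‖ → a i M = 0 := by
    intro i
    by_cases hi : i ∈ s
    · obtain ⟨ρ, hρ⟩ := (h i hi).van
      exact ⟨ρ, fun _ => hρ⟩
    · exact ⟨0, fun h' => absurd h' hi⟩
  choose ρ hρ using this
  refine ⟨∑ i ∈ s, |ρ i|, fun M h1 h2 h3 => ?_⟩
  show c * ∑ i ∈ s, a i M = 0
  rw [Finset.sum_eq_zero fun i hi => hρ i hi M h1 h2 ?_, mul_zero]
  exact ((le_abs_self _).trans
    (Finset.single_le_sum (f := fun i => |ρ i|) (fun j _ => abs_nonneg _) hi)).trans_lt h3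

theorem Test.x1 {a : E → ℂ} (h : Test a) : Test (X1 a) := by
  obtain ⟨ρ, hρ⟩ := h.van.fderiv
  exact ⟨contDiffOn_field h.smooth top_add_one contDiff_star, ρ, fun M h1 h2 h3 => by
    simp [X1, (hρ M h1 h2 h3).2]⟩

theorem Test.xn {a : E → ℂ} (h : Test a) : Test (XN a) := by
  obtain ⟨ρ, hρ⟩ := h.van.fderiv
  exact ⟨((contDiffOn_field h.smooth top_add_one (contDiff_star.const_smul I)).sub
    (contDiffOn_X3 h.smooth top_add_one)).div_const 2, ρ, fun M h1 h2 h3 => by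
    simp [XN, X2, X3, (hρ M h1 h2 h3).2]⟩

theorem ibp_XN {h : E → ℂ} (hc : ContDiffOn ℝ 1 h Gp) (hv : Van h) : ∫ M, XN h M ∂nu = 0 := by
  obtain ⟨-, h2⟩ := integrable_X12 hc hv
  obtain ⟨ρ, hρ⟩ := hv.fderiv
  have h3 : Integrable (X3 h) nu :=
    integrable_of_cont (contDiffOn_X3 (m := 0) hc (by simp)).continuousOn
      (ρ := ρ) fun M hM h3 => by simp [X3, (hρ M (by linarith [hM.1]) (by linarith [hM.2]) h3).2]
  simp only [XN]
  rw [integral_div, integral_sub h2 h3, ibp_X2 hc hv, ibp_X3 hc hv]; simp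

/-- differentiable with a given directional derivative -/
def q3D (M v : E) (f : E → ℂ) (f' : ℂ) : Prop := DifferentiableAt ℝ f M ∧ fderiv ℝ f M v = f'

theorem q3D.mul {M v : E} {f g : E → ℂ} {f' g' : ℂ} (hf : q3D M v f f') (hg : q3D M v g g') :
    q3D M v (fun N => f N * g N) (f' * g M + f M * g') :=
  ⟨hf.1.mul hg.1, by rw [fderiv_mul_apply hf.1 hg.1, hf.2, hg.2]⟩

theorem q3D.add {M v : E} {f g : E → ℂ} {f' g' : ℂ} (hf : q3D M v f f') (hg : q3D M v g g') :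
    q3D M v (fun N => f N + g N) (f' + g') :=
  ⟨hf.1.add hg.1, by rw [fderiv_fun_add hf.1 hg.1, ← hf.2, ← hg.2]; rfl⟩

theorem q3D.cmul {M v : E} {f : E → ℂ} {f' : ℂ} (hf : q3D M v f f') (c : ℂ) :
    q3D M v (fun N => c * f N) (c * f') :=
  ⟨hf.1.const_mul c, by rw [fderiv_const_mul hf.1, ← hf.2]; rfl⟩

theorem q3_diff {f : E → ℂ} (hf : ContDiffOn ℝ 1 f Gp) {M : E} (hM : M ∈ Gp) :
    DifferentiableAt ℝ f M :=
  (hf.contDiffAt (isOpen_Gp.mem_nhds hM)).differentiableAt (by simp)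

/-- the velocity of the horocycle flow -/
noncomputable def q3v (M : E) : E := (1 / 2 : ℝ) • (I • star M - I • M)

theorem q3_XN (f : E → ℂ) (M : E) : fderiv ℝ f M (q3v M) = XN f M := by
  simp only [q3v, XN, X2, X3, map_smul, map_sub, real_smul]
  push_cast
  ring

theorem q3_d1 {f : E → ℂ} (hf : ContDiffOn ℝ 1 f Gp) {M : E} (hM : M ∈ Gp) :
    q3D M (star M) f (X1 f M) := ⟨q3_diff hf hM, rfl⟩

theorem q3_d3 {f : E → ℂ} (hf : ContDiffOn ℝ 1 f Gp) {M : E} (hM : M ∈ Gp) :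
    q3D M (I • M) f (X3 f M) := ⟨q3_diff hf hM, rfl⟩

theorem q3_dN {f : E → ℂ} (hf : ContDiffOn ℝ 1 f Gp) {M : E} (hM : M ∈ Gp) :
    q3D M (q3v M) f (XN f M) := ⟨q3_diff hf hM, q3_XN f M⟩

theorem q3_van_add {f g : E → ℂ} (hf : Van f) (hg : Van g) : Van fun M => f M + g M := by
  obtain ⟨ρ, h1⟩ := hf
  obtain ⟨ρ', h2⟩ := hg
  exact ⟨max ρ ρ', fun M a b c => by
    simp [h1 M a b ((le_max_left _ _).trans_lt c), h2 M a b ((le_max_right _ _).trans_lt c)]⟩

theorem q3_test_add {f g : E → ℂ} (hf : Test f) (hg : Test g) : Test fun M => f M + g M :=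
  ⟨hf.smooth.add hg.smooth, q3_van_add hf.van hg.van⟩

theorem q3_test_cmul {f : E → ℂ} (hf : Test f) (c : ℂ) : Test fun M => c * f M := by
  obtain ⟨ρ, h1⟩ := hf.van
  exact ⟨contDiffOn_const.mul hf.smooth, ρ, fun M a b c => by simp [h1 M a b c]⟩

theorem q3_test_one {f : E → ℂ} (hf : Test f) : ContDiffOn ℝ 1 f Gp :=
  hf.smooth.of_le (by exact_mod_cast le_top)

theorem q3_int3 {h : E → ℂ} (hc : ContDiffOn ℝ 1 h Gp) (hv : Van h) : Integrable (X3 h) nu := by
  obtain ⟨ρ, hρ⟩ := hv.fderiv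
  exact integrable_of_cont (contDiffOn_X3 (m := 0) hc (by simp)).continuousOn
    (ρ := ρ) fun M hM h3 => by simp [X3, (hρ M (by linarith [hM.1]) (by linarith [hM.2]) h3).2]

theorem q3_intN {h : E → ℂ} (hc : ContDiffOn ℝ 1 h Gp) (hv : Van h) : Integrable (XN h) nu :=
  (((integrable_X12 hc hv).2.sub (q3_int3 hc hv)).div_const 2 :)

theorem q3_sm1 {h : E → ℂ} (hc : ContDiffOn ℝ 2 h Gp) : ContDiffOn ℝ 1 (X1 h) Gp :=
  contDiffOn_field hc (by norm_num) contDiff_star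

theorem q3_smN {h : E → ℂ} (hc : ContDiffOn ℝ 2 h Gp) : ContDiffOn ℝ 1 (XN h) Gp :=
  ((contDiffOn_field hc (by norm_num) (contDiff_star.const_smul I)).sub
    (contDiffOn_X3 hc (by norm_num))).div_const 2

theorem q3_re : ContDiff ℝ (⊤ : ℕ∞) fun w : ℂ => (w.re : ℂ) :=
  ofRealCLM.contDiff.comp reCLM.contDiff

theorem q3_im : ContDiff ℝ (⊤ : ℕ∞) fun w : ℂ => (w.im : ℂ) :=
  ofRealCLM.contDiff.comp imCLM.contDiff

theorem q3_im2 : ContDiff ℝ (⊤ : ℕ∞) fun w : ℂ => ((w.im ^ 2 : ℝ) : ℂ) :=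
  ofRealCLM.contDiff.comp (imCLM.contDiff.pow 2)

theorem q3_split {m : ℂ → ℂ} (hm : Bump m) (T : ℝ) {t : ℝ} {g : ℂ → ℝ} (hg : Eig t g) {M : E}
    (hM : M ∈ Gp) : VV (fun w => fderiv ℝ m w w) T g M =
      VV (fun w => (w.re : ℂ) * fderiv ℝ m w 1) T g M +
        VV (fun w => (w.im : ℂ) * fderiv ℝ m w I) T g M := by
  rw [← VV_add ((hm.fd contDiff_const).mul q3_re) ((hm.fd contDiff_const).mul q3_im) T hg hM]
  congr 1
  funext w
  have : w = w.re • (1 : ℂ) + w.im • I := by simp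
  conv_lhs => rw [this, map_add, map_smul, map_smul]
  rw [← this]
  rfl

/-- integration of a pointwise identity -/
theorem q3_integrate {k : ℕ} {f : Fin k → E → ℂ} (hf : ∀ l, Integrable (f l) nu) {F : E → ℂ}
    {c : ℂ} {h1 h2 h3 : E → ℂ} (c1 : ContDiffOn ℝ 1 h1 Gp) (v1 : Van h1)
    (c2 : ContDiffOn ℝ 1 h2 Gp) (v2 : Van h2) (c3 : ContDiffOn ℝ 1 h3 Gp) (v3 : Van h3)
    (h : ∀ M ∈ Gp, c * F M = ∑ l, f l M - X1 h1 M - XN h2 M - X3 h3 M) :
    c * ∫ M, F M ∂nu = ∑ l, ∫ M, f l M ∂nu := by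
  have hs : Integrable (fun M => ∑ l, f l M) nu := integrable_finsetSum _ fun l _ => hf l
  have i1 := (integrable_X12 c1 v1).1
  have i2 := q3_intN c2 v2
  have i3 := q3_int3 c3 v3
  have i4 : Integrable (fun M => ∑ l, f l M - X1 h1 M) nu := hs.sub i1
  have i5 : Integrable (fun M => ∑ l, f l M - X1 h1 M - XN h2 M) nu := i4.sub i2
  rw [← integral_const_mul, integral_congr_ae (ae_mem_Sh.mono fun M hM => h M (Sh_subset hM)),
    integral_sub i5 i3, integral_sub i4 i2, integral_sub hs i1,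
    ibp_X1 c1 v1, ibp_XN c2 v2, ibp_X3 c3 v3, integral_finsetSum _ fun l _ => hf l]
  simp

theorem q3id {a : E → ℂ} (ha : Test a) {m : ℂ → ℂ} (hm : Bump m) :
    ∃ (k : ℕ) (a' : Fin k → E → ℂ) (m' : Fin k → ℂ → ℂ), (∀ l, Test (a' l)) ∧ (∀ l, Bump (m' l)) ∧
      ∀ (T t : ℝ) (g : ℂ → ℝ), Eig t g →
        (1 / 2 - I * T) * ∫ M, X1 a M * gt g M * VV m T g M ∂nu =
          ∑ l, ∫ M, a' l M * gt g M * VV (m' l) T g M ∂nu := by
  have bn : Bump fun w => fderiv ℝ m w 1 := hm.fd contDiff_const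
  have bD : Bump fun w => fderiv ℝ m w w := hm.fd contDiff_id
  have bDD : Bump fun w => fderiv ℝ (fun u => fderiv ℝ m u u) w w := bD.fd contDiff_id
  have bp : Bump fun w => fderiv ℝ (fun u => fderiv ℝ m u 1) w (1 + w ^ 2) :=
    bn.fd (contDiff_const.add (contDiff_id.pow 2))
  have bnn : Bump fun w => fderiv ℝ (fun u => fderiv ℝ m u 1) w 1 := bn.fd contDiff_const
  have bL : Bump fun w => ((w.im ^ 2 : ℝ) : ℂ) * (fderiv ℝ (fun u => fderiv ℝ m u 1) w 1 +
      fderiv ℝ (fun u => fderiv ℝ m u I) w I) :=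
    (bnn.add ((hm.fd contDiff_const).fd contDiff_const)).mul q3_im2
  have t1 := Test.x1 ha
  have tN := Test.xn ha
  let a' : Fin 7 → E → ℂ := ![fun M => X3 a M + 2 * XN a M, a, fun M => a M + (-1) * X1 a M,
    fun M => (-1) * a M, fun M => (-1) * a M, a,
    fun M => (-1 / 4) * X1 (X1 a) M + (1 / 2) * X1 a M + (-1) * XN (XN a) M]
  let m' : Fin 7 → ℂ → ℂ := ![fun w => fderiv ℝ m w 1,
    fun w => fderiv ℝ (fun u => fderiv ℝ m u 1) w (1 + w ^ 2), fun w => fderiv ℝ m w w,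
    fun w => fderiv ℝ (fun u => fderiv ℝ m u u) w w,
    fun w => fderiv ℝ (fun u => fderiv ℝ m u 1) w 1,
    fun w => ((w.im ^ 2 : ℝ) : ℂ) * (fderiv ℝ (fun u => fderiv ℝ m u 1) w 1 +
      fderiv ℝ (fun u => fderiv ℝ m u I) w I), m]
  have ha' : ∀ l, Test (a' l) := by
    intro l
    fin_cases l
    · exact q3_test_add ha.x3 (q3_test_cmul tN 2)
    · exact ha
    · exact q3_test_add ha (q3_test_cmul t1 _)
    · exact q3_test_cmul ha _
    · exact q3_test_cmul ha _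
    · exact ha
    · exact q3_test_add (q3_test_add (q3_test_cmul (Test.x1 t1) _) (q3_test_cmul t1 _))
        (q3_test_cmul (Test.xn tN) _)
  have hm' : ∀ l, Bump (m' l) := by
    intro l
    fin_cases l
    exacts [bn, bp, bD, bDD, bnn, bL, hm]
  refine ⟨7, a', m', ha', hm', fun T t g hg => ?_⟩
  have su : ContDiffOn ℝ 1 (gt g) Gp := (gt_smooth hg).of_le (by norm_num)
  have su1 := q3_sm1 (gt_smooth hg)
  have suN := q3_smN (gt_smooth hg)
  have sV : ∀ {n : ℂ → ℂ}, Bump n → ContDiffOn ℝ 1 (VV n T g) Gp := fun hn =>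
    (VV_smooth hn T hg).of_le (by norm_num)
  have sa := q3_test_one ha
  have sa1 := q3_test_one t1
  have saN := q3_test_one tN
  refine q3_integrate (f := fun l M => a' l M * gt g M * VV (m' l) T g M)
    (fun l => ((((ha' l).van.mul _).mul _).integrable
      (((ha' l).cont.mul su.continuousOn).mul (sV (hm' l)).continuousOn)))
    (h1 := fun M => a M * ((1 / 4) * (X1 (gt g) M * VV m T g M) +
        gt g M * ((1 / 2 - (1 / 2 - I * T) / 2) * VV m T g M +
          (-1 / 2) * VV (fun w => fderiv ℝ m w w) T g M)) +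
      X1 a M * ((-1 / 4) * (gt g M * VV m T g M)))
    (h2 := fun M => a M * (XN (gt g) M * VV m T g M +
        gt g M * VV (fun w => fderiv ℝ m w 1) T g M) +
      XN a M * ((-1) * (gt g M * VV m T g M)))
    (h3 := fun M => a M * (gt g M * VV (fun w => fderiv ℝ m w 1) T g M))
    ((sa.mul ((contDiffOn_const.mul (su1.mul (sV hm))).add (su.mul
      ((contDiffOn_const.mul (sV hm)).add (contDiffOn_const.mul (sV bD)))))).add
      (sa1.mul (contDiffOn_const.mul (su.mul (sV hm)))))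
    (q3_van_add (ha.van.mul _) (t1.van.mul _))
    ((sa.mul ((suN.mul (sV hm)).add (su.mul (sV bn)))).add
      (saN.mul (contDiffOn_const.mul (su.mul (sV hm)))))
    (q3_van_add (ha.van.mul _) (tN.van.mul _))
    (sa.mul (su.mul (sV bn))) (ha.van.mul _) fun M hM => ?_
  have e1 := (((q3_d1 sa hM).mul ((((q3_d1 su1 hM).mul (q3_d1 (sV hm) hM)).cmul (1 / 4)).add
    ((q3_d1 su hM).mul (((q3_d1 (sV hm) hM).cmul (1 / 2 - (1 / 2 - I * T) / 2)).add
      ((q3_d1 (sV bD) hM).cmul (-1 / 2)))))).add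
    ((q3_d1 sa1 hM).mul (((q3_d1 su hM).mul (q3_d1 (sV hm) hM)).cmul (-1 / 4)))).2
  have e2 := (((q3_dN sa hM).mul (((q3_dN suN hM).mul (q3_dN (sV hm) hM)).add
    ((q3_dN su hM).mul (q3_dN (sV bn) hM)))).add
    ((q3_dN saN hM).mul (((q3_dN su hM).mul (q3_dN (sV hm) hM)).cmul (-1)))).2
  have e3 := ((q3_d3 sa hM).mul ((q3_d3 su hM).mul (q3_d3 (sV bn) hM))).2
  rw [q3_XN] at e2
  change X1 _ M = _ at e1
  change X3 _ M = _ at e3
  rw [e2, e1, e3, Fin.sum_univ_seven, VV_X1 hm T hg hM, VV_X1 bD T hg hM,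
    VV_XN hm T hg hM, VV_XN bn T hg hM, VV_X3 bn T hg hM, X3_gt g hg hM]
  have l1 := lap_gt hg hM
  have l2 := green hm T hg hM
  have l3 := q3_split hm T hg hM
  simp only [a', m', Matrix.cons_val_zero, Matrix.cons_val_one, Matrix.cons_val]
  push_cast at l1 l2 ⊢
  linear_combination (a M * VV m T g M) * l1 - (a M * gt g M) * l2 -
    (2 * (1 / 2 - I * T) * a M * gt g M) * l3 - (a M * gt g M * VV m T g M * T ^ 2) * I_sq

end Pool.Agent.MP_a28cf0_nt.Dec

end

-- part MP_a28cf0_nt.Dec.Rep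
section

set_option autoImplicit false

namespace Pool.Agent.MP_a28cf0_nt.Dec

open MeasureTheory Complex Filter Topology Set
open scoped ENNReal MatrixGroups ComplexConjugate
open Pool.Agent.MP_a28cf0_nt.Cub

/-! The boundary representation.
`rep`: by Fubini `ext mU A0 T (Wf T F) z = ∫ w, F w * Ph T z w * (∫ u, be z u * be w u) ∂muH`
(for `‖z - I‖ ≤ 1/100` and `be z u ≠ 0` one has `u ∈ U0`, and then `be w u ≠ 0` gives `w ∈ B0`;
`setInt_muH`).  With `A = (z, 1)`, `z = mb A I`, substitute `w = mb A w'`, `u = mb A u'`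
(`int_mb`, `Ph_mb`, `be_mb`, `be_symm`) and apply `mvp_int` to `F ∘ mb A` with the kernel
`sg w * Ph T I w` (invariant by `sg_kk`, `Ph_mb`, `mb_kk_I`).
`meanV`: `mb_rot`, substitute `w = mb (kk (-θ)) w'`, `yp_mb_kk`, `sg_kk`, `int_neg`, Fubini,
`mvp_int` for `g ∘ mb M`.
`pack`: `∫ Wf * k = ∫_{B0} k' * G` with `k' w = conj (ext mU A0 T (conj k / y.1.im²) w) / w.im²`,
`ext_l2`; the mass bound is `Bes` for each fixed `y`. -/

theorem rep_I : I ∈ Up := ball_sub (by simp)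

theorem rep_U0 : U0 ⊆ Up := U0_sub.trans B0_sub

theorem rep_sg0 {w : ℂ} (hw : w ∉ U0) : (sg w : ℂ) = 0 :=
  bump_sg.supp w (by simpa [U0, dist_eq_norm] using hw)

theorem rep_sgm : Measurable fun w => (sg w : ℂ) := bump_sg.smooth.continuous.measurable

theorem rep_mv {t : ℝ} {f : ℂ → ℝ} (h : Eig t f) (T : ℝ) :
    ∫ w, (sg w : ℂ) * Ph T I w * (f w : ℂ) ∂muH = hh T t * (f I : ℂ) := by
  have hc0 : ContinuousOn (fun w : ℂ => ((I, w) : ℂ × ℂ)) Up := by fun_prop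
  have hc1 := (continuousOn_Ph T).comp hc0 fun w hw => ⟨rep_I, hw⟩
  have hc : ContinuousOn (fun w => (sg w : ℂ) * Ph T I w) Up :=
    bump_sg.smooth.continuous.continuousOn.mul (by simpa only [Function.comp_def] using hc1)
  have hm1 := (measurable_Ph T).comp (measurable_prodMk_left (x := I))
  have hm : Measurable fun w => (sg w : ℂ) * Ph T I w :=
    rep_sgm.mul (by simpa only [Function.comp_def] using hm1)
  have hK : IsCompact U0 := isCompact_closedBall _ _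
  have hr : ∀ θ : ℝ, ∀ w ∈ Up,
      (sg (mb (kk θ) w) : ℂ) * Ph T I (mb (kk θ) w) = (sg w : ℂ) * Ph T I w := by
    intro θ w hw
    have h1 := Ph_mb T (kk_mem θ) rep_I hw
    rw [mb_kk_I] at h1
    rw [h1, sg_kk θ hw]
  have := mvp_int h hm hK rep_U0 (fun w _ hw => by rw [rep_sg0 hw, zero_mul])
    (hK.exists_bound_of_continuousOn (hc.mono rep_U0)) hr
  rw [this, mul_comm, hh]

theorem rep_im {u : ℂ} {r : ℝ} (hu : ‖u - I‖ ≤ r) : |u.im - 1| ≤ r := by
  have := abs_im_le_norm (u - I)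
  simp only [sub_im, I_im] at this
  exact this.trans hu

theorem rep_near {z u : ℂ} (hz : ‖z - I‖ ≤ 1 / 100) (h : be z u ≠ 0) : u ∈ U0 := by
  have h1 := (be_supp h).2.2
  have h2 : ‖u - I‖ ≤ ‖z - u‖ + ‖z - I‖ := by
    rw [norm_sub_rev z u]
    exact norm_sub_le_norm_sub_add_norm_sub u z I
  have h3 := (abs_le.1 (rep_im (u := u) le_rfl)).2
  simp only [U0, Metric.mem_closedBall, dist_eq_norm]
  linarith

theorem rep_near' {w u : ℂ} (hu : u ∈ U0) (h : be w u ≠ 0) : w ∈ B0 := by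
  have h1 := (be_supp h).2.2
  have h2 := norm_sub_le_norm_sub_add_norm_sub w u I
  simp only [U0, Metric.mem_closedBall, dist_eq_norm] at hu
  have h3 := (abs_le.1 (rep_im hu)).2
  simp only [B0, Metric.mem_closedBall, dist_eq_norm]
  linarith

theorem rep_inv {u : ℂ} (hu : u ∈ B0) : ‖(((u.im ^ 2 : ℝ) : ℂ))⁻¹‖ ≤ 2 := by
  simp only [B0, Metric.mem_closedBall, dist_eq_norm] at hu
  have h3 := (abs_le.1 (rep_im hu)).1
  rw [norm_inv, norm_real, Real.norm_eq_abs, abs_of_nonneg (sq_nonneg _)]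
  exact inv_le_of_inv_le₀ (by norm_num) (by nlinarith)

theorem rep_inner (T : ℝ) {z : ℂ} (hz : ‖z - I‖ ≤ 1 / 100) (w : ℂ) :
    ∫ y, EE A0 T y z / ((y.1.im ^ 2 : ℝ) : ℂ) * conj (EE A0 T y w) ∂nY mU =
      ((∫ u, be z u * be w u ∂muH : ℝ) : ℂ) * Ph T z w := by
  have hm : MeasurableSet U0 := measurableSet_closedBall
  have h1 : ∫ u, be z u * be w u ∂muH = ∫ u in U0, (1 / u.im ^ 2 : ℝ) • (be z u * be w u) := by
    rw [← setInt_muH _ hm rep_U0]
    refine (setIntegral_eq_integral_of_forall_compl_eq_zero fun u hu => ?_).symm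
    rw [not_not.1 (mt (rep_near hz) hu), zero_mul]
  rw [h1, ← integral_complex_ofReal, Ph, ← integral_prod_mul, nY, mU]
  have hae : ∀ᵐ y ∂((volume.restrict U0).prod (volume.restrict (Ioc (0 : ℝ) (2 * Real.pi)))),
      (y : ℂ × ℝ).1 ∈ U0 :=
    Measure.quasiMeasurePreserving_fst.ae (ae_restrict_mem hm)
  refine integral_congr_ae (hae.mono fun y hy => ?_)
  simp only [EE, A0, if_pos hy, map_mul, conj_ofReal, smul_eq_mul]
  push_cast
  ring

theorem rep {t : ℝ} {F : ℂ → ℝ} (h : Eig t F) (T : ℝ) {z : ℂ} (hz : ‖z - I‖ ≤ 1 / 100) :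
    ext mU A0 T (Wf T F) z = hh T t * (F z : ℂ) := by
  obtain ⟨M, hA⟩ := amp_A0
  have hM := hA.nonneg
  have hzU : z ∈ Up := ball_sub (by linarith)
  have hB : MeasurableSet B0 := measurableSet_closedBall
  have hBc : IsCompact B0 := isCompact_closedBall _ _
  obtain ⟨b, hb⟩ := h.bd hBc B0_sub
  have : IsFiniteMeasure (volume.restrict B0) := ⟨by simpa using hBc.measure_lt_top⟩
  have hE := (hA.bd_EE T).meas
  have hint : Integrable (Function.uncurry fun (y : Y) (w : ℂ) =>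
      EE A0 T y z / ((y.1.im ^ 2 : ℝ) : ℂ) * (conj (EE A0 T y w) * ((F w / w.im ^ 2 : ℝ) : ℂ)))
      ((nY mU).prod (volume.restrict B0)) := by
    have hae : ∀ᵐ p ∂((nY mU).prod (volume.restrict B0)), (p : Y × ℂ).2 ∈ B0 :=
      Measure.quasiMeasurePreserving_snd.ae (ae_restrict_mem hB)
    refine Integrable.of_bound (Measurable.aestronglyMeasurable ?_) (M * 2 * (M * (b * 2)))
      (hae.mono fun p hp => ?_)
    · have m1 : Measurable fun p : Y × ℂ => EE A0 T p.1 z :=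
        hE.comp (measurable_fst.prodMk measurable_const)
      have m2 : Measurable fun p : Y × ℂ => conj (EE A0 T p.1 p.2) :=
        continuous_conj.measurable.comp hE
      have m3 : Measurable fun p : Y × ℂ => F p.2 := h.meas.comp measurable_snd
      exact (m1.div (by fun_prop)).mul (m2.mul (measurable_ofReal.comp (m3.div (by fun_prop))))
    · have b1 : ‖EE A0 T p.1 z / ((p.1.1.im ^ 2 : ℝ) : ℂ)‖ ≤ M * 2 := by
        by_cases hy : p.1.1 ∈ U0
        · rw [div_eq_mul_inv, norm_mul]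
          exact mul_le_mul (hA.norm_EE T _ _) (rep_inv (U0_sub hy)) (norm_nonneg _) hM
        · simp only [EE, A0, if_neg hy, zero_mul, zero_div, norm_zero]
          positivity
      have b2 : ‖((F p.2 / p.2.im ^ 2 : ℝ) : ℂ)‖ ≤ b * 2 := by
        rw [ofReal_div, div_eq_mul_inv, norm_mul, norm_real, Real.norm_eq_abs]
        exact mul_le_mul (hb _ hp) (rep_inv hp) (norm_nonneg _) ((abs_nonneg _).trans (hb _ hp))
      simp only [Function.uncurry, norm_mul, RCLike.norm_conj]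
      exact mul_le_mul b1 (mul_le_mul (hA.norm_EE T _ _) b2 (norm_nonneg _) hM) (by positivity)
        (by positivity)
  have hA' := aff_mem hzU
  have hzI : mb (z, 1) I = z := by rw [mb_I, pr_aff]
  calc ext mU A0 T (Wf T F) z
      = ∫ y, (∫ w in B0, EE A0 T y z / ((y.1.im ^ 2 : ℝ) : ℂ) *
          (conj (EE A0 T y w) * ((F w / w.im ^ 2 : ℝ) : ℂ))) ∂nY mU := by
        refine integral_congr_ae (ae_of_all _ fun y => ?_)
        simp only [Wf, res, integral_const_mul]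
        ring
    _ = ∫ w in B0, (1 / w.im ^ 2 : ℝ) •
          (((∫ u, be z u * be w u ∂muH : ℝ) : ℂ) * Ph T z w * (F w : ℂ)) := by
        rw [integral_integral_swap hint]
        refine integral_congr_ae (ae_of_all _ fun w => ?_)
        simp only [← mul_assoc, integral_mul_const, rep_inner T hz w, real_smul]
        push_cast
        ring
    _ = ∫ w, ((∫ u, be z u * be w u ∂muH : ℝ) : ℂ) * Ph T z w * (F w : ℂ) ∂muH := by
        rw [← setInt_muH _ hB B0_sub]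
        refine setIntegral_eq_integral_of_forall_compl_eq_zero fun w hw => ?_
        have : ∀ u, be z u * be w u = 0 := fun u => by
          by_contra hn
          exact hw (rep_near' (rep_near hz (left_ne_zero_of_mul hn)) (right_ne_zero_of_mul hn))
        simp [this]
    _ = ∫ w, (sg w : ℂ) * Ph T I w * (F (mb (z, 1) w) : ℂ) ∂muH := by
        rw [← int_mb hA']
        refine integral_congr_ae (ae_Up.mono fun w hw => ?_)
        have h1 := Ph_mb T hA' rep_I hw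
        rw [hzI] at h1
        have h2 : ∫ u, be z u * be (mb (z, 1) w) u ∂muH = sg w := by
          rw [← int_mb hA', sg]
          refine integral_congr_ae (ae_Up.mono fun u hu => ?_)
          have h3 := be_mb hA' rep_I hu
          rw [hzI] at h3
          simp only [h3, be_mb hA' hw hu]
        simp only [h1, h2]
    _ = hh T t * (F z : ℂ) := by rw [rep_mv (eig_mb h hA') T, hzI]

theorem meanV {t : ℝ} {g : ℂ → ℝ} (h : Eig t g) (T : ℝ) {M : E} (hM : M ∈ Gp) :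
    ∫ θ in Ioc (0 : ℝ) (2 * Real.pi), VV (fun w => (sg w : ℂ)) T g (rot θ M) =
      hh T t * gt g M := by
  have hg := eig_mb h hM
  let Φ : ℝ → ℂ := fun θ =>
    ∫ w, (sg w : ℂ) * (g (mb M w) : ℂ) * ((√(PP θ w) : ℝ) * conj (ph T θ w)) ∂muH
  have h1 : ∀ θ, VV (fun w => (sg w : ℂ)) T g (rot θ M) = Φ (-θ) := by
    intro θ
    simp only [VV, Φ]
    rw [← int_mb (kk_mem (-θ))]
    refine integral_congr_ae (ae_Up.mono fun w hw => ?_)
    simp only [mb_rot θ (mb_mem (kk_mem (-θ)) hw), mb_kk_kk θ (-θ) hw, add_neg_cancel, kk_zero,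
      mb_one, sg_kk (-θ) hw, yp_mb_kk]
    ring
  have hper : Function.Periodic Φ (2 * Real.pi) := fun θ => by
    simp only [Φ, ph, bb, PP_per]
  have hi : Integrable (fun w => (sg w : ℂ) * (g (mb M w) : ℂ)) muH :=
    integrable_muH (bump_sg.smooth.continuous.continuousOn.mul
      (continuous_ofReal.comp_continuousOn hg.cont)) (isCompact_closedBall I (1 / 50)) rep_U0
      fun w _ hw => by rw [rep_sg0 hw, zero_mul]
  have hint : Integrable (Function.uncurry fun (θ : ℝ) (w : ℂ) =>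
      (sg w : ℂ) * (g (mb M w) : ℂ) * ((√(PP θ w) : ℝ) * conj (ph T θ w)))
      ((volume.restrict (Ioc (0 : ℝ) (2 * Real.pi))).prod muH) := by
    refine ((hi.norm.mul_const 2).comp_snd _).mono' (Measurable.aestronglyMeasurable ?_)
      (ae_of_all _ fun p => ?_)
    · exact ((rep_sgm.comp measurable_snd).mul
        (measurable_ofReal.comp (hg.meas.comp measurable_snd))).mul
        ((measurable_ofReal.comp measurable_PP.sqrt).mul
          (continuous_conj.measurable.comp (measurable_ph T)))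
    · by_cases hp : p.2 ∈ U0
      · have hb := (PP_bd p.1 (z := p.2) (by
          simp only [U0, Metric.mem_closedBall, dist_eq_norm] at hp
          linarith)).2
        have hs : √(PP p.1 p.2) ≤ 2 := Real.sqrt_le_iff.2 ⟨by norm_num, by linarith⟩
        simp only [Function.uncurry]
        rw [norm_mul, norm_mul ((√(PP p.1 p.2) : ℝ) : ℂ), RCLike.norm_conj, norm_ph, mul_one,
          norm_real, Real.norm_eq_abs, abs_of_nonneg (Real.sqrt_nonneg _)]
        exact mul_le_mul_of_nonneg_left hs (norm_nonneg _)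
      · simp [Function.uncurry, rep_sg0 hp]
  simp only [h1]
  rw [int_neg hper, integral_integral_swap hint, gt, ← mb_I, ← rep_mv hg T]
  refine integral_congr_ae (ae_of_all _ fun w => ?_)
  simp only [integral_const_mul, Ph, ph, bb, PP_I, Real.sqrt_one, one_mul, Real.log_one, mul_zero,
    ofReal_zero, zero_mul, Complex.exp_zero, mul_one]
  ring

theorem pack_mB : MeasurableSet B0 := Metric.isClosed_closedBall.measurableSet

theorem pack_mU : MeasurableSet U0 := Metric.isClosed_closedBall.measurableSet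

theorem pack_vol : volume B0 < ⊤ := measure_closedBall_lt_top

/-- the weight `1 / y ^ 2` -/
noncomputable def pack_wt (w : ℂ) : ℂ := (((w.im ^ 2)⁻¹ : ℝ) : ℂ)

theorem pack_wt_meas : Measurable pack_wt := by
  unfold pack_wt; fun_prop

theorem pack_wt_le {w : ℂ} (hw : w ∈ B0) : ‖pack_wt w‖ ≤ 2 := by
  have h1 : ‖w - I‖ ≤ 1 / 20 := by simpa [B0, dist_eq_norm] using hw
  have h2 := (abs_im_le_norm (w - I)).trans h1
  rw [sub_im, I_im, abs_le] at h2
  have h3 : 1 / 2 ≤ w.im ^ 2 := by nlinarith [h2.1]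
  rw [pack_wt, Complex.norm_real, Real.norm_eq_abs, abs_of_nonneg (by positivity),
    inv_le_comm₀ (by positivity) (by norm_num)]
  linarith

/-- the weight cut off outside `U0` -/
noncomputable def pack_rho (y : Y) : ℂ := U0.indicator pack_wt y.1

theorem pack_rho_le (y : Y) : ‖pack_rho y‖ ≤ 2 := by
  unfold pack_rho
  by_cases h : y.1 ∈ U0
  · rw [indicator_of_mem h]; exact pack_wt_le (U0_sub h)
  · rw [indicator_of_notMem h]; simp

theorem pack_bd_rho : Bd pack_rho :=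
  ⟨(pack_wt_meas.indicator pack_mU).comp measurable_fst, 2, pack_rho_le⟩

theorem pack_Wf (T : ℝ) (F : ℂ → ℝ) (y : Y) :
    Wf T F y = res A0 T (fun w => pack_wt w * (F w : ℂ)) y * pack_rho y := by
  have h0 : (fun w : ℂ => ((F w / w.im ^ 2 : ℝ) : ℂ)) = fun w => pack_wt w * (F w : ℂ) := by
    funext w; rw [pack_wt, ← Complex.ofReal_mul, div_eq_inv_mul]
  unfold Wf pack_rho
  rw [h0]
  by_cases h : y.1 ∈ U0
  · rw [indicator_of_mem h, pack_wt, div_eq_mul_inv, Complex.ofReal_inv]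
  · rw [indicator_of_notMem h]
    simp [res, EE, A0, h]

theorem pack_meas {t : ℝ} {F : ℂ → ℝ} (h : Eig t F) :
    Measurable fun w => pack_wt w * (F w : ℂ) :=
  pack_wt_meas.mul (Complex.measurable_ofReal.comp h.meas)

theorem pack_bdF {t : ℝ} {F : ℂ → ℝ} (h : Eig t F) : ∃ b : ℝ, ∀ z ∈ B0, |F z| ≤ b :=
  h.bd (isCompact_closedBall _ _) B0_sub

theorem pack_bdW {t : ℝ} {F : ℂ → ℝ} (h : Eig t F) :
    ∃ b : ℝ, ∀ z ∈ B0, ‖pack_wt z * (F z : ℂ)‖ ≤ b := by
  obtain ⟨b, hb⟩ := pack_bdF h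
  refine ⟨2 * b, fun z hz => ?_⟩
  rw [norm_mul, Complex.norm_real, Real.norm_eq_abs]
  exact mul_le_mul (pack_wt_le hz) (hb z hz) (abs_nonneg _) (by norm_num)

theorem pack_int {V : Type} [NormedAddCommGroup V] [MeasurableSpace V] [BorelSpace V]
    [SecondCountableTopology V] {F : ℂ → V} (hF : Measurable F)
    (hb : ∃ b : ℝ, ∀ z ∈ B0, ‖F z‖ ≤ b) : IntegrableOn F B0 := by
  obtain ⟨b, hb⟩ := hb
  exact IntegrableOn.of_bound pack_vol hF.aestronglyMeasurable b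
    ((ae_restrict_iff' pack_mB).2 (Eventually.of_forall hb))

theorem pack_int_sq {F : ℂ → ℂ} (hF : Measurable F) (hb : ∃ b : ℝ, ∀ z ∈ B0, ‖F z‖ ≤ b) :
    IntegrableOn (fun z => ‖F z‖ ^ 2) B0 := by
  obtain ⟨b, hb⟩ := hb
  refine pack_int (hF.norm.pow_const 2) ⟨b ^ 2, fun z hz => ?_⟩
  rw [norm_pow, norm_norm]
  exact pow_le_pow_left₀ (norm_nonneg _) (hb z hz) 2

theorem pack_n2_mul {X : Type} [MeasurableSpace X] (μ : Measure X) [IsFiniteMeasure μ]
    {u v : X → ℂ} (hu : Bd u) {b : ℝ} (hb : ∀ x, ‖v x‖ ≤ b) :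
    n2 μ (fun x => u x * v x) ≤ b ^ 2 * n2 μ u := by
  unfold n2
  rw [← integral_const_mul]
  refine integral_mono_of_nonneg (Eventually.of_forall fun x => by positivity)
    ((hu.integrable_sq μ).const_mul _) (Eventually.of_forall fun x => ?_)
  change ‖u x * v x‖ ^ 2 ≤ b ^ 2 * ‖u x‖ ^ 2
  rw [norm_mul, mul_pow, mul_comm]
  exact mul_le_mul_of_nonneg_right (pow_le_pow_left₀ (norm_nonneg _) (hb x) 2) (by positivity)

theorem pack_sq_mul {F : ℂ → ℂ} (hF : IntegrableOn (fun z => ‖F z‖ ^ 2) B0) :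
    ∫ z in B0, ‖pack_wt z * F z‖ ^ 2 ≤ 4 * ∫ z in B0, ‖F z‖ ^ 2 := by
  rw [← integral_const_mul]
  refine integral_mono_of_nonneg (Eventually.of_forall fun x => by positivity)
    (hF.const_mul _) ((ae_restrict_iff' pack_mB).2 (Eventually.of_forall fun z hz => ?_))
  change ‖pack_wt z * F z‖ ^ 2 ≤ 4 * ‖F z‖ ^ 2
  rw [norm_mul, mul_pow]
  refine mul_le_mul_of_nonneg_right ?_ (by positivity)
  have := pow_le_pow_left₀ (norm_nonneg _) (pack_wt_le hz) 2
  linarith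

/-- duality of restriction and extension -/
theorem pack_dual {A : Y → ℂ → ℂ} {M : ℝ} (hA : Amp M A) (m : Measure ℂ) [IsFiniteMeasure m]
    (T : ℝ) {F : ℂ → ℂ} (hF : IntegrableOn F B0) {k : Y → ℂ} (hk : Bd k) :
    ∫ y, res A T F y * k y ∂nY m =
      ∫ z in B0, conj (ext m A T (fun y => conj (k y)) z) * F z := by
  have hi : Integrable (Function.uncurry fun (y : Y) (z : ℂ) => conj (EE A T y z) * (k y * F z))
      ((nY m).prod (volume.restrict B0)) := by
    obtain ⟨b, hb⟩ := (hA.bd_EE T).conj.bd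
    exact ((hk.integrable (nY m)).mul_prod hF).bdd_mul
      (hA.bd_EE T).conj.meas.aestronglyMeasurable (Eventually.of_forall hb)
  calc ∫ y, res A T F y * k y ∂nY m
      = ∫ y, (∫ z in B0, conj (EE A T y z) * (k y * F z)) ∂nY m := by
        refine integral_congr_ae (Eventually.of_forall fun y => ?_)
        change res A T F y * k y = ∫ z in B0, conj (EE A T y z) * (k y * F z)
        rw [res, ← integral_mul_const]
        exact integral_congr_ae (Eventually.of_forall fun z => by ring)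
    _ = ∫ z in B0, (∫ y, conj (EE A T y z) * (k y * F z) ∂nY m) := integral_integral_swap hi
    _ = _ := by
        refine integral_congr_ae (Eventually.of_forall fun z => ?_)
        change ∫ y, conj (EE A T y z) * (k y * F z) ∂nY m =
          conj (ext m A T (fun y => conj (k y)) z) * F z
        rw [ext, ← integral_conj, ← integral_mul_const]
        exact integral_congr_ae (Eventually.of_forall fun y => by simp [mul_assoc])

theorem bd_Wf {t : ℝ} {F : ℂ → ℝ} (h : Eig t F) (T : ℝ) : Bd (Wf T F) := by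
  obtain ⟨M, hM⟩ := amp_A0
  rw [funext (pack_Wf T F)]
  exact (hM.bd_res T (pack_meas h) (pack_bdW h)).mul pack_bd_rho

theorem n2_Wf : ∃ C : ℝ, 0 ≤ C ∧ ∀ (t T : ℝ) (F : ℂ → ℝ), Eig t F → 0 < T →
    n2 (nY mU) (Wf T F) ≤ C / T * ∫ z in B0, F z ^ 2 := by
  obtain ⟨M, hM⟩ := amp_A0
  obtain ⟨C, hC, hres⟩ := res_l2
  refine ⟨16 * (C * M ^ 2), by positivity, fun t T F h hT => ?_⟩
  rw [funext (pack_Wf T F)]
  have h1 := pack_n2_mul (nY mU) (hM.bd_res T (pack_meas h) (pack_bdW h)) pack_rho_le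
  have h2 := hres mU A0 M T _ mU_univ hM hT (pack_meas h) (pack_bdW h)
  have h3 := pack_sq_mul (F := fun w => (F w : ℂ))
    (pack_int_sq (Complex.measurable_ofReal.comp h.meas) (by simpa using pack_bdF h))
  simp only [Complex.norm_real, Real.norm_eq_abs, sq_abs] at h3
  have h4 := mul_le_mul_of_nonneg_left h3 (show 0 ≤ C * M ^ 2 / T by positivity)
  calc _ ≤ _ := h1
    _ ≤ 2 ^ 2 * (C * M ^ 2 / T * (4 * ∫ z in B0, F z ^ 2)) :=
        mul_le_mul_of_nonneg_left (h2.trans h4) (by norm_num)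
    _ = _ := by ring

theorem pack_bes : ∃ C : ℝ, 0 ≤ C ∧ ∀ (N T : ℝ) (ι : Type) (J : Finset ι) (G : ι → ℂ → ℝ)
    (t : ι → ℝ), 0 ≤ N → 0 < T → (∀ j ∈ J, Eig (t j) (G j)) → Bes N J G → ∀ k : Y → ℂ, Bd k →
    ∑ j ∈ J, ‖∫ y, Wf T (G j) y * k y ∂nY mU‖ ^ 2 ≤ C * N / T * n2 (nY mU) k := by
  obtain ⟨M, hM⟩ := amp_A0
  obtain ⟨C, hC, hext⟩ := ext_l2
  refine ⟨16 * (C * M ^ 2), by positivity, fun N T ι J G t hN hT hG hB k hk => ?_⟩
  have hk' : Bd fun y => k y * pack_rho y := hk.mul pack_bd_rho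
  have he := hM.bd_ext mU T hk'.conj
  set e := ext mU A0 T fun y => conj (k y * pack_rho y) with hedef
  have h1 : ∀ j ∈ J, ∫ y, Wf T (G j) y * k y ∂nY mU =
      ∫ w in B0, pack_wt w * conj (e w) * (G j w : ℂ) := by
    intro j hj
    have h2 := pack_dual hM mU T (pack_int (pack_meas (hG j hj)) (pack_bdW (hG j hj))) hk'
    rw [← hedef] at h2
    calc _ = ∫ y, res A0 T (fun w => pack_wt w * (G j w : ℂ)) y * (k y * pack_rho y) ∂nY mU :=
          integral_congr_ae (Eventually.of_forall fun y => by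
            simp only [pack_Wf]; ring)
      _ = _ := h2
      _ = _ := integral_congr_ae (Eventually.of_forall fun y => by ring)
  rw [Finset.sum_congr rfl fun j hj => by rw [h1 j hj]]
  obtain ⟨b, hb⟩ := he.conj.bd
  have h3 := hB (fun w => pack_wt w * conj (e w)) (pack_wt_meas.mul he.conj.meas)
    ⟨2 * b, fun w hw => by
      rw [norm_mul]
      exact mul_le_mul (pack_wt_le hw) (hb w) (norm_nonneg _) (by norm_num)⟩
  have h4 := pack_sq_mul (pack_int_sq he.conj.meas ⟨b, fun w _ => hb w⟩)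
  simp only [RCLike.norm_conj] at h4
  have h5 : ∫ z in B0, ‖e z‖ ^ 2 ≤ ∫ z, ‖e z‖ ^ 2 :=
    setIntegral_le_integral (integrable_ext_sq hM T hk'.conj)
      (Eventually.of_forall fun z => by positivity)
  have h6 := hext mU A0 M T _ mU_univ hM hT hk'.conj
  have h7 : n2 (nY mU) (fun y => conj (k y * pack_rho y)) ≤ 2 ^ 2 * n2 (nY mU) k := by
    have := pack_n2_mul (nY mU) hk pack_rho_le
    simpa only [n2, RCLike.norm_conj] using this
  have h8 := mul_le_mul_of_nonneg_left h7 (show 0 ≤ C * M ^ 2 / T by positivity)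
  calc _ ≤ _ := h3
    _ ≤ N * (4 * (C * M ^ 2 / T * (2 ^ 2 * n2 (nY mU) k))) := by
        refine mul_le_mul_of_nonneg_left (h4.trans ?_) hN
        exact mul_le_mul_of_nonneg_left (h5.trans (h6.trans h8)) (by norm_num)
    _ = _ := by ring

theorem pack_mass : ∃ C : ℝ, 0 ≤ C ∧ ∀ (N T : ℝ) (ι : Type) (J : Finset ι) (G : ι → ℂ → ℝ)
    (t : ι → ℝ), 0 ≤ N → (∀ j ∈ J, Eig (t j) (G j)) → Bes N J G →
    ∑ j ∈ J, n2 (nY mU) (Wf T (G j)) ≤ C * N := by
  obtain ⟨M, hM⟩ := amp_A0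
  have hV : 0 ≤ volume.real B0 := measureReal_nonneg
  refine ⟨112 * (M ^ 2 * volume.real B0), by positivity, fun N T ι J G t hN hG hB => ?_⟩
  have h1 : ∀ y, ∑ j ∈ J, ‖Wf T (G j) y‖ ^ 2 ≤ 16 * (M ^ 2 * volume.real B0) * N := by
    intro y
    have hm : Measurable fun w => conj (EE A0 T y w) :=
      ((hM.bd_EE T).comp (f := fun w : ℂ => (y, w)) measurable_prodMk_left).conj.meas
    have hb : ∀ w, ‖conj (EE A0 T y w)‖ ≤ M := fun w => by
      rw [RCLike.norm_conj]; exact hM.norm_EE T y w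
    have h2 := hB (fun w => pack_wt w * conj (EE A0 T y w)) (pack_wt_meas.mul hm)
      ⟨2 * M, fun w hw => by
        rw [norm_mul]
        exact mul_le_mul (pack_wt_le hw) (hb w) (norm_nonneg _) (by norm_num)⟩
    have h3 := pack_sq_mul (pack_int_sq hm ⟨M, fun w _ => hb w⟩)
    have h4 : ∫ z in B0, ‖conj (EE A0 T y z)‖ ^ 2 ≤ M ^ 2 * volume.real B0 := by
      refine (le_abs_self _).trans ?_
      rw [← Real.norm_eq_abs]
      refine norm_setIntegral_le_of_norm_le_const pack_vol fun z _ => ?_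
      rw [norm_pow, norm_norm]
      exact pow_le_pow_left₀ (norm_nonneg _) (hb z) 2
    calc ∑ j ∈ J, ‖Wf T (G j) y‖ ^ 2
        ≤ ∑ j ∈ J, 4 * ‖∫ w in B0, pack_wt w * conj (EE A0 T y w) * (G j w : ℂ)‖ ^ 2 := by
          refine Finset.sum_le_sum fun j _ => ?_
          have h5 : res A0 T (fun w => pack_wt w * (G j w : ℂ)) y =
              ∫ w in B0, pack_wt w * conj (EE A0 T y w) * (G j w : ℂ) :=
            integral_congr_ae (Eventually.of_forall fun y => by ring)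
          rw [pack_Wf, h5, norm_mul, mul_pow, mul_comm]
          refine mul_le_mul_of_nonneg_right ?_ (by positivity)
          have := pow_le_pow_left₀ (norm_nonneg _) (pack_rho_le y) 2
          linarith
      _ ≤ 4 * (N * (4 * (M ^ 2 * volume.real B0))) := by
          rw [← Finset.mul_sum]
          refine mul_le_mul_of_nonneg_left (h2.trans (mul_le_mul_of_nonneg_left ?_ hN))
            (by norm_num)
          linarith
      _ = _ := by ring
  unfold n2
  rw [← integral_finsetSum _ fun j hj => (bd_Wf (hG j hj) T).integrable_sq _]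
  calc _ ≤ ∫ _y, 16 * (M ^ 2 * volume.real B0) * N ∂nY mU :=
        integral_mono_of_nonneg (Eventually.of_forall fun y => by positivity)
          (integrable_const _) (Eventually.of_forall h1)
    _ = (nY mU).real univ * (16 * (M ^ 2 * volume.real B0) * N) := by
        rw [integral_const, smul_eq_mul]
    _ ≤ 7 * (16 * (M ^ 2 * volume.real B0) * N) :=
        mul_le_mul_of_nonneg_right (nY_univ mU_univ) (by positivity)
    _ = _ := by ring

theorem pack : ∃ C : ℝ, 0 ≤ C ∧ ∀ (N T : ℝ) (ι : Type) (J : Finset ι) (G : ι → ℂ → ℝ)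
    (t : ι → ℝ), 0 ≤ N → 1 ≤ T → (∀ j ∈ J, Eig (t j) (G j) ∧ |t j - T| ≤ 1) → Bes N J G →
    Pack mU (C * N) T J fun j y => Wf T (G j) y / hh T (t j) := by
  obtain ⟨c, hc, hlow⟩ := hh_lower
  obtain ⟨C₁, hC₁, hbes⟩ := pack_bes
  obtain ⟨C₂, hC₂, hmass⟩ := pack_mass
  refine ⟨(C₁ + C₂) / c ^ 2, by positivity, fun N T ι J G t hN hT hG hB => ?_⟩
  have hT0 : 0 < T := by linarith
  have hinv : ∀ j ∈ J, ‖(hh T (t j))⁻¹‖ ≤ T / c := by
    intro j hj
    rw [norm_inv, ← inv_div c T]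
    exact inv_anti₀ (by positivity) (hlow T (t j) hT (hG j hj).2)
  refine ⟨fun j hj => ?_, fun k hk => ?_, ?_⟩
  · simp only [div_eq_mul_inv]
    exact (bd_Wf (hG j hj).1 T).mul ⟨measurable_const, _, fun _ => le_rfl⟩
  · have h1 := hbes N T ι J G t hN hT0 (fun j hj => (hG j hj).1) hB k hk
    have h2 := n2_nonneg (nY mU) k
    calc _ ≤ ∑ j ∈ J, (T / c) ^ 2 * ‖∫ y, Wf T (G j) y * k y ∂nY mU‖ ^ 2 := by
          refine Finset.sum_le_sum fun j hj => ?_
          have h3 : ∫ y, Wf T (G j) y / hh T (t j) * k y ∂nY mU =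
              (hh T (t j))⁻¹ * ∫ y, Wf T (G j) y * k y ∂nY mU := by
            rw [← integral_const_mul]
            exact integral_congr_ae (Eventually.of_forall fun y => by ring)
          rw [h3, norm_mul, mul_pow]
          exact mul_le_mul_of_nonneg_right (pow_le_pow_left₀ (norm_nonneg _) (hinv j hj) 2)
            (by positivity)
      _ ≤ (T / c) ^ 2 * (C₁ * N / T * n2 (nY mU) k) := by
          rw [← Finset.mul_sum]
          exact mul_le_mul_of_nonneg_left h1 (by positivity)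
      _ = C₁ / c ^ 2 * N * T * n2 (nY mU) k := by field_simp
      _ ≤ _ := by gcongr; linarith
  · have h1 := hmass N T ι J G t hN (fun j hj => (hG j hj).1) hB
    calc _ ≤ ∑ j ∈ J, (T / c) ^ 2 * n2 (nY mU) (Wf T (G j)) := by
          refine Finset.sum_le_sum fun j hj => ?_
          simp only [div_eq_mul_inv (Wf T (G j) _)]
          exact pack_n2_mul (nY mU) (bd_Wf (hG j hj).1 T) fun _ => hinv j hj
      _ ≤ (T / c) ^ 2 * (C₂ * N) := by
          rw [← Finset.mul_sum]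
          exact mul_le_mul_of_nonneg_left h1 (by positivity)
      _ = C₂ / c ^ 2 * N * T ^ 2 := by field_simp
      _ ≤ _ := by gcongr; linarith

/-! First moment bounds for the quantisation.
`q2`: by `mb_rot`, `int_mb` (substitute `w = mb (kk (-θ)) w'`), `yp_mb_kk`, `amp_bump` and
`setInt_muH`, `VV m T g (rot θ M) = ∫ w in B0, conj (EE A T (0, -θ) w) * g (mb M w)`.  So the
`θ`-integral is `∫_{B0} k * g (mb M w)` with `k = conj (ext (dirac 0) A T a')`,
`a' y = conj (a (2π - y.2))` (periodicity, reflection of the interval); `Bes` and `ext_l2`.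
`q2int`: by `mp_rot` the integral over `Ω` is
`(1/2π) ∫_Ω gt g M * ∫ θ, a (rot θ M) VV (rot θ M)` (Fubini; everything is bounded on `Bl ρ`);
Cauchy-Schwarz in `j`; group the `j` according to `n = wn (t j) ∈ [1, T]`
(`Finset.sum_fiberwise_of_maps_to`), `q2` for each `n` with the sub-family, and
`∑_{n ≤ T} n² * C N / n ≤ C N T²`. -/

theorem wn_bd {t T : ℝ} (h0 : 0 ≤ t) (h1 : t ≤ T) (hT : 1 ≤ T) :
    1 ≤ wn t ∧ (wn t : ℝ) ≤ T ∧ |t - wn t| ≤ 1 := by
  have a1 : (⌊t⌋₊ : ℝ) ≤ t := Nat.floor_le h0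
  have a2 : t < (⌊t⌋₊ : ℝ) + 1 := Nat.lt_floor_add_one t
  refine ⟨le_max_left _ _, ?_⟩
  unfold wn
  rcases le_total 1 ⌊t⌋₊ with h | h
  · rw [max_eq_right h]
    exact ⟨a1.trans h1, abs_le.2 ⟨by linarith, by linarith⟩⟩
  · rw [max_eq_left h]
    have a3 : (⌊t⌋₊ : ℝ) ≤ 1 := by exact_mod_cast h
    rw [Nat.cast_one]
    exact ⟨hT, abs_le.2 ⟨by linarith, by linarith⟩⟩

theorem q2_refl {V : Type} [NormedAddCommGroup V] [NormedSpace ℝ V] (F : ℝ → V) :
    ∫ θ in Ioc (0 : ℝ) (2 * Real.pi), F (2 * Real.pi - θ) =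
      ∫ θ in Ioc (0 : ℝ) (2 * Real.pi), F θ := by
  have h : (0 : ℝ) ≤ 2 * Real.pi := by positivity
  rw [← intervalIntegral.integral_of_le h, ← intervalIntegral.integral_of_le h,
    intervalIntegral.integral_comp_sub_left F (2 * Real.pi)]
  simp

theorem q2_dirac {V : Type} [NormedAddCommGroup V] [NormedSpace ℝ V] [SecondCountableTopology V]
    [MeasurableSpace V] [BorelSpace V] {F : Y → V} (hF : Measurable F) :
    ∫ y, F y ∂nY (Measure.dirac (0 : ℂ)) = ∫ θ in Ioc (0 : ℝ) (2 * Real.pi), F (0, θ) := by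
  unfold nY
  rw [Measure.dirac_prod, integral_map (by fun_prop) hF.aestronglyMeasurable]

theorem q2_VV {m : ℂ → ℂ} {Mb : ℝ} {A : Y → ℂ → ℂ} (hA : Amp Mb A)
    (hE : ∀ (y : Y), ∀ w ∈ Up,
      A y w = conj (m (mb (kk y.2) w)) * ((√(PP y.2 w) / w.im ^ 2 : ℝ) : ℂ))
    (T : ℝ) (g : ℂ → ℝ) (M : E) (θ : ℝ) :
    VV m T g (rot θ M) =
      ∫ w in B0, conj (EE A T (0, 2 * Real.pi - θ) w) * (g (mb M w) : ℂ) := by
  obtain ⟨φ, hφ⟩ : ∃ φ : ℝ, φ = 2 * Real.pi - θ := ⟨_, rfl⟩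
  rw [← hφ]
  obtain ⟨F, hF⟩ : ∃ F : ℂ → ℂ,
      F = fun w => m (mb (kk φ) w) * yp T (mb (kk φ) w) * (g (mb M w) : ℂ) := ⟨_, rfl⟩
  have e1 : VV m T g (rot θ M) = ∫ w, F (mb (kk θ) w) ∂muH := by
    unfold VV
    refine integral_congr_ae (ae_Up.mono fun w hw => ?_)
    have e : mb (kk φ) (mb (kk θ) w) = w := by
      rw [mb_kk_kk _ _ hw, show φ + θ = 0 + 2 * Real.pi by rw [hφ]; ring, kk_per, kk_zero, mb_one]
    simp only [hF, e, mb_rot θ hw]
  have mU : MeasurableSet Up := isOpen_Up.measurableSet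
  have mB : MeasurableSet B0 := Metric.isClosed_closedBall.measurableSet
  rw [e1, int_mb (kk_mem θ), int_muH]
  have e2 : ∫ w in Up, (1 / w.im ^ 2 : ℝ) • F w =
      ∫ w in Up, conj (EE A T (0, φ) w) * (g (mb M w) : ℂ) := by
    refine setIntegral_congr_fun mU fun w hw => ?_
    simp only [hF, EE, hE _ w hw, yp_mb_kk, map_mul, Complex.conj_conj, Complex.conj_ofReal,
      Complex.real_smul]
    push_cast
    ring
  rw [e2]
  refine setIntegral_eq_of_subset_of_forall_sdiff_eq_zero mU B0_sub fun w hw => ?_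
  simp only [EE, hA.supp _ w hw.2, zero_mul, map_zero]

theorem q2_swap {Mb : ℝ} {A : Y → ℂ → ℂ} (hA : Amp Mb A) (T : ℝ) {a : ℝ → ℂ} (ha : Bd a)
    {G : ℂ → ℝ} (hG : Measurable G) {b : ℝ} (hb : ∀ w ∈ B0, |G w| ≤ b) :
    ∫ θ in Ioc (0 : ℝ) (2 * Real.pi),
        a θ * ∫ w in B0, conj (EE A T (0, 2 * Real.pi - θ) w) * (G w : ℂ) =
      ∫ w in B0, conj (ext (Measure.dirac 0) A T (fun y => conj (a (2 * Real.pi - y.2))) w) *
        (G w : ℂ) := by
  have mB : MeasurableSet B0 := Metric.isClosed_closedBall.measurableSet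
  have fB : IsFiniteMeasure (volume.restrict B0) :=
    isFiniteMeasure_restrict.2 (isCompact_closedBall I (1 / 20 : ℝ)).measure_lt_top.ne
  have hE := hA.bd_EE T
  have b1 : Bd fun p : ℝ × ℂ => a p.1 := ha.comp measurable_fst
  have b2 : Bd fun p : ℝ × ℂ => conj (EE A T (0, 2 * Real.pi - p.1) p.2) :=
    (hE.comp (f := fun p : ℝ × ℂ => ((((0 : ℂ), 2 * Real.pi - p.1) : Y), p.2)) (by fun_prop)).conj
  have b3 : Bd (B0.indicator fun w => (G w : ℂ)) := by
    refine ⟨(Complex.measurable_ofReal.comp hG).indicator mB, max b 0, fun w => ?_⟩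
    by_cases hw : w ∈ B0
    · rw [indicator_of_mem hw, Complex.norm_real, Real.norm_eq_abs]
      exact (hb w hw).trans (le_max_left _ _)
    · rw [indicator_of_notMem hw, norm_zero]
      exact le_max_right _ _
  have b4 := ((b1.mul b2).mul (b3.comp (measurable_snd (α := ℝ)))).integrable
    ((volume.restrict (Ioc (0 : ℝ) (2 * Real.pi))).prod (volume.restrict B0))
  have e1 : ∀ θ : ℝ, a θ * ∫ w in B0, conj (EE A T (0, 2 * Real.pi - θ) w) * (G w : ℂ) =
      ∫ w in B0, a θ * conj (EE A T (0, 2 * Real.pi - θ) w) *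
        B0.indicator (fun w => (G w : ℂ)) w := fun θ => by
    rw [← integral_const_mul]
    refine setIntegral_congr_fun mB fun w hw => ?_
    simp only [indicator_of_mem hw, mul_assoc]
  simp only [e1]
  rw [integral_integral_swap b4]
  refine setIntegral_congr_fun mB fun w hw => ?_
  rw [integral_mul_const, indicator_of_mem hw]
  congr 1
  have c1 : Bd fun y : Y => EE A T y w := hE.comp (f := fun y : Y => (y, w)) (by fun_prop)
  have c2 : Bd fun y : Y => conj (a (2 * Real.pi - y.2)) :=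
    (ha.comp (f := fun y : Y => 2 * Real.pi - y.2) (by fun_prop)).conj
  unfold ext
  rw [q2_dirac (c1.mul c2).meas, ← integral_conj, ← q2_refl]
  refine setIntegral_congr_fun measurableSet_Ioc fun θ _ => ?_
  simp only [map_mul, Complex.conj_conj, sub_sub_cancel]
  ring

theorem q2 {m : ℂ → ℂ} (hm : Bump m) : ∃ C : ℝ, 0 ≤ C ∧ ∀ (ι : Type) (s : Finset ι)
    (g : ι → ℂ → ℝ) (t : ι → ℝ) (T N : ℝ) (M : E) (a : ℝ → ℂ), 0 < T → 0 ≤ N → M ∈ Gp →
    (∀ j ∈ s, Eig (t j) (g j)) → Bes N s (fun j w => g j (mb M w)) → Bd a →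
    ∑ j ∈ s, ‖∫ θ in Ioc (0 : ℝ) (2 * Real.pi), a θ * VV m T (g j) (rot θ M)‖ ^ 2 ≤
      C * N / T * ∫ θ in Ioc (0 : ℝ) (2 * Real.pi), ‖a θ‖ ^ 2 := by
  obtain ⟨Mb, A, hA, hE⟩ := amp_bump hm
  obtain ⟨C, hC, hl⟩ := ext_l2
  refine ⟨C * Mb ^ 2, by positivity, fun ι s g t T N M a hT hN hM hg hB ha => ?_⟩
  obtain ⟨a', ha'⟩ : ∃ a' : Y → ℂ, a' = fun y => conj (a (2 * Real.pi - y.2)) := ⟨_, rfl⟩
  have c2 : Bd a' := by
    rw [ha']
    exact (ha.comp (f := fun y : Y => 2 * Real.pi - y.2) (by fun_prop)).conj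
  have bk := (hA.bd_ext (Measure.dirac 0) T c2).conj
  have e1 : ∀ j ∈ s, ∫ θ in Ioc (0 : ℝ) (2 * Real.pi), a θ * VV m T (g j) (rot θ M) =
      ∫ w in B0, conj (ext (Measure.dirac 0) A T a' w) * (g j (mb M w) : ℂ) := fun j hj => by
    have hj' := eig_mb (hg j hj) hM
    obtain ⟨b, hb⟩ := hj'.bd (isCompact_closedBall I (1 / 20 : ℝ)) B0_sub
    simp only [q2_VV hA hE]
    rw [ha']
    exact q2_swap hA T ha hj'.meas hb
  have h1 := hB _ bk.meas (bk.bd.imp fun b hb w _ => hb w)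
  have h2 := hl (Measure.dirac 0) A Mb T a' (by simp) hA hT c2
  have e2 : n2 (nY (Measure.dirac 0)) a' = ∫ θ in Ioc (0 : ℝ) (2 * Real.pi), ‖a θ‖ ^ 2 := by
    unfold n2
    rw [q2_dirac (c2.meas.norm.pow_const 2), ← q2_refl fun θ => ‖a θ‖ ^ 2]
    simp only [ha', Complex.norm_conj]
  have h3 : ∫ w in B0, ‖conj (ext (Measure.dirac 0) A T a' w)‖ ^ 2 ≤
      ∫ w, ‖ext (Measure.dirac 0) A T a' w‖ ^ 2 := by
    simp only [Complex.norm_conj]
    exact setIntegral_le_integral (integrable_ext_sq hA T c2)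
      (Eventually.of_forall fun w => by positivity)
  rw [Finset.sum_congr rfl fun j hj => by rw [e1 j hj]]
  rw [e2] at h2
  calc _ ≤ _ := h1
    _ ≤ N * (C * Mb ^ 2 / T * ∫ θ in Ioc (0 : ℝ) (2 * Real.pi), ‖a θ‖ ^ 2) :=
      mul_le_mul_of_nonneg_left (h3.trans h2) hN
    _ = _ := by ring

theorem q2i_mp {Ω : Set E} (hΩ : MeasurableSet Ω) (hr : ∀ θ M, rot θ M ∈ Ω ↔ M ∈ Ω) (θ : ℝ) :
    MeasurePreserving (rot θ) (nu.restrict Ω) (nu.restrict Ω) := by
  have h := (mp_rot θ).restrict_preimage hΩ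
  have e : rot θ ⁻¹' Ω = Ω := by ext M; exact hr θ M
  rwa [e] at h

theorem q2i_avg {V : Type} [NormedAddCommGroup V] [NormedSpace ℝ V] [CompleteSpace V]
    {Ω : Set E} (hΩ : MeasurableSet Ω) (hr : ∀ θ M, rot θ M ∈ Ω ↔ M ∈ Ω) {F : E → V}
    (hF : IntegrableOn F Ω nu) :
    IntegrableOn (fun M => ∫ θ in Ioc (0 : ℝ) (2 * Real.pi), F (rot θ M)) Ω nu ∧
      ∫ M in Ω, (∫ θ in Ioc (0 : ℝ) (2 * Real.pi), F (rot θ M)) ∂nu =
        (2 * Real.pi) • ∫ M in Ω, F M ∂nu := by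
  have hm : Measurable (Function.uncurry rot) :=
    (continuous_rot continuous_fst continuous_snd).measurable
  have hs := (MeasurePreserving.id (volume.restrict (Ioc (0 : ℝ) (2 * Real.pi)))).skew_product
    (μc := nu.restrict Ω) (μd := nu.restrict Ω) hm
    (Eventually.of_forall fun θ => (q2i_mp hΩ hr θ).map_eq)
  have h1 : Integrable (fun p : ℝ × E => F p.2)
      ((volume.restrict (Ioc (0 : ℝ) (2 * Real.pi))).prod (nu.restrict Ω)) :=
    Integrable.comp_snd hF _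
  have h2 : Integrable (fun p : ℝ × E => F (rot p.1 p.2))
      ((volume.restrict (Ioc (0 : ℝ) (2 * Real.pi))).prod (nu.restrict Ω)) :=
    hs.integrable_comp_of_integrable h1
  refine ⟨h2.integral_prod_right, ?_⟩
  rw [← integral_integral_swap (f := fun θ M => F (rot θ M)) h2]
  have h3 : ∀ θ : ℝ, ∫ M in Ω, F (rot θ M) ∂nu = ∫ M in Ω, F M ∂nu := fun θ =>
    (q2i_mp hΩ hr θ).integral_comp (me_rot θ) F
  simp only [h3]
  rw [setIntegral_const, Real.volume_real_Ioc_of_le (by positivity), sub_zero]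

theorem q2i_fin {Ω : Set E} {ρ : ℝ} (hs : Ω ⊆ Bl ρ) : IsFiniteMeasure (nu.restrict Ω) :=
  isFiniteMeasure_restrict.2 ((measure_mono hs).trans_lt (isCompact_Bl ρ).measure_lt_top).ne

theorem q2i_cont {F : Type} [NormedAddCommGroup F] {Ω : Set E} {ρ : ℝ} (hs : Ω ⊆ Bl ρ)
    {h : E → F} (hc : ContinuousOn h Gp) : IntegrableOn h Ω nu :=
  (integrableOn_of_cont hc (isCompact_Bl ρ) inter_subset_left).mono_set hs

theorem q2i_sqrt {X : Type} [MeasurableSpace X] {μ : Measure X} [IsFiniteMeasure μ] {f : X → ℝ}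
    (hf : Integrable f μ) : Integrable (fun x => √(f x)) μ := by
  refine ((integrable_const (1 : ℝ)).add hf.norm).mono'
    (Real.continuous_sqrt.comp_aestronglyMeasurable hf.1) (Eventually.of_forall fun x => ?_)
  simp only [Pi.add_apply, Real.norm_eq_abs]
  rw [abs_of_nonneg (Real.sqrt_nonneg _), Real.sqrt_le_left (by positivity)]
  nlinarith [le_abs_self (f x), abs_nonneg (f x)]

theorem q2i_cs {X : Type} [MeasurableSpace X] {μ : Measure X} [IsFiniteMeasure μ] {f : X → ℝ}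
    (hf : Integrable f μ) (h0 : ∀ x, 0 ≤ f x) :
    ∫ x, √(f x) ∂μ ≤ √(μ.real univ * ∫ x, f x ∂μ) := by
  have hs := q2i_sqrt hf
  have h : ∀ c : ℝ, 0 ≤ μ.real univ * (c * c) + (-2 * ∫ x, √(f x) ∂μ) * c + ∫ x, f x ∂μ := by
    intro c
    have e : ∫ x, (c * c + (-2 * c) * √(f x) + f x) ∂μ =
        μ.real univ * (c * c) + (-2 * ∫ x, √(f x) ∂μ) * c + ∫ x, f x ∂μ := by
      have h1 : Integrable (fun x => c * c + (-2 * c) * √(f x)) μ :=
        (integrable_const _).add (hs.const_mul _)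
      rw [integral_add h1 hf,
        integral_add (integrable_const _) (hs.const_mul _), integral_const, smul_eq_mul,
        integral_const_mul]
      ring
    rw [← e]
    refine integral_nonneg fun x => ?_
    have := Real.sq_sqrt (h0 x)
    simp only [Pi.zero_apply]
    nlinarith [sq_nonneg (c - √(f x))]
  have hd := discrim_le_zero h
  refine Real.le_sqrt_of_sq_le ?_
  rw [discrim] at hd
  nlinarith

theorem q2i_bes {ι : Type} {N : ℝ} {s s' : Finset ι} {G : ι → ℂ → ℝ} (h : Bes N s G)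
    (hs : s' ⊆ s) : Bes N s' G := fun k hk hb =>
  (Finset.sum_le_sum_of_subset_of_nonneg hs fun _ _ _ => by positivity).trans (h k hk hb)

theorem q2i_fib {ι : Type} (s : Finset ι) (n : ι → ℕ) (x : ι → ℝ) {T D : ℝ} (hT : 1 ≤ T)
    (hD : 0 ≤ D) (hn : ∀ j ∈ s, 1 ≤ n j ∧ (n j : ℝ) ≤ T)
    (h : ∀ k : ℕ, 1 ≤ k → ∑ j ∈ s with n j = k, x j ^ 2 ≤ D / k) :
    ∑ j ∈ s, ((n j : ℝ) * x j) ^ 2 ≤ D * T ^ 2 := by
  have hm : ∀ j ∈ s, n j ∈ Finset.Icc 1 ⌊T⌋₊ := fun j hj =>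
    Finset.mem_Icc.2 ⟨(hn j hj).1, Nat.le_floor (hn j hj).2⟩
  have hf : (⌊T⌋₊ : ℝ) ≤ T := Nat.floor_le (by linarith)
  rw [← Finset.sum_fiberwise_of_maps_to hm]
  refine (Finset.sum_le_card_nsmul _ _ (D * T) fun k hk => ?_).trans ?_
  · obtain ⟨h1, h2⟩ := Finset.mem_Icc.1 hk
    have h3 : (0 : ℝ) < k := by exact_mod_cast h1
    have h4 : (k : ℝ) ≤ T := le_trans (by exact_mod_cast h2) hf
    have e : ∑ j ∈ s with n j = k, ((n j : ℝ) * x j) ^ 2 =
        (k : ℝ) ^ 2 * ∑ j ∈ s with n j = k, x j ^ 2 := by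
      rw [Finset.mul_sum]
      refine Finset.sum_congr rfl fun j hj => ?_
      rw [(Finset.mem_filter.1 hj).2, mul_pow]
    rw [e]
    refine (mul_le_mul_of_nonneg_left (h k h1) (by positivity)).trans ?_
    rw [show (k : ℝ) ^ 2 * (D / k) = D * k by field_simp]
    exact mul_le_mul_of_nonneg_left h4 hD
  · rw [Nat.card_Icc, Nat.add_sub_cancel, nsmul_eq_mul]
    have : 0 ≤ D * T := mul_nonneg hD (by linarith)
    nlinarith

theorem q2int {m : ℂ → ℂ} (hm : Bump m) : ∃ C : ℝ, 0 ≤ C ∧ ∀ (ι : Type) (s : Finset ι)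
    (g : ι → ℂ → ℝ) (t : ι → ℝ) (T ρ P : ℝ) (Ω : Set E) (Nf : E → ℝ) (a : E → ℂ), 1 ≤ T →
    (∀ j ∈ s, Eig (t j) (g j) ∧ 0 ≤ t j ∧ t j ≤ T) → MeasurableSet Ω → Ω ⊆ Bl ρ →
    (∀ θ M, rot θ M ∈ Ω ↔ M ∈ Ω) → Bd a → ContinuousOn Nf Gp →
    (∀ M ∈ Ω, 0 ≤ Nf M ∧ Bes (Nf M) s (fun j w => g j (mb M w)) ∧
      ∑ j ∈ s, g j (pr M) ^ 2 ≤ P * T ^ 2) →
    ∑ j ∈ s, (wn (t j) : ℝ) * ‖∫ M in Ω, a M * gt (g j) M * VV m (wn (t j)) (g j) M ∂nu‖ ≤
      C * √P * T ^ 2 *
        ∫ M in Ω, √(Nf M * ∫ θ in Ioc (0 : ℝ) (2 * Real.pi), ‖a (rot θ M)‖ ^ 2) ∂nu := by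
  obtain ⟨C, hC, hq⟩ := q2 hm
  refine ⟨√C / (2 * Real.pi), by positivity, ?_⟩
  intro ι s g t T ρ P Ω Nf a hT hg hΩ hs hr ha hN hB
  have hfin := q2i_fin hs
  have hG : ∀ M ∈ Ω, M ∈ Gp := fun M hM => Sh_subset (hs hM).1
  have hF : ∀ j ∈ s,
      IntegrableOn (fun M => a M * gt (g j) M * VV m (wn (t j)) (g j) M) Ω nu := by
    intro j hj
    have h1 : ContinuousOn (fun M => gt (g j) M * VV m (wn (t j)) (g j) M) Gp :=
      (continuous_ofReal.comp_continuousOn ((hg j hj).1.cont.comp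
        (contDiffOn_pr (n := 0)).continuousOn fun M hM => pr_mem hM)).mul
        (VV_smooth hm _ (hg j hj).1).continuousOn
    obtain ⟨b, hb⟩ := ha.bd
    simp only [mul_assoc]
    exact Integrable.bdd_mul (q2i_cont hs h1) ha.meas.aestronglyMeasurable
      (Eventually.of_forall hb)
  have hA := (q2i_avg hΩ hr (F := fun M => ‖a M‖ ^ 2) (ha.integrable_sq _)).1
  have hR : IntegrableOn
      (fun M => √(Nf M * ∫ θ in Ioc (0 : ℝ) (2 * Real.pi), ‖a (rot θ M)‖ ^ 2)) Ω nu := by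
    obtain ⟨b, hb⟩ := (isCompact_Bl ρ).exists_bound_of_continuousOn
      (hN.mono (inter_subset_left.trans Sh_subset))
    exact q2i_sqrt (Integrable.bdd_mul hA (q2i_cont hs hN).1
      ((ae_restrict_mem hΩ).mono fun M hM => hb M (hs hM)))
  have hπ : 0 < 2 * Real.pi := by positivity
  have h1 : ∀ j ∈ s, (2 * Real.pi) * ((wn (t j) : ℝ) *
      ‖∫ M in Ω, a M * gt (g j) M * VV m (wn (t j)) (g j) M ∂nu‖) ≤
      ∫ M in Ω, (wn (t j) : ℝ) * ‖∫ θ in Ioc (0 : ℝ) (2 * Real.pi),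
        a (rot θ M) * gt (g j) (rot θ M) * VV m (wn (t j)) (g j) (rot θ M)‖ ∂nu := by
    intro j hj
    have h2 := (q2i_avg hΩ hr (hF j hj)).2
    rw [integral_const_mul, mul_left_comm]
    refine mul_le_mul_of_nonneg_left ?_ (Nat.cast_nonneg _)
    refine le_trans (le_of_eq ?_) (norm_integral_le_integral_norm _)
    rw [h2, norm_smul, Real.norm_of_nonneg hπ.le]
  refine le_of_mul_le_mul_left ?_ hπ
  rw [Finset.mul_sum]
  refine (Finset.sum_le_sum h1).trans ?_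
  rw [← integral_finsetSum _ fun j hj => (q2i_avg hΩ hr (hF j hj)).1.norm.const_mul _,
    show ∀ x : ℝ, 2 * Real.pi * (√C / (2 * Real.pi) * √P * T ^ 2 * x) = √C * √P * T ^ 2 * x from
      fun x => by field_simp, ← integral_const_mul]
  refine integral_mono_of_nonneg
    (Eventually.of_forall fun M => Finset.sum_nonneg fun j _ => by positivity)
    (hR.const_mul _) ((ae_restrict_mem hΩ).mono fun M hM => ?_)
  obtain ⟨b1, b2, b3⟩ := hB M hM
  have hI : 0 ≤ ∫ θ in Ioc (0 : ℝ) (2 * Real.pi), ‖a (rot θ M)‖ ^ 2 :=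
    integral_nonneg fun θ => by positivity
  have e : ∀ j ∈ s, (wn (t j) : ℝ) * ‖∫ θ in Ioc (0 : ℝ) (2 * Real.pi),
      a (rot θ M) * gt (g j) (rot θ M) * VV m (wn (t j)) (g j) (rot θ M)‖ =
      |g j (pr M)| * ((wn (t j) : ℝ) * ‖∫ θ in Ioc (0 : ℝ) (2 * Real.pi),
        a (rot θ M) * VV m (wn (t j)) (g j) (rot θ M)‖) := by
    intro j _
    have : ∀ θ : ℝ, a (rot θ M) * gt (g j) (rot θ M) * VV m (wn (t j)) (g j) (rot θ M) =
        (g j (pr M) : ℂ) * (a (rot θ M) * VV m (wn (t j)) (g j) (rot θ M)) := fun θ => by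
      rw [gt, pr_rot]; ring
    simp only [this]
    rw [integral_const_mul, norm_mul, Complex.norm_real, Real.norm_eq_abs]
    ring
  have hf := q2i_fib s (fun j => wn (t j)) (fun j => ‖∫ θ in Ioc (0 : ℝ) (2 * Real.pi),
      a (rot θ M) * VV m (wn (t j)) (g j) (rot θ M)‖) hT
    (D := C * (Nf M * ∫ θ in Ioc (0 : ℝ) (2 * Real.pi), ‖a (rot θ M)‖ ^ 2)) (by positivity)
    (fun j hj => ⟨(wn_bd (hg j hj).2.1 (hg j hj).2.2 hT).1,
      (wn_bd (hg j hj).2.1 (hg j hj).2.2 hT).2.1⟩) fun k hk => by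
      have h3 := hq ι (s.filter fun j => wn (t j) = k) g t k (Nf M) M (fun θ => a (rot θ M))
        (by exact_mod_cast hk) b1 (hG M hM) (fun j hj => (hg j (Finset.mem_filter.1 hj).1).1)
        (q2i_bes b2 (Finset.filter_subset _ _))
        (ha.comp (continuous_rot continuous_id continuous_const).measurable)
      refine le_trans (le_of_eq (Finset.sum_congr rfl fun j hj => ?_)) (h3.trans (le_of_eq ?_))
      · rw [(Finset.mem_filter.1 hj).2]
      · ring
  beta_reduce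
  rw [Finset.sum_congr rfl e]
  refine (Real.sum_mul_le_sqrt_mul_sqrt _ _ _).trans ?_
  simp only [sq_abs]
  refine (mul_le_mul (Real.sqrt_le_sqrt b3) (Real.sqrt_le_sqrt hf) (Real.sqrt_nonneg _)
    (Real.sqrt_nonneg _)).trans (le_of_eq ?_)
  rw [Real.sqrt_mul' _ (sq_nonneg T), Real.sqrt_mul' _ (sq_nonneg T),
    Real.sqrt_sq (by linarith : 0 ≤ T), Real.sqrt_mul hC]
  ring

/-- Cauchy-Schwarz and rotation invariance -/
theorem fibre_l2 {Ω : Set E} {ρ : ℝ} (hΩ : MeasurableSet Ω) (hs : Ω ⊆ Bl ρ)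
    (hr : ∀ θ M, rot θ M ∈ Ω ↔ M ∈ Ω) {a : E → ℂ} (ha : Bd a) {N : ℝ} (hN : 0 ≤ N) :
    ∫ M in Ω, √(N * ∫ θ in Ioc (0 : ℝ) (2 * Real.pi), ‖a (rot θ M)‖ ^ 2) ∂nu ≤
      √(N * (2 * Real.pi) * nu.real Ω) * √(∫ M in Ω, ‖a M‖ ^ 2 ∂nu) := by
  have hfin := q2i_fin hs
  obtain ⟨h1, h2⟩ := q2i_avg hΩ hr (F := fun M => ‖a M‖ ^ 2) (ha.integrable_sq _)
  refine (q2i_cs (h1.const_mul N) fun M =>
    mul_nonneg hN (integral_nonneg fun θ => by positivity)).trans (le_of_eq ?_)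
  rw [integral_const_mul, h2, ← Real.sqrt_mul (by positivity), measureReal_restrict_apply_univ,
    smul_eq_mul]
  congr 1
  ring

/-- rotation invariant observables (`mp_rot`, Fubini); `V` is any continuous function -/
theorem int_rot_avg {Ω : Set E} {ρ : ℝ} (hΩ : MeasurableSet Ω) (hs : Ω ⊆ Bl ρ)
    (hr : ∀ θ M, rot θ M ∈ Ω ↔ M ∈ Ω) {b V : E → ℂ} (hb : ContinuousOn b Gp)
    (hbr : ∀ θ M, b (rot θ M) = b M) (hV : ContinuousOn V Gp) :
    (2 * Real.pi : ℂ) * ∫ M in Ω, b M * V M ∂nu =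
      ∫ M in Ω, b M * (∫ θ in Ioc (0 : ℝ) (2 * Real.pi), V (rot θ M)) ∂nu := by
  have h := (q2i_avg hΩ hr (q2i_cont hs (hb.mul hV))).2
  simp only [Pi.mul_apply, hbr, integral_const_mul] at h
  rw [h, real_smul]
  push_cast
  rfl

end Pool.Agent.MP_a28cf0_nt.Dec

end
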