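import Pool.Agent.MP_a28cf0_nt.Mg.Four_Alg

set_option autoImplicit false

namespace Pool.Agent.MP_a28cf0_nt.Four

open MeasureTheory Complex Filter Topology Set Pool.Agent.MP_a28cf0_nt.Cub
open scoped ENNReal MatrixGroups

theorem isOpen_U0 : IsOpen U0 := by
  have h1 : IsOpen {g : E | g.2.re ≠ 0} := isOpen_ne_fun (by fun_prop) continuous_const
  have h2 : IsOpen {g : E | g.2.im ≠ 0} := isOpen_ne_fun (by fun_prop) continuous_const
  exact isOpen_Gp.inter (h1.inter h2)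

theorem measurable_ell : Measurable ell := by
  unfold ell
  fun_prop

theorem measurable_tc : Measurable tc := by
  unfold tc
  fun_prop

theorem continuous_Pt : Continuous Pt := by
  have : Pt = fun P : (ℝ × ℝ) × ℝ =>
      (P.2 : ℂ) + (√((P.2 - P.1.1) * (P.1.2 - P.2)) : ℝ) * I := by
    funext P
    apply Complex.ext <;> simp [Pt]
  rw [this]
  fun_prop

theorem measurable_Pt : Measurable Pt := continuous_Pt.measurable

theorem continuousOn_ell : ContinuousOn ell U0 :=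
  (ContinuousOn.div (by fun_prop) (by fun_prop) fun _ h => h.2.1).prodMk
    (ContinuousOn.div (by fun_prop) (by fun_prop) fun _ h => h.2.2)

theorem fl_mem_U0 (s : ℝ) (g : E) : fl s g ∈ U0 ↔ g ∈ U0 := by
  obtain ⟨-, -, h3, h4⟩ := fl_apply s g
  simp only [U0, mem_ofPred_eq, fl_mem_Gp, h3, h4, ne_eq, mul_eq_zero, Real.exp_ne_zero, false_or]

theorem smul_mem_U0 {s : ℝ} (hs : 0 < s) (g : E) : s • g ∈ U0 ↔ g ∈ U0 := by
  obtain ⟨-, -, h3, h4⟩ := smul_apply' s g
  simp only [U0, mem_ofPred_eq, smul_mem_Gp hs, h3, h4, ne_eq, mul_eq_zero, hs.ne', false_or]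

theorem ell_fl (s : ℝ) (g : E) : ell (fl s g) = ell g := by
  obtain ⟨h1, h2, h3, h4⟩ := fl_apply s g
  simp only [ell, h1, h2, h3, h4, mul_div_mul_left _ _ (Real.exp_ne_zero _)]

theorem ell_smul {s : ℝ} (hs : s ≠ 0) (g : E) : ell (s • g) = ell g := by
  obtain ⟨h1, h2, h3, h4⟩ := smul_apply' s g
  simp only [ell, h1, h2, h3, h4, mul_div_mul_left _ _ hs]

theorem coord_exp {g : E} (hg : g ∈ U0) : Real.exp (2 * tc g) = |g.2.re / g.2.im| := by
  rw [tc, mul_div_cancel₀ _ two_ne_zero, Real.exp_log (abs_pos.2 (div_ne_zero hg.2.1 hg.2.2))]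

theorem tc_fl (s : ℝ) {g : E} (hg : g ∈ U0) : tc (fl s g) = tc g + s := by
  obtain ⟨-, -, h3, h4⟩ := fl_apply s g
  have h1 := coord_exp ((fl_mem_U0 s g).2 hg)
  have h2 : Real.exp (2 * (tc g + s)) = |(fl s g).2.re / (fl s g).2.im| := by
    rw [h3, h4, mul_div_mul_comm, ← Real.exp_sub, abs_mul, abs_of_pos (Real.exp_pos _),
      ← coord_exp hg, ← Real.exp_add]
    congr 1
    ring
  have := Real.exp_injective (h1.trans h2.symm)
  linarith

theorem coord_dt {g : E} (hg : g ∈ U0) :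
    dt g = g.2.re * g.2.im * ((ell g).2 - (ell g).1) := by
  have h1 := hg.2.1
  have h2 := hg.2.2
  simp only [dt, ell]
  field_simp

theorem ell_ne {g : E} (hg : g ∈ U0) : (ell g).1 ≠ (ell g).2 := by
  intro h
  have h1 := coord_dt hg
  have h2 : 0 < dt g := hg.1
  rw [h, sub_self, mul_zero] at h1
  exact h2.ne' h1

theorem dt_div_re {g : E} (hg : g ∈ U0) :
    dt g / g.2.re ^ 2 = |(ell g).2 - (ell g).1| * Real.exp (-(2 * tc g)) := by
  have h1 := hg.2.1
  have h2 := hg.2.2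
  have h3 : 0 < dt g := hg.1
  rw [Real.exp_neg, coord_exp hg, ← abs_inv, ← abs_mul,
    ← abs_of_pos (div_pos h3 (by positivity : 0 < g.2.re ^ 2)), coord_dt hg]
  congr 1
  field_simp

theorem dt_div_im {g : E} (hg : g ∈ U0) :
    dt g / g.2.im ^ 2 = |(ell g).2 - (ell g).1| * Real.exp (2 * tc g) := by
  have h1 := hg.2.1
  have h2 := hg.2.2
  have h3 : 0 < dt g := hg.1
  rw [coord_exp hg, ← abs_mul,
    ← abs_of_pos (div_pos h3 (by positivity : 0 < g.2.im ^ 2)), coord_dt hg]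
  congr 1
  field_simp

theorem re_pr_eq {g : E} (hg : g ∈ U0) :
    (pr g).re = (ell g).1 + ((ell g).2 - (ell g).1) / (1 + Real.exp (4 * tc g)) := by
  have h1 := hg.2.1
  have h2 := hg.2.2
  have h3 : Real.exp (4 * tc g) = (g.2.re / g.2.im) ^ 2 := by
    rw [← sq_abs, ← coord_exp hg, sq, ← Real.exp_add]
    congr 1
    ring
  have h4 : g.2.re * g.2.re + g.2.im * g.2.im ≠ 0 :=
    (add_pos (mul_self_pos.2 h1) (mul_self_pos.2 h2)).ne'
  rw [h3]
  simp only [pr, ell, div_re, normSq_apply]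
  field_simp
  ring

theorem coord_between {g : E} (hg : g ∈ U0) :
    ((pr g).re - (ell g).1) * ((ell g).2 - (pr g).re) = (pr g).im ^ 2 := by
  have h1 := hg.2.1
  have h2 := hg.2.2
  have h4 : g.2.re * g.2.re + g.2.im * g.2.im ≠ 0 :=
    (add_pos (mul_self_pos.2 h1) (mul_self_pos.2 h2)).ne'
  simp only [pr, ell, div_re, div_im, normSq_apply]
  field_simp
  ring

theorem between_pos {g : E} (hg : g ∈ U0) :
    0 < ((pr g).re - (ell g).1) * ((ell g).2 - (pr g).re) := by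
  have : 0 < (pr g).im := pr_mem hg.1
  rw [coord_between hg]
  positivity

theorem pr_eq_Pt {g : E} (hg : g ∈ U0) : pr g = Pt (ell g, (pr g).re) := by
  have : 0 < (pr g).im := pr_mem hg.1
  refine Complex.ext rfl ?_
  simp only [Pt]
  rw [coord_between hg, Real.sqrt_sq this.le]

theorem coord_row {g : E} (hg : g ∈ Gp) (γ : SL(2, ℤ)) {p q : ℝ} (hp : (γ 1 0 : ℝ) = p)
    (hq : (γ 1 1 : ℝ) = q) (h1 : p * g.1.re + q * g.2.re ≠ 0) (h2 : p * g.1.im + q * g.2.im ≠ 0) :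
    act γ g ∈ U0 := by
  obtain ⟨-, -, h3, h4⟩ := act_apply γ g
  exact ⟨act_mem hg γ, by rwa [h3, hp, hq], by rwa [h4, hp, hq]⟩

theorem exists_act_U0 {g : E} (hg : g ∈ Gp) : ∃ γ : SL(2, ℤ), act γ g ∈ U0 := by
  have h0 : 0 < g.1.im * g.2.re - g.1.re * g.2.im := hg
  by_cases h1 : g.2.re ≠ 0 ∧ g.2.im ≠ 0
  · exact ⟨1, by rw [act_one]; exact ⟨hg, h1⟩⟩
  by_cases h2 : g.1.re ≠ 0 ∧ g.1.im ≠ 0
  · exact ⟨_, coord_row hg ModularGroup.S (p := 1) (q := 0) (by simp [ModularGroup.S])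
      (by simp [ModularGroup.S]) (by simpa using h2.1) (by simpa using h2.2)⟩
  rw [not_and_or, not_not, not_not] at h1 h2
  refine ⟨_, coord_row hg ⟨!![1, 0; 1, 1], by simp [Matrix.det_fin_two]⟩ (p := 1) (q := 1)
    (by simp) (by simp) (fun h3 => ?_) fun h3 => ?_⟩
  · rcases h1 with h1 | h1 <;> rcases h2 with h2 | h2
    · simp [h1, h2] at h0
    · simp only [h1, one_mul, add_zero] at h3
      simp [h1, h3] at h0
    · simp only [h2, one_mul, zero_add] at h3
      simp [h2, h3] at h0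
    · simp [h1, h2] at h0
  · rcases h1 with h1 | h1 <;> rcases h2 with h2 | h2
    · simp [h1, h2] at h0
    · simp only [h2, one_mul, zero_add] at h3
      simp [h2, h3] at h0
    · simp only [h1, one_mul, add_zero] at h3
      simp [h1, h3] at h0
    · simp [h1, h2] at h0

theorem nuT_sfinite {μ : Measure E} (hμ : Good μ) : SFinite (nuT μ) := by
  have := surf_sfinite hμ
  unfold nuT
  infer_instance

theorem coord_measS : MeasurableSet {g | g ∈ U0 ∧ tc g ∈ Ico (0 : ℝ) 1} :=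
  isOpen_U0.measurableSet.inter (measurable_tc measurableSet_Ico)

theorem nuT_fin {μ : Measure E} (hμ : Good μ) {K : Set (ℝ × ℝ)} (hK : IsCompact K)
    (hd : ∀ l ∈ K, l.1 ≠ l.2) : nuT μ K < ⊤ := by
  obtain ⟨δ, hδ, h1⟩ := hK.exists_forall_le' (f := fun l : ℝ × ℝ => |l.2 - l.1|) (a := 0)
    (by fun_prop) fun l hl => abs_pos.2 (sub_ne_zero.2 (hd l hl).symm)
  obtain ⟨Λ, hΛ⟩ := hK.exists_bound_of_continuousOn (f := fun l => l) continuousOn_id
  set r : ℝ := √(4 * Real.exp 2 / δ) with hr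
  have := hμ.fin
  rw [nuT, Measure.map_apply measurable_ell hK.measurableSet,
    Measure.restrict_apply (measurable_ell hK.measurableSet)]
  refine lt_of_le_of_lt (measure_mono_ae ?_)
    (isCompact_closedBall (0 : E) (2 * (|Λ| + 1) * r)).measure_lt_top
  filter_upwards [good_ae hμ] with g hs ⟨hl, hg, ht0, ht1⟩
  have a1 := h1 _ hl
  have a2 := (hΛ _ hl).trans (le_abs_self Λ)
  have e2 : 1 ≤ Real.exp 2 := Real.one_le_exp (by norm_num)
  have b1 : |g.2.re| ≤ r := by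
    refine Real.abs_le_sqrt ?_
    have c1 := dt_div_re hg
    have c0 : 0 < g.2.re ^ 2 := by have := hg.2.1; positivity
    have c2 : 1 ≤ Real.exp (-(2 * tc g)) * Real.exp 2 := by
      rw [← Real.exp_add]
      exact Real.one_le_exp (by linarith)
    rw [div_eq_iff c0.ne'] at c1
    rw [le_div_iff₀ hδ]
    calc g.2.re ^ 2 * δ ≤ g.2.re ^ 2 * |(ell g).2 - (ell g).1| *
          (Real.exp (-(2 * tc g)) * Real.exp 2) := by
          refine le_trans ?_ (le_mul_of_one_le_right (by positivity) c2)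
          gcongr
      _ = dt g * Real.exp 2 := by rw [c1]; ring
      _ ≤ _ := by gcongr; exact hs.2
  have b2 : |g.2.im| ≤ r := by
    refine Real.abs_le_sqrt ?_
    have c1 := dt_div_im hg
    have c0 : 0 < g.2.im ^ 2 := by have := hg.2.2; positivity
    have c2 : 1 ≤ Real.exp (2 * tc g) := Real.one_le_exp (by linarith)
    rw [div_eq_iff c0.ne'] at c1
    rw [le_div_iff₀ hδ]
    calc g.2.im ^ 2 * δ ≤ g.2.im ^ 2 * |(ell g).2 - (ell g).1| * Real.exp (2 * tc g) := by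
          refine le_trans ?_ (le_mul_of_one_le_right (by positivity) c2)
          gcongr
      _ = dt g := by rw [c1]; ring
      _ ≤ _ := by linarith [hs.2]
  have r0 : 0 ≤ r := Real.sqrt_nonneg _
  have b3 : |g.1.re| ≤ |Λ| * r := by
    have : g.1.re = (ell g).1 * g.2.re := (div_mul_cancel₀ _ hg.2.1).symm
    rw [this, abs_mul]
    exact mul_le_mul ((norm_fst_le (ell g)).trans a2) b1 (abs_nonneg _) (abs_nonneg _)
  have b4 : |g.1.im| ≤ |Λ| * r := by
    have : g.1.im = (ell g).2 * g.2.im := (div_mul_cancel₀ _ hg.2.2).symm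
    rw [this, abs_mul]
    exact mul_le_mul ((norm_snd_le (ell g)).trans a2) b2 (abs_nonneg _) (abs_nonneg _)
  have b5 : 0 ≤ |Λ| * r := by positivity
  show g ∈ Metric.closedBall (0 : E) _
  rw [mem_closedBall_zero_iff, Prod.norm_def]
  refine max_le ((norm_le_abs_re_add_abs_im _).trans ?_) ((norm_le_abs_re_add_abs_im _).trans ?_)
  · linarith
  · linarith

theorem nuT_diag (μ : Measure E) : ∀ᵐ l ∂(nuT μ), l.1 ≠ l.2 := by
  have hm : MeasurableSet {l : ℝ × ℝ | l.1 ≠ l.2} :=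
    (isOpen_ne_fun continuous_fst continuous_snd).measurableSet
  rw [nuT, ae_map_iff measurable_ell.aemeasurable hm]
  filter_upwards [ae_restrict_mem coord_measS] with g hg using ell_ne hg.1

/-- an invariant measure is the product of the transverse measure and time -/
theorem prod_formula {μ : Measure E} (hμ : Good μ) {F : (ℝ × ℝ) × ℝ → ℝ≥0∞} (hF : Measurable F) :
    ∫⁻ g in U0, F (ell g, tc g) ∂μ = ∫⁻ l, ∫⁻ τ, F (l, τ) ∂volume ∂(nuT μ) := by
  have := surf_sfinite hμ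
  have mU := isOpen_U0.measurableSet
  have me := measurable_ell
  have mc := measurable_tc
  set χ : ℝ → ℝ≥0∞ := (Ico (0 : ℝ) 1).indicator 1 with hχ
  have mχ : Measurable χ := measurable_one.indicator measurableSet_Ico
  have iχ : ∀ x : ℝ, ∫⁻ s, χ (x - s) = 1 := fun x => by
    rw [lintegral_sub_left_eq_self χ x, hχ, lintegral_indicator_one measurableSet_Ico]
    simp
  have mp : ∀ s, MeasurePreserving (fl s) (μ.restrict U0) (μ.restrict U0) := fun s => by
    have h := (good_mp_fl hμ s).restrict_preimage mU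
    rwa [show fl s ⁻¹' U0 = U0 from Set.ext (fl_mem_U0 s)] at h
  have mG : Measurable fun l : ℝ × ℝ => ∫⁻ τ, F (l, τ) := hF.lintegral_prod_right'
  calc ∫⁻ g in U0, F (ell g, tc g) ∂μ
      = ∫⁻ g in U0, (∫⁻ s, χ (tc g - s) * F (ell g, tc g)) ∂μ := by
        refine lintegral_congr fun g => ?_
        rw [lintegral_mul_const _ (by fun_prop), iχ, one_mul]
    _ = ∫⁻ s, ∫⁻ g in U0, χ (tc g - s) * F (ell g, tc g) ∂μ :=
        lintegral_lintegral_swap (Measurable.aemeasurable (by fun_prop))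
    _ = ∫⁻ s, ∫⁻ g in U0, χ (tc g) * F (ell g, tc g + s) ∂μ := by
        refine lintegral_congr fun s => ?_
        rw [← (mp s).lintegral_comp (by fun_prop)]
        refine setLIntegral_congr_fun mU fun g hg => ?_
        simp only [ell_fl, tc_fl s hg, add_sub_cancel_right]
    _ = ∫⁻ g in U0, (∫⁻ s, χ (tc g) * F (ell g, tc g + s)) ∂μ :=
        (lintegral_lintegral_swap (Measurable.aemeasurable (by fun_prop))).symm
    _ = ∫⁻ g in U0, (tc ⁻¹' Ico (0 : ℝ) 1).indicator (fun g => ∫⁻ τ, F (ell g, τ)) g ∂μ := by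
        refine lintegral_congr fun g => ?_
        rw [lintegral_const_mul _ (by fun_prop),
          lintegral_add_left_eq_self (fun τ => F (ell g, τ)) (tc g), hχ]
        by_cases h : tc g ∈ Ico (0 : ℝ) 1
        · rw [indicator_of_mem h, indicator_of_mem (mem_preimage.2 h), Pi.one_apply, one_mul]
        · rw [indicator_of_notMem h, indicator_of_notMem (mt mem_preimage.1 h), zero_mul]
    _ = _ := by
        rw [lintegral_indicator (mc measurableSet_Ico),
          Measure.restrict_restrict (mc measurableSet_Ico), nuT, lintegral_map mG me, inter_comm]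
        rfl

/-- the real part as a function of time -/
noncomputable def coordX (l : ℝ × ℝ) (τ : ℝ) : ℝ := l.1 + (l.2 - l.1) / (1 + Real.exp (4 * τ))

noncomputable def coordD (l : ℝ × ℝ) (τ : ℝ) : ℝ :=
  -((l.2 - l.1) * (4 * Real.exp (4 * τ)) / (1 + Real.exp (4 * τ)) ^ 2)

theorem coord_deriv (l : ℝ × ℝ) (τ : ℝ) : HasDerivAt (coordX l) (coordD l τ) τ := by
  have h1 : HasDerivAt (fun τ : ℝ => 1 + Real.exp (4 * τ)) (Real.exp (4 * τ) * 4) τ := by
    simpa using (((hasDerivAt_id τ).const_mul 4).exp).const_add 1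
  have h2 := ((hasDerivAt_const τ (l.2 - l.1)).div h1 (by positivity)).const_add l.1
  refine h2.congr_deriv ?_
  simp only [coordD]
  ring

theorem coord_inj {l : ℝ × ℝ} (h : l.2 - l.1 ≠ 0) : Function.Injective (coordX l) := by
  intro a b hab
  simp only [coordX, add_right_inj] at hab
  rw [div_eq_div_iff (by positivity) (by positivity)] at hab
  have h1 := Real.exp_injective (add_left_cancel (mul_left_cancel₀ h hab))
  linarith

theorem coord_surj {l : ℝ × ℝ} {x : ℝ} (h : 0 < (x - l.1) * (l.2 - x)) :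
    ∃ τ, coordX l τ = x := by
  have h1 : x - l.1 ≠ 0 := fun h0 => by simp [h0] at h
  have h2 : 0 < (l.2 - x) / (x - l.1) := by
    have : (l.2 - x) / (x - l.1) = (x - l.1) * (l.2 - x) / (x - l.1) ^ 2 := by field_simp
    rw [this]
    positivity
  refine ⟨Real.log ((l.2 - x) / (x - l.1)) / 4, ?_⟩
  have h3 : 1 + (l.2 - x) / (x - l.1) ≠ 0 := by positivity
  rw [coordX, mul_div_cancel₀ _ four_ne_zero, Real.exp_log h2, ← eq_sub_iff_add_eq',
    div_eq_iff h3]
  field_simp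
  ring

theorem coord_D_le (l : ℝ × ℝ) (τ : ℝ) : |coordD l τ| ≤ |l.2 - l.1| := by
  have h0 := Real.exp_pos (4 * τ)
  rw [coordD, abs_neg, mul_div_assoc, abs_mul]
  refine mul_le_of_le_one_right (abs_nonneg _) ?_
  rw [abs_of_pos (by positivity), div_le_one (by positivity)]
  nlinarith [sq_nonneg (1 - Real.exp (4 * τ))]

theorem coord_D_mul (l : ℝ × ℝ) (τ : ℝ) :
    |coordD l τ| * |l.2 - l.1| = 4 * ((coordX l τ - l.1) * (l.2 - coordX l τ)) := by
  have h0 := Real.exp_pos (4 * τ)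
  have h1 : coordD l τ * (l.2 - l.1) =
      -((l.2 - l.1) ^ 2 * (4 * Real.exp (4 * τ)) / (1 + Real.exp (4 * τ)) ^ 2) := by
    simp only [coordD]
    ring
  rw [← abs_mul, h1, abs_neg, abs_of_nonneg (by positivity)]
  simp only [coordX]
  field_simp
  ring

theorem coord_line {l : ℝ × ℝ} {κ Λ x₀ x₁ : ℝ} (hκ : 0 < κ) (h1 : |l.1| ≤ Λ) (h2 : |l.2| ≤ Λ)
    (h3 : l.2 - l.1 ≠ 0) (h4 : ∀ x ∈ Ioo x₀ x₁, κ ≤ (x - l.1) * (l.2 - x)) (G : ℝ → ℝ≥0∞) :
    ∫⁻ τ, (Ioo x₀ x₁).indicator G (coordX l τ) ≤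
        ENNReal.ofReal (2 * Λ + Λ / κ) * ∫⁻ x in Ioo x₀ x₁, G x ∧
      ∫⁻ x in Ioo x₀ x₁, G x ≤
        ENNReal.ofReal (2 * Λ + Λ / κ) * ∫⁻ τ, (Ioo x₀ x₁).indicator G (coordX l τ) := by
  have L0 : 0 ≤ Λ := (abs_nonneg _).trans h1
  have L1 : 0 ≤ Λ / κ := by positivity
  have L2 : |l.2 - l.1| ≤ 2 * Λ := (abs_sub _ _).trans (by linarith)
  have key := lintegral_image_eq_lintegral_abs_deriv_mul MeasurableSet.univ
    (fun τ _ => (coord_deriv l τ).hasDerivWithinAt) (coord_inj h3).injOn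
    ((Ioo x₀ x₁).indicator G)
  have hs : Ioo x₀ x₁ ⊆ coordX l '' univ := fun x hx => by
    obtain ⟨τ, hτ⟩ := coord_surj (hκ.trans_le (h4 x hx))
    exact ⟨τ, trivial, hτ⟩
  rw [lintegral_indicator measurableSet_Ioo, Measure.restrict_restrict measurableSet_Ioo,
    inter_eq_left.2 hs, Measure.restrict_univ] at key
  rw [key, ← lintegral_const_mul' _ _ ENNReal.ofReal_ne_top,
    ← lintegral_const_mul' _ _ ENNReal.ofReal_ne_top]
  refine ⟨lintegral_mono fun τ => ?_, lintegral_mono fun τ => ?_⟩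
  · by_cases h : coordX l τ ∈ Ioo x₀ x₁
    · rw [← mul_assoc, ← ENNReal.ofReal_mul (by positivity)]
      refine le_mul_of_one_le_left' (ENNReal.one_le_ofReal.2 ?_)
      have e1 := coord_D_mul l τ
      have e2 := h4 _ h
      have e3 := abs_nonneg (coordD l τ)
      have e4 : 1 ≤ Λ / κ * |coordD l τ| := by
        rw [div_mul_eq_mul_div, one_le_div hκ]
        nlinarith
      nlinarith
    · rw [indicator_of_notMem h]
      exact zero_le
  · gcongr
    linarith [coord_D_le l τ]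

/-- comparison of time with the real part -/
theorem box_cmp {μ : Measure E} (hμ : Good μ) {R : Set (ℝ × ℝ)} {κ Λ x₀ x₁ : ℝ}
    (hG : Geo ((nuT μ).restrict R) R κ Λ x₀ x₁) :
    ∃ C : ℝ≥0∞, C ≠ ⊤ ∧ ∀ F : (ℝ × ℝ) × ℝ → ℝ≥0∞, Measurable F →
      ∫⁻ g in {g | g ∈ U0 ∧ ell g ∈ R ∧ (pr g).re ∈ Ioo x₀ x₁}, F (ell g, (pr g).re) ∂μ ≤
        C * ∫⁻ P, F P ∂(((nuT μ).restrict R).prod (volume.restrict (Ioo x₀ x₁))) ∧
      ∫⁻ P, F P ∂(((nuT μ).restrict R).prod (volume.restrict (Ioo x₀ x₁))) ≤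
        C * ∫⁻ g in {g | g ∈ U0 ∧ ell g ∈ R ∧ (pr g).re ∈ Ioo x₀ x₁}, F (ell g, (pr g).re) ∂μ := by
  refine ⟨ENNReal.ofReal (2 * Λ + Λ / κ), ENNReal.ofReal_ne_top, fun F hF => ?_⟩
  have mB : MeasurableSet (R ×ˢ Ioo x₀ x₁) := hG.meas.prod measurableSet_Ioo
  have mX : Measurable fun P : (ℝ × ℝ) × ℝ => (P.1, coordX P.1 P.2) := by
    unfold coordX
    fun_prop
  have mP : Measurable fun g : E => (ell g, (pr g).re) :=
    measurable_ell.prodMk (measurable_re.comp measurable_pr)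
  have e1 : ∫⁻ g in {g | g ∈ U0 ∧ ell g ∈ R ∧ (pr g).re ∈ Ioo x₀ x₁}, F (ell g, (pr g).re) ∂μ =
      ∫⁻ l in R, ∫⁻ τ, (Ioo x₀ x₁).indicator (fun x => F (l, x)) (coordX l τ) ∂volume
        ∂(nuT μ) := by
    have e2 := prod_formula hμ ((hF.indicator mB).comp mX)
    have e3 : {g | g ∈ U0 ∧ ell g ∈ R ∧ (pr g).re ∈ Ioo x₀ x₁} =
        (fun g : E => (ell g, (pr g).re)) ⁻¹' (R ×ˢ Ioo x₀ x₁) ∩ U0 :=
      Set.ext fun g => and_comm
    rw [e3, ← Measure.restrict_restrict (mP mB), ← lintegral_indicator (mP mB),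
      ← lintegral_indicator hG.meas]
    refine (setLIntegral_congr_fun isOpen_U0.measurableSet fun g hg => ?_).trans
      (e2.trans (lintegral_congr fun l => ?_))
    · simp only [Function.comp_apply, coordX, ← re_pr_eq hg]
      exact indicator_comp_right (fun g : E => (ell g, (pr g).re))
    · by_cases hl : l ∈ R
      · rw [indicator_of_mem hl]
        refine lintegral_congr fun τ => ?_
        simp only [Function.comp_apply, indicator, mem_prod, hl, true_and]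
      · rw [indicator_of_notMem hl]
        simp only [Function.comp_apply, indicator, mem_prod, hl, false_and, if_false,
          lintegral_zero]
  have hl : ∀ l ∈ R, _ := fun l hl => coord_line hG.pos (hG.bd l hl).1 (hG.bd l hl).2
    (abs_pos.1 (hG.pos.trans_le (hG.sep l hl l hl))) (hG.above l hl) (fun x => F (l, x))
  rw [e1, lintegral_prod _ hF.aemeasurable, ← lintegral_const_mul' _ _ ENNReal.ofReal_ne_top,
    ← lintegral_const_mul' _ _ ENNReal.ofReal_ne_top]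
  exact ⟨setLIntegral_mono' hG.meas fun l h => (hl l h).1,
    setLIntegral_mono' hG.meas fun l h => (hl l h).2⟩

end Pool.Agent.MP_a28cf0_nt.Four

namespace Pool.Agent.MP_a28cf0_nt.Four

open MeasureTheory Complex Filter Topology Set Pool.Agent.MP_a28cf0_nt.Cub
open scoped ENNReal MatrixGroups

theorem piX_sub (x : ℝ) (l l' : ℝ × ℝ) :
    piX x l' - piX x l = (l'.2 - l.2) * (x - l'.1) + (l'.1 - l.1) * (x - l.2) := by
  unfold piX; ring

theorem r1_meas_pi {X : Type} [MeasurableSpace X] {x : X → ℝ} {l : X → ℝ × ℝ} (hx : Measurable x)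
    (hl : Measurable l) : Measurable fun p => piX (x p) (l p) := by
  unfold piX; fun_prop

theorem measurable_cr (a b : ℝ) :
    Measurable fun P : (ℝ × ℝ) × (ℝ × ℝ) => cr a b P.1 P.2 := by
  unfold cr
  refine Measurable.ite (measurableSet_le ?_ measurable_const) ?_ measurable_const
  · unfold piX; fun_prop
  · exact ENNReal.measurable_ofReal.comp (by fun_prop)

theorem r1_abs_x {κ Λ x u v : ℝ} (hκ : 0 < κ) (hu : |u| ≤ Λ) (hv : |v| ≤ Λ)
    (h : κ ≤ (x - u) * (v - x)) : |x| ≤ Λ := by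
  rw [abs_le] at hu hv ⊢
  rcases le_total u x with h1 | h1
  · have : x ≤ v := by
      by_contra h2
      push Not at h2
      nlinarith
    constructor <;> linarith [hu.1, hv.2]
  · have : v ≤ x := by
      by_contra h2
      push Not at h2
      nlinarith
    constructor <;> linarith [hu.2, hv.1]

theorem r1_abs_mul {a b A : ℝ} (hb : |b| ≤ A) : |a * b| ≤ A * |a| := by
  rw [abs_mul, mul_comm]; gcongr

/-- the coordinates `(x, |z|²)` are comparable with `z`, and slope and intercept with `l` -/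
theorem geo_lip {ν : Measure (ℝ × ℝ)} {R : Set (ℝ × ℝ)} {κ Λ x₀ x₁ : ℝ} (hG : Geo ν R κ Λ x₀ x₁) :
    ∃ C : ℝ, 1 ≤ C ∧ ∀ l ∈ R, ∀ l' ∈ R, ∀ x ∈ Ioo x₀ x₁,
      (∀ x' ∈ Ioo x₀ x₁,
        dist (Pt (l, x)) (Pt (l', x')) ≤ C * (|x - x'| + |piX x l' - piX x l|) ∧
        |x - x'| + |piX x l' - piX x l| ≤ C * dist (Pt (l, x)) (Pt (l', x'))) ∧
      dist l' l ≤ C * (|piX x l' - piX x l| + |l'.1 + l'.2 - (l.1 + l.2)|) ∧
      |piX x l' - piX x l| ≤ C * dist l' l := by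
  have hκ := hG.pos
  have hs : 0 < √κ := Real.sqrt_pos.2 hκ
  set A := |Λ| with hA
  have hA0 : 0 ≤ A := abs_nonneg _
  have p1 : 0 ≤ (1 + 4 * A) / √κ := by positivity
  have p2 : 0 ≤ (1 + 2 * A) / κ := by positivity
  refine ⟨1 + 8 * A + (1 + 4 * A) / √κ + (1 + 2 * A) / κ, by linarith, ?_⟩
  intro l hl l' hl' x hx
  set C := 1 + 8 * A + (1 + 4 * A) / √κ + (1 + 2 * A) / κ with hC
  have hΛ : Λ ≤ A := le_abs_self _
  have bu := (hG.bd l hl).1.trans hΛ
  have bv := (hG.bd l hl).2.trans hΛ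
  have bu' := (hG.bd l' hl').1.trans hΛ
  have bv' := (hG.bd l' hl').2.trans hΛ
  have bx := r1_abs_x hκ bu bv (hG.above l hl x hx)
  have two : ∀ {a b : ℝ}, |a| ≤ A → |b| ≤ A → |a - b| ≤ 2 * A := fun ha hb =>
    (abs_sub _ _).trans (by linarith)
  set D := piX x l' - piX x l with hD
  have hD0 : 0 ≤ |D| := abs_nonneg _
  refine ⟨fun x' hx' => ?_, ?_, ?_⟩
  · have bx' := r1_abs_x hκ bu' bv' (hG.above l' hl' x' hx')
    have k := hG.above l hl x hx
    have k' := hG.above l' hl' x' hx'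
    set y := √((x - l.1) * (l.2 - x)) with hy
    set y' := √((x' - l'.1) * (l'.2 - x')) with hy'
    have y2 : y ^ 2 = (x - l.1) * (l.2 - x) := Real.sq_sqrt (hκ.le.trans k)
    have y2' : y' ^ 2 = (x' - l'.1) * (l'.2 - x') := Real.sq_sqrt (hκ.le.trans k')
    have ly : √κ ≤ y := Real.sqrt_le_sqrt k
    have ly' : √κ ≤ y' := Real.sqrt_le_sqrt k'
    have uy : ∀ {t a b : ℝ}, |a| ≤ A → |b| ≤ A → |t| ≤ A → √((t - a) * (b - t)) ≤ 2 * A := by
      intro t a b ha hb ht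
      rw [Real.sqrt_le_left (by linarith)]
      refine (le_abs_self _).trans ?_
      rw [abs_mul, sq]
      exact mul_le_mul (two ht ha) (two hb ht) (abs_nonneg _) (by linarith)
    have uy1 : y ≤ 2 * A := uy bu bv bx
    have uy2 : y' ≤ 2 * A := uy bu' bv' bx'
    have e : (y - y') * (y + y') = -D + (x - x') * ((l'.1 - x) + (l'.2 - x')) := by
      rw [hD]; unfold piX; linear_combination y2 - y2'
    have b4 : |(x - x') * ((l'.1 - x) + (l'.2 - x'))| ≤ 4 * A * |x - x'| :=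
      r1_abs_mul ((abs_add_le _ _).trans (by linarith [two bu' bx, two bv' bx']))
    have hyy : 0 < y + y' := by linarith
    have d1 : (Pt (l, x) - Pt (l', x')).re = x - x' := rfl
    have d2 : (Pt (l, x) - Pt (l', x')).im = y - y' := rfl
    have hx0 : 0 ≤ |x - x'| := abs_nonneg _
    rw [dist_eq_norm]
    constructor
    · have n1 := Complex.norm_le_abs_re_add_abs_im (Pt (l, x) - Pt (l', x'))
      rw [d1, d2] at n1
      have n2 : |y - y'| * √κ ≤ (1 + 4 * A) * (|x - x'| + |D|) := by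
        have t1 : |y - y'| * √κ ≤ |y - y'| * (y + y') := by
          gcongr; linarith
        have t2 : |y - y'| * (y + y') = |(y - y') * (y + y')| := by
          rw [abs_mul, abs_of_pos hyy]
        have t3 : |(y - y') * (y + y')| ≤ |D| + 4 * A * |x - x'| := by
          rw [e]; refine (abs_add_le _ _).trans ?_
          rw [abs_neg]; linarith
        nlinarith
      have n3 : |y - y'| ≤ (1 + 4 * A) / √κ * (|x - x'| + |D|) := by
        rw [div_mul_eq_mul_div, le_div_iff₀ hs]; exact n2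
      have n4 : (1 + (1 + 4 * A) / √κ) * (|x - x'| + |D|) ≤ C * (|x - x'| + |D|) := by
        gcongr; linarith
      linarith
    · have n1 := Complex.abs_re_le_norm (Pt (l, x) - Pt (l', x'))
      have n2 := Complex.abs_im_le_norm (Pt (l, x) - Pt (l', x'))
      rw [d1] at n1
      rw [d2] at n2
      set N := ‖Pt (l, x) - Pt (l', x')‖ with hN
      have hN0 : 0 ≤ N := norm_nonneg _
      have t1 : |(y - y') * (y + y')| ≤ 4 * A * |y - y'| :=
        r1_abs_mul (by rw [abs_of_pos hyy]; linarith)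
      have t2 : |D| ≤ 4 * A * |y - y'| + 4 * A * |x - x'| := by
        have : D = (x - x') * ((l'.1 - x) + (l'.2 - x')) - (y - y') * (y + y') := by linarith
        rw [this]
        exact (abs_sub _ _).trans (by linarith)
      have t3 : 4 * A * |y - y'| ≤ 4 * A * N := by gcongr
      have t4 : 4 * A * |x - x'| ≤ 4 * A * N := by gcongr
      have n4 : (1 + 8 * A) * N ≤ C * N := by gcongr; linarith
      linarith
  · set q := l'.1 + l'.2 - (l.1 + l.2) with hq
    have hq0 : 0 ≤ |q| := abs_nonneg _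
    have e : (l'.1 - l.1) * (l.2 - l'.1) = q * (x - l'.1) - D := by
      rw [hq, hD]; unfold piX; ring
    have t1 : |l'.1 - l.1| * κ ≤ (1 + 2 * A) * (|D| + |q|) := by
      have s1 : |l'.1 - l.1| * κ ≤ |(l'.1 - l.1) * (l.2 - l'.1)| := by
        rw [abs_mul]; gcongr; exact hG.sep l hl l' hl'
      have s2 : |q * (x - l'.1)| ≤ 2 * A * |q| := r1_abs_mul (two bx bu')
      have s3 : |(l'.1 - l.1) * (l.2 - l'.1)| ≤ 2 * A * |q| + |D| := by
        rw [e]; exact (abs_sub _ _).trans (by linarith)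
      nlinarith
    have t2 : |l'.1 - l.1| ≤ (1 + 2 * A) / κ * (|D| + |q|) := by
      rw [div_mul_eq_mul_div, le_div_iff₀ hκ]; exact t1
    have t3 : |l'.2 - l.2| ≤ |q| + |l'.1 - l.1| := by
      have : l'.2 - l.2 = q - (l'.1 - l.1) := by rw [hq]; ring
      rw [this]; exact abs_sub _ _
    have n4 : (1 + (1 + 2 * A) / κ) * (|D| + |q|) ≤ C * (|D| + |q|) := by
      gcongr; linarith
    rw [Prod.dist_eq, Real.dist_eq, Real.dist_eq]
    exact max_le (by linarith) (by linarith)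
  · have a1 : |l'.1 - l.1| ≤ dist l' l := by
      rw [Prod.dist_eq, Real.dist_eq]; exact le_max_left _ _
    have a2 : |l'.2 - l.2| ≤ dist l' l := by
      rw [Prod.dist_eq, Real.dist_eq (x := l'.2)]; exact le_max_right _ _
    have h0 : 0 ≤ dist l' l := dist_nonneg
    have s1 : |(l'.2 - l.2) * (x - l'.1)| ≤ 2 * A * |l'.2 - l.2| := r1_abs_mul (two bx bu')
    have s2 : |(l'.1 - l.1) * (x - l.2)| ≤ 2 * A * |l'.1 - l.1| := r1_abs_mul (two bx bv)
    have s3 : 2 * A * |l'.2 - l.2| ≤ 2 * A * dist l' l := by gcongr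
    have s4 : 2 * A * |l'.1 - l.1| ≤ 2 * A * dist l' l := by gcongr
    have n4 : (4 * A) * dist l' l ≤ C * dist l' l := by gcongr; linarith
    rw [hD, piX_sub]
    exact (abs_add_le _ _).trans (by linarith)

theorem r1_fin {ν : Measure (ℝ × ℝ)} [IsFiniteMeasure ν] (x₀ x₁ : ℝ) :
    IsFiniteMeasure (prj ν x₀ x₁) := by
  unfold prj
  infer_instance

/-- the mass of a strip is controlled by the projected mass of a disc -/
theorem r1_strip {ν : Measure (ℝ × ℝ)} {R : Set (ℝ × ℝ)} {κ Λ x₀ x₁ C : ℝ}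
    (hG : Geo ν R κ Λ x₀ x₁) (hC0 : 0 < C)
    (hC : ∀ l ∈ R, ∀ l' ∈ R, ∀ x ∈ Ioo x₀ x₁, ∀ x' ∈ Ioo x₀ x₁,
      dist (Pt (l, x)) (Pt (l', x')) ≤ C * (|x - x'| + |piX x l' - piX x l|))
    {l : ℝ × ℝ} (hl : l ∈ R) {x r : ℝ} (hr : 0 < r) (h0 : x₀ ≤ x - r) (h1 : x + r ≤ x₁) :
    ν {l' | |piX x l' - piX x l| < r} * ENNReal.ofReal (2 * r) ≤
      prj ν x₀ x₁ (Metric.ball (Pt (l, x)) (C * (2 * r))) := by
  have := hG.fin
  have hsub : Ioo (x - r) (x + r) ⊆ Ioo x₀ x₁ := Ioo_subset_Ioo h0 h1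
  have hx : x ∈ Ioo x₀ x₁ := hsub ⟨by linarith, by linarith⟩
  have e1 : ν {l' | |piX x l' - piX x l| < r} = ν ({l' | |piX x l' - piX x l| < r} ∩ R) :=
    (measure_inter_conull hG.conc).symm
  have e2 : ENNReal.ofReal (2 * r) = volume.restrict (Ioo x₀ x₁) (Ioo (x - r) (x + r)) := by
    rw [Measure.restrict_eq_self _ hsub, Real.volume_Ioo]
    congr 1; ring
  rw [e1, e2, ← Measure.prod_prod, prj, Measure.map_apply measurable_Pt Metric.isOpen_ball.measurableSet]
  refine measure_mono ?_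
  rintro ⟨l', x'⟩ ⟨⟨h2, h3⟩, h4⟩
  have h5 := hC l hl l' h3 x hx x' (hsub h4)
  have h6 : |x - x'| < r := abs_lt.2 ⟨by linarith [h4.2], by linarith [h4.1]⟩
  change dist _ _ < _
  rw [dist_comm]
  refine h5.trans_lt ?_
  have h7 : |piX x l' - piX x l| < r := h2
  gcongr
  linarith

theorem r1_xy (x y : ℝ≥0∞) : x * y ≤ x ^ 2 + y ^ 2 := by
  rcases le_total x y with h | h
  · calc x * y ≤ y * y := by gcongr
      _ = y ^ 2 := (sq y).symm
      _ ≤ _ := le_add_self
  · calc x * y ≤ x * x := by gcongr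
      _ = x ^ 2 := (sq x).symm
      _ ≤ _ := le_self_add

theorem r1_meas_ball (m : Measure ℂ) [SFinite m] (s : ℝ) :
    Measurable fun z => m (Metric.ball z s) := by
  have hs : MeasurableSet {p : ℂ × ℂ | dist p.2 p.1 < s} :=
    measurableSet_lt (by fun_prop) measurable_const
  exact measurable_measure_prodMk_left (ν := m) hs

theorem r1_L2 {m : Measure ℂ} [SFinite m] {ρ : ℂ → ℝ≥0∞} (mρ : Measurable ρ)
    (h : m ≤ volume.withDensity ρ) (s : ℝ) :
    ∫⁻ z, m (Metric.ball z s) ∂m ≤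
      2 * ((ENNReal.ofReal s ^ 2 * NNReal.pi) * ∫⁻ z, ρ z ^ 2) := by
  have hs : MeasurableSet {p : ℂ × ℂ | dist p.2 p.1 < s} :=
    measurableSet_lt (by fun_prop) measurable_const
  let K : ℂ × ℂ → ℝ≥0∞ := {p : ℂ × ℂ | dist p.2 p.1 < s}.indicator 1
  have mK : Measurable K := measurable_one.indicator hs
  have hK : ∀ z w, K (z, w) = (Metric.ball z s).indicator 1 w := fun z w => rfl
  have hK' : ∀ z w, K (z, w) = (Metric.ball w s).indicator 1 z := by
    intro z w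
    by_cases hzw : dist w z < s
    · rw [hK, indicator_of_mem (show w ∈ Metric.ball z s from hzw),
        indicator_of_mem (show z ∈ Metric.ball w s from by rwa [Metric.mem_ball, dist_comm])]
      rfl
    · rw [hK, indicator_of_notMem (show w ∉ Metric.ball z s from hzw),
        indicator_of_notMem (show z ∉ Metric.ball w s from by rwa [Metric.mem_ball, dist_comm])]
  have mf : Measurable fun z => ∫⁻ w, K (z, w) * ρ w :=
    (mK.mul (mρ.comp measurable_snd)).lintegral_prod_right'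
  have h1 : ∀ z, m (Metric.ball z s) ≤ ∫⁻ w, K (z, w) * ρ w := by
    intro z
    refine (Measure.le_iff'.1 h _).trans (le_of_eq ?_)
    rw [withDensity_apply _ Metric.isOpen_ball.measurableSet,
      ← lintegral_indicator Metric.isOpen_ball.measurableSet]
    refine lintegral_congr fun w => ?_
    rw [hK]
    by_cases hw : w ∈ Metric.ball z s
    · simp only [indicator_of_mem hw, Pi.one_apply, one_mul]
    · simp only [indicator_of_notMem hw, zero_mul]
  have a1 : ∫⁻ z, ∫⁻ w, K (z, w) * ρ z ^ 2 =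
      (ENNReal.ofReal s ^ 2 * NNReal.pi) * ∫⁻ z, ρ z ^ 2 := by
    rw [← lintegral_const_mul _ (mρ.pow_const 2)]
    refine lintegral_congr fun z => ?_
    have mz : Measurable fun w => K (z, w) := mK.comp measurable_prodMk_left
    rw [lintegral_mul_const _ mz]
    simp only [hK]
    rw [lintegral_indicator_one Metric.isOpen_ball.measurableSet, Complex.volume_ball]
  have a2 : ∫⁻ z, ∫⁻ w, K (z, w) * ρ w ^ 2 =
      (ENNReal.ofReal s ^ 2 * NNReal.pi) * ∫⁻ z, ρ z ^ 2 := by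
    rw [lintegral_lintegral_swap (mK.mul ((mρ.comp measurable_snd).pow_const 2)).aemeasurable,
      ← lintegral_const_mul _ (mρ.pow_const 2)]
    refine lintegral_congr fun w => ?_
    have mz : Measurable fun z => K (z, w) := mK.comp measurable_prodMk_right
    rw [lintegral_mul_const _ mz]
    simp only [hK']
    rw [lintegral_indicator_one Metric.isOpen_ball.measurableSet, Complex.volume_ball]
  calc ∫⁻ z, m (Metric.ball z s) ∂m ≤ ∫⁻ z, (∫⁻ w, K (z, w) * ρ w) ∂(volume.withDensity ρ) :=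
        lintegral_mono' h h1
    _ = ∫⁻ z, ρ z * ∫⁻ w, K (z, w) * ρ w := lintegral_withDensity_eq_lintegral_mul _ mρ mf
    _ ≤ ∫⁻ z, ((∫⁻ w, K (z, w) * ρ z ^ 2) + ∫⁻ w, K (z, w) * ρ w ^ 2) := by
        refine lintegral_mono fun z => ?_
        have mz : Measurable fun w => K (z, w) := mK.comp measurable_prodMk_left
        have mz' : Measurable fun w => K (z, w) * ρ w := mz.mul mρ
        rw [← lintegral_const_mul _ mz', ← lintegral_add_left (mz.mul_const _)]
        refine lintegral_mono fun w => ?_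
        calc ρ z * (K (z, w) * ρ w) = K (z, w) * (ρ z * ρ w) := by ring
          _ ≤ K (z, w) * (ρ z ^ 2 + ρ w ^ 2) := by gcongr; exact r1_xy _ _
          _ = _ := mul_add _ _ _
    _ = _ := by
        have m3 : Measurable fun z => ∫⁻ w, K (z, w) * ρ z ^ 2 :=
          (mK.mul ((mρ.comp measurable_fst).pow_const 2)).lintegral_prod_right'
        rw [lintegral_add_left m3, a1, a2, two_mul]

/-- the length of the set of times where two geodesics are close -/
noncomputable def r1T (p q r : ℝ) (P : (ℝ × ℝ) × (ℝ × ℝ)) : ℝ≥0∞ :=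
  volume.restrict (Icc p q) {x | |piX x P.2 - piX x P.1| < r}

theorem r1_meas_set (r : ℝ) : MeasurableSet
    {Q : ((ℝ × ℝ) × (ℝ × ℝ)) × ℝ | |piX Q.2 Q.1.2 - piX Q.2 Q.1.1| < r} := by
  refine measurableSet_lt ?_ measurable_const
  unfold piX; fun_prop

theorem r1_meas_T (p q r : ℝ) : Measurable (r1T p q r) :=
  measurable_measure_prodMk_left (ν := volume.restrict (Icc p q)) (r1_meas_set r)

theorem r1_T_le {ν : Measure (ℝ × ℝ)} {R : Set (ℝ × ℝ)} {κ Λ x₀ x₁ C : ℝ}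
    (hG : Geo ν R κ Λ x₀ x₁) (hC0 : 0 < C)
    (hC : ∀ l ∈ R, ∀ l' ∈ R, ∀ x ∈ Ioo x₀ x₁, ∀ x' ∈ Ioo x₀ x₁,
      dist (Pt (l, x)) (Pt (l', x')) ≤ C * (|x - x'| + |piX x l' - piX x l|))
    {p q r : ℝ} (hr : 0 < r) (h0 : x₀ ≤ p - r) (h1 : q + r ≤ x₁) :
    (∫⁻ P, r1T p q r P ∂(ν.prod ν)) * ENNReal.ofReal (2 * r) ≤
      ∫⁻ z, prj ν x₀ x₁ (Metric.ball z (C * (2 * r))) ∂(prj ν x₀ x₁) := by
  have := hG.fin
  have := r1_fin (ν := ν) x₀ x₁
  have mg := r1_meas_ball (prj ν x₀ x₁) (C * (2 * r))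
  have e : ∫⁻ z, prj ν x₀ x₁ (Metric.ball z (C * (2 * r))) ∂(prj ν x₀ x₁) =
      ∫⁻ l, ∫⁻ x in Ioo x₀ x₁, prj ν x₀ x₁ (Metric.ball (Pt (l, x)) (C * (2 * r))) ∂volume ∂ν := by
    exact (lintegral_map mg measurable_Pt).trans
      (lintegral_prod _ (mg.comp measurable_Pt).aemeasurable)
  rw [e, lintegral_prod _ (r1_meas_T p q r).aemeasurable,
    ← lintegral_mul_const _ (r1_meas_T p q r).lintegral_prod_right']
  refine lintegral_mono_ae ?_
  have hR : ∀ᵐ l ∂ν, l ∈ R := hG.conc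
  filter_upwards [hR] with l hl
  have hs : MeasurableSet {Q : (ℝ × ℝ) × ℝ | |piX Q.2 Q.1 - piX Q.2 l| < r} := by
    refine measurableSet_lt ?_ measurable_const
    unfold piX; fun_prop
  have e2 : ∫⁻ l', r1T p q r (l, l') ∂ν =
      ∫⁻ x in Icc p q, ν {l' | |piX x l' - piX x l| < r} :=
    (Measure.prod_apply hs).symm.trans (Measure.prod_apply_symm hs)
  have m4 : Measurable fun x => ν {l' | |piX x l' - piX x l| < r} :=
    measurable_measure_prodMk_right (μ := ν) hs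
  rw [e2, ← lintegral_mul_const _ m4]
  have hsub : Icc p q ⊆ Ioo x₀ x₁ := fun x hx => ⟨by linarith [hx.1], by linarith [hx.2]⟩
  refine le_trans ?_ (lintegral_mono_set hsub)
  refine setLIntegral_mono' measurableSet_Icc fun x hx => ?_
  exact r1_strip hG hC0 hC hl hr (by linarith [hx.1]) (by linarith [hx.2])

theorem r1_cr_le {a b m : ℝ} (hab : a < b) (hm : 0 < m) (P : (ℝ × ℝ) × (ℝ × ℝ)) :
    cr a b P.1 P.2 ≤ liminf (fun n : ℕ => ENNReal.ofReal (n + 1) *
      r1T (a - m) (b + m) (1 / (n + 1)) P) atTop := by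
  unfold cr
  split_ifs with h
  swap
  · exact zero_le
  set q := P.2.1 + P.2.2 - (P.1.1 + P.1.2) with hq
  by_cases hq0 : q = 0
  · rw [hq0]; simp
  have hq1 : 0 < |q| := abs_pos.2 hq0
  set c := (P.2.1 * P.2.2 - P.1.1 * P.1.2) / q with hc
  have hD : ∀ x, piX x P.2 - piX x P.1 = q * (x - c) := by
    intro x
    rw [hc, mul_sub, mul_div_cancel₀ _ hq0, hq]; unfold piX; ring
  rw [hD, hD] at h
  have h2 : (a - c) * (b - c) ≤ 0 := by
    have : q ^ 2 * ((a - c) * (b - c)) ≤ 0 := by linarith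
    by_contra h3
    push Not at h3
    exact absurd this (not_le.2 (mul_pos (by positivity) h3))
  have hac : a ≤ c := by
    by_contra h3
    push Not at h3
    nlinarith
  have hcb : c ≤ b := by
    by_contra h3
    push Not at h3
    nlinarith
  refine le_liminf_of_le (by isBoundedDefault) ?_
  have ev : ∀ᶠ n : ℕ in atTop, 1 / ((n : ℝ) + 1) < m * |q| :=
    tendsto_one_div_add_atTop_nhds_zero_nat.eventually (gt_mem_nhds (mul_pos hm hq1))
  filter_upwards [ev] with n hn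
  have hn0 : (0 : ℝ) < n + 1 := by positivity
  set r := 1 / ((n : ℝ) + 1) with hr
  have hr0 : 0 < r := by positivity
  have ht : r / |q| < m := by rwa [div_lt_iff₀ hq1]
  have hsub : Ioo (c - r / |q|) (c + r / |q|) ⊆ Icc (a - m) (b + m) :=
    fun x hx => ⟨by linarith [hx.1], by linarith [hx.2]⟩
  have hle : ENNReal.ofReal (r / |q|) ≤ r1T (a - m) (b + m) r P := by
    have t0 : 0 < r / |q| := by positivity
    calc ENNReal.ofReal (r / |q|) ≤ ENNReal.ofReal (c + r / |q| - (c - r / |q|)) :=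
          ENNReal.ofReal_le_ofReal (by linarith)
      _ = volume.restrict (Icc (a - m) (b + m)) (Ioo (c - r / |q|) (c + r / |q|)) := by
          rw [Measure.restrict_eq_self _ hsub, Real.volume_Ioo]
      _ ≤ _ := by
          refine measure_mono fun x hx => ?_
          change |piX x P.2 - piX x P.1| < r
          have : |x - c| < r / |q| := abs_lt.2 ⟨by linarith [hx.1], by linarith [hx.2]⟩
          rw [hD, abs_mul]
          rwa [lt_div_iff₀ hq1, mul_comm] at this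
  refine le_trans (le_of_eq ?_) (mul_le_mul_right hle _)
  rw [← ENNReal.ofReal_mul hn0.le, hr]
  congr 1
  field_simp

theorem energy_fin {ν : Measure (ℝ × ℝ)} {R : Set (ℝ × ℝ)} {κ Λ x₀ x₁ : ℝ}
    (hG : Geo ν R κ Λ x₀ x₁) {ρ : ℂ → ℝ≥0∞} (mρ : Measurable ρ)
    (h₁ : prj ν x₀ x₁ ≤ volume.withDensity ρ) (h₂ : ∫⁻ z, ρ z ^ 2 < ⊤) {a b : ℝ} (ha : x₀ < a)
    (hab : a < b) (hb : b < x₁) : ∀ᵐ l ∂ν, ∫⁻ l', cr a b l l' ∂ν < ⊤ := by
  have := hG.fin
  have := r1_fin (ν := ν) x₀ x₁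
  obtain ⟨C, hC1, hC⟩ := geo_lip hG
  have hC0 : 0 < C := by linarith
  have hC' : ∀ l ∈ R, ∀ l' ∈ R, ∀ x ∈ Ioo x₀ x₁, ∀ x' ∈ Ioo x₀ x₁,
      dist (Pt (l, x)) (Pt (l', x')) ≤ C * (|x - x'| + |piX x l' - piX x l|) :=
    fun l hl l' hl' x hx x' hx' => ((hC l hl l' hl' x hx).1 x' hx').1
  set m := min (a - x₀) (x₁ - b) / 2 with hm
  have hm0 : 0 < m := half_pos (lt_min (by linarith) (by linarith))
  have hm1 : 2 * m ≤ a - x₀ := by have := min_le_left (a - x₀) (x₁ - b); linarith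
  have hm2 : 2 * m ≤ x₁ - b := by have := min_le_right (a - x₀) (x₁ - b); linarith
  set N := ∫⁻ z, ρ z ^ 2 with hN
  set M : ℝ≥0∞ := ENNReal.ofReal (4 * C ^ 2) * (NNReal.pi * N) with hM
  have hMt : M ≠ ⊤ := ENNReal.mul_ne_top ENNReal.ofReal_ne_top
    (ENNReal.mul_ne_top ENNReal.coe_ne_top h₂.ne)
  refine ae_lt_top (measurable_cr a b).lintegral_prod_right' (ne_top_of_le_ne_top hMt ?_)
  rw [← lintegral_prod _ (measurable_cr a b).aemeasurable]
  refine (lintegral_mono (r1_cr_le hab hm0)).trans ?_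
  refine (lintegral_liminf_le fun n => (r1_meas_T _ _ _).const_mul _).trans ?_
  refine liminf_le_of_frequently_le' (Eventually.frequently ?_)
  have ev : ∀ᶠ n : ℕ in atTop, 1 / ((n : ℝ) + 1) < m :=
    tendsto_one_div_add_atTop_nhds_zero_nat.eventually (gt_mem_nhds hm0)
  filter_upwards [ev] with n hn
  have hn0 : (0 : ℝ) < n + 1 := by positivity
  set r := 1 / ((n : ℝ) + 1) with hr
  have hr0 : 0 < r := by positivity
  have h3 := (r1_T_le hG hC0 hC' (p := a - m) (q := b + m) hr0 (by linarith) (by linarith)).trans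
    (r1_L2 mρ h₁ _)
  rw [lintegral_const_mul _ (r1_meas_T _ _ _)]
  have e : 2 * (ENNReal.ofReal (C * (2 * r)) ^ 2 * NNReal.pi * N) =
      (ENNReal.ofReal r * M) * ENNReal.ofReal (2 * r) := by
    have e1 : 2 * ENNReal.ofReal (C * (2 * r)) ^ 2 =
        ENNReal.ofReal r * ENNReal.ofReal (4 * C ^ 2) * ENNReal.ofReal (2 * r) := by
      rw [← ENNReal.ofReal_pow (by positivity), ← ENNReal.ofReal_ofNat,
        ← ENNReal.ofReal_mul (by positivity), ← ENNReal.ofReal_mul (by positivity),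
        ← ENNReal.ofReal_mul (by positivity)]
      congr 1; ring
    calc 2 * (ENNReal.ofReal (C * (2 * r)) ^ 2 * NNReal.pi * N)
        = (2 * ENNReal.ofReal (C * (2 * r)) ^ 2) * (NNReal.pi * N) := by ring
      _ = _ := by rw [e1, hM]; ring
  rw [e] at h3
  have h4 := (ENNReal.mul_le_mul_iff_left (ENNReal.ofReal_pos.2 (by positivity)).ne'
    ENNReal.ofReal_ne_top).1 h3
  refine (mul_le_mul_right h4 _).trans (le_of_eq ?_)
  rw [← mul_assoc, ← ENNReal.ofReal_mul hn0.le, hr, mul_one_div_cancel hn0.ne', ENNReal.ofReal_one,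
    one_mul]

theorem upper_dens {ν : Measure (ℝ × ℝ)} {R : Set (ℝ × ℝ)} {κ Λ x₀ x₁ : ℝ}
    (hG : Geo ν R κ Λ x₀ x₁) (h₁ : prj ν x₀ x₁ ≪ volume) : ∀ᵐ l ∂ν, UpD ν l := by
  have := hG.fin
  have := r1_fin (ν := ν) x₀ x₁
  obtain ⟨C, hC1, hC⟩ := geo_lip hG
  have hC0 : 0 < C := by linarith
  have hC' : ∀ l ∈ R, ∀ l' ∈ R, ∀ x ∈ Ioo x₀ x₁, ∀ x' ∈ Ioo x₀ x₁,
      dist (Pt (l, x)) (Pt (l', x')) ≤ C * (|x - x'| + |piX x l' - piX x l|) :=
    fun l hl l' hl' x hx x' hx' => ((hC l hl l' hl' x hx).1 x' hx').1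
  have a1 : ∀ᵐ z ∂(volume : Measure ℂ), ∃ L : ℝ, 0 ≤ L ∧ ∀ᶠ s in 𝓝[>] (0 : ℝ),
      prj ν x₀ x₁ (Metric.closedBall z s) ≤ ENNReal.ofReal (L * s ^ 2) := by
    filter_upwards [Besicovitch.ae_tendsto_rnDeriv (prj ν x₀ x₁) volume,
      Measure.rnDeriv_lt_top (prj ν x₀ x₁) volume] with z hz hz'
    obtain ⟨k, hk⟩ := ENNReal.exists_nat_gt hz'.ne
    refine ⟨k * Real.pi, by positivity, ?_⟩
    filter_upwards [hz.eventually (gt_mem_nhds hk), self_mem_nhdsWithin] with s hs hs0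
    have hs1 : 0 < s := hs0
    have hv : volume (Metric.closedBall z s) = ENNReal.ofReal (s ^ 2 * Real.pi) := by
      rw [Complex.volume_closedBall, ENNReal.ofReal_mul (by positivity),
        ENNReal.ofReal_pow hs1.le, ← NNReal.coe_real_pi, ENNReal.ofReal_coe_nnreal]
    rw [hv, ENNReal.div_lt_iff (Or.inl (ENNReal.ofReal_pos.2 (by positivity)).ne')
      (Or.inl ENNReal.ofReal_ne_top)] at hs
    refine hs.le.trans (le_of_eq ?_)
    rw [← ENNReal.ofReal_natCast, ← ENNReal.ofReal_mul (by positivity)]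
    congr 1; ring
  have a2 := Measure.ae_ae_of_ae_prod (ae_of_ae_map measurable_Pt.aemeasurable (h₁.ae_le a1))
  have hR : ∀ᵐ l ∂ν, l ∈ R := hG.conc
  have hne : NeBot (ae (volume.restrict (Ioo x₀ x₁))) := by
    rw [ae_neBot, Ne, Measure.restrict_eq_zero, Real.volume_Ioo, ENNReal.ofReal_eq_zero, not_le]
    linarith [hG.lt]
  filter_upwards [a2, hR] with l hl hlR
  obtain ⟨x, ⟨L, hL0, hL⟩, hx⟩ := (hl.and (ae_restrict_mem measurableSet_Ioo)).exists
  refine ⟨L * (4 * C ^ 3), ?_⟩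
  have t1 : Tendsto (fun r : ℝ => C * (2 * (2 * C * r))) (𝓝[>] 0) (𝓝[>] 0) := by
    refine tendsto_nhdsWithin_iff.2 ⟨?_, ?_⟩
    · have : Tendsto (fun r : ℝ => C * (2 * (2 * C * r))) (𝓝 0) (𝓝 (C * (2 * (2 * C * 0)))) :=
        (by fun_prop : Continuous fun r : ℝ => C * (2 * (2 * C * r))).tendsto 0
      simp only [mul_zero] at this
      exact this.mono_left nhdsWithin_le_nhds
    · filter_upwards [self_mem_nhdsWithin] with r hr
      have : 0 < r := hr
      exact mem_Ioi.2 (by positivity)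
  have t2 : Tendsto (fun r : ℝ => 2 * C * r) (𝓝[>] 0) (𝓝 0) := by
    have : Tendsto (fun r : ℝ => 2 * C * r) (𝓝 0) (𝓝 (2 * C * 0)) :=
      (by fun_prop : Continuous fun r : ℝ => 2 * C * r).tendsto 0
    simp only [mul_zero] at this
    exact this.mono_left nhdsWithin_le_nhds
  filter_upwards [t1.eventually hL, t2.eventually (gt_mem_nhds (sub_pos.2 hx.1)),
    t2.eventually (gt_mem_nhds (sub_pos.2 hx.2)), self_mem_nhdsWithin] with r h1 h2 h3 hr
  have hr0 : 0 < r := hr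
  have hr' : 0 < 2 * C * r := by positivity
  have h4 := (r1_strip hG hC0 hC' hlR hr' (x := x) (by linarith) (by linarith)).trans
    ((measure_mono Metric.ball_subset_closedBall).trans h1)
  have e : ENNReal.ofReal (L * (C * (2 * (2 * C * r))) ^ 2) =
      ENNReal.ofReal (L * (4 * C ^ 3) * r) * ENNReal.ofReal (2 * (2 * C * r)) := by
    rw [← ENNReal.ofReal_mul (by positivity)]
    congr 1; ring
  rw [e] at h4
  have h5 := (ENNReal.mul_le_mul_iff_left (ENNReal.ofReal_pos.2 (by positivity)).ne'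
    ENNReal.ofReal_ne_top).1 h4
  refine le_trans ?_ h5
  rw [← measure_inter_conull hG.conc]
  refine measure_mono ?_
  rintro l' ⟨h6, h7⟩
  have h8 := (hC l hlR l' h7 x hx).2.2
  have h9 : dist l' l ≤ r := h6
  change |piX x l' - piX x l| < 2 * C * r
  have : C * dist l' l ≤ C * r := by gcongr
  nlinarith

end Pool.Agent.MP_a28cf0_nt.Four

namespace Pool.Agent.MP_a28cf0_nt.Four

open MeasureTheory Complex Filter Topology Set Pool.Agent.MP_a28cf0_nt.Cub
open scoped ENNReal MatrixGroups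

/-- geodesics with slope close to the one of `l` that pass near the point of `l` over `x` -/
def r2T (l : ℝ × ℝ) (η s x : ℝ) : Set (ℝ × ℝ) :=
  {l' | |l'.1 + l'.2 - (l.1 + l.2)| < η ∧ |piX x l' - piX x l| ≤ s}

/-- the tail of the crossing energy -/
noncomputable def r2e (ν : Measure (ℝ × ℝ)) (a b : ℝ) (l : ℝ × ℝ) (η : ℝ) : ℝ≥0∞ :=
  ∫⁻ l', {l' : ℝ × ℝ | |l'.1 + l'.2 - (l.1 + l.2)| < η}.indicator (cr a b l) l' ∂ν

theorem r2_meas (l : ℝ × ℝ) (η s : ℝ) :
    MeasurableSet {P : ℝ × (ℝ × ℝ) | P.2 ∈ r2T l η s P.1} := by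
  have h1 : Measurable fun P : ℝ × (ℝ × ℝ) => |P.2.1 + P.2.2 - (l.1 + l.2)| := by fun_prop
  have h2 : Measurable fun P : ℝ × (ℝ × ℝ) => |piX P.1 P.2 - piX P.1 l| := by
    unfold piX
    fun_prop
  exact (measurableSet_lt h1 measurable_const).inter (measurableSet_le h2 measurable_const)

theorem r2_measT (l : ℝ × ℝ) (η s x : ℝ) : MeasurableSet (r2T l η s x) :=
  measurable_prodMk_left (x := x) (r2_meas l η s)

theorem r2_measS (l : ℝ × ℝ) (η : ℝ) :
    MeasurableSet {l' : ℝ × ℝ | |l'.1 + l'.2 - (l.1 + l.2)| < η} :=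
  measurableSet_lt (by fun_prop) measurable_const

theorem r2_meas_cr (a b : ℝ) (l : ℝ × ℝ) : Measurable (cr a b l) :=
  (measurable_cr a b).comp (measurable_prodMk_left (x := l))

theorem r2_tail {ν : Measure (ℝ × ℝ)} {a b : ℝ} {l : ℝ × ℝ} (h : ∫⁻ l', cr a b l l' ∂ν < ⊤) :
    Tendsto (fun j : ℕ => r2e ν a b l (1 / ((j : ℝ) + 1))) atTop (𝓝 0) := by
  have h0 : (0 : ℝ≥0∞) = ∫⁻ _ : ℝ × ℝ, 0 ∂ν := by simp
  rw [h0]
  refine tendsto_lintegral_of_dominated_convergence (cr a b l)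
    (fun j => (r2_meas_cr a b l).indicator (r2_measS l _))
    (fun j => .of_forall fun l' => indicator_le_self _ _ _) h.ne (.of_forall fun l' => ?_)
  by_cases h1 : l'.1 + l'.2 - (l.1 + l.2) = 0
  · have h2 : cr a b l l' = 0 := by simp [cr, h1]
    refine tendsto_const_nhds.congr fun j => ?_
    exact (indicator_apply_eq_zero.2 fun _ => h2).symm
  · refine tendsto_const_nhds.congr' ?_
    filter_upwards [tendsto_one_div_add_atTop_nhds_zero_nat.eventually
      (gt_mem_nhds (abs_pos.2 h1))] with j hj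
    rw [indicator_of_notMem]
    exact fun h => lt_asymm hj h

theorem r2_aff (x y : ℝ) (l l' : ℝ × ℝ) : piX y l' - piX y l =
    piX x l' - piX x l + (y - x) * (l'.1 + l'.2 - (l.1 + l.2)) := by
  simp only [piX]; ring

theorem r2_vol {l l' : ℝ × ℝ} (h : l'.1 + l'.2 - (l.1 + l.2) ≠ 0) (s : ℝ) :
    volume {x : ℝ | |piX x l' - piX x l| ≤ s} ≤
      ENNReal.ofReal (2 * s) * ENNReal.ofReal (1 / |l'.1 + l'.2 - (l.1 + l.2)|) := by
  set q := l'.1 + l'.2 - (l.1 + l.2) with hq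
  have hq0 : 0 < |q| := abs_pos.2 h
  have h1 : {x : ℝ | |piX x l' - piX x l| ≤ s} ⊆
      Metric.closedBall (-(piX 0 l' - piX 0 l) / q) (s / |q|) := fun x hx => by
    rw [mem_ofPred_eq, r2_aff 0 x, ← hq] at hx
    rw [Metric.mem_closedBall, Real.dist_eq, le_div_iff₀ hq0, ← abs_mul]
    refine le_of_eq_of_le (congrArg _ ?_) hx
    field_simp
    ring
  refine (measure_mono h1).trans ?_
  rw [Real.volume_closedBall, mul_comm (ENNReal.ofReal _), ← ENNReal.ofReal_mul (by positivity)]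
  refine le_of_eq (congrArg _ ?_)
  ring

theorem r2_cross {a b m s x : ℝ} {l l' : ℝ × ℝ} (hx : x ∈ Ioo (a + m) (b - m)) (hm : 0 < m)
    (h1 : |piX x l' - piX x l| ≤ s) (h2 : s / m < |l'.1 + l'.2 - (l.1 + l.2)|) :
    cr a b l l' = ENNReal.ofReal (1 / |l'.1 + l'.2 - (l.1 + l.2)|) := by
  rw [cr, if_pos]
  rw [r2_aff x a, r2_aff x b]
  rw [div_lt_iff₀ hm] at h2
  obtain ⟨h3, h4⟩ := abs_le.1 h1
  obtain ⟨h5, h6⟩ := hx
  rcases le_total 0 (l'.1 + l'.2 - (l.1 + l.2)) with h | h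
  · rw [abs_of_nonneg h] at h2
    exact mul_nonpos_of_nonpos_of_nonneg (by nlinarith) (by nlinarith)
  · rw [abs_of_nonpos h] at h2
    exact mul_nonpos_of_nonneg_of_nonpos (by nlinarith) (by nlinarith)

theorem r2_markov {ν : Measure (ℝ × ℝ)} [IsFiniteMeasure ν] {R : Set (ℝ × ℝ)} (hR : ν Rᶜ = 0)
    {a b m C : ℝ} (hm : 0 < m) (hC : 0 ≤ C) {l : ℝ × ℝ}
    (hl : ∀ l' ∈ R, ∀ x ∈ Ioo (a + m) (b - m),
      dist l' l ≤ C * (|piX x l' - piX x l| + |l'.1 + l'.2 - (l.1 + l.2)|))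
    (η : ℝ) {s : ℝ} (hs : 0 < s) (c : ℝ≥0∞) :
    c * volume ({x | c ≤ ν (r2T l η s x)} ∩ Ioo (a + m) (b - m)) ≤
      volume (Ioo (a + m) (b - m)) * ν (Metric.closedBall l (C * (s + s / m))) +
        ENNReal.ofReal (2 * s) * r2e ν a b l η := by
  have m1 := r2_meas l η s
  have m2 : Measurable fun x => ν (r2T l η s x) := measurable_measure_prodMk_left m1
  rw [← Measure.restrict_apply (measurableSet_le measurable_const m2)]
  refine (mul_meas_ge_le_lintegral m2 c).trans ?_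
  have e1 : ∫⁻ x in Ioo (a + m) (b - m), ν (r2T l η s x) =
      ∫⁻ l', volume.restrict (Ioo (a + m) (b - m)) {x | l' ∈ r2T l η s x} ∂ν :=
    (Measure.prod_apply m1).symm.trans (Measure.prod_apply_symm m1)
  rw [e1, r2e, ← lintegral_const_mul _ ((r2_meas_cr a b l).indicator (r2_measS l _)),
    ← lintegral_indicator_const Metric.isClosed_closedBall.measurableSet,
    ← lintegral_add_left (measurable_const.indicator Metric.isClosed_closedBall.measurableSet)]
  refine lintegral_mono_ae ?_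
  filter_upwards [show ∀ᵐ l' ∂ν, l' ∈ R from hR] with l' hl'
  by_cases h1 : l' ∈ Metric.closedBall l (C * (s + s / m))
  · rw [indicator_of_mem h1]
    rw [Measure.restrict_apply' measurableSet_Ioo]
    exact (measure_mono inter_subset_right).trans le_self_add
  rw [Measure.restrict_apply' measurableSet_Ioo]
  rcases ({x | l' ∈ r2T l η s x} ∩ Ioo (a + m) (b - m)).eq_empty_or_nonempty with h | ⟨x, h2, hx⟩
  · rw [h, measure_empty]
    exact bot_le
  have h3 : s / m < |l'.1 + l'.2 - (l.1 + l.2)| := by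
    by_contra h3
    exact h1 ((hl l' hl' x hx).trans
      (mul_le_mul_of_nonneg_left (add_le_add h2.2 (not_lt.1 h3)) hC))
  rw [indicator_of_mem (show l' ∈ {l' : ℝ × ℝ | |l'.1 + l'.2 - (l.1 + l.2)| < η} from h2.1),
    r2_cross hx hm h2.2 h3]
  refine le_trans ?_ le_add_self
  refine le_trans (measure_mono fun y hy => hy.1.2) (r2_vol (abs_pos.1 ?_) s)
  exact (div_pos hs hm).trans h3

/-- the set of times at which the nearly parallel geodesics have positive density -/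
def r2Y (ν : Measure (ℝ × ℝ)) (l : ℝ × ℝ) (C δ : ℝ) : Set ℝ :=
  {x | ∀ η : ℝ, 0 < η → ∀ᶠ r in 𝓝[>] (0 : ℝ), ENNReal.ofReal (δ * r) ≤ ν (r2T l η (C * r) x)}

theorem r2_null {ν : Measure (ℝ × ℝ)} [IsFiniteMeasure ν] {R : Set (ℝ × ℝ)} (hR : ν Rᶜ = 0)
    {a b m C : ℝ} (hm : 0 < m) (hC : 0 < C) {l : ℝ × ℝ}
    (hl : ∀ l' ∈ R, ∀ x ∈ Ioo (a + m) (b - m),
      dist l' l ≤ C * (|piX x l' - piX x l| + |l'.1 + l'.2 - (l.1 + l.2)|))
    (hE : ∫⁻ l', cr a b l l' ∂ν < ⊤) (hL : ¬ LoD ν l) {δ : ℝ} (hδ : 0 < δ) :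
    volume (r2Y ν l C δ ∩ Ioo (a + m) (b - m)) = 0 := by
  set V := volume (Ioo (a + m) (b - m)) with hV
  have hV' : V ≠ ⊤ := measure_Ioo_lt_top.ne
  set K : ℝ := C * (C + C / m) with hK
  have K0 : 0 < K := by positivity
  have key : ∀ c : ℝ, 0 < c → ∀ η : ℝ, 0 < η →
      ENNReal.ofReal δ * volume (r2Y ν l C δ ∩ Ioo (a + m) (b - m)) ≤
        V * ENNReal.ofReal K * ENNReal.ofReal c + ENNReal.ofReal (2 * C) * r2e ν a b l η := by
    intro c hc η hη
    have h1 : ∃ᶠ r in 𝓝[>] (0 : ℝ), ¬ ENNReal.ofReal (c * r) ≤ ν (Metric.closedBall l r) :=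
      fun h => hL ⟨c, hc, h.mono fun r hr => not_not.1 hr⟩
    obtain ⟨u, hu, hu'⟩ := exists_seq_forall_of_frequently (h1.and_eventually self_mem_nhdsWithin)
    have hu0 : ∀ j, 0 < u j / K := fun j => div_pos (hu' j).2 K0
    have hv : Tendsto (fun j => u j / K) atTop (𝓝[>] 0) := by
      refine tendsto_nhdsWithin_iff.2 ⟨?_, .of_forall hu0⟩
      simpa using (tendsto_nhdsWithin_iff.1 hu).1.div_const K
    let X : ℕ → Set ℝ := fun j =>
      {x | ENNReal.ofReal (δ * (u j / K)) ≤ ν (r2T l η (C * (u j / K)) x)} ∩ Ioo (a + m) (b - m)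
    have h2 : r2Y ν l C δ ∩ Ioo (a + m) (b - m) ⊆ ⋃ N, ⋂ j ≥ N, X j := fun x hx => by
      obtain ⟨N, hN⟩ := eventually_atTop.1 (hv.eventually (hx.1 η hη))
      exact mem_iUnion.2 ⟨N, mem_iInter₂.2 fun j hj => ⟨hN j hj, hx.2⟩⟩
    have h3 : Monotone fun N => ⋂ j ≥ N, X j := fun N N' h =>
      biInter_subset_biInter_left fun j hj => le_trans h hj
    refine (mul_le_mul_right (measure_mono h2) _).trans ?_
    rw [h3.measure_iUnion, ENNReal.mul_iSup]
    refine iSup_le fun N => ?_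
    refine (mul_le_mul_right (measure_mono (biInter_subset_of_mem (le_refl N))) _).trans ?_
    have h4 := r2_markov hR hm hC.le hl η (mul_pos hC (hu0 N)) (ENNReal.ofReal (δ * (u N / K)))
    have e1 : C * (C * (u N / K) + C * (u N / K) / m) = u N := by
      have : C * (C * (u N / K) + C * (u N / K) / m) = K * (u N / K) := by rw [hK]; ring
      rw [this, mul_div_cancel₀ _ K0.ne']
    rw [e1] at h4
    have h5 : ENNReal.ofReal (δ * (u N / K)) * volume (X N) ≤ _ :=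
      h4.trans (add_le_add_left (mul_le_mul_right (not_le.1 (hu' N).1).le V) _)
    have p0 : ENNReal.ofReal (u N / K) ≠ 0 := by simpa using hu0 N
    rw [← ENNReal.mul_le_mul_iff_right p0 ENNReal.ofReal_ne_top]
    have e2 : c * u N = u N / K * (K * c) := by field_simp
    have e3 : 2 * (C * (u N / K)) = u N / K * (2 * C) := by ring
    rw [e2, e3, mul_comm δ, ENNReal.ofReal_mul (hu0 N).le, ENNReal.ofReal_mul (hu0 N).le,
      ENNReal.ofReal_mul (hu0 N).le, ENNReal.ofReal_mul K0.le] at h5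
    refine le_of_eq_of_le (mul_assoc _ _ _).symm (h5.trans (le_of_eq ?_))
    ring
  have t1 : Tendsto (fun j : ℕ => ENNReal.ofReal (1 / ((j : ℝ) + 1))) atTop (𝓝 0) := by
    simpa using ENNReal.tendsto_ofReal (tendsto_one_div_add_atTop_nhds_zero_nat (𝕜 := ℝ))
  have t2 := (ENNReal.Tendsto.const_mul (a := V * ENNReal.ofReal K) t1
    (Or.inr (ENNReal.mul_ne_top hV' ENNReal.ofReal_ne_top))).add
    (ENNReal.Tendsto.const_mul (a := ENNReal.ofReal (2 * C)) (r2_tail hE)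
      (Or.inr ENNReal.ofReal_ne_top))
  have t3 := ge_of_tendsto' t2 fun j => key _ Nat.one_div_pos_of_nat _ Nat.one_div_pos_of_nat
  simp only [mul_zero, add_zero, nonpos_iff_eq_zero, mul_eq_zero, ENNReal.ofReal_eq_zero] at t3
  exact t3.resolve_left (not_le.2 hδ)

theorem r2_measSlope (n : ℕ) (i : ℤ) : MeasurableSet (slope n i) :=
  (Int.measurable_floor.comp (by fun_prop : Measurable fun l : ℝ × ℝ => 2 ^ n * (l.1 + l.2)))
    (measurableSet_singleton i)

theorem r2_ball {ν : Measure (ℝ × ℝ)} [IsFiniteMeasure ν] {R A : Set (ℝ × ℝ)} (hR : ν Rᶜ = 0)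
    {x₀ x₁ C x η : ℝ} {l : ℝ × ℝ} (hC : 0 ≤ C) (mA : MeasurableSet A)
    (hA : ∀ l' ∈ A, |l'.1 + l'.2 - (l.1 + l.2)| < η)
    (hl : ∀ l' ∈ R, ∀ x' ∈ Ioo x₀ x₁,
      |x - x'| + |piX x l' - piX x l| ≤ C * dist (Pt (l, x)) (Pt (l', x'))) (r : ℝ) :
    prj (ν.restrict A) x₀ x₁ (Metric.closedBall (Pt (l, x)) r) ≤
      ν (r2T l η (C * r) x) * ENNReal.ofReal (2 * (C * r)) := by
  rw [prj, Measure.map_apply measurable_Pt Metric.isClosed_closedBall.measurableSet]
  have a1 : ∀ᵐ P ∂(ν.restrict A).prod (volume.restrict (Ioo x₀ x₁)), P.1 ∈ R ∧ P.1 ∈ A :=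
    Measure.quasiMeasurePreserving_fst.ae
      ((ae_restrict_of_ae (show ∀ᵐ l' ∂ν, l' ∈ R from hR)).and (ae_restrict_mem mA))
  have a2 : ∀ᵐ P ∂(ν.restrict A).prod (volume.restrict (Ioo x₀ x₁)), P.2 ∈ Ioo x₀ x₁ :=
    Measure.quasiMeasurePreserving_snd.ae (ae_restrict_mem measurableSet_Ioo)
  refine le_trans (measure_mono_ae (t := r2T l η (C * r) x ×ˢ Metric.closedBall x (C * r)) ?_) ?_
  · filter_upwards [a1, a2] with P h1 h2 h3
    have h4 := (hl P.1 h1.1 P.2 h2).trans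
      (mul_le_mul_of_nonneg_left (Metric.mem_closedBall'.1 h3) hC)
    refine ⟨⟨hA _ h1.2, by linarith [abs_nonneg (x - P.2)]⟩, ?_⟩
    rw [Metric.mem_closedBall', Real.dist_eq]
    linarith [abs_nonneg (piX x P.1 - piX x l)]
  · rw [Measure.prod_prod, ← Real.volume_closedBall x]
    exact mul_le_mul' (Measure.restrict_apply_le _ _) (Measure.restrict_apply_le _ _)

theorem r2_div {v : ℝ≥0∞} (hv : v ≠ ⊤) {δ r C : ℝ} (hδ : 0 ≤ δ) (hr : 0 < r) (hC : 0 < C)
    (h : ENNReal.ofReal δ * (ENNReal.ofReal r ^ 2 * NNReal.pi) ≤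
      v * ENNReal.ofReal (2 * (C * r))) : ENNReal.ofReal (δ / C * r) ≤ v := by
  lift v to NNReal using hv
  rw [← ENNReal.ofReal_coe_nnreal, ← ENNReal.ofReal_coe_nnreal, ← ENNReal.ofReal_pow hr.le,
    ← ENNReal.ofReal_mul (by positivity), ← ENNReal.ofReal_mul hδ,
    ← ENNReal.ofReal_mul v.coe_nonneg, ENNReal.ofReal_le_ofReal_iff (by positivity),
    NNReal.coe_real_pi] at h
  rw [← ENNReal.ofReal_coe_nnreal]
  refine ENNReal.ofReal_le_ofReal ?_
  rw [div_mul_eq_mul_div, div_le_iff₀ hC]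
  have h1 : δ * (r ^ 2 * 2) ≤ δ * (r ^ 2 * Real.pi) :=
    mul_le_mul_of_nonneg_left (mul_le_mul_of_nonneg_left Real.two_le_pi (by positivity)) hδ
  refine le_of_mul_le_mul_right ?_ (show 0 < 2 * r by positivity)
  nlinarith

/-- without lower density the energies of the slope classes tend to zero -/
theorem thin_of_no_lod {ν : Measure (ℝ × ℝ)} {R : Set (ℝ × ℝ)} {κ Λ x₀ x₁ : ℝ}
    (hG : Geo ν R κ Λ x₀ x₁) {ρ : ℂ → ℝ≥0∞} (mρ : Measurable ρ)
    (h₁ : prj ν x₀ x₁ ≤ volume.withDensity ρ) (h₂ : ∫⁻ z, ρ z ^ 2 < ⊤)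
    (h : ∀ᵐ l ∂ν, ¬ LoD ν l) {ε : ℝ≥0∞} (hε : ε ≠ 0) :
    ∃ (n : ℕ) (σ : ℤ → ℂ → ℝ≥0∞), (∀ i, Measurable (σ i)) ∧
      (∀ i, prj (ν.restrict (slope n i)) x₀ x₁ ≤ volume.withDensity (σ i)) ∧
      ∑' i, ∫⁻ z, σ i z ^ 2 ≤ ε := by
  have := hG.fin
  have : IsFiniteMeasure (volume.restrict (Ioo x₀ x₁)) :=
    isFiniteMeasure_restrict.2 measure_Ioo_lt_top.ne
  have : ∀ n i, IsFiniteMeasure (prj (ν.restrict (slope n i)) x₀ x₁) := fun n i => by
    unfold prj
    infer_instance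
  obtain ⟨C, hC1, hC⟩ := geo_lip hG
  have C0 : 0 < C := one_pos.trans_le hC1
  set m := ν.prod (volume.restrict (Ioo x₀ x₁)) with hm
  have hac : prj ν x₀ x₁ ≪ volume :=
    (Measure.absolutelyContinuous_of_le h₁).trans (withDensity_absolutelyContinuous _ _)
  have hle : ∀ n i, prj (ν.restrict (slope n i)) x₀ x₁ ≤ volume.withDensity ρ := fun n i =>
    (Measure.map_mono (Measure.prod_mono Measure.restrict_le_self le_rfl) measurable_Pt).trans h₁
  obtain ⟨σ, hσ⟩ : ∃ σ : ℕ → ℤ → ℂ → ℝ≥0∞,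
    σ = fun n i => (prj (ν.restrict (slope n i)) x₀ x₁).rnDeriv volume := ⟨_, rfl⟩
  have mσ : ∀ n i, Measurable (σ n i) := fun n i => hσ ▸ Measure.measurable_rnDeriv _ _
  have eσ : ∀ n i, volume.withDensity (σ n i) = prj (ν.restrict (slope n i)) x₀ x₁ :=
    fun n i => hσ ▸ Measure.withDensity_rnDeriv_eq _ _
      ((Measure.absolutelyContinuous_of_le (hle n i)).trans (withDensity_absolutelyContinuous _ _))
  have lσ : ∀ n i, σ n i ≤ᵐ[volume] ρ := fun n i =>
    ae_le_of_forall_setLIntegral_le_of_sigmaFinite (mσ n i) fun s hs _ => by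
      rw [← withDensity_apply _ hs, ← withDensity_apply _ hs, eσ]
      exact hle n i s
  have pull : ∀ p : ℂ → Prop, (∀ᵐ z, p z) → ∀ᵐ P ∂m, p (Pt P) := fun p hp =>
    ae_of_ae_map measurable_Pt.aemeasurable (hac.ae_le hp)
  obtain ⟨a, ha⟩ : ∃ a : ℕ → (ℝ × ℝ) × ℝ → ℝ≥0∞,
    a = fun n P => ∑' i, (slope n i ×ˢ univ).indicator (fun P => σ n i (Pt P)) P := ⟨_, rfl⟩
  have mi : ∀ n i, Measurable ((slope n i ×ˢ univ).indicator fun P => σ n i (Pt P)) :=
    fun n i => ((mσ n i).comp measurable_Pt).indicator ((r2_measSlope n i).prod .univ)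
  have ma : ∀ n, Measurable (a n) := fun n => ha ▸ Measurable.tsum (mi n)
  have ea : ∀ n P, a n P = σ n ⌊2 ^ n * (P.1.1 + P.1.2)⌋ (Pt P) := fun n P => by
    rw [ha]
    refine (tsum_eq_single ⌊2 ^ n * (P.1.1 + P.1.2)⌋ fun i hi => ?_).trans ?_
    · exact indicator_of_notMem (fun h => hi h.1.symm) _
    · exact indicator_of_mem (show P ∈ slope n _ ×ˢ univ from ⟨rfl, trivial⟩) _
  have ia : ∀ n, ∑' i, ∫⁻ z, σ n i z ^ 2 = ∫⁻ P, a n P ∂m := fun n => by
    rw [ha, lintegral_tsum fun i => (mi n i).aemeasurable]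
    refine tsum_congr fun i => ?_
    rw [lintegral_indicator ((r2_measSlope n i).prod .univ), hm, ← Measure.prod_restrict,
      Measure.restrict_univ, ← lintegral_map (mσ n i) measurable_Pt, ← prj, ← eσ,
      lintegral_withDensity_eq_lintegral_mul _ (mσ n i) (mσ n i)]
    simp only [sq, Pi.mul_apply]
  have hlim : ∀ᵐ P ∂m, Tendsto (fun n => a n P) atTop (𝓝 0) := by
    rw [hm, Measure.ae_prod_iff_ae_ae (measurableSet_tendsto _ ma)]
    have hx := hG.lt
    have g1 := Measure.ae_ae_of_ae_prod (pull _ (ae_all_iff.2 fun n => ae_all_iff.2 fun i =>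
      Besicovitch.ae_tendsto_rnDeriv (prj (ν.restrict (slope n i)) x₀ x₁) volume))
    let w : ℕ → ℝ := fun k => (x₁ - x₀) / 3 * (1 / ((k : ℝ) + 1))
    have w0 : ∀ k, 0 < w k := fun k => mul_pos (by linarith) Nat.one_div_pos_of_nat
    have w1 : ∀ k, w k ≤ (x₁ - x₀) / 3 := fun k => mul_le_of_le_one_right (by linarith)
      (div_le_one_of_le₀ (by linarith [Nat.cast_nonneg (α := ℝ) k]) (by positivity))
    have w2 : Tendsto w atTop (𝓝 0) := by
      simpa only [mul_zero] using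
        (tendsto_one_div_add_atTop_nhds_zero_nat (𝕜 := ℝ)).const_mul ((x₁ - x₀) / 3)
    have g2 := ae_all_iff.2 fun k => energy_fin hG mρ h₁ h₂ (a := x₀ + w k) (b := x₁ - w k)
      (by linarith [w0 k]) (by linarith [w1 k]) (by linarith [w0 k])
    filter_upwards [g1, g2, h, show ∀ᵐ l ∂ν, l ∈ R from hG.conc] with l l1 l2 l3 l4
    have g3 : ∀ᵐ x, ∀ (k : ℕ) (q : ℚ), 0 < (q : ℝ) →
        x ∉ r2Y ν l C (q / C) ∩ Ioo (x₀ + w k + w k) (x₁ - w k - w k) :=
      ae_all_iff.2 fun k => ae_all_iff.2 fun q => by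
        by_cases hq : 0 < (q : ℝ)
        · refine (measure_eq_zero_iff_ae_notMem.1 (r2_null hG.conc (w0 k) C0
            (fun l' hl' x hx' => (hC l l4 l' hl' x ⟨?_, ?_⟩).2.1) (l2 k) l3
            (div_pos hq C0))).mono fun x hx' _ => hx'
          · linarith [hx'.1, w0 k]
          · linarith [hx'.2, w0 k]
        · exact .of_forall fun x h => absurd h hq
    filter_upwards [l1, ae_restrict_of_ae g3, ae_restrict_mem measurableSet_Ioo] with x x1 x2 x3
    obtain ⟨k, hk⟩ := (w2.eventually (gt_mem_nhds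
      (show 0 < min (x - x₀) (x₁ - x) / 2 by
        have := lt_min (sub_pos.2 x3.1) (sub_pos.2 x3.2)
        positivity))).exists
    rw [ENNReal.tendsto_nhds_zero]
    intro e he
    obtain ⟨q, q0, q1, q2⟩ := ENNReal.lt_iff_exists_rat_btwn.1 he
    have q3 : 0 < (q : ℝ) := by simpa using q1
    by_contra hcon
    refine x2 k q q3 ⟨fun η hη => ?_, by linarith [min_le_left (x - x₀) (x₁ - x)],
      by linarith [min_le_right (x - x₀) (x₁ - x)]⟩
    have t1 : ∀ᶠ n : ℕ in atTop, (1 / 2 : ℝ) ^ n < η :=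
      (tendsto_pow_atTop_nhds_zero_of_lt_one (by norm_num) (by norm_num)).eventually
        (gt_mem_nhds hη)
    obtain ⟨n, n1, n2⟩ := ((not_eventually.1 hcon).and_eventually t1).exists
    have n3 : ENNReal.ofReal q < σ n ⌊2 ^ n * (l.1 + l.2)⌋ (Pt (l, x)) :=
      q2.trans (ea n (l, x) ▸ not_le.1 n1)
    rw [hσ] at n3
    filter_upwards [(x1 n _).eventually (lt_mem_nhds n3), self_mem_nhdsWithin] with r r1 r2
    refine r2_div (measure_ne_top _ _) q3.le r2 C0 ?_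
    rw [← Complex.volume_closedBall (Pt (l, x))]
    refine (ENNReal.mul_le_of_le_div r1.le).trans (r2_ball hG.conc C0.le (r2_measSlope _ _)
      (fun l' hl' => ?_) (fun l' hl' x' hx' => ((hC l l4 l' hl' x x3).1 x' hx').2) r)
    have f1 := Int.abs_sub_lt_one_of_floor_eq_floor hl'
    rw [← mul_sub, abs_mul, abs_of_pos (by positivity), ← lt_div_iff₀' (by positivity)] at f1
    refine f1.trans_le (le_of_eq_of_le ?_ n2.le)
    rw [one_div_pow]
  have hfin : ∫⁻ P, ρ (Pt P) ∂m ≠ ⊤ := by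
    rw [hm, ← lintegral_map mρ measurable_Pt, ← prj]
    refine ((lintegral_mono' h₁ le_rfl).trans_lt ?_).ne
    rw [lintegral_withDensity_eq_lintegral_mul _ mρ mρ]
    simpa only [sq, Pi.mul_apply] using h₂
  have hdom := tendsto_lintegral_of_dominated_convergence (fun P => ρ (Pt P)) ma
    (fun n => (pull _ (ae_all_iff.2 (lσ n))).mono fun P hP => (ea n P).trans_le (hP _)) hfin hlim
  rw [lintegral_zero] at hdom
  obtain ⟨n, hn⟩ := (ENNReal.tendsto_nhds_zero.1 hdom ε (pos_iff_ne_zero.2 hε)).exists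
  exact ⟨n, σ n, mσ n, fun i => (eσ n i).ge, (ia n).trans_le hn⟩

end Pool.Agent.MP_a28cf0_nt.Four

namespace Pool.Agent.MP_a28cf0_nt.Four

open MeasureTheory Complex Filter Topology Set Pool.Agent.MP_a28cf0_nt.Cub
open scoped ENNReal MatrixGroups

theorem r3_seq : Tendsto (fun j : ℕ => ((2 : ℝ) ^ j)⁻¹) atTop (𝓝[>] 0) :=
  tendsto_nhdsWithin_iff.2 ⟨tendsto_inv_atTop_zero.comp
    (tendsto_pow_atTop_atTop_of_one_lt one_lt_two), .of_forall fun j => by
      simp only [mem_Ioi]; positivity⟩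

theorem r3_two (A : ℝ) (j : ℕ) :
    (2 : ℝ≥0∞) ^ j * ENNReal.ofReal (A * ((2 : ℝ) ^ j)⁻¹) = ENNReal.ofReal A := by
  rw [← ENNReal.ofReal_ofNat 2, ← ENNReal.ofReal_pow zero_le_two,
    ← ENNReal.ofReal_mul (by positivity)]
  refine congrArg _ ?_
  field_simp

theorem r3_up {ν : Measure (ℝ × ℝ)} {l : ℝ × ℝ} {α β A : ℝ}
    (h : ∀ᶠ r in 𝓝[>] (0 : ℝ), ν (rect l (α * r) (β * r)) ≤ ENNReal.ofReal (A * r)) :
    Dd ν l α β ≤ ENNReal.ofReal A := by
  refine limsup_le_of_le (h := (r3_seq.eventually h).mono fun j hj => ?_)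
  rw [← r3_two A j, div_eq_mul_inv, div_eq_mul_inv]
  exact mul_le_mul_right hj _

theorem r3_lo {ν : Measure (ℝ × ℝ)} {l : ℝ × ℝ} {α β A : ℝ}
    (h : ∀ᶠ r in 𝓝[>] (0 : ℝ), ENNReal.ofReal (A * r) ≤ ν (rect l (α * r) (β * r))) :
    ENNReal.ofReal A ≤ Dd ν l α β := by
  refine le_limsup_of_frequently_le' ((r3_seq.eventually h).mono fun j hj => ?_).frequently
  rw [← r3_two A j, div_eq_mul_inv, div_eq_mul_inv]
  exact mul_le_mul_right hj _

theorem r3_scale {t : ℝ} (ht : 0 < t) : Tendsto (fun r : ℝ => t * r) (𝓝[>] 0) (𝓝[>] 0) := by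
  refine tendsto_nhdsWithin_iff.2 ⟨?_, eventually_mem_nhdsWithin.mono fun r hr => mul_pos ht hr⟩
  have : Tendsto (fun r : ℝ => t * r) (𝓝 0) (𝓝 (t * 0)) := tendsto_id.const_mul t
  rw [mul_zero] at this
  exact this.mono_left nhdsWithin_le_nhds

theorem r3_near {l : ℝ × ℝ} {p : ℝ × ℝ → Prop} (h : ∀ᶠ l' in 𝓝 l, p l') {t : ℝ} (ht : 0 < t) :
    ∀ᶠ r in 𝓝[>] (0 : ℝ), ∀ l' ∈ Metric.closedBall l (t * r), p l' :=
  (r3_scale ht).eventually ((eventually_closedBall_subset h).filter_mono nhdsWithin_le_nhds)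

theorem r3_rect (l : ℝ × ℝ) (α β : ℝ) : rect l α β ⊆ Metric.closedBall l (max α β) :=
  fun _ h => Metric.mem_closedBall.2
    (max_le_max (Metric.mem_closedBall.1 h.1) (Metric.mem_closedBall.1 h.2))

theorem r3_upd {ν : Measure (ℝ × ℝ)} {l : ℝ × ℝ} (h : UpD ν l) : ∃ j : ℕ,
    ∀ᶠ r in 𝓝[>] (0 : ℝ), ν (Metric.closedBall l r) ≤ ENNReal.ofReal ((j + 1) * r) := by
  obtain ⟨L, hL⟩ := h
  obtain ⟨j, hj⟩ := exists_nat_ge L
  refine ⟨j, ?_⟩
  filter_upwards [hL, self_mem_nhdsWithin] with r h1 h2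
  exact h1.trans (ENNReal.ofReal_le_ofReal (mul_le_mul_of_nonneg_right (by linarith) (le_of_lt h2)))

/-- the local argument at a point of density of a set with a tangent line -/
theorem r3_local {ν : Measure (ℝ × ℝ)} {F : Set (ℝ × ℝ)} {l : ℝ × ℝ} (hU : UpD ν l)
    (hL : LoD ν l)
    (hS : ∀ ε : ℝ, 0 < ε →
      ∀ᶠ r in 𝓝[>] (0 : ℝ), ν (Metric.closedBall l r \ F) ≤ ENNReal.ofReal (ε * r))
    (hD : (∃ D : ℝ, 0 < D ∧ ∀ᶠ l' in 𝓝 l, l' ∈ F → dist l' l ≤ D * |l'.1 - l.1|) ∨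
      ∀ ε : ℝ, 0 < ε → ∀ᶠ l' in 𝓝 l, l' ∈ F → |l'.1 - l.1| ≤ ε * dist l' l) : Tan ν l := by
  obtain ⟨j, hj⟩ := r3_upd hU
  obtain ⟨c, hc, hL⟩ := hL
  have e : ∀ r : ℝ, rect l (1 * r) (1 * r) = Metric.closedBall l r := fun r => by
    rw [one_mul, rect, closedBall_prod_same]
  refine ⟨(ENNReal.ofReal_pos.2 hc).trans_le (r3_lo (by simpa only [e] using hL)),
    (r3_up (A := j + 1) (by simpa only [e] using hj)).trans_lt ENNReal.ofReal_lt_top, ?_⟩
  refine hD.imp ?_ ?_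
  · rintro ⟨D, D0, hD⟩
    refine ⟨(j + 1) * D + 1, fun α β hα hβ => r3_up ?_⟩
    have hγ : 0 < max α β := lt_max_of_lt_left hα
    filter_upwards [(r3_scale (mul_pos D0 hα)).eventually hj,
      (r3_scale hγ).eventually (hS (α / max α β) (by positivity)), r3_near hD hγ,
      self_mem_nhdsWithin] with r h1 h2 h3 h4
    have r0 : 0 < r := h4
    have h5 : rect l (α * r) (β * r) ⊆
        Metric.closedBall l (D * α * r) ∪ Metric.closedBall l (max α β * r) \ F := fun l' h => by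
      have h6 := r3_rect _ _ _ h
      rw [← max_mul_of_nonneg _ _ r0.le] at h6
      by_cases h7 : l' ∈ F
      · refine Or.inl ((h3 l' h6 h7).trans ?_)
        rw [mul_assoc]
        exact mul_le_mul_of_nonneg_left h.1 D0.le
      · exact Or.inr ⟨h6, h7⟩
    refine ((measure_mono h5).trans (measure_union_le _ _)).trans ((add_le_add h1 h2).trans ?_)
    rw [← ENNReal.ofReal_add (by positivity) (by positivity)]
    refine le_of_eq (congrArg _ ?_)
    field_simp
  · intro hD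
    refine ⟨c / 2, by positivity, fun α β hα hβ => r3_lo ?_⟩
    filter_upwards [(r3_scale hβ).eventually hL, (r3_scale hβ).eventually (hS (c / 2) (by positivity)),
      r3_near (hD (α / β) (by positivity)) hβ, self_mem_nhdsWithin] with r h1 h2 h3 h4
    have r0 : 0 < r := h4
    have h5 : Metric.closedBall l (β * r) ⊆
        rect l (α * r) (β * r) ∪ Metric.closedBall l (β * r) \ F := fun l' h => by
      by_cases h7 : l' ∈ F
      · refine Or.inl ⟨(h3 l' h h7).trans ?_, Metric.mem_closedBall.2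
          ((le_max_right (dist l'.1 l.1) _).trans (Metric.mem_closedBall.1 h))⟩
        refine (mul_le_mul_of_nonneg_left h (by positivity)).trans (le_of_eq ?_)
        field_simp
      · exact Or.inr ⟨h, h7⟩
    have h6 := h1.trans (((measure_mono h5).trans (measure_union_le _ _)).trans
      (add_le_add_right h2 _))
    have e2 : c * (β * r) = c / 2 * β * r + c / 2 * (β * r) := by ring
    rw [e2, ENNReal.ofReal_add (by positivity) (by positivity)] at h6
    exact ENNReal.le_of_add_le_add_right ENNReal.ofReal_ne_top h6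

theorem r3_small (ν : Measure (ℝ × ℝ)) [IsFiniteMeasure ν] {F : Set (ℝ × ℝ)}
    (mF : MeasurableSet F) : ∀ᵐ l ∂ν, l ∈ F → UpD ν l → ∀ ε : ℝ, 0 < ε →
      ∀ᶠ r in 𝓝[>] (0 : ℝ), ν (Metric.closedBall l r \ F) ≤ ENNReal.ofReal (ε * r) := by
  filter_upwards [Besicovitch.ae_tendsto_measure_inter_div_of_measurableSet ν mF.compl]
    with l h hl hU ε hε
  obtain ⟨j, hj⟩ := r3_upd hU
  rw [indicator_of_notMem (not_not.2 hl)] at h
  have p0 : 0 < ε / (j + 1) := by positivity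
  filter_upwards [hj, h.eventually (gt_mem_nhds (ENNReal.ofReal_pos.2 p0))] with r h1 h2
  have h3 := (ENNReal.div_le_iff_le_mul (Or.inr ENNReal.ofReal_ne_top)
    (Or.inl (measure_ne_top _ _))).1 h2.le
  rw [sdiff_eq, inter_comm]
  refine h3.trans ((mul_le_mul_right h1 _).trans ?_)
  rw [← ENNReal.ofReal_mul p0.le]
  refine le_of_eq (congrArg _ ?_)
  field_simp

theorem r3_ac (ν : Measure (ℝ × ℝ)) [IsFiniteMeasure ν] {F : Set (ℝ × ℝ)} (mF : MeasurableSet F)
    {π : ℝ × ℝ → ℝ} (mπ : Measurable π) {K : ℝ} (hK : 0 < K)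
    (hF : ∀ l ∈ F, ∀ l' ∈ F, dist l' l ≤ K * |π l' - π l|) {p : ℝ → Prop} (hp : ∀ᵐ y, p y) :
    ∀ᵐ l ∂ν, l ∈ F → UpD ν l → p (π l) := by
  have key : ∀ j : ℕ, ν {l | l ∈ F ∧ (∀ᶠ r in 𝓝[>] (0 : ℝ),
      ν (Metric.closedBall l r) ≤ ENNReal.ofReal ((j + 1) * r)) ∧ ¬ p (π l)} = 0 := by
    intro j
    set S := {l | l ∈ F ∧ (∀ᶠ r in 𝓝[>] (0 : ℝ),
      ν (Metric.closedBall l r) ≤ ENNReal.ofReal ((j + 1) * r)) ∧ ¬ p (π l)} with hS
    have h1 : ν S ≤ (ν.restrict F).map π (π '' S) := by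
      refine le_trans ?_ (Measure.le_map_apply_image mπ.aemeasurable S)
      rw [Measure.restrict_apply' mF, inter_eq_left.2 fun l hl => hl.1]
    have h2 := (Besicovitch.vitaliFamily ((ν.restrict F).map π)).measure_le_of_frequently_le
      (Real.toNNReal ((j + 1) * K) • (volume : Measure ℝ)) Measure.AbsolutelyContinuous.rfl
      (π '' S) (by
        rintro _ ⟨l, hl, rfl⟩
        refine (Besicovitch.tendsto_filterAt _ (π l)).frequently (Eventually.frequently ?_)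
        filter_upwards [(r3_scale hK).eventually hl.2.1, self_mem_nhdsWithin] with r h3 h4
        have r0 : 0 < r := h4
        rw [Measure.map_apply mπ Metric.isClosed_closedBall.measurableSet,
          Measure.restrict_apply' mF, Measure.smul_apply, Real.volume_closedBall,
          ENNReal.smul_def, smul_eq_mul]
        refine (measure_mono fun l' hl' => ?_).trans (h3.trans ?_)
        · exact (hF l hl.1 l' hl'.2).trans (mul_le_mul_of_nonneg_left hl'.1 hK.le)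
        · refine le_trans ?_ (ENNReal.ofReal_mul (by positivity)).le
          refine ENNReal.ofReal_le_ofReal ?_
          have : 0 ≤ ((j : ℝ) + 1) * (K * r) := by positivity
          nlinarith)
    have h3 : volume (π '' S) = 0 :=
      measure_mono_null (by rintro _ ⟨l, hl, rfl⟩; exact hl.2.2) (ae_iff.1 hp)
    rw [Measure.smul_apply, h3, smul_zero] at h2
    exact le_antisymm (h1.trans h2) bot_le
  filter_upwards [ae_all_iff.2 fun j => measure_eq_zero_iff_ae_notMem.1 (key j)] with l h hl hU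
  obtain ⟨j, hj⟩ := r3_upd hU
  by_contra h'
  exact h j ⟨hl, hj, h'⟩

theorem r3_ext {G : Set (ℝ × ℝ)} {π f : ℝ × ℝ → ℝ} {K : ℝ}
    (h : ∀ l ∈ G, ∀ l' ∈ G, |f l' - f l| ≤ K * |π l' - π l|) :
    ∃ u : ℝ → ℝ, LipschitzWith (Real.toNNReal K) u ∧ ∀ l ∈ G, u (π l) = f l := by
  have h1 : LipschitzOnWith (Real.toNNReal K) (fun y => f (Function.invFunOn π G y)) (π '' G) := by
    refine LipschitzOnWith.of_dist_le' fun y hy y' hy' => ?_
    have := h _ (Function.invFunOn_mem hy') _ (Function.invFunOn_mem hy)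
    rwa [Function.invFunOn_eq hy, Function.invFunOn_eq hy'] at this
  obtain ⟨u, hu, hu'⟩ := h1.extend_real
  refine ⟨u, hu, fun l hl => ?_⟩
  have h2 : ∃ a ∈ G, π a = π l := ⟨l, hl, rfl⟩
  have h3 := h _ hl _ (Function.invFunOn_mem h2)
  rw [Function.invFunOn_eq h2, sub_self, abs_zero, mul_zero, abs_nonpos_iff, sub_eq_zero] at h3
  exact (hu' h2).symm.trans h3

/-- a Lipschitz graph has a tangent almost everywhere -/
theorem r3_graph (ν : Measure (ℝ × ℝ)) [IsFiniteMeasure ν] {G R : Set (ℝ × ℝ)}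
    (mR : MeasurableSet R) (hG : G ⊆ R) {π : ℝ × ℝ → ℝ} (cπ : Continuous π) {K C : ℝ}
    (hK : 0 < K) (hC : 0 < C) (h₁ : ∀ l ∈ G, ∀ l' ∈ G, dist l' l ≤ K * |π l' - π l|)
    (h₂ : ∀ l ∈ R, ∀ l' ∈ R, |π l' - π l| ≤ C * dist l' l) :
    ∀ᵐ l ∂ν, l ∈ G → UpD ν l → LoD ν l → Tan ν l := by
  obtain ⟨u, hu, eu⟩ := r3_ext (f := Prod.fst) fun l hl l' hl' =>
    (le_max_left _ _).trans (h₁ l hl l' hl')
  obtain ⟨v, hv, ev⟩ := r3_ext (f := Prod.snd) fun l hl l' hl' =>
    (le_max_right _ _).trans (h₁ l hl l' hl')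
  set F : Set (ℝ × ℝ) := R ∩ ({l | u (π l) = l.1} ∩ {l | v (π l) = l.2}) with hF
  have mF : MeasurableSet F := mR.inter
    ((isClosed_eq (hu.continuous.comp cπ) continuous_fst).inter
      (isClosed_eq (hv.continuous.comp cπ) continuous_snd)).measurableSet
  have hF' : ∀ l ∈ F, ∀ l' ∈ F, dist l' l ≤ K * |π l' - π l| := fun l hl l' hl' => by
    have a1 := hu.dist_le_mul (π l') (π l)
    have a2 := hv.dist_le_mul (π l') (π l)
    rw [Real.coe_toNNReal _ hK.le, show u (π l') = l'.1 from hl'.2.1,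
      show u (π l) = l.1 from hl.2.1] at a1
    rw [Real.coe_toNNReal _ hK.le, show v (π l') = l'.2 from hl'.2.2,
      show v (π l) = l.2 from hl.2.2] at a2
    exact max_le a1 a2
  filter_upwards [r3_small ν mF, r3_ac ν mF cπ.measurable hK hF' hu.ae_differentiableAt_real]
    with l a1 a2 hl hU hL
  have lF : l ∈ F := ⟨hG hl, eu l hl, ev l hl⟩
  refine r3_local hU hL (a1 lF hU) ?_
  have d1 := hasDerivAt_iff_isLittleO.1 (a2 lF hU).hasDerivAt
  set d := deriv u (π l) with hd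
  have d2 : ∀ ε : ℝ, 0 < ε → ∀ᶠ l' in 𝓝 l, l' ∈ F →
      |l'.1 - l.1 - (π l' - π l) * d| ≤ ε * |π l' - π l| := fun ε hε => by
    filter_upwards [(cπ.tendsto l).eventually (d1.def hε)] with l' h h'
    rwa [show u (π l') = l'.1 from h'.2.1, show u (π l) = l.1 from lF.2.1] at h
  by_cases h0 : d = 0
  · refine Or.inr fun ε hε => (d2 (ε / C) (by positivity)).mono fun l' h h' => ?_
    have b1 := h h'
    rw [h0, mul_zero, sub_zero] at b1
    refine b1.trans ((mul_le_mul_of_nonneg_left (h₂ l lF.1 l' h'.1) (by positivity)).trans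
      (le_of_eq ?_))
    field_simp
  · have d0 : 0 < |d| := abs_pos.2 h0
    refine Or.inl ⟨K * (2 / |d|), by positivity,
      (d2 (|d| / 2) (by positivity)).mono fun l' h h' => (hF' l lF l' h').trans ?_⟩
    have b1 := h h'
    have b2 := abs_sub_abs_le_abs_sub ((π l' - π l) * d) (l'.1 - l.1)
    rw [abs_sub_comm ((π l' - π l) * d), abs_mul] at b2
    rw [mul_assoc]
    refine mul_le_mul_of_nonneg_left ?_ hK.le
    rw [div_mul_eq_mul_div, le_div_iff₀ d0]
    linarith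

theorem r3_dq (l l' : ℝ × ℝ) : |l'.1 + l'.2 - (l.1 + l.2)| ≤ 2 * dist l' l := by
  have h1 : |l'.1 - l.1| ≤ dist l' l := le_max_left _ _
  have h2 : |l'.2 - l.2| ≤ dist l' l := le_max_right _ _
  have h3 := abs_add_le (l'.1 - l.1) (l'.2 - l.2)
  rw [show l'.1 - l.1 + (l'.2 - l.2) = l'.1 + l'.2 - (l.1 + l.2) by ring] at h3
  linarith

/-- the cone condition -/
theorem r3_cone {ν : Measure (ℝ × ℝ)} {R : Set (ℝ × ℝ)} (hR : ν Rᶜ = 0) {a b m C x : ℝ}
    (hx : x ∈ Ioo (a + m) (b - m)) (hm : 0 < m) (hC : 0 < C)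
    (h₁ : ∀ l ∈ R, ∀ l' ∈ R,
      dist l' l ≤ C * (|piX x l' - piX x l| + |l'.1 + l'.2 - (l.1 + l.2)|))
    (h₂ : ∀ l ∈ R, ∀ l' ∈ R, |piX x l' - piX x l| ≤ C * dist l' l) :
    ∃ ε : ℝ, 0 < ε ∧ ∀ (c η : ℝ) (l l' : ℝ × ℝ), 0 < c → l ∈ R → l' ∈ R → dist l' l < η / 4 →
      r2e ν a b l η < ENNReal.ofReal (c * ε / 4) →
      (∀ r : ℝ, 0 < r → r < η → ENNReal.ofReal (c * r) ≤ ν (Metric.closedBall l' r)) →
      dist l' l ≤ C * (1 + 2 / m) * |piX x l' - piX x l| := by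
  set ε : ℝ := min 1 (m / 2 / ((C + 2 * m) * (C * (m / 2 + 1)))) with hε
  have ε0 : 0 < ε := lt_min one_pos (by positivity)
  have ε1 : ε ≤ 1 := min_le_left _ _
  have ε2 : ε * ((C + 2 * m) * (C * (m / 2 + 1))) ≤ m / 2 :=
    (le_div_iff₀ (by positivity)).1 (min_le_right _ _)
  refine ⟨ε, ε0, fun c η l l' hc hl hl' hd hE hL => ?_⟩
  have a1 := h₁ l hl l' hl'
  by_cases h : m / 2 * |l'.1 + l'.2 - (l.1 + l.2)| ≤ |piX x l' - piX x l|
  · refine a1.trans ?_
    rw [mul_assoc]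
    refine mul_le_mul_of_nonneg_left ?_ hC.le
    rw [← le_div_iff₀' (by positivity), div_div_eq_mul_div] at h
    rw [add_mul, one_mul, div_mul_eq_mul_div, mul_comm 2]
    linarith
  exfalso
  have h' := not_le.1 h
  have a2 := r3_dq l l'
  set s := dist l' l with hs
  set q := |l'.1 + l'.2 - (l.1 + l.2)| with hq
  have q0 : 0 < q := (mul_pos_iff_of_pos_left (by positivity)).1 ((abs_nonneg _).trans_lt h')
  have s0 : 0 < s := by linarith
  have a3 : s ≤ C * (m / 2 + 1) * q := by nlinarith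
  have a4 : (C + 2 * m) * (ε * s) ≤ m / 2 * q := by
    have := mul_le_mul_of_nonneg_left a3 (show 0 ≤ (C + 2 * m) * ε by positivity)
    nlinarith
  have εs : ε * s ≤ s := mul_le_of_le_one_left s0.le ε1
  have b1 : ENNReal.ofReal (1 / (4 * s)) * ν (Metric.closedBall l' (ε * s)) ≤ r2e ν a b l η := by
    rw [← lintegral_indicator_const Metric.isClosed_closedBall.measurableSet]
    refine lintegral_mono_ae ?_
    filter_upwards [show ∀ᵐ l' ∂ν, l' ∈ R from hR] with k hk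
    by_cases h1 : k ∈ Metric.closedBall l' (ε * s)
    · have c1 : dist k l' ≤ ε * s := h1
      have c2 := (h₂ l' hl' k hk).trans (mul_le_mul_of_nonneg_left c1 hC.le)
      have c3 := r3_dq l' k
      have c4 := abs_add_le (piX x k - piX x l') (piX x l' - piX x l)
      have c5 := abs_add_le (k.1 + k.2 - (l'.1 + l'.2)) (l'.1 + l'.2 - (l.1 + l.2))
      have c6 := abs_sub_abs_le_abs_sub (l'.1 + l'.2 - (l.1 + l.2)) (k.1 + k.2 - (l.1 + l.2))
      rw [sub_add_sub_cancel] at c4 c5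
      rw [sub_sub_sub_cancel_right, abs_sub_comm (l'.1 + l'.2) (k.1 + k.2)] at c6
      have c7 : |piX x k - piX x l| / m < |k.1 + k.2 - (l.1 + l.2)| := by
        rw [div_lt_iff₀ hm]
        nlinarith
      have c8 : 0 < |k.1 + k.2 - (l.1 + l.2)| := lt_of_le_of_lt (by positivity) c7
      rw [indicator_of_mem h1, indicator_of_mem
        (show k ∈ {k : ℝ × ℝ | |k.1 + k.2 - (l.1 + l.2)| < η} by
          rw [mem_ofPred_eq]; linarith), r2_cross hx hm le_rfl c7]
      exact ENNReal.ofReal_le_ofReal (one_div_le_one_div_of_le c8 (by linarith))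
    · rw [indicator_of_notMem h1]
      exact bot_le
  have b2 := (mul_le_mul_right (hL (ε * s) (by positivity) (by linarith)) _).trans b1
  rw [← ENNReal.ofReal_mul (by positivity)] at b2
  refine (b2.trans_lt hE).ne (congrArg _ ?_)
  field_simp

/-- rectifiability: lower density and finite crossing energy give a tangent -/
theorem tan_of_lod {ν : Measure (ℝ × ℝ)} {R : Set (ℝ × ℝ)} {κ Λ x₀ x₁ : ℝ}
    (hG : Geo ν R κ Λ x₀ x₁) {a b : ℝ} (ha : x₀ < a) (hab : a < b) (hb : b < x₁)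
    (hE : ∀ᵐ l ∂ν, ∫⁻ l', cr a b l l' ∂ν < ⊤) (hU : ∀ᵐ l ∂ν, UpD ν l) :
    ∀ᵐ l ∂ν, LoD ν l → Tan ν l := by
  have := hG.fin
  obtain ⟨C, hC1, hC⟩ := geo_lip hG
  have C0 : 0 < C := one_pos.trans_le hC1
  have hx : (a + b) / 2 ∈ Ioo x₀ x₁ := ⟨by linarith, by linarith⟩
  have m0 : 0 < (b - a) / 3 := by linarith
  have h₂ := fun l hl l' hl' => (hC l hl l' hl' _ hx).2.2
  obtain ⟨ε, ε0, hε⟩ := r3_cone (a := a) (b := b) hG.conc ⟨by linarith, by linarith⟩ m0 C0
    (fun l hl l' hl' => (hC l hl l' hl' _ hx).2.1) h₂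
  obtain ⟨Q, hQ, dQ⟩ := TopologicalSpace.exists_countable_dense (ℝ × ℝ)
  have cπ : Continuous (piX ((a + b) / 2)) := by
    unfold piX
    fun_prop
  let G : ℝ → ℝ → ℝ × ℝ → Set (ℝ × ℝ) := fun c η q =>
    {l | l ∈ R ∧ dist l q < η / 8 ∧ r2e ν a b l η < ENNReal.ofReal (c * ε / 4) ∧
      ∀ r : ℝ, 0 < r → r < η → ENNReal.ofReal (c * r) ≤ ν (Metric.closedBall l r)}
  have key : ∀ c η q, 0 < c → ∀ᵐ l ∂ν, l ∈ G c η q → UpD ν l → LoD ν l → Tan ν l :=
    fun c η q hc => r3_graph ν hG.meas (fun l hl => hl.1) cπ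
      (K := C * (1 + 2 / ((b - a) / 3))) (by positivity) C0
      (fun l hl l' hl' => hε c η l l' hc hl.1 hl'.1
        (by linarith [dist_triangle_right l' l q, hl.2.1, hl'.2.1]) hl.2.2.1 hl'.2.2.2) h₂
  filter_upwards [ae_all_iff.2 fun j : ℕ => ae_all_iff.2 fun k : ℕ => (ae_ball_iff hQ).2
    fun q _ => key (1 / ((j : ℝ) + 1)) (1 / ((k : ℝ) + 1)) q Nat.one_div_pos_of_nat, hE, hU,
    show ∀ᵐ l ∂ν, l ∈ R from hG.conc] with l h1 h2 h3 h4 h5
  obtain ⟨c, c0, hc⟩ := id h5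
  obtain ⟨j, hj⟩ := exists_nat_one_div_lt c0
  obtain ⟨η, η0, hη⟩ := (nhdsGT_basis (0 : ℝ)).eventually_iff.1 hc
  have p0 : 0 < 1 / ((j : ℝ) + 1) * ε / 4 := by positivity
  obtain ⟨k, k1, k2⟩ := (((r2_tail h2).eventually (gt_mem_nhds (ENNReal.ofReal_pos.2 p0))).and
    (tendsto_one_div_add_atTop_nhds_zero_nat.eventually (gt_mem_nhds η0))).exists
  obtain ⟨q, q1, q2⟩ := dQ.exists_dist_lt l (show 0 < 1 / ((k : ℝ) + 1) / 8 by positivity)
  refine h1 j k q q1 ⟨h4, q2, k1, fun r r0 r1 => le_trans ?_ (hη ⟨r0, r1.trans k2⟩)⟩ h3 h5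
  exact ENNReal.ofReal_le_ofReal (mul_le_mul_of_nonneg_right hj.le r0.le)

end Pool.Agent.MP_a28cf0_nt.Four
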